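import Pool.Agent.MP42.K.Defs
import Pool.Agent.MP42.H.RowsR
import Pool.Agent.MP42.H.TreeEx

/-!
# Core rows (one row per band) of a refinement, and a spanning tree of the junctions (helper73)

* `coreR P0 r j`: the walls of the levels `j` modulo `r` of the refinement `P0.refine r`;
* `Core1.exists_tree`: a spanning tree of the junctions.
-/

set_option autoImplicit false
set_option linter.unusedSectionVars false

namespace Pool.Agent.MP42K

open Pool.Agent.Helper55.UNF Pool.Agent.Helper55.UNF.GridSolid Pool.Agent.MP42G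
open Pool.Agent.MP42H Pool.Agent.MP42X Pool.Agent.MP42R

/-- The core rows of the refinement: the walls of level `j` modulo `r`. -/
def coreR (P0 : GridSolid) (r j : ℕ) (hr : 0 < r) (hj : 1 ≤ j) (hj2 : j + 2 ≤ r) :
    Core1 (P0.refine r hr) where
  core f := f.1.2.1 ≠ 2 ∧ f.1.1 2 % (r : ℤ) = j
  V s hs := by
    have h1' : s.1.d.1 ≠ 2 := hs.1
    have h2 := s.2.2
    show (cross s.1.d s.1.e).1 = 2 ∨ (cross s.1.d (cross s.1.d s.1.e)).1 = 2
    generalize s.1.d = d at *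
    generalize s.1.e = e at *
    clear hs
    revert d e
    decide
  E s hs := by
    have h1 : s.facet.1.2.1 ≠ 2 := (V_axes hs).1
    have h2 : s.stE.facet.1.2.1 ≠ 2 := V_stE_wall hs
    have h3 : s.stE.facet.1.1 2 = s.facet.1.1 2 := V_stE_z hs
    rw [h3]
    exact ⟨fun h => ⟨h1, h.2⟩, fun h => ⟨h2, h.2⟩⟩
  N s hs h0 := by
    obtain ⟨h1, h2⟩ := h0
    have h2' : s.1.c 2 % (r : ℤ) = j := h2
    have hj2' : (j : ℤ) + 2 ≤ r := by exact_mod_cast hj2
    have hz : s.1.c 2 % (r : ℤ) + 1 < r := by omega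
    have h4 := stN_up hs hz
    have h5 := (emod_up hr hz).2
    have hc : s.stN.facet.1.1 2 = s.1.c 2 + 1 := by
      show s.stN.1.c 2 = s.1.c 2 + 1
      rw [h4]; exact shift_up_apply _
    refine ⟨?_, ?_⟩
    · show cross s.stN.1.d s.stN.1.e = (2, true)
      rw [h4]; exact hs
    · rintro ⟨-, h6⟩
      rw [hc, h5] at h6
      omega
  S s hs h0 := by
    obtain ⟨h1, h2⟩ := h0
    have h2' : s.stN.1.c 2 % (r : ℤ) = j := h2
    obtain ⟨h4, h5, h6⟩ := of_stN_up hs (by rw [h2']; exact_mod_cast hj)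
    refine ⟨h4, ?_⟩
    rintro ⟨-, h7⟩
    have h7' : s.1.c 2 % (r : ℤ) = j := h7
    omega
  comm s hs h0 := by
    have hj2' : (j : ℤ) + 2 ≤ r := by exact_mod_cast hj2
    refine comm_up hs ?_
    rcases h0 with ⟨-, h1⟩ | ⟨h1, h2⟩
    · have h1' : s.1.c 2 % (r : ℤ) = j := h1
      omega
    · have h2' : s.stN.1.c 2 % (r : ℤ) = j := h2
      obtain ⟨h4, h5, h6⟩ := of_stN_up (U_stN_of_wall hs h1)
        (by rw [h2']; exact_mod_cast hj)
      omega

lemma coreR_iff {P0 : GridSolid} {r j : ℕ} (hr : 0 < r) (hj : 1 ≤ j) (hj2 : j + 2 ≤ r)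
    (f : (P0.refine r hr).Facet) :
    (coreR P0 r j hr hj hj2).core f ↔ (f.1.2.1 ≠ 2 ∧ f.1.1 2 % (r : ℤ) = j) := Iff.rfl

variable {P : GridSolid}

namespace Core1

variable (R : Core1 P)

lemma Rim.E {r : P.FSt} (h : R.Rim r) : R.Rim r.stE :=
  ⟨(IsV_stE r).2 h.1, (R.E r h.1).2 h.2⟩

lemma Rim.W {r : P.FSt} (h : R.Rim r) : R.Rim (pE.symm r) := by
  have e := pE_symm_stE r
  have h1 : IsV (pE.symm r) := by
    have := (IsV_stE (pE.symm r)).1
    rw [e] at this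
    exact this h.1
  refine ⟨h1, ?_⟩
  have h2 := R.E _ h1
  rw [e] at h2
  exact h2.1 h.2

lemma Rim.r2 {r : P.FSt} (h : R.Rim r) : R.Rim r.r2 := ⟨(IsV_r2 r).2 h.1, h.2⟩

lemma Rim.pow {r : P.FSt} (h : R.Rim r) (n : ℕ) : R.Rim ((pE ^ n) r) := by
  induction n with
  | zero => exact h
  | succ n ih => rw [pow_succ', Equiv.Perm.mul_apply]; exact Rim.E R ih

lemma Rim.same {r s : P.FSt} (h : R.Rim r) (hs : pE.SameCycle r s) : R.Rim s := by
  obtain ⟨n, rfl⟩ := hs.exists_nat_pow_eq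
  exact Rim.pow R h n

/-- the facet of the junction at a rim state -/
def jf (r : P.FSt) : P.Facet := (pN.symm r).facet

/-- the junction facet of a rim state with north up -/
lemma up_S {r : P.FSt} (h : IsU r) (hc : R.core r.facet) :
    IsU (pN.symm r) ∧ ¬ R.core (pN.symm r).facet :=
  R.S (pN.symm r) (by rw [stN_pN_symm]; exact h) (by rw [stN_pN_symm]; exact hc)

/-- the junction facet of a rim state is not core -/
lemma jf_ncore {r : P.FSt} (h : R.Rim r) : ¬ R.core (jf r) := by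
  rcases U_or h.1 with h1 | h1
  · exact (R.up_S h1 h.2).2
  · have h2 := (R.N r.r2 h1 h.2).2
    show ¬ R.core (pN.symm r).facet
    have e : pN.symm r = r.r2.stN.r2 := pN_symm_apply r
    rw [e, FSt.facet_r2]
    exact h2

lemma jf_V {r : P.FSt} (h : R.Rim r) : IsV (pN.symm r) := by
  rcases U_or h.1 with h1 | h1
  · exact IsV_of_U (R.up_S h1 h.2).1
  · have h2 := (R.N r.r2 h1 h.2).1
    have e : pN.symm r = r.r2.stN.r2 := pN_symm_apply r
    rw [e, IsV_r2]
    exact IsV_of_U h2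

/-- the steps south and east commute at a rim -/
lemma S_E {r : P.FSt} (h : R.Rim r) : (pN.symm r).stE = pN.symm r.stE := by
  rcases U_or h.1 with h1 | h1
  · have h2 := R.comm (pN.symm r) (R.up_S h1 h.2).1 (Or.inr (by rw [stN_pN_symm]; exact h.2))
    rw [stN_pN_symm] at h2
    rw [← h2, pN_s]
  · -- `u` is the state with north up on the east neighbour
    have hu : IsU (pE.symm r.r2) := by
      have := (IsU_stE (pE.symm r.r2)).1
      rw [pE_symm_stE] at this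
      exact this h1
    have hc : R.core (pE.symm r.r2).facet := (Rim.W R (Rim.r2 R h)).2
    have h2 := R.comm (pE.symm r.r2) hu (Or.inl hc)
    rw [pE_symm_stE] at h2
    have e1 : pN.symm r = r.r2.stN.r2 := pN_symm_apply r
    have e2 : pN.symm r.stE = r.stE.r2.stN.r2 := pN_symm_apply _
    rw [e1, e2, stE_r2 r, h2, r2_stE, pE_s]

lemma QJ.jf_E {Q : P.Facet → Prop} (hQ : R.QJ Q) {r : P.FSt} (h : R.Rim r) :
    Q (jf r.stE) ↔ Q (jf r) := by
  have h1 := hQ (pN.symm r) (R.jf_ncore h) (by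
    rw [R.S_E h]; exact R.jf_ncore (Rim.E R h))
  rw [R.S_E h] at h1
  exact h1.symm

lemma QJ.jf {Q : P.Facet → Prop} (hQ : R.QJ Q) {r s : P.FSt} (h : R.Rim r)
    (hs : pE.SameCycle r s) : Q (jf s) ↔ Q (Core1.jf r) := by
  obtain ⟨n, rfl⟩ := hs.exists_nat_pow_eq
  clear hs
  induction n with
  | zero => exact Iff.rfl
  | succ n ih =>
    rw [pow_succ', Equiv.Perm.mul_apply]
    exact (QJ.jf_E R hQ (Rim.pow R h n)).trans ih

/-- every core facet carries a state with north up -/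
lemma exists_U {f : P.Facet} (hf : R.core f) : ∃ t : P.FSt, t.facet = f ∧ IsU t := by
  obtain ⟨⟨c, d⟩, hcd⟩ := f
  have hs : ∃ s : P.FSt, s.facet = ⟨(c, d), hcd⟩ := by
    have : ∃ e : Dir, d.1 ≠ e.1 := by
      have : ∀ d : Dir, ∃ e : Dir, d.1 ≠ e.1 := by decide
      exact this d
    obtain ⟨e, he⟩ := this
    exact ⟨⟨⟨c, d, e⟩, hcd, he⟩, rfl⟩
  obtain ⟨s, hs⟩ := hs
  have h1 : R.core s.facet := by rw [hs]; exact hf
  rcases R.V s h1 with h | h
  · rcases U_or h with h | h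
    · exact ⟨s, hs, h⟩
    · exact ⟨s.r2, hs, h⟩
  · rcases U_or h with h | h
    · exact ⟨s.rL, hs, h⟩
    · exact ⟨s.rL.r2, hs, h⟩

/-- a predicate on the junctions extended over the core by the value below -/
def Ext (Q : P.Facet → Prop) (f : P.Facet) : Prop :=
  (¬ R.core f ∧ Q f) ∨ ∃ s : P.FSt, s.facet = f ∧ IsU s ∧ R.core f ∧ Q (jf s)

lemma Ext.zero {Q : P.Facet → Prop} {f : P.Facet} (hf : ¬ R.core f) : R.Ext Q f ↔ Q f := by
  constructor
  · rintro (h | ⟨s, h1, h2, h3, -⟩)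
    · exact h.2
    · exact absurd h3 hf
  · intro h
    exact Or.inl ⟨hf, h⟩

lemma Ext.cu {Q : P.Facet → Prop} {s : P.FSt} (hs : IsU s) (hc : R.core s.facet) :
    R.Ext Q s.facet ↔ Q (jf s) := by
  constructor
  · rintro (h | ⟨t, h1, h2, h3, h4⟩)
    · exact absurd hc h.1
    · have := IsU_unique h1 h2 hs
      rwa [this] at h4
  · intro h
    exact Or.inr ⟨s, rfl, hs, hc, h⟩

lemma Ext.E {Q : P.Facet → Prop} (hQ : R.QJ Q) {s : P.FSt} (hs : IsU s) (hc : R.core s.facet) :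
    R.Ext Q s.facet ↔ R.Ext Q s.stE.facet := by
  have hR : R.Rim s := ⟨IsV_of_U hs, hc⟩
  rw [Ext.cu R hs hc, Ext.cu R ((IsU_stE s).2 hs) (Rim.E R hR).2]
  exact (QJ.jf_E R hQ hR).symm

lemma Ext.N {Q : P.Facet → Prop}
    (hb : ∀ r, R.Rim r → (Q (pN.symm r).facet ↔ Q (pN.symm r.r2).facet)) {s : P.FSt}
    (hs : IsU s) (hc : R.core s.facet) : R.Ext Q s.facet ↔ R.Ext Q s.stN.facet := by
  rw [Ext.cu R hs hc, Ext.zero R (R.N s hs hc).2]
  have h1 := hb s ⟨IsV_of_U hs, hc⟩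
  rw [pN_symm_r2, FSt.facet_r2] at h1
  exact h1

lemma Ext.S {Q : P.Facet → Prop} {s : P.FSt} (hs : IsU s) (hc : R.core s.facet) :
    R.Ext Q s.facet ↔ R.Ext Q (pN.symm s).facet := by
  rw [Ext.cu R hs hc, Ext.zero R (R.up_S hs hc).2]
  rfl

lemma Ext.core {Q : P.Facet → Prop} (hQ : R.QJ Q)
    (hb : ∀ r, R.Rim r → (Q (pN.symm r).facet ↔ Q (pN.symm r.r2).facet)) (s : P.FSt)
    (h0 : R.core s.facet) : R.Ext Q s.facet ↔ R.Ext Q s.stE.facet := by
  rcases R.V s h0 with h | h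
  · rcases U_or h with h | h
    · exact Ext.E R hQ h h0
    · have hR : R.Rim s.r2 := ⟨IsV_of_U h, h0⟩
      have hu : IsU (pE.symm s.r2) := by
        have := (IsU_stE (pE.symm s.r2)).1
        rw [pE_symm_stE] at this
        exact this h
      have h1 := Ext.E R hQ hu (Rim.W R hR).2
      rw [stE_pE_symm, pE_symm_r2, FSt.facet_r2, FSt.facet_r2] at h1
      exact h1.symm
  · have e : s.rR.stN = s.stE.rR := by
      show s.rR.rL.stE.rR = _
      rw [FSt.rR_rL]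
    rcases U_or h with h | h
    · -- `s.rL` is up, `s.rR` is down
      have h1 := Ext.S (Q := Q) R h h0
      have h2 : pN.symm s.rL = s.stE.rR.r2 := by
        rw [← e, ← pN_symm_r2, FSt.rR_r2]
      rw [h2] at h1
      exact h1
    · have hc : IsU s.rR := by rw [← FSt.rL_r2]; exact h
      have h1 := Ext.N R hb hc h0
      rw [e] at h1
      exact h1

lemma Ext.step {Q : P.Facet → Prop} (hQ : R.QJ Q)
    (hb : ∀ r, R.Rim r → (Q (pN.symm r).facet ↔ Q (pN.symm r.r2).facet)) (s : P.FSt) :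
    R.Ext Q s.facet ↔ R.Ext Q s.stE.facet := by
  by_cases h0 : R.core s.facet
  · exact Ext.core R hQ hb s h0
  · by_cases h1 : R.core s.stE.facet
    · have h2 := Ext.core R hQ hb s.stE.r2 h1
      rw [FSt.stE_inv, FSt.facet_r2, FSt.facet_r2] at h2
      exact h2.symm
    · rw [Ext.zero R h0, Ext.zero R h1]
      exact hQ s h0 h1

/-- all bands connect the junctions -/
lemma conn_all (hP : P.IsOrthogonalPolyhedron) {Q : P.Facet → Prop} (hQ : R.QJ Q)
    (hb : ∀ r, R.Rim r → (Q (pN.symm r).facet ↔ Q (pN.symm r.r2).facet)) (f g : P.Facet)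
    (hf : ¬ R.core f) (hg : ¬ R.core g) : Q f ↔ Q g := by
  rw [← Ext.zero (Q := Q) R hf, ← Ext.zero (Q := Q) R hg]
  obtain ⟨w⟩ := hP.2.preconnected f g
  clear hf hg
  induction w with
  | nil => exact Iff.rfl
  | @cons u v w hadj _ ih =>
    obtain ⟨s, hs1, hs2⟩ := Pool.Agent.MP42.Geo.exists_state_of_adj hP.1 hadj
    rw [← ih, ← hs1, ← hs2]
    exact Ext.step R hQ hb s

/-- the sets of bands that connect the junctions -/
structure Good (T : Set P.FSt) : Prop where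
  e : ∀ r, R.Rim r → (r.stE ∈ T ↔ r ∈ T)
  f : ∀ r, R.Rim r → (r.r2 ∈ T ↔ r ∈ T)
  conn : ∀ Q : P.Facet → Prop, R.QJ Q →
    (∀ r, R.Rim r → r ∈ T → (Q (pN.symm r).facet ↔ Q (pN.symm r.r2).facet)) →
    ∀ f g, ¬ R.core f → ¬ R.core g → (Q f ↔ Q g)

/-- the other rim of a band, as a cycle -/
lemma r2_cyc {r s : P.FSt} (h : pE.SameCycle r s) : pE.SameCycle r.r2 s.r2 := by
  obtain ⟨n, rfl⟩ := h.exists_nat_pow_eq
  have key : ∀ n : ℕ, ((pE ^ n) r).r2 = (pE.symm ^ n) r.r2 := by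
    intro n
    induction n with
    | zero => rfl
    | succ n ih =>
      rw [pow_succ', Equiv.Perm.mul_apply, pE_apply, stE_r2, ih, pow_succ', Equiv.Perm.mul_apply]
  rw [key]
  exact same_symm_pow _ _

lemma r2_cyc_iff {r s : P.FSt} : pE.SameCycle r s.r2 ↔ pE.SameCycle r.r2 s := by
  constructor
  · intro h
    have := r2_cyc h
    rwa [FSt.r2_r2] at this
  · intro h
    have := r2_cyc h
    rwa [FSt.r2_r2] at this

/-- **A spanning tree of the junctions.** -/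
theorem exists_tree {P : GridSolid} (R : Core1 P) (hP : P.IsOrthogonalPolyhedron) :
    ∃ tr : P.FSt → Prop, (∀ r, R.Rim r → (tr r.stE ↔ tr r)) ∧
      (∀ r, R.Rim r → (tr r.r2 ↔ tr r)) ∧ R.Tree tr := by
  have hne : {T : Set P.FSt | R.Good T}.Nonempty := by
    refine ⟨Set.univ, ⟨fun _ _ => Iff.rfl, fun _ _ => Iff.rfl, ?_⟩⟩
    intro Q hQ hb f g hf hg
    exact R.conn_all hP hQ (fun r hr => hb r hr (Set.mem_univ _)) f g hf hg
  obtain ⟨T, hT⟩ := (Set.toFinite {T : Set P.FSt | R.Good T}).exists_minimal hne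
  have hG : R.Good T := hT.prop
  refine ⟨fun r => r ∈ T, hG.e, hG.f, ⟨hG.conn, ?_⟩⟩
  intro r₀ h₀ ht₀
  by_contra hcon
  push Not at hcon
  set T' : Set P.FSt := {r | r ∈ T ∧ ¬ pE.SameCycle r₀ r ∧ ¬ pE.SameCycle r₀.r2 r}
    with hT'
  have hGood : R.Good T' := by
    refine ⟨?_, ?_, ?_⟩
    · intro r hr
      have e1 : pE.SameCycle r₀ r.stE ↔ pE.SameCycle r₀ r := by
        rw [← pE_apply]; exact Equiv.Perm.sameCycle_apply_right
      have e2 : pE.SameCycle r₀.r2 r.stE ↔ pE.SameCycle r₀.r2 r := by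
        rw [← pE_apply]; exact Equiv.Perm.sameCycle_apply_right
      show (r.stE ∈ T ∧ ¬ _ ∧ ¬ _) ↔ (r ∈ T ∧ ¬ _ ∧ ¬ _)
      rw [hG.e r hr, e1, e2]
    · intro r hr
      have e1 : pE.SameCycle r₀ r.r2 ↔ pE.SameCycle r₀.r2 r := r2_cyc_iff
      have e2 : pE.SameCycle r₀.r2 r.r2 ↔ pE.SameCycle r₀ r := by
        rw [r2_cyc_iff, FSt.r2_r2]
      show (r.r2 ∈ T ∧ ¬ _ ∧ ¬ _) ↔ (r ∈ T ∧ ¬ _ ∧ ¬ _)
      rw [hG.f r hr, e1, e2]
      tauto
    · intro Q hQ hb f g hf hg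
      have h1 : Q (Core1.jf r₀) ↔ Q (Core1.jf r₀.r2) := by
        apply hcon Q hQ
        intro r hr ht n1 n2
        exact hb r hr ⟨ht, n1, n2⟩
      refine hG.conn Q hQ ?_ f g hf hg
      intro r hr ht
      show Q (Core1.jf r) ↔ Q (Core1.jf r.r2)
      by_cases c1 : pE.SameCycle r₀ r
      · have c2 := r2_cyc c1
        rw [QJ.jf R hQ h₀ c1, QJ.jf R hQ (Rim.r2 R h₀) c2, h1]
      · by_cases c2 : pE.SameCycle r₀.r2 r
        · have c3 := r2_cyc c2
          rw [FSt.r2_r2] at c3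
          rw [QJ.jf R hQ (Rim.r2 R h₀) c2, QJ.jf R hQ h₀ c3, h1]
        · exact hb r hr ⟨ht, c1, c2⟩
  have hle : T' ≤ T := fun r hr => hr.1
  have h2 : r₀ ∈ T' := hT.le_of_le hGood hle ht₀
  exact h2.2.1 (Equiv.Perm.SameCycle.refl _ _)

end Core1

end Pool.Agent.MP42K
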