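import Pool.Agent.MP42.K.Part
import Pool.Agent.MP42.K.Core

/-!
# From one core row to seven core rows (owner helper18)

* `cs σ`: the coarse state of a state `σ` of a refinement; `sub s i j` is the part `(i, j)` of `s`;
* `Core1.toRows7 : Core1 P → Rows7 (P.refine 7 h)`: the seven rows of parts of the core facets;
* rims, far rims, circles of rims, junctions, trees.
-/

set_option autoImplicit false
set_option linter.unusedSectionVars false

namespace Pool.Agent.MP42K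

open Pool.Agent.Helper55.UNF Pool.Agent.Helper55.UNF.GridSolid Pool.Agent.MP42G
open Pool.Agent.MP42H Pool.Agent.MP42X Pool.Agent.MP42R

variable {P : GridSolid}

/-! ## Coarse states -/

section cs

variable {k : ℕ} {hk : 0 < k}

/-- the coarse state of a state of the refinement -/
noncomputable def cs (σ : (P.refine k hk).FSt) : P.FSt :=
  ⟨⟨(co hk σ.facet).1.1, σ.1.d, σ.1.e⟩, (co hk σ.facet).2, σ.2.2⟩

lemma cs_facet (σ : (P.refine k hk).FSt) : (cs σ).facet = co hk σ.facet := rfl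

@[simp] lemma cs_sub (s : P.FSt) {i j : ℕ} (hi : i < k) (hj : j < k) :
    cs (sub hk s i j hi hj) = s := by
  apply st_fe1
  · rw [cs_facet, co_sub]
  · rfl

/-- every state is a part of its coarse state -/
lemma sub_cs (σ : (P.refine k hk).FSt) :
    σ = sub hk (cs σ) (ix k σ.1.e σ.1.c) (ix k σ.1.n σ.1.c) (ix_lt hk _ _) (ix_lt hk _ _) := by
  have h := sub_ix hk (cs σ) σ.facet rfl
  exact (st_fe1 h rfl).symm

lemma exists_sub (σ : (P.refine k hk).FSt) : ∃ (s : P.FSt) (i j : ℕ) (hi : i < k) (hj : j < k),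
    σ = sub hk s i j hi hj := ⟨_, _, _, _, _, sub_cs σ⟩

lemma sub_inj {s t : P.FSt} {i j i' j' : ℕ} {hi : i < k} {hj : j < k} {hi' : i' < k}
    {hj' : j' < k} (h : sub hk s i j hi hj = sub hk t i' j' hi' hj') : s = t ∧ i = i' ∧ j = j' := by
  have h1 : s = t := by
    have := congrArg cs h
    simpa using this
  subst h1
  have h2 : subC k s.1 i j = subC k s.1 i' j' := congrArg (fun σ => σ.1.c) h
  refine ⟨rfl, ?_, ?_⟩
  · rw [← ix_subC_e s.1 s.2.2 hi hj, h2, ix_subC_e s.1 s.2.2 hi' hj']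
  · rw [← ix_subC_n s.1 s.2.2 hi hj, h2, ix_subC_n s.1 s.2.2 hi' hj']

lemma sub_eq_iff {s t : P.FSt} {i j i' j' : ℕ} {hi : i < k} {hj : j < k} {hi' : i' < k}
    {hj' : j' < k} : sub hk s i j hi hj = sub hk t i' j' hi' hj' ↔ s = t ∧ i = i' ∧ j = j' :=
  ⟨sub_inj, fun ⟨h1, h2, h3⟩ => sub_congr _ _ h1 h2 h3⟩

lemma cs_r2 (σ : (P.refine k hk).FSt) : cs σ.r2 = (cs σ).r2 := rfl
lemma cs_rL (σ : (P.refine k hk).FSt) : cs σ.rL = (cs σ).rL := rfl
lemma cs_rR (σ : (P.refine k hk).FSt) : cs σ.rR = (cs σ).rR := rfl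

lemma IsU_cs (σ : (P.refine k hk).FSt) : IsU (cs σ) ↔ IsU σ := Iff.rfl
lemma IsV_cs (σ : (P.refine k hk).FSt) : IsV (cs σ) ↔ IsV σ := Iff.rfl

lemma IsU_sub (s : P.FSt) {i j : ℕ} (hi : i < k) (hj : j < k) :
    IsU (sub hk s i j hi hj) ↔ IsU s := Iff.rfl
lemma IsV_sub (s : P.FSt) {i j : ℕ} (hi : i < k) (hj : j < k) :
    IsV (sub hk s i j hi hj) ↔ IsV s := Iff.rfl
lemma IsUr_sub (s : P.FSt) {i j : ℕ} (hi : i < k) (hj : j < k) :
    IsU (sub hk s i j hi hj).r2 ↔ IsU s.r2 := Iff.rfl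

/-! ## Steps -/

lemma cs_stE (σ : (P.refine k hk).FSt) : cs σ.stE = cs σ ∨ cs σ.stE = (cs σ).stE := by
  obtain ⟨s, i, j, hi, hj, rfl⟩ := exists_sub σ
  by_cases h : i + 1 < k
  · left
    rw [sub_stE_mid _ h, cs_sub, cs_sub]
  · right
    have : i = k - 1 := by omega
    subst this
    rw [sub_stE_end, cs_sub, cs_sub]

/-- the state in the south of the part `(i, 0)` -/
lemma sub_symm_N (s : P.FSt) {i : ℕ} (hi : i < k) :
    pN.symm (sub hk s i 0 hi hk) = sub hk (pN.symm s) i (k - 1) hi (by omega) := by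
  apply pN_symm_of
  rw [sub_stN_end]
  exact sub_congr _ _ (pN_symm_stN s) rfl rfl

/-- the state in the west of the part `(0, j)` -/
lemma sub_symm_E (s : P.FSt) {j : ℕ} (hj : j < k) :
    pE.symm (sub hk s 0 j hk hj) = sub hk (pE.symm s) (k - 1) j (by omega) hj := by
  apply pE_symm_of
  rw [sub_stE_end]
  exact sub_congr _ _ (pE_symm_stE s) rfl rfl

lemma sub_symm_E_mid (s : P.FSt) {i j : ℕ} (hi : i + 1 < k) (hj : j < k) :
    pE.symm (sub hk s (i + 1) j hi hj) = sub hk s i j (by omega) hj := by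
  apply pE_symm_of
  rw [sub_stE_mid]

lemma sub_symm_N_mid (s : P.FSt) {i j : ℕ} (hi : i < k) (hj : j + 1 < k) :
    pN.symm (sub hk s i (j + 1) hi hj) = sub hk s i j hi (by omega) := by
  apply pN_symm_of
  rw [sub_stN_mid]

lemma sub_powE (s : P.FSt) {i j : ℕ} (n : ℕ) (hi : i + n < k) (hj : j < k) :
    (pE ^ n) (sub hk s i j (by omega) hj) = sub hk s (i + n) j hi hj := by
  induction n with
  | zero => rfl
  | succ n ih =>
    rw [pow_succ', Equiv.Perm.mul_apply, ih (by omega)]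
    exact sub_stE_mid _ hi hj

lemma sub_powN (s : P.FSt) {i j : ℕ} (n : ℕ) (hi : i < k) (hj : j + n < k) :
    (pN ^ n) (sub hk s i j hi (by omega)) = sub hk s i (j + n) hi hj := by
  induction n with
  | zero => rfl
  | succ n ih =>
    rw [pow_succ', Equiv.Perm.mul_apply, ih (by omega)]
    exact sub_stN_mid _ hi hj

/-- `n` steps to the east -/
lemma sub_powE_q (s : P.FSt) {i j : ℕ} (hi : i < k) (hj : j < k) (q : ℕ) :
    (pE ^ (k * q)) (sub hk s i j hi hj) = sub hk ((pE ^ q) s) i j hi hj := by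
  induction q with
  | zero => rfl
  | succ q ih =>
    have e1 : (pE ^ (k * (q + 1))) (sub hk s i j hi hj) =
        (pE ^ k) ((pE ^ (k * q)) (sub hk s i j hi hj)) := by
      rw [← Equiv.Perm.mul_apply, ← pow_add]; congr 2; ring
    rw [e1, ih]
    have e2 : (pE ^ k : Equiv.Perm (P.refine k hk).FSt) = pE ^ i * (pE * pE ^ (k - 1 - i)) := by
      rw [← pow_succ', ← pow_add]; congr 1; omega
    rw [e2, Equiv.Perm.mul_apply, Equiv.Perm.mul_apply,
      sub_powE _ (k - 1 - i) (by omega) hj]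
    have e3 : sub hk ((pE ^ q) s) (i + (k - 1 - i)) j (by omega) hj =
        sub hk ((pE ^ q) s) (k - 1) j (by omega) hj := sub_congr _ _ rfl (by omega) rfl
    rw [e3, pE_apply, sub_stE_end]
    have e4 := sub_powE (hk := hk) ((pE ^ q) s).stE (i := 0) (j := j) i (by omega) hj
    rw [e4]
    refine sub_congr _ _ ?_ (by omega) rfl
    rw [pow_succ', Equiv.Perm.mul_apply, pE_apply]

/-- the rows of parts of the facets of a circle -/
lemma sub_same {s t : P.FSt} {i i' j j' : ℕ} {hi : i < k} {hj : j < k} {hi' : i' < k}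
    {hj' : j' < k} : pE.SameCycle (sub hk s i j hi hj) (sub hk t i' j' hi' hj') ↔
      pE.SameCycle s t ∧ j = j' := by
  constructor
  · intro h
    obtain ⟨n, hn⟩ := h.exists_nat_pow_eq
    have key : ∀ n : ℕ, ∃ (m : ℕ) (i'' : ℕ) (h : i'' < k),
        (pE ^ n) (sub hk s i j hi hj) = sub hk ((pE ^ m) s) i'' j h hj := by
      intro n
      induction n with
      | zero => exact ⟨0, i, hi, rfl⟩
      | succ n ih =>
        obtain ⟨m, x, hx, e⟩ := ih
        rw [pow_succ', Equiv.Perm.mul_apply, e]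
        by_cases h : x + 1 < k
        · exact ⟨m, x + 1, h, sub_stE_mid _ h hj⟩
        · have : x = k - 1 := by omega
          subst this
          refine ⟨m + 1, 0, hk, ?_⟩
          rw [pE_apply, sub_stE_end, pow_succ', Equiv.Perm.mul_apply, pE_apply]
    obtain ⟨m, x, hx, e⟩ := key n
    rw [e] at hn
    obtain ⟨h1, -, h3⟩ := sub_inj hn
    exact ⟨⟨m, by rw [zpow_natCast]; exact h1⟩, h3⟩
  · rintro ⟨h, rfl⟩
    obtain ⟨q, hq⟩ := h.exists_nat_pow_eq
    have h1 : pE.SameCycle (sub hk s 0 j hk hj) (sub hk s i j hi hj) := by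
      refine ⟨(i : ℤ), ?_⟩
      rw [zpow_natCast, sub_powE s i (by omega) hj]
      exact sub_congr _ _ rfl (by omega) rfl
    have h2 : pE.SameCycle (sub hk t 0 j hk hj) (sub hk t i' j hi' hj) := by
      refine ⟨(i' : ℤ), ?_⟩
      rw [zpow_natCast, sub_powE t i' (by omega) hj]
      exact sub_congr _ _ rfl (by omega) rfl
    have h3 : pE.SameCycle (sub hk s 0 j hk hj) (sub hk t 0 j hk hj) := by
      refine ⟨((k * q : ℕ) : ℤ), ?_⟩
      rw [zpow_natCast, sub_powE_q, hq]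
    exact (h1.symm.trans h3).trans h2

end cs

/-! ## The squares at the core facets -/

namespace Core1

variable (R : Core1 P)

/-- the states north of a core facet -/
lemma N' {s : P.FSt} (h : R.Rim s) : IsV s.stN ∧ ¬ R.core s.stN.facet := by
  rcases U_or h.1 with hU | hU
  · obtain ⟨h1, h2⟩ := R.N s hU h.2
    exact ⟨IsV_of_U h1, h2⟩
  · have e : s.stN.r2.stN = s.r2 := FSt.stN_inv s
    obtain ⟨h1, h2⟩ := R.S s.stN.r2 (by rw [e]; exact hU) (by rw [e]; exact h.2)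
    exact ⟨IsV_of_Ur h1, h2⟩

/-- the states south of a core facet -/
lemma S' {s : P.FSt} (h : R.Rim s) : IsV (pN.symm s) ∧ ¬ R.core (pN.symm s).facet := by
  have h1 := R.N' (Rim.r2 R h)
  rw [pN_symm_apply]
  exact ⟨(IsV_r2 _).2 h1.1, h1.2⟩

/-- the squares at a core facet commute -/
lemma comm' {s : P.FSt} (h : R.Rim s) : s.stE.stN = s.stN.stE := by
  rcases U_or h.1 with hU | hU
  · exact R.comm s hU (Or.inl h.2)
  · -- look from the state in the north of the next facet, upside down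
    set u : P.FSt := s.stN.r2 with hu
    have e1 : u.stN = s.r2 := FSt.stN_inv s
    set v : P.FSt := pE.symm u with hv
    have e2 : v.stE = u := pE_symm_stE u
    have hUu : IsU u := (R.S u (by rw [e1]; exact hU) (by rw [e1]; exact h.2)).1
    have hUv : IsU v := by rw [← IsU_stE, e2]; exact hUu
    have hcv : R.core v.stN.facet := by
      by_contra hc
      -- the state `s.r2` is core, so is its western neighbour; its southern neighbour is `v`
      set w : P.FSt := pE.symm s.r2 with hw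
      have e3 : w.stE = s.r2 := pE_symm_stE _
      have hVs : IsV s.r2 := (IsV_r2 s).2 h.1
      have hVw : IsV w := by rw [← IsV_stE, e3]; exact hVs
      have hUw : IsU w := by rw [← IsU_stE, e3]; exact hU
      have hcw : R.core w.facet := by rw [← R.E w hVw, e3]; exact h.2
      set x : P.FSt := pN.symm w with hx
      have e4 : x.stN = w := pN_symm_stN w
      have hUx : IsU x := (R.S x (by rw [e4]; exact hUw) (by rw [e4]; exact hcw)).1
      have e5 := R.comm x hUx (Or.inr (by rw [e4]; exact hcw))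
      rw [e4, e3] at e5
      have e6 : x.stE = u := pN.injective (show x.stE.stN = u.stN by rw [e5, e1])
      have e7 : x = v := pE.injective (show x.stE = v.stE by rw [e6, e2])
      rw [← e7, e4] at hc
      exact hc hcw
    have e8 := R.comm v hUv (Or.inr hcv)
    rw [e2, e1] at e8
    -- `s.r2 = v.stN.stE`
    have e9 : v.stN.r2 = s.stE := by
      have h1 : v.stN.stE.r2.stE = v.stN.r2 := FSt.stE_inv _
      rw [← e8, FSt.r2_r2] at h1
      exact h1.symm
    have e10 : v.r2 = s.stN.stE := by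
      have h1 : v.stE.r2.stE = v.r2 := FSt.stE_inv _
      rw [e2, hu, FSt.r2_r2] at h1
      exact h1.symm
    rw [← e9, ← e10]
    exact FSt.stN_inv v

/-- the squares below a core facet commute -/
lemma comm_symm {s : P.FSt} (h : R.Rim s) : (pN.symm s).stE = pN.symm s.stE := by
  have h1 := R.comm' (s := pE.symm s.r2) (Rim.W R (Rim.r2 R h))
  rw [pE_symm_stE] at h1
  -- `h1 : s.r2.stN = (pE.symm s.r2).stN.stE`
  have h2 : pE.symm s.r2.stN = (pE.symm s.r2).stN := pE_symm_of h1.symm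
  have h3 : pE.symm s.r2 = s.stE.r2 := (stE_r2 s).symm
  rw [h3] at h2
  rw [pN_symm_apply, pN_symm_apply, ← h2, pE_symm_apply, FSt.r2_r2]

end Core1

/-! ## Seven rows -/

namespace Core1

variable (R : Core1 P)

open Classical in
/-- the number of the row -/
noncomputable def rw7 (f : (P.refine 7 h7).Facet) : ℕ :=
  if R.core (co h7 f) then (f.1.1 2 % 7).toNat + 1 else 0

lemma rw7_core {f : (P.refine 7 h7).Facet} : R.rw7 f ≠ 0 ↔ R.core (co h7 f) := by
  unfold rw7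
  split_ifs with h1 <;> simp [h1]

lemma rw7_zero {f : (P.refine 7 h7).Facet} : R.rw7 f = 0 ↔ ¬ R.core (co h7 f) := by
  rw [← R.rw7_core, not_not]

lemma rw7_U {s : P.FSt} (hU : IsU s) (hc : R.core s.facet) {i j : ℕ} (hi : i < 7) (hj : j < 7) :
    R.rw7 (sub h7 s i j hi hj).facet = j + 1 := by
  unfold rw7
  rw [co_sub, if_pos hc]
  have h1 := ix_subC_n (k := 7) s.1 s.2.2 hi hj
  have hn : s.1.n = (2, true) := hU
  rw [hn] at h1
  unfold ix at h1
  rw [if_pos rfl] at h1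
  show (subC 7 s.1 i j 2 % 7).toNat + 1 = j + 1
  have h2 : (subC 7 s.1 i j 2 % ((7 : ℕ) : ℤ)).toNat = j := h1
  have h3 : ((7 : ℕ) : ℤ) = 7 := rfl
  rw [h3] at h2
  rw [h2]

lemma rw7_Ur {s : P.FSt} (hU : IsU s.r2) (hc : R.core s.facet) {i j : ℕ} (hi : i < 7)
    (hj : j < 7) : R.rw7 (sub h7 s i j hi hj).facet = 7 - j := by
  have h1 := R.rw7_U hU (by rw [FSt.facet_r2]; exact hc) (i := 6 - i) (j := 6 - j) (by omega)
    (by omega)
  have h2 : (sub h7 s i j hi hj).facet = (sub h7 s i j hi hj).r2.facet := rfl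
  rw [h2, sub_r2, h1]
  omega

lemma rw7_out {s : P.FSt} (hc : ¬ R.core s.facet) {i j : ℕ} (hi : i < 7) (hj : j < 7) :
    R.rw7 (sub h7 s i j hi hj).facet = 0 := by
  rw [rw7_zero, co_sub]; exact hc

/-- The seven rows of parts of the core facets. -/
noncomputable def toRows7 : Rows7 (P.refine 7 h7) where
  rw := R.rw7
  le7 f := by
    unfold rw7
    split_ifs
    · have h4 := Int.emod_lt_of_pos (f.1.1 2) (show (0 : ℤ) < 7 by norm_num)
      omega
    · omega
  V σ hσ := by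
    obtain ⟨s, i, j, hi, hj, rfl⟩ := exists_sub σ
    rw [rw7_core, co_sub] at hσ
    exact R.V s hσ
  E σ hσ := by
    obtain ⟨s, i, j, hi, hj, rfl⟩ := exists_sub σ
    have hV : IsV s := hσ
    by_cases h1 : R.core s.facet
    · have h2 : R.core s.stE.facet := (R.E s hV).2 h1
      rcases U_or hV with hU | hU
      · rw [R.rw7_U hU h1]
        by_cases h3 : i + 1 < 7
        · rw [sub_stE_mid _ h3, R.rw7_U hU h1]
        · have : i = 7 - 1 := by omega
          subst this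
          rw [sub_stE_end, R.rw7_U ((IsU_stE s).2 hU) h2]
      · rw [R.rw7_Ur hU h1]
        by_cases h3 : i + 1 < 7
        · rw [sub_stE_mid _ h3, R.rw7_Ur hU h1]
        · have : i = 7 - 1 := by omega
          subst this
          rw [sub_stE_end, R.rw7_Ur ((IsUr_stE s).2 hU) h2]
    · have h2 : ¬ R.core s.stE.facet := fun h' => h1 ((R.E s hV).1 h')
      rw [R.rw7_out h1]
      by_cases h3 : i + 1 < 7
      · rw [sub_stE_mid _ h3, R.rw7_out h1]
      · have : i = 7 - 1 := by omega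
        subst this
        rw [sub_stE_end, R.rw7_out h2]
  N σ hσ h0 := by
    obtain ⟨s, i, j, hi, hj, rfl⟩ := exists_sub σ
    have hU : IsU s := hσ
    rw [rw7_core, co_sub] at h0
    rw [R.rw7_U hU h0]
    by_cases h3 : j + 1 < 7
    · rw [sub_stN_mid _ hi h3, R.rw7_U hU h0, if_neg (by omega)]
      exact ⟨hU, rfl⟩
    · have : j = 7 - 1 := by omega
      subst this
      obtain ⟨h4, h5⟩ := R.N s hU h0
      rw [sub_stN_end, R.rw7_out h5, if_pos rfl]
      exact ⟨h4, rfl⟩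
  S σ hσ h0 := by
    obtain ⟨s, i, j, hi, hj, rfl⟩ := exists_sub σ
    by_cases h3 : j + 1 < 7
    · rw [sub_stN_mid _ hi h3] at hσ h0 ⊢
      rw [rw7_core, co_sub] at h0
      have hU : IsU s := hσ
      exact ⟨hU, by rw [R.rw7_U hU h0, R.rw7_U hU h0]⟩
    · have : j = 7 - 1 := by omega
      subst this
      rw [sub_stN_end] at hσ h0 ⊢
      rw [rw7_core, co_sub] at h0
      have hU : IsU s.stN := hσ
      obtain ⟨h4, h5⟩ := R.S s hU h0
      exact ⟨h4, by rw [R.rw7_U hU h0, R.rw7_out h5]⟩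
  comm σ hσ h0 := by
    obtain ⟨s, i, j, hi, hj, rfl⟩ := exists_sub σ
    have hU : IsU s := hσ
    by_cases h3 : j + 1 < 7
    · rw [sub_stN_mid _ hi h3] at h0 ⊢
      by_cases h4 : i + 1 < 7
      · rw [sub_stE_mid _ h4, sub_stE_mid _ h4, sub_stN_mid _ h4 h3]
      · have : i = 7 - 1 := by omega
        subst this
        rw [sub_stE_end, sub_stE_end, sub_stN_mid _ h7 h3]
    · have : j = 7 - 1 := by omega
      subst this
      rw [sub_stN_end] at h0 ⊢
      rw [rw7_core, rw7_core, co_sub, co_sub] at h0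
      by_cases h4 : i + 1 < 7
      · rw [sub_stE_mid _ h4, sub_stE_mid _ h4, sub_stN_end]
      · have : i = 7 - 1 := by omega
        subst this
        rw [sub_stE_end, sub_stE_end, sub_stN_end]
        exact sub_congr _ _ (R.comm s hU h0) rfl rfl

lemma toRows7_rwA (f : (P.refine 7 h7).Facet) : R.toRows7.rw f = R.rw7 f := rfl

lemma toRows7_rw_zero {f : (P.refine 7 h7).Facet} :
    R.toRows7.rw f = 0 ↔ ¬ R.core (co h7 f) := R.rw7_zero

lemma toRows7_sub_zero {s : P.FSt} {i j : ℕ} (hi : i < 7) (hj : j < 7) :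
    R.toRows7.rw (sub h7 s i j hi hj).facet = 0 ↔ ¬ R.core s.facet := by
  rw [toRows7_rw_zero, co_sub]

/-- the rim states of the seven rows -/
lemma rim_sub {s : P.FSt} {i : ℕ} (hi : i < 7) :
    R.toRows7.Rim (sub h7 s i 0 hi h7) ↔ R.Rim s := by
  constructor
  · rintro (⟨hU, h1⟩ | ⟨hU, h1⟩)
    · refine ⟨IsV_of_U hU, ?_⟩
      have h2 : R.rw7 (sub h7 s i 0 hi h7).facet ≠ 0 := by
        rw [← toRows7_rwA, h1]; norm_num
      rw [rw7_core, co_sub] at h2
      exact h2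
    · refine ⟨IsV_of_Ur hU, ?_⟩
      have h2 : R.rw7 (sub h7 s i 0 hi h7).facet ≠ 0 := by
        rw [← toRows7_rwA, h1]; norm_num
      rw [rw7_core, co_sub] at h2
      exact h2
  · rintro ⟨hV, hc⟩
    rcases U_or hV with hU | hU
    · exact Or.inl ⟨hU, R.rw7_U hU hc hi h7⟩
    · exact Or.inr ⟨hU, R.rw7_Ur hU hc hi h7⟩

/-- every rim state of the seven rows is a part of a rim state -/
lemma rim_ex {ρ : (P.refine 7 h7).FSt} (hρ : R.toRows7.Rim ρ) :
    ∃ (r : P.FSt) (i : ℕ) (hi : i < 7), R.Rim r ∧ ρ = sub h7 r i 0 hi h7 := by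
  obtain ⟨s, i, j, hi, hj, rfl⟩ := exists_sub ρ
  have hc : R.core s.facet := by
    have h2 : R.rw7 (sub h7 s i j hi hj).facet ≠ 0 := by
      rw [← toRows7_rwA]
      rcases hρ with ⟨hU, h1⟩ | ⟨hU, h1⟩ <;> rw [h1] <;> norm_num
    rw [rw7_core, co_sub] at h2
    exact h2
  have hj0 : j = 0 := by
    rcases hρ with ⟨hU, h1⟩ | ⟨hU, h1⟩
    · have hU' : IsU s := hU
      rw [toRows7_rwA, R.rw7_U hU' hc] at h1
      omega
    · have hU' : IsU s.r2 := hU
      rw [toRows7_rwA, R.rw7_Ur hU' hc] at h1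
      omega
  subst hj0
  exact ⟨s, i, hi, (R.rim_sub hi).1 hρ, rfl⟩

lemma rim_cs {ρ : (P.refine 7 h7).FSt} (hρ : R.toRows7.Rim ρ) : R.Rim (cs ρ) := by
  obtain ⟨r, i, hi, h1, rfl⟩ := R.rim_ex hρ
  rw [cs_sub]; exact h1

end Core1

lemma far_sub (s : P.FSt) {i : ℕ} (hi : i < 7) :
    Rows7.far (sub h7 s i 0 hi h7) = sub h7 s.r2 (6 - i) 0 (by omega) h7 := by
  unfold Rows7.far
  rw [sub_powN s 6 hi (by norm_num), sub_r2]

lemma jf_sub (s : P.FSt) {i : ℕ} (hi : i < 7) :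
    Rows7.jf (sub h7 s i 0 hi h7) = (sub h7 (pN.symm s) i 6 hi (by norm_num)).facet := by
  unfold Rows7.jf
  rw [sub_symm_N]

lemma co_jf_sub (s : P.FSt) {i : ℕ} (hi : i < 7) :
    co h7 (Rows7.jf (sub h7 s i 0 hi h7)) = (pN.symm s).facet := by
  rw [jf_sub, co_sub]

lemma rim_same {s t : P.FSt} {i i' : ℕ} {hi : i < 7} {hi' : i' < 7} :
    pE.SameCycle (sub h7 s i 0 hi h7) (sub h7 t i' 0 hi' h7) ↔ pE.SameCycle s t := by
  rw [sub_same]; simp

namespace Core1

variable (R : Core1 P)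

/-! ## Junctions -/

lemma QJ_co {Q : P.Facet → Prop} (hQ : R.QJ Q) :
    R.toRows7.QJ (fun f => Q (co h7 f)) := by
  intro σ h1 h2
  rw [toRows7_rw_zero] at h1 h2
  rcases cs_stE σ with e | e
  · show Q (cs σ).facet ↔ Q (cs σ.stE).facet
    rw [e]
  · show Q (cs σ).facet ↔ Q (cs σ.stE).facet
    rw [e]
    apply hQ
    · exact h1
    · rw [← e]; exact h2

/-- constant on the parts of a facet of a junction -/
lemma QJ_part {Q : (P.refine 7 h7).Facet → Prop} (hQ : R.toRows7.QJ Q) {s : P.FSt}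
    (hc : ¬ R.core s.facet) {i j : ℕ} (hi : i < 7) (hj : j < 7) :
    Q (sub h7 s i j hi hj).facet ↔ Q (sub h7 s 0 0 h7 h7).facet := by
  have hE : ∀ (s : P.FSt), ¬ R.core s.facet → ∀ (i : ℕ) (hi : i < 7) (j : ℕ) (hj : j < 7),
      (Q (sub h7 s i j hi hj).facet ↔ Q (sub h7 s 0 j h7 hj).facet) := by
    intro s hc i
    induction i with
    | zero => intro hi j hj; exact Iff.rfl
    | succ i ih =>
      intro hi j hj
      rw [← ih (by omega) j hj]
      have h1 := hQ (sub h7 s i j (by omega) hj) ((R.toRows7_sub_zero _ _).2 hc)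
        (by rw [sub_stE_mid _ hi]; exact (R.toRows7_sub_zero _ _).2 hc)
      rw [sub_stE_mid _ hi] at h1
      exact h1.symm
  rw [hE s hc i hi j hj]
  -- the part `(0, j)` of `s` is the part `(j, 6)` of `s.rL`
  have e1 : (sub h7 s 0 j h7 hj).facet = (sub h7 s.rL j 6 hj (by norm_num)).facet := by
    have h1 : (sub h7 s 0 j h7 hj).facet = (sub h7 s 0 j h7 hj).rL.facet := rfl
    rw [h1, sub_rL]
  have e2 : (sub h7 s 0 0 h7 h7).facet = (sub h7 s.rL 0 6 h7 (by norm_num)).facet := by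
    have h1 : (sub h7 s 0 0 h7 h7).facet = (sub h7 s 0 0 h7 h7).rL.facet := rfl
    rw [h1, sub_rL]
  rw [e1, e2]
  exact hE s.rL hc j hj 6 (by norm_num)

/-- the first part of a facet, in any frame -/
lemma QJ_frame {Q : (P.refine 7 h7).Facet → Prop} (hQ : R.toRows7.QJ Q) {s t : P.FSt}
    (hst : s.facet = t.facet) (hc : ¬ R.core s.facet) {i j i' j' : ℕ} {hi : i < 7} {hj : j < 7}
    {hi' : i' < 7} {hj' : j' < 7} :
    Q (sub h7 s i j hi hj).facet ↔ Q (sub h7 t i' j' hi' hj').facet := by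
  rw [R.QJ_part hQ hc hi hj]
  -- the part of `s` as a part of `t`
  have h1 := sub_ix h7 t (sub h7 s 0 0 h7 h7).facet (by rw [co_sub, hst])
  rw [← h1, R.QJ_part hQ (by rw [← hst]; exact hc), ← R.QJ_part hQ (by rw [← hst]; exact hc)]

lemma QJ_ex {Q : (P.refine 7 h7).Facet → Prop} (hQ : R.toRows7.QJ Q) :
    ∃ Q' : P.Facet → Prop, R.QJ Q' ∧
      ∀ f, ¬ R.core (co h7 f) → (Q f ↔ Q' (co h7 f)) := by
  let Q' : P.Facet → Prop := fun f => ∀ s : P.FSt, s.facet = f → Q (sub h7 s 0 0 h7 h7).facet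
  have key : ∀ s : P.FSt, ¬ R.core s.facet → ∀ i j (hi : i < 7) (hj : j < 7),
      (Q (sub h7 s i j hi hj).facet ↔ Q' s.facet) := by
    intro s hc i j hi hj
    constructor
    · intro h1 t ht
      exact (R.QJ_frame hQ ht.symm hc).1 h1
    · intro h1
      rw [R.QJ_part hQ hc]
      exact h1 s rfl
  refine ⟨Q', ?_, ?_⟩
  · intro s h1 h2
    rw [← key s h1 6 0 (by norm_num) h7, ← key s.stE h2 0 0 h7 h7]
    have h3 := hQ (sub h7 s 6 0 (by norm_num) h7) ((R.toRows7_sub_zero _ _).2 h1)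
      (by rw [sub_stE_end (k := 7)]; exact (R.toRows7_sub_zero _ _).2 h2)
    rw [sub_stE_end (k := 7)] at h3
    exact h3
  · intro f hf
    -- some state of the coarse facet
    obtain ⟨s, hs⟩ : ∃ s : P.FSt, s.facet = co h7 f := by
      have h1 : ∀ d : Dir, ∃ e : Dir, d.1 ≠ e.1 := by decide
      obtain ⟨e, he⟩ := h1 (co h7 f).1.2
      exact ⟨⟨⟨(co h7 f).1.1, (co h7 f).1.2, e⟩, (co h7 f).2, he⟩, rfl⟩
    have h1 := sub_ix h7 s f hs.symm
    rw [← hs, ← key s (by rw [hs]; exact hf) _ _ (ix_lt h7 s.1.e f.1.1) (ix_lt h7 s.1.n f.1.1), h1]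

/-! ## Trees -/

/-- a predicate on rim states that is constant on the circles -/
lemma tr_iff {tr : P.FSt → Prop} {σ : (P.refine 7 h7).FSt}
    (htr : ∀ r, R.Rim r → (tr r.stE ↔ tr r)) (hσ : R.toRows7.Rim σ) :
    tr (cs σ.stE) ↔ tr (cs σ) := by
  rcases cs_stE σ with e | e
  · rw [e]
  · rw [e]; exact htr _ (R.rim_cs hσ)

lemma cs_far {ρ : (P.refine 7 h7).FSt} (hρ : R.toRows7.Rim ρ) :
    cs (Rows7.far ρ) = (cs ρ).r2 := by
  obtain ⟨r, i, hi, h1, rfl⟩ := R.rim_ex hρ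
  rw [far_sub, cs_sub, cs_sub]

lemma co_jf {ρ : (P.refine 7 h7).FSt} (hρ : R.toRows7.Rim ρ) :
    co h7 (Rows7.jf ρ) = (pN.symm (cs ρ)).facet := by
  obtain ⟨r, i, hi, h1, rfl⟩ := R.rim_ex hρ
  rw [co_jf_sub, cs_sub]

lemma rim_far {ρ : (P.refine 7 h7).FSt} (hρ : R.toRows7.Rim ρ) :
    R.toRows7.Rim (Rows7.far ρ) := by
  obtain ⟨r, i, hi, h1, rfl⟩ := R.rim_ex hρ
  rw [far_sub, rim_sub]
  exact Rim.r2 R h1

theorem Tree.toRows7 {tr : P.FSt → Prop} (T : R.Tree tr) :
    R.toRows7.Tree (fun ρ => tr (cs ρ)) where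
  conn Q hQ hQt := by
    obtain ⟨Q', hQ', e⟩ := R.QJ_ex hQ
    have key := T.conn Q' hQ' (by
      intro r hr htr
      have h1 := hQt (sub h7 r 0 0 h7 h7) ((R.rim_sub h7).2 hr) (by rw [cs_sub]; exact htr)
      rw [e, e, co_jf_sub, far_sub, co_jf_sub] at h1
      · exact h1
      · rw [far_sub, co_jf_sub]; exact (R.S' (Rim.r2 R hr)).2
      · rw [co_jf_sub]; exact (R.S' hr).2)
    intro f g hf hg
    rw [toRows7_rw_zero] at hf hg
    rw [e f hf, e g hg]
    exact key _ _ hf hg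
  sep ρ₀ hρ htr := by
    obtain ⟨r₀, i, hi, hr, rfl⟩ := R.rim_ex hρ
    rw [cs_sub] at htr
    obtain ⟨S, hS, h1, h2⟩ := T.sep r₀ hr htr
    refine ⟨fun f => S (co h7 f), R.QJ_co hS, ?_, ?_⟩
    · intro ρ hρ htρ h3 h4
      obtain ⟨r, i', hi', hr', rfl⟩ := R.rim_ex hρ
      rw [cs_sub] at htρ
      rw [rim_same] at h3
      rw [far_sub, rim_same] at h4
      show S (co h7 (Rows7.jf _)) ↔ S (co h7 (Rows7.jf _))
      rw [far_sub, co_jf_sub, co_jf_sub]
      exact h1 r hr' htρ h3 h4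
    · show ¬ (S (co h7 (Rows7.jf _)) ↔ S (co h7 (Rows7.jf _)))
      rw [far_sub, co_jf_sub, co_jf_sub]
      exact h2

end Core1

/-! ## The same facts for `pt` -/

@[simp] lemma cs_pt (s : P.FSt) (i j : ℕ) : cs (pt s i j) = s := by
  unfold pt; rw [cs_sub]

lemma cs_cf (σ : (P.refine 7 h7).FSt) : (cs σ).facet = cf σ.facet := rfl

lemma pt_zero (s : P.FSt) {i : ℕ} (hi : i ≤ 6) : pt s i 0 = sub h7 s i 0 (by omega) h7 :=
  pt_sub s (by omega) h7

lemma far_pt (s : P.FSt) {i : ℕ} (hi : i ≤ 6) : Rows7.far (pt s i 0) = pt s.r2 (6 - i) 0 := by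
  rw [pt_zero s hi, pt_zero s.r2 (by omega), far_sub]

lemma jf_pt (s : P.FSt) (i : ℕ) :
    Rows7.jf (pt s i 0) = (pt (pN.symm s) i 6).facet := by
  unfold Rows7.jf
  rw [pNs_pt0]

lemma cf_jf_pt (s : P.FSt) (i : ℕ) : cf (Rows7.jf (pt s i 0)) = (pN.symm s).facet := by
  unfold Rows7.jf
  rw [pNs_pt0, cf_pt]

lemma cyc_pt {s t : P.FSt} {i i' : ℕ} :
    pE.SameCycle (pt s i 0) (pt t i' 0) ↔ pE.SameCycle s t := by
  unfold pt
  rw [sub_same]; simp

lemma cyc_far_pt {s t : P.FSt} {i i' : ℕ} (hi : i ≤ 6) :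
    pE.SameCycle (Rows7.far (pt s i 0)) (pt t i' 0) ↔ pE.SameCycle s.r2 t := by
  rw [far_pt s hi, cyc_pt]

namespace Core1

variable (R : Core1 P)

lemma rim_pt {s : P.FSt} {i : ℕ} : R.toRows7.Rim (pt s i 0) ↔ R.Rim s := by
  have h1 : pt s i 0 = sub h7 s (min i 6) 0 (by omega) h7 := sub_congr _ _ rfl rfl rfl
  rw [h1, rim_sub]

lemma exists_rim_pt {ρ : (P.refine 7 h7).FSt} (hρ : R.toRows7.Rim ρ) :
    ∃ (r : P.FSt) (i : ℕ), i ≤ 6 ∧ R.Rim r ∧ ρ = pt r i 0 := by
  obtain ⟨r, i, hi, h1, rfl⟩ := R.rim_ex hρ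
  exact ⟨r, i, by omega, h1, (pt_sub r hi h7).symm⟩

lemma rw_pt_U {s : P.FSt} (hU : IsU s) (hc : R.core s.facet) (i : ℕ) {j : ℕ} (hj : j ≤ 6) :
    R.toRows7.rw (pt s i j).facet = j + 1 := by
  have h1 := R.rw7_U hU hc (i := min i 6) (j := min j 6) (by omega) (by omega)
  have e : min j 6 = j := by omega
  rw [toRows7_rwA]
  unfold pt
  rw [h1, e]

lemma rw_pt_zero {s : P.FSt} {i j : ℕ} :
    R.toRows7.rw (pt s i j).facet = 0 ↔ ¬ R.core s.facet := by
  unfold pt
  exact R.toRows7_sub_zero _ _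

lemma toRows7_rw {f : (P.refine 7 h7).Facet} : R.toRows7.rw f = 0 ↔ ¬ R.core (cf f) :=
  R.toRows7_rw_zero

lemma QJ_cf {Q : P.Facet → Prop} (hQ : R.QJ Q) : R.toRows7.QJ (fun f => Q (cf f)) := R.QJ_co hQ

lemma QJ_pt {Q : (P.refine 7 h7).Facet → Prop} (hQ : R.toRows7.QJ Q) {s t : P.FSt}
    (hst : s.facet = t.facet) (hc : ¬ R.core s.facet) {i j i' j' : ℕ} :
    Q (pt s i j).facet ↔ Q (pt t i' j').facet := R.QJ_frame hQ hst hc

lemma QJ_excf {Q : (P.refine 7 h7).Facet → Prop} (hQ : R.toRows7.QJ Q) :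
    ∃ Q' : P.Facet → Prop, R.QJ Q' ∧ ∀ f, ¬ R.core (cf f) → (Q f ↔ Q' (cf f)) := R.QJ_ex hQ

end Core1

end Pool.Agent.MP42K
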