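import Pool.Agent.MP42.K.Rows

/-!
# Genus zero (owner helper18)

`GenusZero P`: every set of unit edges with even degrees is the boundary of a set of facets.
`GenusZero.tree`: then the core bands of `coreR P r j` form a tree.
-/

set_option autoImplicit false
set_option linter.unusedSectionVars false

namespace Pool.Agent.MP42K

open Pool.Agent.Helper55.UNF Pool.Agent.Helper55.UNF.GridSolid Pool.Agent.MP42G
open Pool.Agent.MP42H Pool.Agent.MP42X Pool.Agent.MP42R
open Core1 (jf)

variable {P : GridSolid}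

/-- turn to the left as a permutation -/
def pL : Equiv.Perm P.FSt where
  toFun := FSt.rL
  invFun := FSt.rR
  left_inv := FSt.rL_rR
  right_inv := FSt.rR_rL

/-- the turn around the north-east corner: `s.stE.rL` -/
def pK : Equiv.Perm P.FSt := pL * pE

@[simp] lemma pK_apply (s : P.FSt) : pK s = s.stE.rL := rfl

/-- Every set of unit edges (`e s`: the east side of the state `s`) with an even number of edges at
every vertex (the states in a cycle of `pK` are the edges at a vertex) is the boundary of a set of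
facets. -/
def GenusZero (P : GridSolid) : Prop :=
  ∀ e : P.FSt → Prop, (∀ s, e s.stE.r2 ↔ e s) →
    (∀ s, Even {t | pK.SameCycle s t ∧ e t}.ncard) →
    ∃ F : P.Facet → Prop, ∀ s, e s ↔ ¬ (F s.facet ↔ F s.stE.facet)

/-! ## Directions -/

lemma e_stE (s : P.FSt) : s.stE.1.e = s.1.d ∨ s.stE.1.e = s.1.e ∨ s.stE.1.e = opp s.1.d := by
  show (St.stepE P s.1).e = s.1.d ∨ (St.stepE P s.1).e = s.1.e ∨ (St.stepE P s.1).e = opp s.1.d
  unfold St.stepE
  split_ifs
  · exact Or.inl rfl
  · exact Or.inr (Or.inl rfl)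
  · exact Or.inr (Or.inr rfl)

lemma n_rR (s : P.FSt) : s.rR.1.n = s.1.e := by
  show cross s.1.d (opp (cross s.1.d s.1.e)) = s.1.e
  have h := s.2.2
  generalize s.1.d = d at *
  generalize s.1.e = e at *
  revert d e
  decide

lemma n_stN (s : P.FSt) : s.stN.1.n = s.1.d ∨ s.stN.1.n = s.1.n ∨ s.stN.1.n = opp s.1.d := by
  have h := e_stE s.rL
  show s.rL.stE.rR.1.n = _ ∨ s.rL.stE.rR.1.n = _ ∨ s.rL.stE.rR.1.n = _
  rw [n_rR]
  exact h

/-- going north never turns from down to up -/
lemma not_flip {s : P.FSt} (h : IsU s.r2) : ¬ IsU s.stN := by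
  intro h'
  have hd := (V_axes (IsV_of_Ur h)).1
  rw [MP42H.IsU_r2] at h
  unfold IsU at h'
  rcases n_stN s with h1 | h1 | h1
  · rw [h'] at h1; rw [← h1] at hd; exact hd rfl
  · rw [h', h] at h1; exact absurd h1 (by decide)
  · have h2 := congrArg Prod.fst h1
    rw [h', opp_fst] at h2
    exact hd h2.symm

/-- going north never turns from up to down -/
lemma not_flip' {s : P.FSt} (h : IsU s) : ¬ IsU s.stN.r2 := by
  intro h'
  have hd := (V_axes (IsV_of_U h)).1
  rw [MP42H.IsU_r2] at h'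
  unfold IsU at h
  rcases n_stN s with h1 | h1 | h1
  · rw [h'] at h1; rw [← h1] at hd; exact hd rfl
  · rw [h', h] at h1; exact absurd h1 (by decide)
  · have h2 := congrArg Prod.fst h1
    rw [h', opp_fst] at h2
    exact hd h2.symm

/-- going up raises the level -/
lemma up_z {s : P.FSt} (h : IsU s) (h' : IsU s.stN) : s.stN.1.c 2 = s.1.c 2 + 1 := by
  have hd := (V_axes (IsV_of_U h)).1
  have hn : s.1.n = (2, true) := h
  have e1 : s.stN.1 = (St.stepE P s.1.rotL).rotR := rfl
  have h2 : cross s.stN.1.d s.stN.1.e = (2, true) := h'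
  rw [e1] at h2 ⊢
  have e2 : s.1.rotL = ⟨s.1.c, s.1.d, (2, true)⟩ := by
    show (⟨s.1.c, s.1.d, s.1.n⟩ : Pool.Agent.Helper55.UNF.St) = _
    rw [hn]
  rw [e2] at h2 ⊢
  have hx : ∀ d : Dir, d.1 ≠ 2 → cross (opp (2, true)) (opp (cross (opp (2, true)) d)) ≠ (2, true) ∧
      cross (2, true) (opp (cross (2, true) (opp d))) ≠ (2, true) := by decide
  unfold St.stepE St.rotR at h2 ⊢
  simp only at h2 ⊢
  split_ifs at h2 ⊢ with a b
  · exact absurd h2 (hx _ hd).1
  · exact shift_up_apply _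
  · exact absurd h2 (hx _ hd).2

/-! ## Strips -/

section strip

variable {u : P.FSt} (hu : IsU u)

/-- the facets of the strip of `u` -/
def Strip (u : P.FSt) (f : P.Facet) : Prop := ∃ s, pE.SameCycle u s ∧ s.facet = f

/-- the bottom edges of the strip of `u` -/
def bot (u t : P.FSt) : Prop := pE.SameCycle u t.rL ∨ pE.SameCycle u t.stE.rR

include hu

lemma st_U {s : P.FSt} (h : pE.SameCycle u s) : IsU s ∧ s.1.c 2 = u.1.c 2 := by
  obtain ⟨n, rfl⟩ := h.exists_nat_pow_eq
  clear h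
  induction n with
  | zero => exact ⟨hu, rfl⟩
  | succ n ih =>
    rw [pow_succ', Equiv.Perm.mul_apply, pE_apply]
    exact ⟨(IsU_stE _).2 ih.1, by rw [V_stE_z (IsV_of_U ih.1), ih.2]⟩

lemma not_V_rR {s : P.FSt} (h : IsV s) : ¬ IsV s.rR := by
  rw [← FSt.rL_r2, IsV_r2]
  exact not_V_rL' h

/-- the state over a strip state is not over the strip -/
lemma strip_N {s : P.FSt} (h : pE.SameCycle u s) : ¬ Strip u s.stN.facet := by
  rintro ⟨v, hv, hf⟩
  obtain ⟨hs, hz⟩ := st_U hu h
  obtain ⟨hv1, hv2⟩ := st_U hu hv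
  have he := (V_axes (IsV_of_U hs)).2
  rcases rot4 hf.symm with e | e | e | e
  · have h1 : IsU s.stN := by rw [e]; exact hv1
    have h2 := up_z hs h1
    rw [e] at h2
    omega
  · have h1 : IsU s.stN.r2 := by rw [e, FSt.r2_r2]; exact hv1
    exact not_flip' hs h1
  · have h1 : s.stN.1.e = opp v.1.n := by rw [e]; rfl
    have h2 : v.1.n = (2, true) := hv1
    rw [FSt.stN_e, h2] at h1
    rw [h1] at he
    exact he rfl
  · have h1 : s.stN.1.e = v.1.n := by rw [e]; rfl
    have h2 : v.1.n = (2, true) := hv1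
    rw [FSt.stN_e, h2] at h1
    rw [h1] at he
    exact he rfl

/-- the state under a strip state is not over the strip -/
lemma strip_S {s : P.FSt} (h : pE.SameCycle u s) : ¬ Strip u (pN.symm s).facet := by
  rintro ⟨v, hv, hf⟩
  obtain ⟨hs, hz⟩ := st_U hu h
  obtain ⟨hv1, hv2⟩ := st_U hu hv
  have he := (V_axes (IsV_of_U hs)).2
  set w : P.FSt := pN.symm s with hw
  have hws : w.stN = s := stN_pN_symm s
  have hwe : w.1.e = s.1.e := by rw [← hws, FSt.stN_e]
  rcases rot4 hf.symm with e | e | e | e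
  · have h1 : IsU w := by rw [e]; exact hv1
    have h2 := up_z h1 (by rw [hws]; exact hs)
    rw [hws, e] at h2
    omega
  · have h1 : IsU w.r2 := by rw [e, FSt.r2_r2]; exact hv1
    exact not_flip h1 (by rw [hws]; exact hs)
  · have h1 : w.1.e = opp v.1.n := by rw [e]; rfl
    have h2 : v.1.n = (2, true) := hv1
    rw [hwe, h2] at h1
    rw [h1] at he
    exact he rfl
  · have h1 : w.1.e = v.1.n := by rw [e]; rfl
    have h2 : v.1.n = (2, true) := hv1
    rw [hwe, h2] at h1
    rw [h1] at he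
    exact he rfl

omit hu in
lemma bot_rev (t : P.FSt) : bot u t.stE.r2 ↔ bot u t := by
  unfold bot
  rw [FSt.r2_rL, FSt.stE_inv, FSt.r2_rR]
  exact or_comm

lemma bot_E {s : P.FSt} (h : pE.SameCycle u s) : ¬ bot u s := by
  obtain ⟨hs, -⟩ := st_U hu h
  rintro (h1 | h1)
  · exact not_V_rL' (IsV_of_U hs) (IsV_of_U (st_U hu h1).1)
  · exact not_V_rR hu (IsV_of_U ((IsU_stE s).2 hs)) (IsV_of_U (st_U hu h1).1)

omit hu in
lemma bot_S {s : P.FSt} (h : pE.SameCycle u s) : bot u s.rR := by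
  left
  rw [FSt.rR_rL]; exact h

lemma bot_N {s : P.FSt} (h : pE.SameCycle u s) : ¬ bot u s.rL := by
  obtain ⟨hs, -⟩ := st_U hu h
  rintro (h1 | h1)
  · rw [FSt.rL_rL] at h1
    exact not_U_Ur hs (st_U hu h1).1
  · exact strip_N hu h ⟨_, h1, rfl⟩

omit hu in
lemma bot_out {t : P.FSt} (h1 : ¬ Strip u t.facet) (h2 : ¬ Strip u t.stE.facet) : ¬ bot u t := by
  rintro (h | h)
  · exact h1 ⟨_, h, rfl⟩
  · exact h2 ⟨_, h, rfl⟩

lemma bot_even (s : P.FSt) : Even {t | pK.SameCycle s t ∧ bot u t}.ncard := by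
  set A : Set P.FSt := {t | pK.SameCycle s t ∧ pE.SameCycle u t.rL} with hA
  set B : Set P.FSt := {t | pK.SameCycle s t ∧ pE.SameCycle u t.stE.rR} with hB
  have h1 : {t | pK.SameCycle s t ∧ bot u t} = A ∪ B := by
    ext t
    simp only [hA, hB, Set.mem_union, Set.mem_ofPred_eq]
    unfold bot
    tauto
  have h2 : Disjoint A B := by
    rw [Set.disjoint_left]
    rintro t ⟨-, ha⟩ ⟨-, hb⟩
    have h3 := (st_U hu ha).1
    have h4 := (st_U hu hb).1
    have e1 : t.stE.rR = t.rR.stN := by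
      show _ = t.rR.rL.stE.rR
      rw [FSt.rR_rL]
    rw [e1] at h4
    exact not_flip (by rw [FSt.rR_r2]; exact h3) h4
  have h3 : B = ⇑(pK * pK : Equiv.Perm P.FSt) ⁻¹' A := by
    ext t
    simp only [hA, hB, Set.mem_preimage, Set.mem_ofPred_eq, Equiv.Perm.mul_apply]
    rw [Equiv.Perm.sameCycle_apply_right, Equiv.Perm.sameCycle_apply_right]
    have e1 : (pK (pK t)).rL = pE.symm (t.stE.rR) := by
      simp only [pK_apply]
      rw [FSt.rL_rL, ← FSt.rL_r2, pE_symm_r2]
    rw [e1, ← Equiv.Perm.sameCycle_apply_right (f := pE) (y := pE.symm t.stE.rR),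
      Equiv.apply_symm_apply]
  have h4 : B.ncard = A.ncard := by
    rw [h3, Set.ncard_preimage_of_injective_subset_range (Equiv.injective _)
      (by rw [Equiv.range_eq_univ]; exact Set.subset_univ _)]
  rw [h1, Set.ncard_union_eq h2 (Set.toFinite _) (Set.toFinite _), h4]
  exact ⟨_, rfl⟩

end strip

end Pool.Agent.MP42K
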