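import Pool.Agent.MP42.K.HDefs

/-!
# From headings to letters (owner helper18)

`KH.toKL`: a certificate with headings gives a local certificate; `lam s = nu s = Lof (H s)`, the
frame of a facet is the state with `V` whose east direction is positive (the step to the north does
not change the east direction, so this orientation is constant on every line).
-/

set_option autoImplicit false
set_option linter.unusedSectionVars false

namespace Pool.Agent.MP42K

open Pool.Agent.Helper55.UNF Pool.Agent.Helper55.UNF.GridSolid Pool.Agent.MP42G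
open Pool.Agent.MP42H Pool.Agent.MP42X Pool.Agent.MP42R
open Core1 (jf)

variable {P : GridSolid}

/-! ## Orientation of the lines -/

open Classical in
/-- the orientation of the lines: the east direction of the frame is positive -/
noncomputable def canV (V : P.FSt → Prop) (f : P.Facet) : P.FSt :=
  if h : ∃ s : P.FSt, s.facet = f ∧ V s ∧ s.1.e.2 = true then h.choose
  else (exists_stF f).choose

lemma canV_facet (V : P.FSt → Prop) (f : P.Facet) : (canV V f).facet = f := by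
  unfold canV
  split_ifs with h
  · exact h.choose_spec.1
  · exact (exists_stF f).choose_spec

lemma e_r2 (s : P.FSt) : s.r2.1.e.2 = !s.1.e.2 := rfl

section

variable {V : P.FSt → Prop} {J : P.Facet → Prop}

private lemma V_rL (hV : ∀ s : P.FSt, J s.facet → (V s.rR ↔ ¬ V s)) (s : P.FSt) (h : J s.facet) :
    V s.rL ↔ ¬ V s := by
  have h1 := hV s.rL h
  rw [FSt.rL_rR] at h1
  tauto

private lemma V_r2 (hV : ∀ s : P.FSt, J s.facet → (V s.rR ↔ ¬ V s)) (s : P.FSt) (h : J s.facet) :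
    V s.r2 ↔ V s := by
  rw [← FSt.rR_rR, hV s.rR h, hV s h, not_not]

lemma canV_spec (hV : ∀ s : P.FSt, J s.facet → (V s.rR ↔ ¬ V s)) {f : P.Facet} (h : J f) :
    V (canV V f) ∧ (canV V f).1.e.2 = true := by
  have hex : ∃ s : P.FSt, s.facet = f ∧ V s ∧ s.1.e.2 = true := by
    obtain ⟨s, hs⟩ := exists_stF f
    have hJ : J s.facet := by rw [hs]; exact h
    have key : ∀ t : P.FSt, t.facet = f → V t → ∃ s : P.FSt, s.facet = f ∧ V s ∧
        s.1.e.2 = true := by
      intro t ht hVt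
      by_cases he : t.1.e.2 = true
      · exact ⟨t, ht, hVt, he⟩
      · refine ⟨t.r2, ht, (V_r2 hV t (by rw [ht]; exact h)).2 hVt, ?_⟩
        rw [e_r2]
        simpa using he
    by_cases hVs : V s
    · exact key s hs hVs
    · exact key s.rR hs ((hV s hJ).2 hVs)
  unfold canV
  rw [dif_pos hex]
  exact hex.choose_spec.2

lemma canV_iff (hV : ∀ s : P.FSt, J s.facet → (V s.rR ↔ ¬ V s)) {s : P.FSt} (h : J s.facet) :
    canV V s.facet = s ↔ V s ∧ s.1.e.2 = true := by
  constructor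
  · intro e
    have h1 := canV_spec hV h
    rw [e] at h1
    exact h1
  · rintro ⟨h1, h2⟩
    obtain ⟨h3, h4⟩ := canV_spec hV h
    have hf := canV_facet V s.facet
    rcases rot4 hf with e | e | e | e
    · exact e
    · rw [e, e_r2, h2] at h4
      exact absurd h4 (by decide)
    · rw [e] at h3
      exact absurd h1 ((hV s h).1 h3)
    · rw [e] at h3
      exact absurd h1 ((V_rL hV s h).1 h3)

lemma canV_or (hV : ∀ s : P.FSt, J s.facet → (V s.rR ↔ ¬ V s)) {s : P.FSt} (h : J s.facet)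
    (hs : V s) : canV V s.facet = s ∨ canV V s.facet = s.r2 := by
  by_cases he : s.1.e.2 = true
  · exact Or.inl ((canV_iff hV h).2 ⟨hs, he⟩)
  · right
    refine (canV_iff (s := s.r2) hV h).2 ⟨(V_r2 hV s h).2 hs, ?_⟩
    rw [e_r2]; simpa using he

lemma canV_V (hV : ∀ s : P.FSt, J s.facet → (V s.rR ↔ ¬ V s)) {s : P.FSt} (h : J s.facet) :
    (canV V s.facet = s ∨ canV V s.facet = s.r2) ↔ V s := by
  constructor
  · rintro (e | e)
    · exact ((canV_iff hV h).1 e).1
    · exact (V_r2 hV s h).1 ((canV_iff (s := s.r2) hV h).1 e).1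
  · exact canV_or hV h

lemma canV_T (hV : ∀ s : P.FSt, J s.facet → (V s.rR ↔ ¬ V s)) {s : P.FSt} (h : J s.facet) :
    (canV V s.facet = s.rL ∨ canV V s.facet = s.rR) ↔ ¬ V s := by
  rw [← V_rL hV s h, ← canV_V (s := s.rL) hV h, FSt.facet_rL, FSt.rL_r2]

/-- the orientation is constant on the lines -/
lemma canV_N (hV : ∀ s : P.FSt, J s.facet → (V s.rR ↔ ¬ V s)) {s : P.FSt} (h : J s.facet)
    (h' : J s.stN.facet) (hs : V s) (hs' : V s.stN) :
    canV V s.facet = s ↔ canV V s.stN.facet = s.stN := by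
  rw [canV_iff hV h, canV_iff hV h', FSt.stN_e]
  simp [hs, hs']

/-- along a line -/
lemma canV_line (hV : ∀ s : P.FSt, J s.facet → (V s.rR ↔ ¬ V s)) {s : P.FSt}
    (hs : s.1.e.2 = true) (y : ℤ) (h : J ((pN ^ y) s).facet) (h' : V ((pN ^ y) s)) :
    (pN ^ y) s = canV V ((pN ^ y) s).facet := by
  refine ((canV_iff hV h).2 ⟨h', ?_⟩).symm
  have key : ∀ y : ℤ, ((pN ^ y) s).1.e = s.1.e := by
    intro y
    induction y using Int.induction_on with
    | zero => rfl
    | succ i ih => rw [pN_zpow_succ, FSt.stN_e, ih]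
    | pred i ih =>
      have h1 := pN_zpow_succ s (-(i : ℤ) - 1)
      rw [sub_add_cancel] at h1
      rw [h1, FSt.stN_e] at ih
      exact ih
  rw [key]; exact hs

end

/-! ## The letters -/

lemma Lof_z {h : ℤ} (h1 : -1 ≤ h) (h2 : h ≤ 1) : Lof h = Ln.z ↔ h = 0 := by
  have : h = -1 ∨ h = 0 ∨ h = 1 := by omega
  rcases this with rfl | rfl | rfl <;> decide

lemma pre_stE (s : P.FSt) : pre s.stE.rL = s := by
  unfold pre
  rw [FSt.rL_rL, FSt.stE_inv, FSt.r2_r2]

lemma stE_of_pre (t : P.FSt) : (pre t).stE = t.rR := by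
  unfold pre
  rw [FSt.stE_inv, FSt.rL_r2]

/-- the local certificate of a certificate with headings -/
noncomputable def KHD.toKD (D : KHD P) : KD P where
  can := canV D.V
  kv := D.kv
  ke := D.ke
  kf := D.kf
  lam s := Lof (D.H s)
  nu s := Lof (D.H s)
  lin := D.lin
  lout := D.lout
  Le := D.Le
  Pl := D.Pl
  Hg := D.Hg

section

variable {J : P.Facet → Prop} {D : KHD P}

namespace KG

variable (G : KG J D)

include G

lemma nkf {s : P.FSt} (h : J s.facet) (he : ¬ D.ke s) : ¬ D.kf s.facet :=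
  fun h' => he (G.kf_ke s h h')

/-- both facets at a crossing have parallel lines -/
lemma V_stE {s : P.FSt} (h : J s.facet) (h' : J s.stE.facet) (hv : D.kv s) (he : ¬ D.ke s) :
    D.V s.stE ↔ D.V s := by
  have h1 := G.vx s h hv he
  have h2 := G.vx' s.stE.rL h' ((G.kv_rot s h h').2 hv)
    (by rw [FSt.rL_rL]; exact fun h3 => he ((G.ke_rev s h h').1 h3))
  rw [pre_stE] at h2
  have h3 := V_rL G.V_rR s.stE h'
  tauto

lemma cmp {s : P.FSt} (h : J s.facet) (h' : J s.stE.facet) (hv : D.kv s) (he : ¬ D.ke s) :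
    ((canV D.V s.facet = s ∨ canV D.V s.facet = s.r2) ∧
      (canV D.V s.stE.facet = s.stE ∨ canV D.V s.stE.facet = s.stE.r2)) ∨
    (canV D.V s.facet = s.rR ∧ canV D.V s.stE.facet = s.stE.rR) ∨
    (canV D.V s.facet = s.rL ∧ canV D.V s.stE.facet = s.stE.rL) := by
  have hVE := G.V_stE h h' hv he
  by_cases hs : D.V s
  · left
    exact ⟨canV_or G.V_rR h hs, canV_or G.V_rR h' (hVE.2 hs)⟩
  · right
    have hs' : ¬ D.V s.stE := fun h1 => hs (hVE.1 h1)
    have e1 : s.rR.stN = s.stE.rR := by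
      show s.rR.rL.stE.rR = _
      rw [FSt.rR_rL]
    have h1 := canV_N (s := s.rR) G.V_rR h (by rw [e1]; exact h') ((G.V_rR s h).2 hs)
      (by rw [e1]; exact (G.V_rR s.stE h').2 hs')
    rw [e1, FSt.facet_rR, FSt.facet_rR] at h1
    rcases (canV_T G.V_rR h).2 hs with h2 | h2
    · right
      refine ⟨h2, ?_⟩
      rcases (canV_T G.V_rR h').2 hs' with h3 | h3
      · exact h3
      · rw [h1.2 h3] at h2
        exact absurd h2.symm (by
          intro h4
          have h5 := congrArg FSt.rR h4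
          rw [FSt.rL_rR, FSt.rR_rR] at h5
          exact absurd (congrArg (fun t : P.FSt => t.1.e.2) h5) (by
            show ¬ (s.1.e.2 = !s.1.e.2)
            cases s.1.e.2 <;> decide))
    · left
      exact ⟨h2, h1.1 h2⟩

lemma cNE {t : P.FSt} (h : J t.facet) (hf : ¬ D.kf t.facet) (hV : D.V t) :
    (D.ke t → D.ke t.rL → Lof (D.H t) = Ln.s) ∧
    (D.ke t → ¬ D.ke t.rL → Lof (D.H t.rL.stE.r2) = Lof (D.H t) ∧ Lof (D.H t) ≠ Ln.z) ∧
    (¬ D.ke t → D.kv t → ¬ D.ke t.rL → Lof (D.H t.rL.stE.r2) = Ln.s) := by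
  refine ⟨?_, ?_, ?_⟩
  · intro h1 h2
    have h3 := G.r1 t.rL h hf h2 (by rw [FSt.rL_rR]; exact h1)
    rw [FSt.rL_rR] at h3
    have h4 := G.vr t.rL h hf h2
    have h5 := V_rL G.V_rR t h
    have h6 : D.H t.rL = 0 := by tauto
    have h7 : D.H t = -1 := by omega
    rw [h7]; rfl
  · intro h1 h2
    have h3 := G.r3 t h (G.ke_kv t h h1).1 h2 h1
    refine ⟨by rw [h3]; rfl, ?_⟩
    have h4 := (G.vr t h hf h1).1 hV
    have h5 := G.hb t h hf (G.ke_kv t h h1).1
    intro h6
    exact h4 ((Lof_z h5.1 h5.2).1 h6)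
  · intro h1 h2 h3
    have h4 := G.r4 t h h2 h3 h1
    have h5 := (G.vx t h h2 h1).1 hV
    have h6 : D.H (pre t) = -1 := by omega
    show Lof (D.H (pre t)) = Ln.s
    rw [h6]; rfl

lemma cSE {t : P.FSt} (h : J t.facet) (hf : ¬ D.kf t.facet) (hV : D.V t) :
    (D.ke t → D.ke t.rR → Lof (D.H t) = Ln.n) ∧
    (D.ke t → ¬ D.ke t.rR → Lof (D.H t.rR) = Lof (D.H t) ∧ Lof (D.H t) ≠ Ln.z) ∧
    (¬ D.ke t → D.kv t.rR → ¬ D.ke t.rR → Lof (D.H t.rR) = Ln.n) := by
  have hVR : ¬ D.V t.rR := fun h' => (G.V_rR t h).1 h' hV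
  refine ⟨?_, ?_, ?_⟩
  · intro h1 h2
    have h3 := G.r1 t h hf h1 h2
    have h4 := G.vr t.rR h hf h2
    have h5 : D.H t.rR = 0 := by tauto
    have h6 : D.H t = 1 := by omega
    rw [h6]; rfl
  · intro h1 h2
    have h3 := G.r2 t h hf h1 h2
    refine ⟨by rw [h3], ?_⟩
    have h4 := (G.vr t h hf h1).1 hV
    have h5 := G.hb t h hf (G.ke_kv t h h1).1
    intro h6
    exact h4 ((Lof_z h5.1 h5.2).1 h6)
  · intro h1 h2 h3
    have h4 := G.r4 t.rR h h2 (by rw [FSt.rR_rL]; exact h1) h3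
    have h5 := G.vx' t.rR h h2 (by rw [FSt.rR_rL]; exact h1)
    have h6 : D.H (pre t.rR) = 0 := by tauto
    have h7 : D.H t.rR = 1 := by omega
    rw [h7]; rfl

end KG

/-- the junction facets below the states of a rim -/
lemma J_rim {R : Core1 P} (hJ : ∀ s : P.FSt, J s.facet → ¬ R.core s.stE.facet → J s.stE.facet)
    {r : P.FSt} (hr : R.Rim r) (h : J (jf r)) (y : ℤ) :
    R.Rim ((pE ^ y) r) ∧ J (jf ((pE ^ y) r)) := by
  have key : ∀ n : ℕ, R.Rim ((pE ^ n) r) ∧ J (jf ((pE ^ n) r)) := by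
    intro n
    induction n with
    | zero => exact ⟨hr, h⟩
    | succ n ih =>
      rw [pow_succ', Equiv.Perm.mul_apply]
      have h1 := ih.1.jE
      refine ⟨h1, ?_⟩
      have h2 := hJ (pN.symm ((pE ^ n) r)) ih.2 (by
        rw [Core1.symm_E ih.1]; exact h1.jf)
      rw [Core1.symm_E ih.1] at h2
      exact h2
  have hs : pE.SameCycle r ((pE ^ y) r) := ⟨y, rfl⟩
  obtain ⟨n, hn⟩ := hs.exists_nat_pow_eq
  rw [← hn]
  exact key n

/-- **From headings to letters.** -/
theorem KH.toKL {R : Core1 P} {tr ac : P.FSt → Prop} (h : KH R tr ac J D)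
    (hJ : ∀ s : P.FSt, J s.facet → ¬ R.core s.stE.facet → J s.stE.facet) :
    ∃ D' : KD P, KL R tr ac J D' ∧ D'.lin = D.lin ∧ D'.lout = D.lout := by
  have G := h.toKG
  have hT : ∀ r, J (jf r) → (Turned (canV D.V) r ↔ D.Tur r) := fun r hr =>
    canV_T (s := pN.symm r) G.V_rR hr
  refine ⟨D.toKD, ?_, rfl, rfl⟩
  refine
    { can_facet := fun f _ => canV_facet D.V f
      kv_rot := G.kv_rot
      ke_rev := G.ke_rev
      ke_kv := G.ke_kv
      kf_ke := G.kf_ke
      cmp := fun s h1 h2 h3 h4 => G.cmp h1 h2 h3 h4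
      cNE := fun t h1 h2 h3 => G.cNE h1 h2 ((canV_V G.V_rR h1).1 h3)
      cSE := fun t h1 h2 h3 => G.cSE h1 h2 ((canV_V G.V_rR h1).1 h3)
      lin_E := h.lin_E
      lout_E := h.lout_E
      adm := h.adm
      cut_lab := h.cut_lab
      st_ac := h.st_ac
      en_ac := h.en_ac
      st_ex := h.st_ex
      en_ex := h.en_ex
      cut_arc := h.cut_arc
      arc := h.arc
      st_lab := ?_
      en_lab := ?_
      tur := ?_
      Le_J := h.Le_J
      Le_no := h.Le_no
      Le_rim := h.Le_rim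
      Le_cut := h.Le_cut
      Pl_J := h.Pl_J
      Pl_uniq := h.Pl_uniq
      Hg_nc := h.Hg_nc
      lean := fun f hf => by
        obtain ⟨S, E, n, g, h1, h2, h3⟩ := h.lean f hf
        exact ⟨S, E, n, g, h1, h2, h3.mono (fun s hs hV => canV_or G.V_rR hs hV)
          (fun _ _ => Iff.rfl) (fun _ _ => Iff.rfl) (fun _ _ => Iff.rfl) (fun _ hf => hf)
          (fun _ _ hf => hf) (fun _ _ hp => ⟨hp, fun hl => hl⟩) (fun _ _ hk => hk)⟩
      cov := ?_
      conn := fun cv hcv => h.conn cv hcv.x hcv.e hcv.cl }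
  · -- the start of the gap
    intro r hr hJr hst
    obtain ⟨h1, h2⟩ := hst
    change D.kv (pN.symm r).rL at h1
    change ¬ D.ke (pN.symm r).rL at h2
    have hJ' : J (pN.symm r).rL.facet := hJr
    have h3 := h.st_lab r hr hJr ⟨h1, h2⟩
    have h4 := G.hb _ hJ' (G.nkf hJ' h2) h1
    have h5 := G.vx _ hJ' h1 h2
    have h6 := V_rL G.V_rR (pN.symm r) hJr
    have h7 := Lof_z h4.1 h4.2
    change D.lin r = Lof (D.H (pN.symm r).rL) at h3
    show if D.lin r = Ln.z then Turned (canV D.V) r else _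
    split_ifs with h8
    · rw [hT r hJr]
      rw [h3, h7, ← h5] at h8
      exact h6.1 h8
    · rw [h3, h7, ← h5, h6, not_not] at h8
      exact ⟨(canV_V G.V_rR hJr).2 h8, h3.symm⟩
  · -- the end of the gap
    intro r hr hJr hen
    obtain ⟨h1, h2⟩ := hen
    change D.kv (pN.symm r) at h1
    change ¬ D.ke (pN.symm r).rL at h2
    have h3 := h.en_lab r hr hJr ⟨h1, h2⟩
    have h4 := G.hb' (pN.symm r) hJr h1 h2
    have h5 := G.vx' (pN.symm r) hJr h1 h2
    have h7 := Lof_z h4.1 h4.2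
    change D.lout r = Lof (D.H (pre (pN.symm r))) at h3
    show if D.lout r = Ln.z then Turned (canV D.V) r else _
    split_ifs with h8
    · rw [hT r hJr]
      rw [h3, h7] at h8
      show ¬ D.V (pN.symm r)
      rw [h5]
      exact not_not.2 h8
    · rw [h3, h7] at h8
      exact ⟨(canV_V G.V_rR hJr).2 (h5.2 h8), h3.symm⟩
  · -- turned facets at a rim
    intro r hr hJr ht
    change Turned (canV D.V) r at ht
    rcases h.tur r hr hJr ((hT r hJr).1 ht) with h1 | ⟨h1, z, h2, h3⟩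
    · exact Or.inl h1
    · refine Or.inr ⟨h1, z, fun y hy => ⟨?_, (h2 y hy).2⟩, h3⟩
      exact (hT _ (J_rim hJ hr hJr y).2).2 (h2 y hy).1
  · -- light
    intro f hf hL j
    change ∃ z : ℤ, (∀ y ∈ Set.uIcc 0 z, y ≠ z → ∃ g, J g ∧ ¬ D.Le g ∧
      (pN ^ y) (canV D.V f) = canV D.V g) ∧ _
    obtain ⟨hVf, hef⟩ := canV_spec G.V_rR hf
    have hJf : J (canV D.V f).facet := by rw [canV_facet]; exact hf
    obtain ⟨z, h1, h2⟩ := h.cov (canV D.V f) hJf (by rw [canV_facet]; exact hL) hVf j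
    refine ⟨z, fun y hy hyz => ?_, ?_⟩
    · obtain ⟨h3, h5, h4⟩ := h1 y hy hyz
      exact ⟨_, h3, h5, canV_line G.V_rR hef y h3 h4⟩
    · rcases h2 with ⟨h3, h4, h5, h6⟩ | h3
      · left
        have h7 := canV_line G.V_rR hef z h3 h4
        refine ⟨((pN ^ z) (canV D.V f)).facet, h3, h5, h7, ?_⟩
        show khit D.kv D.ke (canV D.V ((pN ^ z) (canV D.V f)).facet) j
        rw [← h7]
        exact h6
      · exact Or.inr h3

end

end Pool.Agent.MP42K
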