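import Pool.Agent.MP42.K.Port6
import Pool.Agent.MP42.K.HtoKL
import Pool.Agent.MP42.Geo

/-!
# Junctions without vertices, part 1: coordinates (owner helper89)

`Annu R J r h`: the junction `J` is a ring of `h` rows between two core rows; `cc r i k` is the state
`k` steps to the south of the rim state `(pE ^ i) r`.
-/

set_option autoImplicit false
set_option linter.unusedSectionVars false

namespace Pool.Agent.MP42K

open Pool.Agent.Helper55.UNF Pool.Agent.Helper55.UNF.GridSolid Pool.Agent.MP42G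
open Pool.Agent.MP42H Pool.Agent.MP42X Pool.Agent.MP42R
open Core1 (jf)
open Nb (SC SC_rot_right SC_rot_left SC_rev rev_rot rot)

variable {P : GridSolid}

/-- the state `k` steps to the south of `(pE ^ i) r` -/
def cc (r : P.FSt) (i : ℤ) (k : ℕ) : P.FSt := (pN.symm ^ k) ((pE ^ i) r)

/-- The junction is a ring of `h` rows between two core rows. -/
structure Annu (R : Core1 P) (J : P.Facet → Prop) (r : P.FSt) (h : ℕ) : Prop where
  rim : R.Rim r
  h1 : 1 ≤ h
  E : ∀ (i : ℤ) (k : ℕ), k ≤ h + 1 → (cc r i k).stE = cc r (i + 1) k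
  mem : ∀ f, J f ↔ ∃ (i : ℤ) (k : ℕ), 1 ≤ k ∧ k ≤ h ∧ f = (cc r i k).facet
  nc : ∀ f, J f → ¬ R.core f
  far : ∀ i : ℤ, R.Rim (cc r i (h + 1)).r2
  inj : ∀ (i j : ℤ) (k l : ℕ), 1 ≤ k → k ≤ h → 1 ≤ l → l ≤ h →
    (cc r i k).facet = (cc r j l).facet → cc r i k = cc r j l
  n3 : ∀ m : ℤ, 1 ≤ m → m ≤ 3 → (pE ^ m) r ≠ r

lemma cc_zero (r : P.FSt) (i : ℤ) : cc r i 0 = (pE ^ i) r := rfl

lemma cc_succ (r : P.FSt) (i : ℤ) (k : ℕ) : cc r i (k + 1) = pN.symm (cc r i k) := by
  unfold cc; rw [pow_succ', Equiv.Perm.mul_apply]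

lemma cc_stN (r : P.FSt) (i : ℤ) (k : ℕ) : (cc r i (k + 1)).stN = cc r i k := by
  rw [cc_succ, pN_symm_stN]

/-- `(pE ^ m) r = r` -/
def Zr (r : P.FSt) (m : ℤ) : Prop := (pE ^ m) r = r

namespace Annu

variable {R : Core1 P} {J : P.Facet → Prop} {r : P.FSt} {h : ℕ} (A : Annu R J r h)

include A

lemma rimi (i : ℤ) : R.Rim (cc r i 0) := A.rim.cyc ⟨i, rfl⟩

lemma Z_eq {i j : ℤ} : cc r i 0 = cc r j 0 ↔ Zr r (i - j) := by
  unfold Zr
  rw [cc_zero, cc_zero]
  constructor
  · intro e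
    rw [sub_eq_neg_add, zpow_add, Equiv.Perm.mul_apply, e, ← Equiv.Perm.mul_apply, ← zpow_add]
    simp
  · intro e
    have h2 : (pE ^ i) r = (pE ^ j) ((pE ^ (i - j)) r) := by
      rw [← Equiv.Perm.mul_apply, ← zpow_add, add_sub_cancel]
    rw [h2, e]

lemma Z_add {a b : ℤ} (ha : Zr r a) (hb : Zr r b) : Zr r (a + b) := by
  unfold Zr at *
  rw [zpow_add, Equiv.Perm.mul_apply, hb, ha]

lemma Z_neg {a : ℤ} (ha : Zr r a) : Zr r (-a) := by
  unfold Zr at *
  rw [zpow_neg, Equiv.Perm.inv_eq_iff_eq, ha]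

lemma Z_zero : Zr r 0 := rfl

/-- two small residues -/
lemma Z_ne {a b : ℤ} (ha : Zr r a) (hb : Zr r b) (h1 : a < b) (h2 : b ≤ a + 3) : False := by
  have h3 : Zr r (b - a) := by
    have := A.Z_add hb (A.Z_neg ha)
    rwa [← sub_eq_add_neg] at this
  exact A.n3 (b - a) (by omega) (by omega) h3

lemma ncc (i : ℤ) {k : ℕ} (h1 : 1 ≤ k) (h2 : k ≤ h) : ¬ R.core (cc r i k).facet :=
  A.nc _ ((A.mem _).2 ⟨i, k, h1, h2, rfl⟩)

lemma Jc (i : ℤ) {k : ℕ} (h1 : 1 ≤ k) (h2 : k ≤ h) : J (cc r i k).facet :=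
  (A.mem _).2 ⟨i, k, h1, h2, rfl⟩

lemma co0 (i : ℤ) : R.core (cc r i 0).facet := (A.rimi i).2

lemma co1 (i : ℤ) : R.core (cc r i (h + 1)).facet := (A.far i).2

/-- coordinates of equal states -/
lemma eq_iff {i j : ℤ} {k l : ℕ} (hk : 1 ≤ k) (hk2 : k ≤ h + 1) (hl : 1 ≤ l) (hl2 : l ≤ h + 1) :
    cc r i k = cc r j l ↔ k = l ∧ Zr r (i - j) := by
  constructor
  · intro e
    rcases lt_trichotomy k l with hkl | hkl | hkl
    · exfalso
      obtain ⟨d, rfl⟩ : ∃ d, l = k + (d + 1) := ⟨l - k - 1, by omega⟩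
      have e2 : cc r i 0 = cc r j (d + 1) := by
        unfold cc at e ⊢
        rw [pow_add, Equiv.Perm.mul_apply] at e
        have := (pN.symm ^ k : Equiv.Perm P.FSt).injective e
        simpa using this
      exact A.ncc j (k := d + 1) (by omega) (by omega) (by rw [← e2]; exact A.co0 i)
    · subst hkl
      refine ⟨rfl, A.Z_eq.1 ?_⟩
      unfold cc at e ⊢
      exact (pN.symm ^ k : Equiv.Perm P.FSt).injective e
    · exfalso
      obtain ⟨d, rfl⟩ : ∃ d, k = l + (d + 1) := ⟨k - l - 1, by omega⟩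
      have e2 : cc r i (d + 1) = cc r j 0 := by
        unfold cc at e ⊢
        rw [pow_add, Equiv.Perm.mul_apply] at e
        have := (pN.symm ^ l : Equiv.Perm P.FSt).injective e
        simpa using this
      exact A.ncc i (k := d + 1) (by omega) (by omega) (by rw [e2]; exact A.co0 j)
  · rintro ⟨rfl, hZ⟩
    have := A.Z_eq.2 hZ
    unfold cc at this ⊢
    exact congrArg _ this

/-- the far rim is not the near rim -/
lemma far_ne (i j : ℤ) : cc r i (h + 1) ≠ (cc r j 0).r2 := by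
  intro e
  -- one step back
  have h1 : cc r i h = (cc r j 1).r2 := by
    have e1 := cc_stN r i h
    rw [e] at e1
    rw [← e1, cc_succ]
    have h3 := pN_symm_stN (cc r j 0)
    conv_lhs => rw [← h3]
    rw [FSt.stN_inv]
  have h2 := A.inj i j h 1 A.h1 le_rfl le_rfl A.h1 (by rw [h1]; rfl)
  rw [h1] at h2
  exact r2_ne _ h2

/-- the four states around a corner -/
lemma rots (i : ℤ) {k : ℕ} (hk : k ≤ h) :
    rot (cc r i (k + 1)) = (cc r (i + 1) (k + 1)).rL ∧
    rot (cc r (i + 1) (k + 1)).rL = (cc r (i + 1) k).r2 ∧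
    rot (cc r (i + 1) k).r2 = (cc r i k).rR ∧
    rot (cc r i k).rR = cc r i (k + 1) := by
  refine ⟨?_, ?_, ?_, ?_⟩
  · show (cc r i (k + 1)).stE.rL = _
    rw [A.E i (k + 1) (by omega)]
  · rw [cc_succ]; exact symm_rL_rot
  · rw [← A.E i k (by omega)]; exact rim_rot2 _
  · rw [rim_rot3, cc_succ]

lemma SC4 (i : ℤ) {k : ℕ} (hk : k ≤ h) {s : P.FSt} : SC (cc r i (k + 1)) s ↔
    s = cc r i (k + 1) ∨ s = (cc r (i + 1) (k + 1)).rL ∨ s = (cc r (i + 1) k).r2 ∨
      s = (cc r i k).rR := by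
  obtain ⟨e1, e2, e3, e4⟩ := A.rots i hk
  have hv : Val (cc r i (k + 1)) 4 := Val.four (by rw [e1, e2, e3, e4])
  rw [hv.SC_iff]
  have f0 : (rot ^ 0) (cc r i (k + 1)) = cc r i (k + 1) := rfl
  have f1 : (rot ^ 1) (cc r i (k + 1)) = (cc r (i + 1) (k + 1)).rL := e1
  have f2 : (rot ^ 2) (cc r i (k + 1)) = (cc r (i + 1) k).r2 := by
    show rot (rot _) = _
    rw [e1, e2]
  have f3 : (rot ^ 3) (cc r i (k + 1)) = (cc r i k).rR := by
    show rot (rot (rot _)) = _
    rw [e1, e2, e3]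
  constructor
  · rintro ⟨i, hi, rfl⟩
    have : i = 0 ∨ i = 1 ∨ i = 2 ∨ i = 3 := by omega
    rcases this with rfl | rfl | rfl | rfl
    · exact Or.inl f0
    · exact Or.inr (Or.inl f1)
    · exact Or.inr (Or.inr (Or.inl f2))
    · exact Or.inr (Or.inr (Or.inr f3))
  · rintro (h1 | h1 | h1 | h1)
    · exact ⟨0, by norm_num, by rw [h1, f0]⟩
    · exact ⟨1, by norm_num, by rw [h1, f1]⟩
    · exact ⟨2, by norm_num, by rw [h1, f2]⟩
    · exact ⟨3, by norm_num, by rw [h1, f3]⟩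

lemma V0 (i : ℤ) : IsV (cc r i 0) := (A.rimi i).1
lemma V1 (i : ℤ) : IsV (cc r i (h + 1)) := (IsV_r2 _).1 (A.far i).1

/-- equal facets: equal states, or the near and the far rim -/
lemma inj' {i j : ℤ} {k l : ℕ} (hk2 : k ≤ h + 1) (hl2 : l ≤ h + 1)
    (e : (cc r i k).facet = (cc r j l).facet) : cc r i k = cc r j l ∨
      ((k = 0 ∨ k = h + 1) ∧ (l = 0 ∨ l = h + 1)) := by
  by_cases hk : k = 0 ∨ k = h + 1
  · right
    refine ⟨hk, ?_⟩
    by_contra hl
    have hc : R.core (cc r i k).facet := by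
      rcases hk with rfl | rfl
      · exact A.co0 i
      · exact A.co1 i
    rw [e] at hc
    exact A.ncc j (by omega) (by omega) hc
  · by_cases hl : l = 0 ∨ l = h + 1
    · exfalso
      have hc : R.core (cc r j l).facet := by
        rcases hl with rfl | rfl
        · exact A.co0 j
        · exact A.co1 j
      rw [← e] at hc
      exact A.ncc i (by omega) (by omega) hc
    · left
      exact A.inj i j k l (by omega) (by omega) (by omega) (by omega) e

/-- **The corners of the ring are different.** -/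
theorem SC_iff {i j : ℤ} {k l : ℕ} (hk : k ≤ h) (hl : l ≤ h) :
    SC (cc r i (k + 1)) (cc r j (l + 1)) ↔ k = l ∧ Zr r (i - j) := by
  rw [A.SC4 i hk]
  constructor
  · rintro (e | e | e | e)
    · obtain ⟨h1, h2⟩ := (A.eq_iff (by omega) (by omega) (by omega) (by omega)).1 e.symm
      exact ⟨by omega, h2⟩
    · exfalso
      have hf : (cc r j (l + 1)).facet = (cc r (i + 1) (k + 1)).facet := by rw [e]; rfl
      rcases A.inj' (by omega) (by omega) hf with h1 | ⟨h1, h2⟩
      · rw [← h1] at e; exact rL_ne _ e.symm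
      · have h3 : l = h := by omega
        have h4 : k = h := by omega
        subst h3; subst h4
        have h5 := A.V1 j
        rw [e] at h5
        exact not_V_rL' (A.V1 (i + 1)) h5
    · exfalso
      have hf : (cc r j (l + 1)).facet = (cc r (i + 1) k).facet := by rw [e]; rfl
      rcases A.inj' (by omega) (by omega) hf with h1 | ⟨h1, h2⟩
      · rw [← h1] at e; exact r2_ne _ e.symm
      · have h3 : l = h := by omega
        have h4 : k = 0 := by omega
        subst h3; subst h4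
        exact A.far_ne j (i + 1) e
    · exfalso
      have hf : (cc r j (l + 1)).facet = (cc r i k).facet := by rw [e]; rfl
      rcases A.inj' (by omega) (by omega) hf with h1 | ⟨h1, h2⟩
      · rw [← h1] at e; exact rR_ne _ e.symm
      · have h3 : l = h := by omega
        have h4 : k = 0 := by omega
        subst h3; subst h4
        have h5 := A.V1 j
        rw [e] at h5
        have h6 := A.V0 i
        rw [← FSt.rL_r2, IsV_r2] at h5
        exact not_V_rL' h6 h5
  · rintro ⟨rfl, hZ⟩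
    left
    refine ((A.eq_iff (by omega) (by omega) (by omega) (by omega)).2 ⟨rfl, ?_⟩)
    have := A.Z_neg hZ
    rwa [neg_sub] at this

/-- the states of the junction -/
lemma cases {s : P.FSt} (hs : J s.facet) : ∃ (i : ℤ) (k : ℕ), 1 ≤ k ∧ k ≤ h ∧
    (s = cc r i k ∨ s = (cc r i k).r2 ∨ s = (cc r i k).rR ∨ s = (cc r i k).rL) := by
  obtain ⟨i, k, h1, h2, e⟩ := (A.mem _).1 hs
  exact ⟨i, k, h1, h2, rot4 e⟩

/-- going to the north -/
lemma pN_cc (i : ℤ) (k : ℕ) (y : ℕ) (hy : y ≤ k) : (pN ^ (y : ℤ)) (cc r i k) = cc r i (k - y) := by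
  obtain ⟨d, rfl⟩ : ∃ d, k = y + d := ⟨k - y, by omega⟩
  have h2 : cc r i (y + d) = (pN.symm ^ y) (cc r i d) := by
    unfold cc; rw [pow_add, Equiv.Perm.mul_apply]
  rw [h2, zpow_natCast, add_tsub_cancel_left, ← Equiv.Perm.mul_apply]
  have h3 : (pN ^ y * pN.symm ^ y : Equiv.Perm P.FSt) = 1 := by
    rw [show (pN.symm : Equiv.Perm P.FSt) = pN⁻¹ from rfl, inv_pow, mul_inv_cancel]
  rw [h3]; rfl

/-- going to the south -/
lemma pN_cc' (i : ℤ) (k : ℕ) (y : ℕ) : (pN ^ (-(y : ℤ))) (cc r i k) = cc r i (k + y) := by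
  have h2 : cc r i (k + y) = (pN.symm ^ y) (cc r i k) := by
    unfold cc; rw [add_comm, pow_add, Equiv.Perm.mul_apply]
  rw [h2, zpow_neg, zpow_natCast, show (pN.symm : Equiv.Perm P.FSt) = pN⁻¹ from rfl, inv_pow]

/-- going to the east in a row -/
lemma pE_cc (i : ℤ) {k : ℕ} (hk : k ≤ h + 1) (y : ℤ) : (pE ^ y) (cc r i k) = cc r (i + y) k := by
  have step : ∀ i : ℤ, pE (cc r i k) = cc r (i + 1) k := fun i => A.E i k hk
  have key : ∀ (n : ℕ) (i : ℤ), (pE ^ n) (cc r i k) = cc r (i + n) k := by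
    intro n
    induction n with
    | zero => intro i; simp
    | succ n ih =>
      intro i
      rw [pow_succ', Equiv.Perm.mul_apply, ih, step]
      push_cast
      rw [add_assoc]
  obtain ⟨n, rfl | rfl⟩ := y.eq_nat_or_neg
  · rw [zpow_natCast, key]
  · rw [zpow_neg, Equiv.Perm.inv_eq_iff_eq, zpow_natCast, key]
    congr 1
    ring

end Annu

end Pool.Agent.MP42K
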