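import Pool.Agent.MP42.K.Ann

/-!
# Junctions without vertices, part 2: the thread (owner helper89)
-/

set_option autoImplicit false
set_option linter.unusedSectionVars false

namespace Pool.Agent.MP42K

open Pool.Agent.Helper55.UNF Pool.Agent.Helper55.UNF.GridSolid Pool.Agent.MP42G
open Pool.Agent.MP42H Pool.Agent.MP42X Pool.Agent.MP42R
open Core1 (jf)
open Nb (SC SC_rot_right SC_rot_left SC_rev rev_rot rot)

variable {P : GridSolid}

lemma pow_pE_r2 (n : ℕ) (s : P.FSt) : (pE ^ n) s.r2 = ((pE.symm ^ n) s).r2 := by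
  induction n with
  | zero => rfl
  | succ n ih =>
    rw [pow_succ', Equiv.Perm.mul_apply, ih, pow_succ', Equiv.Perm.mul_apply]
    have h2 := FSt.stE_inv (pE.symm ((pE.symm ^ n) s))
    rw [pE_symm_stE] at h2
    exact h2

lemma spow_pE_r2 (n : ℕ) (s : P.FSt) : (pE.symm ^ n) s.r2 = ((pE ^ n) s).r2 := by
  have h1 := pow_pE_r2 n ((pE ^ n) s)
  have h2 : (pE.symm ^ n) ((pE ^ n) s) = s := by
    rw [← Equiv.Perm.mul_apply]
    have h3 : (pE.symm ^ n * pE ^ n : Equiv.Perm P.FSt) = 1 := by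
      rw [show (pE.symm : Equiv.Perm P.FSt) = pE⁻¹ from rfl, inv_pow, inv_mul_cancel]
    rw [h3]; rfl
  rw [h2] at h1
  rw [← h1, ← Equiv.Perm.mul_apply]
  have h3 : (pE.symm ^ n * pE ^ n : Equiv.Perm P.FSt) = 1 := by
    rw [show (pE.symm : Equiv.Perm P.FSt) = pE⁻¹ from rfl, inv_pow, inv_mul_cancel]
  rw [h3]; rfl

lemma zpow_pE_r2 (z : ℤ) (s : P.FSt) : (pE ^ z) s.r2 = ((pE ^ (-z)) s).r2 := by
  obtain ⟨n, rfl | rfl⟩ := z.eq_nat_or_neg
  · rw [zpow_natCast, pow_pE_r2, zpow_neg, zpow_natCast,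
      show (pE.symm : Equiv.Perm P.FSt) = pE⁻¹ from rfl, inv_pow]
  · rw [neg_neg, zpow_natCast, ← spow_pE_r2, zpow_neg, zpow_natCast,
      show (pE.symm : Equiv.Perm P.FSt) = pE⁻¹ from rfl, inv_pow]

namespace Annu

variable {R : Core1 P} {J : P.Facet → Prop} {r : P.FSt} {h : ℕ} (A : Annu R J r h)

include A

/-- the rim state of the far rim -/
lemma far_pE (i : ℤ) (y : ℤ) : (pE ^ y) (cc r i (h + 1)).r2 = (cc r (i - y) (h + 1)).r2 := by
  rw [zpow_pE_r2, A.pE_cc _ le_rfl, ← sub_eq_add_neg]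

lemma far_below (i : ℤ) : pN.symm (cc r i (h + 1)).r2 = (cc r i h).r2 := by
  rw [pN_symm_apply, FSt.r2_r2, cc_stN]

lemma near_below (i : ℤ) : pN.symm (cc r i 0) = cc r i 1 := (cc_succ r i 0).symm

/-- the rims of the junction -/
lemma rims {s : P.FSt} (hs : R.Rim s) (hJ : J (jf s)) :
    (∃ i, s = cc r i 0) ∨ (∃ i, s = (cc r i (h + 1)).r2) := by
  obtain ⟨i, k, h1, h2, e⟩ := A.cases (s := pN.symm s) hJ
  have e1 : (pN.symm s).stN = s := pN_symm_stN s
  rcases e with e | e | e | e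
  · left
    refine ⟨i, ?_⟩
    obtain ⟨k, rfl⟩ : ∃ k', k = k' + 1 := ⟨k - 1, by omega⟩
    rw [e, cc_stN] at e1
    have h3 : k = 0 := by
      by_contra hk
      exact A.ncc i (k := k) (by omega) (by omega) (by rw [e1]; exact hs.2)
    subst h3
    exact e1.symm
  · right
    refine ⟨i, ?_⟩
    have h4 : (cc r i k).r2.stN = (cc r i (k + 1)).r2 := by
      have := cc_stN r i k
      rw [← this, FSt.stN_inv]
    rw [e, h4] at e1
    have h3 : k = h := by
      by_contra hk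
      exact A.ncc i (k := k + 1) (by omega) (by omega) (by
        have : (cc r i (k + 1)).r2.facet = s.facet := by rw [e1]
        rw [FSt.facet_r2] at this
        rw [this]; exact hs.2)
    subst h3
    exact e1.symm
  · exfalso
    have h4 : (cc r i k).rR.stN = (cc r (i + 1) k).rR := by
      show (cc r i k).rR.rL.stE.rR = _
      rw [FSt.rR_rL, A.E i k (by omega)]
    rw [e, h4] at e1
    exact A.ncc (i + 1) h1 h2 (by
      have : (cc r (i + 1) k).rR.facet = s.facet := by rw [e1]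
      rw [FSt.facet_rR] at this
      rw [this]; exact hs.2)
  · exfalso
    have h4 : (cc r i k).rL.stN = (cc r (i - 1) k).rL := by
      show (cc r i k).rL.rL.stE.rR = _
      have h5 := A.E (i - 1) k (by omega)
      rw [sub_add_cancel] at h5
      rw [FSt.rL_rL, ← h5, FSt.stE_inv, FSt.r2_rR]
    rw [e, h4] at e1
    exact A.ncc (i - 1) h1 h2 (by
      have : (cc r (i - 1) k).rL.facet = s.facet := by rw [e1]
      rw [FSt.facet_rL] at this
      rw [this]; exact hs.2)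

/-! ## Corners and sides in coordinates -/

lemma sc_rR (x : P.FSt) (i : ℤ) (k : ℕ) : SC x (cc r i k).rR ↔ SC x (cc r i (k + 1)) := by
  have h2 : rot (cc r i k).rR = cc r i (k + 1) := by rw [rim_rot3, cc_succ]
  rw [← h2, Nb.rot_apply, SC_rot_right]

lemma sc_rL (x : P.FSt) (i : ℤ) {k : ℕ} (hk : k ≤ h + 1) :
    SC x (cc r i k).rL ↔ SC x (cc r (i - 1) k) := by
  have h2 : rot (cc r (i - 1) k) = (cc r i k).rL := by
    show (cc r (i - 1) k).stE.rL = _
    rw [A.E _ _ hk, sub_add_cancel]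
  rw [← h2, Nb.rot_apply, SC_rot_right]

lemma sc_r2 (x : P.FSt) (i : ℤ) {k : ℕ} (hk : k ≤ h) :
    SC x (cc r i k).r2 ↔ SC x (cc r (i - 1) (k + 1)) := by
  have h2 : rot (cc r i (k + 1)).rL = (cc r i k).r2 := by
    rw [cc_succ]; exact symm_rL_rot
  rw [← h2, Nb.rot_apply, SC_rot_right, A.sc_rL x i (by omega)]

lemma sc_rR' (x : P.FSt) (i : ℤ) (k : ℕ) : SC (cc r i k).rR x ↔ SC (cc r i (k + 1)) x := by
  have h2 : rot (cc r i k).rR = cc r i (k + 1) := by rw [rim_rot3, cc_succ]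
  rw [← h2, Nb.rot_apply, SC_rot_left]

lemma kv_rR (N : Nb P) (i : ℤ) (k : ℕ) : N.kv (cc r i k).rR ↔ N.kv (cc r i (k + 1)) :=
  N.kv_SC ((A.sc_rR' _ i k).2 (Equiv.Perm.SameCycle.refl _ _))

lemma kv_rL (N : Nb P) (i : ℤ) {k : ℕ} (hk : k ≤ h + 1) :
    N.kv (cc r i k).rL ↔ N.kv (cc r (i - 1) k) :=
  (N.kv_SC ((A.sc_rL _ i hk).2 (Equiv.Perm.SameCycle.refl _ _))).symm

lemma kv_r2 (N : Nb P) (i : ℤ) {k : ℕ} (hk : k ≤ h) :
    N.kv (cc r i k).r2 ↔ N.kv (cc r (i - 1) (k + 1)) :=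
  (N.kv_SC ((A.sc_r2 _ i hk).2 (Equiv.Perm.SameCycle.refl _ _))).symm

lemma ke_r2 (N : Nb P) (i : ℤ) {k : ℕ} (hk : k ≤ h + 1) :
    N.ke (cc r i k).r2 ↔ N.ke (cc r (i - 1) k) := by
  have h2 : (cc r (i - 1) k).stE.r2 = (cc r i k).r2 := by
    rw [A.E _ _ hk, sub_add_cancel]
  rw [← h2, N.ke_rev]

lemma ke_rR (N : Nb P) (i : ℤ) (k : ℕ) : N.ke (cc r i k).rR ↔ N.ke (cc r i (k + 1)).rL := by
  have h1 : (cc r i (k + 1)).rL.stE.r2 = (cc r i k).rR := by
    rw [cc_succ, symm_rL_stE, FSt.rL_r2]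
  rw [← h1, N.ke_rev]

/-- the thread -/
theorem thread {V : P.FSt → Prop} (hV : ∀ s : P.FSt, J s.facet → (V s.rR ↔ ¬ V s)) {α β : ℤ}
    (hα1 : -1 ≤ α) (hα2 : α ≤ 1) (hβ1 : -1 ≤ β) (hβ2 : β ≤ 1)
    (hVE : ∀ k, 1 ≤ k → k ≤ h → (V (cc r 0 k) ↔ α ≠ 0))
    (hVW : ∀ k, 1 ≤ k → k ≤ h → (V (cc r (-1) k) ↔ β ≠ 0)) :
    ∃ (N : Nb P) (lin lout : P.FSt → Ln), Gr R J N V lin lout [] ∧
      (∀ s, N.kv s ↔ ∃ k ≤ h, SC (cc r (-1) (k + 1)) s) ∧
      (∀ s, N.ke s ↔ ∃ k, 1 ≤ k ∧ k ≤ h ∧ (s = cc r (-1) k ∨ s = (cc r 0 k).r2)) ∧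
      (∀ f, ¬ N.kf f) ∧
      (∀ i, lin (cc r i 0) = Lof α ∧ lout (cc r i 0) = Lof β ∧
        lin (cc r i (h + 1)).r2 = Lof β ∧ lout (cc r i (h + 1)).r2 = Lof α) := by
  classical
  have hJ0 := A.nc
  have hh := A.h1
  -- the start
  have e0 : cc r (-1) 1 = pN.symm (pE.symm r) := rfl
  have e1 : cc r 0 1 = pN.symm r := rfl
  have g0 := Gr.root (R := R) hJ0 A.rim (by rw [← e1]; exact A.Jc 0 le_rfl hh)
    (by rw [← e0]; exact A.Jc (-1) le_rfl hh) hV hα1 hα2 hβ1 hβ2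
    (by rw [← e1]; exact hVE 1 le_rfl hh) (by rw [← e0]; exact hVW 1 le_rfl hh)
  rw [← e0] at g0
  -- the run
  have et : ∀ i : ℕ, (pN.symm ^ i) (cc r (-1) 1) = cc r (-1) (i + 1) := by
    intro i
    unfold cc
    rw [pow_add, Equiv.Perm.mul_apply]
  set N0 : Nb P := Nb.pt (cc r (-1) 1) with hN0
  set T1 : P.FSt → Prop := fun s => ∃ i < h - 1, s = (pN.symm ^ i) (cc r (-1) 1) with hT1
  have kv0 : ∀ s, N0.kv s ↔ SC (cc r (-1) 1) s := fun s => Iff.rfl
  have ke0 : ∀ s, ¬ N0.ke s := fun s => id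
  have kf0 : ∀ s, ¬ N0.kf s := fun s => id
  have hA1 : Adds N0 (N0.addE T1) T1 := by
    refine adds_addE ?_
    rintro s ⟨i, hi1, rfl⟩
    rcases i with _ | i
    · left
      exact Equiv.Perm.SameCycle.refl _ _
    · right
      refine ⟨_, ⟨i, by omega, rfl⟩, ?_⟩
      rw [et, et, A.sc_rR']
      exact Equiv.Perm.SameCycle.refl _ _
  have g1 := g0.run (N' := N0.addE T1) hJ0 (h - 1)
    (fun i hi => by
      rw [et, A.E _ _ (by omega), ← cc_succ, ← cc_succ, A.E _ _ (by omega)])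
    (fun i hi => by
      rw [et, A.E _ _ (by omega)]
      exact ⟨A.Jc _ (by omega) (by omega), A.Jc _ (by omega) (by omega)⟩)
    (fun i hi => by
      rw [et, kv0, A.sc_rR]
      intro hc
      have := ((A.SC_iff (k := 0) (l := i + 1) (by omega) (by omega)).1 hc).1
      omega)
    (fun i j hij hj => by
      rw [et, et, A.sc_rR', A.sc_rR]
      intro hc
      have := ((A.SC_iff (k := i + 1) (l := j + 1) (by omega) (by omega)).1 hc).1
      omega)
    (fun i hi => by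
      rw [et, et, A.E _ _ (by omega), A.E _ _ (by omega)]
      exact ⟨(hVW _ (by omega) (by omega)).trans (hVW _ (by omega) (by omega)).symm,
        (hVE _ (by omega) (by omega)).trans (hVE _ (by omega) (by omega)).symm⟩) hA1
  set N1 : Nb P := N0.addE T1 with hN1
  have kv1 : ∀ s, N1.kv s ↔ ∃ k < h, SC (cc r (-1) (k + 1)) s := by
    intro s
    rw [hA1.kv, kv0]
    constructor
    · rintro (hc | ⟨u, ⟨i, hi1, rfl⟩, hc⟩)
      · exact ⟨0, by omega, hc⟩
      · rw [et, A.sc_rR'] at hc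
        exact ⟨i + 1, by omega, hc⟩
    · rintro ⟨k, hk, hc⟩
      rcases k with _ | k
      · exact Or.inl hc
      · right
        refine ⟨_, ⟨k, by omega, rfl⟩, ?_⟩
        rw [et, A.sc_rR']
        exact hc
  -- the foot
  set u : P.FSt := (cc r (-1) (h + 1)).r2 with hu
  have hur : R.Rim u := A.far (-1)
  have eu : (pN.symm u).r2 = cc r (-1) h := by rw [hu, A.far_below, FSt.r2_r2]
  have eh : (pN.symm ^ (h - 1)) (cc r (-1) 1) = (pN.symm u).r2 := by
    rw [et, eu, Nat.sub_add_cancel hh]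
  rw [eh] at g1
  have hA2 : Adds N1 (N1.addE (fun s => s = (pN.symm u).r2)) (fun s => s = (pN.symm u).r2) := by
    refine adds_one ?_
    rw [kv1, eu]
    refine ⟨h - 1, by omega, ?_⟩
    rw [Nat.sub_add_cancel hh]
    exact Equiv.Perm.SameCycle.refl _ _
  have g2 := g1.foot hJ0 hur (fun s hs => by
    obtain ⟨y, rfl⟩ := hs
    rw [hu, A.far_pE, A.far_below, kv1]
    rintro ⟨k, hk, hc⟩
    rw [A.sc_r2 _ _ le_rfl] at hc
    have := ((A.SC_iff (k := k) (l := h) (by omega) (by omega)).1 hc).1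
    omega) hA2
  set N2 : Nb P := N1.addE (fun s => s = (pN.symm u).r2) with hN2
  have hlin : ∀ (l : P.FSt → Ln) (x : Ln) (i : ℤ), setL l u x (cc r i 0) = l (cc r i 0) := by
    intro l x i
    unfold setL
    rw [if_neg]
    rintro ⟨y, hy⟩
    rw [hu, A.far_pE] at hy
    have := congrArg FSt.r2 hy
    rw [FSt.r2_r2] at this
    exact A.far_ne _ _ this
  have hlin' : ∀ (l : P.FSt → Ln) (x : Ln) (i : ℤ), setL l u x (cc r i (h + 1)).r2 = x := by
    intro l x i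
    unfold setL
    rw [if_pos]
    refine ⟨-1 - i, ?_⟩
    rw [hu, A.far_pE]
    congr 3
    ring
  refine ⟨N2, _, _, g2, ?_, ?_, ?_, ?_⟩
  · intro s
    rw [hA2.one1, kv1, eu, A.sc_rR']
    constructor
    · rintro (⟨k, hk, hc⟩ | hc)
      · exact ⟨k, by omega, hc⟩
      · exact ⟨h, le_rfl, hc⟩
    · rintro ⟨k, hk, hc⟩
      rcases Nat.lt_or_ge k h with h1 | h1
      · exact Or.inl ⟨k, h1, hc⟩
      · have : k = h := by omega
        subst this
        exact Or.inr hc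
  · intro s
    have es : ∀ k, k ≤ h → (cc r (-1) k).stE.r2 = (cc r 0 k).r2 := by
      intro k hk
      rw [A.E _ _ (by omega)]; rfl
    rw [hA2.one2, hA1.ke, eu, es h le_rfl]
    constructor
    · rintro ((hc | ⟨u, ⟨i, hi1, rfl⟩, hc⟩) | hc)
      · exact absurd hc (ke0 s)
      · rw [et, es _ (by omega)] at hc
        exact ⟨i + 1, by omega, by omega, hc⟩
      · exact ⟨h, hh, le_rfl, hc⟩
    · rintro ⟨k, hk1, hk, hc⟩
      rcases Nat.lt_or_ge k h with h1 | h1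
      · left; right
        refine ⟨_, ⟨k - 1, by omega, rfl⟩, ?_⟩
        rw [et, Nat.sub_add_cancel hk1, es _ hk]
        exact hc
      · have : k = h := by omega
        subst this
        exact Or.inr hc
  · intro f
    rw [hA2.kf, hA1.kf]
    exact kf0 f
  · intro i
    rw [hlin, hlin, hlin', hlin']
    exact ⟨rfl, rfl, rfl, rfl⟩

end Annu

end Pool.Agent.MP42K
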