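import Pool.Agent.MP42.K.Ann2

/-!
# Junctions without vertices, part 3: assembly (owner helper89)
-/

set_option autoImplicit false
set_option linter.unusedSectionVars false

namespace Pool.Agent.MP42K

open Pool.Agent.Helper55.UNF Pool.Agent.Helper55.UNF.GridSolid Pool.Agent.MP42G
open Pool.Agent.MP42H Pool.Agent.MP42X Pool.Agent.MP42R
open Core1 (jf)
open Nb (SC SC_rot_right SC_rot_left SC_rev rev_rot rot)

variable {P : GridSolid}

lemma zpow_pN_rR (z : ℤ) (s : P.FSt) : (pN ^ z) s.rR = ((pE ^ z) s).rR := by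
  have key : ∀ (n : ℕ) (s : P.FSt), (pN ^ n) s.rR = ((pE ^ n) s).rR := by
    intro n s
    have := Pool.Agent.MP42.Geo.pN_pow s.rR n
    rw [FSt.rR_rL] at this
    exact this
  obtain ⟨n, rfl | rfl⟩ := z.eq_nat_or_neg
  · rw [zpow_natCast, zpow_natCast, key]
  · rw [zpow_neg, zpow_neg, Equiv.Perm.inv_eq_iff_eq, zpow_natCast, zpow_natCast, key]
    congr 1
    rw [← Equiv.Perm.mul_apply, mul_inv_cancel]; rfl

/-- the conclusion of `cov` -/
def CovAt (R : Core1 P) (tr : P.FSt → Prop) (J : P.Facet → Prop) (D : KHD P) (s : P.FSt) (j : VL) :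
    Prop := ∃ z : ℤ,
    (∀ y ∈ Set.uIcc 0 z, y ≠ z → J ((pN ^ y) s).facet ∧ ¬ D.Le ((pN ^ y) s).facet ∧
      D.V ((pN ^ y) s)) ∧
    ((J ((pN ^ z) s).facet ∧ D.V ((pN ^ z) s) ∧ ¬ D.kf ((pN ^ z) s).facet ∧
        khit D.kv D.ke ((pN ^ z) s) j) ∨
     (∃ r j', ((0 < z ∧ (pN ^ z) s = r ∧ j' = j) ∨
        (z < 0 ∧ (pN ^ z) s = r.r2 ∧ j' = j.flip)) ∧ R.Rim r ∧
      LitK D.kv D.ke tr D.lin D.lout r j'))

lemma khit_r2 {kv ke : P.FSt → Prop} (s : P.FSt) (j : VL) (h : khit kv ke s j.flip) :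
    khit kv ke s.r2 j := by
  cases j
  · show (kv s.r2.rL ∨ kv s.r2.r2) ∧ ¬ ke s.r2.r2
    rw [FSt.r2_rL, FSt.r2_r2]
    have h2 : (kv s ∨ kv s.rR) ∧ ¬ ke s := h
    tauto
  · show ke s.r2.rL ∨ ke s.r2.rR
    rw [FSt.r2_rL, FSt.r2_rR]
    have h2 : ke s.rL ∨ ke s.rR := h
    tauto
  · show (kv s.r2 ∨ kv s.r2.rR) ∧ ¬ ke s.r2
    rw [FSt.r2_rR]
    have h2 : (kv s.rL ∨ kv s.r2) ∧ ¬ ke s.r2 := h
    tauto

lemma flip_flip' (j : VL) : j.flip.flip = j := by cases j <;> rfl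

/-- `cov` for the reversed frame -/
lemma CovAt.r2 {R : Core1 P} {tr : P.FSt → Prop} {J : P.Facet → Prop} {D : KHD P}
    (hV : ∀ s : P.FSt, J s.facet → (D.V s.rR ↔ ¬ D.V s)) {s : P.FSt} {j : VL}
    (h : CovAt R tr J D s j.flip) : CovAt R tr J D s.r2 j := by
  have hV2 : ∀ t : P.FSt, J t.facet → (D.V t.r2 ↔ D.V t) := by
    intro t ht
    rw [← FSt.rR_rR, hV t.rR ht, hV t ht, not_not]
  obtain ⟨z, h1, h2⟩ := h
  refine ⟨-z, ?_, ?_⟩
  · intro y hy hyz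
    have hy' : -y ∈ Set.uIcc 0 z := by
      rw [Set.mem_uIcc] at hy ⊢; omega
    obtain ⟨k1, k2, k3⟩ := h1 (-y) hy' (by omega)
    rw [zpow_pN_r2, FSt.facet_r2]
    exact ⟨k1, k2, (hV2 _ k1).2 k3⟩
  · rw [zpow_pN_r2, neg_neg, FSt.facet_r2]
    rcases h2 with ⟨k1, k2, k3, k4⟩ | ⟨r, j', k1, k2, k3⟩
    · left
      exact ⟨k1, (hV2 _ k1).2 k2, k3, khit_r2 _ _ k4⟩
    · right
      refine ⟨r, j', ?_, k2, k3⟩
      rcases k1 with ⟨a, b, c⟩ | ⟨a, b, c⟩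
      · right
        exact ⟨by omega, by rw [b], c⟩
      · left
        exact ⟨by omega, by rw [b, FSt.r2_r2], by rw [c, flip_flip']⟩

namespace Annu

variable {R : Core1 P} {J : P.Facet → Prop} {r : P.FSt} {h : ℕ} (A : Annu R J r h)

include A

/-- The data for the assembly. -/
structure Asm (A : Annu R J r h) (tr : P.FSt → Prop) (N : Nb P) (V : P.FSt → Prop)
    (lin lout : P.FSt → Ln) (AP FP : ℤ → Prop) (p q : ℤ) : Prop where
  kvs : ∀ s, N.kv s → ∃ (i : ℤ) (k : ℕ), k ≤ h ∧ SC (cc r i (k + 1)) s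
  kes : ∀ s, N.ke s → R.core s.facet → ¬ R.core s.stE.facet
  kf : ∀ f, ¬ N.kf f
  kv : ∀ (i : ℤ) (k : ℕ), k < h → (N.kv (cc r i (k + 1)) ↔ Zr r (i + 1))
  kvh : ∀ i : ℤ, N.kv (cc r i (h + 1)) ↔ AP i
  ke : ∀ (i : ℤ) (k : ℕ), 1 ≤ k → k ≤ h → (N.ke (cc r i k) ↔ Zr r (i + 1))
  kn : ∀ (i : ℤ) (k : ℕ), k < h → ¬ N.ke (cc r i (k + 1)).rL
  knh : ∀ i : ℤ, N.ke (cc r i (h + 1)).rL ↔ FP i
  st : ∀ i, (AP i ∧ ¬ FP i) ↔ Zr r (i + p)
  en : ∀ i, (AP (i - 1) ∧ ¬ FP i) ↔ Zr r (i + q)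
  gr : Gr R J N V lin lout []
  ln : ∀ i, lin (cc r i 0) = lin r ∧ lout (cc r i 0) = lout r ∧
        lin (cc r i (h + 1)).r2 = lout r ∧ lout (cc r i (h + 1)).r2 = lin r
  adm : ¬ (lin r = Ln.n ∧ lout r = Ln.s) ∧ ¬ (lin r = Ln.s ∧ lout r = Ln.n)
  arc0 : ¬ ((lin r = Ln.z ∧ lout r = Ln.n) ∨ (lin r = Ln.s ∧ lout r = Ln.z))
  arc1 : (lout r = Ln.z ∧ lin r = Ln.n) ∨ (lout r = Ln.s ∧ lin r = Ln.z) →
    ∀ i, Zr r (i + q) → FP (i - 1)
  covV : ∀ (i : ℤ) (k : ℕ), 1 ≤ k → k ≤ h → V (cc r i k) → ∀ j,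
    ((∀ l, 1 ≤ l → l ≤ k → V (cc r i l)) ∧ LitK N.kv N.ke tr lin lout (cc r i 0) j) ∨
    ((∀ l, k ≤ l → l ≤ h → V (cc r i l)) ∧
      LitK N.kv N.ke tr lin lout (cc r i (h + 1)).r2 j.flip)
  covT : ∀ (i : ℤ) (k : ℕ), 1 ≤ k → k ≤ h → ¬ V (cc r i k) → ∀ j, ∃ z : ℤ,
    (∀ y ∈ Set.uIcc 0 z, ¬ V (cc r (i + y) k)) ∧ khit N.kv N.ke (cc r (i + z) k).rR j
  tur0 : ∀ i, ¬ V (cc r i 1) → (∀ j, LitK N.kv N.ke tr lin lout (cc r i 0) j) ∨
    (∃ z : ℤ, (∀ y ∈ Set.uIcc 0 z, ¬ V (cc r (i + y) 1) ∧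
        ¬ Land N.kv N.ke lin lout (cc r (i + y) 0)) ∧
      ((Zr r (i + z) ∧ lin r = Ln.z) ∨ (Zr r (i + z + 1) ∧ lout r = Ln.z)))
  tur1 : ∀ i, ¬ V (cc r i h) → (∀ j, LitK N.kv N.ke tr lin lout (cc r i (h + 1)).r2 j) ∨
    (∃ z : ℤ, (∀ y ∈ Set.uIcc 0 z, ¬ V (cc r (i - y) h) ∧
        ¬ Land N.kv N.ke lin lout (cc r (i - y) (h + 1)).r2) ∧
      ((Zr r (i - z + p) ∧ lout r = Ln.z) ∨ (Zr r (i - z + q) ∧ lin r = Ln.z)))

section

variable {tr ac : P.FSt → Prop} {N : Nb P} {V : P.FSt → Prop}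
    {lin lout : P.FSt → Ln} {AP FP : ℤ → Prop} {p q : ℤ}

lemma st_near (B : A.Asm tr N V lin lout AP FP p q) (i : ℤ) :
    St N.kv N.ke (cc r i 0) ↔ Zr r i := by
  have h1 := A.h1
  unfold St
  rw [A.near_below, A.kv_rL N i (by omega), B.kv _ 0 (by omega), sub_add_cancel]
  have := B.kn i 0 (by omega)
  tauto

lemma en_near (B : A.Asm tr N V lin lout AP FP p q) (i : ℤ) :
    En N.kv N.ke (cc r i 0) ↔ Zr r (i + 1) := by
  have h1 := A.h1
  unfold En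
  rw [A.near_below, B.kv _ 0 (by omega)]
  have := B.kn i 0 (by omega)
  tauto

lemma st_far (B : A.Asm tr N V lin lout AP FP p q) (i : ℤ) :
    St N.kv N.ke (cc r i (h + 1)).r2 ↔ Zr r (i + p) := by
  unfold St
  rw [A.far_below, FSt.r2_rL, A.kv_rR N i h, B.kvh, A.ke_rR N i h, B.knh, B.st]

lemma en_far (B : A.Asm tr N V lin lout AP FP p q) (i : ℤ) :
    En N.kv N.ke (cc r i (h + 1)).r2 ↔ Zr r (i + q) := by
  unfold En
  rw [A.far_below, FSt.r2_rL, A.kv_r2 N i le_rfl, B.kvh, A.ke_rR N i h, B.knh, B.en]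

lemma cyc_near {i : ℤ} {s : P.FSt} : pE.SameCycle (cc r i 0) s ↔ ∃ j, s = cc r j 0 := by
  constructor
  · rintro ⟨y, rfl⟩
    exact ⟨i + y, A.pE_cc i (by omega) y⟩
  · rintro ⟨j, rfl⟩
    refine ⟨j - i, ?_⟩
    rw [A.pE_cc i (by omega)]
    congr 1
    ring

lemma cyc_far {i : ℤ} {s : P.FSt} :
    pE.SameCycle (cc r i (h + 1)).r2 s ↔ ∃ j, s = (cc r j (h + 1)).r2 := by
  constructor
  · rintro ⟨y, rfl⟩
    exact ⟨i - y, A.far_pE i y⟩
  · rintro ⟨j, rfl⟩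
    refine ⟨i - j, ?_⟩
    rw [A.far_pE]
    congr 2
    ring

lemma eq0 {i j m : ℤ} (h1 : Zr r (i + m)) (h2 : Zr r (j + m)) : Zr r (i - j) := by
  have := A.Z_add h1 (A.Z_neg h2)
  have e : i + m + -(j + m) = i - j := by ring
  rwa [e] at this

/-- `D` lies in the junction -/
lemma inJ (B : A.Asm tr N V lin lout AP FP p q) : N.In R J where
  nc := A.nc
  kv s hs hc := by
    obtain ⟨i, k, hk, hS⟩ := B.kvs s hs
    have key : ∀ (i : ℤ) (k : ℕ), k ≤ h + 1 → ¬ R.core (cc r i k).facet →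
        J (cc r i k).facet := by
      intro i k hk hc
      have h0 : k ≠ 0 := by rintro rfl; exact hc (A.co0 i)
      have h1 : k ≠ h + 1 := by rintro rfl; exact hc (A.co1 i)
      exact A.Jc i (by omega) (by omega)
    rcases (A.SC4 i hk).1 hS with e | e | e | e
    · rw [e] at hc ⊢; exact key _ _ (by omega) hc
    · rw [e] at hc ⊢; exact key _ _ (by omega) hc
    · rw [e] at hc ⊢; exact key _ _ (by omega) hc
    · rw [e] at hc ⊢; exact key _ _ (by omega) hc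
  ke := B.kes
  kf f hf := absurd hf (B.kf f)
  st a ha hJ hS := by
    rcases A.rims ha hJ with ⟨i, rfl⟩ | ⟨i, rfl⟩
    · refine ⟨cc r (-1) 0, A.cyc_near.2 ⟨-1, rfl⟩, (A.en_near B (-1)).2 ?_⟩
      exact A.Z_zero
    · refine ⟨(cc r (-q) (h + 1)).r2, A.cyc_far.2 ⟨-q, rfl⟩, (A.en_far B (-q)).2 ?_⟩
      rw [neg_add_cancel]; exact A.Z_zero
  en a b ha hJ hab h1 h2 := by
    rcases A.rims ha hJ with ⟨i, rfl⟩ | ⟨i, rfl⟩
    · obtain ⟨j, rfl⟩ := A.cyc_near.1 hab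
      exact A.Z_eq.2 (A.eq0 ((A.en_near B i).1 h1) ((A.en_near B j).1 h2))
    · obtain ⟨j, rfl⟩ := A.cyc_far.1 hab
      have hh := A.h1
      congr 1
      exact (A.eq_iff (by omega) le_rfl (by omega) le_rfl).2
        ⟨rfl, A.eq0 ((A.en_far B i).1 h1) ((A.en_far B j).1 h2)⟩

/-- **The assembly.** -/
theorem toKH (B : A.Asm tr N V lin lout AP FP p q)
    (htr : ∀ s, R.Rim s → J (jf s) → tr s) (hac : ∀ s, R.Rim s → J (jf s) → ac s) :
    ∃ D : KHD P, KH R tr ac J D ∧ D.lin = lin ∧ D.lout = lout := by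
  obtain ⟨H, hH⟩ := B.gr.toKG
  obtain ⟨hG, hs, he⟩ := hH (fun _ => False) (fun _ _ _ => False) (fun _ _ => False)
  have hh := A.h1
  set D : KHD P := ⟨N.kv, N.ke, N.kf, V, H, lin, lout, fun _ => False, fun _ _ _ => False,
    fun _ _ => False⟩ with hD
  have hVr : ∀ s : P.FSt, J s.facet → (V s.rR ↔ ¬ V s) := hG.V_rR
  have hVL : ∀ s : P.FSt, J s.facet → (V s.rL ↔ ¬ V s) := fun s hs => by
    have h1 := hVr s.rL hs
    rw [FSt.rL_rR] at h1
    tauto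
  have hV2 : ∀ s : P.FSt, J s.facet → (V s.r2 ↔ V s) := fun s hs => by
    rw [← FSt.rR_rR, hVr s.rR hs, hVr s hs, not_not]
  have tur_near : ∀ i, D.Tur (cc r i 0) ↔ ¬ V (cc r i 1) := by
    intro i
    show ¬ V (pN.symm (cc r i 0)) ↔ _
    rw [A.near_below]
  have tur_far : ∀ i, D.Tur (cc r i (h + 1)).r2 ↔ ¬ V (cc r i h) := by
    intro i
    show ¬ V (pN.symm (cc r i (h + 1)).r2) ↔ _
    rw [A.far_below, hV2 _ (A.Jc i hh le_rfl)]
  have covD : ∀ (i : ℤ) (k : ℕ), 1 ≤ k → k ≤ h → V (cc r i k) → ∀ j,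
      CovAt R tr J D (cc r i k) j := by
    intro i k h1 h2 hv j
    rcases B.covV i k h1 h2 hv j with ⟨k1, k2⟩ | ⟨k1, k2⟩
    · refine ⟨k, ?_, Or.inr ⟨cc r i 0, j, Or.inl ⟨by omega, ?_, rfl⟩, A.rimi i, k2⟩⟩
      · intro y hy hyk
        rw [Set.mem_uIcc] at hy
        obtain ⟨n, rfl⟩ : ∃ n : ℕ, y = n := ⟨y.toNat, by omega⟩
        rw [A.pN_cc i k n (by omega)]
        exact ⟨A.Jc i (by omega) (by omega), id, k1 _ (by omega) (by omega)⟩
      · rw [A.pN_cc i k k le_rfl, Nat.sub_self]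
    · refine ⟨-((h + 1 - k : ℕ) : ℤ), ?_, Or.inr ⟨(cc r i (h + 1)).r2, j.flip,
        Or.inr ⟨by omega, ?_, rfl⟩, A.far i, k2⟩⟩
      · intro y hy hyk
        rw [Set.mem_uIcc] at hy
        obtain ⟨n, rfl⟩ : ∃ n : ℕ, y = -(n : ℤ) := ⟨(-y).toNat, by omega⟩
        rw [A.pN_cc' i k n]
        exact ⟨A.Jc i (by omega) (by omega), id, k1 _ (by omega) (by omega)⟩
      · rw [A.pN_cc', FSt.r2_r2]
        congr 1
        omega
  have covR : ∀ (i : ℤ) (k : ℕ), 1 ≤ k → k ≤ h → ¬ V (cc r i k) → ∀ j,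
      CovAt R tr J D (cc r i k).rR j := by
    intro i k h1 h2 hv j
    obtain ⟨z, k1, k2⟩ := B.covT i k h1 h2 hv j
    refine ⟨z, ?_, Or.inl ?_⟩
    · intro y hy hyz
      rw [zpow_pN_rR, A.pE_cc i (by omega)]
      exact ⟨A.Jc _ h1 h2, id, (hVr _ (A.Jc _ h1 h2)).2 (k1 y hy)⟩
    · rw [zpow_pN_rR, A.pE_cc i (by omega)]
      exact ⟨A.Jc _ h1 h2, (hVr _ (A.Jc _ h1 h2)).2 (k1 z Set.right_mem_uIcc), B.kf _, k2⟩
  refine ⟨D, ?_, rfl, rfl⟩
  exact
    { hG with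
      lin_E := fun s hs1 hs2 _ => (B.gr.lE s hs1 hs2).1
      lout_E := fun s hs1 hs2 _ => (B.gr.lE s hs1 hs2).2
      adm := fun s hs1 hs2 _ => by
        show ¬ (lin s = Ln.n ∧ lout s = Ln.s) ∧ ¬ (lin s = Ln.s ∧ lout s = Ln.n)
        rcases A.rims hs1 hs2 with ⟨i, rfl⟩ | ⟨i, rfl⟩
        · rw [(B.ln i).1, (B.ln i).2.1]; exact B.adm
        · rw [(B.ln i).2.2.1, (B.ln i).2.2.2]
          have := B.adm
          tauto
      cut_lab := fun s hs1 hs2 hn => absurd (htr s hs1 hs2) hn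
      st_ac := fun s hs1 hs2 _ => hac s hs1 hs2
      en_ac := fun s hs1 hs2 _ => hac s hs1 hs2
      st_ex := fun s hs1 hs2 _ => by
        rcases A.rims hs1 hs2 with ⟨i, rfl⟩ | ⟨i, rfl⟩
        · refine ⟨cc r 0 0, ⟨A.cyc_near.2 ⟨0, rfl⟩, (A.st_near B 0).2 A.Z_zero⟩, ?_⟩
          rintro y ⟨hy1, hy2⟩
          obtain ⟨j, rfl⟩ := A.cyc_near.1 hy1
          refine A.Z_eq.2 ?_
          rw [sub_zero]
          exact (A.st_near B j).1 hy2
        · refine ⟨(cc r (-p) (h + 1)).r2, ⟨A.cyc_far.2 ⟨-p, rfl⟩, (A.st_far B (-p)).2 (by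
            rw [neg_add_cancel]; exact A.Z_zero)⟩, ?_⟩
          rintro y ⟨hy1, hy2⟩
          obtain ⟨j, rfl⟩ := A.cyc_far.1 hy1
          congr 1
          refine (A.eq_iff (by omega) le_rfl (by omega) le_rfl).2 ⟨rfl, ?_⟩
          rw [sub_neg_eq_add]
          exact (A.st_far B j).1 hy2
      en_ex := fun s hs1 hs2 _ => by
        rcases A.rims hs1 hs2 with ⟨i, rfl⟩ | ⟨i, rfl⟩
        · refine ⟨cc r (-1) 0, ⟨A.cyc_near.2 ⟨-1, rfl⟩, (A.en_near B (-1)).2 A.Z_zero⟩, ?_⟩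
          rintro y ⟨hy1, hy2⟩
          obtain ⟨j, rfl⟩ := A.cyc_near.1 hy1
          refine A.Z_eq.2 ?_
          rw [sub_neg_eq_add]
          exact (A.en_near B j).1 hy2
        · refine ⟨(cc r (-q) (h + 1)).r2, ⟨A.cyc_far.2 ⟨-q, rfl⟩, (A.en_far B (-q)).2 (by
            rw [neg_add_cancel]; exact A.Z_zero)⟩, ?_⟩
          rintro y ⟨hy1, hy2⟩
          obtain ⟨j, rfl⟩ := A.cyc_far.1 hy1
          congr 1
          refine (A.eq_iff (by omega) le_rfl (by omega) le_rfl).2 ⟨rfl, ?_⟩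
          rw [sub_neg_eq_add]
          exact (A.en_far B j).1 hy2
      cut_arc := fun s hs1 hs2 hn => absurd (htr s hs1 hs2) hn
      arc := fun s hs1 hs2 _ hl hE => by
        rcases A.rims hs1 hs2 with ⟨i, rfl⟩ | ⟨i, rfl⟩
        · exfalso
          have h2 : (lin (cc r i 0) = Ln.z ∧ lout (cc r i 0) = Ln.n) ∨
            (lin (cc r i 0) = Ln.s ∧ lout (cc r i 0) = Ln.z) := hl
          rw [(B.ln i).1, (B.ln i).2.1] at h2
          exact B.arc0 h2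
        · have h2 : (lin (cc r i (h + 1)).r2 = Ln.z ∧ lout (cc r i (h + 1)).r2 = Ln.n) ∨
            (lin (cc r i (h + 1)).r2 = Ln.s ∧ lout (cc r i (h + 1)).r2 = Ln.z) := hl
          rw [(B.ln i).2.2.1, (B.ln i).2.2.2] at h2
          have h3 := B.arc1 h2 i ((A.en_far B i).1 hE)
          show N.ke (pN.symm (cc r i (h + 1)).r2.stE).rL
          have h4 : (cc r i (h + 1)).r2.stE = (cc r (i - 1) (h + 1)).r2 := by
            have := A.far_pE i 1
            rw [zpow_one] at this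
            exact this
          rw [h4, A.far_below, FSt.r2_rL, A.ke_rR N, B.knh]
          exact h3
      st_lab := hs
      en_lab := he
      tur := fun s hs1 hs2 ht => by
        rcases A.rims hs1 hs2 with ⟨i, rfl⟩ | ⟨i, rfl⟩
        · rcases B.tur0 i ((tur_near i).1 ht) with h2 | ⟨z, h2, h3⟩
          · exact Or.inl h2
          · right
            refine ⟨htr _ hs1 hs2, z, ?_, ?_⟩
            · intro y hy
              rw [A.pE_cc i (by omega)]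
              exact ⟨(tur_near _).2 (h2 y hy).1, (h2 y hy).2⟩
            · rw [A.pE_cc i (by omega)]
              rcases h3 with ⟨h3, h4⟩ | ⟨h3, h4⟩
              · left
                refine ⟨(A.st_near B _).2 h3, ?_⟩
                show lin _ = _
                rw [(B.ln i).1]; exact h4
              · right
                refine ⟨(A.en_near B _).2 h3, ?_⟩
                show lout _ = _
                rw [(B.ln i).2.1]; exact h4
        · rcases B.tur1 i ((tur_far i).1 ht) with h2 | ⟨z, h2, h3⟩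
          · exact Or.inl h2
          · right
            refine ⟨htr _ hs1 hs2, z, ?_, ?_⟩
            · intro y hy
              rw [A.far_pE]
              exact ⟨(tur_far _).2 (h2 y hy).1, (h2 y hy).2⟩
            · rw [A.far_pE]
              rcases h3 with ⟨h3, h4⟩ | ⟨h3, h4⟩
              · left
                refine ⟨(A.st_far B _).2 h3, ?_⟩
                show lin _ = _
                rw [(B.ln i).2.2.1]; exact h4
              · right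
                refine ⟨(A.en_far B _).2 h3, ?_⟩
                show lout _ = _
                rw [(B.ln i).2.2.2]; exact h4
      Le_J := fun f hf => hf.elim
      Le_no := fun s hf => hf.elim
      Le_rim := fun s _ hf => hf
      Le_cut := fun f hf => hf.elim
      Pl_J := fun S n g hf => hf.elim
      Pl_uniq := fun S n g S' n' g' hf => hf.elim
      Hg_nc := fun E s hf => hf.elim
      lean := fun f hf => hf.elim
      cov := fun s hJ _ hv j => by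
        show CovAt R tr J D s j
        have hv' : V s := hv
        obtain ⟨i, k, h1, h2, e | e | e | e⟩ := A.cases hJ
        · rw [e] at hv' ⊢
          exact covD i k h1 h2 hv' j
        · rw [e] at hv' ⊢
          rw [hV2 _ (A.Jc i h1 h2)] at hv'
          exact CovAt.r2 hVr (covD i k h1 h2 hv' _)
        · rw [e] at hv' ⊢
          rw [hVr _ (A.Jc i h1 h2)] at hv'
          exact covR i k h1 h2 hv' j
        · rw [e] at hv' ⊢
          rw [hVL _ (A.Jc i h1 h2)] at hv'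
          have h3 := CovAt.r2 hVr (covR i k h1 h2 hv' j.flip)
          rw [FSt.rR_r2] at h3
          exact h3
      conn := fun cv h1 h2 h3 => B.gr.conn (A.inJ B) cv h1 h2 h3 }

end

end Annu

end Pool.Agent.MP42K
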