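import Pool.Agent.MP42.K.Ann3

/-!
# Junctions without vertices, part 4: the four cases of labels (owner helper89)
-/

set_option autoImplicit false
set_option linter.unusedSectionVars false

namespace Pool.Agent.MP42K

open Pool.Agent.Helper55.UNF Pool.Agent.Helper55.UNF.GridSolid Pool.Agent.MP42G
open Pool.Agent.MP42H Pool.Agent.MP42X Pool.Agent.MP42R
open Core1 (jf)
open Nb (SC SC_rot_right SC_rot_left SC_rev rev_rot rot)

variable {P : GridSolid}

namespace Annu

variable {R : Core1 P} {J : P.Facet → Prop} {r : P.FSt} {h : ℕ} (A : Annu R J r h)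

include A

/-- lines from coordinates -/
theorem exists_V (W : ℤ → ℕ → Prop) (hW : ∀ i j k, Zr r (i - j) → (W i k ↔ W j k)) :
    ∃ V : P.FSt → Prop, (∀ s : P.FSt, J s.facet → (V s.rR ↔ ¬ V s)) ∧
      ∀ (i : ℤ) (k : ℕ), 1 ≤ k → k ≤ h → (V (cc r i k) ↔ W i k) := by
  classical
  refine ⟨fun s => ∃ (i : ℤ) (k : ℕ), 1 ≤ k ∧ k ≤ h ∧
    (((s = cc r i k ∨ s = (cc r i k).r2) ∧ W i k) ∨
      ((s = (cc r i k).rR ∨ s = (cc r i k).rL) ∧ ¬ W i k)), ?_, ?_⟩
  · have key : ∀ (i j : ℤ) (k l : ℕ), 1 ≤ k → k ≤ h → 1 ≤ l → l ≤ h →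
        (cc r i k).facet = (cc r j l).facet → cc r i k = cc r j l ∧ (W i k ↔ W j l) := by
      intro i j k l h1 h2 h3 h4 e
      have e1 := A.inj i j k l h1 h2 h3 h4 e
      obtain ⟨rfl, e3⟩ := (A.eq_iff h1 (by omega) h3 (by omega)).1 e1
      exact ⟨e1, hW i j k e3⟩
    intro s hs
    obtain ⟨i, k, h1, h2, hc⟩ := A.cases hs
    -- the two sides
    have main : ∀ t : P.FSt, t.facet = (cc r i k).facet →
        ((∃ (i : ℤ) (k : ℕ), 1 ≤ k ∧ k ≤ h ∧
          (((t = cc r i k ∨ t = (cc r i k).r2) ∧ W i k) ∨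
          ((t = (cc r i k).rR ∨ t = (cc r i k).rL) ∧ ¬ W i k))) ↔
          (((t = cc r i k ∨ t = (cc r i k).r2) ∧ W i k) ∨
          ((t = (cc r i k).rR ∨ t = (cc r i k).rL) ∧ ¬ W i k))) := by
      intro t ht
      constructor
      · rintro ⟨j, l, h3, h4, h5⟩
        have hf : (cc r j l).facet = (cc r i k).facet := by
          rw [← ht]
          rcases h5 with ⟨h5 | h5, -⟩ | ⟨h5 | h5, -⟩ <;> rw [h5] <;> rfl
        obtain ⟨e1, e2⟩ := key j i l k h3 h4 h1 h2 hf
        rw [e1, e2] at h5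
        exact h5
      · intro h5
        exact ⟨i, k, h1, h2, h5⟩
    have hf : s.facet = (cc r i k).facet := by
      rcases hc with e | e | e | e <;> rw [e] <;> rfl
    show (∃ (i : ℤ) (k : ℕ), _) ↔ ¬ (∃ (i : ℤ) (k : ℕ), _)
    rw [main s hf, main s.rR hf]
    set x := cc r i k with hx
    have n1 : x.r2 ≠ x := r2_ne x
    have n2 : x.rL ≠ x := rL_ne x
    have n3 : x.rR ≠ x := rR_ne x
    have n4 : x.rL ≠ x.rR := rL_ne_rR x
    have n5 : x.rL ≠ x.r2 := rL_ne_r2 x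
    have n6 : x.rR ≠ x.r2 := rR_ne_r2 x
    rcases hc with e | e | e | e
    · rw [e]
      have := n1.symm
      have := n2.symm
      have := n3.symm
      tauto
    · rw [e, FSt.r2_rR]
      have := n5.symm
      have := n6.symm
      have := n4.symm
      tauto
    · rw [e, FSt.rR_rR]
      have := n5.symm
      have := n6.symm
      tauto
    · rw [e, FSt.rL_rR]
      have := n1.symm
      have := n2.symm
      have := n3.symm
      tauto
  · intro i k h1 h2
    constructor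
    · rintro ⟨j, l, h3, h4, h5⟩
      have hf : (cc r i k).facet = (cc r j l).facet := by
        rcases h5 with ⟨h5 | h5, -⟩ | ⟨h5 | h5, -⟩ <;> rw [h5] <;> rfl
      have e1 := A.inj i j k l h1 h2 h3 h4 hf
      obtain ⟨rfl, e3⟩ := (A.eq_iff h1 (by omega) h3 (by omega)).1 e1
      rw [← e1] at h5
      rcases h5 with ⟨-, h5⟩ | ⟨h5 | h5, -⟩
      · exact (hW i j k e3).2 h5
      · exact absurd h5.symm (rR_ne _)
      · exact absurd h5.symm (rL_ne _)
    · intro h3
      exact ⟨i, k, h1, h2, Or.inl ⟨Or.inl rfl, h3⟩⟩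

/-- The subcomplex: the thread and edges in the columns `C` of the far rim, with corners `C'`. -/
structure Cx (A : Annu R J r h) (N : Nb P) (C C' : ℤ → Prop) : Prop where
  kv : ∀ s, N.kv s ↔ (∃ k ≤ h, SC (cc r (-1) (k + 1)) s) ∨ ∃ c, C' c ∧ SC (cc r c (h + 1)) s
  ke : ∀ s, N.ke s ↔ (∃ k, 1 ≤ k ∧ k ≤ h ∧ (s = cc r (-1) k ∨ s = (cc r 0 k).r2)) ∨
    ∃ c, C c ∧ (s = (cc r c h).rR ∨ s = (cc r c (h + 1)).rL)
  kf : ∀ f, ¬ N.kf f

section

variable {N : Nb P} {C C' : ℤ → Prop}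

lemma Cx.kvs (B : A.Cx N C C') (s : P.FSt) (hs : N.kv s) :
    ∃ (i : ℤ) (k : ℕ), k ≤ h ∧ SC (cc r i (k + 1)) s := by
  rcases (B.kv s).1 hs with ⟨k, hk, h1⟩ | ⟨c, -, h1⟩
  · exact ⟨_, k, hk, h1⟩
  · exact ⟨c, h, le_rfl, h1⟩

lemma Cx.kes (B : A.Cx N C C') (s : P.FSt) (hs : N.ke s) (hc : R.core s.facet) :
    ¬ R.core s.stE.facet := by
  have hh := A.h1
  rcases (B.ke s).1 hs with ⟨k, h1, h2, e | e⟩ | ⟨c, -, e | e⟩
  · rw [e] at hc; exact absurd hc (A.ncc _ h1 h2)
  · rw [e] at hc; exact absurd hc (A.ncc _ h1 h2)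
  · rw [e] at hc; exact absurd hc (A.ncc _ hh le_rfl)
  · have h3 : (cc r c (h + 1)).rL.stE = (cc r c h).rL := by
      rw [cc_succ, symm_rL_stE]
    rw [e, h3]
    exact A.ncc _ hh le_rfl

lemma Cx.kvk (B : A.Cx N C C') (i : ℤ) (k : ℕ) (hk : k < h) :
    N.kv (cc r i (k + 1)) ↔ Zr r (i + 1) := by
  rw [B.kv]
  constructor
  · rintro (⟨l, hl, h1⟩ | ⟨c, -, h1⟩)
    · have := A.Z_neg ((A.SC_iff hl (by omega)).1 h1).2
      rwa [show -(-1 - i) = i + 1 by ring] at this
    · have := ((A.SC_iff (k := h) (l := k) le_rfl (by omega)).1 h1).1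
      omega
  · intro h1
    left
    refine ⟨k, by omega, (A.SC_iff (by omega) (by omega)).2 ⟨rfl, ?_⟩⟩
    have := A.Z_neg h1
    rwa [show -(i + 1) = -1 - i by ring] at this

lemma Cx.kvh (B : A.Cx N C C') (i : ℤ) :
    N.kv (cc r i (h + 1)) ↔ (Zr r (i + 1) ∨ ∃ c, C' c ∧ Zr r (i - c)) := by
  rw [B.kv]
  refine or_congr ?_ ?_
  · constructor
    · rintro ⟨l, hl, h1⟩
      have := A.Z_neg ((A.SC_iff hl le_rfl).1 h1).2
      rwa [show -(-1 - i) = i + 1 by ring] at this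
    · intro h1
      refine ⟨h, le_rfl, (A.SC_iff le_rfl le_rfl).2 ⟨rfl, ?_⟩⟩
      have := A.Z_neg h1
      rwa [show -(i + 1) = -1 - i by ring] at this
  · refine exists_congr fun c => and_congr_right fun _ => ?_
    rw [A.SC_iff le_rfl le_rfl]
    constructor
    · rintro ⟨-, h1⟩
      have := A.Z_neg h1
      rwa [neg_sub] at this
    · intro h1
      have := A.Z_neg h1
      rw [neg_sub] at this
      exact ⟨rfl, this⟩

lemma Cx.kek (B : A.Cx N C C') (i : ℤ) (k : ℕ) (h1 : 1 ≤ k) (h2 : k ≤ h) :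
    N.ke (cc r i k) ↔ Zr r (i + 1) := by
  have hh := A.h1
  rw [B.ke]
  constructor
  · rintro (⟨l, h3, h4, e | e⟩ | ⟨c, -, e | e⟩)
    · have := ((A.eq_iff h1 (by omega) h3 (by omega)).1 e).2
      rwa [sub_neg_eq_add] at this
    · exfalso
      have h5 := A.inj i 0 k l h1 h2 h3 h4 (by rw [e]; rfl)
      rw [← h5] at e
      exact r2_ne _ e.symm
    · exfalso
      have h5 := A.inj i c k h h1 h2 hh le_rfl (by rw [e]; rfl)
      rw [← h5] at e
      exact rR_ne _ e.symm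
    · exfalso
      have h5 := A.ncc i h1 h2
      rw [e] at h5
      exact h5 (A.co1 c)
  · intro h3
    left
    refine ⟨k, h1, h2, Or.inl ((A.eq_iff h1 (by omega) h1 (by omega)).2 ⟨rfl, ?_⟩)⟩
    rwa [sub_neg_eq_add]

lemma Cx.kn (B : A.Cx N C C') (i : ℤ) (k : ℕ) (hk : k < h) : ¬ N.ke (cc r i (k + 1)).rL := by
  have hh := A.h1
  rw [B.ke]
  rintro (⟨l, h3, h4, e | e⟩ | ⟨c, -, e | e⟩)
  · have h5 := A.inj i (-1) (k + 1) l (by omega) (by omega) h3 h4 (by
      have : (cc r i (k + 1)).rL.facet = (cc r (-1) l).facet := by rw [e]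
      exact this)
    rw [← h5] at e
    exact rL_ne _ e
  · have h5 := A.inj i 0 (k + 1) l (by omega) (by omega) h3 h4 (by
      have : (cc r i (k + 1)).rL.facet = (cc r 0 l).r2.facet := by rw [e]
      exact this)
    rw [← h5] at e
    exact rL_ne_r2 _ e
  · have h5 := A.inj i c (k + 1) h (by omega) (by omega) hh le_rfl (by
      have : (cc r i (k + 1)).rL.facet = (cc r c h).rR.facet := by rw [e]
      exact this)
    rw [← h5] at e
    exact rL_ne_rR _ e
  · have h5 : (cc r i (k + 1)).rL.facet = (cc r c (h + 1)).rL.facet := by rw [e]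
    have h6 := A.ncc i (k := k + 1) (by omega) (by omega)
    apply h6
    have h7 : (cc r i (k + 1)).facet = (cc r c (h + 1)).facet := h5
    rw [h7]
    exact A.co1 c

lemma Cx.knh (B : A.Cx N C C') (i : ℤ) :
    N.ke (cc r i (h + 1)).rL ↔ ∃ c, C c ∧ Zr r (i - c) := by
  have hh := A.h1
  rw [B.ke]
  constructor
  · rintro (⟨l, h3, h4, e | e⟩ | ⟨c, hc, e | e⟩)
    · exfalso
      have h5 : (cc r i (h + 1)).facet = (cc r (-1) l).facet := by
        have : (cc r i (h + 1)).rL.facet = (cc r (-1) l).facet := by rw [e]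
        exact this
      exact A.ncc (-1) h3 h4 (by rw [← h5]; exact A.co1 i)
    · exfalso
      have h5 : (cc r i (h + 1)).facet = (cc r 0 l).facet := by
        have : (cc r i (h + 1)).rL.facet = (cc r 0 l).r2.facet := by rw [e]
        exact this
      exact A.ncc 0 h3 h4 (by rw [← h5]; exact A.co1 i)
    · exfalso
      have h5 : (cc r i (h + 1)).facet = (cc r c h).facet := by
        have : (cc r i (h + 1)).rL.facet = (cc r c h).rR.facet := by rw [e]
        exact this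
      exact A.ncc c hh le_rfl (by rw [← h5]; exact A.co1 i)
    · refine ⟨c, hc, ?_⟩
      have h5 : cc r i (h + 1) = cc r c (h + 1) := by
        have := congrArg FSt.rR e
        rwa [FSt.rL_rR, FSt.rL_rR] at this
      exact ((A.eq_iff (by omega) le_rfl (by omega) le_rfl).1 h5).2
  · rintro ⟨c, hc, h1⟩
    right
    refine ⟨c, hc, Or.inr ?_⟩
    rw [(A.eq_iff (by omega) le_rfl (by omega) le_rfl).2 ⟨rfl, h1⟩]

end

end Annu

end Pool.Agent.MP42K
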