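import Pool.Agent.MP42.K.Ann4

/-!
# Junctions without vertices, part 5: the cases (owner helper89)
-/

set_option autoImplicit false
set_option linter.unusedSectionVars false

namespace Pool.Agent.MP42K

open Pool.Agent.Helper55.UNF Pool.Agent.Helper55.UNF.GridSolid Pool.Agent.MP42G
open Pool.Agent.MP42H Pool.Agent.MP42X Pool.Agent.MP42R
open Core1 (jf)
open Nb (SC SC_rot_right SC_rot_left SC_rev rev_rot rot)

variable {P : GridSolid}

namespace Annu

variable {R : Core1 P} {J : P.Facet → Prop} {r : P.FSt} {h : ℕ} (A : Annu R J r h)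

include A

section

variable {N : Nb P} {C C' : ℤ → Prop}

/-- the lines across a turned facet next to the thread -/
lemma Cx.hitWM (B : A.Cx N C C') {i : ℤ} {k : ℕ} (h1 : 1 ≤ k) (h2 : k ≤ h)
    (hZ : Zr r (i + 1) ∨ Zr r i) {j : VL} (hj : j ≠ VL.E) :
    khit N.kv N.ke (cc r i k).rR j := by
  obtain ⟨k, rfl⟩ : ∃ k', k = k' + 1 := ⟨k - 1, by omega⟩
  cases j with
  | W =>
    show (N.kv (cc r i (k + 1)).rR.rL ∨ N.kv (cc r i (k + 1)).rR.r2) ∧
      ¬ N.ke (cc r i (k + 1)).rR.r2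
    rw [FSt.rR_rL, FSt.rR_r2, A.kv_rL N i (by omega), B.kvk A i k (by omega),
      B.kvk A _ k (by omega), sub_add_cancel]
    exact ⟨hZ, B.kn A i k (by omega)⟩
  | M =>
    show N.ke (cc r i (k + 1)).rR.rL ∨ N.ke (cc r i (k + 1)).rR.rR
    rw [FSt.rR_rL, FSt.rR_rR, A.ke_r2 N i (by omega), B.kek A i _ h1 h2, B.kek A _ _ h1 h2,
      sub_add_cancel]
    exact hZ
  | E => exact absurd rfl hj

lemma Cx.hitE (B : A.Cx N C C') {i : ℤ} {k : ℕ} (h1 : 1 ≤ k) (h2 : k < h)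
    (hZ : Zr r (i + 1) ∨ Zr r i) : khit N.kv N.ke (cc r i k).rR VL.E := by
  show (N.kv (cc r i k).rR ∨ N.kv (cc r i k).rR.rR) ∧ ¬ N.ke (cc r i k).rR
  rw [FSt.rR_rR, A.kv_rR N, A.kv_r2 N i (by omega), A.ke_rR N, B.kvk A i k (by omega),
    B.kvk A _ k (by omega), sub_add_cancel]
  exact ⟨hZ, B.kn A i k (by omega)⟩

lemma Cx.hitEh (_B : A.Cx N C C') {i : ℤ}
    (hK : N.kv (cc r i (h + 1)) ∨ N.kv (cc r (i - 1) (h + 1)))
    (hF : ¬ N.ke (cc r i (h + 1)).rL) : khit N.kv N.ke (cc r i h).rR VL.E := by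
  show (N.kv (cc r i h).rR ∨ N.kv (cc r i h).rR.rR) ∧ ¬ N.ke (cc r i h).rR
  rw [FSt.rR_rR, A.kv_rR N, A.kv_r2 N i le_rfl, A.ke_rR N]
  exact ⟨hK, hF⟩

variable {tr lin' lout' : P.FSt → Prop} {lin lout : P.FSt → Ln}

lemma Cx.litA (B : A.Cx N C C') {i : ℤ} {j : VL} (e1 : lin (cc r i 0) = Ln.n)
    (e2 : lout (cc r i 0) = Ln.z) (hj : if j = VL.W then ¬ Zr r i else ¬ Zr r (i + 1)) :
    LitK N.kv N.ke tr lin lout (cc r i 0) j := by
  have hh := A.h1
  right; right; left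
  rw [A.near_below, A.kv_rL N i (by omega), B.kvk A _ 0 (by omega), B.kvk A _ 0 (by omega),
    sub_add_cancel]
  exact ⟨e1, e2, B.kn A i 0 (by omega), hj⟩

lemma Cx.litB (B : A.Cx N C C') {i : ℤ} {j : VL} (e1 : lin (cc r i 0) = Ln.z)
    (e2 : lout (cc r i 0) = Ln.s) (hj : if j = VL.E then ¬ Zr r (i + 1) else ¬ Zr r i) :
    LitK N.kv N.ke tr lin lout (cc r i 0) j := by
  have hh := A.h1
  right; right; right; left
  rw [A.near_below, A.kv_rL N i (by omega), B.kvk A _ 0 (by omega), B.kvk A _ 0 (by omega),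
    sub_add_cancel]
  exact ⟨e1, e2, B.kn A i 0 (by omega), hj⟩

lemma far_stE (i : ℤ) : (cc r i (h + 1)).r2.stE = (cc r (i - 1) (h + 1)).r2 := by
  have := A.far_pE i 1
  rw [zpow_one] at this
  exact this

lemma far_sE (i : ℤ) : pE.symm (cc r i (h + 1)).r2 = (cc r (i + 1) (h + 1)).r2 := by
  have := A.far_pE i (-1)
  rw [zpow_neg_one, sub_neg_eq_add] at this
  exact this

lemma far_en (i : ℤ) : En N.kv N.ke (cc r i (h + 1)).r2 ↔
    N.kv (cc r (i - 1) (h + 1)) ∧ ¬ N.ke (cc r i (h + 1)).rL := by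
  unfold En
  rw [A.far_below, FSt.r2_rL, A.kv_r2 N i le_rfl, A.ke_rR N i h]

lemma far_st (i : ℤ) : St N.kv N.ke (cc r i (h + 1)).r2 ↔
    N.kv (cc r i (h + 1)) ∧ ¬ N.ke (cc r i (h + 1)).rL := by
  unfold St
  rw [A.far_below, FSt.r2_rL, A.kv_rR N i, A.ke_rR N i h]

lemma litC {i : ℤ} {j : VL} (e1 : lin (cc r i (h + 1)).r2 = Ln.z)
    (e2 : lout (cc r i (h + 1)).r2 = Ln.n)
    (hj : (N.ke (cc r i (h + 1)).rL ∧ (j = VL.W ∨ N.ke (cc r (i - 1) (h + 1)).rL)) ∨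
      ((N.kv (cc r (i - 1) (h + 1)) ∧ ¬ N.ke (cc r i (h + 1)).rL) ∧ j = VL.E)) :
    LitK N.kv N.ke tr lin lout (cc r i (h + 1)).r2 j := by
  right; right; right; right; left
  rw [A.far_below, A.far_stE, A.far_below, FSt.r2_rL, FSt.r2_rL, A.ke_rR N, A.ke_rR N, A.far_en]
  exact ⟨e1, e2, hj⟩

lemma litD {i : ℤ} {j : VL} (e1 : lin (cc r i (h + 1)).r2 = Ln.s)
    (e2 : lout (cc r i (h + 1)).r2 = Ln.z)
    (hj : (N.ke (cc r i (h + 1)).rL ∧ (j = VL.E ∨ N.ke (cc r (i + 1) (h + 1)).rL)) ∨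
      ((N.kv (cc r i (h + 1)) ∧ ¬ N.ke (cc r i (h + 1)).rL) ∧ j = VL.W)) :
    LitK N.kv N.ke tr lin lout (cc r i (h + 1)).r2 j := by
  right; right; right; right; right
  rw [A.far_below, A.far_sE, A.far_below, FSt.r2_rL, FSt.r2_rL, A.ke_rR N, A.ke_rR N, A.far_st]
  exact ⟨e1, e2, hj⟩

end

/-- the thread as `Cx` -/
theorem thread' {V : P.FSt → Prop} (hV : ∀ s : P.FSt, J s.facet → (V s.rR ↔ ¬ V s)) {α β : ℤ}
    (hα1 : -1 ≤ α) (hα2 : α ≤ 1) (hβ1 : -1 ≤ β) (hβ2 : β ≤ 1)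
    (hVE : ∀ k, 1 ≤ k → k ≤ h → (V (cc r 0 k) ↔ α ≠ 0))
    (hVW : ∀ k, 1 ≤ k → k ≤ h → (V (cc r (-1) k) ↔ β ≠ 0)) :
    ∃ (N : Nb P) (lin lout : P.FSt → Ln), Gr R J N V lin lout [] ∧
      A.Cx N (fun _ => False) (fun _ => False) ∧
      (∀ i, lin (cc r i 0) = Lof α ∧ lout (cc r i 0) = Lof β ∧
        lin (cc r i (h + 1)).r2 = Lof β ∧ lout (cc r i (h + 1)).r2 = Lof α) := by
  obtain ⟨N, lin, lout, g, h1, h2, h3, h4⟩ := A.thread hV hα1 hα2 hβ1 hβ2 hVE hVW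
  refine ⟨N, lin, lout, g, ⟨fun s => ?_, fun s => ?_, h3⟩, h4⟩
  · rw [h1]; simp
  · rw [h2]; simp

/-- the case `(+,+)`, `(-,-)`, `(0,0)` -/
theorem case_eq (tr : P.FSt → Prop) {α : ℤ} (hα1 : -1 ≤ α) (hα2 : α ≤ 1) :
    ∃ (N : Nb P) (V : P.FSt → Prop) (lin lout : P.FSt → Ln) (AP FP : ℤ → Prop) (p q : ℤ),
      A.Asm tr N V lin lout AP FP p q ∧ lin r = Lof α ∧ lout r = Lof α := by
  have hh := A.h1
  obtain ⟨V, hV, hW⟩ := A.exists_V (fun _ _ => α ≠ 0) (fun _ _ _ _ => Iff.rfl)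
  obtain ⟨N, lin, lout, g, B, hl⟩ := A.thread' hV hα1 hα2 hα1 hα2 (fun k h1 h2 => hW 0 k h1 h2)
    (fun k h1 h2 => hW (-1) k h1 h2)
  have l1 : lin r = Lof α := (hl 0).1
  have l2 : lout r = Lof α := (hl 0).2.1
  refine ⟨N, V, lin, lout, fun i => Zr r (i + 1), fun _ => False, 1, 0, ?_, l1, l2⟩
  have kvh : ∀ i, N.kv (cc r i (h + 1)) ↔ Zr r (i + 1) := fun i => by
    rw [B.kvh A]; simp
  have knh : ∀ i, ¬ N.ke (cc r i (h + 1)).rL := fun i => by
    rw [B.knh A]; simp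
  have hL : Lof α = Ln.z ↔ α = 0 := Lof_z hα1 hα2
  exact
    { kvs := B.kvs A
      kes := B.kes A
      kf := B.kf
      kv := fun i k hk => B.kvk A i k hk
      kvh := kvh
      ke := fun i k h1 h2 => B.kek A i k h1 h2
      kn := fun i k hk => B.kn A i k hk
      knh := fun i => iff_of_false (knh i) id
      st := fun i => by simp
      en := fun i => by simp
      gr := g
      ln := fun i => by
        rw [l1, l2]
        exact hl i
      adm := by
        rw [l1, l2]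
        constructor
        · rintro ⟨a, b⟩; rw [a] at b; cases b
        · rintro ⟨a, b⟩; rw [a] at b; cases b
      arc0 := by
        rw [l1, l2]
        rintro (⟨a, b⟩ | ⟨a, b⟩) <;> · rw [a] at b; cases b
      arc1 := by
        rw [l1, l2]
        rintro (⟨a, b⟩ | ⟨a, b⟩) <;> · rw [a] at b; cases b
      covV := fun i k h1 h2 hv j => by
        left
        have hα : α ≠ 0 := (hW i k h1 h2).1 hv
        refine ⟨fun l h3 h4 => (hW i l h3 (by omega)).2 hα, Or.inr (Or.inl ?_)⟩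
        rw [(hl i).1, (hl i).2.1]
        exact ⟨fun hc => hα (hL.1 hc), fun hc => hα (hL.1 hc)⟩
      covT := fun i k h1 h2 hv j => by
        refine ⟨-1 - i, fun y _ => fun hc => hv ((hW i k h1 h2).2 ((hW _ k h1 h2).1 hc)), ?_⟩
        have e : i + (-1 - i) = -1 := by ring
        rw [e]
        have hZ : Zr r (-1 + 1) ∨ Zr r (-1) := Or.inl A.Z_zero
        by_cases hj : j = VL.E
        · subst hj
          rcases Nat.lt_or_ge k h with h3 | h3
          · exact B.hitE A h1 h3 hZ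
          · have : k = h := by omega
            subst this
            exact B.hitEh A (Or.inl ((kvh (-1)).2 A.Z_zero)) (knh _)
        · exact B.hitWM A h1 h2 hZ hj
      tur0 := fun i hv => by
        right
        have hα : α = 0 := by
          by_contra hc
          exact hv ((hW i 1 le_rfl hh).2 hc)
        subst hα
        refine ⟨-i, fun y _ => ⟨fun hc => (hW _ 1 le_rfl hh).1 hc rfl, ?_⟩, ?_⟩
        · unfold Land
          rw [(hl _).1, (hl _).2.1]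
          rintro (⟨-, a⟩ | ⟨-, a⟩) <;> cases a
        · left
          rw [add_neg_cancel]
          exact ⟨A.Z_zero, l1⟩
      tur1 := fun i hv => by
        right
        have hα : α = 0 := by
          by_contra hc
          exact hv ((hW i h hh le_rfl).2 hc)
        subst hα
        refine ⟨i + 1, fun y _ => ⟨fun hc => (hW _ h hh le_rfl).1 hc rfl, ?_⟩, ?_⟩
        · unfold Land
          rw [(hl _).2.2.1, (hl _).2.2.2]
          rintro (⟨-, a⟩ | ⟨-, a⟩) <;> cases a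
        · left
          rw [show i - (i + 1) + 1 = 0 by ring]
          exact ⟨A.Z_zero, l2⟩ }

end Annu

end Pool.Agent.MP42K
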