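import Pool.Agent.MP42.K.Ann5

/-!
# Junctions without vertices, part 6: the cases `(+,0)` and `(0,-)` (owner helper89)
-/

set_option autoImplicit false
set_option linter.unusedSectionVars false

namespace Pool.Agent.MP42K

open Pool.Agent.Helper55.UNF Pool.Agent.Helper55.UNF.GridSolid Pool.Agent.MP42G
open Pool.Agent.MP42H Pool.Agent.MP42X Pool.Agent.MP42R
open Core1 (jf)
open Nb (SC SC_rot_right SC_rot_left SC_rev rev_rot rot)

variable {P : GridSolid}

namespace Annu

variable {R : Core1 P} {J : P.Facet → Prop} {r : P.FSt} {h : ℕ} (A : Annu R J r h)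

include A

lemma zz {a b : ℤ} (ha : Zr r a) (hb : Zr r b) (h1 : a ≠ b) (h2 : a - b ≤ 3) (h3 : b - a ≤ 3) :
    False := by
  rcases lt_or_gt_of_ne h1 with h4 | h4
  · exact A.Z_ne ha hb h4 (by omega)
  · exact A.Z_ne hb ha h4 (by omega)

lemma JE (s : P.FSt) (hs : J s.facet) (hn : ¬ R.core s.stE.facet) : J s.stE.facet := by
  obtain ⟨i, k, h1, h2, e | e | e | e⟩ := A.cases hs
  · rw [e, A.E i k (by omega)]
    exact A.Jc _ h1 h2
  · have h4 : (cc r i k).r2.stE = (cc r (i - 1) k).r2 := by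
      have h5 := A.E (i - 1) k (by omega)
      rw [sub_add_cancel] at h5
      rw [← h5, FSt.stE_inv]
    rw [e, h4]
    exact A.Jc _ h1 h2
  · have h4 : (cc r i k).rR.stE = (cc r i (k + 1)).rR := by
      have h5 : (cc r i (k + 1)).rL.stE.r2 = (cc r i k).rR := by
        rw [cc_succ, symm_rL_stE, FSt.rL_r2]
      rw [← h5, FSt.stE_inv, FSt.rL_r2]
    rw [e, h4] at hn ⊢
    have h3 : k ≠ h := by
      rintro rfl
      exact hn (A.co1 i)
    exact A.Jc _ (by omega) (by omega)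
  · obtain ⟨k, rfl⟩ : ∃ k', k = k' + 1 := ⟨k - 1, by omega⟩
    have h4 : (cc r i (k + 1)).rL.stE = (cc r i k).rL := by
      rw [cc_succ, symm_rL_stE]
    rw [e, h4] at hn ⊢
    have h3 : k ≠ 0 := by
      rintro rfl
      exact hn (A.co0 i)
    exact A.Jc _ (by omega) (by omega)

/-- the arc of two edges to the west of the thread -/
theorem arcW {N : Nb P} {V : P.FSt → Prop} {lin lout : P.FSt → Ln}
    (g : Gr R J N V lin lout []) (B : A.Cx N (fun _ => False) (fun _ => False))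
    (hl : lin (cc r (-1) (h + 1)).r2 ≠ Ln.s)
    (hV : ¬ V (cc r (-1) h) ∧ ¬ V (cc r (-2) h) ∧ ¬ V (cc r (-3) h)) :
    ∃ N' : Nb P, Gr R J N' V lin lout [] ∧
      A.Cx N' (fun c => c = -1 ∨ c = -2) (fun c => c = -2 ∨ c = -3) := by
  have hh := A.h1
  set u : P.FSt := (cc r (-1) (h + 1)).r2 with hu
  set T : P.FSt → Prop := fun s => ∃ i < 2, s = (pN.symm ((pE ^ i) u)).rL with hT
  have eT : ∀ i : ℕ, (pN.symm ((pE ^ i) u)).rL = (cc r (-1 - i) h).rR := by
    intro i
    have h1 := A.far_pE (-1) i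
    rw [zpow_natCast] at h1
    rw [hu, h1, A.far_below, FSt.r2_rL]
  have eb : ∀ i : ℕ, pN.symm ((pE ^ i) u) = (cc r (-1 - i) h).r2 := by
    intro i
    have h1 := A.far_pE (-1) i
    rw [zpow_natCast] at h1
    rw [hu, h1, A.far_below]
  have kv0 : ∀ i : ℤ, N.kv (cc r i (h + 1)) ↔ Zr r (i + 1) := fun i => by
    rw [B.kvh A]; simp
  have ke0 : ∀ i : ℤ, ¬ N.ke (cc r i (h + 1)).rL := fun i => by
    rw [B.knh A]; simp
  have hA : Adds N (N.addE T) T := by
    refine adds_addE ?_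
    rintro s ⟨i, hi1, rfl⟩
    have : i = 0 ∨ i = 1 := by omega
    rcases this with rfl | rfl
    · left
      rw [eT, A.kv_rR, kv0]
      exact A.Z_zero
    · right
      refine ⟨_, ⟨0, by norm_num, rfl⟩, ?_⟩
      rw [eT, eT, A.sc_rR, FSt.rR_rR]
      have h5 := (A.sc_r2 (cc r (-1 - (0 : ℕ)) h).r2 (-1 - (0 : ℕ)) (k := h) le_rfl).1
        (Equiv.Perm.SameCycle.refl _ _)
      rw [show (-1 - ((1 : ℕ) : ℤ)) = -1 - ((0 : ℕ) : ℤ) - 1 by norm_num]
      exact h5
  have g' := g.extEs (N' := N.addE T) A.nc A.JE (A.far (-1))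
    (by
      rw [A.far_st, kv0]
      exact ⟨A.Z_zero, ke0 _⟩)
    (by rw [A.far_below]; exact A.Jc _ hh le_rfl) 2 (fun _ => hl)
    (fun i hi => by
      rw [← hu, eb, A.kv_r2 _ _ le_rfl, kv0]
      intro hc
      exact A.zz hc A.Z_zero (by omega) (by omega) (by omega))
    (fun i j hij hj => by
      intro hc
      rw [← hu] at hc
      have h1 := A.far_pE (-1) i
      have h2 := A.far_pE (-1) j
      rw [zpow_natCast] at h1 h2
      rw [hu, h1, h2] at hc
      have h3 := congrArg FSt.r2 hc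
      rw [FSt.r2_r2, FSt.r2_r2] at h3
      have h4 := ((A.eq_iff (by omega) le_rfl (by omega) le_rfl).1 h3).2
      exact A.zz h4 A.Z_zero (by omega) (by omega) (by omega))
    (fun i hi => by
      rw [← hu, eb, eb, V_r2 g.V_rR (A.Jc _ hh le_rfl), V_r2 g.V_rR (A.Jc _ hh le_rfl)]
      have : i = 0 ∨ i = 1 := by omega
      rcases this with rfl | rfl
      · rw [show (-1 - ((0 + 1 : ℕ) : ℤ)) = -2 by norm_num,
          show (-1 - ((0 : ℕ) : ℤ)) = -1 by norm_num]
        exact iff_of_false hV.2.1 hV.1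
      · rw [show (-1 - ((1 + 1 : ℕ) : ℤ)) = -3 by norm_num,
          show (-1 - ((1 : ℕ) : ℤ)) = -2 by norm_num]
        exact iff_of_false hV.2.2 hV.2.1) hA
  refine ⟨_, g', ?_, ?_, ?_⟩
  · intro s
    rw [hA.kv, B.kv]
    simp only [false_and, exists_false, or_false]
    refine or_congr_right ?_
    have key : ∀ i : ℕ, SC (cc r (-1 - i) h).rR.rR s ↔ SC (cc r (-1 - i - 1) (h + 1)) s := by
      intro i
      rw [FSt.rR_rR]
      have h5 := (A.sc_r2 (cc r (-1 - i) h).r2 (-1 - i) (k := h) le_rfl).1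
        (Equiv.Perm.SameCycle.refl _ _)
      exact ⟨fun h6 => (h5.symm).trans h6, fun h6 => h5.trans h6⟩
    constructor
    · rintro ⟨t, ⟨i, hi, rfl⟩, hc⟩
      rw [eT, key] at hc
      refine ⟨_, ?_, hc⟩
      have : i = 0 ∨ i = 1 := by omega
      rcases this with rfl | rfl <;> norm_num
    · rintro ⟨c, rfl | rfl, hc⟩
      · refine ⟨_, ⟨0, by norm_num, rfl⟩, ?_⟩
        rw [eT, key]
        exact hc
      · refine ⟨_, ⟨1, by norm_num, rfl⟩, ?_⟩
        rw [eT, key]
        exact hc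
  · intro s
    rw [hA.ke, B.ke]
    simp only [false_and, exists_false, or_false]
    refine or_congr_right ?_
    have key : ∀ i : ℕ, (cc r (-1 - i) h).rR.stE.r2 = (cc r (-1 - i) (h + 1)).rL := by
      intro i
      have h5 : (cc r (-1 - i) (h + 1)).rL.stE.r2 = (cc r (-1 - i) h).rR := by
        rw [cc_succ, symm_rL_stE, FSt.rL_r2]
      rw [← h5, FSt.stE_inv, FSt.r2_r2]
    constructor
    · rintro ⟨t, ⟨i, hi, rfl⟩, hc⟩
      rw [eT, key] at hc
      refine ⟨_, ?_, hc⟩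
      have : i = 0 ∨ i = 1 := by omega
      rcases this with rfl | rfl <;> norm_num
    · rintro ⟨c, rfl | rfl, hc⟩
      · refine ⟨_, ⟨0, by norm_num, rfl⟩, ?_⟩
        rw [eT, key]
        exact hc
      · refine ⟨_, ⟨1, by norm_num, rfl⟩, ?_⟩
        rw [eT, key]
        exact hc
  · intro f
    rw [hA.kf]
    exact B.kf f

/-- the arc of two edges to the east of the thread -/
theorem arcE {N : Nb P} {V : P.FSt → Prop} {lin lout : P.FSt → Ln}
    (g : Gr R J N V lin lout []) (B : A.Cx N (fun _ => False) (fun _ => False))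
    (hl : lout (cc r 0 (h + 1)).r2 ≠ Ln.n)
    (hV : ¬ V (cc r 0 h) ∧ ¬ V (cc r 1 h) ∧ ¬ V (cc r 2 h)) :
    ∃ N' : Nb P, Gr R J N' V lin lout [] ∧
      A.Cx N' (fun c => c = 0 ∨ c = 1) (fun c => c = 0 ∨ c = 1) := by
  have hh := A.h1
  set u : P.FSt := (cc r 0 (h + 1)).r2 with hu
  set T : P.FSt → Prop := fun s => ∃ i < 2, s = ((pE.symm ^ i) u).rR with hT
  have es : ∀ i : ℕ, (pE.symm ^ i) u = (cc r i (h + 1)).r2 := by
    intro i
    have h1 := A.far_pE 0 (-(i : ℤ))
    rw [zpow_neg, zpow_natCast, ← inv_pow] at h1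
    rw [hu]
    refine Eq.trans h1 ?_
    congr 2
    ring
  have eT : ∀ i : ℕ, ((pE.symm ^ i) u).rR = (cc r i (h + 1)).rL := by
    intro i
    rw [es, FSt.r2_rR]
  have eb : ∀ i : ℕ, pN.symm ((pE.symm ^ i) u) = (cc r i h).r2 := by
    intro i
    rw [es, A.far_below]
  have kv0 : ∀ i : ℤ, N.kv (cc r i (h + 1)) ↔ Zr r (i + 1) := fun i => by
    rw [B.kvh A]; simp
  have ke0 : ∀ i : ℤ, ¬ N.ke (cc r i (h + 1)).rL := fun i => by
    rw [B.knh A]; simp
  have hA : Adds N (N.addE T) T := by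
    refine adds_addE ?_
    rintro s ⟨i, hi1, rfl⟩
    have : i = 0 ∨ i = 1 := by omega
    rcases this with rfl | rfl
    · left
      rw [eT, A.kv_rL _ _ le_rfl, kv0]
      exact A.Z_zero
    · right
      refine ⟨_, ⟨0, by norm_num, rfl⟩, ?_⟩
      rw [eT, eT, FSt.rL_rR, A.sc_rL _ _ le_rfl]
      exact Equiv.Perm.SameCycle.refl _ _
  have g' := g.extWs (N' := N.addE T) A.nc A.JE (A.far 0)
    (by
      rw [A.far_en, kv0]
      exact ⟨A.Z_zero, ke0 _⟩)
    (by rw [A.far_below]; exact A.Jc _ hh le_rfl) 2 (fun _ => hl)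
    (fun i hi => by
      rw [← hu, eb, A.kv_r2 _ _ le_rfl, kv0]
      intro hc
      exact A.zz hc A.Z_zero (by push_cast; omega) (by push_cast; omega) (by push_cast; omega))
    (fun i j hij hj => by
      intro hc
      rw [← hu, es, es] at hc
      have h3 := congrArg FSt.r2 hc
      rw [FSt.r2_r2, FSt.r2_r2] at h3
      have h4 := ((A.eq_iff (by omega) le_rfl (by omega) le_rfl).1 h3).2
      exact A.zz h4 A.Z_zero (by omega) (by omega) (by omega))
    (fun i hi => by
      rw [← hu, eb, eb, V_r2 g.V_rR (A.Jc _ hh le_rfl), V_r2 g.V_rR (A.Jc _ hh le_rfl)]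
      have : i = 0 ∨ i = 1 := by omega
      rcases this with rfl | rfl
      · exact iff_of_false hV.2.1 hV.1
      · exact iff_of_false hV.2.2 hV.2.1) hA
  refine ⟨_, g', ?_, ?_, ?_⟩
  · intro s
    rw [hA.kv, B.kv]
    simp only [false_and, exists_false, or_false]
    refine or_congr_right ?_
    constructor
    · rintro ⟨t, ⟨i, hi, rfl⟩, hc⟩
      rw [eT, FSt.rL_rR] at hc
      refine ⟨_, ?_, hc⟩
      have : i = 0 ∨ i = 1 := by omega
      rcases this with rfl | rfl <;> norm_num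
    · rintro ⟨c, rfl | rfl, hc⟩
      · refine ⟨_, ⟨0, by norm_num, rfl⟩, ?_⟩
        rw [eT, FSt.rL_rR]
        exact hc
      · refine ⟨_, ⟨1, by norm_num, rfl⟩, ?_⟩
        rw [eT, FSt.rL_rR]
        exact hc
  · intro s
    rw [hA.ke, B.ke]
    simp only [false_and, exists_false, or_false]
    refine or_congr_right ?_
    have key : ∀ i : ℕ, (cc r i (h + 1)).rL.stE.r2 = (cc r i h).rR := by
      intro i
      rw [cc_succ, symm_rL_stE, FSt.rL_r2]
    constructor
    · rintro ⟨t, ⟨i, hi, rfl⟩, hc⟩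
      rw [eT, key] at hc
      refine ⟨_, ?_, hc.symm⟩
      have : i = 0 ∨ i = 1 := by omega
      rcases this with rfl | rfl <;> norm_num
    · rintro ⟨c, rfl | rfl, hc⟩
      · refine ⟨_, ⟨0, by norm_num, rfl⟩, ?_⟩
        rw [eT, key]
        exact hc.symm
      · refine ⟨_, ⟨1, by norm_num, rfl⟩, ?_⟩
        rw [eT, key]
        exact hc.symm
  · intro f
    rw [hA.kf]
    exact B.kf f

end Annu

end Pool.Agent.MP42K
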