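import Pool.Agent.MP42.K.Ann6

/-!
# Junctions without vertices, part 7: the cases `(+,0)` and `(0,-)` (owner helper89)
-/

set_option autoImplicit false
set_option linter.unusedSectionVars false

namespace Pool.Agent.MP42K

open Pool.Agent.Helper55.UNF Pool.Agent.Helper55.UNF.GridSolid Pool.Agent.MP42G
open Pool.Agent.MP42H Pool.Agent.MP42X Pool.Agent.MP42R
open Core1 (jf)
open Nb (SC SC_rot_right SC_rot_left SC_rev rev_rot rot)

variable {P : GridSolid}

namespace Annu

variable {R : Core1 P} {J : P.Facet → Prop} {r : P.FSt} {h : ℕ} (A : Annu R J r h)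

include A

lemma Z_congr {i j : ℤ} (hij : Zr r (i - j)) (a : ℤ) : Zr r (i + a) ↔ Zr r (j + a) := by
  constructor
  · intro h1
    have := A.Z_add h1 (A.Z_neg hij)
    rwa [show i + a + -(i - j) = j + a by ring] at this
  · intro h1
    have := A.Z_add h1 hij
    rwa [show j + a + (i - j) = i + a by ring] at this

/-- the case `(+,0)` -/
theorem case_p0 (tr : P.FSt → Prop) :
    ∃ (N : Nb P) (V : P.FSt → Prop) (lin lout : P.FSt → Ln) (AP FP : ℤ → Prop) (p q : ℤ),
      A.Asm tr N V lin lout AP FP p q ∧ lin r = Ln.n ∧ lout r = Ln.z := by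
  have hh := A.h1
  obtain ⟨V, hV, hW⟩ := A.exists_V
    (fun i k => ¬ Zr r (i + 1) ∧ ¬ (k = h ∧ (Zr r (i + 2) ∨ Zr r (i + 3))))
    (fun i j k hij => by
      rw [A.Z_congr hij 1, A.Z_congr hij 2, A.Z_congr hij 3])
  have zz := fun {a b : ℤ} => A.zz (a := a) (b := b)
  have z0 := A.Z_zero
  obtain ⟨N0, lin, lout, g0, B0, hl⟩ := A.thread' (α := 1) (β := 0) hV (by norm_num) (by norm_num)
    (by norm_num) (by norm_num)
    (fun k h1 h2 => by
      rw [hW 0 k h1 h2]
      refine iff_of_true ⟨fun hc => zz hc z0 (by omega) (by omega) (by omega), ?_⟩ (by norm_num)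
      rintro ⟨-, hc | hc⟩
      · exact zz hc z0 (by omega) (by omega) (by omega)
      · exact zz hc z0 (by omega) (by omega) (by omega))
    (fun k h1 h2 => by
      rw [hW (-1) k h1 h2]
      exact iff_of_false (fun hc => hc.1 z0) (by norm_num))
  have l1 : lin r = Ln.n := (hl 0).1
  have l2 : lout r = Ln.z := (hl 0).2.1
  have lf1 : ∀ i, lin (cc r i (h + 1)).r2 = Ln.z := fun i => (hl i).2.2.1
  have lf2 : ∀ i, lout (cc r i (h + 1)).r2 = Ln.n := fun i => (hl i).2.2.2
  obtain ⟨N, g, B⟩ := A.arcW g0 B0 (by rw [lf1]; decide)
    ⟨fun hc => ((hW _ h hh le_rfl).1 hc).1 z0,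
      fun hc => ((hW _ h hh le_rfl).1 hc).2 ⟨rfl, Or.inl z0⟩,
      fun hc => ((hW _ h hh le_rfl).1 hc).2 ⟨rfl, Or.inr z0⟩⟩
  have kvh : ∀ i, N.kv (cc r i (h + 1)) ↔ (Zr r (i + 1) ∨ Zr r (i + 2) ∨ Zr r (i + 3)) := by
    intro i
    rw [B.kvh A]
    constructor
    · rintro (h1 | ⟨c, rfl | rfl, h1⟩)
      · exact Or.inl h1
      · exact Or.inr (Or.inl h1)
      · exact Or.inr (Or.inr h1)
    · rintro (h1 | h1 | h1)
      · exact Or.inl h1
      · exact Or.inr ⟨_, Or.inl rfl, h1⟩
      · exact Or.inr ⟨_, Or.inr rfl, h1⟩
  have knh : ∀ i, N.ke (cc r i (h + 1)).rL ↔ (Zr r (i + 1) ∨ Zr r (i + 2)) := by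
    intro i
    rw [B.knh A]
    constructor
    · rintro ⟨c, rfl | rfl, h1⟩
      · exact Or.inl h1
      · exact Or.inr h1
    · rintro (h1 | h1)
      · exact ⟨_, Or.inl rfl, h1⟩
      · exact ⟨_, Or.inr rfl, h1⟩
  refine ⟨N, V, lin, lout, fun i => Zr r (i + 1) ∨ Zr r (i + 2) ∨ Zr r (i + 3),
    fun i => Zr r (i + 1) ∨ Zr r (i + 2), 3, 0, ?_, l1, l2⟩
  exact
    { kvs := B.kvs A
      kes := B.kes A
      kf := B.kf
      kv := fun i k hk => B.kvk A i k hk
      kvh := kvh
      ke := fun i k h1 h2 => B.kek A i k h1 h2
      kn := fun i k hk => B.kn A i k hk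
      knh := knh
      st := fun i => by
        constructor
        · rintro ⟨h1, h2⟩; tauto
        · intro h1
          refine ⟨Or.inr (Or.inr h1), ?_⟩
          rintro (h2 | h2)
          · exact zz h2 h1 (by omega) (by omega) (by omega)
          · exact zz h2 h1 (by omega) (by omega) (by omega)
      en := fun i => by
        show ((Zr r (i - 1 + 1) ∨ Zr r (i - 1 + 2) ∨ Zr r (i - 1 + 3)) ∧
          ¬ (Zr r (i + 1) ∨ Zr r (i + 2))) ↔ Zr r (i + 0)
        rw [show i - 1 + 1 = i + 0 by ring, show i - 1 + 2 = i + 1 by ring,
          show i - 1 + 3 = i + 2 by ring]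
        constructor
        · rintro ⟨h1, h2⟩; tauto
        · intro h1
          refine ⟨Or.inl h1, ?_⟩
          rintro (h2 | h2)
          · exact zz h2 h1 (by omega) (by omega) (by omega)
          · exact zz h2 h1 (by omega) (by omega) (by omega)
      gr := g
      ln := fun i => by
        rw [l1, l2]
        exact hl i
      adm := by
        rw [l1, l2]
        decide
      arc0 := by
        rw [l1, l2]
        decide
      arc1 := fun _ i hi => by
        left
        rwa [sub_add_cancel, ← add_zero i]
      covV := fun i k h1 h2 hv j => by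
        obtain ⟨v1, v2⟩ := (hW i k h1 h2).1 hv
        have up : ∀ l, 1 ≤ l → l ≤ k → V (cc r i l) := by
          intro l h3 h4
          refine (hW i l h3 (by omega)).2 ⟨v1, ?_⟩
          rintro ⟨h5, h6⟩
          exact v2 ⟨by omega, h6⟩
        by_cases hj : j = VL.W ∧ Zr r i
        · right
          obtain ⟨rfl, hZ⟩ := hj
          refine ⟨fun l h3 h4 => (hW i l (by omega) h4).2 ⟨v1, ?_⟩, ?_⟩
          · rintro ⟨-, h5 | h5⟩
            · exact zz h5 hZ (by omega) (by omega) (by omega)
            · exact zz h5 hZ (by omega) (by omega) (by omega)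
          · refine A.litC (lf1 i) (lf2 i) (Or.inr ⟨⟨?_, ?_⟩, rfl⟩)
            · rw [kvh]; left; rwa [sub_add_cancel]
            · rw [knh]
              rintro (h5 | h5)
              · exact zz h5 hZ (by omega) (by omega) (by omega)
              · exact zz h5 hZ (by omega) (by omega) (by omega)
        · left
          refine ⟨up, B.litA A (hl i).1 (hl i).2.1 ?_⟩
          split_ifs with h3
          · exact fun h4 => hj ⟨h3, h4⟩
          · exact v1
      covT := fun i k h1 h2 hv j => by
        have hv' : Zr r (i + 1) ∨ (k = h ∧ (Zr r (i + 2) ∨ Zr r (i + 3))) := by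
          by_contra hc
          push Not at hc
          exact hv ((hW i k h1 h2).2 ⟨hc.1, fun h5 => by
            rcases h5.2 with h6 | h6
            · exact (hc.2 h5.1).1 h6
            · exact (hc.2 h5.1).2 h6⟩)
        have nV : ∀ (l : ℤ) (d : ℤ), Zr r (l + d) → 1 ≤ d → d ≤ 3 → (k = h ∨ d = 1) →
            ¬ V (cc r l k) := by
          intro l d hl h3 h4 h5 hc
          obtain ⟨c1, c2⟩ := (hW l k h1 h2).1 hc
          have : d = 1 ∨ d = 2 ∨ d = 3 := by omega
          rcases this with rfl | rfl | rfl
          · exact c1 hl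
          · exact c2 ⟨by omega, Or.inl hl⟩
          · exact c2 ⟨by omega, Or.inr hl⟩
        rcases Nat.lt_or_ge k h with h3 | h3
        · have hZ : Zr r (i + 1) := by
            rcases hv' with h4 | h4
            · exact h4
            · omega
          refine ⟨0, ?_, ?_⟩
          · intro y hy
            simp at hy
            subst hy
            rw [add_zero]; exact hv
          · rw [add_zero]
            by_cases hj : j = VL.E
            · subst hj
              exact B.hitE A h1 h3 (Or.inl hZ)
            · exact B.hitWM A h1 h2 (Or.inl hZ) hj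
        · have hk : k = h := by omega
          subst hk
          obtain ⟨e, he1, he2, hZ⟩ : ∃ e : ℤ, 1 ≤ e ∧ e ≤ 3 ∧ Zr r (i + e) := by
            rcases hv' with h4 | ⟨-, h4 | h4⟩
            · exact ⟨1, by norm_num, by norm_num, h4⟩
            · exact ⟨2, by norm_num, by norm_num, h4⟩
            · exact ⟨3, by norm_num, by norm_num, h4⟩
          by_cases hj : j = VL.E
          · subst hj
            refine ⟨e - 3, ?_, ?_⟩
            · intro y hy
              rw [Set.mem_uIcc] at hy
              refine nV (i + y) (e - y) ?_ (by omega) (by omega) (Or.inl rfl)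
              rw [show i + y + (e - y) = i + e by ring]
              exact hZ
            · refine B.hitEh A ?_ ?_
              · left
                rw [kvh]
                right; right
                rw [show i + (e - 3) + 3 = i + e by ring]
                exact hZ
              · rw [knh]
                rintro (h5 | h5)
                · exact zz h5 hZ (by omega) (by omega) (by omega)
                · exact zz h5 hZ (by omega) (by omega) (by omega)
          · refine ⟨e - 1, ?_, ?_⟩
            · intro y hy
              rw [Set.mem_uIcc] at hy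
              refine nV (i + y) (e - y) ?_ (by omega) (by omega) (Or.inl rfl)
              rw [show i + y + (e - y) = i + e by ring]
              exact hZ
            · refine B.hitWM A h1 h2 (Or.inl ?_) hj
              rw [show i + (e - 1) + 1 = i + e by ring]
              exact hZ
      tur0 := fun i hv => by
        by_cases hZ : Zr r (i + 1)
        · right
          refine ⟨0, ?_, ?_⟩
          · intro y hy
            simp at hy
            subst hy
            rw [add_zero]
            refine ⟨hv, ?_⟩
            unfold Land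
            rw [(hl i).1, (hl i).2.1]
            rintro (⟨-, a⟩ | ⟨-, a⟩) <;> cases a
          · right
            rw [add_zero]
            exact ⟨hZ, l2⟩
        · left
          intro j
          have hv' : h = 1 ∧ (Zr r (i + 2) ∨ Zr r (i + 3)) := by
            by_contra hc
            exact hv ((hW i 1 le_rfl hh).2 ⟨hZ, fun h5 => hc ⟨h5.1.symm, h5.2⟩⟩)
          refine B.litA A (hl i).1 (hl i).2.1 ?_
          split_ifs with h3
          · intro h4
            rcases hv'.2 with h5 | h5
            · exact zz h5 h4 (by omega) (by omega) (by omega)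
            · exact zz h5 h4 (by omega) (by omega) (by omega)
          · exact hZ
      tur1 := fun i hv => by
        have hv' : Zr r (i + 1) ∨ (Zr r (i + 2) ∨ Zr r (i + 3)) := by
          by_contra hc
          push Not at hc
          exact hv ((hW i h hh le_rfl).2 ⟨hc.1, fun h5 => by
            rcases h5.2 with h6 | h6
            · exact hc.2.1 h6
            · exact hc.2.2 h6⟩)
        have nL : ∀ l : ℤ, ¬ Zr r (l + 1) →
            ¬ Land N.kv N.ke lin lout (cc r l (h + 1)).r2 := by
          intro l h1
          unfold Land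
          rw [A.far_sE, A.far_en, lf1, add_sub_cancel_right, kvh, knh]
          rintro (⟨⟨h2, h3⟩, -⟩ | ⟨-, a⟩)
          · apply h3
            rw [show l + 1 + 1 = l + 2 by ring, show l + 1 + 2 = l + 3 by ring]
            tauto
          · cases a
        rcases hv' with hZ | hZ | hZ
        · left
          intro j
          refine A.litC (lf1 i) (lf2 i) (Or.inl ⟨(knh i).2 (Or.inl hZ), Or.inr ?_⟩)
          rw [knh]
          right
          rw [show i - 1 + 2 = i + 1 by ring]
          exact hZ
        · right
          refine ⟨1, ?_, ?_⟩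
          · intro y hy
            rw [Set.mem_uIcc] at hy
            have : y = 0 ∨ y = 1 := by omega
            rcases this with rfl | rfl
            · rw [sub_zero]
              exact ⟨hv, nL i fun h5 => zz h5 hZ (by omega) (by omega) (by omega)⟩
            · refine ⟨fun hc => ((hW _ h hh le_rfl).1 hc).2 ⟨rfl, Or.inr ?_⟩, nL _ fun h5 =>
                zz h5 hZ (by omega) (by omega) (by omega)⟩
              rw [show i - 1 + 3 = i + 2 by ring]
              exact hZ
          · left
            rw [show i - 1 + 3 = i + 2 by ring]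
            exact ⟨hZ, l2⟩
        · right
          refine ⟨0, ?_, ?_⟩
          · intro y hy
            simp at hy
            subst hy
            rw [sub_zero]
            exact ⟨hv, nL i fun h5 => zz h5 hZ (by omega) (by omega) (by omega)⟩
          · left
            rw [sub_zero]
            exact ⟨hZ, l2⟩ }

/-- the case `(0,-)` -/
theorem case_0m (tr : P.FSt → Prop) :
    ∃ (N : Nb P) (V : P.FSt → Prop) (lin lout : P.FSt → Ln) (AP FP : ℤ → Prop) (p q : ℤ),
      A.Asm tr N V lin lout AP FP p q ∧ lin r = Ln.z ∧ lout r = Ln.s := by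
  have hh := A.h1
  obtain ⟨V, hV, hW⟩ := A.exists_V
    (fun i k => ¬ Zr r (i + 0) ∧ ¬ (k = h ∧ (Zr r (i + -1) ∨ Zr r (i + -2))))
    (fun i j k hij => by
      rw [A.Z_congr hij 0, A.Z_congr hij (-1), A.Z_congr hij (-2)])
  have zz := fun {a b : ℤ} => A.zz (a := a) (b := b)
  have z0 := A.Z_zero
  obtain ⟨N0, lin, lout, g0, B0, hl⟩ := A.thread' (α := 0) (β := -1) hV (by norm_num)
    (by norm_num) (by norm_num) (by norm_num)
    (fun k h1 h2 => by
      rw [hW 0 k h1 h2]
      exact iff_of_false (fun hc => hc.1 z0) (by norm_num))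
    (fun k h1 h2 => by
      rw [hW (-1) k h1 h2]
      refine iff_of_true ⟨fun hc => zz hc z0 (by omega) (by omega) (by omega), ?_⟩ (by norm_num)
      rintro ⟨-, hc | hc⟩
      · exact zz hc z0 (by omega) (by omega) (by omega)
      · exact zz hc z0 (by omega) (by omega) (by omega))
  have l1 : lin r = Ln.z := (hl 0).1
  have l2 : lout r = Ln.s := (hl 0).2.1
  have lf1 : ∀ i, lin (cc r i (h + 1)).r2 = Ln.s := fun i => (hl i).2.2.1
  have lf2 : ∀ i, lout (cc r i (h + 1)).r2 = Ln.z := fun i => (hl i).2.2.2
  obtain ⟨N, g, B⟩ := A.arcE g0 B0 (by rw [lf2]; decide)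
    ⟨fun hc => ((hW _ h hh le_rfl).1 hc).1 z0,
      fun hc => ((hW _ h hh le_rfl).1 hc).2 ⟨rfl, Or.inl z0⟩,
      fun hc => ((hW _ h hh le_rfl).1 hc).2 ⟨rfl, Or.inr z0⟩⟩
  have kvh : ∀ i, N.kv (cc r i (h + 1)) ↔ (Zr r (i + 1) ∨ Zr r (i + 0) ∨ Zr r (i + -1)) := by
    intro i
    rw [B.kvh A]
    constructor
    · rintro (h1 | ⟨c, rfl | rfl, h1⟩)
      · exact Or.inl h1
      · exact Or.inr (Or.inl h1)
      · exact Or.inr (Or.inr h1)
    · rintro (h1 | h1 | h1)
      · exact Or.inl h1
      · exact Or.inr ⟨_, Or.inl rfl, h1⟩
      · exact Or.inr ⟨_, Or.inr rfl, h1⟩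
  have knh : ∀ i, N.ke (cc r i (h + 1)).rL ↔ (Zr r (i + 0) ∨ Zr r (i + -1)) := by
    intro i
    rw [B.knh A]
    constructor
    · rintro ⟨c, rfl | rfl, h1⟩
      · exact Or.inl h1
      · exact Or.inr h1
    · rintro (h1 | h1)
      · exact ⟨_, Or.inl rfl, h1⟩
      · exact ⟨_, Or.inr rfl, h1⟩
  refine ⟨N, V, lin, lout, fun i => Zr r (i + 1) ∨ Zr r (i + 0) ∨ Zr r (i + -1),
    fun i => Zr r (i + 0) ∨ Zr r (i + -1), 1, -2, ?_, l1, l2⟩
  exact
    { kvs := B.kvs A
      kes := B.kes A
      kf := B.kf
      kv := fun i k hk => B.kvk A i k hk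
      kvh := kvh
      ke := fun i k h1 h2 => B.kek A i k h1 h2
      kn := fun i k hk => B.kn A i k hk
      knh := knh
      st := fun i => by
        constructor
        · rintro ⟨h1, h2⟩; tauto
        · intro h1
          refine ⟨Or.inl h1, ?_⟩
          rintro (h2 | h2)
          · exact zz h2 h1 (by omega) (by omega) (by omega)
          · exact zz h2 h1 (by omega) (by omega) (by omega)
      en := fun i => by
        show ((Zr r (i - 1 + 1) ∨ Zr r (i - 1 + 0) ∨ Zr r (i - 1 + -1)) ∧
          ¬ (Zr r (i + 0) ∨ Zr r (i + -1))) ↔ Zr r (i + -2)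
        rw [show i - 1 + 1 = i + 0 by ring, show i - 1 + 0 = i + -1 by ring,
          show i - 1 + -1 = i + -2 by ring]
        constructor
        · rintro ⟨h1, h2⟩; tauto
        · intro h1
          refine ⟨Or.inr (Or.inr h1), ?_⟩
          rintro (h2 | h2)
          · exact zz h2 h1 (by omega) (by omega) (by omega)
          · exact zz h2 h1 (by omega) (by omega) (by omega)
      gr := g
      ln := fun i => by
        rw [l1, l2]
        exact hl i
      adm := by
        rw [l1, l2]
        decide
      arc0 := by
        rw [l1, l2]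
        decide
      arc1 := fun _ i hi => by
        right
        show Zr r (i - 1 + -1)
        rw [show i - 1 + -1 = i + -2 by ring]
        exact hi
      covV := fun i k h1 h2 hv j => by
        obtain ⟨v1, v2⟩ := (hW i k h1 h2).1 hv
        have up : ∀ l, 1 ≤ l → l ≤ k → V (cc r i l) := by
          intro l h3 h4
          refine (hW i l h3 (by omega)).2 ⟨v1, ?_⟩
          rintro ⟨h5, h6⟩
          exact v2 ⟨by omega, h6⟩
        by_cases hj : j = VL.E ∧ Zr r (i + 1)
        · right
          obtain ⟨rfl, hZ⟩ := hj
          refine ⟨fun l h3 h4 => (hW i l (by omega) h4).2 ⟨v1, ?_⟩, ?_⟩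
          · rintro ⟨-, h5 | h5⟩
            · exact zz h5 hZ (by omega) (by omega) (by omega)
            · exact zz h5 hZ (by omega) (by omega) (by omega)
          · refine A.litD (lf1 i) (lf2 i) (Or.inr ⟨⟨?_, ?_⟩, rfl⟩)
            · rw [kvh]; left; exact hZ
            · rw [knh]
              rintro (h5 | h5)
              · exact zz h5 hZ (by omega) (by omega) (by omega)
              · exact zz h5 hZ (by omega) (by omega) (by omega)
        · left
          refine ⟨up, B.litB A (hl i).1 (hl i).2.1 ?_⟩
          split_ifs with h3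
          · exact fun h4 => hj ⟨h3, h4⟩
          · rw [← add_zero i]; exact v1
      covT := fun i k h1 h2 hv j => by
        have hv' : Zr r (i + 0) ∨ (k = h ∧ (Zr r (i + -1) ∨ Zr r (i + -2))) := by
          by_contra hc
          push Not at hc
          exact hv ((hW i k h1 h2).2 ⟨hc.1, fun h5 => by
            rcases h5.2 with h6 | h6
            · exact (hc.2 h5.1).1 h6
            · exact (hc.2 h5.1).2 h6⟩)
        have nV : ∀ (l : ℤ) (d : ℤ), Zr r (l - d) → 0 ≤ d → d ≤ 2 → (k = h ∨ d = 0) →
            ¬ V (cc r l k) := by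
          intro l d hl h3 h4 h5 hc
          obtain ⟨c1, c2⟩ := (hW l k h1 h2).1 hc
          have : d = 0 ∨ d = 1 ∨ d = 2 := by omega
          rcases this with rfl | rfl | rfl
          · rw [sub_zero, ← add_zero l] at hl
            exact c1 hl
          · exact c2 ⟨by omega, Or.inl hl⟩
          · exact c2 ⟨by omega, Or.inr hl⟩
        rcases Nat.lt_or_ge k h with h3 | h3
        · have hZ : Zr r i := by
            rcases hv' with h4 | h4
            · rw [← add_zero i]; exact h4
            · omega
          refine ⟨0, ?_, ?_⟩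
          · intro y hy
            simp at hy
            subst hy
            rw [add_zero]; exact hv
          · rw [add_zero]
            by_cases hj : j = VL.E
            · subst hj
              exact B.hitE A h1 h3 (Or.inr hZ)
            · exact B.hitWM A h1 h2 (Or.inr hZ) hj
        · have hk : k = h := by omega
          subst hk
          obtain ⟨e, he1, he2, hZ⟩ : ∃ e : ℤ, 0 ≤ e ∧ e ≤ 2 ∧ Zr r (i - e) := by
            rcases hv' with h4 | ⟨-, h4 | h4⟩
            · exact ⟨0, by norm_num, by norm_num, by rw [sub_zero, ← add_zero i]; exact h4⟩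
            · exact ⟨1, by norm_num, by norm_num, h4⟩
            · exact ⟨2, by norm_num, by norm_num, h4⟩
          by_cases hj : j = VL.E
          · subst hj
            refine ⟨2 - e, ?_, ?_⟩
            · intro y hy
              rw [Set.mem_uIcc] at hy
              refine nV (i + y) (e + y) ?_ (by omega) (by omega) (Or.inl rfl)
              rw [show i + y - (e + y) = i - e by ring]
              exact hZ
            · refine B.hitEh A ?_ ?_
              · right
                rw [kvh]
                right; right
                rw [show i + (2 - e) - 1 + -1 = i - e by ring]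
                exact hZ
              · rw [knh]
                rintro (h5 | h5)
                · exact zz h5 hZ (by omega) (by omega) (by omega)
                · exact zz h5 hZ (by omega) (by omega) (by omega)
          · refine ⟨-e, ?_, ?_⟩
            · intro y hy
              rw [Set.mem_uIcc] at hy
              refine nV (i + y) (e + y) ?_ (by omega) (by omega) (Or.inl rfl)
              rw [show i + y - (e + y) = i - e by ring]
              exact hZ
            · refine B.hitWM A h1 h2 (Or.inr ?_) hj
              rw [← sub_eq_add_neg]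
              exact hZ
      tur0 := fun i hv => by
        by_cases hZ : Zr r (i + 0)
        · right
          refine ⟨0, ?_, ?_⟩
          · intro y hy
            simp at hy
            subst hy
            rw [add_zero]
            refine ⟨hv, ?_⟩
            unfold Land
            rw [(hl i).1, (hl i).2.1]
            rintro (⟨-, a⟩ | ⟨-, a⟩) <;> cases a
          · left
            exact ⟨hZ, l1⟩
        · left
          intro j
          have hv' : h = 1 ∧ (Zr r (i + -1) ∨ Zr r (i + -2)) := by
            by_contra hc
            exact hv ((hW i 1 le_rfl hh).2 ⟨hZ, fun h5 => hc ⟨h5.1.symm, h5.2⟩⟩)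
          refine B.litB A (hl i).1 (hl i).2.1 ?_
          split_ifs with h3
          · intro h4
            rcases hv'.2 with h5 | h5
            · exact zz h5 h4 (by omega) (by omega) (by omega)
            · exact zz h5 h4 (by omega) (by omega) (by omega)
          · rw [← add_zero i]; exact hZ
      tur1 := fun i hv => by
        have hv' : Zr r (i + 0) ∨ (Zr r (i + -1) ∨ Zr r (i + -2)) := by
          by_contra hc
          push Not at hc
          exact hv ((hW i h hh le_rfl).2 ⟨hc.1, fun h5 => by
            rcases h5.2 with h6 | h6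
            · exact hc.2.1 h6
            · exact hc.2.2 h6⟩)
        have nL : ∀ l : ℤ, ¬ Zr r l →
            ¬ Land N.kv N.ke lin lout (cc r l (h + 1)).r2 := by
          intro l h1
          unfold Land
          rw [pE_apply, A.far_stE, A.far_st, lf2, kvh, knh]
          rintro (⟨-, a⟩ | ⟨⟨h2, h3⟩, -⟩)
          · cases a
          · rw [sub_add_cancel] at h2
            rcases h2 with h2 | h2 | h2
            · exact h1 h2
            · exact h3 (Or.inl h2)
            · exact h3 (Or.inr h2)
        rcases hv' with hZ | hZ | hZ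
        · left
          intro j
          refine A.litD (lf1 i) (lf2 i) (Or.inl ⟨(knh i).2 (Or.inl hZ), Or.inr ?_⟩)
          rw [knh]
          right
          rw [show i + 1 + -1 = i + 0 by ring]
          exact hZ
        · right
          refine ⟨-1, ?_, ?_⟩
          · intro y hy
            rw [Set.mem_uIcc] at hy
            have : y = 0 ∨ y = -1 := by omega
            rcases this with rfl | rfl
            · rw [sub_zero]
              exact ⟨hv, nL i fun h5 => zz h5 hZ (by omega) (by omega) (by omega)⟩
            · refine ⟨fun hc => ((hW _ h hh le_rfl).1 hc).2 ⟨rfl, Or.inr ?_⟩, nL _ fun h5 =>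
                zz h5 hZ (by omega) (by omega) (by omega)⟩
              rw [show i - -1 + -2 = i + -1 by ring]
              exact hZ
          · right
            rw [show i - -1 + -2 = i + -1 by ring]
            exact ⟨hZ, l1⟩
        · right
          refine ⟨0, ?_, ?_⟩
          · intro y hy
            simp at hy
            subst hy
            rw [sub_zero]
            exact ⟨hv, nL i fun h5 => zz h5 hZ (by omega) (by omega) (by omega)⟩
          · right
            rw [sub_zero]
            exact ⟨hZ, l1⟩ }

/-- **The ring has a certificate with any admissible pair of labels at the near rim.** -/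
theorem hasKL {tr ac : P.FSt → Prop} (htr : ∀ s, R.Rim s → J (jf s) → tr s)
    (hac : ∀ s, R.Rim s → J (jf s) → ac s) (a b : Ln) (h1 : ¬ (a = Ln.n ∧ b = Ln.s))
    (h2 : ¬ (a = Ln.s ∧ b = Ln.n)) :
    ∃ D : KHD P, KH R tr ac J D ∧ ((D.lin r = a ∧ D.lout r = b) ∨ (D.lin r = b ∧ D.lout r = a)) := by
  have fin : ∀ x y : Ln, (∃ (N : Nb P) (V : P.FSt → Prop) (lin lout : P.FSt → Ln)
      (AP FP : ℤ → Prop) (p q : ℤ), A.Asm tr N V lin lout AP FP p q ∧ lin r = x ∧ lout r = y) →
      ∃ D : KHD P, KH R tr ac J D ∧ D.lin r = x ∧ D.lout r = y := by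
    rintro x y ⟨N, V, lin, lout, AP, FP, p, q, B, h3, h4⟩
    obtain ⟨D, hD, e1, e2⟩ := A.toKH B htr hac
    exact ⟨D, hD, by rw [e1]; exact h3, by rw [e2]; exact h4⟩
  have f1 := fin _ _ (A.case_eq tr (α := 1) (by norm_num) (by norm_num))
  have f2 := fin _ _ (A.case_eq tr (α := 0) (by norm_num) (by norm_num))
  have f3 := fin _ _ (A.case_eq tr (α := -1) (by norm_num) (by norm_num))
  have f4 := fin _ _ (A.case_p0 tr)
  have f5 := fin _ _ (A.case_0m tr)
  have use1 : ∀ x y : Ln, (∃ D : KHD P, KH R tr ac J D ∧ D.lin r = x ∧ D.lout r = y) →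
      ((a = x ∧ b = y) ∨ (a = y ∧ b = x)) →
      ∃ D : KHD P, KH R tr ac J D ∧
        ((D.lin r = a ∧ D.lout r = b) ∨ (D.lin r = b ∧ D.lout r = a)) := by
    rintro x y ⟨D, hD, e1, e2⟩ (⟨rfl, rfl⟩ | ⟨rfl, rfl⟩)
    · exact ⟨D, hD, Or.inl ⟨e1, e2⟩⟩
    · exact ⟨D, hD, Or.inr ⟨e1, e2⟩⟩
  cases a <;> cases b <;> first
    | exact absurd ⟨rfl, rfl⟩ h1
    | exact absurd ⟨rfl, rfl⟩ h2
    | exact use1 _ _ f1 (by decide)
    | exact use1 _ _ f2 (by decide)
    | exact use1 _ _ f3 (by decide)
    | exact use1 _ _ f4 (by decide)
    | exact use1 _ _ f5 (by decide)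

end Annu

end Pool.Agent.MP42K
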