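import Pool.Agent.MP42.K.ToQX

/-!
# `KC0.Conn → QX.Conn`
-/

set_option autoImplicit false
set_option linter.unusedSectionVars false

namespace Pool.Agent.MP42K

open Pool.Agent.Helper55.UNF Pool.Agent.Helper55.UNF.GridSolid Pool.Agent.MP42G
open Pool.Agent.MP42H Pool.Agent.MP42X Pool.Agent.MP42R

variable {P : GridSolid}

/-! ## Facets of rotated parts -/

lemma ptF_r2 (s : P.FSt) {i j : ℕ} (hi : i ≤ 6) (hj : j ≤ 6) :
    (pt s.r2 (6 - i) (6 - j)).facet = (pt s i j).facet := by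
  rw [← pt_r2]; rfl

lemma ptF_rL (s : P.FSt) {i j : ℕ} (hi : i ≤ 6) (hj : j ≤ 6) :
    (pt s.rL j (6 - i)).facet = (pt s i j).facet := by
  rw [← pt_rL]; rfl

lemma ptF_rR (s : P.FSt) {i j : ℕ} (hi : i ≤ 6) (hj : j ≤ 6) :
    (pt s.rR (6 - j) i).facet = (pt s i j).facet := by
  rw [← pt_rR]; rfl

lemma rR_stN (t : P.FSt) : t.rR.stN = t.stE.rR := by
  show t.rR.rL.stE.rR = _
  rw [FSt.rR_rL]

lemma stE_rL_stN (t : P.FSt) : t.stE.rL.stN = t.rL := by
  show t.stE.rL.rL.stE.rR = _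
  rw [FSt.rL_rL, stE_r2_stE, FSt.r2_rR]

namespace KC0

variable (C : KC0 P)

lemma lam_ne {s : P.FSt} (h0 : ¬ C.core s.facet) (hk : ¬ C.kf s.facet) (he : C.ke s)
    (hc : C.can s.facet = s ∨ C.can s.facet = s.r2) : C.lam s ≠ Ln.z := by
  have h1 := C.cNE s h0 hk hc
  by_cases h2 : C.ke s.rL
  · rw [h1.1 he h2]; decide
  · exact (h1.2.1 he h2).2

lemma nu_ne {s : P.FSt} (h0 : ¬ C.core s.facet) (hv : C.kv s) (he : ¬ C.ke s)
    (hc : C.can s.facet = s.rR ∨ C.can s.facet = s.rL) : C.nu s ≠ Ln.z := by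
  have hk : ¬ C.kf s.facet := fun h => he (C.kf_ke s h0 h)
  have h1 := C.cSE s.rL h0 hk (by
    rcases hc with h | h
    · right; rw [FSt.facet_rL, h, FSt.rL_r2]
    · left; exact h)
  rw [FSt.rL_rR] at h1
  by_cases h2 : C.ke s.rL
  · rw [(h1.2.1 h2 he).1]; exact (h1.2.1 h2 he).2
  · rw [h1.2.2 h2 hv he]; decide

variable {C} {φ : (P.refine 7 h7).Facet → Prop} (hφ : C.toQX0.Inv φ)

include hφ

lemma inv_N {F G : (P.refine 7 h7).Facet} (h0 : ¬ C.core (cf F)) (h1 : ¬ C.core (cf G))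
    (h : (C.canF F).stN = C.canF G) (hl : C.lnF F ≠ Ln.z) : φ F ↔ φ G :=
  hφ.gN F G (C.toCore1.toRows7_rw.2 h0) (C.toCore1.toRows7_rw.2 h1) h hl

lemma inv_E {F G : (P.refine 7 h7).Facet} (h0 : ¬ C.core (cf F)) (h1 : ¬ C.core (cf G))
    (h : (C.canF F).stE = C.canF G ∨ (C.canF F).stE = (C.canF G).r2) (hl : C.eF F = true) :
    φ F ↔ φ G :=
  hφ.gE F G (C.toCore1.toRows7_rw.2 h0) (C.toCore1.toRows7_rw.2 h1) h hl

lemma inv_W {F G : (P.refine 7 h7).Facet} (h0 : ¬ C.core (cf F)) (h1 : ¬ C.core (cf G))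
    (h : (C.canF F).r2.stE = C.canF G) (hl : C.wF F = true) : φ F ↔ φ G :=
  hφ.gW F G (C.toCore1.toRows7_rw.2 h0) (C.toCore1.toRows7_rw.2 h1) h hl

/-- one step along the east side -/
lemma along1 {s : P.FSt} (h0 : ¬ C.core s.facet) (hk : ¬ C.kf s.facet) (he : C.ke s) {j : ℕ}
    (hj : j < 6) : φ (pt s 6 j).facet ↔ φ (pt s 6 (j + 1)).facet := by
  classical
  have c0 : ¬ C.core (cf (pt s 6 j).facet) := by rw [cf_pt]; exact h0
  have c1 : ¬ C.core (cf (pt s 6 (j + 1)).facet) := by rw [cf_pt]; exact h0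
  have hN : (pt s 6 j).stN = pt s 6 (j + 1) := pt_stN s 6 hj
  rcases rot4 (C.can_facet s.facet) with hc | hc | hc | hc
  · -- straight
    refine inv_N hφ c0 c1 ?_ ?_
    · rw [canF_pt hc (by omega) (by omega), canF_pt hc (by omega) (by omega), hN]
    · rw [lnF_pt hc (by omega) (by omega)]
      unfold sN
      rw [if_neg hk, if_pos rfl, if_neg (by omega), if_pos he]
      exact C.lam_ne h0 hk he (Or.inl hc)
  · -- turned by two right angles
    symm
    have e0 : C.canF (pt s 6 j).facet = (pt s 6 j).r2 := canP_r2 hc (by omega) (by omega)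
    have e1 : C.canF (pt s 6 (j + 1)).facet = (pt s 6 (j + 1)).r2 :=
      canP_r2 hc (by omega) (by omega)
    refine inv_N hφ c1 c0 ?_ ?_
    · rw [e0, e1, ← hN]; exact stN_r2_stN _
    · have e2 := lnF_pt (C := C) (s := s.r2) hc (i := 0) (j := 5 - j) (by omega) (by omega)
      have e3 : (pt s.r2 0 (5 - j)).facet = (pt s 6 (j + 1)).facet := by
        have := ptF_r2 s (i := 6) (j := j + 1) (by omega) (by omega)
        rw [← this]
        exact congrArg FSt.facet (pt_congr rfl rfl (by omega))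
      rw [e3] at e2
      rw [e2]
      unfold sN
      rw [if_neg (by exact hk), if_neg (by omega), if_pos rfl, if_neg (by omega), FSt.r2_r2,
        if_pos he]
      exact C.lam_ne h0 hk he (Or.inr hc)
  · -- north is east
    symm
    have e0 : C.canF (pt s 6 j).facet = (pt s 6 j).rR := canP_rR hc (by omega) (by omega)
    have e1 : C.canF (pt s 6 (j + 1)).facet = (pt s 6 (j + 1)).rR :=
      canP_rR hc (by omega) (by omega)
    refine inv_E hφ c1 c0 (Or.inl ?_) ?_
    · rw [e0, e1, ← hN, stN_rR, rL_stE_r2_stE]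
    · have e2 := eF_pt (C := C) (s := s.rR) hc (i := 5 - j) (j := 6) (by omega) (by omega)
      have e3 : (pt s.rR (5 - j) 6).facet = (pt s 6 (j + 1)).facet := by
        have := ptF_rR s (i := 6) (j := j + 1) (by omega) (by omega)
        rw [← this]
        exact congrArg FSt.facet (pt_congr rfl (by omega) rfl)
      rw [e3] at e2
      rw [e2]
      unfold sE
      rw [if_neg (by exact hk), if_pos rfl, if_neg (by omega), FSt.rR_rL, decide_eq_true_eq]
      exact he
  · -- north is west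
    have e0 : C.canF (pt s 6 j).facet = (pt s 6 j).rL := canP_rL hc (by omega) (by omega)
    have e1 : C.canF (pt s 6 (j + 1)).facet = (pt s 6 (j + 1)).rL :=
      canP_rL hc (by omega) (by omega)
    refine inv_E hφ c0 c1 (Or.inl ?_) ?_
    · rw [e0, e1, ← hN, stN_rL]
    · have e2 := eF_pt (C := C) (s := s.rL) hc (i := j) (j := 0) (by omega) (by omega)
      have e3 : (pt s.rL j 0).facet = (pt s 6 j).facet := by
        have := ptF_rL s (i := 6) (j := j) (by omega) (by omega)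
        rw [← this]
      rw [e3] at e2
      rw [e2]
      unfold sE
      rw [if_neg (by exact hk), if_neg (by omega), if_pos rfl, if_neg (by omega), FSt.rL_rR,
        decide_eq_true_eq]
      exact he

/-- along the east side -/
lemma along {s : P.FSt} (h0 : ¬ C.core s.facet) (hk : ¬ C.kf s.facet) (he : C.ke s) {j : ℕ}
    (hj : j ≤ 6) : φ (pt s 6 j).facet ↔ φ (pt s 6 6).facet := by
  obtain ⟨m, hm⟩ : ∃ m, j + m = 6 := ⟨6 - j, by omega⟩
  induction m generalizing j with
  | zero => rw [show j = 6 by omega]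
  | succ m ih =>
    exact (along1 hφ h0 hk he (by omega)).trans (ih (j := j + 1) (by omega) (by omega))

/-- over an edge next to a vertex of `D` -/
lemma cross {s : P.FSt} (h0 : ¬ C.core s.facet) (h1 : ¬ C.core s.stE.facet) (hv : C.kv s)
    (he : ¬ C.ke s) : φ (pt s 6 6).facet ↔ φ (pt s.stE 0 6).facet := by
  classical
  have c0 : ¬ C.core (cf (pt s 6 6).facet) := by rw [cf_pt]; exact h0
  have c1 : ¬ C.core (cf (pt s.stE 0 6).facet) := by rw [cf_pt]; exact h1
  have hk : ¬ C.kf s.facet := fun h => he (C.kf_ke s h0 h)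
  have hx := (C.kxE h0 h1).2 ⟨hv, he⟩
  have hk1 : ¬ C.kf s.stE.facet := fun h => hx.2 (C.kf_ke s.stE.r2 h1 h)
  have hE : (pt s 6 6).stE = pt s.stE 0 6 := pt_stE6 s 6
  have eE : C.sE s 6 6 = true := by
    unfold sE
    rw [if_neg hk, if_pos rfl, if_pos rfl, decide_eq_true_eq]
    exact ⟨hv, he⟩
  rcases C.cmp s h0 h1 hv he with ⟨ha | ha, hb | hb⟩ | ⟨ha, hb⟩ | ⟨ha, hb⟩
  · refine inv_E hφ c0 c1 (Or.inl ?_) ?_
    · rw [canF_pt ha (by omega) (by omega), canF_pt hb (by omega) (by omega), hE]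
    · rw [eF_pt ha (by omega) (by omega)]; exact eE
  · refine inv_E hφ c0 c1 (Or.inr ?_) ?_
    · have e1 : C.canF (pt s.stE 0 6).facet = (pt s.stE 0 6).r2 := canP_r2 hb (by omega) (by omega)
      rw [canF_pt ha (by omega) (by omega), e1, FSt.r2_r2, hE]
    · rw [eF_pt ha (by omega) (by omega)]; exact eE
  · have e0 : C.canF (pt s 6 6).facet = (pt s 6 6).r2 := canP_r2 ha (by omega) (by omega)
    refine inv_W hφ c0 c1 ?_ ?_
    · rw [e0, canF_pt hb (by omega) (by omega), FSt.r2_r2, hE]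
    · have e2 := wF_pt (C := C) (s := s.r2) ha (i := 0) (j := 0) (by omega) (by omega)
      have e3 : (pt s.r2 0 0).facet = (pt s 6 6).facet :=
        ptF_r2 s (i := 6) (j := 6) (by omega) (by omega)
      rw [e3] at e2
      rw [e2]
      show C.sE s.r2.r2 (6 - 0) (6 - 0) = true
      rw [FSt.r2_r2]
      exact eE
  · have e0 : C.canF (pt s 6 6).facet = (pt s 6 6).r2 := canP_r2 ha (by omega) (by omega)
    have e1 : C.canF (pt s.stE 0 6).facet = (pt s.stE 0 6).r2 := canP_r2 hb (by omega) (by omega)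
    symm
    refine inv_E hφ c1 c0 (Or.inl ?_) ?_
    · rw [e0, e1, ← hE, stE_r2_stE]
    · have e2 := eF_pt (C := C) (s := s.stE.r2) hb (i := 6) (j := 0) (by omega) (by omega)
      have e3 : (pt s.stE.r2 6 0).facet = (pt s.stE 0 6).facet :=
        ptF_r2 s.stE (i := 0) (j := 6) (by omega) (by omega)
      rw [e3] at e2
      rw [e2]
      unfold sE
      rw [if_neg (by exact hk1), if_neg (by omega), if_pos rfl, if_pos rfl, decide_eq_true_eq,
        FSt.r2_rR]
      exact hx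
  · have e0 : C.canF (pt s 6 6).facet = (pt s 6 6).rR := canP_rR ha (by omega) (by omega)
    have e1 : C.canF (pt s.stE 0 6).facet = (pt s.stE 0 6).rR := canP_rR hb (by omega) (by omega)
    refine inv_N hφ c0 c1 ?_ ?_
    · rw [e0, e1, ← hE, rR_stN]
    · have e2 := lnF_pt (C := C) (s := s.rR) ha (i := 0) (j := 6) (by omega) (by omega)
      have e3 : (pt s.rR 0 6).facet = (pt s 6 6).facet :=
        ptF_rR s (i := 6) (j := 6) (by omega) (by omega)
      rw [e3] at e2
      rw [e2]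
      unfold sN
      rw [if_neg (by exact hk), if_neg (by omega), if_pos rfl, if_pos rfl, FSt.rR_rL,
        if_pos ⟨hv, he⟩]
      exact C.nu_ne h0 hv he (Or.inl ha)
  · have e0 : C.canF (pt s 6 6).facet = (pt s 6 6).rL := canP_rL ha (by omega) (by omega)
    have e1 : C.canF (pt s.stE 0 6).facet = (pt s.stE 0 6).rL := canP_rL hb (by omega) (by omega)
    symm
    refine inv_N hφ c1 c0 ?_ ?_
    · rw [e0, e1, ← hE, stE_rL_stN]
    · have e2 := lnF_pt (C := C) (s := s.stE.rL) hb (i := 6) (j := 6) (by omega) (by omega)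
      have e3 : (pt s.stE.rL 6 6).facet = (pt s.stE 0 6).facet :=
        ptF_rL s.stE (i := 0) (j := 6) (by omega) (by omega)
      rw [e3] at e2
      rw [e2]
      unfold sN
      rw [if_neg (by exact hk1), if_pos rfl, if_pos rfl, FSt.rL_rL, stE_r2_stE, FSt.r2_r2,
        if_pos hx]
      exact C.nu_ne h0 hv he (Or.inr ha)

/-- the values at the corners -/
lemma inv_cv : C.Inv (fun s => φ (pt s 6 6).facet) where
  x := fun s h0 h1 hv he => by
    have h := cross hφ h0 h1 hv he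
    have e : (pt s.stE.rL 6 6).facet = (pt s.stE 0 6).facet :=
      ptF_rL s.stE (i := 0) (j := 6) (by omega) (by omega)
    show φ (pt s 6 6).facet ↔ φ (pt s.stE.rL 6 6).facet
    rw [e]; exact h
  e := fun s h0 hk he => by
    have h := along hφ h0 hk he (j := 0) (by omega)
    have e : (pt s.rR 6 6).facet = (pt s 6 0).facet := by
      have := ptF_rR s (i := 6) (j := 0) (by omega) (by omega)
      exact this
    show φ (pt s 6 6).facet ↔ φ (pt s.rR 6 6).facet
    rw [e]; exact h.symm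
  cl := fun a b ha hab hS hE => by
    have hb : C.Rim b := Core1.Rim.same _ ha hab
    have ra : C.toRows7.Rim (pt a 0 0) := C.toCore1.rim_pt.2 ha
    have rb : C.toRows7.Rim (pt b 6 0) := C.toCore1.rim_pt.2 hb
    have e : (pt (pN.symm a).rL 6 6).facet = (pt (pN.symm a) 0 6).facet :=
      ptF_rL _ (i := 0) (j := 6) (by omega) (by omega)
    show φ (pt (pN.symm a).rL 6 6).facet ↔ φ (pt (pN.symm b) 6 6).facet
    rw [e]
    have e1 : Rows7.jf (pt a 0 0) = (pt (pN.symm a) 0 6).facet := jf_pt a 0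
    have e2 : Rows7.jf (pt b 6 0) = (pt (pN.symm b) 6 6).facet := jf_pt b 6
    rw [← e1, ← e2]
    have lb1 := lin_cyc ha hab
    have lb2 := lout_cyc ha hab
    by_cases ht : C.tr a
    · by_cases hs : s1 (C.lin a) (C.lout a) = true
      · refine hφ.tree (pt a 0 0) (pt b 6 0) ra ?_ (cyc_pt.2 hab) ?_ ?_
        · show C.trF _
          unfold trF; rw [cs_pt]; exact ht
        · show C.g1F _
          unfold g1F; rw [cs_pt, if_pos hs, sF_pt (by omega)]; exact ⟨rfl, hS⟩
        · show C.g2F _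
          unfold g2F; rw [cs_pt, lb1, lb2, if_pos hs, nF_pt (by omega)]; exact ⟨rfl, hE⟩
      · symm
        refine hφ.tree (pt b 6 0) (pt a 0 0) rb ?_ (cyc_pt.2 hab.symm) ?_ ?_
        · show C.trF _
          unfold trF; rw [cs_pt]; exact (tr_cyc ha hab).2 ht
        · show C.g1F _
          unfold g1F; rw [cs_pt, lb1, lb2, if_neg hs, nF_pt (by omega)]; exact ⟨rfl, hE⟩
        · show C.g2F _
          unfold g2F; rw [cs_pt, if_neg hs, sF_pt (by omega)]; exact ⟨rfl, hS⟩
    · obtain ⟨l1, l2⟩ := C.cut_lab a ha ht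
      have htb : ¬ C.tr b := fun h => ht ((tr_cyc ha hab).1 h)
      have hac : C.ac a := C.st_ac a ha hS
      obtain ⟨a0, -, hu⟩ := C.st_ex a ha hac
      have e3 : b.stE = a := by
        rw [hu a ⟨Equiv.Perm.SameCycle.refl _ _, hS⟩]
        refine hu _ ⟨hab.trans ⟨1, by simp [pE]⟩, C.cut_arc b hb htb hE⟩
      have e4 : (pt b 6 0).stE = pt a 0 0 := by rw [pt_stE6, e3]
      have h := hφ.cut (pt b 6 0) rb (by show ¬ C.trF _; unfold trF; rw [cs_pt]; exact htb) (by
        show C.g1F _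
        rw [e4]
        unfold g1F
        rw [cs_pt, l1, l2, if_pos (show s1 Ln.n Ln.s = true from rfl), sF_pt (by omega)]
        exact ⟨rfl, hS⟩)
      rw [e4] at h
      exact h

/-- a part with a strand is linked to a corner in `D` -/
lemma to_corner {s : P.FSt} (h0 : ¬ C.core s.facet) {i j : ℕ} (hi : i ≤ 6) (hj : j ≤ 6)
    (h : C.sW s i j = true ∨ C.sE s i j = true ∨ C.sS s i j ≠ Ln.z ∨ C.sN s i j ≠ Ln.z) :
    ¬ C.kf s.facet ∧ ∃ u : P.FSt, u.facet = s.facet ∧ C.kv u ∧
      (φ (pt s i j).facet ↔ φ (pt u 6 6).facet) := by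
  classical
  have hk : ¬ C.kf s.facet := by
    intro hk
    rw [C.sW_eq s hi hj, C.sS_eq s hi hj] at h
    unfold sE sN at h
    simp [hk] at h
  refine ⟨hk, ?_⟩
  rw [C.sW_eq s hi hj, C.sS_eq s hi hj] at h
  unfold sE sN at h
  simp only [hk, if_false] at h
  -- the four sides
  have sideE : C.ke s → i = 6 → ∃ u : P.FSt, u.facet = s.facet ∧ C.kv u ∧
      (φ (pt s i j).facet ↔ φ (pt u 6 6).facet) := by
    rintro he rfl
    exact ⟨s, rfl, (C.ke_kv s h0 he).1, along hφ h0 hk he hj⟩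
  have sideN : C.ke s.rL → j = 6 → ∃ u : P.FSt, u.facet = s.facet ∧ C.kv u ∧
      (φ (pt s i j).facet ↔ φ (pt u 6 6).facet) := by
    rintro he rfl
    refine ⟨s.rL, rfl, (C.ke_kv s.rL h0 he).1, ?_⟩
    rw [← ptF_rL s hi (by omega : 6 ≤ 6)]
    exact along hφ (s := s.rL) h0 hk he (by omega)
  have sideW : C.ke s.r2 → i = 0 → ∃ u : P.FSt, u.facet = s.facet ∧ C.kv u ∧
      (φ (pt s i j).facet ↔ φ (pt u 6 6).facet) := by
    rintro he rfl
    refine ⟨s.r2, rfl, (C.ke_kv s.r2 h0 he).1, ?_⟩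
    rw [← ptF_r2 s (by omega : 0 ≤ 6) hj]
    exact along hφ (s := s.r2) h0 hk he (by omega)
  have sideS : C.ke s.rR → j = 0 → ∃ u : P.FSt, u.facet = s.facet ∧ C.kv u ∧
      (φ (pt s i j).facet ↔ φ (pt u 6 6).facet) := by
    rintro he rfl
    refine ⟨s.rR, rfl, (C.ke_kv s.rR h0 he).1, ?_⟩
    rw [← ptF_rR s hi (by omega : 0 ≤ 6)]
    exact along hφ (s := s.rR) h0 hk he hi
  -- the four corners
  have cNE : C.kv s → i = 6 → j = 6 → ∃ u : P.FSt, u.facet = s.facet ∧ C.kv u ∧
      (φ (pt s i j).facet ↔ φ (pt u 6 6).facet) := by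
    rintro hv rfl rfl
    exact ⟨s, rfl, hv, Iff.rfl⟩
  have cNW : C.kv s.rL → i = 0 → j = 6 → ∃ u : P.FSt, u.facet = s.facet ∧ C.kv u ∧
      (φ (pt s i j).facet ↔ φ (pt u 6 6).facet) := by
    rintro hv rfl rfl
    refine ⟨s.rL, rfl, hv, ?_⟩
    rw [← ptF_rL s (by omega : 0 ≤ 6) (by omega : 6 ≤ 6)]
  have cSW : C.kv s.r2 → i = 0 → j = 0 → ∃ u : P.FSt, u.facet = s.facet ∧ C.kv u ∧
      (φ (pt s i j).facet ↔ φ (pt u 6 6).facet) := by
    rintro hv rfl rfl
    refine ⟨s.r2, rfl, hv, ?_⟩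
    rw [← ptF_r2 s (by omega : 0 ≤ 6) (by omega : 0 ≤ 6)]
  have cSE : C.kv s.rR → i = 6 → j = 0 → ∃ u : P.FSt, u.facet = s.facet ∧ C.kv u ∧
      (φ (pt s i j).facet ↔ φ (pt u 6 6).facet) := by
    rintro hv rfl rfl
    refine ⟨s.rR, rfl, hv, ?_⟩
    rw [← ptF_rR s (by omega : 6 ≤ 6) (by omega : 0 ≤ 6)]
  rcases h with h | h | h | h
  · split_ifs at h with a b a b
    · rw [decide_eq_true_eq] at h; exact cSW h.1 b a
    · rw [decide_eq_true_eq] at h; exact sideS h a
    · rw [decide_eq_true_eq] at h; exact cNW h.1 b a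
    · rw [decide_eq_true_eq] at h; exact sideN h (by assumption)
  · split_ifs at h with a b a b
    · rw [decide_eq_true_eq] at h; exact cNE h.1 b a
    · rw [decide_eq_true_eq] at h; exact sideN h a
    · rw [decide_eq_true_eq] at h; exact cSE h.1 b a
    · rw [decide_eq_true_eq] at h; exact sideS h (by assumption)
  · split_ifs at h with a b c a b c
    · exact cSW c.1 a b
    · exact absurd rfl h
    · exact sideW (by assumption) (by assumption)
    · exact absurd rfl h
    · exact cSE (by tauto) (by assumption) (by assumption)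
    · exact absurd rfl h
    · exact sideE (by assumption) (by assumption)
    · exact absurd rfl h
    · exact absurd rfl h
  · split_ifs at h with a b c a b c
    · exact cNE c.1 a b
    · exact absurd rfl h
    · exact sideE (by assumption) (by assumption)
    · exact absurd rfl h
    · exact cNW (by tauto) (by assumption) (by assumption)
    · exact absurd rfl h
    · exact sideW (by assumption) (by assumption)
    · exact absurd rfl h
    · exact absurd rfl h

omit hφ in
/-- **Connectivity.** -/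
theorem Conn.toQX0 (h : C.Conn) : C.toQX0.Conn := by
  intro φ hφ
  obtain ⟨Q, hQ, hv⟩ := h _ (inv_cv hφ)
  refine ⟨fun F => Q (cf F), C.toCore1.QJ_cf hQ, fun F h0 hOn => ?_⟩
  have h0' : ¬ C.core (cf F) := C.toCore1.toRows7_rw.1 h0
  obtain ⟨s, i, j, hs, hi, hj, -, rfl, h5⟩ := C.ex F
  show φ (pt s i j).facet ↔ Q (cf (pt s i j).facet)
  rw [h5] at h0' ⊢
  have h1 : C.sW s i j = true ∨ C.sE s i j = true ∨ C.sS s i j ≠ Ln.z ∨ C.sN s i j ≠ Ln.z := by
    rw [← wF_pt hs hi hj, ← eF_pt hs hi hj, ← lsF_pt hs hi hj, ← lnF_pt hs hi hj]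
    exact hOn
  obtain ⟨hk, u, hu, hkv, hφu⟩ := to_corner hφ h0' hi hj h1
  rw [hφu, ← hu]
  exact hv u (by rw [hu]; exact h0') (by rw [hu]; exact hk) hkv

end KC0

end Pool.Agent.MP42K
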