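import Pool.Agent.MP42.K.Loc

/-!
# `KC0`: the data of `QX` on the refinement by 7, and the gluing
-/

set_option autoImplicit false
set_option linter.unusedSectionVars false

namespace Pool.Agent.MP42K

open Pool.Agent.Helper55.UNF Pool.Agent.Helper55.UNF.GridSolid Pool.Agent.MP42G
open Pool.Agent.MP42H Pool.Agent.MP42X Pool.Agent.MP42R

variable {P : GridSolid}

namespace KC0

variable (C : KC0 P)

noncomputable def wF (F : (P.refine 7 h7).Facet) : Bool :=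
  C.sW (C.can (cf F)) (px (C.can (cf F)) F) (py (C.can (cf F)) F)

noncomputable def eF (F : (P.refine 7 h7).Facet) : Bool :=
  C.sE (C.can (cf F)) (px (C.can (cf F)) F) (py (C.can (cf F)) F)

noncomputable def lsF (F : (P.refine 7 h7).Facet) : Ln :=
  C.sS (C.can (cf F)) (px (C.can (cf F)) F) (py (C.can (cf F)) F)

noncomputable def lnF (F : (P.refine 7 h7).Facet) : Ln :=
  C.sN (C.can (cf F)) (px (C.can (cf F)) F) (py (C.can (cf F)) F)

noncomputable def cF (F : (P.refine 7 h7).Facet) : Bool :=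
  decide (px (C.can (cf F)) F = 6)

/-- the frames -/
noncomputable def canF : (P.refine 7 h7).Facet → (P.refine 7 h7).FSt := canP C.can

lemma canF_facet (F : (P.refine 7 h7).Facet) : (C.canF F).facet = F := canP_facet C.can_facet F

section pt

variable {C} {s : P.FSt} (h : C.can s.facet = s) {i j : ℕ} (hi : i ≤ 6) (hj : j ≤ 6)

include h hi hj

lemma wF_pt : C.wF (pt s i j).facet = C.sW s i j := by
  unfold wF; rw [cf_pt, h, px_pt s j hi, py_pt s i hj]

lemma eF_pt : C.eF (pt s i j).facet = C.sE s i j := by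
  unfold eF; rw [cf_pt, h, px_pt s j hi, py_pt s i hj]

lemma lsF_pt : C.lsF (pt s i j).facet = C.sS s i j := by
  unfold lsF; rw [cf_pt, h, px_pt s j hi, py_pt s i hj]

lemma lnF_pt : C.lnF (pt s i j).facet = C.sN s i j := by
  unfold lnF; rw [cf_pt, h, px_pt s j hi, py_pt s i hj]

lemma canF_pt : C.canF (pt s i j).facet = pt s i j := canP_pt h hi hj

end pt

lemma cF_pt {C : KC0 P} {s : P.FSt} (h : C.can s.facet = s) {i : ℕ} (j : ℕ) (hi : i ≤ 6) :
    C.cF (pt s i j).facet = decide (i = 6) := by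
  unfold cF; rw [cf_pt, h, px_pt s j hi]

/-- every facet of the refinement, in the frame `can` -/
lemma ex (F : (P.refine 7 h7).Facet) : ∃ (s : P.FSt) (i j : ℕ), C.can s.facet = s ∧ i ≤ 6 ∧
    j ≤ 6 ∧ C.canF F = pt s i j ∧ F = (pt s i j).facet ∧ cf F = s.facet :=
  exists_canP C.can_facet F

lemma okF {F : (P.refine 7 h7).Facet} (h0 : ¬ C.core (cf F)) :
    ok1 (C.wF F) (C.eF F) (C.lnF F) (C.lsF F) = true := by
  obtain ⟨s, i, j, hs, hi, hj, -, rfl, h5⟩ := C.ex F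
  rw [wF_pt hs hi hj, eF_pt hs hi hj, lnF_pt hs hi hj, lsF_pt hs hi hj]
  rw [h5] at h0
  exact C.okP h0 (Or.inl hs) hi hj

lemma gNF {F G : (P.refine 7 h7).Facet} (c0 : ¬ C.core (cf F)) (c1 : ¬ C.core (cf G))
    (h : (C.canF F).stN = C.canF G) :
    C.lnF F = C.lsF G ∧ (C.lnF F ≠ Ln.z → C.cF F = C.cF G) := by
  obtain ⟨s, i, j, hs, hi, hj, h1, rfl, h5⟩ := C.ex F
  obtain ⟨t, i', j', ht, hi', hj', h1', rfl, h5'⟩ := C.ex G
  rw [h1, h1'] at h
  rw [h5] at c0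
  rw [h5'] at c1
  rw [lnF_pt hs hi hj, lsF_pt ht hi' hj', cF_pt hs j hi, cF_pt ht j' hi']
  by_cases hj6 : j < 6
  · rw [pt_stN s i hj6] at h
    obtain ⟨rfl, rfl, rfl⟩ := pt_inj h hi (by omega) hi' hj'
    exact ⟨C.glN_mid s hi hj6, fun _ => rfl⟩
  · obtain rfl : j = 6 := by omega
    rw [pt_stN6] at h
    obtain ⟨rfl, rfl, rfl⟩ := pt_inj h hi (by omega) hi' hj'
    exact ⟨C.glN_end c0 c1 hi, fun _ => rfl⟩

lemma gNF' {F : (P.refine 7 h7).Facet} (h0 : ¬ C.core (cf F))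
    (h1 : ¬ C.core (cf (C.canF F).stN.facet)) (h : ∀ G, (C.canF F).stN ≠ C.canF G) :
    C.lnF F = Ln.z := by
  obtain ⟨s, i, j, hs, hi, hj, h2, rfl, h5⟩ := C.ex F
  rw [h2] at h h1
  rw [h5] at h0
  rw [lnF_pt hs hi hj]
  by_cases hj6 : j < 6
  · exfalso
    apply h (pt s i (j + 1)).facet
    rw [pt_stN s i hj6, canF_pt hs hi (by omega)]
  · obtain rfl : j = 6 := by omega
    rw [pt_stN6, cf_pt] at h1
    refine C.glN0 h0 h1 hs (fun hc => ?_) hi
    apply h (pt s.stN i 0).facet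
    rw [pt_stN6, canF_pt hc hi (by omega)]

lemma gSF' {G : (P.refine 7 h7).Facet} (h0 : ¬ C.core (cf G))
    (h1 : ¬ C.core (cf (C.canF G).r2.stN.facet)) (h : ∀ F, (C.canF F).stN ≠ C.canF G) :
    C.lsF G = Ln.z := by
  obtain ⟨s, i, j, hs, hi, hj, h2, rfl, h5⟩ := C.ex G
  rw [h2] at h h1
  rw [h5] at h0
  rw [lsF_pt hs hi hj]
  by_cases hj0 : 0 < j
  · exfalso
    obtain ⟨j, rfl⟩ : ∃ j', j = j' + 1 := ⟨j - 1, by omega⟩
    apply h (pt s i j).facet
    rw [canF_pt hs hi (by omega), pt_stN s i (by omega)]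
  · obtain rfl : j = 0 := by omega
    -- the facet in the south
    set t := pN.symm s with ht
    have hts : t.stN = s := pN.apply_symm_apply s
    have e1 : (pt s i 0).r2.stN = (pt t i 6).r2 := by
      rw [← hts, ← pt_stN6]; exact stN_r2_stN _
    have e1' : s.r2.stN = t.r2 := by rw [← hts]; exact stN_r2_stN _
    rw [e1, FSt.facet_r2, cf_pt] at h1
    have e2 : C.sS s i 0 = C.sN s.r2 (6 - i) 6 := rfl
    rw [e2]
    refine C.glN0r (s := s.r2) h0 (by rw [e1']; exact h1) (by rw [FSt.facet_r2, hs, FSt.r2_r2]) (fun hc => ?_)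
      (by omega)
    rw [e1', FSt.facet_r2, FSt.r2_r2] at hc
    apply h (pt t i 6).facet
    rw [canF_pt hc hi (by omega), pt_stN6, hts]

lemma gEF {F G : (P.refine 7 h7).Facet} (c0 : ¬ C.core (cf F)) (c1 : ¬ C.core (cf G))
    (h : (C.canF F).stE = C.canF G) : C.eF F = C.wF G := by
  obtain ⟨s, i, j, hs, hi, hj, h1, rfl, h5⟩ := C.ex F
  obtain ⟨t, i', j', ht, hi', hj', h1', rfl, h5'⟩ := C.ex G
  rw [h1, h1'] at h
  rw [h5] at c0
  rw [h5'] at c1
  rw [eF_pt hs hi hj, wF_pt ht hi' hj']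
  by_cases hi6 : i < 6
  · rw [pt_stE s j hi6] at h
    obtain ⟨rfl, rfl, rfl⟩ := pt_inj h (by omega) hj hi' hj'
    exact C.glE_mid s hi6 hj
  · obtain rfl : i = 6 := by omega
    rw [pt_stE6] at h
    obtain ⟨rfl, rfl, rfl⟩ := pt_inj h (by omega) hj hi' hj'
    exact C.glE_end c0 c1 hj

lemma gErF {F G : (P.refine 7 h7).Facet} (c0 : ¬ C.core (cf F)) (c1 : ¬ C.core (cf G))
    (h : (C.canF F).stE = (C.canF G).r2) : C.eF F = C.eF G := by
  obtain ⟨s, i, j, hs, hi, hj, h1, rfl, h5⟩ := C.ex F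
  obtain ⟨t, i', j', ht, hi', hj', h1', rfl, h5'⟩ := C.ex G
  rw [h1, h1', pt_r2] at h
  rw [h5] at c0
  rw [h5'] at c1
  rw [eF_pt hs hi hj, eF_pt ht hi' hj']
  by_cases hi6 : i < 6
  · exfalso
    rw [pt_stE s j hi6] at h
    obtain ⟨rfl, -, -⟩ := pt_inj h (by omega) hj (by omega) (by omega)
    rw [FSt.facet_r2, ht] at hs
    exact r2_ne t hs.symm
  · obtain rfl : i = 6 := by omega
    rw [pt_stE6] at h
    obtain ⟨e1, e2, e3⟩ := pt_inj h (by omega) hj (by omega) (by omega)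
    rw [C.glE_end c0 (by rw [e1]; exact c1) hj, e1]
    have e4 : C.sW t.r2 0 j = C.sE t.r2.r2 (6 - 0) (6 - j) := rfl
    rw [e4, FSt.r2_r2, e3]
    congr 1 <;> omega

lemma gWrF {F G : (P.refine 7 h7).Facet} (c0 : ¬ C.core (cf F)) (c1 : ¬ C.core (cf G))
    (h : (C.canF F).r2.stE = C.canF G) : C.wF F = C.wF G := by
  obtain ⟨s, i, j, hs, hi, hj, h1, rfl, h5⟩ := C.ex F
  obtain ⟨t, i', j', ht, hi', hj', h1', rfl, h5'⟩ := C.ex G
  rw [h1, h1', pt_r2] at h
  rw [h5] at c0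
  rw [h5'] at c1
  rw [wF_pt hs hi hj, wF_pt ht hi' hj']
  by_cases hi6 : 6 - i < 6
  · exfalso
    rw [pt_stE _ _ hi6] at h
    obtain ⟨rfl, -, -⟩ := pt_inj h (by omega) (by omega) hi' hj'
    rw [FSt.facet_r2, hs] at ht
    exact r2_ne s ht.symm
  · obtain rfl : i = 0 := by omega
    rw [pt_stE6] at h
    obtain ⟨e1, e2, e3⟩ := pt_inj h (by omega) (by omega) (by omega) (by omega)
    have e4 : C.sW s 0 j = C.sE s.r2 6 (6 - j) := rfl
    rw [e4, C.glE_end (s := s.r2) c0 (by rw [e1]; exact c1) (by omega), e1, ← e2, ← e3]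

lemma gEF' {F : (P.refine 7 h7).Facet} (h0 : ¬ C.core (cf F))
    (h1 : ¬ C.core (cf (C.canF F).stE.facet))
    (h : ∀ G, (C.canF F).stE ≠ C.canF G ∧ (C.canF F).stE ≠ (C.canF G).r2) :
    C.eF F = false := by
  obtain ⟨s, i, j, hs, hi, hj, h2, rfl, h5⟩ := C.ex F
  rw [h2] at h h1
  rw [h5] at h0
  rw [eF_pt hs hi hj]
  by_cases hi6 : i < 6
  · exfalso
    apply (h (pt s (i + 1) j).facet).1
    rw [pt_stE s j hi6, canF_pt hs (by omega) hj]
  · obtain rfl : i = 6 := by omega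
    rw [pt_stE6, cf_pt] at h1
    refine C.glE0 h0 h1 (Or.inl hs) (fun hc => ?_) (fun hc => ?_) j
    · apply (h (pt s.stE 0 j).facet).1
      rw [pt_stE6, canF_pt hc (by omega) hj]
    · apply (h (pt s.stE 0 j).facet).2
      rw [pt_stE6]
      have := canP_r2 hc (i := 0) (j := j) (by omega) hj
      unfold canF
      rw [this, FSt.r2_r2]

lemma gWF' {F : (P.refine 7 h7).Facet} (h0 : ¬ C.core (cf F))
    (h1 : ¬ C.core (cf (C.canF F).r2.stE.facet))
    (h : ∀ G, (C.canF F).r2.stE ≠ C.canF G ∧ (C.canF F).r2.stE ≠ (C.canF G).r2) :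
    C.wF F = false := by
  obtain ⟨s, i, j, hs, hi, hj, h2, rfl, h5⟩ := C.ex F
  rw [h2, pt_r2] at h h1
  rw [h5] at h0
  rw [wF_pt hs hi hj]
  by_cases hi6 : 6 - i < 6
  · exfalso
    apply (h (pt s.r2 (6 - i + 1) (6 - j)).facet).2
    rw [pt_stE _ _ hi6]
    have := canP_r2 (can := C.can) (s := s.r2) (by rw [FSt.facet_r2, hs, FSt.r2_r2])
      (i := 6 - i + 1) (j := 6 - j) (by omega) (by omega)
    unfold canF
    rw [this, FSt.r2_r2]
  · obtain rfl : i = 0 := by omega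
    rw [pt_stE6, cf_pt] at h1
    have e4 : C.sW s 0 j = C.sE s.r2 6 (6 - j) := rfl
    rw [e4]
    refine C.glE0 (s := s.r2) h0 h1 (Or.inr (by rw [FSt.facet_r2, hs, FSt.r2_r2])) (fun hc => ?_)
      (fun hc => ?_) _
    · apply (h (pt s.r2.stE 0 (6 - j)).facet).1
      rw [pt_stE6, canF_pt hc (by omega) (by omega)]
    · apply (h (pt s.r2.stE 0 (6 - j)).facet).2
      rw [pt_stE6]
      have := canP_r2 hc (i := 0) (j := 6 - j) (by omega) (by omega)
      unfold canF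
      rw [this, FSt.r2_r2]

end KC0

end Pool.Agent.MP42K
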