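import Pool.Agent.MP42.K.Ex

/-!
# `KC0`: coverage
-/

set_option autoImplicit false
set_option linter.unusedSectionVars false

namespace Pool.Agent.MP42K

open Pool.Agent.Helper55.UNF Pool.Agent.Helper55.UNF.GridSolid Pool.Agent.MP42G
open Pool.Agent.MP42H Pool.Agent.MP42X Pool.Agent.MP42R

variable {P : GridSolid}

lemma pNz_pt (s : P.FSt) {i j0 j1 : ℕ} (hi : i ≤ 6) (h0 : j0 ≤ 6) (h1 : j1 ≤ 6) (q : ℤ) :
    (pN ^ (7 * q + j1 - j0 : ℤ)) (pt s i j0) = pt ((pN ^ q) s) i j1 := by
  rw [pt_sub s (by omega) (by omega), pt_sub _ (by omega) (by omega)]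
  have e0 := subZ_eq h7 s (x := i) (y := j0) (by omega) (by omega) 0
  have e1 := subZ_eq h7 s (x := i) (y := j1) (by omega) (by omega) q
  simp only [mul_zero, zero_add, zpow_zero, Equiv.Perm.coe_one, id_eq] at e0
  rw [← e0, subZ_pow, ← e1]
  congr 1
  push_cast
  ring

/-- a step between `0` and the end, in the parts -/
lemma pNy_pt (s : P.FSt) {i j0 : ℕ} (hi : i ≤ 6) (h0 : j0 ≤ 6) (y : ℤ) :
    ∃ (q : ℤ) (j : ℕ), j ≤ 6 ∧ y + j0 = 7 * q + j ∧
      (pN ^ y) (pt s i j0) = pt ((pN ^ q) s) i j := by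
  refine ⟨(y + j0) / 7, ((y + j0) % 7).toNat, by omega, by omega, ?_⟩
  have h := pNz_pt s hi h0 (j1 := ((y + j0) % 7).toNat) (by omega) ((y + j0) / 7)
  rw [← h]
  congr 2
  omega

lemma vj_flip {i : ℕ} (hi : i ≤ 6) (j : VL) : vj (6 - i) j.flip = (vj i j).flip := by
  unfold vj
  by_cases h0 : i = 0
  · subst h0
    cases j <;> simp [VL.flip]
  · by_cases h6 : i = 6
    · subst h6
      cases j <;> simp [VL.flip]
    · have e1 : ¬ 6 - i = 0 := by omega
      have e2 : ¬ 6 - i = 6 := by omega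
      simp [h0, h6, e1, e2, VL.flip]

namespace KC0

variable {C : KC0 P}

/-- a line that is hit in the facet `t.facet` is hit in one of its parts -/
lemma hit_of_khit {t : P.FSt} (hk : ¬ C.kf t.facet) {i : ℕ} (hi : i ≤ 6) {j : VL}
    (h : khit C.kv C.ke t (vj i j)) :
    ∃ j1 ≤ 6, hit (C.sW t i j1) (C.sE t i j1) (decide (i = 6)) j = true := by
  classical
  by_cases hW : i = 0 ∧ j = VL.W
  · obtain ⟨rfl, rfl⟩ := hW
    have h1 : (C.kv t.rL ∨ C.kv t.r2) ∧ ¬ C.ke t.r2 := h
    rcases h1 with ⟨h1 | h1, h2⟩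
    · refine ⟨6, le_rfl, ?_⟩
      show C.sW t 0 6 = true
      rw [C.sW_eq t (by omega) (by omega)]
      simp [hk, h1, h2]
    · refine ⟨0, by omega, ?_⟩
      show C.sW t 0 0 = true
      rw [C.sW_eq t (by omega) (by omega)]
      simp [hk, h1, h2]
  · by_cases hE : i = 6 ∧ j = VL.E
    · obtain ⟨rfl, rfl⟩ := hE
      have h1 : (C.kv t ∨ C.kv t.rR) ∧ ¬ C.ke t := h
      rcases h1 with ⟨h1 | h1, h2⟩
      · refine ⟨6, le_rfl, ?_⟩
        show C.sE t 6 6 = true
        unfold sE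
        simp [hk, h1, h2]
      · refine ⟨0, by omega, ?_⟩
        show C.sE t 6 0 = true
        unfold sE
        simp [hk, h1, h2]
    · have e : vj i j = VL.M := by unfold vj; rw [if_neg hW, if_neg hE]
      rw [e] at h
      have key : ∀ j1, (j1 = 6 ∧ C.ke t.rL) ∨ (j1 = 0 ∧ C.ke t.rR) →
          (i ≠ 0 → C.sW t i j1 = true) ∧ (i ≠ 6 → C.sE t i j1 = true) := by
        rintro j1 (⟨rfl, h1⟩ | ⟨rfl, h1⟩)
        · refine ⟨fun h2 => ?_, fun h2 => ?_⟩
          · rw [C.sW_eq t hi (by omega)]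
            simp [hk, h1, h2]
          · unfold sE
            simp [hk, h1, h2]
        · refine ⟨fun h2 => ?_, fun h2 => ?_⟩
          · rw [C.sW_eq t hi (by omega)]
            simp [hk, h1, h2]
          · unfold sE
            simp [hk, h1, h2]
      have fin : ∀ j1, (i ≠ 0 → C.sW t i j1 = true) ∧ (i ≠ 6 → C.sE t i j1 = true) →
          hit (C.sW t i j1) (C.sE t i j1) (decide (i = 6)) j = true := by
        rintro j1 ⟨a, b⟩
        by_cases i0 : i = 0
        · subst i0
          have b' := b (by omega)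
          cases j
          · exact absurd ⟨rfl, rfl⟩ hW
          · simp [hit, b']
          · exact b'
        · by_cases i6 : i = 6
          · subst i6
            have a' := a (by omega)
            cases j
            · exact a'
            · simp [hit, a']
            · exact absurd ⟨rfl, rfl⟩ hE
          · have a' := a i0
            have b' := b i6
            cases j
            · exact a'
            · simp [hit, b', i6]
            · exact b'
      have h' : C.ke t.rL ∨ C.ke t.rR := h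
      rcases h' with h | h
      · exact ⟨6, le_rfl, fin 6 (key 6 (Or.inl ⟨rfl, h⟩))⟩
      · exact ⟨0, by omega, fin 0 (key 0 (Or.inr ⟨rfl, h⟩))⟩

/-- the third possibility of `QX.cov` from a lit line -/
lemma lit_cov {r : P.FSt} (hr : C.Rim r) {i : ℕ} (hi : i ≤ 6) {j : VL}
    (h : LitK C.kv C.ke C.tr C.lin C.lout r (vj i j)) :
    (Lit C.trF C.ngF C.z1F C.z2F (shf C.z1F C.ngF C.g1F) (shf C.z2F C.ngF C.g2F) (pt r i 0) ∨
       (C.trF (pt r i 0) ∧ ((C.g1F (pt r i 0) ∧ C.z1F (pt r i 0) = false) ∨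
          (C.g2F (pt r i 0) ∧ C.z2F (pt r i 0) = false)) ∧
        (if C.ngF (pt r i 0) = true then
          hit true false (wcQ C.canF C.cF (pN.symm (pt r i 0))) j = true
         else hit false true (wcQ C.canF C.cF (pN.symm (pt r i 0))) j = true))) := by
  rcases lit_of_K hr hi h with h1 | ⟨h1, h2, h3⟩
  · exact Or.inl h1
  · right
    refine ⟨by unfold trF; rw [cs_pt]; exact h1, (nz_iff hr h1 hi 0).2 h2, ?_⟩
    have hc : C.can (pN.symm r).facet = pN.symm r ∨ C.can (pN.symm r).facet = (pN.symm r).r2 := by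
      rcases h2 with ⟨-, h4, h5⟩ | ⟨-, h4, h5⟩
      · exact (st_straight hr h4 h5).1
      · exact (en_straight hr h4 h5).1
    have hi' : i = 0 ∨ i = 6 := by
      rcases h2 with h2 | h2
      · exact Or.inl h2.1
      · exact Or.inr h2.1
    rw [pNs_pt0, C.wc_pt _ hi' (by omega) hc]
    unfold ngF
    rw [cs_pt]
    exact h3

/-- **Coverage.** -/
lemma covF (F : (P.refine 7 h7).Facet) (h0 : ¬ C.core (cf F)) (hL : ¬ C.Le (cf F)) (j : VL) :
    ∃ z : ℤ,
    (∀ y ∈ Set.uIcc 0 z, y ≠ z → ∃ G, ¬ C.core (cf G) ∧ ¬ C.Le (cf G) ∧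
      (pN ^ y) (C.canF F) = C.canF G) ∧
    ((∃ G, ¬ C.core (cf G) ∧ (pN ^ z) (C.canF F) = C.canF G ∧
        hit (C.wF G) (C.eF G) (C.cF G) j = true) ∨
     (∃ r j', ((0 < z ∧ (pN ^ z) (C.canF F) = r ∧ j' = j) ∨
        (z < 0 ∧ (pN ^ z) (C.canF F) = r.r2 ∧ j' = j.flip)) ∧ C.toRows7.Rim r ∧
      (Lit C.trF C.ngF C.z1F C.z2F (shf C.z1F C.ngF C.g1F) (shf C.z2F C.ngF C.g2F) r ∨
       (C.trF r ∧ ((C.g1F r ∧ C.z1F r = false) ∨ (C.g2F r ∧ C.z2F r = false)) ∧
        (if C.ngF r = true then hit true false (wcQ C.canF C.cF (pN.symm r)) j' = true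
         else hit false true (wcQ C.canF C.cF (pN.symm r)) j' = true))))) := by
  obtain ⟨s, i, j0, hs, hi, hj, hcan, rfl, hcf⟩ := C.ex F
  rw [hcf] at h0 hL
  rw [hcan]
  obtain ⟨z, hp, h⟩ := C.cov s.facet h0 hL (vj i j)
  rw [hs] at hp h
  -- the parts of a facet on the path
  have step : ∀ (y q : ℤ) (j1 : ℕ), j1 ≤ 6 → (pN ^ y) (pt s i j0) = pt ((pN ^ q) s) i j1 →
      (∃ g, ¬ C.core g ∧ ¬ C.Le g ∧ (pN ^ q) s = C.can g) →
      ∃ G, ¬ C.core (cf G) ∧ ¬ C.Le (cf G) ∧ (pN ^ y) (pt s i j0) = C.canF G := by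
    rintro y q j1 hj1 hy ⟨g, hg1, hg3, hg2⟩
    refine ⟨(pt (C.can g) i j1).facet, by rw [cf_pt, C.can_facet]; exact hg1,
      by rw [cf_pt, C.can_facet]; exact hg3, ?_⟩
    rw [hy, hg2, canF_pt (by rw [C.can_facet]) hi hj1]
  rcases h with ⟨g, hg1, hg2, hg3, hg4⟩ | ⟨r, j', hz, hr, hl⟩
  · -- hit in the facet `g`
    obtain ⟨j1, hj1, hh⟩ := hit_of_khit (t := C.can g) (by rw [C.can_facet]; exact hg2) hi hg4
    refine ⟨7 * z + j1 - j0, ?_, Or.inl ⟨(pt (C.can g) i j1).facet,
      by rw [cf_pt, C.can_facet]; exact hg1, ?_, ?_⟩⟩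
    · intro y hy hyz
      obtain ⟨q, jq, hjq, e, hq⟩ := pNy_pt s hi hj y
      refine step y q jq hjq hq ?_
      by_cases hqz : q = z
      · subst hqz
        refine ⟨g, hg1, fun hLg => ?_, hg3⟩
        exact hg2 (by
          have hk : ∀ t : P.FSt, t.facet = g → ¬ C.kf g → ¬ C.kv t := fun t ht hkf => by
            rcases C.Le_no t (by rw [ht]; exact hLg) with h | h
            · rw [ht] at h; exact absurd h hkf
            · exact h
          by_contra hkf
          have hf : (C.can g).facet = g := C.can_facet g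
          have n1 := hk (C.can g) hf hkf
          have n2 := hk (C.can g).rL (by rw [FSt.facet_rL]; exact hf) hkf
          have n3 := hk (C.can g).r2 (by rw [FSt.facet_r2]; exact hf) hkf
          have n4 := hk (C.can g).rR (by rw [FSt.facet_rR]; exact hf) hkf
          unfold khit at hg4
          cases hv : vj i j <;> rw [hv] at hg4
          · exact hg4.1.elim n2 n3
          · have hc : ¬ C.core (C.can g).facet := by rw [hf]; exact hg1
            exact hg4.elim (fun h => n1 (C.keN_NE hc h)) (fun h => n4 (C.keS_SE hc h))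
          · exact hg4.1.elim n1 n4)
      · refine hp q ?_ hqz
        rw [Set.mem_uIcc] at hy ⊢
        omega
    · rw [pNz_pt s hi hj hj1, hg3, canF_pt (by rw [C.can_facet]) hi hj1]
    · rw [wF_pt (by rw [C.can_facet]) hi hj1, eF_pt (by rw [C.can_facet]) hi hj1,
        cF_pt (by rw [C.can_facet]) j1 hi]
      exact hh
  · rcases hz with ⟨hz, he, rfl⟩ | ⟨hz, he, rfl⟩
    · refine ⟨7 * z - j0, ?_, Or.inr ⟨pt r i 0, j, Or.inl ⟨by omega, ?_, rfl⟩,
        (C.toCore1.rim_pt).2 hr, lit_cov hr hi hl⟩⟩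
      · intro y hy hyz
        obtain ⟨q, jq, hjq, e, hq⟩ := pNy_pt s hi hj y
        refine step y q jq hjq hq (hp q ?_ ?_)
        · rw [Set.mem_uIcc] at hy ⊢
          omega
        · rw [Set.mem_uIcc] at hy
          omega
      · have h1 := pNz_pt s hi hj (j1 := 0) (by omega) z
        rw [he] at h1
        rw [← h1]
        congr 2
        push_cast; ring
    · refine ⟨7 * z + 6 - j0, ?_, Or.inr ⟨pt r (6 - i) 0, j.flip, Or.inr ⟨by omega, ?_, rfl⟩,
        (C.toCore1.rim_pt).2 hr, lit_cov hr (by omega) (by rw [vj_flip hi]; exact hl)⟩⟩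
      · intro y hy hyz
        obtain ⟨q, jq, hjq, e, hq⟩ := pNy_pt s hi hj y
        refine step y q jq hjq hq (hp q ?_ ?_)
        · rw [Set.mem_uIcc] at hy ⊢
          omega
        · rw [Set.mem_uIcc] at hy
          omega
      · have h1 := pNz_pt s hi hj (j1 := 6) (by omega) z
        rw [he] at h1
        rw [pt_r2]
        have e1 : 6 - (6 - i) = i := by omega
        rw [e1]
        exact_mod_cast h1

end KC0

end Pool.Agent.MP42K
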