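import Pool.Agent.MP42.H.Sup

/-!
# Leaning facets: definitions

The lines of a leaning facet `f` are not hit.  The facet keeps the place at the distance `n` to the
north of a facet `g` that is crossed straight by the curve (`(pN ^ n) g = f`; the frames of the
facets in between are arbitrary), and it is attached to its neighbour in the east (`E = true`) or
in the west, whose place is at the distance `n` of the neighbour of `g`.

* `Pl n g`: the place of the leaning facet `(pN ^ n) g` is at the distance `n` of `g`;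
* `K E s`: the column of `s` on the side away from `E` hangs on its southern neighbour.
-/

set_option autoImplicit false
set_option linter.unusedSectionVars false

namespace Pool.Agent.MP42K

open Pool.Agent.Helper55.UNF Pool.Agent.Helper55.UNF.GridSolid
open Pool.Agent.MP42H

variable {P : GridSolid}

open Classical in
/-- A strand crosses the east side (`E = true`) or the west side of the state. -/
noncomputable def sdQ (can : P.Facet → P.FSt) (w e : P.Facet → Bool) (E : Bool) (s : P.FSt) :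
    Bool :=
  if can s.facet = s then (if E then e s.facet else w s.facet)
  else if can s.facet = s.r2 then (if E then w s.facet else e s.facet) else false

/-- Support of a leaning facet, tables with at most one strand in every facet (`J`: the facets of
the junctions). -/
inductive SupQ (can : P.Facet → P.FSt) (w e : P.Facet → Bool) (J L : P.Facet → Prop)
    (Pl : ℕ → P.FSt → Prop) (K : Bool → P.FSt → Prop) (E : Bool) (n : ℕ) : P.FSt → Prop
  | reg (g : P.FSt)
    (h1 : ∀ y ≤ n, Act can ((pN ^ y) g) ∧ J ((pN ^ y) g).facet ∧ ¬ L ((pN ^ y) g).facet)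
    (h2 : ∀ y ≤ n, 0 < y → sdQ can w e (!E) ((pN ^ y) g) = false ∧ K E ((pN ^ y) g))
    (h3 : w g.facet = true ∧ e g.facet = true) : SupQ can w e J L Pl K E n g
  | lean (g : P.FSt) (h1 : Act can g) (h2 : J g.facet) (h3 : w g.facet = true ∧ e g.facet = true)
    (h4 : L ((pN ^ n) g).facet) (h5 : Pl n g)
    (h6 : ∀ y ≤ n, nbr E ((pN ^ y) g) = (pN ^ y) (nbr E g))
    (h7 : SupQ can w e J L Pl K E n (nbr E g)) : SupQ can w e J L Pl K E n g

/-- the side away from `E` is in `D` -/
def ksd (ke : P.FSt → Prop) (E : Bool) (s : P.FSt) : Prop := if E then ke s.r2 else ke s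

/-- the north corner on the side away from `E` is in `D` -/
def kcN (kv : P.FSt → Prop) (E : Bool) (s : P.FSt) : Prop := if E then kv s.rL else kv s

/-- the south corner on the side away from `E` is in `D` -/
def kcS (kv : P.FSt → Prop) (E : Bool) (s : P.FSt) : Prop := if E then kv s.r2 else kv s.rR

/-- The curve runs straight through the facet `g`, along its south side (`S = true`) or along its
north side. -/
def Str (ke : P.FSt → Prop) (kf : P.Facet → Prop) (S : Bool) (g : P.FSt) : Prop :=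
  (if S then ke g.rR else ke g.rL) ∧ ¬ ke g ∧ ¬ ke g.r2 ∧ ¬ kf g.facet

/-- Support of a leaning facet, boundaries of neighbourhoods (`A s`: the lines of the facet are
parallel to the north of `s`).  The curve runs along the south side (`S = true`) or along the north
side of the facets `g`. -/
inductive SupK (A kv ke : P.FSt → Prop) (kf J L : P.Facet → Prop)
    (Pl : Bool → ℕ → P.FSt → Prop) (K : Bool → P.FSt → Prop) (S E : Bool) (n : ℕ) :
    P.FSt → Prop
  | reg (g : P.FSt)
    (h1 : ∀ y ≤ n, A ((pN ^ y) g) ∧ J ((pN ^ y) g).facet ∧ ¬ L ((pN ^ y) g).facet)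
    (h2 : ∀ y ≤ n, 0 < y → kf ((pN ^ y) g).facet ∨ ksd ke E ((pN ^ y) g) ∨
      (¬ kcN kv E ((pN ^ y) g) ∧ ¬ kcS kv E ((pN ^ y) g)))
    (h3 : if S then ke g.rR ∧ ¬ kcN kv E g else ke g.rL)
    (h4 : ¬ kf g.facet) (h5 : ¬ ksd ke E g)
    (h6 : ∀ y ≤ n, (S = false → 0 < y) → K E ((pN ^ y) g)) :
    SupK A kv ke kf J L Pl K S E n g
  | lean (g : P.FSt) (h1 : A g) (h2 : J g.facet) (h3 : Str ke kf S g)
    (h4 : L ((pN ^ n) g).facet) (h5 : Pl S n g)
    (h6 : ∀ y ≤ n, nbr E ((pN ^ y) g) = (pN ^ y) (nbr E g))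
    (h7 : SupK A kv ke kf J L Pl K S E n (nbr E g)) : SupK A kv ke kf J L Pl K S E n g

/-- Supports only depend on the values on `J`. -/
theorem SupK.mono {A kv ke : P.FSt → Prop} {kf J L : P.Facet → Prop}
    {Pl : Bool → ℕ → P.FSt → Prop} {K : Bool → P.FSt → Prop}
    {A' kv' ke' : P.FSt → Prop} {kf' J' L' : P.Facet → Prop}
    {Pl' : Bool → ℕ → P.FSt → Prop} {K' : Bool → P.FSt → Prop} {S E : Bool} {n : ℕ} {g : P.FSt}
    (h : SupK A kv ke kf J L Pl K S E n g)
    (hA : ∀ s, J s.facet → A s → A' s) (hkv : ∀ s, J s.facet → (kv s ↔ kv' s))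
    (hke : ∀ s, J s.facet → (ke s ↔ ke' s)) (hkf : ∀ f, J f → (kf f ↔ kf' f))
    (hJ : ∀ f, J f → J' f) (hL : ∀ f, J f → ¬ L f → ¬ L' f)
    (hPl : ∀ g, J g.facet → Pl S n g → Pl' S n g ∧ (L ((pN ^ n) g).facet →
      L' ((pN ^ n) g).facet))
    (hK : ∀ s, J s.facet → K E s → K' E s) : SupK A' kv' ke' kf' J' L' Pl' K' S E n g := by
  have hsd : ∀ s : P.FSt, J s.facet → (ksd ke' E s ↔ ksd ke E s) := by
    intro s hs
    cases E
    · exact (hke s hs).symm
    · exact (hke s.r2 hs).symm
  have hcN : ∀ s : P.FSt, J s.facet → (kcN kv' E s ↔ kcN kv E s) := by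
    intro s hs
    cases E
    · exact (hkv s hs).symm
    · exact (hkv s.rL hs).symm
  have hcS : ∀ s : P.FSt, J s.facet → (kcS kv' E s ↔ kcS kv E s) := by
    intro s hs
    cases E
    · exact (hkv s.rR hs).symm
    · exact (hkv s.r2 hs).symm
  induction h with
  | reg g h1 h2 h3 h4 h5 h6 =>
    have hJ0 : J g.facet := by
      have := (h1 0 (Nat.zero_le _)).2.1
      simpa using this
    refine SupK.reg g (fun y hy => ?_) (fun y hy h0 => ?_) ?_ ?_ ?_ (fun y hy h0 => ?_)
    · obtain ⟨a, b, c⟩ := h1 y hy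
      exact ⟨hA _ b a, hJ _ b, hL _ b c⟩
    · obtain ⟨-, b, -⟩ := h1 y hy
      rw [← hkf _ b, hsd _ b, hcN _ b, hcS _ b]
      exact h2 y hy h0
    · cases S
      · exact (hke g.rL hJ0).1 h3
      · exact ⟨(hke g.rR hJ0).1 h3.1, fun hc => h3.2 ((hcN _ hJ0).1 hc)⟩
    · rw [← hkf _ hJ0]; exact h4
    · rw [hsd _ hJ0]; exact h5
    · exact hK _ (h1 y hy).2.1 (h6 y hy h0)
  | lean g h1 h2 h3 h4 h5 h6 h7 ih =>
    obtain ⟨k1, k2, k3, k4⟩ := h3
    obtain ⟨l1, l2⟩ := hPl g h2 h5
    refine SupK.lean g (hA _ h2 h1) (hJ _ h2) ⟨?_, ?_, ?_, ?_⟩ (l2 h4) l1 h6 ih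
    · cases S
      · exact (hke g.rL h2).1 k1
      · exact (hke g.rR h2).1 k1
    · rw [← hke _ h2]; exact k2
    · rw [← hke g.r2 h2]; exact k3
    · rw [← hkf _ h2]; exact k4

end Pool.Agent.MP42K
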