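import Pool.Agent.MP42.K.QDefs
import Pool.Agent.MP42.K.SupDefs

/-!
# The boundary of a neighbourhood: definitions

`KC P`: every core band has ONE row of facets (`core`).  `D` is a subcomplex of the surface
(`kv`: vertices, `ke`: edges, `kf`: facets outside the core); the curve `M` is the boundary of a
small neighbourhood of `D`, drawn outside the core.  It crosses every edge at most twice, next to
its ends that are in `D`, if the edge is not in `D`.

States: the state `s` is the facet `s.facet` with a frame (`N`, `E`, `S`, `W`).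
* `kv s`: the north-east corner of `s` is in `D`; `ke s`: the east side of `s` is in `D`.
* So the north-east, north-west, south-west, south-east corners of `s` are `kv s`, `kv s.rL`,
  `kv s.r2`, `kv s.rR`, and the east, north, west, south sides are `ke s`, `ke s.rL`, `ke s.r2`,
  `ke s.rR`.
* `s.stE.rL`: the next facet around the north-east corner of `s`; `s.stE.r2`: the other side of the
  east side of `s`.

Frames `can`: the lines of a facet run in the directions north, south of `can f`.

Letters: over an edge that is crossed in the direction of the lines there is a letter `n` (the piece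
on the south side of the edge goes to the west, the piece on the north side to the east) or `s`.

Rim states `r`: core facets with a vertical north, `N` points into the band; the junction is in the
south, `pN.symm r` is the facet of the junction at the rim.

`St r`: the rim edge of `r` is not in `D` but its west end is: there the curve goes into the band in
the first column.  `En r`: its east end is in `D`: the curve crosses the rim in the last column.
Every rim that is met by `D` has exactly one `St` and one `En`.  `lin`, `lout`: the labels at `St`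
and `En`: `n` is `+`, `s` is `-`, `z` is `0`.  The gap is the part of the rim from `St` to `En` (the
edges that are not in `D`), the arc is the part of the rim in `D`.

Cut bands (`tr r` false): the arc of a rim with `ac r` is a single vertex, the labels are `n` at
`St` and `s` at `En`: the curve runs once around the band.
-/

set_option autoImplicit false
set_option linter.unusedSectionVars false

namespace Pool.Agent.MP42K

open Pool.Agent.Helper55.UNF Pool.Agent.Helper55.UNF.GridSolid Pool.Agent.MP42G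
open Pool.Agent.MP42H Pool.Agent.MP42X Pool.Agent.MP42R

variable {P : GridSolid}

/-- One row of core facets in every core band. -/
structure Core1 (P : GridSolid) where
  core : P.Facet → Prop
  V : ∀ s : P.FSt, core s.facet → IsV s ∨ IsV s.rL
  E : ∀ s : P.FSt, IsV s → (core s.stE.facet ↔ core s.facet)
  N : ∀ s : P.FSt, IsU s → core s.facet → IsU s.stN ∧ ¬ core s.stN.facet
  S : ∀ s : P.FSt, IsU s.stN → core s.stN.facet → IsU s ∧ ¬ core s.facet
  comm : ∀ s : P.FSt, IsU s → (core s.facet ∨ core s.stN.facet) → s.stE.stN = s.stN.stE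

namespace Core1

variable (R : Core1 P)

/-- rim states: north points into the band -/
def Rim (r : P.FSt) : Prop := IsV r ∧ R.core r.facet

/-- constant on the junctions -/
def QJ (Q : P.Facet → Prop) : Prop :=
  ∀ s : P.FSt, ¬ R.core s.facet → ¬ R.core s.stE.facet → (Q s.facet ↔ Q s.stE.facet)

/-- The bands with `tr` form a spanning tree of the junctions. -/
structure Tree (tr : P.FSt → Prop) : Prop where
  conn : ∀ Q : P.Facet → Prop, R.QJ Q →
    (∀ r, R.Rim r → tr r → (Q (pN.symm r).facet ↔ Q (pN.symm r.r2).facet)) →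
    ∀ f g, ¬ R.core f → ¬ R.core g → (Q f ↔ Q g)
  sep : ∀ r₀, R.Rim r₀ → tr r₀ → ∃ S : P.Facet → Prop, R.QJ S ∧
    (∀ r, R.Rim r → tr r → ¬ pE.SameCycle r₀ r → ¬ pE.SameCycle r₀.r2 r →
      (S (pN.symm r).facet ↔ S (pN.symm r.r2).facet)) ∧
    ¬ (S (pN.symm r₀).facet ↔ S (pN.symm r₀.r2).facet)

end Core1

/-- the curve leaves the rim at the west end of the gap, in the first column of the facet `r` -/
def St (kv ke : P.FSt → Prop) (r : P.FSt) : Prop := kv (pN.symm r).rL ∧ ¬ ke (pN.symm r).rL

/-- the curve leaves the rim at the east end of the gap, in the last column of the facet `r` -/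
def En (kv ke : P.FSt → Prop) (r : P.FSt) : Prop := kv (pN.symm r) ∧ ¬ ke (pN.symm r).rL

/-- the lines of the facet below the rim are parallel to the rim -/
def Turned (can : P.Facet → P.FSt) (r : P.FSt) : Prop :=
  can (pN.symm r).facet = (pN.symm r).rL ∨ can (pN.symm r).facet = (pN.symm r).rR

/-- the lines of the facet `s.facet` with `can s.facet = s` that are crossed by the curve in this
facet -/
def khit (kv ke : P.FSt → Prop) (s : P.FSt) : VL → Prop
  | VL.W => (kv s.rL ∨ kv s.r2) ∧ ¬ ke s.r2
  | VL.E => (kv s ∨ kv s.rR) ∧ ¬ ke s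
  | VL.M => ke s.rL ∨ ke s.rR

/-- the facet that receives the shifted foot of a label `+` or `-` -/
def Land (kv ke : P.FSt → Prop) (lin lout : P.FSt → Ln) (r : P.FSt) : Prop :=
  (En kv ke (pE.symm r) ∧ lout r = Ln.n) ∨ (St kv ke (pE r) ∧ lin r = Ln.s)

/-- The lit lines of the rim facet `r` (in the frame `r`).
* `(+,+)`, `(-,-)`, cut bands: all.
* `lin = +`, `lout = 0`: the gap without the east half of its last facet;
  `lin = 0`, `lout = -`: the gap without the west half of its first facet.
* `lin = 0`, `lout = +`: the arc without the east half of its last facet;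
  `lin = -`, `lout = 0`: the arc without the west half of its first facet; and one half of the
  facet of the foot. -/
def LitK (kv ke tr : P.FSt → Prop) (lin lout : P.FSt → Ln) (r : P.FSt) (j : VL) : Prop :=
  ¬ tr r ∨
  (lin r ≠ Ln.z ∧ lout r ≠ Ln.z) ∨
  (lin r = Ln.n ∧ lout r = Ln.z ∧ ¬ ke (pN.symm r).rL ∧
    (if j = VL.W then ¬ kv (pN.symm r).rL else ¬ kv (pN.symm r))) ∨
  (lin r = Ln.z ∧ lout r = Ln.s ∧ ¬ ke (pN.symm r).rL ∧
    (if j = VL.E then ¬ kv (pN.symm r) else ¬ kv (pN.symm r).rL)) ∨
  (lin r = Ln.z ∧ lout r = Ln.n ∧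
    ((ke (pN.symm r).rL ∧ (j = VL.W ∨ ke (pN.symm r.stE).rL)) ∨ (En kv ke r ∧ j = VL.E))) ∨
  (lin r = Ln.s ∧ lout r = Ln.z ∧
    ((ke (pN.symm r).rL ∧ (j = VL.E ∨ ke (pN.symm (pE.symm r)).rL)) ∨ (St kv ke r ∧ j = VL.W)))

open Classical in
/-- A certificate, one-sided form: `kv s`: the curve passes around the north-east corner of `s`
inside the facet of `s`; `ke s`: it runs along the east side of `s` inside the facet of `s`.  Nothing
is asked about the other side of this side. -/
structure KC0 (P : GridSolid) extends Core1 P where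
  /-- frames; the lines of the facet `f` run in the direction north of `can f` -/
  can : P.Facet → P.FSt
  can_facet : ∀ f, (can f).facet = f
  /-- the curve passes around the north-east corner of the state -/
  kv : P.FSt → Prop
  /-- the curve runs along the east side of the state -/
  ke : P.FSt → Prop
  /-- the facet is in `D` -/
  kf : P.Facet → Prop
  /-- the curve crosses the east side of `s` next to the north-east corner, seen from both sides -/
  kx : ∀ s : P.FSt, ¬ core s.facet → ¬ core s.stE.facet →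
    (kv s ∧ ¬ ke s ↔ kv s.stE.rL ∧ ¬ ke s.stE.r2)
  ke_kv : ∀ s : P.FSt, ¬ core s.facet → ke s → kv s ∧ kv s.rR
  kf_ke : ∀ s : P.FSt, ¬ core s.facet → kf s.facet → ke s
  /-- the frames fit where the curve crosses an edge -/
  cmp : ∀ s : P.FSt, ¬ core s.facet → ¬ core s.stE.facet → kv s → ¬ ke s →
    ((can s.facet = s ∨ can s.facet = s.r2) ∧
      (can s.stE.facet = s.stE ∨ can s.stE.facet = s.stE.r2)) ∨
    (can s.facet = s.rR ∧ can s.stE.facet = s.stE.rR) ∨
    (can s.facet = s.rL ∧ can s.stE.facet = s.stE.rL)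
  /-- the letter of the lane along the east side of `s`, if this side is in `D` and the lines of the
  facet are parallel to it -/
  lam : P.FSt → Ln
  /-- the letter where the curve crosses the east side of `s` next to the north-east corner, if the
  lines of the facet are perpendicular to this side -/
  nu : P.FSt → Ln
  /-- the letters at the north-east corner of `t` -/
  cNE : ∀ t : P.FSt, ¬ core t.facet → ¬ kf t.facet → (can t.facet = t ∨ can t.facet = t.r2) →
    (ke t → ke t.rL → lam t = Ln.s) ∧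
    (ke t → ¬ ke t.rL → nu t.rL.stE.r2 = lam t ∧ lam t ≠ Ln.z) ∧
    (¬ ke t → kv t → ¬ ke t.rL → nu t.rL.stE.r2 = Ln.s)
  /-- the letters at the south-east corner of `t` -/
  cSE : ∀ t : P.FSt, ¬ core t.facet → ¬ kf t.facet → (can t.facet = t ∨ can t.facet = t.r2) →
    (ke t → ke t.rR → lam t = Ln.n) ∧
    (ke t → ¬ ke t.rR → nu t.rR = lam t ∧ lam t ≠ Ln.z) ∧
    (¬ ke t → kv t.rR → ¬ ke t.rR → nu t.rR = Ln.n)
  /-- the tree bands -/
  tr : P.FSt → Prop
  tr_E : ∀ r, toCore1.Rim r → (tr r.stE ↔ tr r)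
  tr_far : ∀ r, toCore1.Rim r → (tr r.r2 ↔ tr r)
  /-- the rims that are met by the curve -/
  ac : P.FSt → Prop
  ac_E : ∀ r, toCore1.Rim r → (ac r.stE ↔ ac r)
  ac_tr : ∀ r, toCore1.Rim r → tr r → ac r
  ac_far : ∀ r, toCore1.Rim r → ac r ∨ ac r.r2
  /-- label at the start of the gap of a rim -/
  lin : P.FSt → Ln
  /-- label at the end of the gap of a rim -/
  lout : P.FSt → Ln
  lin_E : ∀ r, toCore1.Rim r → lin r.stE = lin r
  lout_E : ∀ r, toCore1.Rim r → lout r.stE = lout r
  /-- both rims of a tree band have the same two labels -/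
  lab_far : ∀ r, toCore1.Rim r → tr r →
    (lin r.r2 = lin r ∧ lout r.r2 = lout r) ∨ (lin r.r2 = lout r ∧ lout r.r2 = lin r)
  /-- not `(+,-)`, `(-,+)` -/
  adm : ∀ r, toCore1.Rim r → tr r →
    ¬ (lin r = Ln.n ∧ lout r = Ln.s) ∧ ¬ (lin r = Ln.s ∧ lout r = Ln.n)
  cut_lab : ∀ r, toCore1.Rim r → ¬ tr r → lin r = Ln.n ∧ lout r = Ln.s
  st_ac : ∀ r, toCore1.Rim r → St kv ke r → ac r
  en_ac : ∀ r, toCore1.Rim r → En kv ke r → ac r
  st_ex : ∀ r, toCore1.Rim r → ac r → ∃! a, pE.SameCycle r a ∧ St kv ke a
  en_ex : ∀ r, toCore1.Rim r → ac r → ∃! a, pE.SameCycle r a ∧ En kv ke a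
  /-- two-sided at the rims of tree bands with a label `0` -/
  kv_rim : ∀ r, toCore1.Rim r → tr r → (lin r = Ln.z ∨ lout r = Ln.z) →
    (kv (pN.symm r.stE).rL ↔ kv (pN.symm r))
  /-- the arc of a cut rim is a single vertex -/
  cut_arc : ∀ r, toCore1.Rim r → ¬ tr r → En kv ke r → St kv ke r.stE
  /-- the labels `(0,+)` and `(-,0)`: the arc is not a single vertex -/
  arc : ∀ r, toCore1.Rim r → tr r →
    (lin r = Ln.z ∧ lout r = Ln.n) ∨ (lin r = Ln.s ∧ lout r = Ln.z) →
    En kv ke r → ke (pN.symm r.stE).rL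
  st_lab : ∀ r, toCore1.Rim r → St kv ke r →
    if lin r = Ln.z then Turned can r
    else (can (pN.symm r).facet = pN.symm r ∨ can (pN.symm r).facet = (pN.symm r).r2) ∧
      nu (pN.symm r).rL = lin r
  en_lab : ∀ r, toCore1.Rim r → En kv ke r →
    if lout r = Ln.z then Turned can r
    else (can (pN.symm r).facet = pN.symm r ∨ can (pN.symm r).facet = (pN.symm r).r2) ∧
      nu (pN.symm r).rL.stE.r2 = lout r
  /-- a facet with a turned frame at a rim is completely lit, or it is in a run of facets with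
  turned frames along the rim that ends at a foot with label `0` -/
  tur : ∀ r, toCore1.Rim r → Turned can r →
    (∀ j, LitK kv ke tr lin lout r j) ∨
    (tr r ∧ ∃ z : ℤ, (∀ y ∈ Set.uIcc 0 z, Turned can ((pE ^ y) r) ∧
        ¬ Land kv ke lin lout ((pE ^ y) r)) ∧
      ((St kv ke ((pE ^ z) r) ∧ lin r = Ln.z) ∨ (En kv ke ((pE ^ z) r) ∧ lout r = Ln.z)))
  /-- the leaning facets -/
  Le : P.Facet → Prop
  Le_core : ∀ f, Le f → ¬ core f
  /-- there is no strand in a leaning facet -/
  Le_no : ∀ s : P.FSt, Le s.facet → kf s.facet ∨ ¬ kv s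
  Le_rim : ∀ r, toCore1.Rim r → ¬ Le (pN.symm r).facet
  /-- if there is a leaning facet, there is a corner in `D` between two sides that are not in
  `D` -/
  Le_cut : ∀ f, Le f → ∃ s : P.FSt, ¬ core s.facet ∧ kv s ∧ ¬ ke s ∧ ¬ ke s.rL
  /-- the place of the leaning facet `(pN ^ n) g` is at the distance `n` of `g` -/
  Pl : Bool → ℕ → P.FSt → Prop
  Pl_uniq : ∀ S n g S' n' g', Pl S n g → Pl S' n' g' →
    ((pN ^ n) g).facet = ((pN ^ n') g').facet → Le ((pN ^ n) g).facet → S = S' ∧ n = n' ∧ g = g'
  /-- the column on the side away from `E` hangs on the southern neighbour -/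
  Hg : Bool → P.FSt → Prop
  Hg_nc : ∀ E s, Hg E s → ¬ Hg (!E) s.r2
  lean : ∀ f, Le f → ∃ S E n g, 0 < n ∧ ((pN ^ n) g).facet = f ∧
    SupK (Act can) kv ke kf (fun f => ¬ core f) Le Pl Hg S E n g
  /-- every line of a facet that is not leaning reaches the curve or a lit line of a rim -/
  cov : ∀ f, ¬ core f → ¬ Le f → ∀ j : VL, ∃ z : ℤ,
    (∀ y ∈ Set.uIcc 0 z, y ≠ z → ∃ g, ¬ core g ∧ ¬ Le g ∧ (pN ^ y) (can f) = can g) ∧
    ((∃ g, ¬ core g ∧ ¬ kf g ∧ (pN ^ z) (can f) = can g ∧ khit kv ke (can g) j) ∨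
     (∃ r j', ((0 < z ∧ (pN ^ z) (can f) = r ∧ j' = j) ∨
        (z < 0 ∧ (pN ^ z) (can f) = r.r2 ∧ j' = j.flip)) ∧ toCore1.Rim r ∧
      LitK kv ke tr lin lout r j'))

namespace KC0

variable (C : KC0 P)

/-! ## The strands in the parts of a facet

The facet `t.facet` in the frame `t` is divided into `7 x 7` parts `(i, j)`. -/

open Classical in
/-- the curve crosses the east side of the part `(i, j)`, lines parallel to the north of `t` -/
noncomputable def sE (t : P.FSt) (i j : ℕ) : Bool :=
  if C.kf t.facet then false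
  else if j = 6 then (if i = 6 then decide (C.kv t ∧ ¬ C.ke t) else decide (C.ke t.rL))
  else if j = 0 then (if i = 6 then decide (C.kv t.rR ∧ ¬ C.ke t) else decide (C.ke t.rR))
  else false

open Classical in
/-- the letter over the north side of the part `(i, j)`, lines parallel to the north of `t` -/
noncomputable def sN (t : P.FSt) (i j : ℕ) : Ln :=
  if C.kf t.facet then Ln.z
  else if i = 6 then
    (if j = 6 then (if C.kv t ∧ ¬ C.ke t.rL then C.nu t.rL.stE.r2 else Ln.z)
     else (if C.ke t then C.lam t else Ln.z))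
  else if i = 0 then
    (if j = 6 then (if C.kv t.rL ∧ ¬ C.ke t.rL then C.nu t.rL else Ln.z)
     else (if C.ke t.r2 then C.lam t.r2 else Ln.z))
  else Ln.z

/-- the curve crosses the west side of the part `(i, j)` -/
noncomputable def sW (t : P.FSt) (i j : ℕ) : Bool := C.sE t.r2 (6 - i) (6 - j)

/-- the letter over the south side of the part `(i, j)` -/
noncomputable def sS (t : P.FSt) (i j : ℕ) : Ln := C.sN t.r2 (6 - i) (6 - j)

/-! ## Connectivity -/

/-- `cv s` is the value of the curve at the north-east corner of the facet of `s` -/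
structure Inv (cv : P.FSt → Prop) : Prop where
  /-- across an edge, around a vertex of `D` -/
  x : ∀ s : P.FSt, ¬ C.core s.facet → ¬ C.core s.stE.facet → C.kv s → ¬ C.ke s →
    (cv s ↔ cv s.stE.rL)
  /-- along an edge of `D` -/
  e : ∀ s : P.FSt, ¬ C.core s.facet → ¬ C.kf s.facet → C.ke s → (cv s ↔ cv s.rR)
  /-- the two feet of a rim -/
  cl : ∀ a b, C.Rim a → pE.SameCycle a b → St C.kv C.ke a → En C.kv C.ke b →
    (cv (pN.symm a).rL ↔ cv (pN.symm b))

/-- the closed-up junctions are closed curves -/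
def Conn : Prop := ∀ cv, C.Inv cv → ∃ Q, C.QJ Q ∧
  ∀ s : P.FSt, ¬ C.core s.facet → ¬ C.kf s.facet → C.kv s → (cv s ↔ Q s.facet)

end KC0

open Classical in
/-- A certificate: the curve is the boundary of a neighbourhood of `D`. -/
structure KC (P : GridSolid) extends Core1 P where
  /-- frames; the lines of the facet `f` run in the direction north of `can f` -/
  can : P.Facet → P.FSt
  can_facet : ∀ f, (can f).facet = f
  /-- the north-east corner of the state is in `D` -/
  kv : P.FSt → Prop
  /-- the east side of the state is in `D` -/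
  ke : P.FSt → Prop
  /-- the facet is in `D` -/
  kf : P.Facet → Prop
  kv_rot : ∀ s : P.FSt, kv s.stE.rL ↔ kv s
  ke_rev : ∀ s : P.FSt, ke s.stE.r2 ↔ ke s
  ke_kv : ∀ s : P.FSt, ke s → kv s
  kf_ke : ∀ s : P.FSt, kf s.facet → ke s
  /-- the frames fit where the curve crosses an edge -/
  cmp : ∀ s : P.FSt, ¬ core s.facet → ¬ core s.stE.facet → kv s → ¬ ke s →
    ((can s.facet = s ∨ can s.facet = s.r2) ∧
      (can s.stE.facet = s.stE ∨ can s.stE.facet = s.stE.r2)) ∨
    (can s.facet = s.rR ∧ can s.stE.facet = s.stE.rR) ∨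
    (can s.facet = s.rL ∧ can s.stE.facet = s.stE.rL)
  /-- the letter of the lane along the east side of `s`, if this side is in `D` and the lines of the
  facet are parallel to it -/
  lam : P.FSt → Ln
  /-- the letter where the curve crosses the east side of `s` next to the north-east corner, if the
  lines of the facet are perpendicular to this side -/
  nu : P.FSt → Ln
  /-- the letters at the north-east corner of `t` -/
  cNE : ∀ t : P.FSt, ¬ core t.facet → ¬ kf t.facet → (can t.facet = t ∨ can t.facet = t.r2) →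
    (ke t → ke t.rL → lam t = Ln.s) ∧
    (ke t → ¬ ke t.rL → nu t.rL.stE.r2 = lam t ∧ lam t ≠ Ln.z) ∧
    (¬ ke t → kv t → ¬ ke t.rL → nu t.rL.stE.r2 = Ln.s)
  /-- the letters at the south-east corner of `t` -/
  cSE : ∀ t : P.FSt, ¬ core t.facet → ¬ kf t.facet → (can t.facet = t ∨ can t.facet = t.r2) →
    (ke t → ke t.rR → lam t = Ln.n) ∧
    (ke t → ¬ ke t.rR → nu t.rR = lam t ∧ lam t ≠ Ln.z) ∧
    (¬ ke t → kv t.rR → ¬ ke t.rR → nu t.rR = Ln.n)
  /-- the tree bands -/
  tr : P.FSt → Prop
  tr_E : ∀ r, toCore1.Rim r → (tr r.stE ↔ tr r)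
  tr_far : ∀ r, toCore1.Rim r → (tr r.r2 ↔ tr r)
  /-- the rims that are met by the curve -/
  ac : P.FSt → Prop
  ac_E : ∀ r, toCore1.Rim r → (ac r.stE ↔ ac r)
  ac_tr : ∀ r, toCore1.Rim r → tr r → ac r
  ac_far : ∀ r, toCore1.Rim r → ac r ∨ ac r.r2
  /-- label at the start of the gap of a rim -/
  lin : P.FSt → Ln
  /-- label at the end of the gap of a rim -/
  lout : P.FSt → Ln
  lin_E : ∀ r, toCore1.Rim r → lin r.stE = lin r
  lout_E : ∀ r, toCore1.Rim r → lout r.stE = lout r
  /-- both rims of a tree band have the same two labels -/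
  lab_far : ∀ r, toCore1.Rim r → tr r →
    (lin r.r2 = lin r ∧ lout r.r2 = lout r) ∨ (lin r.r2 = lout r ∧ lout r.r2 = lin r)
  /-- not `(+,-)`, `(-,+)` -/
  adm : ∀ r, toCore1.Rim r → tr r →
    ¬ (lin r = Ln.n ∧ lout r = Ln.s) ∧ ¬ (lin r = Ln.s ∧ lout r = Ln.n)
  cut_lab : ∀ r, toCore1.Rim r → ¬ tr r → lin r = Ln.n ∧ lout r = Ln.s
  st_ac : ∀ r, toCore1.Rim r → St kv ke r → ac r
  en_ac : ∀ r, toCore1.Rim r → En kv ke r → ac r
  st_ex : ∀ r, toCore1.Rim r → ac r → ∃! a, pE.SameCycle r a ∧ St kv ke a
  en_ex : ∀ r, toCore1.Rim r → ac r → ∃! a, pE.SameCycle r a ∧ En kv ke a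
  /-- the arc of a cut rim is a single vertex -/
  cut_arc : ∀ r, toCore1.Rim r → ¬ tr r → En kv ke r → St kv ke r.stE
  /-- the labels `(0,+)` and `(-,0)`: the arc is not a single vertex -/
  arc : ∀ r, toCore1.Rim r → tr r →
    (lin r = Ln.z ∧ lout r = Ln.n) ∨ (lin r = Ln.s ∧ lout r = Ln.z) →
    En kv ke r → ke (pN.symm r.stE).rL
  st_lab : ∀ r, toCore1.Rim r → St kv ke r →
    if lin r = Ln.z then Turned can r
    else (can (pN.symm r).facet = pN.symm r ∨ can (pN.symm r).facet = (pN.symm r).r2) ∧
      nu (pN.symm r).rL = lin r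
  en_lab : ∀ r, toCore1.Rim r → En kv ke r →
    if lout r = Ln.z then Turned can r
    else (can (pN.symm r).facet = pN.symm r ∨ can (pN.symm r).facet = (pN.symm r).r2) ∧
      nu (pN.symm r).rL.stE.r2 = lout r
  /-- a facet with a turned frame at a rim is completely lit, or it is in a run of facets with
  turned frames along the rim that ends at a foot with label `0` -/
  tur : ∀ r, toCore1.Rim r → Turned can r →
    (∀ j, LitK kv ke tr lin lout r j) ∨
    (tr r ∧ ∃ z : ℤ, (∀ y ∈ Set.uIcc 0 z, Turned can ((pE ^ y) r) ∧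
        ¬ Land kv ke lin lout ((pE ^ y) r)) ∧
      ((St kv ke ((pE ^ z) r) ∧ lin r = Ln.z) ∨ (En kv ke ((pE ^ z) r) ∧ lout r = Ln.z)))
  /-- the leaning facets -/
  Le : P.Facet → Prop
  Le_core : ∀ f, Le f → ¬ core f
  /-- there is no strand in a leaning facet -/
  Le_no : ∀ s : P.FSt, Le s.facet → kf s.facet ∨ ¬ kv s
  Le_rim : ∀ r, toCore1.Rim r → ¬ Le (pN.symm r).facet
  /-- if there is a leaning facet, there is a corner in `D` between two sides that are not in
  `D` -/
  Le_cut : ∀ f, Le f → ∃ s : P.FSt, ¬ core s.facet ∧ kv s ∧ ¬ ke s ∧ ¬ ke s.rL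
  /-- the place of the leaning facet `(pN ^ n) g` is at the distance `n` of `g` -/
  Pl : Bool → ℕ → P.FSt → Prop
  Pl_uniq : ∀ S n g S' n' g', Pl S n g → Pl S' n' g' →
    ((pN ^ n) g).facet = ((pN ^ n') g').facet → Le ((pN ^ n) g).facet → S = S' ∧ n = n' ∧ g = g'
  /-- the column on the side away from `E` hangs on the southern neighbour -/
  Hg : Bool → P.FSt → Prop
  Hg_nc : ∀ E s, Hg E s → ¬ Hg (!E) s.r2
  lean : ∀ f, Le f → ∃ S E n g, 0 < n ∧ ((pN ^ n) g).facet = f ∧
    SupK (Act can) kv ke kf (fun f => ¬ core f) Le Pl Hg S E n g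
  /-- every line of a facet that is not leaning reaches the curve or a lit line of a rim -/
  cov : ∀ f, ¬ core f → ¬ Le f → ∀ j : VL, ∃ z : ℤ,
    (∀ y ∈ Set.uIcc 0 z, y ≠ z → ∃ g, ¬ core g ∧ ¬ Le g ∧ (pN ^ y) (can f) = can g) ∧
    ((∃ g, ¬ core g ∧ ¬ kf g ∧ (pN ^ z) (can f) = can g ∧ khit kv ke (can g) j) ∨
     (∃ r j', ((0 < z ∧ (pN ^ z) (can f) = r ∧ j' = j) ∨
        (z < 0 ∧ (pN ^ z) (can f) = r.r2 ∧ j' = j.flip)) ∧ toCore1.Rim r ∧
      LitK kv ke tr lin lout r j'))

namespace KC

variable (C : KC P)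

/-! ## Connectivity -/

/-- `cv s` is the value of the curve at the north-east corner of the facet of `s` -/
structure Inv (cv : P.FSt → Prop) : Prop where
  /-- across an edge, around a vertex of `D` -/
  x : ∀ s : P.FSt, ¬ C.core s.facet → ¬ C.core s.stE.facet → C.kv s → ¬ C.ke s →
    (cv s ↔ cv s.stE.rL)
  /-- along an edge of `D` -/
  e : ∀ s : P.FSt, ¬ C.core s.facet → ¬ C.kf s.facet → C.ke s → (cv s ↔ cv s.rR)
  /-- the two feet of a rim -/
  cl : ∀ a b, C.Rim a → pE.SameCycle a b → St C.kv C.ke a → En C.kv C.ke b →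
    (cv (pN.symm a).rL ↔ cv (pN.symm b))

/-- the closed-up junctions are closed curves -/
def Conn : Prop := ∀ cv, C.Inv cv → ∃ Q, C.QJ Q ∧
  ∀ s : P.FSt, ¬ C.core s.facet → ¬ C.kf s.facet → C.kv s → (cv s ↔ Q s.facet)

end KC

end Pool.Agent.MP42K
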