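import Pool.Agent.MP42.K.QLng
import Pool.Agent.MP42.X.LMain

/-!
# One strand per facet: the reduction theorem with leaning facets
-/

set_option autoImplicit false
set_option linter.unusedSectionVars false

namespace Pool.Agent.MP42K

open Pool.Agent.Helper55.UNF Pool.Agent.Helper55.UNF.GridSolid Pool.Agent.MP42G
open Pool.Agent.MP42H Pool.Agent.MP42X Pool.Agent.MP42R

variable {P : GridSolid}

namespace QXL

variable (C : QXL P)

/-- **The reduction theorem for junctions with at most one strand in every facet and with leaning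
facets.** -/
theorem hasEdgeUnfolding (hne : Nonempty P.Facet) (hT : C.Tree C.tr) (hC : C.Conn)
    (h15 : 0 < 15) : (P.refine 15 h15).HasEdgeUnfolding := by
  have hT' : C.toRXL.toJXL.Tree C.toRXL.toJXL.tr := QR.tree C.can_facet hT
  exact C.toRXL.toJXL.hasEdgeUnfolding hne hT' (C.toQX0.toRX0.conn_of (C.toQX0.conn hC)) h15

end QXL

/-- A certificate of `P.refine r` gives an edge unfolding of `P.refine (r * 15)`. -/
theorem unfolding_of_QXL {P : GridSolid} (hP : P.IsOrthogonalPolyhedron) {r : ℕ} (hr : 0 < r)
    (C : QXL (P.refine r hr)) (hT : C.Tree C.tr) (hC : C.Conn)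
    (hK : 0 < r * 15) : (P.refine (r * 15) hK).HasEdgeUnfolding := by
  have h1 := C.hasEdgeUnfolding (connected_refine hP hr).nonempty hT hC (by norm_num)
  rw [refine_refine] at h1
  exact h1

end Pool.Agent.MP42K
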