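import Pool.Agent.MP42.K.Loc
import Pool.Agent.MP42.K.Rows

/-!
# The one-sided form of a certificate
-/

set_option autoImplicit false
set_option linter.unusedSectionVars false

namespace Pool.Agent.MP42K

open Pool.Agent.Helper55.UNF Pool.Agent.Helper55.UNF.GridSolid Pool.Agent.MP42G
open Pool.Agent.MP42H Pool.Agent.MP42X Pool.Agent.MP42R

variable {P : GridSolid}

namespace KC

variable (C : KC P)

/-- the one-sided form -/
def toKC0 : KC0 P where
  toCore1 := C.toCore1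
  can := C.can
  can_facet := C.can_facet
  kv := C.kv
  ke := C.ke
  kf := C.kf
  kx := fun s _ _ => by rw [C.kv_rot, C.ke_rev]
  ke_kv := fun s _ h => by
    refine ⟨C.ke_kv s h, ?_⟩
    have h1 := C.ke_kv _ ((C.ke_rev s).2 h)
    have h2 := C.kv_rot s.stE.r2
    rw [stE_r2_stE, FSt.r2_rL] at h2
    exact h2.2 h1
  kf_ke := fun s _ h => C.kf_ke s h
  cmp := C.cmp
  lam := C.lam
  nu := C.nu
  cNE := C.cNE
  cSE := C.cSE
  tr := C.tr
  tr_E := C.tr_E
  tr_far := C.tr_far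
  ac := C.ac
  ac_E := C.ac_E
  ac_tr := C.ac_tr
  ac_far := C.ac_far
  lin := C.lin
  lout := C.lout
  lin_E := C.lin_E
  lout_E := C.lout_E
  lab_far := C.lab_far
  adm := C.adm
  cut_lab := C.cut_lab
  st_ac := C.st_ac
  en_ac := C.en_ac
  st_ex := C.st_ex
  en_ex := C.en_ex
  kv_rim := fun r hr _ _ => by
    have h1 := C.toCore1.S_E hr
    rw [← h1]
    exact C.kv_rot _
  cut_arc := C.cut_arc
  arc := C.arc
  st_lab := C.st_lab
  en_lab := C.en_lab
  tur := C.tur
  Le := C.Le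
  Le_core := C.Le_core
  Le_no := C.Le_no
  Le_rim := C.Le_rim
  Le_cut := C.Le_cut
  Pl := C.Pl
  Pl_uniq := C.Pl_uniq
  Hg := C.Hg
  Hg_nc := C.Hg_nc
  lean := C.lean
  cov := C.cov

theorem conn0 (hC : C.Conn) : C.toKC0.Conn :=
  fun cv h => hC cv ⟨h.x, h.e, h.cl⟩

end KC

end Pool.Agent.MP42K
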