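import Pool.Agent.MP42.K.ConnQ
import Pool.Agent.MP42.K.QLMain
import Pool.Agent.MP42.K.ToKC0

/-!
# The reduction theorem for boundaries of neighbourhoods

A certificate `KC (P.refine r)` whose closed-up junctions are closed curves and whose bands with
`tr` form a tree gives an edge unfolding of `P.refine (r * 105)`.  `KC0`: the one-sided form.
-/

set_option autoImplicit false
set_option linter.unusedSectionVars false

namespace Pool.Agent.MP42K

open Pool.Agent.Helper55.UNF Pool.Agent.Helper55.UNF.GridSolid Pool.Agent.MP42G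
open Pool.Agent.MP42H Pool.Agent.MP42X Pool.Agent.MP42R

variable {P : GridSolid}

namespace KC0

variable (C : KC0 P)

theorem tree_toQX (hT : C.toCore1.Tree C.tr) : C.toQX0.Tree C.toQX0.tr :=
  Core1.Tree.toRows7 C.toCore1 hT

/-- **The reduction theorem**, one-sided form. -/
theorem hasEdgeUnfolding (hP : P.IsOrthogonalPolyhedron) (hT : C.toCore1.Tree C.tr)
    (hC : C.Conn) (hK : 0 < 105) : (P.refine 105 hK).HasEdgeUnfolding :=
  unfolding_of_QXL hP (by norm_num : 0 < 7) C.toQXL (C.tree_toQX hT) hC.toQX0 (by norm_num)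

end KC0

/-- **The reduction theorem**: the curve is the boundary of a neighbourhood of a subcomplex. -/
theorem KC.hasEdgeUnfolding (C : KC P) (hP : P.IsOrthogonalPolyhedron)
    (hT : C.toCore1.Tree C.tr) (hC : C.Conn) (hK : 0 < 105) :
    (P.refine 105 hK).HasEdgeUnfolding :=
  C.toKC0.hasEdgeUnfolding hP hT (C.conn0 hC) hK

/-- A one-sided certificate of `P.refine r` gives an edge unfolding of `P.refine (r * 105)`. -/
theorem unfolding_of_KC0 {P : GridSolid} (hP : P.IsOrthogonalPolyhedron) {r : ℕ} (hr : 0 < r)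
    (C : KC0 (P.refine r hr)) (hT : C.toCore1.Tree C.tr) (hC : C.Conn)
    (hK : 0 < r * 105) : (P.refine (r * 105) hK).HasEdgeUnfolding := by
  have h1 := C.hasEdgeUnfolding (isOrthogonal_refine hP hr) hT hC (by norm_num)
  rw [refine_refine] at h1
  exact h1

/-- A certificate of `P.refine r` gives an edge unfolding of `P.refine (r * 105)`. -/
theorem unfolding_of_KC {P : GridSolid} (hP : P.IsOrthogonalPolyhedron) {r : ℕ} (hr : 0 < r)
    (C : KC (P.refine r hr)) (hT : C.toCore1.Tree C.tr) (hC : C.Conn)
    (hK : 0 < r * 105) : (P.refine (r * 105) hK).HasEdgeUnfolding :=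
  unfolding_of_KC0 hP hr C.toKC0 hT (C.conn0 hC) hK

end Pool.Agent.MP42K
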