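import Pool.Agent.MP42.K.Lit2

/-!
# `KC0`: fields of `QX` on the rims
-/

set_option autoImplicit false
set_option linter.unusedSectionVars false

namespace Pool.Agent.MP42K

open Pool.Agent.Helper55.UNF Pool.Agent.Helper55.UNF.GridSolid Pool.Agent.MP42G
open Pool.Agent.MP42H Pool.Agent.MP42X Pool.Agent.MP42R

variable {P : GridSolid}

namespace KC0

variable {C : KC0 P}

lemma rimE {t : (P.refine 7 h7).FSt} (h : C.toRows7.Rim t) : C.toRows7.Rim (pE t) := by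
  obtain ⟨r, i, hi, hr, rfl⟩ := C.toCore1.exists_rim_pt h
  show C.toRows7.Rim (pt r i 0).stE
  by_cases h6 : i < 6
  · rw [pt_stE r 0 h6]; exact (C.toCore1.rim_pt).2 hr
  · obtain rfl : i = 6 := by omega
    rw [pt_stE6]; exact (C.toCore1.rim_pt).2 (Core1.Rim.E _ hr)

lemma rim_cyc {t u : (P.refine 7 h7).FSt} (h : C.toRows7.Rim t) (hs : pE.SameCycle t u) :
    C.toRows7.Rim u := by
  obtain ⟨n, rfl⟩ := hs.exists_nat_pow_eq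
  clear hs
  induction n with
  | zero => exact h
  | succ n ih => rw [pow_succ', Equiv.Perm.mul_apply]; exact rimE ih

lemma ex_s {r : P.FSt} (hr : C.Rim r) (ha : C.ac r) (i : ℕ) :
    ∃! a, pE.SameCycle (pt r i 0) a ∧ C.sF a := by
  obtain ⟨a, ⟨ha1, ha2⟩, hu⟩ := C.st_ex r hr ha
  refine ⟨pt a 0 0, ⟨cyc_pt.2 ha1, (sF_pt (by omega) 0).2 ⟨rfl, ha2⟩⟩, ?_⟩
  rintro b ⟨hb1, hb2⟩
  have hb : C.toRows7.Rim b := rim_cyc (C.toCore1.rim_pt.2 hr) hb1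
  obtain ⟨r', i', hi', hr', rfl⟩ := C.toCore1.exists_rim_pt hb
  rw [sF_pt hi'] at hb2
  rw [hu r' ⟨cyc_pt.1 hb1, hb2.2⟩, hb2.1]

lemma ex_n {r : P.FSt} (hr : C.Rim r) (ha : C.ac r) (i : ℕ) :
    ∃! a, pE.SameCycle (pt r i 0) a ∧ C.nF a := by
  obtain ⟨a, ⟨ha1, ha2⟩, hu⟩ := C.en_ex r hr ha
  refine ⟨pt a 6 0, ⟨cyc_pt.2 ha1, (nF_pt (by omega) 0).2 ⟨rfl, ha2⟩⟩, ?_⟩
  rintro b ⟨hb1, hb2⟩
  have hb : C.toRows7.Rim b := rim_cyc (C.toCore1.rim_pt.2 hr) hb1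
  obtain ⟨r', i', hi', hr', rfl⟩ := C.toCore1.exists_rim_pt hb
  rw [nF_pt hi'] at hb2
  rw [hu r' ⟨cyc_pt.1 hb1, hb2.2⟩, hb2.1]

/-- the labels are constant on the cycle -/
lemma s1_cyc {r : P.FSt} (hr : C.Rim r) {i : ℕ} {a : (P.refine 7 h7).FSt}
    (h : pE.SameCycle (pt r i 0) a) :
    s1 (C.lin (cs a)) (C.lout (cs a)) = s1 (C.lin r) (C.lout r) := by
  have ha : C.toRows7.Rim a := rim_cyc (C.toCore1.rim_pt.2 hr) h
  obtain ⟨r', i', hi', hr', rfl⟩ := C.toCore1.exists_rim_pt ha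
  rw [cs_pt, lin_cyc hr (cyc_pt.1 h), lout_cyc hr (cyc_pt.1 h)]

lemma ex_g1 {r : P.FSt} (hr : C.Rim r) (ha : C.ac r) (i : ℕ) :
    ∃! a, pE.SameCycle (pt r i 0) a ∧ C.g1F a := by
  by_cases h : s1 (C.lin r) (C.lout r) = true
  · obtain ⟨a, ⟨h1, h2⟩, hu⟩ := ex_s hr ha i
    refine ⟨a, ⟨h1, by unfold g1F; rw [s1_cyc hr h1, if_pos h]; exact h2⟩, ?_⟩
    rintro b ⟨h3, h4⟩
    unfold g1F at h4
    rw [s1_cyc hr h3, if_pos h] at h4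
    exact hu b ⟨h3, h4⟩
  · obtain ⟨a, ⟨h1, h2⟩, hu⟩ := ex_n hr ha i
    refine ⟨a, ⟨h1, by unfold g1F; rw [s1_cyc hr h1, if_neg h]; exact h2⟩, ?_⟩
    rintro b ⟨h3, h4⟩
    unfold g1F at h4
    rw [s1_cyc hr h3, if_neg h] at h4
    exact hu b ⟨h3, h4⟩

lemma ex_g2 {r : P.FSt} (hr : C.Rim r) (ha : C.ac r) (i : ℕ) :
    ∃! a, pE.SameCycle (pt r i 0) a ∧ C.g2F a := by
  by_cases h : s1 (C.lin r) (C.lout r) = true
  · obtain ⟨a, ⟨h1, h2⟩, hu⟩ := ex_n hr ha i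
    refine ⟨a, ⟨h1, by unfold g2F; rw [s1_cyc hr h1, if_pos h]; exact h2⟩, ?_⟩
    rintro b ⟨h3, h4⟩
    unfold g2F at h4
    rw [s1_cyc hr h3, if_pos h] at h4
    exact hu b ⟨h3, h4⟩
  · obtain ⟨a, ⟨h1, h2⟩, hu⟩ := ex_s hr ha i
    refine ⟨a, ⟨h1, by unfold g2F; rw [s1_cyc hr h1, if_neg h]; exact h2⟩, ?_⟩
    rintro b ⟨h3, h4⟩
    unfold g2F at h4
    rw [s1_cyc hr h3, if_neg h] at h4
    exact hu b ⟨h3, h4⟩

lemma g1_acF {r : P.FSt} (hr : C.Rim r) {i : ℕ} (h : C.g1F (pt r i 0)) : C.ac r := by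
  unfold g1F sF nF at h
  rw [cs_pt] at h
  split_ifs at h
  · exact C.st_ac r hr h.2
  · exact C.en_ac r hr h.2

/-- cut rims: `En` is next to `St` -/
lemma cut_iff {r : P.FSt} (hr : C.Rim r) (ht : ¬ C.tr r) :
    En C.kv C.ke r ↔ St C.kv C.ke r.stE := by
  refine ⟨C.cut_arc r hr ht, fun h => ?_⟩
  have hrE : C.Rim r.stE := Core1.Rim.E _ hr
  have ha : C.ac r := (C.ac_E r hr).1 (C.st_ac _ hrE h)
  obtain ⟨b, ⟨hb1, hb2⟩, -⟩ := C.en_ex r hr ha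
  have hb : C.Rim b := Core1.Rim.same _ hr hb1
  have h1 := C.cut_arc b hb (fun h' => ht ((tr_cyc hr hb1).1 h')) hb2
  obtain ⟨a, -, hu⟩ := C.st_ex r hr ha
  have e1 := hu b.stE ⟨hb1.trans ⟨1, by simp [pE]⟩, h1⟩
  have e2 := hu r.stE ⟨⟨1, by simp [pE]⟩, h⟩
  have e3 : b = r := pE.injective (e1.trans e2.symm)
  rw [← e3]; exact hb2

end KC0

end Pool.Agent.MP42K
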