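import Pool.Agent.MP42.K.Fat3

/-!
# Fattening: a block of facets is added (owner helper18)

The block: `bk w i k`, `i < L`, `k < H` (`i` steps to the east, `k` steps to the south).

* `Gr.fat0`: the block is added, four facets at the last corner;
* `Gr.fatP`: the block is added, `n` facets at the last corner, a port at the south-west corner.
-/

set_option autoImplicit false
set_option linter.unusedSectionVars false

namespace Pool.Agent.MP42K

open Pool.Agent.Helper55.UNF Pool.Agent.Helper55.UNF.GridSolid Pool.Agent.MP42G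
open Pool.Agent.MP42H Pool.Agent.MP42X Pool.Agent.MP42R
open Core1 (jf)
open Nb (SC SC_rot_right SC_rot_left SC_rev rev_rot rot)

variable {P : GridSolid}

/-- the facet in column `i` and row `k` of the block -/
def bk (w : P.FSt) (i k : ℕ) : P.FSt := (pE ^ i) ((pN.symm ^ k) w)

/-- the facets of the block -/
def BlG (w : P.FSt) (L H : ℕ) (f : P.Facet) : Prop := ∃ i < L, ∃ k < H, f = (bk w i k).facet

/-- A block that can be added. -/
structure Block (N : Nb P) (w : P.FSt) (L H n : ℕ) : Prop where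
  posL : 0 < L
  top : ∀ i < L, N.ke (bk w i 0).rL
  left : ∀ k < H, N.ke (bk w 0 k).r2
  new : ∀ i < L, ∀ k < H, ¬ N.kv (bk w i k).rR
  dis : ∀ i < L, ∀ k < H, ∀ i' < L, ∀ k' < H, SC (bk w i k).rR (bk w i' k').rR → i = i' ∧ k = k'
  flat : ∀ i < L, ∀ k < H, (i + 1 < L ∨ k + 1 < H) →
    (pN.symm (bk w i k)).stE = pN.symm (bk w i k).stE
  last : 0 < H → Val (bk w (L - 1) (H - 1)).rR n
  far : ∀ i < L, ¬ SC (bk w 0 0).r2 (bk w i 0)

lemma bk_E (w : P.FSt) (i k : ℕ) : bk w (i + 1) k = (bk w i k).stE := pE_succ _ _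

lemma bk_0N (w : P.FSt) (k : ℕ) : bk w 0 (k + 1) = pN.symm (bk w 0 k) := by
  show (pN.symm ^ (k + 1)) w = pN.symm ((pN.symm ^ k) w)
  rw [pow_succ', Equiv.Perm.mul_apply]

namespace Block

variable {N N' : Nb P} {w : P.FSt} {L H n : ℕ} (B : Block N w L H n)

include B

/-- south -/
lemma com {i k : ℕ} (hi : i < L) (hk : k < H) : pN.symm (bk w i k) = bk w i (k + 1) := by
  induction i with
  | zero => exact (bk_0N w k).symm
  | succ i ih =>
    rw [bk_E, bk_E, ← B.flat i (by omega) k hk (Or.inl hi), ih (by omega)]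

lemma sc_S {i k : ℕ} (hi : i < L) (hk : k < H) : SC (bk w i k).rR (bk w i (k + 1)) := by
  rw [← B.com hi hk, ← rot_rR]
  exact (SC_rot_right _ _).2 (SC.refl _)

lemma sc_E {i k : ℕ} : SC (bk w i k).rR (bk w (i + 1) k).r2 := by
  rw [← SC_rot_right, bk_E]
  show SC _ (rot (bk w i k).stE.r2)
  rw [rot_stE_r2]
  exact SC.refl _

omit B in
/-- the north-west corner -/
lemma sc_NW (i k : ℕ) : SC (bk w i k) (bk w (i + 1) k).rL := by
  rw [bk_E]
  exact (SC_rot_right _ _).2 (SC.refl _)

lemma kv_top {i : ℕ} (hi : i < L) : N.kv (bk w i 0) := by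
  have h := Nb.kv_rR (B.top i hi)
  rwa [FSt.rL_rR] at h

/-- the corners of the facets of the block -/
lemma corner {s : P.FSt} (h : BlG w L H s.facet) :
    N.kv s ∨ ∃ i < L, ∃ k < H, SC (bk w i k).rR s := by
  obtain ⟨i, hi, k, hk, e⟩ := h
  have NE : ∀ i < L, ∀ k < H, N.kv (bk w i k) ∨ ∃ i' < L, ∃ k' < H,
      SC (bk w i' k').rR (bk w i k) := by
    intro i hi k hk
    rcases k with _ | k
    · exact Or.inl (B.kv_top hi)
    · exact Or.inr ⟨i, hi, k, by omega, B.sc_S hi (by omega)⟩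
  rcases rot4 e with e | e | e | e
  · rw [e]; exact NE i hi k hk
  · rw [e]
    rcases i with _ | i
    · exact Or.inl (N.ke_kv _ (B.left k hk))
    · exact Or.inr ⟨i, by omega, k, hk, B.sc_E⟩
  · rw [e]
    exact Or.inr ⟨i, hi, k, hk, SC.refl _⟩
  · rw [e]
    rcases i with _ | i
    · left
      have := Nb.kv_rR (B.left k hk)
      rwa [FSt.r2_rR] at this
    · rcases NE i (by omega) k hk with h | ⟨i', hi', k', hk', h⟩
      · exact Or.inl ((N.kv_SC (sc_NW i k)).1 h)
      · exact Or.inr ⟨i', hi', k', hk', h.trans (sc_NW i k)⟩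

lemma kv' (A : AddsF N N' (BlG w L H)) (s : P.FSt) :
    N'.kv s ↔ N.kv s ∨ ∃ i < L, ∃ k < H, SC (bk w i k).rR s := by
  rw [A.kv]
  constructor
  · rintro (h | ⟨t, h1, h2⟩)
    · exact Or.inl h
    · rcases B.corner h2 with h3 | ⟨i, hi, k, hk, h3⟩
      · exact Or.inl ((N.kv_SC h1).1 h3)
      · exact Or.inr ⟨i, hi, k, hk, h3.trans h1⟩
  · rintro (h | ⟨i, hi, k, hk, h⟩)
    · exact Or.inl h
    · exact Or.inr ⟨_, h, ⟨i, hi, k, hk, rfl⟩⟩

omit B in
/-- fewer rows -/
lemma less {H : ℕ} (B : Block N w L (H + 1) n) : Block N w L H 4 where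
  posL := B.posL
  top := B.top
  left k hk := B.left k (by omega)
  new i hi k hk := B.new i hi k (by omega)
  dis i hi k hk i' hi' k' hk' h := B.dis i hi k (by omega) i' hi' k' (by omega) h
  flat i hi k hk _ := B.flat i hi k (by omega) (Or.inr (by omega))
  last hH := (Val.flat (B.flat (L - 1) (by have := B.posL; omega) (H - 1) (by omega)
    (Or.inr (by omega)))).1
  far := B.far

omit B in
/-- the last row -/
lemma row {H : ℕ} (B : Block N w L (H + 1) n) (A : AddsF N N' (BlG w L H)) :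
    Row N' (bk w 0 H) L n where
  pos := B.posL
  top i hi := by
    have e : (pE ^ i) (bk w 0 H) = bk w i H := rfl
    rw [e, A.ke]
    rcases H with _ | H
    · exact Or.inl (B.top i hi)
    · refine Or.inr (Or.inr ⟨i, hi, H, by omega, ?_⟩)
      rw [← B.com hi (by omega : H < H + 1 + 1)]
      have h1 := symm_rL_stE (bk w i H)
      rw [h1]; rfl
  left := (A.ke _).2 (Or.inl (B.left H (by omega)))
  new i hi := by
    have e : (pE ^ i) (bk w 0 H) = bk w i H := rfl
    rw [e, B.less.kv' A]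
    rintro (h | ⟨i', hi', k', hk', h⟩)
    · exact B.new i hi H (by omega) h
    · have := B.dis i' hi' k' (by omega) i hi H (by omega) h
      omega
  dis i hi j hj h := (B.dis i hi H (by omega) j hj H (by omega) h).1
  four i hi := (Val.flat (B.flat i (by omega) H (by omega) (Or.inl hi))).1
  last := B.last (by omega)
  far i hi h := by
    have e : (pE ^ i) (bk w 0 H) = bk w i H := rfl
    rw [e] at h
    rcases H with _ | H
    · exact B.far i hi h
    · have h1 := B.sc_S hi (by omega : H < H + 1 + 1)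
      have h2 : N.kv (bk w 0 (H + 1)).r2 := N.ke_kv _ (B.left _ (by omega))
      exact B.new i hi H (by omega) ((N.kv_SC (h.trans h1.symm)).1 h2)

omit B in
lemma adds {H : ℕ} {N₁ : Nb P} (A1 : AddsF N N₁ (BlG w L H))
    (A : AddsF N N' (BlG w L (H + 1))) : AddsF N₁ N' (RowG (bk w 0 H) L) := by
  have key : ∀ f, BlG w L (H + 1) f ↔ BlG w L H f ∨ RowG (bk w 0 H) L f := by
    intro f
    constructor
    · rintro ⟨i, hi, k, hk, e⟩
      rcases Nat.lt_or_ge k H with h1 | h1
      · exact Or.inl ⟨i, hi, k, h1, e⟩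
      · have : k = H := by omega
        subst this
        exact Or.inr ⟨i, hi, e⟩
    · rintro (⟨i, hi, k, hk, e⟩ | ⟨i, hi, e⟩)
      · exact ⟨i, hi, k, by omega, e⟩
      · exact ⟨i, hi, H, by omega, e⟩
  constructor
  · intro s
    rw [A.kv, A1.kv, or_assoc]
    refine or_congr_right ?_
    simp only [key]
    constructor
    · rintro ⟨t, h1, h2 | h2⟩
      · exact Or.inl ⟨t, h1, h2⟩
      · exact Or.inr ⟨t, h1, h2⟩
    · rintro (⟨t, h1, h2⟩ | ⟨t, h1, h2⟩)
      · exact ⟨t, h1, Or.inl h2⟩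
      · exact ⟨t, h1, Or.inr h2⟩
  · intro s
    rw [A.ke, A1.ke]
    simp only [key]
    tauto
  · intro f
    rw [A.kf, A1.kf]
    simp only [key]
    tauto

end Block

section

variable {R : Core1 P} {J : P.Facet → Prop} {N N' : Nb P} {V V' : P.FSt → Prop}
  {lin lout : P.FSt → Ln} {w : P.FSt} {L H n m : ℕ}

lemma Gr.kv_port {S : List (P.FSt × ℤ × ℤ)} (h : Gr R J N V lin lout S) {s : P.FSt}
    (hs : s ∈ S.map Prod.fst) : N.kv s := by
  obtain ⟨Hi, Ho, h1, -⟩ := h.ex
  exact (h1.op s hs).kv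

lemma addsF_empty (A : AddsF N N' (fun _ => False)) : N' = N := by
  cases N; cases N'
  congr 1
  · funext s; exact propext (by have := A.kv s; simpa using this)
  · funext s; exact propext (by have := A.ke s; simpa using this)
  · funext s; exact propext (by have := A.kf s; simpa using this)

/-- **A block is added**, four facets at the last corner. -/
theorem Gr.fat0 (hJ0 : ∀ f, J f → ¬ R.core f) {S : List (P.FSt × ℤ × ℤ)}
    (h : Gr R J N V lin lout S) (B : Block N w L H 4) (A : AddsF N N' (BlG w L H))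
    (hJ : ∀ i < L, ∀ k < H, J (bk w i k).facet)
    (hJn : ∀ i < L, ∀ k < H, ∀ s, SC (bk w i k).rR s → J s.facet)
    (hW : ∀ i < L, bk w i 0 ∉ S.map Prod.fst) (hb : ∀ k < H, bS (bk w 0 k) ∉ S.map Prod.fst)
    (hV : ∀ i ≤ L, ∀ k ≤ H, V (bk w i k) ↔ V w) :
    Gr R J N' V lin lout S := by
  induction H generalizing N' with
  | zero =>
    have e : N' = N := by
      have : (BlG w L 0) = (fun _ => False) := by
        funext f
        apply propext
        constructor
        · rintro ⟨i, -, k, hk, -⟩; omega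
        · exact False.elim
      rw [this] at A
      exact addsF_empty A
    rw [e]; exact h
  | succ H ih =>
    have A1 := addsF_addF N (BlG w L H)
    have h1 := ih B.less A1 (fun i hi k hk => hJ i hi k (by omega))
      (fun i hi k hk => hJn i hi k (by omega)) (fun k hk => hb k (by omega))
      (fun i hi k hk => hV i hi k (by omega))
    have W := B.row A1
    have hp := B.posL
    have hJr : ∀ i < L, J (rot (bk w i H).rR).facet := fun i hi =>
      hJn i hi H (by omega) _ ((SC_rot_right _ _).2 (SC.refl _))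
    refine h1.row0 hJ0 W (Block.adds A1 A) (fun i hi => hJ i hi H (by omega))
      (fun i hi s hs => hJn i hi H (by omega) s hs) ?_ (hb H (by omega)) ?_ ?_
    · intro i hi hc
      rcases H with _ | H
      · exact hW i hi hc
      · have h2 := B.sc_S hi (by omega : H < H + 1 + 1)
        exact B.new i hi H (by omega) ((N.kv_SC h2).2 (h.kv_port hc))
    · intro i hi
      have e : (pE ^ i) (bk w 0 H) = bk w i H := rfl
      rw [e]
      have h2 := h.V_rR (bS (bk w i H)) (hJr i hi)
      rw [bS_rR, rot_rR, B.com hi (by omega), hV i hi.le (H + 1) le_rfl] at h2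
      have h3 := hV 0 (by omega) H (by omega)
      rw [h3]
      tauto
    · have e : (pE ^ (L - 1)) (bk w 0 H) = bk w (L - 1) H := rfl
      have e2 : (rot ^ 2) (bk w (L - 1) H).rR = (bk w L (H + 1)).rL := by
        show rot (rot (bk w (L - 1) H).rR) = _
        rw [rot_rR, B.com (by omega) (by omega)]
        show (bk w (L - 1) (H + 1)).stE.rL = _
        rw [← bk_E, Nat.sub_add_cancel hp]
      have hJs : J (bk w L (H + 1)).facet := by
        have h2 := hJn (L - 1) (by omega) H (by omega) ((rot ^ 2) (bk w (L - 1) H).rR)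
          (Equiv.Perm.sameCycle_pow_right.2 (Equiv.Perm.SameCycle.refl _ _))
        rw [e2] at h2; exact h2
      rw [e, e2]
      obtain ⟨Hi, Ho, g1, -⟩ := h.ex
      rw [V_rL g1.V_rR hJs, hV L le_rfl (H + 1) le_rfl, hV 0 (by omega) H (by omega)]

/-- the lines after the block is added -/
structure BlV (J : P.Facet → Prop) (N : Nb P) (V V' : P.FSt → Prop) (w : P.FSt)
    (L H n m : ℕ) (c c' : ℤ) : Prop where
  V_rR : ∀ s : P.FSt, J s.facet → (V' s.rR ↔ ¬ V' s)
  old : ∀ s, N.Dt s → ¬ BlG w L (H + 1) s.facet → (∀ k ≤ m, s ≠ zp (bk w 0 H) k) →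
    J s.facet → (V' s ↔ V s)
  east : ∀ k ≤ H, V' (bk w L k) ↔ V w
  bS : ∀ i < L, V' (bS (bk w i H)) ↔ c' ≠ 0
  last : ∀ j, 2 ≤ j → j + 1 < n → (V' ((rot ^ j) (bk w (L - 1) H).rR) ↔ c' + (j - 1) = 0)
  zone : ∀ k, 1 ≤ k → k < m → (V' (zp (bk w 0 H) k) ↔ c' - (k - 1) = 0)
  port : 1 ≤ m → (V' (zp (bk w 0 H) m) ↔ V (zp (bk w 0 H) m))

/-- **A block is added**, a port `(a, b)` at the south-west corner, `n` facets at the south-east
corner. -/
theorem Gr.fatP (hJ0 : ∀ f, J f → ¬ R.core f) {S : List (P.FSt × ℤ × ℤ)} {a b b' c c' : ℤ}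
    (h : Gr R J N V lin lout ((zp (bk w 0 H) m, a, b) :: S)) (hm : 1 ≤ m)
    (B : Block N w L (H + 1) n) (A : AddsF N N' (BlG w L (H + 1)))
    (nke : ∀ k, 1 ≤ k → k ≤ m → ¬ N.ke (zp (bk w 0 H) k))
    (hJ : ∀ i < L, ∀ k < H + 1, J (bk w i k).facet)
    (hJn : ∀ i < L, ∀ k < H + 1, ∀ s, SC (bk w i k).rR s → J s.facet)
    (hJz : ∀ k < m, J (zp (bk w 0 H) k).facet)
    (hW : ∀ i < L, bk w i 0 ∉ S.map Prod.fst) (hb : ∀ k < H, bS (bk w 0 k) ∉ S.map Prod.fst)
    (hz : ∀ k < m, zp (bk w 0 H) k ∉ S.map Prod.fst)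
    (hzG : ∀ k ≤ m, ¬ BlG w L (H + 1) (zp (bk w 0 H) k).facet)
    (hV : ∀ i ≤ L, ∀ k ≤ H, V (bk w i k) ↔ V w) (hVc : V w ↔ c + 1 ≠ 0)
    (ec : c = b + m - 2) (ec' : c' = c - (n - 4))
    (eb : b' = b - (n - 4)) (b1 : -1 ≤ b') (b2 : b' ≤ 1) (b3 : -1 ≤ c')
    (hV' : BlV J N V V' w L H n m c c') :
    Gr R J N' V' lin lout ((zp (bk w 0 H) m, a, b') :: S) := by
  have A1 := addsF_addF N (BlG w L H)
  have hp := B.posL
  have less : ∀ f, BlG w L H f → BlG w L (H + 1) f := by
    rintro f ⟨i, hi, k, hk, e⟩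
    exact ⟨i, hi, k, by omega, e⟩
  have hzW : ∀ i < L, bk w i 0 ≠ zp (bk w 0 H) m := fun i hi e =>
    hzG m le_rfl ⟨i, hi, 0, by omega, by rw [e]⟩
  have hzb : ∀ k < H, bS (bk w 0 k) ≠ zp (bk w 0 H) m := by
    intro k hk e
    refine hzG m le_rfl ⟨0, hp, k + 1, by omega, ?_⟩
    rw [← e, bk_0N, ← rot_rR, ← bS_rR]; rfl
  have hJE : ∀ k ≤ H, J (bk w L k).facet := by
    intro k hk
    have h1 := hJn (L - 1) (by omega) k (by omega) _ B.sc_E
    rw [Nat.sub_add_cancel hp] at h1
    exact h1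
  have mem1 : ∀ s : P.FSt, s ≠ zp (bk w 0 H) m → s ∉ S.map Prod.fst →
      s ∉ (((zp (bk w 0 H) m, a, b) :: S : List (P.FSt × ℤ × ℤ))).map Prod.fst := by
    intro s h1 h2 h3
    rw [List.map_cons, List.mem_cons] at h3
    rcases h3 with h3 | h3
    · exact h1 h3
    · exact h2 h3
  have h1 := h.fat0 hJ0 B.less A1 (fun i hi k hk => hJ i hi k (by omega))
    (fun i hi k hk => hJn i hi k (by omega)) (fun i hi => mem1 _ (hzW i hi) (hW i hi))
    (fun k hk => mem1 _ (hzb k hk) (hb k hk)) hV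
  have W := B.row A1
  obtain ⟨Hi, Ho, g1, -⟩ := h.ex
  refine h1.rowP hJ0 hm W (Block.adds A1 A) ?_ (fun i hi => hJ i hi H (by omega))
    (fun i hi s hs => hJn i hi H (by omega) s hs) hJz ?_ hz ec ec' eb b1 b2 b3 ?_
  · -- the edges around the port
    intro k k1 k2
    rw [A1.ke]
    rintro (h2 | h2 | h2)
    · exact nke k k1 k2 h2
    · exact hzG k k2 (less _ h2)
    · obtain ⟨k, rfl⟩ : ∃ j, k = j + 1 := ⟨k - 1, by omega⟩
      have e : (zp (bk w 0 H) (k + 1)).stE.facet = (zp (bk w 0 H) k).facet := by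
        rw [← rot_zp (bk w 0 H) k]; rfl
      rw [e] at h2
      exact hzG k (by omega) (less _ h2)
  · intro i hi hc
    have e : (pE ^ i) (bk w 0 H) = bk w i H := rfl
    rw [e] at hc
    rcases H with _ | H
    · exact hW i hi hc
    · have h2 := B.sc_S hi (by omega : H < H + 1 + 1)
      refine B.new i hi H (by omega) ((N.kv_SC h2).2 (h.kv_port ?_))
      rw [List.map_cons]
      exact List.mem_cons_of_mem _ hc
  · constructor
    · exact hV'.V_rR
    · intro s hd hO hJs
      have hG : ¬ BlG w L (H + 1) s.facet := by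
        rintro ⟨i, hi, k, hk, e⟩
        rcases Nat.lt_or_ge k H with h2 | h2
        · exact hd.2 ((A1.kf _).2 (Or.inr ⟨i, hi, k, h2, e⟩))
        · have : k = H := by omega
          subst this
          exact hO (Or.inl ⟨i, hi, e⟩)
      rcases (B.less.kv' A1 s).1 hd.1 with h2 | ⟨i, hi, k, hk, h2⟩
      · refine hV'.old s ⟨h2, fun h3 => hd.2 ((A1.kf _).2 (Or.inl h3))⟩ hG ?_ hJs
        intro k hk e
        exact hO (Or.inr ⟨k, hk, e⟩)
      · -- a new vertex of the first rows
        have hf := B.flat i hi k (by omega) (Or.inr (by omega))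
        obtain ⟨hv, hr3⟩ := Val.flat hf
        obtain ⟨j, hj, e⟩ := hv.SC_iff.1 h2
        have e2 : (rot ^ 2) (bk w i k).rR = (bk w (i + 1) (k + 1)).rL := by
          show rot (rot (bk w i k).rR) = _
          rw [rot_rR, B.com hi (by omega)]
          show (bk w i (k + 1)).stE.rL = _
          rw [← bk_E]
        have e3 : (rot ^ 3) (bk w i k).rR = (bk w (i + 1) k).r2 := by
          show rot (rot (rot (bk w i k).rR)) = _
          rw [hr3, ← bk_E]
        have : j = 0 ∨ j = 1 ∨ j = 2 ∨ j = 3 := by omega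
        rcases this with rfl | rfl | rfl | rfl
        · exact absurd ⟨i, hi, k, by omega, by rw [e]; rfl⟩ hG
        · have e1 : (rot ^ 1) (bk w i k).rR = bk w i (k + 1) := by
            show rot (bk w i k).rR = _
            rw [rot_rR, B.com hi (by omega)]
          exact absurd ⟨i, hi, k + 1, by omega, by rw [e, e1]⟩ hG
        · rw [e2] at e
          by_cases hl : i + 1 < L
          · exact absurd ⟨i + 1, hl, k + 1, by omega, by rw [e]; rfl⟩ hG
          · have : i + 1 = L := by omega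
            rw [this] at e
            rw [e]
            have h3 := hJE (k + 1) (by omega)
            rw [V_rL hV'.V_rR h3, V_rL g1.V_rR h3, hV'.east (k + 1) (by omega),
              hV L le_rfl (k + 1) (by omega)]
        · rw [e3] at e
          by_cases hl : i + 1 < L
          · exact absurd ⟨i + 1, hl, k, by omega, by rw [e]; rfl⟩ hG
          · have : i + 1 = L := by omega
            rw [this] at e
            rw [e]
            have h3 := hJE k (by omega)
            rw [V_r2 hV'.V_rR h3, V_r2 g1.V_rR h3, hV'.east k (by omega),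
              hV L le_rfl k (by omega)]
    · exact hV'.bS
    · exact hV'.last
    · have e : ((pE ^ (L - 1)) (bk w 0 H)).stE.r2 = (bk w L H).r2 := by
        show (bk w (L - 1) H).stE.r2 = _
        rw [← bk_E, Nat.sub_add_cancel hp]
      rw [e, V_r2 hV'.V_rR (hJE H le_rfl), hV'.east H le_rfl]
      exact hVc
    · exact hV'.zone
    · exact hV'.port

end

end Pool.Agent.MP42K
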