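import Pool.Agent.MP42.K.G1
import Pool.Agent.MP42.K.Fat4

/-!
# Fattening without lines: rows (owner helper18)

`GS0.row`, `Gr0.rowG`, `Gr0.row0`, `Gr0.rowP`.
-/

set_option autoImplicit false
set_option linter.unusedSectionVars false

namespace Pool.Agent.MP42K

open Pool.Agent.Helper55.UNF Pool.Agent.Helper55.UNF.GridSolid Pool.Agent.MP42G
open Pool.Agent.MP42H Pool.Agent.MP42X Pool.Agent.MP42R
open Core1 (jf)
open Nb (SC SC_rot_right SC_rot_left SC_rev rev_rot rot)

variable {P : GridSolid}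

lemma Loc0.io {J : P.Facet → Prop} {N : Nb P} {Hi Ho : P.FSt → ℤ} {Op : P.FSt → Prop}
    {s : P.FSt} (h : Loc0 J N Hi Ho Op s) (hJ : J s.facet) (ho : ¬ Op s) :
    Hi s = Ho s ∧ -1 ≤ Ho s ∧ Ho s ≤ 1 := ⟨h.cl hJ ho, h.hb hJ ho⟩

lemma Loc0.mk4 {J : P.Facet → Prop} {N : Nb P} {Hi Ho : P.FSt → ℤ} {Op : P.FSt → Prop}
    {s : P.FSt} (nxt : J (N.nx s).facet → Hi (N.nx s) = Ho s + N.dl s)
    (io : J s.facet → ¬ Op s → Hi s = Ho s ∧ -1 ≤ Ho s ∧ Ho s ≤ 1)
    (x : ¬ N.ke s → J s.stE.facet → ¬ Op s → -1 ≤ Ho s ∧ Ho s ≤ 1)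
    (op : Op s → Port0 J N s (Hi s - 1) (Ho s + 1)) : Loc0 J N Hi Ho Op s :=
  ⟨nxt, fun h1 h2 => (io h1 h2).1, fun h1 h2 => (io h1 h2).2, x, op⟩

/-- the old headings along the row -/
lemma Row.old0 {J : P.Facet → Prop} {N : Nb P} {Hi Ho : P.FSt → ℤ}
    {Op : P.FSt → Prop} (h : GS0 J N Hi Ho Op) {w : P.FSt} {L n : ℕ} (R : Row N w L n)
    {c : ℤ} (hc : Ho (bS w) = c + 1) (hW : ∀ i < L, ¬ Op ((pE ^ i) w))
    (hJ : ∀ i < L, J ((pE ^ i) w).facet) :
    Ho w.r2 = c + 1 ∧ ∀ i < L, Ho ((pE ^ i) w) = c := by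
  classical
  have hp := R.pos
  have nop : ∀ s, N.ke s → ¬ Op s := fun s hs ho => (h.op s ho).ke hs
  have d0 : N.Dt (bS w) := ⟨R.kvz 0, Nb.nkf_of_nke (R.nke_bS (i := 0) hp)⟩
  have h0 := h.loc d0
  have hb := R.nke_bS (i := 0) hp
  have hb' : ¬ N.ke (bS w) := hb
  have e1 : Ho w.r2 = c + 1 := by
    have h1 := h0.nxt
    unfold Nb.dl at h1
    rw [Nb.nx_nke hb', if_neg hb'] at h1
    have e : (bS w).stE.rL = w.r2 := rot_bS w
    rw [e, if_pos R.left] at h1
    have h2 := h1 (hJ 0 hp)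
    have h3 := (h.loc (s := w.r2) ⟨R.kv0, R.nkf hp⟩).io (hJ 0 hp) (nop _ R.left)
    omega
  have hL : ∀ i < L, Ho ((pE ^ i) w).rL = c ∧ Ho ((pE ^ i) w) = c := by
    intro i
    induction i with
    | zero =>
      intro hi
      have t0 : N.ke w.rL := R.top 0 hi
      have h1 := (h.loc (s := w.r2) ⟨R.kv0, R.nkf hp⟩).nxt
      unfold Nb.dl at h1
      rw [Nb.nx_ke R.left, if_pos R.left, FSt.r2_rR, if_pos t0] at h1
      have h2 := h1 (hJ 0 hp)
      have h3 := (h.loc (s := w.rL) ⟨R.kvL (i := 0) hi, R.nkf hp⟩).io (hJ 0 hp) (nop _ t0)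
      have h4 : Ho w.rL = c := by omega
      have h5 := (h.loc (s := w.rL) ⟨R.kvL (i := 0) hi, R.nkf hp⟩).nxt
      unfold Nb.dl at h5
      have h6 : ¬ N.ke w := R.nkeW (i := 0) hi
      rw [Nb.nx_ke t0, if_pos t0, FSt.rL_rR, if_neg h6] at h5
      have h7 := h5 (hJ 0 hp)
      have h8 := (h.loc (s := w) ⟨R.kvW (i := 0) hi, R.nkf hp⟩).io (hJ 0 hp) (hW 0 hi)
      refine ⟨h4, ?_⟩
      show Ho w = c
      have h9 : Hi w = Ho w := h8.1
      omega
    | succ i ih =>
      intro hi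
      obtain ⟨-, h4⟩ := ih (by omega)
      have hk : ¬ N.ke ((pE ^ i) w) := R.nkeW (by omega)
      have h5 := (h.loc (s := (pE ^ i) w) ⟨R.kvW (by omega), R.nkf (by omega)⟩).nxt
      unfold Nb.dl at h5
      rw [Nb.nx_nke hk, if_neg hk] at h5
      have e : ((pE ^ i) w).stE.rL = ((pE ^ (i + 1)) w).rL := by rw [pE_succ]
      rw [e, if_pos (R.top _ hi)] at h5
      have h6 := h5 (hJ _ hi)
      have h7 := (h.loc (s := ((pE ^ (i + 1)) w).rL) ⟨R.kvL hi, R.nkf hi⟩).io (hJ _ hi)
        (nop _ (R.top _ hi))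
      have h8 : Ho ((pE ^ (i + 1)) w).rL = c := by omega
      have h9 := (h.loc (s := ((pE ^ (i + 1)) w).rL) ⟨R.kvL hi, R.nkf hi⟩).nxt
      unfold Nb.dl at h9
      rw [Nb.nx_ke (R.top _ hi), if_pos (R.top _ hi), FSt.rL_rR, if_neg (R.nkeW hi)] at h9
      have h10 := h9 (hJ _ hi)
      have h11 := (h.loc (s := (pE ^ (i + 1)) w) ⟨R.kvW hi, R.nkf hi⟩).io (hJ _ hi) (hW _ hi)
      exact ⟨h8, by omega⟩
  exact ⟨e1, fun i hi => (hL i hi).2⟩

/-- the old headings around the first corner -/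
lemma Row.oldz0 {J : P.Facet → Prop} {N : Nb P} {Hi Ho : P.FSt → ℤ}
    {Op : P.FSt → Prop} (h : GS0 J N Hi Ho Op) {w : P.FSt} {L n m : ℕ} (R : Row N w L n)
    (Z : Zone N Op w n m) {c : ℤ} (hc : Ho (bS w) = c + 1)
    (hJ : ∀ k < m, J (zp w k).facet) :
    ∀ k, 1 ≤ k → k ≤ m → Ho (zp w k) = c - (k - 1) ∧ (k < m → Hi (zp w k) = c - (k - 1)) := by
  classical
  intro k h1
  induction k, h1 using Nat.le_induction with
  | base =>
    intro hm
    have h2 := (h.loc (R.Dtz Z hm)).nxt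
    unfold Nb.dl at h2
    have e : (zp w 1).stE.rL = bS w := rot_zp w 0
    have hb : ¬ N.ke (bS w) := R.nke_bS (i := 0) R.pos
    rw [Nb.nx_nke (R.nkez Z hm), e, if_neg (R.nkez Z hm), if_neg hb] at h2
    have h3 := h2 (hJ 0 (by omega))
    have h4 := (h.loc (R.Dtz Z (k := 0) (by omega))).io (hJ 0 (by omega)) Z.nop0
    have h5 : Hi (bS w) = Ho (bS w) := h4.1
    have h6 : Ho (zp w 1) = c := by omega
    refine ⟨by rw [h6]; simp, fun hl => ?_⟩
    have h7 := (h.loc (R.Dtz Z hm)).io (hJ 1 hl) (Z.nop 1 hl)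
    rw [h7.1, h6]; simp
  | succ k h1 ih =>
    intro hm
    obtain ⟨h3, h4⟩ := ih (by omega)
    have h5 := h4 (by omega)
    have h2 := (h.loc (R.Dtz Z hm)).nxt
    unfold Nb.dl at h2
    have e : (zp w (k + 1)).stE.rL = zp w k := rot_zp w k
    rw [Nb.nx_nke (R.nkez Z hm), e, if_neg (R.nkez Z hm), if_neg (R.nkez Z (by omega))] at h2
    have h6 := h2 (hJ k (by omega))
    have h7 : Ho (zp w (k + 1)) = c - ((k + 1 : ℕ) - 1) := by push_cast; omega
    refine ⟨h7, fun hl => ?_⟩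
    have h8 := (h.loc (R.Dtz Z hm)).io (hJ _ hl) (Z.nop _ hl)
    rw [h8.1, h7]

/-- **The rules after a row is added.** -/
theorem GS0.row {J : P.Facet → Prop} {N N' : Nb P} {Hi Ho : P.FSt → ℤ}
    {Op : P.FSt → Prop} (h : GS0 J N Hi Ho Op) {w : P.FSt} {L n m : ℕ} (R : Row N w L n)
    (Z : Zone N Op w n m) (A : AddsF N N' (RowG w L)) {c c' : ℤ} (hc : Ho (bS w) = c + 1)
    (ec : c' = c - (n - 4)) (b1 : -1 ≤ c')
    (b2 : 1 ≤ m → -1 ≤ c' - m + 2 ∧ c' - m + 2 ≤ 1)
    (hW : ∀ i < L, ¬ Op ((pE ^ i) w)) (hJ : ∀ i < L, J ((pE ^ i) w).facet)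
    (hJz : ∀ k < m, J (zp w k).facet) :
    GS0 J N' (rHi w L n m c' Hi) (rHo w L n m c' Ho) Op := by
  classical
  have hp := R.pos
  have hn := R.three
  have S := R.sg Z A
  obtain ⟨q1, q2⟩ := R.old0 h hc hW hJ
  have q3 := R.oldz0 h Z hc hJz
  have hb0 : ¬ N.ke (bS w) := R.nke_bS (i := 0) hp
  have hd0 : N.Dt (bS w) := R.Dtz Z (k := 0) (by omega)
  -- the bounds of `c`
  have hcb : -1 ≤ c + 1 ∧ c + 1 ≤ 1 := by
    have h1 := (h.loc hd0).hb' hb0 (by
      have h2 : (bS w).stE.facet = w.facet := by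
        show w.rR.stE.r2.stE.facet = _
        rw [FSt.stE_inv]; rfl
      rw [h2]; exact hJ 0 hp) Z.nop0
    rw [hc] at h1
    exact h1
  have nopC : ∀ s, ¬ N.kv s → ¬ Op s := fun s hs ho => hs (h.op s ho).kv
  refine h.surg S ?_ ?_ ?_ ?_
  · -- values outside
    intro s hs hO
    exact ⟨R.hi_O hs hO, R.ho_O hs hO, Iff.rfl⟩
  · -- entering
    intro s hs hO hO2 hJn
    have h1 := R.enter Z hs hO hO2
    have h2 := (h.loc hs).nxt hJn
    have h3 := S.nx hs hO
    have h4 := S.ke s hs hO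
    rw [h1] at h2 hJn ⊢
    rcases Nat.eq_zero_or_pos m with hm | hm
    · subst hm
      rw [zp_zero] at h1 h2 hJn ⊢
      have h9 : rHi w L n 0 c' Hi (bS w) = c' := by
        have h10 := R.hi_new (m := 0) (c' := c') (Hi := Hi) (R.new_bS (i := 0) hp)
        have h11 := R.vl_bS (c' := c') (i := 0) hp
        exact h10.trans h11
      rw [h9]
      have h6 := Z.zero rfl
      have h7 : c' = c := by rw [ec, h6]; push_cast; ring
      have h8 := ((h.loc hd0).io hJn Z.nop0).1
      unfold Nb.dl at h2 ⊢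
      rw [h3, h1]
      rw [h1, if_neg hb0] at h2
      rw [if_pos (show N'.ke (bS w) from R.ke'_bS A (i := 0) hp)]
      simp only [h4]
      omega
    · rw [R.hi_zm Z hm, h2]
      unfold Nb.dl
      rw [h3, h1, if_neg (R.nkez Z le_rfl), if_neg (R.nke'_z Z A hm le_rfl)]
      simp only [h4]
  · -- the new darts
    intro s hs
    have hLn : L - 1 + 1 = L := by omega
    rcases R.cases hs with ⟨i, hi, e⟩ | ⟨i, hi, e⟩ | ⟨j, h1, h2, e⟩ | ⟨k, h1, hk, e⟩
    · -- along the south sides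
      subst e
      have hke := R.ke'_bS A hi
      have hnop : ¬ Op (bS ((pE ^ i) w)) := by
        rcases i with _ | i
        · exact Z.nop0
        · apply nopC
          rw [← R.rot2 hi]
          exact R.nSC (i := i) (by omega) (Equiv.Perm.sameCycle_pow_right.2
            (Equiv.Perm.SameCycle.refl _ _))
      have vi : rHi w L n m c' Hi (bS ((pE ^ i) w)) = c' := by
        rw [R.hi_new (R.new_bS hi), R.vl_bS hi]
      have vo : rHo w L n m c' Ho (bS ((pE ^ i) w)) = c' := by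
        rw [R.ho_new (R.new_bS hi), R.vl_bS hi]
      refine Loc0.mk4 ?_ ?_ ?_ ?_
      · intro _
        unfold Nb.dl
        have hn1 : ¬ N'.ke (rot ((pE ^ i) w).rR) := by
          by_cases hl : i + 1 < L
          · exact R.nke'_1 A hl
          · have : i = L - 1 := by omega
            subst this
            exact R.nke'_j A (j := 1) le_rfl (by omega)
        rw [Nb.nx_ke hke, bS_rR, if_pos hke, if_neg hn1, vo, R.hi_new (R.new_1 hi), R.vl_1 hi]
        ring
      · intro _ _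
        rw [vi, vo]
        exact ⟨rfl, b1, by omega⟩
      · intro hk; exact absurd hke hk
      · intro ho; exact absurd ho hnop
    · -- crossing between the south sides
      subst e
      have hke := R.nke'_1 A hi
      have hnx : rot (rot ((pE ^ i) w).rR) = bS ((pE ^ (i + 1)) w) := R.rot2 hi
      have hnx' : (rot ((pE ^ i) w).rR).stE.rL = bS ((pE ^ (i + 1)) w) := hnx
      have vi : rHi w L n m c' Hi (rot ((pE ^ i) w).rR) = c' := by
        rw [R.hi_new (R.new_1 (by omega)), R.vl_1 (by omega)]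
      have vo : rHo w L n m c' Ho (rot ((pE ^ i) w).rR) = c' := by
        rw [R.ho_new (R.new_1 (by omega)), R.vl_1 (by omega)]
      refine Loc0.mk4 ?_ ?_ ?_ ?_
      · intro _
        unfold Nb.dl
        rw [Nb.nx_nke hke, hnx', if_neg hke, if_pos (R.ke'_bS A hi), vo,
          R.hi_new (R.new_bS hi), R.vl_bS hi]
        ring
      · intro _ _
        rw [vi, vo]
        exact ⟨rfl, b1, by omega⟩
      · intro _ _ _
        rw [vo]
        exact ⟨b1, by omega⟩
      · intro ho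
        exact absurd ho (nopC _ (R.nSC (i := i) (by omega) (R.sc1 i)))
    · -- around the last corner
      by_cases hj : j + 1 < n
      · subst e
        have hke := R.nke'_j A h1 hj
        have hnx : ((rot ^ j) ((pE ^ (L - 1)) w).rR).stE.rL =
            (rot ^ (j + 1)) ((pE ^ (L - 1)) w).rR := by
          rw [pow_succ', Equiv.Perm.mul_apply]; rfl
        have vi : rHi w L n m c' Hi ((rot ^ j) ((pE ^ (L - 1)) w).rR) = c' + (j - 1) := by
          rw [R.hi_new (R.new_j j), R.vl_j h2, Nat.min_eq_left (by omega)]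
          omega
        have vo : rHo w L n m c' Ho ((rot ^ j) ((pE ^ (L - 1)) w).rR) = c' + (j - 1) := by
          rw [R.ho_new (R.new_j j), R.vl_j h2, Nat.min_eq_left (by omega)]
          omega
        have bd : -1 ≤ c' + ((j : ℤ) - 1) ∧ c' + ((j : ℤ) - 1) ≤ 1 := by omega
        refine Loc0.mk4 ?_ ?_ ?_ ?_
        · intro _
          unfold Nb.dl
          rw [Nb.nx_nke hke, hnx, if_neg hke, vo, R.hi_new (R.new_j _), R.vl_j hj]
          by_cases hj2 : j + 2 < n
          · rw [if_neg (R.nke'_j A (by omega) hj2), Nat.min_eq_left (by omega)]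
            push_cast; omega
          · have hj3 : j + 1 = n - 1 := by omega
            have h7 : N'.ke ((rot ^ (j + 1)) ((pE ^ (L - 1)) w).rR) := by
              rw [hj3, R.rotl]; exact R.ke'_z A
            rw [if_pos h7, Nat.min_eq_right (by omega)]
            omega
        · intro _ _
          rw [vi, vo]
          exact ⟨rfl, bd.1, bd.2⟩
        · intro _ _ _
          rw [vo]
          exact bd
        · intro ho
          exact absurd ho (nopC _ (R.nSC (i := L - 1) (by omega) (R.scj j)))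
      · -- up the east side
        have hj' : j = n - 1 := by omega
        rw [hj', R.rotl] at e
        subst e
        have hke := R.ke'_z A
        have hkW : ¬ N.ke ((pE ^ (L - 1)) w) := R.nkeW (by omega)
        have hdW : N.Dt ((pE ^ (L - 1)) w) := ⟨R.kvW (by omega), R.nkf (by omega)⟩
        have hd : N.Dt ((pE ^ (L - 1)) w).stE.rL := by
          have := hdW.nx
          rwa [Nb.nx_nke hkW] at this
        have vi : rHi w L n m c' Hi ((pE ^ (L - 1)) w).stE.r2 = c + 1 := by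
          rw [← R.rotl, R.hi_new (R.new_j _), R.vl_j (by omega), Nat.min_eq_right (by omega)]
          omega
        have vo : rHo w L n m c' Ho ((pE ^ (L - 1)) w).stE.r2 = c + 1 := by
          rw [← R.rotl, R.ho_new (R.new_j _), R.vl_j (by omega), Nat.min_eq_right (by omega)]
          omega
        have hO : ¬ RO w L m ((pE ^ (L - 1)) w).stE.rL := by
          rintro (h3 | ⟨k, hk, h3⟩)
          · have h4 : ((pE ^ (L - 1)) w).stE.rL.facet =
                ((rot ^ (n - 1)) ((pE ^ (L - 1)) w).rR).facet := by rw [R.rotl]; rfl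
            rw [h4] at h3
            exact R.Glast (by omega) (by omega) h3
          · refine R.far (L - 1) (by omega) ?_
            rw [← SC_rot_right, h3]
            exact sc_zp w k
        refine Loc0.mk4 ?_ ?_ ?_ ?_
        · intro hJs
          rw [Nb.nx_ke hke, FSt.r2_rR] at hJs ⊢
          rw [vo, R.hi_O hd hO]
          have h5 := (h.loc hdW).nxt
          rw [Nb.nx_nke hkW] at h5
          rw [h5 hJs, q2 (L - 1) (by omega)]
          unfold Nb.dl
          rw [Nb.nx_ke hke, FSt.r2_rR, if_pos hke, Nb.nx_nke hkW, if_neg hkW]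
          simp only [S.ke _ hd hO]
          ring
        · intro _ _
          rw [vi, vo]
          exact ⟨rfl, hcb.1, hcb.2⟩
        · intro hk; exact absurd hke hk
        · intro ho
          refine absurd ho (nopC _ ?_)
          rw [← R.rotl]
          exact R.nSC (i := L - 1) (by omega) (R.scj _)
    · -- around the first corner
      subst e
      have hke := R.nke'_z Z A h1 hk
      obtain ⟨k, rfl⟩ : ∃ j, k = j + 1 := ⟨k - 1, by omega⟩
      have hnx : (zp w (k + 1)).stE.rL = zp w k := rot_zp w k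
      obtain ⟨q4, q5⟩ := q3 (k + 1) h1 hk
      push_cast at q4 q5
      have vo : rHo w L n m c' Ho (zp w (k + 1)) = c' - k := by
        rw [R.ho_z Z h1 hk, q4]; omega
      have b3 := b2 (by omega)
      have nxt : J (N'.nx (zp w (k + 1))).facet → rHi w L n m c' Hi (N'.nx (zp w (k + 1))) =
          rHo w L n m c' Ho (zp w (k + 1)) + N'.dl (zp w (k + 1)) := by
        intro _
        unfold Nb.dl
        rw [Nb.nx_nke hke, hnx, if_neg hke, vo]
        rcases k with _ | k
        · have h6 : N'.ke (zp w 0) := R.ke'_bS A (i := 0) hp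
          rw [if_pos h6]
          have h7 : rHi w L n m c' Hi (zp w 0) = c' := by
            have h8 := R.hi_new (m := m) (c' := c') (Hi := Hi) (R.new_bS (i := 0) hp)
            have h9 := R.vl_bS (c' := c') (i := 0) hp
            exact h8.trans h9
          rw [h7]; simp
        · rw [if_neg (R.nke'_z Z A (by omega) (by omega)), R.hi_z Z (by omega) (by omega)]
          have h8 := (q3 (k + 1) (by omega) (by omega)).2 (by omega)
          rw [h8]
          push_cast; omega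
      by_cases hkm : k + 1 < m
      · have vi : rHi w L n m c' Hi (zp w (k + 1)) = c' - k := by
          rw [R.hi_z Z h1 hkm, q5 hkm]; omega
        refine Loc0.mk4 nxt ?_ ?_ ?_
        · intro _ _
          rw [vi, vo]
          exact ⟨rfl, by omega, by omega⟩
        · intro _ _ _
          rw [vo]
          exact ⟨by omega, by omega⟩
        · intro ho; exact absurd ho (Z.nop _ hkm)
      · have hkm' : k + 1 = m := by omega
        have hOp : Op (zp w (k + 1)) := by rw [hkm']; exact Z.op (by omega)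
        refine Loc0.mk4 nxt ?_ ?_ ?_
        · intro _ ho; exact absurd hOp ho
        · intro _ _ ho; exact absurd hOp ho
        · intro _
          obtain ⟨p1, p2, p3, p4, p5, p6, p7, p8⟩ := h.op _ hOp
          have vi : rHi w L n m c' Hi (zp w (k + 1)) = Hi (zp w (k + 1)) := by
            rw [hkm']; exact R.hi_zm Z (by omega)
          rw [vi, vo]
          exact ⟨(R.kv' A _).2 (Or.inl p1), hke, p3, p4, p5, p6, by omega, by omega⟩
  · -- the ports are darts
    intro t ht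
    have h1 := h.op t ht
    have hd : N.Dt t := ⟨h1.kv, Nb.nkf_of_nke h1.ke⟩
    by_cases hO : RO w L m t
    · rcases hO with hG | hz
      · exfalso
        rcases R.inGkv hG h1.kv with ⟨i, hi, e | e⟩ | e
        · exact hW i hi (e ▸ ht)
        · exact h1.ke (e ▸ R.top i hi)
        · exact h1.ke (e ▸ R.left)
      · exact S.Dt' (Or.inr hz)
    · exact S.Dt hd hO

section

variable {R : Core1 P} {J : P.Facet → Prop} {N N' : Nb P} {H : P.FSt → ℤ}
  {lin lout : P.FSt → Ln} {w : P.FSt} {L n m : ℕ}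

/-- **A row is added**, general form. -/
theorem Gr0.rowG (hJc : Jct R J) {S S' : List (P.FSt × ℤ × ℤ)}
    (h : Gr0 R J N H lin lout S) (W : Row N w L n)
    (Z : Zone N (fun t => t ∈ S.map Prod.fst) w n m) (A : AddsF N N' (RowG w L))
    (eS : S'.map Prod.fst = S.map Prod.fst)
    (hJ : ∀ i < L, J ((pE ^ i) w).facet)
    (hJn : ∀ i < L, ∀ s, SC ((pE ^ i) w).rR s → J s.facet)
    (hJz : ∀ k < m, J (zp w k).facet) (hW : ∀ i < L, (pE ^ i) w ∉ S.map Prod.fst)
    {c c' : ℤ} (hc : H (bS w) = c + 1) (ec : c' = c - (n - 4)) (b1 : -1 ≤ c')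
    (b2 : 1 ≤ m → -1 ≤ c' - m + 2 ∧ c' - m + 2 ≤ 1)
    (hS : ∀ p ∈ S', (p.1 = zp w m ∧ 1 ≤ m ∧ ∃ q ∈ S, q.1 = p.1 ∧ p.2.1 = q.2.1 ∧
        p.2.2 = q.2.2 - (n - 4)) ∨ (p.1 ≠ zp w m ∧ p ∈ S)) :
    Gr0 R J N' (rHo w L n m c' H) lin lout S' := by
  classical
  obtain ⟨Hi, Ho, g1, g2, g3⟩ := h.ex
  have hc' : Ho (bS w) = c + 1 := by rw [g3 _ Z.nop0]; exact hc
  have g5 := g1.row W Z A hc' ec b1 b2 hW hJ hJz
  have hz0 : J (bS w).facet := by
    have h0 := hJn 0 W.pos (rot ((pE ^ 0) w).rR) (W.sc1 0)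
    exact h0
  have hJz' : ∀ k ≤ m, J (zp w k).facet := by
    intro k hk
    rcases Nat.lt_or_ge k m with h1 | h1
    · exact hJz k h1
    · rcases Nat.eq_zero_or_pos m with h2 | h2
      · have : k = 0 := by omega
        subst this; exact hz0
      · have : k = m := by omega
        subst this
        exact (g1.op _ (Z.op h2)).Jt
  refine ⟨?_, ⟨rHi w L n m c' Hi, rHo w L n m c' Ho, ?_, ?_, ?_⟩, ?_, ?_, W.one Z A h.one, h.lE⟩
  · rw [eS]; exact h.nd
  · rw [eS]; exact g5
  · intro p hp'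
    rcases hS p hp' with ⟨e, hm, q, hq, eq1, eq2, eq3⟩ | ⟨hne, hpS⟩
    · have h2 := g2 q hq
      rw [eq1, e] at h2
      rw [e, W.hi_zm Z hm, W.ho_z Z hm le_rfl]
      omega
    · have hm : p.1 ∈ S.map Prod.fst := List.mem_map_of_mem hpS
      have h1 := g1.op p.1 hm
      have hd : N.Dt p.1 := ⟨h1.kv, Nb.nkf_of_nke h1.ke⟩
      have hO : ¬ RO w L m p.1 := by
        rintro (hG | ⟨k, hk, e⟩)
        · rcases W.inGkv hG h1.kv with ⟨i, hi, e | e⟩ | e
          · exact hW i hi (e ▸ hm)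
          · exact h1.ke (e ▸ W.top i hi)
          · exact h1.ke (e ▸ W.left)
        · rcases Nat.lt_or_ge k m with h2 | h2
          · exact Z.nop k h2 (e ▸ hm)
          · have : k = m := by omega
            exact hne (by rw [e, this])
      rw [W.hi_O hd hO, W.ho_O hd hO]
      exact g2 p hpS
  · intro s hs
    rw [eS] at hs
    unfold rHo
    rw [g3 s hs]
  · intro r hr hJr hS
    obtain ⟨k1, k2, k3⟩ := row_in W A hJc.nc hJn hJ hJz hr hS
    rw [W.ho_O k2 k3]
    exact h.st r hr hJr k1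
  · intro r hr hJr hS
    obtain ⟨k1, k2, k3⟩ := row_out W A hJc.nc hJn hJ hJz' hr hS
    rw [W.ho_O k2 k3]
    exact h.en r hr hJr k1

/-- **A row is added**, four facets at the last corner. -/
theorem Gr0.row0 (hJc : Jct R J) {S : List (P.FSt × ℤ × ℤ)}
    (h : Gr0 R J N H lin lout S) (W : Row N w L 4) (A : AddsF N N' (RowG w L))
    (hJ : ∀ i < L, J ((pE ^ i) w).facet)
    (hJn : ∀ i < L, ∀ s, SC ((pE ^ i) w).rR s → J s.facet)
    (hW : ∀ i < L, (pE ^ i) w ∉ S.map Prod.fst) (hb : bS w ∉ S.map Prod.fst) :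
    Gr0 R J N' (rHo w L 4 0 (H (bS w) - 1) H) lin lout S := by
  have hp := W.pos
  have Z : Zone N (fun t => t ∈ S.map Prod.fst) w 4 0 :=
    ⟨fun k h1 h2 => by omega, fun h1 => by omega, fun k hk => by omega, hb, fun _ => rfl⟩
  have hcW : -1 ≤ H (bS w) - 1 := by
    obtain ⟨Hi, Ho, g1, g2, g3⟩ := h.ex
    obtain ⟨q1, q2⟩ := W.old0 g1 (c := Ho (bS w) - 1) (by ring) hW hJ
    have h1 := (g1.loc (s := (pE ^ 0) w) ⟨W.kvW hp, W.nkf hp⟩).io (hJ 0 hp) (hW 0 hp)
    rw [q2 0 hp] at h1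
    rw [← g3 _ hb]
    exact h1.2.1
  refine h.rowG hJc W Z A rfl hJ hJn (fun k hk => by omega) hW (c := H (bS w) - 1) (by ring)
    (by push_cast; ring) hcW (fun h1 => by omega) ?_
  intro p hp'
  refine Or.inr ⟨?_, hp'⟩
  intro hc
  apply hb
  have : p.1 ∈ S.map Prod.fst := List.mem_map_of_mem hp'
  rw [hc] at this
  exact this

/-- the heading at the first corner, from the port -/
lemma Gr0.zone_c {S : List (P.FSt × ℤ × ℤ)} {a b : ℤ}
    (h : Gr0 R J N H lin lout ((zp w m, a, b) :: S))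
    (hv : N.kv w.r2) (nke0 : ∀ k ≤ m, ¬ N.ke (zp w k)) (hJz : ∀ k < m, J (zp w k).facet)
    (hz : ∀ k < m, zp w k ∉ (((zp w m, a, b) :: S : List (P.FSt × ℤ × ℤ))).map Prod.fst) :
    ∀ j, 1 ≤ j → j ≤ m → H (zp w (m - j)) = b - 1 + j := by
  classical
  obtain ⟨Hi, Ho, g1, g2, g3⟩ := h.ex
  have hd : ∀ k ≤ m, N.Dt (zp w k) := fun k hk =>
    ⟨(N.kv_SC (sc_zp w k)).1 hv, Nb.nkf_of_nke (nke0 k hk)⟩
  have g4 := (g2 (zp w m, a, b) (by simp)).2
  have key : ∀ j ≤ m, Ho (zp w (m - j)) = b - 1 + j := by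
    intro j
    induction j with
    | zero => intro _; rw [Nat.sub_zero]; push_cast; simp only at g4; omega
    | succ j ih =>
      intro hj
      have h1 := ih (by omega)
      have h2 := (g1.loc (hd (m - j) (by omega))).nxt
      unfold Nb.dl at h2
      have e : (zp w (m - j)).stE.rL = zp w (m - (j + 1)) := by
        have h3 := rot_zp w (m - (j + 1))
        rw [show m - (j + 1) + 1 = m - j by omega] at h3
        exact h3
      rw [Nb.nx_nke (nke0 _ (by omega)), e, if_neg (nke0 _ (by omega)),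
        if_neg (nke0 _ (by omega))] at h2
      have h4 := h2 (hJz _ (by omega))
      have h5 := (g1.loc (hd (m - (j + 1)) (by omega))).io (hJz _ (by omega))
        (hz _ (by omega))
      push_cast
      omega
  intro j h1 h2
  rw [← g3 _ (hz _ (by omega))]
  exact key j h2

/-- **A row is added**, a port `(a, b)` at the first corner. -/
theorem Gr0.rowP (hJc : Jct R J) {S : List (P.FSt × ℤ × ℤ)} {a b b' c c' : ℤ}
    (h : Gr0 R J N H lin lout ((zp w m, a, b) :: S)) (hm : 1 ≤ m) (W : Row N w L n)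
    (A : AddsF N N' (RowG w L)) (nke : ∀ k, 1 ≤ k → k ≤ m → ¬ N.ke (zp w k))
    (hJ : ∀ i < L, J ((pE ^ i) w).facet)
    (hJn : ∀ i < L, ∀ s, SC ((pE ^ i) w).rR s → J s.facet)
    (hJz : ∀ k < m, J (zp w k).facet) (hW : ∀ i < L, (pE ^ i) w ∉ S.map Prod.fst)
    (hz : ∀ k < m, zp w k ∉ S.map Prod.fst) (ec : c = b + m - 2) (ec' : c' = c - (n - 4))
    (eb : b' = b - (n - 4)) (b1 : -1 ≤ b') (b2 : b' ≤ 1) (b3 : -1 ≤ c') :
    Gr0 R J N' (rHo w L n m c' H) lin lout ((zp w m, a, b') :: S) := by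
  have hp := W.pos
  have hnd := h.nd
  rw [List.map_cons, List.nodup_cons] at hnd
  have nke0 : ∀ k ≤ m, ¬ N.ke (zp w k) := by
    intro k hk
    rcases Nat.eq_zero_or_pos k with h1 | h1
    · subst h1; exact W.nke_bS (i := 0) hp
    · exact nke k h1 hk
  -- different darts
  have dz : ∀ j k, j < k → k ≤ m → zp w j ≠ zp w k := by
    intro j
    induction j with
    | zero =>
      intro k h1 h2 h3
      have h4 := congrArg rot h3
      obtain ⟨k, rfl⟩ : ∃ j, k = j + 1 := ⟨k - 1, by omega⟩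
      rw [rot_zp, zp_zero, rot_bS] at h4
      exact nke0 k (by omega) (h4 ▸ W.left)
    | succ j ih =>
      intro k h1 h2 h3
      have h4 := congrArg rot h3
      obtain ⟨k, rfl⟩ : ∃ j, k = j + 1 := ⟨k - 1, by omega⟩
      rw [rot_zp, rot_zp] at h4
      exact ih k (by omega) (by omega) h4
  have hmem : ∀ s, s ∉ S.map Prod.fst → s ≠ zp w m →
      s ∉ (((zp w m, a, b) :: S : List (P.FSt × ℤ × ℤ))).map Prod.fst := by
    intro s h1 h2 h3
    rw [List.map_cons, List.mem_cons] at h3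
    rcases h3 with h3 | h3
    · exact h2 h3
    · exact h1 h3
  have hWz : ∀ i < L, (pE ^ i) w ≠ zp w m := by
    intro i hi he
    exact W.far i hi (he ▸ sc_zp w m)
  have hz' : ∀ k < m, zp w k ∉
      (((zp w m, a, b) :: S : List (P.FSt × ℤ × ℤ))).map Prod.fst :=
    fun k hk => hmem _ (hz k hk) (dz k m hk le_rfl)
  have Z : Zone N (fun t => t ∈ (((zp w m, a, b) :: S : List (P.FSt × ℤ × ℤ))).map Prod.fst)
      w n m :=
    ⟨nke, fun _ => by simp, hz', hz' 0 (by omega), fun h1 => by omega⟩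
  have hc0 : H (bS w) = c + 1 := by
    have h1 := h.zone_c W.kv0 nke0 hJz hz' m hm le_rfl
    rw [Nat.sub_self] at h1
    rw [← zp_zero, h1, ec]; ring
  refine h.rowG hJc W Z A (by simp) hJ hJn hJz (fun i hi => hmem _ (hW i hi) (hWz i hi))
    hc0 ec' b3 (fun _ => by omega) ?_
  intro p hp'
  rcases List.mem_cons.1 hp' with rfl | hp'
  · exact Or.inl ⟨rfl, hm, (zp w m, a, b), by simp, rfl, rfl, by simp only; omega⟩
  · refine Or.inr ⟨?_, List.mem_cons_of_mem _ hp'⟩
    intro hc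
    have h9 : p.1 ∈ S.map Prod.fst := List.mem_map_of_mem hp'
    rw [hc] at h9
    exact hnd.1 h9

end

end Pool.Agent.MP42K
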