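import Pool.Agent.MP42.K.FG1

/-!
# Fattening without lines: blocks (owner helper18)

The block: `bk w i k`, `i < L`, `k < K` (`i` steps to the east, `k` steps to the south), see
`K/Fat4.lean`.

* `Gr0.fat0`: the block is added, four facets at the last corner;
* `Gr0.fatP`: the block is added, `n` facets at the last corner, a port at the south-west corner.
-/

set_option autoImplicit false
set_option linter.unusedSectionVars false

namespace Pool.Agent.MP42K

open Pool.Agent.Helper55.UNF Pool.Agent.Helper55.UNF.GridSolid Pool.Agent.MP42G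
open Pool.Agent.MP42H Pool.Agent.MP42X Pool.Agent.MP42R
open Core1 (jf)
open Nb (SC SC_rot_right SC_rot_left SC_rev rev_rot rot)

variable {P : GridSolid} {R : Core1 P} {J : P.Facet → Prop} {N N' : Nb P} {H : P.FSt → ℤ}
  {lin lout : P.FSt → Ln} {w : P.FSt} {L K n m : ℕ}

lemma Gr0.kv_port {S : List (P.FSt × ℤ × ℤ)} (h : Gr0 R J N H lin lout S) {s : P.FSt}
    (hs : s ∈ S.map Prod.fst) : N.kv s := by
  obtain ⟨Hi, Ho, h1, -⟩ := h.ex
  exact (h1.op s hs).kv

/-- the facet under the first column -/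
lemma bS_bk_facet (w : P.FSt) (k : ℕ) : (bS (bk w 0 k)).facet = (bk w 0 (k + 1)).facet := by
  rw [bk_0N, ← rot_rR, ← bS_rR]; rfl

lemma BlG_mono {K K' : ℕ} (hK : K ≤ K') {f : P.Facet} (h : BlG w L K f) : BlG w L K' f := by
  obtain ⟨i, hi, k, hk, e⟩ := h
  exact ⟨i, hi, k, by omega, e⟩

/-- the edges at the old darts -/
lemma Row.ke_O {n m : ℕ} (W : Row N w L n) (A : AddsF N N' (RowG w L)) {s : P.FSt}
    (hd : N.Dt s) (hO : ¬ RO w L m s) : N'.ke s ↔ N.ke s := by
  rw [A.ke]
  refine ⟨?_, Or.inl⟩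
  rintro (h | h | h)
  · exact h
  · exact absurd (Or.inl h) hO
  · obtain ⟨i, hi, e | e | e | e⟩ := W.inG h
    · rcases i with _ | i
      · have h1 : s.stE.r2 = w.r2 := by rw [e]; rfl
        rw [← N.ke_rev, h1]; exact W.left
      · rw [pE_succ] at e
        have h1 : s = (pE ^ i) w := pE.injective e
        exact absurd (Or.inl ⟨i, by omega, by rw [h1]⟩) hO
    · have h1 : s = bS ((pE ^ i) w) := by
        have h2 : s.stE.r2.stE.r2 = bS ((pE ^ i) w) := by
          rw [e, FSt.rL_r2]; rfl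
        rwa [FSt.stE_inv, FSt.r2_r2] at h2
      rcases i with _ | i
      · exact absurd (Or.inr ⟨0, by omega, h1⟩) hO
      · exfalso
        have h2 := (N.kv_rot s).2 hd.1
        rw [h1] at h2
        have h3 : N.kv (rot (bS ((pE ^ (i + 1)) w))) := h2
        rw [rot_bS] at h3
        exact W.newr hi h3
    · have h1 : s.stE.r2 = ((pE ^ i) w).rL := by rw [e, FSt.rR_r2]
      rw [← N.ke_rev, h1]; exact W.top i hi
    · have h1 : s = ((pE ^ i) w).stE.r2 := by
        have h2 : s.stE.r2.stE.r2 = ((pE ^ i) w).stE.r2 := by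
          rw [e, FSt.r2_r2]
        rwa [FSt.stE_inv, FSt.r2_r2] at h2
      exfalso
      have h2 := (N.kv_rot s).2 hd.1
      rw [h1] at h2
      have h3 : N.kv (rot ((pE ^ i) w).stE.r2) := h2
      rw [rot_stE_r2] at h3
      exact W.new i hi h3

/-- **A block is added**, four facets at the last corner. -/
theorem Gr0.fat0 (hJc : Jct R J) {S : List (P.FSt × ℤ × ℤ)}
    (h : Gr0 R J N H lin lout S) (B : Block N w L K 4) (A : AddsF N N' (BlG w L K))
    (hJ : ∀ i < L, ∀ k < K, J (bk w i k).facet)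
    (hJn : ∀ i < L, ∀ k < K, ∀ s, SC (bk w i k).rR s → J s.facet)
    (hW : ∀ i < L, bk w i 0 ∉ S.map Prod.fst) (hb : ∀ k < K, bS (bk w 0 k) ∉ S.map Prod.fst) :
    ∃ H' : P.FSt → ℤ, (∀ s, N.Dt s → ¬ BlG w L K s.facet →
      (∀ k, k + 1 = K → s ≠ bS (bk w 0 k)) → H' s = H s ∧ (N'.ke s ↔ N.ke s)) ∧
      Gr0 R J N' H' lin lout S := by
  induction K generalizing N' with
  | zero =>
    have e : N' = N := by
      have : (BlG w L 0) = (fun _ => False) := by
        funext f
        apply propext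
        constructor
        · rintro ⟨i, -, k, hk, -⟩; omega
        · exact False.elim
      rw [this] at A
      exact addsF_empty A
    rw [e]; exact ⟨H, fun _ _ _ _ => ⟨rfl, Iff.rfl⟩, h⟩
  | succ K ih =>
    have A1 := addsF_addF N (BlG w L K)
    obtain ⟨H1, e1, h1⟩ := ih B.less A1 (fun i hi k hk => hJ i hi k (by omega))
      (fun i hi k hk => hJn i hi k (by omega)) (fun k hk => hb k (by omega))
    have W := B.row A1
    have hp := B.posL
    refine ⟨_, ?_, h1.row0 hJc W (Block.adds A1 A) (fun i hi => hJ i hi K (by omega))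
      (fun i hi s hs => hJn i hi K (by omega) s hs) ?_ (hb K (by omega))⟩
    · intro s hd hG hs
      have hd1 : (N.addF (BlG w L K)).Dt s := by
        refine ⟨(A1.kv s).2 (Or.inl hd.1), fun h2 => ?_⟩
        rcases (A1.kf _).1 h2 with h3 | h3
        · exact hd.2 h3
        · exact hG (BlG_mono (by omega) h3)
      have hO : ¬ RO (bk w 0 K) L 0 s := by
        rintro (⟨i, hi, e⟩ | ⟨k, hk, e⟩)
        · exact hG ⟨i, hi, K, by omega, e⟩
        · have : k = 0 := by omega
          subst this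
          exact hs K rfl e
      have e2 := e1 s hd (fun h2 => hG (BlG_mono (by omega) h2)) (by
        intro k hk e
        exact hG ⟨0, hp, k + 1, by omega, by rw [e, bS_bk_facet]⟩)
      rw [W.ho_O hd1 hO, W.ke_O (Block.adds A1 A) hd1 hO]
      exact e2
    · intro i hi hc
      rcases K with _ | K
      · exact hW i hi hc
      · have h2 := B.sc_S hi (by omega : K < K + 1 + 1)
        exact B.new i hi K (by omega) ((N.kv_SC h2).2 (h.kv_port hc))

/-- **A block is added**, a port `(a, b)` at the south-west corner, `n` facets at the south-east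
corner. -/
theorem Gr0.fatP (hJc : Jct R J) {S : List (P.FSt × ℤ × ℤ)} {a b b' c c' : ℤ}
    (h : Gr0 R J N H lin lout ((zp (bk w 0 K) m, a, b) :: S)) (hm : 1 ≤ m)
    (B : Block N w L (K + 1) n) (A : AddsF N N' (BlG w L (K + 1)))
    (nke : ∀ k, 1 ≤ k → k ≤ m → ¬ N.ke (zp (bk w 0 K) k))
    (hJ : ∀ i < L, ∀ k < K + 1, J (bk w i k).facet)
    (hJn : ∀ i < L, ∀ k < K + 1, ∀ s, SC (bk w i k).rR s → J s.facet)
    (hJz : ∀ k < m, J (zp (bk w 0 K) k).facet)
    (hW : ∀ i < L, bk w i 0 ∉ S.map Prod.fst) (hb : ∀ k < K, bS (bk w 0 k) ∉ S.map Prod.fst)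
    (hz : ∀ k < m, zp (bk w 0 K) k ∉ S.map Prod.fst)
    (hzG : ∀ k ≤ m, ¬ BlG w L (K + 1) (zp (bk w 0 K) k).facet)
    (ec : c = b + m - 2) (ec' : c' = c - (n - 4))
    (eb : b' = b - (n - 4)) (b1 : -1 ≤ b') (b2 : b' ≤ 1) (b3 : -1 ≤ c') :
    ∃ H' : P.FSt → ℤ, (∀ s, N.Dt s → ¬ BlG w L (K + 1) s.facet →
      (∀ k ≤ m, s ≠ zp (bk w 0 K) k) → H' s = H s ∧ (N'.ke s ↔ N.ke s)) ∧
      Gr0 R J N' H' lin lout ((zp (bk w 0 K) m, a, b') :: S) := by
  have A1 := addsF_addF N (BlG w L K)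
  have hp := B.posL
  have hzW : ∀ i < L, bk w i 0 ≠ zp (bk w 0 K) m := fun i hi e =>
    hzG m le_rfl ⟨i, hi, 0, by omega, by rw [e]⟩
  have hzb : ∀ k < K, bS (bk w 0 k) ≠ zp (bk w 0 K) m := by
    intro k hk e
    exact hzG m le_rfl ⟨0, hp, k + 1, by omega, by rw [← e, bS_bk_facet]⟩
  have mem1 : ∀ s : P.FSt, s ≠ zp (bk w 0 K) m → s ∉ S.map Prod.fst →
      s ∉ (((zp (bk w 0 K) m, a, b) :: S : List (P.FSt × ℤ × ℤ))).map Prod.fst := by
    intro s h1 h2 h3
    rw [List.map_cons, List.mem_cons] at h3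
    rcases h3 with h3 | h3
    · exact h1 h3
    · exact h2 h3
  obtain ⟨H1, e1, h1⟩ := h.fat0 hJc B.less A1 (fun i hi k hk => hJ i hi k (by omega))
    (fun i hi k hk => hJn i hi k (by omega)) (fun i hi => mem1 _ (hzW i hi) (hW i hi))
    (fun k hk => mem1 _ (hzb k hk) (hb k hk))
  have W := B.row A1
  refine ⟨_, ?_, h1.rowP hJc hm W (Block.adds A1 A) ?_ (fun i hi => hJ i hi K (by omega))
    (fun i hi s hs => hJn i hi K (by omega) s hs) hJz ?_ hz ec ec' eb b1 b2 b3⟩
  · intro s hd hG hs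
    have hd1 : (N.addF (BlG w L K)).Dt s := by
      refine ⟨(A1.kv s).2 (Or.inl hd.1), fun h2 => ?_⟩
      rcases (A1.kf _).1 h2 with h3 | h3
      · exact hd.2 h3
      · exact hG (BlG_mono (by omega) h3)
    have hO : ¬ RO (bk w 0 K) L m s := by
      rintro (⟨i, hi, e⟩ | ⟨k, hk, e⟩)
      · exact hG ⟨i, hi, K, by omega, e⟩
      · exact hs k hk e
    have e2 := e1 s hd (fun h2 => hG (BlG_mono (by omega) h2)) (by
      intro k hk e
      exact hG ⟨0, hp, k + 1, by omega, by rw [e, bS_bk_facet]⟩)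
    rw [W.ho_O hd1 hO, W.ke_O (Block.adds A1 A) hd1 hO]
    exact e2
  · -- the edges around the port
    intro k k1 k2
    rw [A1.ke]
    rintro (h2 | h2 | h2)
    · exact nke k k1 k2 h2
    · exact hzG k k2 (BlG_mono (by omega) h2)
    · obtain ⟨k, rfl⟩ : ∃ j, k = j + 1 := ⟨k - 1, by omega⟩
      have e : (zp (bk w 0 K) (k + 1)).stE.facet = (zp (bk w 0 K) k).facet := by
        rw [← rot_zp (bk w 0 K) k]; rfl
      rw [e] at h2
      exact hzG k (by omega) (BlG_mono (by omega) h2)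
  · intro i hi hc
    have e : (pE ^ i) (bk w 0 K) = bk w i K := rfl
    rw [e] at hc
    rcases K with _ | K
    · exact hW i hi hc
    · have h2 := B.sc_S hi (by omega : K < K + 1 + 1)
      refine B.new i hi K (by omega) ((N.kv_SC h2).2 (h.kv_port ?_))
      rw [List.map_cons]
      exact List.mem_cons_of_mem _ hc

end Pool.Agent.MP42K
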