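import Pool.Agent.MP42.K.Surg

/-!
# Fattening: a row of facets is added (owner helper18)

`w` is the first facet of the row (north up), `W i = (pE ^ i) w` the others, `i < L`.  The north
sides of all facets and the west side of `w` are in `N`, the south-east corners are new.  The ride
under the north sides (heading `c`) is replaced by a ride under the row (heading `c' = c - (n - 4)`,
`n` facets at the last corner) and a way up the east side (heading `c + 1`).
-/

set_option autoImplicit false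
set_option linter.unusedSectionVars false

namespace Pool.Agent.MP42K

open Pool.Agent.Helper55.UNF Pool.Agent.Helper55.UNF.GridSolid Pool.Agent.MP42G
open Pool.Agent.MP42H Pool.Agent.MP42X Pool.Agent.MP42R
open Core1 (jf)
open Nb (SC SC_rot_right SC_rot_left SC_rev rev_rot rot)

variable {P : GridSolid}

/-- `N'` is `N` with the closed facets `G` -/
structure AddsF (N N' : Nb P) (G : P.Facet → Prop) : Prop where
  kv : ∀ s, N'.kv s ↔ N.kv s ∨ ∃ t, SC t s ∧ G t.facet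
  ke : ∀ s, N'.ke s ↔ N.ke s ∨ G s.facet ∨ G s.stE.facet
  kf : ∀ f, N'.kf f ↔ N.kf f ∨ G f

lemma addsF_addF (N : Nb P) (G : P.Facet → Prop) : AddsF N (N.addF G) G :=
  ⟨fun _ => Iff.rfl, fun _ => Iff.rfl, fun _ => Iff.rfl⟩

/-- the facets of a row -/
def RowG (w : P.FSt) (L : ℕ) (f : P.Facet) : Prop := ∃ i < L, f = ((pE ^ i) w).facet

/-- A row that can be added. -/
structure Row (N : Nb P) (w : P.FSt) (L n : ℕ) : Prop where
  pos : 0 < L
  top : ∀ i < L, N.ke ((pE ^ i) w).rL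
  left : N.ke w.r2
  new : ∀ i < L, ¬ N.kv ((pE ^ i) w).rR
  dis : ∀ i < L, ∀ j < L, SC ((pE ^ i) w).rR ((pE ^ j) w).rR → i = j
  four : ∀ i, i + 1 < L → Val ((pE ^ i) w).rR 4
  last : Val ((pE ^ (L - 1)) w).rR n
  far : ∀ i < L, ¬ SC w.r2 ((pE ^ i) w)

lemma pE_succ (w : P.FSt) (i : ℕ) : (pE ^ (i + 1)) w = ((pE ^ i) w).stE := by
  rw [pow_succ', Equiv.Perm.mul_apply]; rfl

/-- the south side of the facet, seen from the south -/
def bS (s : P.FSt) : P.FSt := s.rR.stE.r2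

lemma bS_rR (s : P.FSt) : (bS s).rR = rot s.rR := by
  unfold bS; rw [FSt.r2_rR]; rfl

lemma rot_bS (s : P.FSt) : rot (bS s) = s.r2 := by
  unfold bS
  show s.rR.stE.r2.stE.rL = _
  rw [rev_rot, FSt.rR_rR]

lemma rot_stE_r2 (s : P.FSt) : rot s.stE.r2 = s.rR := rev_rot s

/-- around the south-east corner of `s`, backwards -/
lemma rot_bS_stE (s : P.FSt) : rot (rot (bS s.stE)) = s.rR := by
  rw [rot_bS, rot_stE_r2]

namespace Row

variable {N N' : Nb P} {w : P.FSt} {L n : ℕ} (R : Row N w L n)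

include R

lemma three : 3 ≤ n := by
  obtain ⟨t, ht⟩ : ∃ t : P.FSt, ((pE ^ (L - 1)) w) = t := ⟨_, rfl⟩
  have h1 := R.last
  rw [ht] at h1
  have h2 := h1.two
  by_contra hc
  have h3 : n = 2 := by omega
  have h4 := h1.per
  rw [h3] at h4
  exact rot2_ne t.rR h4

lemma kvW {i : ℕ} (hi : i < L) : N.kv ((pE ^ i) w) := by
  have h := Nb.kv_rR (R.top i hi)
  rwa [FSt.rL_rR] at h

lemma kvL {i : ℕ} (hi : i < L) : N.kv ((pE ^ i) w).rL := N.ke_kv _ (R.top i hi)

lemma kv0 : N.kv w.r2 := N.ke_kv _ R.left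

lemma sc_r2 (i : ℕ) : SC ((pE ^ i) w).rR ((pE ^ (i + 1)) w).r2 := by
  rw [← SC_rot_right, pE_succ]
  show SC _ (rot ((pE ^ i) w).stE.r2)
  rw [rot_stE_r2]
  exact SC.refl _

lemma newr {i : ℕ} (hi : i + 1 < L) : ¬ N.kv ((pE ^ (i + 1)) w).r2 := by
  rw [← N.kv_SC (R.sc_r2 i)]
  exact R.new i (by omega)

lemma nkf {i : ℕ} (hi : i < L) : ¬ N.kf ((pE ^ i) w).facet := fun h =>
  R.new i hi (N.ke_kv _ (N.kf_ke ((pE ^ i) w).rR h))

lemma nkeW {i : ℕ} (hi : i < L) : ¬ N.ke ((pE ^ i) w) := fun h => R.new i hi (Nb.kv_rR h)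

lemma nke_bS {i : ℕ} (hi : i < L) : ¬ N.ke (bS ((pE ^ i) w)) := by
  intro h
  have h1 := Nb.kv_rR h
  rw [bS_rR] at h1
  exact R.new i hi ((N.kv_rot _).1 h1)

lemma nSC {i : ℕ} (hi : i < L) {s : P.FSt} (h : SC ((pE ^ i) w).rR s) : ¬ N.kv s := fun hk =>
  R.new i hi ((N.kv_SC h).2 hk)

/-- the darts in the facets of the row -/
lemma inG {s : P.FSt} (h : RowG w L s.facet) : ∃ i < L, s = (pE ^ i) w ∨ s = ((pE ^ i) w).rL ∨
    s = ((pE ^ i) w).rR ∨ s = ((pE ^ i) w).r2 := by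
  obtain ⟨i, hi, e⟩ := h
  refine ⟨i, hi, ?_⟩
  rcases rot4 e with h | h | h | h
  · exact Or.inl h
  · exact Or.inr (Or.inr (Or.inr h))
  · exact Or.inr (Or.inr (Or.inl h))
  · exact Or.inr (Or.inl h)

/-- the darts of `N` in the facets of the row -/
lemma inGkv {s : P.FSt} (h : RowG w L s.facet) (hk : N.kv s) :
    (∃ i < L, s = (pE ^ i) w ∨ s = ((pE ^ i) w).rL) ∨ s = w.r2 := by
  obtain ⟨i, hi, e | e | e | e⟩ := R.inG h
  · exact Or.inl ⟨i, hi, Or.inl e⟩
  · exact Or.inl ⟨i, hi, Or.inr e⟩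
  · exact absurd hk (by rw [e]; exact R.new i hi)
  · rcases i with _ | i
    · exact Or.inr e
    · exact absurd hk (by rw [e]; exact R.newr hi)

/-- the facets at a new vertex -/
lemma Gnew {i : ℕ} (hi : i < L) {s : P.FSt} (hs : SC ((pE ^ i) w).rR s)
    (h : RowG w L s.facet) : s = ((pE ^ i) w).rR ∨ (i + 1 < L ∧ s = ((pE ^ (i + 1)) w).r2) := by
  have hk := R.nSC hi hs
  obtain ⟨k, hk1, e | e | e | e⟩ := R.inG h
  · exact absurd (R.kvW hk1) (e ▸ hk)
  · exact absurd (R.kvL hk1) (e ▸ hk)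
  · have := R.dis i hi k hk1 (e ▸ hs)
    subst this
    exact Or.inl e
  · rcases k with _ | k
    · exact absurd R.kv0 (e ▸ hk)
    · have h1 : SC ((pE ^ i) w).rR ((pE ^ k) w).rR := by
        rw [e] at hs
        exact hs.trans (R.sc_r2 k).symm
      have := R.dis i hi k (by omega) h1
      subst this
      exact Or.inr ⟨hk1, e⟩

lemma rot3 {i : ℕ} (hi : i + 1 < L) :
    (rot ^ 3) ((pE ^ i) w).rR = ((pE ^ (i + 1)) w).r2 := by
  have h1 := (R.four i hi).per
  have h2 : rot ((rot ^ 3) ((pE ^ i) w).rR) = rot ((pE ^ (i + 1)) w).r2 := by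
    rw [pE_succ, rot_stE_r2]
    exact h1
  exact rot.injective h2

lemma rot2 {i : ℕ} (hi : i + 1 < L) :
    (rot ^ 2) ((pE ^ i) w).rR = bS ((pE ^ (i + 1)) w) := by
  have h1 := R.rot3 hi
  have h2 : rot ((rot ^ 2) ((pE ^ i) w).rR) = rot (bS ((pE ^ (i + 1)) w)) := by
    rw [rot_bS]
    exact h1
  exact rot.injective h2

lemma rotl : (rot ^ (n - 1)) ((pE ^ (L - 1)) w).rR = ((pE ^ (L - 1)) w).stE.r2 := R.last.last

/-- the facets around the last vertex -/
lemma Glast {j : ℕ} (h1 : 1 ≤ j) (h2 : j < n) :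
    ¬ RowG w L ((rot ^ j) ((pE ^ (L - 1)) w).rR).facet := by
  have hp := R.pos
  intro h
  rcases R.Gnew (i := L - 1) (by omega) (Equiv.Perm.sameCycle_pow_right.2
    (Equiv.Perm.SameCycle.refl _ _)) h with h3 | ⟨h3, -⟩
  · exact R.last.min j (by omega) h2 h3
  · omega

/-- the facets in the south -/
lemma GbS {i : ℕ} (hi : i < L) : ¬ RowG w L (bS ((pE ^ i) w)).facet := by
  intro h
  have h0 : (bS ((pE ^ i) w)).facet = (rot ((pE ^ i) w).rR).facet := rfl
  rw [h0] at h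
  have hs : SC ((pE ^ i) w).rR (rot ((pE ^ i) w).rR) := (SC_rot_right _ _).2 (SC.refl _)
  rcases R.Gnew hi hs h with h3 | ⟨h3, h4⟩
  · exact stE_rL_ne _ h3
  · rw [← R.rot3 h3] at h4
    have h5 := (R.four i h3).idx_pow (i := 1) (by norm_num)
    have h6 := (R.four i h3).idx_pow (i := 3) (by norm_num)
    have h7 : (rot ^ 1) ((pE ^ i) w).rR = (rot ^ 3) ((pE ^ i) w).rR := h4
    rw [h7, h6] at h5
    omega

end Row

/-- the darts before `bS w` around the first corner -/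
def zp (w : P.FSt) (k : ℕ) : P.FSt := (rot.symm ^ k) (bS w)

lemma zp_zero (w : P.FSt) : zp w 0 = bS w := rfl

lemma rot_zp (w : P.FSt) (k : ℕ) : rot (zp w (k + 1)) = zp w k := by
  unfold zp
  rw [pow_succ', Equiv.Perm.mul_apply, Equiv.apply_symm_apply]

lemma zp_pre (w : P.FSt) (k : ℕ) : zp w (k + 1) = pre (zp w k) := by
  rw [← rot_zp w k]
  exact (pre_of_rot _).symm

lemma sc_zp (w : P.FSt) (k : ℕ) : SC w.r2 (zp w k) := by
  induction k with
  | zero =>
    rw [zp_zero, ← rot_bS]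
    exact (SC_rot_left _ _).2 (SC.refl _)
  | succ k ih =>
    rw [← SC_rot_right]
    show SC w.r2 (rot (zp w (k + 1)))
    rw [rot_zp]; exact ih

/-- the darts at the first corner from the port to the row -/
structure Zone (N : Nb P) (Op : P.FSt → Prop) (w : P.FSt) (n m : ℕ) : Prop where
  nke : ∀ k, 1 ≤ k → k ≤ m → ¬ N.ke (zp w k)
  op : 1 ≤ m → Op (zp w m)
  nop : ∀ k < m, ¬ Op (zp w k)
  nop0 : ¬ Op (bS w)
  zero : m = 0 → n = 4

/-- the old darts -/
def RO (w : P.FSt) (L m : ℕ) (s : P.FSt) : Prop :=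
  RowG w L s.facet ∨ ∃ k ≤ m, s = zp w k

/-- the new darts -/
def RC (w : P.FSt) (L m : ℕ) (s : P.FSt) : Prop :=
  (¬ RowG w L s.facet ∧ ∃ i < L, SC ((pE ^ i) w).rR s) ∨ ∃ k ≤ m, s = zp w k

namespace Row

variable {N N' : Nb P} {w : P.FSt} {L n m : ℕ} {Op : P.FSt → Prop} (R : Row N w L n)
  (Z : Zone N Op w n m) (A : AddsF N N' (RowG w L))

include R

include A in
lemma kv' (s : P.FSt) : N'.kv s ↔ N.kv s ∨ ∃ i < L, SC ((pE ^ i) w).rR s := by
  rw [A.kv]
  constructor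
  · rintro (h | ⟨t, h1, h2⟩)
    · exact Or.inl h
    · obtain ⟨i, hi, e | e | e | e⟩ := R.inG h2
      · exact Or.inl ((N.kv_SC h1).1 (e ▸ R.kvW hi))
      · exact Or.inl ((N.kv_SC h1).1 (e ▸ R.kvL hi))
      · exact Or.inr ⟨i, hi, e ▸ h1⟩
      · rcases i with _ | i
        · exact Or.inl ((N.kv_SC h1).1 (e ▸ R.kv0))
        · exact Or.inr ⟨i, by omega, (R.sc_r2 i).trans (e ▸ h1)⟩
  · rintro (h | ⟨i, hi, h⟩)
    · exact Or.inl h
    · exact Or.inr ⟨_, h, ⟨i, hi, rfl⟩⟩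

lemma kvz (k : ℕ) : N.kv (zp w k) := (N.kv_SC (sc_zp w k)).1 R.kv0

include Z in
lemma nkez {k : ℕ} (hk : k ≤ m) : ¬ N.ke (zp w k) := by
  rcases k with _ | k
  · exact R.nke_bS (i := 0) R.pos
  · exact Z.nke (k + 1) (by omega) hk

include Z in
lemma Dtz {k : ℕ} (hk : k ≤ m) : N.Dt (zp w k) := ⟨R.kvz k, Nb.nkf_of_nke (R.nkez Z hk)⟩

include Z in
lemma Gz {k : ℕ} (hk : k ≤ m) : ¬ RowG w L (zp w k).facet := by
  intro h
  have h1 := R.nkez Z hk
  rcases R.inGkv h (R.kvz k) with ⟨i, hi, e | e⟩ | e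
  · exact R.far i hi (e ▸ sc_zp w k)
  · exact h1 (e ▸ R.top i hi)
  · exact h1 (e ▸ R.left)

include Z in
lemma zp_ne {k : ℕ} (h1 : 1 ≤ k) (hk : k ≤ m) : zp w k ≠ bS w := by
  intro h
  have h2 := congrArg rot h
  obtain ⟨k, rfl⟩ : ∃ j, k = j + 1 := ⟨k - 1, by omega⟩
  rw [rot_zp, rot_bS] at h2
  exact R.nkez Z (k := k) (by omega) (h2 ▸ R.left)

include Z in
lemma zp_inj {j k : ℕ} (hj : j < k) (hk : k ≤ m) : zp w j ≠ zp w k := by
  induction j generalizing k with
  | zero => exact fun h => R.zp_ne Z (by omega) hk h.symm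
  | succ j ih =>
    intro h
    have h2 := congrArg rot h
    obtain ⟨k, rfl⟩ : ∃ j, k = j + 1 := ⟨k - 1, by omega⟩
    rw [rot_zp, rot_zp] at h2
    exact ih (k := k) (by omega) (by omega) h2

/-- not a side of the row: new darts -/
lemma nke'_new (A : AddsF N N' (RowG w L)) {s : P.FSt} (h : ¬ N.kv s)
    (h1 : ¬ RowG w L s.facet) (h2 : ¬ RowG w L (rot s).facet) : ¬ N'.ke s := by
  rw [A.ke]
  rintro (h3 | h3 | h3)
  · exact h (N.ke_kv s h3)
  · exact h1 h3
  · exact h2 h3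

include A Z in
lemma nke'_z {k : ℕ} (h1 : 1 ≤ k) (hk : k ≤ m) : ¬ N'.ke (zp w k) := by
  rw [A.ke]
  rintro (h3 | h3 | h3)
  · exact R.nkez Z hk h3
  · exact R.Gz Z hk h3
  · obtain ⟨k, rfl⟩ : ∃ j, k = j + 1 := ⟨k - 1, by omega⟩
    have h4 : (zp w (k + 1)).stE.facet = (zp w k).facet := by
      rw [← rot_zp w k]; rfl
    rw [h4] at h3
    exact R.Gz Z (k := k) (by omega) h3

include A in
lemma ke'_bS {i : ℕ} (hi : i < L) : N'.ke (bS ((pE ^ i) w)) := by
  rw [A.ke]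
  refine Or.inr (Or.inr ⟨i, hi, ?_⟩)
  show ((pE ^ i) w).rR.stE.r2.stE.facet = _
  rw [FSt.stE_inv]; rfl

include A in
lemma ke'_z : N'.ke ((pE ^ (L - 1)) w).stE.r2 := by
  have hp := R.pos
  rw [A.ke]
  refine Or.inr (Or.inr ⟨L - 1, by omega, ?_⟩)
  rw [FSt.stE_inv]; rfl

/-- one step from `bS (W i)` -/
lemma sc1 (i : ℕ) : SC ((pE ^ i) w).rR (rot ((pE ^ i) w).rR) :=
  (SC_rot_right _ _).2 (SC.refl _)

lemma scj (j : ℕ) : SC ((pE ^ (L - 1)) w).rR ((rot ^ j) ((pE ^ (L - 1)) w).rR) :=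
  Equiv.Perm.sameCycle_pow_right.2 (Equiv.Perm.SameCycle.refl _ _)

lemma G1 {i : ℕ} (hi : i < L) : ¬ RowG w L (rot ((pE ^ i) w).rR).facet := R.GbS hi

include A in
lemma nke'_1 {i : ℕ} (hi : i + 1 < L) : ¬ N'.ke (rot ((pE ^ i) w).rR) := by
  refine R.nke'_new A (R.nSC (i := i) (by omega) (R.sc1 i)) (R.G1 (by omega)) ?_
  have h1 : rot (rot ((pE ^ i) w).rR) = bS ((pE ^ (i + 1)) w) := R.rot2 hi
  rw [h1]
  exact R.GbS hi

include A in
lemma nke'_j {j : ℕ} (h1 : 1 ≤ j) (h2 : j + 1 < n) :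
    ¬ N'.ke ((rot ^ j) ((pE ^ (L - 1)) w).rR) := by
  have hp := R.pos
  refine R.nke'_new A (R.nSC (i := L - 1) (by omega) (R.scj j)) (R.Glast h1 (by omega)) ?_
  have h3 : rot ((rot ^ j) ((pE ^ (L - 1)) w).rR) = (rot ^ (j + 1)) ((pE ^ (L - 1)) w).rR := by
    rw [pow_succ', Equiv.Perm.mul_apply]
  rw [h3]
  exact R.Glast (by omega) h2

/-- all new darts -/
lemma cases {s : P.FSt} (h : RC w L m s) : (∃ i < L, s = bS ((pE ^ i) w)) ∨
    (∃ i, i + 1 < L ∧ s = rot ((pE ^ i) w).rR) ∨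
    (∃ j, 1 ≤ j ∧ j < n ∧ s = (rot ^ j) ((pE ^ (L - 1)) w).rR) ∨
    (∃ k, 1 ≤ k ∧ k ≤ m ∧ s = zp w k) := by
  rcases h with ⟨hG, i, hi, hs⟩ | ⟨k, hk, e⟩
  · by_cases hl : i + 1 < L
    · obtain ⟨j, hj, e⟩ := (R.four i hl).SC_iff.1 hs
      have : j = 0 ∨ j = 1 ∨ j = 2 ∨ j = 3 := by omega
      rcases this with rfl | rfl | rfl | rfl
      · exact absurd ⟨i, hi, by rw [e]; rfl⟩ hG
      · exact Or.inr (Or.inl ⟨i, hl, e⟩)
      · rw [R.rot2 hl] at e
        exact Or.inl ⟨i + 1, hl, e⟩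
      · rw [R.rot3 hl] at e
        exact absurd ⟨i + 1, hl, by rw [e]; rfl⟩ hG
    · have : i = L - 1 := by omega
      subst this
      obtain ⟨j, hj, e⟩ := R.last.SC_iff.1 hs
      rcases Nat.eq_zero_or_pos j with h0 | h0
      · subst h0
        exact absurd ⟨L - 1, hi, by rw [e]; rfl⟩ hG
      · exact Or.inr (Or.inr (Or.inl ⟨j, h0, hj, e⟩))
  · rcases Nat.eq_zero_or_pos k with h0 | h0
    · subst h0
      exact Or.inl ⟨0, R.pos, e⟩
    · exact Or.inr (Or.inr (Or.inr ⟨k, h0, hk, e⟩))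

include Z A in
/-- **The combinatorics of the surgery.** -/
theorem sg : Sg N N' (RO w L m) (RC w L m) := by
  constructor
  · intro s
    constructor
    · rintro ⟨h1, h2⟩
      rw [A.kf] at h2
      push Not at h2
      rcases (R.kv' A s).1 h1 with h3 | h3
      · by_cases hz : ∃ k ≤ m, s = zp w k
        · exact Or.inr (Or.inr hz)
        · left
          refine ⟨⟨h3, h2.1⟩, ?_⟩
          rintro (h4 | h4)
          · exact h2.2 h4
          · exact hz h4
      · exact Or.inr (Or.inl ⟨h2.2, h3⟩)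
    · rintro (⟨h1, h2⟩ | ⟨h1, i, hi, h2⟩ | ⟨k, hk, e⟩)
      · refine ⟨(R.kv' A s).2 (Or.inl h1.1), ?_⟩
        rw [A.kf]
        rintro (h3 | h3)
        · exact h1.2 h3
        · exact h2 (Or.inl h3)
      · refine ⟨(R.kv' A s).2 (Or.inr ⟨i, hi, h2⟩), ?_⟩
        rw [A.kf]
        rintro (h3 | h3)
        · exact R.nSC hi h2 (N.ke_kv s (N.kf_ke s h3))
        · exact h1 h3
      · subst e
        have hd := R.Dtz Z hk
        refine ⟨(R.kv' A _).2 (Or.inl hd.1), ?_⟩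
        rw [A.kf]
        rintro (h3 | h3)
        · exact hd.2 h3
        · exact R.Gz Z hk h3
  · rintro s (⟨-, i, hi, h2⟩ | h2) hd
    · exact absurd hd.1 (R.nSC hi h2)
    · exact Or.inr h2
  · intro s hd hO
    rw [A.ke]
    refine ⟨?_, Or.inl⟩
    rintro (h | h | h)
    · exact h
    · exact absurd (Or.inl h) hO
    · obtain ⟨i, hi, e | e | e | e⟩ := R.inG h
      · -- the west side of the row
        rcases i with _ | i
        · have h1 : s.stE.r2 = w.r2 := by rw [e]; rfl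
          rw [← N.ke_rev, h1]; exact R.left
        · rw [pE_succ] at e
          have h1 : s = (pE ^ i) w := pE.injective e
          exact absurd (Or.inl ⟨i, by omega, by rw [h1]⟩) hO
      · -- the south sides
        have h1 : s = bS ((pE ^ i) w) := by
          have h2 : s.stE.r2.stE.r2 = bS ((pE ^ i) w) := by
            rw [e, FSt.rL_r2]; rfl
          rwa [FSt.stE_inv, FSt.r2_r2] at h2
        rcases i with _ | i
        · exact absurd (Or.inr ⟨0, by omega, h1⟩) hO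
        · exfalso
          have h2 := (N.kv_rot s).2 hd.1
          rw [h1] at h2
          have h3 : N.kv (rot (bS ((pE ^ (i + 1)) w))) := h2
          rw [rot_bS] at h3
          exact R.newr hi h3
      · -- the north sides
        have h1 : s.stE.r2 = ((pE ^ i) w).rL := by rw [e, FSt.rR_r2]
        rw [← N.ke_rev, h1]; exact R.top i hi
      · -- the east side of the row
        have h1 : s = ((pE ^ i) w).stE.r2 := by
          have h2 : s.stE.r2.stE.r2 = ((pE ^ i) w).stE.r2 := by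
            rw [e, FSt.r2_r2]
          rwa [FSt.stE_inv, FSt.r2_r2] at h2
        exfalso
        have h2 := (N.kv_rot s).2 hd.1
        rw [h1] at h2
        have h3 : N.kv (rot ((pE ^ i) w).stE.r2) := h2
        rw [rot_stE_r2] at h3
        exact R.new i hi h3

include Z A in
/-- **One curve stays one curve.** -/
theorem one (h : ∀ s t, N.Dt s → N.Dt t → N.E s t) : ∀ s t, N'.Dt s → N'.Dt t → N'.E s t := by
  have hp := R.pos
  have h3 := R.three
  have S := R.sg Z A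
  refine Nb.one_surg h S (c₀ := bS w) (Or.inr ⟨0, by omega, rfl⟩) (R.Dtz Z (k := 0) (by omega))
    ?_ ?_
  · intro cv hc s hs
    -- the way under the row
    have k1 : ∀ i < L, (cv (bS w) ↔ cv (bS ((pE ^ i) w))) ∧
        (cv (bS w) ↔ cv (rot ((pE ^ i) w).rR)) := by
      intro i
      induction i with
      | zero =>
        intro hi
        refine ⟨Iff.rfl, ?_⟩
        have h4 := hc.e (bS w) ?_ (R.ke'_bS A (i := 0) hp)
        · rw [bS_rR] at h4; exact h4
        · rw [A.kf]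
          rintro (h5 | h5)
          · exact (R.Dtz Z (k := 0) (by omega)).2 h5
          · exact R.GbS (i := 0) hp h5
      | succ i ih =>
        intro hi
        have h4 := (ih (by omega)).2
        have hd : N'.Dt (rot ((pE ^ i) w).rR) := S.Dt' (Or.inl ⟨R.G1 (by omega), i, by omega,
          R.sc1 i⟩)
        have h5 := hc.x _ hd.1 (R.nke'_1 A hi)
        have e : (rot ((pE ^ i) w).rR).stE.rL = bS ((pE ^ (i + 1)) w) := R.rot2 hi
        rw [e] at h5
        have h6 : N'.Dt (bS ((pE ^ (i + 1)) w)) := S.Dt' (Or.inl ⟨R.GbS hi, i, by omega, by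
          rw [← R.rot2 hi]
          exact Equiv.Perm.sameCycle_pow_right.2 (Equiv.Perm.SameCycle.refl _ _)⟩)
        have h7 := hc.e _ h6.2 (R.ke'_bS A hi)
        rw [bS_rR] at h7
        exact ⟨h4.trans h5, (h4.trans h5).trans h7⟩
    have k2 : ∀ j, 1 ≤ j → j < n → (cv (bS w) ↔ cv ((rot ^ j) ((pE ^ (L - 1)) w).rR)) := by
      intro j h1
      induction j, h1 using Nat.le_induction with
      | base => intro _; exact (k1 (L - 1) (by omega)).2
      | succ j h1 ih =>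
        intro hj
        have hd : N'.Dt ((rot ^ j) ((pE ^ (L - 1)) w).rR) := S.Dt' (Or.inl
          ⟨R.Glast h1 (by omega), L - 1, by omega, R.scj j⟩)
        have h5 := hc.x _ hd.1 (R.nke'_j A h1 hj)
        rw [pow_succ', Equiv.Perm.mul_apply]
        exact (ih (by omega)).trans h5
    have k3 : ∀ k, k ≤ m → (cv (bS w) ↔ cv (zp w k)) := by
      intro k
      induction k with
      | zero => intro _; exact Iff.rfl
      | succ k ih =>
        intro hk
        have h5 := hc.x (zp w (k + 1)) ((R.kv' A _).2 (Or.inl (R.kvz _)))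
          (R.nke'_z Z A (by omega) hk)
        have e : (zp w (k + 1)).stE.rL = zp w k := rot_zp w k
        rw [e] at h5
        exact (ih (by omega)).trans h5.symm
    rcases R.cases hs with ⟨i, hi, e⟩ | ⟨i, hi, e⟩ | ⟨j, h1, h2, e⟩ | ⟨k, -, hk, e⟩
    · rw [e]; exact (k1 i hi).1
    · rw [e]; exact (k1 i (by omega)).2
    · rw [e]; exact k2 j h1 h2
    · rw [e]; exact k3 k hk
  · intro s hd hO hnO
    rcases hO with hG | ⟨k, hk, e⟩
    · rcases R.inGkv hG hd.1 with ⟨i, hi, e | e⟩ | e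
      · subst e
        rw [Nb.nx_nke (R.nkeW hi)] at hnO ⊢
        by_cases hl : i + 1 < L
        · exact absurd (Or.inl ⟨i + 1, hl, by rw [pE_succ]; rfl⟩) hnO
        · have : i = L - 1 := by omega
          subst this
          refine ⟨((pE ^ (L - 1)) w).stE.r2, Or.inl ⟨?_, L - 1, hi, ?_⟩, ?_⟩
          · rw [← R.rotl]; exact R.Glast (by omega) (by omega)
          · rw [← R.rotl]; exact R.scj _
          · rw [Nb.nx_ke (R.ke'_z A), FSt.r2_rR]
      · subst e
        rw [Nb.nx_ke (R.top i hi)] at hnO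
        exact absurd (Or.inl ⟨i, hi, rfl⟩) hnO
      · subst e
        rw [Nb.nx_ke R.left] at hnO
        exact absurd (Or.inl ⟨0, hp, rfl⟩) hnO
    · subst e
      rw [Nb.nx_nke (R.nkez Z hk)] at hnO
      rcases k with _ | k
      · have h5 : (zp w 0).stE.rL = w.r2 := rot_bS w
        rw [h5] at hnO
        exact absurd (Or.inl ⟨0, hp, rfl⟩) hnO
      · have h5 : (zp w (k + 1)).stE.rL = zp w k := rot_zp w k
        rw [h5] at hnO
        exact absurd (Or.inr ⟨k, by omega, rfl⟩) hnO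

end Row

end Pool.Agent.MP42K
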