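import Pool.Agent.MP42.K.Fat

/-!
# Fattening: the headings after a row is added (owner helper18)
-/

set_option autoImplicit false
set_option linter.unusedSectionVars false

namespace Pool.Agent.MP42K

open Pool.Agent.Helper55.UNF Pool.Agent.Helper55.UNF.GridSolid Pool.Agent.MP42G
open Pool.Agent.MP42H Pool.Agent.MP42X Pool.Agent.MP42R
open Core1 (jf)
open Nb (SC SC_rot_right SC_rot_left SC_rev rev_rot rot)

variable {P : GridSolid}

open Classical in
/-- the heading on the new way -/
noncomputable def rvl (w : P.FSt) (L n : ℕ) (c' : ℤ) (s : P.FSt) : ℤ :=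
  if SC ((pE ^ (L - 1)) w).rR s then
    c' + ((min (idx ((pE ^ (L - 1)) w).rR s - 1) (n - 3) : ℕ) : ℤ) else c'

/-- the darts with a new value -/
def RNew (w : P.FSt) (L : ℕ) (s : P.FSt) : Prop :=
  (∃ i < L, SC ((pE ^ i) w).rR s) ∨ s = bS w

open Classical in
/-- the new heading into a dart -/
noncomputable def rHi (w : P.FSt) (L n m : ℕ) (c' : ℤ) (Hi : P.FSt → ℤ) (s : P.FSt) : ℤ :=
  if RNew w L s then rvl w L n c' s
  else if ∃ k, 1 ≤ k ∧ k < m ∧ s = zp w k then Hi s - (n - 4) else Hi s

open Classical in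
/-- the new heading out of a dart -/
noncomputable def rHo (w : P.FSt) (L n m : ℕ) (c' : ℤ) (Ho : P.FSt → ℤ) (s : P.FSt) : ℤ :=
  if RNew w L s then rvl w L n c' s
  else if ∃ k, 1 ≤ k ∧ k ≤ m ∧ s = zp w k then Ho s - (n - 4) else Ho s

namespace Row

variable {N N' : Nb P} {w : P.FSt} {L n m : ℕ} {Op : P.FSt → Prop} {c' : ℤ}
  {Hi Ho : P.FSt → ℤ} (R : Row N w L n) (Z : Zone N Op w n m) (A : AddsF N N' (RowG w L))

include R

/-- the value at the last corner -/
lemma vl_j {j : ℕ} (h2 : j < n) :
    rvl w L n c' ((rot ^ j) ((pE ^ (L - 1)) w).rR) = c' + ((min (j - 1) (n - 3) : ℕ) : ℤ) := by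
  unfold rvl
  rw [if_pos (R.scj j), R.last.idx_pow h2]

lemma vl_bS {i : ℕ} (hi : i < L) : rvl w L n c' (bS ((pE ^ i) w)) = c' := by
  have hp := R.pos
  unfold rvl
  rw [if_neg]
  intro h
  rcases i with _ | i
  · have h1 := R.nSC (i := L - 1) (by omega) h
    have h2 := R.kvz 0
    exact h1 h2
  · have h1 : SC ((pE ^ i) w).rR (bS ((pE ^ (i + 1)) w)) := by
      rw [← R.rot2 hi]
      exact Equiv.Perm.sameCycle_pow_right.2 (Equiv.Perm.SameCycle.refl _ _)
    have := R.dis (L - 1) (by omega) i (by omega) (h.trans h1.symm)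
    omega

lemma vl_1 {i : ℕ} (hi : i < L) : rvl w L n c' (rot ((pE ^ i) w).rR) = c' := by
  have hp := R.pos
  by_cases hl : i + 1 < L
  · unfold rvl
    rw [if_neg]
    intro h
    have := R.dis (L - 1) (by omega) i hi (h.trans (R.sc1 i).symm)
    omega
  · have : i = L - 1 := by omega
    subst this
    have h1 := R.vl_j (c' := c') (j := 1) (by have := R.three; omega)
    have h2 : (rot ^ 1) ((pE ^ (L - 1)) w).rR = rot ((pE ^ (L - 1)) w).rR := rfl
    rw [h2] at h1
    rw [h1]; simp

lemma new_bS {i : ℕ} (hi : i < L) : RNew w L (bS ((pE ^ i) w)) := by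
  rcases i with _ | i
  · exact Or.inr rfl
  · left
    refine ⟨i, by omega, ?_⟩
    rw [← R.rot2 hi]
    exact Equiv.Perm.sameCycle_pow_right.2 (Equiv.Perm.SameCycle.refl _ _)

lemma new_1 {i : ℕ} (hi : i < L) : RNew w L (rot ((pE ^ i) w).rR) := Or.inl ⟨i, hi, R.sc1 i⟩

lemma new_j (j : ℕ) : RNew w L ((rot ^ j) ((pE ^ (L - 1)) w).rR) :=
  Or.inl ⟨L - 1, by have := R.pos; omega, R.scj j⟩

include Z in
lemma nnew_z {k : ℕ} (h1 : 1 ≤ k) (hk : k ≤ m) : ¬ RNew w L (zp w k) := by
  rintro (⟨i, hi, h⟩ | h)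
  · exact R.nSC hi h (R.kvz k)
  · exact R.zp_ne Z h1 hk h

lemma nnew_O {s : P.FSt} (hs : N.Dt s) (hO : ¬ RO w L m s) : ¬ RNew w L s := by
  rintro (⟨i, hi, h⟩ | h)
  · exact R.nSC hi h hs.1
  · exact hO (Or.inr ⟨0, by omega, h⟩)

lemma hi_O {s : P.FSt} (hs : N.Dt s) (hO : ¬ RO w L m s) : rHi w L n m c' Hi s = Hi s := by
  unfold rHi
  rw [if_neg (R.nnew_O hs hO), if_neg]
  rintro ⟨k, h1, h2, h3⟩
  exact hO (Or.inr ⟨k, by omega, h3⟩)

lemma ho_O {s : P.FSt} (hs : N.Dt s) (hO : ¬ RO w L m s) : rHo w L n m c' Ho s = Ho s := by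
  unfold rHo
  rw [if_neg (R.nnew_O hs hO), if_neg]
  rintro ⟨k, h1, h2, h3⟩
  exact hO (Or.inr ⟨k, by omega, h3⟩)

include Z in
lemma hi_zm (h : 1 ≤ m) : rHi w L n m c' Hi (zp w m) = Hi (zp w m) := by
  unfold rHi
  rw [if_neg (R.nnew_z Z h le_rfl), if_neg]
  rintro ⟨k, h1, h2, h3⟩
  exact R.zp_inj Z h2 le_rfl h3.symm

include Z in
lemma hi_z {k : ℕ} (h1 : 1 ≤ k) (hk : k < m) :
    rHi w L n m c' Hi (zp w k) = Hi (zp w k) - (n - 4) := by
  unfold rHi
  rw [if_neg (R.nnew_z Z h1 (by omega)), if_pos ⟨k, h1, hk, rfl⟩]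

include Z in
lemma ho_z {k : ℕ} (h1 : 1 ≤ k) (hk : k ≤ m) :
    rHo w L n m c' Ho (zp w k) = Ho (zp w k) - (n - 4) := by
  unfold rHo
  rw [if_neg (R.nnew_z Z h1 hk), if_pos ⟨k, h1, hk, rfl⟩]

lemma hi_new {s : P.FSt} (h : RNew w L s) : rHi w L n m c' Hi s = rvl w L n c' s := by
  unfold rHi; rw [if_pos h]

lemma ho_new {s : P.FSt} (h : RNew w L s) : rHo w L n m c' Ho s = rvl w L n c' s := by
  unfold rHo; rw [if_pos h]

end Row

/-- the old headings along the row -/
lemma Row.old {J : P.Facet → Prop} {N : Nb P} {V : P.FSt → Prop} {Hi Ho : P.FSt → ℤ}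
    {Op : P.FSt → Prop} (h : GS J N V Hi Ho Op) {w : P.FSt} {L n : ℕ} (R : Row N w L n)
    {c : ℤ} (hc : Ho (bS w) = c + 1) (hW : ∀ i < L, ¬ Op ((pE ^ i) w))
    (hJ : ∀ i < L, J ((pE ^ i) w).facet) :
    Ho w.r2 = c + 1 ∧ ∀ i < L, Ho ((pE ^ i) w) = c := by
  classical
  have hp := R.pos
  have nop : ∀ s, N.ke s → ¬ Op s := fun s hs ho => (h.op s ho).ke hs
  have d0 : N.Dt (bS w) := ⟨R.kvz 0, Nb.nkf_of_nke (R.nke_bS (i := 0) hp)⟩
  have h0 := h.loc d0
  have hb := R.nke_bS (i := 0) hp
  have hb' : ¬ N.ke (bS w) := hb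
  have e1 : Ho w.r2 = c + 1 := by
    have h1 := h0.nxt
    unfold Nb.dl at h1
    rw [Nb.nx_nke hb', if_neg hb'] at h1
    have e : (bS w).stE.rL = w.r2 := rot_bS w
    rw [e, if_pos R.left] at h1
    have h2 := h1 (hJ 0 hp)
    have h3 := (h.loc (s := w.r2) ⟨R.kv0, R.nkf hp⟩).io (hJ 0 hp) (nop _ R.left)
    omega
  have hL : ∀ i < L, Ho ((pE ^ i) w).rL = c ∧ Ho ((pE ^ i) w) = c := by
    intro i
    induction i with
    | zero =>
      intro hi
      have t0 : N.ke w.rL := R.top 0 hi
      have h1 := (h.loc (s := w.r2) ⟨R.kv0, R.nkf hp⟩).nxt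
      unfold Nb.dl at h1
      rw [Nb.nx_ke R.left, if_pos R.left, FSt.r2_rR, if_pos t0] at h1
      have h2 := h1 (hJ 0 hp)
      have h3 := (h.loc (s := w.rL) ⟨R.kvL (i := 0) hi, R.nkf hp⟩).io (hJ 0 hp) (nop _ t0)
      have h4 : Ho w.rL = c := by omega
      have h5 := (h.loc (s := w.rL) ⟨R.kvL (i := 0) hi, R.nkf hp⟩).nxt
      unfold Nb.dl at h5
      have h6 : ¬ N.ke w := R.nkeW (i := 0) hi
      rw [Nb.nx_ke t0, if_pos t0, FSt.rL_rR, if_neg h6] at h5
      have h7 := h5 (hJ 0 hp)
      have h8 := (h.loc (s := w) ⟨R.kvW (i := 0) hi, R.nkf hp⟩).io (hJ 0 hp) (hW 0 hi)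
      refine ⟨h4, ?_⟩
      show Ho w = c
      have h9 : Hi w = Ho w := h8.1
      omega
    | succ i ih =>
      intro hi
      obtain ⟨-, h4⟩ := ih (by omega)
      have hk : ¬ N.ke ((pE ^ i) w) := R.nkeW (by omega)
      have h5 := (h.loc (s := (pE ^ i) w) ⟨R.kvW (by omega), R.nkf (by omega)⟩).nxt
      unfold Nb.dl at h5
      rw [Nb.nx_nke hk, if_neg hk] at h5
      have e : ((pE ^ i) w).stE.rL = ((pE ^ (i + 1)) w).rL := by rw [pE_succ]
      rw [e, if_pos (R.top _ hi)] at h5
      have h6 := h5 (hJ _ hi)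
      have h7 := (h.loc (s := ((pE ^ (i + 1)) w).rL) ⟨R.kvL hi, R.nkf hi⟩).io (hJ _ hi)
        (nop _ (R.top _ hi))
      have h8 : Ho ((pE ^ (i + 1)) w).rL = c := by omega
      have h9 := (h.loc (s := ((pE ^ (i + 1)) w).rL) ⟨R.kvL hi, R.nkf hi⟩).nxt
      unfold Nb.dl at h9
      rw [Nb.nx_ke (R.top _ hi), if_pos (R.top _ hi), FSt.rL_rR, if_neg (R.nkeW hi)] at h9
      have h10 := h9 (hJ _ hi)
      have h11 := (h.loc (s := (pE ^ (i + 1)) w) ⟨R.kvW hi, R.nkf hi⟩).io (hJ _ hi) (hW _ hi)
      exact ⟨h8, by omega⟩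
  exact ⟨e1, fun i hi => (hL i hi).2⟩

/-- the old headings around the first corner -/
lemma Row.oldz {J : P.Facet → Prop} {N : Nb P} {V : P.FSt → Prop} {Hi Ho : P.FSt → ℤ}
    {Op : P.FSt → Prop} (h : GS J N V Hi Ho Op) {w : P.FSt} {L n m : ℕ} (R : Row N w L n)
    (Z : Zone N Op w n m) {c : ℤ} (hc : Ho (bS w) = c + 1)
    (hJ : ∀ k < m, J (zp w k).facet) :
    ∀ k, 1 ≤ k → k ≤ m → Ho (zp w k) = c - (k - 1) ∧ (k < m → Hi (zp w k) = c - (k - 1)) := by
  classical
  intro k h1
  induction k, h1 using Nat.le_induction with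
  | base =>
    intro hm
    have h2 := (h.loc (R.Dtz Z hm)).nxt
    unfold Nb.dl at h2
    have e : (zp w 1).stE.rL = bS w := rot_zp w 0
    have hb : ¬ N.ke (bS w) := R.nke_bS (i := 0) R.pos
    rw [Nb.nx_nke (R.nkez Z hm), e, if_neg (R.nkez Z hm), if_neg hb] at h2
    have h3 := h2 (hJ 0 (by omega))
    have h4 := (h.loc (R.Dtz Z (k := 0) (by omega))).io (hJ 0 (by omega)) Z.nop0
    have h5 : Hi (bS w) = Ho (bS w) := h4.1
    have h6 : Ho (zp w 1) = c := by omega
    refine ⟨by rw [h6]; simp, fun hl => ?_⟩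
    have h7 := (h.loc (R.Dtz Z hm)).io (hJ 1 hl) (Z.nop 1 hl)
    rw [h7.1, h6]; simp
  | succ k h1 ih =>
    intro hm
    obtain ⟨h3, h4⟩ := ih (by omega)
    have h5 := h4 (by omega)
    have h2 := (h.loc (R.Dtz Z hm)).nxt
    unfold Nb.dl at h2
    have e : (zp w (k + 1)).stE.rL = zp w k := rot_zp w k
    rw [Nb.nx_nke (R.nkez Z hm), e, if_neg (R.nkez Z hm), if_neg (R.nkez Z (by omega))] at h2
    have h6 := h2 (hJ k (by omega))
    have h7 : Ho (zp w (k + 1)) = c - ((k + 1 : ℕ) - 1) := by push_cast; omega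
    refine ⟨h7, fun hl => ?_⟩
    have h8 := (h.loc (R.Dtz Z hm)).io (hJ _ hl) (Z.nop _ hl)
    rw [h8.1, h7]

/-- the lines after the row is added -/
structure RowV (J : P.Facet → Prop) (N : Nb P) (V V' : P.FSt → Prop) (w : P.FSt) (L n m : ℕ)
    (c c' : ℤ) : Prop where
  V_rR : ∀ s : P.FSt, J s.facet → (V' s.rR ↔ ¬ V' s)
  old : ∀ s, N.Dt s → ¬ RO w L m s → J s.facet → (V' s ↔ V s)
  bS : ∀ i < L, V' (bS ((pE ^ i) w)) ↔ c' ≠ 0
  last : ∀ j, 2 ≤ j → j + 1 < n → (V' ((rot ^ j) ((pE ^ (L - 1)) w).rR) ↔ c' + (j - 1) = 0)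
  z : V' ((pE ^ (L - 1)) w).stE.r2 ↔ c + 1 ≠ 0
  zone : ∀ k, 1 ≤ k → k < m → (V' (zp w k) ↔ c' - (k - 1) = 0)
  port : 1 ≤ m → (V' (zp w m) ↔ V (zp w m))

/-- the only dart of `O` that is entered from outside -/
lemma Row.enter {N : Nb P} {Op : P.FSt → Prop} {w : P.FSt} {L n m : ℕ} (R : Row N w L n)
    (Z : Zone N Op w n m) {s : P.FSt} (hs : N.Dt s) (hO : ¬ RO w L m s)
    (h : RO w L m (N.nx s)) : N.nx s = zp w m := by
  have hd := hs.nx
  rcases h with h | ⟨k, hk, e⟩
  · exfalso
    apply hO
    rcases R.inGkv h hd.1 with ⟨i, hi, e | e⟩ | e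
    · have h1 : N.nx ((pE ^ i) w).rL = (pE ^ i) w := by
        rw [Nb.nx_ke (R.top i hi), FSt.rL_rR]
      have h2 := Nb.nx_inj (e.trans h1.symm)
      exact Or.inl ⟨i, hi, by rw [h2]; rfl⟩
    · rcases i with _ | i
      · have h1 : N.nx w.r2 = w.rL := by rw [Nb.nx_ke R.left, FSt.r2_rR]
        have e' : N.nx s = w.rL := e
        have h2 := Nb.nx_inj (e'.trans h1.symm)
        exact Or.inl ⟨0, hi, by rw [h2]; rfl⟩
      · have h1 : N.nx ((pE ^ i) w) = ((pE ^ (i + 1)) w).rL := by
          rw [Nb.nx_nke (R.nkeW (by omega)), pE_succ]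
        have h2 := Nb.nx_inj (e.trans h1.symm)
        exact Or.inl ⟨i, by omega, by rw [h2]⟩
    · have hb : ¬ N.ke (bS w) := R.nke_bS (i := 0) R.pos
      have h1 : N.nx (bS w) = w.r2 := by rw [Nb.nx_nke hb]; exact rot_bS w
      have h2 := Nb.nx_inj (e.trans h1.symm)
      exact Or.inr ⟨0, by omega, h2⟩
  · rcases Nat.lt_or_ge k m with h1 | h1
    · exfalso
      apply hO
      have h2 : N.nx (zp w (k + 1)) = zp w k := by
        rw [Nb.nx_nke (R.nkez Z (by omega))]; exact rot_zp w k
      have h3 := Nb.nx_inj (e.trans h2.symm)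
      exact Or.inr ⟨k + 1, h1, h3⟩
    · have : k = m := by omega
      rw [e, this]

/-- **The rules after a row is added.** -/
theorem GS.row {J : P.Facet → Prop} {N N' : Nb P} {V V' : P.FSt → Prop} {Hi Ho : P.FSt → ℤ}
    {Op : P.FSt → Prop} (h : GS J N V Hi Ho Op) {w : P.FSt} {L n m : ℕ} (R : Row N w L n)
    (Z : Zone N Op w n m) (A : AddsF N N' (RowG w L)) {c c' : ℤ} (hc : Ho (bS w) = c + 1)
    (ec : c' = c - (n - 4)) (b1 : -1 ≤ c')
    (b2 : 1 ≤ m → -1 ≤ c' - m + 2 ∧ c' - m + 2 ≤ 1) (hV : RowV J N V V' w L n m c c')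
    (hW : ∀ i < L, ¬ Op ((pE ^ i) w)) (hJ : ∀ i < L, J ((pE ^ i) w).facet)
    (hJz : ∀ k < m, J (zp w k).facet) :
    GS J N' V' (rHi w L n m c' Hi) (rHo w L n m c' Ho) Op := by
  classical
  have hp := R.pos
  have hn := R.three
  have S := R.sg Z A
  obtain ⟨q1, q2⟩ := R.old h hc hW hJ
  have q3 := R.oldz h Z hc hJz
  have hb0 : ¬ N.ke (bS w) := R.nke_bS (i := 0) hp
  have hd0 : N.Dt (bS w) := R.Dtz Z (k := 0) (by omega)
  -- the bounds of `c`
  have hcb : -1 ≤ c + 1 ∧ c + 1 ≤ 1 := by
    have h1 := (h.loc hd0).x' hb0 (by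
      have h2 : (bS w).stE.facet = w.facet := by
        show w.rR.stE.r2.stE.facet = _
        rw [FSt.stE_inv]; rfl
      rw [h2]; exact hJ 0 hp) Z.nop0
    rw [hc] at h1
    exact ⟨h1.1, h1.2.1⟩
  have nopC : ∀ s, ¬ N.kv s → ¬ Op s := fun s hs ho => hs (h.op s ho).kv
  refine h.surg S hV.V_rR ?_ ?_ ?_ ?_
  · -- values outside
    intro s hs hO
    refine ⟨R.hi_O hs hO, R.ho_O hs hO, Iff.rfl, hV.old s hs hO, ?_⟩
    intro hk hJE
    have hd : N.Dt s.stE.rL := by
      have := hs.nx
      rwa [Nb.nx_nke hk] at this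
    by_cases hO2 : RO w L m s.stE.rL
    · have h1 := R.enter Z hs hO (by rw [Nb.nx_nke hk]; exact hO2)
      rw [Nb.nx_nke hk] at h1
      rw [h1]
      rcases Nat.eq_zero_or_pos m with hm | hm
      · subst hm
        have h2 : J (bS w).facet := by
          have h3 : (zp w 0).facet = s.stE.facet := by rw [← h1]; rfl
          rw [← zp_zero, h3]; exact hJE
        have h4 := (h.loc hd0).x h2 hb0 Z.nop0
        have h5 := hV.bS 0 hp
        have h6 := Z.zero rfl
        have h7 : c' = c := by rw [ec, h6]; push_cast; ring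
        rw [zp_zero, h4, hc]
        rw [h7] at h5
        refine (show V' (bS w) ↔ c ≠ 0 from h5).trans ?_
        rw [h7] at b1
        omega
      · exact hV.port hm
    · exact hV.old _ hd hO2 hJE
  · -- entering
    intro s hs hO hO2 hJn
    have h1 := R.enter Z hs hO hO2
    have h2 := (h.loc hs).nxt hJn
    have h3 := S.nx hs hO
    have h4 := S.ke s hs hO
    rw [h1] at h2 hJn ⊢
    rcases Nat.eq_zero_or_pos m with hm | hm
    · subst hm
      rw [zp_zero] at h1 h2 hJn ⊢
      have h9 : rHi w L n 0 c' Hi (bS w) = c' := by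
        have h10 := R.hi_new (m := 0) (c' := c') (Hi := Hi) (R.new_bS (i := 0) hp)
        have h11 := R.vl_bS (c' := c') (i := 0) hp
        exact h10.trans h11
      rw [h9]
      have h6 := Z.zero rfl
      have h7 : c' = c := by rw [ec, h6]; push_cast; ring
      have h8 := ((h.loc hd0).io hJn Z.nop0).1
      unfold Nb.dl at h2 ⊢
      rw [h3, h1]
      rw [h1, if_neg hb0] at h2
      rw [if_pos (show N'.ke (bS w) from R.ke'_bS A (i := 0) hp)]
      simp only [h4]
      omega
    · rw [R.hi_zm Z hm, h2]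
      unfold Nb.dl
      rw [h3, h1, if_neg (R.nkez Z le_rfl), if_neg (R.nke'_z Z A hm le_rfl)]
      simp only [h4]
  · -- the new darts
    intro s hs
    have hLn : L - 1 + 1 = L := by omega
    rcases R.cases hs with ⟨i, hi, e⟩ | ⟨i, hi, e⟩ | ⟨j, h1, h2, e⟩ | ⟨k, h1, hk, e⟩
    · -- along the south sides
      subst e
      have hke := R.ke'_bS A hi
      have hnop : ¬ Op (bS ((pE ^ i) w)) := by
        rcases i with _ | i
        · exact Z.nop0
        · apply nopC
          rw [← R.rot2 hi]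
          exact R.nSC (i := i) (by omega) (Equiv.Perm.sameCycle_pow_right.2
            (Equiv.Perm.SameCycle.refl _ _))
      have vi : rHi w L n m c' Hi (bS ((pE ^ i) w)) = c' := by
        rw [R.hi_new (R.new_bS hi), R.vl_bS hi]
      have vo : rHo w L n m c' Ho (bS ((pE ^ i) w)) = c' := by
        rw [R.ho_new (R.new_bS hi), R.vl_bS hi]
      constructor
      · intro _
        unfold Nb.dl
        have hn1 : ¬ N'.ke (rot ((pE ^ i) w).rR) := by
          by_cases hl : i + 1 < L
          · exact R.nke'_1 A hl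
          · have : i = L - 1 := by omega
            subst this
            exact R.nke'_j A (j := 1) le_rfl (by omega)
        rw [Nb.nx_ke hke, bS_rR, if_pos hke, if_neg hn1, vo, R.hi_new (R.new_1 hi), R.vl_1 hi]
        ring
      · intro _ _
        rw [vi, vo]
        exact ⟨rfl, b1, by omega⟩
      · intro _ _
        rw [vo]; exact hV.bS i hi
      · intro _ hk; exact absurd hke hk
      · intro hk; exact absurd hke hk
      · intro ho; exact absurd ho hnop
    · -- crossing between the south sides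
      subst e
      have hke := R.nke'_1 A hi
      have hnx : rot (rot ((pE ^ i) w).rR) = bS ((pE ^ (i + 1)) w) := R.rot2 hi
      have hnx' : (rot ((pE ^ i) w).rR).stE.rL = bS ((pE ^ (i + 1)) w) := hnx
      have vi : rHi w L n m c' Hi (rot ((pE ^ i) w).rR) = c' := by
        rw [R.hi_new (R.new_1 (by omega)), R.vl_1 (by omega)]
      have vo : rHo w L n m c' Ho (rot ((pE ^ i) w).rR) = c' := by
        rw [R.ho_new (R.new_1 (by omega)), R.vl_1 (by omega)]
      constructor
      · intro _
        unfold Nb.dl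
        rw [Nb.nx_nke hke, hnx', if_neg hke, if_pos (R.ke'_bS A hi), vo,
          R.hi_new (R.new_bS hi), R.vl_bS hi]
        ring
      · intro _ _
        rw [vi, vo]
        exact ⟨rfl, b1, by omega⟩
      · intro _ hk; exact absurd hk hke
      · intro hJs _ _
        rw [vo]
        have h1 := hV.V_rR (bS ((pE ^ i) w)) hJs
        rw [bS_rR] at h1
        rw [h1, hV.bS i (by omega)]
        simp
      · intro _ _ _
        rw [vo, hnx']
        exact ⟨b1, by omega, hV.bS (i + 1) hi⟩
      · intro ho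
        exact absurd ho (nopC _ (R.nSC (i := i) (by omega) (R.sc1 i)))
    · -- around the last corner
      by_cases hj : j + 1 < n
      · subst e
        have hke := R.nke'_j A h1 hj
        have hnx : ((rot ^ j) ((pE ^ (L - 1)) w).rR).stE.rL =
            (rot ^ (j + 1)) ((pE ^ (L - 1)) w).rR := by
          rw [pow_succ', Equiv.Perm.mul_apply]; rfl
        have vi : rHi w L n m c' Hi ((rot ^ j) ((pE ^ (L - 1)) w).rR) = c' + (j - 1) := by
          rw [R.hi_new (R.new_j j), R.vl_j h2, Nat.min_eq_left (by omega)]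
          omega
        have vo : rHo w L n m c' Ho ((rot ^ j) ((pE ^ (L - 1)) w).rR) = c' + (j - 1) := by
          rw [R.ho_new (R.new_j j), R.vl_j h2, Nat.min_eq_left (by omega)]
          omega
        have bd : -1 ≤ c' + ((j : ℤ) - 1) ∧ c' + ((j : ℤ) - 1) ≤ 1 := by omega
        have Vj : ∀ j : ℕ, 1 ≤ j → j + 1 < n → J ((rot ^ j) ((pE ^ (L - 1)) w).rR).facet →
            (V' ((rot ^ j) ((pE ^ (L - 1)) w).rR) ↔ c' + (j - 1) = 0) := by
          intro j h1 hj hJs
          rcases Nat.lt_or_ge 1 j with h3 | h3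
          · exact hV.last j h3 hj
          · have : j = 1 := by omega
            subst this
            have h4 := hV.V_rR (bS ((pE ^ (L - 1)) w)) hJs
            rw [bS_rR] at h4
            have h5 : (rot ^ 1) ((pE ^ (L - 1)) w).rR = rot ((pE ^ (L - 1)) w).rR := rfl
            rw [h5, h4, hV.bS (L - 1) (by omega)]
            simp
        constructor
        · intro _
          unfold Nb.dl
          rw [Nb.nx_nke hke, hnx, if_neg hke, vo, R.hi_new (R.new_j _), R.vl_j hj]
          by_cases hj2 : j + 2 < n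
          · rw [if_neg (R.nke'_j A (by omega) hj2), Nat.min_eq_left (by omega)]
            push_cast; omega
          · have hj3 : j + 1 = n - 1 := by omega
            have h7 : N'.ke ((rot ^ (j + 1)) ((pE ^ (L - 1)) w).rR) := by
              rw [hj3, R.rotl]; exact R.ke'_z A
            rw [if_pos h7, Nat.min_eq_right (by omega)]
            omega
        · intro _ _
          rw [vi, vo]
          exact ⟨rfl, bd.1, bd.2⟩
        · intro _ hk; exact absurd hk hke
        · intro hJs _ _
          rw [vo]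
          exact Vj j h1 hj hJs
        · intro _ hJs _
          rw [vo, hnx]
          refine ⟨bd.1, bd.2, ?_⟩
          have hJs' : J ((rot ^ (j + 1)) ((pE ^ (L - 1)) w).rR).facet := by
            rw [← hnx]; exact hJs
          by_cases hj2 : j + 2 < n
          · rw [Vj (j + 1) (by omega) hj2 hJs']
            push_cast; omega
          · have hj3 : j + 1 = n - 1 := by omega
            rw [hj3, R.rotl, hV.z]
            omega
        · intro ho
          exact absurd ho (nopC _ (R.nSC (i := L - 1) (by omega) (R.scj j)))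
      · -- up the east side
        have hj' : j = n - 1 := by omega
        rw [hj', R.rotl] at e
        subst e
        have hke := R.ke'_z A
        have hkW : ¬ N.ke ((pE ^ (L - 1)) w) := R.nkeW (by omega)
        have hdW : N.Dt ((pE ^ (L - 1)) w) := ⟨R.kvW (by omega), R.nkf (by omega)⟩
        have hd : N.Dt ((pE ^ (L - 1)) w).stE.rL := by
          have := hdW.nx
          rwa [Nb.nx_nke hkW] at this
        have vi : rHi w L n m c' Hi ((pE ^ (L - 1)) w).stE.r2 = c + 1 := by
          rw [← R.rotl, R.hi_new (R.new_j _), R.vl_j (by omega), Nat.min_eq_right (by omega)]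
          omega
        have vo : rHo w L n m c' Ho ((pE ^ (L - 1)) w).stE.r2 = c + 1 := by
          rw [← R.rotl, R.ho_new (R.new_j _), R.vl_j (by omega), Nat.min_eq_right (by omega)]
          omega
        have hO : ¬ RO w L m ((pE ^ (L - 1)) w).stE.rL := by
          rintro (h3 | ⟨k, hk, h3⟩)
          · have h4 : ((pE ^ (L - 1)) w).stE.rL.facet =
                ((rot ^ (n - 1)) ((pE ^ (L - 1)) w).rR).facet := by rw [R.rotl]; rfl
            rw [h4] at h3
            exact R.Glast (by omega) (by omega) h3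
          · refine R.far (L - 1) (by omega) ?_
            rw [← SC_rot_right, h3]
            exact sc_zp w k
        constructor
        · intro hJs
          rw [Nb.nx_ke hke, FSt.r2_rR] at hJs ⊢
          rw [vo, R.hi_O hd hO]
          have h5 := (h.loc hdW).nxt
          rw [Nb.nx_nke hkW] at h5
          rw [h5 hJs, q2 (L - 1) (by omega)]
          unfold Nb.dl
          rw [Nb.nx_ke hke, FSt.r2_rR, if_pos hke, Nb.nx_nke hkW, if_neg hkW]
          simp only [S.ke _ hd hO]
          ring
        · intro _ _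
          rw [vi, vo]
          exact ⟨rfl, hcb.1, hcb.2⟩
        · intro _ _
          rw [vo]; exact hV.z
        · intro _ hk; exact absurd hke hk
        · intro hk; exact absurd hke hk
        · intro ho
          refine absurd ho (nopC _ ?_)
          rw [← R.rotl]
          exact R.nSC (i := L - 1) (by omega) (R.scj _)
    · -- around the first corner
      subst e
      have hke := R.nke'_z Z A h1 hk
      obtain ⟨k, rfl⟩ : ∃ j, k = j + 1 := ⟨k - 1, by omega⟩
      have hnx : (zp w (k + 1)).stE.rL = zp w k := rot_zp w k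
      obtain ⟨q4, q5⟩ := q3 (k + 1) h1 hk
      push_cast at q4 q5
      have vo : rHo w L n m c' Ho (zp w (k + 1)) = c' - k := by
        rw [R.ho_z Z h1 hk, q4]; omega
      have b3 := b2 (by omega)
      have nxt : J (N'.nx (zp w (k + 1))).facet → rHi w L n m c' Hi (N'.nx (zp w (k + 1))) =
          rHo w L n m c' Ho (zp w (k + 1)) + N'.dl (zp w (k + 1)) := by
        intro _
        unfold Nb.dl
        rw [Nb.nx_nke hke, hnx, if_neg hke, vo]
        rcases k with _ | k
        · have h6 : N'.ke (zp w 0) := R.ke'_bS A (i := 0) hp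
          rw [if_pos h6]
          have h7 : rHi w L n m c' Hi (zp w 0) = c' := by
            have h8 := R.hi_new (m := m) (c' := c') (Hi := Hi) (R.new_bS (i := 0) hp)
            have h9 := R.vl_bS (c' := c') (i := 0) hp
            exact h8.trans h9
          rw [h7]; simp
        · rw [if_neg (R.nke'_z Z A (by omega) (by omega)), R.hi_z Z (by omega) (by omega)]
          have h8 := (q3 (k + 1) (by omega) (by omega)).2 (by omega)
          rw [h8]
          push_cast; omega
      by_cases hkm : k + 1 < m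
      · have vi : rHi w L n m c' Hi (zp w (k + 1)) = c' - k := by
          rw [R.hi_z Z h1 hkm, q5 hkm]; omega
        constructor
        · exact nxt
        · intro _ _
          rw [vi, vo]
          exact ⟨rfl, by omega, by omega⟩
        · intro _ hk'; exact absurd hk' hke
        · intro _ _ _
          rw [vo, hV.zone (k + 1) h1 hkm]
          push_cast; omega
        · intro _ hJs _
          rw [vo, hnx]
          refine ⟨by omega, by omega, ?_⟩
          rcases k with _ | k
          · have h6 : V' (zp w 0) ↔ c' ≠ 0 := hV.bS 0 hp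
            rw [h6]; simp
          · rw [hV.zone (k + 1) (by omega) (by omega)]
            push_cast; omega
        · intro ho; exact absurd ho (Z.nop _ hkm)
      · have hkm' : k + 1 = m := by omega
        have hOp : Op (zp w (k + 1)) := by rw [hkm']; exact Z.op (by omega)
        constructor
        · exact nxt
        · intro _ ho; exact absurd hOp ho
        · intro _ hk'; exact absurd hk' hke
        · intro _ _ ho; exact absurd hOp ho
        · intro _ _ ho; exact absurd hOp ho
        · intro _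
          obtain ⟨p1, p2, p3, p4, p5, p6, p7, p8, p9, p10⟩ := h.op _ hOp
          have vi : rHi w L n m c' Hi (zp w (k + 1)) = Hi (zp w (k + 1)) := by
            rw [hkm']; exact R.hi_zm Z (by omega)
          rw [vi, vo]
          refine ⟨(R.kv' A _).2 (Or.inl p1), hke, p3, p4, p5, p6, by omega, by omega, ?_, ?_⟩
          · have h6 := hV.port (by omega)
            rw [← hkm'] at h6
            rw [h6]; exact p9
          · have h6 := V_rL hV.V_rR (s := (zp w (k + 1)).stE) p4
            rw [hnx] at h6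
            rcases k with _ | k
            · have h7 : V' (zp w 0) ↔ c' ≠ 0 := hV.bS 0 hp
              rw [h7] at h6
              by_cases hcc : V' (zp w (0 + 1)).stE
              · refine iff_of_true hcc ?_
                have h8 : c' = 0 := by
                  by_contra hne
                  exact (h6.1 hne) hcc
                push_cast; omega
              · refine iff_of_false hcc ?_
                have h8 := h6.2 hcc
                push_cast
                omega
            · rw [hV.zone (k + 1) (by omega) (by omega)] at h6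
              by_cases hcc : V' (zp w (k + 1 + 1)).stE
              · refine iff_of_true hcc ?_
                intro h9
                refine (h6.1 ?_) hcc
                push_cast at h9 ⊢; omega
              · refine iff_of_false hcc ?_
                have h8 := h6.2 hcc
                push_cast at h8 ⊢
                omega
  · -- the ports are darts
    intro t ht
    have h1 := h.op t ht
    have hd : N.Dt t := ⟨h1.kv, Nb.nkf_of_nke h1.ke⟩
    by_cases hO : RO w L m t
    · rcases hO with hG | hz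
      · exfalso
        rcases R.inGkv hG h1.kv with ⟨i, hi, e | e⟩ | e
        · exact hW i hi (e ▸ ht)
        · exact h1.ke (e ▸ R.top i hi)
        · exact h1.ke (e ▸ R.left)
      · exact S.Dt' (Or.inr hz)
    · exact S.Dt hd hO

end Pool.Agent.MP42K
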