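import Pool.Agent.MP42.K.Fat2

/-!
# Fattening: growth states (owner helper18)

* `Gr.rowG`: a row is added, general form;
* `Gr.row0`: four facets at the last corner, no port is needed;
* `Gr.rowP`: `n` facets at the last corner, a port at the first corner.
-/

set_option autoImplicit false
set_option linter.unusedSectionVars false

namespace Pool.Agent.MP42K

open Pool.Agent.Helper55.UNF Pool.Agent.Helper55.UNF.GridSolid Pool.Agent.MP42G
open Pool.Agent.MP42H Pool.Agent.MP42X Pool.Agent.MP42R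
open Core1 (jf)
open Nb (SC SC_rot_right SC_rot_left SC_rev rev_rot rot)

variable {P : GridSolid}

section

variable {R : Core1 P} {J : P.Facet → Prop} {N N' : Nb P} {V V' : P.FSt → Prop}
  {lin lout : P.FSt → Ln} {w : P.FSt} {L n m : ℕ}

/-- the darts into the band are unchanged -/
lemma row_in (W : Row N w L n) (A : AddsF N N' (RowG w L)) (hJ0 : ∀ f, J f → ¬ R.core f)
    (hJn : ∀ i < L, ∀ s, SC ((pE ^ i) w).rR s → J s.facet)
    (hJ : ∀ i < L, J ((pE ^ i) w).facet) (hJz : ∀ k < m, J (zp w k).facet)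
    {r : P.FSt} (hr : R.Rim r) (hS : St N'.kv N'.ke r) :
    St N.kv N.ke r ∧ N.Dt (pN.symm r).rL ∧ ¬ RO w L m (pN.symm r).rL := by
  have hp := W.pos
  have h3 := W.three
  obtain ⟨h1, h2⟩ := hS
  have k1 : N.kv (pN.symm r).rL := by
    rcases (W.kv' A _).1 h1 with h | ⟨i, hi, h⟩
    · exact h
    · exact absurd h (no_rim hJ0 (hJn i hi) hr).1
  have k2 : ¬ N.ke (pN.symm r).rL := fun hc => h2 ((A.ke _).2 (Or.inl hc))
  have kc : R.core (pN.symm r).rL.stE.facet := by rw [symm_rL_stE]; exact hr.2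
  refine ⟨⟨k1, k2⟩, ⟨k1, Nb.nkf_of_nke k2⟩, ?_⟩
  rintro (h | ⟨k, hk, h⟩)
  · rcases W.inGkv h k1 with ⟨i, hi, e | e⟩ | e
    · rw [e] at kc
      by_cases hl : i + 1 < L
      · have := hJ (i + 1) hl
        rw [pE_succ] at this
        exact hJ0 _ this kc
      · have hi' : i = L - 1 := by omega
        subst hi'
        have := hJn (L - 1) hi _ (W.scj (n - 1))
        rw [W.rotl] at this
        exact hJ0 _ this kc
    · exact k2 (e ▸ W.top i hi)
    · exact k2 (e ▸ W.left)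
  · rw [h] at kc
    rcases k with _ | k
    · have e : (zp w 0).stE.facet = w.facet := by
        show w.rR.stE.r2.stE.facet = _
        rw [FSt.stE_inv]; rfl
      rw [e] at kc
      exact hJ0 _ (hJ 0 hp) kc
    · have e : (zp w (k + 1)).stE.facet = (zp w k).facet := by
        rw [← rot_zp w k]; rfl
      rw [e] at kc
      exact hJ0 _ (hJz k (by omega)) kc

/-- the darts out of the band are unchanged -/
lemma row_out (W : Row N w L n) (A : AddsF N N' (RowG w L)) (hJ0 : ∀ f, J f → ¬ R.core f)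
    (hJn : ∀ i < L, ∀ s, SC ((pE ^ i) w).rR s → J s.facet)
    (hJ : ∀ i < L, J ((pE ^ i) w).facet) (hJz : ∀ k ≤ m, J (zp w k).facet)
    {r : P.FSt} (hr : R.Rim r) (hS : En N'.kv N'.ke r) :
    En N.kv N.ke r ∧ N.Dt (pre (pN.symm r)) ∧ ¬ RO w L m (pre (pN.symm r)) := by
  obtain ⟨h1, h2⟩ := hS
  have k1 : N.kv (pN.symm r) := by
    rcases (W.kv' A _).1 h1 with h | ⟨i, hi, h⟩
    · exact h
    · exact absurd h (no_rim hJ0 (hJn i hi) hr).2
  have k2 : ¬ N.ke (pN.symm r).rL := fun hc => h2 ((A.ke _).2 (Or.inl hc))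
  have k3 : ¬ N.ke (pre (pN.symm r)) := fun hc => k2 ((ke_pre N _).1 hc)
  have kc : R.core (pre (pN.symm r)).facet := by
    have h2 : (pre (pN.symm r)).facet = r.facet := by
      show (pN.symm r).rL.stE.r2.facet = _
      rw [symm_rL_stE]; rfl
    rw [h2]; exact hr.2
  refine ⟨⟨k1, k2⟩, ⟨(kv_pre N _).2 k1, Nb.nkf_of_nke k3⟩, ?_⟩
  rintro (⟨i, hi, h⟩ | ⟨k, hk, h⟩)
  · rw [h] at kc
    exact hJ0 _ (hJ i hi) kc
  · rw [h] at kc
    exact hJ0 _ (hJz k hk) kc

/-- **A row is added**, general form. -/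
theorem Gr.rowG (hJ0 : ∀ f, J f → ¬ R.core f) {S S' : List (P.FSt × ℤ × ℤ)}
    (h : Gr R J N V lin lout S) (W : Row N w L n)
    (Z : Zone N (fun t => t ∈ S.map Prod.fst) w n m) (A : AddsF N N' (RowG w L))
    (eS : S'.map Prod.fst = S.map Prod.fst)
    (hJ : ∀ i < L, J ((pE ^ i) w).facet)
    (hJn : ∀ i < L, ∀ s, SC ((pE ^ i) w).rR s → J s.facet)
    (hJz : ∀ k < m, J (zp w k).facet) (hW : ∀ i < L, (pE ^ i) w ∉ S.map Prod.fst)
    (key : ∀ Hi Ho : P.FSt → ℤ, GS J N V Hi Ho (fun t => t ∈ S.map Prod.fst) →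
      (∀ p ∈ S, Hi p.1 = p.2.1 + 1 ∧ Ho p.1 = p.2.2 - 1) → ∃ c c' : ℤ, Ho (bS w) = c + 1 ∧
      c' = c - (n - 4) ∧ -1 ≤ c' ∧ (1 ≤ m → -1 ≤ c' - m + 2 ∧ c' - m + 2 ≤ 1) ∧
      RowV J N V V' w L n m c c' ∧ ∀ p ∈ S', (p.1 = zp w m ∧ 1 ≤ m ∧ Hi p.1 = p.2.1 + 1 ∧
        Ho p.1 - (n - 4) = p.2.2 - 1) ∨ (p.1 ≠ zp w m ∧ p ∈ S)) :
    Gr R J N' V' lin lout S' := by
  obtain ⟨Hi, Ho, g1, g2, g3, g4⟩ := h.ex
  obtain ⟨c, c', hc, ec, b1, b2, hV, hp⟩ := key Hi Ho g1 g2
  have g5 := g1.row W Z A hc ec b1 b2 hV hW hJ hJz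
  have hz0 : J (bS w).facet := by
    have h0 := hJn 0 W.pos (rot ((pE ^ 0) w).rR) (W.sc1 0)
    exact h0
  have hJz' : ∀ k ≤ m, J (zp w k).facet := by
    intro k hk
    rcases Nat.lt_or_ge k m with h1 | h1
    · exact hJz k h1
    · rcases Nat.eq_zero_or_pos m with h2 | h2
      · have : k = 0 := by omega
        subst this; exact hz0
      · have : k = m := by omega
        subst this
        exact (g1.op _ (Z.op h2)).Jt
  refine ⟨?_, ⟨rHi w L n m c' Hi, rHo w L n m c' Ho, ?_, ?_, ?_, ?_⟩, W.one Z A h.one, h.lE⟩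
  · rw [eS]; exact h.nd
  · rw [eS]; exact g5
  · intro p hp'
    rcases hp p hp' with ⟨e, hm, e1, e2⟩ | ⟨hne, hpS⟩
    · rw [e] at e1 e2 ⊢
      rw [W.hi_zm Z hm, W.ho_z Z hm le_rfl]
      exact ⟨e1, e2⟩
    · have hm : p.1 ∈ S.map Prod.fst := List.mem_map_of_mem hpS
      have h1 := g1.op p.1 hm
      have hd : N.Dt p.1 := ⟨h1.kv, Nb.nkf_of_nke h1.ke⟩
      have hO : ¬ RO w L m p.1 := by
        rintro (hG | ⟨k, hk, e⟩)
        · rcases W.inGkv hG h1.kv with ⟨i, hi, e | e⟩ | e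
          · exact hW i hi (e ▸ hm)
          · exact h1.ke (e ▸ W.top i hi)
          · exact h1.ke (e ▸ W.left)
        · rcases Nat.lt_or_ge k m with h2 | h2
          · exact Z.nop k h2 (e ▸ hm)
          · have : k = m := by omega
            exact hne (by rw [e, this])
      rw [W.hi_O hd hO, W.ho_O hd hO]
      exact g2 p hpS
  · intro r hr hJr hS
    obtain ⟨k1, k2, k3⟩ := row_in W A hJ0 hJn hJ hJz hr hS
    rw [W.ho_O k2 k3]
    exact g3 r hr hJr k1
  · intro r hr hJr hS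
    obtain ⟨k1, k2, k3⟩ := row_out W A hJ0 hJn hJ hJz' hr hS
    rw [W.ho_O k2 k3]
    exact g4 r hr hJr k1

/-- the value `c` and the lines of the row -/
lemma row_c {Hi Ho : P.FSt → ℤ} {Op : P.FSt → Prop} (h : GS J N V Hi Ho Op) (W : Row N w L n)
    (hW : ∀ i < L, ¬ Op ((pE ^ i) w))
    (hJ : ∀ i < L, J ((pE ^ i) w).facet) :
    (V w ∧ Ho (bS w) = 1) ∨ (¬ V w ∧ Ho (bS w) = 0) := by
  have hp := W.pos
  obtain ⟨q1, q2⟩ := W.old h (c := Ho (bS w) - 1) (by ring) hW hJ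
  have hd : N.Dt w.r2 := ⟨W.kv0, W.nkf (i := 0) hp⟩
  have hd0 : N.Dt w := ⟨W.kvW (i := 0) hp, W.nkf (i := 0) hp⟩
  have nop : ¬ Op w.r2 := fun ho => (h.op _ ho).ke W.left
  have h1 := (h.loc hd).io (hJ 0 hp) nop
  have h2 := (h.loc hd).ke (hJ 0 hp) W.left
  have h3 := V_r2 h.V_rR (s := w) (hJ 0 hp)
  have h4 := (h.loc hd0).io (hJ 0 hp) (hW 0 hp)
  have h5 : Ho w = Ho (bS w) - 1 := q2 0 hp
  rw [q1] at h1 h2
  have h6 : Ho (bS w) = 1 ∨ Ho (bS w) = 0 := by omega
  rcases h6 with h6 | h6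
  · exact Or.inl ⟨h3.1 (h2.2 (by omega)), h6⟩
  · refine Or.inr ⟨fun hc => ?_, h6⟩
    exact h2.1 (h3.2 hc) (by omega)

/-- **A row is added**, four facets at the last corner. -/
theorem Gr.row0 (hJ0 : ∀ f, J f → ¬ R.core f) {S : List (P.FSt × ℤ × ℤ)}
    (h : Gr R J N V lin lout S) (W : Row N w L 4) (A : AddsF N N' (RowG w L))
    (hJ : ∀ i < L, J ((pE ^ i) w).facet)
    (hJn : ∀ i < L, ∀ s, SC ((pE ^ i) w).rR s → J s.facet)
    (hW : ∀ i < L, (pE ^ i) w ∉ S.map Prod.fst) (hb : bS w ∉ S.map Prod.fst)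
    (hV1 : ∀ i < L, V (bS ((pE ^ i) w)) ↔ ¬ V w)
    (hV2 : V ((rot ^ 2) ((pE ^ (L - 1)) w).rR) ↔ ¬ V w) :
    Gr R J N' V lin lout S := by
  have hp := W.pos
  have Z : Zone N (fun t => t ∈ S.map Prod.fst) w 4 0 :=
    ⟨fun k h1 h2 => by omega, fun h1 => by omega, fun k hk => by omega, hb, fun _ => rfl⟩
  refine h.rowG hJ0 W Z A rfl hJ hJn (fun k hk => by omega) hW ?_
  intro Hi Ho g1 g2
  have hc := row_c g1 W hW hJ
  have hJl : J ((pE ^ (L - 1)) w).stE.facet := by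
    have := hJn (L - 1) (by omega) _ (W.scj (4 - 1))
    rw [W.rotl] at this
    exact this
  refine ⟨Ho (bS w) - 1, Ho (bS w) - 1, by ring, by push_cast; ring, by omega,
    fun h1 => by omega, ?_, ?_⟩
  · constructor
    · exact g1.V_rR
    · intro s _ _ _; exact Iff.rfl
    · intro i hi
      rw [hV1 i hi]
      rcases hc with ⟨h1, h2⟩ | ⟨h1, h2⟩
      · simp only [h1, not_true, false_iff]; omega
      · simp only [h1, not_false_iff, true_iff]; omega
    · intro j h1 h2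
      have : j = 2 := by omega
      subst this
      rw [hV2]
      rcases hc with ⟨h1, h2⟩ | ⟨h1, h2⟩
      · simp only [h1, not_true, false_iff]; push_cast; omega
      · simp only [h1, not_false_iff, true_iff]; push_cast; omega
    · obtain ⟨q1, q2⟩ := W.old g1 (c := Ho (bS w) - 1) (by ring) hW hJ
      have hd : N.Dt ((pE ^ (L - 1)) w) := ⟨W.kvW (by omega), W.nkf (by omega)⟩
      have h1 := (g1.loc hd).x' (W.nkeW (by omega)) hJl (hW _ (by omega))
      rw [q2 _ (by omega)] at h1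
      have h2 := V_rL g1.V_rR hJl
      have h3 := V_r2 g1.V_rR hJl
      rw [h3]
      have h4 := h1.2.2
      rw [h2] at h4
      rcases hc with ⟨h1, h2⟩ | ⟨h1, h2⟩
      · refine iff_of_true ?_ (by omega)
        by_contra h5
        exact (h4.1 h5) (by omega)
      · refine iff_of_false ?_ (by omega)
        exact h4.2 (by omega)
    · intro k h1 h2; omega
    · intro h1; omega
  · intro p hp'
    refine Or.inr ⟨?_, hp'⟩
    intro hc
    apply hb
    have : p.1 ∈ S.map Prod.fst := List.mem_map_of_mem hp'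
    rw [hc] at this
    exact this

/-- **A row is added**, a port `(a, b)` at the first corner. -/
theorem Gr.rowP (hJ0 : ∀ f, J f → ¬ R.core f) {S : List (P.FSt × ℤ × ℤ)} {a b b' c c' : ℤ}
    (h : Gr R J N V lin lout ((zp w m, a, b) :: S)) (hm : 1 ≤ m) (W : Row N w L n)
    (A : AddsF N N' (RowG w L)) (nke : ∀ k, 1 ≤ k → k ≤ m → ¬ N.ke (zp w k))
    (hJ : ∀ i < L, J ((pE ^ i) w).facet)
    (hJn : ∀ i < L, ∀ s, SC ((pE ^ i) w).rR s → J s.facet)
    (hJz : ∀ k < m, J (zp w k).facet) (hW : ∀ i < L, (pE ^ i) w ∉ S.map Prod.fst)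
    (hz : ∀ k < m, zp w k ∉ S.map Prod.fst) (ec : c = b + m - 2) (ec' : c' = c - (n - 4))
    (eb : b' = b - (n - 4)) (b1 : -1 ≤ b') (b2 : b' ≤ 1) (b3 : -1 ≤ c')
    (hV : RowV J N V V' w L n m c c') :
    Gr R J N' V' lin lout ((zp w m, a, b') :: S) := by
  have hp := W.pos
  have hnd := h.nd
  rw [List.map_cons, List.nodup_cons] at hnd
  have nke0 : ∀ k ≤ m, ¬ N.ke (zp w k) := by
    intro k hk
    rcases Nat.eq_zero_or_pos k with h1 | h1
    · subst h1; exact W.nke_bS (i := 0) hp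
    · exact nke k h1 hk
  -- different darts
  have dz : ∀ j k, j < k → k ≤ m → zp w j ≠ zp w k := by
    intro j
    induction j with
    | zero =>
      intro k h1 h2 h3
      have h4 := congrArg rot h3
      obtain ⟨k, rfl⟩ : ∃ j, k = j + 1 := ⟨k - 1, by omega⟩
      rw [rot_zp, zp_zero, rot_bS] at h4
      exact nke0 k (by omega) (h4 ▸ W.left)
    | succ j ih =>
      intro k h1 h2 h3
      have h4 := congrArg rot h3
      obtain ⟨k, rfl⟩ : ∃ j, k = j + 1 := ⟨k - 1, by omega⟩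
      rw [rot_zp, rot_zp] at h4
      exact ih k (by omega) (by omega) h4
  have hmem : ∀ s, s ∉ S.map Prod.fst → s ≠ zp w m →
      s ∉ (((zp w m, a, b) :: S : List (P.FSt × ℤ × ℤ))).map Prod.fst := by
    intro s h1 h2 h3
    rw [List.map_cons, List.mem_cons] at h3
    rcases h3 with h3 | h3
    · exact h2 h3
    · exact h1 h3
  have hWz : ∀ i < L, (pE ^ i) w ≠ zp w m := by
    intro i hi he
    exact W.far i hi (he ▸ sc_zp w m)
  have Z : Zone N (fun t => t ∈ (((zp w m, a, b) :: S : List (P.FSt × ℤ × ℤ))).map Prod.fst)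
      w n m :=
    ⟨nke, fun _ => by simp, fun k hk => hmem _ (hz k hk) (dz k m hk le_rfl),
      hmem _ (hz 0 (by omega)) (dz 0 m (by omega) le_rfl), fun h1 => by omega⟩
  refine h.rowG hJ0 W Z A (by simp) hJ hJn hJz (fun i hi => hmem _ (hW i hi) (hWz i hi)) ?_
  intro Hi Ho g1 g2
  have g3 := g2 (zp w m, a, b) (by simp)
  simp only at g3
  have hd : ∀ k ≤ m, N.Dt (zp w k) := fun k hk => W.Dtz Z hk
  -- the value of `c`
  have hck : ∀ j ≤ m, Ho (zp w (m - j)) = b - 1 + j := by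
    classical
    intro j
    induction j with
    | zero => intro _; rw [Nat.sub_zero]; push_cast; omega
    | succ j ih =>
      intro hj
      have h1 := ih (by omega)
      have h2 := (g1.loc (hd (m - j) (by omega))).nxt
      unfold Nb.dl at h2
      have e : (zp w (m - j)).stE.rL = zp w (m - (j + 1)) := by
        have h3 := rot_zp w (m - (j + 1))
        rw [show m - (j + 1) + 1 = m - j by omega] at h3
        exact h3
      rw [Nb.nx_nke (nke0 _ (by omega)), e, if_neg (nke0 _ (by omega)),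
        if_neg (nke0 _ (by omega))] at h2
      have h4 := h2 (hJz _ (by omega))
      have h5 := (g1.loc (hd (m - (j + 1)) (by omega))).io (hJz _ (by omega))
        (Z.nop _ (by omega))
      push_cast
      omega
  have hc0 : Ho (bS w) = c + 1 := by
    have h1 := hck m le_rfl
    rw [Nat.sub_self] at h1
    rw [← zp_zero, h1, ec]; ring
  refine ⟨c, c', hc0, ec', b3, fun _ => by omega, hV, ?_⟩
  intro p hp'
  rcases List.mem_cons.1 hp' with rfl | hp'
  · exact Or.inl ⟨rfl, hm, g3.1, by simp only; omega⟩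
  · refine Or.inr ⟨?_, List.mem_cons_of_mem _ hp'⟩
    intro hc
    have h9 : p.1 ∈ S.map Prod.fst := List.mem_map_of_mem hp'
    rw [hc] at h9
    exact hnd.1 h9

end

end Pool.Agent.MP42K
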