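import Pool.Agent.MP42.K.Mirror2

/-!
# The mirror image of a growth state (owner helper18)

`Nb.one_mir`, `Core1.mir`, `Gr.mir`, `Gr.unmir`.
-/

set_option autoImplicit false
set_option linter.unusedSectionVars false

namespace Pool.Agent.MP42K

open Pool.Agent.Helper55.UNF Pool.Agent.Helper55.UNF.GridSolid Pool.Agent.MP42G
open Pool.Agent.MP42H Pool.Agent.MP42X Pool.Agent.MP42R
open Core1 (jf)
open Nb (SC SC_rot_right SC_rot_left SC_rev rev_rot rot)

variable {P Q : GridSolid}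

/-- one curve -/
theorem Nb.one_mir {N : Nb P} (M : Mir P Q) (h : ∀ s t, N.Dt s → N.Dt t → N.E s t) :
    ∀ s t, (N.mir M).Dt s → (N.mir M).Dt t → (N.mir M).E s t := by
  intro s t hs ht cv hc
  obtain ⟨x, rfl⟩ := M.s.surjective s
  obtain ⟨y, rfl⟩ := M.s.surjective t
  rw [mir_Dt] at hs ht
  have hI : N.Inv (fun u => cv (M.s u.rL)) := by
    constructor
    · intro u hk he
      have h1 := hc.x (M.s u.stE.r2) (by
        rw [mir_kv, FSt.r2_rR]; exact (N.kv_rot u).2 hk)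
        (fun h2 => he ((N.ke_rev u).1 ((mir_ke M N _).1 h2)))
      rw [← M.stE, ← M.rR, FSt.stE_inv, FSt.r2_rR] at h1
      show cv (M.s u.rL) ↔ cv (M.s u.stE.rL.rL)
      rw [FSt.rL_rL]
      exact h1.symm
    · intro u hf he
      have h1 := hc.e (M.s u) (by rw [M.facet, mir_kf]; exact hf) ((mir_ke M N _).2 he)
      rw [← M.rL] at h1
      show cv (M.s u.rL) ↔ cv (M.s u.rR.rL)
      rw [FSt.rR_rL]
      exact h1.symm
  have h1 := h x.rR y.rR hs ht _ hI
  simpa only [FSt.rR_rL] using h1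

/-- the image of the core -/
def Core1.mir (R : Core1 P) (M : Mir P Q) : Core1 Q where
  core f := R.core (M.symm.f f)
  V s hs := by
    obtain ⟨x, rfl⟩ := M.s.surjective s
    rw [M.facet, M.ff] at hs
    rw [← M.rR, M.V, M.V]
    rcases R.V x hs with h | h
    · exact Or.inl h
    · right
      rw [← FSt.rL_r2, IsV_r2]; exact h
  E s hs := by
    obtain ⟨x, rfl⟩ := M.s.surjective s
    rw [M.V] at hs
    rw [← M.stE, M.facet, M.ff, M.facet, M.ff]
    exact R.E x hs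
  N s hs h0 := by
    obtain ⟨x, rfl⟩ := M.s.surjective s
    rw [M.U] at hs
    rw [M.facet, M.ff] at h0
    rw [← M.stS, M.U, M.facet, M.ff]
    have h1 := R.N x.r2 hs h0
    rw [pN_symm_apply, FSt.r2_r2]
    exact h1
  S s hs h0 := by
    obtain ⟨x, rfl⟩ := M.s.surjective s
    rw [← M.stS] at hs h0
    rw [M.U, pN_symm_apply, FSt.r2_r2] at hs
    rw [M.facet, M.ff, pN_symm_apply] at h0
    rw [M.U, M.facet, M.ff]
    exact R.S x.r2 hs h0
  comm s hs h0 := by
    obtain ⟨x, rfl⟩ := M.s.surjective s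
    rw [M.U] at hs
    have hV : IsV x := IsV_of_Ur hs
    rw [M.facet, M.ff, ← M.stS, M.facet, M.ff] at h0
    rw [← M.stE, ← M.stS, ← M.stS, ← M.stE]
    congr 1
    rcases h0 with h0 | h0
    · exact (R.comm_symm ⟨hV, h0⟩).symm
    · have ey : (pN.symm x).stN = x := pN_symm_stN x
      have hy : IsV (pN.symm x) := by
        rcases R.V _ h0 with h | h
        · exact h
        · exfalso
          have he := (V_axes hV).2
          have h7 : (pN.symm x).rL.1.n.1 = (pN.symm x).1.e.1 := by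
            show (cross (pN.symm x).1.d (cross (pN.symm x).1.d (pN.symm x).1.e)).1 = _
            rw [cross_cross _ _ (pN.symm x).2.2]; rfl
          have h8 : (pN.symm x).1.e = x.1.e := by
            have h9 := FSt.stN_e (pN.symm x)
            rw [ey] at h9
            exact h9.symm
          rw [h8] at h7
          have h6 : (pN.symm x).rL.1.n.1 = 2 := h
          rw [h7] at h6
          exact he h6
      have h1 := R.comm' ⟨hy, h0⟩
      rw [ey] at h1
      exact pN_symm_of h1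

lemma Core1.mir_mir (R : Core1 P) (M : Mir P Q) : (R.mir M).mir M.symm = R := by
  cases R with
  | mk c _ _ _ _ _ =>
    unfold Core1.mir
    congr 1
    funext f
    show c (M.symm.f (M.f f)) = c f
    rw [M.ff]

lemma Core1.mir_Rim (R : Core1 P) (M : Mir P Q) (x : P.FSt) :
    (R.mir M).Rim (M.s x) ↔ R.Rim x.r2 := by
  unfold Core1.Rim
  rw [M.V, IsV_r2]
  show IsV x ∧ R.core (M.symm.f (M.s x).facet) ↔ _
  rw [M.facet, M.ff]
  rfl

/-! ## Growth states -/

/-- the opposite letter -/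
def ng : Ln → Ln
  | Ln.n => Ln.s
  | Ln.s => Ln.n
  | Ln.z => Ln.z

lemma ng_ng (l : Ln) : ng (ng l) = l := by cases l <;> rfl
lemma Hof_ng (l : Ln) : Hof (ng l) = - Hof l := by cases l <;> rfl

/-- the image of a predicate on facets -/
def mJ (M : Mir P Q) (J : P.Facet → Prop) : Q.Facet → Prop := fun f => J (M.symm.f f)
/-- the image of the lines -/
def mV (M : Mir P Q) (V : P.FSt → Prop) : Q.FSt → Prop := fun t => V (M.symm.s t)
/-- the image of the labels: from `lout` to `lin`, from `lin` to `lout` -/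
def mL (M : Mir P Q) (l : P.FSt → Ln) : Q.FSt → Ln := fun t => ng (l (M.symm.s t).r2)
/-- the image of the ports -/
def mP (M : Mir P Q) (p : P.FSt × ℤ × ℤ) : Q.FSt × ℤ × ℤ :=
  (M.s p.1.stE.r2, -p.2.2, -p.2.1)

@[simp] lemma mJ_f (M : Mir P Q) (J : P.Facet → Prop) (f : P.Facet) :
    mJ M J (M.f f) ↔ J f := by unfold mJ; rw [M.ff]
@[simp] lemma mV_s (M : Mir P Q) (V : P.FSt → Prop) (x : P.FSt) :
    mV M V (M.s x) ↔ V x := by unfold mV; rw [M.ss]
lemma mL_s (M : Mir P Q) (l : P.FSt → Ln) (x : P.FSt) : mL M l (M.s x) = ng (l x.r2) := by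
  unfold mL; rw [M.ss]

lemma mJ_mJ (M : Mir P Q) (J : P.Facet → Prop) : mJ M.symm (mJ M J) = J := by
  funext f
  show J (M.symm.f (M.f f)) = J f
  rw [M.ff]
lemma mV_mV (M : Mir P Q) (V : P.FSt → Prop) : mV M.symm (mV M V) = V := by
  funext f
  show V (M.symm.s (M.s f)) = V f
  rw [M.ss]
lemma mL_mL (M : Mir P Q) (l : P.FSt → Ln) : mL M.symm (mL M l) = l := by
  funext x
  show ng (ng (l (M.symm.s (M.s x).r2).r2)) = l x
  rw [ng_ng, M.symm.r2, M.ss, FSt.r2_r2]
lemma mP_mP (M : Mir P Q) (p : P.FSt × ℤ × ℤ) : mP M.symm (mP M p) = p := by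
  obtain ⟨t, a, b⟩ := p
  show (M.symm.s (M.s t.stE.r2).stE.r2, - -a, - -b) = (t, a, b)
  rw [M.symm.r2, M.symm.stE, M.ss, rev_rev, neg_neg, neg_neg]

lemma mP_mem {M : Mir P Q} {L : List (P.FSt × ℤ × ℤ)} (x : P.FSt) :
    M.s x ∈ (L.map (mP M)).map Prod.fst ↔ x.stE.r2 ∈ L.map Prod.fst := by
  rw [List.map_map]
  constructor
  · intro h
    obtain ⟨p, hp, e⟩ := List.mem_map.1 h
    have e' : M.s p.1.stE.r2 = M.s x := e
    have e2 := M.s.injective e'
    rw [← e2, rev_rev]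
    exact List.mem_map_of_mem hp
  · intro h
    obtain ⟨p, hp, e⟩ := List.mem_map.1 h
    refine List.mem_map.2 ⟨p, hp, ?_⟩
    show M.s p.1.stE.r2 = _
    rw [e, rev_rev]

lemma mir_below (M : Mir P Q) (x : P.FSt) :
    pN.symm (M.s x) = M.s (pN.symm x.r2).r2 := by
  rw [← M.stN, pN_symm_apply, FSt.r2_r2, FSt.r2_r2]

lemma mir_below_rL (M : Mir P Q) (x : P.FSt) :
    (pN.symm (M.s x)).rL = M.s (pN.symm x.r2).rL := by
  rw [mir_below, ← M.rR, FSt.r2_rR]

lemma mir_jf (M : Mir P Q) (J : P.Facet → Prop) (x : P.FSt) :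
    mJ M J (jf (M.s x)) ↔ J (jf x.r2) := by
  show mJ M J (pN.symm (M.s x)).facet ↔ _
  rw [mir_below, M.facet, mJ_f]
  rfl

/-- the curve into the band: the image of the curve out of the band -/
lemma mir_St (M : Mir P Q) (N : Nb P) (x : P.FSt) :
    St (N.mir M).kv (N.mir M).ke (M.s x) ↔ En N.kv N.ke x.r2 := by
  unfold St En
  rw [mir_below_rL, mir_kv, mir_ke, FSt.rL_rR]

lemma mir_En (M : Mir P Q) (N : Nb P) (x : P.FSt) :
    En (N.mir M).kv (N.mir M).ke (M.s x) ↔ St N.kv N.ke x.r2 := by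
  unfold St En
  rw [mir_below_rL, mir_ke, mir_below, mir_kv, FSt.r2_rR]

/-- **The mirror image of a growth state.** -/
theorem Gr.mir {R : Core1 P} {J : P.Facet → Prop} {N : Nb P} {V : P.FSt → Prop}
    {lin lout : P.FSt → Ln} {L : List (P.FSt × ℤ × ℤ)} (h : Gr R J N V lin lout L)
    (hJ0 : ∀ f, J f → ¬ R.core f)
    (hJE : ∀ s : P.FSt, J s.facet → ¬ R.core s.stE.facet → J s.stE.facet) (M : Mir P Q) :
    Gr (R.mir M) (mJ M J) (N.mir M) (mV M V) (mL M lout) (mL M lin) (L.map (mP M)) := by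
  classical
  obtain ⟨Hi, Ho, g1, g2, g3, g4⟩ := h.ex
  have hOp : (fun t : Q.FSt => t ∈ (L.map (mP M)).map Prod.fst) =
      (fun t => (M.symm.s t).stE.r2 ∈ L.map Prod.fst) := by
    funext t
    obtain ⟨x, rfl⟩ := M.s.surjective t
    apply propext
    rw [mP_mem, M.ss]
  refine ⟨?_, ⟨mHi M N Ho, mHo M N Hi Ho (fun t => t ∈ L.map Prod.fst), ?_, ?_, ?_, ?_⟩,
    Nb.one_mir M h.one, ?_⟩
  · rw [List.map_map]
    have h1 := h.nd
    have h2 : (L.map Prod.fst).map (fun x => M.s x.stE.r2) =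
        L.map (Prod.fst ∘ mP M) := by
      rw [List.map_map]; rfl
    rw [← h2]
    refine h1.map ?_
    intro x y hxy
    have h3 := M.s.injective hxy
    have h4 := congrArg (fun z : P.FSt => z.stE.r2) h3
    simpa only [rev_rev] using h4
  · rw [hOp]
    exact g1.mir M
  · intro p hp
    obtain ⟨q, hq, rfl⟩ := List.mem_map.1 hp
    have h1 := g2 q hq
    have hm : q.1 ∈ L.map Prod.fst := List.mem_map_of_mem hq
    have hk : ¬ N.ke q.1.stE.r2 := fun hc => (g1.op _ hm).ke ((N.ke_rev _).1 hc)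
    have e : pc N (M.symm.s (M.s q.1.stE.r2)) = q.1 := by
      rw [M.ss, pc_nke hk, rev_rev]
    show mHi M N Ho (M.s q.1.stE.r2) = -q.2.2 + 1 ∧
      mHo M N Hi Ho _ (M.s q.1.stE.r2) = -q.2.1 - 1
    unfold mHi mHo
    rw [e, if_pos hm]
    omega
  · intro r hr hJr hS
    obtain ⟨x, rfl⟩ := M.s.surjective r
    rw [Core1.mir_Rim] at hr
    rw [mir_jf] at hJr
    rw [mir_St] at hS
    rw [mir_below_rL, mL_s, Hof_ng, ← g4 _ hr hJr hS]
    unfold mHo
    have hk : ¬ N.ke (pN.symm x.r2).rL := hS.2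
    have ho : (pN.symm x.r2).rL.stE.r2 ∉ L.map Prod.fst := by
      intro hc
      have h1 := (g1.op _ hc).Jt
      refine hJ0 _ h1 ?_
      rw [FSt.facet_r2, symm_rL_stE]
      exact hr.2
    rw [M.ss, pc_nke hk, if_neg ho]
    rfl
  · intro r hr hJr hS
    obtain ⟨x, rfl⟩ := M.s.surjective r
    rw [Core1.mir_Rim] at hr
    rw [mir_jf] at hJr
    rw [mir_En] at hS
    rw [mL_s, Hof_ng, ← g3 _ hr hJr hS]
    have e : pre (pN.symm (M.s x)) = M.s (pN.symm x.r2).rL.stE.r2 := by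
      show (pN.symm (M.s x)).rL.stE.r2 = _
      rw [mir_below_rL, ← M.stE, ← M.r2]
    rw [e]
    unfold mHo
    have hk : ¬ N.ke (pN.symm x.r2).rL.stE.r2 := fun hc => hS.2 ((N.ke_rev _).1 hc)
    have ho : (pN.symm x.r2).rL ∉ L.map Prod.fst := by
      intro hc
      have h1 := (g1.op _ hc).JE
      refine hJ0 _ h1 ?_
      rw [symm_rL_stE]
      exact hr.2
    rw [M.ss, pc_nke hk, rev_rev, if_neg ho]
  · intro r hr hJr
    obtain ⟨x, rfl⟩ := M.s.surjective r
    have hR' : (R.mir M).Rim (M.s x).stE := Core1.Rim.E _ hr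
    rw [Core1.mir_Rim] at hr
    rw [← M.stE, Core1.mir_Rim] at hR'
    rw [mir_jf] at hJr
    rw [← M.stE, mL_s, mL_s, mL_s, mL_s]
    have e : x.stE.r2.stE = x.r2 := FSt.stE_inv x
    have hJ' : J (jf x.stE.r2) := by
      have h1 := J_spow hJE hr hJr 1
      have h2 : (pE.symm ^ 1) x.r2 = x.stE.r2 := by
        rw [pow_one, pE_symm_apply, FSt.r2_r2]
      rw [h2] at h1
      exact h1
    have h1 := h.lE x.stE.r2 hR' hJ'
    rw [e] at h1
    rw [h1.1, h1.2]
    exact ⟨rfl, rfl⟩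

section

variable {R : Core1 P} {J : P.Facet → Prop} {N : Nb P} {V : P.FSt → Prop}
  {lin lout : P.FSt → Ln} {L : List (P.FSt × ℤ × ℤ)} (M : Mir P Q)

lemma mir_J0 (hJ0 : ∀ f, J f → ¬ R.core f) : ∀ f, mJ M J f → ¬ (R.mir M).core f :=
  fun f h => hJ0 (M.symm.f f) h

lemma mir_JE (hJE : ∀ s : P.FSt, J s.facet → ¬ R.core s.stE.facet → J s.stE.facet) :
    ∀ s : Q.FSt, mJ M J s.facet → ¬ (R.mir M).core s.stE.facet → mJ M J s.stE.facet := by
  intro s h1 h2
  obtain ⟨x, rfl⟩ := M.s.surjective s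
  have h3 : ¬ R.core (M.symm.f (M.s x).stE.facet) := h2
  rw [M.facet, mJ_f] at h1
  rw [← M.stE, M.facet, M.ff] at h3
  rw [← M.stE, M.facet, mJ_f]
  exact hJE x h1 h3

/-- **Back from the mirror image.** -/
theorem Gr.unmir (hJ0 : ∀ f, J f → ¬ R.core f)
    (hJE : ∀ s : P.FSt, J s.facet → ¬ R.core s.stE.facet → J s.stE.facet)
    (h : Gr (R.mir M) (mJ M J) (N.mir M) (mV M V) (mL M lout) (mL M lin) (L.map (mP M))) :
    Gr R J N V lin lout L := by
  have h1 := h.mir (mir_J0 M hJ0) (mir_JE M hJE) M.symm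
  rw [Core1.mir_mir, mJ_mJ, mir_mir, mV_mV, mL_mL, mL_mL, List.map_map] at h1
  have h2 : (mP M.symm ∘ mP M) = (id : P.FSt × ℤ × ℤ → P.FSt × ℤ × ℤ) := by
    funext p; exact mP_mP M p
  rwa [h2, List.map_id] at h1

/-! ## Vertices -/

/-- around the vertex, backwards -/
lemma mir_rot (x : P.FSt) : M.s (rot x).rL = rot.symm (M.s x.rL) := M.rot x

lemma mir_rot' (x : P.FSt) : rot (M.s (rot x).rL) = M.s x.rL := by
  rw [mir_rot, Equiv.apply_symm_apply]

/-- the same corner -/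
lemma mir_SC {x y : P.FSt} : SC (M.s x.rL) (M.s y.rL) ↔ SC x y := by
  have key : ∀ {P Q : GridSolid} (M : Mir P Q) (x y : P.FSt), SC x y →
      SC (M.s x.rL) (M.s y.rL) := by
    intro P Q M x y h
    obtain ⟨n, rfl⟩ := Equiv.Perm.SameCycle.exists_nat_pow_eq h
    clear h
    induction n with
    | zero => exact SC.refl _
    | succ n ih =>
      refine ih.trans ?_
      rw [pow_succ', Equiv.Perm.mul_apply]
      have h1 := M.rot ((rot ^ n) x)
      rw [h1]
      have h2 : SC (rot.symm (M.s ((rot ^ n) x).rL)) (M.s ((rot ^ n) x).rL) := by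
        have h3 := SC_rot_left (rot.symm (M.s ((rot ^ n) x).rL)) (M.s ((rot ^ n) x).rL)
        have h4 : (rot.symm (M.s ((rot ^ n) x).rL)).stE.rL = M.s ((rot ^ n) x).rL :=
          Equiv.apply_symm_apply rot _
        rw [h4] at h3
        exact h3.1 (SC.refl _)
      exact h2.symm
  refine ⟨fun h => ?_, key M x y⟩
  have h1 := key M.symm _ _ h
  rw [← M.rR, ← M.rR, M.ss, M.ss, FSt.rL_rR, FSt.rL_rR] at h1
  exact h1

lemma mir_rot_pow (x : P.FSt) (n : ℕ) : M.s ((rot ^ n) x).rL = (rot.symm ^ n) (M.s x.rL) := by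
  induction n with
  | zero => rfl
  | succ n ih =>
    rw [pow_succ', Equiv.Perm.mul_apply, mir_rot, ih, pow_succ', Equiv.Perm.mul_apply]

/-- the number of facets at a corner -/
lemma mir_Val {x : P.FSt} {n : ℕ} (h : Val x n) : Val (M.s x.rL) n := by
  have e : ∀ i : ℕ, (rot ^ i) (M.s x.rL) = M.s x.rL ↔ (rot ^ i) x = x := by
    intro i
    have h1 := mir_rot_pow M x i
    have h2 : (rot.symm ^ i) (M.s x.rL) = ((rot ^ i : Equiv.Perm Q.FSt)).symm (M.s x.rL) := by
      rfl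
    constructor
    · intro h3
      have h4 : ((rot ^ i : Equiv.Perm Q.FSt)).symm (M.s x.rL) = M.s x.rL := by
        rw [Equiv.symm_apply_eq, h3]
      rw [h2, h4] at h1
      have h5 := M.s.injective h1
      have h6 := congrArg FSt.rR h5
      simpa only [FSt.rL_rR] using h6
    · intro h3
      rw [h3, h2] at h1
      rw [← Equiv.eq_symm_apply]
      exact h1
  exact ⟨(e n).2 h.per, fun i h1 h2 h3 => h.min i h1 h2 ((e i).1 h3), h.pos⟩

end

end Pool.Agent.MP42K
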