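import Pool.Agent.MP42.K.Fat4
import Pool.Agent.MP42.K.Mirror3

/-!
# Fattening, mirror image (owner helper18)

The block: `bw w i k`, `i < L`, `k < H` (`i` steps to the WEST, `k` steps to the south).  The north
sides and the EAST side are in `N`, the south-west corners are new.  A port at the south-east
corner: `zw w k = (rot ^ k) w.rR` are the darts after the block.

* `Gr.fat0W`, `Gr.fatPW`.
-/

set_option autoImplicit false
set_option linter.unusedSectionVars false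

namespace Pool.Agent.MP42K

open Pool.Agent.Helper55.UNF Pool.Agent.Helper55.UNF.GridSolid Pool.Agent.MP42G
open Pool.Agent.MP42H Pool.Agent.MP42X Pool.Agent.MP42R
open Core1 (jf)
open Nb (SC SC_rot_right SC_rot_left SC_rev rev_rot rot)

variable {P Q : GridSolid}

/-- the facet in column `i` (to the west) and row `k` of the block -/
def bw (w : P.FSt) (i k : ℕ) : P.FSt := (pE.symm ^ i) ((pN.symm ^ k) w)

/-- the facets of the block -/
def BwG (w : P.FSt) (L H : ℕ) (f : P.Facet) : Prop := ∃ i < L, ∃ k < H, f = (bw w i k).facet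

/-- the darts around the south-east corner of `w` -/
def zw (w : P.FSt) (k : ℕ) : P.FSt := (rot ^ k) w.rR

lemma bw_W (w : P.FSt) (i k : ℕ) : bw w (i + 1) k = pE.symm (bw w i k) := by
  unfold bw; rw [pow_succ', Equiv.Perm.mul_apply]

lemma bw_0N (w : P.FSt) (k : ℕ) : bw w 0 (k + 1) = pN.symm (bw w 0 k) := by
  show (pN.symm ^ (k + 1)) w = pN.symm ((pN.symm ^ k) w)
  rw [pow_succ', Equiv.Perm.mul_apply]

/-- A block that can be added. -/
structure BlockW (N : Nb P) (w : P.FSt) (L H n : ℕ) : Prop where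
  posL : 0 < L
  top : ∀ i < L, N.ke (bw w i 0).rL
  right : ∀ k < H, N.ke (bw w 0 k)
  new : ∀ i < L, ∀ k < H, ¬ N.kv (bw w i k).r2
  dis : ∀ i < L, ∀ k < H, ∀ i' < L, ∀ k' < H, SC (bw w i k).r2 (bw w i' k').r2 → i = i' ∧ k = k'
  flat : ∀ i < L, ∀ k < H, (i + 1 < L ∨ k + 1 < H) →
    pE.symm (pN.symm (bw w i k)) = pN.symm (pE.symm (bw w i k))
  last : 0 < H → Val (bw w (L - 1) (H - 1)).r2 n
  far : ∀ i < L, ¬ SC (bw w 0 0).rR (bw w i 0).rL

section

variable (M : Mir P Q)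

lemma mir_r2_N (y : P.FSt) : pN.symm (M.s y.r2) = M.s (pN.symm y).r2 := by
  rw [← M.stN, pN_symm_apply, FSt.r2_r2]

lemma mir_r2_E (y : P.FSt) : (M.s y.r2).stE = M.s (pE.symm y).r2 := by
  rw [← M.stE, pE_symm_apply, FSt.r2_r2]

lemma mir_bk (w : P.FSt) (i k : ℕ) : bk (M.s w.r2) i k = M.s (bw w i k).r2 := by
  have h0 : ∀ k, bk (M.s w.r2) 0 k = M.s (bw w 0 k).r2 := by
    intro k
    induction k with
    | zero => rfl
    | succ k ih => rw [bk_0N, ih, mir_r2_N, bw_0N]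
  induction i with
  | zero => exact h0 k
  | succ i ih => rw [bk_E, ih, mir_r2_E, bw_W]

lemma mir_bS (y : P.FSt) : bS (M.s y.r2) = M.s (bS y) := by
  unfold bS
  rw [← M.rL, FSt.r2_rL, ← M.stE, ← M.r2]

lemma mir_zp (w : P.FSt) (k : ℕ) : zp (M.s w.r2) k = M.s (zw w k).stE.r2 := by
  have e : ∀ k, (zw w k).stE.r2 = (rot (zw w k)).rL := by
    intro k
    show _ = (zw w k).stE.rL.rL
    rw [FSt.rL_rL]
  induction k with
  | zero =>
    rw [zp_zero, mir_bS]; rfl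
  | succ k ih =>
    have h1 : zp (M.s w.r2) (k + 1) = rot.symm (zp (M.s w.r2) k) := by
      unfold zp; rw [pow_succ', Equiv.Perm.mul_apply]
    have h2 : zw w (k + 1) = rot (zw w k) := by
      unfold zw; rw [pow_succ', Equiv.Perm.mul_apply]
    rw [h1, ih, e k, ← mir_rot, e (k + 1), h2]

/-- the same vertex -/
lemma mir_SC' {x y : P.FSt} : SC (M.s x) (M.s y) ↔ SC x.rR y.rR := by
  have h := mir_SC M (x := x.rR) (y := y.rR)
  rwa [FSt.rR_rL, FSt.rR_rL] at h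

lemma mir_BwG (w : P.FSt) (L H : ℕ) : mJ M (BwG w L H) = BlG (M.s w.r2) L H := by
  funext f
  apply propext
  constructor
  · rintro ⟨i, hi, k, hk, e⟩
    refine ⟨i, hi, k, hk, ?_⟩
    rw [mir_bk, M.facet]
    have h1 := congrArg M.f e
    rw [M.ff'] at h1
    exact h1
  · rintro ⟨i, hi, k, hk, e⟩
    refine ⟨i, hi, k, hk, ?_⟩
    rw [e, mir_bk, M.facet, M.ff]
    rfl

lemma AddsF.mir {N N' : Nb P} {G : P.Facet → Prop} (A : AddsF N N' G) :
    AddsF (N.mir M) (N'.mir M) (mJ M G) := by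
  constructor
  · intro t
    obtain ⟨x, rfl⟩ := M.s.surjective t
    rw [mir_kv, mir_kv, A.kv]
    refine or_congr_right ?_
    constructor
    · rintro ⟨u, h1, h2⟩
      refine ⟨M.s u.rL, ?_, ?_⟩
      · rw [mir_SC', FSt.rL_rR]; exact h1
      · rw [M.facet, mJ_f]; exact h2
    · rintro ⟨t, h1, h2⟩
      obtain ⟨u, rfl⟩ := M.s.surjective t
      rw [mir_SC'] at h1
      rw [M.facet, mJ_f] at h2
      exact ⟨u.rR, h1, h2⟩
  · intro t
    obtain ⟨x, rfl⟩ := M.s.surjective t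
    rw [mir_ke, mir_ke, A.ke, M.facet, mJ_f, ← M.stE, M.facet, mJ_f]
  · intro f
    exact A.kf _

variable {M} in
lemma BlockW.mir {N : Nb P} {w : P.FSt} {L H n : ℕ} (B : BlockW N w L H n) (M : Mir P Q) :
    Block (N.mir M) (M.s w.r2) L H n where
  posL := B.posL
  top i hi := by
    rw [mir_bk, ← M.rR, mir_ke, FSt.r2_rR]; exact B.top i hi
  left k hk := by
    rw [mir_bk, ← M.r2, FSt.r2_r2, mir_ke]; exact B.right k hk
  new i hi k hk := by
    rw [mir_bk, ← M.rL, FSt.r2_rL, mir_kv, FSt.rR_rR]; exact B.new i hi k hk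
  dis i hi k hk i' hi' k' hk' h := by
    rw [mir_bk, mir_bk, ← M.rL, ← M.rL, FSt.r2_rL, FSt.r2_rL, mir_SC', FSt.rR_rR,
      FSt.rR_rR] at h
    exact B.dis i hi k hk i' hi' k' hk' h
  flat i hi k hk h := by
    rw [mir_bk, mir_r2_N, mir_r2_E, mir_r2_E, mir_r2_N, B.flat i hi k hk h]
  last hH := by
    rw [mir_bk, ← M.rL, FSt.r2_rL]
    have h1 := mir_Val M (B.last hH)
    rwa [FSt.r2_rL] at h1
  far i hi h := by
    rw [mir_bk, mir_bk, ← M.r2, FSt.r2_r2, mir_SC', FSt.r2_rR] at h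
    exact B.far i hi h

end

section

variable {R : Core1 P} {J : P.Facet → Prop} {N N' : Nb P} {V V' : P.FSt → Prop}
  {lin lout : P.FSt → Ln} {w : P.FSt} {L H n m : ℕ}

lemma rR_bw_E (w : P.FSt) (i k : ℕ) : (bw w i k).r2.stE.r2 = bw w (i + 1) k := by
  rw [bw_W, pE_symm_apply]

/-- **A block is added**, mirror image, four facets at the last corner. -/
theorem Gr.fat0W (hJ0 : ∀ f, J f → ¬ R.core f)
    (hJE : ∀ s : P.FSt, J s.facet → ¬ R.core s.stE.facet → J s.stE.facet)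
    {S : List (P.FSt × ℤ × ℤ)} (h : Gr R J N V lin lout S) (B : BlockW N w L H 4)
    (A : AddsF N N' (BwG w L H)) (hJ : ∀ i < L, ∀ k < H, J (bw w i k).facet)
    (hJn : ∀ i < L, ∀ k < H, ∀ s, SC (bw w i k).r2 s → J s.facet)
    (hJw : ∀ i ≤ L, ∀ k ≤ H, J (bw w i k).facet)
    (hW : ∀ i < L, bw w (i + 1) 0 ∉ S.map Prod.fst)
    (hb : ∀ k < H, (bw w 0 k).rR ∉ S.map Prod.fst)
    (hV : ∀ i ≤ L, ∀ k ≤ H, V (bw w i k) ↔ V w) :
    Gr R J N' V lin lout S := by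
  let M := Pool.Agent.MP42K.mir P
  have hVr := h.V_rR
  have h1 := h.mir hJ0 hJE M
  have A1 := A.mir M
  rw [mir_BwG] at A1
  refine Gr.unmir M hJ0 hJE (h1.fat0 (mir_J0 M hJ0) (B.mir M) A1 ?_ ?_ ?_ ?_ ?_)
  · intro i hi k hk
    rw [mir_bk, M.facet, mJ_f]; exact hJ i hi k hk
  · intro i hi k hk s hs
    obtain ⟨x, rfl⟩ := M.s.surjective s
    rw [mir_bk, ← M.rL, FSt.r2_rL, mir_SC', FSt.rR_rR] at hs
    rw [M.facet, mJ_f]
    exact hJn i hi k hk x.rR hs
  · intro i hi hc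
    rw [mir_bk, mP_mem, rR_bw_E] at hc
    exact hW i hi hc
  · intro k hk hc
    rw [mir_bk, mir_bS, mP_mem] at hc
    unfold bS at hc
    rw [rev_rev] at hc
    exact hb k hk hc
  · intro i hi k hk
    rw [mir_bk, mV_s, mV_s, V_r2 hVr (hJw i hi k hk),
      V_r2 hVr (s := w) (hJw 0 (by omega) 0 (by omega))]
    exact hV i hi k hk

/-- the lines after the block is added -/
structure BwV (J : P.Facet → Prop) (N : Nb P) (V V' : P.FSt → Prop) (w : P.FSt)
    (L H n m : ℕ) (c' : ℤ) : Prop where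
  V_rR : ∀ s : P.FSt, J s.facet → (V' s.rR ↔ ¬ V' s)
  old : ∀ s, N.Dt s → ¬ BwG w L (H + 1) s.facet → (∀ k ≤ m, s ≠ zw (bw w 0 H) (k + 1)) →
    J s.facet → (V' s ↔ V s)
  west : ∀ k ≤ H, V' (bw w L k) ↔ V w
  bS : ∀ i < L, V' (bS (bw w i H)) ↔ c' ≠ 0
  last : ∀ j, 2 ≤ j → j + 1 < n →
    (V' ((rot.symm ^ j) (bw w (L - 1) H).r2).rL ↔ c' - (j - 1) = 0)
  zone : ∀ k, 1 ≤ k → k < m → (V' (zw (bw w 0 H) k).stE ↔ c' + (k - 1) = 0)
  port : 1 ≤ m → (V' (zw (bw w 0 H) m).stE ↔ V (zw (bw w 0 H) m).stE)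

/-- **A block is added**, mirror image, a port `(a, b)` at the south-east corner, `n` facets at the
south-west corner. -/
theorem Gr.fatPW (hJ0 : ∀ f, J f → ¬ R.core f)
    (hJE : ∀ s : P.FSt, J s.facet → ¬ R.core s.stE.facet → J s.stE.facet)
    {S : List (P.FSt × ℤ × ℤ)} {a b a' c c' : ℤ}
    (h : Gr R J N V lin lout ((zw (bw w 0 H) m, a, b) :: S)) (hm : 1 ≤ m)
    (B : BlockW N w L (H + 1) n) (A : AddsF N N' (BwG w L (H + 1)))
    (nke : ∀ k, 1 ≤ k → k ≤ m → ¬ N.ke (zw (bw w 0 H) k))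
    (hJ : ∀ i ≤ L, ∀ k ≤ H, J (bw w i k).facet)
    (hJn : ∀ i < L, ∀ k < H + 1, ∀ s, SC (bw w i k).r2 s → J s.facet)
    (hJz : ∀ k < m, J (zw (bw w 0 H) k).stE.facet)
    (hW : ∀ i < L, bw w (i + 1) 0 ∉ S.map Prod.fst)
    (hb : ∀ k < H, (bw w 0 k).rR ∉ S.map Prod.fst)
    (hz : ∀ k < m, zw (bw w 0 H) k ∉ S.map Prod.fst)
    (hzG : ∀ k ≤ m, ¬ BwG w L (H + 1) (zw (bw w 0 H) k).stE.facet)
    (hV : ∀ i ≤ L, ∀ k ≤ H, V (bw w i k) ↔ V w) (hVc : V w ↔ c - 1 ≠ 0)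
    (ec : c = a - m + 2) (ec' : c' = c + (n - 4))
    (ea : a' = a + (n - 4)) (b1 : -1 ≤ a') (b2 : a' ≤ 1) (b3 : c' ≤ 1)
    (hV' : BwV J N V V' w L H n m c') :
    Gr R J N' V' lin lout ((zw (bw w 0 H) m, a', b) :: S) := by
  let M := Pool.Agent.MP42K.mir P
  have hVr := h.V_rR
  have hVr' := hV'.V_rR
  have hJw : J w.facet := hJ 0 (by omega) 0 (by omega)
  have h1 := h.mir hJ0 hJE M
  have A1 := A.mir M
  rw [mir_BwG] at A1
  have ez : ∀ k, zp (bk (M.s w.r2) 0 H) k = M.s (zw (bw w 0 H) k).stE.r2 := by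
    intro k
    rw [mir_bk, mir_zp]
  have eL : ∀ a : ℤ, ((zw (bw w 0 H) m, a, b) :: S).map (mP M) =
      (zp (bk (M.s w.r2) 0 H) m, -b, -a) :: S.map (mP M) := by
    intro a
    rw [ez]; rfl
  rw [eL a] at h1
  apply Gr.unmir M hJ0 hJE
  rw [eL a']
  have hJm : J (zw (bw w 0 H) m).stE.facet := h.port.JE
  refine h1.fatP (V' := mV M V') (c := -c) (c' := -c') (mir_J0 M hJ0) hm (B.mir M) A1
    ?_ ?_ ?_ ?_ ?_ ?_ ?_ ?_ ?_ ?_ ?_ ?_ ?_ ?_ ?_ ?_ ?_
  · intro k h2 h3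
    rw [ez, mir_ke, N.ke_rev]; exact nke k h2 h3
  · intro i hi k hk
    rw [mir_bk, M.facet, mJ_f]; exact hJ i (by omega) k (by omega)
  · intro i hi k hk s hs
    obtain ⟨x, rfl⟩ := M.s.surjective s
    rw [mir_bk, ← M.rL, FSt.r2_rL, mir_SC', FSt.rR_rR] at hs
    rw [M.facet, mJ_f]
    exact hJn i hi k hk x.rR hs
  · intro k hk
    rw [ez, M.facet, mJ_f]; exact hJz k hk
  · intro i hi hc
    rw [mir_bk, mP_mem, rR_bw_E] at hc
    exact hW i hi hc
  · intro k hk hc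
    rw [mir_bk, mir_bS, mP_mem] at hc
    unfold bS at hc
    rw [rev_rev] at hc
    exact hb k hk hc
  · intro k hk hc
    rw [ez, mP_mem, rev_rev] at hc
    exact hz k hk hc
  · intro k hk hc
    rw [← mir_BwG, ez, M.facet, mJ_f] at hc
    exact hzG k hk hc
  · intro i hi k hk
    rw [mir_bk, mV_s, mV_s, V_r2 hVr (hJ i hi k hk), V_r2 hVr hJw]
    exact hV i hi k hk
  · rw [mV_s, V_r2 hVr hJw, hVc]; omega
  · rw [ec]; ring
  · rw [ec']; ring
  · rw [ea]; ring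
  · omega
  · omega
  · omega
  · constructor
    · intro s hs
      obtain ⟨x, rfl⟩ := M.s.surjective s
      rw [M.facet, mJ_f] at hs
      rw [← M.rL, mV_s, mV_s]
      exact V_rL hVr' hs
    · intro s hd hG hz' hs
      obtain ⟨x, rfl⟩ := M.s.surjective s
      rw [mir_Dt] at hd
      rw [← mir_BwG, M.facet, mJ_f] at hG
      rw [M.facet, mJ_f] at hs
      have h2 := hV'.old x.rR hd hG ?_ hs
      · rw [hVr' x hs, hVr x hs] at h2
        rw [mV_s, mV_s]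
        exact not_iff_not.1 h2
      · intro k hk e
        apply hz' k hk
        rw [ez]
        congr 1
        have e2 := congrArg FSt.rL e
        rw [FSt.rR_rL] at e2
        rw [e2]
        show ((rot ^ (k + 1)) (bw w 0 H).rR).rL = _
        rw [pow_succ', Equiv.Perm.mul_apply]
        show (zw (bw w 0 H) k).stE.rL.rL = _
        rw [FSt.rL_rL]
    · intro k hk
      rw [mir_bk, mV_s, mV_s, V_r2 hVr' (hJ L le_rfl k hk), V_r2 hVr hJw]
      exact hV'.west k hk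
    · intro i hi
      rw [mir_bk, mir_bS, mV_s, hV'.bS i hi]; omega
    · intro j h2 h3
      have e : (rot ^ j) (bk (M.s w.r2) (L - 1) H).rR =
          M.s ((rot.symm ^ j) (bw w (L - 1) H).r2).rL := by
        rw [mir_bk, ← M.rL, FSt.r2_rL]
        have h4 := mir_rot_pow M ((rot.symm ^ j) (bw w (L - 1) H).r2) j
        have h5 : (rot ^ j) ((rot.symm ^ j) (bw w (L - 1) H).r2) = (bw w (L - 1) H).r2 :=
          Equiv.apply_symm_apply (rot ^ j : Equiv.Perm P.FSt) _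
        rw [h5, FSt.r2_rL] at h4
        rw [h4]
        exact Equiv.apply_symm_apply (rot ^ j : Equiv.Perm (mirP P).FSt) _
      rw [e, mV_s, hV'.last j h2 h3]; omega
    · intro k h2 h3
      rw [ez, mV_s, V_r2 hVr' (hJz k h3), hV'.zone k h2 h3]; omega
    · intro h2
      rw [ez, mV_s, mV_s, V_r2 hVr' hJm, V_r2 hVr hJm]
      exact hV'.port h2

end

end Pool.Agent.MP42K
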