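import Pool.Agent.MP42.K.Rim

/-!
# `KC0`: the labels and the feet of `QX`
-/

set_option autoImplicit false
set_option linter.unusedSectionVars false

namespace Pool.Agent.MP42K

open Pool.Agent.Helper55.UNF Pool.Agent.Helper55.UNF.GridSolid Pool.Agent.MP42G
open Pool.Agent.MP42H Pool.Agent.MP42X Pool.Agent.MP42R

variable {P : GridSolid}

/-- strand 1 is the strand of `St` -/
def s1 : Ln → Ln → Bool
  | Ln.n, _ => true
  | Ln.s, Ln.z => true
  | Ln.z, Ln.z => true
  | _, _ => false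

/-- the labels that are not `0` are negative -/
def ngL (a b : Ln) : Bool := decide (a = Ln.s ∨ b = Ln.s)
def z1L (a b : Ln) : Bool := decide (a = Ln.z ∧ b = Ln.z)
def z2L (a b : Ln) : Bool := decide (a = Ln.z ∨ b = Ln.z)

namespace KC0

variable (C : KC0 P)

/-- the label functions -/
noncomputable def ngF (t : (P.refine 7 h7).FSt) : Bool := ngL (C.lin (cs t)) (C.lout (cs t))
noncomputable def z1F (t : (P.refine 7 h7).FSt) : Bool := z1L (C.lin (cs t)) (C.lout (cs t))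
noncomputable def z2F (t : (P.refine 7 h7).FSt) : Bool := z2L (C.lin (cs t)) (C.lout (cs t))
def trF (t : (P.refine 7 h7).FSt) : Prop := C.tr (cs t)
def acF (t : (P.refine 7 h7).FSt) : Prop := C.ac (cs t)

/-- the foot at `St` -/
def sF (t : (P.refine 7 h7).FSt) : Prop := tx t = 0 ∧ St C.kv C.ke (cs t)

/-- the foot at `En` -/
def nF (t : (P.refine 7 h7).FSt) : Prop := tx t = 6 ∧ En C.kv C.ke (cs t)

def g1F (t : (P.refine 7 h7).FSt) : Prop :=
  if s1 (C.lin (cs t)) (C.lout (cs t)) = true then C.sF t else C.nF t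

def g2F (t : (P.refine 7 h7).FSt) : Prop :=
  if s1 (C.lin (cs t)) (C.lout (cs t)) = true then C.nF t else C.sF t

/-- the facets of the rims with turned adapter facets -/
def TU (r : P.FSt) : Prop :=
  C.tr r ∧ ∃ z : ℤ, (∀ y ∈ Set.uIcc 0 z, Turned C.can ((pE ^ y) r) ∧
      ¬ Land C.kv C.ke C.lin C.lout ((pE ^ y) r)) ∧
    ((St C.kv C.ke ((pE ^ z) r) ∧ C.lin r = Ln.z) ∨ (En C.kv C.ke ((pE ^ z) r) ∧ C.lout r = Ln.z))

/-- the turned adapter facets -/
def tuF (t : (P.refine 7 h7).FSt) : Prop := C.TU (cs t)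

variable {C} {r : P.FSt} {i : ℕ}

lemma sF_pt (hi : i ≤ 6) (j : ℕ) : C.sF (pt r i j) ↔ i = 0 ∧ St C.kv C.ke r := by
  unfold sF; rw [cs_pt, tx_pt r j hi]

lemma nF_pt (hi : i ≤ 6) (j : ℕ) : C.nF (pt r i j) ↔ i = 6 ∧ En C.kv C.ke r := by
  unfold nF; rw [cs_pt, tx_pt r j hi]

lemma cs_stE_pt (hi : i ≤ 6) (j : ℕ) : cs (pt r i j).stE = r ∨ cs (pt r i j).stE = r.stE := by
  by_cases h : i < 6
  · rw [pt_stE r j h, cs_pt]; exact Or.inl rfl
  · obtain rfl : i = 6 := by omega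
    rw [pt_stE6, cs_pt]; exact Or.inr rfl

lemma ngF_E (h : C.Rim r) (hi : i ≤ 6) (j : ℕ) : C.ngF (pt r i j).stE = C.ngF (pt r i j) := by
  unfold ngF
  rcases cs_stE_pt (r := r) hi j with h1 | h1 <;> rw [h1, cs_pt]
  rw [C.lin_E r h, C.lout_E r h]

lemma z1F_E (h : C.Rim r) (hi : i ≤ 6) (j : ℕ) : C.z1F (pt r i j).stE = C.z1F (pt r i j) := by
  unfold z1F
  rcases cs_stE_pt (r := r) hi j with h1 | h1 <;> rw [h1, cs_pt]
  rw [C.lin_E r h, C.lout_E r h]

lemma z2F_E (h : C.Rim r) (hi : i ≤ 6) (j : ℕ) : C.z2F (pt r i j).stE = C.z2F (pt r i j) := by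
  unfold z2F
  rcases cs_stE_pt (r := r) hi j with h1 | h1 <;> rw [h1, cs_pt]
  rw [C.lin_E r h, C.lout_E r h]

lemma trF_E (h : C.Rim r) (hi : i ≤ 6) (j : ℕ) : C.trF (pt r i j).stE ↔ C.trF (pt r i j) := by
  unfold trF
  rcases cs_stE_pt (r := r) hi j with h1 | h1 <;> rw [h1, cs_pt]
  exact C.tr_E r h

lemma acF_E (h : C.Rim r) (hi : i ≤ 6) (j : ℕ) : C.acF (pt r i j).stE ↔ C.acF (pt r i j) := by
  unfold acF
  rcases cs_stE_pt (r := r) hi j with h1 | h1 <;> rw [h1, cs_pt]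
  exact C.ac_E r h

/-- the labels of the two rims of a band -/
lemma lab2 (h : C.Rim r) : (C.lin r.r2 = C.lin r ∧ C.lout r.r2 = C.lout r) ∨
    (C.lin r.r2 = C.lout r ∧ C.lout r.r2 = C.lin r) := by
  by_cases ht : C.tr r
  · exact C.lab_far r h ht
  · have h1 := C.cut_lab r h ht
    have h2 := C.cut_lab r.r2 (Core1.Rim.r2 _ h) (fun h' => ht ((C.tr_far r h).1 h'))
    exact Or.inl ⟨h2.1.trans h1.1.symm, h2.2.trans h1.2.symm⟩

lemma ngL_far (h : C.Rim r) : ngL (C.lin r.r2) (C.lout r.r2) = ngL (C.lin r) (C.lout r) := by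
  unfold ngL
  rcases lab2 h with ⟨h1, h2⟩ | ⟨h1, h2⟩ <;> rw [h1, h2]
  rw [decide_eq_decide]; exact or_comm

lemma z1L_far (h : C.Rim r) : z1L (C.lin r.r2) (C.lout r.r2) = z1L (C.lin r) (C.lout r) := by
  unfold z1L
  rcases lab2 h with ⟨h1, h2⟩ | ⟨h1, h2⟩ <;> rw [h1, h2]
  rw [decide_eq_decide]; exact and_comm

lemma z2L_far (h : C.Rim r) : z2L (C.lin r.r2) (C.lout r.r2) = z2L (C.lin r) (C.lout r) := by
  unfold z2L
  rcases lab2 h with ⟨h1, h2⟩ | ⟨h1, h2⟩ <;> rw [h1, h2]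
  rw [decide_eq_decide]; exact or_comm

/-! ## The feet with label not `0` and with label `0` -/

lemma nz_iff (h : C.Rim r) (ht : C.tr r) (hi : i ≤ 6) (j : ℕ) :
    ((C.g1F (pt r i j) ∧ C.z1F (pt r i j) = false) ∨
      (C.g2F (pt r i j) ∧ C.z2F (pt r i j) = false)) ↔
    ((i = 0 ∧ St C.kv C.ke r ∧ C.lin r ≠ Ln.z) ∨ (i = 6 ∧ En C.kv C.ke r ∧ C.lout r ≠ Ln.z)) := by
  unfold g1F g2F z1F z2F
  rw [cs_pt, sF_pt hi, nF_pt hi]
  have ha := C.adm r h ht
  generalize C.lin r = a at *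
  generalize C.lout r = b at *
  cases a <;> cases b <;> simp_all [s1, z1L, z2L] <;> tauto

lemma zz_iff (h : C.Rim r) (ht : C.tr r) (hi : i ≤ 6) (j : ℕ) :
    ((C.g1F (pt r i j) ∧ C.z1F (pt r i j) = true) ∨
      (C.g2F (pt r i j) ∧ C.z2F (pt r i j) = true)) ↔
    ((i = 0 ∧ St C.kv C.ke r ∧ C.lin r = Ln.z) ∨ (i = 6 ∧ En C.kv C.ke r ∧ C.lout r = Ln.z)) := by
  unfold g1F g2F z1F z2F
  rw [cs_pt, sF_pt hi, nF_pt hi]
  have ha := C.adm r h ht
  generalize C.lin r = a at *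
  generalize C.lout r = b at *
  cases a <;> cases b <;> simp_all [s1, z1L, z2L] <;> tauto

lemma flet_lin (h : C.Rim r) (ht : C.tr r) (hl : C.lin r ≠ Ln.z) :
    flet (ngL (C.lin r) (C.lout r)) = C.lin r := by
  have ha := C.adm r h ht
  generalize C.lin r = a at *
  generalize C.lout r = b at *
  cases a <;> cases b <;> simp_all [ngL, flet]

lemma flet_lout (h : C.Rim r) (ht : C.tr r) (hl : C.lout r ≠ Ln.z) :
    flet (ngL (C.lin r) (C.lout r)) = C.lout r := by
  have ha := C.adm r h ht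
  generalize C.lin r = a at *
  generalize C.lout r = b at *
  cases a <;> cases b <;> simp_all [ngL, flet]

lemma z12F (t : (P.refine 7 h7).FSt) (h : C.z1F t = true) : C.z2F t = true := by
  unfold z1F z1L at h
  unfold z2F z2L
  rw [decide_eq_true_eq] at h ⊢
  exact Or.inl h.1

/-- a foot with a label that is not `0` is in a straight facet -/
lemma st_straight (h : C.Rim r) (hs : St C.kv C.ke r) (hl : C.lin r ≠ Ln.z) :
    (C.can (pN.symm r).facet = pN.symm r ∨ C.can (pN.symm r).facet = (pN.symm r).r2) ∧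
      C.nu (pN.symm r).rL = C.lin r := by
  have := C.st_lab r h hs
  rwa [if_neg hl] at this

lemma en_straight (h : C.Rim r) (hs : En C.kv C.ke r) (hl : C.lout r ≠ Ln.z) :
    (C.can (pN.symm r).facet = pN.symm r ∨ C.can (pN.symm r).facet = (pN.symm r).r2) ∧
      C.nu (pN.symm r).rL.stE.r2 = C.lout r := by
  have := C.en_lab r h hs
  rwa [if_neg hl] at this

lemma st_turned (h : C.Rim r) (hs : St C.kv C.ke r) (hl : C.lin r = Ln.z) : Turned C.can r := by
  have := C.st_lab r h hs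
  rwa [if_pos hl] at this

lemma en_turned (h : C.Rim r) (hs : En C.kv C.ke r) (hl : C.lout r = Ln.z) : Turned C.can r := by
  have := C.en_lab r h hs
  rwa [if_pos hl] at this

/-- the letters over the rims -/
lemma wn_rim (h : C.Rim r) (hi : i ≤ 6) : wnQ C.canF C.lsF C.lnF (pt (pN.symm r) i 6) =
    open Classical in
    if i = 6 ∧ En C.kv C.ke r then C.lout r
    else if i = 0 ∧ St C.kv C.ke r then C.lin r else Ln.z := by
  classical
  rcases C.straight_or (pN.symm r) with hc | hc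
  · rw [C.wn_pt _ hi (by omega) hc, C.sN_rim h hi]
    by_cases h1 : i = 6 ∧ En C.kv C.ke r
    · rw [if_pos h1, if_pos h1]
      by_cases hl : C.lout r = Ln.z
      · exact absurd (en_turned h h1.2 hl) (fun h' => C.not_both hc h')
      · exact (en_straight h h1.2 hl).2
    · rw [if_neg h1, if_neg h1]
      by_cases h2 : i = 0 ∧ St C.kv C.ke r
      · rw [if_pos h2, if_pos h2]
        by_cases hl : C.lin r = Ln.z
        · exact absurd (st_turned h h2.2 hl) (fun h' => C.not_both hc h')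
        · exact (st_straight h h2.2 hl).2
      · rw [if_neg h2, if_neg h2]
  · rw [C.wn_pt0 _ hi (by omega) hc]
    split_ifs with h1 h2
    · by_cases hl : C.lout r = Ln.z
      · exact hl.symm
      · exact absurd (en_straight h h1.2 hl).1 (fun h' => C.not_both h' hc)
    · by_cases hl : C.lin r = Ln.z
      · exact hl.symm
      · exact absurd (st_straight h h2.2 hl).1 (fun h' => C.not_both h' hc)
    · rfl

/-- the strands over the rims -/
lemma wo_rim (h : C.Rim r) (hi : i ≤ 6) : woQ C.canF C.wF C.eF (pt (pN.symm r) i 6) =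
    open Classical in
    decide ((i = 6 ∧ En C.kv C.ke r ∧ C.lout r = Ln.z) ∨
      (i = 0 ∧ St C.kv C.ke r ∧ C.lin r = Ln.z)) := by
  classical
  rcases C.straight_or (pN.symm r) with hc | hc
  · rw [C.wo_pt0 _ hi (by omega) hc]
    symm
    rw [decide_eq_false_iff_not]
    rintro (⟨-, h1, h2⟩ | ⟨-, h1, h2⟩)
    · exact C.not_both hc (en_turned h h1 h2)
    · exact C.not_both hc (st_turned h h1 h2)
  · rw [C.wo_pt _ hi (by omega) hc, C.sE_rim h hi, decide_eq_decide]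
    constructor
    · rintro (⟨h1, h2⟩ | ⟨h1, h2⟩)
      · refine Or.inl ⟨h1, h2, ?_⟩
        by_contra hl
        exact C.not_both (en_straight h h2 hl).1 hc
      · refine Or.inr ⟨h1, h2, ?_⟩
        by_contra hl
        exact C.not_both (st_straight h h2 hl).1 hc
    · rintro (⟨h1, h2, -⟩ | ⟨h1, h2, -⟩)
      · exact Or.inl ⟨h1, h2⟩
      · exact Or.inr ⟨h1, h2⟩

end KC0

end Pool.Agent.MP42K
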