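import Pool.Agent.MP42.K.Port5

/-!
# Growth: start at the root, bulk steps at a rim, the end of the growth
-/

set_option autoImplicit false
set_option linter.unusedSectionVars false

namespace Pool.Agent.MP42K

open Pool.Agent.Helper55.UNF Pool.Agent.Helper55.UNF.GridSolid Pool.Agent.MP42G
open Pool.Agent.MP42H Pool.Agent.MP42X Pool.Agent.MP42R
open Core1 (jf)
open Nb (SC SC_rot_right SC_rot_left SC_rev rev_rot rot)

variable {P : GridSolid}

section

variable {R : Core1 P} {J : P.Facet → Prop} {N N' : Nb P} {V : P.FSt → Prop}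
  {lin lout : P.FSt → Ln} {L : List (P.FSt × ℤ × ℤ)}

/-! ## Lines of untouched facets -/

/-- The lines of a facet without vertices of `N` may be changed. -/
theorem Gr.setV (h : Gr R J N V lin lout L) {V' : P.FSt → Prop}
    (hV : ∀ s : P.FSt, J s.facet → (V' s.rR ↔ ¬ V' s))
    (hVV : ∀ s : P.FSt, J s.facet → N.kv s → (V' s ↔ V s)) :
    Gr R J N V' lin lout L := by
  obtain ⟨Hi, Ho, h1, h2, h3, h4⟩ := h.ex
  refine ⟨h.nd, ⟨Hi, Ho, ?_, h2, h3, h4⟩, h.one, h.lE⟩
  exact
    { V_rR := hV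
      r1 := h1.r1
      r2 := h1.r2
      r3 := h1.r3
      r4 := h1.r4
      io := h1.io
      hb := h1.hb
      hb' := h1.hb'
      vr := fun s a b c => (hVV s a (N.ke_kv s c)).trans (h1.vr s a b c)
      vx := fun s a b c d => (hVV s a b).trans (h1.vx s a b c d)
      vx' := fun s a b c d => (hVV s a b).trans (h1.vx' s a b c d)
      op := fun s hs => by
        have hp := h1.op s hs
        refine ⟨hp.kv, hp.ke, hp.Jt, hp.JE, hp.a1, hp.a2, hp.b1, hp.b2,
          (hVV s hp.Jt hp.kv).trans hp.Va, ?_⟩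
        have hk : N.kv s.stE.rL := (N.kv_rot s).2 hp.kv
        have h5 := hVV s.stE.rL hp.JE hk
        have h6 := V_rL hV hp.JE
        have h7 := V_rL h1.V_rR hp.JE
        have h8 := hp.Vb
        tauto }

/-! ## The root -/

/-- one vertex -/
def Nb.pt (x : P.FSt) : Nb P where
  kv s := SC x s
  ke _ := False
  kf _ := False
  kv_rot s := SC_rot_right x s
  ke_rev _ := Iff.rfl
  ke_kv _ h := h.elim
  kf_ke _ h := h.elim

lemma Nb.pt_one (x : P.FSt) : ∀ s t, (Nb.pt x).Dt s → (Nb.pt x).Dt t → (Nb.pt x).E s t := by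
  have key : ∀ cv, (Nb.pt x).Inv cv → ∀ s, SC x s → (cv x ↔ cv s) := by
    intro cv hc s hs
    obtain ⟨n, rfl⟩ := Equiv.Perm.SameCycle.exists_nat_pow_eq hs
    clear hs
    induction n with
    | zero => exact Iff.rfl
    | succ n ih =>
      rw [pow_succ', Equiv.Perm.mul_apply]
      refine ih.trans (hc.x _ ?_ id)
      exact Equiv.Perm.sameCycle_pow_right.2 (Equiv.Perm.SameCycle.refl _ _)
  intro s t hs ht cv hc
  exact (key cv hc s hs.1).symm.trans (key cv hc t ht.1)

/-- **The start**: one vertex at the root rim, the west end of the rim edge of `r`, with labels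
`α` (`lin`) and `β` (`lout`); the port goes away from the rim. -/
theorem Gr.root (hJ0 : ∀ f, J f → ¬ R.core f) {r : P.FSt} (hr : R.Rim r)
    (hJr : J (pN.symm r).facet) (hJw : J (pN.symm (pE.symm r)).facet)
    (hV : ∀ s : P.FSt, J s.facet → (V s.rR ↔ ¬ V s)) {α β : ℤ} (hα1 : -1 ≤ α) (hα2 : α ≤ 1)
    (hβ1 : -1 ≤ β) (hβ2 : β ≤ 1) (hVr : V (pN.symm r) ↔ α ≠ 0)
    (hVw : V (pN.symm (pE.symm r)) ↔ β ≠ 0) :
    Gr R J (Nb.pt (pN.symm (pE.symm r))) V (fun _ => Lof α) (fun _ => Lof β)
      [(pN.symm (pE.symm r), β, α)] := by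
  classical
  set w : P.FSt := pE.symm r with hw
  have hwr : w.stE = r := pE_symm_stE r
  have hwR : R.Rim w := Rim_W hr
  set N0 : Nb P := Nb.pt (pN.symm w) with hN0
  set t : P.FSt := pN.symm w with ht
  have hkv : ∀ s, N0.kv s ↔ (s = t ∨ s = (pN.symm r).rL ∨ s = r.r2 ∨ s = w.rR) := by
    intro s
    have := rim_SC (s := s) hwR
    rw [hwr] at this
    exact this
  have hJk : ∀ s, J s.facet → N0.kv s → s = t ∨ s = (pN.symm r).rL := by
    intro s hs hk
    rcases (hkv s).1 hk with h | h | h | h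
    · exact Or.inl h
    · exact Or.inr h
    · exfalso; rw [h] at hs; exact hJ0 _ hs hr.2
    · exfalso; rw [h] at hs; exact hJ0 _ hs hwR.2
  have htne : t ≠ (pN.symm r).rL := by
    intro hc
    have h2 := rim_below_V hwR
    rw [← ht, hc] at h2
    exact not_V_rL' (rim_below_V hr) h2
  have htE : t.stE = pN.symm r := by rw [ht, symm_E' hwR, hwr]
  have hpre1 : pre (pN.symm r).rL = t := by
    have h8 := pre_of_rot t
    rw [htE] at h8
    exact h8
  have hpre0 : pre t = w.rR := by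
    have h8 := pre_of_rot w.rR
    have h9 : w.rR.stE.rL = pN.symm w := rim_rot3 w
    rw [h9] at h8
    exact h8
  have hwne : w.rR ≠ t := by
    intro hc
    have h1 : w.rR.facet = t.facet := by rw [hc]
    exact rim_below_nc hwR (by rw [← ht, ← h1]; exact hwR.2)
  have hwne2 : w.rR ≠ (pN.symm r).rL := by
    intro hc
    have h1 : w.rR.facet = (pN.symm r).rL.facet := by rw [hc]
    have h2 : w.facet = (pN.symm r).facet := h1
    exact rim_below_nc hr (by rw [← h2]; exact hwR.2)
  set Hi : P.FSt → ℤ := fun s => if s = t then β + 1 else α with hHi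
  set Ho : P.FSt → ℤ := fun s => if s = t then α - 1 else if s = w.rR then β else α with hHo
  have i1 : Hi t = β + 1 := by simp only [hHi]; rw [if_pos trivial]
  have i2 : Hi (pN.symm r).rL = α := by simp only [hHi]; rw [if_neg htne.symm]
  have o1 : Ho t = α - 1 := by simp only [hHo]; rw [if_pos trivial]
  have o2 : Ho (pN.symm r).rL = α := by
    simp only [hHo]; rw [if_neg htne.symm, if_neg hwne2.symm]
  have o3 : Ho w.rR = β := by simp only [hHo]; rw [if_neg hwne, if_pos trivial]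
  clear_value Hi Ho
  have hVrL : V (pN.symm r).rL ↔ α = 0 := by
    rw [V_rL hV (s := pN.symm r) hJr, hVr]; simp
  have nke : ∀ s, ¬ N0.ke s := fun s => id
  have nkf : ∀ f, ¬ N0.kf f := fun f => id
  have mem : ∀ s, s ∈ ([(t, β, α)] : List (P.FSt × ℤ × ℤ)).map Prod.fst ↔ s = t := by
    intro s; simp
  refine ⟨by simp, ⟨Hi, Ho, ?_, ?_, ?_, ?_⟩, Nb.pt_one _, fun _ _ _ => ⟨rfl, rfl⟩⟩
  · constructor
    · exact hV
    · intro s _ _ hk; exact absurd hk (nke s)
    · intro s _ _ hk; exact absurd hk (nke s)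
    · intro s _ _ _ hk; exact absurd hk (nke s)
    · intro s hs hk _ _
      rcases hJk s hs hk with h | h
      · subst h; rw [hpre0, i1, o3]
      · subst h; rw [hpre1, i2, o1]; ring
    · intro s hs _ hk ho
      rw [mem] at ho
      rcases hJk s hs hk with h | h
      · exact absurd h ho
      · subst h; rw [i2, o2]
    · intro s hs _ hk ho
      rw [mem] at ho
      rcases hJk s hs hk with h | h
      · exact absurd h ho
      · subst h; rw [o2]; exact ⟨hα1, hα2⟩
    · intro s hs hk _ ho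
      rw [mem] at ho
      rcases hJk s hs hk with h | h
      · subst h; rw [hpre0, o3]; exact ⟨hβ1, hβ2⟩
      · subst h; exact absurd hpre1 ho
    · intro s _ _ hk; exact absurd hk (nke s)
    · intro s hs hk _ ho
      rw [mem] at ho
      rcases hJk s hs hk with h | h
      · exact absurd h ho
      · subst h; rw [o2]; exact hVrL
    · intro s hs hk _ ho
      rw [mem] at ho
      rcases hJk s hs hk with h | h
      · subst h; rw [hpre0, o3]; exact hVw
      · subst h; exact absurd hpre1 ho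
    · intro s ho
      rw [mem] at ho
      subst ho
      refine ⟨(hkv _).2 (Or.inl rfl), nke _, hJw, by rw [htE]; exact hJr, ?_, ?_, ?_, ?_, ?_, ?_⟩
      · rw [i1]; omega
      · rw [i1]; omega
      · rw [o1]; omega
      · rw [o1]; omega
      · rw [i1, hVw]; simp
      · rw [htE, o1, hVr]; simp
  · intro p hp
    rw [List.mem_singleton] at hp
    subst hp
    exact ⟨i1, o1⟩
  · intro u hu hJu hS
    have h1 := rim_SC_in hwR hu hS.1
    rw [hwr] at h1
    subst h1
    rw [o2, Hof_Lof hα1 hα2]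
  · intro u hu hJu hS
    have h1 := rim_SC_out hwR hu hS.1
    subst h1
    rw [hpre0, o3, Hof_Lof hβ1 hβ2]

/-! ## Bulk steps at a rim -/

/-- `N'` is determined by `Adds` -/
lemma Adds.eq_of_false {N N' : Nb P} {T : P.FSt → Prop} (h : Adds N N' T) (hT : ∀ t, ¬ T t) :
    N' = N := by
  have hA0 : Adds N N' (fun _ => False) := h.congr (by simpa using hT)
  cases N; cases N'
  congr 1
  · funext s; exact propext (by have := hA0.kv s; simpa using this)
  · funext s; exact propext (by have := hA0.ke s; simpa using this)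
  · funext s; exact propext (by have := hA0.kf s; simpa using this)

lemma Adds.split {N N' : Nb P} {g : ℕ → P.FSt} {m : ℕ}
    (hA : Adds N N' (fun s => ∃ i < m + 1, s = g i))
    (near : ∀ i < m + 1, N.kv (g i) ∨ ∃ j < i, SC (g j).rR (g i)) :
    ∃ N1 : Nb P, Adds N N1 (fun s => ∃ i < m, s = g i) ∧ Adds N1 N' (fun s => s = g m) := by
  set T : P.FSt → Prop := fun s => ∃ i < m, s = g i with hT
  have hA1 : Adds N (N.addE T) T := by
    refine adds_addE ?_
    rintro s ⟨i, hi1, rfl⟩
    rcases near i (by omega) with h | ⟨j, hj, h⟩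
    · exact Or.inl h
    · exact Or.inr ⟨g j, ⟨j, by omega, rfl⟩, h⟩
  refine ⟨N.addE T, hA1, ?_⟩
  constructor
  · intro s
    rw [hA.kv, hA1.kv, or_assoc]
    refine or_congr_right ?_
    constructor
    · rintro ⟨u, ⟨i, hi1, rfl⟩, h2⟩
      rcases Nat.lt_or_ge i m with h3 | h3
      · exact Or.inl ⟨_, ⟨i, h3, rfl⟩, h2⟩
      · have : i = m := by omega
        subst this
        exact Or.inr ⟨_, rfl, h2⟩
    · rintro (⟨u, ⟨i, hi1, rfl⟩, h2⟩ | ⟨u, rfl, h2⟩)
      · exact ⟨_, ⟨i, by omega, rfl⟩, h2⟩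
      · exact ⟨_, ⟨m, by omega, rfl⟩, h2⟩
  · intro s
    rw [hA.ke, hA1.ke, or_assoc]
    refine or_congr_right ?_
    constructor
    · rintro ⟨u, ⟨i, hi1, rfl⟩, h2⟩
      rcases Nat.lt_or_ge i m with h3 | h3
      · exact Or.inl ⟨_, ⟨i, h3, rfl⟩, h2⟩
      · have : i = m := by omega
        subst this
        exact Or.inr ⟨_, rfl, h2⟩
    · rintro (⟨u, ⟨i, hi1, rfl⟩, h2⟩ | ⟨u, rfl, h2⟩)
      · exact ⟨_, ⟨i, by omega, rfl⟩, h2⟩
      · exact ⟨_, ⟨m, by omega, rfl⟩, h2⟩
  · intro f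
    rw [hA.kf, hA1.kf]

lemma rim_pow {r : P.FSt} (hr : R.Rim r) (i : ℕ) : R.Rim ((pE ^ i) r) :=
  hr.cyc (Equiv.Perm.sameCycle_pow_right.2 (Equiv.Perm.SameCycle.refl _ _))

lemma J_pow (hJE : ∀ s : P.FSt, J s.facet → ¬ R.core s.stE.facet → J s.stE.facet)
    {r : P.FSt} (hr : R.Rim r) (hJ : J (pN.symm r).facet) (i : ℕ) :
    J (pN.symm ((pE ^ i) r)).facet := by
  induction i with
  | zero => exact hJ
  | succ i ih =>
    have h1 := hJE _ ih (by
      rw [symm_E' (rim_pow hr i)]
      exact rim_below_nc (Rim_jE (rim_pow hr i)))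
    rw [symm_E' (rim_pow hr i)] at h1
    rw [pow_succ', Equiv.Perm.mul_apply]
    exact h1

lemma st_after {r : P.FSt} (hr : R.Rim r) (hS : St N.kv N.ke r) (k : ℕ)
    (hne : ¬ N.ke (pN.symm ((pE ^ k) r)).rL)
    (hdis : ∀ i < k, (pE ^ i) r ≠ (pE ^ k) r)
    (hA : Adds N N' (fun s => ∃ i < k, s = (pN.symm ((pE ^ i) r)).rL)) :
    St N'.kv N'.ke ((pE ^ k) r) := by
  constructor
  · rw [hA.kv]
    rcases k with _ | k
    · exact Or.inl hS.1
    · right
      refine ⟨_, ⟨k, by omega, rfl⟩, ?_⟩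
      rw [FSt.rL_rR]
      have h1 := rim_rot0 (rim_pow hr k)
      have h2 : (pE ^ (k + 1)) r = ((pE ^ k) r).stE := by
        rw [pow_succ', Equiv.Perm.mul_apply]; rfl
      rw [h2, ← h1, Nb.rot_apply, SC_rot_right]
      exact Equiv.Perm.SameCycle.refl _ _
  · rw [hA.ke]
    rintro (h | ⟨u, ⟨i, hi1, rfl⟩, h | h⟩)
    · exact hne h
    · have h2 := congrArg FSt.rR h
      rw [FSt.rL_rR, FSt.rL_rR] at h2
      exact hdis i hi1 (pN.symm.injective h2).symm
    · have h2 : (pN.symm ((pE ^ k) r)).rL.facet = ((pE ^ i) r).facet := by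
        rw [h]
        show (pN.symm ((pE ^ i) r)).rL.stE.facet = _
        rw [symm_rL_stE]; rfl
      exact rim_below_nc (rim_pow hr k) (by
        have h3 : (pN.symm ((pE ^ k) r)).facet = ((pE ^ i) r).facet := h2
        rw [h3]; exact (rim_pow hr i).2)

/-- the west end of the gap moves `k` edges to the east -/
theorem Gr.extEs (hJ0 : ∀ f, J f → ¬ R.core f)
    (hJE : ∀ s : P.FSt, J s.facet → ¬ R.core s.stE.facet → J s.stE.facet)
    {r : P.FSt} (hr : R.Rim r)
    (h : Gr R J N V lin lout L) (hS : St N.kv N.ke r) (hJr : J (pN.symm r).facet)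
    (k : ℕ) (hl : 0 < k → lin r ≠ Ln.s) (hnew : ∀ i < k, ¬ N.kv (pN.symm ((pE ^ i) r)))
    (hdis : ∀ i j, i < j → j < k → (pE ^ i) r ≠ (pE ^ j) r)
    (hV : ∀ i < k, (V (pN.symm ((pE ^ (i + 1)) r)) ↔ V (pN.symm ((pE ^ i) r))))
    (hA : Adds N N' (fun s => ∃ i < k, s = (pN.symm ((pE ^ i) r)).rL)) :
    Gr R J N' V lin lout L := by
  induction k generalizing N' with
  | zero =>
    rw [hA.eq_of_false (by rintro t ⟨i, hi, -⟩; omega)]
    exact h
  | succ k ih =>
    obtain ⟨N1, hA1, hA2⟩ := hA.split (fun i _ => by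
      rcases i with _ | i
      · exact Or.inl hS.1
      · right
        refine ⟨i, by omega, ?_⟩
        rw [FSt.rL_rR]
        have h1 := rim_rot0 (rim_pow hr i)
        have h2 : (pE ^ (i + 1)) r = ((pE ^ i) r).stE := by
          rw [pow_succ', Equiv.Perm.mul_apply]; rfl
        rw [h2, ← h1, Nb.rot_apply, SC_rot_right]
        exact Equiv.Perm.SameCycle.refl _ _)
    have h1 := ih (fun _ => hl (by omega)) (fun i hi => hnew i (by omega))
      (fun i j hij hj => hdis i j hij (by omega)) (fun i hi => hV i (by omega)) hA1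
    have hlk : lin ((pE ^ k) r) = lin r := by
      clear hA hV hdis hnew hl ih hA1 hA2 h1
      induction k with
      | zero => rfl
      | succ k ih =>
        rw [pow_succ', Equiv.Perm.mul_apply, pE_apply,
          (h.lE _ (rim_pow hr k) (J_pow hJE hr hJr k)).1]
        exact ih
    have hne : ¬ N.ke (pN.symm ((pE ^ k) r)).rL := by
      intro hc
      have := Nb.kv_rR hc
      rw [FSt.rL_rR] at this
      exact hnew k (by omega) this
    have hS1 : St N1.kv N1.ke ((pE ^ k) r) :=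
      st_after hr hS k hne (fun i hi => hdis i k hi (by omega)) hA1
    have hnew1 : ¬ N1.kv (pN.symm ((pE ^ k) r)) := by
      rw [hA1.kv]
      rintro (hc | ⟨u, ⟨i, hi1, rfl⟩, hc⟩)
      · exact hnew k (by omega) hc
      · rw [FSt.rL_rR] at hc
        exact hdis i k hi1 (by omega) (rim_SC_out (rim_pow hr i) (rim_pow hr k) hc).symm
    have e1 : (pE ^ (k + 1)) r = ((pE ^ k) r).stE := by
      rw [pow_succ', Equiv.Perm.mul_apply]; rfl
    have hJk1 := J_pow hJE hr hJr (k + 1)
    have hVk := hV k (by omega)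
    rw [e1] at hJk1 hVk
    exact h1.extE hJ0 (rim_pow hr k) hS1 (J_pow hJE hr hJr k) hJk1
      (by rw [hlk]; exact hl (by omega)) hnew1 hVk hA2

lemma rim_spow {r : P.FSt} (hr : R.Rim r) (i : ℕ) : R.Rim ((pE.symm ^ i) r) := by
  induction i with
  | zero => exact hr
  | succ i ih =>
    rw [pow_succ', Equiv.Perm.mul_apply]
    exact Rim_W ih

lemma J_spow (hJE : ∀ s : P.FSt, J s.facet → ¬ R.core s.stE.facet → J s.stE.facet)
    {r : P.FSt} (hr : R.Rim r) (hJ : J (pN.symm r).facet) (i : ℕ) :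
    J (pN.symm ((pE.symm ^ i) r)).facet := by
  induction i with
  | zero => exact hJ
  | succ i ih =>
    rw [pow_succ', Equiv.Perm.mul_apply]
    set u := (pE.symm ^ i) r with hu
    have hur := rim_spow hr i
    rw [← hu] at hur
    have h1 : (pN.symm (pE.symm u)).stE = pN.symm u := by
      rw [symm_E' (Rim_W hur), pE_symm_stE]
    -- go to the west: `(pN.symm u).r2.stE = (pN.symm (pE.symm u)).r2`
    have h2 : (pN.symm u).r2.stE = (pN.symm (pE.symm u)).r2 := by
      rw [← h1, FSt.stE_inv]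
    have h3 := hJE (pN.symm u).r2 ih (by
      rw [h2, FSt.facet_r2]; exact rim_below_nc (Rim_W hur))
    rw [h2, FSt.facet_r2] at h3
    exact h3

/-- the vertex at the west of the rim facet, seen from its edge -/
lemma SC_west {r : P.FSt} (hr : R.Rim r) : SC r.rR.rR (pN.symm (pE.symm r)) := by
  have hw := Rim_W hr
  have h1 : rot (rot (pN.symm (pE.symm r))) = r.r2 := by
    rw [rim_rot0 hw, pE_symm_stE, symm_rL_rot]
  rw [FSt.rR_rR, ← h1, Nb.rot_apply, SC_rot_left, Nb.rot_apply, SC_rot_left]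
  exact Equiv.Perm.SameCycle.refl _ _

lemma kv_rim {N : Nb P} {r : P.FSt} : N.kv r.rR ↔ N.kv (pN.symm r) := by
  rw [← rim_rot3 r, Nb.rot_apply, N.kv_rot]

lemma ke_rim {N : Nb P} {r : P.FSt} : N.ke r.rR ↔ N.ke (pN.symm r).rL := by
  have h1 : r.rR.stE.r2 = (pN.symm r).rL := by
    have h9 : r.rR.stE.rL = pN.symm r := rim_rot3 r
    have h10 : r.rR.stE = (pN.symm r).rR := by rw [← h9, FSt.rL_rR]
    rw [h10, FSt.rR_r2]
  rw [← h1, N.ke_rev]

lemma en_after {r : P.FSt} (hr : R.Rim r) (hS : En N.kv N.ke r) (k : ℕ)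
    (hne : ¬ N.ke (pN.symm ((pE.symm ^ k) r)).rL)
    (hdis : ∀ i < k, (pE.symm ^ i) r ≠ (pE.symm ^ k) r)
    (hA : Adds N N' (fun s => ∃ i < k, s = ((pE.symm ^ i) r).rR)) :
    En N'.kv N'.ke ((pE.symm ^ k) r) := by
  constructor
  · rw [hA.kv]
    rcases k with _ | k
    · exact Or.inl hS.1
    · right
      refine ⟨_, ⟨k, by omega, rfl⟩, ?_⟩
      have h2 : (pE.symm ^ (k + 1)) r = pE.symm ((pE.symm ^ k) r) := by
        rw [pow_succ', Equiv.Perm.mul_apply]
      rw [h2]
      exact SC_west (rim_spow hr k)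
  · rw [← ke_rim, hA.ke]
    rintro (h | ⟨u, ⟨i, hi1, rfl⟩, h | h⟩)
    · exact hne (ke_rim.1 h)
    · have h2 := congrArg FSt.rL h
      rw [FSt.rR_rL, FSt.rR_rL] at h2
      exact hdis i hi1 h2.symm
    · have h1 : ((pE.symm ^ i) r).rR.stE.r2 = (pN.symm ((pE.symm ^ i) r)).rL := by
        have h9 : ((pE.symm ^ i) r).rR.stE.rL = pN.symm ((pE.symm ^ i) r) := rim_rot3 _
        have h10 : ((pE.symm ^ i) r).rR.stE = (pN.symm ((pE.symm ^ i) r)).rR := by
          rw [← h9, FSt.rL_rR]
        rw [h10, FSt.rR_r2]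
      rw [h1] at h
      have h2 : ((pE.symm ^ k) r).facet = (pN.symm ((pE.symm ^ i) r)).facet := by
        have : ((pE.symm ^ k) r).rR.facet = (pN.symm ((pE.symm ^ i) r)).rL.facet := by rw [h]
        exact this
      exact rim_below_nc (rim_spow hr i) (by rw [← h2]; exact (rim_spow hr k).2)

/-- the east end of the gap moves `k` edges to the west -/
theorem Gr.extWs (hJ0 : ∀ f, J f → ¬ R.core f)
    (hJE : ∀ s : P.FSt, J s.facet → ¬ R.core s.stE.facet → J s.stE.facet)
    {r : P.FSt} (hr : R.Rim r)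
    (h : Gr R J N V lin lout L) (hS : En N.kv N.ke r) (hJr : J (pN.symm r).facet)
    (k : ℕ) (hl : 0 < k → lout r ≠ Ln.n)
    (hnew : ∀ i < k, ¬ N.kv (pN.symm ((pE.symm ^ (i + 1)) r)))
    (hdis : ∀ i j, i < j → j ≤ k → (pE.symm ^ i) r ≠ (pE.symm ^ j) r)
    (hV : ∀ i < k, (V (pN.symm ((pE.symm ^ (i + 1)) r)) ↔ V (pN.symm ((pE.symm ^ i) r))))
    (hA : Adds N N' (fun s => ∃ i < k, s = ((pE.symm ^ i) r).rR)) :
    Gr R J N' V lin lout L := by
  induction k generalizing N' with
  | zero =>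
    rw [hA.eq_of_false (by rintro t ⟨i, hi, -⟩; omega)]
    exact h
  | succ k ih =>
    obtain ⟨N1, hA1, hA2⟩ := hA.split (fun i _ => by
      rcases i with _ | i
      · exact Or.inl (kv_rim.2 hS.1)
      · right
        refine ⟨i, by omega, ?_⟩
        have h2 : (pE.symm ^ (i + 1)) r = pE.symm ((pE.symm ^ i) r) := by
          rw [pow_succ', Equiv.Perm.mul_apply]
        have h3 := SC_west (rim_spow hr i)
        have h4 : rot (pE.symm ((pE.symm ^ i) r)).rR = pN.symm (pE.symm ((pE.symm ^ i) r)) :=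
          rim_rot3 _
        rw [← h4, Nb.rot_apply, SC_rot_right] at h3
        rw [h2]; exact h3)
    have h1 := ih (fun _ => hl (by omega)) (fun i hi => hnew i (by omega))
      (fun i j hij hj => hdis i j hij (by omega)) (fun i hi => hV i (by omega)) hA1
    have hlk : lout ((pE.symm ^ k) r) = lout r := by
      clear hA hV hdis hnew hl ih hA1 hA2 h1
      induction k with
      | zero => rfl
      | succ k ih =>
        rw [pow_succ', Equiv.Perm.mul_apply, ← ih]
        have h5 := (h.lE _ (Rim_W (rim_spow hr k)) (by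
          have := J_spow hJE hr hJr (k + 1)
          rw [pow_succ', Equiv.Perm.mul_apply] at this
          exact this)).2
        rw [pE_symm_stE] at h5
        exact h5.symm
    have hne : k ≠ 0 → ¬ N.ke (pN.symm ((pE.symm ^ k) r)).rL := by
      intro hk0 hc
      have h6 := Nb.kv_rR hc
      rw [FSt.rL_rR] at h6
      obtain ⟨k', rfl⟩ : ∃ k', k = k' + 1 := ⟨k - 1, by omega⟩
      exact hnew k' (by omega) h6
    have hS1 : En N1.kv N1.ke ((pE.symm ^ k) r) := by
      rcases Nat.eq_zero_or_pos k with h0 | h0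
      · subst h0
        rw [hA1.eq_of_false (by rintro t ⟨i, hi, -⟩; omega)]
        exact hS
      · exact en_after hr hS k (hne (by omega)) (fun i hi => hdis i k hi (by omega)) hA1
    have e1 : (pE.symm ^ (k + 1)) r = pE.symm ((pE.symm ^ k) r) := by
      rw [pow_succ', Equiv.Perm.mul_apply]
    have hnew1 : ¬ N1.kv (pN.symm (pE.symm ((pE.symm ^ k) r))) := by
      rw [← e1, hA1.kv]
      rintro (hc | ⟨u, ⟨i, hi1, rfl⟩, hc⟩)
      · exact hnew k (by omega) hc
      · have h6 : SC (pN.symm (pE.symm ((pE.symm ^ i) r))) (pN.symm ((pE.symm ^ (k + 1)) r)) :=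
          Equiv.Perm.SameCycle.trans
            (Equiv.Perm.SameCycle.symm (SC_west (rim_spow hr i))) hc
        have h7 := rim_SC_out (Rim_W (rim_spow hr i)) (rim_spow hr (k + 1)) h6
        have h8 : (pE.symm ^ (i + 1)) r = pE.symm ((pE.symm ^ i) r) := by
          rw [pow_succ', Equiv.Perm.mul_apply]
        rw [← h8] at h7
        exact hdis (i + 1) (k + 1) (by omega) (by omega) h7.symm
    have hJk1 := J_spow hJE hr hJr (k + 1)
    have hVk := hV k (by omega)
    rw [e1] at hJk1 hVk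
    exact h1.extW hJ0 (rim_spow hr k) hS1 (J_spow hJE hr hJr k) hJk1
      (by rw [hlk]; exact hl (by omega)) hnew1 hVk hA2

/-! ## The end of the growth -/

/-- **No open ports: local rules with one heading.** -/
theorem Gr.toKG (h : Gr R J N V lin lout []) :
    ∃ H : P.FSt → ℤ, ∀ (Le : P.Facet → Prop) (Pl : Bool → ℕ → P.FSt → Prop)
      (Hg : Bool → P.FSt → Prop), KG J ⟨N.kv, N.ke, N.kf, V, H, lin, lout, Le, Pl, Hg⟩ ∧
      (∀ r, R.Rim r → J (jf r) → St N.kv N.ke r →
        lin r = Lof ((⟨N.kv, N.ke, N.kf, V, H, lin, lout, Le, Pl, Hg⟩ : KHD P).hs r)) ∧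
      (∀ r, R.Rim r → J (jf r) → En N.kv N.ke r →
        lout r = Lof ((⟨N.kv, N.ke, N.kf, V, H, lin, lout, Le, Pl, Hg⟩ : KHD P).hn r)) := by
  obtain ⟨Hi, Ho, h1, -, h3, h4⟩ := h.ex
  have no : ∀ s : P.FSt, s ∉ ([] : List (P.FSt × ℤ × ℤ)).map Prod.fst := fun s => by simp
  refine ⟨Ho, fun Le Pl Hg => ⟨?_, ?_, ?_⟩⟩
  · exact
      { V_rR := h1.V_rR
        kv_rot := fun s _ _ => N.kv_rot s
        ke_rev := fun s _ _ => N.ke_rev s
        ke_kv := fun s _ hk => ⟨N.ke_kv s hk, Nb.kv_rR hk⟩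
        kf_ke := fun s _ hk => N.kf_ke s hk
        hb := fun s a b c => h1.hb s a b c (no s)
        hb' := fun s a b c => h1.hb' s a b c (no _)
        r1 := fun s a b c d => by
          have h5 := h1.io s.rR a b (Nb.kv_rR c) (no _)
          have h6 := h1.r1 s a b c d
          show Ho s.rR = Ho s - 1
          rw [← h5, h6]
        r2 := fun s a b c d => by
          have h5 := h1.io s.rR a b (Nb.kv_rR c) (no _)
          have h6 := h1.r2 s a b c d
          show Ho s.rR = Ho s
          rw [← h5, h6]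
        r3 := fun s a b c d => by
          have hf : ¬ N.kf s.facet := fun hk => c (N.kf_ke s.rL hk)
          have h5 := h1.io s a hf b (no _)
          have h6 := h1.r3 s a b c d
          show Ho s = Ho (pre s)
          rw [← h5, h6]
        r4 := fun s a b c d => by
          have hf : ¬ N.kf s.facet := fun hk => c (N.kf_ke s.rL hk)
          have h5 := h1.io s a hf b (no _)
          have h6 := h1.r4 s a b c d
          show Ho s = Ho (pre s) + 1
          rw [← h5, h6]
        vr := h1.vr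
        vx := fun s a b c => h1.vx s a b c (no _)
        vx' := fun s a b c => h1.vx' s a b c (no _) }
  · intro r hr hJ hS
    have h5 := h3 r hr hJ hS
    show lin r = Lof (Ho (pN.symm r).rL)
    rw [h5, Lof_Hof]
  · intro r hr hJ hS
    have h5 := h4 r hr hJ hS
    show lout r = Lof (Ho (pre (pN.symm r)))
    rw [h5, Lof_Hof]

/-- the connectivity field of `KH` -/
theorem Gr.conn (h : Gr R J N V lin lout L) (hI : N.In R J) (cv : P.FSt → Prop)
    (h1 : ∀ s : P.FSt, J s.facet → J s.stE.facet → N.kv s → ¬ N.ke s → (cv s ↔ cv s.stE.rL))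
    (h2 : ∀ s : P.FSt, J s.facet → ¬ N.kf s.facet → N.ke s → (cv s ↔ cv s.rR))
    (h3 : ∀ a b, R.Rim a → J (jf a) → pE.SameCycle a b → St N.kv N.ke a → En N.kv N.ke b →
      (cv (pN.symm a).rL ↔ cv (pN.symm b))) :
    ∃ q : Prop, ∀ s : P.FSt, J s.facet → ¬ N.kf s.facet → N.kv s → (cv s ↔ q) :=
  Nb.conn_local hI (fun s t hs ht _ _ => h.one s t hs ht) cv ⟨h1, h2, h3⟩

end

end Pool.Agent.MP42K
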