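import Pool.Agent.MP42.K.Surg
import Pool.Agent.MP42.K.Port6

/-!
# Growth without lines: definitions

`KG0 J N H`: the rules of `KG` without the clauses about the lines `V`, for a subcomplex `N` of the
whole surface and a heading `H`.

`GS0 J N Hi Ho Op`: the same with open darts `Op` (two headings).

`Gr0 R J N H lin lout L`: the state of the growth: one curve, headings `H` at the closed darts, list
`L` of ports `(t, a, b)` (heading `a + 1` into the open dart `t`, `b - 1` out of it), labels.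
-/

set_option autoImplicit false
set_option linter.unusedSectionVars false

namespace Pool.Agent.MP42K

open Pool.Agent.Helper55.UNF Pool.Agent.Helper55.UNF.GridSolid Pool.Agent.MP42G
open Pool.Agent.MP42H Pool.Agent.MP42X Pool.Agent.MP42R
open Core1 (jf)
open Nb (SC SC_rot_right SC_rot_left SC_rev rev_rot rot)

variable {P : GridSolid}

/-- The local rules on the junction `J`, without lines. -/
structure KG0 (J : P.Facet → Prop) (N : Nb P) (H : P.FSt → ℤ) : Prop where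
  hb : ∀ s : P.FSt, J s.facet → ¬ N.kf s.facet → N.kv s → -1 ≤ H s ∧ H s ≤ 1
  hb' : ∀ t : P.FSt, J t.facet → N.kv t → ¬ N.ke t.rL → -1 ≤ H (pre t) ∧ H (pre t) ≤ 1
  /-- right turn at the south-east corner of `s` -/
  r1 : ∀ s : P.FSt, J s.facet → ¬ N.kf s.facet → N.ke s → N.ke s.rR → H s.rR = H s - 1
  /-- straight on over the south side of `s` -/
  r2 : ∀ s : P.FSt, J s.facet → ¬ N.kf s.facet → N.ke s → ¬ N.ke s.rR → H s.rR = H s
  /-- straight on after the north side of `t` -/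
  r3 : ∀ t : P.FSt, J t.facet → N.kv t → ¬ N.ke t.rL → N.ke t → H t = H (pre t)
  /-- left turn after the north side of `t` -/
  r4 : ∀ t : P.FSt, J t.facet → N.kv t → ¬ N.ke t.rL → ¬ N.ke t → H t = H (pre t) + 1

/-- An open dart `t` with headings `a` (south along `t`) and `b` (north along `t.stE`). -/
structure Port0 (J : P.Facet → Prop) (N : Nb P) (t : P.FSt) (a b : ℤ) : Prop where
  kv : N.kv t
  ke : ¬ N.ke t
  Jt : J t.facet
  JE : J t.stE.facet
  a1 : -1 ≤ a
  a2 : a ≤ 1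
  b1 : -1 ≤ b
  b2 : b ≤ 1

/-- The rules with two headings: `Hi s` into `s`, `Ho s` out of `s`. -/
structure GS0 (J : P.Facet → Prop) (N : Nb P) (Hi Ho : P.FSt → ℤ) (Op : P.FSt → Prop) :
    Prop where
  nxt : ∀ s, N.Dt s → J (N.nx s).facet → Hi (N.nx s) = Ho s + N.dl s
  cl : ∀ s, N.Dt s → J s.facet → ¬ Op s → Hi s = Ho s
  hb : ∀ s, N.Dt s → J s.facet → ¬ Op s → -1 ≤ Ho s ∧ Ho s ≤ 1
  hb' : ∀ s, N.Dt s → ¬ N.ke s → J s.stE.facet → ¬ Op s → -1 ≤ Ho s ∧ Ho s ≤ 1
  op : ∀ t, Op t → Port0 J N t (Hi t - 1) (Ho t + 1)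

/-- **The state of the growth.** -/
structure Gr0 (R : Core1 P) (J : P.Facet → Prop) (N : Nb P) (H : P.FSt → ℤ)
    (lin lout : P.FSt → Ln) (L : List (P.FSt × ℤ × ℤ)) : Prop where
  nd : (L.map Prod.fst).Nodup
  ex : ∃ Hi Ho : P.FSt → ℤ, GS0 J N Hi Ho (fun t => t ∈ L.map Prod.fst) ∧
    (∀ p ∈ L, Hi p.1 = p.2.1 + 1 ∧ Ho p.1 = p.2.2 - 1) ∧
    (∀ s, s ∉ L.map Prod.fst → Ho s = H s)
  st : ∀ r, R.Rim r → J (jf r) → St N.kv N.ke r → H (pN.symm r).rL = Hof (lin r)
  en : ∀ r, R.Rim r → J (jf r) → En N.kv N.ke r → H (pre (pN.symm r)) = Hof (lout r)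
  one : ∀ s t, N.Dt s → N.Dt t → N.E s t
  lE : ∀ r, R.Rim r → J (jf r) → lin r.stE = lin r ∧ lout r.stE = lout r

/-- `J` is a union of junctions -/
structure Jct (R : Core1 P) (J : P.Facet → Prop) : Prop where
  nc : ∀ f, J f → ¬ R.core f
  E : ∀ s : P.FSt, J s.facet → ¬ R.core s.stE.facet → J s.stE.facet

section

variable {R : Core1 P} {J : P.Facet → Prop} {N N' : Nb P} {H : P.FSt → ℤ}
  {Hi Ho Hi' Ho' : P.FSt → ℤ} {Op Op' : P.FSt → Prop} {lin lout : P.FSt → Ln}
  {L : List (P.FSt × ℤ × ℤ)}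

/-- the dart before `t`, if the north side of `t` is not an edge of `N` -/
lemma Nb.nx_pre {t : P.FSt} (hk : N.kv t) (hkL : ¬ N.ke t.rL) :
    N.Dt (pre t) ∧ ¬ N.ke (pre t) ∧ N.nx (pre t) = t := by
  have h1 : ¬ N.ke (pre t) := fun hc => hkL ((ke_pre N t).1 hc)
  refine ⟨⟨(kv_pre N t).2 hk, Nb.nkf_of_nke h1⟩, h1, ?_⟩
  rw [Nb.nx_nke h1, pre_rot]

/-- without open darts -/
theorem GS0.toKG0 (h : GS0 J N Hi Ho Op) (hO : ∀ t, ¬ Op t) : KG0 J N Ho := by
  classical
  have hn : ∀ s, N.Dt s → J (N.nx s).facet → Ho (N.nx s) = Ho s + N.dl s := by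
    intro s hs hJ
    rw [← h.cl _ hs.nx hJ (hO _)]
    exact h.nxt s hs hJ
  constructor
  · intro s hJ hf hk
    exact h.hb s ⟨hk, hf⟩ hJ (hO s)
  · intro t hJ hk hkL
    obtain ⟨h1, h2, -⟩ := Nb.nx_pre hk hkL
    refine h.hb' _ h1 h2 ?_ (hO _)
    have h3 : (pre t).stE.rL.facet = t.facet := by rw [pre_rot]
    exact h3.symm ▸ hJ
  · intro s hJ hf hk hk'
    have h1 := hn s ⟨N.ke_kv s hk, hf⟩ (by rw [Nb.nx_ke hk]; exact hJ)
    unfold Nb.dl at h1
    rw [Nb.nx_ke hk, if_pos hk, if_pos hk'] at h1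
    rw [h1]; ring
  · intro s hJ hf hk hk'
    have h1 := hn s ⟨N.ke_kv s hk, hf⟩ (by rw [Nb.nx_ke hk]; exact hJ)
    unfold Nb.dl at h1
    rw [Nb.nx_ke hk, if_pos hk, if_neg hk'] at h1
    rw [h1]; ring
  · intro t hJ hk hkL hk'
    obtain ⟨h0, hp, h2⟩ := Nb.nx_pre hk hkL
    have h1 := hn _ h0 (by rw [h2]; exact hJ)
    unfold Nb.dl at h1
    rw [h2, if_neg hp, if_pos hk'] at h1
    rw [h1]; ring
  · intro t hJ hk hkL hk'
    obtain ⟨h0, hp, h2⟩ := Nb.nx_pre hk hkL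
    have h1 := hn _ h0 (by rw [h2]; exact hJ)
    unfold Nb.dl at h1
    rw [h2, if_neg hp, if_neg hk'] at h1
    rw [h1]; ring

/-- **The end of the growth.** -/
theorem Gr0.toKG0 (h : Gr0 R J N H lin lout []) : KG0 J N H := by
  obtain ⟨Hi, Ho, h1, -, h3⟩ := h.ex
  have e : Ho = H := funext fun s => h3 s (by simp)
  rw [← e]
  exact h1.toKG0 fun t => by simp

/-- the headings of the closed darts -/
theorem Gr0.nxt (h : Gr0 R J N H lin lout L) {s : P.FSt} (hs : N.Dt s)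
    (hJ : J (N.nx s).facet) (h1 : s ∉ L.map Prod.fst) (h2 : N.nx s ∉ L.map Prod.fst) :
    H (N.nx s) = H s + N.dl s := by
  obtain ⟨Hi, Ho, g1, -, g3⟩ := h.ex
  rw [← g3 _ h1, ← g3 _ h2, ← g1.cl _ hs.nx hJ h2]
  exact g1.nxt s hs hJ

/-- the heading before a port -/
theorem Gr0.nxt_in (h : Gr0 R J N H lin lout L) {s t : P.FSt} {a b : ℤ} (hs : N.Dt s)
    (h1 : s ∉ L.map Prod.fst) (ht : (t, a, b) ∈ L) (h2 : N.nx s = t) :
    H s + N.dl s = a + 1 := by
  obtain ⟨Hi, Ho, g1, g2, g3⟩ := h.ex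
  have hp := g1.op t (List.mem_map_of_mem (f := Prod.fst) ht)
  have h3 := g1.nxt s hs (by rw [h2]; exact hp.Jt)
  rw [h2, (g2 _ ht).1, g3 _ h1] at h3
  exact h3.symm

/-- the heading after a port -/
theorem Gr0.nxt_out (h : Gr0 R J N H lin lout L) {t : P.FSt} {a b : ℤ}
    (ht : (t, a, b) ∈ L) (h2 : N.nx t ∉ L.map Prod.fst) :
    H (N.nx t) = b - 1 + N.dl t := by
  obtain ⟨Hi, Ho, g1, g2, g3⟩ := h.ex
  have hp := g1.op t (List.mem_map_of_mem (f := Prod.fst) ht)
  have hD : N.Dt t := ⟨hp.kv, Nb.nkf_of_nke hp.ke⟩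
  have hJ : J (N.nx t).facet := by rw [Nb.nx_nke hp.ke]; exact hp.JE
  rw [← g3 _ h2, ← g1.cl _ hD.nx hJ h2, g1.nxt t hD hJ, (g2 _ ht).2]

theorem Gr0.port {t : P.FSt} {a b : ℤ} (h : Gr0 R J N H lin lout L) (ht : (t, a, b) ∈ L) :
    Port0 J N t a b := by
  obtain ⟨Hi, Ho, h1, h2, -⟩ := h.ex
  have h3 := h1.op t (List.mem_map_of_mem (f := Prod.fst) ht)
  have h4 := h2 _ ht
  have e1 : Hi t - 1 = a := by have := h4.1; simp only at this; omega
  have e2 : Ho t + 1 = b := by have := h4.2; simp only at this; omega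
  rwa [e1, e2] at h3

/-- the heading of a closed dart is in `{-1, 0, 1}` -/
theorem Gr0.hb (h : Gr0 R J N H lin lout L) {s : P.FSt} (hs : N.Dt s) (hJ : J s.facet)
    (h1 : s ∉ L.map Prod.fst) : -1 ≤ H s ∧ H s ≤ 1 := by
  obtain ⟨Hi, Ho, g1, g2, g3⟩ := h.ex
  rw [← g3 s h1]
  exact g1.hb s hs hJ h1

/-- the order of the ports does not matter -/
theorem Gr0.perm {L' : List (P.FSt × ℤ × ℤ)} (h : Gr0 R J N H lin lout L) (hp : L.Perm L') :
    Gr0 R J N H lin lout L' := by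
  obtain ⟨Hi, Ho, h1, h2, h3⟩ := h.ex
  have e : ∀ t, t ∈ L'.map Prod.fst ↔ t ∈ L.map Prod.fst := fun t => (hp.map Prod.fst).mem_iff.symm
  refine ⟨(hp.map Prod.fst).nodup_iff.1 h.nd, ⟨Hi, Ho, ?_, ?_, ?_⟩, h.st, h.en, h.one, h.lE⟩
  · have e' : (fun t => t ∈ L'.map Prod.fst) = (fun t : P.FSt => t ∈ L.map Prod.fst) := by
      funext t
      exact propext (e t)
    rw [e']; exact h1
  · intro p hp'
    exact h2 p (hp.mem_iff.2 hp')
  · intro s hs
    exact h3 s (fun hc => hs ((e s).2 hc))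

/-- **A closed crossing dart with heading `0` is a port.** -/
theorem Gr0.opn {t : P.FSt} (h : Gr0 R J N H lin lout L) (hk : N.kv t) (he : ¬ N.ke t)
    (hJ : J t.facet) (hJE : J t.stE.facet) (hH : H t = 0) (hL : t ∉ L.map Prod.fst) :
    Gr0 R J N H lin lout ((t, -1, 1) :: L) := by
  obtain ⟨Hi, Ho, h1, h2, h3⟩ := h.ex
  have hO : Ho t = 0 := by rw [h3 t hL]; exact hH
  have hI : Hi t = Ho t := h1.cl t ⟨hk, Nb.nkf_of_nke he⟩ hJ hL
  have mem : ∀ s, s ∉ ((t, (-1 : ℤ), (1 : ℤ)) :: L).map Prod.fst → s ∉ L.map Prod.fst := by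
    intro s hs hc
    exact hs (by rw [List.map_cons]; exact List.mem_cons_of_mem _ hc)
  refine ⟨?_, ⟨Hi, Ho, ?_, ?_, ?_⟩, h.st, h.en, h.one, h.lE⟩
  · rw [List.map_cons]; exact List.nodup_cons.2 ⟨hL, h.nd⟩
  · exact
      { nxt := h1.nxt
        cl := fun s a b c => h1.cl s a b (mem s c)
        hb := fun s a b c => h1.hb s a b (mem s c)
        hb' := fun s a b c d => h1.hb' s a b c (mem s d)
        op := fun s hs => by
          rw [List.map_cons] at hs
          rcases List.mem_cons.1 hs with rfl | hs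
          · rw [hI, hO]
            exact ⟨hk, he, hJ, hJE, by omega, by omega, by omega, by omega⟩
          · exact h1.op s hs }
  · intro p hp
    rcases List.mem_cons.1 hp with rfl | hp
    · rw [hI, hO]; constructor <;> norm_num
    · exact h2 p hp
  · intro s hs
    exact h3 s (mem s hs)

/-- ports are not at the rims -/
lemma Jct.ne_rim (hJ : Jct R J) {r t : P.FSt} (hr : R.Rim r) (h1 : J t.facet)
    (h2 : J t.stE.facet) : (pN.symm r).rL ≠ t ∧ pre (pN.symm r) ≠ t := by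
  constructor
  · intro hc
    apply hJ.nc _ h2
    rw [← hc, symm_rL_stE]
    exact hr.2
  · intro hc
    apply hJ.nc _ h1
    rw [← hc]
    have h3 : (pre (pN.symm r)).facet = r.facet := by
      show (pN.symm r).rL.stE.r2.facet = _
      rw [symm_rL_stE]; rfl
    rw [h3]; exact hr.2

/-- **A port `(-1, 1)` can be closed.** -/
theorem Gr0.cls (hJ : Jct R J) {t : P.FSt} (h : Gr0 R J N H lin lout ((t, -1, 1) :: L)) :
    ∃ H' : P.FSt → ℤ, (∀ s, s ≠ t → H' s = H s) ∧ H' t = 0 ∧ Gr0 R J N H' lin lout L := by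
  classical
  have hp := h.port (t := t) (a := -1) (b := 1) (by simp)
  have hnd := h.nd
  rw [List.map_cons, List.nodup_cons] at hnd
  obtain ⟨Hi, Ho, h1, h2, h3⟩ := h.ex
  have h5 := h2 (t, -1, 1) (by simp)
  have e1 : Hi t = 0 := by have := h5.1; simp only at this; omega
  have e2 : Ho t = 0 := by have := h5.2; simp only at this; omega
  have mem : ∀ s, s ≠ t → s ∉ L.map Prod.fst →
      s ∉ ((t, (-1 : ℤ), (1 : ℤ)) :: L).map Prod.fst := by
    intro s hs hs2 hc
    rw [List.map_cons] at hc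
    rcases List.mem_cons.1 hc with h6 | h6
    · exact hs h6
    · exact hs2 h6
  refine ⟨fun s => if s = t then 0 else H s, fun s hs => if_neg hs, if_pos rfl, hnd.2,
    ⟨Hi, Ho, ?_, fun p hp => h2 p (List.mem_cons_of_mem _ hp), ?_⟩, ?_, ?_, h.one, h.lE⟩
  · exact
      { nxt := h1.nxt
        cl := fun s a b c => by
          by_cases hst : s = t
          · subst hst; rw [e1, e2]
          · exact h1.cl s a b (mem s hst c)
        hb := fun s a b c => by
          by_cases hst : s = t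
          · subst hst; rw [e2]; constructor <;> norm_num
          · exact h1.hb s a b (mem s hst c)
        hb' := fun s a b c d => by
          by_cases hst : s = t
          · rw [hst, e2]; constructor <;> norm_num
          · exact h1.hb' s a b c (mem _ hst d)
        op := fun s hs => h1.op s (by rw [List.map_cons]; exact List.mem_cons_of_mem _ hs) }
  · intro s hs
    by_cases hst : s = t
    · rw [if_pos hst, hst, e2]
    · rw [if_neg hst]; exact h3 s (mem s hst hs)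
  · intro r hr hJr hS
    show (if (pN.symm r).rL = t then 0 else H (pN.symm r).rL) = _
    rw [if_neg (hJ.ne_rim hr hp.Jt hp.JE).1]
    exact h.st r hr hJr hS
  · intro r hr hJr hS
    show (if pre (pN.symm r) = t then 0 else H (pre (pN.symm r))) = _
    rw [if_neg (hJ.ne_rim hr hp.Jt hp.JE).2]
    exact h.en r hr hJr hS

end

end Pool.Agent.MP42K
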