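import Pool.Agent.MP42.K.G0

/-!
# Growth without lines: surgery, the step with numbers, ports in the interior
-/

set_option autoImplicit false
set_option linter.unusedSectionVars false

namespace Pool.Agent.MP42K

open Pool.Agent.Helper55.UNF Pool.Agent.Helper55.UNF.GridSolid Pool.Agent.MP42G
open Pool.Agent.MP42H Pool.Agent.MP42X Pool.Agent.MP42R
open Core1 (jf)
open Nb (SC SC_rot_right SC_rot_left SC_rev rev_rot rot)

variable {P : GridSolid}

section

variable {R : Core1 P} {J : P.Facet → Prop} {N N' : Nb P} {H : P.FSt → ℤ}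
  {Hi Ho Hi' Ho' : P.FSt → ℤ} {Op Op' : P.FSt → Prop} {lin lout : P.FSt → Ln}
  {L : List (P.FSt × ℤ × ℤ)}

/-- the rules at the dart `s` -/
structure Loc0 (J : P.Facet → Prop) (N : Nb P) (Hi Ho : P.FSt → ℤ) (Op : P.FSt → Prop)
    (s : P.FSt) : Prop where
  nxt : J (N.nx s).facet → Hi (N.nx s) = Ho s + N.dl s
  cl : J s.facet → ¬ Op s → Hi s = Ho s
  hb : J s.facet → ¬ Op s → -1 ≤ Ho s ∧ Ho s ≤ 1
  hb' : ¬ N.ke s → J s.stE.facet → ¬ Op s → -1 ≤ Ho s ∧ Ho s ≤ 1
  op : Op s → Port0 J N s (Hi s - 1) (Ho s + 1)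

theorem GS0.loc (h : GS0 J N Hi Ho Op) {s : P.FSt} (hs : N.Dt s) : Loc0 J N Hi Ho Op s :=
  ⟨h.nxt s hs, h.cl s hs, h.hb s hs, h.hb' s hs, h.op s⟩

theorem GS0.of_loc (hO : ∀ t, Op t → N.Dt t) (h : ∀ s, N.Dt s → Loc0 J N Hi Ho Op s) :
    GS0 J N Hi Ho Op :=
  ⟨fun s hs => (h s hs).nxt, fun s hs => (h s hs).cl, fun s hs => (h s hs).hb,
    fun s hs => (h s hs).hb', fun t ht => (h t (hO t ht)).op ht⟩

/-- **The rules after a surgery.** -/
theorem GS0.surg (h : GS0 J N Hi Ho Op) {O C : P.FSt → Prop} (S : Sg N N' O C)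
    (hv : ∀ s, N.Dt s → ¬ O s → Hi' s = Hi s ∧ Ho' s = Ho s ∧ (Op' s ↔ Op s))
    (hin : ∀ s, N.Dt s → ¬ O s → O (N.nx s) → J (N.nx s).facet →
      Hi' (N.nx s) = Ho s + N'.dl s)
    (hC : ∀ s, C s → Loc0 J N' Hi' Ho' Op' s)
    (hO : ∀ t, Op' t → N'.Dt t) : GS0 J N' Hi' Ho' Op' := by
  classical
  refine GS0.of_loc hO ?_
  intro s hs
  rcases (S.D s).1 hs with ⟨h1, h2⟩ | h1
  swap
  · exact hC s h1
  · have hL := h.loc h1
    obtain ⟨v1, v2, v3⟩ := hv s h1 h2
    have hk := S.ke s h1 h2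
    have hn := S.nx h1 h2
    constructor
    · intro hJ
      rw [hn] at hJ ⊢
      rw [v2]
      by_cases hO1 : O (N.nx s)
      · exact hin s h1 h2 hO1 hJ
      · rw [(hv _ h1.nx hO1).1, hL.nxt hJ]
        have hk2 := S.ke _ h1.nx hO1
        unfold Nb.dl
        rw [hn]
        simp only [hk, hk2]
    · intro hJ ho
      rw [v1, v2]
      exact hL.cl hJ (fun hc => ho (v3.2 hc))
    · intro hJ ho
      rw [v2]
      exact hL.hb hJ (fun hc => ho (v3.2 hc))
    · intro hk' hJ ho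
      rw [v2]
      exact hL.hb' (fun hc => hk' (hk.2 hc)) hJ (fun hc => ho (v3.2 hc))
    · intro ho
      obtain ⟨q1, q2, q3, q4, q5, q6, q7, q8⟩ := hL.op (v3.1 ho)
      rw [v1, v2]
      exact ⟨hs.1, fun hc => q2 (hk.1 hc), q3, q4, q5, q6, q7, q8⟩

/-! ## One new edge with a new vertex -/

/-- the combinatorics of a step -/
theorem sg_step {t : P.FSt} (hkv : N.kv t) (hke : ¬ N.ke t) (hnew : ¬ N.kv t.rR)
    (hA : Adds N N' (fun s => s = t)) :
    Sg N N' (fun s => s = t) (fun s => s = t ∨ SC t.rR s) := by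
  have nkv : ∀ {s}, SC t.rR s → ¬ N.kv s := fun {s} hs hk => hnew ((N.kv_SC hs).2 hk)
  have nkf : ∀ {s : P.FSt}, SC t.rR s → ¬ N.kf s.facet :=
    fun {s} hs hk => nkv hs (N.ke_kv s (N.kf_ke s hk))
  constructor
  · intro s
    constructor
    · rintro ⟨h1, h2⟩
      rw [hA.kf] at h2
      rcases (hA.one1 s).1 h1 with h3 | h3
      · by_cases hst : s = t
        · exact Or.inr (Or.inl hst)
        · exact Or.inl ⟨⟨h3, h2⟩, hst⟩
      · exact Or.inr (Or.inr h3)
    · rintro (⟨⟨h1, h2⟩, -⟩ | h1 | h1)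
      · exact ⟨(hA.one1 s).2 (Or.inl h1), by rw [hA.kf]; exact h2⟩
      · subst h1
        exact ⟨(hA.one1 s).2 (Or.inl hkv), by rw [hA.kf]; exact Nb.nkf_of_nke hke⟩
      · exact ⟨(hA.one1 s).2 (Or.inr h1), by rw [hA.kf]; exact nkf h1⟩
  · rintro s (h1 | h1) h2
    · exact h1
    · exact absurd h2.1 (nkv h1)
  · intro s h1 h2
    rw [hA.one2]
    constructor
    · rintro (h3 | h3 | h3)
      · exact h3
      · exact absurd h3 h2
      · exfalso
        rw [h3] at h1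
        exact nkv (SC_rev t) h1.1
    · exact Or.inl

/-- the edges at the new vertex -/
lemma ke_new {t s : P.FSt} (hkv : N.kv t) (hnew : ¬ N.kv t.rR)
    (hA : Adds N N' (fun s => s = t)) (hs : SC t.rR s) : N'.ke s ↔ s = t.stE.r2 := by
  have nkv : ∀ {s}, SC t.rR s → ¬ N.kv s := fun {s} hs hk => hnew ((N.kv_SC hs).2 hk)
  rw [hA.one2]
  constructor
  · rintro (hk | hk | hk)
    · exact absurd (N.ke_kv s hk) (nkv hs)
    · rw [hk] at hs; exact absurd hkv (nkv hs)
    · exact hk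
  · exact fun hk => Or.inr (Or.inr hk)

/-- **The step with numbers.** The new darts are `(rot ^ i) t.rR`, `i ≤ n`, and `t.stE.r2`. -/
theorem GS0.stepF (h : GS0 J N Hi Ho Op) {t : P.FSt} (hkv : N.kv t) (hke : ¬ N.ke t)
    (hnew : ¬ N.kv t.rR) (hA : Adds N N' (fun s => s = t))
    {a b : ℤ} (hT : J t.facet → Hi t = a + 1 ∧ -1 ≤ a ∧ a ≤ 1)
    (hB : J t.stE.facet → Ho t = b - 1 ∧ -1 ≤ b ∧ b ≤ 1)
    {n : ℕ} (hn : Val t.rR (n + 2)) {hi ho : ℕ → ℤ} {po : ℕ → Prop}
    (first : J t.facet → hi 0 = a)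
    (mid : ∀ i, i < n → J ((rot ^ (i + 1)) t.rR).facet → hi (i + 1) = ho i + 1)
    (last : J t.stE.facet → ho n = b)
    (clo : ∀ i, i ≤ n → J ((rot ^ i) t.rR).facet → ¬ po i →
      hi i = ho i ∧ -1 ≤ ho i ∧ ho i ≤ 1)
    (aft : ∀ i, i ≤ n → J ((rot ^ (i + 1)) t.rR).facet → ¬ po i → -1 ≤ ho i ∧ ho i ≤ 1)
    (opn : ∀ i, i ≤ n → po i → J ((rot ^ i) t.rR).facet ∧ J ((rot ^ i) t.rR).stE.facet ∧
      -1 ≤ hi i - 1 ∧ hi i - 1 ≤ 1 ∧ -1 ≤ ho i + 1 ∧ ho i + 1 ≤ 1) :
    ∃ (Hi' Ho' : P.FSt → ℤ) (Op' : P.FSt → Prop), GS0 J N' Hi' Ho' Op' ∧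
      (∀ s, s ≠ t → ¬ SC t.rR s → Hi' s = Hi s ∧ Ho' s = Ho s ∧ (Op' s ↔ Op s)) ∧
      (Hi' t = a ∧ Ho' t = a ∧ ¬ Op' t) ∧
      (∀ i, i ≤ n → Hi' ((rot ^ i) t.rR) = hi i ∧ Ho' ((rot ^ i) t.rR) = ho i ∧
        (Op' ((rot ^ i) t.rR) ↔ po i)) ∧
      (Hi' t.stE.r2 = b ∧ Ho' t.stE.r2 = b ∧ ¬ Op' t.stE.r2) := by
  classical
  have hNt : ¬ SC t.rR t := fun hc => hnew ((N.kv_SC hc).2 hkv)
  have hl := hn.last
  rw [show n + 2 - 1 = n + 1 by omega] at hl
  have hlne : ∀ i, i ≤ n → (rot ^ i) t.rR ≠ t.stE.r2 := by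
    intro i hi1 hc
    have h1 := hn.idx_pow (i := i) (by omega)
    have h2 := hn.idx_pow (i := n + 1) (by omega)
    rw [hl, ← hc, h1] at h2
    omega
  set Hi' : P.FSt → ℤ := fun s => if s = t then a else if s = t.stE.r2 then b
    else if SC t.rR s then hi (idx t.rR s) else Hi s with hHi
  set Ho' : P.FSt → ℤ := fun s => if s = t then a else if s = t.stE.r2 then b
    else if SC t.rR s then ho (idx t.rR s) else Ho s with hHo
  set Op' : P.FSt → Prop := fun s => if s = t then False else if s = t.stE.r2 then False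
    else if SC t.rR s then po (idx t.rR s) else Op s with hOp
  have hltne : t.stE.r2 ≠ t := by
    intro hc
    have h1 : t.stE.r2.facet = t.facet := by rw [hc]
    exact FSt.stE_facet_ne t h1
  have q1 : ∀ i, i ≤ n → Hi' ((rot ^ i) t.rR) = hi i ∧ Ho' ((rot ^ i) t.rR) = ho i ∧
        (Op' ((rot ^ i) t.rR) ↔ po i) := by
    intro i hi1
    have hS : SC t.rR ((rot ^ i) t.rR) := hn.SC_iff.2 ⟨i, by omega, rfl⟩
    have h1 : (rot ^ i) t.rR ≠ t := fun hc => hNt (by rw [hc] at hS; exact hS)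
    have h2 := hlne i hi1
    have h3 := hn.idx_pow (i := i) (by omega)
    refine ⟨?_, ?_, ?_⟩
    · simp only [hHi]; rw [if_neg h1, if_neg h2, if_pos hS, h3]
    · simp only [hHo]; rw [if_neg h1, if_neg h2, if_pos hS, h3]
    · simp only [hOp]; rw [if_neg h1, if_neg h2, if_pos hS, h3]
  have q2 : ∀ s, s ≠ t → ¬ SC t.rR s → Hi' s = Hi s ∧ Ho' s = Ho s ∧ (Op' s ↔ Op s) := by
    intro s h1 h2
    have h3 : s ≠ t.stE.r2 := fun hc => h2 (by rw [hc]; exact SC_rev t)
    refine ⟨?_, ?_, ?_⟩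
    · simp only [hHi]; rw [if_neg h1, if_neg h3, if_neg h2]
    · simp only [hHo]; rw [if_neg h1, if_neg h3, if_neg h2]
    · simp only [hOp]; rw [if_neg h1, if_neg h3, if_neg h2]
  have q3 : Hi' t = a ∧ Ho' t = a ∧ ¬ Op' t := by
    refine ⟨?_, ?_, ?_⟩
    · simp only [hHi]; rw [if_pos trivial]
    · simp only [hHo]; rw [if_pos trivial]
    · simp only [hOp]; rw [if_pos trivial]; exact id
  have q4 : Hi' t.stE.r2 = b ∧ Ho' t.stE.r2 = b ∧ ¬ Op' t.stE.r2 := by
    refine ⟨?_, ?_, ?_⟩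
    · simp only [hHi]; rw [if_neg hltne, if_pos trivial]
    · simp only [hHo]; rw [if_neg hltne, if_pos trivial]
    · simp only [hOp]; rw [if_neg hltne, if_pos trivial]; exact id
  refine ⟨Hi', Ho', Op', ?_, q2, q3, q1, q4⟩
  clear_value Hi' Ho' Op'
  have nkv : ∀ {s}, SC t.rR s → ¬ N.kv s := fun {s} hs hk => hnew ((N.kv_SC hs).2 hk)
  have nSC : ∀ {s}, N.kv s → ¬ SC t.rR s := fun {s} hk hs => nkv hs hk
  have hS := sg_step hkv hke hnew hA
  -- the edges of `N'`
  have keT : N'.ke t := (hA.one2 t).2 (Or.inr (Or.inl rfl))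
  have keNew : ∀ {s}, SC t.rR s → (N'.ke s ↔ s = t.stE.r2) := fun hs => ke_new hkv hnew hA hs
  have keO : ∀ {s}, N.kv s → (N'.ke s ↔ N.ke s ∨ s = t) := by
    intro s hs
    rw [hA.one2]
    constructor
    · rintro (hk | hk | hk)
      · exact Or.inl hk
      · exact Or.inr hk
      · rw [hk] at hs; exact absurd hs (nkv (SC_rev t))
    · rintro (hk | hk)
      · exact Or.inl hk
      · exact Or.inr (Or.inl hk)
  have hukv : N.kv t.stE.rL := (N.kv_rot t).2 hkv
  have hune : t.stE.rL ≠ t := stE_rL_ne t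
  have hSi : ∀ i, SC t.rR ((rot ^ i) t.rR) := fun i =>
    Equiv.Perm.sameCycle_pow_right.2 (Equiv.Perm.SameCycle.refl _ _)
  have hrotN : ∀ i, N'.Dt ((rot ^ i) t.rR) := fun i => hS.Dt' (Or.inr (hSi i))
  refine h.surg hS ?_ ?_ ?_ ?_
  · intro s h1 h2
    exact q2 s h2 (nSC h1.1)
  · -- into `t`
    intro s h1 h2 h3 hJt
    have h3' : N.nx s = t := h3
    have e1 := h.nxt s h1 hJt
    rw [h3'] at hJt e1 ⊢
    rw [q3.1]
    have e2 := (hT hJt).1
    have e3 : N'.dl s = N.dl s - 1 := by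
      have hk := hS.ke s h1 h2
      have hn' := hS.nx h1 h2
      unfold Nb.dl
      rw [hn', h3', if_pos keT, if_neg hke]
      by_cases hks : N.ke s
      · rw [if_pos hks, if_pos (hk.2 hks)]; ring
      · rw [if_neg hks, if_neg (fun hc => hks (hk.1 hc))]; ring
    rw [e3]; omega
  · rintro s (hs | hs)
    · -- the dart `t`
      subst hs
      refine ⟨?_, ?_, ?_, ?_, fun hc => absurd hc q3.2.2⟩
      · rw [Nb.nx_ke keT]
        intro hJ
        have hk0 : ¬ N'.ke s.rR := by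
          rw [keNew (s := s.rR) (hSi 0)]
          exact hlne 0 (by omega)
        unfold Nb.dl
        rw [Nb.nx_ke keT, if_pos keT, if_neg hk0]
        have h5 := (q1 0 (by omega)).1
        rw [show (rot ^ 0) s.rR = s.rR from rfl] at h5
        rw [h5, q3.2.1, first hJ]; ring
      · intro _ _; rw [q3.1, q3.2.1]
      · intro hJ _; rw [q3.2.1]; exact (hT hJ).2
      · intro hk; exact absurd keT hk
    · by_cases hsl : s = t.stE.r2
      · -- the last dart
        subst hsl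
        have keL : N'.ke t.stE.r2 := (keNew (SC_rev t)).2 rfl
        refine ⟨?_, ?_, ?_, ?_, fun hc => absurd hc q4.2.2⟩
        · rw [Nb.nx_ke keL, FSt.r2_rR]
          intro hJ
          have hkk := keO hukv
          have e1 : N.nx t = t.stE.rL := Nb.nx_nke hke
          have e2 := h.nxt t ⟨hkv, Nb.nkf_of_nke hke⟩ (by rw [e1]; exact hJ)
          unfold Nb.dl at e2 ⊢
          rw [e1, if_neg hke] at e2
          rw [Nb.nx_ke keL, FSt.r2_rR, if_pos keL, (q2 _ hune (nSC hukv)).1, q4.2.1, e2,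
            (hB hJ).1]
          by_cases hk : N.ke t.stE.rL
          · rw [if_pos hk, if_pos (hkk.2 (Or.inl hk))]; ring
          · rw [if_neg hk, if_neg (fun hc => (hkk.1 hc).elim hk hune)]; ring
        · intro _ _; rw [q4.1, q4.2.1]
        · intro hJ _; rw [q4.2.1]; exact (hB hJ).2
        · intro hk; exact absurd keL hk
      · obtain ⟨i, hi1, rfl⟩ := hn.SC_iff.1 hs
        have hin : i ≤ n := by
          by_contra hc
          have : i = n + 1 := by omega
          rw [this, hl] at hsl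
          exact hsl rfl
        have hk : ¬ N'.ke ((rot ^ i) t.rR) := fun hc => hsl ((keNew hs).1 hc)
        have enx : N'.nx ((rot ^ i) t.rR) = (rot ^ (i + 1)) t.rR := by
          rw [Nb.nx_nke hk, pow_succ', Equiv.Perm.mul_apply]; rfl
        have eE : ((rot ^ i) t.rR).stE.facet = ((rot ^ (i + 1)) t.rR).facet := by
          rw [pow_succ', Equiv.Perm.mul_apply]; rfl
        obtain ⟨p1, p2, p3⟩ := q1 i hin
        refine ⟨?_, ?_, ?_, ?_, ?_⟩
        · rw [enx]
          intro hJ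
          rcases Nat.lt_or_ge i n with h5 | h5
          · have hk2 : ¬ N'.ke ((rot ^ (i + 1)) t.rR) := by
              rw [keNew (hSi _)]
              exact hlne (i + 1) (by omega)
            unfold Nb.dl
            rw [enx, if_neg hk, if_neg hk2, (q1 (i + 1) (by omega)).1, p2, mid i h5 hJ]
            ring
          · have h6 : i = n := by omega
            subst h6
            have hk2 : N'.ke ((rot ^ (i + 1)) t.rR) := by
              rw [hl]; exact (keNew (SC_rev t)).2 rfl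
            unfold Nb.dl
            rw [enx, if_neg hk, if_pos hk2]
            rw [hl] at hJ ⊢
            rw [q4.1, p2, last hJ]; ring
        · intro hJ ho1
          rw [p3] at ho1
          rw [p1, p2]
          exact (clo i hin hJ ho1).1
        · intro hJ ho1
          rw [p3] at ho1
          rw [p2]
          exact (clo i hin hJ ho1).2
        · intro _ hJ ho1
          rw [p3] at ho1
          rw [p2]
          rw [eE] at hJ
          exact aft i hin hJ ho1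
        · intro ho1
          rw [p3] at ho1
          rw [p1, p2]
          obtain ⟨o1, o2, o3, o4, o5, o6⟩ := opn i hin ho1
          exact ⟨(hrotN i).1, hk, o1, o2, o3, o4, o5, o6⟩
  · intro u hu
    by_cases hu1 : u = t
    · exact absurd (hu1 ▸ hu) q3.2.2
    · by_cases hu2 : SC t.rR u
      · exact hS.Dt' (Or.inr hu2)
      · have h5 := h.op u ((q2 u hu1 hu2).2.2.1 hu)
        exact hS.Dt ⟨h5.kv, Nb.nkf_of_nke h5.ke⟩ hu1

end

end Pool.Agent.MP42K
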