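import Pool.Agent.MP42.K.G1

/-!
# Growth without lines: steps in the interior of the junction

`Gr0.stepG` (general), `Gr0.step` (one port), `Gr0.tip`, `Gr0.branch`, `Gr0.straight`, `Gr0.run`.
In all of them the headings of the old darts do not change (except at the port `t` itself).
-/

set_option autoImplicit false
set_option linter.unusedSectionVars false

namespace Pool.Agent.MP42K

open Pool.Agent.Helper55.UNF Pool.Agent.Helper55.UNF.GridSolid Pool.Agent.MP42G
open Pool.Agent.MP42H Pool.Agent.MP42X Pool.Agent.MP42R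
open Core1 (jf)
open Nb (SC SC_rot_right SC_rot_left SC_rev rev_rot rot)

variable {P : GridSolid}

section

variable {R : Core1 P} {J : P.Facet → Prop} {N N' : Nb P} {H : P.FSt → ℤ}
  {lin lout : P.FSt → Ln} {L : List (P.FSt × ℤ × ℤ)}

/-- a vertex without core facets is in the interior -/
lemma Jct.vert (hJ : Jct R J) {s : P.FSt} (h : J s.facet) (hc : ∀ u, SC s u → ¬ R.core u.facet)
    (u : P.FSt) (hu : SC s u) : J u.facet := by
  obtain ⟨n, rfl⟩ := Equiv.Perm.SameCycle.exists_nat_pow_eq hu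
  clear hu
  induction n with
  | zero => exact h
  | succ n ih =>
    have h1 : SC s ((rot ^ (n + 1)) s) :=
      Equiv.Perm.sameCycle_pow_right.2 (Equiv.Perm.SameCycle.refl _ _)
    have h2 := hc _ h1
    rw [pow_succ', Equiv.Perm.mul_apply] at h2 ⊢
    exact hJ.E _ ih h2

/-- **One step of a port, general form**: new ports `K` at the new vertex. -/
theorem Gr0.stepG (hJct : Jct R J) {t : P.FSt} {a b : ℤ}
    (h : Gr0 R J N H lin lout ((t, a, b) :: L)) (hA : Adds N N' (fun s => s = t))
    (hnew : ¬ N.kv t.rR) {n : ℕ} (hn : Val t.rR (n + 2)) (hJ : ∀ s, SC t.rR s → J s.facet)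
    {hi ho : ℕ → ℤ} (K : List (ℕ × ℤ × ℤ)) (hKn : (K.map Prod.fst).Nodup)
    (hK : ∀ p ∈ K, p.1 ≤ n ∧ hi p.1 = p.2.1 + 1 ∧ ho p.1 = p.2.2 - 1 ∧ -1 ≤ p.2.1 ∧
      p.2.1 ≤ 1 ∧ -1 ≤ p.2.2 ∧ p.2.2 ≤ 1)
    (first : hi 0 = a) (mid : ∀ i, i < n → hi (i + 1) = ho i + 1) (last : ho n = b)
    (clo : ∀ i, i ≤ n → i ∉ K.map Prod.fst → hi i = ho i ∧ -1 ≤ ho i ∧ ho i ≤ 1) :
    ∃ H' : P.FSt → ℤ, (∀ s, s ≠ t → ¬ SC t.rR s → H' s = H s) ∧ H' t = a ∧
      H' t.stE.r2 = b ∧ (∀ i, i ≤ n → i ∉ K.map Prod.fst → H' ((rot ^ i) t.rR) = ho i) ∧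
      Gr0 R J N' H' lin lout (K.map (fun p => ((rot ^ p.1) t.rR, p.2)) ++ L) := by
  classical
  have hp := h.port (t := t) (a := a) (b := b) (by simp)
  have hnd := h.nd
  rw [List.map_cons, List.nodup_cons] at hnd
  obtain ⟨Hi, Ho, h1, h2, h3⟩ := h.ex
  have h5 := h2 (t, a, b) (by simp)
  simp only at h5
  have hJi : ∀ i, J ((rot ^ i) t.rR).facet := fun i =>
    hJ _ (Equiv.Perm.sameCycle_pow_right.2 (Equiv.Perm.SameCycle.refl _ _))
  have hJE : ∀ i, J ((rot ^ i) t.rR).stE.facet := by
    intro i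
    have := hJi (i + 1)
    rw [pow_succ', Equiv.Perm.mul_apply] at this
    exact this
  obtain ⟨Hi', Ho', Op', g1, g2, g3, g4, g5⟩ := h1.stepF (N' := N') hp.kv hp.ke hnew hA
    (a := a) (b := b) (fun _ => ⟨h5.1, hp.a1, hp.a2⟩)
    (fun _ => ⟨h5.2, hp.b1, hp.b2⟩) (n := n) hn (hi := hi) (ho := ho)
    (po := fun i => i ∈ K.map Prod.fst) (fun _ => first) (fun i hi1 _ => mid i hi1)
    (fun _ => last) (fun i hi1 _ hi2 => clo i hi1 hi2)
    (fun i hi1 _ hi2 => (clo i hi1 hi2).2)
    (fun i hi1 hi2 => by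
      obtain ⟨p, hp1, rfl⟩ := List.mem_map.1 hi2
      obtain ⟨-, k1, k2, k3, k4, k5, k6⟩ := hK p hp1
      refine ⟨hJi _, hJE _, ?_, ?_, ?_, ?_⟩
      · rw [k1]; omega
      · rw [k1]; omega
      · rw [k2]; omega
      · rw [k2]; omega)
  have hkvt : ∀ s, s ∈ L.map Prod.fst → N.kv s := by
    intro s hs
    exact (h1.op s (by rw [List.map_cons]; exact List.mem_cons_of_mem _ hs)).kv
  have hLn : ∀ s, s ∈ L.map Prod.fst → ¬ SC t.rR s := fun s hs hc =>
    hnew ((N.kv_SC hc).2 (hkvt s hs))
  have hLt : ∀ s, s ∈ L.map Prod.fst → s ≠ t := fun s hs hc => hnd.1 (hc ▸ hs)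
  have hSi : ∀ i, SC t.rR ((rot ^ i) t.rR) := fun i =>
    Equiv.Perm.sameCycle_pow_right.2 (Equiv.Perm.SameCycle.refl _ _)
  have hNt : ¬ SC t.rR t := fun hc => hnew ((N.kv_SC hc).2 hp.kv)
  have hmapK : (K.map (fun p => ((rot ^ p.1) t.rR, p.2))).map Prod.fst =
      (K.map Prod.fst).map (fun i => (rot ^ i) t.rR) := by
    rw [List.map_map, List.map_map]; rfl
  have hOp : Op' = fun s => s ∈ (K.map (fun p => ((rot ^ p.1) t.rR, p.2)) ++ L).map Prod.fst := by
    funext s
    apply propext
    rw [List.map_append, List.mem_append, hmapK]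
    by_cases hs : SC t.rR s
    · by_cases hsl : s = t.stE.r2
      · subst hsl
        refine iff_of_false g5.2.2 ?_
        rintro (hc | hc)
        · obtain ⟨i, hi1, hi2⟩ := List.mem_map.1 hc
          obtain ⟨p, hp1, rfl⟩ := List.mem_map.1 hi1
          have h6 := hn.idx_pow (i := p.1) (by have := (hK p hp1).1; omega)
          have h7 := hn.idx_pow (i := n + 1) (by omega)
          have h8 := hn.last
          rw [show n + 2 - 1 = n + 1 by omega] at h8
          rw [h8, ← hi2, h6] at h7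
          have := (hK p hp1).1
          omega
        · exact hLn _ hc hs
      · obtain ⟨i, hi1, rfl⟩ := hn.SC_iff.1 hs
        have hin : i ≤ n := by
          by_contra hc
          have : i = n + 1 := by omega
          rw [this] at hsl
          have h8 := hn.last
          rw [show n + 2 - 1 = n + 1 by omega] at h8
          exact hsl h8
        rw [(g4 i hin).2.2]
        constructor
        · intro hc
          exact Or.inl (List.mem_map_of_mem hc)
        · rintro (hc | hc)
          · obtain ⟨j, hj1, hj2⟩ := List.mem_map.1 hc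
            obtain ⟨p, hp1, rfl⟩ := List.mem_map.1 hj1
            have h6 := hn.idx_pow (i := p.1) (by have := (hK p hp1).1; omega)
            have h7 := hn.idx_pow (i := i) hi1
            rw [← hj2, h6] at h7
            rw [← h7]; exact hj1
          · exact absurd hs (hLn _ hc)
    · by_cases hst : s = t
      · subst hst
        refine iff_of_false g3.2.2 ?_
        rintro (hc | hc)
        · obtain ⟨i, hi1, hi2⟩ := List.mem_map.1 hc
          have h6 := hSi i
          rw [show (rot ^ i) s.rR = s from hi2] at h6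
          exact hs h6
        · exact hnd.1 hc
      · rw [(g2 s hst hs).2.2, List.map_cons, List.mem_cons]
        constructor
        · rintro (hc | hc)
          · exact absurd hc hst
          · exact Or.inr hc
        · rintro (hc | hc)
          · obtain ⟨i, hi1, hi2⟩ := List.mem_map.1 hc
            exact absurd (hi2 ▸ hSi i) hs
          · exact Or.inr hc
  set H' : P.FSt → ℤ := fun s => if s ∈ L.map Prod.fst then H s else Ho' s with hH'
  have hHn : ∀ s, s ∉ L.map Prod.fst → H' s = Ho' s := fun s hs => by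
    simp only [hH']; rw [if_neg hs]
  have hold : ∀ s, s ≠ t → ¬ SC t.rR s → H' s = H s := by
    intro s hs hs2
    by_cases hL : s ∈ L.map Prod.fst
    · simp only [hH']; rw [if_pos hL]
    · rw [hHn s hL, (g2 s hs hs2).2.1]
      exact h3 s (by
        rw [List.map_cons]
        intro hc
        rcases List.mem_cons.1 hc with h6 | h6
        · exact hs h6
        · exact hL h6)
  refine ⟨H', hold, ?_, ?_, ?_, ?_, ⟨Hi', Ho', by rw [← hOp]; exact g1, ?_, ?_⟩, ?_, ?_,
    Nb.one_step h.one hp.kv hnew hA.one1 hA.one2 hA.kf, h.lE⟩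
  · rw [hHn t hnd.1, g3.2.1]
  · rw [hHn _ (fun hc => hLn _ hc (SC_rev t)), g5.2.1]
  · intro i hi1 _
    rw [hHn _ (fun hc => hLn _ hc (hSi i)), (g4 i hi1).2.1]
  · rw [List.map_append, hmapK, List.nodup_append]
    refine ⟨?_, hnd.2, ?_⟩
    · refine List.Nodup.map_on ?_ hKn
      intro i hi1 j hj1 hij
      obtain ⟨p, hp1, rfl⟩ := List.mem_map.1 hi1
      obtain ⟨q, hq1, rfl⟩ := List.mem_map.1 hj1
      have h6 := hn.idx_pow (i := p.1) (by have := (hK p hp1).1; omega)
      have h7 := hn.idx_pow (i := q.1) (by have := (hK q hq1).1; omega)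
      rw [hij, h7] at h6
      exact h6.symm
    · intro s hs u hu hsu
      subst hsu
      obtain ⟨i, hi1, hi2⟩ := List.mem_map.1 hs
      exact hLn s hu (hi2 ▸ hSi i)
  · intro p hp1
    rcases List.mem_append.1 hp1 with hp2 | hp2
    · obtain ⟨q, hq1, rfl⟩ := List.mem_map.1 hp2
      obtain ⟨k0, k1, k2, -⟩ := hK q hq1
      show Hi' ((rot ^ q.1) t.rR) = _ ∧ Ho' ((rot ^ q.1) t.rR) = _
      rw [(g4 q.1 k0).1, (g4 q.1 k0).2.1]
      exact ⟨k1, k2⟩
    · have hm : p.1 ∈ L.map Prod.fst := List.mem_map_of_mem hp2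
      rw [(g2 p.1 (hLt _ hm) (hLn _ hm)).1, (g2 p.1 (hLt _ hm) (hLn _ hm)).2.1]
      exact h2 p (List.mem_cons_of_mem _ hp2)
  · intro s hs
    refine (hHn s ?_).symm
    intro hc
    apply hs
    rw [List.map_append]
    exact List.mem_append_right _ hc
  · intro r hr hJr hS
    obtain ⟨k1, k2⟩ := lab_in hA hold hS (no_rim hJct.nc hJ hr).1
    rw [k2]; exact h.st r hr hJr k1
  · intro r hr hJr hS
    obtain ⟨k1, k2⟩ := lab_out hA hold hS (no_rim hJct.nc hJ hr).2
    rw [k2]; exact h.en r hr hJr k1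

/-- **One step: the port moves to the new vertex**, over `j + 1` facets on the side of `t.facet`. -/
theorem Gr0.step (hJct : Jct R J) {t : P.FSt} {a b : ℤ}
    (h : Gr0 R J N H lin lout ((t, a, b) :: L)) (hA : Adds N N' (fun s => s = t))
    (hnew : ¬ N.kv t.rR) {n : ℕ} (hn : Val t.rR (n + 2)) (hJ : ∀ s, SC t.rR s → J s.facet)
    {j : ℕ} (hj : j ≤ n) {a' b' : ℤ} (ea : a' = a + j - 1) (eb : b' = b - (n - j) + 1)
    (ha1 : -1 ≤ a') (ha2 : a' ≤ 1) (hb1 : -1 ≤ b') (hb2 : b' ≤ 1) :
    ∃ H' : P.FSt → ℤ, (∀ s, s ≠ t → ¬ SC t.rR s → H' s = H s) ∧ H' t = a ∧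
      H' t.stE.r2 = b ∧ (∀ i, i < j → H' ((rot ^ i) t.rR) = a + i) ∧
      (∀ i, j < i → i ≤ n → H' ((rot ^ i) t.rR) = b - (n - i)) ∧
      Gr0 R J N' H' lin lout (((rot ^ j) t.rR, a', b') :: L) := by
  have hp := h.port (t := t) (a := a) (b := b) (by simp)
  have hpa1 := hp.a1
  have hpa2 := hp.a2
  have hpb1 := hp.b1
  have hpb2 := hp.b2
  obtain ⟨H', g1, g2, g3, g4, g5⟩ := h.stepG hJct hA hnew hn hJ
    (hi := fun i => if i ≤ j then a + i else b - (n - i))
    (ho := fun i => if i < j then a + i else b - (n - i)) [(j, a', b')] (by simp) (by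
      intro p hp'
      rw [List.mem_singleton] at hp'
      subst hp'
      refine ⟨hj, ?_, ?_, ha1, ha2, hb1, hb2⟩
      · show (if j ≤ j then a + (j : ℤ) else b - (n - j)) = a' + 1
        rw [if_pos le_rfl]; omega
      · show (if j < j then a + (j : ℤ) else b - (n - j)) = b' - 1
        rw [if_neg (lt_irrefl _)]; omega) (by
      show (if 0 ≤ j then a + ((0 : ℕ) : ℤ) else _) = a
      rw [if_pos (Nat.zero_le _)]; simp) (by
      intro i hi1
      show (if i + 1 ≤ j then a + ((i + 1 : ℕ) : ℤ) else b - (n - ((i + 1 : ℕ) : ℤ))) =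
        (if i < j then a + (i : ℤ) else b - (n - i)) + 1
      by_cases hc : i < j
      · rw [if_pos hc, if_pos (by omega)]; push_cast; ring
      · rw [if_neg hc, if_neg (by omega)]; push_cast; ring) (by
      show (if n < j then a + (n : ℤ) else b - (n - n)) = b
      rw [if_neg (by omega)]; ring) (by
      intro i hi1 hi2
      have hij : i ≠ j := by
        intro hc; apply hi2; rw [hc]; simp
      show (if i ≤ j then a + (i : ℤ) else b - (n - i)) =
        (if i < j then a + (i : ℤ) else b - (n - i)) ∧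
        -1 ≤ (if i < j then a + (i : ℤ) else b - (n - i)) ∧
        (if i < j then a + (i : ℤ) else b - (n - i)) ≤ 1
      by_cases hc : i < j
      · rw [if_pos hc, if_pos hc.le]
        exact ⟨rfl, by omega, by omega⟩
      · rw [if_neg hc, if_neg (by omega)]
        exact ⟨rfl, by omega, by omega⟩)
  refine ⟨H', g1, g2, g3, ?_, ?_, g5⟩
  · intro i hi1
    rw [g4 i (by omega) (by simp; omega), if_pos hi1]
  · intro i hi1 hi2
    rw [g4 i hi2 (by simp; omega), if_neg (by omega)]

/-- **The tip.** -/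
theorem Gr0.tip (hJct : Jct R J) {t : P.FSt} {a b : ℤ}
    (h : Gr0 R J N H lin lout ((t, a, b) :: L)) (hA : Adds N N' (fun s => s = t))
    (hnew : ¬ N.kv t.rR) {n : ℕ} (hn : Val t.rR (n + 2)) (hJ : ∀ s, SC t.rR s → J s.facet)
    (eb : b = a + n) :
    ∃ H' : P.FSt → ℤ, (∀ s, s ≠ t → ¬ SC t.rR s → H' s = H s) ∧ H' t = a ∧
      H' t.stE.r2 = b ∧ (∀ i, i ≤ n → H' ((rot ^ i) t.rR) = a + i) ∧
      Gr0 R J N' H' lin lout L := by
  have hp := h.port (t := t) (a := a) (b := b) (by simp)
  have hpa1 := hp.a1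
  have hpb2 := hp.b2
  obtain ⟨H', g1, g2, g3, g4, g5⟩ := h.stepG hJct hA hnew hn hJ
    (hi := fun i => a + i) (ho := fun i => a + i) [] (by simp) (by simp) (by simp)
    (by intro i _; push_cast; ring) (by rw [eb]) (by
      intro i hi1 _
      exact ⟨rfl, by omega, by omega⟩)
  exact ⟨H', g1, g2, g3, fun i hi1 => g4 i hi1 (by simp), g5⟩

/-- **A branch**: two ports at the new vertex, at the darts `j < k`. -/
theorem Gr0.branch (hJct : Jct R J) {t : P.FSt} {a b : ℤ}
    (h : Gr0 R J N H lin lout ((t, a, b) :: L)) (hA : Adds N N' (fun s => s = t))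
    (hnew : ¬ N.kv t.rR) {n : ℕ} (hn : Val t.rR (n + 2)) (hJ : ∀ s, SC t.rR s → J s.facet)
    {j k : ℕ} (hjk : j < k) (hk : k ≤ n) {a1 b1 a2 b2 : ℤ} (ea : a1 = a + j - 1)
    (ea2 : a2 = b1 + (k - j) - 2) (eb : b2 = b - (n - k) + 1)
    (ha1 : -1 ≤ a1) (ha1' : a1 ≤ 1) (hb1 : -1 ≤ b1) (hb1' : b1 ≤ 1)
    (ha2 : -1 ≤ a2) (ha2' : a2 ≤ 1) (hb2 : -1 ≤ b2) (hb2' : b2 ≤ 1) :
    ∃ H' : P.FSt → ℤ, (∀ s, s ≠ t → ¬ SC t.rR s → H' s = H s) ∧ H' t = a ∧
      H' t.stE.r2 = b ∧ (∀ i, i < j → H' ((rot ^ i) t.rR) = a + i) ∧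
      (∀ i, j < i → i < k → H' ((rot ^ i) t.rR) = b1 - 1 + (i - j)) ∧
      (∀ i, k < i → i ≤ n → H' ((rot ^ i) t.rR) = b - (n - i)) ∧
      Gr0 R J N' H' lin lout (((rot ^ j) t.rR, a1, b1) :: ((rot ^ k) t.rR, a2, b2) :: L) := by
  have hp := h.port (t := t) (a := a) (b := b) (by simp)
  have hpa1 := hp.a1
  have hpa2 := hp.a2
  have hpb1 := hp.b1
  have hpb2 := hp.b2
  obtain ⟨H', g1, g2, g3, g4, g5⟩ := h.stepG hJct hA hnew hn hJ
    (hi := fun i => if i ≤ j then a + i else if i ≤ k then b1 - 1 + (i - j) else b - (n - i))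
    (ho := fun i => if i < j then a + i else if i < k then b1 - 1 + (i - j) else b - (n - i))
    [(j, a1, b1), (k, a2, b2)] (by simp; omega) (by
      intro p hp'
      rw [List.mem_cons, List.mem_singleton] at hp'
      rcases hp' with rfl | rfl
      · refine ⟨by omega, ?_, ?_, ha1, ha1', hb1, hb1'⟩
        · simp only [le_refl, if_true]; omega
        · simp only [lt_irrefl, if_false, if_pos hjk]; omega
      · refine ⟨hk, ?_, ?_, ha2, ha2', hb2, hb2'⟩
        · simp only [if_neg (show ¬ k ≤ j by omega), le_refl, if_true]; omega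
        · simp only [if_neg (show ¬ k < j by omega), lt_irrefl, if_false]; omega) (by simp) (by
      intro i hi1
      show (if i + 1 ≤ j then a + ((i + 1 : ℕ) : ℤ) else if i + 1 ≤ k then
          b1 - 1 + (((i + 1 : ℕ) : ℤ) - j) else b - (n - ((i + 1 : ℕ) : ℤ))) =
        (if i < j then a + (i : ℤ) else if i < k then b1 - 1 + (i - j) else b - (n - i)) + 1
      by_cases hc : i < j
      · rw [if_pos hc, if_pos (by omega)]; push_cast; ring
      · rw [if_neg hc, if_neg (by omega)]
        by_cases hc2 : i < k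
        · rw [if_pos hc2, if_pos (by omega)]; push_cast; ring
        · rw [if_neg hc2, if_neg (by omega)]; push_cast; ring) (by
      show (if n < j then a + (n : ℤ) else if n < k then b1 - 1 + (n - j) else b - (n - n)) = b
      rw [if_neg (by omega), if_neg (by omega)]; ring) (by
      intro i hi1 hi2
      have hij : i ≠ j := by
        intro hc; apply hi2; rw [hc]; simp
      have hik : i ≠ k := by
        intro hc; apply hi2; rw [hc]; simp
      show (if i ≤ j then a + (i : ℤ) else if i ≤ k then b1 - 1 + (i - j) else b - (n - i)) =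
        (if i < j then a + (i : ℤ) else if i < k then b1 - 1 + (i - j) else b - (n - i)) ∧
        -1 ≤ (if i < j then a + (i : ℤ) else if i < k then b1 - 1 + (i - j) else b - (n - i)) ∧
        (if i < j then a + (i : ℤ) else if i < k then b1 - 1 + (i - j) else b - (n - i)) ≤ 1
      by_cases hc : i < j
      · rw [if_pos hc, if_pos hc.le]
        exact ⟨rfl, by omega, by omega⟩
      · rw [if_neg hc, if_neg (by omega)]
        by_cases hc2 : i < k
        · rw [if_pos hc2, if_pos hc2.le]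
          exact ⟨rfl, by omega, by omega⟩
        · rw [if_neg hc2, if_neg (by omega)]
          exact ⟨rfl, by omega, by omega⟩)
  refine ⟨H', g1, g2, g3, ?_, ?_, ?_, g5⟩
  · intro i hi1
    rw [g4 i (by omega) (by simp; omega), if_pos hi1]
  · intro i hi1 hi2
    rw [g4 i (by omega) (by simp; omega), if_neg (by omega), if_pos hi2]
  · intro i hi1 hi2
    rw [g4 i hi2 (by simp; omega), if_neg (by omega), if_neg (by omega)]

/-- **Straight on** over a flat vertex. -/
theorem Gr0.straight (hJct : Jct R J) {t : P.FSt} {a b : ℤ}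
    (h : Gr0 R J N H lin lout ((t, a, b) :: L)) (hA : Adds N N' (fun s => s = t))
    (hnew : ¬ N.kv t.rR) (hc : (pN.symm t).stE = pN.symm t.stE)
    (hJ1 : J (pN.symm t).facet) (hJ2 : J (pN.symm t).stE.facet) :
    ∃ H' : P.FSt → ℤ, (∀ s, s ≠ t → ¬ SC t.rR s → H' s = H s) ∧ H' t = a ∧
      H' t.stE.r2 = b ∧ H' t.rR = a ∧ H' (pN.symm t).stE.rL = b ∧
      Gr0 R J N' H' lin lout ((pN.symm t, a, b) :: L) := by
  have hp := h.port (t := t) (a := a) (b := b) (by simp)
  obtain ⟨h4, h3⟩ := Val.flat hc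
  have e1 : (rot ^ 1) t.rR = pN.symm t := rot_rR t
  have e2 : (rot ^ 2) t.rR = (pN.symm t).stE.rL := by
    show rot (rot t.rR) = _
    rw [rot_rR]; rfl
  have hJ : ∀ s, SC t.rR s → J s.facet := by
    intro s hs
    obtain ⟨i, hi1, rfl⟩ := h4.SC_iff.1 hs
    have : i = 0 ∨ i = 1 ∨ i = 2 ∨ i = 3 := by omega
    rcases this with rfl | rfl | rfl | rfl
    · exact hp.Jt
    · rw [e1]; exact hJ1
    · rw [e2]; exact hJ2
    · have e3 : (rot ^ 3) t.rR = t.stE.r2 := h3
      rw [e3]; exact hp.JE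
  have ha1 := hp.a1
  have ha2 := hp.a2
  have hb1 := hp.b1
  have hb2 := hp.b2
  obtain ⟨H', g1, g2, g3, g4, g5, g6⟩ := h.step hJct hA hnew (n := 2) h4 hJ (j := 1) (by omega)
    (a' := a) (b' := b) (by push_cast; ring) (by push_cast; ring) (by omega) (by omega)
    (by omega) (by omega)
  rw [e1] at g6
  refine ⟨H', g1, g2, g3, ?_, ?_, g6⟩
  · have := g4 0 (by omega)
    simpa using this
  · have := g5 2 (by omega) (by omega)
    rw [e2] at this
    simpa using this

/-- **A straight run of `m` steps.** -/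
theorem Gr0.run (hJct : Jct R J) {t : P.FSt} {a b : ℤ}
    (h : Gr0 R J N H lin lout ((t, a, b) :: L)) (m : ℕ)
    (hc : ∀ i < m, (pN.symm ((pN.symm ^ i) t)).stE = pN.symm ((pN.symm ^ i) t).stE)
    (hJ : ∀ i ≤ m, J ((pN.symm ^ i) t).facet ∧ J ((pN.symm ^ i) t).stE.facet)
    (hnew : ∀ i < m, ¬ N.kv ((pN.symm ^ i) t).rR)
    (hdis : ∀ i j, i < j → j < m → ¬ SC ((pN.symm ^ i) t).rR ((pN.symm ^ j) t).rR)
    (hA : Adds N N' (fun s => ∃ i < m, s = (pN.symm ^ i) t)) :
    ∃ H' : P.FSt → ℤ, (∀ s, s ≠ t → (∀ i < m, ¬ SC ((pN.symm ^ i) t).rR s) → H' s = H s) ∧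
      (∀ i < m, H' ((pN.symm ^ i) t) = a ∧ H' ((pN.symm ^ i) t).stE.r2 = b ∧
        H' ((pN.symm ^ i) t).rR = a ∧ H' ((pN.symm ^ (i + 1)) t).stE.rL = b) ∧
      Gr0 R J N' H' lin lout (((pN.symm ^ m) t, a, b) :: L) := by
  induction m generalizing N' with
  | zero =>
    rw [hA.eq_of_false (by rintro u ⟨i, hi, -⟩; omega)]
    exact ⟨H, fun _ _ _ => rfl, fun i hi => by omega, h⟩
  | succ m ih =>
    have hp := h.port (t := t) (a := a) (b := b) (by simp)
    have near : ∀ i < m + 1, N.kv ((pN.symm ^ i) t) ∨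
        ∃ j < i, SC ((pN.symm ^ j) t).rR ((pN.symm ^ i) t) := by
      intro i _
      rcases i with _ | i
      · exact Or.inl hp.kv
      · refine Or.inr ⟨i, by omega, ?_⟩
        have h1 : (pN.symm ^ (i + 1)) t = rot ((pN.symm ^ i) t).rR := by
          rw [rot_rR, pow_succ', Equiv.Perm.mul_apply]
        rw [h1, Nb.rot_apply, SC_rot_right]
        exact Equiv.Perm.SameCycle.refl _ _
    obtain ⟨N1, hA1, hA2⟩ := hA.split near
    obtain ⟨H1, g1, g2, g3⟩ := ih (fun i hi => hc i (by omega)) (fun i hi => hJ i (by omega))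
      (fun i hi => hnew i (by omega)) (fun i j hij hj => hdis i j hij (by omega)) hA1
    have e0 : (pN.symm ^ (m + 1)) t = pN.symm ((pN.symm ^ m) t) := by
      rw [pow_succ', Equiv.Perm.mul_apply]
    have hJm := hJ (m + 1) le_rfl
    rw [e0] at hJm
    have hnew1 : ¬ N1.kv ((pN.symm ^ m) t).rR := by
      rw [hA1.kv]
      rintro (hk | ⟨u, ⟨i, hi1, rfl⟩, hk⟩)
      · exact hnew m (by omega) hk
      · exact hdis i m hi1 (by omega) hk
    obtain ⟨H', k1, k2, k3, k4, k5, k6⟩ := g3.straight hJct hA2 hnew1 (hc m (by omega))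
      hJm.1 hJm.2
    -- the darts at different new vertices are different
    have hSR : ∀ i, SC ((pN.symm ^ i) t).rR ((pN.symm ^ i) t).rR := fun i =>
      Equiv.Perm.SameCycle.refl _ _
    have hS1 : ∀ i, SC ((pN.symm ^ i) t).rR ((pN.symm ^ (i + 1)) t) := by
      intro i
      have h1 : (pN.symm ^ (i + 1)) t = rot ((pN.symm ^ i) t).rR := by
        rw [rot_rR, pow_succ', Equiv.Perm.mul_apply]
      rw [h1, Nb.rot_apply, SC_rot_right]
      exact Equiv.Perm.SameCycle.refl _ _
    have hNt : ∀ i < m + 1, ¬ SC ((pN.symm ^ i) t).rR t := by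
      intro i hi1 hk
      exact hnew i hi1 ((N.kv_SC hk).2 hp.kv)
    have hdis' : ∀ i j, i < m + 1 → j < m + 1 → i ≠ j →
        ¬ SC ((pN.symm ^ i) t).rR ((pN.symm ^ j) t).rR := by
      intro i j hi1 hj1 hne hk
      rcases Nat.lt_or_ge i j with h1 | h1
      · exact hdis i j h1 (by omega) hk
      · exact hdis j i (by omega) (by omega) (Equiv.Perm.SameCycle.symm hk)
    refine ⟨H', ?_, ?_, ?_⟩
    · intro s hs hs2
      rcases m with _ | m
      · rw [k1 s (by simpa using hs) (by simpa using hs2 0 (by omega)),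
          g1 s hs (by intro i hi; omega)]
      · have h1 : s ≠ (pN.symm ^ (m + 1)) t := by
          intro hc2
          exact hs2 m (by omega) (hc2 ▸ hS1 m)
        rw [k1 s h1 (hs2 (m + 1) (by omega)), g1 s hs (fun i hi => hs2 i (by omega))]
    · intro i hi1
      rcases Nat.lt_or_ge i m with h1 | h1
      · obtain ⟨q1, q2, q3, q4⟩ := g2 i h1
        obtain ⟨m', rfl⟩ : ∃ m', m = m' + 1 := ⟨m - 1, by omega⟩
        have hv := Val.flat (hc i (by omega))
        have hvm := Val.flat (hc m' (by omega))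
        have r1 : ∀ i : ℕ, (rot ^ 1) ((pN.symm ^ i) t).rR = (pN.symm ^ (i + 1)) t := by
          intro i
          show rot ((pN.symm ^ i) t).rR = _
          rw [rot_rR, pow_succ', Equiv.Perm.mul_apply]
        have hpow : ∀ (i k : ℕ), SC ((pN.symm ^ i) t).rR ((rot ^ k) ((pN.symm ^ i) t).rR) :=
          fun i k => Equiv.Perm.sameCycle_pow_right.2 (Equiv.Perm.SameCycle.refl _ _)
        -- the darts at `v_i` are old for the last step
        have key : ∀ k : ℕ, k < 4 → k ≠ 1 → H' ((rot ^ k) ((pN.symm ^ i) t).rR) =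
            H1 ((rot ^ k) ((pN.symm ^ i) t).rR) := by
          intro k hk4 hk1
          refine k1 _ ?_ ?_
          · intro hcc
            by_cases him : i = m'
            · subst him
              rw [← r1 i] at hcc
              have i1 := hv.1.idx_pow (i := k) hk4
              have i2 := hv.1.idx_pow (i := 1) (by omega)
              rw [hcc, i2] at i1
              exact hk1 i1.symm
            · refine hdis' i m' (by omega) (by omega) him ?_
              have h6 := hpow i k
              rw [hcc, ← r1 m'] at h6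
              exact Equiv.Perm.SameCycle.trans h6 (Equiv.Perm.SameCycle.symm (hpow m' 1))
          · intro hcc
            exact hdis' i (m' + 1) (by omega) (by omega) (by omega)
              (Equiv.Perm.SameCycle.trans (hpow i k) (Equiv.Perm.SameCycle.symm hcc))
        have s0 : (rot ^ 0) ((pN.symm ^ i) t).rR = ((pN.symm ^ i) t).rR := rfl
        have s2 : (rot ^ 2) ((pN.symm ^ i) t).rR = ((pN.symm ^ (i + 1)) t).stE.rL := by
          rw [← r1 i]; rfl
        have s3 : (rot ^ 3) ((pN.symm ^ i) t).rR = ((pN.symm ^ i) t).stE.r2 := hv.2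
        have k0 := key 0 (by omega) (by omega)
        have k22 := key 2 (by omega) (by omega)
        have k33 := key 3 (by omega) (by omega)
        rw [s0] at k0
        rw [s2] at k22
        rw [s3] at k33
        refine ⟨?_, ?_, ?_, ?_⟩
        · rw [← q1]
          refine k1 _ ?_ ?_
          · intro hcc
            rcases i with _ | i
            · have h6 := hpow m' 1
              rw [r1 m', ← hcc] at h6
              exact hNt m' (by omega) h6
            · rw [← r1 m', ← r1 i] at hcc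
              have h6 := hpow i 1
              rw [hcc] at h6
              exact hdis' i m' (by omega) (by omega) (by omega)
                (Equiv.Perm.SameCycle.trans h6 (Equiv.Perm.SameCycle.symm (hpow m' 1)))
          · intro hcc
            rcases i with _ | i
            · exact hNt (m' + 1) (by omega) hcc
            · rw [← r1 i] at hcc
              exact hdis' i (m' + 1) (by omega) (by omega) (by omega)
                (Equiv.Perm.SameCycle.trans (hpow i 1) (Equiv.Perm.SameCycle.symm hcc))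
        · rw [k33, q2]
        · rw [k0, q3]
        · rw [k22, q4]
      · have h2 : i = m := by omega
        subst h2
        rw [e0]
        exact ⟨k2, k3, k4, k5⟩
    · rw [e0]; exact k6

end

end Pool.Agent.MP42K
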