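import Pool.Agent.MP42.K.G2

/-!
# Growth without lines: rims

`Gr0.foot`: a port ends at a rim vertex; `Gr0.extE`, `Gr0.extW`: the foot moves along the rim;
`Gr0.extEs`, `Gr0.extWs`: several steps; `Gr0.root`: the start.
-/

set_option autoImplicit false
set_option linter.unusedSectionVars false

namespace Pool.Agent.MP42K

open Pool.Agent.Helper55.UNF Pool.Agent.Helper55.UNF.GridSolid Pool.Agent.MP42G
open Pool.Agent.MP42H Pool.Agent.MP42X Pool.Agent.MP42R
open Core1 (jf)
open Nb (SC SC_rot_right SC_rot_left SC_rev rev_rot rot)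

variable {P : GridSolid}

section

variable {R : Core1 P} {J : P.Facet → Prop} {N N' : Nb P} {H : P.FSt → ℤ}
  {lin lout : P.FSt → Ln} {L : List (P.FSt × ℤ × ℤ)}

lemma pre_rim (r : P.FSt) : pre (pN.symm r) = r.rR := by
  have h8 := pre_of_rot r.rR
  have h9 : r.rR.stE.rL = pN.symm r := rim_rot3 r
  rw [h9] at h8
  exact h8

/-- A step at a rim: no new ports; the new state. -/
theorem Gr0.stepR (hJct : Jct R J) {t : P.FSt} {a b : ℤ} {L' : List (P.FSt × ℤ × ℤ)}
    (h : Gr0 R J N H lin lout L') (hL' : L' = L ∨ L' = (t, a, b) :: L)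
    (htL : t ∉ L.map Prod.fst)
    (hA : Adds N N' (fun s => s = t)) (hkv : N.kv t) (hke : ¬ N.ke t)
    (hnew : ¬ N.kv t.rR) {ho : ℕ → ℤ}
    (hT : J t.facet → -1 ≤ a ∧ a ≤ 1 ∧ (t ∉ L'.map Prod.fst → H t = a + 1))
    (hB : J t.stE.facet → -1 ≤ b ∧ b ≤ 1 ∧ (t ∉ L'.map Prod.fst → H t = b - 1))
    (hn : Val t.rR 4) (first : J t.facet → ho 0 = a)
    (mid : ∀ i, i < 2 → J ((rot ^ (i + 1)) t.rR).facet → ho (i + 1) = ho i + 1)
    (last : J t.stE.facet → ho 2 = b)
    (clo : ∀ i, i ≤ 2 → J ((rot ^ i) t.rR).facet → -1 ≤ ho i ∧ ho i ≤ 1)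
    (aft : ∀ i, i ≤ 2 → J ((rot ^ (i + 1)) t.rR).facet → -1 ≤ ho i ∧ ho i ≤ 1)
    {lin' lout' : P.FSt → Ln}
    (st' : ∀ r, R.Rim r → J (jf r) → St N'.kv N'.ke r →
      (∀ i, i ≤ 2 → (pN.symm r).rL = (rot ^ i) t.rR → ho i = Hof (lin' r)) ∧
      (¬ SC t.rR (pN.symm r).rL → St N.kv N.ke r → lin' r = lin r))
    (en' : ∀ r, R.Rim r → J (jf r) → En N'.kv N'.ke r →
      (∀ i, i ≤ 2 → pre (pN.symm r) = (rot ^ i) t.rR → ho i = Hof (lout' r)) ∧
      (¬ SC t.rR (pN.symm r) → En N.kv N.ke r → lout' r = lout r))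
    (lE' : ∀ r, R.Rim r → J (jf r) → lin' r.stE = lin' r ∧ lout' r.stE = lout' r) :
    ∃ H' : P.FSt → ℤ, (∀ s, s ≠ t → ¬ SC t.rR s → H' s = H s) ∧ H' t = a ∧
      H' t.stE.r2 = b ∧ (∀ i, i ≤ 2 → H' ((rot ^ i) t.rR) = ho i) ∧
      Gr0 R J N' H' lin' lout' L := by
  classical
  obtain ⟨Hi, Ho, h1, h2, h3⟩ := h.ex
  have hsub : ∀ s, s ∈ L.map Prod.fst → s ∈ L'.map Prod.fst := by
    intro s hs
    rcases hL' with e | e
    · rw [e]; exact hs
    · rw [e, List.map_cons]; exact List.mem_cons_of_mem _ hs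
  have hsub' : ∀ s, s ∈ L'.map Prod.fst → s ≠ t → s ∈ L.map Prod.fst := by
    intro s hs hne
    rcases hL' with e | e
    · rw [e] at hs; exact hs
    · rw [e, List.map_cons] at hs
      rcases List.mem_cons.1 hs with h6 | h6
      · exact absurd h6 hne
      · exact h6
  have hDt : N.Dt t := ⟨hkv, Nb.nkf_of_nke hke⟩
  have hTT : t ∈ L'.map Prod.fst → L' = (t, a, b) :: L := by
    intro hc
    rcases hL' with e | e
    · rw [e] at hc; exact absurd hc htL
    · exact e
  have hHiT : J t.facet → Hi t = a + 1 := by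
    intro hJ
    by_cases hc : t ∈ L'.map Prod.fst
    · have := hTT hc
      exact (h2 (t, a, b) (by rw [this]; simp)).1
    · rw [h1.cl t hDt hJ hc, h3 t hc]
      exact (hT hJ).2.2 hc
  have hHoT : J t.stE.facet → Ho t = b - 1 := by
    intro hJ
    by_cases hc : t ∈ L'.map Prod.fst
    · have := hTT hc
      exact (h2 (t, a, b) (by rw [this]; simp)).2
    · rw [h3 t hc]
      exact (hB hJ).2.2 hc
  obtain ⟨Hi', Ho', Op', g1, g2, g3, g4, g5⟩ := h1.stepF (N' := N') hkv hke hnew hA
    (a := a) (b := b) (fun hJ => ⟨hHiT hJ, (hT hJ).1, (hT hJ).2.1⟩)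
    (fun hJ => ⟨hHoT hJ, (hB hJ).1, (hB hJ).2.1⟩) (n := 2) hn (hi := ho) (ho := ho)
    (po := fun _ => False) first mid last (fun i hi1 hi2 _ => ⟨rfl, clo i hi1 hi2⟩)
    (fun i hi1 hi2 _ => aft i hi1 hi2) (fun i _ hc => hc.elim)
  have hLn : ∀ s, s ∈ L.map Prod.fst → ¬ SC t.rR s := fun s hs hc =>
    hnew ((N.kv_SC hc).2 (h1.op s (hsub s hs)).kv)
  have hLt : ∀ s, s ∈ L.map Prod.fst → s ≠ t := fun s hs hc => htL (hc ▸ hs)
  have hl : (rot ^ 3) t.rR = t.stE.r2 := hn.last
  have hSi : ∀ i, SC t.rR ((rot ^ i) t.rR) := fun i =>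
    Equiv.Perm.sameCycle_pow_right.2 (Equiv.Perm.SameCycle.refl _ _)
  have hOp : Op' = fun s => s ∈ L.map Prod.fst := by
    funext s
    apply propext
    by_cases hs : SC t.rR s
    · by_cases hsl : s = t.stE.r2
      · rw [hsl]
        rw [hsl] at hs
        exact iff_of_false g5.2.2 fun hc => hLn _ hc hs
      · obtain ⟨i, hi1, rfl⟩ := hn.SC_iff.1 hs
        have hin : i ≤ 2 := by
          by_contra hc
          have : i = 3 := by omega
          rw [this, hl] at hsl
          exact hsl rfl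
        rw [(g4 i hin).2.2]
        exact iff_of_false id fun hc => hLn _ hc hs
    · by_cases hst : s = t
      · rw [hst]
        exact iff_of_false g3.2.2 htL
      · rw [(g2 s hst hs).2.2]
        exact ⟨fun hc => hsub' s hc hst, hsub s⟩
  set H' : P.FSt → ℤ := fun s => if s ∈ L.map Prod.fst then H s else Ho' s with hH'
  have hHn : ∀ s, s ∉ L.map Prod.fst → H' s = Ho' s := fun s hs => by
    simp only [hH']; rw [if_neg hs]
  have hold : ∀ s, s ≠ t → ¬ SC t.rR s → H' s = H s := by
    intro s hs hs2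
    by_cases hL : s ∈ L.map Prod.fst
    · simp only [hH']; rw [if_pos hL]
    · rw [hHn s hL, (g2 s hs hs2).2.1]
      exact h3 s (fun hc => hL (hsub' s hc hs))
  have hnewH : ∀ i, i ≤ 2 → H' ((rot ^ i) t.rR) = ho i := by
    intro i hi1
    rw [hHn _ (fun hc => hLn _ hc (hSi i)), (g4 i hi1).2.1]
  refine ⟨H', hold, ?_, ?_, hnewH, ?_, ⟨Hi', Ho', by rw [← hOp]; exact g1, ?_, ?_⟩, ?_, ?_,
    Nb.one_step h.one hkv hnew hA.one1 hA.one2 hA.kf, lE'⟩
  · rw [hHn t htL, g3.2.1]
  · rw [hHn _ (fun hc => hLn _ hc (SC_rev t)), g5.2.1]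
  · rcases hL' with e | e
    · rw [← e]; exact h.nd
    · have := h.nd
      rw [e, List.map_cons, List.nodup_cons] at this
      exact this.2
  · intro p hp1
    have hm : p.1 ∈ L.map Prod.fst := List.mem_map_of_mem hp1
    rw [(g2 p.1 (hLt _ hm) (hLn _ hm)).1, (g2 p.1 (hLt _ hm) (hLn _ hm)).2.1]
    refine h2 p ?_
    rcases hL' with e | e
    · rw [e]; exact hp1
    · rw [e]; exact List.mem_cons_of_mem _ hp1
  · intro s hs
    exact (hHn s hs).symm
  · intro r hr hJr hS
    obtain ⟨q1, q2⟩ := st' r hr hJr hS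
    by_cases hn2 : SC t.rR (pN.symm r).rL
    · obtain ⟨i, hi1, hi2⟩ := hn.SC_iff.1 hn2
      have hin : i ≤ 2 := by
        by_contra hc
        have : i = 3 := by omega
        rw [this, hl] at hi2
        apply hS.2
        rw [hA.one2, hi2]
        exact Or.inr (Or.inr rfl)
      rw [hi2, hnewH i hin]
      exact q1 i hin hi2
    · obtain ⟨k1, k2⟩ := lab_in hA hold hS hn2
      rw [k2, h.st r hr hJr k1, q2 hn2 k1]
  · intro r hr hJr hS
    obtain ⟨q1, q2⟩ := en' r hr hJr hS
    by_cases hn2 : SC t.rR (pN.symm r)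
    · have hn3 : SC t.rR (pre (pN.symm r)) := (SC_pre _ _).2 hn2
      obtain ⟨i, hi1, hi2⟩ := hn.SC_iff.1 hn3
      have hin : i ≤ 2 := by
        by_contra hc
        have : i = 3 := by omega
        rw [this, hl] at hi2
        apply hS.2
        rw [← N'.ke_rev]
        have : (pN.symm r).rL.stE.r2 = pre (pN.symm r) := rfl
        rw [this, hi2, hA.one2]
        exact Or.inr (Or.inr rfl)
      rw [hi2, hnewH i hin]
      exact q1 i hin hi2
    · obtain ⟨k1, k2⟩ := lab_out hA hold hS hn2
      rw [k2, h.en r hr hJr k1, q2 hn2 k1]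

/-- **The foot**: the port `t` ends at a rim vertex; `t.r2` is the facet below the rim state `r`,
the new vertex is the west end of the rim edge of `r`. -/
theorem Gr0.foot (hJct : Jct R J) {r : P.FSt} (hr : R.Rim r) {a b : ℤ}
    (h : Gr0 R J N H lin lout (((pN.symm r).r2, a, b) :: L))
    (hfree : ∀ s, pE.SameCycle r s → ¬ N.kv (pN.symm s))
    (hA : Adds N N' (fun s => s = (pN.symm r).r2)) :
    ∃ H' : P.FSt → ℤ, (∀ s, s ≠ (pN.symm r).r2 → ¬ SC (pN.symm (pE.symm r)) s → H' s = H s) ∧
      H' (pN.symm r).r2 = a ∧ H' (pN.symm (pE.symm r)) = b ∧ H' (pN.symm r).rL = a ∧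
      Gr0 R J N' H' (setL lin r (Lof a)) (setL lout r (Lof b)) L := by
  classical
  have hp := h.port (t := (pN.symm r).r2) (a := a) (b := b) (by simp)
  have hnd := h.nd
  rw [List.map_cons, List.nodup_cons] at hnd
  set t : P.FSt := (pN.symm r).r2 with ht
  set w : P.FSt := pE.symm r with hw
  have hwr : w.stE = r := pE_symm_stE r
  have hwR : R.Rim w := Rim_W hr
  have htR : t.rR = (pN.symm r).rL := by rw [ht, FSt.r2_rR]
  have hbelow : (pN.symm w).stE = pN.symm r := by rw [symm_E' hwR, hwr]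
  have htl : t.stE.r2 = pN.symm w := by
    rw [ht, ← hbelow, FSt.stE_inv, FSt.r2_r2]
  have e0 : rot (pN.symm w) = t.rR := by rw [rim_rot0 hwR, hwr, htR]
  have hval : Val t.rR 4 := by rw [← e0]; exact (rim_val hwR).shift
  have e1 : (rot ^ 1) t.rR = r.r2 := by
    show rot t.rR = _
    rw [htR, symm_rL_rot]
  have e2 : (rot ^ 2) t.rR = w.rR := by
    show rot (rot t.rR) = _
    rw [htR, symm_rL_rot, ← hwr, rim_rot2]
  have e3 : (rot ^ 3) t.rR = pN.symm w := by
    show rot (rot (rot t.rR)) = _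
    rw [htR, symm_rL_rot, ← hwr, rim_rot2, rim_rot3]
  have hSC : ∀ s, SC t.rR s ↔ SC (pN.symm w) s := by
    intro s
    rw [← e0, Nb.rot_apply, SC_rot_left]
  have hnew : ¬ N.kv t.rR := by
    have h6 : SC (pN.symm w) t.rR := (hSC _).1 (Equiv.Perm.SameCycle.refl _ _)
    rw [← N.kv_SC h6]
    exact hfree w ⟨-1, rfl⟩
  have nc1 : ¬ J r.r2.facet := fun hc => hJct.nc _ hc hr.2
  have nc2 : ¬ J w.rR.facet := fun hc => hJct.nc _ hc hwR.2
  have hS0 : SC t.rR t.rR := Equiv.Perm.SameCycle.refl _ _
  obtain ⟨H', g1, g2, g3, g4, g5⟩ := Gr0.stepR (N' := N') hJct h (Or.inr rfl) hnd.1 hA hp.kv hp.ke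
    hnew (ho := fun i => if i = 0 then a else b) (lin' := setL lin r (Lof a))
    (lout' := setL lout r (Lof b))
    (fun _ => ⟨hp.a1, hp.a2, fun hc => absurd (by simp) hc⟩)
    (fun _ => ⟨hp.b1, hp.b2, fun hc => absurd (by simp) hc⟩) hval (fun _ => by simp)
    (fun i hi1 hi2 => by
      exfalso
      have : i = 0 ∨ i = 1 := by omega
      rcases this with rfl | rfl
      · rw [zero_add, e1] at hi2; exact nc1 hi2
      · rw [show 1 + 1 = 2 from rfl, e2] at hi2; exact nc2 hi2)
    (fun _ => by simp)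
    (fun i hi1 hi2 => by
      have : i = 0 ∨ i = 1 ∨ i = 2 := by omega
      rcases this with rfl | rfl | rfl
      · exact ⟨hp.a1, hp.a2⟩
      · rw [e1] at hi2; exact absurd hi2 nc1
      · rw [e2] at hi2; exact absurd hi2 nc2)
    (fun i hi1 hi2 => by
      have : i = 0 ∨ i = 1 ∨ i = 2 := by omega
      rcases this with rfl | rfl | rfl
      · rw [zero_add, e1] at hi2; exact absurd hi2 nc1
      · rw [show 1 + 1 = 2 from rfl, e2] at hi2; exact absurd hi2 nc2
      · exact ⟨hp.b1, hp.b2⟩)
    (fun u hu hJu hS => by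
      constructor
      · intro i hi1 hi2
        have hn : SC t.rR (pN.symm u).rL := by
          rw [hi2]; exact Equiv.Perm.sameCycle_pow_right.2 hS0
        have hur : u = r := by
          have := rim_SC_in hwR hu ((hSC _).1 hn)
          rw [this, hwr]
        subst hur
        have hi0 : i = 0 := by
          have i1 := hval.idx_pow (i := i) (by omega)
          have i2 := hval.idx_pow (i := 0) (by omega)
          rw [← hi2, ← htR] at i1
          have : (rot ^ 0) t.rR = t.rR := rfl
          rw [this, i1] at i2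
          exact i2
        subst hi0
        unfold setL
        rw [if_pos (Equiv.Perm.SameCycle.refl _ _), Hof_Lof hp.a1 hp.a2]
        simp
      · intro hn k1
        unfold setL
        rw [if_neg]
        intro hc
        have h6 : N.kv (pN.symm (pE.symm u)) := by
          have h7 := rim_rot0 (Rim_W hu)
          rw [pE_symm_stE] at h7
          have h8 := k1.1
          rw [← h7, Nb.rot_apply, N.kv_rot] at h8
          exact h8
        refine hfree (pE.symm u) (hc.trans ⟨-1, rfl⟩) h6)
    (fun u hu hJu hS => by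
      constructor
      · intro i hi1 hi2
        have hn : SC t.rR (pN.symm u) := by
          have : SC t.rR (pre (pN.symm u)) := by
            rw [hi2]; exact Equiv.Perm.sameCycle_pow_right.2 hS0
          exact (SC_pre _ _).1 this
        have hur : u = w := rim_SC_out hwR hu ((hSC _).1 hn)
        subst hur
        have hi0 : i = 2 := by
          have i1 := hval.idx_pow (i := i) (by omega)
          have i2 := hval.idx_pow (i := 2) (by omega)
          rw [← hi2, pre_rim, ← e2, i2] at i1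
          exact i1.symm
        subst hi0
        unfold setL
        have h10 : pE.SameCycle r w := ⟨-1, rfl⟩
        rw [if_pos h10, Hof_Lof hp.b1 hp.b2]
        simp
      · intro hn k1
        unfold setL
        rw [if_neg]
        intro hc
        exact hfree u hc k1.1)
    (fun u hu hJu => ⟨setL_E _ _ _ _ (h.lE u hu hJu).1, setL_E _ _ _ _ (h.lE u hu hJu).2⟩)
  refine ⟨H', ?_, g2, ?_, ?_, g5⟩
  · intro s hs hs2
    exact g1 s hs (fun hc => hs2 ((hSC s).1 hc))
  · rw [← htl]; exact g3
  · have := g4 0 (by omega)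
    rw [← htR]
    simpa using this

/-- **The west foot of the gap (`St`) moves one edge to the east.** -/
theorem Gr0.extE (hJct : Jct R J) {r : P.FSt} (hr : R.Rim r)
    (h : Gr0 R J N H lin lout L) (hS : St N.kv N.ke r) (hJr : J (pN.symm r).facet)
    (hl : lin r ≠ Ln.s) (hnew : ¬ N.kv (pN.symm r))
    (hA : Adds N N' (fun s => s = (pN.symm r).rL)) :
    ∃ H' : P.FSt → ℤ, (∀ s, s ≠ (pN.symm r).rL → ¬ SC (pN.symm r) s → H' s = H s) ∧
      H' (pN.symm r).rL = Hof (lin r) - 1 ∧ H' (pN.symm r) = Hof (lin r) - 1 ∧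
      Gr0 R J N' H' lin lout L := by
  classical
  obtain ⟨Hi, Ho, h1, h2, h3⟩ := h.ex
  set t : P.FSt := (pN.symm r).rL with ht
  have htR : t.rR = pN.symm r := by rw [ht, FSt.rL_rR]
  have hrE : R.Rim r.stE := Rim_jE hr
  have hHo : H t = Hof (lin r) := h.st r hr hJr hS
  have hkv : N.kv t := hS.1
  have hke : ¬ N.ke t := hS.2
  have htE : t.stE = r.rL := symm_rL_stE r
  have htl : t.stE.r2 = r.rR := by rw [htE, FSt.rL_r2]
  have htOp : t ∉ L.map Prod.fst := by
    intro hc
    have := (h1.op t hc).JE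
    rw [htE] at this
    exact hJct.nc _ this hr.2
  have hα : Hof (lin r) = 0 ∨ Hof (lin r) = 1 := Hof_ns hl
  have hval : Val t.rR 4 := by rw [htR]; exact rim_val hr
  have e0 : (rot ^ 0) t.rR = pN.symm r := htR
  have e1 : (rot ^ 1) t.rR = (pN.symm r.stE).rL := by
    show rot t.rR = _
    rw [htR, rim_rot0 hr]
  have e2 : (rot ^ 2) t.rR = r.stE.r2 := by
    show rot (rot t.rR) = _
    rw [htR, rim_rot0 hr, symm_rL_rot]
  have e3 : (rot ^ 3) t.rR = r.rR := by
    show rot (rot (rot t.rR)) = _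
    rw [htR, rim_rot0 hr, symm_rL_rot, rim_rot2]
  have hnewR : ¬ N.kv t.rR := by rw [htR]; exact hnew
  have nc2 : ¬ J r.stE.r2.facet := fun hc => hJct.nc _ hc hrE.2
  have nc3 : ¬ J r.rR.facet := fun hc => hJct.nc _ hc hr.2
  have ncE : ¬ J t.stE.facet := by rw [htE]; exact fun hc => hJct.nc _ hc hr.2
  set α := Hof (lin r) with hαdef
  have hS0 : SC t.rR t.rR := Equiv.Perm.SameCycle.refl _ _
  obtain ⟨H', g1, g2, g3, g4, g5⟩ := Gr0.stepR (N' := N') (t := t) (a := α - 1) (b := 0) hJct h
    (Or.inl rfl) htOp hA hkv hke hnewR (ho := fun i => if i = 0 then α - 1 else α)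
    (lin' := lin) (lout' := lout)
    (fun _ => ⟨by omega, by omega, fun _ => by rw [hHo]; ring⟩)
    (fun hc => absurd hc ncE) hval (fun _ => by simp)
    (fun i hi1 hi2 => by
      have : i = 0 ∨ i = 1 := by omega
      rcases this with rfl | rfl
      · simp
      · exfalso; rw [show 1 + 1 = 2 from rfl, e2] at hi2; exact nc2 hi2)
    (fun hc => absurd hc ncE)
    (fun i hi1 hi2 => by
      have : i = 0 ∨ i = 1 ∨ i = 2 := by omega
      rcases this with rfl | rfl | rfl
      · constructor
        · simp; omega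
        · simp; omega
      · constructor
        · simp; omega
        · simp; omega
      · rw [e2] at hi2; exact absurd hi2 nc2)
    (fun i hi1 hi2 => by
      have : i = 0 ∨ i = 1 ∨ i = 2 := by omega
      rcases this with rfl | rfl | rfl
      · constructor
        · simp; omega
        · simp; omega
      · rw [show 1 + 1 = 2 from rfl, e2] at hi2; exact absurd hi2 nc2
      · rw [show 2 + 1 = 3 from rfl, e3] at hi2; exact absurd hi2 nc3)
    (fun u hu hJu hSu => by
      constructor
      · intro i hi1 hi2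
        have hn : SC t.rR (pN.symm u).rL := by
          rw [hi2]; exact Equiv.Perm.sameCycle_pow_right.2 hS0
        rw [htR] at hn
        have hur : u = r.stE := rim_SC_in hr hu hn
        subst hur
        have hi0 : i = 1 := by
          have i1 := hval.idx_pow (i := i) (by omega)
          have i2 := hval.idx_pow (i := 1) (by omega)
          rw [← hi2, ← e1, i2] at i1
          exact i1.symm
        subst hi0
        show (if (1 : ℕ) = 0 then α - 1 else α) = Hof (lin r.stE)
        rw [if_neg (by norm_num), (h.lE r hr hJr).1]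
      · intro _ _; rfl)
    (fun u hu hJu hSu => by
      constructor
      · intro i hi1 hi2
        have hn : SC t.rR (pN.symm u) := by
          have : SC t.rR (pre (pN.symm u)) := by
            rw [hi2]; exact Equiv.Perm.sameCycle_pow_right.2 hS0
          exact (SC_pre _ _).1 this
        rw [htR] at hn
        have hur : u = r := rim_SC_out hr hu hn
        subst hur
        exfalso
        apply hSu.2
        rw [hA.one2]
        exact Or.inr (Or.inl rfl)
      · intro _ _; rfl)
    h.lE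
  rw [htR] at g1
  refine ⟨H', g1, g2, ?_, g5⟩
  have := g4 0 (by omega)
  rw [e0] at this
  simpa using this

/-- **The east foot of the gap (`En`) moves one edge to the west.** -/
theorem Gr0.extW (hJct : Jct R J) {r : P.FSt} (hr : R.Rim r)
    (h : Gr0 R J N H lin lout L) (hS : En N.kv N.ke r) (hJr : J (pN.symm r).facet)
    (hJW : J (pN.symm (pE.symm r)).facet) (hl : lout r ≠ Ln.n)
    (hnew : ¬ N.kv (pN.symm (pE.symm r)))
    (hA : Adds N N' (fun s => s = r.rR)) :
    ∃ H' : P.FSt → ℤ, (∀ s, s ≠ r.rR → ¬ SC (pN.symm (pE.symm r)) s → H' s = H s) ∧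
      H' (pN.symm r).rL = Hof (lout r) + 1 ∧ H' (pN.symm (pE.symm r)) = Hof (lout r) + 1 ∧
      Gr0 R J N' H' lin lout L := by
  classical
  obtain ⟨Hi, Ho, h1, h2, h3⟩ := h.ex
  set t : P.FSt := r.rR with ht
  set w : P.FSt := pE.symm r with hw
  have hwr : w.stE = r := pE_symm_stE r
  have hwR : R.Rim w := Rim_W hr
  have htR : t.rR = r.r2 := by rw [ht, FSt.rR_rR]
  have htrot : rot t = pN.symm r := rim_rot3 r
  have hpre : pre (pN.symm r) = t := pre_rim r
  have htE : t.stE = (pN.symm r).rR := by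
    have h9 : t.stE.rL = pN.symm r := htrot
    rw [← h9, FSt.rL_rR]
  have htl : t.stE.r2 = (pN.symm r).rL := by rw [htE, FSt.rR_r2]
  have hkv : N.kv t := by
    have h6 := hS.1
    rw [← htrot, Nb.rot_apply, N.kv_rot] at h6
    exact h6
  have hke : ¬ N.ke t := by
    intro hc
    apply hS.2
    rw [← htl]
    exact (N.ke_rev t).2 hc
  have hHo : H t = Hof (lout r) := by
    have := h.en r hr hJr hS
    rwa [hpre] at this
  have ncT : ¬ J t.facet := fun hc => hJct.nc _ hc hr.2
  have htOp : t ∉ L.map Prod.fst := fun hc => ncT (h1.op t hc).Jt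
  have hα : Hof (lout r) = 0 ∨ Hof (lout r) = -1 := Hof_nn hl
  have e00 : (rot ^ 2) (pN.symm w) = t.rR := by
    show rot (rot (pN.symm w)) = _
    rw [rim_rot0 hwR, hwr, symm_rL_rot, htR]
  have hval : Val t.rR 4 := by rw [← e00]; exact (rim_val hwR).shift_pow 2
  have e0 : (rot ^ 0) t.rR = r.r2 := htR
  have e1 : (rot ^ 1) t.rR = w.rR := by
    show rot t.rR = _
    rw [htR, ← hwr, rim_rot2]
  have e2 : (rot ^ 2) t.rR = pN.symm w := by
    show rot (rot t.rR) = _
    rw [htR, ← hwr, rim_rot2, rim_rot3]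
  have e3 : (rot ^ 3) t.rR = (pN.symm r).rL := by
    show rot (rot (rot t.rR)) = _
    rw [htR, ← hwr, rim_rot2, rim_rot3, rim_rot0 hwR]
  have hSC : ∀ s, SC t.rR s ↔ SC (pN.symm w) s := by
    intro s
    have h6 : SC (pN.symm w) t.rR := by
      rw [← e00]
      exact Equiv.Perm.sameCycle_pow_right.2 (Equiv.Perm.SameCycle.refl _ _)
    exact ⟨fun h7 => Equiv.Perm.SameCycle.trans h6 h7,
      fun h7 => Equiv.Perm.SameCycle.trans (Equiv.Perm.SameCycle.symm h6) h7⟩
  have hnewR : ¬ N.kv t.rR := by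
    rw [N.kv_SC ((hSC _).2 (Equiv.Perm.SameCycle.refl _ _))]
    exact hnew
  have nc0 : ¬ J r.r2.facet := fun hc => hJct.nc _ hc hr.2
  have nc1 : ¬ J w.rR.facet := fun hc => hJct.nc _ hc hwR.2
  set β := Hof (lout r) with hβdef
  have hS0 : SC t.rR t.rR := Equiv.Perm.SameCycle.refl _ _
  obtain ⟨H', g1, g2, g3, g4, g5⟩ := Gr0.stepR (N' := N') (t := t) (a := 0) (b := β + 1) hJct h
    (Or.inl rfl) htOp hA hkv hke hnewR (ho := fun i => if i = 2 then β + 1 else β)
    (lin' := lin) (lout' := lout)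
    (fun hc => absurd hc ncT)
    (fun _ => ⟨by omega, by omega, fun _ => by rw [hHo]; ring⟩) hval
    (fun hc => absurd hc ncT)
    (fun i hi1 hi2 => by
      have : i = 0 ∨ i = 1 := by omega
      rcases this with rfl | rfl
      · exfalso; rw [zero_add, e1] at hi2; exact nc1 hi2
      · simp)
    (fun _ => by simp)
    (fun i hi1 hi2 => by
      have : i = 0 ∨ i = 1 ∨ i = 2 := by omega
      rcases this with rfl | rfl | rfl
      · rw [e0] at hi2; exact absurd hi2 nc0
      · rw [e1] at hi2; exact absurd hi2 nc1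
      · constructor
        · simp; omega
        · simp; omega)
    (fun i hi1 hi2 => by
      have : i = 0 ∨ i = 1 ∨ i = 2 := by omega
      rcases this with rfl | rfl | rfl
      · rw [zero_add, e1] at hi2; exact absurd hi2 nc1
      · constructor
        · simp; omega
        · simp; omega
      · constructor
        · simp; omega
        · simp; omega)
    (fun u hu hJu hSu => by
      constructor
      · intro i hi1 hi2
        have hn : SC t.rR (pN.symm u).rL := by
          rw [hi2]; exact Equiv.Perm.sameCycle_pow_right.2 hS0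
        have hur : u = r := by
          have := rim_SC_in hwR hu ((hSC _).1 hn)
          rw [this, hwr]
        subst hur
        exfalso
        apply hSu.2
        rw [hA.one2]
        exact Or.inr (Or.inr htl.symm)
      · intro _ _; rfl)
    (fun u hu hJu hSu => by
      constructor
      · intro i hi1 hi2
        have hn : SC t.rR (pN.symm u) := by
          have : SC t.rR (pre (pN.symm u)) := by
            rw [hi2]; exact Equiv.Perm.sameCycle_pow_right.2 hS0
          exact (SC_pre _ _).1 this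
        have hur : u = w := rim_SC_out hwR hu ((hSC _).1 hn)
        subst hur
        have hi0 : i = 1 := by
          have i1 := hval.idx_pow (i := i) (by omega)
          have i2 := hval.idx_pow (i := 1) (by omega)
          rw [← hi2, pre_rim, ← e1, i2] at i1
          exact i1.symm
        subst hi0
        show (if (1 : ℕ) = 2 then β + 1 else β) = Hof (lout w)
        have h11 := (h.lE w hwR hJW).2
        rw [hwr] at h11
        rw [if_neg (by norm_num), ← h11]
      · intro _ _; rfl)
    h.lE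
  refine ⟨H', ?_, ?_, ?_, g5⟩
  · intro s hs hs2
    exact g1 s hs (fun hc => hs2 ((hSC s).1 hc))
  · rw [← htl]; exact g3
  · have := g4 2 (by omega)
    rw [e2] at this
    simpa using this

end

end Pool.Agent.MP42K
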