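import Pool.Agent.MP42.K.G3

/-!
# Growth without lines: start, several steps along a rim, connectivity
-/

set_option autoImplicit false
set_option linter.unusedSectionVars false

namespace Pool.Agent.MP42K

open Pool.Agent.Helper55.UNF Pool.Agent.Helper55.UNF.GridSolid Pool.Agent.MP42G
open Pool.Agent.MP42H Pool.Agent.MP42X Pool.Agent.MP42R
open Core1 (jf)
open Nb (SC SC_rot_right SC_rot_left SC_rev rev_rot rot)

variable {P : GridSolid}

section

variable {R : Core1 P} {J : P.Facet → Prop} {N N' : Nb P} {H : P.FSt → ℤ}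
  {lin lout : P.FSt → Ln} {L : List (P.FSt × ℤ × ℤ)}

/-- **The start**: one vertex at the root rim, the west end of the rim edge of `r`, with labels
`α` (`lin`) and `β` (`lout`); the port goes away from the rim. -/
theorem Gr0.root (hJct : Jct R J) {r : P.FSt} (hr : R.Rim r)
    (hJr : J (pN.symm r).facet) (hJw : J (pN.symm (pE.symm r)).facet) {α β : ℤ}
    (hα1 : -1 ≤ α) (hα2 : α ≤ 1) (hβ1 : -1 ≤ β) (hβ2 : β ≤ 1) :
    ∃ H : P.FSt → ℤ, H (pN.symm r).rL = α ∧ H (pE.symm r).rR = β ∧
      Gr0 R J (Nb.pt (pN.symm (pE.symm r))) H (fun _ => Lof α) (fun _ => Lof β)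
        [(pN.symm (pE.symm r), β, α)] := by
  classical
  set w : P.FSt := pE.symm r with hw
  have hwr : w.stE = r := pE_symm_stE r
  have hwR : R.Rim w := Rim_W hr
  set N0 : Nb P := Nb.pt (pN.symm w) with hN0
  set t : P.FSt := pN.symm w with ht
  have hkv : ∀ s, N0.kv s ↔ (s = t ∨ s = (pN.symm r).rL ∨ s = r.r2 ∨ s = w.rR) := by
    intro s
    have := rim_SC (s := s) hwR
    rw [hwr] at this
    exact this
  have hJk : ∀ s, J s.facet → N0.kv s → s = t ∨ s = (pN.symm r).rL := by
    intro s hs hk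
    rcases (hkv s).1 hk with h | h | h | h
    · exact Or.inl h
    · exact Or.inr h
    · exfalso; rw [h] at hs; exact hJct.nc _ hs hr.2
    · exfalso; rw [h] at hs; exact hJct.nc _ hs hwR.2
  have htne : t ≠ (pN.symm r).rL := by
    intro hc
    have h2 := rim_below_V hwR
    rw [← ht, hc] at h2
    exact not_V_rL' (rim_below_V hr) h2
  have htE : t.stE = pN.symm r := by rw [ht, symm_E' hwR, hwr]
  have hpre1 : pre (pN.symm r).rL = t := by
    have h8 := pre_of_rot t
    rw [htE] at h8
    exact h8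
  have hpre0 : pre t = w.rR := pre_rim w
  have hwne : w.rR ≠ t := by
    intro hc
    have h1 : w.rR.facet = t.facet := by rw [hc]
    exact rim_below_nc hwR (by rw [← ht, ← h1]; exact hwR.2)
  have hwne2 : w.rR ≠ (pN.symm r).rL := by
    intro hc
    have h1 : w.rR.facet = (pN.symm r).rL.facet := by rw [hc]
    have h2 : w.facet = (pN.symm r).facet := h1
    exact rim_below_nc hr (by rw [← h2]; exact hwR.2)
  set Hi : P.FSt → ℤ := fun s => if s = t then β + 1 else α with hHi
  set Ho : P.FSt → ℤ := fun s => if s = t then α - 1 else if s = w.rR then β else α with hHo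
  have i1 : Hi t = β + 1 := by simp only [hHi]; rw [if_pos trivial]
  have i2 : Hi (pN.symm r).rL = α := by simp only [hHi]; rw [if_neg htne.symm]
  have o1 : Ho t = α - 1 := by simp only [hHo]; rw [if_pos trivial]
  have o2 : Ho (pN.symm r).rL = α := by
    simp only [hHo]; rw [if_neg htne.symm, if_neg hwne2.symm]
  have o3 : Ho w.rR = β := by simp only [hHo]; rw [if_neg hwne, if_pos trivial]
  clear_value Hi Ho
  have nke : ∀ s, ¬ N0.ke s := fun s => id
  have nkf : ∀ f, ¬ N0.kf f := fun f => id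
  have mem : ∀ s, s ∈ ([(t, β, α)] : List (P.FSt × ℤ × ℤ)).map Prod.fst ↔ s = t := by
    intro s; simp
  have hnx : ∀ s, N0.nx s = rot s := fun s => by rw [Nb.nx_nke (nke s)]; rfl
  have hdl : ∀ s, N0.dl s = 1 := fun s => by
    unfold Nb.dl
    rw [if_neg (nke _), if_neg (nke _)]; rfl
  refine ⟨Ho, o2, o3, by simp, ⟨Hi, Ho, ?_, ?_, fun _ _ => rfl⟩, ?_, ?_, Nb.pt_one _,
    fun _ _ _ => ⟨rfl, rfl⟩⟩
  · constructor
    · intro s hs hJ
      rw [hdl, hnx] at *
      rcases hJk (rot s) hJ ((N0.kv_rot s).2 hs.1) with h | h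
      · have h1 : s = w.rR := by rw [← hpre0, ← h]; exact (pre_of_rot s).symm
        rw [h, h1, i1, o3]
      · have h1 : s = t := by rw [← hpre1, ← h]; exact (pre_of_rot s).symm
        rw [h, h1, i2, o1]; ring
    · intro s hs hJ ho
      rw [mem] at ho
      rcases hJk s hJ hs.1 with h | h
      · exact absurd h ho
      · rw [h, i2, o2]
    · intro s hs hJ ho
      rw [mem] at ho
      rcases hJk s hJ hs.1 with h | h
      · exact absurd h ho
      · rw [h, o2]; exact ⟨hα1, hα2⟩
    · intro s hs _ hJ ho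
      rw [mem] at ho
      have hk : N0.kv s.stE.rL := (N0.kv_rot s).2 hs.1
      rcases hJk s.stE.rL hJ hk with h | h
      · have h1 : s = w.rR := by rw [← hpre0, ← h]; exact (pre_of_rot s).symm
        rw [h1, o3]; exact ⟨hβ1, hβ2⟩
      · have h1 : s = t := by rw [← hpre1, ← h]; exact (pre_of_rot s).symm
        exact absurd h1 ho
    · intro s ho
      rw [mem] at ho
      subst ho
      refine ⟨(hkv _).2 (Or.inl rfl), nke _, hJw, by rw [htE]; exact hJr, ?_, ?_, ?_, ?_⟩
      · rw [i1]; omega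
      · rw [i1]; omega
      · rw [o1]; omega
      · rw [o1]; omega
  · intro p hp
    rw [List.mem_singleton] at hp
    subst hp
    exact ⟨i1, o1⟩
  · intro u hu hJu hS
    have h1 := rim_SC_in hwR hu hS.1
    rw [hwr] at h1
    subst h1
    rw [o2, Hof_Lof hα1 hα2]
  · intro u hu hJu hS
    have h1 := rim_SC_out hwR hu hS.1
    subst h1
    rw [hpre0, o3, Hof_Lof hβ1 hβ2]

lemma lin_pow (h : Gr0 R J N H lin lout L) (hJct : Jct R J) {r : P.FSt} (hr : R.Rim r)
    (hJr : J (pN.symm r).facet) (k : ℕ) : lin ((pE ^ k) r) = lin r := by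
  induction k with
  | zero => rfl
  | succ k ih =>
    rw [pow_succ', Equiv.Perm.mul_apply, pE_apply,
      (h.lE _ (rim_pow hr k) (J_pow hJct.E hr hJr k)).1]
    exact ih

lemma lout_spow (h : Gr0 R J N H lin lout L) (hJct : Jct R J) {r : P.FSt} (hr : R.Rim r)
    (hJr : J (pN.symm r).facet) (k : ℕ) : lout ((pE.symm ^ k) r) = lout r := by
  induction k with
  | zero => rfl
  | succ k ih =>
    rw [pow_succ', Equiv.Perm.mul_apply, ← ih]
    have h5 := (h.lE _ (Rim_W (rim_spow hr k)) (by
      have := J_spow hJct.E hr hJr (k + 1)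
      rw [pow_succ', Equiv.Perm.mul_apply] at this
      exact this)).2
    rw [pE_symm_stE] at h5
    exact h5.symm

/-- **The west end of the gap moves `k` edges to the east**: the ride has the heading
`Hof (lin r) - 1`. -/
theorem Gr0.extEs (hJct : Jct R J) {r : P.FSt} (hr : R.Rim r)
    (h : Gr0 R J N H lin lout L) (hS : St N.kv N.ke r) (hJr : J (pN.symm r).facet)
    (k : ℕ) (hl : 0 < k → lin r ≠ Ln.s) (hnew : ∀ i < k, ¬ N.kv (pN.symm ((pE ^ i) r)))
    (hdis : ∀ i j, i < j → j < k → (pE ^ i) r ≠ (pE ^ j) r)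
    (hA : Adds N N' (fun s => ∃ i < k, s = (pN.symm ((pE ^ i) r)).rL)) :
    ∃ H' : P.FSt → ℤ, (∀ s, (∀ i < k, s ≠ (pN.symm ((pE ^ i) r)).rL ∧
        ¬ SC (pN.symm ((pE ^ i) r)) s) → H' s = H s) ∧
      (∀ i < k, H' (pN.symm ((pE ^ i) r)).rL = Hof (lin r) - 1 ∧
        H' (pN.symm ((pE ^ i) r)) = Hof (lin r) - 1) ∧
      Gr0 R J N' H' lin lout L := by
  induction k generalizing N' with
  | zero =>
    rw [hA.eq_of_false (by rintro t ⟨i, hi, -⟩; omega)]
    exact ⟨H, fun _ _ => rfl, fun i hi => by omega, h⟩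
  | succ k ih =>
    obtain ⟨N1, hA1, hA2⟩ := hA.split (fun i _ => by
      rcases i with _ | i
      · exact Or.inl hS.1
      · right
        refine ⟨i, by omega, ?_⟩
        rw [FSt.rL_rR]
        have h1 := rim_rot0 (rim_pow hr i)
        have h2 : (pE ^ (i + 1)) r = ((pE ^ i) r).stE := by
          rw [pow_succ', Equiv.Perm.mul_apply]; rfl
        rw [h2, ← h1, Nb.rot_apply, SC_rot_right]
        exact Equiv.Perm.SameCycle.refl _ _)
    obtain ⟨H1, g1, g2, g3⟩ := ih (fun _ => hl (by omega)) (fun i hi => hnew i (by omega))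
      (fun i j hij hj => hdis i j hij (by omega)) hA1
    have hlk := lin_pow h hJct hr hJr k
    have hne : ¬ N.ke (pN.symm ((pE ^ k) r)).rL := by
      intro hc
      have := Nb.kv_rR hc
      rw [FSt.rL_rR] at this
      exact hnew k (by omega) this
    have hS1 : St N1.kv N1.ke ((pE ^ k) r) :=
      st_after hr hS k hne (fun i hi => hdis i k hi (by omega)) hA1
    have hnew1 : ¬ N1.kv (pN.symm ((pE ^ k) r)) := by
      rw [hA1.kv]
      rintro (hc | ⟨u, ⟨i, hi1, rfl⟩, hc⟩)
      · exact hnew k (by omega) hc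
      · rw [FSt.rL_rR] at hc
        exact hdis i k hi1 (by omega) (rim_SC_out (rim_pow hr i) (rim_pow hr k) hc).symm
    obtain ⟨H', k1, k2, k3, k4⟩ := g3.extE hJct (rim_pow hr k) hS1 (J_pow hJct.E hr hJr k)
      (by rw [hlk]; exact hl (by omega)) hnew1 hA2
    rw [hlk] at k2 k3
    refine ⟨H', ?_, ?_, k4⟩
    · intro s hs
      rw [k1 s (hs k (by omega)).1 (hs k (by omega)).2, g1 s (fun i hi => hs i (by omega))]
    · intro i hi1
      rcases Nat.lt_or_ge i k with h1 | h1
      · have hik : (pE ^ i) r ≠ (pE ^ k) r := hdis i k h1 (by omega)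
        have n1 : ¬ SC (pN.symm ((pE ^ k) r)) (pN.symm ((pE ^ i) r)) := fun hc =>
          hik (rim_SC_out (rim_pow hr k) (rim_pow hr i) hc)
        have n2 : (pN.symm ((pE ^ i) r)) ≠ (pN.symm ((pE ^ k) r)).rL := by
          intro hc
          have h2 := rim_below_V (rim_pow hr i)
          rw [hc] at h2
          exact not_V_rL' (rim_below_V (rim_pow hr k)) h2
        have n3 : (pN.symm ((pE ^ i) r)).rL ≠ (pN.symm ((pE ^ k) r)).rL := by
          intro hc
          have h2 := congrArg FSt.rR hc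
          rw [FSt.rL_rR, FSt.rL_rR] at h2
          exact hik (pN.symm.injective h2)
        have n4 : ¬ SC (pN.symm ((pE ^ k) r)) (pN.symm ((pE ^ i) r)).rL := by
          intro hc
          have h2 := rim_SC_in (rim_pow hr k) (rim_pow hr i) hc
          -- `(pE ^ i) r = (pE ^ (k+1)) r` : then the vertex is old
          have h3 : (pE ^ (k + 1)) r = (pE ^ i) r := by
            rw [pow_succ', Equiv.Perm.mul_apply]; exact h2.symm
          rcases i with _ | i
          · have h4 : N.kv (pN.symm r).rL := hS.1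
            have h5 : SC (pN.symm ((pE ^ k) r)) (pN.symm r).rL := hc
            exact hnew k (by omega) ((N.kv_SC h5).2 h4)
          · have h4 : (pE ^ k) r = (pE ^ i) r := by
              rw [pow_succ', pow_succ', Equiv.Perm.mul_apply, Equiv.Perm.mul_apply] at h3
              exact pE.injective h3
            exact hdis i k (by omega) (by omega) h4.symm
        obtain ⟨q1, q2⟩ := g2 i h1
        exact ⟨by rw [k1 _ n3 n4, q1], by rw [k1 _ n2 n1, q2]⟩
      · have h2 : i = k := by omega
        subst h2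
        exact ⟨k2, k3⟩

/-- **The east end of the gap moves `k` edges to the west**: the ride has the heading
`Hof (lout r) + 1`. -/
theorem Gr0.extWs (hJct : Jct R J) {r : P.FSt} (hr : R.Rim r)
    (h : Gr0 R J N H lin lout L) (hS : En N.kv N.ke r) (hJr : J (pN.symm r).facet)
    (k : ℕ) (hl : 0 < k → lout r ≠ Ln.n)
    (hnew : ∀ i < k, ¬ N.kv (pN.symm ((pE.symm ^ (i + 1)) r)))
    (hdis : ∀ i j, i < j → j ≤ k → (pE.symm ^ i) r ≠ (pE.symm ^ j) r)
    (hA : Adds N N' (fun s => ∃ i < k, s = ((pE.symm ^ i) r).rR)) :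
    ∃ H' : P.FSt → ℤ, (∀ s, (∀ i < k, s ≠ ((pE.symm ^ i) r).rR ∧
        ¬ SC (pN.symm ((pE.symm ^ (i + 1)) r)) s) → H' s = H s) ∧
      (∀ i < k, H' (pN.symm ((pE.symm ^ i) r)).rL = Hof (lout r) + 1 ∧
        H' (pN.symm ((pE.symm ^ (i + 1)) r)) = Hof (lout r) + 1) ∧
      Gr0 R J N' H' lin lout L := by
  induction k generalizing N' with
  | zero =>
    rw [hA.eq_of_false (by rintro t ⟨i, hi, -⟩; omega)]
    exact ⟨H, fun _ _ => rfl, fun i hi => by omega, h⟩
  | succ k ih =>
    obtain ⟨N1, hA1, hA2⟩ := hA.split (fun i _ => by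
      rcases i with _ | i
      · exact Or.inl (kv_rim.2 hS.1)
      · right
        refine ⟨i, by omega, ?_⟩
        have h2 : (pE.symm ^ (i + 1)) r = pE.symm ((pE.symm ^ i) r) := by
          rw [pow_succ', Equiv.Perm.mul_apply]
        have h3 := SC_west (rim_spow hr i)
        have h4 : rot (pE.symm ((pE.symm ^ i) r)).rR = pN.symm (pE.symm ((pE.symm ^ i) r)) :=
          rim_rot3 _
        rw [← h4, Nb.rot_apply, SC_rot_right] at h3
        rw [h2]; exact h3)
    obtain ⟨H1, g1, g2, g3⟩ := ih (fun _ => hl (by omega)) (fun i hi => hnew i (by omega))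
      (fun i j hij hj => hdis i j hij (by omega)) hA1
    have hlk := lout_spow h hJct hr hJr k
    have hne : k ≠ 0 → ¬ N.ke (pN.symm ((pE.symm ^ k) r)).rL := by
      intro hk0 hc
      have h6 := Nb.kv_rR hc
      rw [FSt.rL_rR] at h6
      obtain ⟨k', rfl⟩ : ∃ k', k = k' + 1 := ⟨k - 1, by omega⟩
      exact hnew k' (by omega) h6
    have hS1 : En N1.kv N1.ke ((pE.symm ^ k) r) := by
      rcases Nat.eq_zero_or_pos k with h0 | h0
      · subst h0
        rw [hA1.eq_of_false (by rintro t ⟨i, hi, -⟩; omega)]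
        exact hS
      · exact en_after hr hS k (hne (by omega)) (fun i hi => hdis i k hi (by omega)) hA1
    have e1 : (pE.symm ^ (k + 1)) r = pE.symm ((pE.symm ^ k) r) := by
      rw [pow_succ', Equiv.Perm.mul_apply]
    have hnew1 : ¬ N1.kv (pN.symm (pE.symm ((pE.symm ^ k) r))) := by
      rw [← e1, hA1.kv]
      rintro (hc | ⟨u, ⟨i, hi1, rfl⟩, hc⟩)
      · exact hnew k (by omega) hc
      · have h6 : SC (pN.symm (pE.symm ((pE.symm ^ i) r))) (pN.symm ((pE.symm ^ (k + 1)) r)) :=
          Equiv.Perm.SameCycle.trans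
            (Equiv.Perm.SameCycle.symm (SC_west (rim_spow hr i))) hc
        have h7 := rim_SC_out (Rim_W (rim_spow hr i)) (rim_spow hr (k + 1)) h6
        have h8 : (pE.symm ^ (i + 1)) r = pE.symm ((pE.symm ^ i) r) := by
          rw [pow_succ', Equiv.Perm.mul_apply]
        rw [← h8] at h7
        exact hdis (i + 1) (k + 1) (by omega) (by omega) h7.symm
    have hJk1 := J_spow hJct.E hr hJr (k + 1)
    rw [e1] at hJk1
    obtain ⟨H', k1, k2, k3, k4⟩ := g3.extW hJct (rim_spow hr k) hS1 (J_spow hJct.E hr hJr k)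
      hJk1 (by rw [hlk]; exact hl (by omega)) hnew1 hA2
    rw [hlk] at k2 k3
    refine ⟨H', ?_, ?_, k4⟩
    · intro s hs
      obtain ⟨q1, q2⟩ := hs k (by omega)
      rw [e1] at q2
      rw [k1 s q1 q2, g1 s (fun i hi => hs i (by omega))]
    · intro i hi1
      rcases Nat.lt_or_ge i k with h1 | h1
      · obtain ⟨q1, q2⟩ := g2 i h1
        have f1 : ¬ (pN.symm ((pE.symm ^ i) r)).rL = ((pE.symm ^ k) r).rR := by
          intro hc
          apply rim_below_nc (rim_spow hr i)
          have h2 : (pN.symm ((pE.symm ^ i) r)).rL.facet = ((pE.symm ^ k) r).rR.facet := by rw [hc]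
          rw [FSt.facet_rL, FSt.facet_rR] at h2
          rw [h2]; exact (rim_spow hr k).2
        have f2 : ¬ pN.symm ((pE.symm ^ (i + 1)) r) = ((pE.symm ^ k) r).rR := by
          intro hc
          apply rim_below_nc (rim_spow hr (i + 1))
          have h2 : (pN.symm ((pE.symm ^ (i + 1)) r)).facet = ((pE.symm ^ k) r).rR.facet := by
            rw [hc]
          rw [FSt.facet_rR] at h2
          rw [h2]; exact (rim_spow hr k).2
        have f3 : ¬ SC (pN.symm (pE.symm ((pE.symm ^ k) r))) (pN.symm ((pE.symm ^ i) r)).rL := by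
          intro hc
          have h2 := rim_SC_in (Rim_W (rim_spow hr k)) (rim_spow hr i) hc
          rw [pE_symm_stE] at h2
          exact hdis i k h1 (by omega) h2
        have f4 : ¬ SC (pN.symm (pE.symm ((pE.symm ^ k) r)))
            (pN.symm ((pE.symm ^ (i + 1)) r)) := by
          intro hc
          have h2 := rim_SC_out (Rim_W (rim_spow hr k)) (rim_spow hr (i + 1)) hc
          rw [← e1] at h2
          exact hdis (i + 1) (k + 1) (by omega) (by omega) h2
        exact ⟨by rw [k1 _ f1 f3, q1], by rw [k1 _ f2 f4, q2]⟩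
      · have h2 : i = k := by omega
        subst h2
        rw [e1]
        exact ⟨k2, k3⟩

/-- the connectivity field of `KH` -/
theorem Gr0.conn (h : Gr0 R J N H lin lout L) (hI : N.In R J) (cv : P.FSt → Prop)
    (h1 : ∀ s : P.FSt, J s.facet → J s.stE.facet → N.kv s → ¬ N.ke s → (cv s ↔ cv s.stE.rL))
    (h2 : ∀ s : P.FSt, J s.facet → ¬ N.kf s.facet → N.ke s → (cv s ↔ cv s.rR))
    (h3 : ∀ a b, R.Rim a → J (jf a) → pE.SameCycle a b → St N.kv N.ke a → En N.kv N.ke b →
      (cv (pN.symm a).rL ↔ cv (pN.symm b))) :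
    ∃ q : Prop, ∀ s : P.FSt, J s.facet → ¬ N.kf s.facet → N.kv s → (cv s ↔ q) :=
  Nb.conn_local hI (fun s t hs ht _ _ => h.one s t hs ht) cv ⟨h1, h2, h3⟩

/-- the labels at the ends of the gap -/
theorem Gr0.labels (h : Gr0 R J N H lin lout L) :
    (∀ r, R.Rim r → J (jf r) → St N.kv N.ke r → lin r = Lof (H (pN.symm r).rL)) ∧
    (∀ r, R.Rim r → J (jf r) → En N.kv N.ke r → lout r = Lof (H (pre (pN.symm r)))) :=
  ⟨fun r hr hJ hS => by rw [h.st r hr hJ hS, Lof_Hof],
    fun r hr hJ hS => by rw [h.en r hr hJ hS, Lof_Hof]⟩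

end

end Pool.Agent.MP42K
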