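import Pool.Agent.MP42.K.Genus

/-!
# Genus zero: the core bands form a tree (owner helper18)
-/

set_option autoImplicit false
set_option linter.unusedSectionVars false

namespace Pool.Agent.MP42K

open Pool.Agent.Helper55.UNF Pool.Agent.Helper55.UNF.GridSolid Pool.Agent.MP42G
open Pool.Agent.MP42H Pool.Agent.MP42X Pool.Agent.MP42R
open Core1 (jf)

variable {P : GridSolid}

section lev

variable {r : ℕ} {hr : 0 < r}

/-- the level of a part of a wall -/
lemma lev_sub {u : P.FSt} (hU : IsU u) {a b : ℕ} (ha : a < r) (hb : b < r) :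
    (sub hr u a b ha hb).facet.1.1 2 % (r : ℤ) = b := by
  have h1 := ix_subC_n (k := r) u.1 u.2.2 ha hb
  have hn : u.1.n = (2, true) := hU
  rw [hn] at h1
  unfold ix at h1
  rw [if_pos rfl] at h1
  have hr' : (0 : ℤ) < r := by exact_mod_cast hr
  have h2 := Int.emod_nonneg (subC r u.1 a b 2) hr'.ne'
  show subC r u.1 a b 2 % (r : ℤ) = b
  have h3 : (subC r u.1 a b (2, true).1 % (r : ℤ)).toNat = b := h1
  have h4 : (2, true).1 = (2 : Fin 3) := rfl
  rw [h4] at h3
  omega

/-- the core facets -/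
lemma core_sub (j : ℕ) (hj : 1 ≤ j) (hj2 : j + 2 ≤ r) {u : P.FSt} (hU : IsU u) {a b : ℕ}
    (ha : a < r) (hb : b < r) :
    (coreR P r j hr hj hj2).core (sub hr u a b ha hb).facet ↔ b = j := by
  rw [coreR_iff, lev_sub hU]
  have h1 : (sub hr u a b ha hb).facet.1.2.1 ≠ 2 := (V_axes (IsV_of_U hU)).1
  constructor
  · rintro ⟨-, h⟩; exact_mod_cast h
  · rintro rfl; exact ⟨h1, rfl⟩

/-- a facet of a wall has vertical states only if the wall is vertical -/
lemma core_V {j : ℕ} {hj : 1 ≤ j} {hj2 : j + 2 ≤ r} {s : P.FSt} {a b : ℕ}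
    {ha : a < r} {hb : b < r} (h : (coreR P r j hr hj hj2).core (sub hr s a b ha hb).facet) :
    IsV s ∨ IsV s.rL := (coreR P r j hr hj hj2).V _ h

end lev

section S

variable {r : ℕ} {hr : 0 < r} (u₀ : P.FSt) (F : P.Facet → Prop) (j : ℕ)

open Classical in
/-- the side of the band -/
def SS (f : (P.refine r hr).Facet) : Prop :=
  if Strip u₀ (co hr f) then (if f.1.1 2 % (r : ℤ) < j then ¬ F u₀.facet else F u₀.facet)
  else F (co hr f)

variable {u₀ F j}

lemma SS_in {u : P.FSt} (hu : pE.SameCycle u₀ u) (hU : IsU u₀) {a b : ℕ} (ha : a < r)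
    (hb : b < r) : SS (hr := hr) u₀ F j (sub hr u a b ha hb).facet ↔
      (if b < j then ¬ F u₀.facet else F u₀.facet) := by
  unfold SS
  rw [co_sub, if_pos ⟨u, hu, rfl⟩, lev_sub (st_U hU hu).1]
  have : ((b : ℤ) < j) ↔ b < j := by exact_mod_cast Iff.rfl
  by_cases h : b < j
  · rw [if_pos h, if_pos (this.2 h)]
  · rw [if_neg h, if_neg (fun h' => h (this.1 h'))]

lemma SS_out {s : P.FSt} (hs : ¬ Strip u₀ s.facet) {a b : ℕ} (ha : a < r) (hb : b < r) :
    SS (hr := hr) u₀ F j (sub hr s a b ha hb).facet ↔ F s.facet := by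
  unfold SS
  rw [co_sub, if_neg hs]

variable (hU : IsU u₀) (hF : ∀ s, bot u₀ s ↔ ¬ (F s.facet ↔ F s.stE.facet))

include hU hF

lemma F_strip {u : P.FSt} (hu : pE.SameCycle u₀ u) : F u.facet ↔ F u₀.facet := by
  obtain ⟨n, rfl⟩ := hu.exists_nat_pow_eq
  clear hu
  induction n with
  | zero => exact Iff.rfl
  | succ n ih =>
    rw [pow_succ', Equiv.Perm.mul_apply, pE_apply, ← ih]
    have h1 : pE.SameCycle u₀ ((pE ^ n) u₀) := ⟨(n : ℤ), by rw [zpow_natCast]⟩
    have h2 := (hF ((pE ^ n) u₀)).not.1 (bot_E hU h1)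
    rw [not_not] at h2
    exact h2.symm

/-- the steps out of the strip -/
lemma SS_strip (hj : 1 ≤ j) (hj2 : j + 2 ≤ r) {u s : P.FSt} (hu : pE.SameCycle u₀ u)
    (hs : s.facet = u.facet) {a b : ℕ} (ha : a < r) (hb : b < r)
    (h1 : ¬ (coreR P r j hr hj hj2).core (sub hr s a b ha hb).facet)
    (h2 : ¬ (coreR P r j hr hj hj2).core (sub hr s a b ha hb).stE.facet) :
    SS (hr := hr) u₀ F j (sub hr s a b ha hb).facet ↔
      SS (hr := hr) u₀ F j (sub hr s a b ha hb).stE.facet := by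
  have hUu : IsU u := (st_U hU hu).1
  rcases rot4 hs with e | e | e | e
  · subst e
    by_cases h3 : a + 1 < r
    · rw [sub_stE_mid _ h3, SS_in hu hU, SS_in hu hU]
    · have : a = r - 1 := by omega
      subst this
      have hu2 : pE.SameCycle u₀ s.stE := by
        rw [← pE_apply, Equiv.Perm.sameCycle_apply_right]; exact hu
      rw [sub_stE_end, SS_in hu hU, SS_in hu2 hU]
  · subst e
    by_cases h3 : a + 1 < r
    · rw [sub_stE_mid _ h3]
      have e1 : (sub hr u.r2 a b ha hb).facet = (sub hr u.r2 a b ha hb).r2.facet := rfl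
      have e2 : (sub hr u.r2 (a + 1) b h3 hb).facet = (sub hr u.r2 (a + 1) b h3 hb).r2.facet :=
        rfl
      rw [e1, e2, sub_r2, sub_r2]
      simp only [FSt.r2_r2]
      rw [SS_in hu hU, SS_in hu hU]
    · have : a = r - 1 := by omega
      subst this
      have e3 : u.r2.stE = (pE.symm u).r2 := by
        rw [pE_symm_apply, FSt.r2_r2]
      have hu2 : pE.SameCycle u₀ (pE.symm u) := by
        rw [← Equiv.Perm.sameCycle_apply_right, Equiv.apply_symm_apply]; exact hu
      rw [sub_stE_end]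
      have e1 : (sub hr u.r2 (r - 1) b ha hb).facet = (sub hr u.r2 (r - 1) b ha hb).r2.facet :=
        rfl
      have e2 : (sub hr u.r2.stE 0 b hr hb).facet = (sub hr u.r2.stE 0 b hr hb).r2.facet :=
        rfl
      rw [e1, e2, sub_r2, sub_r2]
      have e4 : u.r2.stE.r2 = pE.symm u := by rw [e3, FSt.r2_r2]
      rw [sub_congr (hk := hr) _ _ (FSt.r2_r2 u) rfl rfl, sub_congr (hk := hr) _ _ e4 rfl rfl,
        SS_in hu hU, SS_in hu2 hU]
  · -- `s = u.rR`: to the south
    subst e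
    have e1 : ∀ (x : ℕ) (hx : x < r), (sub hr u.rR x b hx hb).facet =
        (sub hr u b (r - 1 - x) hb (by omega)).facet := by
      intro x hx
      have h3 : (sub hr u.rR x b hx hb).facet = (sub hr u.rR x b hx hb).rL.facet := rfl
      rw [h3, sub_rL, sub_congr (hk := hr) _ _ (FSt.rR_rL u) rfl rfl]
    by_cases h3 : a + 1 < r
    · rw [sub_stE_mid _ h3] at h2 ⊢
      rw [e1 _ ha, core_sub j hj hj2 hUu] at h1
      rw [e1 _ h3, core_sub j hj hj2 hUu] at h2
      rw [e1 _ ha, e1 _ h3, SS_in hu hU, SS_in hu hU]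
      by_cases h4 : r - 1 - a < j
      · rw [if_pos h4, if_pos (by omega)]
      · rw [if_neg h4, if_neg (by omega)]
    · have : a = r - 1 := by omega
      subst this
      rw [sub_stE_end]
      have e2 : u.rR.stE.facet = (pN.symm u).facet := by
        rw [pN_symm_apply]
        show u.rR.stE.facet = u.r2.rL.stE.facet
        rw [FSt.r2_rL]
      have h5 : ¬ Strip u₀ u.rR.stE.facet := by rw [e2]; exact strip_S hU hu
      rw [SS_out h5, e1 _ ha, SS_in hu hU, if_pos (by omega)]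
      have h6 := (hF u.rR).1 (bot_S hu)
      have h7 := F_strip hU hF hu
      have e4 : u.rR.facet = u.facet := rfl
      rw [e4, h7] at h6
      by_cases c : F u₀.facet
      · simp only [c, true_iff, not_true, false_iff] at h6 ⊢; exact h6
      · simp only [c, false_iff, not_not, not_false_iff, true_iff] at h6 ⊢; exact h6
  · -- `s = u.rL`: to the north
    subst e
    have e1 : ∀ (x : ℕ) (hx : x < r), (sub hr u.rL x b hx hb).facet =
        (sub hr u (r - 1 - b) x (by omega) hx).facet := by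
      intro x hx
      have h3 : (sub hr u.rL x b hx hb).facet = (sub hr u.rL x b hx hb).rR.facet := rfl
      rw [h3, sub_rR, sub_congr (hk := hr) _ _ (FSt.rL_rR u) rfl rfl]
    by_cases h3 : a + 1 < r
    · rw [sub_stE_mid _ h3] at h2 ⊢
      rw [e1 _ ha, core_sub j hj hj2 hUu] at h1
      rw [e1 _ h3, core_sub j hj hj2 hUu] at h2
      rw [e1 _ ha, e1 _ h3, SS_in hu hU, SS_in hu hU]
      by_cases h4 : a < j
      · rw [if_pos h4, if_pos (by omega)]
      · rw [if_neg h4, if_neg (by omega)]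
    · have : a = r - 1 := by omega
      subst this
      rw [sub_stE_end]
      have e2 : u.rL.stE.facet = u.stN.facet := rfl
      have h5 : ¬ Strip u₀ u.rL.stE.facet := by rw [e2]; exact strip_N hU hu
      rw [SS_out h5, e1 _ ha, SS_in hu hU, if_neg (by omega)]
      have h6 := (hF u.rL).not.1 (bot_N hU hu)
      rw [not_not] at h6
      have h7 := F_strip hU hF hu
      have e4 : u.rL.facet = u.facet := rfl
      rw [e4, h7] at h6
      exact h6

lemma SS_QJ (hj : 1 ≤ j) (hj2 : j + 2 ≤ r) :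
    (coreR P r j hr hj hj2).QJ (SS (hr := hr) u₀ F j) := by
  intro σ h1 h2
  obtain ⟨s, a, b, ha, hb, rfl⟩ := exists_sub σ
  by_cases c1 : Strip u₀ s.facet
  · obtain ⟨u, hu, e⟩ := c1
    exact SS_strip hU hF hj hj2 hu e.symm ha hb h1 h2
  · by_cases c2 : Strip u₀ (cs (sub hr s a b ha hb).stE).facet
    · obtain ⟨u, hu, e⟩ := c2
      -- look from the other side
      set τ := (sub hr s a b ha hb).stE.r2 with hτ
      have e1 : (cs τ).facet = u.facet := e.symm
      have e2 := sub_cs τ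
      have e3 : τ.stE.facet = (sub hr s a b ha hb).facet := by
        rw [hτ, FSt.stE_inv]; rfl
      have h3 := SS_strip hU hF hj hj2 hu e1 (ix_lt hr τ.1.e τ.1.c) (ix_lt hr τ.1.n τ.1.c)
        (by rw [← e2]; exact h2) (by rw [← e2, e3]; exact h1)
      rw [← e2, e3] at h3
      exact h3.symm
    · unfold SS
      have e1 : co hr (sub hr s a b ha hb).facet = s.facet := co_sub ..
      have e2 : co hr (sub hr s a b ha hb).stE.facet = (cs (sub hr s a b ha hb).stE).facet := rfl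
      rw [e1, e2, if_neg c1, if_neg c2]
      rcases cs_stE (sub hr s a b ha hb) with e | e
      · rw [e, cs_sub]
      · rw [e, cs_sub] at c2 ⊢
        have h6 := (hF s).not.1 (bot_out c1 c2)
        rw [not_not] at h6
        exact h6

end S

section sep

variable {r : ℕ} {hr : 0 < r} {j : ℕ} (hj : 1 ≤ j) (hj2 : j + 2 ≤ r)

/-- the facets below and above a core facet -/
lemma jf_core {ρ : (P.refine r hr).FSt} (hU : IsU ρ) (hc : (coreR P r j hr hj hj2).core ρ.facet) :
    ∃ (u : P.FSt) (a : ℕ) (ha : a < r), IsU u ∧ ρ = sub hr u a j ha (by omega) ∧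
      jf ρ = (sub hr u a (j - 1) ha (by omega)).facet ∧
      jf ρ.r2 = (sub hr u a (j + 1) ha (by omega)).facet := by
  obtain ⟨u, a, b, ha, hb, rfl⟩ := exists_sub ρ
  have hUu : IsU u := hU
  rw [core_sub j hj hj2 hUu] at hc
  subst hc
  refine ⟨u, a, ha, hUu, rfl, ?_, ?_⟩
  · obtain ⟨b', rfl⟩ : ∃ b', b = b' + 1 := ⟨b - 1, by omega⟩
    show (pN.symm _).facet = _
    rw [sub_symm_N_mid]
    rfl
  · show (pN.symm _).facet = _
    rw [pN_symm_r2, FSt.facet_r2, sub_stN_mid _ ha (by omega)]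

theorem GenusZero.sep (h : GenusZero P) (ρ₀ : (P.refine r hr).FSt)
    (hU : IsU ρ₀) (hc : (coreR P r j hr hj hj2).core ρ₀.facet) :
    ∃ S : (P.refine r hr).Facet → Prop, (coreR P r j hr hj hj2).QJ S ∧
    (∀ ρ, (coreR P r j hr hj hj2).Rim ρ → ¬ pE.SameCycle ρ₀ ρ → ¬ pE.SameCycle ρ₀.r2 ρ →
      (S (jf ρ) ↔ S (jf ρ.r2))) ∧ ¬ (S (jf ρ₀) ↔ S (jf ρ₀.r2)) := by
  obtain ⟨u₀, a₀, ha₀, hU₀, rfl, e1, e2⟩ := jf_core hj hj2 hU hc
  obtain ⟨F, hF⟩ := h (bot u₀) (fun s => bot_rev s) (bot_even hU₀)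
  refine ⟨SS u₀ F j, SS_QJ hU₀ hF hj hj2, ?_, ?_⟩
  · -- the other rims
    have key : ∀ ρ : (P.refine r hr).FSt, IsU ρ → (coreR P r j hr hj hj2).core ρ.facet →
        ¬ pE.SameCycle (sub hr u₀ a₀ j ha₀ (by omega)) ρ →
        (SS (hr := hr) u₀ F j (jf ρ) ↔ SS (hr := hr) u₀ F j (jf ρ.r2)) := by
      intro ρ hρ hcρ hn
      obtain ⟨u, a, ha, hUu, rfl, e3, e4⟩ := jf_core hj hj2 hρ hcρ
      rw [e3, e4]
      by_cases c : Strip u₀ u.facet
      · obtain ⟨v, hv, e⟩ := c
        have e5 := IsU_unique e (st_U hU₀ hv).1 hUu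
        subst e5
        exact absurd (sub_same.2 ⟨hv, rfl⟩) hn
      · rw [SS_out c, SS_out c]
    intro ρ hR n1 n2
    rcases U_or hR.1 with h1 | h1
    · exact key ρ h1 hR.2 n1
    · have h3 := key ρ.r2 h1 hR.2 (by rw [Core1.r2_cyc_iff]; exact n2)
      rw [FSt.r2_r2] at h3
      exact h3.symm
  · rw [e1, e2, SS_in (Equiv.Perm.SameCycle.refl _ _) hU₀,
      SS_in (Equiv.Perm.SameCycle.refl _ _) hU₀, if_pos (by omega), if_neg (by omega)]
    tauto

/-- **Genus zero**: the core bands form a tree. -/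
theorem GenusZero.tree (h : GenusZero P) (hP : (P.refine r hr).IsOrthogonalPolyhedron) :
    (coreR P r j hr hj hj2).Tree (fun _ => True) where
  conn Q hQ hb f g hf hg :=
    (coreR P r j hr hj hj2).conn_all hP hQ (fun r hr => hb r hr trivial) f g hf hg
  sep ρ₀ hρ _ := by
    rcases U_or hρ.1 with hU | hU
    · obtain ⟨S, h1, h2, h3⟩ := h.sep hj hj2 ρ₀ hU hρ.2
      exact ⟨S, h1, fun ρ hR _ n1 n2 => h2 ρ hR n1 n2, h3⟩
    · obtain ⟨S, h1, h2, h3⟩ := h.sep hj hj2 ρ₀.r2 hU hρ.2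
      rw [FSt.r2_r2] at h2 h3
      exact ⟨S, h1, fun ρ hR _ n1 n2 => h2 ρ hR n2 n1, fun h' => h3 h'.symm⟩

end sep

end Pool.Agent.MP42K
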