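import Pool.Agent.MP42.K.JLoc

/-!
# Headings: definitions

The curve `M` (boundary of a thin neighbourhood of `D`, `D` on the left) has a heading `H s` in
`{-1, 0, 1}` at every dart `s` (`kv s`, `¬ kf s.facet`):
* `ke s`: `M` runs along the east side of `s` to the south;
* `¬ ke s`: `M` crosses the east side of `s` next to the north-east corner, to the east.

A left turn adds `1`, a right turn subtracts `1`.  `V s`: the lines of the facet of `s` are parallel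
to the north of `s`.  The lines are parallel to the direction of `M` iff the heading is not `0`.
The letter of a heading: `1` is `n`, `-1` is `s`.
-/

set_option autoImplicit false
set_option linter.unusedSectionVars false

namespace Pool.Agent.MP42K

open Pool.Agent.Helper55.UNF Pool.Agent.Helper55.UNF.GridSolid Pool.Agent.MP42G
open Pool.Agent.MP42H Pool.Agent.MP42X Pool.Agent.MP42R
open Core1 (jf)

variable {P : GridSolid}

/-- the letter of a heading -/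
def Lof (h : ℤ) : Ln := if h = 1 then Ln.n else if h = -1 then Ln.s else Ln.z

/-- data: subcomplex, unoriented lines, headings, labels -/
structure KHD (P : GridSolid) where
  kv : P.FSt → Prop
  ke : P.FSt → Prop
  kf : P.Facet → Prop
  /-- the lines of the facet of `s` run north-south in the frame `s` -/
  V : P.FSt → Prop
  /-- the heading at the dart `s` -/
  H : P.FSt → ℤ
  lin : P.FSt → Ln
  lout : P.FSt → Ln
  /-- the leaning facets, their places, and the columns that hang on the southern neighbour, see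
  `SupK` -/
  Le : P.Facet → Prop
  Pl : Bool → ℕ → P.FSt → Prop
  Hg : Bool → P.FSt → Prop

/-- The dart before `t`, if the north side of `t` is not in `D`: it crosses the north side of `t`
to the south. -/
def pre (t : P.FSt) : P.FSt := t.rL.stE.r2

/-- The local rules on the junction `J`. -/
structure KG (J : P.Facet → Prop) (D : KHD P) : Prop where
  V_rR : ∀ s : P.FSt, J s.facet → (D.V s.rR ↔ ¬ D.V s)
  kv_rot : ∀ s : P.FSt, J s.facet → J s.stE.facet → (D.kv s.stE.rL ↔ D.kv s)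
  ke_rev : ∀ s : P.FSt, J s.facet → J s.stE.facet → (D.ke s.stE.r2 ↔ D.ke s)
  ke_kv : ∀ s : P.FSt, J s.facet → D.ke s → D.kv s ∧ D.kv s.rR
  kf_ke : ∀ s : P.FSt, J s.facet → D.kf s.facet → D.ke s
  hb : ∀ s : P.FSt, J s.facet → ¬ D.kf s.facet → D.kv s → -1 ≤ D.H s ∧ D.H s ≤ 1
  hb' : ∀ t : P.FSt, J t.facet → D.kv t → ¬ D.ke t.rL → -1 ≤ D.H (pre t) ∧ D.H (pre t) ≤ 1
  /-- right turn at the south-east corner of `s` -/
  r1 : ∀ s : P.FSt, J s.facet → ¬ D.kf s.facet → D.ke s → D.ke s.rR → D.H s.rR = D.H s - 1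
  /-- straight on over the south side of `s` -/
  r2 : ∀ s : P.FSt, J s.facet → ¬ D.kf s.facet → D.ke s → ¬ D.ke s.rR → D.H s.rR = D.H s
  /-- straight on after the north side of `t` -/
  r3 : ∀ t : P.FSt, J t.facet → D.kv t → ¬ D.ke t.rL → D.ke t → D.H t = D.H (pre t)
  /-- left turn after the north side of `t` -/
  r4 : ∀ t : P.FSt, J t.facet → D.kv t → ¬ D.ke t.rL → ¬ D.ke t → D.H t = D.H (pre t) + 1
  vr : ∀ s : P.FSt, J s.facet → ¬ D.kf s.facet → D.ke s → (D.V s ↔ D.H s ≠ 0)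
  vx : ∀ s : P.FSt, J s.facet → D.kv s → ¬ D.ke s → (D.V s ↔ D.H s = 0)
  vx' : ∀ t : P.FSt, J t.facet → D.kv t → ¬ D.ke t.rL → (D.V t ↔ D.H (pre t) ≠ 0)

/-- the heading at the west end of the gap, into the band -/
def KHD.hs (D : KHD P) (r : P.FSt) : ℤ := D.H (pN.symm r).rL

/-- the heading at the east end of the gap, out of the band -/
def KHD.hn (D : KHD P) (r : P.FSt) : ℤ := D.H (pre (pN.symm r))

/-- the lines of the rim facet below `r` are parallel to the rim -/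
def KHD.Tur (D : KHD P) (r : P.FSt) : Prop := ¬ D.V (pN.symm r)

/-- A certificate of the junction `J` with headings. -/
structure KH (R : Core1 P) (tr ac : P.FSt → Prop) (J : P.Facet → Prop) (D : KHD P) : Prop
    extends KG J D where
  lin_E : ∀ r, R.Rim r → J (jf r) → tr r → D.lin r.stE = D.lin r
  lout_E : ∀ r, R.Rim r → J (jf r) → tr r → D.lout r.stE = D.lout r
  adm : ∀ r, R.Rim r → J (jf r) → tr r →
    ¬ (D.lin r = Ln.n ∧ D.lout r = Ln.s) ∧ ¬ (D.lin r = Ln.s ∧ D.lout r = Ln.n)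
  cut_lab : ∀ r, R.Rim r → J (jf r) → ¬ tr r → D.lin r = Ln.n ∧ D.lout r = Ln.s
  st_ac : ∀ r, R.Rim r → J (jf r) → St D.kv D.ke r → ac r
  en_ac : ∀ r, R.Rim r → J (jf r) → En D.kv D.ke r → ac r
  st_ex : ∀ r, R.Rim r → J (jf r) → ac r → ∃! a, pE.SameCycle r a ∧ St D.kv D.ke a
  en_ex : ∀ r, R.Rim r → J (jf r) → ac r → ∃! a, pE.SameCycle r a ∧ En D.kv D.ke a
  cut_arc : ∀ r, R.Rim r → J (jf r) → ¬ tr r → En D.kv D.ke r → St D.kv D.ke r.stE
  arc : ∀ r, R.Rim r → J (jf r) → tr r →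
    (D.lin r = Ln.z ∧ D.lout r = Ln.n) ∨ (D.lin r = Ln.s ∧ D.lout r = Ln.z) →
    En D.kv D.ke r → D.ke (pN.symm r.stE).rL
  st_lab : ∀ r, R.Rim r → J (jf r) → St D.kv D.ke r → D.lin r = Lof (D.hs r)
  en_lab : ∀ r, R.Rim r → J (jf r) → En D.kv D.ke r → D.lout r = Lof (D.hn r)
  tur : ∀ r, R.Rim r → J (jf r) → D.Tur r →
    (∀ j, LitK D.kv D.ke tr D.lin D.lout r j) ∨
    (tr r ∧ ∃ z : ℤ, (∀ y ∈ Set.uIcc 0 z, D.Tur ((pE ^ y) r) ∧
        ¬ Land D.kv D.ke D.lin D.lout ((pE ^ y) r)) ∧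
      ((St D.kv D.ke ((pE ^ z) r) ∧ D.lin r = Ln.z) ∨
        (En D.kv D.ke ((pE ^ z) r) ∧ D.lout r = Ln.z)))
  Le_J : ∀ f, D.Le f → J f
  /-- there is no strand in a leaning facet -/
  Le_no : ∀ s : P.FSt, D.Le s.facet → D.kf s.facet ∨ ¬ D.kv s
  Le_rim : ∀ r, R.Rim r → ¬ D.Le (jf r)
  /-- if there is a leaning facet, there is a corner in `D` between two sides that are not in
  `D` -/
  Le_cut : ∀ f, D.Le f → ∃ s : P.FSt, J s.facet ∧ D.kv s ∧ ¬ D.ke s ∧ ¬ D.ke s.rL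
  Pl_J : ∀ S n g, D.Pl S n g → J g.facet ∧ J ((pN ^ n) g).facet
  Pl_uniq : ∀ S n g S' n' g', D.Pl S n g → D.Pl S' n' g' →
    ((pN ^ n) g).facet = ((pN ^ n') g').facet → D.Le ((pN ^ n) g).facet →
    S = S' ∧ n = n' ∧ g = g'
  Hg_nc : ∀ E s, D.Hg E s → ¬ D.Hg (!E) s.r2
  lean : ∀ f, D.Le f → ∃ S E n g, 0 < n ∧ ((pN ^ n) g).facet = f ∧
    SupK D.V D.kv D.ke D.kf J D.Le D.Pl D.Hg S E n g
  cov : ∀ s : P.FSt, J s.facet → ¬ D.Le s.facet → D.V s → ∀ j : VL, ∃ z : ℤ,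
    (∀ y ∈ Set.uIcc 0 z, y ≠ z → J ((pN ^ y) s).facet ∧ ¬ D.Le ((pN ^ y) s).facet ∧
      D.V ((pN ^ y) s)) ∧
    ((J ((pN ^ z) s).facet ∧ D.V ((pN ^ z) s) ∧ ¬ D.kf ((pN ^ z) s).facet ∧
        khit D.kv D.ke ((pN ^ z) s) j) ∨
     (∃ r j', ((0 < z ∧ (pN ^ z) s = r ∧ j' = j) ∨
        (z < 0 ∧ (pN ^ z) s = r.r2 ∧ j' = j.flip)) ∧ R.Rim r ∧
      LitK D.kv D.ke tr D.lin D.lout r j'))
  conn : ∀ cv : P.FSt → Prop,
    (∀ s : P.FSt, J s.facet → J s.stE.facet → D.kv s → ¬ D.ke s → (cv s ↔ cv s.stE.rL)) →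
    (∀ s : P.FSt, J s.facet → ¬ D.kf s.facet → D.ke s → (cv s ↔ cv s.rR)) →
    (∀ a b, R.Rim a → J (jf a) → pE.SameCycle a b → St D.kv D.ke a → En D.kv D.ke b →
      (cv (pN.symm a).rL ↔ cv (pN.symm b))) →
    ∃ q : Prop, ∀ s : P.FSt, J s.facet → ¬ D.kf s.facet → D.kv s → (cv s ↔ q)

end Pool.Agent.MP42K
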