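import Pool.Agent.MP42.K.JLoc

/-!
# Local certificates with matching labels exist on all junctions

Induction over the junctions: a set `S` of junctions that is connected by tree bands, with
certificates whose labels agree over the tree bands in `S`, is extended over a tree band.
-/

set_option autoImplicit false
set_option linter.unusedSectionVars false

namespace Pool.Agent.MP42K

open Pool.Agent.Helper55.UNF Pool.Agent.Helper55.UNF.GridSolid Pool.Agent.MP42G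
open Pool.Agent.MP42H Pool.Agent.MP42X Pool.Agent.MP42R
open Core1 (jf)

variable {P : GridSolid}

/-- every junction has a certificate with a given unordered pair of labels at a given tree rim -/
def HasKL (R : Core1 P) (tr ac : P.FSt → Prop) : Prop :=
  ∀ r, R.Rim r → tr r → ∀ a b : Ln, ¬ (a = Ln.n ∧ b = Ln.s) → ¬ (a = Ln.s ∧ b = Ln.n) →
    ∃ D : KD P, KL R tr ac (Jn R (jf r)) D ∧
      ((D.lin r = a ∧ D.lout r = b) ∨ (D.lin r = b ∧ D.lout r = a))

/-- the labels of the rims `r` (certificate `A`) and `s` (certificate `B`) agree -/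
def TyEq (A B : KD P) (r s : P.FSt) : Prop :=
  (B.lin s = A.lin r ∧ B.lout s = A.lout r) ∨ (B.lin s = A.lout r ∧ B.lout s = A.lin r)

lemma TyEq.symm {A B : KD P} {r s : P.FSt} (h : TyEq A B r s) : TyEq B A s r := by
  rcases h with ⟨h1, h2⟩ | ⟨h1, h2⟩
  · exact Or.inl ⟨h1.symm, h2.symm⟩
  · exact Or.inr ⟨h2.symm, h1.symm⟩

/-- certificates on a set of junctions that is connected by tree bands -/
structure Part (R : Core1 P) (tr ac : P.FSt → Prop) (S : Set P.Facet)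
    (A : P.Facet → KD P) : Prop where
  z : ∀ f ∈ S, ¬ R.core f
  q : ∀ f g, f ∈ S → Jn R f g → g ∈ S
  lc : ∀ f ∈ S, KL R tr ac (Jn R f) (A f)
  same : ∀ f g, f ∈ S → Jn R f g → A f = A g
  ty : ∀ r, R.Rim r → tr r → jf r ∈ S → jf r.r2 ∈ S → TyEq (A (jf r)) (A (jf r.r2)) r r.r2
  con : ∀ Q, R.QJ Q → (∀ r, R.Rim r → tr r → jf r ∈ S → jf r.r2 ∈ S →
    (Q (jf r) ↔ Q (jf r.r2))) → ∀ f g, f ∈ S → g ∈ S → (Q f ↔ Q g)

section

variable {R : Core1 P} {tr ac : P.FSt → Prop}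

lemma Part.qj {S : Set P.Facet} {A : P.Facet → KD P} (h : Part R tr ac S A) :
    R.QJ (fun f => f ∈ S) := by
  intro s h0 h1
  constructor
  · intro hs; exact h.q _ _ hs (Jn.E h0 h1)
  · intro hs
    exact h.q _ _ hs ((Jn.E h0 h1).symm h0)

lemma KL.cyc {J : P.Facet → Prop} {D : KD P} (h : KL R tr ac J D)
    (hJ : ∀ f g, J f → Jn R f g → J g) (tr_E : ∀ r, R.Rim r → (tr r.stE ↔ tr r))
    {r s : P.FSt} (hr : R.Rim r) (hj : J (jf r)) (ht : tr r) (hs : pE.SameCycle r s) :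
    D.lin s = D.lin r ∧ D.lout s = D.lout r := by
  obtain ⟨n, hn⟩ := hs.exists_nat_pow_eq
  rw [← hn]
  clear hn hs
  have key : ∀ n : ℕ, R.Rim ((pE ^ n) r) ∧ J (jf ((pE ^ n) r)) ∧ tr ((pE ^ n) r) := by
    intro n
    refine ⟨hr.jpow n, hJ _ _ hj (Jn.cyc hr ⟨n, by simp⟩), ?_⟩
    induction n with
    | zero => exact ht
    | succ n ih =>
      rw [pow_succ', Equiv.Perm.mul_apply]
      exact (tr_E _ (hr.jpow n)).2 ih
  induction n with
  | zero => exact ⟨rfl, rfl⟩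
  | succ n ih =>
    obtain ⟨k1, k2, k3⟩ := key n
    have e1 := h.lin_E _ k1 k2 k3
    have e2 := h.lout_E _ k1 k2 k3
    have e : (pE ^ (n + 1)) r = ((pE ^ n) r).stE := by
      rw [pow_succ', Equiv.Perm.mul_apply]; rfl
    rw [e, e1, e2]
    exact ih

lemma tr_cyc (tr_E : ∀ r, R.Rim r → (tr r.stE ↔ tr r)) {r s : P.FSt} (hr : R.Rim r)
    (hs : pE.SameCycle r s) : tr s ↔ tr r := by
  obtain ⟨n, hn⟩ := hs.exists_nat_pow_eq
  rw [← hn]
  clear hn hs
  induction n with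
  | zero => exact Iff.rfl
  | succ n ih =>
    rw [pow_succ', Equiv.Perm.mul_apply]
    exact (tr_E _ (hr.jpow n)).trans ih

open Classical in
/-- one more junction -/
lemma Part.step (hT : R.Tree tr) (tr_E : ∀ r, R.Rim r → (tr r.stE ↔ tr r))
    (tr_far : ∀ r, R.Rim r → (tr r.r2 ↔ tr r)) (hL : HasKL R tr ac)
    {S : Set P.Facet} {A : P.Facet → KD P} (h : Part R tr ac S A)
    {r : P.FSt} (hr : R.Rim r) (ht : tr r) (hS : jf r ∈ S) (hS' : jf r.r2 ∉ S) :
    ∃ A', Part R tr ac (S ∪ {g | Jn R (jf r.r2) g}) A' := by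
  have hrf := hr.r2
  obtain ⟨g0, hg0⟩ : ∃ g0, g0 = jf r.r2 := ⟨_, rfl⟩
  rw [← hg0] at hS' ⊢
  have hg00 : ¬ R.core g0 := by rw [hg0]; exact hrf.jf
  obtain ⟨z1, z2⟩ := (h.lc _ hS).adm r hr (Jn.refl (h.z _ hS)) ht
  obtain ⟨D, hD, hty⟩ := hL _ hrf ((tr_far r hr).2 ht) _ _ z1 z2
  rw [← hg0] at hD
  have hnS : ∀ g, Jn R g0 g → g ∉ S := by
    intro g hg hgS
    exact hS' (h.q g g0 hgS (hg.symm hg00))
  obtain ⟨A', hA'⟩ : ∃ A' : P.Facet → KD P, A' = fun f => if f ∈ S then A f else D := ⟨_, rfl⟩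
  refine ⟨A', ?_⟩
  have eS : ∀ f, f ∈ S → A' f = A f := fun f hf => by rw [hA']; exact if_pos hf
  have eD : ∀ f, Jn R g0 f → A' f = D := fun f hf => by rw [hA']; exact if_neg (hnS f hf)
  clear hA'
  -- a tree band from `S` to the new junction is the band of `r`
  have huniq : ∀ r2, R.Rim r2 → tr r2 → jf r2 ∈ S → Jn R g0 (jf r2.r2) → pE.SameCycle r r2 := by
    intro r2 h2 ht2 hj1 hj2
    by_contra hn1
    have hn2 : ¬ pE.SameCycle r.r2 r2 := by
      intro hc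
      refine hnS _ ?_ hj1
      rw [hg0]; exact Jn.cyc hrf hc
    obtain ⟨S0, q1, q2, q3⟩ := hT.sep r hr ht
    apply q3
    have e1 : S0 (jf r) ↔ S0 (jf r2) := by
      refine h.con S0 q1 ?_ _ _ hS hj1
      intro r3 h3 ht3 c1 c2
      refine q2 r3 h3 ht3 ?_ ?_
      · intro hc
        refine hnS _ ?_ c2
        rw [hg0]; exact Jn.cyc hrf (Core1.r2_cycJ hc)
      · intro hc
        refine hnS _ ?_ c1
        rw [hg0]; exact Jn.cyc hrf hc
    have e2 := q2 r2 h2 ht2 hn1 hn2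
    have e3 := hj2.2 S0 q1
    rw [hg0] at e3
    exact (e1.trans e2).trans e3.symm
  refine ⟨?_, ?_, ?_, ?_, ?_, ?_⟩
  · rintro f (hf | hf)
    · exact h.z f hf
    · exact hf.1
  · rintro f g (hf | hf) hg
    · exact Or.inl (h.q f g hf hg)
    · exact Or.inr (Jn.trans hf hg)
  · rintro f (hf | hf)
    · rw [eS f hf]; exact h.lc f hf
    · rw [eD f hf, ← (show Jn R g0 f from hf).eq]; exact hD
  · rintro f g (hf | hf) hg
    · rw [eS f hf, eS g (h.q f g hf hg)]; exact h.same f g hf hg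
    · rw [eD f hf, eD g (Jn.trans hf hg)]
  · -- the labels
    have main : ∀ r2, R.Rim r2 → tr r2 → jf r2 ∈ S → Jn R g0 (jf r2.r2) →
        TyEq (A (jf r2)) D r2 r2.r2 := by
      intro r2 h2 ht2 hj1 hj2
      have hc := huniq r2 h2 ht2 hj1 hj2
      have hA : A (jf r) = A (jf r2) := h.same _ _ hS (Jn.cyc hr hc)
      obtain ⟨a1, a2⟩ := (h.lc _ hS).cyc (fun _ _ h1 h2 => Jn.trans h1 h2) tr_E hr
        (Jn.refl (h.z _ hS)) ht hc
      have hc2 := Core1.r2_cycJ hc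
      obtain ⟨b1, b2⟩ := hD.cyc (fun _ _ h1 h2 => Jn.trans h1 h2) tr_E hrf
        (by rw [hg0]; exact Jn.refl hrf.jf) ((tr_far r hr).2 ht) hc2
      unfold TyEq
      rw [← hA, a1, a2, b1, b2]
      exact hty
    rintro r2 h2 ht2 (c1 | c1) (c2 | c2)
    · rw [eS _ c1, eS _ c2]; exact h.ty r2 h2 ht2 c1 c2
    · rw [eS _ c1, eD _ c2]; exact main r2 h2 ht2 c1 c2
    · rw [eD _ c1, eS _ c2]
      have h2f := h2.r2
      have := main r2.r2 h2f ((tr_far r2 h2).2 ht2) c2 (by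
        rw [FSt.r2_r2]; exact c1)
      rw [FSt.r2_r2] at this
      exact this.symm
    · exfalso
      obtain ⟨S0, q1, -, q3⟩ := hT.sep r2 h2 ht2
      apply q3
      exact ((show Jn R g0 _ from c1).2 S0 q1).symm.trans ((show Jn R g0 _ from c2).2 S0 q1)
  · intro Q hQ hb
    have k1 : ∀ f, f ∈ S → (Q f ↔ Q (jf r)) := by
      intro f hf
      exact h.con Q hQ (fun r2 h2 ht2 c1 c2 => hb r2 h2 ht2 (Or.inl c1) (Or.inl c2)) _ _ hf hS
    have k2 : Q (jf r) ↔ Q g0 := by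
      have := hb r hr ht (Or.inl hS) (Or.inr (by rw [← hg0]; exact Jn.refl hg00))
      rwa [← hg0] at this
    have k3 : ∀ f, f ∈ S ∪ {g | Jn R g0 g} → (Q f ↔ Q g0) := by
      rintro f (hf | hf)
      · exact (k1 f hf).trans k2
      · exact ((show Jn R g0 f from hf).2 Q hQ).symm
    intro f g hf hg
    exact (k3 f hf).trans (k3 g hg).symm

/-- local certificates with matching labels -/
structure All (R : Core1 P) (tr ac : P.FSt → Prop) (A : P.Facet → KD P) : Prop where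
  lc : ∀ f, ¬ R.core f → KL R tr ac (Jn R f) (A f)
  same : ∀ f g, ¬ R.core f → Jn R f g → A f = A g
  ty : ∀ r, R.Rim r → tr r → TyEq (A (jf r)) (A (jf r.r2)) r r.r2
  tr_E : ∀ r, R.Rim r → (tr r.stE ↔ tr r)
  tr_far : ∀ r, R.Rim r → (tr r.r2 ↔ tr r)
  ac_E : ∀ r, R.Rim r → (ac r.stE ↔ ac r)
  ac_tr : ∀ r, R.Rim r → tr r → ac r
  ac_far : ∀ r, R.Rim r → ac r ∨ ac r.r2

/-- **Certificates with matching labels on all junctions.** -/
theorem exists_all (hT : R.Tree tr) (tr_E : ∀ r, R.Rim r → (tr r.stE ↔ tr r))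
    (tr_far : ∀ r, R.Rim r → (tr r.r2 ↔ tr r)) (ac_E : ∀ r, R.Rim r → (ac r.stE ↔ ac r))
    (ac_tr : ∀ r, R.Rim r → tr r → ac r) (ac_far : ∀ r, R.Rim r → ac r ∨ ac r.r2)
    (hL : HasKL R tr ac) (hne : ∃ r, R.Rim r ∧ tr r) :
    ∃ A : P.Facet → KD P, All R tr ac A := by
  classical
  obtain ⟨r0, hr0, ht0⟩ := hne
  have base : ∃ A, Part R tr ac {g | Jn R (jf r0) g} A := by
    obtain ⟨D, hD, -⟩ := hL r0 hr0 ht0 Ln.n Ln.n (by decide) (by decide)
    have h0 : ¬ R.core (jf r0) := hr0.jf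
    refine ⟨fun _ => D, ?_, ?_, ?_, ?_, ?_, ?_⟩
    · intro f hf; exact hf.1
    · intro f g hf hg; exact Jn.trans hf hg
    · intro f hf; rw [← (show Jn R _ f from hf).eq]; exact hD
    · intro f g _ _; rfl
    · intro r hr ht c1 c2
      exfalso
      obtain ⟨S0, q1, -, q3⟩ := hT.sep r hr ht
      exact q3 (((show Jn R _ _ from c1).2 S0 q1).symm.trans ((show Jn R _ _ from c2).2 S0 q1))
    · intro Q hQ _ f g hf hg
      exact ((show Jn R _ f from hf).2 Q hQ).symm.trans ((show Jn R _ g from hg).2 Q hQ)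
  have hfin : Set.Finite {S : Set P.Facet | (jf r0 ∈ S) ∧ ∃ A, Part R tr ac S A} :=
    Set.toFinite _
  obtain ⟨S, hS⟩ := hfin.exists_maximal ⟨_, Jn.refl hr0.jf, base⟩
  obtain ⟨h0S, A, hA⟩ := hS.prop
  have hall : ∀ f, ¬ R.core f → f ∈ S := by
    intro f hf
    by_contra hfS
    have h1 : ¬ ∀ r, R.Rim r → tr r → (jf r ∈ S ↔ jf r.r2 ∈ S) := by
      intro hb
      have := hT.conn (fun f => f ∈ S) hA.qj hb (jf r0) f hr0.jf hf
      exact hfS (this.1 h0S)
    have h2 : ∃ r, R.Rim r ∧ tr r ∧ jf r ∈ S ∧ jf r.r2 ∉ S := by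
      by_contra hcon
      push Not at hcon
      apply h1
      intro r hr ht
      constructor
      · exact hcon r hr ht
      · intro h3
        have := hcon r.r2 hr.r2 ((tr_far r hr).2 ht) h3
        rwa [FSt.r2_r2] at this
    obtain ⟨r, hr, ht, c1, c2⟩ := h2
    obtain ⟨A', hA'⟩ := hA.step hT tr_E tr_far hL hr ht c1 c2
    have hle : S ≤ S ∪ {g | Jn R (jf r.r2) g} := fun x hx => Or.inl hx
    have := hS.le_of_ge (show S ∪ {g | Jn R (jf r.r2) g} ∈ _ from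
      ⟨Or.inl h0S, A', hA'⟩) hle
    exact c2 (this (Or.inr (Jn.refl hr.r2.jf)))
  refine ⟨A, fun f hf => hA.lc f (hall f hf), fun f g hf hg => hA.same f g (hall f hf) hg, ?_,
    tr_E, tr_far, ac_E, ac_tr, ac_far⟩
  intro r hr ht
  exact hA.ty r hr ht (hall _ hr.jf) (hall _ hr.r2.jf)

end

end Pool.Agent.MP42K
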