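import Pool.Agent.MP42.K.JGlob
import Pool.Agent.MP42.K.End
import Pool.Agent.MP42.R.Fin

/-!
# Edge unfoldings from local certificates

`unfolding_of_HasKL`: local certificates with any given pair of labels at any given tree rim, on
the junctions of `P.refine r`, give an edge unfolding of `P.refine (r * 105)`.
-/

set_option autoImplicit false
set_option linter.unusedSectionVars false

namespace Pool.Agent.MP42K

open Pool.Agent.Helper55.UNF Pool.Agent.Helper55.UNF.GridSolid Pool.Agent.MP42G
open Pool.Agent.MP42H Pool.Agent.MP42X Pool.Agent.MP42R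
open Core1 (jf)

/-- **Reduction to local certificates.** -/
theorem unfolding_of_HasKL {P : GridSolid} (hP : P.IsOrthogonalPolyhedron) {r : ℕ} (hr : 0 < r)
    {R : Core1 (P.refine r hr)} {tr ac : (P.refine r hr).FSt → Prop} (hT : R.Tree tr)
    (tr_E : ∀ r, R.Rim r → (tr r.stE ↔ tr r)) (tr_far : ∀ r, R.Rim r → (tr r.r2 ↔ tr r))
    (ac_E : ∀ r, R.Rim r → (ac r.stE ↔ ac r)) (ac_tr : ∀ r, R.Rim r → tr r → ac r)
    (ac_far : ∀ r, R.Rim r → ac r ∨ ac r.r2) (hL : HasKL R tr ac) (hne : ∃ r, R.Rim r ∧ tr r)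
    (hK : 0 < r * 105) : (P.refine (r * 105) hK).HasEdgeUnfolding := by
  obtain ⟨C, rfl, rfl, hC⟩ := exists_KC hT tr_E tr_far ac_E ac_tr ac_far hL hne
  exact unfolding_of_KC hP hr C hT hC hK

/-- there is a rim -/
theorem exists_rim {P : GridSolid} {r j : ℕ} {hr : 0 < r} {hj : 1 ≤ j} {hj2 : j + 2 ≤ r}
    (hP : P.IsOrthogonalPolyhedron) : ∃ s, (coreR P r j hr hj hj2).Rim s := by
  have hr' : (0 : ℤ) < r := by exact_mod_cast hr
  have hne : P.cells.Nonempty := by
    obtain ⟨F⟩ := hP.2.nonempty
    exact ⟨F.1.1, F.2.1⟩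
  obtain ⟨c, hc, hmax⟩ := Finset.exists_max_image P.cells (fun c => c 0) hne
  let c' : Fin 3 → ℤ := fun i => r * c i + (if i = 0 then (r : ℤ) - 1 else if i = 2 then (j : ℤ) else 0)
  have hc' : c' ∈ (P.refine r hr).cells := by
    rw [mem_refine]
    have : (fun a => c' a / (r : ℤ)) = c := by
      funext a
      show (r * c a + _) / (r : ℤ) = _
      rw [add_comm, Int.add_mul_ediv_left _ _ hr'.ne']
      have : (if a = 0 then (r : ℤ) - 1 else if a = 2 then (j : ℤ) else 0) / r = 0 := by
        split_ifs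
        · exact Int.ediv_eq_zero_of_lt (by omega) (by omega)
        · exact Int.ediv_eq_zero_of_lt (by omega) (by omega)
        · exact Int.zero_ediv _
      rw [this, zero_add]
    rw [this]; exact hc
  have hd' : shift c' (0, true) ∉ (P.refine r hr).cells := by
    rw [mem_refine]
    intro h
    have h1 := hmax _ h
    have h2 : shift c' (0, true) 0 = r * c 0 + r := by
      have := shift_same c' (0, true)
      rw [show ((0 : Fin 3), true).1 = 0 from rfl] at this
      rw [this]
      show (r * c 0 + (if (0 : Fin 3) = 0 then (r : ℤ) - 1 else _)) + (if true = true then 1 else -1)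
        = _
      rw [if_pos rfl, if_pos rfl]
      ring
    simp only [h2] at h1
    rw [show (r : ℤ) * c 0 + r = r * (c 0 + 1) by ring, Int.mul_ediv_cancel_left _ hr'.ne'] at h1
    omega
  refine ⟨⟨⟨c', (0, true), (1, true)⟩, ⟨hc', hd'⟩, ?_⟩, ?_, ?_, ?_⟩
  · show (0 : Fin 3) ≠ 1
    decide
  · refine IsV_of_U ?_
    show cross (0, true) (1, true) = (2, true)
    decide
  · show (0 : Fin 3) ≠ 2
    decide
  · show c' 2 % (r : ℤ) = j
    show (r * c 2 + (if (2 : Fin 3) = 0 then (r : ℤ) - 1
        else if (2 : Fin 3) = 2 then (j : ℤ) else 0)) % (r : ℤ) = j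
    rw [if_neg (by decide), if_pos rfl, add_comm, Int.add_mul_emod_self_left]
    exact Int.emod_eq_of_lt (by omega) (by omega)

/-- **Genus 0**: if all bands together form a tree of junctions, it is enough to have local
certificates with any given pair of labels at any given rim. -/
theorem unfolding_of_HasKL_zero {P : GridSolid} (hP : P.IsOrthogonalPolyhedron) {r j : ℕ}
    (hr : 0 < r) (hj : 1 ≤ j) (hj2 : j + 2 ≤ r)
    (hT : (coreR P r j hr hj hj2).Tree (fun _ => True))
    (hL : HasKL (coreR P r j hr hj hj2) (fun _ => True) (fun _ => True))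
    (hK : 0 < r * 105) : (P.refine (r * 105) hK).HasEdgeUnfolding := by
  obtain ⟨s, hs⟩ := exists_rim (hj := hj) (hj2 := hj2) (hr := hr) hP
  exact unfolding_of_HasKL hP hr hT (fun _ _ => Iff.rfl) (fun _ _ => Iff.rfl)
    (fun _ _ => Iff.rfl) (fun _ _ _ => trivial) (fun _ _ => Or.inl trivial) hL ⟨s, hs, trivial⟩ hK

end Pool.Agent.MP42K
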