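import Pool.Agent.MP42.K.JAsm
import Pool.Agent.MP42.H.Refine

/-!
# The global certificate from the local certificates
-/

set_option autoImplicit false
set_option linter.unusedSectionVars false

namespace Pool.Agent.MP42K

open Pool.Agent.Helper55.UNF Pool.Agent.Helper55.UNF.GridSolid Pool.Agent.MP42G
open Pool.Agent.MP42H Pool.Agent.MP42X Pool.Agent.MP42R
open Core1 (jf)

variable {P : GridSolid}

section

variable (R : Core1 P) (tr : P.FSt → Prop) (A : P.Facet → KD P)

open Classical in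
/-- the frames -/
noncomputable def gcan (f : P.Facet) : P.FSt :=
  if R.core f then (exists_st f).choose else (A f).can f

open Classical in
noncomputable def gkv (s : P.FSt) : Prop :=
  if R.core s.facet then
    (if IsV s then (A s.stN.facet).kv s.stN.rR else (A s.stE.facet).kv s.stE.rL)
  else (A s.facet).kv s

open Classical in
noncomputable def gke (s : P.FSt) : Prop :=
  if R.core s.facet then (if R.core s.stE.facet then False else (A s.stE.facet).ke s.stE.r2)
  else (A s.facet).ke s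

def gkf (f : P.Facet) : Prop := ¬ R.core f ∧ (A f).kf f

def glam (s : P.FSt) : Ln := (A s.facet).lam s

open Classical in
noncomputable def gnu (s : P.FSt) : Ln :=
  if R.core s.facet then (A s.stE.facet).nu s else (A s.facet).nu s

open Classical in
noncomputable def glin (r : P.FSt) : Ln := if tr r then (A (jf r)).lin r else Ln.n
open Classical in
noncomputable def glout (r : P.FSt) : Ln := if tr r then (A (jf r)).lout r else Ln.s

def gLe (f : P.Facet) : Prop := ¬ R.core f ∧ (A f).Le f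
def gPl (S : Bool) (n : ℕ) (g : P.FSt) : Prop := ¬ R.core g.facet ∧ (A g.facet).Pl S n g
def gHg (E : Bool) (s : P.FSt) : Prop := ¬ R.core s.facet ∧ (A s.facet).Hg E s

end

/-! ## States at the core -/

section

variable {R : Core1 P}

/-- from a facet that is not core to a core facet: the direction is vertical -/
lemma V_of_in {s : P.FSt} (h0 : ¬ R.core s.facet) (h1 : R.core s.stE.facet) :
    IsV s.stE.rL := by
  rcases R.V s.stE h1 with h | h
  · exact absurd ((R.E s ((IsV_stE s).1 h)).1 h1) h0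
  · exact h

lemma V_of_out {s : P.FSt} (h0 : R.core s.facet) (h1 : ¬ R.core s.stE.facet) : ¬ IsV s :=
  fun h => h1 ((R.E s h).2 h0)

lemma V_of_both {s : P.FSt} (h0 : R.core s.facet) (h1 : R.core s.stE.facet) : IsV s := by
  rcases R.V s h0 with h | h
  · exact h
  · exfalso
    have e : s.rR.stN = s.stE.rR := by
      show s.rR.rL.stE.rR = _
      rw [FSt.rR_rL]
    have h2 : IsV s.rR := by
      rw [← FSt.rL_r2, IsV_r2]; exact h
    rcases U_or h2 with h3 | h3
    · have := (R.N s.rR h3 (by rw [FSt.facet_rR]; exact h0)).2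
      rw [e, FSt.facet_rR] at this
      exact this h1
    · rw [FSt.rR_r2] at h3
      have e2 : pN.symm s.rL = s.stE.rR.r2 := by
        rw [pN_symm_apply, FSt.rL_r2, e]
      have e3 := pN_symm_stN s.rL
      have := (R.S (pN.symm s.rL) (by rw [e3]; exact h3) (by rw [e3]; exact h0)).2
      rw [e2, FSt.facet_r2, FSt.facet_rR] at this
      exact this h1

lemma above {s : P.FSt} (hV : IsV s) (h0 : R.core s.facet) : ¬ R.core s.stN.facet := by
  have h1 : R.Rim s.r2 := ⟨(IsV_r2 s).2 hV, by rw [FSt.facet_r2]; exact h0⟩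
  have h2 := h1.jf
  unfold jf at h2
  rw [pN_symm_r2, FSt.facet_r2] at h2
  exact h2

end

namespace All

variable {R : Core1 P} {tr ac : P.FSt → Prop} {A : P.Facet → KD P} (h : All R tr ac A)

include h

lemma can0 {f : P.Facet} (hf : ¬ R.core f) : gcan R A f = (A f).can f := if_neg hf

lemma can_facet (f : P.Facet) : (gcan R A f).facet = f := by
  unfold gcan
  split_ifs with hf
  · exact (exists_st f).choose_spec
  · exact (h.lc f hf).can_facet f (Jn.refl hf)

lemma canJ {f g : P.Facet} (hf : ¬ R.core f) (hg : Jn R f g) : gcan R A g = (A f).can g := by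
  rw [h.can0 hg.1, h.same f g hf hg]

lemma kvJ {f : P.Facet} {s : P.FSt} (hf : ¬ R.core f) (hs : Jn R f s.facet) :
    gkv R A s ↔ (A f).kv s := by
  unfold gkv; rw [if_neg hs.1, h.same f _ hf hs]

lemma keJ {f : P.Facet} {s : P.FSt} (hf : ¬ R.core f) (hs : Jn R f s.facet) :
    gke R A s ↔ (A f).ke s := by
  unfold gke; rw [if_neg hs.1, h.same f _ hf hs]

lemma kfJ {f g : P.Facet} (hf : ¬ R.core f) (hg : Jn R f g) : gkf R A g ↔ (A f).kf g := by
  unfold gkf; rw [h.same f g hf hg]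
  exact ⟨fun h => h.2, fun h => ⟨hg.1, h⟩⟩

lemma lamJ {f : P.Facet} {s : P.FSt} (hf : ¬ R.core f) (hs : Jn R f s.facet) :
    glam A s = (A f).lam s := by
  unfold glam; rw [h.same f _ hf hs]

lemma nuJ {f : P.Facet} {s : P.FSt} (hf : ¬ R.core f) (hs : Jn R f s.facet) :
    gnu R A s = (A f).nu s := by
  unfold gnu; rw [if_neg hs.1, h.same f _ hf hs]

/-- the letters seen from the other side of an edge -/
lemma nuJ' {f : P.Facet} {s : P.FSt} (hf : ¬ R.core f) (hs : Jn R f s.facet) :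
    gnu R A s.stE.r2 = (A f).nu s.stE.r2 := by
  by_cases hc : R.core s.stE.facet
  · unfold gnu
    rw [FSt.facet_r2, if_pos hc, FSt.stE_inv, FSt.facet_r2, h.same f _ hf hs]
  · exact h.nuJ hf (by rw [FSt.facet_r2]; exact Jn.trans hs (Jn.E hs.1 hc))

lemma LeJ {f g : P.Facet} (hf : ¬ R.core f) (hg : Jn R f g) : gLe R A g ↔ (A f).Le g := by
  unfold gLe; rw [h.same f g hf hg]
  exact ⟨fun h => h.2, fun h => ⟨hg.1, h⟩⟩

lemma PlJ {f : P.Facet} {S : Bool} {n : ℕ} {g : P.FSt} (hf : ¬ R.core f) (hg : Jn R f g.facet) :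
    gPl R A S n g ↔ (A f).Pl S n g := by
  unfold gPl; rw [h.same f _ hf hg]
  exact ⟨fun h => h.2, fun h => ⟨hg.1, h⟩⟩

lemma HgJ {f : P.Facet} {E : Bool} {g : P.FSt} (hf : ¬ R.core f) (hg : Jn R f g.facet) :
    gHg R A E g ↔ (A f).Hg E g := by
  unfold gHg; rw [h.same f _ hf hg]
  exact ⟨fun h => h.2, fun h => ⟨hg.1, h⟩⟩

/-- the supports -/
lemma supJ {f : P.Facet} (hf : ¬ R.core f) {S E : Bool} {n : ℕ} {g : P.FSt}
    (hs : SupK (Act (A f).can) (A f).kv (A f).ke (A f).kf (Jn R f) (A f).Le (A f).Pl (A f).Hg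
      S E n g) :
    SupK (Act (gcan R A)) (gkv R A) (gke R A) (gkf R A) (fun f => ¬ R.core f) (gLe R A)
      (gPl R A) (gHg R A) S E n g := by
  refine hs.mono (fun s hJ ha => ?_) (fun s hJ => (h.kvJ hf hJ).symm)
    (fun s hJ => (h.keJ hf hJ).symm) (fun f hJ => (h.kfJ hf hJ).symm) (fun f hJ => hJ.1)
    (fun f hJ hc => fun hc' => hc ((h.LeJ hf hJ).1 hc')) (fun g hJ hp => ?_)
    (fun s hJ hk => (h.HgJ hf hJ).2 hk)
  · unfold Act at ha ⊢
    rw [h.canJ hf hJ]
    exact ha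
  · have h8 := (h.lc f hf).Pl_J S n g hp
    exact ⟨(h.PlJ hf hJ).2 hp, fun hL => (h.LeJ hf h8.2).2 hL⟩

lemma linJ {f : P.Facet} {r : P.FSt} (hf : ¬ R.core f) (hr : Jn R f (jf r)) (ht : tr r) :
    glin tr A r = (A f).lin r := by
  unfold glin; rw [if_pos ht, h.same f _ hf hr]

lemma loutJ {f : P.Facet} {r : P.FSt} (hf : ¬ R.core f) (hr : Jn R f (jf r)) (ht : tr r) :
    glout tr A r = (A f).lout r := by
  unfold glout; rw [if_pos ht, h.same f _ hf hr]

lemma stJ {f : P.Facet} {r : P.FSt} (hf : ¬ R.core f) (hr : Jn R f (jf r)) :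
    St (gkv R A) (gke R A) r ↔ St (A f).kv (A f).ke r := by
  unfold St
  rw [h.kvJ hf (s := (pN.symm r).rL) hr, h.keJ hf (s := (pN.symm r).rL) hr]

lemma enJ {f : P.Facet} {r : P.FSt} (hf : ¬ R.core f) (hr : Jn R f (jf r)) :
    En (gkv R A) (gke R A) r ↔ En (A f).kv (A f).ke r := by
  unfold En
  rw [h.kvJ hf (s := pN.symm r) hr, h.keJ hf (s := (pN.symm r).rL) hr]

lemma turJ {f : P.Facet} {r : P.FSt} (hf : ¬ R.core f) (hr : Jn R f (jf r)) :
    Turned (gcan R A) r ↔ Turned (A f).can r := by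
  unfold Turned
  rw [h.canJ hf (g := (pN.symm r).facet) hr]

lemma jE {f : P.Facet} {r : P.FSt} (hR : R.Rim r) (hr : Jn R f (jf r)) : Jn R f (jf r.stE) :=
  Jn.trans hr (Jn.cyc hR ⟨1, rfl⟩)

lemma jW {f : P.Facet} {r : P.FSt} (hR : R.Rim r) (hr : Jn R f (jf r)) :
    Jn R f (jf (pE.symm r)) :=
  Jn.trans hr (Jn.cyc hR ⟨-1, rfl⟩)

lemma litJ {f : P.Facet} {r : P.FSt} (hf : ¬ R.core f) (hR : R.Rim r) (hr : Jn R f (jf r))
    (j : VL) : LitK (gkv R A) (gke R A) tr (glin tr A) (glout tr A) r j ↔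
      LitK (A f).kv (A f).ke tr (A f).lin (A f).lout r j := by
  by_cases ht : tr r
  · unfold LitK
    rw [h.linJ hf hr ht, h.loutJ hf hr ht, h.kvJ hf (s := (pN.symm r).rL) hr,
      h.kvJ hf (s := pN.symm r) hr, h.keJ hf (s := (pN.symm r).rL) hr,
      h.keJ hf (s := (pN.symm r.stE).rL) (h.jE hR hr),
      h.keJ hf (s := (pN.symm (pE.symm r)).rL) (h.jW hR hr), h.stJ hf hr, h.enJ hf hr]
  · exact iff_of_true (Or.inl ht) (Or.inl ht)

/-! ## The subcomplex -/

lemma kv_rot (s : P.FSt) : gkv R A s.stE.rL ↔ gkv R A s := by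
  by_cases h0 : R.core s.facet
  · by_cases h1 : R.core s.stE.facet
    · -- both core
      have hV := V_of_both h0 h1
      have hV' : ¬ IsV s.stE.rL := not_V_rL' (IsV.E hV)
      have h2 := above hV h0
      have e1 : gkv R A s = (A s.stN.facet).kv s.stN.rR := by
        unfold gkv; rw [if_pos h0, if_pos hV]
      have e2 : gkv R A s.stE.rL = (A s.stE.rL.stE.facet).kv s.stE.rL.stE.rL := by
        unfold gkv
        rw [if_pos (show R.core s.stE.rL.facet from h1), if_neg hV']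
      have e3 : s.stE.rL.stE = s.stN.stE.rL := by
        rw [rL_stE', Core1.commJ hV h0]
      have hE : ¬ R.core s.stN.stE.facet := by
        have := above (IsV.E hV) h1
        rwa [Core1.commJ hV h0] at this
      rw [e1, e2, e3, FSt.facet_rL, FSt.rL_rL]
      have e4 : s.stN.rR = s.stN.stE.r2.stE.rL := by
        rw [FSt.stE_inv, FSt.r2_rL]
      rw [e4]
      have hJ : Jn R s.stN.stE.facet s.stN.facet := (Jn.E h2 hE).symm h2
      have h3 := (h.lc _ hE).kv_rot s.stN.stE.r2 (by rw [FSt.facet_r2]; exact Jn.refl hE)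
        (by rw [FSt.stE_inv, FSt.facet_r2]; exact hJ)
      rw [h.same _ _ hE hJ] at h3 ⊢
      exact h3.symm
    · -- from core
      have hV := V_of_out h0 h1
      have e1 : gkv R A s = (A s.stE.facet).kv s.stE.rL := by
        unfold gkv; rw [if_pos h0, if_neg hV]
      have e2 : gkv R A s.stE.rL = (A s.stE.rL.facet).kv s.stE.rL := by
        unfold gkv
        rw [if_neg (show ¬ R.core s.stE.rL.facet from h1)]
      rw [e1, e2]
      rfl
  · by_cases h1 : R.core s.stE.facet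
    · have hV := V_of_in h0 h1
      have e1 : gkv R A s = (A s.facet).kv s := by
        unfold gkv; rw [if_neg h0]
      have e2 : gkv R A s.stE.rL = (A s.stE.rL.stN.facet).kv s.stE.rL.stN.rR := by
        unfold gkv
        rw [if_pos (show R.core s.stE.rL.facet from h1), if_pos hV]
      have e3 : s.stE.rL.stN = s.rL := by
        rw [rL_stN, pE_s]
      rw [e1, e2, e3, FSt.rL_rR]
      rfl
    · rw [h.kvJ h0 (s := s.stE.rL) (Jn.E h0 h1), h.kvJ h0 (Jn.refl h0)]
      exact (h.lc _ h0).kv_rot s (Jn.refl h0) (Jn.E h0 h1)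

lemma ke_rev (s : P.FSt) : gke R A s.stE.r2 ↔ gke R A s := by
  by_cases h0 : R.core s.facet
  · by_cases h1 : R.core s.stE.facet
    · unfold gke
      rw [if_pos (show R.core s.stE.r2.facet from h1), if_pos h0, if_pos h1, FSt.stE_inv,
        if_pos (show R.core s.r2.facet from h0)]
    · unfold gke
      rw [if_neg (show ¬ R.core s.stE.r2.facet from h1), if_pos h0, if_neg h1]
      rfl
  · by_cases h1 : R.core s.stE.facet
    · unfold gke
      rw [if_pos (show R.core s.stE.r2.facet from h1), if_neg h0, FSt.stE_inv,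
        if_neg (show ¬ R.core s.r2.facet from h0), FSt.r2_r2]
      rfl
    · rw [h.keJ h0 (s := s.stE.r2) (Jn.E h0 h1), h.keJ h0 (Jn.refl h0)]
      exact (h.lc _ h0).ke_rev s (Jn.refl h0) (Jn.E h0 h1)

lemma ke_kv (s : P.FSt) (hs : gke R A s) : gkv R A s := by
  by_cases h0 : R.core s.facet
  · by_cases h1 : R.core s.stE.facet
    · unfold gke at hs
      rw [if_pos h0, if_pos h1] at hs
      exact hs.elim
    · have hV := V_of_out h0 h1
      unfold gke at hs
      rw [if_pos h0, if_neg h1] at hs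
      unfold gkv; rw [if_pos h0, if_neg hV]
      have h2 := ((h.lc _ h1).ke_kv s.stE.r2 (Jn.refl h1) hs).2
      rw [FSt.r2_rR] at h2
      exact h2
  · rw [h.keJ h0 (Jn.refl h0)] at hs
    rw [h.kvJ h0 (Jn.refl h0)]
    exact ((h.lc _ h0).ke_kv s (Jn.refl h0) hs).1

/-! ## The certificate -/

open Classical in
/-- **The global certificate.** -/
noncomputable def toKC : KC P where
  toCore1 := R
  can := gcan R A
  can_facet := h.can_facet
  kv := gkv R A
  ke := gke R A
  kf := gkf R A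
  kv_rot := h.kv_rot
  ke_rev := h.ke_rev
  ke_kv := h.ke_kv
  kf_ke := fun s hs => by
    have h0 := hs.1
    rw [h.keJ h0 (Jn.refl h0)]
    exact (h.lc _ h0).kf_ke s (Jn.refl h0) hs.2
  cmp := fun s h0 h1 hv he => by
    have hJ := Jn.E h0 h1
    rw [h.kvJ h0 (Jn.refl h0)] at hv
    rw [h.keJ h0 (Jn.refl h0)] at he
    rw [h.canJ h0 (Jn.refl h0), h.canJ h0 hJ]
    exact (h.lc _ h0).cmp s (Jn.refl h0) hJ hv he
  lam := glam A
  nu := gnu R A
  cNE := fun t h0 hf hc => by
    rw [h.kfJ h0 (Jn.refl h0)] at hf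
    rw [h.canJ h0 (Jn.refl h0)] at hc
    rw [h.keJ h0 (Jn.refl h0), h.keJ h0 (s := t.rL) (Jn.refl h0), h.kvJ h0 (Jn.refl h0),
      h.lamJ h0 (Jn.refl h0), h.nuJ' h0 (s := t.rL) (Jn.refl h0)]
    exact (h.lc _ h0).cNE t (Jn.refl h0) hf hc
  cSE := fun t h0 hf hc => by
    rw [h.kfJ h0 (Jn.refl h0)] at hf
    rw [h.canJ h0 (Jn.refl h0)] at hc
    rw [h.keJ h0 (Jn.refl h0), h.keJ h0 (s := t.rR) (Jn.refl h0), h.kvJ h0 (s := t.rR) (Jn.refl h0),
      h.lamJ h0 (Jn.refl h0), h.nuJ h0 (s := t.rR) (Jn.refl h0)]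
    exact (h.lc _ h0).cSE t (Jn.refl h0) hf hc
  tr := tr
  tr_E := h.tr_E
  tr_far := h.tr_far
  ac := ac
  ac_E := h.ac_E
  ac_tr := h.ac_tr
  ac_far := h.ac_far
  lin := glin tr A
  lout := glout tr A
  lin_E := fun r hr => by
    by_cases ht : tr r
    · rw [h.linJ hr.jf (h.jE hr (Jn.refl hr.jf)) ((h.tr_E r hr).2 ht),
        h.linJ hr.jf (Jn.refl hr.jf) ht]
      exact (h.lc _ hr.jf).lin_E r hr (Jn.refl hr.jf) ht
    · have ht' : ¬ tr r.stE := fun hc => ht ((h.tr_E r hr).1 hc)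
      unfold glin; rw [if_neg ht, if_neg ht']
  lout_E := fun r hr => by
    by_cases ht : tr r
    · rw [h.loutJ hr.jf (h.jE hr (Jn.refl hr.jf)) ((h.tr_E r hr).2 ht),
        h.loutJ hr.jf (Jn.refl hr.jf) ht]
      exact (h.lc _ hr.jf).lout_E r hr (Jn.refl hr.jf) ht
    · have ht' : ¬ tr r.stE := fun hc => ht ((h.tr_E r hr).1 hc)
      unfold glout; rw [if_neg ht, if_neg ht']
  lab_far := fun r hr ht => by
    have ht2 := (h.tr_far r hr).2 ht
    have h1 := h.ty r hr ht
    rw [h.linJ hr.jf (Jn.refl hr.jf) ht, h.loutJ hr.jf (Jn.refl hr.jf) ht,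
      h.linJ hr.r2.jf (Jn.refl hr.r2.jf) ht2, h.loutJ hr.r2.jf (Jn.refl hr.r2.jf) ht2]
    exact h1
  adm := fun r hr ht => by
    rw [h.linJ hr.jf (Jn.refl hr.jf) ht, h.loutJ hr.jf (Jn.refl hr.jf) ht]
    exact (h.lc _ hr.jf).adm r hr (Jn.refl hr.jf) ht
  cut_lab := fun r hr ht => by
    unfold glin glout
    rw [if_neg ht, if_neg ht]
    exact ⟨rfl, rfl⟩
  st_ac := fun r hr hs => by
    rw [h.stJ hr.jf (Jn.refl hr.jf)] at hs
    exact (h.lc _ hr.jf).st_ac r hr (Jn.refl hr.jf) hs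
  en_ac := fun r hr hs => by
    rw [h.enJ hr.jf (Jn.refl hr.jf)] at hs
    exact (h.lc _ hr.jf).en_ac r hr (Jn.refl hr.jf) hs
  st_ex := fun r hr ha => by
    obtain ⟨a, ⟨h1, h2⟩, h3⟩ := (h.lc _ hr.jf).st_ex r hr (Jn.refl hr.jf) ha
    refine ⟨a, ⟨h1, (h.stJ hr.jf (Jn.cyc hr h1)).2 h2⟩, ?_⟩
    rintro b ⟨h4, h5⟩
    exact h3 b ⟨h4, (h.stJ hr.jf (Jn.cyc hr h4)).1 h5⟩
  en_ex := fun r hr ha => by
    obtain ⟨a, ⟨h1, h2⟩, h3⟩ := (h.lc _ hr.jf).en_ex r hr (Jn.refl hr.jf) ha
    refine ⟨a, ⟨h1, (h.enJ hr.jf (Jn.cyc hr h1)).2 h2⟩, ?_⟩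
    rintro b ⟨h4, h5⟩
    exact h3 b ⟨h4, (h.enJ hr.jf (Jn.cyc hr h4)).1 h5⟩
  cut_arc := fun r hr ht hs => by
    rw [h.enJ hr.jf (Jn.refl hr.jf)] at hs
    rw [h.stJ hr.jf (h.jE hr (Jn.refl hr.jf))]
    exact (h.lc _ hr.jf).cut_arc r hr (Jn.refl hr.jf) ht hs
  arc := fun r hr ht hl hs => by
    rw [h.enJ hr.jf (Jn.refl hr.jf)] at hs
    rw [h.linJ hr.jf (Jn.refl hr.jf) ht, h.loutJ hr.jf (Jn.refl hr.jf) ht] at hl
    rw [h.keJ hr.jf (s := (pN.symm r.stE).rL) (h.jE hr (Jn.refl hr.jf))]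
    exact (h.lc _ hr.jf).arc r hr (Jn.refl hr.jf) ht hl hs
  st_lab := fun r hr hs => by
    rw [h.stJ hr.jf (Jn.refl hr.jf)] at hs
    have h1 := (h.lc _ hr.jf).st_lab r hr (Jn.refl hr.jf) hs
    have e : glin tr A r = (A (jf r)).lin r := by
      by_cases ht : tr r
      · exact h.linJ hr.jf (Jn.refl hr.jf) ht
      · rw [((h.lc _ hr.jf).cut_lab r hr (Jn.refl hr.jf) ht).1]
        unfold glin; rw [if_neg ht]
    rw [e, h.turJ hr.jf (Jn.refl hr.jf), h.canJ hr.jf (g := (pN.symm r).facet) (Jn.refl hr.jf),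
      h.nuJ hr.jf (s := (pN.symm r).rL) (Jn.refl hr.jf)]
    exact h1
  en_lab := fun r hr hs => by
    rw [h.enJ hr.jf (Jn.refl hr.jf)] at hs
    have h1 := (h.lc _ hr.jf).en_lab r hr (Jn.refl hr.jf) hs
    have e : glout tr A r = (A (jf r)).lout r := by
      by_cases ht : tr r
      · exact h.loutJ hr.jf (Jn.refl hr.jf) ht
      · rw [((h.lc _ hr.jf).cut_lab r hr (Jn.refl hr.jf) ht).2]
        unfold glout; rw [if_neg ht]
    rw [e, h.turJ hr.jf (Jn.refl hr.jf), h.canJ hr.jf (g := (pN.symm r).facet) (Jn.refl hr.jf),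
      h.nuJ' hr.jf (s := (pN.symm r).rL) (Jn.refl hr.jf)]
    exact h1
  tur := fun r hr hs => by
    rw [h.turJ hr.jf (Jn.refl hr.jf)] at hs
    rcases (h.lc _ hr.jf).tur r hr (Jn.refl hr.jf) hs with h2 | ⟨ht, z, h1, h2⟩
    · left
      intro j
      rw [h.litJ hr.jf hr (Jn.refl hr.jf)]
      exact h2 j
    · right
      have hJ : ∀ y : ℤ, Jn R (jf r) (jf ((pE ^ y) r)) := fun y => Jn.cyc hr ⟨y, rfl⟩
      have hR : ∀ y : ℤ, R.Rim ((pE ^ y) r) := fun y => Core1.Rim.cyc hr ⟨y, rfl⟩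
      have hT : ∀ y : ℤ, tr ((pE ^ y) r) := by
        intro y
        have hc : pE.SameCycle r ((pE ^ y) r) := ⟨y, rfl⟩
        obtain ⟨n, hn⟩ := Equiv.Perm.SameCycle.exists_nat_pow_eq hc
        rw [← hn]
        clear hn
        induction n with
        | zero => exact ht
        | succ n ih =>
          rw [pow_succ', Equiv.Perm.mul_apply]
          exact (h.tr_E _ (Core1.Rim.jpow hr n)).2 ih
      refine ⟨ht, z, fun y hy => ?_, ?_⟩
      · obtain ⟨h3, h4⟩ := h1 y hy
        refine ⟨(h.turJ hr.jf (hJ y)).2 h3, ?_⟩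
        unfold Land at h4 ⊢
        have e : St (gkv R A) (gke R A) (pE ((pE ^ y) r)) ↔
            St (A (jf r)).kv (A (jf r)).ke (pE ((pE ^ y) r)) :=
          h.stJ hr.jf (h.jE (hR y) (hJ y))
        rw [h.enJ hr.jf (h.jW (hR y) (hJ y)), e,
          h.linJ hr.jf (hJ y) (hT y), h.loutJ hr.jf (hJ y) (hT y)]
        exact h4
      · rw [h.stJ hr.jf (hJ z), h.enJ hr.jf (hJ z),
          h.linJ hr.jf (Jn.refl hr.jf) ht, h.loutJ hr.jf (Jn.refl hr.jf) ht]
        exact h2
  Le := gLe R A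
  Le_core := fun f hf => hf.1
  Le_no := fun s hs => by
    have h0 := hs.1
    rw [h.kfJ h0 (Jn.refl h0), h.kvJ h0 (Jn.refl h0)]
    exact (h.lc _ h0).Le_no s hs.2
  Le_rim := fun r hr hc => (h.lc _ hr.jf).Le_rim r hr ((h.LeJ hr.jf (Jn.refl hr.jf)).1 hc)
  Le_cut := fun f hf => by
    obtain ⟨s, h1, h2, h3, h4⟩ := (h.lc f hf.1).Le_cut f hf.2
    exact ⟨s, h1.1, (h.kvJ hf.1 h1).2 h2, fun hc => h3 ((h.keJ hf.1 h1).1 hc),
      fun hc => h4 ((h.keJ hf.1 (s := s.rL) h1).1 hc)⟩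
  Pl := gPl R A
  Pl_uniq := fun S n g S' n' g' h1 h2 e h3 => by
    have h0 := h1.1
    have h0' := h2.1
    have j1 := (h.lc _ h0).Pl_J S n g h1.2
    have j2 := (h.lc _ h0').Pl_J S' n' g' h2.2
    have j3 : Jn R g.facet g'.facet := by
      refine Jn.trans j1.2 ?_
      rw [e]
      exact j2.2.symm h0'
    refine (h.lc _ h0).Pl_uniq S n g S' n' g' h1.2 ((h.PlJ h0 j3).1 h2) e ?_
    exact (h.LeJ h0 j1.2).1 h3
  Hg := gHg R A
  Hg_nc := fun E s h1 h2 => (h.lc _ h1.1).Hg_nc E s h1.2 h2.2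
  lean := fun f hf => by
    obtain ⟨S, E, n, g, h1, h2, h3⟩ := (h.lc f hf.1).lean f hf.2
    exact ⟨S, E, n, g, h1, h2, h.supJ hf.1 h3⟩
  cov := fun f hf hL j => by
    have hL' : ¬ (A f).Le f := fun hc => hL ((h.LeJ hf (Jn.refl hf)).2 hc)
    obtain ⟨z, h1', h2⟩ := (h.lc f hf).cov f (Jn.refl hf) hL' j
    have h1 : ∀ y ∈ Set.uIcc 0 z, y ≠ z → ∃ g, Jn R f g ∧ (pN ^ y) ((A f).can f) = (A f).can g :=
      fun y hy hyz => by
        obtain ⟨g, a, -, b⟩ := h1' y hy hyz
        exact ⟨g, a, b⟩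
    have e0 := h.canJ hf (Jn.refl hf)
    refine ⟨z, ?_, ?_⟩
    · intro y hy hyz
      obtain ⟨g, hg, hl, e⟩ := h1' y hy hyz
      exact ⟨g, hg.1, fun hc => hl ((h.LeJ hf hg).1 hc), by rw [e0, h.canJ hf hg]; exact e⟩
    · rw [e0]
      rcases h2 with ⟨g, hg, h3, e, h4⟩ | ⟨r, j', h3, hR, h4⟩
      · left
        refine ⟨g, hg.1, ?_, by rw [h.canJ hf hg]; exact e, ?_⟩
        · rw [h.kfJ hf hg]; exact h3
        · rw [h.canJ hf hg]
          have hg' : ((A f).can g).facet = g := (h.lc f hf).can_facet g hg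
          have hs : ∀ s : P.FSt, s.facet = ((A f).can g).facet → Jn R f s.facet := by
            intro s hs; rw [hs, hg']; exact hg
          unfold khit at h4 ⊢
          cases j
          · rw [h.kvJ hf (hs ((A f).can g).rL rfl), h.kvJ hf (hs ((A f).can g).r2 rfl),
              h.keJ hf (hs ((A f).can g).r2 rfl)]
            exact h4
          · rw [h.keJ hf (hs ((A f).can g).rL rfl), h.keJ hf (hs ((A f).can g).rR rfl)]
            exact h4
          · rw [h.kvJ hf (hs ((A f).can g) rfl), h.kvJ hf (hs ((A f).can g).rR rfl),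
              h.keJ hf (hs ((A f).can g) rfl)]
            exact h4
      · right
        refine ⟨r, j', h3, hR, ?_⟩
        have hJ : Jn R f (jf r) := by
          rcases h3 with ⟨hz, e, -⟩ | ⟨hz, e, -⟩
          · obtain ⟨g, hg, e1⟩ := h1 (z - 1) (by rw [Set.mem_uIcc]; left; omega) (by omega)
            have e2 : pN.symm ((pN ^ z) ((A f).can f)) = (pN ^ (z - 1)) ((A f).can f) := by
              rw [zpow_sub_one, Equiv.Perm.mul_apply]
              have hcomm : (pN ^ z) (pN.symm ((A f).can f)) = pN.symm ((pN ^ z) ((A f).can f)) := by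
                have : (pN : Equiv.Perm P.FSt) ^ z * pN⁻¹ = pN⁻¹ * pN ^ z := by
                  rw [← zpow_neg_one, ← zpow_add, ← zpow_add, add_comm]
                exact congrArg (fun e : Equiv.Perm P.FSt => e ((A f).can f)) this
              exact hcomm.symm
            unfold jf
            rw [← e, e2, e1, (h.lc f hf).can_facet g hg]
            exact hg
          · obtain ⟨g, hg, e1⟩ := h1 (z + 1) (by rw [Set.mem_uIcc]; right; omega) (by omega)
            have e3 : r = ((pN ^ z) ((A f).can f)).r2 := by rw [e, FSt.r2_r2]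
            have e4 : ((pN ^ z) ((A f).can f)).stN = (pN ^ (z + 1)) ((A f).can f) := by
              have : (pN : Equiv.Perm P.FSt) ^ (z + 1) = pN * pN ^ z := by
                rw [add_comm, zpow_add, zpow_one]
              rw [this]; rfl
            unfold jf
            rw [e3, pN_symm_r2, FSt.facet_r2, e4, e1, (h.lc f hf).can_facet g hg]
            exact hg
        rw [h.litJ hf hR hJ]
        exact h4

theorem toKC_core : h.toKC.toCore1 = R := rfl

theorem toKC_tr : h.toKC.tr = tr := rfl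

/-- the global certificate is connected -/
theorem conn : h.toKC.Conn := by
  intro cv hI
  have key : ∀ f, ¬ R.core f → ∃ q : Prop,
      ∀ s : P.FSt, Jn R f s.facet → ¬ gkf R A s.facet → gkv R A s → (cv s ↔ q) := by
    intro f hf
    obtain ⟨q, hq⟩ := (h.lc f hf).conn cv
      { x := fun s h0 h1 hv he => by
          refine hI.x s h0.1 h1.1 ?_ ?_
          · show gkv R A s
            rw [h.kvJ hf h0]; exact hv
          · show ¬ gke R A s
            rw [h.keJ hf h0]; exact he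
        e := fun s h0 h1 he => by
          refine hI.e s h0.1 ?_ ?_
          · show ¬ gkf R A s.facet
            rw [h.kfJ hf h0]; exact h1
          · show gke R A s
            rw [h.keJ hf h0]; exact he
        cl := fun a b ha hj hs h1 h2 => by
          refine hI.cl a b ha hs ?_ ?_
          · show St (gkv R A) (gke R A) a
            rw [h.stJ hf hj]; exact h1
          · show En (gkv R A) (gke R A) b
            rw [h.enJ hf (Jn.trans hj (Jn.cyc ha hs))]; exact h2 }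
    refine ⟨q, fun s hs h1 h2 => hq s hs ?_ ?_⟩
    · rw [← h.kfJ hf hs]; exact h1
    · rw [← h.kvJ hf hs]; exact h2
  refine ⟨fun f => ∀ s : P.FSt, Jn R f s.facet → ¬ gkf R A s.facet → gkv R A s → cv s, ?_, ?_⟩
  · intro s h0 h1
    have e := (Jn.E (R := R) h0 h1).eq
    beta_reduce
    rw [e]
  · intro s h0 h1 h2
    obtain ⟨q, hq⟩ := key s.facet h0
    by_cases hqt : q
    · exact iff_of_true ((hq s (Jn.refl h0) h1 h2).2 hqt)
        (fun t ht h3 h4 => (hq t ht h3 h4).2 hqt)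
    · have hv : ¬ cv s := fun hc => hqt ((hq s (Jn.refl h0) h1 h2).1 hc)
      exact iff_of_false hv (fun hc => hv (hc s (Jn.refl h0) h1 h2))

end All

/-- **Assembly**: local certificates with any given pair of labels at any given tree rim give a
certificate. -/
theorem exists_KC {R : Core1 P} {tr ac : P.FSt → Prop} (hT : R.Tree tr)
    (tr_E : ∀ r, R.Rim r → (tr r.stE ↔ tr r)) (tr_far : ∀ r, R.Rim r → (tr r.r2 ↔ tr r))
    (ac_E : ∀ r, R.Rim r → (ac r.stE ↔ ac r)) (ac_tr : ∀ r, R.Rim r → tr r → ac r)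
    (ac_far : ∀ r, R.Rim r → ac r ∨ ac r.r2) (hL : HasKL R tr ac) (hne : ∃ r, R.Rim r ∧ tr r) :
    ∃ C : KC P, C.toCore1 = R ∧ C.tr = tr ∧ C.Conn := by
  obtain ⟨A, hA⟩ := exists_all hT tr_E tr_far ac_E ac_tr ac_far hL hne
  exact ⟨hA.toKC, rfl, rfl, hA.conn⟩

end Pool.Agent.MP42K
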