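import Pool.Agent.MP42.K.Rows

/-!
# Local junction certificates (boundary of a neighbourhood)

`Jn R f`: the facets of the junction of the facet `f`.  `KD P`: the data of a certificate of one
junction (see `KC`), `KL`: the conditions on one junction `J`.  The values of `kv`, `ke` matter on
the states with a facet in `J` only; `nu` matters also on the core states `s` with `s.stE.facet`
in `J` (the rim edges seen from the band).
-/

set_option autoImplicit false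
set_option linter.unusedSectionVars false

namespace Pool.Agent.MP42K

open Pool.Agent.Helper55.UNF Pool.Agent.Helper55.UNF.GridSolid Pool.Agent.MP42G
open Pool.Agent.MP42H Pool.Agent.MP42X Pool.Agent.MP42R
open Core1 (jf)

variable {P : GridSolid}

/-- the facets of the junction of the facet `f` -/
def Jn (R : Core1 P) (f g : P.Facet) : Prop := ¬ R.core g ∧ ∀ Q, R.QJ Q → (Q f ↔ Q g)

/-- the data of a certificate of one junction -/
structure KD (P : GridSolid) where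
  can : P.Facet → P.FSt
  kv : P.FSt → Prop
  ke : P.FSt → Prop
  kf : P.Facet → Prop
  lam : P.FSt → Ln
  nu : P.FSt → Ln
  lin : P.FSt → Ln
  lout : P.FSt → Ln
  /-- the leaning facets, their places, and the columns that hang on the southern neighbour, see
  `KC` and `SupK` -/
  Le : P.Facet → Prop
  Pl : Bool → ℕ → P.FSt → Prop
  Hg : Bool → P.FSt → Prop

/-- the values are invariant in the junction -/
structure KD.Inv (D : KD P) (R : Core1 P) (J : P.Facet → Prop) (cv : P.FSt → Prop) : Prop where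
  /-- across an edge, around a vertex of `D` -/
  x : ∀ s : P.FSt, J s.facet → J s.stE.facet → D.kv s → ¬ D.ke s → (cv s ↔ cv s.stE.rL)
  /-- along an edge of `D` -/
  e : ∀ s : P.FSt, J s.facet → ¬ D.kf s.facet → D.ke s → (cv s ↔ cv s.rR)
  /-- the two feet of a rim -/
  cl : ∀ a b, R.Rim a → J (jf a) → pE.SameCycle a b → St D.kv D.ke a → En D.kv D.ke b →
    (cv (pN.symm a).rL ↔ cv (pN.symm b))

open Classical in
/-- A certificate of the junction `J` with the data `D`. -/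
structure KL (R : Core1 P) (tr ac : P.FSt → Prop) (J : P.Facet → Prop) (D : KD P) : Prop where
  can_facet : ∀ f, J f → (D.can f).facet = f
  kv_rot : ∀ s : P.FSt, J s.facet → J s.stE.facet → (D.kv s.stE.rL ↔ D.kv s)
  ke_rev : ∀ s : P.FSt, J s.facet → J s.stE.facet → (D.ke s.stE.r2 ↔ D.ke s)
  ke_kv : ∀ s : P.FSt, J s.facet → D.ke s → D.kv s ∧ D.kv s.rR
  kf_ke : ∀ s : P.FSt, J s.facet → D.kf s.facet → D.ke s
  cmp : ∀ s : P.FSt, J s.facet → J s.stE.facet → D.kv s → ¬ D.ke s →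
    ((D.can s.facet = s ∨ D.can s.facet = s.r2) ∧
      (D.can s.stE.facet = s.stE ∨ D.can s.stE.facet = s.stE.r2)) ∨
    (D.can s.facet = s.rR ∧ D.can s.stE.facet = s.stE.rR) ∨
    (D.can s.facet = s.rL ∧ D.can s.stE.facet = s.stE.rL)
  cNE : ∀ t : P.FSt, J t.facet → ¬ D.kf t.facet → (D.can t.facet = t ∨ D.can t.facet = t.r2) →
    (D.ke t → D.ke t.rL → D.lam t = Ln.s) ∧
    (D.ke t → ¬ D.ke t.rL → D.nu t.rL.stE.r2 = D.lam t ∧ D.lam t ≠ Ln.z) ∧
    (¬ D.ke t → D.kv t → ¬ D.ke t.rL → D.nu t.rL.stE.r2 = Ln.s)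
  cSE : ∀ t : P.FSt, J t.facet → ¬ D.kf t.facet → (D.can t.facet = t ∨ D.can t.facet = t.r2) →
    (D.ke t → D.ke t.rR → D.lam t = Ln.n) ∧
    (D.ke t → ¬ D.ke t.rR → D.nu t.rR = D.lam t ∧ D.lam t ≠ Ln.z) ∧
    (¬ D.ke t → D.kv t.rR → ¬ D.ke t.rR → D.nu t.rR = Ln.n)
  lin_E : ∀ r, R.Rim r → J (jf r) → tr r → D.lin r.stE = D.lin r
  lout_E : ∀ r, R.Rim r → J (jf r) → tr r → D.lout r.stE = D.lout r
  adm : ∀ r, R.Rim r → J (jf r) → tr r →
    ¬ (D.lin r = Ln.n ∧ D.lout r = Ln.s) ∧ ¬ (D.lin r = Ln.s ∧ D.lout r = Ln.n)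
  cut_lab : ∀ r, R.Rim r → J (jf r) → ¬ tr r → D.lin r = Ln.n ∧ D.lout r = Ln.s
  st_ac : ∀ r, R.Rim r → J (jf r) → St D.kv D.ke r → ac r
  en_ac : ∀ r, R.Rim r → J (jf r) → En D.kv D.ke r → ac r
  st_ex : ∀ r, R.Rim r → J (jf r) → ac r → ∃! a, pE.SameCycle r a ∧ St D.kv D.ke a
  en_ex : ∀ r, R.Rim r → J (jf r) → ac r → ∃! a, pE.SameCycle r a ∧ En D.kv D.ke a
  /-- the arc of a cut rim is a single vertex -/
  cut_arc : ∀ r, R.Rim r → J (jf r) → ¬ tr r → En D.kv D.ke r → St D.kv D.ke r.stE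
  /-- the labels `(0,+)` and `(-,0)`: the arc is not a single vertex -/
  arc : ∀ r, R.Rim r → J (jf r) → tr r →
    (D.lin r = Ln.z ∧ D.lout r = Ln.n) ∨ (D.lin r = Ln.s ∧ D.lout r = Ln.z) →
    En D.kv D.ke r → D.ke (pN.symm r.stE).rL
  st_lab : ∀ r, R.Rim r → J (jf r) → St D.kv D.ke r →
    if D.lin r = Ln.z then Turned D.can r
    else (D.can (pN.symm r).facet = pN.symm r ∨ D.can (pN.symm r).facet = (pN.symm r).r2) ∧
      D.nu (pN.symm r).rL = D.lin r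
  en_lab : ∀ r, R.Rim r → J (jf r) → En D.kv D.ke r →
    if D.lout r = Ln.z then Turned D.can r
    else (D.can (pN.symm r).facet = pN.symm r ∨ D.can (pN.symm r).facet = (pN.symm r).r2) ∧
      D.nu (pN.symm r).rL.stE.r2 = D.lout r
  tur : ∀ r, R.Rim r → J (jf r) → Turned D.can r →
    (∀ j, LitK D.kv D.ke tr D.lin D.lout r j) ∨
    (tr r ∧ ∃ z : ℤ, (∀ y ∈ Set.uIcc 0 z, Turned D.can ((pE ^ y) r) ∧
        ¬ Land D.kv D.ke D.lin D.lout ((pE ^ y) r)) ∧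
      ((St D.kv D.ke ((pE ^ z) r) ∧ D.lin r = Ln.z) ∨
        (En D.kv D.ke ((pE ^ z) r) ∧ D.lout r = Ln.z)))
  Le_J : ∀ f, D.Le f → J f
  /-- there is no strand in a leaning facet -/
  Le_no : ∀ s : P.FSt, D.Le s.facet → D.kf s.facet ∨ ¬ D.kv s
  Le_rim : ∀ r, R.Rim r → ¬ D.Le (jf r)
  Le_cut : ∀ f, D.Le f → ∃ s : P.FSt, J s.facet ∧ D.kv s ∧ ¬ D.ke s ∧ ¬ D.ke s.rL
  Pl_J : ∀ S n g, D.Pl S n g → J g.facet ∧ J ((pN ^ n) g).facet
  Pl_uniq : ∀ S n g S' n' g', D.Pl S n g → D.Pl S' n' g' →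
    ((pN ^ n) g).facet = ((pN ^ n') g').facet → D.Le ((pN ^ n) g).facet →
    S = S' ∧ n = n' ∧ g = g'
  Hg_nc : ∀ E s, D.Hg E s → ¬ D.Hg (!E) s.r2
  lean : ∀ f, D.Le f → ∃ S E n g, 0 < n ∧ ((pN ^ n) g).facet = f ∧
    SupK (Act D.can) D.kv D.ke D.kf J D.Le D.Pl D.Hg S E n g
  /-- every line of a facet that is not leaning reaches the curve or a lit line of a rim -/
  cov : ∀ f, J f → ¬ D.Le f → ∀ j : VL, ∃ z : ℤ,
    (∀ y ∈ Set.uIcc 0 z, y ≠ z → ∃ g, J g ∧ ¬ D.Le g ∧ (pN ^ y) (D.can f) = D.can g) ∧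
    ((∃ g, J g ∧ ¬ D.kf g ∧ (pN ^ z) (D.can f) = D.can g ∧ khit D.kv D.ke (D.can g) j) ∨
     (∃ r j', ((0 < z ∧ (pN ^ z) (D.can f) = r ∧ j' = j) ∨
        (z < 0 ∧ (pN ^ z) (D.can f) = r.r2 ∧ j' = j.flip)) ∧ R.Rim r ∧
      LitK D.kv D.ke tr D.lin D.lout r j'))
  /-- the closed-up junction is a closed curve -/
  conn : ∀ cv, D.Inv R J cv → ∃ q : Prop,
    ∀ s : P.FSt, J s.facet → ¬ D.kf s.facet → D.kv s → (cv s ↔ q)

/-! ## Rims and junctions -/

section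

variable {R : Core1 P}

lemma IsV.E {s : P.FSt} (h : IsV s) : IsV s.stE := (IsV_stE s).2 h

namespace Core1

lemma Rim.jE {r : P.FSt} (h : R.Rim r) : R.Rim r.stE := ⟨IsV.E h.1, (R.E r h.1).2 h.2⟩

lemma Rim.jr2 {r : P.FSt} (h : R.Rim r) : R.Rim r.r2 :=
  ⟨(IsV_r2 r).2 h.1, by rw [FSt.facet_r2]; exact h.2⟩

lemma Rim.jpow {r : P.FSt} (h : R.Rim r) (n : ℕ) : R.Rim ((pE ^ n) r) := by
  induction n with
  | zero => exact h
  | succ n ih =>
    rw [pow_succ', Equiv.Perm.mul_apply]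
    exact Rim.jE ih

lemma Rim.cyc {r s : P.FSt} (h : R.Rim r) (hs : pE.SameCycle r s) : R.Rim s := by
  obtain ⟨n, hn⟩ := hs.exists_nat_pow_eq
  rw [← hn]
  exact Rim.jpow h n

/-- the facet below a rim state is not core, its state is vertical -/
lemma Rim.below {r : P.FSt} (h : R.Rim r) : ¬ R.core (pN.symm r).facet ∧ IsV (pN.symm r) := by
  rcases U_or h.1 with h1 | h1
  · have e := pN_symm_stN r
    have h2 := R.S (pN.symm r) (by rw [e]; exact h1) (by rw [e]; exact h.2)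
    exact ⟨h2.2, IsV_of_U h2.1⟩
  · have h2 := R.N r.r2 h1 (by rw [FSt.facet_r2]; exact h.2)
    rw [pN_symm_apply, FSt.facet_r2, IsV_r2]
    exact ⟨h2.2, IsV_of_U h2.1⟩

lemma Rim.jf {r : P.FSt} (h : R.Rim r) : ¬ R.core (jf r) := h.below.1

/-- the squares commute for both vertical directions -/
lemma commD {s : P.FSt} (h : IsU s.r2) (h0 : R.core s.facet) : s.stE.stN = s.stN.stE := by
  obtain ⟨w, hw⟩ : ∃ w : P.FSt, w.stE = s.r2 := ⟨pE.symm s.r2, pE_symm_stE _⟩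
  have hU : IsU w := by rw [← IsU_stE, hw]; exact h
  have hr : R.core w.facet := by
    rw [← R.E w (IsV_of_U hU), hw, FSt.facet_r2]; exact h0
  obtain ⟨u, hu⟩ : ∃ u : P.FSt, u.stN = w := ⟨pN.symm w, pN_symm_stN _⟩
  have hUu : IsU u := (R.S u (by rw [hu]; exact hU) (by rw [hu]; exact hr)).1
  have hc := R.comm u hUu (Or.inr (by rw [hu]; exact hr))
  rw [hu, hw] at hc
  have h1 : s.stN.r2 = u.stE := by
    have h2 : s.stN.r2.stN = s.r2 := FSt.stN_inv s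
    have h3 : pN s.stN.r2 = pN u.stE := by
      show s.stN.r2.stN = u.stE.stN
      rw [h2, hc]
    exact pN.injective h3
  have h4 : s.stN = u.stE.r2 := by rw [← h1, FSt.r2_r2]
  have h5 : s = w.stE.r2 := by rw [hw, FSt.r2_r2]
  have h6 : s.stE = w.r2 := by rw [h5, FSt.stE_inv]
  rw [h4, FSt.stE_inv, h6, ← hu, FSt.stN_inv]

lemma commJ {s : P.FSt} (h : IsV s) (h0 : R.core s.facet) : s.stE.stN = s.stN.stE := by
  rcases U_or h with h1 | h1
  · exact R.comm s h1 (Or.inl h0)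
  · exact commD h1 h0

lemma symm_E {r : P.FSt} (h : R.Rim r) : (pN.symm r).stE = pN.symm r.stE := by
  symm
  apply pN_symm_of
  rcases U_or h.1 with h1 | h1
  · have e := pN_symm_stN r
    have h2 := R.S (pN.symm r) (by rw [e]; exact h1) (by rw [e]; exact h.2)
    have hc := R.comm _ h2.1 (Or.inr (by rw [e]; exact h.2))
    rw [e] at hc
    exact hc
  · obtain ⟨u, hu⟩ : ∃ u : P.FSt, u.stE = r.r2 := ⟨pE.symm r.r2, pE_symm_stE _⟩
    have hU : IsU u := by rw [← IsU_stE, hu]; exact h1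
    have hr : R.core u.facet := by
      rw [← R.E u (IsV_of_U hU), hu, FSt.facet_r2]; exact h.2
    have hc := R.comm u hU (Or.inl hr)
    rw [hu] at hc
    -- `u.r2 = r.stE`
    have e1 : r.stE = u.r2 := by
      have e3 : r = u.stE.r2 := by rw [hu, FSt.r2_r2]
      rw [e3]; exact FSt.stE_inv u
    have e2 : pN.symm r = r.r2.stN.r2 := rfl
    rw [e2, hc, FSt.stE_inv, FSt.stN_inv, e1]

lemma QJ.jjf_E {Q : P.Facet → Prop} (hQ : R.QJ Q) {r : P.FSt} (h : R.Rim r) :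
    Q (Core1.jf r.stE) ↔ Q (Core1.jf r) := by
  have h1 := hQ (pN.symm r) h.below.1 (by rw [symm_E h]; exact (Rim.jE h).below.1)
  rw [symm_E h] at h1
  exact h1.symm

lemma QJ.jjf {Q : P.Facet → Prop} (hQ : R.QJ Q) {r s : P.FSt} (h : R.Rim r)
    (hs : pE.SameCycle r s) : Q (Core1.jf s) ↔ Q (Core1.jf r) := by
  obtain ⟨n, hn⟩ := hs.exists_nat_pow_eq
  rw [← hn]
  clear hn hs
  induction n with
  | zero => exact Iff.rfl
  | succ n ih =>
    rw [pow_succ', Equiv.Perm.mul_apply]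
    exact (QJ.jjf_E hQ (Rim.jpow h n)).trans ih

/-- the other rims of the bands -/
lemma r2_cycJ {r s : P.FSt} (hs : pE.SameCycle r s) : pE.SameCycle r.r2 s.r2 := by
  obtain ⟨n, hn⟩ := hs.exists_nat_pow_eq
  rw [← hn]
  clear hn hs
  induction n with
  | zero => exact Equiv.Perm.SameCycle.refl _ _
  | succ n ih =>
    rw [pow_succ', Equiv.Perm.mul_apply]
    refine ih.trans ?_
    have h2 : pE ((pE ^ n) r) = ((pE ^ n) r).stE := rfl
    rw [h2]
    refine ⟨-1, ?_⟩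
    rw [zpow_neg_one]
    have h3 : ((pE ^ n) r).stE.r2.stE = ((pE ^ n) r).r2 := FSt.stE_inv _
    rw [Equiv.Perm.inv_eq_iff_eq]
    exact h3.symm

end Core1

lemma Jn.refl {f : P.Facet} (h : ¬ R.core f) : Jn R f f := ⟨h, fun _ _ => Iff.rfl⟩

lemma Jn.eq {f g : P.Facet} (h : Jn R f g) : Jn R f = Jn R g := by
  funext u
  apply propext
  constructor
  · rintro ⟨h1, h2⟩
    exact ⟨h1, fun Q hQ => (h.2 Q hQ).symm.trans (h2 Q hQ)⟩
  · rintro ⟨h1, h2⟩
    exact ⟨h1, fun Q hQ => (h.2 Q hQ).trans (h2 Q hQ)⟩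

lemma Jn.trans {f g u : P.Facet} (h : Jn R f g) (h' : Jn R g u) : Jn R f u := by
  rw [h.eq]; exact h'

lemma Jn.symm {f g : P.Facet} (hf : ¬ R.core f) (h : Jn R f g) : Jn R g f :=
  ⟨hf, fun Q hQ => (h.2 Q hQ).symm⟩

lemma Jn.E {s : P.FSt} (h0 : ¬ R.core s.facet) (h1 : ¬ R.core s.stE.facet) :
    Jn R s.facet s.stE.facet := ⟨h1, fun _ hQ => hQ s h0 h1⟩

lemma Jn.N {s : P.FSt} (h0 : ¬ R.core s.facet) (h1 : ¬ R.core s.stN.facet) :
    Jn R s.facet s.stN.facet := Jn.E (R := R) (s := s.rL) h0 h1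

lemma Jn.cyc {r s : P.FSt} (h : R.Rim r) (hs : pE.SameCycle r s) :
    Jn R (jf r) (jf s) :=
  ⟨(h.cyc hs).jf, fun _ hQ => (Core1.QJ.jjf hQ h hs).symm⟩

end

end Pool.Agent.MP42K
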