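import Pool.Agent.MP42.K.SupP

/-!
# The leaning facets in the refinement by 7: fields of `QX`
-/

set_option autoImplicit false
set_option linter.unusedSectionVars false

namespace Pool.Agent.MP42K

open Pool.Agent.Helper55.UNF Pool.Agent.Helper55.UNF.GridSolid Pool.Agent.MP42G
open Pool.Agent.MP42H Pool.Agent.MP42X Pool.Agent.MP42R

variable {P : GridSolid}

namespace KC0

variable {C : KC0 P}

/-- the leaning facets of the refinement -/
def LeF (C : KC0 P) (F : (P.refine 7 h7).Facet) : Prop := C.Le (cf F)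

lemma LeF_core {F : (P.refine 7 h7).Facet} (h : C.LeF F) : ¬ C.core (cf F) := C.Le_core _ h

lemma LeF_no {F : (P.refine 7 h7).Facet} (h : C.LeF F) :
    C.wF F = false ∧ C.eF F = false ∧ C.lsF F = Ln.z ∧ C.lnF F = Ln.z := by
  classical
  obtain ⟨s, i, j, hs, hi, hj, -, rfl, h5⟩ := C.ex F
  have hcor : ¬ C.core s.facet := by
    have := C.Le_core _ h
    rwa [h5] at this
  unfold LeF at h
  rw [h5] at h
  rw [wF_pt hs hi hj, eF_pt hs hi hj, lsF_pt hs hi hj, lnF_pt hs hi hj, C.sW_eq s hi hj,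
    C.sS_eq s hi hj]
  unfold sE sN
  by_cases hk : C.kf s.facet
  · simp [hk]
  · have n1 : ¬ C.kv s := (C.Le_no s h).resolve_left hk
    have n2 : ¬ C.kv s.rL := (C.Le_no s.rL h).resolve_left hk
    have n3 : ¬ C.kv s.r2 := (C.Le_no s.r2 h).resolve_left hk
    have n4 : ¬ C.kv s.rR := (C.Le_no s.rR h).resolve_left hk
    have m1 : ¬ C.ke s := fun h => n1 (C.ke_kv s hcor h).1
    have m2 : ¬ C.ke s.rL := fun h => n2 (C.ke_kv s.rL hcor h).1
    have m3 : ¬ C.ke s.r2 := fun h => n3 (C.ke_kv s.r2 hcor h).1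
    have m4 : ¬ C.ke s.rR := fun h => n4 (C.ke_kv s.rR hcor h).1
    simp [n1, n2, n3, n4, m1, m2, m3, m4]

lemma LeF_rim {ρ : (P.refine 7 h7).FSt} (h : C.toRows7.Rim ρ) : ¬ C.LeF (Rows7.jf ρ) := by
  obtain ⟨r, i, hi, hr, rfl⟩ := C.toCore1.exists_rim_pt h
  unfold LeF Rows7.jf
  rw [pNs_pt0, cf_pt]
  exact C.Le_rim r hr

theorem leanF {F : (P.refine 7 h7).Facet} (h : C.LeF F) :
    ∃ (g : (P.refine 7 h7).FSt) (E : Bool) (n : ℕ), 0 < n ∧ ((pN ^ n) g).facet = F ∧
      SupQ C.canF C.wF C.eF C.JF C.LeF (PlF C.Pl) (C.KF C.Hg) E n g := by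
  obtain ⟨S, E, n, g, hn, h1, h2⟩ := C.lean _ h
  obtain ⟨i, hi, j, hj, e⟩ := exists_ptF ((pN ^ n) g) F h1.symm
  refine ⟨pt g i (jb S), E, 7 * n + j - jb S, ?_, ?_, ?_⟩
  · have := jb_le S
    rcases Nat.eq_zero_or_pos j with rfl | h0
    · omega
    · omega
  · rw [fin_pt hn hj g hi]; exact e.symm
  · refine (sup_pt hn h2 hj).2 ?_ i hi
    rw [h1]; exact h

/-- There is a letter next to a corner in `D` whose two sides are not in `D`. -/
lemma exists_letter {s : P.FSt} (h0 : ¬ C.core s.facet) (h1 : C.kv s) (h2 : ¬ C.ke s)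
    (h3 : ¬ C.ke s.rL) : ∃ F : (P.refine 7 h7).Facet, ¬ C.core (cf F) ∧
      (C.lnF F ≠ Ln.z ∨ C.lsF F ≠ Ln.z) := by
  classical
  have hk : ¬ C.kf s.facet := fun h => h2 (C.kf_ke s h0 h)
  have key : ∀ t : P.FSt, t.facet = s.facet → Act C.can t →
      (∀ i ≤ 6, ∀ j ≤ 6, C.sN t i j = Ln.z ∧ C.sS t i j = Ln.z) ∨
      ∃ F : (P.refine 7 h7).Facet, ¬ C.core (cf F) ∧ (C.lnF F ≠ Ln.z ∨ C.lsF F ≠ Ln.z) := by
    intro t ht ha
    by_cases h : ∀ i ≤ 6, ∀ j ≤ 6, C.sN t i j = Ln.z ∧ C.sS t i j = Ln.z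
    · exact Or.inl h
    · right
      push Not at h
      obtain ⟨i, hi, j, hj, h⟩ := h
      refine ⟨(pt t i j).facet, by rw [cf_pt, ht]; exact h0, ?_⟩
      by_contra hc
      push Not at hc
      obtain ⟨c1, c2⟩ := hc
      rcases ha with ha | ha
      · rw [lnF_pt ha hi hj] at c1
        rw [lsF_pt ha hi hj] at c2
        exact h c1 c2
      · have h' : C.can t.r2.facet = t.r2 := ha
        have e : (pt t i j).facet = (pt t.r2 (6 - i) (6 - j)).facet := by
          rw [← pt_r2, FSt.facet_r2]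
        rw [e, lnF_pt h' (by omega) (by omega)] at c1
        rw [e, lsF_pt h' (by omega) (by omega)] at c2
        have e3 : C.sS t.r2 (6 - i) (6 - j) = C.sN t i j := by
          unfold sS
          rw [FSt.r2_r2]
          congr 1 <;> omega
        have e4 : C.sN t.r2 (6 - i) (6 - j) = C.sS t i j := rfl
        rw [e3] at c2
        rw [e4] at c1
        exact h c2 c1
  rcases C.straight_or s with h4 | h4
  · rcases key s rfl h4 with h5 | h5
    · exfalso
      have h6 := (h5 6 le_rfl 6 le_rfl).1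
      have h7 := (C.cNE s h0 hk h4).2.2 h2 h1 h3
      unfold sN at h6
      rw [if_neg hk, if_pos rfl, if_pos rfl, if_pos ⟨h1, h3⟩, h7] at h6
      exact absurd h6 (by decide)
    · exact h5
  · have h4' : Act C.can s.rL := by
      rcases h4 with h | h
      · exact Or.inl h
      · exact Or.inr (by rw [FSt.rL_r2]; exact h)
    rcases key s.rL rfl h4' with h5 | h5
    · exfalso
      have h6 := (h5 6 le_rfl 0 (by omega)).2
      have h7 := (C.cSE s.rL h0 hk h4').2.2 h3 (by rw [FSt.rL_rR]; exact h1)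
        (by rw [FSt.rL_rR]; exact h2)
      rw [C.sS_eq s.rL le_rfl (by omega), if_neg (show ¬ C.kf s.rL.facet from hk),
        if_neg (by decide), if_pos rfl, if_pos rfl, FSt.rL_rR, if_pos ⟨h1, h2⟩] at h6
      rw [FSt.rL_rR] at h7
      rw [h7] at h6
      exact absurd h6 (by decide)
    · exact h5

end KC0

end Pool.Agent.MP42K
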