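import Pool.Agent.MP42.K.Defs
import Pool.Agent.MP42.G.Flags

/-!
# The parts of the facets in the refinement by 7

`pt s i j`: the state of the part `(i, j)` (column `i`, row `j`, both from `0` to `6`) of the facet
`s.facet` in the frame `s`.
-/

set_option autoImplicit false
set_option linter.unusedSectionVars false

namespace Pool.Agent.MP42K

open Pool.Agent.Helper55.UNF Pool.Agent.Helper55.UNF.GridSolid Pool.Agent.MP42G
open Pool.Agent.MP42H Pool.Agent.MP42X Pool.Agent.MP42R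

variable {P : GridSolid}

lemma h7 : 0 < 7 := by norm_num

/-- the part `(i, j)` of the facet of `s` in the frame `s` -/
def pt (s : P.FSt) (i j : ℕ) : (P.refine 7 h7).FSt :=
  sub h7 s (min i 6) (min j 6) (by omega) (by omega)

lemma pt_congr {s t : P.FSt} {i j i' j' : ℕ} (h : s = t) (hi : i = i') (hj : j = j') :
    pt s i j = pt t i' j' := by subst h hi hj; rfl

lemma pt_sub (s : P.FSt) {i j : ℕ} (hi : i < 7) (hj : j < 7) : pt s i j = sub h7 s i j hi hj :=
  sub_congr _ _ rfl (by omega) (by omega)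

@[simp] lemma pt_r2 (s : P.FSt) (i j : ℕ) : (pt s i j).r2 = pt s.r2 (6 - i) (6 - j) := by
  unfold pt
  rw [sub_r2]
  exact sub_congr _ _ rfl (by omega) (by omega)

@[simp] lemma pt_rL (s : P.FSt) (i j : ℕ) : (pt s i j).rL = pt s.rL j (6 - i) := by
  unfold pt
  rw [sub_rL]
  exact sub_congr _ _ rfl (by omega) (by omega)

@[simp] lemma pt_rR (s : P.FSt) (i j : ℕ) : (pt s i j).rR = pt s.rR (6 - j) i := by
  unfold pt
  rw [sub_rR]
  exact sub_congr _ _ rfl (by omega) (by omega)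

lemma pt_stE (s : P.FSt) {i : ℕ} (j : ℕ) (hi : i < 6) : (pt s i j).stE = pt s (i + 1) j := by
  unfold pt
  rw [sub_congr (s := s) (t := s) (x' := i) (y' := min j 6) _ _ rfl (by omega) rfl,
    sub_stE_mid s (by omega)]
  exact sub_congr _ _ rfl (by omega) rfl

lemma pt_stE6 (s : P.FSt) (j : ℕ) : (pt s 6 j).stE = pt s.stE 0 j := by
  unfold pt
  rw [sub_congr (s := s) (t := s) (x' := 7 - 1) (y' := min j 6) _ _ rfl (by omega) rfl,
    sub_stE_end s]
  exact sub_congr _ _ rfl (by omega) rfl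

lemma pt_stN (s : P.FSt) (i : ℕ) {j : ℕ} (hj : j < 6) : (pt s i j).stN = pt s i (j + 1) := by
  unfold pt
  rw [sub_congr (s := s) (t := s) (x' := min i 6) (y' := j) _ _ rfl rfl (by omega),
    sub_stN_mid s _ (by omega)]
  exact sub_congr _ _ rfl rfl (by omega)

lemma pt_stN6 (s : P.FSt) (i : ℕ) : (pt s i 6).stN = pt s.stN i 0 := by
  unfold pt
  rw [sub_congr (s := s) (t := s) (x' := min i 6) (y' := 7 - 1) _ _ rfl rfl (by omega),
    sub_stN_end s]
  exact sub_congr _ _ rfl rfl (by omega)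

lemma pN_pt (s : P.FSt) (i : ℕ) {j : ℕ} (hj : j < 6) : pN (pt s i j) = pt s i (j + 1) :=
  pt_stN s i hj

lemma pN_pt6 (s : P.FSt) (i : ℕ) : pN (pt s i 6) = pt (pN s) i 0 := pt_stN6 s i

lemma pE_pt (s : P.FSt) {i : ℕ} (j : ℕ) (hi : i < 6) : pE (pt s i j) = pt s (i + 1) j :=
  pt_stE s j hi

lemma pE_pt6 (s : P.FSt) (j : ℕ) : pE (pt s 6 j) = pt (pE s) 0 j := pt_stE6 s j

lemma pNs_pt (s : P.FSt) (i : ℕ) {j : ℕ} (hj : j < 6) : pN.symm (pt s i (j + 1)) = pt s i j := by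
  rw [Equiv.symm_apply_eq, pN_pt s i hj]

lemma pNs_pt0 (s : P.FSt) (i : ℕ) : pN.symm (pt s i 0) = pt (pN.symm s) i 6 := by
  rw [Equiv.symm_apply_eq, pN_pt6]; simp

lemma pEs_pt (s : P.FSt) {i : ℕ} (j : ℕ) (hi : i < 6) : pE.symm (pt s (i + 1) j) = pt s i j := by
  rw [Equiv.symm_apply_eq, pE_pt s j hi]

lemma pEs_pt0 (s : P.FSt) (j : ℕ) : pE.symm (pt s 0 j) = pt (pE.symm s) 6 j := by
  rw [Equiv.symm_apply_eq, pE_pt6]; simp

/-! ## Coordinates -/

/-- the facet of `P` that contains a facet of the refinement -/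
def cf (F : (P.refine 7 h7).Facet) : P.Facet := co h7 F

/-- the column of a part in the frame `s` -/
def px (s : P.FSt) (F : (P.refine 7 h7).Facet) : ℕ := ix 7 s.1.e F.1.1

/-- the row of a part in the frame `s` -/
def py (s : P.FSt) (F : (P.refine 7 h7).Facet) : ℕ := ix 7 s.1.n F.1.1

lemma px_lt (s : P.FSt) (F : (P.refine 7 h7).Facet) : px s F < 7 := ix_lt h7 _ _
lemma py_lt (s : P.FSt) (F : (P.refine 7 h7).Facet) : py s F < 7 := ix_lt h7 _ _

@[simp] lemma cf_pt (s : P.FSt) (i j : ℕ) : cf (pt s i j).facet = s.facet := by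
  unfold pt cf; rw [co_sub]

lemma px_pt (s : P.FSt) {i : ℕ} (j : ℕ) (hi : i ≤ 6) : px s (pt s i j).facet = i := by
  unfold px pt
  have h := ix_subC_e s.1 s.2.2 (x := min i 6) (y := min j 6) (k := 7) (by omega) (by omega)
  have e : min i 6 = i := by omega
  rw [e] at h
  convert h using 2
  show subC 7 s.1 (min i 6) (min j 6) = _
  rw [e]

lemma py_pt (s : P.FSt) (i : ℕ) {j : ℕ} (hj : j ≤ 6) : py s (pt s i j).facet = j := by
  unfold py pt
  have h := ix_subC_n s.1 s.2.2 (x := min i 6) (y := min j 6) (k := 7) (by omega) (by omega)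
  have e : min j 6 = j := by omega
  rw [e] at h
  convert h using 2
  show subC 7 s.1 (min i 6) (min j 6) = _
  rw [e]

/-- every facet of the refinement is a part -/
lemma pt_px (s : P.FSt) (F : (P.refine 7 h7).Facet) (h : cf F = s.facet) :
    (pt s (px s F) (py s F)).facet = F := by
  rw [pt_sub s (px_lt s F) (py_lt s F)]
  exact sub_ix h7 s F h

/-- every facet of the refinement is a part -/
lemma exists_ptF (s : P.FSt) (F : (P.refine 7 h7).Facet) (h : cf F = s.facet) :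
    ∃ i ≤ 6, ∃ j ≤ 6, F = (pt s i j).facet :=
  ⟨px s F, by have := px_lt s F; omega, py s F, by have := py_lt s F; omega, (pt_px s F h).symm⟩

lemma exists_stF (f : P.Facet) : ∃ s : P.FSt, s.facet = f := by
  obtain ⟨⟨c, d⟩, hf⟩ := f
  by_cases h : d.1 = 0
  · exact ⟨⟨⟨c, d, (1, true)⟩, hf, by show d.1 ≠ (1 : Fin 3); rw [h]; decide⟩, rfl⟩
  · exact ⟨⟨⟨c, d, (0, true)⟩, hf, h⟩, rfl⟩

lemma exists_ptS (t : (P.refine 7 h7).FSt) : ∃ (s : P.FSt) (i j : ℕ), i ≤ 6 ∧ j ≤ 6 ∧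
    t = pt s i j := by
  obtain ⟨s, hs⟩ := exists_stF (cf t.facet)
  obtain ⟨i, hi, j, hj, h⟩ := exists_ptF s t.facet hs.symm
  rcases rot4 h with h | h | h | h
  · exact ⟨_, _, _, hi, hj, h⟩
  · rw [pt_r2] at h
    exact ⟨_, _, _, by omega, by omega, h⟩
  · rw [pt_rR] at h
    exact ⟨_, _, _, by omega, by omega, h⟩
  · rw [pt_rL] at h
    exact ⟨_, _, _, by omega, by omega, h⟩

lemma st_fe1 {s t : P.FSt} (h1 : s.facet = t.facet) (h2 : s.1.e = t.1.e) : s = t := by
  have h3 : (s.1.c, s.1.d) = (t.1.c, t.1.d) := congrArg Subtype.val h1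
  apply FSt.ext'
  obtain ⟨⟨c, d, e⟩, hs⟩ := s
  obtain ⟨⟨c', d', e'⟩, ht⟩ := t
  simp only [Prod.mk.injEq] at h3 h2
  obtain ⟨rfl, rfl⟩ := h3
  subst h2
  rfl

lemma pt_inj {s t : P.FSt} {i j i' j' : ℕ} (h : pt s i j = pt t i' j') (hi : i ≤ 6) (hj : j ≤ 6)
    (hi' : i' ≤ 6) (hj' : j' ≤ 6) : s = t ∧ i = i' ∧ j = j' := by
  have h1 : s = t := by
    apply st_fe1
    · rw [← cf_pt s i j, ← cf_pt t i' j', h]
    · show (pt s i j).1.e = (pt t i' j').1.e
      rw [h]
  subst h1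
  refine ⟨rfl, ?_, ?_⟩
  · rw [← px_pt s j hi, ← px_pt s j' hi', h]
  · rw [← py_pt s i hj, ← py_pt s i' hj', h]

lemma pt_injF {s : P.FSt} {i j i' j' : ℕ} (h : (pt s i j).facet = (pt s i' j').facet) (hi : i ≤ 6)
    (hj : j ≤ 6) (hi' : i' ≤ 6) (hj' : j' ≤ 6) : i = i' ∧ j = j' := by
  refine ⟨?_, ?_⟩
  · rw [← px_pt s j hi, ← px_pt s j' hi', h]
  · rw [← py_pt s i hj, ← py_pt s i' hj', h]

/-! ## Frames -/

/-- the frame of a part of a facet is parallel to the frame of the facet -/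
noncomputable def canP (can : P.Facet → P.FSt) (F : (P.refine 7 h7).Facet) : (P.refine 7 h7).FSt :=
  pt (can (cf F)) (px (can (cf F)) F) (py (can (cf F)) F)

lemma canP_facet {can : P.Facet → P.FSt} (hc : ∀ f, (can f).facet = f)
    (F : (P.refine 7 h7).Facet) : (canP can F).facet = F := pt_px _ F (hc _).symm

lemma canP_pt {can : P.Facet → P.FSt} {s : P.FSt} (h : can s.facet = s) {i j : ℕ} (hi : i ≤ 6)
    (hj : j ≤ 6) : canP can (pt s i j).facet = pt s i j := by
  unfold canP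
  rw [cf_pt, h, px_pt s j hi, py_pt s i hj]

lemma canP_r2 {can : P.Facet → P.FSt} {s : P.FSt} (h : can s.facet = s.r2) {i j : ℕ} (hi : i ≤ 6)
    (hj : j ≤ 6) : canP can (pt s i j).facet = (pt s i j).r2 := by
  have h1 := canP_pt (s := s.r2) (can := can) h (i := 6 - i) (j := 6 - j) (by omega) (by omega)
  rw [← pt_r2] at h1
  exact h1

lemma canP_rL {can : P.Facet → P.FSt} {s : P.FSt} (h : can s.facet = s.rL) {i j : ℕ} (hi : i ≤ 6)
    (hj : j ≤ 6) : canP can (pt s i j).facet = (pt s i j).rL := by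
  have h1 := canP_pt (s := s.rL) (can := can) h (i := j) (j := 6 - i) (by omega) (by omega)
  rw [← pt_rL] at h1
  exact h1

lemma canP_rR {can : P.Facet → P.FSt} {s : P.FSt} (h : can s.facet = s.rR) {i j : ℕ} (hi : i ≤ 6)
    (hj : j ≤ 6) : canP can (pt s i j).facet = (pt s i j).rR := by
  have h1 := canP_pt (s := s.rR) (can := can) h (i := 6 - j) (j := i) (by omega) (by omega)
  rw [← pt_rR] at h1
  exact h1

/-- every facet of the refinement, in the frame `can` -/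
lemma exists_canP {can : P.Facet → P.FSt} (hc : ∀ f, (can f).facet = f)
    (F : (P.refine 7 h7).Facet) : ∃ (s : P.FSt) (i j : ℕ), can s.facet = s ∧ i ≤ 6 ∧ j ≤ 6 ∧
      canP can F = pt s i j ∧ F = (pt s i j).facet ∧ cf F = s.facet := by
  obtain ⟨i, hi, j, hj, h⟩ := exists_ptF (can (cf F)) F (hc _).symm
  have hs : can (can (cf F)).facet = can (cf F) := by rw [hc]
  refine ⟨can (cf F), i, j, hs, hi, hj, ?_, h, (hc _).symm⟩
  conv_lhs => rw [h]
  exact canP_pt hs hi hj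

end Pool.Agent.MP42K
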