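import Pool.Agent.MP42.K.VEx
import Pool.Agent.MP42.K.Part

/-!
# The parts of the facets in the refinement by `2 * c + 1` (helper73)

`pk c s i j`: the state of the part `(i, j)` (column `i`, row `j`, both from `0` to `2 * c`) of the
facet `s.facet` in the frame `s`.
-/

set_option autoImplicit false
set_option linter.unusedSectionVars false

namespace Pool.Agent.MP42K

open Pool.Agent.Helper55.UNF Pool.Agent.Helper55.UNF.GridSolid Pool.Agent.MP42G
open Pool.Agent.MP42H Pool.Agent.MP42X Pool.Agent.MP42R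

variable {P : GridSolid}

lemma hm (c : ℕ) : 0 < 2 * c + 1 := by omega

variable {c : ℕ}

/-- the part `(i, j)` of the facet of `s` in the frame `s` -/
def pk (c : ℕ) (s : P.FSt) (i j : ℕ) : (P.refine (2 * c + 1) (hm c)).FSt :=
  sub (hm c) s (min i (2 * c)) (min j (2 * c)) (by omega) (by omega)

lemma pk_congr {s t : P.FSt} {i j i' j' : ℕ} (h : s = t) (hi : i = i') (hj : j = j') :
    pk c s i j = pk c t i' j' := by subst h hi hj; rfl

lemma pk_sub (s : P.FSt) {i j : ℕ} (hi : i < 2 * c + 1) (hj : j < 2 * c + 1) :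
    pk c s i j = sub (hm c) s i j hi hj :=
  sub_congr _ _ rfl (by omega) (by omega)

@[simp] lemma pk_r2 (s : P.FSt) (i j : ℕ) :
    (pk c s i j).r2 = pk c s.r2 (2 * c - i) (2 * c - j) := by
  unfold pk
  rw [sub_r2]
  exact sub_congr _ _ rfl (by omega) (by omega)

@[simp] lemma pk_rL (s : P.FSt) (i j : ℕ) : (pk c s i j).rL = pk c s.rL j (2 * c - i) := by
  unfold pk
  rw [sub_rL]
  exact sub_congr _ _ rfl (by omega) (by omega)

@[simp] lemma pk_rR (s : P.FSt) (i j : ℕ) : (pk c s i j).rR = pk c s.rR (2 * c - j) i := by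
  unfold pk
  rw [sub_rR]
  exact sub_congr _ _ rfl (by omega) (by omega)

lemma pk_stE (s : P.FSt) {i : ℕ} (j : ℕ) (hi : i < 2 * c) :
    (pk c s i j).stE = pk c s (i + 1) j := by
  unfold pk
  rw [sub_congr (s := s) (t := s) (x' := i) (y' := min j (2 * c)) _ _ rfl (by omega) rfl,
    sub_stE_mid s (by omega)]
  exact sub_congr _ _ rfl (by omega) rfl

lemma pk_stE_end (s : P.FSt) (j : ℕ) : (pk c s (2 * c) j).stE = pk c s.stE 0 j := by
  unfold pk
  rw [sub_congr (s := s) (t := s) (x' := 2 * c + 1 - 1) (y' := min j (2 * c)) _ _ rfl (by omega)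
    rfl, sub_stE_end s]
  exact sub_congr _ _ rfl (by omega) rfl

lemma pk_stN (s : P.FSt) (i : ℕ) {j : ℕ} (hj : j < 2 * c) :
    (pk c s i j).stN = pk c s i (j + 1) := by
  unfold pk
  rw [sub_congr (s := s) (t := s) (x' := min i (2 * c)) (y' := j) _ _ rfl rfl (by omega),
    sub_stN_mid s _ (by omega)]
  exact sub_congr _ _ rfl rfl (by omega)

lemma pk_stN_end (s : P.FSt) (i : ℕ) : (pk c s i (2 * c)).stN = pk c s.stN i 0 := by
  unfold pk
  rw [sub_congr (s := s) (t := s) (x' := min i (2 * c)) (y' := 2 * c + 1 - 1) _ _ rfl rfl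
    (by omega), sub_stN_end s]
  exact sub_congr _ _ rfl rfl (by omega)

lemma pN_pk (s : P.FSt) (i : ℕ) {j : ℕ} (hj : j < 2 * c) :
    pN (pk c s i j) = pk c s i (j + 1) := pk_stN s i hj

lemma pN_pk_end (s : P.FSt) (i : ℕ) : pN (pk c s i (2 * c)) = pk c (pN s) i 0 := pk_stN_end s i

lemma pE_pk (s : P.FSt) {i : ℕ} (j : ℕ) (hi : i < 2 * c) :
    pE (pk c s i j) = pk c s (i + 1) j := pk_stE s j hi

lemma pE_pk_end (s : P.FSt) (j : ℕ) : pE (pk c s (2 * c) j) = pk c (pE s) 0 j := pk_stE_end s j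

lemma pNs_pk (s : P.FSt) (i : ℕ) {j : ℕ} (hj : j < 2 * c) :
    pN.symm (pk c s i (j + 1)) = pk c s i j := by
  rw [Equiv.symm_apply_eq, pN_pk s i hj]

lemma pNs_pk0 (s : P.FSt) (i : ℕ) : pN.symm (pk c s i 0) = pk c (pN.symm s) i (2 * c) := by
  rw [Equiv.symm_apply_eq, pN_pk_end]; simp

lemma pEs_pk (s : P.FSt) {i : ℕ} (j : ℕ) (hi : i < 2 * c) :
    pE.symm (pk c s (i + 1) j) = pk c s i j := by
  rw [Equiv.symm_apply_eq, pE_pk s j hi]

lemma pEs_pk0 (s : P.FSt) (j : ℕ) : pE.symm (pk c s 0 j) = pk c (pE.symm s) (2 * c) j := by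
  rw [Equiv.symm_apply_eq, pE_pk_end]; simp

/-! ## The turn around a vertex, the other side of an edge -/

lemma pk_rot (s : P.FSt) {i : ℕ} (j : ℕ) (hi : i < 2 * c) :
    (pk c s i j).stE.rL = pk c s.rL j (2 * c - (i + 1)) := by
  rw [pk_stE s j hi, pk_rL]

lemma pk_rot_end (s : P.FSt) (j : ℕ) : (pk c s (2 * c) j).stE.rL = pk c s.stE.rL j (2 * c) := by
  rw [pk_stE_end, pk_rL]
  exact pk_congr rfl rfl (by omega)

lemma pk_rev (s : P.FSt) {i : ℕ} (j : ℕ) (hi : i < 2 * c) :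
    (pk c s i j).stE.r2 = pk c s.r2 (2 * c - (i + 1)) (2 * c - j) := by
  rw [pk_stE s j hi, pk_r2]

lemma pk_rev_end (s : P.FSt) (j : ℕ) :
    (pk c s (2 * c) j).stE.r2 = pk c s.stE.r2 (2 * c) (2 * c - j) := by
  rw [pk_stE_end, pk_r2]
  exact pk_congr rfl (by omega) rfl

/-! ## Coordinates -/

/-- the facet of `P` that contains a facet of the refinement -/
def ck (c : ℕ) (F : (P.refine (2 * c + 1) (hm c)).Facet) : P.Facet := co (hm c) F

/-- the column of a part in the frame `s` -/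
def kx (c : ℕ) (s : P.FSt) (F : (P.refine (2 * c + 1) (hm c)).Facet) : ℕ :=
  ix (2 * c + 1) s.1.e F.1.1

/-- the row of a part in the frame `s` -/
def ky (c : ℕ) (s : P.FSt) (F : (P.refine (2 * c + 1) (hm c)).Facet) : ℕ :=
  ix (2 * c + 1) s.1.n F.1.1

lemma kx_lt (s : P.FSt) (F : (P.refine (2 * c + 1) (hm c)).Facet) : kx c s F < 2 * c + 1 :=
  ix_lt (hm c) _ _
lemma ky_lt (s : P.FSt) (F : (P.refine (2 * c + 1) (hm c)).Facet) : ky c s F < 2 * c + 1 :=
  ix_lt (hm c) _ _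

@[simp] lemma ck_pk (s : P.FSt) (i j : ℕ) : ck c (pk c s i j).facet = s.facet := by
  unfold pk ck; rw [co_sub]

lemma kx_pk (s : P.FSt) {i : ℕ} (j : ℕ) (hi : i ≤ 2 * c) : kx c s (pk c s i j).facet = i := by
  unfold kx pk
  have h := ix_subC_e s.1 s.2.2 (x := min i (2 * c)) (y := min j (2 * c)) (k := 2 * c + 1)
    (by omega) (by omega)
  have e : min i (2 * c) = i := by omega
  rw [e] at h
  convert h using 2
  show subC (2 * c + 1) s.1 (min i (2 * c)) (min j (2 * c)) = _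
  rw [e]

lemma ky_pk (s : P.FSt) (i : ℕ) {j : ℕ} (hj : j ≤ 2 * c) : ky c s (pk c s i j).facet = j := by
  unfold ky pk
  have h := ix_subC_n s.1 s.2.2 (x := min i (2 * c)) (y := min j (2 * c)) (k := 2 * c + 1)
    (by omega) (by omega)
  have e : min j (2 * c) = j := by omega
  rw [e] at h
  convert h using 2
  show subC (2 * c + 1) s.1 (min i (2 * c)) (min j (2 * c)) = _
  rw [e]

/-- every facet of the refinement is a part -/
lemma pk_kx (s : P.FSt) (F : (P.refine (2 * c + 1) (hm c)).Facet) (h : ck c F = s.facet) :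
    (pk c s (kx c s F) (ky c s F)).facet = F := by
  rw [pk_sub s (kx_lt s F) (ky_lt s F)]
  exact sub_ix (hm c) s F h

/-- every facet of the refinement is a part -/
lemma exists_pkF (s : P.FSt) (F : (P.refine (2 * c + 1) (hm c)).Facet) (h : ck c F = s.facet) :
    ∃ i ≤ 2 * c, ∃ j ≤ 2 * c, F = (pk c s i j).facet :=
  ⟨kx c s F, by have := kx_lt s F; omega, ky c s F, by have := ky_lt s F; omega,
    (pk_kx s F h).symm⟩

lemma exists_pkS (t : (P.refine (2 * c + 1) (hm c)).FSt) : ∃ (s : P.FSt) (i j : ℕ), i ≤ 2 * c ∧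
    j ≤ 2 * c ∧ t = pk c s i j := by
  obtain ⟨s, hs⟩ := exists_stF (ck c t.facet)
  obtain ⟨i, hi, j, hj, h⟩ := exists_pkF s t.facet hs.symm
  rcases rot4 h with h | h | h | h
  · exact ⟨_, _, _, hi, hj, h⟩
  · rw [pk_r2] at h
    exact ⟨_, _, _, by omega, by omega, h⟩
  · rw [pk_rR] at h
    exact ⟨_, _, _, by omega, by omega, h⟩
  · rw [pk_rL] at h
    exact ⟨_, _, _, by omega, by omega, h⟩

lemma pk_inj {s t : P.FSt} {i j i' j' : ℕ} (h : pk c s i j = pk c t i' j') (hi : i ≤ 2 * c)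
    (hj : j ≤ 2 * c) (hi' : i' ≤ 2 * c) (hj' : j' ≤ 2 * c) : s = t ∧ i = i' ∧ j = j' := by
  have h1 : s = t := by
    apply st_fe1
    · rw [← ck_pk (c := c) s i j, ← ck_pk (c := c) t i' j', h]
    · show (pk c s i j).1.e = (pk c t i' j').1.e
      rw [h]
  subst h1
  refine ⟨rfl, ?_, ?_⟩
  · rw [← kx_pk (c := c) s j hi, ← kx_pk (c := c) s j' hi', h]
  · rw [← ky_pk (c := c) s i hj, ← ky_pk (c := c) s i' hj', h]

lemma pk_injF {s : P.FSt} {i j i' j' : ℕ} (h : (pk c s i j).facet = (pk c s i' j').facet)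
    (hi : i ≤ 2 * c) (hj : j ≤ 2 * c) (hi' : i' ≤ 2 * c) (hj' : j' ≤ 2 * c) :
    i = i' ∧ j = j' := by
  refine ⟨?_, ?_⟩
  · rw [← kx_pk (c := c) s j hi, ← kx_pk (c := c) s j' hi', h]
  · rw [← ky_pk (c := c) s i hj, ← ky_pk (c := c) s i' hj', h]

/-! ## The base of a state of the refinement -/

/-- the state of `P` under a state of the refinement -/
noncomputable def bs (t : (P.refine (2 * c + 1) (hm c)).FSt) : P.FSt :=
  Classical.choose (exists_pkS t)

/-- its column -/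
noncomputable def bi (t : (P.refine (2 * c + 1) (hm c)).FSt) : ℕ :=
  Classical.choose (Classical.choose_spec (exists_pkS t))

/-- its row -/
noncomputable def bj (t : (P.refine (2 * c + 1) (hm c)).FSt) : ℕ :=
  Classical.choose (Classical.choose_spec (Classical.choose_spec (exists_pkS t)))

lemma b_spec (t : (P.refine (2 * c + 1) (hm c)).FSt) :
    bi t ≤ 2 * c ∧ bj t ≤ 2 * c ∧ t = pk c (bs t) (bi t) (bj t) :=
  Classical.choose_spec (Classical.choose_spec (Classical.choose_spec (exists_pkS t)))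

lemma b_pk (s : P.FSt) {i j : ℕ} (hi : i ≤ 2 * c) (hj : j ≤ 2 * c) :
    bs (pk c s i j) = s ∧ bi (pk c s i j) = i ∧ bj (pk c s i j) = j := by
  obtain ⟨h1, h2, h3⟩ := b_spec (pk c s i j)
  obtain ⟨e1, e2, e3⟩ := pk_inj h3 hi hj h1 h2
  exact ⟨e1.symm, e2.symm, e3.symm⟩

/-- a function on the states of the refinement given by a formula -/
noncomputable def lft {α : Sort*} (f : P.FSt → ℕ → ℕ → α)
    (t : (P.refine (2 * c + 1) (hm c)).FSt) : α := f (bs t) (bi t) (bj t)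

lemma lft_pk {α : Sort*} (f : P.FSt → ℕ → ℕ → α) (s : P.FSt) {i j : ℕ} (hi : i ≤ 2 * c)
    (hj : j ≤ 2 * c) : lft f (pk c s i j) = f s i j := by
  obtain ⟨e1, e2, e3⟩ := b_pk s hi hj
  unfold lft
  rw [e1, e2, e3]

/-- a function on the facets of the refinement given by a formula -/
noncomputable def lftF {α : Sort*} (f : P.FSt → ℕ → ℕ → α)
    (F : (P.refine (2 * c + 1) (hm c)).Facet) : α :=
  lft f (Classical.choose (exists_stF F))

lemma lftF_facet {α : Sort*} (f : P.FSt → ℕ → ℕ → α)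
    (hR : ∀ s i j, i ≤ 2 * c → j ≤ 2 * c → f s.rL j (2 * c - i) = f s i j)
    (t : (P.refine (2 * c + 1) (hm c)).FSt) : lftF f t.facet = lft f t := by
  have key : ∀ t : (P.refine (2 * c + 1) (hm c)).FSt, lft f t.rL = lft f t := by
    intro t
    obtain ⟨s, i, j, hi, hj, rfl⟩ := exists_pkS t
    rw [pk_rL, lft_pk f s hi hj, lft_pk f s.rL hj (by omega), hR s i j hi hj]
  have h1 := Classical.choose_spec (exists_stF (P := P.refine (2 * c + 1) (hm c)) t.facet)
  unfold lftF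
  set u := Classical.choose (exists_stF (P := P.refine (2 * c + 1) (hm c)) t.facet) with hu
  rcases rot4 h1 with h | h | h | h
  · rw [h]
  · rw [h, ← FSt.rL_rL, key, key]
  · rw [h]
    have := key t.rR
    rw [FSt.rR_rL] at this
    exact this.symm
  · rw [h, key]

lemma lftF_pk {α : Sort*} (f : P.FSt → ℕ → ℕ → α)
    (hR : ∀ s i j, i ≤ 2 * c → j ≤ 2 * c → f s.rL j (2 * c - i) = f s i j) (s : P.FSt) {i j : ℕ}
    (hi : i ≤ 2 * c) (hj : j ≤ 2 * c) : lftF f (pk c s i j).facet = f s i j := by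
  rw [lftF_facet f hR, lft_pk f s hi hj]

end Pool.Agent.MP42K
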