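import Pool.Agent.MP42.K.Nb
import Pool.Agent.MP42.H.Basic

/-!
# Connectivity of a junction certificate from `Nb`

The closed-up curve of a junction is the boundary of a neighbourhood of `D` in the whole surface
(core facets are white): a value `cv` on the darts outside the core is extended to the core facets
at a rim by its value at the foot of the curve.

* `ext_inv`: the extended value is invariant;
* `conn_local`: local form (one junction `J`, see `KD.Inv`);
* `KC.nb`, `KC.conn_of_nb`: global form.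
-/

set_option autoImplicit false
set_option linter.unusedSectionVars false

namespace Pool.Agent.MP42K

open Pool.Agent.Helper55.UNF Pool.Agent.Helper55.UNF.GridSolid Pool.Agent.MP42G
open Pool.Agent.MP42H Pool.Agent.MP42X Pool.Agent.MP42R

variable {P : GridSolid}

namespace Nb

section

variable (R : Core1 P)

/-- from a facet that is not core to a core facet -/
lemma V_in {s : P.FSt} (h0 : ¬ R.core s.facet) (h1 : R.core s.stE.facet) :
    IsV s.stE.rL := by
  rcases R.V s.stE h1 with h | h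
  · exact absurd ((R.E s ((IsV_stE s).1 h)).1 h1) h0
  · exact h

lemma V_out {s : P.FSt} (h0 : R.core s.facet) (h1 : ¬ R.core s.stE.facet) : ¬ IsV s :=
  fun h => h1 ((R.E s h).2 h0)

lemma V_both {s : P.FSt} (h0 : R.core s.facet) (h1 : R.core s.stE.facet) : IsV s := by
  rcases R.V s h0 with h | h
  · exact h
  · exfalso
    have e : s.rR.stN = s.stE.rR := by
      show s.rR.rL.stE.rR = _
      rw [FSt.rR_rL]
    have h2 : IsV s.rR := by
      rw [← FSt.rL_r2, IsV_r2]; exact h
    rcases U_or h2 with h3 | h3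
    · have := (R.N s.rR h3 (by rw [FSt.facet_rR]; exact h0)).2
      rw [e, FSt.facet_rR] at this
      exact this h1
    · rw [FSt.rR_r2] at h3
      have e2 : pN.symm s.rL = s.stE.rR.r2 := by
        rw [pN_symm_apply, FSt.rL_r2, e]
      have e3 := pN_symm_stN s.rL
      have := (R.S (pN.symm s.rL) (by rw [e3]; exact h3) (by rw [e3]; exact h0)).2
      rw [e2, FSt.facet_r2, FSt.facet_rR] at this
      exact this h1

/-- over an east side that is a rim edge -/
lemma pN_in (s : P.FSt) : pN.symm s.stE.rR = s.rR := by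
  apply pN_symm_of
  show s.rR.rL.stE.rR = _
  rw [FSt.rR_rL]

lemma pN_out (s : P.FSt) : pN.symm s.rL = s.stE.rL := by
  rw [pN_symm_apply, FSt.rL_r2]
  show s.rR.rL.stE.rR.r2 = _
  rw [FSt.rR_rL, FSt.rR_r2]

end

variable {R : Core1 P} (N : Nb P)

/-- the value at the foot of the rim `r` -/
def fv (cv : P.FSt → Prop) (r : P.FSt) : Prop :=
  ∃ b, pE.SameCycle r b ∧ En N.kv N.ke b ∧ cv (pN.symm b)

lemma fv_same (cv : P.FSt → Prop) {r r' : P.FSt} (h : pE.SameCycle r r') :
    N.fv cv r ↔ N.fv cv r' :=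
  ⟨fun ⟨b, h1, h2⟩ => ⟨b, h.symm.trans h1, h2⟩, fun ⟨b, h1, h2⟩ => ⟨b, h.trans h1, h2⟩⟩

open Classical in
/-- the extension of a value to the core facets at the rims -/
noncomputable def ext (R : Core1 P) (cv : P.FSt → Prop) (s : P.FSt) : Prop :=
  if R.core s.facet then (if IsV s then N.fv cv s.r2 else N.fv cv s.rL) else cv s

lemma ext_of_ncore (cv : P.FSt → Prop) {s : P.FSt} (h : ¬ R.core s.facet) :
    N.ext R cv s = cv s := by unfold ext; rw [if_neg h]

/-- `D` lies in the junctions `J` -/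
structure In (N : Nb P) (R : Core1 P) (J : P.Facet → Prop) : Prop where
  nc : ∀ f, J f → ¬ R.core f
  kv : ∀ s : P.FSt, N.kv s → ¬ R.core s.facet → J s.facet
  ke : ∀ s : P.FSt, N.ke s → R.core s.facet → ¬ R.core s.stE.facet
  kf : ∀ f, N.kf f → ¬ R.core f
  st : ∀ a, R.Rim a → J (pN.symm a).facet → St N.kv N.ke a →
    ∃ b, pE.SameCycle a b ∧ En N.kv N.ke b
  en : ∀ a b, R.Rim a → J (pN.symm a).facet → pE.SameCycle a b → En N.kv N.ke a →
    En N.kv N.ke b → a = b

/-- the invariants of the junctions `J` -/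
structure InvJ (N : Nb P) (R : Core1 P) (J : P.Facet → Prop) (cv : P.FSt → Prop) : Prop where
  x : ∀ s : P.FSt, J s.facet → J s.stE.facet → N.kv s → ¬ N.ke s → (cv s ↔ cv s.stE.rL)
  e : ∀ s : P.FSt, J s.facet → ¬ N.kf s.facet → N.ke s → (cv s ↔ cv s.rR)
  cl : ∀ a b, R.Rim a → J (pN.symm a).facet → pE.SameCycle a b → St N.kv N.ke a →
    En N.kv N.ke b → (cv (pN.symm a).rL ↔ cv (pN.symm b))

variable {N}

/-- **The extended value is invariant.** -/
theorem ext_inv {J : P.Facet → Prop} (hI : N.In R J) {cv : P.FSt → Prop} (h : N.InvJ R J cv) :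
    N.Inv (N.ext R cv) := by
  classical
  constructor
  · intro s hk he
    have hk' : N.kv s.stE.rL := (N.kv_rot s).2 hk
    by_cases h0 : R.core s.facet
    · by_cases h1 : R.core s.stE.facet
      · -- both core
        have hV := V_both R h0 h1
        have hV' : IsV s.stE := (IsV_stE s).2 hV
        have e1 : N.ext R cv s = N.fv cv s.r2 := by
          unfold ext; rw [if_pos h0, if_pos hV]
        have e2 : N.ext R cv s.stE.rL = N.fv cv s.stE.r2 := by
          unfold ext
          rw [if_pos (show R.core s.stE.rL.facet from h1), if_neg (not_V_rL' hV'), FSt.rL_rL]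
        rw [e1, e2]
        refine N.fv_same cv ?_
        have h3 : pE s.stE.r2 = s.r2 := FSt.stE_inv s
        rw [← h3]
        exact (Equiv.Perm.sameCycle_apply_left (f := pE)).2 (Equiv.Perm.SameCycle.refl _ _)
      · -- out of the core
        have hV := V_out R h0 h1
        have hV2 : IsV s.rL := (R.V s h0).resolve_left hV
        have e1 : N.ext R cv s = N.fv cv s.rL := by
          unfold ext; rw [if_pos h0, if_neg hV]
        have e2 : N.ext R cv s.stE.rL = cv s.stE.rL := N.ext_of_ncore cv h1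
        have h3 := pN_out s
        have hJ : J s.stE.facet := hI.kv s.stE.rL hk' h1
        have hEn : En N.kv N.ke s.rL := by
          unfold En
          rw [h3, FSt.rL_rL]
          exact ⟨hk', fun h4 => he ((N.ke_rev s).1 h4)⟩
        have hR : R.Rim s.rL := ⟨hV2, h0⟩
        have hJ' : J (pN.symm s.rL).facet := by rw [h3]; exact hJ
        rw [e1, e2]
        constructor
        · rintro ⟨b, hb1, hb2, hb3⟩
          rw [← hI.en s.rL b hR hJ' hb1 hEn hb2, h3] at hb3
          exact hb3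
        · intro h5
          exact ⟨s.rL, Equiv.Perm.SameCycle.refl _ _, hEn, by rw [h3]; exact h5⟩
    · by_cases h1 : R.core s.stE.facet
      · -- into the core
        have hV := V_in R h0 h1
        have e1 : N.ext R cv s = cv s := N.ext_of_ncore cv h0
        have e2 : N.ext R cv s.stE.rL = N.fv cv s.stE.rR := by
          unfold ext
          rw [if_pos (show R.core s.stE.rL.facet from h1), if_pos hV, FSt.rL_r2]
        have h3 := pN_in s
        have hJ : J s.facet := hI.kv s hk h0
        have hSt : St N.kv N.ke s.stE.rR := by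
          unfold St
          rw [h3, FSt.rR_rL]
          exact ⟨hk, he⟩
        have hR : R.Rim s.stE.rR := ⟨by rw [← FSt.rL_r2, IsV_r2]; exact hV, h1⟩
        have hJ' : J (pN.symm s.stE.rR).facet := by rw [h3]; exact hJ
        obtain ⟨b, hb1, hb2⟩ := hI.st _ hR hJ' hSt
        have h4 := h.cl _ b hR hJ' hb1 hSt hb2
        rw [h3, FSt.rR_rL] at h4
        rw [e1, e2]
        constructor
        · intro h5
          exact ⟨b, hb1, hb2, h4.1 h5⟩
        · rintro ⟨b', hb1', hb2', hb3'⟩
          have h6 := h.cl _ b' hR hJ' hb1' hSt hb2'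
          rw [h3, FSt.rR_rL] at h6
          exact h6.2 hb3'
      · rw [N.ext_of_ncore cv h0, N.ext_of_ncore cv (show ¬ R.core s.stE.rL.facet from h1)]
        exact h.x s (hI.kv s hk h0) (hI.kv s.stE.rL hk' h1) hk he
  · intro s hf he
    by_cases h0 : R.core s.facet
    · have h1 := hI.ke s he h0
      have hV := V_out R h0 h1
      have hV2 : IsV s.rR := by
        rw [← FSt.rL_r2, IsV_r2]; exact (R.V s h0).resolve_left hV
      have e1 : N.ext R cv s = N.fv cv s.rL := by
        unfold ext; rw [if_pos h0, if_neg hV]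
      have e2 : N.ext R cv s.rR = N.fv cv s.rL := by
        unfold ext; rw [if_pos (show R.core s.rR.facet from h0), if_pos hV2, FSt.rR_r2]
      rw [e1, e2]
    · rw [N.ext_of_ncore cv h0, N.ext_of_ncore cv (show ¬ R.core s.rR.facet from h0)]
      exact h.e s (hI.kv s (N.ke_kv s he) h0) hf he

/-- values on `J` of darts on one curve -/
theorem eq_of_E {J : P.Facet → Prop} (hI : N.In R J) {cv : P.FSt → Prop} (h : N.InvJ R J cv)
    {s t : P.FSt} (hs : ¬ R.core s.facet) (ht : ¬ R.core t.facet) (hE : N.E s t) :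
    cv s ↔ cv t := by
  have h1 := hE _ (ext_inv hI h)
  rwa [N.ext_of_ncore cv hs, N.ext_of_ncore cv ht] at h1

/-- **Connectivity of one junction.** -/
theorem conn_local {J : P.Facet → Prop} (hI : N.In R J)
    (hE : ∀ s t, N.Dt s → N.Dt t → J s.facet → J t.facet → N.E s t)
    (cv : P.FSt → Prop) (h : N.InvJ R J cv) :
    ∃ q : Prop, ∀ s : P.FSt, J s.facet → ¬ N.kf s.facet → N.kv s → (cv s ↔ q) := by
  by_cases hex : ∃ s : P.FSt, N.Dt s ∧ J s.facet
  · obtain ⟨s0, h0, hJ0⟩ := hex
    refine ⟨cv s0, fun s hJ hf hk => ?_⟩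
    exact eq_of_E hI h (hI.nc _ hJ) (hI.nc _ hJ0) (hE s s0 ⟨hk, hf⟩ h0 hJ hJ0)
  · push Not at hex
    exact ⟨True, fun s hJ hf hk => absurd hJ (hex s ⟨hk, hf⟩)⟩

end Nb

/-! ## The global form -/

namespace KC

variable (C : KC P)

/-- the subcomplex of a certificate -/
def nb : Nb P where
  kv := C.kv
  ke s := C.ke s ∧ ¬ (C.core s.facet ∧ C.core s.stE.facet)
  kf f := C.kf f ∧ ¬ C.core f
  kv_rot := C.kv_rot
  ke_rev s := by
    rw [C.ke_rev, FSt.stE_inv, FSt.facet_r2, FSt.facet_r2]
    tauto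
  ke_kv s h := C.ke_kv s h.1
  kf_ke s h := ⟨C.kf_ke s h.1, fun h' => h.2 h'.1⟩

lemma nb_in : C.nb.In C.toCore1 (fun f => ¬ C.core f) where
  nc _ h := h
  kv _ _ h := h
  ke s h h0 h1 := h.2 ⟨h0, h1⟩
  kf f h := h.2
  st a ha hJ hs := by
    have e : ∀ b, pE.SameCycle a b → (¬ C.core (pN.symm b).facet) := by
      intro b hb
      have hR : C.Rim b := by
        obtain ⟨n, rfl⟩ := hb.exists_nat_pow_eq
        clear hb
        induction n with
        | zero => exact ha
        | succ n ih =>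
          rw [pow_succ', Equiv.Perm.mul_apply]
          exact ⟨(IsV_stE _).2 ih.1, (C.E _ ih.1).2 ih.2⟩
      rcases U_or hR.1 with h1 | h1
      · exact (C.S (pN.symm b) (by rw [pN_symm_stN]; exact h1)
          (by rw [pN_symm_stN]; exact hR.2)).2
      · exact (C.N b.r2 h1 hR.2).2
    have hs' : St C.kv C.ke a := ⟨hs.1, fun h => hs.2 ⟨h, fun h' => hJ h'.1⟩⟩
    obtain ⟨b, ⟨hb1, hb2⟩, -⟩ := C.en_ex a ha (C.st_ac a ha hs')
    exact ⟨b, hb1, hb2.1, fun h => hb2.2 h.1⟩
  en a b ha hJ hab h1 h2 := by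
    have hJb : ¬ C.core (pN.symm b).facet := by
      have hR : C.Rim b := by
        obtain ⟨n, rfl⟩ := hab.exists_nat_pow_eq
        clear hab h2
        induction n with
        | zero => exact ha
        | succ n ih =>
          rw [pow_succ', Equiv.Perm.mul_apply]
          exact ⟨(IsV_stE _).2 ih.1, (C.E _ ih.1).2 ih.2⟩
      rcases U_or hR.1 with h1 | h1
      · exact (C.S (pN.symm b) (by rw [pN_symm_stN]; exact h1)
          (by rw [pN_symm_stN]; exact hR.2)).2
      · exact (C.N b.r2 h1 hR.2).2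
    have h1' : En C.kv C.ke a := ⟨h1.1, fun h => h1.2 ⟨h, fun h' => hJ h'.1⟩⟩
    have h2' : En C.kv C.ke b := ⟨h2.1, fun h => h2.2 ⟨h, fun h' => hJb h'.1⟩⟩
    obtain ⟨c, -, hc⟩ := C.en_ex a ha (C.en_ac a ha h1')
    exact (hc a ⟨Equiv.Perm.SameCycle.refl _ _, h1'⟩).trans (hc b ⟨hab, h2'⟩).symm

lemma inv_nb {cv : P.FSt → Prop} (h : C.Inv cv) :
    C.nb.InvJ C.toCore1 (fun f => ¬ C.core f) cv where
  x s h0 h1 h2 h3 := h.x s h0 h1 h2 fun h4 => h3 ⟨h4, fun h' => h0 h'.1⟩
  e s h0 h1 h2 := h.e s h0 (fun h3 => h1 ⟨h3, h0⟩) h2.1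
  cl a b ha hJ hab h1 h2 := by
    refine h.cl a b ha hab ⟨h1.1, fun h3 => h1.2 ⟨h3, fun h' => hJ h'.1⟩⟩ ⟨h2.1, fun h3 => ?_⟩
    have hJb : ¬ C.core (pN.symm b).facet := by
      have hR : C.Rim b := by
        obtain ⟨n, rfl⟩ := hab.exists_nat_pow_eq
        clear hab h2 h3
        induction n with
        | zero => exact ha
        | succ n ih =>
          rw [pow_succ', Equiv.Perm.mul_apply]
          exact ⟨(IsV_stE _).2 ih.1, (C.E _ ih.1).2 ih.2⟩
      rcases U_or hR.1 with h1 | h1
      · exact (C.S (pN.symm b) (by rw [pN_symm_stN]; exact h1)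
          (by rw [pN_symm_stN]; exact hR.2)).2
      · exact (C.N b.r2 h1 hR.2).2
    exact h2.2 ⟨h3, fun h' => hJb h'.1⟩

/-- **Connectivity**: the darts of a junction are on one curve. -/
theorem conn_of_nb {ι : Type*} (jn : P.Facet → ι)
    (hjn : ∀ s : P.FSt, ¬ C.core s.facet → ¬ C.core s.stE.facet → jn s.facet = jn s.stE.facet)
    (hE : ∀ s t, C.nb.Dt s → C.nb.Dt t → ¬ C.core s.facet → ¬ C.core t.facet →
      jn s.facet = jn t.facet → C.nb.E s t) : C.Conn := by
  intro cv hI
  refine ⟨fun f => ∃ s, C.nb.Dt s ∧ ¬ C.core s.facet ∧ jn s.facet = jn f ∧ cv s, ?_, ?_⟩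
  · intro s h0 h1
    beta_reduce
    rw [hjn s h0 h1]
  · intro s h0 h1 h2
    have hd : C.nb.Dt s := ⟨h2, fun h => h1 h.1⟩
    constructor
    · intro h
      exact ⟨s, hd, h0, rfl, h⟩
    · rintro ⟨t, ht1, ht2, ht3, ht4⟩
      exact (Nb.eq_of_E C.nb_in (C.inv_nb hI) ht2 h0 (hE t s ht1 hd ht2 h0 ht3)).1 ht4

end KC

end Pool.Agent.MP42K
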