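import Pool.Agent.MP42.K.Lift1
import Pool.Agent.MP42.K.Rows
import Pool.Agent.MP42.K.NbCon

/-!
# The lift of a subcomplex to a refinement (helper73)

* `Core1.mid R c`: the middle rows of the core rows in the refinement by `2 * c + 1`;
* `Nb.lift`: the subdivided subcomplex, extended over the new rows between the old rims and the
  middle rows.
-/

set_option autoImplicit false
set_option linter.unusedSectionVars false

namespace Pool.Agent.MP42K

open Pool.Agent.Helper55.UNF Pool.Agent.Helper55.UNF.GridSolid Pool.Agent.MP42G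
open Pool.Agent.MP42H Pool.Agent.MP42X Pool.Agent.MP42R

variable {P : GridSolid}

namespace Core1

variable (R : Core1 P)

lemma core_rL {s : P.FSt} (h : R.core s.facet) : IsV s.rL ↔ ¬ IsV s := by
  constructor
  · intro h1 h2; exact not_V_rL' h2 h1
  · intro h1; exact (R.V s h).resolve_left h1

lemma core_rR {s : P.FSt} (h : R.core s.facet) : IsV s.rR ↔ ¬ IsV s := by
  rw [← R.core_rL h, ← FSt.rL_r2, IsV_r2]

lemma out_ncore {s : P.FSt} (h : R.core s.facet) (hV : ¬ IsV s) : ¬ R.core s.stE.facet :=
  fun h1 => hV (Nb.V_both R h h1)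

lemma in_nV {s : P.FSt} (h : ¬ R.core s.facet) (h1 : R.core s.stE.facet) : ¬ IsV s.stE := by
  have h2 := Nb.V_in R h h1
  intro h3
  exact not_V_rL' h3 h2

/-- the formula for the middle rows -/
def midf (c : ℕ) (s : P.FSt) (i j : ℕ) : Prop :=
  R.core s.facet ∧ ((IsV s ∧ j = c) ∨ (¬ IsV s ∧ i = c))

lemma midf_rL {c : ℕ} (s : P.FSt) (i j : ℕ) (hi : i ≤ 2 * c) (_ : j ≤ 2 * c) :
    R.midf c s.rL j (2 * c - i) = R.midf c s i j := by
  unfold midf
  rw [FSt.facet_rL]
  by_cases h : R.core s.facet
  · rw [R.core_rL h]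
    have e1 : 2 * c - i = c ↔ i = c := by omega
    simp only [h, e1, true_and, not_not]
    by_cases hV : IsV s <;> simp [hV]
  · simp [h]

/-- a facet of the middle rows -/
def midc (c : ℕ) (F : (P.refine (2 * c + 1) (hm c)).Facet) : Prop := lftF (R.midf c) F

lemma midc_pk {c : ℕ} (s : P.FSt) {i j : ℕ} (hi : i ≤ 2 * c) (hj : j ≤ 2 * c) :
    R.midc c (pk c s i j).facet ↔
      (R.core s.facet ∧ ((IsV s ∧ j = c) ∨ (¬ IsV s ∧ i = c))) := by
  unfold midc
  rw [lftF_pk _ R.midf_rL s hi hj]
  exact Iff.rfl

/-- **The middle rows of the core rows.** -/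
def mid (c : ℕ) (hc : 0 < c) : Core1 (P.refine (2 * c + 1) (hm c)) where
  core := R.midc c
  V t ht := by
    obtain ⟨s, i, j, hi, hj, rfl⟩ := exists_pkS t
    rw [R.midc_pk s hi hj] at ht
    exact R.V s ht.1
  E t ht := by
    obtain ⟨s, i, j, hi, hj, rfl⟩ := exists_pkS t
    have hV : IsV s := ht
    by_cases h : i < 2 * c
    · rw [pk_stE s j h, R.midc_pk s hi hj, R.midc_pk s (by omega) hj]
      simp [hV]
    · obtain rfl : i = 2 * c := by omega
      rw [pk_stE_end, R.midc_pk s hi hj, R.midc_pk s.stE (by omega) hj, R.E s hV,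
        IsV_stE]
      simp [hV]
  N t ht h0 := by
    obtain ⟨s, i, j, hi, hj, rfl⟩ := exists_pkS t
    have hU : IsU s := ht
    have hV : IsV s := IsV_of_U hU
    rw [R.midc_pk s hi hj] at h0
    have hj2 : j = c := by
      rcases h0.2 with h | h
      · exact h.2
      · exact absurd hV h.1
    subst hj2
    rw [pk_stN s i (by omega)]
    refine ⟨hU, ?_⟩
    rw [R.midc_pk s hi (by omega)]
    rintro ⟨-, h | h⟩
    · omega
    · exact h.1 hV
  S t ht h0 := by
    obtain ⟨s, i, j, hi, hj, rfl⟩ := exists_pkS t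
    by_cases h : j < 2 * c
    · rw [pk_stN s i h] at ht h0
      have hU : IsU s := ht
      have hV : IsV s := IsV_of_U hU
      rw [R.midc_pk s hi (by omega)] at h0
      refine ⟨hU, ?_⟩
      rw [R.midc_pk s hi hj]
      rintro ⟨-, h1 | h1⟩
      · rcases h0.2 with h2 | h2
        · omega
        · exact h2.1 hV
      · exact h1.1 hV
    · obtain rfl : j = 2 * c := by omega
      rw [pk_stN_end] at ht h0
      have hV : IsV s.stN := IsV_of_U ht
      rw [R.midc_pk s.stN hi (by omega)] at h0
      rcases h0.2 with h2 | h2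
      · omega
      · exact absurd hV h2.1
  comm t ht h0 := by
    obtain ⟨s, i, j, hi, hj, rfl⟩ := exists_pkS t
    have hU : IsU s := ht
    have hV : IsV s := IsV_of_U hU
    by_cases h : j < 2 * c
    · by_cases h' : i < 2 * c
      · rw [pk_stE s j h', pk_stN s _ h, pk_stN s _ h, pk_stE s _ h']
      · obtain rfl : i = 2 * c := by omega
        rw [pk_stE_end, pk_stN _ _ h, pk_stN s _ h, pk_stE_end]
    · obtain rfl : j = 2 * c := by omega
      exfalso
      rcases h0 with h0 | h0
      · rw [R.midc_pk s hi hj] at h0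
        rcases h0.2 with h2 | h2
        · omega
        · exact absurd hV h2.1
      · rw [pk_stN_end, R.midc_pk s.stN hi (by omega)] at h0
        rcases h0.2 with h2 | h2
        · omega
        · have h3 := h2.1
          -- `s` is below a core facet, so it is flat
          have hcs := h0.1
          have h4 : ¬ R.core s.facet ∨ R.core s.facet := (em _).symm
          rcases h4 with h4 | h4
          · -- north of `s`, as east of `s.rL`
            have e : s.rL.stE.rR = s.stN := rfl
            have h5 := R.in_nV (s := s.rL) h4 (by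
              have : s.rL.stE.facet = s.stN.facet := by rw [← e]; rfl
              rw [this]; exact hcs)
            have h6 : IsV s.rL.stE := by
              have h7 : IsV s.stN.rL := (R.core_rL hcs).2 h3
              have e2 : s.stN.rL = s.rL.stE := by rw [← e, FSt.rR_rL]
              rw [← e2]; exact h7
            exact h5 h6
          · exact (R.N s hU h4).2 hcs

lemma mid_core {c : ℕ} {hc : 0 < c} (s : P.FSt) {i j : ℕ} (hi : i ≤ 2 * c) (hj : j ≤ 2 * c) :
    (R.mid c hc).core (pk c s i j).facet ↔
      (R.core s.facet ∧ ((IsV s ∧ j = c) ∨ (¬ IsV s ∧ i = c))) := R.midc_pk s hi hj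

end Core1

/-! ## The lift of a subcomplex -/

namespace Nb

/-- the conditions on the subcomplex at the core -/
structure Ok (N : Nb P) (R : Core1 P) : Prop where
  ke : ∀ s : P.FSt, R.core s.facet → IsV s → ¬ N.ke s
  kf : ∀ f, N.kf f → ¬ R.core f

lemma In.ok {N : Nb P} {R : Core1 P} {J : P.Facet → Prop} (h : N.In R J) : N.Ok R where
  ke s hs hV hk := h.ke s hk hs ((R.E s hV).2 hs)
  kf := h.kf

variable (N : Nb P) (R : Core1 P) (c : ℕ)

lemma kv_rev (s : P.FSt) : N.kv s.stE.r2 ↔ N.kv s.rR := by
  have := N.kv_rot s.stE.r2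
  rw [rev_rot] at this
  exact this.symm

open Classical in
/-- the formula for the vertices -/
noncomputable def kvf (s : P.FSt) (i j : ℕ) : Prop :=
  if R.core s.facet then
    if IsV s then
      if j < c then (if i < 2 * c then N.ke s.rR else N.kv s.rR)
      else (if i < 2 * c then N.ke s.rL else N.kv s)
    else
      if c ≤ i then (if j < 2 * c then N.ke s else N.kv s)
      else (if j < 2 * c then N.ke s.r2 else N.kv s.rL)
  else if i < 2 * c then (if j < 2 * c then N.kf s.facet else N.ke s.rL)
    else (if j < 2 * c then N.ke s else N.kv s)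

open Classical in
/-- the formula for the edges -/
noncomputable def kef (s : P.FSt) (i j : ℕ) : Prop :=
  if R.core s.facet then
    if IsV s then
      if j < c then (if i < 2 * c then N.ke s.rR else N.kv s.rR)
      else if j = c then False
      else (if i < 2 * c then N.ke s.rL else N.kv s)
    else (if c ≤ i then N.ke s else N.ke s.r2)
  else if i < 2 * c then N.kf s.facet else N.ke s

open Classical in
/-- the formula for the facets -/
noncomputable def kff (s : P.FSt) (i j : ℕ) : Prop :=
  if R.core s.facet then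
    if IsV s then (if j < c then N.ke s.rR else if j = c then False else N.ke s.rL)
    else (if c < i then N.ke s else if i = c then False else N.ke s.r2)
  else N.kf s.facet

lemma kff_rL (s : P.FSt) (i j : ℕ) (hi : i ≤ 2 * c) (_ : j ≤ 2 * c) :
    N.kff R c s.rL j (2 * c - i) = N.kff R c s i j := by
  unfold kff
  rw [FSt.facet_rL]
  by_cases h : R.core s.facet
  · have h1 := R.core_rL h
    by_cases hV : IsV s
    · have hV' : ¬ IsV s.rL := fun h2 => h1.1 h2 hV
      simp only [h, hV, hV', if_true, if_false, FSt.rL_r2]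
      split_ifs <;> first | rfl | (exfalso; omega)
    · have hV' : IsV s.rL := h1.2 hV
      simp only [h, hV, hV', if_true, if_false, FSt.rL_rR, FSt.rL_rL]
      split_ifs <;> first | rfl | (exfalso; omega)
  · simp [h]

/-! ### The formulas at the neighbouring parts -/

section

variable {N R c}

lemma kvf_rot {s : P.FSt} {i j : ℕ} (hi : i < 2 * c) :
    N.kvf R c s.rL j (2 * c - (i + 1)) ↔ N.kvf R c s i j := by
  have e1 : 2 * c - (i + 1) < 2 * c := by omega
  unfold kvf
  rw [FSt.facet_rL]
  by_cases h : R.core s.facet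
  · have h1 := R.core_rL h
    by_cases hV : IsV s
    · have hV' : ¬ IsV s.rL := fun h2 => h1.1 h2 hV
      simp only [h, hV, hV', if_true, if_false, FSt.rL_rL, FSt.rL_r2, e1, hi]
      by_cases hj1 : j < c
      · rw [if_pos hj1, if_neg (by omega)]
      · rw [if_neg hj1, if_pos (by omega)]
    · have hV' : IsV s.rL := h1.2 hV
      simp only [h, hV, hV', if_true, if_false, FSt.rL_rR, FSt.rL_rL]
      by_cases hi1 : c ≤ i
      · rw [if_pos (by omega), if_pos hi1]
      · rw [if_neg (by omega), if_neg hi1]
  · simp only [h, if_false, e1, if_true, hi]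

lemma kvf_rot_end {s : P.FSt} {j : ℕ} :
    N.kvf R c s.stE.rL j (2 * c) ↔ N.kvf R c s (2 * c) j := by
  have e1 : ¬ 2 * c < 2 * c := by omega
  have e2 : ¬ 2 * c < c := by omega
  have e3 : c ≤ 2 * c := by omega
  have k1 : N.ke s.stE.rL.rL ↔ N.ke s := by rw [FSt.rL_rL]; exact N.ke_rev s
  have k2 : N.kv s.stE.rL ↔ N.kv s := N.kv_rot s
  have k3 : N.kv s.stE.rL.rL ↔ N.kv s.rR := by rw [FSt.rL_rL]; exact N.kv_rev s
  unfold kvf
  rw [FSt.facet_rL]
  simp only [e1, e2, e3, if_false, if_true]
  by_cases h : R.core s.facet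
  · by_cases hV : IsV s
    · have h2 : R.core s.stE.facet := (R.E s hV).2 h
      have hV' : ¬ IsV s.stE.rL := not_V_rL' ((IsV_stE s).2 hV)
      simp only [h, hV, h2, hV', if_true, if_false]
      by_cases hj1 : j < c
      · rw [if_neg (by omega), if_pos hj1, k3]
      · rw [if_pos (by omega), if_neg hj1, k2]
    · have h2 : ¬ R.core s.stE.facet := R.out_ncore h hV
      simp only [h, hV, h2, if_true, if_false]
      by_cases hj1 : j < 2 * c
      · rw [if_pos hj1, if_pos hj1, k1]
      · rw [if_neg hj1, if_neg hj1, k2]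
  · by_cases h2 : R.core s.stE.facet
    · have hV' : IsV s.stE.rL := Nb.V_in R h h2
      simp only [h, h2, hV', if_true, if_false]
      by_cases hj1 : j < 2 * c
      · rw [if_pos hj1, if_pos hj1, k1]
      · rw [if_neg hj1, if_neg hj1, k2]
    · simp only [h, h2, if_false]
      by_cases hj1 : j < 2 * c
      · rw [if_pos hj1, if_pos hj1, k1]
      · rw [if_neg hj1, if_neg hj1, k2]

lemma kef_rev {s : P.FSt} {i j : ℕ} (hi : i < 2 * c) (hj : j ≤ 2 * c) :
    N.kef R c s.r2 (2 * c - (i + 1)) (2 * c - j) ↔ N.kef R c s i j := by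
  have e1 : 2 * c - (i + 1) < 2 * c := by omega
  unfold kef
  rw [FSt.facet_r2, IsV_r2, FSt.r2_rR, FSt.r2_rL, FSt.r2_r2]
  by_cases h : R.core s.facet
  · by_cases hV : IsV s
    · simp only [h, hV, if_true, e1, hi]
      rcases lt_trichotomy j c with hj1 | hj1 | hj1
      · rw [if_neg (by omega), if_neg (by omega), if_pos hj1]
      · rw [if_neg (by omega), if_pos (by omega), if_neg (by omega), if_pos hj1]
      · rw [if_pos (by omega), if_neg (by omega), if_neg (by omega)]
    · simp only [h, hV, if_true, if_false]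
      by_cases hi1 : c ≤ i
      · rw [if_neg (by omega), if_pos hi1]
      · rw [if_pos (by omega), if_neg hi1]
  · simp only [h, if_false, e1, if_true, hi]

lemma kef_rev_end {s : P.FSt} {j : ℕ} (hj : j ≤ 2 * c) :
    N.kef R c s.stE.r2 (2 * c) (2 * c - j) ↔ N.kef R c s (2 * c) j := by
  have e1 : ¬ 2 * c < 2 * c := by omega
  have e3 : c ≤ 2 * c := by omega
  have k1 : N.ke s.stE.r2 ↔ N.ke s := N.ke_rev s
  have k2 : N.kv s.stE.r2.rR ↔ N.kv s := by rw [FSt.r2_rR]; exact N.kv_rot s
  have k3 : N.kv s.stE.r2 ↔ N.kv s.rR := N.kv_rev s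
  unfold kef
  rw [FSt.facet_r2, IsV_r2, IsV_stE]
  simp only [e1, e3, if_false, if_true]
  by_cases h : R.core s.facet
  · by_cases hV : IsV s
    · have h2 : R.core s.stE.facet := (R.E s hV).2 h
      simp only [h, hV, h2, if_true]
      rcases lt_trichotomy j c with hj1 | hj1 | hj1
      · rw [if_neg (by omega), if_neg (by omega), if_pos hj1, k3]
      · rw [if_neg (by omega), if_pos (by omega), if_neg (by omega), if_pos hj1]
      · rw [if_pos (by omega), if_neg (by omega), if_neg (by omega), k2]
    · have h2 : ¬ R.core s.stE.facet := R.out_ncore h hV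
      simp only [h, hV, h2, if_true, if_false]
      exact k1
  · by_cases h2 : R.core s.stE.facet
    · have hV' : ¬ IsV s := by rw [← IsV_stE]; exact R.in_nV h h2
      simp only [h, h2, hV', if_true, if_false]
      exact k1
    · simp only [h, h2, if_false]
      exact k1

lemma kef_kvf {s : P.FSt} {i j : ℕ} (h0 : N.kef R c s i j) : N.kvf R c s i j := by
  unfold kef at h0
  unfold kvf
  by_cases h : R.core s.facet
  · by_cases hV : IsV s
    · simp only [h, hV, if_true] at h0 ⊢
      rcases lt_trichotomy j c with hj1 | hj1 | hj1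
      · rw [if_pos hj1] at h0 ⊢; exact h0
      · rw [if_neg (by omega), if_pos hj1] at h0; exact h0.elim
      · rw [if_neg (by omega), if_neg (by omega)] at h0
        rw [if_neg (by omega)]; exact h0
    · simp only [h, hV, if_true, if_false] at h0 ⊢
      by_cases hi1 : c ≤ i
      · rw [if_pos hi1] at h0 ⊢
        split_ifs
        · exact h0
        · exact N.ke_kv s h0
      · rw [if_neg hi1] at h0 ⊢
        split_ifs
        · exact h0
        · have := kv_rR h0
          rw [FSt.r2_rR] at this
          exact this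
  · simp only [h, if_false] at h0 ⊢
    by_cases hi1 : i < 2 * c
    · rw [if_pos hi1] at h0 ⊢
      split_ifs
      · exact h0
      · exact N.kf_ke s.rL h0
    · rw [if_neg hi1] at h0 ⊢
      split_ifs
      · exact h0
      · exact N.ke_kv s h0

lemma kff_kef {s : P.FSt} {i j : ℕ} (h0 : N.kff R c s i j) : N.kef R c s i j := by
  unfold kff at h0
  unfold kef
  by_cases h : R.core s.facet
  · by_cases hV : IsV s
    · simp only [h, hV, if_true] at h0 ⊢
      rcases lt_trichotomy j c with hj1 | hj1 | hj1
      · rw [if_pos hj1] at h0 ⊢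
        split_ifs
        · exact h0
        · exact N.ke_kv _ h0
      · rw [if_neg (by omega), if_pos hj1] at h0; exact h0.elim
      · rw [if_neg (by omega), if_neg (by omega)] at h0 ⊢
        split_ifs
        · exact h0
        · have := kv_rR h0
          rw [FSt.rL_rR] at this
          exact this
    · simp only [h, hV, if_true, if_false] at h0 ⊢
      rcases lt_trichotomy i c with hi1 | hi1 | hi1
      · rw [if_neg (by omega), if_neg (by omega)] at h0
        rw [if_neg (by omega)]; exact h0
      · rw [if_neg (by omega), if_pos hi1] at h0; exact h0.elim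
      · rw [if_pos hi1] at h0
        rw [if_pos (by omega)]; exact h0
  · simp only [h, if_false] at h0 ⊢
    by_cases hi1 : i < 2 * c
    · rw [if_pos hi1]; exact h0
    · rw [if_neg hi1]; exact N.kf_ke s h0

end

/-- **The lift of a subcomplex.** -/
noncomputable def lift : Nb (P.refine (2 * c + 1) (hm c)) where
  kv := lft (N.kvf R c)
  ke := lft (N.kef R c)
  kf := lftF (N.kff R c)
  kv_rot t := by
    obtain ⟨s, i, j, hi, hj, rfl⟩ := exists_pkS t
    rw [lft_pk _ s hi hj]
    by_cases h : i < 2 * c
    · rw [pk_rot s j h, lft_pk _ _ hj (by omega)]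
      exact kvf_rot h
    · obtain rfl : i = 2 * c := by omega
      rw [pk_rot_end, lft_pk _ _ hj le_rfl]
      exact kvf_rot_end
  ke_rev t := by
    obtain ⟨s, i, j, hi, hj, rfl⟩ := exists_pkS t
    rw [lft_pk _ s hi hj]
    by_cases h : i < 2 * c
    · rw [pk_rev s j h, lft_pk _ _ (by omega) (by omega)]
      exact kef_rev h hj
    · obtain rfl : i = 2 * c := by omega
      rw [pk_rev_end, lft_pk _ _ le_rfl (by omega)]
      exact kef_rev_end hj
  ke_kv t h := by
    obtain ⟨s, i, j, hi, hj, rfl⟩ := exists_pkS t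
    rw [lft_pk _ s hi hj] at h ⊢
    exact kef_kvf h
  kf_ke t h := by
    obtain ⟨s, i, j, hi, hj, rfl⟩ := exists_pkS t
    rw [lftF_pk _ (N.kff_rL R c) s hi hj] at h
    rw [lft_pk _ s hi hj]
    exact kff_kef h

variable {N R c}

lemma lift_kv (s : P.FSt) {i j : ℕ} (hi : i ≤ 2 * c) (hj : j ≤ 2 * c) :
    (N.lift R c).kv (pk c s i j) ↔ N.kvf R c s i j := by
  show lft (N.kvf R c) (pk c s i j) ↔ _
  rw [lft_pk _ s hi hj]

lemma lift_ke (s : P.FSt) {i j : ℕ} (hi : i ≤ 2 * c) (hj : j ≤ 2 * c) :
    (N.lift R c).ke (pk c s i j) ↔ N.kef R c s i j := by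
  show lft (N.kef R c) (pk c s i j) ↔ _
  rw [lft_pk _ s hi hj]

lemma lift_kf (s : P.FSt) {i j : ℕ} (hi : i ≤ 2 * c) (hj : j ≤ 2 * c) :
    (N.lift R c).kf (pk c s i j).facet ↔ N.kff R c s i j := by
  show lftF (N.kff R c) (pk c s i j).facet ↔ _
  rw [lftF_pk _ (N.kff_rL R c) s hi hj]

end Nb

end Pool.Agent.MP42K
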