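import Pool.Agent.MP42.K.Lift2

/-!
# The lift of the headings to a refinement (helper73)

* `Core1.liftJ`: the facets of the refinement over a junction, with the new rows;
* `Nb.liftH`: the headings;
* `KG0.lift`: the rules without lines for the lift;
* `Nb.lift_thin`: every facet of the lifted junction outside the lift meets the lift in a connected
  piece.
-/

set_option autoImplicit false
set_option linter.unusedSectionVars false

namespace Pool.Agent.MP42K

open Pool.Agent.Helper55.UNF Pool.Agent.Helper55.UNF.GridSolid Pool.Agent.MP42G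
open Pool.Agent.MP42H Pool.Agent.MP42X Pool.Agent.MP42R

variable {P : GridSolid}

lemma pEs_rL (s : P.FSt) : (pE.symm s.rL).facet = (pN.symm s).facet := by
  rw [pE_symm_apply, pN_symm_apply, FSt.rL_r2]
  show s.rR.stE.facet = s.r2.rL.stE.rR.facet
  rw [FSt.r2_rL, FSt.facet_rR]

lemma facet_stN_rL (s : P.FSt) : (s.rL.stN).facet = (pE.symm s).facet := by
  rw [pE_symm_apply]
  show s.rL.rL.stE.rR.facet = s.r2.stE.facet
  rw [FSt.rL_rL, FSt.facet_rR]

lemma pNs_rL (s : P.FSt) : (pN.symm s.rL).facet = s.stE.facet := by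
  rw [Nb.pN_out, FSt.facet_rL]

lemma pre_facet (s : P.FSt) : (pre s).facet = s.stN.facet := rfl

lemma pre_stE' (s : P.FSt) : (pre s).stE = s.rR := by
  have h := pre_rot s
  have h2 := congrArg FSt.rR h
  rwa [FSt.rL_rR] at h2

/-- the state in the south, as the next one around the south-east corner -/
lemma pre_pNs (s : P.FSt) : pre (pN.symm s) = s.rR := by
  unfold pre
  have h : (pN.symm s).rL.stE.rR = s := pN_symm_stN s
  have h2 : (pN.symm s).rL.stE = s.rL := by
    have := congrArg FSt.rL h
    rwa [FSt.rR_rL] at this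
  rw [h2, FSt.rL_r2]

lemma pre_rL (s : P.FSt) : pre s.rL = pE.symm s := by
  unfold pre
  rw [FSt.rL_rL, pE_symm_apply]

/-- the dart before, in the refinement -/
lemma pk_pre {c : ℕ} (s : P.FSt) {i j : ℕ} (hi : i ≤ 2 * c) (hj : j < 2 * c) :
    pre (pk c s i j) = pk c s.rR (2 * c - (j + 1)) i := by
  unfold pre
  rw [pk_rL, pk_stE _ _ hj, pk_r2, FSt.rL_r2]
  exact pk_congr rfl (by omega) (by omega)

lemma pk_pre_end {c : ℕ} (s : P.FSt) {i : ℕ} (hi : i ≤ 2 * c) :
    pre (pk c s i (2 * c)) = pk c (pre s) (2 * c) i := by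
  unfold pre
  rw [pk_rL, pk_stE_end, pk_r2]
  exact pk_congr rfl (by omega) (by omega)

namespace Core1

variable (R : Core1 P) (c : ℕ)

open Classical in
/-- the formula for the lifted junction -/
noncomputable def Jf (J : P.Facet → Prop) (s : P.FSt) (i j : ℕ) : Prop :=
  if R.core s.facet then
    if IsV s then
      (if j < c then J (pN.symm s).facet else if j = c then False else J s.stN.facet)
    else (if c < i then J s.stE.facet else if i = c then False else J (pE.symm s).facet)
  else J s.facet

lemma Jf_rL (J : P.Facet → Prop) (s : P.FSt) (i j : ℕ) (hi : i ≤ 2 * c) (_ : j ≤ 2 * c) :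
    R.Jf c J s.rL j (2 * c - i) = R.Jf c J s i j := by
  unfold Jf
  rw [FSt.facet_rL, pEs_rL, facet_stN_rL, pNs_rL]
  have e0 : s.rL.stE.facet = s.stN.facet := rfl
  rw [e0]
  by_cases h : R.core s.facet
  · have h1 := R.core_rL h
    by_cases hV : IsV s
    · have hV' : ¬ IsV s.rL := fun h2 => h1.1 h2 hV
      simp only [h, hV, hV', if_true, if_false]
      split_ifs <;> first | rfl | (exfalso; omega)
    · have hV' : IsV s.rL := h1.2 hV
      simp only [h, hV, hV', if_true, if_false]
      split_ifs <;> first | rfl | (exfalso; omega)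
  · simp [h]

/-- **the lifted junction** -/
noncomputable def liftJ (J : P.Facet → Prop) (F : (P.refine (2 * c + 1) (hm c)).Facet) : Prop :=
  lftF (R.Jf c J) F

variable {R c}

lemma liftJ_pk {J : P.Facet → Prop} (s : P.FSt) {i j : ℕ} (hi : i ≤ 2 * c) (hj : j ≤ 2 * c) :
    R.liftJ c J (pk c s i j).facet ↔ R.Jf c J s i j := by
  unfold liftJ
  rw [lftF_pk _ (R.Jf_rL c J) s hi hj]

/-- the lifted junction is outside the middle rows -/
lemma liftJ_nc {J : P.Facet → Prop} (hc : 0 < c) {F : (P.refine (2 * c + 1) (hm c)).Facet}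
    (h : R.liftJ c J F) : ¬ (R.mid c hc).core F := by
  obtain ⟨t, rfl⟩ := exists_stF F
  obtain ⟨s, i, j, hi, hj, rfl⟩ := exists_pkS t
  rw [liftJ_pk s hi hj] at h
  rw [R.mid_core s hi hj]
  rintro ⟨h1, h2⟩
  unfold Jf at h
  rw [if_pos h1] at h
  rcases h2 with ⟨hV, rfl⟩ | ⟨hV, rfl⟩
  · rw [if_pos hV, if_neg (by omega), if_pos rfl] at h; exact h
  · rw [if_neg hV, if_neg (by omega), if_pos rfl] at h; exact h

end Core1

namespace Nb

variable (R : Core1 P) (c : ℕ)

open Classical in
/-- the formula for the headings -/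
noncomputable def Hf (H : P.FSt → ℤ) (s : P.FSt) (i j : ℕ) : ℤ :=
  if R.core s.facet then
    if IsV s then (if j < c then H s.rR else H (pre s))
    else (if c ≤ i then H s else H (pre s.rL))
  else (if i < 2 * c then H s.rL else H s)

/-- **the lifted headings** -/
noncomputable def liftH (H : P.FSt → ℤ) (t : (P.refine (2 * c + 1) (hm c)).FSt) : ℤ :=
  lft (Hf R c H) t

variable {R c}

lemma liftH_pk {H : P.FSt → ℤ} (s : P.FSt) {i j : ℕ} (hi : i ≤ 2 * c) (hj : j ≤ 2 * c) :
    liftH R c H (pk c s i j) = Hf R c H s i j := by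
  unfold liftH
  rw [lft_pk _ s hi hj]

end Nb

open Nb

section

variable {R : Core1 P} {c : ℕ} {J : P.Facet → Prop} {N : Nb P} {H : P.FSt → ℤ}

/-- the cases of a dart with its north side outside of the lift -/
lemma lift_cases {s : P.FSt} {i j : ℕ} (hi : i ≤ 2 * c) (hj : j ≤ 2 * c)
    (hJ : R.Jf c J s i j) (hv : N.kvf R c s i j) (hn : ¬ N.kef R c s.rL j (2 * c - i)) :
    i = 2 * c ∧ ((¬ R.core s.facet ∧ J s.facet ∧ j < 2 * c ∧ N.ke s ∧ ¬ N.kf s.facet) ∨
      (¬ R.core s.facet ∧ J s.facet ∧ j = 2 * c ∧ N.kv s ∧ ¬ N.ke s.rL) ∨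
      (R.core s.facet ∧ IsV s ∧ j < c ∧ N.kv s.rR ∧ ¬ N.ke s.rR ∧ J (pN.symm s).facet) ∨
      (R.core s.facet ∧ IsV s ∧ c < j ∧ N.kv s ∧ ¬ N.ke s.rL ∧ J s.stN.facet)) := by
  unfold Core1.Jf at hJ
  unfold kvf at hv
  unfold kef at hn
  rw [FSt.facet_rL] at hn
  by_cases h : R.core s.facet
  · have h1 := R.core_rL h
    by_cases hV : IsV s
    · have hV' : ¬ IsV s.rL := fun h2 => h1.1 h2 hV
      simp only [h, hV, hV', if_true, if_false, FSt.rL_rL, FSt.rL_r2] at hJ hv hn
      rcases lt_trichotomy j c with hj1 | hj1 | hj1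
      · rw [if_pos hj1] at hJ hv
        rw [if_neg (by omega)] at hn
        by_cases hi1 : i < 2 * c
        · rw [if_pos hi1] at hv; exact absurd hv hn
        · rw [if_neg hi1] at hv
          exact ⟨by omega, Or.inr (Or.inr (Or.inl ⟨h, hV, hj1, hv, hn, hJ⟩))⟩
      · rw [if_neg (by omega), if_pos hj1] at hJ; exact hJ.elim
      · rw [if_neg (by omega), if_neg (by omega)] at hJ
        rw [if_neg (by omega)] at hv
        rw [if_pos (by omega)] at hn
        by_cases hi1 : i < 2 * c
        · rw [if_pos hi1] at hv; exact absurd hv hn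
        · rw [if_neg hi1] at hv
          exact ⟨by omega, Or.inr (Or.inr (Or.inr ⟨h, hV, hj1, hv, hn, hJ⟩))⟩
    · exfalso
      have hV' : IsV s.rL := h1.2 hV
      simp only [h, hV, hV', if_true, if_false, FSt.rL_rL, FSt.rL_rR] at hJ hv hn
      rcases lt_trichotomy i c with hi1 | hi1 | hi1
      · rw [if_neg (by omega)] at hv
        rw [if_neg (by omega), if_neg (by omega)] at hn
        exact hn hv
      · rw [if_neg (by omega), if_pos hi1] at hJ; exact hJ
      · rw [if_pos (by omega)] at hv
        rw [if_pos (by omega)] at hn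
        exact hn hv
  · simp only [h, if_false] at hJ hv hn
    by_cases hj1 : j < 2 * c
    · rw [if_pos hj1] at hn
      rw [if_pos hj1, if_pos hj1] at hv
      by_cases hi1 : i < 2 * c
      · rw [if_pos hi1] at hv; exact absurd hv hn
      · rw [if_neg hi1] at hv
        exact ⟨by omega, Or.inl ⟨h, hJ, hj1, hv, hn⟩⟩
    · rw [if_neg hj1] at hn
      rw [if_neg hj1, if_neg hj1] at hv
      by_cases hi1 : i < 2 * c
      · rw [if_pos hi1] at hv; exact absurd hv hn
      · rw [if_neg hi1] at hv
        exact ⟨by omega, Or.inr (Or.inl ⟨h, hJ, by omega, hv, hn⟩)⟩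

/-- the cases of a dart along an edge of the lift -/
lemma lift_cases_e {s : P.FSt} {i j : ℕ} (hi : i ≤ 2 * c)
    (hJ : R.Jf c J s i j) (hf : ¬ N.kff R c s i j) (he : N.kef R c s i j) :
    i = 2 * c ∧ ((¬ R.core s.facet ∧ J s.facet ∧ N.ke s ∧ ¬ N.kf s.facet) ∨
      (R.core s.facet ∧ IsV s ∧ j < c ∧ N.kv s.rR ∧ ¬ N.ke s.rR ∧ J (pN.symm s).facet) ∨
      (R.core s.facet ∧ IsV s ∧ c < j ∧ N.kv s ∧ ¬ N.ke s.rL ∧ J s.stN.facet)) := by
  unfold Core1.Jf at hJ
  unfold kff at hf
  unfold kef at he
  by_cases h : R.core s.facet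
  · by_cases hV : IsV s
    · simp only [h, hV, if_true] at hJ hf he
      rcases lt_trichotomy j c with hj1 | hj1 | hj1
      · rw [if_pos hj1] at hJ hf he
        by_cases hi1 : i < 2 * c
        · rw [if_pos hi1] at he; exact absurd he hf
        · rw [if_neg hi1] at he
          exact ⟨by omega, Or.inr (Or.inl ⟨h, hV, hj1, he, hf, hJ⟩)⟩
      · rw [if_neg (by omega), if_pos hj1] at hJ; exact hJ.elim
      · rw [if_neg (by omega), if_neg (by omega)] at hJ hf he
        by_cases hi1 : i < 2 * c
        · rw [if_pos hi1] at he; exact absurd he hf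
        · rw [if_neg hi1] at he
          exact ⟨by omega, Or.inr (Or.inr ⟨h, hV, hj1, he, hf, hJ⟩)⟩
    · exfalso
      simp only [h, hV, if_true, if_false] at hJ hf he
      rcases lt_trichotomy i c with hi1 | hi1 | hi1
      · rw [if_neg (by omega)] at he
        rw [if_neg (by omega), if_neg (by omega)] at hf
        exact hf he
      · rw [if_neg (by omega), if_pos hi1] at hJ; exact hJ
      · rw [if_pos (by omega)] at he
        rw [if_pos hi1] at hf
        exact hf he
  · simp only [h, if_false] at hJ hf he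
    by_cases hi1 : i < 2 * c
    · rw [if_pos hi1] at he; exact absurd he hf
    · rw [if_neg hi1] at he
      exact ⟨by omega, Or.inl ⟨h, hJ, he, hf⟩⟩

open Classical in
/-- the heading before a dart with its north side outside of the lift -/
lemma lift_pre (hc : 0 < c) {s : P.FSt} {j : ℕ} (hj : j ≤ 2 * c) :
    liftH R c H (pre (pk c s (2 * c) j)) =
      if R.core s.facet then
        (if IsV s then (if j < c then H s.rR else H (pre s)) else
          liftH R c H (pre (pk c s (2 * c) j)))
      else (if j < 2 * c then H s else H (pre s)) := by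
  classical
  by_cases h : R.core s.facet
  · rw [if_pos h]
    by_cases hV : IsV s
    · rw [if_pos hV]
      have hV' : ¬ IsV s.rR := by rw [R.core_rR h]; exact not_not.2 hV
      by_cases hj1 : j < 2 * c
      · rw [pk_pre s le_rfl hj1, liftH_pk _ (by omega) le_rfl]
        unfold Hf
        rw [FSt.facet_rR, if_pos h, if_neg hV', FSt.rR_rL]
        by_cases hj2 : j < c
        · rw [if_pos (by omega), if_pos hj2]
        · rw [if_neg (by omega), if_neg hj2]
      · obtain rfl : j = 2 * c := by omega
        rw [pk_pre_end s le_rfl, liftH_pk _ le_rfl le_rfl]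
        unfold Hf
        have h2 : ¬ R.core (pre s).facet := by
          rw [pre_facet]; exact (R.N' ⟨hV, h⟩).2
        rw [if_neg h2, if_neg (by omega), if_neg (by omega)]
    · rw [if_neg hV]
  · rw [if_neg h]
    by_cases hj1 : j < 2 * c
    · rw [pk_pre s le_rfl hj1, liftH_pk _ (by omega) le_rfl]
      unfold Hf
      rw [FSt.facet_rR, if_neg h, if_pos (by omega), if_pos hj1, FSt.rR_rL]
    · obtain rfl : j = 2 * c := by omega
      rw [pk_pre_end s le_rfl, liftH_pk _ le_rfl le_rfl, if_neg (by omega)]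
      unfold Hf
      by_cases h2 : R.core (pre s).facet
      · have h3 : ¬ IsV (pre s) := by
          apply Nb.V_out R h2
          rw [pre_stE', FSt.facet_rR]; exact h
        rw [if_pos h2, if_neg h3, if_pos (by omega)]
      · rw [if_neg h2, if_neg (by omega)]

open Classical in
/-- the heading at the south side -/
lemma lift_rR {s : P.FSt} {j : ℕ} (hj : j ≤ 2 * c) :
    liftH R c H (pk c s (2 * c) j).rR =
      if R.core s.facet then
        (if IsV s then (if j ≤ c then H s.rR else H (pre s)) else
          liftH R c H (pk c s (2 * c) j).rR)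
      else (if 0 < j then H s else H s.rR) := by
  classical
  by_cases h : R.core s.facet
  · rw [if_pos h]
    by_cases hV : IsV s
    · rw [if_pos hV]
      have hV' : ¬ IsV s.rR := by rw [R.core_rR h]; exact not_not.2 hV
      rw [pk_rR, liftH_pk _ (by omega) le_rfl]
      unfold Hf
      rw [FSt.facet_rR, if_pos h, if_neg hV', FSt.rR_rL]
      by_cases hj2 : j ≤ c
      · rw [if_pos (by omega), if_pos hj2]
      · rw [if_neg (by omega), if_neg hj2]
    · rw [if_neg hV]
  · rw [if_neg h]
    rw [pk_rR, liftH_pk _ (by omega) le_rfl]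
    unfold Hf
    rw [FSt.facet_rR, if_neg h, FSt.rR_rL]
    by_cases hj1 : 0 < j
    · rw [if_pos (by omega), if_pos hj1]
    · rw [if_neg (by omega), if_neg hj1]

/-- the bounds at a rim edge, from the band -/
lemma KG0.bd_out (h : KG0 J N H) {s : P.FSt} (hJ : J s.stE.facet) (hv : N.kv s) (he : ¬ N.ke s) :
    -1 ≤ H s ∧ H s ≤ 1 := by
  have h1 := h.hb' s.stE.rL hJ ((N.kv_rot s).2 hv) (by
    rw [FSt.rL_rL]; exact fun hk => he ((N.ke_rev s).1 hk))
  rw [pre_of_rot] at h1
  exact h1

lemma KG0.bd_pre (h : KG0 J N H) {s : P.FSt} (hJ : J s.stN.facet) (hv : N.kv s)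
    (he : ¬ N.ke s.rL) : -1 ≤ H (pre s) ∧ H (pre s) ≤ 1 := by
  have h1 : ¬ N.ke (pre s) := by
    intro hk
    exact he ((N.ke_rev s.rL).1 hk)
  refine h.hb (pre s) hJ (Nb.nkf_of_nke h1) ?_
  have h2 := N.kv_rot (pre s)
  rw [pre_rot] at h2
  exact h2.1 hv

lemma ncore_out (s : P.FSt) : (s.rR).stE.facet = (pN.symm s).facet := by
  rw [pN_symm_apply]
  show s.rR.stE.facet = s.r2.rL.stE.rR.facet
  rw [FSt.r2_rL, FSt.facet_rR]

/-- **The rules without lines for the lift.** -/
theorem KG0.lift (h : KG0 J N H) (hc : 0 < c) :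
    KG0 (R.liftJ c J) (N.lift R c) (liftH R c H) := by
  have bS : ∀ s : P.FSt, IsV s → R.core s.facet → N.kv s.rR → ¬ N.ke s.rR →
      J (pN.symm s).facet → -1 ≤ H s.rR ∧ H s.rR ≤ 1 := by
    intro s hV hcs h1 h2 h3
    exact h.bd_out (s := s.rR) (by rw [ncore_out s]; exact h3) h1 h2
  constructor
  · -- hb
    intro t hJ hf hv
    obtain ⟨s, i, j, hi, hj, rfl⟩ := exists_pkS t
    rw [Core1.liftJ_pk s hi hj] at hJ
    rw [lift_kf s hi hj] at hf
    rw [lift_kv s hi hj] at hv
    rw [liftH_pk s hi hj]
    unfold Core1.Jf at hJ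
    unfold kff at hf
    unfold kvf at hv
    unfold Hf
    by_cases hcs : R.core s.facet
    · by_cases hV : IsV s
      · simp only [hcs, hV, if_true] at hJ hf hv ⊢
        rcases lt_trichotomy j c with hj1 | hj1 | hj1
        · rw [if_pos hj1] at hJ hf hv ⊢
          by_cases hi1 : i < 2 * c
          · rw [if_pos hi1] at hv; exact absurd hv hf
          · rw [if_neg hi1] at hv
            exact bS s hV hcs hv hf hJ
        · rw [if_neg (by omega), if_pos hj1] at hJ; exact hJ.elim
        · rw [if_neg (by omega), if_neg (by omega)] at hJ hf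
          rw [if_neg (by omega)] at hv ⊢
          by_cases hi1 : i < 2 * c
          · rw [if_pos hi1] at hv; exact absurd hv hf
          · rw [if_neg hi1] at hv
            exact h.bd_pre hJ hv hf
      · simp only [hcs, hV, if_true, if_false] at hJ hf hv ⊢
        rcases lt_trichotomy i c with hi1 | hi1 | hi1
        · rw [if_neg (by omega), if_neg (by omega)] at hJ hf
          rw [if_neg (by omega)] at hv ⊢
          by_cases hj1 : j < 2 * c
          · rw [if_pos hj1] at hv; exact absurd hv hf
          · rw [if_neg hj1] at hv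
            refine h.bd_pre (s := s.rL) (by rw [facet_stN_rL]; exact hJ) hv ?_
            rw [FSt.rL_rL]; exact hf
        · rw [if_neg (by omega), if_pos hi1] at hJ; exact hJ.elim
        · rw [if_pos hi1] at hJ hf
          rw [if_pos (by omega)] at hv ⊢
          by_cases hj1 : j < 2 * c
          · rw [if_pos hj1] at hv; exact absurd hv hf
          · rw [if_neg hj1] at hv
            exact h.bd_out hJ hv hf
    · simp only [hcs, if_false] at hJ hf hv ⊢
      by_cases hi1 : i < 2 * c
      · rw [if_pos hi1] at hv ⊢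
        by_cases hj1 : j < 2 * c
        · rw [if_pos hj1] at hv; exact absurd hv hf
        · rw [if_neg hj1] at hv
          exact h.hb s.rL hJ hf (N.ke_kv _ hv)
      · rw [if_neg hi1] at hv ⊢
        refine h.hb s hJ hf ?_
        split_ifs at hv
        · exact N.ke_kv _ hv
        · exact hv
  · -- hb'
    intro t hJ hv hn
    obtain ⟨s, i, j, hi, hj, rfl⟩ := exists_pkS t
    rw [Core1.liftJ_pk s hi hj] at hJ
    rw [lift_kv s hi hj] at hv
    rw [pk_rL, lift_ke _ hj (by omega)] at hn
    obtain ⟨rfl, hh⟩ := lift_cases hi hj hJ hv hn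
    rw [lift_pre hc hj]
    rcases hh with ⟨h1, h2, h3, h4, h5⟩ | ⟨h1, h2, h3, h4, h5⟩ | ⟨h1, h2, h3, h4, h5, h6⟩ |
      ⟨h1, h2, h3, h4, h5, h6⟩
    · rw [if_neg h1, if_pos h3]
      exact h.hb s h2 h5 (N.ke_kv _ h4)
    · rw [if_neg h1, if_neg (by omega)]
      exact h.hb' s h2 h4 h5
    · rw [if_pos h1, if_pos h2, if_pos h3]
      exact bS s h2 h1 h4 h5 h6
    · rw [if_pos h1, if_pos h2, if_neg (by omega)]
      exact h.bd_pre h6 h4 h5
  · -- r1
    intro t hJ hf he he'
    obtain ⟨s, i, j, hi, hj, rfl⟩ := exists_pkS t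
    rw [Core1.liftJ_pk s hi hj] at hJ
    rw [lift_kf s hi hj] at hf
    rw [lift_ke s hi hj] at he
    obtain ⟨rfl, hh⟩ := lift_cases_e hi hJ hf he
    rw [pk_rR, lift_ke _ (by omega) le_rfl] at he'
    rw [lift_rR hj, liftH_pk s le_rfl hj]
    unfold kef at he'
    rw [FSt.facet_rR] at he'
    unfold Hf
    rcases hh with ⟨h1, h2, h3, h4⟩ | ⟨h1, h2, h3, h4, h5, h6⟩ | ⟨h1, h2, h3, h4, h5, h6⟩
    · rw [if_neg h1] at he'
      by_cases hj0 : 0 < j
      · rw [if_pos (by omega)] at he'; exact absurd he' h4
      · rw [if_neg (by omega)] at he'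
        rw [if_neg h1, if_neg hj0, if_neg h1, if_neg (by omega)]
        exact h.r1 s h2 h4 h3 he'
    · exfalso
      have hV' : ¬ IsV s.rR := by rw [R.core_rR h1]; exact not_not.2 h2
      rw [if_pos h1, if_neg hV', if_pos (by omega)] at he'
      exact h5 he'
    · exfalso
      have hV' : ¬ IsV s.rR := by rw [R.core_rR h1]; exact not_not.2 h2
      rw [if_pos h1, if_neg hV', if_neg (by omega), FSt.rR_r2] at he'
      exact h5 he'
  · -- r2
    intro t hJ hf he he'
    obtain ⟨s, i, j, hi, hj, rfl⟩ := exists_pkS t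
    rw [Core1.liftJ_pk s hi hj] at hJ
    rw [lift_kf s hi hj] at hf
    rw [lift_ke s hi hj] at he
    obtain ⟨rfl, hh⟩ := lift_cases_e hi hJ hf he
    rw [pk_rR, lift_ke _ (by omega) le_rfl] at he'
    rw [lift_rR hj, liftH_pk s le_rfl hj]
    unfold kef at he'
    rw [FSt.facet_rR] at he'
    unfold Hf
    rcases hh with ⟨h1, h2, h3, h4⟩ | ⟨h1, h2, h3, h4, h5, h6⟩ | ⟨h1, h2, h3, h4, h5, h6⟩
    · rw [if_neg h1] at he'
      rw [if_neg h1, if_neg h1, if_neg (show ¬ 2 * c < 2 * c by omega)]
      by_cases hj0 : 0 < j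
      · rw [if_pos hj0]
      · rw [if_neg (by omega)] at he'
        rw [if_neg hj0]
        exact h.r2 s h2 h4 h3 he'
    · rw [if_pos h1, if_pos h1, if_pos h2, if_pos h2, if_pos h3, if_pos (by omega)]
    · rw [if_pos h1, if_pos h1, if_pos h2, if_pos h2, if_neg (by omega), if_neg (by omega)]
  · -- r3
    intro t hJ hv hn he
    obtain ⟨s, i, j, hi, hj, rfl⟩ := exists_pkS t
    rw [Core1.liftJ_pk s hi hj] at hJ
    rw [lift_kv s hi hj] at hv
    rw [pk_rL, lift_ke _ hj (by omega)] at hn
    rw [lift_ke s hi hj] at he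
    obtain ⟨rfl, hh⟩ := lift_cases hi hj hJ hv hn
    rw [lift_pre hc hj, liftH_pk s le_rfl hj]
    unfold kef at he
    unfold Hf
    rcases hh with ⟨h1, h2, h3, h4, h5⟩ | ⟨h1, h2, h3, h4, h5⟩ | ⟨h1, h2, h3, h4, h5, h6⟩ |
      ⟨h1, h2, h3, h4, h5, h6⟩
    · rw [if_neg h1, if_neg h1, if_pos h3, if_neg (by omega)]
    · rw [if_neg h1, if_neg (by omega)] at he
      rw [if_neg h1, if_neg h1, if_neg (by omega), if_neg (by omega)]
      exact h.r3 s h2 h4 h5 he
    · rw [if_pos h1, if_pos h1, if_pos h2, if_pos h2]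
    · rw [if_pos h1, if_pos h1, if_pos h2, if_pos h2]
  · -- r4
    intro t hJ hv hn he
    obtain ⟨s, i, j, hi, hj, rfl⟩ := exists_pkS t
    rw [Core1.liftJ_pk s hi hj] at hJ
    rw [lift_kv s hi hj] at hv
    rw [pk_rL, lift_ke _ hj (by omega)] at hn
    rw [lift_ke s hi hj] at he
    obtain ⟨rfl, hh⟩ := lift_cases hi hj hJ hv hn
    rw [lift_pre hc hj, liftH_pk s le_rfl hj]
    unfold kef at he
    unfold Hf
    rcases hh with ⟨h1, h2, h3, h4, h5⟩ | ⟨h1, h2, h3, h4, h5⟩ | ⟨h1, h2, h3, h4, h5, h6⟩ |
      ⟨h1, h2, h3, h4, h5, h6⟩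
    · rw [if_neg h1, if_neg (by omega)] at he
      exact absurd h4 he
    · rw [if_neg h1, if_neg (by omega)] at he
      rw [if_neg h1, if_neg h1, if_neg (by omega), if_neg (by omega)]
      exact h.r4 s h2 h4 h5 he
    · rw [if_pos h1, if_pos h2, if_pos h3, if_neg (by omega)] at he
      exact absurd h4 he
    · rw [if_pos h1, if_pos h2, if_neg (by omega), if_neg (by omega), if_neg (by omega)] at he
      exact absurd h4 he

/-- Every facet of the lifted junction outside the lift meets the lift in a connected piece. -/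
theorem lift_thin (hc : 0 < c) : (N.lift R c).Thin (R.liftJ c J) := by
  constructor
  · intro t hJ hf hv hv'
    obtain ⟨s, i, j, hi, hj, rfl⟩ := exists_pkS t
    rw [Core1.liftJ_pk s hi hj] at hJ
    rw [lift_kf s hi hj] at hf
    rw [lift_kv s hi hj] at hv
    rw [pk_rR, lift_kv _ (by omega) hi] at hv'
    rw [lift_ke s hi hj]
    unfold Core1.Jf at hJ
    unfold kff at hf
    unfold kvf at hv hv'
    unfold kef
    rw [FSt.facet_rR] at hv'
    by_cases hcs : R.core s.facet
    · have h1 := R.core_rR hcs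
      by_cases hV : IsV s
      · simp only [hcs, hV, if_true] at hJ hf hv ⊢
        rcases lt_trichotomy j c with hj1 | hj1 | hj1
        · rw [if_pos hj1] at hf hv ⊢
          exact hv
        · rw [if_neg (by omega), if_pos hj1] at hJ; exact hJ.elim
        · rw [if_neg (by omega), if_neg (by omega)] at hf
          rw [if_neg (by omega)] at hv
          rw [if_neg (by omega), if_neg (by omega)]
          exact hv
      · exfalso
        have hV' : IsV s.rR := h1.2 hV
        simp only [hcs, hV, hV', if_true, if_false, FSt.rR_rR, FSt.rR_rL] at hJ hf hv hv'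
        rcases lt_trichotomy i c with hi1 | hi1 | hi1
        · rw [if_neg (by omega), if_neg (by omega)] at hf
          rw [if_neg (by omega)] at hv
          rw [if_pos hi1] at hv'
          by_cases hj1 : j < 2 * c
          · rw [if_pos hj1] at hv; exact hf hv
          · rw [if_pos (by omega)] at hv'; exact hf hv'
        · rw [if_neg (by omega), if_pos hi1] at hJ; exact hJ
        · rw [if_pos hi1] at hf
          rw [if_pos (by omega)] at hv
          rw [if_neg (by omega)] at hv'
          by_cases hj1 : j < 2 * c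
          · rw [if_pos hj1] at hv; exact hf hv
          · rw [if_pos (by omega)] at hv'; exact hf hv'
    · simp only [hcs, if_false, FSt.rR_rL] at hJ hf hv hv' ⊢
      by_cases hi1 : i < 2 * c
      · exfalso
        rw [if_pos hi1] at hv
        by_cases hj1 : j < 2 * c
        · rw [if_pos hj1] at hv; exact hf hv
        · rw [if_pos (by omega), if_pos hi1] at hv'; exact hf hv'
      · rw [if_neg hi1] at hv ⊢
        by_cases hj1 : j < 2 * c
        · rw [if_pos hj1] at hv; exact hv
        · rw [if_pos (by omega), if_neg hi1] at hv'; exact hv'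
  · intro t hJ hf hv hv'
    obtain ⟨s, i, j, hi, hj, rfl⟩ := exists_pkS t
    rw [Core1.liftJ_pk s hi hj] at hJ
    rw [lift_kf s hi hj] at hf
    rw [lift_kv s hi hj] at hv
    rw [pk_r2, lift_kv _ (by omega) (by omega)] at hv'
    rw [pk_rR, lift_kv _ (by omega) hi, pk_rL, lift_kv _ hj (by omega)]
    unfold Core1.Jf at hJ
    unfold kff at hf
    unfold kvf at hv hv'
    rw [FSt.facet_r2, IsV_r2, FSt.r2_rR, FSt.r2_rL, FSt.r2_r2] at hv'
    by_cases hcs : R.core s.facet
    · exfalso
      by_cases hV : IsV s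
      · simp only [hcs, hV, if_true] at hJ hf hv hv'
        rcases lt_trichotomy j c with hj1 | hj1 | hj1
        · rw [if_pos hj1] at hf hv
          rw [if_neg (by omega)] at hv'
          by_cases hi1 : i < 2 * c
          · rw [if_pos hi1] at hv; exact hf hv
          · rw [if_pos (by omega)] at hv'; exact hf hv'
        · rw [if_neg (by omega), if_pos hj1] at hJ; exact hJ.elim
        · rw [if_neg (by omega), if_neg (by omega)] at hf
          rw [if_neg (by omega)] at hv
          rw [if_pos (by omega)] at hv'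
          by_cases hi1 : i < 2 * c
          · rw [if_pos hi1] at hv; exact hf hv
          · rw [if_pos (by omega)] at hv'; exact hf hv'
      · simp only [hcs, hV, if_true, if_false] at hJ hf hv hv'
        rcases lt_trichotomy i c with hi1 | hi1 | hi1
        · rw [if_neg (by omega), if_neg (by omega)] at hf
          rw [if_neg (by omega)] at hv
          rw [if_pos (by omega)] at hv'
          by_cases hj1 : j < 2 * c
          · rw [if_pos hj1] at hv; exact hf hv
          · rw [if_pos (by omega)] at hv'; exact hf hv'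
        · rw [if_neg (by omega), if_pos hi1] at hJ; exact hJ
        · rw [if_pos hi1] at hf
          rw [if_pos (by omega)] at hv
          rw [if_neg (by omega)] at hv'
          by_cases hj1 : j < 2 * c
          · rw [if_pos hj1] at hv; exact hf hv
          · rw [if_pos (by omega)] at hv'; exact hf hv'
    · simp only [hcs, if_false] at hJ hf hv hv'
      by_cases hi1 : i < 2 * c
      · rw [if_pos hi1] at hv
        by_cases hj1 : j < 2 * c
        · rw [if_pos hj1] at hv; exact absurd hv hf
        · rw [if_neg hj1] at hv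
          -- the north side and the south-west corner
          by_cases hi2 : 0 < i
          · rw [if_pos (by omega), if_pos (by omega)] at hv'; exact absurd hv' hf
          · right
            unfold kvf
            rw [FSt.facet_rL, if_neg hcs, if_neg (by omega), if_neg (by omega)]
            exact N.ke_kv _ hv
      · rw [if_neg hi1] at hv
        rw [if_pos (by omega)] at hv'
        by_cases hj1 : j < 2 * c
        · rw [if_pos hj1] at hv
          by_cases hj2 : 0 < j
          · rw [if_pos (by omega)] at hv'; exact absurd hv' hf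
          · left
            unfold kvf
            rw [FSt.facet_rR, if_neg hcs, if_neg (by omega), if_neg (by omega)]
            exact Nb.kv_rR hv
        · rw [if_pos (by omega)] at hv'; exact absurd hv' hf

end

end Pool.Agent.MP42K
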