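import Pool.Agent.MP42.K.Lift3

/-!
# The lift to a refinement: rims, feet, one curve (helper73)

* `Core1.rim_mid`, `st_lift`, `en_lift`: rims and feet of the lift;
* `Nb.In.lift`: the lift lies in the lifted junction;
* `Nb.lift_one`: one curve stays one curve.
-/

set_option autoImplicit false
set_option linter.unusedSectionVars false

namespace Pool.Agent.MP42K

open Pool.Agent.Helper55.UNF Pool.Agent.Helper55.UNF.GridSolid Pool.Agent.MP42G
open Pool.Agent.MP42H Pool.Agent.MP42X Pool.Agent.MP42R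

variable {P : GridSolid}

section

variable {R : Core1 P} {c : ℕ}

lemma ke_south (N : Nb P) (w : P.FSt) : N.ke (pN.symm w).rL ↔ N.ke w.rR := by
  have h := N.ke_rev (pN.symm w).rL
  have h2 : (pN.symm w).rL.stE.r2 = w.rR := pre_pNs w
  rw [h2] at h
  exact h.symm

lemma kv_southE (N : Nb P) (w : P.FSt) : N.kv (pN.symm w) ↔ N.kv w.rR := by
  have h := N.kv_rot (pre (pN.symm w))
  rw [pre_rot, pre_pNs] at h
  exact h

lemma pre_r2 (w : P.FSt) : pre w.r2 = (pN.symm w).rL := by
  unfold pre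
  have e : pN.symm w = (w.rR.stE.rR).r2 := by
    rw [pN_symm_apply]
    show (w.r2.rL.stE.rR).r2 = _
    rw [FSt.r2_rL]
  rw [e, FSt.rR_r2, FSt.rL_rL, FSt.r2_rL]

lemma kv_southW (N : Nb P) (w : P.FSt) : N.kv (pN.symm w).rL ↔ N.kv w.r2 := by
  have h := N.kv_rot (pre w.r2)
  rw [pre_rot, pre_r2] at h
  exact h.symm

lemma st_iff (N : Nb P) (w : P.FSt) : St N.kv N.ke w ↔ N.kv w.r2 ∧ ¬ N.ke w.rR := by
  unfold St
  rw [kv_southW, ke_south]

lemma en_iff (N : Nb P) (w : P.FSt) : En N.kv N.ke w ↔ N.kv w.rR ∧ ¬ N.ke w.rR := by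
  unfold En
  rw [kv_southE, ke_south]

lemma rim_nV_rR {w : P.FSt} (h : R.Rim w) : ¬ IsV w.rR := by
  rw [R.core_rR h.2]; exact not_not.2 h.1

lemma rim_nV_rL {w : P.FSt} (h : R.Rim w) : ¬ IsV w.rL := not_V_rL' h.1

/-- the rim states of the middle rows -/
lemma Core1.rim_mid (hc : 0 < c) {t : (P.refine (2 * c + 1) (hm c)).FSt} :
    (R.mid c hc).Rim t ↔ ∃ (w : P.FSt) (i : ℕ), i ≤ 2 * c ∧ R.Rim w ∧ t = pk c w i c := by
  constructor
  · rintro ⟨hV, h1⟩
    obtain ⟨s, i, j, hi, hj, rfl⟩ := exists_pkS t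
    rw [R.mid_core s hi hj] at h1
    have hV' : IsV s := hV
    obtain ⟨h2, h3 | h3⟩ := h1
    · exact ⟨s, i, hi, ⟨hV', h2⟩, by rw [h3.2]⟩
    · exact absurd hV' h3.1
  · rintro ⟨w, i, hi, hw, rfl⟩
    refine ⟨hw.1, ?_⟩
    rw [R.mid_core w hi (by omega)]
    exact ⟨hw.2, Or.inl ⟨hw.1, rfl⟩⟩

lemma pNs_rim (hc : 0 < c) (w : P.FSt) (i : ℕ) : pN.symm (pk c w i c) = pk c w i (c - 1) := by
  have h := pNs_pk (c := c) w i (j := c - 1) (by omega)
  rw [show c - 1 + 1 = c by omega] at h
  exact h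

variable {N : Nb P}

lemma st_lift (hc : 0 < c) {w : P.FSt} (hw : R.Rim w) {i : ℕ} (hi : i ≤ 2 * c) :
    St (N.lift R c).kv (N.lift R c).ke (pk c w i c) ↔ i = 0 ∧ St N.kv N.ke w := by
  have hV := rim_nV_rL hw
  rw [st_iff N]
  unfold St
  rw [pNs_rim hc, pk_rL, Nb.lift_kv _ (by omega) (by omega), Nb.lift_ke _ (by omega) (by omega)]
  unfold Nb.kvf Nb.kef
  have e0 : ¬ c ≤ c - 1 := by omega
  rw [FSt.facet_rL, if_pos hw.2, if_neg hV, if_neg e0, FSt.rL_r2, FSt.rL_rL, if_pos hw.2,
    if_neg hV, if_neg e0]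
  by_cases h0 : i = 0
  · subst h0
    rw [if_neg (by omega)]
    simp
  · rw [if_pos (by omega)]
    simp [h0]

lemma en_lift (hc : 0 < c) {w : P.FSt} (hw : R.Rim w) {i : ℕ} (hi : i ≤ 2 * c) :
    En (N.lift R c).kv (N.lift R c).ke (pk c w i c) ↔ i = 2 * c ∧ En N.kv N.ke w := by
  have hV := rim_nV_rL hw
  rw [en_iff N]
  unfold En
  rw [pNs_rim hc, pk_rL, Nb.lift_kv _ (by omega) (by omega), Nb.lift_ke _ (by omega) (by omega)]
  unfold Nb.kvf Nb.kef
  have e0 : ¬ c ≤ c - 1 := by omega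
  have e1 : c - 1 < c := by omega
  rw [if_pos hw.2, if_pos hw.1, if_pos e1, FSt.facet_rL, FSt.rL_r2, if_pos hw.2,
    if_neg hV, if_neg e0]
  by_cases h0 : i < 2 * c
  · rw [if_pos h0]
    have : ¬ i = 2 * c := by omega
    simp [this]
  · rw [if_neg h0]
    have : i = 2 * c := by omega
    simp [this]

/-- the circles of the rims -/
lemma same_pk {w w' : P.FSt} {i i' j : ℕ} (hi : i ≤ 2 * c) (hi' : i' ≤ 2 * c) (hj : j ≤ 2 * c) :
    pE.SameCycle (pk c w i j) (pk c w' i' j) ↔ pE.SameCycle w w' := by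
  rw [pk_sub w (by omega) (by omega), pk_sub w' (by omega) (by omega), sub_same]
  simp

variable {J : P.Facet → Prop}

lemma liftJ_rim (hc : 0 < c) {w : P.FSt} (hw : R.Rim w) {i : ℕ} (hi : i ≤ 2 * c) :
    R.liftJ c J (pN.symm (pk c w i c)).facet ↔ J (pN.symm w).facet := by
  rw [pNs_rim hc, Core1.liftJ_pk w hi (by omega)]
  unfold Core1.Jf
  rw [if_pos hw.2, if_pos hw.1, if_pos (by omega)]

/-- **The lift lies in the lifted junction.** -/
theorem Nb.In.lift (h : N.In R J) (hc : 0 < c) : (N.lift R c).In (R.mid c hc) (R.liftJ c J) where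
  nc F hF := Core1.liftJ_nc hc hF
  kv t hv hn := by
    obtain ⟨s, i, j, hi, hj, rfl⟩ := exists_pkS t
    rw [Nb.lift_kv s hi hj] at hv
    rw [R.mid_core s hi hj] at hn
    rw [Core1.liftJ_pk s hi hj]
    unfold Nb.kvf at hv
    unfold Core1.Jf
    by_cases hcs : R.core s.facet
    · by_cases hV : IsV s
      · simp only [hcs, hV, if_true, true_and, not_true_eq_false, false_and, or_false] at hv hn ⊢
        rcases lt_or_gt_of_ne hn with hj1 | hj1
        · rw [if_pos hj1] at hv ⊢
          have h1 : N.kv s.rR := by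
            split_ifs at hv
            · exact N.ke_kv _ hv
            · exact hv
          exact h.kv _ ((kv_southE N s).2 h1) (R.S' ⟨hV, hcs⟩).2
        · rw [if_neg (by omega)] at hv
          rw [if_neg (by omega), if_neg (by omega)]
          have h1 : N.kv s := by
            split_ifs at hv
            · have := Nb.kv_rR hv
              rw [FSt.rL_rR] at this
              exact this
            · exact hv
          have h2 : N.kv (pre s) := by
            have := N.kv_rot (pre s)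
            rw [pre_rot] at this
            exact this.1 h1
          exact h.kv (pre s) h2 (R.N' ⟨hV, hcs⟩).2
      · simp only [hcs, hV, if_true, if_false, true_and, not_false_eq_true, false_and,
          false_or] at hv hn ⊢
        rcases lt_or_gt_of_ne hn with hi1 | hi1
        · rw [if_neg (by omega)] at hv
          rw [if_neg (by omega), if_neg (by omega)]
          have h1 : N.kv s.rL := by
            split_ifs at hv
            · have := Nb.kv_rR hv
              rw [FSt.r2_rR] at this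
              exact this
            · exact hv
          have hR : R.Rim s.rL := ⟨(R.core_rL hcs).2 hV, hcs⟩
          have h2 : N.kv (pre s.rL) := by
            have := N.kv_rot (pre s.rL)
            rw [pre_rot] at this
            exact this.1 h1
          have h3 := h.kv _ h2 (R.N' hR).2
          rw [pre_rL] at h3
          exact h3
        · rw [if_pos (by omega)] at hv
          rw [if_pos hi1]
          have h1 : N.kv s := by
            split_ifs at hv
            · exact N.ke_kv _ hv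
            · exact hv
          exact h.kv s.stE.rL ((N.kv_rot s).2 h1) (R.out_ncore hcs hV)
    · simp only [hcs, if_false] at hv ⊢
      split_ifs at hv
      · exact h.kv s (N.ke_kv s (N.kf_ke s hv)) hcs
      · exact h.kv s.rL (N.ke_kv _ hv) hcs
      · exact h.kv s (N.ke_kv s hv) hcs
      · exact h.kv s hv hcs
  ke t he hcr := by
    obtain ⟨s, i, j, hi, hj, rfl⟩ := exists_pkS t
    rw [Nb.lift_ke s hi hj] at he
    rw [R.mid_core s hi hj] at hcr
    unfold Nb.kef at he
    obtain ⟨hcs, ⟨hV, rfl⟩ | ⟨hV, rfl⟩⟩ := hcr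
    · rw [if_pos hcs, if_pos hV, if_neg (by omega), if_pos rfl] at he
      exact he.elim
    · rw [pk_stE s j (by omega), R.mid_core s (by omega) hj]
      rintro ⟨-, h1 | h1⟩
      · exact hV h1.1
      · omega
  kf F hF hcr := by
    obtain ⟨t, rfl⟩ := exists_stF F
    obtain ⟨s, i, j, hi, hj, rfl⟩ := exists_pkS t
    rw [Nb.lift_kf s hi hj] at hF
    rw [R.mid_core s hi hj] at hcr
    unfold Nb.kff at hF
    obtain ⟨hcs, ⟨hV, rfl⟩ | ⟨hV, rfl⟩⟩ := hcr
    · rw [if_pos hcs, if_pos hV, if_neg (by omega), if_pos rfl] at hF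
      exact hF
    · rw [if_pos hcs, if_neg hV, if_neg (by omega), if_pos rfl] at hF
      exact hF
  st a ha hJ hS := by
    obtain ⟨w, i, hi, hw, rfl⟩ := (Core1.rim_mid hc).1 ha
    rw [liftJ_rim hc hw hi] at hJ
    obtain ⟨rfl, hS'⟩ := (st_lift hc hw hi).1 hS
    obtain ⟨b, hb1, hb2⟩ := h.st w hw hJ hS'
    have hb : R.Rim b := Core1.Rim.same R hw hb1
    exact ⟨pk c b (2 * c) c, (same_pk hi le_rfl (by omega)).2 hb1,
      (en_lift hc hb le_rfl).2 ⟨rfl, hb2⟩⟩
  en a b ha hJ hab h1 h2 := by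
    obtain ⟨w, i, hi, hw, rfl⟩ := (Core1.rim_mid hc).1 ha
    have hb : (R.mid c hc).Rim b := Core1.Rim.same (R.mid c hc) ha hab
    obtain ⟨w', i', hi', hw', rfl⟩ := (Core1.rim_mid hc).1 hb
    rw [liftJ_rim hc hw hi] at hJ
    rw [same_pk hi hi' (by omega)] at hab
    obtain ⟨rfl, k1⟩ := (en_lift hc hw hi).1 h1
    obtain ⟨rfl, k2⟩ := (en_lift hc hw' hi').1 h2
    rw [h.en w w' hw hJ hab k1 k2]

end

end Pool.Agent.MP42K
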