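import Pool.Agent.MP42.K.Lift4

/-!
# The lift to a refinement: one curve (helper73)
-/

set_option autoImplicit false
set_option linter.unusedSectionVars false

namespace Pool.Agent.MP42K

open Pool.Agent.Helper55.UNF Pool.Agent.Helper55.UNF.GridSolid Pool.Agent.MP42G
open Pool.Agent.MP42H Pool.Agent.MP42X Pool.Agent.MP42R

variable {P : GridSolid}

namespace Nb

section

variable {R : Core1 P} {c : ℕ} {N' : Nb (P.refine (2 * c + 1) (hm c))}

/-- along a line of parts -/
lemma chain {cv : (P.refine (2 * c + 1) (hm c)).FSt → Prop} (hI : N'.Inv cv) (u : P.FSt)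
    {i0 lo hi : ℕ} (_ : i0 ≤ 2 * c) (hhi : hi ≤ 2 * c)
    (h1 : ∀ j, lo ≤ j → j ≤ hi → N'.ke (pk c u i0 j) ∧ ¬ N'.kf (pk c u i0 j).facet)
    (h2 : ∀ j, lo < j → j ≤ hi → ¬ N'.ke (pk c u.rR (2 * c - j) i0)) (j : ℕ) (hj1 : lo ≤ j)
    (hj2 : j ≤ hi) : (cv (pk c u i0 j) ↔ cv (pk c u i0 hi)) ∧
      (cv (pk c u.rR (2 * c - j) i0) ↔ cv (pk c u i0 hi)) := by
  have e : ∀ j, lo ≤ j → j ≤ hi → (cv (pk c u i0 j) ↔ cv (pk c u.rR (2 * c - j) i0)) := by
    intro j a b
    obtain ⟨k1, k2⟩ := h1 j a b
    have := hI.e _ k2 k1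
    rwa [pk_rR] at this
  have key : ∀ d j, j + d = hi → lo ≤ j → (cv (pk c u i0 j) ↔ cv (pk c u i0 hi)) := by
    intro d
    induction d with
    | zero =>
      intro j hj _
      rw [show j = hi by omega]
    | succ d ih =>
      intro j hj hl
      rw [← ih (j + 1) (by omega) (by omega), e (j + 1) (by omega) (by omega)]
      obtain ⟨k1, k2⟩ := h1 (j + 1) (by omega) (by omega)
      have kv : N'.kv (pk c u.rR (2 * c - (j + 1)) i0) := by
        have := Nb.kv_rR k1
        rwa [pk_rR] at this
      have hx := hI.x _ kv (h2 (j + 1) (by omega) (by omega))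
      rw [pk_rot _ _ (by omega), FSt.rR_rL] at hx
      have e2 : pk c u i0 (2 * c - (2 * c - (j + 1) + 1)) = pk c u i0 j :=
        pk_congr rfl rfl (by omega)
      rw [e2] at hx
      exact hx.symm
  exact ⟨key (hi - j) j (by omega) hj1, (e j hj1 hj2).symm.trans (key (hi - j) j (by omega) hj1)⟩

end

section

variable {R : Core1 P} {c : ℕ} {N : Nb P} {J : P.Facet → Prop}

open Classical in
/-- the dart of the lift at a dart -/
noncomputable def phi (R : Core1 P) (c : ℕ) (s : P.FSt) : (P.refine (2 * c + 1) (hm c)).FSt :=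
  if R.core s.facet then (if IsV s then pk c s (2 * c) c else pk c s c (2 * c))
  else pk c s (2 * c) (2 * c)

variable {cv : (P.refine (2 * c + 1) (hm c)).FSt → Prop}

/-- along an edge outside the core -/
lemma chainA (hI : (N.lift R c).Inv cv) {s : P.FSt} (h : ¬ R.core s.facet) (hk : N.ke s)
    (hf : ¬ N.kf s.facet) (j : ℕ) (hj : j ≤ 2 * c) :
    (cv (pk c s (2 * c) j) ↔ cv (pk c s (2 * c) (2 * c))) ∧
      (cv (pk c s.rR (2 * c - j) (2 * c)) ↔ cv (pk c s (2 * c) (2 * c))) := by
  refine chain hI s (lo := 0) le_rfl le_rfl ?_ ?_ j (Nat.zero_le _) hj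
  · intro j _ hj
    rw [lift_ke s le_rfl hj, lift_kf s le_rfl hj]
    unfold kef kff
    rw [if_neg h, if_neg h, if_neg (by omega)]
    exact ⟨hk, hf⟩
  · intro j h0 hj
    rw [lift_ke _ (by omega) le_rfl]
    unfold kef
    rw [FSt.facet_rR, if_neg h, if_pos (by omega)]
    exact hf

/-- into the core, over a rim edge -/
lemma chainB (hI : (N.lift R c).Inv cv) (_ : 0 < c) {w : P.FSt} (h : R.core w.facet) (hV : IsV w)
    (hk : N.kv w) (hn : ¬ N.ke w.rL) (j : ℕ) (hj1 : c < j) (hj : j ≤ 2 * c) :
    (cv (pk c w (2 * c) j) ↔ cv (pk c w (2 * c) (2 * c))) ∧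
      (cv (pk c w.rR (2 * c - j) (2 * c)) ↔ cv (pk c w (2 * c) (2 * c))) := by
  have hV' : ¬ IsV w.rR := by rw [R.core_rR h]; exact not_not.2 hV
  refine chain hI w (lo := c + 1) le_rfl le_rfl ?_ ?_ j (by omega) hj
  · intro j h1 hj
    rw [lift_ke w le_rfl hj, lift_kf w le_rfl hj]
    unfold kef kff
    rw [if_pos h, if_pos h, if_pos hV, if_pos hV, if_neg (show ¬ j < c by omega),
      if_neg (show ¬ j < c by omega), if_neg (show ¬ j = c by omega),
      if_neg (show ¬ j = c by omega), if_neg (show ¬ 2 * c < 2 * c by omega)]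
    exact ⟨hk, hn⟩
  · intro j h0 hj
    rw [lift_ke _ (by omega) le_rfl]
    unfold kef
    rw [FSt.facet_rR, if_pos h, if_neg hV', if_neg (by omega), FSt.rR_r2]
    exact hn

lemma chainB' (hI : (N.lift R c).Inv cv) (hc : 0 < c) {w : P.FSt} (h : R.core w.facet)
    (hV : IsV w) (hk : N.kv w) (hn : ¬ N.ke w.rL) :
    (cv (pk c w (2 * c) (2 * c)) ↔ cv (pk c w (2 * c) c)) ∧
    (cv (pk c (pre w) (2 * c) (2 * c)) ↔ cv (pk c w (2 * c) (2 * c))) := by
  have hV' : ¬ IsV w.rR := by rw [R.core_rR h]; exact not_not.2 hV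
  constructor
  · have h1 := (chainB hI hc h hV hk hn (c + 1) (by omega) (by omega)).2
    have k1 : (N.lift R c).ke (pk c w (2 * c) (c + 1)) := by
      rw [lift_ke w le_rfl (by omega)]
      unfold kef
      rw [if_pos h, if_pos hV, if_neg (show ¬ c + 1 < c by omega),
        if_neg (show ¬ c + 1 = c by omega), if_neg (show ¬ 2 * c < 2 * c by omega)]
      exact hk
    have kv : (N.lift R c).kv (pk c w.rR (2 * c - (c + 1)) (2 * c)) := by
      have := Nb.kv_rR k1
      rwa [pk_rR] at this
    have kn : ¬ (N.lift R c).ke (pk c w.rR (2 * c - (c + 1)) (2 * c)) := by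
      rw [lift_ke _ (by omega) le_rfl]
      unfold kef
      rw [FSt.facet_rR, if_pos h, if_neg hV', if_neg (by omega), FSt.rR_r2]
      exact hn
    have hx := hI.x _ kv kn
    rw [pk_rot _ _ (by omega), FSt.rR_rL] at hx
    have e2 : pk c w (2 * c) (2 * c - (2 * c - (c + 1) + 1)) = pk c w (2 * c) c :=
      pk_congr rfl rfl (by omega)
    rw [e2] at hx
    exact h1.symm.trans hx
  · have h0 : ¬ R.core (pre w).facet := (R.N' ⟨hV, h⟩).2
    have hkp : N.kv (pre w) := by
      have := N.kv_rot (pre w)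
      rw [pre_rot] at this
      exact this.1 hk
    have hnp : ¬ N.ke (pre w) := fun h2 => hn ((N.ke_rev w.rL).1 h2)
    have kv : (N.lift R c).kv (pk c (pre w) (2 * c) (2 * c)) := by
      rw [lift_kv _ le_rfl le_rfl]
      unfold kvf
      rw [if_neg h0, if_neg (by omega), if_neg (by omega)]
      exact hkp
    have kn : ¬ (N.lift R c).ke (pk c (pre w) (2 * c) (2 * c)) := by
      rw [lift_ke _ le_rfl le_rfl]
      unfold kef
      rw [if_neg h0, if_neg (by omega)]
      exact hnp
    have hx := hI.x _ kv kn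
    rw [pk_rot_end, pre_rot] at hx
    exact hx

/-- out of the core, over a rim edge -/
lemma chainC (hI : (N.lift R c).Inv cv) (hc : 0 < c) {w : P.FSt} (h : R.core w.facet) (hV : IsV w)
    (hk : N.kv w.rR) (hn : ¬ N.ke w.rR) :
    (∀ j, j < c → (cv (pk c w (2 * c) j) ↔ cv (pk c w.rR c (2 * c))) ∧
      (cv (pk c w.rR (2 * c - j) (2 * c)) ↔ cv (pk c w.rR c (2 * c)))) ∧
    (cv (pk c w.rR c (2 * c)) ↔ cv (pk c (pN.symm w) (2 * c) (2 * c))) := by
  have hV' : ¬ IsV w.rR := by rw [R.core_rR h]; exact not_not.2 hV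
  -- the first step
  have kv : (N.lift R c).kv (pk c w.rR c (2 * c)) := by
    rw [lift_kv _ (by omega) le_rfl]
    unfold kvf
    rw [FSt.facet_rR, if_pos h, if_neg hV', if_pos le_rfl, if_neg (by omega)]
    exact hk
  have kn : ¬ (N.lift R c).ke (pk c w.rR c (2 * c)) := by
    rw [lift_ke _ (by omega) le_rfl]
    unfold kef
    rw [FSt.facet_rR, if_pos h, if_neg hV', if_pos le_rfl]
    exact hn
  have hx := hI.x _ kv kn
  rw [pk_rot _ _ (by omega), FSt.rR_rL] at hx
  have e2 : pk c w (2 * c) (2 * c - (c + 1)) = pk c w (2 * c) (c - 1) :=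
    pk_congr rfl rfl (by omega)
  rw [e2] at hx
  have key : ∀ j, j < c → (cv (pk c w (2 * c) j) ↔ cv (pk c w.rR c (2 * c))) ∧
      (cv (pk c w.rR (2 * c - j) (2 * c)) ↔ cv (pk c w.rR c (2 * c))) := by
    intro j hj
    rw [hx]
    refine chain hI w (lo := 0) (hi := c - 1) le_rfl (by omega) ?_ ?_ j (Nat.zero_le _)
      (by omega)
    · intro j _ hj
      rw [lift_ke w le_rfl (by omega), lift_kf w le_rfl (by omega)]
      unfold kef kff
      rw [if_pos h, if_pos h, if_pos hV, if_pos hV, if_pos (show j < c by omega),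
        if_pos (show j < c by omega), if_neg (show ¬ 2 * c < 2 * c by omega)]
      exact ⟨hk, hn⟩
    · intro j h0 hj
      rw [lift_ke _ (by omega) le_rfl]
      unfold kef
      rw [FSt.facet_rR, if_pos h, if_neg hV', if_pos (by omega)]
      exact hn
  refine ⟨key, ?_⟩
  have h1 := (key 0 hc).2
  rw [Nat.sub_zero] at h1
  have kv2 : (N.lift R c).kv (pk c w.rR (2 * c) (2 * c)) := by
    rw [lift_kv _ le_rfl le_rfl]
    unfold kvf
    rw [FSt.facet_rR, if_pos h, if_neg hV', if_pos (by omega), if_neg (by omega)]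
    exact hk
  have kn2 : ¬ (N.lift R c).ke (pk c w.rR (2 * c) (2 * c)) := by
    rw [lift_ke _ le_rfl le_rfl]
    unfold kef
    rw [FSt.facet_rR, if_pos h, if_neg hV', if_pos (by omega)]
    exact hn
  have hx2 := hI.x _ kv2 kn2
  have e3 : w.rR.stE.rL = pN.symm w := by
    rw [← pre_pNs, pre_rot]
  rw [pk_rot_end, e3] at hx2
  exact h1.symm.trans hx2

/-- along an arc, on the side of the band -/
lemma chainD (hI : (N.lift R c).Inv cv) {s : P.FSt} (h : R.core s.facet) (hV : ¬ IsV s)
    (hk : N.ke s) (j : ℕ) (hj : j ≤ 2 * c) :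
    (cv (pk c s c j) ↔ cv (pk c s c (2 * c))) ∧
      (cv (pk c s.rR (2 * c - j) c) ↔ cv (pk c s c (2 * c))) := by
  have hV' : IsV s.rR := (R.core_rR h).2 hV
  refine chain hI s (i0 := c) (lo := 0) (hi := 2 * c) (by omega) le_rfl ?_ ?_ j
    (Nat.zero_le _) hj
  · intro j _ hj
    rw [lift_ke s (by omega) hj, lift_kf s (by omega) hj]
    unfold kef kff
    rw [if_pos h, if_pos h, if_neg hV, if_neg hV, if_pos le_rfl, if_neg (lt_irrefl c),
      if_pos rfl]
    exact ⟨hk, id⟩
  · intro j h0 hj
    rw [lift_ke _ (by omega) (by omega)]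
    unfold kef
    rw [FSt.facet_rR, if_pos h, if_pos hV', if_neg (lt_irrefl c), if_pos rfl]
    exact id

/-- the restriction to the darts of the subcomplex -/
theorem inv_phi (hok : N.Ok R) (hc : 0 < c) (hI : (N.lift R c).Inv cv) :
    N.Inv (fun s => cv (phi R c s)) := by
  classical
  constructor
  · intro s hk hn
    show cv (phi R c s) ↔ cv (phi R c s.stE.rL)
    unfold phi
    rw [FSt.facet_rL]
    by_cases h : R.core s.facet
    · by_cases hV : IsV s
      · have h2 : R.core s.stE.facet := (R.E s hV).2 h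
        have hV' : ¬ IsV s.stE.rL := not_V_rL' ((IsV_stE s).2 hV)
        rw [if_pos h, if_pos hV, if_pos h2, if_neg hV']
        have kv : (N.lift R c).kv (pk c s (2 * c) c) := by
          rw [lift_kv _ le_rfl (by omega)]
          unfold kvf
          rw [if_pos h, if_pos hV, if_neg (by omega), if_neg (by omega)]
          exact hk
        have kn : ¬ (N.lift R c).ke (pk c s (2 * c) c) := by
          rw [lift_ke _ le_rfl (by omega)]
          unfold kef
          rw [if_pos h, if_pos hV, if_neg (by omega), if_pos rfl]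
          exact id
        have hx := hI.x _ kv kn
        rw [pk_rot_end] at hx
        exact hx
      · have h2 : ¬ R.core s.stE.facet := R.out_ncore h hV
        rw [if_pos h, if_neg hV, if_neg h2]
        have hV2 : IsV s.rL := (R.core_rL h).2 hV
        have h3 := (chainC hI hc (w := s.rL) h hV2 (by rw [FSt.rL_rR]; exact hk)
          (by rw [FSt.rL_rR]; exact hn)).2
        rw [FSt.rL_rR, Nb.pN_out] at h3
        exact h3
    · by_cases h2 : R.core s.stE.facet
      · have hV' : IsV s.stE.rL := Nb.V_in R h h2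
        rw [if_neg h, if_pos h2, if_pos hV']
        have hk2 : N.kv s.stE.rL := (N.kv_rot s).2 hk
        have hn2 : ¬ N.ke s.stE.rL.rL := by
          rw [FSt.rL_rL]; exact fun h3 => hn ((N.ke_rev s).1 h3)
        obtain ⟨h3, h4⟩ := chainB' hI hc (w := s.stE.rL) h2 hV' hk2 hn2
        rw [pre_of_rot] at h4
        exact h4.trans h3
      · rw [if_neg h, if_neg h2]
        have kv : (N.lift R c).kv (pk c s (2 * c) (2 * c)) := by
          rw [lift_kv _ le_rfl le_rfl]
          unfold kvf
          rw [if_neg h, if_neg (by omega), if_neg (by omega)]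
          exact hk
        have kn : ¬ (N.lift R c).ke (pk c s (2 * c) (2 * c)) := by
          rw [lift_ke _ le_rfl le_rfl]
          unfold kef
          rw [if_neg h, if_neg (by omega)]
          exact hn
        have hx := hI.x _ kv kn
        rw [pk_rot_end] at hx
        exact hx
  · intro s hf hk
    show cv (phi R c s) ↔ cv (phi R c s.rR)
    unfold phi
    rw [FSt.facet_rR]
    by_cases h : R.core s.facet
    · have hV : ¬ IsV s := fun hV => hok.ke s h hV hk
      have hV' : IsV s.rR := (R.core_rR h).2 hV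
      rw [if_pos h, if_neg hV, if_pos h, if_pos hV']
      have h1 := (chainD hI h hV hk 0 (Nat.zero_le _)).2
      rw [Nat.sub_zero] at h1
      exact h1.symm
    · rw [if_neg h, if_neg h]
      have h1 := (chainA hI h hk hf 0 (Nat.zero_le _)).2
      rw [Nat.sub_zero] at h1
      exact h1.symm

/-- every dart of the lift is on the curve of a dart -/
theorem exists_phi (hok : N.Ok R) (hc : 0 < c) {t : (P.refine (2 * c + 1) (hm c)).FSt}
    (ht : (N.lift R c).Dt t) :
    ∃ s, N.Dt s ∧ ∀ cv, (N.lift R c).Inv cv → (cv t ↔ cv (phi R c s)) := by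
  classical
  obtain ⟨s, i, j, hi, hj, rfl⟩ := exists_pkS t
  obtain ⟨hv, hf⟩ := ht
  rw [lift_kv s hi hj] at hv
  rw [lift_kf s hi hj] at hf
  unfold kvf at hv
  unfold kff at hf
  by_cases h : R.core s.facet
  · have hkf : ∀ u : P.FSt, u.facet = s.facet → ¬ N.kf u.facet := by
      intro u hu hk
      exact hok.kf _ hk (by rw [hu]; exact h)
    by_cases hV : IsV s
    · simp only [h, hV, if_true] at hv hf
      rcases lt_trichotomy j c with hj1 | hj1 | hj1
      · rw [if_pos hj1] at hv hf
        by_cases hi1 : i < 2 * c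
        · rw [if_pos hi1] at hv; exact absurd hv hf
        · rw [if_neg hi1] at hv
          obtain rfl : i = 2 * c := by omega
          have hV' : ¬ IsV s.rR := by rw [R.core_rR h]; exact not_not.2 hV
          refine ⟨s.rR, ⟨hv, hkf _ rfl⟩, fun cv hI => ?_⟩
          have h1 := ((chainC hI hc h hV hv hf).1 j hj1).1
          unfold phi
          rw [FSt.facet_rR, if_pos h, if_neg hV']
          exact h1
      · rw [if_neg (by omega)] at hv
        have hV' : ¬ IsV s.rL := not_V_rL' hV
        by_cases hi1 : i < 2 * c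
        · rw [if_pos hi1] at hv
          refine ⟨s.rL, ⟨N.ke_kv _ hv, hkf _ rfl⟩, fun cv hI => ?_⟩
          have h1 := (chainD hI (s := s.rL) h hV' hv (2 * c - i) (by omega)).2
          unfold phi
          rw [FSt.facet_rL, if_pos h, if_neg hV', hj1]
          rw [FSt.rL_rR, show 2 * c - (2 * c - i) = i by omega] at h1
          exact h1
        · rw [if_neg hi1] at hv
          obtain rfl : i = 2 * c := by omega
          refine ⟨s, ⟨hv, hkf _ rfl⟩, fun cv hI => ?_⟩
          unfold phi
          rw [if_pos h, if_pos hV, hj1]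
      · rw [if_neg (by omega), if_neg (by omega)] at hf
        rw [if_neg (by omega)] at hv
        by_cases hi1 : i < 2 * c
        · rw [if_pos hi1] at hv; exact absurd hv hf
        · rw [if_neg hi1] at hv
          obtain rfl : i = 2 * c := by omega
          refine ⟨s, ⟨hv, hkf _ rfl⟩, fun cv hI => ?_⟩
          have h1 := (chainB hI hc h hV hv hf j hj1 hj).1
          have h2 := (chainB' hI hc h hV hv hf).1
          unfold phi
          rw [if_pos h, if_pos hV]
          exact h1.trans h2
    · simp only [h, hV, if_true, if_false] at hv hf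
      have hV2 : IsV s.rL := (R.core_rL h).2 hV
      rcases lt_trichotomy i c with hi1 | hi1 | hi1
      · rw [if_neg (by omega), if_neg (by omega)] at hf
        rw [if_neg (by omega)] at hv
        by_cases hj1 : j < 2 * c
        · rw [if_pos hj1] at hv; exact absurd hv hf
        · rw [if_neg hj1] at hv
          obtain rfl : j = 2 * c := by omega
          refine ⟨s.rL, ⟨hv, hkf _ rfl⟩, fun cv hI => ?_⟩
          have hf' : ¬ N.ke s.rL.rL := by rw [FSt.rL_rL]; exact hf
          have h1 := (chainB hI hc (w := s.rL) h hV2 hv hf' (2 * c - i) (by omega)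
            (by omega)).2
          have h2 := (chainB' hI hc (w := s.rL) h hV2 hv hf').1
          unfold phi
          rw [FSt.facet_rL, if_pos h, if_pos hV2]
          rw [FSt.rL_rR, show 2 * c - (2 * c - i) = i by omega] at h1
          exact h1.trans h2
      · rw [if_pos (by omega)] at hv
        by_cases hj1 : j < 2 * c
        · rw [if_pos hj1] at hv
          refine ⟨s, ⟨N.ke_kv _ hv, hkf _ rfl⟩, fun cv hI => ?_⟩
          unfold phi
          rw [if_pos h, if_neg hV, hi1]
          exact (chainD hI h hV hv j hj).1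
        · rw [if_neg hj1] at hv
          obtain rfl : j = 2 * c := by omega
          refine ⟨s, ⟨hv, hkf _ rfl⟩, fun cv hI => ?_⟩
          unfold phi
          rw [if_pos h, if_neg hV, hi1]
      · rw [if_pos hi1] at hf
        rw [if_pos (by omega)] at hv
        by_cases hj1 : j < 2 * c
        · rw [if_pos hj1] at hv; exact absurd hv hf
        · rw [if_neg hj1] at hv
          obtain rfl : j = 2 * c := by omega
          refine ⟨s, ⟨hv, hkf _ rfl⟩, fun cv hI => ?_⟩
          have h1 := ((chainC hI hc (w := s.rL) h hV2 (by rw [FSt.rL_rR]; exact hv)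
            (by rw [FSt.rL_rR]; exact hf)).1 (2 * c - i) (by omega)).2
          unfold phi
          rw [if_pos h, if_neg hV]
          rw [FSt.rL_rR, show 2 * c - (2 * c - i) = i by omega] at h1
          exact h1
  · simp only [h, if_false] at hv hf
    by_cases hi1 : i < 2 * c
    · rw [if_pos hi1] at hv
      by_cases hj1 : j < 2 * c
      · rw [if_pos hj1] at hv; exact absurd hv hf
      · rw [if_neg hj1] at hv
        obtain rfl : j = 2 * c := by omega
        refine ⟨s.rL, ⟨N.ke_kv _ hv, hf⟩, fun cv hI => ?_⟩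
        have h1 := (chainA hI (s := s.rL) h hv hf (2 * c - i) (by omega)).2
        unfold phi
        rw [FSt.facet_rL, if_neg h]
        rw [FSt.rL_rR, show 2 * c - (2 * c - i) = i by omega] at h1
        exact h1
    · rw [if_neg hi1] at hv
      obtain rfl : i = 2 * c := by omega
      by_cases hj1 : j < 2 * c
      · rw [if_pos hj1] at hv
        refine ⟨s, ⟨N.ke_kv _ hv, hf⟩, fun cv hI => ?_⟩
        unfold phi
        rw [if_neg h]
        exact (chainA hI h hv hf j hj).1
      · rw [if_neg hj1] at hv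
        obtain rfl : j = 2 * c := by omega
        refine ⟨s, ⟨hv, hf⟩, fun cv hI => ?_⟩
        unfold phi
        rw [if_neg h]

/-- **One curve stays one curve.** -/
theorem lift_one (hok : N.Ok R) (hc : 0 < c) (h1 : ∀ s t, N.Dt s → N.Dt t → N.E s t)
    (s t : (P.refine (2 * c + 1) (hm c)).FSt) (hs : (N.lift R c).Dt s) (ht : (N.lift R c).Dt t) :
    (N.lift R c).E s t := by
  obtain ⟨a, ha, ea⟩ := exists_phi hok hc hs
  obtain ⟨b, hb, eb⟩ := exists_phi hok hc ht
  intro cv hI
  rw [ea cv hI, eb cv hI]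
  exact h1 a b ha hb _ (inv_phi hok hc hI)

end

end Nb

end Pool.Agent.MP42K
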