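import Pool.Agent.MP42.K.Lift5

/-!
# The lift to a refinement: junctions and trees (helper73)

* `Core1.jn_mid`: the junctions of the middle rows are the lifted junctions;
* `Core1.Tree.mid`: a tree of junctions stays a tree.
-/

set_option autoImplicit false
set_option linter.unusedSectionVars false

namespace Pool.Agent.MP42K

open Pool.Agent.Helper55.UNF Pool.Agent.Helper55.UNF.GridSolid Pool.Agent.MP42G
open Pool.Agent.MP42H Pool.Agent.MP42X Pool.Agent.MP42R
open Core1 (jf)

variable {P : GridSolid}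

namespace Core1

variable {R : Core1 P} {c : ℕ}

/-- The lift of a predicate that is constant on the junctions. -/
theorem QJ.lift {S : P.Facet → Prop} (hS : R.QJ S) (hc : 0 < c) :
    (R.mid c hc).QJ (R.liftJ c S) := by
  intro t h0 h1
  obtain ⟨s, i, j, hi, hj, rfl⟩ := exists_pkS t
  rw [R.mid_core s hi hj] at h0
  by_cases hi1 : i < 2 * c
  · rw [pk_stE s j hi1] at h1 ⊢
    rw [R.mid_core s (by omega) hj] at h1
    rw [liftJ_pk s hi hj, liftJ_pk s (by omega) hj]
    unfold Jf
    by_cases h : R.core s.facet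
    · by_cases hV : IsV s
      · simp only [h, hV, if_true]
      · have e1 : i ≠ c := fun e => h0 ⟨h, Or.inr ⟨hV, e⟩⟩
        have e2 : i + 1 ≠ c := fun e => h1 ⟨h, Or.inr ⟨hV, e⟩⟩
        simp only [h, hV, if_true, if_false, e1, e2]
        rcases lt_or_gt_of_ne e1 with e | e
        · rw [if_neg (by omega), if_neg (by omega)]
        · rw [if_pos e, if_pos (by omega)]
    · simp only [h, if_false]
  · obtain rfl : i = 2 * c := by omega
    rw [pk_stE_end] at h1 ⊢
    rw [liftJ_pk s le_rfl hj, liftJ_pk s.stE (Nat.zero_le _) hj]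
    unfold Jf
    by_cases h : R.core s.facet
    · by_cases hV : IsV s
      · have h2 : R.core s.stE.facet := (R.E s hV).2 h
        have hV2 : IsV s.stE := (IsV_stE s).2 hV
        have hR : R.Rim s := ⟨hV, h⟩
        have hRE : R.Rim s.stE := ⟨hV2, h2⟩
        have e1 : j ≠ c := fun e => h0 ⟨h, Or.inl ⟨hV, e⟩⟩
        simp only [h, hV, h2, hV2, if_true, e1, if_false]
        rcases lt_or_gt_of_ne e1 with e | e
        · rw [if_pos e, if_pos e]
          have h3 := hS (pN.symm s) (R.S' hR).2 (by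
            rw [R.comm_symm hR]; exact (R.S' hRE).2)
          rw [R.comm_symm hR] at h3
          exact h3
        · rw [if_neg (by omega), if_neg (by omega)]
          have h3 := hS s.stN (R.N' hR).2 (by
            rw [← R.comm' hR]; exact (R.N' hRE).2)
          rw [← R.comm' hR] at h3
          exact h3
      · have h2 : ¬ R.core s.stE.facet := R.out_ncore h hV
        simp only [h, hV, h2, if_true, if_false]
        rw [if_pos (by omega)]
    · by_cases h2 : R.core s.stE.facet
      · have hV' : ¬ IsV s.stE := R.in_nV h h2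
        simp only [h, h2, hV', if_true, if_false]
        rw [if_neg (by omega), if_neg (by omega), pE_symm_stE']
      · simp only [h, h2, if_false]
        exact hS s h h2
where
  pE_symm_stE' {s : P.FSt} : pE.symm s.stE = s := by
    rw [← pE_apply]; exact Equiv.symm_apply_apply _ _

lemma QJ.N {S : P.Facet → Prop} (hS : R.QJ S) {s : P.FSt} (h0 : ¬ R.core s.facet)
    (h1 : ¬ R.core s.stN.facet) : S s.facet ↔ S s.stN.facet := hS s.rL h0 h1

section

variable {Q : (P.refine (2 * c + 1) (hm c)).Facet → Prop} {hc : 0 < c}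

lemma ncore_pk {s : P.FSt} (h : ¬ R.core s.facet) {i j : ℕ} (hi : i ≤ 2 * c) (hj : j ≤ 2 * c) :
    ¬ (R.mid c hc).core (pk c s i j).facet := by
  rw [R.mid_core s hi hj]
  exact fun h1 => h h1.1

/-- constant on the parts of a facet outside the core -/
lemma QJ.parts (hQ : (R.mid c hc).QJ Q) {s : P.FSt} (h : ¬ R.core s.facet) {i j : ℕ}
    (hi : i ≤ 2 * c) (hj : j ≤ 2 * c) :
    Q (pk c s i j).facet ↔ Q (pk c s 0 0).facet := by
  have hE : ∀ s : P.FSt, ¬ R.core s.facet → ∀ i, i ≤ 2 * c → ∀ j, j ≤ 2 * c →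
      (Q (pk c s i j).facet ↔ Q (pk c s 0 j).facet) := by
    intro s h i
    induction i with
    | zero => intro _ j _; exact Iff.rfl
    | succ i ih =>
      intro hi j hj
      rw [← ih (by omega) j hj]
      have h1 := hQ (pk c s i j) (ncore_pk h (by omega) hj)
        (by rw [pk_stE s j (by omega)]; exact ncore_pk h hi hj)
      rw [pk_stE s j (by omega)] at h1
      exact h1.symm
  rw [hE s h i hi j hj]
  have e1 : (pk c s 0 j).facet = (pk c s.rL j (2 * c)).facet := by
    rw [← FSt.facet_rL, pk_rL, Nat.sub_zero]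
  have e2 : (pk c s 0 0).facet = (pk c s.rL 0 (2 * c)).facet := by
    rw [← FSt.facet_rL, pk_rL, Nat.sub_zero]
  rw [e1, e2]
  exact hE s.rL h j hj (2 * c) le_rfl

lemma QJ.frame (hQ : (R.mid c hc).QJ Q) {s t : P.FSt} (hst : s.facet = t.facet)
    (h : ¬ R.core s.facet) {i j i' j' : ℕ} (hi : i ≤ 2 * c) (hj : j ≤ 2 * c) (hi' : i' ≤ 2 * c)
    (hj' : j' ≤ 2 * c) : Q (pk c s i j).facet ↔ Q (pk c t i' j').facet := by
  rw [hQ.parts h hi hj, hQ.parts (by rw [← hst]; exact h) hi' hj']
  obtain ⟨a, ha, b, hb, e⟩ := exists_pkF t (pk c s 0 0).facet (by rw [ck_pk, hst])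
  rw [e, hQ.parts (by rw [← hst]; exact h) ha hb]

/-- the predicate on the facets of `P` -/
def QJd (c : ℕ) (Q : (P.refine (2 * c + 1) (hm c)).Facet → Prop) (f : P.Facet) : Prop :=
  ∀ s : P.FSt, s.facet = f → Q (pk c s 0 0).facet

lemma QJ.down (hQ : (R.mid c hc).QJ Q) {s : P.FSt} (h : ¬ R.core s.facet) {i j : ℕ}
    (hi : i ≤ 2 * c) (hj : j ≤ 2 * c) : Q (pk c s i j).facet ↔ QJd c Q s.facet := by
  constructor
  · intro h1 t ht
    exact (hQ.frame ht.symm h hi hj (Nat.zero_le _) (Nat.zero_le _)).1 h1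
  · intro h1
    rw [hQ.parts h hi hj]
    exact h1 s rfl

lemma QJ.d (hQ : (R.mid c hc).QJ Q) : R.QJ (QJd c Q) := by
  intro s h0 h1
  rw [← hQ.down h0 (i := 2 * c) (j := 0) le_rfl (Nat.zero_le _),
    ← hQ.down h1 (i := 0) (j := 0) (Nat.zero_le _) (Nat.zero_le _)]
  have h2 := hQ (pk c s (2 * c) 0) (ncore_pk h0 le_rfl (Nat.zero_le _))
    (by rw [pk_stE_end]; exact ncore_pk h1 (Nat.zero_le _) (Nat.zero_le _))
  rw [pk_stE_end] at h2
  exact h2

/-- the value on the new rows in the south of the middle row -/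
lemma QJ.rowS (hQ : (R.mid c hc).QJ Q) {w : P.FSt} (hw : R.Rim w) {i j : ℕ} (hi : i ≤ 2 * c)
    (hj : j < c) : Q (pk c w i j).facet ↔ QJd c Q (pN.symm w).facet := by
  have hn : ∀ j, j < c → ¬ (R.mid c hc).core (pk c w i j).facet := by
    intro j hj
    rw [R.mid_core w hi (by omega)]
    rintro ⟨-, h1 | h1⟩
    · omega
    · exact h1.1 hw.1
  induction j with
  | zero =>
    have h0 : ¬ R.core (pN.symm w).facet := (R.S' hw).2
    rw [← hQ.down h0 (i := i) (j := 2 * c) hi le_rfl]
    have e : (pk c (pN.symm w) i (2 * c)).stN = pk c w i 0 := by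
      rw [pk_stN_end, pN_symm_stN]
    have h1 := QJ.N hQ (s := pk c (pN.symm w) i (2 * c)) (ncore_pk h0 hi le_rfl)
      (by rw [e]; exact hn 0 hc)
    rw [e] at h1
    exact h1.symm
  | succ j ih =>
    have e : (pk c w i j).stN = pk c w i (j + 1) := pk_stN w i (by omega)
    have h1 := QJ.N hQ (s := pk c w i j) (hn j (by omega)) (by rw [e]; exact hn (j + 1) hj)
    rw [e] at h1
    exact h1.symm.trans (ih (by omega))

/-- the value on the lifted junction -/
lemma QJ.on_lift (hQ : (R.mid c hc).QJ Q) {S : P.Facet → Prop}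
    {F : (P.refine (2 * c + 1) (hm c)).Facet} (hF : R.liftJ c S F) :
    ∃ f, S f ∧ (Q F ↔ QJd c Q f) := by
  obtain ⟨t, rfl⟩ := exists_stF F
  obtain ⟨s, i, j, hi, hj, rfl⟩ := exists_pkS t
  have key : ∀ (s : P.FSt) (i j : ℕ), i ≤ 2 * c → j ≤ 2 * c → R.core s.facet → IsV s →
      R.liftJ c S (pk c s i j).facet →
      ∃ f, S f ∧ (Q (pk c s i j).facet ↔ QJd c Q f) := by
    intro s i j hi hj h hV hF
    rw [liftJ_pk s hi hj] at hF
    unfold Jf at hF
    simp only [h, hV, if_true] at hF
    rcases lt_trichotomy j c with e | e | e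
    · rw [if_pos e] at hF
      exact ⟨_, hF, hQ.rowS ⟨hV, h⟩ hi e⟩
    · rw [if_neg (by omega), if_pos e] at hF; exact hF.elim
    · rw [if_neg (by omega), if_neg (by omega)] at hF
      refine ⟨_, hF, ?_⟩
      have h1 := hQ.rowS (w := s.r2) (Rim.r2 R ⟨hV, h⟩) (i := 2 * c - i) (j := 2 * c - j)
        (by omega) (by omega)
      rw [← pk_r2, FSt.facet_r2, pN_symm_apply, FSt.r2_r2, FSt.facet_r2] at h1
      exact h1
  by_cases h : R.core s.facet
  · by_cases hV : IsV s
    · exact key s i j hi hj h hV hF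
    · have e : (pk c s i j).facet = (pk c s.rL j (2 * c - i)).facet := by
        rw [← FSt.facet_rL, pk_rL]
      rw [e] at hF ⊢
      exact key s.rL j (2 * c - i) hj (by omega) h ((R.core_rL h).2 hV) hF
  · rw [liftJ_pk s hi hj] at hF
    unfold Jf at hF
    rw [if_neg h] at hF
    exact ⟨_, hF, hQ.down h hi hj⟩

end

/-- the junction facet of a rim state of the middle rows is in the lift -/
lemma liftJ_jf (hc : 0 < c) {w : P.FSt} (hw : R.Rim w) {i : ℕ} (hi : i ≤ 2 * c)
    {S : P.Facet → Prop} : R.liftJ c S (jf (pk c w i c)) ↔ S (jf w) := liftJ_rim hc hw hi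

/-- **The junctions of the middle rows.** -/
theorem jn_mid (hc : 0 < c) {f : P.Facet} {F : (P.refine (2 * c + 1) (hm c)).Facet}
    (hF : R.liftJ c (Jn R f) F) : Jn (R.mid c hc) F = R.liftJ c (Jn R f) := by
  have hQS : R.QJ (Jn R f) := by
    intro s h0 h1
    constructor
    · rintro ⟨-, h2⟩
      exact ⟨h1, fun Q hQ => (h2 Q hQ).trans (hQ s h0 h1)⟩
    · rintro ⟨-, h2⟩
      exact ⟨h0, fun Q hQ => (h2 Q hQ).trans (hQ s h0 h1).symm⟩
  funext G
  apply propext
  constructor
  · rintro ⟨-, h1⟩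
    exact (h1 _ (hQS.lift hc)).1 hF
  · intro hG
    refine ⟨liftJ_nc hc hG, fun Q hQ => ?_⟩
    obtain ⟨a, ha, ea⟩ := QJ.on_lift hQ hF
    obtain ⟨b, hb, eb⟩ := QJ.on_lift hQ hG
    rw [ea, eb, ← ha.2 _ (QJ.d hQ), ← hb.2 _ (QJ.d hQ)]

/-- the other rim of a band -/
lemma pk_rim_r2 (w : P.FSt) {i : ℕ} : (pk c w i c).r2 = pk c w.r2 (2 * c - i) c := by
  rw [pk_r2]
  exact pk_congr rfl rfl (by omega)

/-- **A tree of junctions stays a tree.** -/
theorem Tree.mid {tr : P.FSt → Prop} (T : R.Tree tr) (hc : 0 < c) :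
    (R.mid c hc).Tree (fun t => tr (bs t)) where
  conn Q hQ hQt := by
    have hbs : ∀ (w : P.FSt) (i : ℕ), i ≤ 2 * c → bs (pk c w i c) = w :=
      fun w i hi => (b_pk w hi (by omega)).1
    have hd := QJ.d hQ
    have hjf : ∀ w, R.Rim w → ∀ i, i ≤ 2 * c →
        (Q (pN.symm (pk c w i c)).facet ↔ QJd c Q (pN.symm w).facet) := by
      intro w hw i hi
      rw [pNs_rim hc]
      exact QJ.rowS hQ hw hi (by omega)
    have key := T.conn (QJd c Q) hd (by
      intro r hr htr
      have h1 := hQt (pk c r 0 c) ((rim_mid hc).2 ⟨r, 0, Nat.zero_le _, hr, rfl⟩)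
        (by rw [hbs r 0 (Nat.zero_le _)]; exact htr)
      rw [hjf r hr 0 (Nat.zero_le _), pk_rim_r2, hjf r.r2 (Rim.r2 R hr) _ (by omega)] at h1
      exact h1)
    -- every facet outside the middle rows is in the lift of a junction
    have hall : ∀ F, ¬ (R.mid c hc).core F → ∃ f, ¬ R.core f ∧ (Q F ↔ QJd c Q f) := by
      intro F hF
      have : R.liftJ c (fun f => ¬ R.core f) F := by
        obtain ⟨t, rfl⟩ := exists_stF F
        obtain ⟨s, i, j, hi, hj, rfl⟩ := exists_pkS t
        rw [R.mid_core s hi hj] at hF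
        rw [liftJ_pk s hi hj]
        unfold Jf
        by_cases h : R.core s.facet
        · by_cases hV : IsV s
          · simp only [h, hV, if_true]
            have e1 : j ≠ c := fun e => hF ⟨h, Or.inl ⟨hV, e⟩⟩
            simp only [e1, if_false]
            split_ifs
            · exact (R.S' ⟨hV, h⟩).2
            · exact (R.N' ⟨hV, h⟩).2
          · simp only [h, hV, if_true, if_false]
            have e1 : i ≠ c := fun e => hF ⟨h, Or.inr ⟨hV, e⟩⟩
            simp only [e1, if_false]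
            split_ifs
            · exact R.out_ncore h hV
            · have hR : R.Rim s.rL := ⟨(R.core_rL h).2 hV, h⟩
              have h3 := (R.N' hR).2
              rw [facet_stN_rL] at h3
              exact h3
        · simp only [h, if_false, not_false_eq_true]
      exact QJ.on_lift hQ this
    intro F G hF hG
    obtain ⟨f, hf, ef⟩ := hall F hF
    obtain ⟨g, hg, eg⟩ := hall G hG
    rw [ef, eg]
    exact key f g hf hg
  sep t ht htr := by
    obtain ⟨w, i, hi, hw, rfl⟩ := (rim_mid hc).1 ht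
    rw [(b_pk w hi (by omega)).1] at htr
    obtain ⟨S, hS, h1, h2⟩ := T.sep w hw htr
    refine ⟨R.liftJ c S, QJ.lift hS hc, ?_, ?_⟩
    · intro r hr htr' h3 h4
      obtain ⟨w', i', hi', hw', rfl⟩ := (rim_mid hc).1 hr
      rw [(b_pk w' hi' (by omega)).1] at htr'
      rw [same_pk hi hi' (by omega)] at h3
      rw [pk_rim_r2, same_pk (by omega) hi' (by omega)] at h4
      rw [pk_rim_r2, liftJ_rim hc hw' hi', liftJ_rim hc (Rim.r2 R hw') (by omega)]
      exact h1 w' hw' htr' h3 h4
    · rw [pk_rim_r2, liftJ_rim hc hw hi, liftJ_rim hc (Rim.r2 R hw) (by omega)]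
      exact h2

end Core1

end Pool.Agent.MP42K
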