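import Pool.Agent.MP42.K.Lift6
import Pool.Agent.MP42.K.JFin
import Pool.Agent.MP42.K.HtoKL

/-!
# Certificates without lines, their lift, and certificates with lines (helper73)

* `KCJ R J N H lin lout`: a certificate without lines on the junction `J` (all bands are tree bands);
* `Gr0.toKC0`: from the growth without open darts;
* `KCJ.lift`: the lift to the refinement by `2 * c + 1` and the middle rows;
* `KCJ.toKH`: with lines `V` and the coverage it is a certificate `KH`;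
* `unfolding_of_mid`: the reduction theorem for the middle rows.
-/

set_option autoImplicit false
set_option linter.unusedSectionVars false

namespace Pool.Agent.MP42K

open Pool.Agent.Helper55.UNF Pool.Agent.Helper55.UNF.GridSolid Pool.Agent.MP42G
open Pool.Agent.MP42H Pool.Agent.MP42X Pool.Agent.MP42R
open Core1 (jf)

variable {P : GridSolid}

/-- A certificate without lines. -/
structure KCJ (R : Core1 P) (J : P.Facet → Prop) (N : Nb P) (H : P.FSt → ℤ)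
    (lin lout : P.FSt → Ln) : Prop where
  g : KG0 J N H
  inn : N.In R J
  one : ∀ s t, N.Dt s → N.Dt t → N.E s t
  lin_E : ∀ r, R.Rim r → J (jf r) → lin r.stE = lin r
  lout_E : ∀ r, R.Rim r → J (jf r) → lout r.stE = lout r
  adm : ∀ r, R.Rim r → J (jf r) →
    ¬ (lin r = Ln.n ∧ lout r = Ln.s) ∧ ¬ (lin r = Ln.s ∧ lout r = Ln.n)
  st : ∀ r, R.Rim r → J (jf r) → St N.kv N.ke r → H (pN.symm r).rL = Hof (lin r)
  en : ∀ r, R.Rim r → J (jf r) → En N.kv N.ke r → H (pre (pN.symm r)) = Hof (lout r)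
  st_ex : ∀ r, R.Rim r → J (jf r) → ∃! a, pE.SameCycle r a ∧ St N.kv N.ke a
  en_ex : ∀ r, R.Rim r → J (jf r) → ∃! a, pE.SameCycle r a ∧ En N.kv N.ke a
  arc : ∀ r, R.Rim r → J (jf r) →
    (lin r = Ln.z ∧ lout r = Ln.n) ∨ (lin r = Ln.s ∧ lout r = Ln.z) →
    En N.kv N.ke r → N.ke (pN.symm r.stE).rL

/-- From the growth without open darts. -/
theorem Gr0.toKC0 {R : Core1 P} {J : P.Facet → Prop} {N : Nb P} {H : P.FSt → ℤ}
    {lin lout : P.FSt → Ln} (h : Gr0 R J N H lin lout []) (inn : N.In R J)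
    (adm : ∀ r, R.Rim r → J (jf r) →
      ¬ (lin r = Ln.n ∧ lout r = Ln.s) ∧ ¬ (lin r = Ln.s ∧ lout r = Ln.n))
    (st_ex : ∀ r, R.Rim r → J (jf r) → ∃! a, pE.SameCycle r a ∧ St N.kv N.ke a)
    (en_ex : ∀ r, R.Rim r → J (jf r) → ∃! a, pE.SameCycle r a ∧ En N.kv N.ke a)
    (arc : ∀ r, R.Rim r → J (jf r) →
      (lin r = Ln.z ∧ lout r = Ln.n) ∨ (lin r = Ln.s ∧ lout r = Ln.z) →
      En N.kv N.ke r → N.ke (pN.symm r.stE).rL) : KCJ R J N H lin lout where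
  g := h.toKG0
  inn := inn
  one := h.one
  lin_E := fun r hr hJ => (h.lE r hr hJ).1
  lout_E := fun r hr hJ => (h.lE r hr hJ).2
  adm := adm
  st := h.st
  en := h.en
  st_ex := st_ex
  en_ex := en_ex
  arc := arc

namespace KCJ

variable {R : Core1 P} {J : P.Facet → Prop} {N : Nb P} {H : P.FSt → ℤ} {lin lout : P.FSt → Ln}

/-- the lifted labels -/
noncomputable def liftL (c : ℕ) (l : P.FSt → Ln) (t : (P.refine (2 * c + 1) (hm c)).FSt) : Ln :=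
  l (bs t)

lemma liftL_pk {c : ℕ} (l : P.FSt → Ln) (s : P.FSt) {i j : ℕ} (hi : i ≤ 2 * c) (hj : j ≤ 2 * c) :
    liftL c l (pk c s i j) = l s := by
  unfold liftL
  rw [(b_pk s hi hj).1]

lemma liftL_stE {c : ℕ} {l : P.FSt → Ln} {w : P.FSt} {i : ℕ} (hi : i ≤ 2 * c)
    (h : l w.stE = l w) : liftL c l (pk c w i c).stE = liftL c l (pk c w i c) := by
  by_cases hi1 : i < 2 * c
  · rw [pk_stE w c hi1, liftL_pk l w (by omega) (by omega), liftL_pk l w hi (by omega)]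
  · obtain rfl : i = 2 * c := by omega
    rw [pk_stE_end, liftL_pk l _ (Nat.zero_le _) (by omega), liftL_pk l w le_rfl (by omega), h]

/-- **The lift of a certificate without lines.** -/
theorem lift (h : KCJ R J N H lin lout) {c : ℕ} (hc : 0 < c) :
    KCJ (R.mid c hc) (R.liftJ c J) (N.lift R c) (Nb.liftH R c H) (liftL c lin)
      (liftL c lout) where
  g := h.g.lift hc
  inn := h.inn.lift hc
  one := Nb.lift_one h.inn.ok hc h.one
  lin_E r hr hJ := by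
    obtain ⟨w, i, hi, hw, rfl⟩ := (Core1.rim_mid hc).1 hr
    exact liftL_stE hi (h.lin_E w hw ((Core1.liftJ_jf hc hw hi).1 hJ))
  lout_E r hr hJ := by
    obtain ⟨w, i, hi, hw, rfl⟩ := (Core1.rim_mid hc).1 hr
    exact liftL_stE hi (h.lout_E w hw ((Core1.liftJ_jf hc hw hi).1 hJ))
  adm r hr hJ := by
    obtain ⟨w, i, hi, hw, rfl⟩ := (Core1.rim_mid hc).1 hr
    rw [liftL_pk lin w hi (by omega), liftL_pk lout w hi (by omega)]
    exact h.adm w hw ((Core1.liftJ_jf hc hw hi).1 hJ)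
  st r hr hJ hS := by
    obtain ⟨w, i, hi, hw, rfl⟩ := (Core1.rim_mid hc).1 hr
    obtain ⟨rfl, hS'⟩ := (st_lift hc hw hi).1 hS
    rw [liftL_pk lin w hi (by omega), ← h.st w hw ((Core1.liftJ_jf hc hw hi).1 hJ) hS',
      pNs_rim hc, pk_rL, Nb.liftH_pk _ (by omega) (by omega)]
    unfold Nb.Hf
    rw [FSt.facet_rL, if_pos hw.2, if_neg (rim_nV_rL hw), if_neg (by omega), FSt.rL_rL, pre_r2]
  en r hr hJ hE := by
    obtain ⟨w, i, hi, hw, rfl⟩ := (Core1.rim_mid hc).1 hr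
    obtain ⟨rfl, hE'⟩ := (en_lift hc hw hi).1 hE
    rw [liftL_pk lout w hi (by omega), ← h.en w hw ((Core1.liftJ_jf hc hw hi).1 hJ) hE',
      pNs_rim hc, pk_pre w le_rfl (by omega), Nb.liftH_pk _ (by omega) le_rfl]
    unfold Nb.Hf
    rw [FSt.facet_rR, if_pos hw.2, if_neg (rim_nV_rR hw), if_pos (by omega), pre_pNs]
  st_ex r hr hJ := by
    obtain ⟨w, i, hi, hw, rfl⟩ := (Core1.rim_mid hc).1 hr
    obtain ⟨a, ⟨ha1, ha2⟩, ha3⟩ := h.st_ex w hw ((Core1.liftJ_jf hc hw hi).1 hJ)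
    have hRa : R.Rim a := Core1.Rim.same R hw ha1
    refine ⟨pk c a 0 c, ⟨(same_pk hi (Nat.zero_le _) (by omega)).2 ha1,
      (st_lift hc hRa (Nat.zero_le _)).2 ⟨rfl, ha2⟩⟩, ?_⟩
    rintro b ⟨hb1, hb2⟩
    have hb : (R.mid c hc).Rim b := Core1.Rim.same (R.mid c hc) hr hb1
    obtain ⟨w', i', hi', hw', rfl⟩ := (Core1.rim_mid hc).1 hb
    rw [same_pk hi hi' (by omega)] at hb1
    obtain ⟨rfl, hb3⟩ := (st_lift hc hw' hi').1 hb2
    rw [ha3 w' ⟨hb1, hb3⟩]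
  en_ex r hr hJ := by
    obtain ⟨w, i, hi, hw, rfl⟩ := (Core1.rim_mid hc).1 hr
    obtain ⟨a, ⟨ha1, ha2⟩, ha3⟩ := h.en_ex w hw ((Core1.liftJ_jf hc hw hi).1 hJ)
    have hRa : R.Rim a := Core1.Rim.same R hw ha1
    refine ⟨pk c a (2 * c) c, ⟨(same_pk hi le_rfl (by omega)).2 ha1,
      (en_lift hc hRa le_rfl).2 ⟨rfl, ha2⟩⟩, ?_⟩
    rintro b ⟨hb1, hb2⟩
    have hb : (R.mid c hc).Rim b := Core1.Rim.same (R.mid c hc) hr hb1
    obtain ⟨w', i', hi', hw', rfl⟩ := (Core1.rim_mid hc).1 hb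
    rw [same_pk hi hi' (by omega)] at hb1
    obtain ⟨rfl, hb3⟩ := (en_lift hc hw' hi').1 hb2
    rw [ha3 w' ⟨hb1, hb3⟩]
  arc r hr hJ hl hE := by
    obtain ⟨w, i, hi, hw, rfl⟩ := (Core1.rim_mid hc).1 hr
    obtain ⟨rfl, hE'⟩ := (en_lift hc hw hi).1 hE
    rw [liftL_pk lin w le_rfl (by omega), liftL_pk lout w le_rfl (by omega)] at hl
    have h1 := h.arc w hw ((Core1.liftJ_jf hc hw hi).1 hJ) hl hE'
    have hwE := Core1.Rim.E R hw
    rw [ke_south] at h1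
    rw [pk_stE_end, pNs_rim hc, pk_rL, Nb.lift_ke _ (by omega) (by omega)]
    unfold Nb.kef
    rw [FSt.facet_rL, if_pos hwE.2, if_neg (rim_nV_rL hwE), if_neg (by omega), FSt.rL_r2]
    exact h1

/-- **With lines and light it is a certificate.** -/
theorem toKH (h : KCJ R J N H lin lout) {V : P.FSt → Prop} (hV : KV J N H V)
    {Le : P.Facet → Prop} {Pl : Bool → ℕ → P.FSt → Prop} {Hg : Bool → P.FSt → Prop}
    (tur : ∀ r, R.Rim r → J (jf r) → ¬ V (pN.symm r) →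
      (∀ j, LitK N.kv N.ke (fun _ => True) lin lout r j) ∨
      (∃ z : ℤ, (∀ y ∈ Set.uIcc 0 z, ¬ V (pN.symm ((pE ^ y) r)) ∧
          ¬ Land N.kv N.ke lin lout ((pE ^ y) r)) ∧
        ((St N.kv N.ke ((pE ^ z) r) ∧ lin r = Ln.z) ∨
          (En N.kv N.ke ((pE ^ z) r) ∧ lout r = Ln.z))))
    (Le_J : ∀ f, Le f → J f)
    (Le_no : ∀ s : P.FSt, Le s.facet → N.kf s.facet ∨ ¬ N.kv s)
    (Le_rim : ∀ r, R.Rim r → ¬ Le (jf r))
    (Le_cut : ∀ f, Le f → ∃ s : P.FSt, J s.facet ∧ N.kv s ∧ ¬ N.ke s ∧ ¬ N.ke s.rL)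
    (Pl_J : ∀ S n g, Pl S n g → J g.facet ∧ J ((pN ^ n) g).facet)
    (Pl_uniq : ∀ S n g S' n' g', Pl S n g → Pl S' n' g' →
      ((pN ^ n) g).facet = ((pN ^ n') g').facet → Le ((pN ^ n) g).facet →
      S = S' ∧ n = n' ∧ g = g')
    (Hg_nc : ∀ E s, Hg E s → ¬ Hg (!E) s.r2)
    (lean : ∀ f, Le f → ∃ S E n g, 0 < n ∧ ((pN ^ n) g).facet = f ∧
      SupK V N.kv N.ke N.kf J Le Pl Hg S E n g)
    (cov : ∀ s : P.FSt, J s.facet → ¬ Le s.facet → V s → ∀ j : VL, ∃ z : ℤ,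
      (∀ y ∈ Set.uIcc 0 z, y ≠ z → J ((pN ^ y) s).facet ∧ ¬ Le ((pN ^ y) s).facet ∧
        V ((pN ^ y) s)) ∧
      ((J ((pN ^ z) s).facet ∧ V ((pN ^ z) s) ∧ ¬ N.kf ((pN ^ z) s).facet ∧
          khit N.kv N.ke ((pN ^ z) s) j) ∨
       (∃ r j', ((0 < z ∧ (pN ^ z) s = r ∧ j' = j) ∨
          (z < 0 ∧ (pN ^ z) s = r.r2 ∧ j' = j.flip)) ∧ R.Rim r ∧
        LitK N.kv N.ke (fun _ => True) lin lout r j'))) :
    KH R (fun _ => True) (fun _ => True) J ⟨N.kv, N.ke, N.kf, V, H, lin, lout, Le, Pl, Hg⟩ where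
  V_rR := hV.V_rR
  kv_rot s _ _ := N.kv_rot s
  ke_rev s _ _ := N.ke_rev s
  ke_kv s _ hk := ⟨N.ke_kv s hk, Nb.kv_rR hk⟩
  kf_ke s _ hk := N.kf_ke s hk
  hb := h.g.hb
  hb' := h.g.hb'
  r1 := h.g.r1
  r2 := h.g.r2
  r3 := h.g.r3
  r4 := h.g.r4
  vr := hV.vr
  vx := hV.vx
  vx' := hV.vx'
  lin_E r hr hJ _ := h.lin_E r hr hJ
  lout_E r hr hJ _ := h.lout_E r hr hJ
  adm r hr hJ _ := h.adm r hr hJ
  cut_lab r _ _ ht := absurd trivial ht
  st_ac _ _ _ _ := trivial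
  en_ac _ _ _ _ := trivial
  st_ex r hr hJ _ := h.st_ex r hr hJ
  en_ex r hr hJ _ := h.en_ex r hr hJ
  cut_arc r _ _ ht := absurd trivial ht
  arc r hr hJ _ := h.arc r hr hJ
  st_lab r hr hJ hS := by
    show lin r = Lof (H (pN.symm r).rL)
    rw [h.st r hr hJ hS, Lof_Hof]
  en_lab r hr hJ hE := by
    show lout r = Lof (H (pre (pN.symm r)))
    rw [h.en r hr hJ hE, Lof_Hof]
  tur r hr hJ hT := by
    rcases tur r hr hJ hT with h1 | h1
    · exact Or.inl h1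
    · exact Or.inr ⟨trivial, h1⟩
  Le_J := Le_J
  Le_no := Le_no
  Le_rim := Le_rim
  Le_cut := Le_cut
  Pl_J := Pl_J
  Pl_uniq := Pl_uniq
  Hg_nc := Hg_nc
  lean := lean
  cov := cov
  conn cv h1 h2 h3 := Nb.conn_local h.inn (fun s t hs ht _ _ => h.one s t hs ht) cv ⟨h1, h2, h3⟩

end KCJ

/-- Certificates on the lifted junctions, with given labels at a given coarse rim, are enough. -/
theorem HasKL_mid {R : Core1 P} {c : ℕ} (hc : 0 < c)
    (h : ∀ w, R.Rim w → ∀ a b : Ln, ¬ (a = Ln.n ∧ b = Ln.s) → ¬ (a = Ln.s ∧ b = Ln.n) →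
      ∃ D : KHD (P.refine (2 * c + 1) (hm c)),
        KH (R.mid c hc) (fun _ => True) (fun _ => True) (R.liftJ c (Jn R (jf w))) D ∧
        ∀ i ≤ 2 * c, (D.lin (pk c w i c) = a ∧ D.lout (pk c w i c) = b) ∨
          (D.lin (pk c w i c) = b ∧ D.lout (pk c w i c) = a)) :
    HasKL (R.mid c hc) (fun _ => True) (fun _ => True) := by
  intro r hr _ a b hab hab'
  obtain ⟨w, i, hi, hw, rfl⟩ := (Core1.rim_mid hc).1 hr
  obtain ⟨D, hD, hl⟩ := h w hw a b hab hab'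
  have hnc : ¬ R.core (jf w) := (R.S' hw).2
  have hF : R.liftJ c (Jn R (jf w)) (jf (pk c w i c)) :=
    (Core1.liftJ_jf hc hw hi).2 (Jn.refl hnc)
  have hJ := Core1.jn_mid hc hF
  obtain ⟨D', hD', e1, e2⟩ := hD.toKL (by
    intro s hs hn
    rw [← hJ] at hs ⊢
    exact Jn.trans hs (Jn.E hs.1 hn))
  refine ⟨D', ?_, ?_⟩
  · rw [hJ]; exact hD'
  · rw [e1, e2]; exact hl i hi

/-- **The reduction theorem for the middle rows** (all bands are tree bands). -/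
theorem unfolding_of_mid {P : GridSolid} (hP : P.IsOrthogonalPolyhedron) {r j : ℕ}
    (hr : 0 < r) (hj : 1 ≤ j) (hj2 : j + 2 ≤ r)
    (hT : (coreR P r j hr hj hj2).Tree (fun _ => True)) {c : ℕ} (hc : 0 < c)
    (hL : HasKL ((coreR P r j hr hj hj2).mid c hc) (fun _ => True) (fun _ => True))
    (hK : 0 < r * ((2 * c + 1) * 105)) :
    (P.refine (r * ((2 * c + 1) * 105)) hK).HasEdgeUnfolding := by
  obtain ⟨s, hs⟩ := exists_rim (hj := hj) (hj2 := hj2) (hr := hr) hP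
  have h1 := unfolding_of_HasKL (isOrthogonal_refine hP hr) (hm c) (hT.mid hc)
    (fun _ _ => Iff.rfl) (fun _ _ => Iff.rfl) (fun _ _ => Iff.rfl) (fun _ _ _ => trivial)
    (fun _ _ => Or.inl trivial) hL
    ⟨pk c s 0 c, (Core1.rim_mid hc).2 ⟨s, 0, Nat.zero_le _, hs, rfl⟩, trivial⟩
    (by positivity)
  rw [refine_refine] at h1
  exact h1

end Pool.Agent.MP42K
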