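import Pool.Agent.MP42.K.Feet

/-!
# `KC`: light
-/

set_option autoImplicit false
set_option linter.unusedSectionVars false

namespace Pool.Agent.MP42K

open Pool.Agent.Helper55.UNF Pool.Agent.Helper55.UNF.GridSolid Pool.Agent.MP42G
open Pool.Agent.MP42H Pool.Agent.MP42X Pool.Agent.MP42R

/-! ## An abstract walk -/

section Walk

variable {X Y : Type*} {σ : Equiv.Perm X} {τ : Equiv.Perm Y}

lemma srch_lt {fa fb : Y → Prop} {t : Y} (N : ℕ) (h1 : fa ((τ ^ N) t))
    (h2 : ∀ M ≤ N, ¬ fb ((τ ^ M) t)) (h3 : ∃ M : ℕ, fb ((τ ^ M) t)) :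
    srch τ fa t < srch τ fb t := by
  have e1 : srch τ fa t ≤ N := Nat.sInf_le (s := {j : ℕ | fa ((τ ^ j) t)}) h1
  have e2 : N < srch τ fb t := by
    by_contra hlt
    exact h2 _ (by omega) (srch_spec h3)
  omega

lemma le_srch {fb : Y → Prop} {t : Y} {N : ℕ} (h2 : ∀ M < N, ¬ fb ((τ ^ M) t))
    (h3 : ∃ M : ℕ, fb ((τ ^ M) t)) : N ≤ srch τ fb t := by
  by_contra hlt
  exact h2 _ (by omega) (srch_spec h3)

/-- the walk `τ` on `Y` lies over the walk `σ` on `X` with seven steps per step -/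
structure Walk (σ : Equiv.Perm X) (τ : Equiv.Perm Y) (q : X → ℕ → Y) : Prop where
  st : ∀ x c, c < 6 → τ (q x (c + 1)) = q x c
  st0 : ∀ x, τ (q x 0) = q (σ x) 6

namespace Walk

variable {q : X → ℕ → Y} (W : Walk σ τ q)

include W

lemma pow (x : X) : ∀ n i c : ℕ, i ≤ 6 → c ≤ 6 → ∀ M, M + c = i + 7 * n →
    (τ ^ M) (q x i) = q ((σ ^ n) x) c := by
  intro n i c hi hc M
  induction M generalizing n c with
  | zero =>
    intro h
    obtain rfl : n = 0 := by omega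
    obtain rfl : i = c := by omega
    rfl
  | succ M ih =>
    intro h
    rw [pow_succ', Equiv.Perm.mul_apply]
    by_cases hc6 : c = 6
    · subst hc6
      obtain ⟨n, rfl⟩ : ∃ n', n = n' + 1 := ⟨n - 1, by omega⟩
      rw [ih n 0 (by omega) (by omega), W.st0, pow_succ', Equiv.Perm.mul_apply]
    · rw [ih n (c + 1) (by omega) (by omega), W.st _ _ (by omega)]

/-- one or two steps back -/
lemma back (x : X) {i m : ℕ} (hm : i + m ≤ 6) : (τ.symm ^ m) (q x i) = q x (i + m) := by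
  induction m with
  | zero => rfl
  | succ m ih =>
    rw [pow_succ', Equiv.Perm.mul_apply, ih (by omega), Equiv.symm_apply_eq]
    exact (W.st x (i + m) (by omega)).symm

lemma back' (x : X) {i m : ℕ} (hi : i ≤ 6) (hm : 7 ≤ i + m) (hm2 : i + m ≤ 13) :
    (τ.symm ^ m) (q x i) = q (σ.symm x) (i + m - 7) := by
  obtain ⟨m', rfl⟩ : ∃ m', m = m' + (7 - i) := ⟨m - (7 - i), by omega⟩
  rw [pow_add, Equiv.Perm.mul_apply]
  have h1 : (τ.symm ^ (7 - i)) (q x i) = q (σ.symm x) 0 := by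
    have h2 := W.pow (σ.symm x) 1 0 i (by omega) hi (7 - i) (by omega)
    have h3 := pow_cancel' τ (7 - i) (q (σ.symm x) 0)
    rw [h2, pow_one, Equiv.apply_symm_apply] at h3
    exact h3
  rw [h1, W.back _ (by omega)]
  congr 1; omega

variable {K a b : X → Prop} {R : X → Prop} (hR : ∀ x, R x → R (σ x)) (hR' : ∀ x, R x → R (σ.symm x))
  (hab : ∀ x, R x → (b (σ x) ↔ a x)) (hKa : ∀ x, R x → K x → a x) (hKb : ∀ x, R x → K x → b x)

include hR hab hKb in
/-- **case A**: strand 1 at the near end of the gap, strand 2 at the far end -/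
lemma caseA {fa fb : Y → Prop} {x : X} (hx : R x) (hK : ¬ K x) {i : ℕ} (hi : i ≤ 6)
    (hex : ∃ n : ℕ, a ((σ ^ n) x) ∧ ¬ K ((σ ^ n) x))
    (hfa : ∀ n, a ((σ ^ n) x) → ¬ K ((σ ^ n) x) → fa (q ((σ ^ n) x) 1))
    (hfb : ∀ n c, c ≤ 6 → fb (q ((σ ^ n) x) c) → c = 6 ∧ b ((σ ^ n) x))
    (hfb' : ∀ c, c ≤ 6 → fb (q (σ.symm x) c) → c = 6)
    (e1 : ∃ M : ℕ, fb ((τ ^ M) (q x i))) (e2 : ∃ M : ℕ, fb ((τ.symm ^ M) (q x i)))
    (h0 : i = 0 → ¬ a x) (h4 : 4 ≤ i → ¬ b x) :
    srch τ fa (q x i) < srch τ fb (q x i) ∧ 3 ≤ srch τ.symm fb (q x i) := by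
  classical
  have hRn : ∀ n : ℕ, R ((σ ^ n) x) := by
    intro n
    induction n with
    | zero => exact hx
    | succ n ih => rw [pow_succ', Equiv.Perm.mul_apply]; exact hR _ ih
  set n := Nat.find hex with hn
  have hn1 := Nat.find_spec hex
  have hn2 : ∀ m < n, ¬ (a ((σ ^ m) x) ∧ ¬ K ((σ ^ m) x)) := fun m hm => Nat.find_min hex hm
  have key : ∀ m ≤ n, ¬ K ((σ ^ m) x) ∧ (1 ≤ m → ¬ b ((σ ^ m) x)) := by
    intro m
    induction m with
    | zero => exact fun _ => ⟨hK, fun h => absurd h (by omega)⟩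
    | succ m ih =>
      intro hm
      have h1 := (ih (by omega)).1
      have h2 : ¬ a ((σ ^ m) x) := fun h => hn2 m (by omega) ⟨h, h1⟩
      have h3 : ¬ b ((σ ^ (m + 1)) x) := by
        rw [pow_succ', Equiv.Perm.mul_apply, hab _ (hRn m)]; exact h2
      exact ⟨fun h => h3 (hKb _ (hRn _) h), fun _ => h3⟩
  have hin : 1 ≤ i + 7 * n := by
    by_contra hlt
    have hn0 : n = 0 := by omega
    have h1 := hn1.1
    rw [← hn, hn0] at h1
    exact h0 (by omega) h1
  refine ⟨?_, ?_⟩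
  · refine srch_lt (i + 7 * n - 1) ?_ ?_ e1
    · rw [W.pow x n i 1 hi (by omega) _ (by omega)]
      exact hfa n hn1.1 hn1.2
    · intro M hM h
      have h1 := W.pow x (((M + 6 - i)) / 7) i (6 - (M + 6 - i) % 7) hi (by omega) M (by omega)
      rw [h1] at h
      obtain ⟨h2, h3⟩ := hfb _ _ (by omega) h
      have h4' : (M + 6 - i) % 7 = 0 := by omega
      by_cases h5 : (M + 6 - i) / 7 = 0
      · rw [h5] at h3
        exact h4 (by omega) h3
      · exact (key ((M + 6 - i) / 7) (by omega)).2 (by omega) h3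
  · refine le_srch ?_ e2
    intro m hm h
    by_cases h1 : i + m ≤ 6
    · rw [W.back x h1] at h
      obtain ⟨h2, h3⟩ := hfb 0 (i + m) h1 h
      exact h4 (by omega) h3
    · rw [W.back' x hi (by omega) (by omega)] at h
      have := hfb' _ (by omega) h
      omega

include hR hab hKa in
/-- **case B**: strand 1 at the far end of the gap, strand 2 at the near end -/
lemma caseB {fa fb : Y → Prop} {x : X} (hx : R x) (hK : K x) {i : ℕ} (hi : i ≤ 6)
    (hex : ∃ n : ℕ, ¬ K ((σ ^ n) x))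
    (hfa : ∀ n, b ((σ ^ (n + 1)) x) → ¬ K ((σ ^ (n + 1)) x) → fa (q ((σ ^ n) x) 0))
    (hfb : ∀ n c, c ≤ 6 → fb (q ((σ ^ n) x) c) → c = 0 ∧ ¬ K ((σ ^ n) x))
    (hfb' : ∀ c, c ≤ 6 → fb (q (σ.symm x) c) → c = 0 ∧ ¬ K (σ.symm x))
    (e1 : ∃ M : ℕ, fb ((τ ^ M) (q x i))) (e2 : ∃ M : ℕ, fb ((τ.symm ^ M) (q x i)))
    (h5 : i ≠ 0 → K (σ.symm x)) :
    srch τ fa (q x i) < srch τ fb (q x i) ∧ 3 ≤ srch τ.symm fb (q x i) := by
  classical
  have hRn : ∀ n : ℕ, R ((σ ^ n) x) := by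
    intro n
    induction n with
    | zero => exact hx
    | succ n ih => rw [pow_succ', Equiv.Perm.mul_apply]; exact hR _ ih
  obtain ⟨n, hn⟩ : ∃ n, Nat.find hex = n + 1 := by
    refine ⟨Nat.find hex - 1, ?_⟩
    have : Nat.find hex ≠ 0 := by
      intro h
      have h1 := Nat.find_spec hex
      rw [h] at h1
      exact h1 hK
    omega
  have hn1 := Nat.find_spec hex
  rw [hn] at hn1
  have hn2 : ∀ m ≤ n, K ((σ ^ m) x) := by
    intro m hm
    have := Nat.find_min hex (m := m) (by omega)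
    exact not_not.1 this
  have hb : b ((σ ^ (n + 1)) x) := by
    rw [pow_succ', Equiv.Perm.mul_apply, hab _ (hRn n)]
    exact hKa _ (hRn n) (hn2 n le_rfl)
  refine ⟨?_, ?_⟩
  · refine srch_lt (i + 7 * n) ?_ ?_ e1
    · rw [W.pow x n i 0 hi (by omega) _ (by omega)]
      exact hfa n hb hn1
    · intro M hM h
      have h1 := W.pow x (((M + 6 - i)) / 7) i (6 - (M + 6 - i) % 7) hi (by omega) M (by omega)
      rw [h1] at h
      obtain ⟨h2, h3⟩ := hfb _ _ (by omega) h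
      exact h3 (hn2 _ (by omega))
  · refine le_srch ?_ e2
    intro m hm h
    by_cases h1 : i + m ≤ 6
    · rw [W.back x h1] at h
      obtain ⟨h2, h3⟩ := hfb 0 (i + m) h1 h
      exact h3 hK
    · rw [W.back' x hi (by omega) (by omega)] at h
      obtain ⟨h2, h3⟩ := hfb' _ (by omega) h
      exact h3 (h5 (by omega))

end Walk

end Walk

variable {P : GridSolid}

lemma walkW : Walk (pE.symm : Equiv.Perm P.FSt) (pE.symm : Equiv.Perm (P.refine 7 h7).FSt)
    (fun r c => pt r c 0) where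
  st := fun x c hc => pEs_pt x 0 hc
  st0 := fun x => pEs_pt0 x 0

lemma walkE : Walk (pE : Equiv.Perm P.FSt) (pE : Equiv.Perm (P.refine 7 h7).FSt)
    (fun r c => pt r (6 - c) 0) where
  st := fun x c hc => by
    rw [show 6 - c = 6 - (c + 1) + 1 by omega]
    exact pE_pt x 0 (by omega)
  st0 := fun x => pE_pt6 x 0

end Pool.Agent.MP42K
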