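import Pool.Agent.MP42.K.Lit

/-!
# `KC0`: lit rim facets
-/

set_option autoImplicit false
set_option linter.unusedSectionVars false

namespace Pool.Agent.MP42K

open Pool.Agent.Helper55.UNF Pool.Agent.Helper55.UNF.GridSolid Pool.Agent.MP42G
open Pool.Agent.MP42H Pool.Agent.MP42X Pool.Agent.MP42R

variable {P : GridSolid}

/-- the kind of the line `j` of the part of column `i` -/
def vj (i : ℕ) (j : VL) : VL :=
  if i = 0 ∧ j = VL.W then VL.W else if i = 6 ∧ j = VL.E then VL.E else VL.M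

lemma cyc_symm_pow {X : Type*} [Finite X] {π : Equiv.Perm X} {x y : X} (h : π.SameCycle x y) :
    ∃ M : ℕ, (π.symm ^ M) x = y := by
  obtain ⟨M, hM⟩ := h.symm.exists_nat_pow_eq
  exact ⟨M, by rw [← hM]; exact pow_cancel' π M y⟩

lemma cyc_pow {X : Type*} [Finite X] {π : Equiv.Perm X} {x y : X} (h : π.SameCycle x y) :
    ∃ M : ℕ, (π ^ M) x = y := h.exists_nat_pow_eq

namespace KC0

variable {C : KC0 P}

lemma const_cyc {α : Type*} {f : P.FSt → α} (hf : ∀ r, C.Rim r → f r.stE = f r) {r x : P.FSt}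
    (h : C.Rim r) (hs : pE.SameCycle r x) : f x = f r := by
  obtain ⟨n, rfl⟩ := hs.exists_nat_pow_eq
  clear hs
  induction n with
  | zero => rfl
  | succ n ih =>
    rw [pow_succ', Equiv.Perm.mul_apply]
    exact (hf _ (Core1.Rim.pow _ h n)).trans ih

lemma lin_cyc {r x : P.FSt} (h : C.Rim r) (hs : pE.SameCycle r x) : C.lin x = C.lin r :=
  const_cyc C.lin_E h hs

lemma lout_cyc {r x : P.FSt} (h : C.Rim r) (hs : pE.SameCycle r x) : C.lout x = C.lout r :=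
  const_cyc C.lout_E h hs

lemma tr_cyc {r x : P.FSt} (h : C.Rim r) (hs : pE.SameCycle r x) : C.tr x ↔ C.tr r := by
  have := const_cyc (C := C) (f := C.tr) (fun r hr => propext (C.tr_E r hr)) h hs
  rw [this]

lemma ac_cyc {r x : P.FSt} (h : C.Rim r) (hs : pE.SameCycle r x) : C.ac x ↔ C.ac r := by
  have := const_cyc (C := C) (f := C.ac) (fun r hr => propext (C.ac_E r hr)) h hs
  rw [this]

/-- the west end of the rim edge of the next facet -/
lemma kv_E {x : P.FSt} (h : C.Rim x) (ht : C.tr x) (hl : C.lin x = Ln.z ∨ C.lout x = Ln.z) :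
    C.kv (pN.symm (pE x)).rL ↔ C.kv (pN.symm x) := C.kv_rim x h ht hl

/-- the east end of the rim edge of the previous facet -/
lemma kv_W {x : P.FSt} (h : C.Rim x) (ht : C.tr x) (hl : C.lin x = Ln.z ∨ C.lout x = Ln.z) :
    C.kv (pN.symm (pE.symm x)) ↔ C.kv (pN.symm x).rL := by
  have h0 := Core1.Rim.W _ h
  have e : (pE.symm x).stE = x := pE_symm_stE x
  have h1 := C.kv_rim (pE.symm x) h0 ((C.tr_E _ h0).1 (by rw [e]; exact ht)) (by
    rw [← C.lin_E _ h0, ← C.lout_E _ h0, e]; exact hl)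
  rw [e] at h1
  exact h1.symm

/-- the rim edge is in `D` -/
def K (C : KC0 P) (x : P.FSt) : Prop := C.ke (pN.symm x).rL
def aW (C : KC0 P) (x : P.FSt) : Prop := C.kv (pN.symm x).rL
def aE (C : KC0 P) (x : P.FSt) : Prop := C.kv (pN.symm x)

lemma K_aW {x : P.FSt} (hx : C.Rim x) (h : C.K x) : C.aW x :=
  C.keN_NW (C.toCore1.jf_ncore hx) h

lemma K_aE {x : P.FSt} (hx : C.Rim x) (h : C.K x) : C.aE x :=
  C.keN_NE (C.toCore1.jf_ncore hx) h

lemma St_iff {x : P.FSt} : St C.kv C.ke x ↔ C.aW x ∧ ¬ C.K x := Iff.rfl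
lemma En_iff {x : P.FSt} : En C.kv C.ke x ↔ C.aE x ∧ ¬ C.K x := Iff.rfl

/-- one rim with its labels -/
def Rg (C : KC0 P) (r x : P.FSt) : Prop := C.Rim x ∧ pE.SameCycle r x

lemma Rg.E {r x : P.FSt} (h : C.Rg r x) : C.Rg r (pE x) :=
  ⟨Core1.Rim.E _ h.1, h.2.trans ⟨1, by simp⟩⟩

lemma Rg.W {r x : P.FSt} (h : C.Rg r x) : C.Rg r (pE.symm x) :=
  ⟨Core1.Rim.W _ h.1, h.2.trans ⟨-1, by simp⟩⟩

lemma same_pt {r x : P.FSt} (h : pE.SameCycle r x) (i c : ℕ) :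
    pE.SameCycle (pt r i 0) (pt x c 0) := cyc_pt.2 h

/-- the positions of the strands: labels `+`, `0` -/
lemma litA {r : P.FSt} (hr : C.Rim r) (ht : C.tr r) (h1 : C.lin r = Ln.n) (h2 : C.lout r = Ln.z)
    {i : ℕ} (hi : i ≤ 6) (hK : ¬ C.K r) (h0 : i = 0 → ¬ C.aW r) (h4 : 4 ≤ i → ¬ C.aE r) :
    Lit C.trF C.ngF C.z1F C.z2F (shf C.z1F C.ngF C.g1F) (shf C.z2F C.ngF C.g2F) (pt r i 0) := by
  intro _
  have ha : C.ac r := C.ac_tr r hr ht
  have l1 : ∀ x, C.Rg r x → C.lin x = Ln.n := fun x hx => (lin_cyc hr hx.2).trans h1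
  have l2 : ∀ x, C.Rg r x → C.lout x = Ln.z := fun x hx => (lout_cyc hr hx.2).trans h2
  have hz : ∀ x, C.Rg r x → C.lin x = Ln.z ∨ C.lout x = Ln.z := fun x hx => Or.inr (l2 x hx)
  have hrr : C.Rg r r := ⟨hr, Equiv.Perm.SameCycle.refl _ _⟩
  have z1 : ∀ x c, C.Rg r x → C.z1F (pt x c 0) = false := by
    intro x c hx; unfold z1F; rw [cs_pt, l1 x hx, l2 x hx]; rfl
  have z2 : ∀ x c, C.Rg r x → C.z2F (pt x c 0) = true := by
    intro x c hx; unfold z2F; rw [cs_pt, l1 x hx, l2 x hx]; rfl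
  have ng : ∀ x c, C.Rg r x → C.ngF (pt x c 0) = false := by
    intro x c hx; unfold ngF; rw [cs_pt, l1 x hx, l2 x hx]; rfl
  have g1 : ∀ x c, C.Rg r x → (C.g1F (pt x c 0) ↔ C.sF (pt x c 0)) := by
    intro x c hx; unfold g1F; rw [cs_pt, l1 x hx, l2 x hx]; simp [s1]
  have g2 : ∀ x c, C.Rg r x → (C.g2F (pt x c 0) ↔ C.nF (pt x c 0)) := by
    intro x c hx; unfold g2F; rw [cs_pt, l1 x hx, l2 x hx]; simp [s1]
  have fb : ∀ x c, C.Rg r x → (shf C.z2F C.ngF C.g2F (pt x c 0) ↔ C.nF (pt x c 0)) := by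
    intro x c hx; unfold shf; rw [if_pos (z2 x c hx)]; exact g2 x c hx
  have fa : ∀ x, C.Rg r x → St C.kv C.ke x → shf C.z1F C.ngF C.g1F (pt x 1 0) := by
    intro x hx hs
    unfold shf
    rw [if_neg (by rw [z1 x 1 hx]; decide), if_neg (by rw [ng x 1 hx]; decide),
      pEs_pt x 0 (by omega), g1 x 0 hx, sF_pt (by omega)]
    exact ⟨rfl, hs⟩
  refine ⟨z1 r i hrr, fun _ => ?_⟩
  rw [ng r i hrr]
  show srch pE.symm _ _ < srch pE.symm _ _ ∧ 3 ≤ srch pE _ _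
  have hRn : ∀ n : ℕ, C.Rg r ((pE.symm ^ n) r) := by
    intro n
    induction n with
    | zero => exact hrr
    | succ n ih => rw [pow_succ', Equiv.Perm.mul_apply]; exact Rg.W ih
  obtain ⟨a, ⟨ha1, ha2⟩, -⟩ := C.st_ex r hr ha
  obtain ⟨b, ⟨hb1, hb2⟩, -⟩ := C.en_ex r hr ha
  have hbR : C.Rg r b := ⟨Core1.Rim.same _ hr hb1, hb1⟩
  have hfb : shf C.z2F C.ngF C.g2F (pt b 6 0) := by
    rw [fb b 6 hbR, nF_pt (by omega)]; exact ⟨rfl, hb2⟩
  refine walkW.caseA (K := C.K) (a := C.aW) (b := C.aE) (R := C.Rg r)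
    (fun x hx => Rg.W hx) (fun x hx => kv_W hx.1 ((tr_cyc hr hx.2).2 ht) (hz x hx)) (fun x hx h => K_aE hx.1 h) hrr hK hi ?_ ?_ ?_ ?_ ?_ ?_
    h0 h4
  · obtain ⟨M, hM⟩ := cyc_symm_pow ha1
    exact ⟨M, by rw [hM]; exact ha2⟩
  · intro n h3 h4
    exact fa _ (hRn n) ⟨h3, h4⟩
  · intro n c hc h
    rw [fb _ c (hRn n), nF_pt hc] at h
    exact ⟨h.1, h.2.1⟩
  · intro c hc h
    rw [Equiv.symm_symm, fb _ c (Rg.E hrr), nF_pt hc] at h
    exact h.1
  · obtain ⟨M, hM⟩ := cyc_symm_pow (same_pt hb1 i 6)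
    exact ⟨M, by rw [hM]; exact hfb⟩
  · obtain ⟨M, hM⟩ := cyc_pow (same_pt hb1 i 6)
    exact ⟨M, by rw [Equiv.symm_symm, hM]; exact hfb⟩

/-- labels `0`, `-` -/
lemma litA' {r : P.FSt} (hr : C.Rim r) (ht : C.tr r) (h1 : C.lin r = Ln.z) (h2 : C.lout r = Ln.s)
    {i : ℕ} (hi : i ≤ 6) (hK : ¬ C.K r) (h0 : i = 6 → ¬ C.aE r) (h4 : i ≤ 2 → ¬ C.aW r) :
    Lit C.trF C.ngF C.z1F C.z2F (shf C.z1F C.ngF C.g1F) (shf C.z2F C.ngF C.g2F) (pt r i 0) := by
  intro _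
  have ha : C.ac r := C.ac_tr r hr ht
  have l1 : ∀ x, C.Rg r x → C.lin x = Ln.z := fun x hx => (lin_cyc hr hx.2).trans h1
  have l2 : ∀ x, C.Rg r x → C.lout x = Ln.s := fun x hx => (lout_cyc hr hx.2).trans h2
  have hz : ∀ x, C.Rg r x → C.lin x = Ln.z ∨ C.lout x = Ln.z := fun x hx => Or.inl (l1 x hx)
  have hrr : C.Rg r r := ⟨hr, Equiv.Perm.SameCycle.refl _ _⟩
  have z1 : ∀ x c, C.Rg r x → C.z1F (pt x c 0) = false := by
    intro x c hx; unfold z1F; rw [cs_pt, l1 x hx, l2 x hx]; rfl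
  have z2 : ∀ x c, C.Rg r x → C.z2F (pt x c 0) = true := by
    intro x c hx; unfold z2F; rw [cs_pt, l1 x hx, l2 x hx]; rfl
  have ng : ∀ x c, C.Rg r x → C.ngF (pt x c 0) = true := by
    intro x c hx; unfold ngF; rw [cs_pt, l1 x hx, l2 x hx]; rfl
  have g1 : ∀ x c, C.Rg r x → (C.g1F (pt x c 0) ↔ C.nF (pt x c 0)) := by
    intro x c hx; unfold g1F; rw [cs_pt, l1 x hx, l2 x hx]; simp [s1]
  have g2 : ∀ x c, C.Rg r x → (C.g2F (pt x c 0) ↔ C.sF (pt x c 0)) := by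
    intro x c hx; unfold g2F; rw [cs_pt, l1 x hx, l2 x hx]; simp [s1]
  have fb : ∀ x c, C.Rg r x → (shf C.z2F C.ngF C.g2F (pt x c 0) ↔ C.sF (pt x c 0)) := by
    intro x c hx; unfold shf; rw [if_pos (z2 x c hx)]; exact g2 x c hx
  have fa : ∀ x, C.Rg r x → En C.kv C.ke x → shf C.z1F C.ngF C.g1F (pt x 5 0) := by
    intro x hx hs
    unfold shf
    rw [if_neg (by rw [z1 x 5 hx]; decide), if_pos (ng x 5 hx),
      pt_stE x 0 (by omega), g1 x 6 hx, nF_pt (by omega)]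
    exact ⟨rfl, hs⟩
  refine ⟨z1 r i hrr, fun _ => ?_⟩
  rw [ng r i hrr]
  show srch pE.symm.symm _ _ < srch pE.symm.symm _ _ ∧ 3 ≤ srch pE.symm _ _
  rw [Equiv.symm_symm]
  have hRn : ∀ n : ℕ, C.Rg r ((pE ^ n) r) := by
    intro n
    induction n with
    | zero => exact hrr
    | succ n ih => rw [pow_succ', Equiv.Perm.mul_apply]; exact Rg.E ih
  obtain ⟨a, ⟨ha1, ha2⟩, -⟩ := C.st_ex r hr ha
  obtain ⟨b, ⟨hb1, hb2⟩, -⟩ := C.en_ex r hr ha
  have haR : C.Rg r a := ⟨Core1.Rim.same _ hr ha1, ha1⟩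
  have hfb : shf C.z2F C.ngF C.g2F (pt a 0 0) := by
    rw [fb a 0 haR, sF_pt (by omega)]; exact ⟨rfl, ha2⟩
  have hw := walkE.caseA (K := C.K) (a := C.aE) (b := C.aW) (R := C.Rg r) (x := r) (i := 6 - i)
    (fa := shf C.z1F C.ngF C.g1F) (fb := shf C.z2F C.ngF C.g2F)
    (fun x hx => Rg.E hx) (fun x hx => kv_E hx.1 ((tr_cyc hr hx.2).2 ht) (hz x hx)) (fun x hx h => K_aW hx.1 h) hrr hK (by omega)
    ?_ ?_ ?_ ?_ ?_ ?_ (fun h => h0 (by omega)) (fun h => h4 (by omega))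
  · rw [show 6 - (6 - i) = i by omega] at hw
    exact hw
  · obtain ⟨M, hM⟩ := cyc_pow hb1
    exact ⟨M, by rw [hM]; exact hb2⟩
  · intro n h3 h4
    exact fa _ (hRn n) ⟨h3, h4⟩
  · intro n c hc h
    rw [fb _ _ (hRn n), sF_pt (by omega)] at h
    exact ⟨by omega, h.2.1⟩
  · intro c hc h
    rw [fb _ _ (Rg.W hrr), sF_pt (by omega)] at h
    omega
  · obtain ⟨M, hM⟩ := cyc_pow (same_pt ha1 (6 - (6 - i)) 0)
    exact ⟨M, by rw [hM]; exact hfb⟩
  · obtain ⟨M, hM⟩ := cyc_symm_pow (same_pt ha1 (6 - (6 - i)) 0)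
    exact ⟨M, by rw [hM]; exact hfb⟩

/-- labels `0`, `+` -/
lemma litB {r : P.FSt} (hr : C.Rim r) (ht : C.tr r) (h1 : C.lin r = Ln.z) (h2 : C.lout r = Ln.n)
    {i : ℕ} (hi : i ≤ 6) (hK : C.K r) (h5 : i ≠ 0 → C.K r.stE) :
    Lit C.trF C.ngF C.z1F C.z2F (shf C.z1F C.ngF C.g1F) (shf C.z2F C.ngF C.g2F) (pt r i 0) := by
  intro _
  have ha : C.ac r := C.ac_tr r hr ht
  have l1 : ∀ x, C.Rg r x → C.lin x = Ln.z := fun x hx => (lin_cyc hr hx.2).trans h1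
  have l2 : ∀ x, C.Rg r x → C.lout x = Ln.n := fun x hx => (lout_cyc hr hx.2).trans h2
  have hz : ∀ x, C.Rg r x → C.lin x = Ln.z ∨ C.lout x = Ln.z := fun x hx => Or.inl (l1 x hx)
  have hrr : C.Rg r r := ⟨hr, Equiv.Perm.SameCycle.refl _ _⟩
  have z1 : ∀ x c, C.Rg r x → C.z1F (pt x c 0) = false := by
    intro x c hx; unfold z1F; rw [cs_pt, l1 x hx, l2 x hx]; rfl
  have z2 : ∀ x c, C.Rg r x → C.z2F (pt x c 0) = true := by
    intro x c hx; unfold z2F; rw [cs_pt, l1 x hx, l2 x hx]; rfl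
  have ng : ∀ x c, C.Rg r x → C.ngF (pt x c 0) = false := by
    intro x c hx; unfold ngF; rw [cs_pt, l1 x hx, l2 x hx]; rfl
  have g1 : ∀ x c, C.Rg r x → (C.g1F (pt x c 0) ↔ C.nF (pt x c 0)) := by
    intro x c hx; unfold g1F; rw [cs_pt, l1 x hx, l2 x hx]; simp [s1]
  have g2 : ∀ x c, C.Rg r x → (C.g2F (pt x c 0) ↔ C.sF (pt x c 0)) := by
    intro x c hx; unfold g2F; rw [cs_pt, l1 x hx, l2 x hx]; simp [s1]
  have fb : ∀ x c, C.Rg r x → (shf C.z2F C.ngF C.g2F (pt x c 0) ↔ C.sF (pt x c 0)) := by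
    intro x c hx; unfold shf; rw [if_pos (z2 x c hx)]; exact g2 x c hx
  have fa : ∀ x, C.Rg r x → En C.kv C.ke (pE.symm x) → shf C.z1F C.ngF C.g1F (pt x 0 0) := by
    intro x hx hs
    unfold shf
    rw [if_neg (by rw [z1 x 0 hx]; decide), if_neg (by rw [ng x 0 hx]; decide),
      pEs_pt0 x 0, g1 _ 6 (Rg.W hx), nF_pt (by omega)]
    exact ⟨rfl, hs⟩
  refine ⟨z1 r i hrr, fun _ => ?_⟩
  rw [ng r i hrr]
  show srch pE.symm _ _ < srch pE.symm _ _ ∧ 3 ≤ srch pE _ _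
  have hRn : ∀ n : ℕ, C.Rg r ((pE.symm ^ n) r) := by
    intro n
    induction n with
    | zero => exact hrr
    | succ n ih => rw [pow_succ', Equiv.Perm.mul_apply]; exact Rg.W ih
  obtain ⟨a, ⟨ha1, ha2⟩, -⟩ := C.st_ex r hr ha
  have haR : C.Rg r a := ⟨Core1.Rim.same _ hr ha1, ha1⟩
  have hfb : shf C.z2F C.ngF C.g2F (pt a 0 0) := by
    rw [fb a 0 haR, sF_pt (by omega)]; exact ⟨rfl, ha2⟩
  have hsy : pE.symm.symm r = r.stE := rfl
  refine walkW.caseB (K := C.K) (a := C.aW) (b := C.aE) (R := C.Rg r)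
    (fun x hx => Rg.W hx) (fun x hx => kv_W hx.1 ((tr_cyc hr hx.2).2 ht) (hz x hx)) (fun x hx h => K_aW hx.1 h) hrr hK hi ?_ ?_ ?_ ?_ ?_ ?_
    (fun h => by rw [hsy]; exact h5 h)
  · obtain ⟨M, hM⟩ := cyc_symm_pow ha1
    exact ⟨M, by rw [hM]; exact ha2.2⟩
  · intro n h3 h4
    rw [pow_succ', Equiv.Perm.mul_apply] at h3 h4
    exact fa _ (hRn n) ⟨h3, h4⟩
  · intro n c hc h
    rw [fb _ c (hRn n), sF_pt hc] at h
    exact ⟨h.1, h.2.2⟩
  · intro c hc h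
    rw [Equiv.symm_symm] at h ⊢
    rw [fb _ c (Rg.E hrr), sF_pt hc] at h
    exact ⟨h.1, h.2.2⟩
  · obtain ⟨M, hM⟩ := cyc_symm_pow (same_pt ha1 i 0)
    exact ⟨M, by rw [hM]; exact hfb⟩
  · obtain ⟨M, hM⟩ := cyc_pow (same_pt ha1 i 0)
    exact ⟨M, by rw [Equiv.symm_symm, hM]; exact hfb⟩

/-- labels `-`, `0` -/
lemma litB' {r : P.FSt} (hr : C.Rim r) (ht : C.tr r) (h1 : C.lin r = Ln.s) (h2 : C.lout r = Ln.z)
    {i : ℕ} (hi : i ≤ 6) (hK : C.K r) (h5 : i ≠ 6 → C.K (pE.symm r)) :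
    Lit C.trF C.ngF C.z1F C.z2F (shf C.z1F C.ngF C.g1F) (shf C.z2F C.ngF C.g2F) (pt r i 0) := by
  intro _
  have ha : C.ac r := C.ac_tr r hr ht
  have l1 : ∀ x, C.Rg r x → C.lin x = Ln.s := fun x hx => (lin_cyc hr hx.2).trans h1
  have l2 : ∀ x, C.Rg r x → C.lout x = Ln.z := fun x hx => (lout_cyc hr hx.2).trans h2
  have hz : ∀ x, C.Rg r x → C.lin x = Ln.z ∨ C.lout x = Ln.z := fun x hx => Or.inr (l2 x hx)
  have hrr : C.Rg r r := ⟨hr, Equiv.Perm.SameCycle.refl _ _⟩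
  have z1 : ∀ x c, C.Rg r x → C.z1F (pt x c 0) = false := by
    intro x c hx; unfold z1F; rw [cs_pt, l1 x hx, l2 x hx]; rfl
  have z2 : ∀ x c, C.Rg r x → C.z2F (pt x c 0) = true := by
    intro x c hx; unfold z2F; rw [cs_pt, l1 x hx, l2 x hx]; rfl
  have ng : ∀ x c, C.Rg r x → C.ngF (pt x c 0) = true := by
    intro x c hx; unfold ngF; rw [cs_pt, l1 x hx, l2 x hx]; rfl
  have g1 : ∀ x c, C.Rg r x → (C.g1F (pt x c 0) ↔ C.sF (pt x c 0)) := by
    intro x c hx; unfold g1F; rw [cs_pt, l1 x hx, l2 x hx]; simp [s1]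
  have g2 : ∀ x c, C.Rg r x → (C.g2F (pt x c 0) ↔ C.nF (pt x c 0)) := by
    intro x c hx; unfold g2F; rw [cs_pt, l1 x hx, l2 x hx]; simp [s1]
  have fb : ∀ x c, C.Rg r x → (shf C.z2F C.ngF C.g2F (pt x c 0) ↔ C.nF (pt x c 0)) := by
    intro x c hx; unfold shf; rw [if_pos (z2 x c hx)]; exact g2 x c hx
  have fa : ∀ x, C.Rg r x → St C.kv C.ke (pE x) → shf C.z1F C.ngF C.g1F (pt x 6 0) := by
    intro x hx hs
    unfold shf
    rw [if_neg (by rw [z1 x 6 hx]; decide), if_pos (ng x 6 hx), pt_stE6 x 0,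
      g1 x.stE 0 (Rg.E hx), sF_pt (by omega)]
    exact ⟨rfl, hs⟩
  refine ⟨z1 r i hrr, fun _ => ?_⟩
  rw [ng r i hrr]
  show srch pE.symm.symm _ _ < srch pE.symm.symm _ _ ∧ 3 ≤ srch pE.symm _ _
  rw [Equiv.symm_symm]
  have hRn : ∀ n : ℕ, C.Rg r ((pE ^ n) r) := by
    intro n
    induction n with
    | zero => exact hrr
    | succ n ih => rw [pow_succ', Equiv.Perm.mul_apply]; exact Rg.E ih
  obtain ⟨b, ⟨hb1, hb2⟩, -⟩ := C.en_ex r hr ha
  have hbR : C.Rg r b := ⟨Core1.Rim.same _ hr hb1, hb1⟩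
  have hfb : shf C.z2F C.ngF C.g2F (pt b 6 0) := by
    rw [fb b 6 hbR, nF_pt (by omega)]; exact ⟨rfl, hb2⟩
  have hw := walkE.caseB (K := C.K) (a := C.aE) (b := C.aW) (R := C.Rg r) (x := r) (i := 6 - i)
    (fa := shf C.z1F C.ngF C.g1F) (fb := shf C.z2F C.ngF C.g2F)
    (fun x hx => Rg.E hx) (fun x hx => kv_E hx.1 ((tr_cyc hr hx.2).2 ht) (hz x hx)) (fun x hx h => K_aE hx.1 h) hrr hK (by omega)
    ?_ ?_ ?_ ?_ ?_ ?_ (fun h => h5 (by omega))
  · rw [show 6 - (6 - i) = i by omega] at hw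
    exact hw
  · obtain ⟨M, hM⟩ := cyc_pow hb1
    exact ⟨M, by rw [hM]; exact hb2.2⟩
  · intro n h3 h4
    rw [pow_succ', Equiv.Perm.mul_apply] at h3 h4
    exact fa _ (hRn n) ⟨h3, h4⟩
  · intro n c hc h
    rw [fb _ _ (hRn n), nF_pt (by omega)] at h
    exact ⟨by omega, h.2.2⟩
  · intro c hc h
    rw [fb _ _ (Rg.W hrr), nF_pt (by omega)] at h
    exact ⟨by omega, h.2.2⟩
  · obtain ⟨M, hM⟩ := cyc_pow (same_pt hb1 (6 - (6 - i)) 6)
    exact ⟨M, by rw [hM]; exact hfb⟩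
  · obtain ⟨M, hM⟩ := cyc_symm_pow (same_pt hb1 (6 - (6 - i)) 6)
    exact ⟨M, by rw [hM]; exact hfb⟩

/-- **The lit lines.** -/
lemma lit_of_K {r : P.FSt} (hr : C.Rim r) {i : ℕ} (hi : i ≤ 6) {j : VL}
    (h : LitK C.kv C.ke C.tr C.lin C.lout r (vj i j)) :
    Lit C.trF C.ngF C.z1F C.z2F (shf C.z1F C.ngF C.g1F) (shf C.z2F C.ngF C.g2F) (pt r i 0) ∨
    (C.tr r ∧ (i = 0 ∧ St C.kv C.ke r ∧ C.lin r ≠ Ln.z ∨ i = 6 ∧ En C.kv C.ke r ∧
      C.lout r ≠ Ln.z) ∧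
      (if ngL (C.lin r) (C.lout r) = true then hit true false (decide (i = 6)) j = true
       else hit false true (decide (i = 6)) j = true)) := by
  by_cases ht : C.tr r
  swap
  · left
    intro h'
    exact absurd (by unfold trF at h'; rwa [cs_pt] at h') ht
  have ha : C.ac r := C.ac_tr r hr ht
  rcases h with h | ⟨h1, h2⟩ | ⟨h1, h2, h3, h4⟩ | ⟨h1, h2, h3, h4⟩ | ⟨h1, h2, h3⟩ | ⟨h1, h2, h3⟩
  · exact absurd ht h
  · left
    intro _
    have e1 : C.z1F (pt r i 0) = false := by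
      unfold z1F z1L; rw [cs_pt, decide_eq_false_iff_not]; exact fun h => h1 h.1
    have e2 : C.z2F (pt r i 0) = false := by
      unfold z2F z2L; rw [cs_pt, decide_eq_false_iff_not]; rintro (h | h)
      · exact h1 h
      · exact h2 h
    exact ⟨e1, fun h => absurd h (by rw [e2]; decide)⟩
  · by_cases hW : vj i j = VL.W
    · rw [if_pos hW] at h4
      have hi0 : i = 0 := by
        unfold vj at hW
        split_ifs at hW with a b
        exact a.1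
      left
      exact litA hr ht h1 h2 hi h3 (fun _ => h4) (fun h => absurd h (by omega))
    · rw [if_neg hW] at h4
      by_cases hs : i = 0 ∧ C.aW r
      · right
        obtain ⟨rfl, hs⟩ := hs
        refine ⟨ht, Or.inl ⟨rfl, ⟨hs, h3⟩, by rw [h1]; decide⟩, ?_⟩
        have e : ngL (C.lin r) (C.lout r) = false := by rw [h1, h2]; rfl
        rw [e, if_neg (by decide)]
        cases j
        · exact absurd rfl hW
        · rfl
        · rfl
      · left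
        exact litA hr ht h1 h2 hi h3 (fun hi0 haW => hs ⟨hi0, haW⟩) (fun _ => h4)
  · by_cases hE : vj i j = VL.E
    · rw [if_pos hE] at h4
      have hi6 : i = 6 := by
        unfold vj at hE
        split_ifs at hE with a b
        exact b.1
      left
      exact litA' hr ht h1 h2 hi h3 (fun _ => h4) (fun h => absurd h (by omega))
    · rw [if_neg hE] at h4
      by_cases hs : i = 6 ∧ C.aE r
      · right
        obtain ⟨rfl, hs⟩ := hs
        refine ⟨ht, Or.inr ⟨rfl, ⟨hs, h3⟩, by rw [h2]; decide⟩, ?_⟩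
        have e : ngL (C.lin r) (C.lout r) = true := by rw [h1, h2]; rfl
        rw [e, if_pos rfl]
        cases j
        · rfl
        · rfl
        · exact absurd rfl hE
      · left
        exact litA' hr ht h1 h2 hi h3 (fun hi0 haW => hs ⟨hi0, haW⟩) (fun _ => h4)
  · rcases h3 with ⟨h3, h4⟩ | ⟨h3, h4⟩
    · left
      refine litB hr ht h1 h2 hi h3 (fun hi0 => ?_)
      rcases h4 with h4 | h4
      · exfalso
        unfold vj at h4
        split_ifs at h4 with a b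
        exact hi0 a.1
      · exact h4
    · right
      have hi6 : i = 6 ∧ j = VL.E := by
        unfold vj at h4
        split_ifs at h4 with a b
        exact b
      obtain ⟨rfl, rfl⟩ := hi6
      refine ⟨ht, Or.inr ⟨rfl, h3, by rw [h2]; decide⟩, ?_⟩
      have e : ngL (C.lin r) (C.lout r) = false := by rw [h1, h2]; rfl
      rw [e, if_neg (by decide)]
      rfl
  · rcases h3 with ⟨h3, h4⟩ | ⟨h3, h4⟩
    · left
      refine litB' hr ht h1 h2 hi h3 (fun hi0 => ?_)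
      rcases h4 with h4 | h4
      · exfalso
        unfold vj at h4
        split_ifs at h4 with a b
        exact hi0 b.1
      · exact h4
    · right
      have hi0 : i = 0 ∧ j = VL.W := by
        unfold vj at h4
        split_ifs at h4 with a b
        exact a
      obtain ⟨rfl, rfl⟩ := hi0
      refine ⟨ht, Or.inl ⟨rfl, h3, by rw [h1]; decide⟩, ?_⟩
      have e : ngL (C.lin r) (C.lout r) = true := by rw [h1, h2]; rfl
      rw [e, if_pos rfl]
      rfl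

/-- all lines of the facet are lit: all parts are lit -/
lemma lit_all {r : P.FSt} (hr : C.Rim r) {i : ℕ} (hi : i ≤ 6)
    (h : ∀ j, LitK C.kv C.ke C.tr C.lin C.lout r j) :
    Lit C.trF C.ngF C.z1F C.z2F (shf C.z1F C.ngF C.g1F) (shf C.z2F C.ngF C.g2F) (pt r i 0) := by
  by_cases ht : C.tr r
  swap
  · intro h'
    exact absurd (by unfold trF at h'; rwa [cs_pt] at h') ht
  have ha : C.ac r := C.ac_tr r hr ht
  have hW := h VL.W
  have hE := h VL.E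
  have hM := h VL.M
  rcases hW with h' | ⟨h1, h2⟩ | ⟨h1, h2, h3, h4⟩ | ⟨h1, h2, h3, h4⟩ | ⟨h1, h2, h3⟩ |
    ⟨h1, h2, h3⟩
  · exact absurd ht h'
  · intro _
    have e1 : C.z1F (pt r i 0) = false := by
      unfold z1F z1L; rw [cs_pt, decide_eq_false_iff_not]; exact fun h => h1 h.1
    have e2 : C.z2F (pt r i 0) = false := by
      unfold z2F z2L; rw [cs_pt, decide_eq_false_iff_not]; rintro (h | h)
      · exact h1 h
      · exact h2 h
    exact ⟨e1, fun h => absurd h (by rw [e2]; decide)⟩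
  · rw [if_pos rfl] at h4
    have h5 : ¬ C.aE r := by
      rcases hE with h' | ⟨h1', h2'⟩ | ⟨h1', h2', h3', h4'⟩ | ⟨h1', h2', h3', h4'⟩ |
        ⟨h1', h2', h3'⟩ | ⟨h1', h2', h3'⟩
      · exact absurd ht h'
      · exact absurd h2 h2'
      · rw [if_neg (by decide)] at h4'; exact h4'
      · rw [h1] at h1'; exact absurd h1' (by decide)
      · rw [h1] at h1'; exact absurd h1' (by decide)
      · rw [h1] at h1'; exact absurd h1' (by decide)
    exact litA hr ht h1 h2 hi h3 (fun _ => h4) (fun _ => h5)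
  · rw [if_neg (by decide)] at h4
    have h5 : ¬ C.aE r := by
      rcases hE with h' | ⟨h1', h2'⟩ | ⟨h1', h2', h3', h4'⟩ | ⟨h1', h2', h3', h4'⟩ |
        ⟨h1', h2', h3'⟩ | ⟨h1', h2', h3'⟩
      · exact absurd ht h'
      · exact absurd h1 h1'
      · rw [h1] at h1'; exact absurd h1' (by decide)
      · rw [if_pos rfl] at h4'; exact h4'
      · rw [h2] at h2'; exact absurd h2' (by decide)
      · rw [h2] at h2'; exact absurd h2' (by decide)
    exact litA' hr ht h1 h2 hi h3 (fun _ => h5) (fun _ => h4)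
  · rcases hM with h' | ⟨h1', h2'⟩ | ⟨h1', h2', h3', h4'⟩ | ⟨h1', h2', h3', h4'⟩ |
      ⟨h1', h2', h3'⟩ | ⟨h1', h2', h3'⟩
    · exact absurd ht h'
    · exact absurd h1 h1'
    · rw [h1] at h1'; exact absurd h1' (by decide)
    · rw [h2] at h2'; exact absurd h2' (by decide)
    · rcases h3' with ⟨h5, h6 | h6⟩ | ⟨-, h6⟩
      · exact absurd h6 (by decide)
      · exact litB hr ht h1 h2 hi h5 (fun _ => h6)
      · exact absurd h6 (by decide)
    · rw [h1] at h1'; exact absurd h1' (by decide)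
  · rcases hM with h' | ⟨h1', h2'⟩ | ⟨h1', h2', h3', h4'⟩ | ⟨h1', h2', h3', h4'⟩ |
      ⟨h1', h2', h3'⟩ | ⟨h1', h2', h3'⟩
    · exact absurd ht h'
    · exact absurd h2 h2'
    · rw [h1] at h1'; exact absurd h1' (by decide)
    · rw [h1] at h1'; exact absurd h1' (by decide)
    · rw [h1] at h1'; exact absurd h1' (by decide)
    · rcases h3' with ⟨h5, h6 | h6⟩ | ⟨-, h6⟩
      · exact absurd h6 (by decide)
      · exact litB' hr ht h1 h2 hi h5 (fun _ => h6)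
      · exact absurd h6 (by decide)

end KC0

end Pool.Agent.MP42K
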