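import Pool.Agent.MP42.K.Part

/-!
# `KC0`: the strands in the parts of the facets

Local facts: at most one strand in every part (`okP`), and the strands fit over the sides of the
parts.
-/

set_option autoImplicit false
set_option linter.unusedSectionVars false

namespace Pool.Agent.MP42K

open Pool.Agent.Helper55.UNF Pool.Agent.Helper55.UNF.GridSolid Pool.Agent.MP42G
open Pool.Agent.MP42H Pool.Agent.MP42X Pool.Agent.MP42R

variable {P : GridSolid}

/-! ## States around an edge -/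

lemma stE_r2_stE (s : P.FSt) : s.stE.r2.stE = s.r2 := FSt.stE_inv s

lemma stN_rR (s : P.FSt) : s.stN.rR = s.rL.stE.r2 := by
  show s.rL.stE.rR.rR = _
  rw [FSt.rR_rR]

lemma stN_rL (s : P.FSt) : s.stN.rL = s.rL.stE := by
  show s.rL.stE.rR.rL = _
  rw [FSt.rR_rL]

lemma stN_r2 (s : P.FSt) : s.stN.r2 = s.rL.stE.rL := by
  show s.rL.stE.rR.r2 = _
  rw [FSt.rR_r2]

lemma rL_stE_r2_stE (s : P.FSt) : s.rL.stE.r2.stE = s.rR := by
  rw [stE_r2_stE, FSt.rL_r2]

lemma stN_r2_stN (s : P.FSt) : s.stN.r2.stN = s.r2 := by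
  have h := stE_r2_stE s.rL
  show s.stN.r2.rL.stE.rR = _
  rw [FSt.r2_rL, stN_rR, h, FSt.rL_r2, FSt.rR_rR]

namespace KC0

variable (C : KC0 P)

/-! ## Sides and corners of a facet -/

section

variable {s : P.FSt} (h0 : ¬ C.core s.facet)

include h0

lemma ke_NE (h : C.ke s) : C.kv s := (C.ke_kv s h0 h).1

lemma ke_SE (h : C.ke s) : C.kv s.rR := (C.ke_kv s h0 h).2

/-- north side -/
lemma keN_NE (h : C.ke s.rL) : C.kv s := by
  have := (C.ke_kv s.rL h0 h).2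
  rwa [FSt.rL_rR] at this

lemma keN_NW (h : C.ke s.rL) : C.kv s.rL := (C.ke_kv s.rL h0 h).1

/-- west side -/
lemma keW_NW (h : C.ke s.r2) : C.kv s.rL := by
  have := (C.ke_kv s.r2 h0 h).2
  rwa [FSt.r2_rR] at this

lemma keW_SW (h : C.ke s.r2) : C.kv s.r2 := (C.ke_kv s.r2 h0 h).1

/-- south side -/
lemma keS_SW (h : C.ke s.rR) : C.kv s.r2 := by
  have := (C.ke_kv s.rR h0 h).2
  rwa [FSt.rR_rR] at this

lemma keS_SE (h : C.ke s.rR) : C.kv s.rR := (C.ke_kv s.rR h0 h).1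

lemma kf_all (h : C.kf s.facet) : C.ke s ∧ C.ke s.rL ∧ C.ke s.r2 ∧ C.ke s.rR :=
  ⟨C.kf_ke s h0 h, C.kf_ke s.rL h0 h, C.kf_ke s.r2 h0 h, C.kf_ke s.rR h0 h⟩

/-! ## The curve over the sides -/

/-- over the east side next to the north-east corner -/
lemma kxE (h1 : ¬ C.core s.stE.facet) :
    (C.kv s.stE.rL ∧ ¬ C.ke s.stE.r2 ↔ C.kv s ∧ ¬ C.ke s) := (C.kx s h0 h1).symm

/-- over the east side next to the south-east corner -/
lemma kxE' (h1 : ¬ C.core s.stE.facet) :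
    (C.kv s.stE.r2 ∧ ¬ C.ke s.stE.r2 ↔ C.kv s.rR ∧ ¬ C.ke s) := by
  have h := C.kx s.stE.r2 h1 (by rw [stE_r2_stE]; exact h0)
  rw [stE_r2_stE, FSt.r2_rL, FSt.r2_r2] at h
  exact h

/-- over the north side next to the north-east corner -/
lemma kxN (h1 : ¬ C.core s.stN.facet) :
    (C.kv s.stN.rR ∧ ¬ C.ke s.stN.rR ↔ C.kv s ∧ ¬ C.ke s.rL) := by
  have e0 : s.rL.stE = s.stN.rL := (stN_rL s).symm
  have h := C.kxE' (s := s.rL) h0 (by rw [e0]; exact h1)
  rw [FSt.rL_rR] at h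
  rw [stN_rR]
  exact h

/-- over the north side next to the north-west corner -/
lemma kxN' (h1 : ¬ C.core s.stN.facet) :
    (C.kv s.stN.r2 ∧ ¬ C.ke s.stN.rR ↔ C.kv s.rL ∧ ¬ C.ke s.rL) := by
  have e0 : s.rL.stE = s.stN.rL := (stN_rL s).symm
  have h := C.kxE (s := s.rL) h0 (by rw [e0]; exact h1)
  rw [stN_rR, stN_r2]
  exact h

end

/-! ## Formulas -/

open Classical in
lemma sW_eq (s : P.FSt) {i j : ℕ} (hi : i ≤ 6) (hj : j ≤ 6) : C.sW s i j =
    if C.kf s.facet then false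
    else if j = 0 then (if i = 0 then decide (C.kv s.r2 ∧ ¬ C.ke s.r2) else decide (C.ke s.rR))
    else if j = 6 then (if i = 0 then decide (C.kv s.rL ∧ ¬ C.ke s.r2) else decide (C.ke s.rL))
    else false := by
  unfold sW sE
  rw [FSt.facet_r2, FSt.r2_rL, FSt.r2_rR]
  have e1 : (6 - j = 6) = (j = 0) := by rw [eq_iff_iff]; omega
  have e2 : (6 - j = 0) = (j = 6) := by rw [eq_iff_iff]; omega
  have e3 : (6 - i = 6) = (i = 0) := by rw [eq_iff_iff]; omega
  simp only [e1, e2, e3]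

open Classical in
lemma sS_eq (s : P.FSt) {i j : ℕ} (hi : i ≤ 6) (hj : j ≤ 6) : C.sS s i j =
    if C.kf s.facet then Ln.z
    else if i = 0 then
      (if j = 0 then (if C.kv s.r2 ∧ ¬ C.ke s.rR then C.nu s.rR.stE.r2 else Ln.z)
      else (if C.ke s.r2 then C.lam s.r2 else Ln.z))
    else if i = 6 then
      (if j = 0 then (if C.kv s.rR ∧ ¬ C.ke s.rR then C.nu s.rR else Ln.z)
      else (if C.ke s then C.lam s else Ln.z))
    else Ln.z := by
  unfold sS sN
  rw [FSt.facet_r2, FSt.r2_rL, FSt.r2_r2]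
  have e1 : (6 - j = 6) = (j = 0) := by rw [eq_iff_iff]; omega
  have e3 : (6 - i = 6) = (i = 0) := by rw [eq_iff_iff]; omega
  have e4 : (6 - i = 0) = (i = 6) := by rw [eq_iff_iff]; omega
  simp only [e1, e3, e4]

/-- **At most one strand in every part.** -/
lemma okP {s : P.FSt} (h0 : ¬ C.core s.facet) (hc : C.can s.facet = s ∨ C.can s.facet = s.r2)
    {i j : ℕ} (hi : i ≤ 6) (hj : j ≤ 6) :
    ok1 (C.sW s i j) (C.sE s i j) (C.sN s i j) (C.sS s i j) = true := by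
  classical
  rw [C.sW_eq s hi hj, C.sS_eq s hi hj]
  unfold sE sN
  by_cases hk : C.kf s.facet
  · simp [hk, ok1]
  simp only [hk, if_false]
  have hc' : C.can s.r2.facet = s.r2 ∨ C.can s.r2.facet = s.r2.r2 := by
    rw [FSt.facet_r2, FSt.r2_r2]; exact hc.symm
  have a1 := C.cNE s h0 hk hc
  have a2 := C.cSE s h0 hk hc
  have a3 := C.cNE s.r2 h0 hk hc'
  have a4 := C.cSE s.r2 h0 hk hc'
  rw [FSt.r2_rL] at a3
  rw [FSt.r2_rR] at a4
  have b1 := C.ke_NE h0
  have b2 := C.ke_SE h0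
  have b3 := C.keN_NE h0
  have b4 := C.keN_NW h0
  have b5 := C.keW_NW h0
  have b6 := C.keW_SW h0
  have b7 := C.keS_SW h0
  have b8 := C.keS_SE h0
  generalize C.nu s.rL.stE.r2 = n1 at *
  generalize C.nu s.rR.stE.r2 = n2 at *
  generalize C.nu s.rL = n3 at *
  generalize C.nu s.rR = n4 at *
  generalize C.lam s = l1 at *
  generalize C.lam s.r2 = l2 at *
  by_cases i0 : i = 0
  · subst i0
    by_cases j0 : j = 0
    · subst j0
      by_cases x1 : C.ke s.r2 <;> by_cases x2 : C.ke s.rR <;> by_cases x3 : C.kv s.r2 <;>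
        simp_all [ok1] <;> cases l2 <;> simp_all
    by_cases j6 : j = 6
    · subst j6
      by_cases x1 : C.ke s.r2 <;> by_cases x2 : C.ke s.rL <;> by_cases x3 : C.kv s.rL <;>
        simp_all [ok1] <;> cases l2 <;> simp_all
    · by_cases x1 : C.ke s.r2 <;> simp_all [ok1]
      cases l2 <;> simp_all
  by_cases i6 : i = 6
  · subst i6
    by_cases j0 : j = 0
    · subst j0
      by_cases x1 : C.ke s <;> by_cases x2 : C.ke s.rR <;> by_cases x3 : C.kv s.rR <;>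
        simp_all [ok1] <;> cases l1 <;> simp_all
    by_cases j6 : j = 6
    · subst j6
      by_cases x1 : C.ke s <;> by_cases x2 : C.ke s.rL <;> by_cases x3 : C.kv s <;>
        simp_all [ok1] <;> cases l1 <;> simp_all
    · by_cases x1 : C.ke s <;> simp_all [ok1]
      cases l1 <;> simp_all
  · by_cases j0 : j = 0
    · subst j0
      by_cases x2 : C.ke s.rR <;> simp_all [ok1]
    by_cases j6 : j = 6
    · subst j6
      by_cases x2 : C.ke s.rL <;> simp_all [ok1]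
    · simp_all [ok1]

/-! ## Strands over the sides of the parts -/

lemma glN_mid (s : P.FSt) {i j : ℕ} (hi : i ≤ 6) (hj : j < 6) : C.sN s i j = C.sS s i (j + 1) := by
  classical
  rw [C.sS_eq s hi (by omega)]
  unfold sN
  by_cases hk : C.kf s.facet
  · simp [hk]
  simp only [hk, if_false]
  have e1 : ¬ j = 6 := by omega
  have e2 : ¬ j + 1 = 0 := by omega
  simp only [e1, e2, if_false]
  by_cases i6 : i = 6
  · subst i6; simp
  · simp [i6]

lemma glN_end {s : P.FSt} (h0 : ¬ C.core s.facet) (h1 : ¬ C.core s.stN.facet) {i : ℕ}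
    (hi : i ≤ 6) : C.sN s i 6 = C.sS s.stN i 0 := by
  classical
  rw [C.sS_eq s.stN hi (by omega)]
  unfold sN
  simp only [if_true]
  have e2 := C.kxN h0 h1
  have e3 := C.kxN' h0 h1
  have e4 : s.stN.rR.stE.r2 = s.rL := by
    rw [stN_rR, rL_stE_r2_stE, FSt.rR_r2]
  have e5 : s.stN.rR = s.rL.stE.r2 := stN_rR s
  simp only [e4, e2, e3]
  rw [e5]
  by_cases hk : C.kf s.facet
  · have := (C.kf_all h0 hk).2.1
    simp [hk, this]
  by_cases hk' : C.kf s.stN.facet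
  · have := (C.kf_all h1 hk').2.2.2
    have f1 : ¬ (C.kv s ∧ ¬ C.ke s.rL) := fun h => (e2.2 h).2 this
    have f2 : ¬ (C.kv s.rL ∧ ¬ C.ke s.rL) := fun h => (e3.2 h).2 this
    simp only [hk', if_true, hk, if_false, if_neg f1, if_neg f2]
    split_ifs <;> rfl
  simp only [hk, hk', if_false]
  by_cases i6 : i = 6
  · subst i6; simp
  · by_cases i0 : i = 0
    · subst i0; simp
    · simp [i6, i0]

lemma glE_mid (s : P.FSt) {i j : ℕ} (hi : i < 6) (hj : j ≤ 6) : C.sE s i j = C.sW s (i + 1) j := by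
  classical
  rw [C.sW_eq s (by omega) hj]
  unfold sE
  by_cases hk : C.kf s.facet
  · simp [hk]
  simp only [hk, if_false]
  have e1 : ¬ i = 6 := by omega
  have e2 : ¬ i + 1 = 0 := by omega
  simp only [e1, e2, if_false]
  by_cases j6 : j = 6
  · subst j6; simp
  · simp [j6]

lemma glE_end {s : P.FSt} (h0 : ¬ C.core s.facet) (h1 : ¬ C.core s.stE.facet) {j : ℕ}
    (hj : j ≤ 6) : C.sE s 6 j = C.sW s.stE 0 j := by
  classical
  rw [C.sW_eq s.stE (by omega) hj]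
  unfold sE
  simp only [if_true]
  have e2 := C.kxE h0 h1
  have e3 := C.kxE' h0 h1
  simp only [e2, e3]
  by_cases hk : C.kf s.facet
  · have := (C.kf_all h0 hk).1
    simp [hk, this]
  by_cases hk' : C.kf s.stE.facet
  · have := (C.kf_all h1 hk').2.2.1
    have f1 : ¬ (C.kv s ∧ ¬ C.ke s) := fun h => (e2.2 h).2 this
    have f2 : ¬ (C.kv s.rR ∧ ¬ C.ke s) := fun h => (e3.2 h).2 this
    simp only [hk', if_true, hk, if_false, decide_eq_false f1, decide_eq_false f2]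
    split_ifs <;> rfl
  simp only [hk, hk', if_false]
  by_cases j6 : j = 6
  · subst j6; simp
  · by_cases j0 : j = 0
    · subst j0; simp
    · simp [j6, j0]

/-- the frames do not fit: no letters -/
lemma glN0 {s : P.FSt} (h0 : ¬ C.core s.facet) (h1 : ¬ C.core s.stN.facet) (hc : C.can s.facet = s)
    (hn : C.can s.stN.facet ≠ s.stN) {i : ℕ} (hi : i ≤ 6) : C.sN s i 6 = Ln.z := by
  classical
  have hNE : ¬ (C.kv s ∧ ¬ C.ke s.rL) := by
    rintro ⟨h2, h3⟩
    have e0 : s.stN.rR.stE = s.rR := by rw [stN_rR, rL_stE_r2_stE]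
    have h5 := (C.kxN h0 h1).2 ⟨h2, h3⟩
    have h4 := C.cmp s.stN.rR h1 (by rw [e0]; exact h0) h5.1 h5.2
    rw [e0, FSt.facet_rR, FSt.facet_rR, hc, FSt.rR_rL, FSt.rR_rL, FSt.rR_rR, FSt.rR_rR,
      FSt.rR_r2] at h4
    rcases h4 with ⟨-, h | h⟩ | ⟨-, h⟩ | ⟨h, -⟩
    · exact rR_ne s h.symm
    · rw [FSt.rR_r2] at h; exact rL_ne s h.symm
    · exact r2_ne s h.symm
    · exact hn h
  have hNW : ¬ (C.kv s.rL ∧ ¬ C.ke s.rL) := by
    rintro ⟨h2, h3⟩
    have e0 : s.rL.stE = s.stN.rL := (stN_rL s).symm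
    have h4 := C.cmp s.rL h0 (by rw [e0]; exact h1) h2 h3
    rw [e0, FSt.facet_rL, FSt.facet_rL, hc, FSt.rL_rR, FSt.rL_rR, FSt.rL_rL, FSt.rL_rL,
      FSt.rL_r2] at h4
    rcases h4 with ⟨h | h, -⟩ | ⟨-, h⟩ | ⟨h, -⟩
    · exact rL_ne s h.symm
    · exact rR_ne s h.symm
    · exact hn h
    · exact r2_ne s h.symm
  unfold sN
  by_cases hk : C.kf s.facet
  · simp [hk]
  by_cases i6 : i = 6
  · subst i6; simp [hk, hNE]
  · by_cases i0 : i = 0
    · subst i0; simp [hk, hNW]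
    · simp [hk, i6, i0]

/-- the frames do not fit: no letters, frame turned -/
lemma glN0r {s : P.FSt} (h0 : ¬ C.core s.facet) (h1 : ¬ C.core s.stN.facet) (hc : C.can s.facet = s.r2)
    (hn : C.can s.stN.facet ≠ s.stN.r2) {i : ℕ} (hi : i ≤ 6) : C.sN s i 6 = Ln.z := by
  classical
  have hNE : ¬ (C.kv s ∧ ¬ C.ke s.rL) := by
    rintro ⟨h2, h3⟩
    have e0 : s.stN.rR.stE = s.rR := by rw [stN_rR, rL_stE_r2_stE]
    have h5 := (C.kxN h0 h1).2 ⟨h2, h3⟩
    have h4 := C.cmp s.stN.rR h1 (by rw [e0]; exact h0) h5.1 h5.2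
    rw [e0, FSt.facet_rR, FSt.facet_rR, hc, FSt.rR_rL, FSt.rR_rL, FSt.rR_rR, FSt.rR_rR,
      FSt.rR_r2] at h4
    rcases h4 with ⟨-, h | h⟩ | ⟨h, -⟩ | ⟨-, h⟩
    · exact rR_ne_r2 s h.symm
    · rw [FSt.rR_r2] at h; exact rL_ne_r2 s h.symm
    · exact hn h
    · exact r2_ne s h
  have hNW : ¬ (C.kv s.rL ∧ ¬ C.ke s.rL) := by
    rintro ⟨h2, h3⟩
    have e0 : s.rL.stE = s.stN.rL := (stN_rL s).symm
    have h4 := C.cmp s.rL h0 (by rw [e0]; exact h1) h2 h3
    rw [e0, FSt.facet_rL, FSt.facet_rL, hc, FSt.rL_rR, FSt.rL_rR, FSt.rL_rL, FSt.rL_rL,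
      FSt.rL_r2] at h4
    rcases h4 with ⟨h | h, -⟩ | ⟨h, -⟩ | ⟨-, h⟩
    · exact rL_ne_r2 s h.symm
    · exact rR_ne_r2 s h.symm
    · exact r2_ne s h
    · exact hn h
  unfold sN
  by_cases hk : C.kf s.facet
  · simp [hk]
  by_cases i6 : i = 6
  · subst i6; simp [hk, hNE]
  · by_cases i0 : i = 0
    · subst i0; simp [hk, hNW]
    · simp [hk, i6, i0]

/-- the frames do not fit: no strands -/
lemma glE0 {s : P.FSt} (h0 : ¬ C.core s.facet) (h1 : ¬ C.core s.stE.facet) (hc : C.can s.facet = s ∨ C.can s.facet = s.r2)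
    (hn : C.can s.stE.facet ≠ s.stE) (hn' : C.can s.stE.facet ≠ s.stE.r2) (j : ℕ) :
    C.sE s 6 j = false := by
  classical
  have hNE : ¬ (C.kv s ∧ ¬ C.ke s) := by
    rintro ⟨h2, h3⟩
    rcases C.cmp s h0 h1 h2 h3 with ⟨-, h | h⟩ | ⟨h, -⟩ | ⟨h, -⟩
    · exact hn h
    · exact hn' h
    · rcases hc with hc | hc <;> rw [hc] at h
      · exact rR_ne s h.symm
      · exact rR_ne_r2 s h.symm
    · rcases hc with hc | hc <;> rw [hc] at h
      · exact rL_ne s h.symm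
      · exact rL_ne_r2 s h.symm
  have hSE : ¬ (C.kv s.rR ∧ ¬ C.ke s) := by
    rintro ⟨h2, h3⟩
    have h5 := (C.kxE' h0 h1).2 ⟨h2, h3⟩
    have h4 := C.cmp s.stE.r2 h1 (by rw [stE_r2_stE]; exact h0) h5.1 h5.2
    rw [stE_r2_stE, FSt.facet_r2, FSt.facet_r2, FSt.r2_r2] at h4
    rcases h4 with ⟨h | h, -⟩ | ⟨-, h⟩ | ⟨-, h⟩
    · exact hn' h
    · exact hn h
    · rw [FSt.r2_rR] at h
      rcases hc with hc | hc <;> rw [hc] at h
      · exact rL_ne s h.symm
      · exact rL_ne_r2 s h.symm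
    · rw [FSt.r2_rL] at h
      rcases hc with hc | hc <;> rw [hc] at h
      · exact rR_ne s h.symm
      · exact rR_ne_r2 s h.symm
  unfold sE
  by_cases hk : C.kf s.facet
  · simp [hk]
  by_cases j6 : j = 6
  · subst j6; simp [hk, hNE]
  · by_cases j0 : j = 0
    · subst j0; simp [hk, hSE]
    · simp [hk, j6, j0]

end KC0

end Pool.Agent.MP42K
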