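import Pool.Agent.MP42.K.FG2
import Pool.Agent.MP42.K.Fat5

/-!
# The mirror image of a growth state without lines (owner helper18)

`GS0.mir`, `Gr0.mir`, `Gr0.unmir`, `Jct.mir`.
-/

set_option autoImplicit false
set_option linter.unusedSectionVars false

namespace Pool.Agent.MP42K

open Pool.Agent.Helper55.UNF Pool.Agent.Helper55.UNF.GridSolid Pool.Agent.MP42G
open Pool.Agent.MP42H Pool.Agent.MP42X Pool.Agent.MP42R
open Core1 (jf)
open Nb (SC SC_rot_right SC_rot_left SC_rev rev_rot rot)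

variable {P Q : GridSolid}

lemma Jct.mir {R : Core1 P} {J : P.Facet → Prop} (h : Jct R J) (M : Mir P Q) :
    Jct (R.mir M) (mJ M J) := ⟨mir_J0 M h.nc, mir_JE M h.E⟩

/-- the headings of the image -/
noncomputable def mH (M : Mir P Q) (N : Nb P) (H : P.FSt → ℤ) (t : Q.FSt) : ℤ :=
  - H (pc N (M.symm.s t))

section

variable {J : P.Facet → Prop} {N : Nb P} {Hi Ho H : P.FSt → ℤ} {Op : P.FSt → Prop}

lemma mH_ke (M : Mir P Q) {x : P.FSt} (h : N.ke x) : mH M N H (M.s x) = - H x := by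
  unfold mH; rw [M.ss, pc_ke h]

lemma mH_nke (M : Mir P Q) {x : P.FSt} (h : ¬ N.ke x) : mH M N H (M.s x.stE.r2) = - H x := by
  have h' : ¬ N.ke x.stE.r2 := fun hc => h ((N.ke_rev x).1 hc)
  unfold mH; rw [M.ss, pc_nke h', rev_rev]

lemma mH_mH (M : Mir P Q) : mH M.symm (N.mir M) (mH M N H) = H := by
  funext x
  by_cases h : N.ke x
  · have h1 : (N.mir M).ke (M.symm.symm.s x) := (mir_ke M N x).2 h
    have e : mH M.symm (N.mir M) (mH M N H) x = - mH M N H (M.s x) := by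
      show - mH M N H (pc (N.mir M) (M.symm.symm.s x)) = _
      rw [pc_ke h1]; rfl
    rw [e, mH_ke M h, neg_neg]
  · have h1 : ¬ (N.mir M).ke (M.symm.symm.s x) := fun hc => h ((mir_ke M N x).1 hc)
    have e : mH M.symm (N.mir M) (mH M N H) x = - mH M N H (M.s x.stE.r2) := by
      show - mH M N H (pc (N.mir M) (M.symm.symm.s x)) = _
      rw [pc_nke h1]
      have e2 : (M.symm.symm.s x).stE.r2 = M.s x.stE.r2 := by
        rw [M.r2, M.stE]; rfl
      rw [e2]
    rw [e, mH_nke M h, neg_neg]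

/-- **The mirror image of the rules.** -/
theorem GS0.mir (h : GS0 J N Hi Ho Op) (M : Mir P Q) :
    GS0 (mJ M J) (N.mir M) (mHi M N Ho) (mHo M N Hi Ho Op)
      (fun t => Op (M.symm.s t).stE.r2) := by
  classical
  have nop : ∀ s, N.ke s → ¬ Op s := fun s hs ho => (h.op s ho).ke hs
  have hOp : ∀ x : P.FSt, (Op x.stE.r2) → ¬ N.ke x := fun x ho hc =>
    (h.op _ ho).ke ((N.ke_rev x).2 hc)
  refine GS0.of_loc ?_ ?_
  · intro t ht
    obtain ⟨x, rfl⟩ := M.s.surjective t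
    simp only [M.ss] at ht
    rw [mir_Dt]
    have h1 := h.op _ ht
    have h2 : N.kv x.rR := by
      have h3 := (N.kv_rot x.stE.r2).2 h1.kv
      rwa [rev_rot] at h3
    exact ⟨h2, fun hc => hOp x ht (N.kf_ke x hc)⟩
  · intro t ht
    obtain ⟨x, rfl⟩ := M.s.surjective t
    rw [mir_Dt] at ht
    obtain ⟨y, hy1, hy2, hy3, hy4, hy5⟩ := mir_nx M N ht
    have ep : pc N x = y := by
      rcases hy5 with ⟨h1, h2⟩ | ⟨h1, h2⟩
      · rw [pc_ke h1, h2]
      · rw [pc_nke h1, h2]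
    have eo : Op x.stE.r2 ↔ Op y := by
      rcases hy5 with ⟨h1, h2⟩ | ⟨h1, h2⟩
      · rw [h2]
        exact iff_of_false (fun ho => hOp x ho h1) (nop x h1)
      · rw [h2]
    have vi : mHi M N Ho (M.s x) = - Ho y := by unfold mHi; rw [M.ss, ep]
    have vo1 : Op y → mHo M N Hi Ho Op (M.s x) = - Hi y := by
      intro ho; unfold mHo; rw [M.ss, ep, if_pos ho]
    have vo2 : ¬ Op y → mHo M N Hi Ho Op (M.s x) = - Ho y := by
      intro ho; unfold mHo; rw [M.ss, ep, if_neg ho]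
    have hLy := h.loc hy1
    refine Loc0.mk4 ?_ ?_ ?_ ?_
    · -- the next dart
      intro hJ
      rw [hy3, M.facet, mJ_f, FSt.facet_rL] at hJ
      have hy1' : N.Dt y.rL.rR := by rw [FSt.rL_rR]; exact hy1
      obtain ⟨z, hz1, hz2, hz3, hz4, hz5⟩ := mir_nx M N hy1'
      rw [FSt.rL_rR] at hz2
      have ez : pc N y.rL = z := by
        rcases hz5 with ⟨h1, h2⟩ | ⟨h1, h2⟩
        · rw [pc_ke h1, h2]
        · rw [pc_nke h1, h2]
      have v2 : mHi M N Ho (M.s y.rL) = - Ho z := by unfold mHi; rw [M.ss, ez]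
      have hLz := (h.loc hz1).nxt (by rw [hz2]; exact hJ)
      rw [hz2] at hLz
      have hdl : (N.mir M).dl (M.s x) = N.dl z := by
        unfold Nb.dl
        rw [hy3, hz2]
        simp only [mir_ke, ← hy4, ← hz4]
        by_cases c1 : N.ke y <;> by_cases c2 : N.ke z <;> simp [c1, c2]
      rw [hy3, v2, hdl]
      by_cases ho : Op y
      · rw [vo1 ho]; omega
      · rw [vo2 ho]
        have h1 := (hLy.io hJ ho).1
        omega
    · intro hJ ho
      rw [M.facet, mJ_f] at hJ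
      simp only [M.ss] at ho
      rw [eo] at ho
      rw [vi, vo2 ho]
      refine ⟨rfl, ?_⟩
      rcases hy5 with ⟨h1, h2⟩ | ⟨h1, h2⟩
      · have h3 := (hLy.io (by rw [h2]; exact hJ) ho).2
        omega
      · have h3 := hLy.hb' (fun hc => h1 (hy4.1 hc)) (by
          rw [h2, FSt.stE_inv]; exact hJ) ho
        omega
    · intro hk hJ ho
      rw [mir_ke] at hk
      simp only [M.ss] at ho
      rw [eo] at ho
      have hJ' : J x.stE.facet := by
        rw [← M.stE, M.facet, mJ_f] at hJ; exact hJ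
      rcases hy5 with ⟨h1, h2⟩ | ⟨h1, h2⟩
      · exact absurd h1 hk
      · rw [vo2 ho]
        have hJy : J y.facet := by rw [h2]; exact hJ'
        have h3 := hLy.io hJy ho
        exact ⟨by omega, by omega⟩
    · intro ho
      simp only [M.ss] at ho
      have hkx := hOp x ho
      have hy : y = x.stE.r2 := by
        rcases hy5 with ⟨h1, h2⟩ | ⟨h1, h2⟩
        · exact absurd h1 hkx
        · exact h2
      obtain ⟨p1, p2, p3, p4, p5, p6, p7, p8⟩ := h.op _ ho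
      rw [vi, vo1 (eo.1 ho), hy]
      have e1 : x.stE.r2.stE.facet = x.facet := by rw [FSt.stE_inv]; rfl
      refine ⟨(mir_kv M N x).2 ht.1, fun hc => hkx ((mir_ke M N x).1 hc), ?_, ?_, by omega,
        by omega, by omega, by omega⟩
      · rw [M.facet, mJ_f, ← e1]; exact p4
      · rw [← M.stE, M.facet, mJ_f]; exact p3

end

/-- **The mirror image of a growth state.** -/
theorem Gr0.mir {R : Core1 P} {J : P.Facet → Prop} {N : Nb P} {H : P.FSt → ℤ}
    {lin lout : P.FSt → Ln} {L : List (P.FSt × ℤ × ℤ)} (h : Gr0 R J N H lin lout L)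
    (hJc : Jct R J) (M : Mir P Q) :
    Gr0 (R.mir M) (mJ M J) (N.mir M) (mH M N H) (mL M lout) (mL M lin) (L.map (mP M)) := by
  classical
  obtain ⟨Hi, Ho, g1, g2, g3⟩ := h.ex
  have hOp : (fun t : Q.FSt => t ∈ (L.map (mP M)).map Prod.fst) =
      (fun t => (M.symm.s t).stE.r2 ∈ L.map Prod.fst) := by
    funext t
    obtain ⟨x, rfl⟩ := M.s.surjective t
    apply propext
    rw [mP_mem, M.ss]
  have nop : ∀ s, N.ke s → s ∉ L.map Prod.fst := fun s hs ho => (g1.op s ho).ke hs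
  refine ⟨?_, ⟨mHi M N Ho, mHo M N Hi Ho (fun t => t ∈ L.map Prod.fst), ?_, ?_, ?_⟩, ?_, ?_,
    Nb.one_mir M h.one, ?_⟩
  · rw [List.map_map]
    have h1 := h.nd
    have h2 : (L.map Prod.fst).map (fun x => M.s x.stE.r2) =
        L.map (Prod.fst ∘ mP M) := by
      rw [List.map_map]; rfl
    rw [← h2]
    refine h1.map ?_
    intro x y hxy
    have h3 := M.s.injective hxy
    have h4 := congrArg (fun z : P.FSt => z.stE.r2) h3
    simpa only [rev_rev] using h4
  · rw [hOp]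
    exact g1.mir M
  · intro p hp
    obtain ⟨q, hq, rfl⟩ := List.mem_map.1 hp
    have h1 := g2 q hq
    have hm : q.1 ∈ L.map Prod.fst := List.mem_map_of_mem hq
    have hk : ¬ N.ke q.1.stE.r2 := fun hc => (g1.op _ hm).ke ((N.ke_rev _).1 hc)
    have e : pc N (M.symm.s (M.s q.1.stE.r2)) = q.1 := by
      rw [M.ss, pc_nke hk, rev_rev]
    show mHi M N Ho (M.s q.1.stE.r2) = -q.2.2 + 1 ∧
      mHo M N Hi Ho _ (M.s q.1.stE.r2) = -q.2.1 - 1
    unfold mHi mHo
    rw [e, if_pos hm]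
    omega
  · intro s hs
    obtain ⟨x, rfl⟩ := M.s.surjective s
    rw [mP_mem] at hs
    by_cases hk : N.ke x
    · have ho : x ∉ L.map Prod.fst := nop x hk
      rw [mH_ke M hk, ← g3 x ho]
      unfold mHo
      rw [M.ss, pc_ke hk, if_neg ho]
    · unfold mHo mH
      rw [M.ss, pc_nke hk, if_neg hs, g3 _ hs]
  · intro r hr hJr hS
    obtain ⟨x, rfl⟩ := M.s.surjective r
    rw [Core1.mir_Rim] at hr
    rw [mir_jf] at hJr
    rw [mir_St] at hS
    have hk : ¬ N.ke (pN.symm x.r2).rL := hS.2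
    rw [mir_below_rL, mL_s, Hof_ng, ← h.en _ hr hJr hS]
    unfold mH
    rw [M.ss, pc_nke hk]
    rfl
  · intro r hr hJr hS
    obtain ⟨x, rfl⟩ := M.s.surjective r
    rw [Core1.mir_Rim] at hr
    rw [mir_jf] at hJr
    rw [mir_En] at hS
    rw [mL_s, Hof_ng, ← h.st _ hr hJr hS]
    have e : pre (pN.symm (M.s x)) = M.s (pN.symm x.r2).rL.stE.r2 := by
      show (pN.symm (M.s x)).rL.stE.r2 = _
      rw [mir_below_rL, ← M.stE, ← M.r2]
    rw [e]
    exact mH_nke M hS.2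
  · intro r hr hJr
    obtain ⟨x, rfl⟩ := M.s.surjective r
    have hR' : (R.mir M).Rim (M.s x).stE := Core1.Rim.E _ hr
    rw [Core1.mir_Rim] at hr
    rw [← M.stE, Core1.mir_Rim] at hR'
    rw [mir_jf] at hJr
    rw [← M.stE, mL_s, mL_s, mL_s, mL_s]
    have e : x.stE.r2.stE = x.r2 := FSt.stE_inv x
    have hJ' : J (jf x.stE.r2) := by
      have h1 := J_spow hJc.E hr hJr 1
      have h2 : (pE.symm ^ 1) x.r2 = x.stE.r2 := by
        rw [pow_one, pE_symm_apply, FSt.r2_r2]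
      rw [h2] at h1
      exact h1
    have h1 := h.lE x.stE.r2 hR' hJ'
    rw [e] at h1
    rw [h1.1, h1.2]
    exact ⟨rfl, rfl⟩

/-- **Back from the mirror image.** -/
theorem Gr0.unmir {R : Core1 P} {J : P.Facet → Prop} {N : Nb P} {H : Q.FSt → ℤ}
    {lin lout : P.FSt → Ln} {L : List (P.FSt × ℤ × ℤ)} (M : Mir P Q) (hJc : Jct R J)
    (h : Gr0 (R.mir M) (mJ M J) (N.mir M) H (mL M lout) (mL M lin) (L.map (mP M))) :
    Gr0 R J N (mH M.symm (N.mir M) H) lin lout L := by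
  have h1 := h.mir (hJc.mir M) M.symm
  rw [Core1.mir_mir, mJ_mJ, mir_mir, mL_mL, mL_mL, List.map_map] at h1
  have h2 : (mP M.symm ∘ mP M) = (id : P.FSt × ℤ × ℤ → P.FSt × ℤ × ℤ) := by
    funext p; exact mP_mP M p
  rwa [h2, List.map_id] at h1

/-! ## Fattening, mirror image -/

section

variable {R : Core1 P} {J : P.Facet → Prop} {N N' : Nb P} {H : P.FSt → ℤ}
  {lin lout : P.FSt → Ln} {w : P.FSt} {L K n m : ℕ}

/-- the transfer of `unchanged' -/
lemma mir_same (M : Mir P Q) {H' : Q.FSt → ℤ} {s : P.FSt} {B : Q.FSt → Prop}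
    (h : ∀ t, (N.mir M).Dt t → ¬ B t → H' t = mH M N H t ∧ ((N'.mir M).ke t ↔ (N.mir M).ke t))
    (hs : N.Dt s) (h1 : N.ke s → ¬ B (M.s s)) (h2 : ¬ N.ke s → ¬ B (M.s s.stE.r2)) :
    mH M.symm (N'.mir M) H' s = H s ∧ (N'.ke s ↔ N.ke s) := by
  by_cases hk : N.ke s
  · have hd : (N.mir M).Dt (M.s s) := (mir_Dt M N s).2 ⟨Nb.kv_rR hk, hs.2⟩
    obtain ⟨e1, e2⟩ := h _ hd (h1 hk)
    rw [mir_ke, mir_ke] at e2
    refine ⟨?_, e2⟩
    have h3 : (N'.mir M).ke (M.symm.symm.s s) := (mir_ke M N' s).2 (e2.2 hk)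
    show - H' (pc (N'.mir M) (M.symm.symm.s s)) = _
    rw [pc_ke h3]
    show - H' (M.s s) = _
    rw [e1, mH_ke M hk, neg_neg]
  · have hd : (N.mir M).Dt (M.s s.stE.r2) := by
      rw [mir_Dt, FSt.r2_rR]
      have := hs.nx
      rwa [Nb.nx_nke hk] at this
    obtain ⟨e1, e2⟩ := h _ hd (h2 hk)
    rw [mir_ke, mir_ke, N.ke_rev, N'.ke_rev] at e2
    refine ⟨?_, e2⟩
    have h3 : ¬ (N'.mir M).ke (M.symm.symm.s s) := fun hc =>
      hk (e2.1 ((mir_ke M N' s).1 hc))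
    show - H' (pc (N'.mir M) (M.symm.symm.s s)) = _
    rw [pc_nke h3]
    have e3 : (M.symm.symm.s s).stE.r2 = M.s s.stE.r2 := by
      rw [M.r2, M.stE]; rfl
    rw [e3, e1, mH_nke M hk, neg_neg]

/-- **A block is added**, mirror image, four facets at the last corner. -/
theorem Gr0.fat0W (hJc : Jct R J) {S : List (P.FSt × ℤ × ℤ)} (h : Gr0 R J N H lin lout S)
    (B : BlockW N w L K 4) (A : AddsF N N' (BwG w L K))
    (hJ : ∀ i < L, ∀ k < K, J (bw w i k).facet)
    (hJn : ∀ i < L, ∀ k < K, ∀ s, SC (bw w i k).r2 s → J s.facet)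
    (hW : ∀ i < L, bw w (i + 1) 0 ∉ S.map Prod.fst)
    (hb : ∀ k < K, (bw w 0 k).rR ∉ S.map Prod.fst) :
    ∃ H' : P.FSt → ℤ, (∀ s, N.Dt s → ¬ BwG w L K (N.nx s).facet →
      (∀ k, k + 1 = K → s ≠ (bw w 0 k).rR) → H' s = H s ∧ (N'.ke s ↔ N.ke s)) ∧
      Gr0 R J N' H' lin lout S := by
  let M := Pool.Agent.MP42K.mir P
  have h1 := h.mir hJc M
  have A1 := A.mir M
  rw [mir_BwG] at A1
  obtain ⟨H', e1, h2⟩ := h1.fat0 (hJc.mir M) (B.mir M) A1 (by
      intro i hi k hk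
      rw [mir_bk, M.facet, mJ_f]; exact hJ i hi k hk) (by
      intro i hi k hk s hs
      obtain ⟨x, rfl⟩ := M.s.surjective s
      rw [mir_bk, ← M.rL, FSt.r2_rL, mir_SC', FSt.rR_rR] at hs
      rw [M.facet, mJ_f]
      exact hJn i hi k hk x.rR hs) (by
      intro i hi hc
      rw [mir_bk, mP_mem, rR_bw_E] at hc
      exact hW i hi hc) (by
      intro k hk hc
      rw [mir_bk, mir_bS, mP_mem] at hc
      unfold bS at hc
      rw [rev_rev] at hc
      exact hb k hk hc)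
  refine ⟨_, ?_, Gr0.unmir M hJc h2⟩
  intro s hs hG hz
  refine mir_same M (B := fun t => BlG (M.s w.r2) L K t.facet ∨
    ∃ k, k + 1 = K ∧ t = bS (bk (M.s w.r2) 0 k)) (fun t ht hB => ?_) hs ?_ ?_
  · push Not at hB
    exact e1 t ht hB.1 hB.2
  · intro hk
    rw [Nb.nx_ke hk] at hG
    rintro (h3 | ⟨k, h3, h4⟩)
    · rw [← mir_BwG, M.facet, mJ_f] at h3
      exact hG h3
    · rw [mir_bk, mir_bS] at h4
      have h5 := M.s.injective h4
      rw [h5] at hk
      have h6 := Nb.kv_rR hk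
      have h7 : N.ke (bw w 0 k).rR := (N.ke_rev _).1 hk
      exact B.new 0 B.posL k (by omega) (by
        have h8 := Nb.kv_rR h7
        rwa [FSt.rR_rR] at h8)
  · intro hk
    rw [Nb.nx_nke hk] at hG
    rintro (h3 | ⟨k, h3, h4⟩)
    · rw [← mir_BwG, M.facet, mJ_f] at h3
      exact hG h3
    · rw [mir_bk, mir_bS] at h4
      have h5 := M.s.injective h4
      have h6 := congrArg (fun z : P.FSt => z.stE.r2) h5
      unfold bS at h6
      simp only [rev_rev] at h6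
      exact hz k h3 h6

/-- **A block is added**, mirror image, a port `(a, b)` at the south-east corner, `n` facets at the
south-west corner. -/
theorem Gr0.fatPW (hJc : Jct R J) {S : List (P.FSt × ℤ × ℤ)} {a b a' c c' : ℤ}
    (h : Gr0 R J N H lin lout ((zw (bw w 0 K) m, a, b) :: S)) (hm : 1 ≤ m)
    (B : BlockW N w L (K + 1) n) (A : AddsF N N' (BwG w L (K + 1)))
    (nke : ∀ k, 1 ≤ k → k ≤ m → ¬ N.ke (zw (bw w 0 K) k))
    (hJ : ∀ i < L, ∀ k < K + 1, J (bw w i k).facet)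
    (hJn : ∀ i < L, ∀ k < K + 1, ∀ s, SC (bw w i k).r2 s → J s.facet)
    (hJz : ∀ k < m, J (zw (bw w 0 K) k).stE.facet)
    (hW : ∀ i < L, bw w (i + 1) 0 ∉ S.map Prod.fst)
    (hb : ∀ k < K, (bw w 0 k).rR ∉ S.map Prod.fst)
    (hz : ∀ k < m, zw (bw w 0 K) k ∉ S.map Prod.fst)
    (hzG : ∀ k ≤ m, ¬ BwG w L (K + 1) (zw (bw w 0 K) k).stE.facet)
    (ec : c = a - m + 2) (ec' : c' = c + (n - 4))
    (ea : a' = a + (n - 4)) (b1 : -1 ≤ a') (b2 : a' ≤ 1) (b3 : c' ≤ 1) :
    ∃ H' : P.FSt → ℤ, (∀ s, N.Dt s → ¬ BwG w L (K + 1) (N.nx s).facet →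
      (∀ k ≤ m, s ≠ zw (bw w 0 K) k) → H' s = H s ∧ (N'.ke s ↔ N.ke s)) ∧
      Gr0 R J N' H' lin lout ((zw (bw w 0 K) m, a', b) :: S) := by
  let M := Pool.Agent.MP42K.mir P
  have h1 := h.mir hJc M
  have A1 := A.mir M
  rw [mir_BwG] at A1
  have ez : ∀ k, zp (bk (M.s w.r2) 0 K) k = M.s (zw (bw w 0 K) k).stE.r2 := by
    intro k
    rw [mir_bk, mir_zp]
  have eL : ∀ a : ℤ, ((zw (bw w 0 K) m, a, b) :: S).map (mP M) =
      (zp (bk (M.s w.r2) 0 K) m, -b, -a) :: S.map (mP M) := by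
    intro a
    rw [ez]; rfl
  rw [eL a] at h1
  obtain ⟨H', e1, h2⟩ := h1.fatP (c := -c) (c' := -c') (b' := -a') (hJc.mir M) hm (B.mir M) A1
    (by
      intro k h2 h3
      rw [ez, mir_ke, N.ke_rev]; exact nke k h2 h3) (by
      intro i hi k hk
      rw [mir_bk, M.facet, mJ_f]; exact hJ i hi k hk) (by
      intro i hi k hk s hs
      obtain ⟨x, rfl⟩ := M.s.surjective s
      rw [mir_bk, ← M.rL, FSt.r2_rL, mir_SC', FSt.rR_rR] at hs
      rw [M.facet, mJ_f]
      exact hJn i hi k hk x.rR hs) (by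
      intro k hk
      rw [ez, M.facet, mJ_f]; exact hJz k hk) (by
      intro i hi hc
      rw [mir_bk, mP_mem, rR_bw_E] at hc
      exact hW i hi hc) (by
      intro k hk hc
      rw [mir_bk, mir_bS, mP_mem] at hc
      unfold bS at hc
      rw [rev_rev] at hc
      exact hb k hk hc) (by
      intro k hk hc
      rw [ez, mP_mem, rev_rev] at hc
      exact hz k hk hc) (by
      intro k hk hc
      rw [← mir_BwG, ez, M.facet, mJ_f] at hc
      exact hzG k hk hc) (by rw [ec]; ring) (by rw [ec']; ring) (by rw [ea]; ring) (by omega)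
      (by omega) (by omega)
  rw [← eL a'] at h2
  refine ⟨_, ?_, Gr0.unmir M hJc h2⟩
  intro s hs hG hz'
  refine mir_same M (B := fun t => BlG (M.s w.r2) L (K + 1) t.facet ∨
    ∃ k, k ≤ m ∧ t = zp (bk (M.s w.r2) 0 K) k) (fun t ht hB => ?_) hs ?_ ?_
  · push Not at hB
    exact e1 t ht hB.1 hB.2
  · intro hk
    rw [Nb.nx_ke hk] at hG
    rintro (h3 | ⟨k, h3, h4⟩)
    · rw [← mir_BwG, M.facet, mJ_f] at h3
      exact hG h3
    · rw [ez] at h4
      have h5 := M.s.injective h4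
      rw [h5, N.ke_rev] at hk
      rcases Nat.eq_zero_or_pos k with h6 | h6
      · subst h6
        have h7 : N.ke (bw w 0 K).rR := hk
        exact B.new 0 B.posL K (by omega) (by
          have h8 := Nb.kv_rR h7
          rwa [FSt.rR_rR] at h8)
      · exact nke k h6 h3 hk
  · intro hk
    rw [Nb.nx_nke hk] at hG
    rintro (h3 | ⟨k, h3, h4⟩)
    · rw [← mir_BwG, M.facet, mJ_f] at h3
      exact hG h3
    · rw [ez] at h4
      have h5 := M.s.injective h4
      have h6 := congrArg (fun z : P.FSt => z.stE.r2) h5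
      simp only [rev_rev] at h6
      exact hz' k h3 h6

end

end Pool.Agent.MP42K
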