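import Pool.Agent.MP42.K.Surg
import Pool.Agent.MP42.K.Port6

/-!
# The mirror image (owner helper18)

`Mir P Q`: `Q` is the mirror image of `P` (states: `stE` to `stE`, `rL` to `rR`).
`mirP P`: the axes `0` and `1` are exchanged; `mir P : Mir P (mirP P)`.

The curve is reversed, the headings are negated.
-/

set_option autoImplicit false
set_option linter.unusedSectionVars false

namespace Pool.Agent.MP42K

open Pool.Agent.Helper55.UNF Pool.Agent.Helper55.UNF.GridSolid Pool.Agent.MP42G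
open Pool.Agent.MP42H Pool.Agent.MP42X Pool.Agent.MP42R
open Core1 (jf)
open Nb (SC SC_rot_right SC_rot_left SC_rev rev_rot rot)

/-- `Q` is the mirror image of `P` -/
structure Mir (P Q : GridSolid) where
  s : P.FSt ≃ Q.FSt
  f : P.Facet ≃ Q.Facet
  facet : ∀ x, (s x).facet = f x.facet
  stE : ∀ x, s x.stE = (s x).stE
  rL : ∀ x, s x.rL = (s x).rR
  U : ∀ x, IsU (s x) ↔ IsU x.r2

/-! ## The mirror image of a solid -/

/-- exchange of the axes `0` and `1` -/
def sx (a : Fin 3) : Fin 3 := if a = 0 then 1 else if a = 1 then 0 else 2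

lemma sx_sx (a : Fin 3) : sx (sx a) = a := by revert a; decide
lemma sx_eq {a b : Fin 3} : sx a = b ↔ a = sx b := by revert a b; decide

def mC (c : Fin 3 → ℤ) : Fin 3 → ℤ := fun a => c (sx a)
def mD (d : Dir) : Dir := (sx d.1, d.2)
def mS (s : Pool.Agent.Helper55.UNF.St) : Pool.Agent.Helper55.UNF.St := ⟨mC s.c, mD s.d, mD s.e⟩

lemma mC_mC (c : Fin 3 → ℤ) : mC (mC c) = c := by
  funext a; show c (sx (sx a)) = c a; rw [sx_sx]

lemma mD_mD (d : Dir) : mD (mD d) = d := by
  show (sx (sx d.1), d.2) = d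
  rw [sx_sx]

lemma mS_mS (s : Pool.Agent.Helper55.UNF.St) : mS (mS s) = s := by
  unfold mS; rw [mC_mC, mD_mD, mD_mD]

lemma mD_axis {d e : Dir} : (mD d).1 ≠ (mD e).1 ↔ d.1 ≠ e.1 := by
  show sx d.1 ≠ sx e.1 ↔ _
  rw [Ne, sx_eq, sx_sx]

lemma mD_opp (d : Dir) : mD (opp d) = opp (mD d) := rfl

lemma mD_cross {d e : Dir} (h : d.1 ≠ e.1) : mD (cross d e) = opp (cross (mD d) (mD e)) := by
  revert d e; decide

lemma mC_shift (c : Fin 3 → ℤ) (d : Dir) : mC (shift c d) = shift (mC c) (mD d) := by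
  funext a
  show shift c d (sx a) = shift (mC c) (mD d) a
  unfold shift
  by_cases h : sx a = d.1
  · have h2 : a = (mD d).1 := sx_eq.1 h
    rw [h, Function.update_self, h2, Function.update_self]
    show _ = c (sx (sx d.1)) + _
    rw [sx_sx]; rfl
  · have h2 : a ≠ (mD d).1 := fun hc => h (sx_eq.2 hc)
    rw [Function.update_of_ne h, Function.update_of_ne h2]
    rfl

/-- the mirror image of `P` -/
def mirP (P : GridSolid) : GridSolid where
  crd a := P.crd (sx a)
  mono a := P.mono (sx a)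
  cells := P.cells.image mC

variable {P : GridSolid}

lemma mem_mirP (c : Fin 3 → ℤ) : c ∈ (mirP P).cells ↔ mC c ∈ P.cells := by
  show c ∈ P.cells.image mC ↔ _
  rw [Finset.mem_image]
  constructor
  · rintro ⟨x, hx, rfl⟩; rw [mC_mC]; exact hx
  · intro h; exact ⟨mC c, h, mC_mC c⟩

lemma mem_mirP' (c : Fin 3 → ℤ) : mC c ∈ (mirP P).cells ↔ c ∈ P.cells := by
  rw [mem_mirP, mC_mC]

lemma mirP_facet {c : Fin 3 → ℤ} {d : Dir} :
    (mirP P).IsFacet (mC c, mD d) ↔ P.IsFacet (c, d) := by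
  unfold GridSolid.IsFacet
  simp only
  rw [mem_mirP', ← mC_shift, mem_mirP']

lemma mS_stepE (s : Pool.Agent.Helper55.UNF.St) : (mS s).stepE (mirP P) = mS (s.stepE P) := by
  unfold St.stepE
  have e1 : shift (shift (mS s).c (mS s).e) (mS s).d = mC (shift (shift s.c s.e) s.d) := by
    show shift (shift (mC s.c) (mD s.e)) (mD s.d) = _
    rw [← mC_shift, ← mC_shift]
  have e2 : shift (mS s).c (mS s).e = mC (shift s.c s.e) := by
    show shift (mC s.c) (mD s.e) = _
    rw [← mC_shift]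
  by_cases h1 : shift (shift s.c s.e) s.d ∈ P.cells
  · have h1' : shift (shift (mS s).c (mS s).e) (mS s).d ∈ (mirP P).cells := by
      rw [e1, mem_mirP']; exact h1
    rw [if_pos h1, if_pos h1', e1]; rfl
  · have h1' : shift (shift (mS s).c (mS s).e) (mS s).d ∉ (mirP P).cells := by
      rw [e1, mem_mirP']; exact h1
    rw [if_neg h1, if_neg h1']
    by_cases h2 : shift s.c s.e ∈ P.cells
    · have h2' : shift (mS s).c (mS s).e ∈ (mirP P).cells := by
        rw [e2, mem_mirP']; exact h2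
      rw [if_pos h2, if_pos h2', e2]; rfl
    · have h2' : shift (mS s).c (mS s).e ∉ (mirP P).cells := by
        rw [e2, mem_mirP']; exact h2
      rw [if_neg h2, if_neg h2']; rfl

/-- the mirror image of a state -/
def mF (s : P.FSt) : (mirP P).FSt := ⟨mS s.1, mirP_facet.2 s.2.1, mD_axis.2 s.2.2⟩

/-- back -/
def mB (s : (mirP P).FSt) : P.FSt := ⟨mS s.1, by
  constructor
  · rw [← mirP_facet (P := P)]
    show (mirP P).IsFacet (mC (mC s.1.c), mD (mD s.1.d))
    rw [mC_mC, mD_mD]; exact s.2.1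
  · exact mD_axis.2 s.2.2⟩

/-- **The mirror image.** -/
def mir (P : GridSolid) : Mir P (mirP P) where
  s :=
    { toFun := mF
      invFun := mB
      left_inv := fun s => FSt.ext' (mS_mS s.1)
      right_inv := fun s => FSt.ext' (mS_mS s.1) }
  f :=
    { toFun := fun f => ⟨(mC f.1.1, mD f.1.2), mirP_facet.2 f.2⟩
      invFun := fun f => ⟨(mC f.1.1, mD f.1.2), by
        rw [← mirP_facet (P := P), mC_mC, mD_mD]; exact f.2⟩
      left_inv := fun f => Subtype.ext (by
        show (mC (mC f.1.1), mD (mD f.1.2)) = f.1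
        rw [mC_mC, mD_mD])
      right_inv := fun f => Subtype.ext (by
        show (mC (mC f.1.1), mD (mD f.1.2)) = f.1
        rw [mC_mC, mD_mD]) }
  facet _ := rfl
  stE s := FSt.ext' (mS_stepE s.1).symm
  rL s := FSt.ext' (by
    show (⟨mC s.1.c, mD s.1.d, mD (cross s.1.d s.1.e)⟩ : Pool.Agent.Helper55.UNF.St) =
      ⟨mC s.1.c, mD s.1.d, opp (cross (mD s.1.d) (mD s.1.e))⟩
    rw [mD_cross s.2.2])
  U s := by
    show cross (mD s.1.d) (mD s.1.e) = (2, true) ↔ cross s.1.d (opp s.1.e) = (2, true)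
    have h := s.2.2
    generalize s.1.d = d at *
    generalize s.1.e = e at *
    revert d e
    decide

namespace Mir

variable {Q : GridSolid} (M : Mir P Q)

lemma r2 (x : P.FSt) : M.s x.r2 = (M.s x).r2 := by
  rw [← FSt.rL_rL, M.rL, M.rL, FSt.rR_rR]

lemma rR (x : P.FSt) : M.s x.rR = (M.s x).rL := by
  rw [← FSt.rL_r2, M.r2, M.rL, FSt.rR_r2]

/-- the way back -/
def symm : Mir Q P where
  s := M.s.symm
  f := M.f.symm
  facet x := by
    apply M.f.injective
    rw [← M.facet, Equiv.apply_symm_apply, Equiv.apply_symm_apply]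
  stE x := by
    apply M.s.injective
    rw [M.stE, Equiv.apply_symm_apply, Equiv.apply_symm_apply]
  rL x := by
    apply M.s.injective
    rw [M.rR, Equiv.apply_symm_apply, Equiv.apply_symm_apply]
  U x := by
    have h := M.U (M.s.symm x).r2
    rw [M.r2, Equiv.apply_symm_apply, FSt.r2_r2] at h
    exact h.symm

@[simp] lemma ss (x : P.FSt) : M.symm.s (M.s x) = x := M.s.symm_apply_apply x
@[simp] lemma ss' (x : Q.FSt) : M.s (M.symm.s x) = x := M.s.apply_symm_apply x
@[simp] lemma ff (x : P.Facet) : M.symm.f (M.f x) = x := M.f.symm_apply_apply x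
@[simp] lemma ff' (x : Q.Facet) : M.f (M.symm.f x) = x := M.f.apply_symm_apply x

/-- steps to the north and to the south -/
lemma stN (x : P.FSt) : M.s x.stN = pN.symm (M.s x) := by
  show M.s x.rL.stE.rR = _
  rw [M.rR, M.stE, M.rL, pN_symm_apply]
  show _ = (M.s x).r2.rL.stE.rR.r2
  rw [FSt.r2_rL, FSt.rR_r2]

lemma stS (x : P.FSt) : M.s (pN.symm x) = (M.s x).stN := by
  have h := M.stN (pN.symm x)
  have e : (pN.symm x).stN = x := pN.apply_symm_apply x
  rw [e] at h
  rw [h]
  exact (pN.apply_symm_apply _).symm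

lemma symmE (x : P.FSt) : M.s (pE.symm x) = pE.symm (M.s x) := by
  apply pE.injective
  rw [Equiv.apply_symm_apply, pE_apply, ← M.stE, pE_symm_stE]

lemma Ur (x : P.FSt) : IsU (M.s x).r2 ↔ IsU x := by
  rw [← M.r2, M.U, FSt.r2_r2]

lemma V (x : P.FSt) : IsV (M.s x) ↔ IsV x := by
  constructor
  · intro h
    rcases U_or h with h | h
    · exact IsV_of_Ur ((M.U x).1 h)
    · exact IsV_of_U ((M.Ur x).1 h)
  · intro h
    rcases U_or h with h | h
    · exact IsV_of_Ur ((M.Ur x).2 h)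
    · exact IsV_of_U ((M.U x).2 h)

lemma powE (x : P.FSt) (n : ℕ) : M.s ((pE ^ n) x) = (pE ^ n) (M.s x) := by
  induction n with
  | zero => rfl
  | succ n ih => rw [pow_succ', Equiv.Perm.mul_apply, pE_apply, M.stE, ih, pow_succ',
      Equiv.Perm.mul_apply, pE_apply]

lemma same {x y : P.FSt} (h : pE.SameCycle x y) : pE.SameCycle (M.s x) (M.s y) := by
  obtain ⟨n, rfl⟩ := h.exists_nat_pow_eq
  rw [M.powE]
  exact Equiv.Perm.sameCycle_pow_right.2 (Equiv.Perm.SameCycle.refl _ _)

lemma same_iff {x y : P.FSt} : pE.SameCycle (M.s x) (M.s y) ↔ pE.SameCycle x y := by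
  refine ⟨fun h => ?_, M.same⟩
  have := M.symm.same h
  rwa [M.ss, M.ss] at this

/-- around the north-east corner, and around the south-east corner of the image -/
lemma rot (x : P.FSt) : M.s (Nb.rot x).rL = (Nb.rot.symm (M.s x.rL)) := by
  apply Nb.rot.injective
  rw [Equiv.apply_symm_apply]
  show (M.s x.stE.rL.rL).stE.rL = M.s x.rL
  rw [FSt.rL_rL, ← M.stE, ← M.rR, FSt.stE_inv, FSt.r2_rR]

end Mir

end Pool.Agent.MP42K
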