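import Pool.Agent.MP42.K.Mirror

/-!
# The mirror image of a growth state (owner helper18)

`Nb.mir`, `GS.mir`, `Nb.one_mir`, `Core1.mir`, `Gr.mir`, `Gr.unmir`.
-/

set_option autoImplicit false
set_option linter.unusedSectionVars false

namespace Pool.Agent.MP42K

open Pool.Agent.Helper55.UNF Pool.Agent.Helper55.UNF.GridSolid Pool.Agent.MP42G
open Pool.Agent.MP42H Pool.Agent.MP42X Pool.Agent.MP42R
open Core1 (jf)
open Nb (SC SC_rot_right SC_rot_left SC_rev rev_rot rot)

variable {P Q : GridSolid}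

/-- the image of a subcomplex -/
def Nb.mir (N : Nb P) (M : Mir P Q) : Nb Q where
  kv t := N.kv (M.symm.s t).rR
  ke t := N.ke (M.symm.s t)
  kf f := N.kf (M.symm.f f)
  kv_rot t := by
    have e : M.symm.s t.stE.rL = (M.symm.s t).stE.rR := by rw [M.symm.rL, M.symm.stE]
    rw [e, FSt.rR_rR]
    have h := N.kv_rot (M.symm.s t).stE.r2
    rw [rev_rot] at h
    exact h.symm
  ke_rev t := by
    have e : M.symm.s t.stE.r2 = (M.symm.s t).stE.r2 := by rw [M.symm.r2, M.symm.stE]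
    rw [e, N.ke_rev]
  ke_kv t h := Nb.kv_rR h
  kf_ke t h := by
    rw [← M.symm.facet] at h
    exact N.kf_ke _ h

section

variable (M : Mir P Q) (N : Nb P)

@[simp] lemma mir_kv (x : P.FSt) : (N.mir M).kv (M.s x) ↔ N.kv x.rR := by
  show N.kv (M.symm.s (M.s x)).rR ↔ _
  rw [M.ss]

@[simp] lemma mir_ke (x : P.FSt) : (N.mir M).ke (M.s x) ↔ N.ke x := by
  show N.ke (M.symm.s (M.s x)) ↔ _
  rw [M.ss]

@[simp] lemma mir_kf (f : P.Facet) : (N.mir M).kf (M.f f) ↔ N.kf f := by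
  show N.kf (M.symm.f (M.f f)) ↔ _
  rw [M.ff]

lemma mir_Dt (x : P.FSt) : (N.mir M).Dt (M.s x) ↔ N.Dt x.rR := by
  unfold Nb.Dt
  rw [mir_kv, M.facet, mir_kf]
  rfl

lemma ext_nb {N N' : Nb P} (h1 : ∀ s, N.kv s ↔ N'.kv s) (h2 : ∀ s, N.ke s ↔ N'.ke s)
    (h3 : ∀ f, N.kf f ↔ N'.kf f) : N = N' := by
  cases N; cases N'
  congr 1
  · funext s; exact propext (h1 s)
  · funext s; exact propext (h2 s)
  · funext s; exact propext (h3 s)

lemma mir_mir : (N.mir M).mir M.symm = N := by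
  apply ext_nb
  · intro s
    show N.kv (M.symm.s (M.s s).rR).rR ↔ _
    rw [M.symm.rR, M.ss, FSt.rL_rR]
  · intro s
    show N.ke (M.symm.s (M.s s)) ↔ _
    rw [M.ss]
  · intro f
    show N.kf (M.symm.f (M.f f)) ↔ _
    rw [M.ff]

/-- the next dart: the image of the dart before -/
lemma mir_nx {x : P.FSt} (h : N.Dt x.rR) : ∃ y, N.Dt y ∧ N.nx y = x.rR ∧
    (N.mir M).nx (M.s x) = M.s y.rL ∧ (N.ke y ↔ N.ke x) ∧
    ((N.ke x ∧ y = x) ∨ (¬ N.ke x ∧ y = x.stE.r2)) := by
  by_cases hk : N.ke x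
  · refine ⟨x, ⟨N.ke_kv x hk, h.2⟩, Nb.nx_ke hk, ?_, Iff.rfl, Or.inl ⟨hk, rfl⟩⟩
    rw [Nb.nx_ke ((mir_ke M N x).2 hk), M.rL]
  · have hk' : ¬ N.ke x.stE.r2 := fun hc => hk ((N.ke_rev x).1 hc)
    have hv : N.kv x.stE.r2 := by
      have h1 := N.kv_rot x.stE.r2
      rw [rev_rot] at h1
      exact h1.1 h.1
    refine ⟨x.stE.r2, ⟨hv, Nb.nkf_of_nke hk'⟩, ?_, ?_, iff_of_false hk' hk, Or.inr ⟨hk, rfl⟩⟩
    · rw [Nb.nx_nke hk', rev_rot]
    · rw [Nb.nx_nke (fun hc => hk ((mir_ke M N x).1 hc)), ← M.stE, ← M.rR, FSt.r2_rL]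

end

/-! ## The rules -/

section

variable {J : P.Facet → Prop} {N : Nb P} {V : P.FSt → Prop} {Hi Ho : P.FSt → ℤ}
  {Op : P.FSt → Prop}

open Classical in
/-- the piece of the curve at the east side of `x` -/
noncomputable def pc (N : Nb P) (x : P.FSt) : P.FSt := if N.ke x then x else x.stE.r2

lemma pc_ke {x : P.FSt} (h : N.ke x) : pc N x = x := by unfold pc; rw [if_pos h]
lemma pc_nke {x : P.FSt} (h : ¬ N.ke x) : pc N x = x.stE.r2 := by unfold pc; rw [if_neg h]

/-- headings of the image -/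
noncomputable def mHi (M : Mir P Q) (N : Nb P) (Ho : P.FSt → ℤ) (t : Q.FSt) : ℤ :=
  - Ho (pc N (M.symm.s t))

open Classical in
/-- headings of the image -/
noncomputable def mHo (M : Mir P Q) (N : Nb P) (Hi Ho : P.FSt → ℤ) (Op : P.FSt → Prop)
    (t : Q.FSt) : ℤ :=
  if Op (pc N (M.symm.s t)) then - Hi (pc N (M.symm.s t)) else - Ho (pc N (M.symm.s t))

lemma rev_rev (x : P.FSt) : x.stE.r2.stE.r2 = x := by rw [FSt.stE_inv, FSt.r2_r2]

/-- **The mirror image of the rules.** -/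
theorem GS.mir (h : GS J N V Hi Ho Op) (M : Mir P Q) :
    GS (fun f => J (M.symm.f f)) (N.mir M) (fun t => V (M.symm.s t)) (mHi M N Ho)
      (mHo M N Hi Ho Op) (fun t => Op (M.symm.s t).stE.r2) := by
  classical
  have nop : ∀ s, N.ke s → ¬ Op s := fun s hs ho => (h.op s ho).ke hs
  -- all states of `Q` are images
  have hOp : ∀ x : P.FSt, (Op x.stE.r2) → ¬ N.ke x := fun x ho hc =>
    (h.op _ ho).ke ((N.ke_rev x).2 hc)
  have facet : ∀ x : P.FSt, M.symm.f (M.s x).facet = x.facet := by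
    intro x; rw [M.facet, M.ff]
  refine GS.of_loc ?_ ?_ ?_
  · intro s hs
    obtain ⟨x, rfl⟩ := M.s.surjective s
    show V (M.symm.s (M.s x).rR) ↔ ¬ V (M.symm.s (M.s x))
    rw [M.symm.rR, M.ss]
    rw [facet] at hs
    exact V_rL h.V_rR hs
  · intro t ht
    obtain ⟨x, rfl⟩ := M.s.surjective t
    simp only [M.ss] at ht
    rw [mir_Dt]
    have h1 := h.op _ ht
    have h2 : N.kv x.rR := by
      have h3 := (N.kv_rot x.stE.r2).2 h1.kv
      rwa [rev_rot] at h3
    exact ⟨h2, fun hc => hOp x ht (N.kf_ke x hc)⟩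
  · intro t ht
    obtain ⟨x, rfl⟩ := M.s.surjective t
    rw [mir_Dt] at ht
    obtain ⟨y, hy1, hy2, hy3, hy4, hy5⟩ := mir_nx M N ht
    have ep : pc N x = y := by
      rcases hy5 with ⟨h1, h2⟩ | ⟨h1, h2⟩
      · rw [pc_ke h1, h2]
      · rw [pc_nke h1, h2]
    have eo : Op x.stE.r2 ↔ Op y := by
      rcases hy5 with ⟨h1, h2⟩ | ⟨h1, h2⟩
      · rw [h2]
        exact iff_of_false (fun ho => hOp x ho h1) (nop x h1)
      · rw [h2]
    have vi : mHi M N Ho (M.s x) = - Ho y := by unfold mHi; rw [M.ss, ep]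
    have vo1 : Op y → mHo M N Hi Ho Op (M.s x) = - Hi y := by
      intro ho; unfold mHo; rw [M.ss, ep, if_pos ho]
    have vo2 : ¬ Op y → mHo M N Hi Ho Op (M.s x) = - Ho y := by
      intro ho; unfold mHo; rw [M.ss, ep, if_neg ho]
    have hLy := h.loc hy1
    constructor
    · -- the next dart
      intro hJ
      rw [hy3, facet, FSt.facet_rL] at hJ
      have hy1' : N.Dt y.rL.rR := by rw [FSt.rL_rR]; exact hy1
      obtain ⟨z, hz1, hz2, hz3, hz4, hz5⟩ := mir_nx M N hy1'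
      rw [FSt.rL_rR] at hz2
      have ez : pc N y.rL = z := by
        rcases hz5 with ⟨h1, h2⟩ | ⟨h1, h2⟩
        · rw [pc_ke h1, h2]
        · rw [pc_nke h1, h2]
      have v2 : mHi M N Ho (M.s y.rL) = - Ho z := by unfold mHi; rw [M.ss, ez]
      have hLz := (h.loc hz1).nxt (by rw [hz2]; exact hJ)
      rw [hz2] at hLz
      have hdl : (N.mir M).dl (M.s x) = N.dl z := by
        unfold Nb.dl
        rw [hy3, hz2]
        simp only [mir_ke, ← hy4, ← hz4]
        by_cases c1 : N.ke y <;> by_cases c2 : N.ke z <;> simp [c1, c2]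
      rw [hy3, v2, hdl]
      by_cases ho : Op y
      · rw [vo1 ho]; omega
      · rw [vo2 ho]
        have h1 := (hLy.io hJ ho).1
        omega
    · intro hJ ho
      rw [facet] at hJ
      simp only [M.ss] at ho
      rw [eo] at ho
      rw [vi, vo2 ho]
      refine ⟨rfl, ?_⟩
      rcases hy5 with ⟨h1, h2⟩ | ⟨h1, h2⟩
      · have h3 := (hLy.io (by rw [h2]; exact hJ) ho).2
        omega
      · have h3 := hLy.x' (fun hc => h1 (hy4.1 hc)) (by
          rw [h2, FSt.stE_inv]; exact hJ) ho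
        omega
    · intro hJ hk
      rw [facet] at hJ
      rw [mir_ke] at hk
      rcases hy5 with ⟨h1, h2⟩ | ⟨h1, h2⟩
      · show V (M.symm.s (M.s x)) ↔ _
        rw [M.ss, vo2 (h2 ▸ nop x h1), h2]
        have h3 := (h.loc (h2 ▸ hy1)).ke hJ hk
        rw [h3]
        omega
      · exact absurd hk h1
    · intro hJ hk ho
      rw [facet] at hJ
      rw [mir_ke] at hk
      simp only [M.ss] at ho
      rw [eo] at ho
      rcases hy5 with ⟨h1, h2⟩ | ⟨h1, h2⟩
      · exact absurd h1 hk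
      · show V (M.symm.s (M.s x)) ↔ _
        rw [M.ss, vo2 ho]
        have h3 := (hLy.x' (fun hc => h1 (hy4.1 hc)) (by
          rw [h2, FSt.stE_inv]; exact hJ) ho).2.2
        rw [h2, rev_rot, h.V_rR x hJ, ← h2] at h3
        by_cases hc : V x
        · refine iff_of_true hc ?_
          have h4 : ¬ ¬ V x := fun h5 => h5 hc
          rw [h3] at h4
          omega
        · refine iff_of_false hc ?_
          have h4 := h3.1 hc
          omega
    · intro hk hJ ho
      rw [mir_ke] at hk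
      simp only [M.ss] at ho
      rw [eo] at ho
      have hJ' : J x.stE.facet := by
        rw [← M.stE, facet] at hJ; exact hJ
      rcases hy5 with ⟨h1, h2⟩ | ⟨h1, h2⟩
      · exact absurd h1 hk
      · rw [vo2 ho]
        have hJy : J y.facet := by rw [h2]; exact hJ'
        have h3 := hLy.io hJy ho
        have h4 := hLy.x hJy (fun hc => h1 (hy4.1 hc)) ho
        refine ⟨by omega, by omega, ?_⟩
        show V (M.symm.s (M.s x).stE.rL) ↔ _
        have e : M.symm.s (M.s x).stE.rL = x.stE.rR := by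
          rw [M.symm.rL, M.symm.stE, M.ss]
        rw [e, h.V_rR _ hJ']
        rw [h2, V_r2 h.V_rR hJ', ← h2] at h4
        rw [h4]
        omega
    · intro ho
      simp only [M.ss] at ho
      have hkx := hOp x ho
      have hy : y = x.stE.r2 := by
        rcases hy5 with ⟨h1, h2⟩ | ⟨h1, h2⟩
        · exact absurd h1 hkx
        · exact h2
      obtain ⟨p1, p2, p3, p4, p5, p6, p7, p8, p9, p10⟩ := h.op _ ho
      rw [vi, vo1 (eo.1 ho), hy]
      have e1 : x.stE.r2.stE.facet = x.facet := by rw [FSt.stE_inv]; rfl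
      refine ⟨(mir_kv M N x).2 ht.1, fun hc => hkx ((mir_ke M N x).1 hc), ?_, ?_, by omega,
        by omega, by omega, by omega, ?_, ?_⟩
      · rw [facet, ← e1]; exact p4
      · rw [← M.stE, facet]; exact p3
      · show V (M.symm.s (M.s x)) ↔ _
        rw [M.ss]
        have h3 : V x.stE.r2.stE ↔ V x := by
          rw [FSt.stE_inv]; exact V_r2 h.V_rR (by rw [← e1]; exact p4)
        rw [← h3, p10]; omega
      · show V (M.symm.s (M.s x).stE) ↔ _
        rw [← M.stE, M.ss]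
        have h3 : V x.stE.r2 ↔ V x.stE := V_r2 h.V_rR p3
        rw [← h3, p9]; omega

end

end Pool.Agent.MP42K
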