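import Pool.Agent.MP42.K.Defs

/-!
# The boundary of a neighbourhood of a subcomplex: connectivity

`Nb P`: a subcomplex `D` of the surface (no core).  The curve `M` is the boundary of a small
neighbourhood of `D`; its darts are the states `s` with `kv s` outside the facets of `D`: `M` runs
around the north-east corner of `s` (or turns there into the lane along a side).  `nx s` is the
next dart (`D` is on the left side).

* `cut`: a set of darts which is left at `a` only and entered at `b` only;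
* `bridgeD`: the two sides of an edge of `D` that separates `D`;
* `bridgeW`: the two ends of an edge outside `D` that separates the complement;
* `allD`: stratified bridges.
-/

set_option autoImplicit false
set_option linter.unusedSectionVars false

namespace Pool.Agent.MP42K

open Pool.Agent.Helper55.UNF Pool.Agent.Helper55.UNF.GridSolid Pool.Agent.MP42G
open Pool.Agent.MP42H Pool.Agent.MP42X Pool.Agent.MP42R

variable {P : GridSolid}

/-- A subcomplex of the surface. -/
structure Nb (P : GridSolid) where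
  /-- the north-east corner of the state is in `D` -/
  kv : P.FSt → Prop
  /-- the east side of the state is in `D` -/
  ke : P.FSt → Prop
  /-- the facet is in `D` -/
  kf : P.Facet → Prop
  kv_rot : ∀ s : P.FSt, kv s.stE.rL ↔ kv s
  ke_rev : ∀ s : P.FSt, ke s.stE.r2 ↔ ke s
  ke_kv : ∀ s : P.FSt, ke s → kv s
  kf_ke : ∀ s : P.FSt, kf s.facet → ke s

namespace Nb

variable (D : Nb P)

/-- `cv` is a value that is constant along the curve `M` -/
structure Inv (cv : P.FSt → Prop) : Prop where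
  /-- across an edge, around a vertex of `D` -/
  x : ∀ s : P.FSt, D.kv s → ¬ D.ke s → (cv s ↔ cv s.stE.rL)
  /-- along an edge of `D` -/
  e : ∀ s : P.FSt, ¬ D.kf s.facet → D.ke s → (cv s ↔ cv s.rR)

/-- the darts of `M` -/
def Dt (s : P.FSt) : Prop := D.kv s ∧ ¬ D.kf s.facet

/-- on the same curve -/
def E (s t : P.FSt) : Prop := ∀ cv, D.Inv cv → (cv s ↔ cv t)

lemma E_equiv : Equivalence D.E :=
  ⟨fun _ _ _ => Iff.rfl, fun h cv hc => (h cv hc).symm,
    fun h h' cv hc => (h cv hc).trans (h' cv hc)⟩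

open Classical in
/-- the next dart -/
noncomputable def nx (s : P.FSt) : P.FSt := if D.ke s then s.rR else s.stE.rL

variable {D}

lemma E.rfl' {s : P.FSt} : D.E s s := D.E_equiv.refl s
lemma E.symm {s t : P.FSt} (h : D.E s t) : D.E t s := D.E_equiv.symm h
lemma E.trans {s t u : P.FSt} (h : D.E s t) (h' : D.E t u) : D.E s u := D.E_equiv.trans h h'

lemma nx_ke {s : P.FSt} (h : D.ke s) : D.nx s = s.rR := by unfold nx; rw [if_pos h]
lemma nx_nke {s : P.FSt} (h : ¬ D.ke s) : D.nx s = s.stE.rL := by unfold nx; rw [if_neg h]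

/-- turning around the end of an edge -/
lemma rev_rot (s : P.FSt) : s.stE.r2.stE.rL = s.rR := by rw [FSt.stE_inv, FSt.r2_rL]

lemma kv_rR {s : P.FSt} (h : D.ke s) : D.kv s.rR := by
  have h1 : D.kv s.stE.r2 := D.ke_kv _ ((D.ke_rev s).2 h)
  have h2 := (D.kv_rot s.stE.r2).2 h1
  rwa [rev_rot] at h2

lemma nkf_stE {s : P.FSt} (h : ¬ D.ke s) : ¬ D.kf s.stE.facet := by
  intro h1
  exact h ((D.ke_rev s).1 (D.kf_ke s.stE.r2 h1))

lemma nkf_of_nke {s : P.FSt} (h : ¬ D.ke s) : ¬ D.kf s.facet := fun h1 => h (D.kf_ke s h1)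

lemma Dt.nx {s : P.FSt} (h : D.Dt s) : D.Dt (D.nx s) := by
  by_cases hk : D.ke s
  · rw [nx_ke hk]; exact ⟨kv_rR hk, h.2⟩
  · rw [nx_nke hk]; exact ⟨(D.kv_rot s).2 h.1, nkf_stE hk⟩

lemma nx_inj : Function.Injective D.nx := by
  intro s t h
  by_cases hs : D.ke s <;> by_cases ht : D.ke t
  · rw [nx_ke hs, nx_ke ht] at h
    have := congrArg FSt.rL h
    simpa using this
  · rw [nx_ke hs, nx_nke ht] at h
    have h1 := congrArg FSt.rL h
    rw [FSt.rR_rL, FSt.rL_rL] at h1
    rw [h1] at hs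
    exact absurd ((D.ke_rev t).1 hs) ht
  · rw [nx_nke hs, nx_ke ht] at h
    have h1 := congrArg FSt.rL h
    rw [FSt.rR_rL, FSt.rL_rL] at h1
    rw [← h1] at ht
    exact absurd ((D.ke_rev s).1 ht) hs
  · rw [nx_nke hs, nx_nke ht] at h
    have h1 := congrArg FSt.rR h
    rw [FSt.rL_rR, FSt.rL_rR] at h1
    exact pE.injective h1

variable (D) in
/-- the curve as a permutation -/
noncomputable def pM : Equiv.Perm P.FSt :=
  Equiv.ofBijective D.nx (Finite.injective_iff_bijective.1 nx_inj)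

@[simp] lemma pM_apply (s : P.FSt) : D.pM s = D.nx s := rfl

lemma Dt.pow {s : P.FSt} (h : D.Dt s) (n : ℕ) : D.Dt ((D.pM ^ n) s) := by
  induction n with
  | zero => exact h
  | succ n ih => rw [pow_succ', Equiv.Perm.mul_apply]; exact ih.nx

lemma Inv.nx {cv : P.FSt → Prop} (hc : D.Inv cv) {s : P.FSt} (h : D.Dt s) :
    cv s ↔ cv (D.nx s) := by
  by_cases hk : D.ke s
  · rw [nx_ke hk]; exact hc.e s h.2 hk
  · rw [nx_nke hk]; exact hc.x s h.1 hk

lemma Inv.pow {cv : P.FSt → Prop} (hc : D.Inv cv) {s : P.FSt} (h : D.Dt s) (n : ℕ) :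
    cv s ↔ cv ((D.pM ^ n) s) := by
  induction n with
  | zero => exact Iff.rfl
  | succ n ih => rw [pow_succ', Equiv.Perm.mul_apply]; exact ih.trans (hc.nx (h.pow n))

lemma E_nx {s : P.FSt} (h : D.Dt s) : D.E s (D.nx s) := fun _ hc => hc.nx h

lemma E_x {s : P.FSt} (h : D.kv s) (h' : ¬ D.ke s) : D.E s s.stE.rL := fun _ hc => hc.x s h h'

lemma E_e {s : P.FSt} (h : ¬ D.kf s.facet) (h' : D.ke s) : D.E s s.rR := fun _ hc => hc.e s h h'

/-- **Cut**: a set of darts that is left at `a` only and entered at `b` only. -/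
theorem cut_exit {cv : P.FSt → Prop} (hc : D.Inv cv) (S : P.FSt → Prop) {a b : P.FSt}
    (h : ∀ s, D.Dt s → S s → ¬ S (D.nx s) → s = a) (hb : D.Dt b) (hb1 : ¬ S b)
    (hb2 : S (D.nx b)) : cv (D.nx b) ↔ cv a := by
  classical
  -- the orbit of `nx b` comes back to `b`
  have hS : D.pM.SameCycle (D.nx b) b :=
    (Equiv.Perm.sameCycle_apply_left (f := D.pM) (x := b)).2 (Equiv.Perm.SameCycle.refl _ _)
  obtain ⟨m, hm⟩ := hS.exists_nat_pow_eq
  have hex : ∃ n, ¬ S ((D.pM ^ n) (D.nx b)) := ⟨m, by rw [hm]; exact hb1⟩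
  obtain ⟨n, hn, hmin⟩ : ∃ n, ¬ S ((D.pM ^ n) (D.nx b)) ∧ ∀ j < n, S ((D.pM ^ j) (D.nx b)) :=
    ⟨Nat.find hex, Nat.find_spec hex, fun j hj => not_not.1 (Nat.find_min hex hj)⟩
  rcases n with _ | n
  · exact absurd hb2 hn
  · have h1 := hmin n (Nat.lt_succ_self n)
    rw [pow_succ', Equiv.Perm.mul_apply, pM_apply] at hn
    have h2 := h _ (hb.nx.pow n) h1 hn
    have h3 := hc.pow hb.nx n
    rw [h2] at h3
    exact h3

theorem cut {cv : P.FSt → Prop} (hc : D.Inv cv) (S : P.FSt → Prop) {a b : P.FSt}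
    (h : ∀ s, D.Dt s → s ≠ a → s ≠ b → (S s ↔ S (D.nx s))) (ha : D.Dt a) (hb : D.Dt b)
    (ha1 : S a) (ha2 : ¬ S (D.nx a)) (hb1 : ¬ S b) (hb2 : S (D.nx b)) :
    (cv (D.nx b) ↔ cv a) ∧ (cv (D.nx a) ↔ cv b) := by
  constructor
  · refine cut_exit hc S ?_ hb hb1 hb2
    intro s hs h1 h2
    by_contra hne
    by_cases hsb : s = b
    · subst hsb; exact hb1 h1
    · exact h2 ((h s hs hne hsb).1 h1)
  · refine cut_exit hc (fun s => ¬ S s) ?_ ha (not_not.2 ha1) ha2
    intro s hs h1 h2
    by_contra hne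
    by_cases hsa : s = a
    · subst hsa; exact h1 ha1
    · exact h2 (fun h3 => h1 ((h s hs hsa hne).2 h3))

/-- **Bridge of `D`**: the two sides of an edge of `D` that separates `D`. -/
theorem bridgeD {cv : P.FSt → Prop} (hc : D.Inv cv) {s : P.FSt} (hs : D.ke s)
    (h1 : ¬ D.kf s.facet) (h2 : ¬ D.kf s.stE.facet) (A : P.FSt → Prop)
    (hA : ∀ t, D.kv t → (A t.stE.rL ↔ A t))
    (hE : ∀ t, D.ke t → ¬ D.kf t.facet → t ≠ s → t ≠ s.stE.r2 → (A t ↔ A t.rR))
    (hne : ¬ (A s ↔ A s.rR)) : cv s ↔ cv s.stE.r2 := by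
  have ht : D.ke s.stE.r2 := (D.ke_rev s).2 hs
  have hds : D.Dt s := ⟨D.ke_kv s hs, h1⟩
  have hdt : D.Dt s.stE.r2 := ⟨D.ke_kv _ ht, h2⟩
  have hnt : D.nx s.stE.r2 = s.stE.rL := by rw [nx_ke ht, FSt.r2_rR]
  have hns : D.nx s = s.rR := nx_ke hs
  -- values of `A` at the four darts
  have e1 : A s.stE.rL ↔ A s := hA s (D.ke_kv s hs)
  have e2 : A s.rR ↔ A s.stE.r2 := by
    have := hA s.stE.r2 (D.ke_kv _ ht)
    rwa [rev_rot] at this
  -- the step lemma
  have step : ∀ t, D.Dt t → t ≠ s → t ≠ s.stE.r2 → (A t ↔ A (D.nx t)) := by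
    intro t hdt ht1 ht2
    by_cases hk : D.ke t
    · rw [nx_ke hk]; exact hE t hk hdt.2 ht1 ht2
    · rw [nx_nke hk]; exact (hA t hdt.1).symm
  have hx := hc.nx hdt
  by_cases hAs : A s
  · have hAs' : ¬ A s.rR := fun h => hne ⟨fun _ => h, fun _ => hAs⟩
    have h5 := (cut hc A step hds hdt hAs (by rw [hns]; exact hAs')
      (fun h => hAs' (e2.2 h)) (by rw [hnt]; exact e1.2 hAs)).1
    exact h5.symm.trans hx.symm
  · have hAs' : A s.rR := by
      by_contra h
      exact hne ⟨fun h' => absurd h' hAs, fun h' => absurd h' h⟩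
    have h5 := (cut hc (fun u => ¬ A u) (fun t a b c => not_congr (step t a b c)) hds hdt hAs
      (by rw [hns]; exact not_not.2 hAs') (not_not.2 (e2.1 hAs'))
      (by rw [hnt]; exact fun h => hAs (e1.1 h))).1
    exact h5.symm.trans hx.symm

/-- **Bridge of the complement**: the two ends of an edge outside `D` (both ends in `D`) that
separates the complement of `D`; on both sides of the edge. -/
theorem bridgeW {cv : P.FSt → Prop} (hc : D.Inv cv) {s : P.FSt} (hs : ¬ D.ke s)
    (h1 : D.kv s) (h2 : D.kv s.rR) (A : P.Facet → Prop)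
    (hA : ∀ t, D.kv t → ¬ D.ke t → t ≠ s → t ≠ s.stE.r2 → (A t.facet ↔ A t.stE.facet))
    (hne : ¬ (A s.facet ↔ A s.stE.facet)) : (cv s ↔ cv s.rR) ∧ (cv s.stE.r2 ↔ cv s.stE.rL) := by
  have ht : ¬ D.ke s.stE.r2 := fun h => hs ((D.ke_rev s).1 h)
  have hk2 : D.kv s.stE.r2 := by
    have := D.kv_rot s.stE.r2
    rw [rev_rot] at this
    exact this.1 h2
  have hds : D.Dt s := ⟨h1, nkf_of_nke hs⟩
  have hdt : D.Dt s.stE.r2 := ⟨hk2, nkf_of_nke ht⟩
  have hnt : D.nx s.stE.r2 = s.rR := by rw [nx_nke ht, rev_rot]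
  have hns : D.nx s = s.stE.rL := nx_nke hs
  have step : ∀ t, D.Dt t → t ≠ s → t ≠ s.stE.r2 → (A t.facet ↔ A (D.nx t).facet) := by
    intro t hdt ht1 ht2
    by_cases hk : D.ke t
    · rw [nx_ke hk]; exact Iff.rfl
    · rw [nx_nke hk]; exact hA t hdt.1 hk ht1 ht2
  by_cases hAs : A s.facet
  · have hAs' : ¬ A s.stE.facet := fun h => hne ⟨fun _ => h, fun _ => hAs⟩
    have h5 := cut hc (fun u => A u.facet) step hds hdt hAs (by rw [hns]; exact hAs')
      hAs' (by rw [hnt]; exact hAs)
    rw [hnt, hns] at h5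
    exact ⟨h5.1.symm, h5.2.symm⟩
  · have hAs' : A s.stE.facet := by
      by_contra h
      exact hne ⟨fun h' => absurd h' hAs, fun h' => absurd h' h⟩
    have h5 := cut hc (fun u => ¬ A u.facet) (fun t a b c => not_congr (step t a b c)) hds hdt hAs
      (by rw [hns]; exact not_not.2 hAs') (not_not.2 hAs')
      (by rw [hnt]; exact hAs)
    rw [hnt, hns] at h5
    exact ⟨h5.1.symm, h5.2.symm⟩

/-! ## Changing the edges of `D` -/

/-- other edges, the same vertices and facets -/
def withE (D : Nb P) (ke' : P.FSt → Prop) (h1 : ∀ s, ke' s.stE.r2 ↔ ke' s)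
    (h2 : ∀ s, ke' s → D.kv s) (h3 : ∀ s, D.kf s.facet → ke' s) : Nb P where
  kv := D.kv
  ke := ke'
  kf := D.kf
  kv_rot := D.kv_rot
  ke_rev := h1
  ke_kv := h2
  kf_ke := h3

/-- Edges can be removed from `D` and added to `D` if the four darts at the edge have the same
value. -/
theorem Inv.withE {cv : P.FSt → Prop} (hc : D.Inv cv) (ke' : P.FSt → Prop)
    (h1 : ∀ s, ke' s.stE.r2 ↔ ke' s) (h2 : ∀ s, ke' s → D.kv s) (h3 : ∀ s, D.kf s.facet → ke' s)
    (hd : ∀ s, D.ke s → ¬ ke' s → (cv s ↔ cv s.stE.r2))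
    (ha : ∀ s, ke' s → ¬ D.ke s → (cv s ↔ cv s.rR)) :
    (D.withE ke' h1 h2 h3).Inv cv := by
  constructor
  · intro s hv he
    change ¬ ke' s at he
    by_cases hk : D.ke s
    · have h4 := hd s hk he
      have h5 : ¬ D.kf s.stE.r2.facet := fun h => he ((h1 s).1 (h3 _ h))
      have h6 := hc.e s.stE.r2 h5 ((D.ke_rev s).2 hk)
      rw [FSt.r2_rR] at h6
      exact h4.trans h6
    · exact hc.x s hv hk
  · intro s hf he
    change ke' s at he
    by_cases hk : D.ke s
    · exact hc.e s hf hk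
    · exact ha s he hk

/-! ## Stratified bridges -/

/-- **Bridges of `D`**, one level after the other: the edges `s` with `T s`; the edge `s` separates
`D` without the `T`-edges of smaller level. -/
theorem allD {cv : P.FSt → Prop} (hc : D.Inv cv) {α : Type*} [LinearOrder α] (lev : P.FSt → α)
    (T : P.FSt → Prop) (hT : ∀ s, D.ke s → T s → T s.stE.r2 ∧ lev s.stE.r2 = lev s ∧
      ¬ D.kf s.facet ∧ ¬ D.kf s.stE.facet)
    (hbr : ∀ s, D.ke s → T s → ∃ A : P.FSt → Prop, (∀ t, D.kv t → (A t.stE.rL ↔ A t)) ∧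
      (∀ t, D.ke t → ¬ D.kf t.facet → (¬ T t ∨ lev s ≤ lev t) → t ≠ s →
        t ≠ s.stE.r2 → (A t ↔ A t.rR)) ∧ ¬ (A s ↔ A s.rR))
    (s : P.FSt) (hs : D.ke s) (hTs : T s) : cv s ↔ cv s.stE.r2 := by
  have hwf : WellFounded (fun s t : P.FSt => lev s < lev t) := by
    have _i1 : IsTrans P.FSt (fun s t : P.FSt => lev s < lev t) :=
      ⟨fun _ _ _ h h' => lt_trans h h'⟩
    have _i2 : Std.Irrefl (fun s t : P.FSt => lev s < lev t) := ⟨fun _ h => lt_irrefl _ h⟩
    exact Finite.wellFounded_of_trans_of_irrefl _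
  induction s using hwf.induction with
  | _ s ih =>
    -- remove the edges of smaller level
    obtain ⟨A, hA1, hA2, hA3⟩ := hbr s hs hTs
    let ke' : P.FSt → Prop := fun t => D.ke t ∧ (¬ T t ∨ lev s ≤ lev t)
    have k0 : ∀ t, ke' t → ke' t.stE.r2 := by
      rintro t ⟨h1, h2⟩
      refine ⟨(D.ke_rev t).2 h1, ?_⟩
      by_cases h3 : T t.stE.r2
      · have h4 := hT _ ((D.ke_rev t).2 h1) h3
        rw [FSt.stE_inv, FSt.r2_r2] at h4
        rcases h2 with h2 | h2
        · exact absurd h4.1 h2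
        · right; rw [← h4.2.1]; exact h2
      · exact Or.inl h3
    have k1 : ∀ t, ke' t.stE.r2 ↔ ke' t := by
      intro t
      refine ⟨fun h => ?_, k0 t⟩
      have := k0 _ h
      rwa [FSt.stE_inv, FSt.r2_r2] at this
    have k2 : ∀ t, ke' t → D.kv t := fun t ht => D.ke_kv t ht.1
    have k3 : ∀ t, D.kf t.facet → ke' t := fun t ht =>
      ⟨D.kf_ke t ht, Or.inl fun h => (hT t (D.kf_ke t ht) h).2.2.1 ht⟩
    have hc' : (D.withE ke' k1 k2 k3).Inv cv := by
      refine hc.withE ke' k1 k2 k3 ?_ ?_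
      · intro t ht ht'
        have h3 : ¬ (¬ T t ∨ lev s ≤ lev t) := fun h => ht' ⟨ht, h⟩
        push Not at h3
        exact ih t h3.2 ht h3.1
      · intro t ht ht'
        exact absurd ht.1 ht'
    obtain ⟨-, -, h1, h2⟩ := hT s hs hTs
    refine bridgeD (D := D.withE ke' k1 k2 k3) hc' ⟨hs, Or.inr le_rfl⟩ h1 h2 A hA1 ?_ hA3
    intro t ht hf ht1 ht2
    exact hA2 t ht.1 hf ht.2 ht1 ht2

/-- A rank on the vertices of `D`: every rank is left by at most one descending edge. -/
structure Rk (D : Nb P) {α : Type*} [LinearOrder α] (rk : P.FSt → α) : Prop where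
  rot : ∀ t, D.kv t → rk t.stE.rL = rk t
  blk : ∀ t, D.kf t.facet → rk t = rk t.rR
  uniq : ∀ s t, D.ke s → D.ke t → rk s.rR < rk s → rk t.rR < rk t → rk s = rk t → s = t

lemma Rk.rev {α : Type*} [LinearOrder α] {rk : P.FSt → α} (h : D.Rk rk) {s : P.FSt}
    (hs : D.ke s) : rk s.stE.r2 = rk s.rR ∧ rk s.stE.r2.rR = rk s := by
  have h1 := h.rot s.stE.r2 (D.ke_kv _ ((D.ke_rev s).2 hs))
  have h2 := h.rot s (D.ke_kv s hs)
  rw [rev_rot] at h1
  rw [FSt.r2_rR]
  exact ⟨h1.symm, h2⟩

/-- **The edges between different ranks are bridges.** -/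
theorem Rk.bridge {cv : P.FSt → Prop} (hc : D.Inv cv) {α : Type*} [LinearOrder α]
    {rk : P.FSt → α} (h : D.Rk rk) {s : P.FSt} (hs : D.ke s) (hne : rk s ≠ rk s.rR) :
    cv s ↔ cv s.stE.r2 := by
  refine allD hc (fun t => OrderDual.toDual (max (rk t) (rk t.rR))) (fun t => rk t ≠ rk t.rR)
    ?_ ?_ s hs hne
  · intro t ht htn
    have h1 := h.rev ht
    refine ⟨?_, ?_, ?_, ?_⟩
    · rw [h1.1, h1.2]; exact htn.symm
    · show OrderDual.toDual (max (rk t.stE.r2) (rk t.stE.r2.rR)) = _
      rw [h1.1, h1.2, max_comm]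
    · intro h2; exact htn (h.blk t h2)
    · intro h2
      have := h.blk t.stE.r2 h2
      rw [h1.1, h1.2] at this
      exact htn this.symm
  · intro s hs hsn
    set m := max (rk s) (rk s.rR) with hm
    refine ⟨fun u => rk u = m, ?_, ?_, ?_⟩
    · intro t ht
      show rk t.stE.rL = m ↔ rk t = m
      rw [h.rot t ht]
    · intro t ht hf hlv h1 h2
      show rk t = m ↔ rk t.rR = m
      by_cases he : rk t = rk t.rR
      · rw [he]
      have hlv' : max (rk t) (rk t.rR) ≤ m := by
        rcases hlv with h3 | h3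
        · exact absurd he h3
        · exact OrderDual.toDual_le_toDual.1 h3
      have hs2 := h.rev hs
      have ht2 := h.rev ht
      -- the descending edge at the rank `m`
      have key : ∀ u : P.FSt, D.ke u → rk u = m → rk u.rR < rk u → u = s ∨ u = s.stE.r2 := by
        intro u hu h3 h4
        rcases lt_or_gt_of_ne hsn with h5 | h5
        · right
          refine h.uniq u s.stE.r2 hu ((D.ke_rev s).2 hs) h4 ?_ ?_
          · rw [hs2.1, hs2.2]; exact h5
          · rw [h3, hs2.1, hm, max_eq_right h5.le]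
        · left
          refine h.uniq u s hu hs h4 h5 ?_
          rw [h3, hm, max_eq_left h5.le]
      constructor
      · intro h3
        exfalso
        have h4 : rk t.rR < rk t := by
          refine lt_of_le_of_ne ?_ (fun h => he h.symm)
          rw [h3]; exact le_trans (le_max_right _ _) hlv'
        rcases key t ht h3 h4 with h5 | h5
        · exact h1 h5
        · exact h2 h5
      · intro h3
        exfalso
        have h4 : rk t < rk t.rR := by
          refine lt_of_le_of_ne ?_ he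
          rw [h3]; exact le_trans (le_max_left _ _) hlv'
        rcases key t.stE.r2 ((D.ke_rev t).2 ht) (by rw [ht2.1]; exact h3)
          (by rw [ht2.1, ht2.2]; exact h4) with h5 | h5
        · apply h2
          rw [← h5, FSt.stE_inv, FSt.r2_r2]
        · apply h1
          have h6 := congrArg (fun u : P.FSt => u.stE.r2) h5
          simp only [FSt.stE_inv, FSt.r2_r2] at h6
          exact h6
    · show ¬ (rk s = m ↔ rk s.rR = m)
      rcases lt_or_gt_of_ne hsn with h5 | h5
      · rw [hm, max_eq_right h5.le]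
        exact fun h6 => h5.ne (h6.2 rfl)
      · rw [hm, max_eq_left h5.le]
        exact fun h6 => h5.ne (h6.1 rfl)

/-! ## Around a vertex -/

/-- the turn around the north-east corner -/
def rot : Equiv.Perm P.FSt where
  toFun s := s.stE.rL
  invFun s := s.rR.r2.stE.r2
  left_inv s := by
    show (s.stE.rL).rR.r2.stE.r2 = s
    rw [FSt.rL_rR, FSt.stE_inv, FSt.r2_r2]
  right_inv s := by
    show (s.rR.r2.stE.r2).stE.rL = s
    rw [FSt.stE_inv, FSt.r2_r2, FSt.rR_rL]

@[simp] lemma rot_apply (s : P.FSt) : rot s = s.stE.rL := rfl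

/-- A perm orbit with at most one blocked interval. -/
lemma run_unblocked {β : Type*} [Finite β] (π : Equiv.Perm β) (v b : β → Prop)
    (h : ∀ s, ¬ b s → ¬ b (π s) → (v s ↔ v (π s)))
    (hu : ∀ s t, π.SameCycle s t → b s → ¬ b (π s) → b t → ¬ b (π t) → s = t)
    {s t : β} (hst : π.SameCycle s t) (hs : ¬ b s) (ht : ¬ b t) : v s ↔ v t := by
  classical
  by_cases hex : ∃ c, π.SameCycle s c ∧ b c ∧ ¬ b (π c)
  · obtain ⟨c, hc, hc1, hc2⟩ := hex
    -- everything is reached from `π c`
    have key : ∀ u, π.SameCycle c u → ¬ b u → (v (π c) ↔ v u) := by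
      intro u hu1 hu2
      have h1 : π.SameCycle (π c) u := Equiv.Perm.sameCycle_apply_left.2 hu1
      have hex : ∃ n : ℕ, (π ^ n) (π c) = u := h1.exists_nat_pow_eq
      obtain ⟨n, hn, hmin⟩ : ∃ n : ℕ, (π ^ n) (π c) = u ∧ ∀ j < n, (π ^ j) (π c) ≠ u :=
        ⟨Nat.find hex, Nat.find_spec hex, fun j hj => Nat.find_min hex hj⟩
      -- all steps are unblocked
      have hall : ∀ i ≤ n, ¬ b ((π ^ i) (π c)) := by
        by_contra hcon
        push Not at hcon
        obtain ⟨i, hi, hbi⟩ := hcon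
        -- the last blocked one before `n`
        obtain ⟨j, hj1, hj2, hj3⟩ : ∃ j, j < n ∧ b ((π ^ j) (π c)) ∧
            ¬ b ((π ^ (j + 1)) (π c)) := by
          by_contra hno
          push Not at hno
          have : ∀ k, i ≤ k → k ≤ n → b ((π ^ k) (π c)) := by
            intro k hik
            induction k, hik using Nat.le_induction with
            | base => exact fun _ => hbi
            | succ k hk ih => exact fun hkn => hno k (by omega) (ih (by omega))
          exact hu2 (by have := this n hi le_rfl; rwa [hn] at this)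
        have h2 : (π ^ j) (π c) = c := by
          refine (hu c _ ?_ hc1 hc2 hj2 ?_).symm
          · exact Equiv.Perm.sameCycle_pow_right.2
              (Equiv.Perm.sameCycle_apply_right.2 (Equiv.Perm.SameCycle.refl _ _))
          · rwa [pow_succ', Equiv.Perm.mul_apply] at hj3
        have h3 : (π ^ (j + 1)) (π c) = π c := by
          rw [pow_succ', Equiv.Perm.mul_apply, h2]
        have h4 : (π ^ (n - (j + 1))) (π c) = u := by
          rw [← hn]
          conv_rhs => rw [show n = (n - (j + 1)) + (j + 1) by omega, pow_add,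
            Equiv.Perm.mul_apply, h3]
        exact hmin _ (by omega) h4
      have hrun : ∀ i ≤ n, (v (π c) ↔ v ((π ^ i) (π c))) := by
        intro i
        induction i with
        | zero => exact fun _ => Iff.rfl
        | succ i ih =>
          intro hi
          refine (ih (by omega)).trans ?_
          rw [pow_succ', Equiv.Perm.mul_apply]
          refine h _ (hall i (by omega)) ?_
          have := hall (i + 1) hi
          rwa [pow_succ', Equiv.Perm.mul_apply] at this
      have := hrun n le_rfl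
      rwa [hn] at this
    exact (key s hc.symm hs).symm.trans (key t (hc.symm.trans hst) ht)
  · -- nothing is blocked
    push Not at hex
    obtain ⟨n, hn⟩ := hst.exists_nat_pow_eq
    -- if something is blocked then everything is blocked
    have hall : ∀ i : ℕ, ¬ b ((π ^ i) s) := by
      intro i hbi
      have h1 : ∀ k, i ≤ k → b ((π ^ k) s) := by
        intro k hik
        induction k, hik using Nat.le_induction with
        | base => exact hbi
        | succ k hk ih =>
          rw [pow_succ', Equiv.Perm.mul_apply]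
          exact hex _ (Equiv.Perm.sameCycle_pow_right.2 (Equiv.Perm.SameCycle.refl _ _)) ih
      -- come back to `s`
      have h2 : π.SameCycle ((π ^ i) s) s :=
        Equiv.Perm.sameCycle_pow_left.2 (Equiv.Perm.SameCycle.refl _ _)
      obtain ⟨m, hm⟩ := h2.exists_nat_pow_eq
      have h3 := h1 (m + i) (by omega)
      rw [pow_add, Equiv.Perm.mul_apply, hm] at h3
      exact hs h3
    rw [← hn]
    clear hn
    induction n with
    | zero => exact Iff.rfl
    | succ n ih =>
      refine ih.trans ?_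
      rw [pow_succ', Equiv.Perm.mul_apply]
      refine h _ (hall n) ?_
      have := hall (n + 1)
      rwa [pow_succ', Equiv.Perm.mul_apply] at this

/-- All darts at a vertex have the same value if the edges are bridges and the facets of `D` at the
vertex form at most one interval. -/
theorem vertex {cv : P.FSt → Prop} (hc : D.Inv cv) {s : P.FSt} (hs : D.Dt s)
    (hb : ∀ u, rot.SameCycle s u → D.ke u → ¬ D.kf u.facet → ¬ D.kf u.stE.facet →
      (cv u ↔ cv u.stE.r2))
    (hu : ∀ a b, rot.SameCycle s a → rot.SameCycle s b → D.kf a.facet → ¬ D.kf a.stE.facet →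
      D.kf b.facet → ¬ D.kf b.stE.facet → a = b)
    {t : P.FSt} (hst : rot.SameCycle s t) (ht : ¬ D.kf t.facet) : cv s ↔ cv t := by
  have hkv : ∀ u, rot.SameCycle s u → D.kv u := by
    intro u h
    obtain ⟨n, rfl⟩ := h.exists_nat_pow_eq
    clear h
    induction n with
    | zero => exact hs.1
    | succ n ih =>
      rw [pow_succ', Equiv.Perm.mul_apply, rot_apply, D.kv_rot]
      exact ih
  -- restrict to the orbit
  have key : (cv s ∧ rot.SameCycle s s) ↔ (cv t ∧ rot.SameCycle s t) := by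
    refine run_unblocked (rot (P := P)) (fun u => cv u ∧ rot.SameCycle s u)
      (fun u => D.kf u.facet ∨ ¬ rot.SameCycle s u) ?_ ?_ hst ?_ ?_
    · intro u h1 h2
      have e : rot.SameCycle s (rot u) ↔ rot.SameCycle s u := Equiv.Perm.sameCycle_apply_right
      rw [e] at h2
      show (cv u ∧ _) ↔ (cv (rot u) ∧ _)
      rw [e]
      refine and_congr_left ?_
      intro hu1
      have h1' : ¬ D.kf u.facet := fun h => h1 (Or.inl h)
      have h2' : ¬ D.kf (rot u).facet := fun h => h2 (Or.inl h)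
      rw [rot_apply] at h2' ⊢
      rw [FSt.facet_rL] at h2'
      by_cases hk : D.ke u
      · have h3 := hb u hu1 hk h1' h2'
        have h4 := hc.e u.stE.r2 h2' ((D.ke_rev u).2 hk)
        rw [FSt.r2_rR] at h4
        exact h3.trans h4
      · exact hc.x u (hkv u hu1) hk
    · intro a b hab ha1 ha2 hb1 hb2
      have e : ∀ u : P.FSt, rot.SameCycle s (rot u) ↔ rot.SameCycle s u :=
        fun u => Equiv.Perm.sameCycle_apply_right
      rw [e] at ha2 hb2
      push Not at ha2 hb2
      have ha3 : D.kf a.facet := by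
        rcases ha1 with h | h
        · exact h
        · exact absurd ha2.2 h
      have hb3 : D.kf b.facet := by
        rcases hb1 with h | h
        · exact h
        · exact absurd hb2.2 h
      exact hu a b ha2.2 hb2.2 ha3 ha2.1 hb3 hb2.1
    · push Not; exact ⟨hs.2, Equiv.Perm.SameCycle.refl _ _⟩
    · push Not; exact ⟨ht, hst⟩
  have h1 : rot.SameCycle s s := Equiv.Perm.SameCycle.refl _ _
  exact ⟨fun h2 => (key.1 ⟨h2, h1⟩).1, fun h2 => (key.2 ⟨h2, hst⟩).1⟩

/-- predicates on vertices and cycles of the turn -/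
lemma rot_inv {A : P.FSt → Prop} (hA : ∀ t, D.kv t → (A t.stE.rL ↔ A t)) {s t : P.FSt}
    (hs : D.kv s) (hst : rot.SameCycle s t) : D.kv t ∧ (A t ↔ A s) := by
  obtain ⟨n, rfl⟩ := hst.exists_nat_pow_eq
  clear hst
  induction n with
  | zero => exact ⟨hs, Iff.rfl⟩
  | succ n ih =>
    rw [pow_succ', Equiv.Perm.mul_apply, rot_apply, D.kv_rot]
    exact ⟨ih.1, (hA _ ih.1).trans ih.2⟩

/-! ## One curve -/

/-- **All darts in `J` are on one curve**: all edges of `D` that are met by the curve on both sides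
are bridges, there is at most one interval of facets of `D` at every vertex, and the part of `D`
in `J` is connected (along the edges that are met by the curve). -/
theorem one {cv : P.FSt → Prop} (hc : D.Inv cv)
    (hb : ∀ u, D.ke u → ¬ D.kf u.facet → ¬ D.kf u.stE.facet → (cv u ↔ cv u.stE.r2))
    (hu : ∀ a b, rot.SameCycle a b → D.kf a.facet → ¬ D.kf a.stE.facet →
      D.kf b.facet → ¬ D.kf b.stE.facet → a = b)
    {s t : P.FSt} (hs : D.Dt s) (ht : D.Dt t)
    (hcon : ∀ B : P.FSt → Prop, (∀ u, D.kv u → (B u.stE.rL ↔ B u)) →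
      (∀ u, D.ke u → ¬ D.kf u.facet → (B u ↔ B u.rR)) → (B s ↔ B t)) : cv s ↔ cv t := by
  have hv : ∀ {u w : P.FSt}, D.Dt u → rot.SameCycle u w → ¬ D.kf w.facet → (cv u ↔ cv w) := by
    intro u w hu1 hw hw2
    refine vertex hc hu1 (fun v _ => hb v) ?_ hw hw2
    intro a b ha hb'
    exact hu a b (ha.symm.trans hb')
  have h1 := hcon (fun u => ∃ w, rot.SameCycle u w ∧ ¬ D.kf w.facet ∧ cv w) ?_ ?_
  · have h2 : ∀ {u}, D.Dt u → ((∃ w, rot.SameCycle u w ∧ ¬ D.kf w.facet ∧ cv w) ↔ cv u) := by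
      intro u hu1
      constructor
      · rintro ⟨w, hw, hw2, hw3⟩
        exact (hv hu1 hw hw2).2 hw3
      · intro h
        exact ⟨u, Equiv.Perm.SameCycle.refl _ _, hu1.2, h⟩
    rw [← h2 hs, ← h2 ht]
    exact h1
  · intro u _
    have e : ∀ w, rot.SameCycle u.stE.rL w ↔ rot.SameCycle u w := by
      intro w
      rw [← rot_apply]
      exact Equiv.Perm.sameCycle_apply_left
    simp only [e]
  · intro u hu1 hu2
    have hd : D.Dt u := ⟨D.ke_kv u hu1, hu2⟩
    have hd' : D.Dt u.rR := ⟨kv_rR hu1, hu2⟩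
    have he := hc.e u hu2 hu1
    constructor
    · rintro ⟨w, hw, hw2, hw3⟩
      exact ⟨u.rR, Equiv.Perm.SameCycle.refl _ _, hd'.2, he.1 ((hv hd hw hw2).2 hw3)⟩
    · rintro ⟨w, hw, hw2, hw3⟩
      exact ⟨u, Equiv.Perm.SameCycle.refl _ _, hd.2, he.2 ((hv hd' hw hw2).2 hw3)⟩

/-! ## Growth -/

/-- **Growth**: `D'` is `D` with new trees attached to vertices of `D`; the new vertices have a
larger rank than the vertices of `D`, which have all the same rank. -/
theorem grow {cv : P.FSt → Prop} {D' : Nb P} (hc : D'.Inv cv) {α : Type*} [LinearOrder α]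
    {rk : P.FSt → α} (hrk : D'.Rk rk) (hv : ∀ s, D.kv s → D'.kv s)
    (he : ∀ s, D.ke s → D'.ke s) (hf : ∀ s : P.FSt, D.kv s → D'.kf s.facet → D.kf s.facet)
    (hne : ∀ s, D.kv s → ¬ D.ke s → D'.ke s → rk s ≠ rk s.rR) : D.Inv cv := by
  constructor
  · intro s h1 h2
    by_cases h3 : D'.ke s
    · have h4 := hne s h1 h2 h3
      have h5 := hrk.bridge hc h3 h4
      have h6 : ¬ D'.kf s.stE.facet := by
        intro h7
        have h8 := hrk.blk s.stE.r2 h7
        rw [(hrk.rev h3).1, (hrk.rev h3).2] at h8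
        exact h4 h8.symm
      have h7 := hc.e s.stE.r2 h6 ((D'.ke_rev s).2 h3)
      rw [FSt.r2_rR] at h7
      exact h5.trans h7
    · exact hc.x s (hv s h1) h3
  · intro s h1 h2
    exact hc.e s (fun h3 => h1 (hf s (D.ke_kv s h2) h3)) (he s h2)

end Nb

end Pool.Agent.MP42K
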