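import Pool.Agent.MP42.K.HDefs
import Pool.Agent.MP42.K.NbCon

/-!
# Growth by one edge: the general step

`GS J N V Hi Ho Op`: the rules of `KG` for the subcomplex `N` (a subcomplex of the whole surface)
with two headings at every dart: `Hi s` is the value in the rules into the dart `s`, `Ho s` the
value in the rules out of `s`.  They agree at all darts outside of the ports `Op`.

`GS.step`: the edge `t` (east side of `t`) and the new vertex (south-east corner of `t`) are added.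
-/

set_option autoImplicit false
set_option linter.unusedSectionVars false

namespace Pool.Agent.MP42K

open Pool.Agent.Helper55.UNF Pool.Agent.Helper55.UNF.GridSolid Pool.Agent.MP42G
open Pool.Agent.MP42H Pool.Agent.MP42X Pool.Agent.MP42R
open Core1 (jf)

variable {P : GridSolid}

namespace Nb

/-- the same north-east corner -/
def SC (s t : P.FSt) : Prop := rot.SameCycle s t

lemma SC.refl (s : P.FSt) : SC s s := Equiv.Perm.SameCycle.refl _ _
lemma SC.symm {s t : P.FSt} (h : SC s t) : SC t s := Equiv.Perm.SameCycle.symm h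
lemma SC.trans {s t u : P.FSt} (h : SC s t) (h' : SC t u) : SC s u :=
  Equiv.Perm.SameCycle.trans h h'

lemma SC_rot_right (s t : P.FSt) : SC s t.stE.rL ↔ SC s t := by
  rw [← rot_apply]; exact Equiv.Perm.sameCycle_apply_right

lemma SC_rot_left (s t : P.FSt) : SC s.stE.rL t ↔ SC s t := by
  rw [← rot_apply]; exact Equiv.Perm.sameCycle_apply_left

/-- the other end of an edge, seen from the other side -/
lemma SC_rev (s : P.FSt) : SC s.rR s.stE.r2 := by
  rw [← SC_rot_right, rev_rot]; exact SC.refl _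

/-- add edges with their ends -/
def addE (N : Nb P) (T : P.FSt → Prop) : Nb P where
  kv s := N.kv s ∨ ∃ t, T t ∧ (SC t s ∨ SC t.rR s)
  ke s := N.ke s ∨ ∃ t, T t ∧ (s = t ∨ s = t.stE.r2)
  kf := N.kf
  kv_rot s := by
    rw [N.kv_rot]
    simp only [SC_rot_right]
  ke_rev s := by
    rw [N.ke_rev]
    constructor
    · rintro (h | ⟨t, ht, h | h⟩)
      · exact Or.inl h
      · refine Or.inr ⟨t, ht, Or.inr ?_⟩
        rw [← h, FSt.stE_inv, FSt.r2_r2]
      · refine Or.inr ⟨t, ht, Or.inl ?_⟩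
        have h1 := congrArg (fun u : P.FSt => u.stE.r2) h
        simpa only [FSt.stE_inv, FSt.r2_r2] using h1
    · rintro (h | ⟨t, ht, h | h⟩)
      · exact Or.inl h
      · exact Or.inr ⟨t, ht, Or.inr (by rw [h])⟩
      · exact Or.inr ⟨t, ht, Or.inl (by rw [h, FSt.stE_inv, FSt.r2_r2])⟩
  ke_kv s := by
    rintro (h | ⟨t, ht, h | h⟩)
    · exact Or.inl (N.ke_kv s h)
    · exact Or.inr ⟨t, ht, Or.inl (by rw [h]; exact SC.refl _)⟩
    · exact Or.inr ⟨t, ht, Or.inr (by rw [h]; exact SC_rev t)⟩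
  kf_ke s h := Or.inl (N.kf_ke s h)

lemma kv_SC (N : Nb P) {s t : P.FSt} (h : SC s t) : N.kv s ↔ N.kv t := by
  obtain ⟨n, rfl⟩ := Equiv.Perm.SameCycle.exists_nat_pow_eq h
  clear h
  induction n with
  | zero => exact Iff.rfl
  | succ n ih =>
    rw [pow_succ', Equiv.Perm.mul_apply, rot_apply, N.kv_rot]
    exact ih

end Nb

open Nb (SC SC_rot_right SC_rot_left SC_rev rev_rot)

/-- the port `t` -/
structure Port (J : P.Facet → Prop) (N : Nb P) (V : P.FSt → Prop) (t : P.FSt) (a b : ℤ) :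
    Prop where
  kv : N.kv t
  ke : ¬ N.ke t
  Jt : J t.facet
  JE : J t.stE.facet
  a1 : -1 ≤ a
  a2 : a ≤ 1
  b1 : -1 ≤ b
  b2 : b ≤ 1
  Va : V t ↔ a ≠ 0
  Vb : V t.stE ↔ b ≠ 0

/-- The local rules with two headings. -/
structure GS (J : P.Facet → Prop) (N : Nb P) (V : P.FSt → Prop) (Hi Ho : P.FSt → ℤ)
    (Op : P.FSt → Prop) : Prop where
  V_rR : ∀ s : P.FSt, J s.facet → (V s.rR ↔ ¬ V s)
  r1 : ∀ s : P.FSt, J s.facet → ¬ N.kf s.facet → N.ke s → N.ke s.rR → Hi s.rR = Ho s - 1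
  r2 : ∀ s : P.FSt, J s.facet → ¬ N.kf s.facet → N.ke s → ¬ N.ke s.rR → Hi s.rR = Ho s
  r3 : ∀ t : P.FSt, J t.facet → N.kv t → ¬ N.ke t.rL → N.ke t → Hi t = Ho (pre t)
  r4 : ∀ t : P.FSt, J t.facet → N.kv t → ¬ N.ke t.rL → ¬ N.ke t → Hi t = Ho (pre t) + 1
  io : ∀ s : P.FSt, J s.facet → ¬ N.kf s.facet → N.kv s → ¬ Op s → Hi s = Ho s
  hb : ∀ s : P.FSt, J s.facet → ¬ N.kf s.facet → N.kv s → ¬ Op s → -1 ≤ Ho s ∧ Ho s ≤ 1
  hb' : ∀ t : P.FSt, J t.facet → N.kv t → ¬ N.ke t.rL → ¬ Op (pre t) →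
    -1 ≤ Ho (pre t) ∧ Ho (pre t) ≤ 1
  vr : ∀ s : P.FSt, J s.facet → ¬ N.kf s.facet → N.ke s → (V s ↔ Ho s ≠ 0)
  vx : ∀ s : P.FSt, J s.facet → N.kv s → ¬ N.ke s → ¬ Op s → (V s ↔ Ho s = 0)
  vx' : ∀ t : P.FSt, J t.facet → N.kv t → ¬ N.ke t.rL → ¬ Op (pre t) →
    (V t ↔ Ho (pre t) ≠ 0)
  op : ∀ t : P.FSt, Op t → Port J N V t (Hi t - 1) (Ho t + 1)

/-- the dart before `t` -/
lemma pre_rot (t : P.FSt) : (pre t).stE.rL = t := by
  show t.rL.stE.r2.stE.rL = t
  rw [rev_rot, FSt.rL_rR]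

lemma pre_of_rot (t : P.FSt) : pre t.stE.rL = t := by
  show t.stE.rL.rL.stE.r2 = t
  rw [FSt.rL_rL, FSt.stE_inv, FSt.r2_r2]

lemma SC_pre (s t : P.FSt) : SC s (pre t) ↔ SC s t := by
  rw [← SC_rot_right s (pre t), pre_rot]

lemma pre_facet_ne (t : P.FSt) : pre t ≠ t := by
  intro h
  have h1 : (pre t).facet = t.facet := by rw [h]
  have h2 : t.rL.stE.facet = t.rL.facet := h1
  exact FSt.stE_facet_ne _ h2

lemma stE_rL_ne (t : P.FSt) : t.stE.rL ≠ t := by
  intro h
  have h1 : t.stE.rL.facet = t.facet := by rw [h]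
  exact FSt.stE_facet_ne t h1

lemma V_r2 {J : P.Facet → Prop} {V : P.FSt → Prop}
    (hV : ∀ s : P.FSt, J s.facet → (V s.rR ↔ ¬ V s)) {s : P.FSt} (h : J s.facet) :
    V s.r2 ↔ V s := by
  have h1 := hV s h
  have h2 := hV s.rR h
  rw [FSt.rR_rR] at h2
  tauto

lemma V_rL {J : P.Facet → Prop} {V : P.FSt → Prop}
    (hV : ∀ s : P.FSt, J s.facet → (V s.rR ↔ ¬ V s)) {s : P.FSt} (h : J s.facet) :
    V s.rL ↔ ¬ V s := by
  have h2 := hV s.rL h
  rw [FSt.rL_rR] at h2
  tauto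

/-- **The general step.** -/
theorem GS.step {J : P.Facet → Prop} {N N' : Nb P} {V : P.FSt → Prop} {Hi Ho : P.FSt → ℤ}
    {Op : P.FSt → Prop} (h : GS J N V Hi Ho Op) {t : P.FSt} (hkv : N.kv t) (hke : ¬ N.ke t)
    (hnew : ¬ N.kv t.rR) (e1 : ∀ s, N'.kv s ↔ N.kv s ∨ SC t.rR s)
    (e2 : ∀ s, N'.ke s ↔ N.ke s ∨ s = t ∨ s = t.stE.r2) (e3 : ∀ f, N'.kf f ↔ N.kf f)
    {a b : ℤ} (hT : J t.facet → Hi t = a + 1 ∧ -1 ≤ a ∧ a ≤ 1 ∧ (V t ↔ a ≠ 0))
    (hB : J t.stE.facet → Ho t = b - 1 ∧ -1 ≤ b ∧ b ≤ 1 ∧ (V t.stE ↔ b ≠ 0))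
    {Hi' Ho' : P.FSt → ℤ} {Op' : P.FSt → Prop}
    (old : ∀ s, s ≠ t → ¬ SC t.rR s → Hi' s = Hi s ∧ Ho' s = Ho s ∧ (Op' s ↔ Op s))
    (ht : Hi' t = a ∧ Ho' t = a) (hto : ¬ Op' t)
    (hl : Hi' t.stE.r2 = b ∧ Ho' t.stE.r2 = b) (hlo : ¬ Op' t.stE.r2)
    (first : J t.facet → Hi' t.rR = a)
    (mid : ∀ s, SC t.rR s → s ≠ t.rR → s ≠ t.stE.r2 → J s.facet → Hi' s = Ho' (pre s) + 1)
    (last : J t.stE.facet → Ho' (pre t.stE.r2) = b)
    (clo : ∀ s, SC t.rR s → s ≠ t.stE.r2 → J s.facet → ¬ Op' s →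
      Hi' s = Ho' s ∧ -1 ≤ Ho' s ∧ Ho' s ≤ 1 ∧ (V s ↔ Ho' s = 0))
    (aft : ∀ s, SC t.rR s → s ≠ t.rR → J s.facet → ¬ Op' (pre s) →
      -1 ≤ Ho' (pre s) ∧ Ho' (pre s) ≤ 1 ∧ (V s ↔ Ho' (pre s) ≠ 0))
    (opn : ∀ s, SC t.rR s → Op' s → s ≠ t.stE.r2 ∧ J s.facet ∧ J s.stE.facet ∧
      -1 ≤ Hi' s - 1 ∧ Hi' s - 1 ≤ 1 ∧ -1 ≤ Ho' s + 1 ∧ Ho' s + 1 ≤ 1 ∧
      (V s ↔ Hi' s - 1 ≠ 0) ∧ (V s.stE ↔ Ho' s + 1 ≠ 0)) :
    GS J N' V Hi' Ho' Op' := by
  -- new darts
  have hNt : ¬ SC t.rR t := fun hc => hnew ((N.kv_SC hc).2 hkv)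
  have nkv : ∀ {s}, SC t.rR s → ¬ N.kv s := fun {s} hs hk => hnew ((N.kv_SC hs).2 hk)
  have nSC : ∀ {s}, N.kv s → ¬ SC t.rR s := fun {s} hk hs => nkv hs hk
  have nke : ∀ {s}, SC t.rR s → ¬ N.ke s := fun {s} hs hk => nkv hs (N.ke_kv s hk)
  have nkeL : ∀ {s}, SC t.rR s → ¬ N.ke s.rL := by
    intro s hs hk
    have := Nb.kv_rR hk
    rw [FSt.rL_rR] at this
    exact nkv hs this
  have hl' : SC t.rR t.stE.r2 := SC_rev t
  have hlne : t.stE.r2 ≠ t.rR := by
    intro hc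
    have h1 : t.stE.r2.facet = t.rR.facet := by rw [hc]
    exact FSt.stE_facet_ne t h1
  have hune : t.stE.rL ≠ t := stE_rL_ne t
  have hukv : N.kv t.stE.rL := (N.kv_rot t).2 hkv
  -- `ke' s.rL` at a new dart
  have keL' : ∀ {s}, SC t.rR s → (N'.ke s.rL ↔ s = t.rR) := by
    intro s hs
    rw [e2]
    constructor
    · rintro (hk | hk | hk)
      · exact absurd hk (nkeL hs)
      · rw [← hk, FSt.rL_rR]
      · exfalso
        have h1 : s = t.stE.rL := by
          have := congrArg FSt.rR hk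
          rw [FSt.rL_rR, FSt.r2_rR] at this
          exact this
        rw [h1] at hs
        exact nkv hs hukv
    · intro hk
      right; left; rw [hk, FSt.rR_rL]
  -- old darts: `ke'`
  have keO : ∀ {s}, N.kv s → (N'.ke s ↔ N.ke s ∨ s = t) := by
    intro s hs
    rw [e2]
    constructor
    · rintro (hk | hk | hk)
      · exact Or.inl hk
      · exact Or.inr hk
      · rw [hk] at hs; exact absurd hs (nkv hl')
    · rintro (hk | hk)
      · exact Or.inl hk
      · exact Or.inr (Or.inl hk)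
  have keN : ∀ {s}, SC t.rR s → (N'.ke s ↔ s = t.stE.r2) := by
    intro s hs
    rw [e2]
    constructor
    · rintro (hk | hk | hk)
      · exact absurd hk (nke hs)
      · rw [hk] at hs; exact absurd hs hNt
      · exact hk
    · exact fun hk => Or.inr (Or.inr hk)
  -- the north side of an old dart
  have keLO : ∀ {s}, N.kv s → (N'.ke s.rL ↔ N.ke s.rL ∨ s = t.stE.rL) := by
    intro s hs
    rw [e2]
    constructor
    · rintro (hk | hk | hk)
      · exact Or.inl hk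
      · exfalso
        have h1 : s = t.rR := by rw [← hk, FSt.rL_rR]
        rw [h1] at hs; exact hnew hs
      · right
        have := congrArg FSt.rR hk
        rw [FSt.rL_rR, FSt.r2_rR] at this
        exact this
    · rintro (hk | hk)
      · exact Or.inl hk
      · right; right; rw [hk, FSt.rL_rL]
  -- before an old dart
  have preO : ∀ {s}, N.kv s → s ≠ t.stE.rL → (Ho' (pre s) = Ho (pre s) ∧
      (Op' (pre s) ↔ Op (pre s))) := by
    intro s hs hne
    have h1 : pre s ≠ t := by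
      intro hc
      apply hne
      rw [← hc, pre_rot]
    have h2 : ¬ SC t.rR (pre s) := by rw [SC_pre]; exact nSC hs
    exact ⟨(old _ h1 h2).2.1, (old _ h1 h2).2.2⟩
  have kfT : ¬ N.kf t.facet := fun hc => hke (N.kf_ke t hc)
  have kfTE : ¬ N.kf t.stE.facet := Nb.nkf_stE hke
  have tJ : J t.facet → Ho (pre t) = a ∨ N.ke t.rL := by
    intro hJ
    by_cases hk : N.ke t.rL
    · exact Or.inr hk
    · left
      have h1 := h.r4 t hJ hkv hk hke
      have h2 := (hT hJ).1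
      omega
  constructor
  · exact h.V_rR
  · -- r1
    intro s hJ hf hk hk'
    rw [e3] at hf
    rw [e2] at hk
    rcases hk with hk | hk | hk
    · have hkvR := Nb.kv_rR hk
      have hst : s ≠ t := fun hc => hke (hc ▸ hk)
      have hsN := nSC (N.ke_kv s hk)
      rw [keO hkvR] at hk'
      rw [(old s hst hsN).2.1]
      rcases hk' with hk' | hk'
      · have hRt : s.rR ≠ t := fun hc => hke (hc ▸ hk')
        rw [(old _ hRt (nSC hkvR)).1]
        exact h.r1 s hJ hf hk hk'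
      · have h1 := h.r2 s hJ hf hk (by rw [hk']; exact hke)
        have hJt : J t.facet := by rw [← hk']; exact hJ
        have h2 := (hT hJt).1
        rw [hk'] at h1 ⊢
        rw [ht.1]
        omega
    · subst hk
      rw [keN (SC.refl _)] at hk'
      exact absurd hk'.symm hlne
    · subst hk
      rw [FSt.r2_rR] at hk' ⊢
      rw [keO hukv] at hk'
      rcases hk' with hk' | hk'
      · rw [(old _ hune (nSC hukv)).1, hl.2]
        have hnL : ¬ N.ke t.stE.rL.rL := by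
          rw [FSt.rL_rL]
          exact fun hc => hke ((N.ke_rev t).1 hc)
        have h1 := h.r3 t.stE.rL hJ hukv hnL hk'
        rw [pre_of_rot] at h1
        rw [h1, (hB hJ).1]
      · exact absurd hk' hune
  · -- r2
    intro s hJ hf hk hk'
    rw [e3] at hf
    rw [e2] at hk
    rcases hk with hk | hk | hk
    · have hkvR := Nb.kv_rR hk
      have hst : s ≠ t := fun hc => hke (hc ▸ hk)
      have hsN := nSC (N.ke_kv s hk)
      rw [keO hkvR] at hk'
      push Not at hk'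
      rw [(old s hst hsN).2.1, (old _ hk'.2 (nSC hkvR)).1]
      exact h.r2 s hJ hf hk hk'.1
    · subst hk
      rw [first hJ, ht.2]
    · subst hk
      rw [FSt.r2_rR] at hk' ⊢
      rw [keO hukv] at hk'
      push Not at hk'
      rw [(old _ hune (nSC hukv)).1, hl.2]
      have hnL : ¬ N.ke t.stE.rL.rL := by
        rw [FSt.rL_rL]
        exact fun hc => hke ((N.ke_rev t).1 hc)
      have h1 := h.r4 t.stE.rL hJ hukv hnL hk'.1
      rw [pre_of_rot] at h1
      rw [h1, (hB hJ).1]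
      ring
  · -- r3
    intro s hJ hv hk hk'
    rw [e1] at hv
    rcases hv with hv | hv
    · rw [keLO hv] at hk
      push Not at hk
      rw [keO hv] at hk'
      rw [(preO hv hk.2).1]
      rcases hk' with hk' | hk'
      · have hst : s ≠ t := fun hc => hke (hc ▸ hk')
        rw [(old s hst (nSC hv)).1]
        exact h.r3 s hJ hv hk.1 hk'
      · subst hk'
        rw [ht.1]
        rcases tJ hJ with h1 | h1
        · exact h1.symm
        · exact absurd h1 hk.1
    · rw [keN hv] at hk'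
      subst hk'
      rw [hl.1, last hJ]
  · -- r4
    intro s hJ hv hk hk'
    rw [e1] at hv
    rcases hv with hv | hv
    · rw [keLO hv] at hk
      push Not at hk
      rw [keO hv] at hk'
      push Not at hk'
      rw [(preO hv hk.2).1, (old s hk'.2 (nSC hv)).1]
      exact h.r4 s hJ hv hk.1 hk'.1
    · rw [keN hv] at hk'
      rw [keL' hv] at hk
      exact mid s hv hk hk' hJ
  · -- io
    intro s hJ hf hv ho
    rw [e3] at hf
    rw [e1] at hv
    rcases hv with hv | hv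
    · by_cases hst : s = t
      · subst hst; rw [ht.1, ht.2]
      · have h1 := old s hst (nSC hv)
        rw [h1.2.2] at ho
        rw [h1.1, h1.2.1]
        exact h.io s hJ hf hv ho
    · by_cases hsl : s = t.stE.r2
      · subst hsl; rw [hl.1, hl.2]
      · exact (clo s hv hsl hJ ho).1
  · -- hb
    intro s hJ hf hv ho
    rw [e3] at hf
    rw [e1] at hv
    rcases hv with hv | hv
    · by_cases hst : s = t
      · subst hst; rw [ht.2]; exact ⟨(hT hJ).2.1, (hT hJ).2.2.1⟩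
      · have h1 := old s hst (nSC hv)
        rw [h1.2.2] at ho
        rw [h1.2.1]
        exact h.hb s hJ hf hv ho
    · by_cases hsl : s = t.stE.r2
      · subst hsl; rw [hl.2]; exact ⟨(hB hJ).2.1, (hB hJ).2.2.1⟩
      · exact ⟨(clo s hv hsl hJ ho).2.1, (clo s hv hsl hJ ho).2.2.1⟩
  · -- hb'
    intro s hJ hv hk ho
    rw [e1] at hv
    rcases hv with hv | hv
    · rw [keLO hv] at hk
      push Not at hk
      rw [(preO hv hk.2).1]
      rw [(preO hv hk.2).2] at ho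
      exact h.hb' s hJ hv hk.1 ho
    · rw [keL' hv] at hk
      exact ⟨(aft s hv hk hJ ho).1, (aft s hv hk hJ ho).2.1⟩
  · -- vr
    intro s hJ hf hk
    rw [e3] at hf
    rw [e2] at hk
    rcases hk with hk | hk | hk
    · have hst : s ≠ t := fun hc => hke (hc ▸ hk)
      rw [(old s hst (nSC (N.ke_kv s hk))).2.1]
      exact h.vr s hJ hf hk
    · subst hk
      rw [ht.2]; exact (hT hJ).2.2.2
    · subst hk
      rw [hl.2]
      have h1 : V t.stE.r2 ↔ V t.stE := V_r2 h.V_rR hJ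
      rw [h1]; exact (hB hJ).2.2.2
  · -- vx
    intro s hJ hv hk ho
    rw [e1] at hv
    rcases hv with hv | hv
    · rw [keO hv] at hk
      push Not at hk
      have h1 := old s hk.2 (nSC hv)
      rw [h1.2.2] at ho
      rw [h1.2.1]
      exact h.vx s hJ hv hk.1 ho
    · rw [keN hv] at hk
      exact (clo s hv hk hJ ho).2.2.2
  · -- vx'
    intro s hJ hv hk ho
    rw [e1] at hv
    rcases hv with hv | hv
    · rw [keLO hv] at hk
      push Not at hk
      rw [(preO hv hk.2).1]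
      rw [(preO hv hk.2).2] at ho
      exact h.vx' s hJ hv hk.1 ho
    · rw [keL' hv] at hk
      exact (aft s hv hk hJ ho).2.2
  · -- op
    intro s ho
    by_cases hs : SC t.rR s
    · obtain ⟨h1, h2, h3, h4, h5, h6, h7, h8, h9⟩ := opn s hs ho
      exact ⟨(e1 s).2 (Or.inr hs), by rw [keN hs]; exact h1, h2, h3, h4, h5, h6, h7, h8, h9⟩
    · by_cases hst : s = t
      · subst hst; exact absurd ho hto
      · have h1 := old s hst hs
        rw [h1.2.2] at ho
        obtain ⟨q1, q2, q3, q4, q5, q6, q7, q8, q9, q10⟩ := h.op s ho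
        rw [h1.1, h1.2.1]
        exact ⟨(e1 s).2 (Or.inl q1), by rw [keO q1]; push Not; exact ⟨q2, hst⟩,
          q3, q4, q5, q6, q7, q8, q9, q10⟩

end Pool.Agent.MP42K
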