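import Pool.Agent.MP42.K.Port

/-!
# Growth by one edge: the step with a numbering of the new darts

The new darts are `(rot ^ i) t.rR`, `i < n`; the last one is `t.stE.r2`.
-/

set_option autoImplicit false
set_option linter.unusedSectionVars false

namespace Pool.Agent.MP42K

open Pool.Agent.Helper55.UNF Pool.Agent.Helper55.UNF.GridSolid Pool.Agent.MP42G
open Pool.Agent.MP42H Pool.Agent.MP42X Pool.Agent.MP42R
open Core1 (jf)
open Nb (SC SC_rot_right SC_rot_left SC_rev rev_rot rot)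

variable {P : GridSolid}

/-- `n` facets around the vertex of `x` -/
structure Val (x : P.FSt) (n : ℕ) : Prop where
  per : (rot ^ n) x = x
  min : ∀ i, 0 < i → i < n → (rot ^ i) x ≠ x
  pos : 0 < n

open Classical in
/-- the number of a dart -/
noncomputable def idx (x s : P.FSt) : ℕ :=
  if h : ∃ i : ℕ, (rot ^ i) x = s then Nat.find h else 0

lemma Val.idx_pow {x : P.FSt} {n : ℕ} (h : Val x n) {i : ℕ} (hi : i < n) :
    idx x ((rot ^ i) x) = i := by
  classical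
  have hex : ∃ j : ℕ, (rot ^ j) x = (rot ^ i) x := ⟨i, rfl⟩
  unfold idx
  rw [dif_pos hex]
  have h1 : Nat.find hex ≤ i := Nat.find_min' hex rfl
  have h2 := Nat.find_spec hex
  by_contra hne
  have hlt : Nat.find hex < i := by omega
  set k := Nat.find hex with hk
  have h3 : (rot ^ (i - k)) x = x := by
    have h4 : (rot ^ i) x = (rot ^ k) ((rot ^ (i - k)) x) := by
      rw [← Equiv.Perm.mul_apply, ← pow_add]
      congr 2; omega
    rw [h4] at h2
    exact ((rot ^ k : Equiv.Perm P.FSt).injective h2).symm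
  exact h.min (i - k) (by omega) (by omega) h3

lemma Val.idx_lt {x : P.FSt} {n : ℕ} (h : Val x n) {s : P.FSt} (hs : SC x s) :
    idx x s < n ∧ (rot ^ (idx x s)) x = s := by
  classical
  obtain ⟨m, hm⟩ := Equiv.Perm.SameCycle.exists_nat_pow_eq hs
  have key : ∀ q : ℕ, (rot ^ (n * q)) x = x := by
    intro q
    induction q with
    | zero => rfl
    | succ q ih =>
      rw [Nat.mul_succ, add_comm, pow_add, Equiv.Perm.mul_apply, ih, h.per]
  have h1 : (rot ^ (m % n)) x = s := by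
    have h2 : (rot ^ m) x = (rot ^ (m % n)) ((rot ^ (n * (m / n))) x) := by
      rw [← Equiv.Perm.mul_apply, ← pow_add, Nat.mod_add_div]
    rw [← hm, h2, key]
  have hex : ∃ j : ℕ, (rot ^ j) x = s := ⟨_, h1⟩
  unfold idx
  rw [dif_pos hex]
  exact ⟨lt_of_le_of_lt (Nat.find_min' hex h1) (Nat.mod_lt _ h.pos), Nat.find_spec hex⟩

lemma Val.SC_iff {x : P.FSt} {n : ℕ} (h : Val x n) {s : P.FSt} :
    SC x s ↔ ∃ i < n, s = (rot ^ i) x := by
  constructor
  · intro hs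
    exact ⟨idx x s, (h.idx_lt hs).1, (h.idx_lt hs).2.symm⟩
  · rintro ⟨i, -, rfl⟩
    exact Equiv.Perm.sameCycle_pow_right.2 (SC.refl' x)
where
  SC.refl' (x : P.FSt) : rot.SameCycle x x := Equiv.Perm.SameCycle.refl _ _

/-- the last dart -/
lemma Val.last {t : P.FSt} {n : ℕ} (h : Val t.rR n) : (rot ^ (n - 1)) t.rR = t.stE.r2 := by
  have h1 : rot ((rot ^ (n - 1)) t.rR) = rot t.stE.r2 := by
    rw [← Equiv.Perm.mul_apply, ← pow_succ', Nat.sub_add_cancel h.pos, h.per]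
    show t.rR = t.stE.r2.stE.rL
    rw [rev_rot]
  exact rot.injective h1

lemma Val.two {t : P.FSt} {n : ℕ} (h : Val t.rR n) : 2 ≤ n := by
  by_contra hn
  have h1 : n = 1 := by have := h.pos; omega
  have h2 := h.last
  rw [h1] at h2
  have h3 : t.rR.facet = t.stE.r2.facet := by
    have : t.rR = t.stE.r2 := h2
    rw [this]
  exact FSt.stE_facet_ne t h3.symm

lemma pre_pow {x : P.FSt} (i : ℕ) : pre ((rot ^ (i + 1)) x) = (rot ^ i) x := by
  rw [pow_succ', Equiv.Perm.mul_apply]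
  exact pre_of_rot _

/-- **The step with numbers.** -/
theorem GS.stepF {J : P.Facet → Prop} {N N' : Nb P} {V : P.FSt → Prop} {Hi Ho : P.FSt → ℤ}
    {Op : P.FSt → Prop} (h : GS J N V Hi Ho Op) {t : P.FSt} (hkv : N.kv t) (hke : ¬ N.ke t)
    (hnew : ¬ N.kv t.rR) (e1 : ∀ s, N'.kv s ↔ N.kv s ∨ SC t.rR s)
    (e2 : ∀ s, N'.ke s ↔ N.ke s ∨ s = t ∨ s = t.stE.r2) (e3 : ∀ f, N'.kf f ↔ N.kf f)
    {a b : ℤ} (hT : J t.facet → Hi t = a + 1 ∧ -1 ≤ a ∧ a ≤ 1 ∧ (V t ↔ a ≠ 0))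
    (hB : J t.stE.facet → Ho t = b - 1 ∧ -1 ≤ b ∧ b ≤ 1 ∧ (V t.stE ↔ b ≠ 0))
    {n : ℕ} (hn : Val t.rR (n + 2)) {hi ho : ℕ → ℤ} {po : ℕ → Prop}
    (first : J t.facet → hi 0 = a)
    (mid : ∀ i, i < n → J ((rot ^ (i + 1)) t.rR).facet → hi (i + 1) = ho i + 1)
    (last : J t.stE.facet → ho n = b)
    (clo : ∀ i, i ≤ n → J ((rot ^ i) t.rR).facet → ¬ po i → hi i = ho i ∧ -1 ≤ ho i ∧ ho i ≤ 1 ∧
      (V ((rot ^ i) t.rR) ↔ ho i = 0))
    (aft : ∀ i, i ≤ n → J ((rot ^ (i + 1)) t.rR).facet → ¬ po i →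
      -1 ≤ ho i ∧ ho i ≤ 1 ∧ (V ((rot ^ (i + 1)) t.rR) ↔ ho i ≠ 0))
    (opn : ∀ i, i ≤ n → po i → J ((rot ^ i) t.rR).facet ∧ J ((rot ^ i) t.rR).stE.facet ∧
      -1 ≤ hi i - 1 ∧ hi i - 1 ≤ 1 ∧ -1 ≤ ho i + 1 ∧ ho i + 1 ≤ 1 ∧
      (V ((rot ^ i) t.rR) ↔ hi i - 1 ≠ 0) ∧ (V ((rot ^ i) t.rR).stE ↔ ho i + 1 ≠ 0)) :
    ∃ (Hi' Ho' : P.FSt → ℤ) (Op' : P.FSt → Prop), GS J N' V Hi' Ho' Op' ∧
      (∀ s, s ≠ t → ¬ SC t.rR s → Hi' s = Hi s ∧ Ho' s = Ho s ∧ (Op' s ↔ Op s)) ∧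
      (Hi' t = a ∧ Ho' t = a ∧ ¬ Op' t) ∧
      (∀ i, i ≤ n → Hi' ((rot ^ i) t.rR) = hi i ∧ Ho' ((rot ^ i) t.rR) = ho i ∧
        (Op' ((rot ^ i) t.rR) ↔ po i)) ∧
      (Hi' t.stE.r2 = b ∧ Ho' t.stE.r2 = b ∧ ¬ Op' t.stE.r2) := by
  classical
  have hNt : ¬ SC t.rR t := fun hc => hnew ((N.kv_SC hc).2 hkv)
  have hl := hn.last
  rw [show n + 2 - 1 = n + 1 by omega] at hl
  have hlne : ∀ i, i ≤ n → (rot ^ i) t.rR ≠ t.stE.r2 := by
    intro i hi1 hc
    have h1 := hn.idx_pow (i := i) (by omega)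
    have h2 := hn.idx_pow (i := n + 1) (by omega)
    rw [hl, ← hc, h1] at h2
    omega
  set Hi' : P.FSt → ℤ := fun s => if s = t then a else if s = t.stE.r2 then b
    else if SC t.rR s then hi (idx t.rR s) else Hi s with hHi
  set Ho' : P.FSt → ℤ := fun s => if s = t then a else if s = t.stE.r2 then b
    else if SC t.rR s then ho (idx t.rR s) else Ho s with hHo
  set Op' : P.FSt → Prop := fun s => if s = t then False else if s = t.stE.r2 then False
    else if SC t.rR s then po (idx t.rR s) else Op s with hOp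
  have hltne : t.stE.r2 ≠ t := by
    intro hc
    have h1 : t.stE.r2.facet = t.facet := by rw [hc]
    exact FSt.stE_facet_ne t h1
  have q1 : ∀ i, i ≤ n → Hi' ((rot ^ i) t.rR) = hi i ∧ Ho' ((rot ^ i) t.rR) = ho i ∧
        (Op' ((rot ^ i) t.rR) ↔ po i) := by
    intro i hi1
    have hS : SC t.rR ((rot ^ i) t.rR) := hn.SC_iff.2 ⟨i, by omega, rfl⟩
    have h1 : (rot ^ i) t.rR ≠ t := fun hc => hNt (by rw [hc] at hS; exact hS)
    have h2 := hlne i hi1
    have h3 := hn.idx_pow (i := i) (by omega)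
    refine ⟨?_, ?_, ?_⟩
    · simp only [hHi]; rw [if_neg h1, if_neg h2, if_pos hS, h3]
    · simp only [hHo]; rw [if_neg h1, if_neg h2, if_pos hS, h3]
    · simp only [hOp]; rw [if_neg h1, if_neg h2, if_pos hS, h3]
  have q2 : ∀ s, s ≠ t → ¬ SC t.rR s → Hi' s = Hi s ∧ Ho' s = Ho s ∧ (Op' s ↔ Op s) := by
    intro s h1 h2
    have h3 : s ≠ t.stE.r2 := fun hc => h2 (by rw [hc]; exact SC_rev t)
    refine ⟨?_, ?_, ?_⟩
    · simp only [hHi]; rw [if_neg h1, if_neg h3, if_neg h2]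
    · simp only [hHo]; rw [if_neg h1, if_neg h3, if_neg h2]
    · simp only [hOp]; rw [if_neg h1, if_neg h3, if_neg h2]
  have q3 : Hi' t = a ∧ Ho' t = a ∧ ¬ Op' t := by
    refine ⟨?_, ?_, ?_⟩
    · simp only [hHi]; rw [if_pos trivial]
    · simp only [hHo]; rw [if_pos trivial]
    · simp only [hOp]; rw [if_pos trivial]; exact id
  have q4 : Hi' t.stE.r2 = b ∧ Ho' t.stE.r2 = b ∧ ¬ Op' t.stE.r2 := by
    refine ⟨?_, ?_, ?_⟩
    · simp only [hHi]; rw [if_neg hltne, if_pos trivial]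
    · simp only [hHo]; rw [if_neg hltne, if_pos trivial]
    · simp only [hOp]; rw [if_neg hltne, if_pos trivial]; exact id
  refine ⟨Hi', Ho', Op', ?_, q2, q3, q1, q4⟩
  clear_value Hi' Ho' Op'
  -- numbers of the new darts
  have num : ∀ s, SC t.rR s → s ≠ t.stE.r2 → ∃ i, i ≤ n ∧ s = (rot ^ i) t.rR := by
    intro s hs hne
    obtain ⟨i, hi1, hi2⟩ := hn.SC_iff.1 hs
    refine ⟨i, ?_, hi2⟩
    by_contra hc
    have : i = n + 1 := by omega
    rw [this, hl] at hi2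
    exact hne hi2
  refine h.step hkv hke hnew e1 e2 e3 hT hB q2 ⟨q3.1, q3.2.1⟩ q3.2.2 ⟨q4.1, q4.2.1⟩ q4.2.2
    ?_ ?_ ?_ ?_ ?_ ?_
  · intro hJ
    have := (q1 0 (by omega)).1
    rw [first hJ] at this
    exact this
  · intro s hs hne hne2 hJ
    obtain ⟨i, hi1, rfl⟩ := num s hs hne2
    rcases i with _ | i
    · exact absurd rfl hne
    · rw [(q1 (i + 1) hi1).1, pre_pow, (q1 i (by omega)).2.1]
      exact mid i (by omega) hJ
  · intro hJ
    rw [← hl, pre_pow, (q1 n le_rfl).2.1]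
    exact last hJ
  · intro s hs hne hJ ho1
    obtain ⟨i, hi1, rfl⟩ := num s hs hne
    rw [(q1 i hi1).2.2] at ho1
    rw [(q1 i hi1).1, (q1 i hi1).2.1]
    exact clo i hi1 hJ ho1
  · intro s hs hne hJ ho1
    obtain ⟨i, hi1, rfl⟩ := hn.SC_iff.1 hs
    rcases i with _ | i
    · exact absurd rfl hne
    · rw [pre_pow] at ho1 ⊢
      rw [(q1 i (by omega)).2.2] at ho1
      rw [(q1 i (by omega)).2.1]
      exact aft i (by omega) hJ ho1
  · intro s hs ho1
    have hne : s ≠ t.stE.r2 := fun hc => q4.2.2 (by rw [hc] at ho1; exact ho1)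
    refine ⟨hne, ?_⟩
    obtain ⟨i, hi1, rfl⟩ := num s hs hne
    rw [(q1 i hi1).2.2] at ho1
    rw [(q1 i hi1).1, (q1 i hi1).2.1]
    exact opn i hi1 ho1

/-! ## The connectivity -/

/-- a step keeps one curve -/
theorem Nb.one_step {N N' : Nb P} (h : ∀ s t, N.Dt s → N.Dt t → N.E s t) {t : P.FSt}
    (hkv : N.kv t) (hnew : ¬ N.kv t.rR) (e1 : ∀ s, N'.kv s ↔ N.kv s ∨ SC t.rR s)
    (e2 : ∀ s, N'.ke s ↔ N.ke s ∨ s = t ∨ s = t.stE.r2) (e3 : ∀ f, N'.kf f ↔ N.kf f) :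
    ∀ s u, N'.Dt s → N'.Dt u → N'.E s u := by
  classical
  have nkv : ∀ {s}, SC t.rR s → ¬ N.kv s := fun {s} hs hk => hnew ((N.kv_SC hs).2 hk)
  have nSC : ∀ {s}, N.kv s → ¬ SC t.rR s := fun {s} hk hs => nkv hs hk
  have hNt : ¬ SC t.rR t := nSC hkv
  have hl' : SC t.rR t.stE.r2 := SC_rev t
  have nkf : ∀ {s : P.FSt}, SC t.rR s → ¬ N.kf s.facet :=
    fun {s} hs hk => nkv hs (N.ke_kv s (N.kf_ke s hk))
  have kfT : ¬ N.kf t.facet := nkf (s := t.rR) (SC_rot_right _ _ |>.1 (by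
    rw [SC_rot_right]; exact Equiv.Perm.SameCycle.refl _ _))
  -- the rank
  have hrk : N'.Rk (fun s => if SC t.rR s then 1 else 0) := by
    constructor
    · intro s _
      simp only [SC_rot_right]
    · intro s hs
      rw [e3] at hs
      have h1 : ¬ SC t.rR s := fun hc => nkf hc hs
      have h2 : ¬ SC t.rR s.rR := fun hc => nkf hc hs
      simp only [if_neg h1, if_neg h2]
    · intro s u hs hu h1 h2 h3
      have key : ∀ s, N'.ke s → (if SC t.rR s.rR then 1 else 0) < (if SC t.rR s then 1 else 0) →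
          s = t.stE.r2 := by
        intro s hs h1
        have h4 : SC t.rR s := by
          by_contra hc
          rw [if_neg hc] at h1
          omega
        rcases (e2 s).1 hs with hk | hk | hk
        · exact absurd (N.ke_kv s hk) (nkv h4)
        · rw [hk] at h4; exact absurd h4 hNt
        · exact hk
      rw [key s hs h1, key u hu h2]
  -- all darts have the value of `t`
  have hDt : N.Dt t := ⟨hkv, kfT⟩
  have key : ∀ cv, N'.Inv cv → ∀ s, N'.Dt s → (cv t ↔ cv s) := by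
    intro cv hc s hs
    have hI : N.Inv cv := Nb.grow hc hrk (fun s hk => (e1 s).2 (Or.inl hk))
      (fun s hk => (e2 s).2 (Or.inl hk)) (fun s _ hk => (e3 _).1 hk) (by
        intro s h1 h2 h3
        rcases (e2 s).1 h3 with hk | hk | hk
        · exact absurd hk h2
        · subst hk
          simp only [if_neg (nSC h1), if_pos (show SC s.rR s.rR from
            Equiv.Perm.SameCycle.refl _ _)]
          omega
        · rw [hk] at h1; exact absurd h1 (nkv hl'))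
    by_cases hsN : SC t.rR s
    · -- a new dart
      have hke' : N'.ke t := (e2 t).2 (Or.inr (Or.inl rfl))
      have h1 := hc.e t (by rw [e3]; exact kfT) hke'
      refine h1.trans ?_
      refine Nb.vertex hc (s := t.rR) ⟨(e1 _).2 (Or.inr (Equiv.Perm.SameCycle.refl _ _)),
        by rw [e3]; exact kfT⟩ ?_ ?_ hsN hs.2
      · intro u hu hk _ _
        refine hrk.bridge hc hk ?_
        have hu' : SC t.rR u := hu
        rcases (e2 u).1 hk with hk' | hk' | hk'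
        · exact absurd (N.ke_kv u hk') (nkv hu')
        · rw [hk'] at hu'; exact absurd hu' hNt
        · subst hk'
          have h5 : N.kv t.stE.r2.rR := by
            rw [FSt.r2_rR]; exact (N.kv_rot t).2 hkv
          simp only [if_pos hl', if_neg (nSC h5)]
          omega
      · intro x y hx _ hf _ _ _
        rw [e3] at hf
        exact absurd hf (nkf hx)
    · have hsk : N.kv s := by
        rcases (e1 s).1 hs.1 with hk | hk
        · exact hk
        · exact absurd hk hsN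
      exact h t s hDt ⟨hsk, fun hk => hs.2 ((e3 _).2 hk)⟩ cv hI
  intro s u hs hu cv hc
  exact (key cv hc s hs).symm.trans (key cv hc u hu)

end Pool.Agent.MP42K
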