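import Pool.Agent.MP42.K.Port2

/-!
# Growth by one edge: steps of a state `Gr`

`Gr R J N V lin lout L`: the state of the growth of a junction: subcomplex `N`, lines `V`, labels
`lin`, `lout` of the rims, list `L` of open ports `(t, a, b)`.
-/

set_option autoImplicit false
set_option linter.unusedSectionVars false

namespace Pool.Agent.MP42K

open Pool.Agent.Helper55.UNF Pool.Agent.Helper55.UNF.GridSolid Pool.Agent.MP42G
open Pool.Agent.MP42H Pool.Agent.MP42X Pool.Agent.MP42R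
open Core1 (jf)
open Nb (SC SC_rot_right SC_rot_left SC_rev rev_rot rot)

variable {P : GridSolid}

/-- the heading of a letter -/
def Hof : Ln → ℤ
  | Ln.n => 1
  | Ln.s => -1
  | Ln.z => 0

lemma Lof_Hof (l : Ln) : Lof (Hof l) = l := by cases l <;> rfl

lemma Hof_Lof {h : ℤ} (h1 : -1 ≤ h) (h2 : h ≤ 1) : Hof (Lof h) = h := by
  have : h = -1 ∨ h = 0 ∨ h = 1 := by omega
  rcases this with rfl | rfl | rfl <;> rfl

/-- `N'` is `N` with the edges `T`; the edges are directed away from `N` (from the north-east to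
the south-east corner), `N'` has the far ends as new vertices. -/
structure Adds (N N' : Nb P) (T : P.FSt → Prop) : Prop where
  kv : ∀ s, N'.kv s ↔ N.kv s ∨ ∃ t, T t ∧ SC t.rR s
  ke : ∀ s, N'.ke s ↔ N.ke s ∨ ∃ t, T t ∧ (s = t ∨ s = t.stE.r2)
  kf : ∀ f, N'.kf f ↔ N.kf f

lemma Adds.refl (N : Nb P) : Adds N N (fun _ => False) :=
  ⟨fun s => by simp, fun s => by simp, fun f => Iff.rfl⟩

lemma Adds.trans {N N' N'' : Nb P} {T T' : P.FSt → Prop} (h : Adds N N' T)
    (h' : Adds N' N'' T') : Adds N N'' (fun t => T t ∨ T' t) := by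
  constructor
  · intro s
    rw [h'.kv, h.kv, or_assoc]
    refine or_congr_right ?_
    constructor
    · rintro (⟨t, h1, h2⟩ | ⟨t, h1, h2⟩)
      · exact ⟨t, Or.inl h1, h2⟩
      · exact ⟨t, Or.inr h1, h2⟩
    · rintro ⟨t, h1 | h1, h2⟩
      · exact Or.inl ⟨t, h1, h2⟩
      · exact Or.inr ⟨t, h1, h2⟩
  · intro s
    rw [h'.ke, h.ke, or_assoc]
    refine or_congr_right ?_
    constructor
    · rintro (⟨t, h1, h2⟩ | ⟨t, h1, h2⟩)
      · exact ⟨t, Or.inl h1, h2⟩
      · exact ⟨t, Or.inr h1, h2⟩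
    · rintro ⟨t, h1 | h1, h2⟩
      · exact Or.inl ⟨t, h1, h2⟩
      · exact Or.inr ⟨t, h1, h2⟩
  · intro f
    rw [h'.kf, h.kf]

lemma Adds.congr {N N' : Nb P} {T T' : P.FSt → Prop} (h : Adds N N' T)
    (hT : ∀ t, T t ↔ T' t) : Adds N N' T' := by
  have : T = T' := by funext t; exact propext (hT t)
  rwa [← this]

lemma adds_addE {N : Nb P} {T : P.FSt → Prop}
    (hT : ∀ t, T t → N.kv t ∨ ∃ u, T u ∧ SC u.rR t) : Adds N (N.addE T) T := by
  constructor
  · intro s
    constructor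
    · rintro (h | ⟨t, ht, h | h⟩)
      · exact Or.inl h
      · rcases hT t ht with h1 | ⟨u, hu, h1⟩
        · exact Or.inl ((N.kv_SC h).1 h1)
        · exact Or.inr ⟨u, hu, Equiv.Perm.SameCycle.trans h1 h⟩
      · exact Or.inr ⟨t, ht, h⟩
    · rintro (h | ⟨t, ht, h⟩)
      · exact Or.inl h
      · exact Or.inr ⟨t, ht, Or.inr h⟩
  · intro s
    exact Iff.rfl
  · intro f
    exact Iff.rfl

lemma adds_one {N : Nb P} {t : P.FSt} (h : N.kv t) :
    Adds N (N.addE (fun s => s = t)) (fun s => s = t) :=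
  adds_addE (fun s hs => Or.inl (by rw [hs]; exact h))

lemma Adds.one1 {N N' : Nb P} {t : P.FSt} (h : Adds N N' (fun s => s = t)) (s : P.FSt) :
    N'.kv s ↔ N.kv s ∨ SC t.rR s := by
  rw [h.kv]; simp

lemma Adds.one2 {N N' : Nb P} {t : P.FSt} (h : Adds N N' (fun s => s = t)) (s : P.FSt) :
    N'.ke s ↔ N.ke s ∨ s = t ∨ s = t.stE.r2 := by
  rw [h.ke]; simp

/-- The state of the growth. -/
structure Gr (R : Core1 P) (J : P.Facet → Prop) (N : Nb P) (V : P.FSt → Prop)
    (lin lout : P.FSt → Ln) (L : List (P.FSt × ℤ × ℤ)) : Prop where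
  nd : (L.map Prod.fst).Nodup
  ex : ∃ Hi Ho : P.FSt → ℤ, GS J N V Hi Ho (fun t => t ∈ L.map Prod.fst) ∧
    (∀ p ∈ L, Hi p.1 = p.2.1 + 1 ∧ Ho p.1 = p.2.2 - 1) ∧
    (∀ r, R.Rim r → J (jf r) → St N.kv N.ke r → Ho (pN.symm r).rL = Hof (lin r)) ∧
    (∀ r, R.Rim r → J (jf r) → En N.kv N.ke r → Ho (pre (pN.symm r)) = Hof (lout r))
  one : ∀ s t, N.Dt s → N.Dt t → N.E s t
  lE : ∀ r, R.Rim r → J (jf r) → lin r.stE = lin r ∧ lout r.stE = lout r

section

variable {R : Core1 P} {J : P.Facet → Prop} {N N' : Nb P} {V : P.FSt → Prop}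
  {lin lout : P.FSt → Ln} {L : List (P.FSt × ℤ × ℤ)}

lemma Gr.V_rR (h : Gr R J N V lin lout L) (s : P.FSt) (hs : J s.facet) : V s.rR ↔ ¬ V s := by
  obtain ⟨Hi, Ho, h1, -⟩ := h.ex
  exact h1.V_rR s hs

lemma Gr.port {t : P.FSt} {a b : ℤ} (h : Gr R J N V lin lout ((t, a, b) :: L)) :
    Port J N V t a b := by
  obtain ⟨Hi, Ho, h1, h2, -⟩ := h.ex
  have h3 := h1.op t (by simp)
  have h4 := h2 (t, a, b) (by simp)
  have e1 : Hi t - 1 = a := by have := h4.1; simp only at this; omega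
  have e2 : Ho t + 1 = b := by have := h4.2; simp only at this; omega
  rwa [e1, e2] at h3

/-- the order of the ports does not matter -/
lemma Gr.perm {L' : List (P.FSt × ℤ × ℤ)} (h : Gr R J N V lin lout L) (hp : L.Perm L') :
    Gr R J N V lin lout L' := by
  obtain ⟨Hi, Ho, h1, h2, h3, h4⟩ := h.ex
  refine ⟨(hp.map Prod.fst).nodup_iff.1 h.nd, ⟨Hi, Ho, ?_, ?_, h3, h4⟩, h.one, h.lE⟩
  · have e : (fun t => t ∈ L'.map Prod.fst) = (fun t : P.FSt => t ∈ L.map Prod.fst) := by
      funext t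
      exact propext (hp.map Prod.fst).mem_iff.symm
    rw [e]; exact h1
  · intro p hp'
    exact h2 p (hp.mem_iff.2 hp')

/-- a closed crossing dart with heading `0` is a port -/
theorem Gr.opn {t : P.FSt} (h : Gr R J N V lin lout L) (hk : N.kv t) (he : ¬ N.ke t)
    (hJ : J t.facet) (hJE : J t.stE.facet) (hV : V t) (hL : t ∉ L.map Prod.fst) :
    Gr R J N V lin lout ((t, -1, 1) :: L) := by
  obtain ⟨Hi, Ho, h1, h2, h3, h4⟩ := h.ex
  have hO : Ho t = 0 := (h1.vx t hJ hk he hL).1 hV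
  have hI : Hi t = Ho t := h1.io t hJ (Nb.nkf_of_nke he) hk hL
  have hu : N.kv t.stE.rL := (N.kv_rot t).2 hk
  have hue : ¬ N.ke t.stE.rL.rL := by
    rw [FSt.rL_rL]; exact fun hc => he ((N.ke_rev t).1 hc)
  have hVE : V t.stE := by
    have h5 := h1.vx' t.stE.rL hJE hu hue (by rw [pre_of_rot]; exact hL)
    rw [pre_of_rot, hO] at h5
    have h6 := V_rL h1.V_rR hJE
    by_contra hc
    exact (h5.1 (h6.2 hc)) rfl
  have mem : ∀ s, s ∉ ((t, (-1 : ℤ), (1 : ℤ)) :: L).map Prod.fst → s ∉ L.map Prod.fst := by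
    intro s hs hc
    exact hs (by rw [List.map_cons]; exact List.mem_cons_of_mem _ hc)
  refine ⟨?_, ⟨Hi, Ho, ?_, ?_, h3, h4⟩, h.one, h.lE⟩
  · rw [List.map_cons]; exact List.nodup_cons.2 ⟨hL, h.nd⟩
  · exact
      { V_rR := h1.V_rR
        r1 := h1.r1
        r2 := h1.r2
        r3 := h1.r3
        r4 := h1.r4
        io := fun s a b c d => h1.io s a b c (mem s d)
        hb := fun s a b c d => h1.hb s a b c (mem s d)
        hb' := fun s a b c d => h1.hb' s a b c (mem _ d)
        vr := h1.vr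
        vx := fun s a b c d => h1.vx s a b c (mem s d)
        vx' := fun s a b c d => h1.vx' s a b c (mem _ d)
        op := fun s hs => by
          rw [List.map_cons] at hs
          rcases List.mem_cons.1 hs with rfl | hs
          · rw [hI, hO]
            exact ⟨hk, he, hJ, hJE, by omega, by omega, by omega, by omega,
              iff_of_true hV (by omega), iff_of_true hVE (by omega)⟩
          · exact h1.op s hs }
  · intro p hp
    rcases List.mem_cons.1 hp with rfl | hp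
    · rw [hI, hO]; constructor <;> norm_num
    · exact h2 p hp

/-- a port `(-1, 1)` can be closed -/
theorem Gr.cls {t : P.FSt} (h : Gr R J N V lin lout ((t, -1, 1) :: L)) :
    Gr R J N V lin lout L := by
  have hp := h.port
  have hnd := h.nd
  rw [List.map_cons, List.nodup_cons] at hnd
  obtain ⟨Hi, Ho, h1, h2, h3, h4⟩ := h.ex
  have h5 := h2 (t, -1, 1) (by simp)
  have e1 : Hi t = 0 := by have := h5.1; simp only at this; omega
  have e2 : Ho t = 0 := by have := h5.2; simp only at this; omega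
  have hVt : V t := hp.Va.2 (by omega)
  have hVE : V t.stE := hp.Vb.2 (by omega)
  have mem : ∀ s, s ≠ t → s ∉ L.map Prod.fst →
      s ∉ ((t, (-1 : ℤ), (1 : ℤ)) :: L).map Prod.fst := by
    intro s hs hs2 hc
    rw [List.map_cons] at hc
    rcases List.mem_cons.1 hc with h6 | h6
    · exact hs h6
    · exact hs2 h6
  refine ⟨hnd.2, ⟨Hi, Ho, ?_, fun p hp => h2 p (List.mem_cons_of_mem _ hp), h3, h4⟩, h.one,
    h.lE⟩
  exact
    { V_rR := h1.V_rR
      r1 := h1.r1
      r2 := h1.r2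
      r3 := h1.r3
      r4 := h1.r4
      io := fun s a b c d => by
        by_cases hst : s = t
        · subst hst; rw [e1, e2]
        · exact h1.io s a b c (mem s hst d)
      hb := fun s a b c d => by
        by_cases hst : s = t
        · subst hst; rw [e2]; constructor <;> norm_num
        · exact h1.hb s a b c (mem s hst d)
      hb' := fun s a b c d => by
        by_cases hst : pre s = t
        · rw [hst, e2]; constructor <;> norm_num
        · exact h1.hb' s a b c (mem _ hst d)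
      vr := h1.vr
      vx := fun s a b c d => by
        by_cases hst : s = t
        · subst hst; rw [e2]; exact iff_of_true hVt rfl
        · exact h1.vx s a b c (mem s hst d)
      vx' := fun s a b c d => by
        by_cases hst : pre s = t
        · rw [hst, e2]
          have hs : s = t.stE.rL := by rw [← hst, pre_rot]
          refine iff_of_false ?_ (by simp)
          rw [hs]
          have h6 := V_rL h1.V_rR hp.JE
          exact fun hc => (h6.1 hc) hVE
        · exact h1.vx' s a b c (mem _ hst d)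
      op := fun s hs => h1.op s (by rw [List.map_cons]; exact List.mem_cons_of_mem _ hs) }

/-! ## Labels -/

lemma lab_in {Ho Ho' : P.FSt → ℤ} {t r : P.FSt} (hA : Adds N N' (fun s => s = t))
    (old : ∀ s, s ≠ t → ¬ SC t.rR s → Ho' s = Ho s)
    (hS : St N'.kv N'.ke r) (hn : ¬ SC t.rR (pN.symm r).rL) :
    St N.kv N.ke r ∧ Ho' (pN.symm r).rL = Ho (pN.symm r).rL := by
  obtain ⟨h1, h2⟩ := hS
  rw [hA.one1] at h1
  rw [hA.one2] at h2
  push Not at h2
  refine ⟨⟨h1.resolve_right hn, h2.1⟩, old _ h2.2.1 hn⟩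

lemma lab_out {Ho Ho' : P.FSt → ℤ} {t r : P.FSt} (hA : Adds N N' (fun s => s = t))
    (old : ∀ s, s ≠ t → ¬ SC t.rR s → Ho' s = Ho s)
    (hS : En N'.kv N'.ke r) (hn : ¬ SC t.rR (pN.symm r)) :
    En N.kv N.ke r ∧ Ho' (pre (pN.symm r)) = Ho (pre (pN.symm r)) := by
  obtain ⟨h1, h2⟩ := hS
  rw [hA.one1] at h1
  rw [hA.one2] at h2
  push Not at h2
  refine ⟨⟨h1.resolve_right hn, h2.1⟩, old _ ?_ (by rw [SC_pre]; exact hn)⟩
  intro hc
  apply h2.2.2
  rw [← hc]
  show _ = (pN.symm r).rL.stE.r2.stE.r2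
  rw [FSt.stE_inv, FSt.r2_r2]

lemma symm_rL_stE (r : P.FSt) : (pN.symm r).rL.stE = r.rL := by
  have h1 : (pN.symm r).rL.stE.rR = r := pN.apply_symm_apply r
  have h2 := congrArg FSt.rL h1
  rwa [FSt.rR_rL] at h2

/-- no rim dart at a vertex in the interior of `J` -/
lemma no_rim (hJ0 : ∀ f, J f → ¬ R.core f) {x r : P.FSt} (hJ : ∀ s, SC x s → J s.facet)
    (hr : R.Rim r) : ¬ SC x (pN.symm r).rL ∧ ¬ SC x (pN.symm r) := by
  have key : ¬ SC x (pN.symm r).rL := by
    intro hc
    have h1 := hJ (pN.symm r).rL.stE.rL ((SC_rot_right _ _).2 hc)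
    rw [symm_rL_stE] at h1
    exact hJ0 _ h1 hr.2
  refine ⟨key, ?_⟩
  intro hc
  have h1 := hJ (pre (pN.symm r)) ((SC_pre _ _).2 hc)
  have h2 : (pre (pN.symm r)).facet = r.facet := by
    show (pN.symm r).rL.stE.r2.facet = _
    rw [symm_rL_stE]; rfl
  rw [h2] at h1
  exact hJ0 _ h1 hr.2

/-! ## Steps in the interior -/

/-- **One step of a port, general form**: new ports `K` at the new vertex. -/
theorem Gr.stepG (hJ0 : ∀ f, J f → ¬ R.core f) {t : P.FSt} {a b : ℤ}
    (h : Gr R J N V lin lout ((t, a, b) :: L)) (hA : Adds N N' (fun s => s = t))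
    (hnew : ¬ N.kv t.rR) {n : ℕ} (hn : Val t.rR (n + 2)) (hJ : ∀ s, SC t.rR s → J s.facet)
    {hi ho : ℕ → ℤ} (K : List (ℕ × ℤ × ℤ)) (hKn : (K.map Prod.fst).Nodup)
    (hK : ∀ p ∈ K, p.1 ≤ n ∧ hi p.1 = p.2.1 + 1 ∧ ho p.1 = p.2.2 - 1 ∧ -1 ≤ p.2.1 ∧
      p.2.1 ≤ 1 ∧ -1 ≤ p.2.2 ∧ p.2.2 ≤ 1 ∧ (V ((rot ^ p.1) t.rR) ↔ p.2.1 ≠ 0) ∧
      (V ((rot ^ p.1) t.rR).stE ↔ p.2.2 ≠ 0))
    (first : hi 0 = a) (mid : ∀ i, i < n → hi (i + 1) = ho i + 1) (last : ho n = b)
    (clo : ∀ i, i ≤ n → i ∉ K.map Prod.fst → hi i = ho i ∧ -1 ≤ ho i ∧ ho i ≤ 1 ∧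
      (V ((rot ^ i) t.rR) ↔ ho i = 0) ∧ (V ((rot ^ (i + 1)) t.rR) ↔ ho i ≠ 0)) :
    Gr R J N' V lin lout (K.map (fun p => ((rot ^ p.1) t.rR, p.2)) ++ L) := by
  have hp := h.port
  have hnd := h.nd
  rw [List.map_cons, List.nodup_cons] at hnd
  obtain ⟨Hi, Ho, h1, h2, h3, h4⟩ := h.ex
  have h5 := h2 (t, a, b) (by simp)
  simp only at h5
  have hJi : ∀ i, J ((rot ^ i) t.rR).facet := fun i =>
    hJ _ (Equiv.Perm.sameCycle_pow_right.2 (Equiv.Perm.SameCycle.refl _ _))
  have hJE : ∀ i, J ((rot ^ i) t.rR).stE.facet := by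
    intro i
    have := hJi (i + 1)
    rw [pow_succ', Equiv.Perm.mul_apply] at this
    exact this
  obtain ⟨Hi', Ho', Op', g1, g2, g3, g4, g5⟩ := h1.stepF (N' := N') hp.kv hp.ke hnew hA.one1
    hA.one2 hA.kf (a := a) (b := b) (fun _ => ⟨h5.1, hp.a1, hp.a2, hp.Va⟩)
    (fun _ => ⟨h5.2, hp.b1, hp.b2, hp.Vb⟩) (n := n) hn (hi := hi) (ho := ho)
    (po := fun i => i ∈ K.map Prod.fst) (fun _ => first) (fun i hi1 _ => mid i hi1)
    (fun _ => last) (fun i hi1 _ hi2 => ⟨(clo i hi1 hi2).1, (clo i hi1 hi2).2.1,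
      (clo i hi1 hi2).2.2.1, (clo i hi1 hi2).2.2.2.1⟩)
    (fun i hi1 _ hi2 => ⟨(clo i hi1 hi2).2.1, (clo i hi1 hi2).2.2.1,
      (clo i hi1 hi2).2.2.2.2⟩)
    (fun i hi1 hi2 => by
      obtain ⟨p, hp1, rfl⟩ := List.mem_map.1 hi2
      obtain ⟨-, k1, k2, k3, k4, k5, k6, k7, k8⟩ := hK p hp1
      refine ⟨hJi _, hJE _, ?_, ?_, ?_, ?_, ?_, ?_⟩
      · rw [k1]; omega
      · rw [k1]; omega
      · rw [k2]; omega
      · rw [k2]; omega
      · rw [k7, k1]; simp
      · rw [k8, k2]; simp)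
  have hkvt : ∀ s, s ∈ L.map Prod.fst → N.kv s := by
    intro s hs
    exact (h1.op s (by rw [List.map_cons]; exact List.mem_cons_of_mem _ hs)).kv
  have hLn : ∀ s, s ∈ L.map Prod.fst → ¬ SC t.rR s := fun s hs hc =>
    hnew ((N.kv_SC hc).2 (hkvt s hs))
  have hLt : ∀ s, s ∈ L.map Prod.fst → s ≠ t := fun s hs hc => hnd.1 (hc ▸ hs)
  have hSi : ∀ i, SC t.rR ((rot ^ i) t.rR) := fun i =>
    Equiv.Perm.sameCycle_pow_right.2 (Equiv.Perm.SameCycle.refl _ _)
  have hmapK : (K.map (fun p => ((rot ^ p.1) t.rR, p.2))).map Prod.fst =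
      (K.map Prod.fst).map (fun i => (rot ^ i) t.rR) := by
    rw [List.map_map, List.map_map]; rfl
  have hOp : Op' = fun s => s ∈ (K.map (fun p => ((rot ^ p.1) t.rR, p.2)) ++ L).map Prod.fst := by
    funext s
    apply propext
    rw [List.map_append, List.mem_append, hmapK]
    by_cases hs : SC t.rR s
    · by_cases hsl : s = t.stE.r2
      · subst hsl
        refine iff_of_false g5.2.2 ?_
        rintro (hc | hc)
        · obtain ⟨i, hi1, hi2⟩ := List.mem_map.1 hc
          obtain ⟨p, hp1, rfl⟩ := List.mem_map.1 hi1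
          have h6 := hn.idx_pow (i := p.1) (by have := (hK p hp1).1; omega)
          have h7 := hn.idx_pow (i := n + 1) (by omega)
          have h8 := hn.last
          rw [show n + 2 - 1 = n + 1 by omega] at h8
          rw [h8, ← hi2, h6] at h7
          have := (hK p hp1).1
          omega
        · exact hLn _ hc hs
      · obtain ⟨i, hi1, rfl⟩ := hn.SC_iff.1 hs
        have hin : i ≤ n := by
          by_contra hc
          have : i = n + 1 := by omega
          rw [this] at hsl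
          have h8 := hn.last
          rw [show n + 2 - 1 = n + 1 by omega] at h8
          exact hsl h8
        rw [(g4 i hin).2.2]
        constructor
        · intro hc
          exact Or.inl (List.mem_map_of_mem hc)
        · rintro (hc | hc)
          · obtain ⟨j, hj1, hj2⟩ := List.mem_map.1 hc
            obtain ⟨p, hp1, rfl⟩ := List.mem_map.1 hj1
            have h6 := hn.idx_pow (i := p.1) (by have := (hK p hp1).1; omega)
            have h7 := hn.idx_pow (i := i) hi1
            rw [← hj2, h6] at h7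
            rw [← h7]; exact hj1
          · exact absurd hs (hLn _ hc)
    · by_cases hst : s = t
      · subst hst
        refine iff_of_false g3.2.2 ?_
        rintro (hc | hc)
        · obtain ⟨i, hi1, hi2⟩ := List.mem_map.1 hc
          have h6 := hSi i
          rw [show (rot ^ i) s.rR = s from hi2] at h6
          exact hs h6
        · exact hnd.1 hc
      · rw [(g2 s hst hs).2.2, List.map_cons, List.mem_cons]
        constructor
        · rintro (hc | hc)
          · exact absurd hc hst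
          · exact Or.inr hc
        · rintro (hc | hc)
          · obtain ⟨i, hi1, hi2⟩ := List.mem_map.1 hc
            exact absurd (hi2 ▸ hSi i) hs
          · exact Or.inr hc
  refine ⟨?_, ⟨Hi', Ho', by rw [← hOp]; exact g1, ?_, ?_, ?_⟩,
    Nb.one_step h.one hp.kv hnew hA.one1 hA.one2 hA.kf, h.lE⟩
  · rw [List.map_append, hmapK, List.nodup_append]
    refine ⟨?_, hnd.2, ?_⟩
    · refine List.Nodup.map_on ?_ hKn
      intro i hi1 j hj1 hij
      obtain ⟨p, hp1, rfl⟩ := List.mem_map.1 hi1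
      obtain ⟨q, hq1, rfl⟩ := List.mem_map.1 hj1
      have h6 := hn.idx_pow (i := p.1) (by have := (hK p hp1).1; omega)
      have h7 := hn.idx_pow (i := q.1) (by have := (hK q hq1).1; omega)
      rw [hij, h7] at h6
      exact h6.symm
    · intro s hs u hu hsu
      subst hsu
      obtain ⟨i, hi1, hi2⟩ := List.mem_map.1 hs
      exact hLn s hu (hi2 ▸ hSi i)
  · intro p hp1
    rcases List.mem_append.1 hp1 with hp2 | hp2
    · obtain ⟨q, hq1, rfl⟩ := List.mem_map.1 hp2
      obtain ⟨k0, k1, k2, -⟩ := hK q hq1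
      show Hi' ((rot ^ q.1) t.rR) = _ ∧ Ho' ((rot ^ q.1) t.rR) = _
      rw [(g4 q.1 k0).1, (g4 q.1 k0).2.1]
      exact ⟨k1, k2⟩
    · have hm : p.1 ∈ L.map Prod.fst := List.mem_map_of_mem hp2
      rw [(g2 p.1 (hLt _ hm) (hLn _ hm)).1, (g2 p.1 (hLt _ hm) (hLn _ hm)).2.1]
      exact h2 p (List.mem_cons_of_mem _ hp2)
  · intro r hr hJr hS
    obtain ⟨k1, k2⟩ := lab_in hA (fun s hs hs2 => (g2 s hs hs2).2.1) hS (no_rim hJ0 hJ hr).1
    rw [k2]; exact h3 r hr hJr k1
  · intro r hr hJr hS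
    obtain ⟨k1, k2⟩ := lab_out hA (fun s hs hs2 => (g2 s hs hs2).2.1) hS (no_rim hJ0 hJ hr).2
    rw [k2]; exact h4 r hr hJr k1

/-- the lines at the first and at the last new dart -/
lemma Gr.V_ends {t : P.FSt} {a b : ℤ} (h : Gr R J N V lin lout ((t, a, b) :: L)) :
    (V t.rR ↔ a = 0) ∧ (V t.stE.r2 ↔ b ≠ 0) := by
  have hp := h.port
  constructor
  · rw [h.V_rR t hp.Jt, hp.Va]; simp
  · have h1 : V t.stE.r2 ↔ V t.stE := V_r2 h.V_rR hp.JE
    rw [h1, hp.Vb]

/-- **One step: the port moves to the new vertex**, over `j + 1` facets on the side of `t.facet`. -/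
theorem Gr.step (hJ0 : ∀ f, J f → ¬ R.core f) {t : P.FSt} {a b : ℤ}
    (h : Gr R J N V lin lout ((t, a, b) :: L)) (hA : Adds N N' (fun s => s = t))
    (hnew : ¬ N.kv t.rR) {n : ℕ} (hn : Val t.rR (n + 2)) (hJ : ∀ s, SC t.rR s → J s.facet)
    {j : ℕ} (hj : j ≤ n) {a' b' : ℤ} (ea : a' = a + j - 1) (eb : b' = b - (n - j) + 1)
    (ha1 : -1 ≤ a') (ha2 : a' ≤ 1) (hb1 : -1 ≤ b') (hb2 : b' ≤ 1)
    (V1 : ∀ i : ℕ, 1 ≤ i → i < j → (V ((rot ^ i) t.rR) ↔ a + i = 0))
    (V2 : 1 ≤ j → (V ((rot ^ j) t.rR) ↔ a' ≠ 0))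
    (V3 : ∀ i : ℕ, j < i → i ≤ n → (V ((rot ^ i) t.rR) ↔ b - (n - i) = 0)) :
    Gr R J N' V lin lout (((rot ^ j) t.rR, a', b') :: L) := by
  have hp := h.port
  obtain ⟨hV0, hVl⟩ := h.V_ends
  have hl := hn.last
  rw [show n + 2 - 1 = n + 1 by omega] at hl
  rw [← hl] at hVl
  have hV0' : V ((rot ^ 0) t.rR) ↔ a = 0 := hV0
  have hpa1 := hp.a1
  have hpa2 := hp.a2
  have hpb1 := hp.b1
  have hpb2 := hp.b2
  have hJi : ∀ i, J ((rot ^ i) t.rR).facet := fun i =>
    hJ _ (Equiv.Perm.sameCycle_pow_right.2 (Equiv.Perm.SameCycle.refl _ _))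
  -- the lines at all new darts
  have W1 : ∀ i : ℕ, i < j → (V ((rot ^ i) t.rR) ↔ a + i = 0) := by
    intro i hij
    rcases i with _ | i
    · rw [hV0']; simp
    · exact V1 (i + 1) (by omega) hij
  have W2 : V ((rot ^ j) t.rR) ↔ a' ≠ 0 := by
    rcases Nat.eq_zero_or_pos j with h0 | h0
    · subst h0
      rw [hV0']
      push_cast at ea
      omega
    · exact V2 h0
  have W3 : ∀ i : ℕ, j < i → i ≤ n → (V ((rot ^ i) t.rR) ↔ b - (n - i) = 0) := V3
  have e : (K : ℕ × ℤ × ℤ) → True := fun _ => trivial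
  have key := h.stepG hJ0 hA hnew hn hJ
    (hi := fun i => if i ≤ j then a + i else b - (n - i))
    (ho := fun i => if i < j then a + i else b - (n - i)) [(j, a', b')] (by simp) ?_ ?_ ?_ ?_ ?_
  · exact key
  · intro p hp'
    rw [List.mem_singleton] at hp'
    subst hp'
    refine ⟨hj, ?_, ?_, ha1, ha2, hb1, hb2, W2, ?_⟩
    · show (if j ≤ j then a + (j : ℤ) else b - (n - j)) = a' + 1
      rw [if_pos le_rfl]; omega
    · show (if j < j then a + (j : ℤ) else b - (n - j)) = b' - 1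
      rw [if_neg (lt_irrefl _)]; omega
    · show V ((rot ^ j) t.rR).stE ↔ b' ≠ 0
      have h1 : V ((rot ^ (j + 1)) t.rR) ↔ ¬ V ((rot ^ j) t.rR).stE := by
        have h2 : (rot ^ (j + 1)) t.rR = ((rot ^ j) t.rR).stE.rL := by
          rw [pow_succ', Equiv.Perm.mul_apply]; rfl
        have h3 := hJi (j + 1)
        rw [h2] at h3 ⊢
        exact V_rL h.V_rR h3
      rcases Nat.lt_or_ge j n with hjn | hjn
      · have h2 := W3 (j + 1) (by omega) (by omega)
        rw [h1, Nat.cast_add, Nat.cast_one] at h2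
        by_cases hc : V ((rot ^ j) t.rR).stE
        · refine iff_of_true hc ?_
          intro hb
          exact (h2.2 (by omega)) hc
        · refine iff_of_false hc ?_
          have := h2.1 hc
          omega
      · have hjn' : j = n := by omega
        subst hjn'
        rw [h1] at hVl
        by_cases hc : V ((rot ^ j) t.rR).stE
        · refine iff_of_true hc ?_
          have h6 : b = 0 := by
            by_contra hb
            exact (hVl.2 hb) hc
          omega
        · refine iff_of_false hc ?_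
          have := hVl.1 hc
          omega
  · show (if 0 ≤ j then a + ((0 : ℕ) : ℤ) else _) = a
    rw [if_pos (Nat.zero_le _)]; simp
  · intro i hi1
    show (if i + 1 ≤ j then a + ((i + 1 : ℕ) : ℤ) else b - (n - ((i + 1 : ℕ) : ℤ))) =
      (if i < j then a + (i : ℤ) else b - (n - i)) + 1
    by_cases hc : i < j
    · rw [if_pos hc, if_pos (by omega)]; push_cast; ring
    · rw [if_neg hc, if_neg (by omega)]; push_cast; ring
  · show (if n < j then a + (n : ℤ) else b - (n - n)) = b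
    rw [if_neg (by omega)]; ring
  · intro i hi1 hi2
    have hij : i ≠ j := by
      intro hc; apply hi2; rw [hc]; simp
    show (if i ≤ j then a + (i : ℤ) else b - (n - i)) = (if i < j then a + (i : ℤ) else b - (n - i)) ∧
      -1 ≤ (if i < j then a + (i : ℤ) else b - (n - i)) ∧
      (if i < j then a + (i : ℤ) else b - (n - i)) ≤ 1 ∧
      (V ((rot ^ i) t.rR) ↔ (if i < j then a + (i : ℤ) else b - (n - i)) = 0) ∧
      (V ((rot ^ (i + 1)) t.rR) ↔ (if i < j then a + (i : ℤ) else b - (n - i)) ≠ 0)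
    by_cases hc : i < j
    · rw [if_pos hc, if_pos hc.le]
      refine ⟨rfl, by omega, by omega, W1 i hc, ?_⟩
      rcases Nat.lt_or_ge (i + 1) j with hc2 | hc2
      · rw [W1 (i + 1) hc2]; push_cast; omega
      · have : i + 1 = j := by omega
        rw [this, W2, ← this] at *
        push_cast at ea
        omega
    · rw [if_neg hc, if_neg (by omega)]
      have hij2 : j < i := by omega
      refine ⟨rfl, by omega, by omega, W3 i hij2 hi1, ?_⟩
      rcases Nat.lt_or_ge i n with hc2 | hc2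
      · rw [W3 (i + 1) (by omega) (by omega)]; push_cast; omega
      · have : i = n := by omega
        subst this
        rw [hVl]; omega

end

end Pool.Agent.MP42K
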