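import Pool.Agent.MP42.K.Port3

/-!
# Growth by one edge: special steps

`Gr.tip`, `Gr.branch`; flat vertices, `Gr.run`; rims: `Gr.foot`, `Gr.extE`, `Gr.extW`.
-/

set_option autoImplicit false
set_option linter.unusedSectionVars false

namespace Pool.Agent.MP42K

open Pool.Agent.Helper55.UNF Pool.Agent.Helper55.UNF.GridSolid Pool.Agent.MP42G
open Pool.Agent.MP42H Pool.Agent.MP42X Pool.Agent.MP42R
open Core1 (jf)
open Nb (SC SC_rot_right SC_rot_left SC_rev rev_rot rot)

variable {P : GridSolid}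

/-! ## Numbers of facets at a vertex -/

lemma stE_e_ne (s : P.FSt) : s.stE.1.e ≠ opp s.1.e := by
  have h := s.2.2
  show (s.1.stepE P).e ≠ opp s.1.e
  have hne : ∀ d e : Dir, d.1 ≠ e.1 → d ≠ opp e ∧ opp d ≠ opp e ∧ e ≠ opp e := by decide
  obtain ⟨h1, h2, h3⟩ := hne _ _ h
  unfold St.stepE
  split_ifs
  · exact h1
  · exact h3
  · exact h2

/-- there are at least three facets at a vertex -/
lemma rot2_ne (s : P.FSt) : s.stE.rL.stE.rL ≠ s := by
  intro h
  have h1 : s.stE.rL.stE = s.rR := by rw [← h, FSt.rL_rR, h]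
  have h2 : s.stE.rL.stE.1.n = s.rR.1.n := by rw [h1]
  rw [Pool.Agent.MP42.stE_n] at h2
  have h3 : s.stE.rL.1.n = opp s.stE.1.e := by
    show cross s.stE.1.d (cross s.stE.1.d s.stE.1.e) = _
    exact cross_cross _ _ s.stE.2.2
  have h4 : s.rR.1.n = s.1.e := by
    show cross s.1.d (opp (cross s.1.d s.1.e)) = _
    exact cross_opp_cross _ _ s.2.2
  rw [h3, h4] at h2
  have h5 := congrArg opp h2
  rw [opp_opp] at h5
  exact stE_e_ne s h5

lemma pow_rot_inj {x : P.FSt} {i j n : ℕ} (hmin : ∀ k, 0 < k → k < n → (rot ^ k) x ≠ x)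
    (hi : i < n) (hj : j < n) (h : (rot ^ i) x = (rot ^ j) x) : i = j := by
  by_contra hne
  rcases Nat.lt_or_ge i j with h1 | h1
  · refine hmin (j - i) (by omega) (by omega) ?_
    have h2 : (rot ^ j) x = (rot ^ i) ((rot ^ (j - i)) x) := by
      rw [← Equiv.Perm.mul_apply, ← pow_add]; congr 2; omega
    rw [h2] at h
    exact ((rot ^ i : Equiv.Perm P.FSt).injective h).symm
  · refine hmin (i - j) (by omega) (by omega) ?_
    have h2 : (rot ^ i) x = (rot ^ j) ((rot ^ (i - j)) x) := by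
      rw [← Equiv.Perm.mul_apply, ← pow_add]; congr 2; omega
    rw [h2] at h
    exact (rot ^ j : Equiv.Perm P.FSt).injective h

lemma Val.shift {x : P.FSt} {n : ℕ} (h : Val x n) : Val (rot x) n := by
  have key : ∀ i : ℕ, (rot ^ i) (rot x) = rot ((rot ^ i) x) := by
    intro i
    rw [← Equiv.Perm.mul_apply, ← Equiv.Perm.mul_apply, ← pow_succ, ← pow_succ']
  refine ⟨?_, ?_, h.pos⟩
  · rw [key, h.per]
  · intro i h1 h2 hc
    rw [key] at hc
    exact h.min i h1 h2 (rot.injective hc)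

lemma Val.shift_pow {x : P.FSt} {n : ℕ} (h : Val x n) (i : ℕ) : Val ((rot ^ i) x) n := by
  induction i with
  | zero => exact h
  | succ i ih => rw [pow_succ', Equiv.Perm.mul_apply]; exact ih.shift

/-- four facets -/
lemma Val.four {x : P.FSt} (h : rot (rot (rot (rot x))) = x) : Val x 4 := by
  refine ⟨h, ?_, by norm_num⟩
  intro i h1 h2 hc
  have h3 : i = 1 ∨ i = 2 ∨ i = 3 := by omega
  rcases h3 with rfl | rfl | rfl
  · have h4 : rot x = x := hc
    exact stE_rL_ne x h4
  · have h4 : rot (rot x) = x := hc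
    exact rot2_ne x h4
  · have h4 : rot (rot (rot x)) = x := hc
    rw [h4] at h
    exact stE_rL_ne x h

/-- south over the south-east corner -/
lemma rot_rR (t : P.FSt) : rot t.rR = pN.symm t := by
  have h : pN.symm t = t.r2.stN.r2 := pN_symm_apply t
  rw [h]
  show t.rR.stE.rL = t.r2.rL.stE.rR.r2
  rw [FSt.r2_rL, FSt.rR_r2]

/-- the vertex at the south-east corner of `t` is flat -/
lemma Val.flat {t : P.FSt} (h : (pN.symm t).stE = pN.symm t.stE) :
    Val t.rR 4 ∧ rot (rot (rot t.rR)) = t.stE.r2 := by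
  have h1 : rot (rot (rot t.rR)) = t.stE.r2 := by
    rw [rot_rR]
    show (pN.symm t).stE.rL.stE.rL = _
    rw [h, symm_rL_stE, FSt.rL_rL]
  refine ⟨Val.four ?_, h1⟩
  rw [h1]
  exact rev_rot t

/-! ## More steps in the interior -/

section

variable {R : Core1 P} {J : P.Facet → Prop} {N N' : Nb P} {V : P.FSt → Prop}
  {lin lout : P.FSt → Ln} {L : List (P.FSt × ℤ × ℤ)}

/-- **The end of a port.** -/
theorem Gr.tip (hJ0 : ∀ f, J f → ¬ R.core f) {t : P.FSt} {a b : ℤ}
    (h : Gr R J N V lin lout ((t, a, b) :: L)) (hA : Adds N N' (fun s => s = t))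
    (hnew : ¬ N.kv t.rR) {n : ℕ} (hn : Val t.rR (n + 2)) (hJ : ∀ s, SC t.rR s → J s.facet)
    (eb : b = a + n) (V1 : ∀ i : ℕ, 1 ≤ i → i ≤ n → (V ((rot ^ i) t.rR) ↔ a + i = 0)) :
    Gr R J N' V lin lout L := by
  have hp := h.port
  obtain ⟨hV0, hVl⟩ := h.V_ends
  have hl := hn.last
  rw [show n + 2 - 1 = n + 1 by omega] at hl
  rw [← hl] at hVl
  have hpa1 := hp.a1
  have hpb2 := hp.b2
  have W1 : ∀ i : ℕ, i ≤ n → (V ((rot ^ i) t.rR) ↔ a + i = 0) := by
    intro i hij
    rcases i with _ | i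
    · rw [show V ((rot ^ 0) t.rR) ↔ a = 0 from hV0]; simp
    · exact V1 (i + 1) (by omega) hij
  have key := h.stepG hJ0 hA hnew hn hJ (hi := fun i => a + i) (ho := fun i => a + i) []
    (by simp) (by simp) ?_ ?_ ?_ ?_
  · exact key
  · simp
  · intro i _
    show a + ((i + 1 : ℕ) : ℤ) = a + (i : ℤ) + 1
    rw [Nat.cast_add, Nat.cast_one]; ring
  · exact eb.symm
  · intro i hi1 _
    refine ⟨rfl, by omega, by omega, W1 i hi1, ?_⟩
    rcases Nat.lt_or_ge i n with hc2 | hc2
    · rw [W1 (i + 1) (by omega), Nat.cast_add, Nat.cast_one]; omega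
    · have : i = n := by omega
      subst this
      rw [hVl]; omega

/-- **A branch**: two new ports. -/
theorem Gr.branch (hJ0 : ∀ f, J f → ¬ R.core f) {t : P.FSt} {a b : ℤ}
    (h : Gr R J N V lin lout ((t, a, b) :: L)) (hA : Adds N N' (fun s => s = t))
    (hnew : ¬ N.kv t.rR) {n : ℕ} (hn : Val t.rR (n + 2)) (hJ : ∀ s, SC t.rR s → J s.facet)
    {j k : ℕ} (hjk : j < k) (hk : k ≤ n) {a1 b1 a2 b2 : ℤ} (ea : a1 = a + j - 1)
    (ea2 : a2 = b1 + (k - j) - 2) (eb : b2 = b - (n - k) + 1)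
    (ha1 : -1 ≤ a1) (ha1' : a1 ≤ 1) (hb1 : -1 ≤ b1) (hb1' : b1 ≤ 1)
    (ha2 : -1 ≤ a2) (ha2' : a2 ≤ 1) (hb2 : -1 ≤ b2) (hb2' : b2 ≤ 1)
    (V1 : ∀ i : ℕ, 1 ≤ i → i < j → (V ((rot ^ i) t.rR) ↔ a + i = 0))
    (V2 : 1 ≤ j → (V ((rot ^ j) t.rR) ↔ a1 ≠ 0))
    (V3 : ∀ i : ℕ, j < i → i < k → (V ((rot ^ i) t.rR) ↔ b1 - 1 + (i - j) = 0))
    (V4 : V ((rot ^ k) t.rR) ↔ a2 ≠ 0)
    (V5 : ∀ i : ℕ, k < i → i ≤ n → (V ((rot ^ i) t.rR) ↔ b - (n - i) = 0)) :
    Gr R J N' V lin lout (((rot ^ j) t.rR, a1, b1) :: ((rot ^ k) t.rR, a2, b2) :: L) := by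
  have hp := h.port
  obtain ⟨hV0, hVl⟩ := h.V_ends
  have hl := hn.last
  rw [show n + 2 - 1 = n + 1 by omega] at hl
  rw [← hl] at hVl
  have hpa1 := hp.a1
  have hpa2 := hp.a2
  have hpb1 := hp.b1
  have hpb2 := hp.b2
  have hJi : ∀ i, J ((rot ^ i) t.rR).facet := fun i =>
    hJ _ (Equiv.Perm.sameCycle_pow_right.2 (Equiv.Perm.SameCycle.refl _ _))
  have W1 : ∀ i : ℕ, i < j → (V ((rot ^ i) t.rR) ↔ a + i = 0) := by
    intro i hij
    rcases i with _ | i
    · rw [show V ((rot ^ 0) t.rR) ↔ a = 0 from hV0]; simp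
    · exact V1 (i + 1) (by omega) hij
  have W2 : V ((rot ^ j) t.rR) ↔ a1 ≠ 0 := by
    rcases Nat.eq_zero_or_pos j with h0 | h0
    · subst h0
      rw [show V ((rot ^ 0) t.rR) ↔ a = 0 from hV0]
      push_cast at ea
      omega
    · exact V2 h0
  have hnx : ∀ i, V ((rot ^ (i + 1)) t.rR) ↔ ¬ V ((rot ^ i) t.rR).stE := by
    intro i
    have h2 : (rot ^ (i + 1)) t.rR = ((rot ^ i) t.rR).stE.rL := by
      rw [pow_succ', Equiv.Perm.mul_apply]; rfl
    have h3 := hJi (i + 1)
    rw [h2] at h3 ⊢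
    exact V_rL h.V_rR h3
  -- lines at the east side of the ports
  have W4 : V ((rot ^ j) t.rR).stE ↔ b1 ≠ 0 := by
    have h1 := hnx j
    rcases Nat.lt_or_ge (j + 1) k with hc | hc
    · have h2 := V3 (j + 1) (by omega) hc
      rw [h1, Nat.cast_add, Nat.cast_one] at h2
      by_cases hcc : V ((rot ^ j) t.rR).stE
      · refine iff_of_true hcc ?_
        intro hb
        exact (h2.2 (by omega)) hcc
      · refine iff_of_false hcc ?_
        have := h2.1 hcc
        omega
    · have hk' : k = j + 1 := by omega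
      have h2 := V4
      rw [hk', h1] at h2
      rw [hk', Nat.cast_add, Nat.cast_one] at ea2
      by_cases hcc : V ((rot ^ j) t.rR).stE
      · refine iff_of_true hcc ?_
        have h6 : a2 = 0 := by
          by_contra hb
          exact (h2.2 hb) hcc
        omega
      · refine iff_of_false hcc ?_
        have := h2.1 hcc
        omega
  have W5 : V ((rot ^ k) t.rR).stE ↔ b2 ≠ 0 := by
    have h1 := hnx k
    rcases Nat.lt_or_ge k n with hc | hc
    · have h2 := V5 (k + 1) (by omega) (by omega)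
      rw [h1, Nat.cast_add, Nat.cast_one] at h2
      by_cases hcc : V ((rot ^ k) t.rR).stE
      · refine iff_of_true hcc ?_
        intro hb
        exact (h2.2 (by omega)) hcc
      · refine iff_of_false hcc ?_
        have := h2.1 hcc
        omega
    · have hkn : k = n := by omega
      have h2 := hVl
      rw [← hkn, h1] at h2
      rw [← hkn] at eb
      by_cases hcc : V ((rot ^ k) t.rR).stE
      · refine iff_of_true hcc ?_
        have h6 : b = 0 := by
          by_contra hb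
          exact (h2.2 hb) hcc
        omega
      · refine iff_of_false hcc ?_
        have := h2.1 hcc
        omega
  have key := h.stepG hJ0 hA hnew hn hJ
    (hi := fun i => if i ≤ j then a + i else if i ≤ k then b1 - 1 + (i - j) else b - (n - i))
    (ho := fun i => if i < j then a + i else if i < k then b1 - 1 + (i - j) else b - (n - i))
    [(j, a1, b1), (k, a2, b2)] (by simp; omega) ?_ ?_ ?_ ?_ ?_
  · exact key
  · intro p hp'
    rw [List.mem_cons, List.mem_singleton] at hp'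
    rcases hp' with rfl | rfl
    · refine ⟨by show j ≤ n; omega, ?_, ?_, ha1, ha1', hb1, hb1', W2, W4⟩
      · show (if j ≤ j then a + (j : ℤ) else _) = a1 + 1
        rw [if_pos le_rfl]; omega
      · show (if j < j then a + (j : ℤ) else if j < k then b1 - 1 + ((j : ℤ) - j) else _) = b1 - 1
        rw [if_neg (lt_irrefl _), if_pos hjk]; omega
    · refine ⟨hk, ?_, ?_, ha2, ha2', hb2, hb2', V4, W5⟩
      · show (if k ≤ j then _ else if k ≤ k then b1 - 1 + ((k : ℤ) - j) else _) = a2 + 1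
        rw [if_neg (by omega), if_pos le_rfl]; omega
      · show (if k < j then _ else if k < k then _ else b - ((n : ℤ) - k)) = b2 - 1
        rw [if_neg (by omega), if_neg (lt_irrefl _)]; omega
  · show (if 0 ≤ j then a + ((0 : ℕ) : ℤ) else _) = a
    rw [if_pos (Nat.zero_le _)]; simp
  · intro i hi1
    show (if i + 1 ≤ j then a + ((i + 1 : ℕ) : ℤ) else if i + 1 ≤ k then
        b1 - 1 + (((i + 1 : ℕ) : ℤ) - j) else b - (n - ((i + 1 : ℕ) : ℤ))) =
      (if i < j then a + (i : ℤ) else if i < k then b1 - 1 + ((i : ℤ) - j) else b - (n - i)) + 1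
    by_cases hc : i < j
    · rw [if_pos hc, if_pos (by omega)]; push_cast; ring
    · rw [if_neg hc, if_neg (by omega)]
      by_cases hc2 : i < k
      · rw [if_pos hc2, if_pos (by omega)]; push_cast; ring
      · rw [if_neg hc2, if_neg (by omega)]; push_cast; ring
  · show (if n < j then a + (n : ℤ) else if n < k then _ else b - (n - n)) = b
    rw [if_neg (by omega), if_neg (by omega)]; ring
  · intro i hi1 hi2
    have hij : i ≠ j ∧ i ≠ k := by
      constructor
      · intro hc; apply hi2; rw [hc]; simp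
      · intro hc; apply hi2; rw [hc]; simp
    show (if i ≤ j then a + (i : ℤ) else if i ≤ k then b1 - 1 + ((i : ℤ) - j) else b - (n - i)) =
        (if i < j then a + (i : ℤ) else if i < k then b1 - 1 + ((i : ℤ) - j) else b - (n - i)) ∧
      -1 ≤ (if i < j then a + (i : ℤ) else if i < k then b1 - 1 + ((i : ℤ) - j)
        else b - (n - i)) ∧
      (if i < j then a + (i : ℤ) else if i < k then b1 - 1 + ((i : ℤ) - j) else b - (n - i)) ≤ 1 ∧
      (V ((rot ^ i) t.rR) ↔ (if i < j then a + (i : ℤ) else if i < k then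
        b1 - 1 + ((i : ℤ) - j) else b - (n - i)) = 0) ∧
      (V ((rot ^ (i + 1)) t.rR) ↔ (if i < j then a + (i : ℤ) else if i < k then
        b1 - 1 + ((i : ℤ) - j) else b - (n - i)) ≠ 0)
    by_cases hc : i < j
    · rw [if_pos hc, if_pos hc.le]
      refine ⟨rfl, by omega, by omega, W1 i hc, ?_⟩
      rcases Nat.lt_or_ge (i + 1) j with hc2 | hc2
      · rw [W1 (i + 1) hc2, Nat.cast_add, Nat.cast_one]; omega
      · have : i + 1 = j := by omega
        rw [this, W2, ea, ← this, Nat.cast_add, Nat.cast_one]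
        omega
    · rw [if_neg hc, if_neg (by omega)]
      by_cases hc3 : i < k
      · rw [if_pos hc3, if_pos hc3.le]
        refine ⟨rfl, by omega, by omega, V3 i (by omega) hc3, ?_⟩
        rcases Nat.lt_or_ge (i + 1) k with hc2 | hc2
        · rw [V3 (i + 1) (by omega) hc2, Nat.cast_add, Nat.cast_one]; omega
        · have : i + 1 = k := by omega
          rw [this, V4, ea2, ← this, Nat.cast_add, Nat.cast_one]
          omega
      · rw [if_neg hc3, if_neg (by omega)]
        refine ⟨rfl, by omega, by omega, V5 i (by omega) hi1, ?_⟩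
        rcases Nat.lt_or_ge i n with hc2 | hc2
        · rw [V5 (i + 1) (by omega) (by omega), Nat.cast_add, Nat.cast_one]; omega
        · have : i = n := by omega
          subst this
          rw [hVl]; omega

/-! ## Straight lines -/

/-- **One straight step over a flat vertex.** -/
theorem Gr.straight (hJ0 : ∀ f, J f → ¬ R.core f) {t : P.FSt} {a b : ℤ}
    (h : Gr R J N V lin lout ((t, a, b) :: L)) (hA : Adds N N' (fun s => s = t))
    (hnew : ¬ N.kv t.rR) (hc : (pN.symm t).stE = pN.symm t.stE)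
    (hJ1 : J (pN.symm t).facet) (hJ2 : J (pN.symm t).stE.facet)
    (hV1 : V (pN.symm t) ↔ V t) (hV2 : V (pN.symm t).stE ↔ V t.stE) :
    Gr R J N' V lin lout ((pN.symm t, a, b) :: L) := by
  have hp := h.port
  obtain ⟨h4, h3⟩ := Val.flat hc
  have e1 : (rot ^ 1) t.rR = pN.symm t := rot_rR t
  have e2 : (rot ^ 2) t.rR = (pN.symm t).stE.rL := by
    show rot (rot t.rR) = _
    rw [rot_rR]; rfl
  have hJ : ∀ s, SC t.rR s → J s.facet := by
    intro s hs
    obtain ⟨i, hi1, rfl⟩ := h4.SC_iff.1 hs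
    have : i = 0 ∨ i = 1 ∨ i = 2 ∨ i = 3 := by omega
    rcases this with rfl | rfl | rfl | rfl
    · exact hp.Jt
    · rw [e1]; exact hJ1
    · rw [e2]; exact hJ2
    · have : (rot ^ 3) t.rR = t.stE.r2 := h3
      rw [this]; exact hp.JE
  have key := h.step hJ0 hA hnew (n := 2) h4 hJ (j := 1) (by norm_num) (a' := a) (b' := b)
    (by push_cast; ring) (by push_cast; ring) hp.a1 hp.a2 hp.b1 hp.b2 ?_ ?_ ?_
  · rw [e1] at key; exact key
  · intro i h1 h2; omega
  · intro _
    rw [e1, hV1, hp.Va]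
  · intro i h1 h2
    have : i = 2 := by omega
    subst this
    rw [e2, V_rL h.V_rR hJ2, hV2, hp.Vb]
    push_cast
    simp

/-- **A straight line of `m` steps.** -/
theorem Gr.run (hJ0 : ∀ f, J f → ¬ R.core f) {t : P.FSt} {a b : ℤ}
    (h : Gr R J N V lin lout ((t, a, b) :: L)) (m : ℕ)
    (hc : ∀ i < m, (pN.symm ((pN.symm ^ i) t)).stE = pN.symm ((pN.symm ^ i) t).stE)
    (hJ : ∀ i ≤ m, J ((pN.symm ^ i) t).facet ∧ J ((pN.symm ^ i) t).stE.facet)
    (hnew : ∀ i < m, ¬ N.kv ((pN.symm ^ i) t).rR)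
    (hdis : ∀ i j, i < j → j < m → ¬ SC ((pN.symm ^ i) t).rR ((pN.symm ^ j) t).rR)
    (hV : ∀ i < m, (V ((pN.symm ^ (i + 1)) t) ↔ V ((pN.symm ^ i) t)) ∧
      (V ((pN.symm ^ (i + 1)) t).stE ↔ V ((pN.symm ^ i) t).stE))
    (hA : Adds N N' (fun s => ∃ i < m, s = (pN.symm ^ i) t)) :
    Gr R J N' V lin lout (((pN.symm ^ m) t, a, b) :: L) := by
  induction m generalizing N' with
  | zero =>
    have hA0 : Adds N N' (fun _ => False) := hA.congr (by simp)
    have e : N' = N := by
      cases N; cases N'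
      congr 1
      · funext s; exact propext (by have := hA0.kv s; simpa using this)
      · funext s; exact propext (by have := hA0.ke s; simpa using this)
      · funext s; exact propext (by have := hA0.kf s; simpa using this)
    rw [e]; exact h
  | succ m ih =>
    set T : P.FSt → Prop := fun s => ∃ i < m, s = (pN.symm ^ i) t with hT
    have hp := h.port
    -- the near ends
    have near : ∀ i : ℕ, SC ((pN.symm ^ i) t).rR ((pN.symm ^ (i + 1)) t) := by
      intro i
      have e1 : (pN.symm ^ (i + 1)) t = rot ((pN.symm ^ i) t).rR := by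
        rw [pow_succ', Equiv.Perm.mul_apply, rot_rR]
      rw [e1]
      exact (SC_rot_right _ _).2 (Equiv.Perm.SameCycle.refl _ _)
    have hA1 : Adds N (N.addE T) T := by
      refine adds_addE ?_
      rintro s ⟨i, hi1, rfl⟩
      rcases i with _ | i
      · exact Or.inl hp.kv
      · exact Or.inr ⟨(pN.symm ^ i) t, ⟨i, by omega, rfl⟩, near i⟩
    have h1 := ih (fun i hi1 => hc i (by omega)) (fun i hi1 => hJ i (by omega))
      (fun i hi1 => hnew i (by omega)) (fun i j hij hj1 => hdis i j hij (by omega))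
      (fun i hi1 => hV i (by omega)) hA1
    have hA2 : Adds (N.addE T) N' (fun s => s = (pN.symm ^ m) t) := by
      constructor
      · intro s
        rw [hA.kv, hA1.kv, or_assoc]
        refine or_congr_right ?_
        constructor
        · rintro ⟨u, ⟨i, hi1, rfl⟩, h2⟩
          rcases Nat.lt_or_ge i m with h3 | h3
          · exact Or.inl ⟨_, ⟨i, h3, rfl⟩, h2⟩
          · have : i = m := by omega
            subst this
            exact Or.inr ⟨_, rfl, h2⟩
        · rintro (⟨u, ⟨i, hi1, rfl⟩, h2⟩ | ⟨u, rfl, h2⟩)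
          · exact ⟨_, ⟨i, by omega, rfl⟩, h2⟩
          · exact ⟨_, ⟨m, by omega, rfl⟩, h2⟩
      · intro s
        rw [hA.ke, hA1.ke, or_assoc]
        refine or_congr_right ?_
        constructor
        · rintro ⟨u, ⟨i, hi1, rfl⟩, h2⟩
          rcases Nat.lt_or_ge i m with h3 | h3
          · exact Or.inl ⟨_, ⟨i, h3, rfl⟩, h2⟩
          · have : i = m := by omega
            subst this
            exact Or.inr ⟨_, rfl, h2⟩
        · rintro (⟨u, ⟨i, hi1, rfl⟩, h2⟩ | ⟨u, rfl, h2⟩)
          · exact ⟨_, ⟨i, by omega, rfl⟩, h2⟩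
          · exact ⟨_, ⟨m, by omega, rfl⟩, h2⟩
      · intro f
        rw [hA.kf, hA1.kf]
    have hnew' : ¬ (N.addE T).kv ((pN.symm ^ m) t).rR := by
      rw [hA1.kv]
      rintro (h2 | ⟨u, ⟨i, hi1, rfl⟩, h2⟩)
      · exact hnew m (by omega) h2
      · exact hdis i m hi1 (by omega) h2
    have e1 : (pN.symm ^ (m + 1)) t = pN.symm ((pN.symm ^ m) t) := by
      rw [pow_succ', Equiv.Perm.mul_apply]
    have hJm := hJ (m + 1) le_rfl
    have hVm := hV m (by omega)
    rw [e1] at hJm hVm ⊢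
    exact h1.straight hJ0 hA2 hnew' (hc m (by omega)) hJm.1 hJm.2 hVm.1 hVm.2

end

end Pool.Agent.MP42K
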