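import Pool.Agent.MP42.K.Port4

/-!
# Growth by one edge: rims

`Gr.foot`: a port ends at a rim vertex; `Gr.extE`, `Gr.extW`: the foot moves along the rim;
`Gr.extEs`, `Gr.extWs`: several steps.
-/

set_option autoImplicit false
set_option linter.unusedSectionVars false

namespace Pool.Agent.MP42K

open Pool.Agent.Helper55.UNF Pool.Agent.Helper55.UNF.GridSolid Pool.Agent.MP42G
open Pool.Agent.MP42H Pool.Agent.MP42X Pool.Agent.MP42R
open Core1 (jf)
open Nb (SC SC_rot_right SC_rot_left SC_rev rev_rot rot)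

variable {P : GridSolid}

section

variable {R : Core1 P} {J : P.Facet → Prop} {N N' : Nb P} {V : P.FSt → Prop}
  {lin lout : P.FSt → Ln} {L : List (P.FSt × ℤ × ℤ)}

/-! ## The states around a rim vertex -/

lemma symm_E' {r : P.FSt} (h : R.Rim r) : (pN.symm r).stE = pN.symm r.stE := Core1.symm_E h

lemma Rim_jE {r : P.FSt} (h : R.Rim r) : R.Rim r.stE := Core1.Rim.jE h

lemma Rim_W {r : P.FSt} (h : R.Rim r) : R.Rim (pE.symm r) :=
  h.cyc ⟨-1, rfl⟩

lemma W_stE (r : P.FSt) : (pE.symm r).stE = r := pE_symm_stE r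

lemma symm_rL_rot {r : P.FSt} : rot (pN.symm r).rL = r.r2 := by
  show (pN.symm r).rL.stE.rL = _
  rw [symm_rL_stE, FSt.rL_rL]

lemma rim_rot0 {r : P.FSt} (h : R.Rim r) : rot (pN.symm r) = (pN.symm r.stE).rL := by
  show (pN.symm r).stE.rL = _
  rw [symm_E' h]

lemma rim_rot2 (r : P.FSt) : rot r.stE.r2 = r.rR := by
  show r.stE.r2.stE.rL = _
  rw [FSt.stE_inv, FSt.r2_rL]

lemma rim_rot3 (r : P.FSt) : rot r.rR = pN.symm r := by
  show r.rR.stE.rL = _
  have h : pN.symm r = r.r2.stN.r2 := pN_symm_apply r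
  rw [h]
  show _ = r.r2.rL.stE.rR.r2
  rw [FSt.r2_rL, FSt.rR_r2]

/-- four facets at a rim vertex -/
lemma rim_val {r : P.FSt} (h : R.Rim r) : Val (pN.symm r) 4 := by
  apply Val.four
  rw [rim_rot0 h, symm_rL_rot, rim_rot2, rim_rot3]

lemma rim_SC {r s : P.FSt} (h : R.Rim r) : SC (pN.symm r) s ↔
    s = pN.symm r ∨ s = (pN.symm r.stE).rL ∨ s = r.stE.r2 ∨ s = r.rR := by
  rw [(rim_val h).SC_iff]
  have e0 : (rot ^ 0) (pN.symm r) = pN.symm r := rfl
  have e1 : (rot ^ 1) (pN.symm r) = (pN.symm r.stE).rL := rim_rot0 h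
  have e2 : (rot ^ 2) (pN.symm r) = r.stE.r2 := by
    show rot (rot (pN.symm r)) = _
    rw [rim_rot0 h, symm_rL_rot]
  have e3 : (rot ^ 3) (pN.symm r) = r.rR := by
    show rot (rot (rot (pN.symm r))) = _
    rw [rim_rot0 h, symm_rL_rot, rim_rot2]
  constructor
  · rintro ⟨i, hi, rfl⟩
    have : i = 0 ∨ i = 1 ∨ i = 2 ∨ i = 3 := by omega
    rcases this with rfl | rfl | rfl | rfl
    · exact Or.inl e0
    · exact Or.inr (Or.inl e1)
    · exact Or.inr (Or.inr (Or.inl e2))
    · exact Or.inr (Or.inr (Or.inr e3))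
  · rintro (h1 | h1 | h1 | h1)
    · exact ⟨0, by norm_num, by rw [h1, e0]⟩
    · exact ⟨1, by norm_num, by rw [h1, e1]⟩
    · exact ⟨2, by norm_num, by rw [h1, e2]⟩
    · exact ⟨3, by norm_num, by rw [h1, e3]⟩

lemma rim_below_V {r : P.FSt} (h : R.Rim r) : IsV (pN.symm r) := (Core1.Rim.below h).2
lemma rim_below_nc {r : P.FSt} (h : R.Rim r) : ¬ R.core (pN.symm r).facet :=
  (Core1.Rim.below h).1

/-- which rim darts are at the rim vertex of `r` -/
lemma rim_SC_in {r u : P.FSt} (h : R.Rim r) (hu : R.Rim u) (hs : SC (pN.symm r) (pN.symm u).rL) :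
    u = r.stE := by
  rcases (rim_SC h).1 hs with h1 | h1 | h1 | h1
  · exfalso
    have h2 := rim_below_V h
    rw [← h1] at h2
    exact not_V_rL' (rim_below_V hu) h2
  · have h2 := congrArg FSt.rR h1
    rw [FSt.rL_rR, FSt.rL_rR] at h2
    exact pN.symm.injective h2
  · exfalso
    have h2 : (pN.symm u).rL.facet = r.stE.r2.facet := by rw [h1]
    have h3 := rim_below_nc hu
    apply h3
    rw [FSt.facet_rL, FSt.facet_r2] at h2
    rw [h2]; exact (Rim_jE h).2
  · exfalso
    have h2 : (pN.symm u).rL.facet = r.rR.facet := by rw [h1]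
    have h3 := rim_below_nc hu
    apply h3
    rw [FSt.facet_rL, FSt.facet_rR] at h2
    rw [h2]; exact h.2

lemma rim_SC_out {r u : P.FSt} (h : R.Rim r) (hu : R.Rim u) (hs : SC (pN.symm r) (pN.symm u)) :
    u = r := by
  rcases (rim_SC h).1 hs with h1 | h1 | h1 | h1
  · exact pN.symm.injective h1
  · exfalso
    have h2 := rim_below_V hu
    rw [h1] at h2
    exact not_V_rL' (rim_below_V (Rim_jE h)) h2
  · exfalso
    have h2 : (pN.symm u).facet = r.stE.r2.facet := by rw [h1]
    apply rim_below_nc hu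
    rw [h2]; exact (Rim_jE h).2
  · exfalso
    have h2 : (pN.symm u).facet = r.rR.facet := by rw [h1]
    apply rim_below_nc hu
    rw [h2]; exact h.2

/-! ## Foot -/

open Classical in
/-- new label on the rim of `r` -/
noncomputable def setL (l : P.FSt → Ln) (r : P.FSt) (x : Ln) (s : P.FSt) : Ln :=
  if pE.SameCycle r s then x else l s

lemma setL_E (l : P.FSt → Ln) (r : P.FSt) (x : Ln) (s : P.FSt) (h : l s.stE = l s) :
    setL l r x s.stE = setL l r x s := by
  classical
  have e : pE.SameCycle r s.stE ↔ pE.SameCycle r s := by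
    rw [← pE_apply]; exact Equiv.Perm.sameCycle_apply_right
  unfold setL
  by_cases hc : pE.SameCycle r s
  · rw [if_pos hc, if_pos (e.2 hc)]
  · rw [if_neg hc, if_neg (fun h' => hc (e.1 h')), h]

lemma Hof_ns {l : Ln} (h : l ≠ Ln.s) : Hof l = 0 ∨ Hof l = 1 := by
  cases l <;> simp_all [Hof]

lemma Hof_nn {l : Ln} (h : l ≠ Ln.n) : Hof l = 0 ∨ Hof l = -1 := by
  cases l <;> simp_all [Hof]

/-- **The foot**: the port `t` ends at the south-west... rim vertex; `t.r2` is the facet below the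
rim state `r`, the new vertex is the west end of the rim edge of `r`. -/
theorem Gr.foot (hJ0 : ∀ f, J f → ¬ R.core f) {r : P.FSt} (hr : R.Rim r) {a b : ℤ}
    (h : Gr R J N V lin lout (((pN.symm r).r2, a, b) :: L))
    (hfree : ∀ s, pE.SameCycle r s → ¬ N.kv (pN.symm s))
    (hA : Adds N N' (fun s => s = (pN.symm r).r2)) :
    Gr R J N' V (setL lin r (Lof a)) (setL lout r (Lof b)) L := by
  classical
  have hp := h.port
  have hnd := h.nd
  rw [List.map_cons, List.nodup_cons] at hnd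
  obtain ⟨hV0, hVl⟩ := h.V_ends
  obtain ⟨Hi, Ho, h1, h2, h3, h4⟩ := h.ex
  have h5 := h2 ((pN.symm r).r2, a, b) (by simp)
  simp only at h5
  set t : P.FSt := (pN.symm r).r2 with ht
  set w : P.FSt := pE.symm r with hw
  have hwr : w.stE = r := pE_symm_stE r
  have hwR : R.Rim w := Rim_W hr
  have htR : t.rR = (pN.symm r).rL := by rw [ht, FSt.r2_rR]
  have hbelow : (pN.symm w).stE = pN.symm r := by rw [symm_E' hwR, hwr]
  have htl : t.stE.r2 = pN.symm w := by
    rw [ht, ← hbelow, FSt.stE_inv, FSt.r2_r2]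
  -- the new vertex
  have e0 : rot (pN.symm w) = t.rR := by rw [rim_rot0 hwR, hwr, htR]
  have hval : Val t.rR 4 := by rw [← e0]; exact (rim_val hwR).shift
  have e1 : (rot ^ 1) t.rR = r.r2 := by
    show rot t.rR = _
    rw [htR, symm_rL_rot]
  have e2 : (rot ^ 2) t.rR = w.rR := by
    show rot (rot t.rR) = _
    rw [htR, symm_rL_rot, ← hwr, rim_rot2]
  have e3 : (rot ^ 3) t.rR = pN.symm w := by
    show rot (rot (rot t.rR)) = _
    rw [htR, symm_rL_rot, ← hwr, rim_rot2, rim_rot3]
  have hSC : ∀ s, SC t.rR s ↔ SC (pN.symm w) s := by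
    intro s
    rw [← e0, Nb.rot_apply, SC_rot_left]
  have hnew : ¬ N.kv t.rR := by
    have h6 : SC (pN.symm w) t.rR := (hSC _).1 (Equiv.Perm.SameCycle.refl _ _)
    rw [← N.kv_SC h6]
    exact hfree w ⟨-1, rfl⟩
  have hJw : J (pN.symm w).facet := by
    have := hp.JE
    have e : t.stE.facet = t.stE.r2.facet := rfl
    rw [e, htl] at this
    exact this
  have hJr : J (pN.symm r).facet := hp.Jt
  have nc1 : ¬ J r.r2.facet := fun hc => hJ0 _ hc hr.2
  have nc2 : ¬ J w.rR.facet := fun hc => hJ0 _ hc hwR.2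
  obtain ⟨Hi', Ho', Op', g1, g2, g3, g4, g5⟩ := h1.stepF (N' := N') hp.kv hp.ke hnew hA.one1
    hA.one2 hA.kf (a := a) (b := b) (fun _ => ⟨h5.1, hp.a1, hp.a2, hp.Va⟩)
    (fun _ => ⟨h5.2, hp.b1, hp.b2, hp.Vb⟩) (n := 2) hval
    (hi := fun i => if i = 0 then a else b) (ho := fun i => if i = 0 then a else b)
    (po := fun _ => False) (fun _ => by simp)
    (fun i hi1 hi2 => by
      exfalso
      have : i = 0 ∨ i = 1 := by omega
      rcases this with rfl | rfl
      · rw [zero_add, e1] at hi2; exact nc1 hi2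
      · rw [show 1 + 1 = 2 from rfl, e2] at hi2; exact nc2 hi2)
    (fun _ => by simp)
    (fun i hi1 hi2 _ => by
      have : i = 0 ∨ i = 1 ∨ i = 2 := by omega
      rcases this with rfl | rfl | rfl
      · exact ⟨rfl, hp.a1, hp.a2, hV0⟩
      · rw [e1] at hi2; exact absurd hi2 nc1
      · rw [e2] at hi2; exact absurd hi2 nc2)
    (fun i hi1 hi2 _ => by
      have : i = 0 ∨ i = 1 ∨ i = 2 := by omega
      rcases this with rfl | rfl | rfl
      · rw [zero_add, e1] at hi2; exact absurd hi2 nc1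
      · rw [show 1 + 1 = 2 from rfl, e2] at hi2; exact absurd hi2 nc2
      · refine ⟨hp.b1, hp.b2, ?_⟩
        rw [show 2 + 1 = 3 from rfl, e3, ← htl]; exact hVl)
    (fun i _ hc => hc.elim)
  have hkvt : ∀ s, s ∈ L.map Prod.fst → N.kv s := by
    intro s hs
    exact (h1.op s (by rw [List.map_cons]; exact List.mem_cons_of_mem _ hs)).kv
  have hLn : ∀ s, s ∈ L.map Prod.fst → ¬ SC t.rR s := fun s hs hc =>
    hnew ((N.kv_SC hc).2 (hkvt s hs))
  have hLt : ∀ s, s ∈ L.map Prod.fst → s ≠ t := fun s hs hc => hnd.1 (hc ▸ hs)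
  have hOp : Op' = fun s => s ∈ L.map Prod.fst := by
    funext s
    apply propext
    by_cases hs : SC t.rR s
    · by_cases hsl : s = t.stE.r2
      · subst hsl
        exact iff_of_false g5.2.2 fun hc => hLn _ hc hs
      · obtain ⟨i, hi1, rfl⟩ := hval.SC_iff.1 hs
        have hin : i ≤ 2 := by
          by_contra hc
          have : i = 3 := by omega
          rw [this, e3, ← htl] at hsl
          exact hsl rfl
        rw [(g4 i hin).2.2]
        exact iff_of_false id fun hc => hLn _ hc hs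
    · by_cases hst : s = t
      · rw [hst]
        exact iff_of_false g3.2.2 hnd.1
      · rw [(g2 s hst hs).2.2, List.map_cons, List.mem_cons]
        exact ⟨fun hc => hc.resolve_left hst, Or.inr⟩
  refine ⟨hnd.2, ⟨Hi', Ho', by rw [← hOp]; exact g1, ?_, ?_, ?_⟩,
    Nb.one_step h.one hp.kv hnew hA.one1 hA.one2 hA.kf, ?_⟩
  · intro p hp1
    have hm : p.1 ∈ L.map Prod.fst := List.mem_map_of_mem hp1
    rw [(g2 p.1 (hLt _ hm) (hLn _ hm)).1, (g2 p.1 (hLt _ hm) (hLn _ hm)).2.1]
    exact h2 p (List.mem_cons_of_mem _ hp1)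
  · intro u hu hJu hS
    by_cases hn : SC t.rR (pN.symm u).rL
    · have hur : u = r := by
        have := rim_SC_in hwR hu ((hSC _).1 hn)
        rw [this, hwr]
      subst hur
      have h6 := (g4 0 (by norm_num)).2.1
      have h7 : (rot ^ 0) t.rR = (pN.symm u).rL := by rw [← htR]; rfl
      rw [h7] at h6
      unfold setL
      rw [h6, if_pos (Equiv.Perm.SameCycle.refl _ _), Hof_Lof hp.a1 hp.a2]
      simp
    · obtain ⟨k1, k2⟩ := lab_in hA (fun s hs hs2 => (g2 s hs hs2).2.1) hS hn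
      rw [k2, h3 u hu hJu k1]
      unfold setL
      rw [if_neg]
      intro hc
      have h6 : N.kv (pN.symm (pE.symm u)) := by
        have h7 := rim_rot0 (Rim_W hu)
        rw [pE_symm_stE] at h7
        have h8 := k1.1
        rw [← h7, Nb.rot_apply, N.kv_rot] at h8
        exact h8
      refine hfree (pE.symm u) (hc.trans ⟨-1, rfl⟩) h6
  · intro u hu hJu hS
    by_cases hn : SC t.rR (pN.symm u)
    · have hur : u = w := rim_SC_out hwR hu ((hSC _).1 hn)
      subst hur
      have h6 := (g4 2 (by norm_num)).2.1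
      rw [e2] at h6
      have h7 : pre (pN.symm w) = w.rR := by
        have h8 := pre_of_rot w.rR
        have h9 : w.rR.stE.rL = pN.symm w := rim_rot3 w
        rw [h9] at h8
        exact h8
      rw [h7, h6]
      unfold setL
      have h10 : pE.SameCycle r w := ⟨-1, rfl⟩
      rw [if_pos h10, Hof_Lof hp.b1 hp.b2]
      simp
    · obtain ⟨k1, k2⟩ := lab_out hA (fun s hs hs2 => (g2 s hs hs2).2.1) hS hn
      rw [k2, h4 u hu hJu k1]
      unfold setL
      rw [if_neg]
      intro hc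
      exact hfree u hc k1.1
  · intro u hu hJu
    exact ⟨setL_E _ _ _ _ (h.lE u hu hJu).1, setL_E _ _ _ _ (h.lE u hu hJu).2⟩

/-! ## Moving the feet -/

/-- **The west foot of the gap (`St`) moves one edge to the east.** -/
theorem Gr.extE (hJ0 : ∀ f, J f → ¬ R.core f) {r : P.FSt} (hr : R.Rim r)
    (h : Gr R J N V lin lout L) (hS : St N.kv N.ke r) (hJr : J (pN.symm r).facet)
    (hJE : J (pN.symm r.stE).facet) (hl : lin r ≠ Ln.s) (hnew : ¬ N.kv (pN.symm r))
    (hV : V (pN.symm r.stE) ↔ V (pN.symm r))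
    (hA : Adds N N' (fun s => s = (pN.symm r).rL)) :
    Gr R J N' V lin lout L := by
  classical
  obtain ⟨Hi, Ho, h1, h2, h3, h4⟩ := h.ex
  set t : P.FSt := (pN.symm r).rL with ht
  have htR : t.rR = pN.symm r := by rw [ht, FSt.rL_rR]
  have hrE : R.Rim r.stE := Rim_jE hr
  have hHo : Ho t = Hof (lin r) := h3 r hr hJr hS
  have hkv : N.kv t := hS.1
  have hke : ¬ N.ke t := hS.2
  have htE : t.stE = r.rL := symm_rL_stE r
  have htl : t.stE.r2 = r.rR := by rw [htE, FSt.rL_r2]
  have htOp : t ∉ L.map Prod.fst := by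
    intro hc
    have := (h1.op t hc).JE
    rw [htE] at this
    exact hJ0 _ this hr.2
  have hHi : Hi t = Ho t := h1.io t hJr (Nb.nkf_of_nke hke) hkv htOp
  have hα : Hof (lin r) = 0 ∨ Hof (lin r) = 1 := Hof_ns hl
  have hVt : V t ↔ Hof (lin r) = 0 := by
    rw [← hHo]; exact h1.vx t hJr hkv hke htOp
  have hVb : V (pN.symm r) ↔ Hof (lin r) ≠ 0 := by
    have h6 := V_rL h1.V_rR (s := pN.symm r) hJr
    rw [← ht, hVt] at h6
    tauto
  -- the new vertex
  have hval : Val t.rR 4 := by rw [htR]; exact rim_val hr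
  have e0 : (rot ^ 0) t.rR = pN.symm r := htR
  have e1 : (rot ^ 1) t.rR = (pN.symm r.stE).rL := by
    show rot t.rR = _
    rw [htR, rim_rot0 hr]
  have e2 : (rot ^ 2) t.rR = r.stE.r2 := by
    show rot (rot t.rR) = _
    rw [htR, rim_rot0 hr, symm_rL_rot]
  have e3 : (rot ^ 3) t.rR = r.rR := by
    show rot (rot (rot t.rR)) = _
    rw [htR, rim_rot0 hr, symm_rL_rot, rim_rot2]
  have hnewR : ¬ N.kv t.rR := by rw [htR]; exact hnew
  have nc2 : ¬ J r.stE.r2.facet := fun hc => hJ0 _ hc hrE.2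
  have nc3 : ¬ J r.rR.facet := fun hc => hJ0 _ hc hr.2
  have ncE : ¬ J t.stE.facet := by rw [htE]; exact fun hc => hJ0 _ hc hr.2
  set α := Hof (lin r) with hαdef
  obtain ⟨Hi', Ho', Op', g1, g2, g3, g4, g5⟩ := h1.stepF (N' := N') hkv hke hnewR hA.one1
    hA.one2 hA.kf (a := α - 1) (b := 0)
    (fun _ => ⟨by rw [hHi, hHo]; ring, by omega, by omega, by rw [hVt]; omega⟩)
    (fun hc => absurd hc ncE) (n := 2) hval
    (hi := fun i => if i = 0 then α - 1 else α) (ho := fun i => if i = 0 then α - 1 else α)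
    (po := fun _ => False) (fun _ => by simp)
    (fun i hi1 hi2 => by
      have : i = 0 ∨ i = 1 := by omega
      rcases this with rfl | rfl
      · simp
      · exfalso; rw [show 1 + 1 = 2 from rfl, e2] at hi2; exact nc2 hi2)
    (fun hc => absurd hc ncE)
    (fun i hi1 hi2 _ => by
      have : i = 0 ∨ i = 1 ∨ i = 2 := by omega
      rcases this with rfl | rfl | rfl
      · refine ⟨rfl, ?_, ?_, ?_⟩
        · simp; omega
        · simp; omega
        · rw [e0, hVb]; simp; omega
      · rw [e1] at hi2 ⊢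
        refine ⟨rfl, ?_, ?_, ?_⟩
        · simp; omega
        · simp; omega
        · rw [V_rL h1.V_rR (s := pN.symm r.stE) hi2, hV, hVb]; simp
      · rw [e2] at hi2; exact absurd hi2 nc2)
    (fun i hi1 hi2 _ => by
      have : i = 0 ∨ i = 1 ∨ i = 2 := by omega
      rcases this with rfl | rfl | rfl
      · rw [zero_add, e1] at hi2 ⊢
        refine ⟨?_, ?_, ?_⟩
        · simp; omega
        · simp; omega
        · rw [V_rL h1.V_rR (s := pN.symm r.stE) hi2, hV, hVb]; simp; omega
      · rw [show 1 + 1 = 2 from rfl, e2] at hi2; exact absurd hi2 nc2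
      · rw [show 2 + 1 = 3 from rfl, e3] at hi2; exact absurd hi2 nc3)
    (fun i _ hc => hc.elim)
  have hLn : ∀ s, s ∈ L.map Prod.fst → ¬ SC t.rR s := fun s hs hc =>
    hnewR ((N.kv_SC hc).2 (h1.op s hs).kv)
  have hLt : ∀ s, s ∈ L.map Prod.fst → s ≠ t := fun s hs hc => htOp (hc ▸ hs)
  have hOp : Op' = fun s => s ∈ L.map Prod.fst := by
    funext s
    apply propext
    by_cases hs : SC t.rR s
    · by_cases hsl : s = t.stE.r2
      · rw [hsl]
        rw [hsl] at hs
        exact iff_of_false g5.2.2 fun hc => hLn _ hc hs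
      · obtain ⟨i, hi1, rfl⟩ := hval.SC_iff.1 hs
        have hin : i ≤ 2 := by
          by_contra hc
          have : i = 3 := by omega
          rw [this, e3, ← htl] at hsl
          exact hsl rfl
        rw [(g4 i hin).2.2]
        exact iff_of_false id fun hc => hLn _ hc hs
    · by_cases hst : s = t
      · rw [hst]
        exact iff_of_false g3.2.2 htOp
      · exact (g2 s hst hs).2.2
  refine ⟨h.nd, ⟨Hi', Ho', by rw [← hOp]; exact g1, ?_, ?_, ?_⟩,
    Nb.one_step h.one hkv hnewR hA.one1 hA.one2 hA.kf, h.lE⟩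
  · intro p hp1
    have hm : p.1 ∈ L.map Prod.fst := List.mem_map_of_mem hp1
    rw [(g2 p.1 (hLt _ hm) (hLn _ hm)).1, (g2 p.1 (hLt _ hm) (hLn _ hm)).2.1]
    exact h2 p hp1
  · intro u hu hJu hSu
    by_cases hn : SC t.rR (pN.symm u).rL
    · rw [htR] at hn
      have hur : u = r.stE := rim_SC_in hr hu hn
      subst hur
      have h6 := (g4 1 (by norm_num)).2.1
      rw [e1] at h6
      rw [h6, (h.lE r hr hJr).1]
      simp [hαdef]
    · obtain ⟨k1, k2⟩ := lab_in hA (fun s hs hs2 => (g2 s hs hs2).2.1) hSu hn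
      rw [k2]; exact h3 u hu hJu k1
  · intro u hu hJu hSu
    by_cases hn : SC t.rR (pN.symm u)
    · rw [htR] at hn
      have hur : u = r := rim_SC_out hr hu hn
      subst hur
      exfalso
      apply hSu.2
      rw [hA.one2]
      exact Or.inr (Or.inl rfl)
    · obtain ⟨k1, k2⟩ := lab_out hA (fun s hs hs2 => (g2 s hs hs2).2.1) hSu hn
      rw [k2]; exact h4 u hu hJu k1

/-- **The east foot of the gap (`En`) moves one edge to the west.** -/
theorem Gr.extW (hJ0 : ∀ f, J f → ¬ R.core f) {r : P.FSt} (hr : R.Rim r)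
    (h : Gr R J N V lin lout L) (hS : En N.kv N.ke r) (hJr : J (pN.symm r).facet)
    (hJW : J (pN.symm (pE.symm r)).facet) (hl : lout r ≠ Ln.n)
    (hnew : ¬ N.kv (pN.symm (pE.symm r)))
    (hV : V (pN.symm (pE.symm r)) ↔ V (pN.symm r))
    (hA : Adds N N' (fun s => s = r.rR)) :
    Gr R J N' V lin lout L := by
  classical
  obtain ⟨Hi, Ho, h1, h2, h3, h4⟩ := h.ex
  set t : P.FSt := r.rR with ht
  set w : P.FSt := pE.symm r with hw
  have hwr : w.stE = r := pE_symm_stE r
  have hwR : R.Rim w := Rim_W hr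
  have htR : t.rR = r.r2 := by rw [ht, FSt.rR_rR]
  have htrot : rot t = pN.symm r := rim_rot3 r
  have hpre : pre (pN.symm r) = t := by
    have h8 := pre_of_rot t
    have h9 : t.stE.rL = pN.symm r := htrot
    rw [h9] at h8
    exact h8
  have htE : t.stE = (pN.symm r).rR := by
    have h9 : t.stE.rL = pN.symm r := htrot
    rw [← h9, FSt.rL_rR]
  have htl : t.stE.r2 = (pN.symm r).rL := by rw [htE, FSt.rR_r2]
  have hkv : N.kv t := by
    have h6 := hS.1
    rw [← htrot, Nb.rot_apply, N.kv_rot] at h6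
    exact h6
  have hke : ¬ N.ke t := by
    intro hc
    apply hS.2
    rw [← htl]
    exact (N.ke_rev t).2 hc
  have hHo : Ho t = Hof (lout r) := by
    have := h4 r hr hJr hS
    rwa [hpre] at this
  have ncT : ¬ J t.facet := fun hc => hJ0 _ hc hr.2
  have htOp : t ∉ L.map Prod.fst := fun hc => ncT (h1.op t hc).Jt
  have hα : Hof (lout r) = 0 ∨ Hof (lout r) = -1 := Hof_nn hl
  have hVb : V (pN.symm r) ↔ Hof (lout r) ≠ 0 := by
    have h6 := h1.vx' (pN.symm r) hJr hS.1 hS.2 (by rw [hpre]; exact htOp)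
    rw [hpre, hHo] at h6
    exact h6
  -- the new vertex
  have e00 : (rot ^ 2) (pN.symm w) = t.rR := by
    show rot (rot (pN.symm w)) = _
    rw [rim_rot0 hwR, hwr, symm_rL_rot, htR]
  have hval : Val t.rR 4 := by rw [← e00]; exact (rim_val hwR).shift_pow 2
  have e0 : (rot ^ 0) t.rR = r.r2 := htR
  have e1 : (rot ^ 1) t.rR = w.rR := by
    show rot t.rR = _
    rw [htR, ← hwr, rim_rot2]
  have e2 : (rot ^ 2) t.rR = pN.symm w := by
    show rot (rot t.rR) = _
    rw [htR, ← hwr, rim_rot2, rim_rot3]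
  have e3 : (rot ^ 3) t.rR = (pN.symm r).rL := by
    show rot (rot (rot t.rR)) = _
    rw [htR, ← hwr, rim_rot2, rim_rot3, rim_rot0 hwR]
  have hSC : ∀ s, SC t.rR s ↔ SC (pN.symm w) s := by
    intro s
    have h6 : SC (pN.symm w) t.rR := by
      rw [← e00]
      exact Equiv.Perm.sameCycle_pow_right.2 (Equiv.Perm.SameCycle.refl _ _)
    exact ⟨fun h7 => Equiv.Perm.SameCycle.trans h6 h7,
      fun h7 => Equiv.Perm.SameCycle.trans (Equiv.Perm.SameCycle.symm h6) h7⟩
  have hnewR : ¬ N.kv t.rR := by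
    rw [N.kv_SC ((hSC _).2 (Equiv.Perm.SameCycle.refl _ _))]
    exact hnew
  have nc0 : ¬ J r.r2.facet := fun hc => hJ0 _ hc hr.2
  have nc1 : ¬ J w.rR.facet := fun hc => hJ0 _ hc hwR.2
  have hJtE : J t.stE.facet := by rw [htE]; exact hJr
  set β := Hof (lout r) with hβdef
  have hVtE : V t.stE ↔ β = 0 := by
    rw [htE, h1.V_rR (pN.symm r) hJr, hVb]; simp
  obtain ⟨Hi', Ho', Op', g1, g2, g3, g4, g5⟩ := h1.stepF (N' := N') hkv hke hnewR hA.one1
    hA.one2 hA.kf (a := 0) (b := β + 1)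
    (fun hc => absurd hc ncT)
    (fun _ => ⟨by rw [hHo]; ring, by omega, by omega, by rw [hVtE]; omega⟩) (n := 2) hval
    (hi := fun i => if i = 2 then β + 1 else β) (ho := fun i => if i = 2 then β + 1 else β)
    (po := fun _ => False) (fun hc => absurd hc ncT)
    (fun i hi1 hi2 => by
      have : i = 0 ∨ i = 1 := by omega
      rcases this with rfl | rfl
      · exfalso; rw [zero_add, e1] at hi2; exact nc1 hi2
      · simp)
    (fun _ => by simp)
    (fun i hi1 hi2 _ => by
      have : i = 0 ∨ i = 1 ∨ i = 2 := by omega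
      rcases this with rfl | rfl | rfl
      · rw [e0] at hi2; exact absurd hi2 nc0
      · rw [e1] at hi2; exact absurd hi2 nc1
      · rw [e2] at hi2 ⊢
        refine ⟨rfl, ?_, ?_, ?_⟩
        · simp; omega
        · simp; omega
        · rw [hV, hVb]; simp; omega)
    (fun i hi1 hi2 _ => by
      have : i = 0 ∨ i = 1 ∨ i = 2 := by omega
      rcases this with rfl | rfl | rfl
      · rw [zero_add, e1] at hi2; exact absurd hi2 nc1
      · rw [show 1 + 1 = 2 from rfl, e2] at hi2 ⊢
        refine ⟨?_, ?_, ?_⟩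
        · simp; omega
        · simp; omega
        · rw [hV, hVb]; simp
      · rw [show 2 + 1 = 3 from rfl, e3] at hi2 ⊢
        refine ⟨?_, ?_, ?_⟩
        · simp; omega
        · simp; omega
        · rw [V_rL h1.V_rR (s := pN.symm r) hi2, hVb]; simp; omega)
    (fun i _ hc => hc.elim)
  have hLn : ∀ s, s ∈ L.map Prod.fst → ¬ SC t.rR s := fun s hs hc =>
    hnewR ((N.kv_SC hc).2 (h1.op s hs).kv)
  have hLt : ∀ s, s ∈ L.map Prod.fst → s ≠ t := fun s hs hc => htOp (hc ▸ hs)
  have hOp : Op' = fun s => s ∈ L.map Prod.fst := by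
    funext s
    apply propext
    by_cases hs : SC t.rR s
    · by_cases hsl : s = t.stE.r2
      · rw [hsl]
        rw [hsl] at hs
        exact iff_of_false g5.2.2 fun hc => hLn _ hc hs
      · obtain ⟨i, hi1, rfl⟩ := hval.SC_iff.1 hs
        have hin : i ≤ 2 := by
          by_contra hc
          have : i = 3 := by omega
          rw [this, e3, ← htl] at hsl
          exact hsl rfl
        rw [(g4 i hin).2.2]
        exact iff_of_false id fun hc => hLn _ hc hs
    · by_cases hst : s = t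
      · rw [hst]
        exact iff_of_false g3.2.2 htOp
      · exact (g2 s hst hs).2.2
  refine ⟨h.nd, ⟨Hi', Ho', by rw [← hOp]; exact g1, ?_, ?_, ?_⟩,
    Nb.one_step h.one hkv hnewR hA.one1 hA.one2 hA.kf, h.lE⟩
  · intro p hp1
    have hm : p.1 ∈ L.map Prod.fst := List.mem_map_of_mem hp1
    rw [(g2 p.1 (hLt _ hm) (hLn _ hm)).1, (g2 p.1 (hLt _ hm) (hLn _ hm)).2.1]
    exact h2 p hp1
  · intro u hu hJu hSu
    by_cases hn : SC t.rR (pN.symm u).rL
    · have hur : u = r := by
        have := rim_SC_in hwR hu ((hSC _).1 hn)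
        rw [this, hwr]
      subst hur
      exfalso
      apply hSu.2
      rw [hA.one2]
      exact Or.inr (Or.inr htl.symm)
    · obtain ⟨k1, k2⟩ := lab_in hA (fun s hs hs2 => (g2 s hs hs2).2.1) hSu hn
      rw [k2]; exact h3 u hu hJu k1
  · intro u hu hJu hSu
    by_cases hn : SC t.rR (pN.symm u)
    · have hur : u = w := rim_SC_out hwR hu ((hSC _).1 hn)
      have h6 := (g4 1 (by norm_num)).2.1
      rw [e1] at h6
      have h7 : pre (pN.symm w) = w.rR := by
        have h8 := pre_of_rot w.rR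
        have h9 : w.rR.stE.rL = pN.symm w := rim_rot3 w
        rw [h9] at h8
        exact h8
      have h11 := (h.lE w hwR hJW).2
      rw [hwr] at h11
      rw [hur, h7, h6, ← h11]
      simp [hβdef]
    · obtain ⟨k1, k2⟩ := lab_out hA (fun s hs hs2 => (g2 s hs hs2).2.1) hSu hn
      rw [k2]; exact h4 u hu hJu k1

end

end Pool.Agent.MP42K
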