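import Pool.Agent.MP42.K.Port6
import Pool.Agent.MP42.V.Vert

/-!
# Coordinates: corner points, flat steps, straight runs

`pt2 s`: the north-east corner of `s` (twice the point, up to a constant vector); it is constant
around the corner.  `stE_flat`, `stN_flat`, `stS_flat`: steps in a plane.  `Gr.run_flat`: a straight
run in a plane.  `VA ax`: the lines given by an axis for every facet.
-/

set_option autoImplicit false
set_option linter.unusedSectionVars false

namespace Pool.Agent.MP42K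

open Pool.Agent.Helper55.UNF Pool.Agent.Helper55.UNF.GridSolid Pool.Agent.MP42G
open Pool.Agent.MP42H Pool.Agent.MP42X Pool.Agent.MP42R
open Core1 (jf)
open Nb (SC SC_rot_right SC_rot_left SC_rev rev_rot rot)
open Pool.Agent.MP42V (vec vec_opp kappa_cases fr_kappa occ cellAt bi fr Ff)

variable {P : GridSolid}

lemma shift_vec (c : Fin 3 → ℤ) (w : Dir) : shift c w = c + vec w :=
  Pool.Agent.MP42V.shift_add c w

/-- the north-east corner -/
def pt2 (s : P.FSt) : Fin 3 → ℤ := (2 : ℤ) • s.1.c + vec s.1.d + vec s.1.e + vec s.1.n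

lemma pt2_rot (s : P.FSt) : pt2 s.stE.rL = pt2 s := by
  have h1 := kappa_cases s
  have h2 := fr_kappa s
  have h0 : pt2 s.stE.rL = (2 : ℤ) • (Pool.Agent.MP42.Geo.kappa s).1.c +
      vec (fr (Pool.Agent.MP42.Geo.kappa s).1).1 + vec (fr (Pool.Agent.MP42.Geo.kappa s).1).2.1 +
      vec (fr (Pool.Agent.MP42.Geo.kappa s).1).2.2 := rfl
  have hc2 : (Pool.Agent.MP42.Geo.kappa s).1.c = (if occ P s.1 true true false then
      cellAt s.1 true true false
      else if occ P s.1 false true false then cellAt s.1 false true false else s.1.c) := by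
    rw [h1]
    split_ifs <;> rfl
  rw [h0, h2, hc2]
  unfold Ff fr pt2
  simp only
  have e1 : bi true = 1 := rfl
  have e2 : bi false = 0 := rfl
  split_ifs with a b
  · simp only [vec_opp]
    unfold cellAt
    rw [e1, e2]
    module
  · simp only [vec_opp]
    unfold cellAt
    rw [e1, e2]
    module
  · module

lemma pt2_SC {s t : P.FSt} (h : SC s t) : pt2 t = pt2 s := by
  obtain ⟨n, rfl⟩ := Equiv.Perm.SameCycle.exists_nat_pow_eq h
  clear h
  induction n with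
  | zero => rfl
  | succ n ih =>
    rw [pow_succ', Equiv.Perm.mul_apply, Nb.rot_apply, pt2_rot]
    exact ih

lemma r2_n' (s : P.FSt) : s.r2.1.n = opp s.1.n := r2_n s

lemma rR_n (s : P.FSt) : s.rR.1.n = s.1.e := by
  show cross s.1.d (opp (cross s.1.d s.1.e)) = _
  exact cross_opp_cross _ _ s.2.2

lemma rR_e (s : P.FSt) : s.rR.1.e = opp s.1.n := rfl

lemma rL_n (s : P.FSt) : s.rL.1.n = opp s.1.e := by
  show cross s.1.d (cross s.1.d s.1.e) = _
  exact cross_cross _ _ s.2.2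

lemma rL_e (s : P.FSt) : s.rL.1.e = s.1.n := rfl

/-- the south-east corner -/
lemma pt2_rR (s : P.FSt) : pt2 s.rR = (2 : ℤ) • s.1.c + vec s.1.d + vec s.1.e - vec s.1.n := by
  unfold pt2
  rw [rR_n, rR_e, vec_opp]
  show (2 : ℤ) • s.1.c + vec s.1.d + -vec s.1.n + vec s.1.e = _
  module

/-- the north-west corner -/
lemma pt2_rL (s : P.FSt) : pt2 s.rL = (2 : ℤ) • s.1.c + vec s.1.d - vec s.1.e + vec s.1.n := by
  unfold pt2
  rw [rL_n, rL_e, vec_opp]
  show (2 : ℤ) • s.1.c + vec s.1.d + vec s.1.n + -vec s.1.e = _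
  module

/-- the south-west corner -/
lemma pt2_r2 (s : P.FSt) : pt2 s.r2 = (2 : ℤ) • s.1.c + vec s.1.d - vec s.1.e - vec s.1.n := by
  unfold pt2
  rw [r2_n']
  show (2 : ℤ) • s.1.c + vec s.1.d + vec (opp s.1.e) + vec (opp s.1.n) = _
  rw [vec_opp, vec_opp]
  module

/-! ## Flat steps -/

lemma stE_flat {s : P.FSt} (h : P.IsFacet (shift s.1.c s.1.e, s.1.d)) :
    s.stE.1 = ⟨shift s.1.c s.1.e, s.1.d, s.1.e⟩ := by
  show s.1.stepE P = _
  unfold St.stepE
  have h1 : shift (shift s.1.c s.1.e) s.1.d ∉ P.cells := h.2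
  have h2 : shift s.1.c s.1.e ∈ P.cells := h.1
  rw [if_neg h1, if_pos h2]

lemma n_ne_d (s : P.FSt) : s.1.n.1 ≠ s.1.d.1 := cross_axis_left _ _ s.2.2

lemma n_ne_e (s : P.FSt) : s.1.n.1 ≠ s.1.e.1 := cross_axis_right _ _ s.2.2

lemma stN_flat {s : P.FSt} (h : P.IsFacet (shift s.1.c s.1.n, s.1.d)) :
    s.stN.1 = ⟨shift s.1.c s.1.n, s.1.d, s.1.e⟩ := by
  have h1 : s.rL.stE.1 = ⟨shift s.1.c s.1.n, s.1.d, s.1.n⟩ := stE_flat (s := s.rL) h
  show (s.rL.stE.1).rotR = _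
  rw [h1]
  unfold St.rotR St.n
  simp only
  congr 1
  show opp (cross s.1.d (cross s.1.d s.1.e)) = _
  rw [cross_cross _ _ s.2.2, opp_opp]

lemma stS_flat {s : P.FSt} (h : P.IsFacet (shift s.1.c (opp s.1.n), s.1.d)) :
    (pN.symm s).1 = ⟨shift s.1.c (opp s.1.n), s.1.d, s.1.e⟩ := by
  have e0 : pN.symm s = s.r2.stN.r2 := pN_symm_apply s
  have h1 : s.r2.stN.1 = ⟨shift s.1.c (opp s.1.n), s.1.d, opp s.1.e⟩ := by
    have := stN_flat (s := s.r2) (by
      show P.IsFacet (shift s.1.c s.r2.1.n, s.1.d)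
      rw [r2_n']; exact h)
    rw [this, r2_n']
    rfl
  rw [e0]
  show (s.r2.stN.1).rot2 = _
  rw [h1]
  unfold St.rot2
  simp only [opp_opp]

/-- a straight line to the south -/
lemma stS_pow {t : P.FSt} (m : ℕ)
    (h : ∀ i : ℕ, i ≤ m → P.IsFacet (t.1.c - (i : ℤ) • vec t.1.n, t.1.d)) :
    ((pN.symm ^ m) t).1 = ⟨t.1.c - (m : ℤ) • vec t.1.n, t.1.d, t.1.e⟩ := by
  induction m with
  | zero =>
    show t.1 = _
    have : t.1.c - ((0 : ℕ) : ℤ) • vec t.1.n = t.1.c := by simp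
    rw [this]
  | succ m ih =>
    have h1 := ih (fun i hi => h i (by omega))
    have hc : ((pN.symm ^ m) t).1.c = t.1.c - (m : ℤ) • vec t.1.n := by rw [h1]
    have hd : ((pN.symm ^ m) t).1.d = t.1.d := by rw [h1]
    have he : ((pN.symm ^ m) t).1.e = t.1.e := by rw [h1]
    have hn : ((pN.symm ^ m) t).1.n = t.1.n := by
      show cross ((pN.symm ^ m) t).1.d ((pN.symm ^ m) t).1.e = cross t.1.d t.1.e
      rw [hd, he]
    have hsh : shift ((pN.symm ^ m) t).1.c (opp ((pN.symm ^ m) t).1.n) =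
        t.1.c - ((m + 1 : ℕ) : ℤ) • vec t.1.n := by
      rw [shift_vec, hc, hn, vec_opp]
      push_cast
      module
    have h2 := stS_flat (s := (pN.symm ^ m) t) (by
      rw [hsh, hd]; exact h (m + 1) le_rfl)
    rw [pow_succ', Equiv.Perm.mul_apply, h2, hsh, hd, he]

/-- states with the same data -/
lemma st_eq {s t : P.FSt} (h : s.1 = t.1) : s = t := Subtype.ext h

/-- the lines given by an axis -/
def VA (ax : P.Facet → Fin 3) (s : P.FSt) : Prop := s.1.n.1 = ax s.facet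

lemma VA_rR {ax : P.Facet → Fin 3} {s : P.FSt} (h : ax s.facet ≠ s.1.d.1) :
    VA ax s.rR ↔ ¬ VA ax s := by
  unfold VA
  rw [rR_n]
  have h1 := s.2.2
  have h2 := n_ne_d s
  have h3 := n_ne_e s
  have key : ∀ d e n x : Fin 3, d ≠ e → n ≠ d → n ≠ e → x ≠ d → (e = x ↔ ¬ n = x) := by decide
  exact key _ _ _ _ h1 h2 h3 h

section

variable {R : Core1 P} {J : P.Facet → Prop} {N N' : Nb P} {V : P.FSt → Prop}
  {lin lout : P.FSt → Ln} {L : List (P.FSt × ℤ × ℤ)}

lemma vec_ne_zero (w : Dir) : vec w ≠ 0 := by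
  intro h
  have h1 : vec w w.1 = 0 := by rw [h]; rfl
  unfold vec at h1
  rw [if_pos rfl] at h1
  split_ifs at h1
  exact one_ne_zero h1

/-- **A straight run in a plane.** -/
theorem Gr.run_flat (hJ0 : ∀ f, J f → ¬ R.core f) {t : P.FSt} {a b : ℤ}
    (h : Gr R J N V lin lout ((t, a, b) :: L)) (m : ℕ)
    (h1 : ∀ i : ℕ, i ≤ m → P.IsFacet (t.1.c - (i : ℤ) • vec t.1.n, t.1.d))
    (h2 : ∀ i : ℕ, i ≤ m → P.IsFacet (t.1.c + vec t.1.e - (i : ℤ) • vec t.1.n, t.1.d))
    (hJ : ∀ i ≤ m, J ((pN.symm ^ i) t).facet ∧ J ((pN.symm ^ i) t).stE.facet)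
    (hnew : ∀ i < m, ¬ N.kv ((pN.symm ^ i) t).rR)
    (hV : ∀ i < m, (V ((pN.symm ^ (i + 1)) t) ↔ V ((pN.symm ^ i) t)) ∧
      (V ((pN.symm ^ (i + 1)) t).stE ↔ V ((pN.symm ^ i) t).stE))
    (hA : Adds N N' (fun s => ∃ i < m, s = (pN.symm ^ i) t)) :
    Gr R J N' V lin lout (((pN.symm ^ m) t, a, b) :: L) := by
  have hT : ∀ i ≤ m, ((pN.symm ^ i) t).1 = ⟨t.1.c - (i : ℤ) • vec t.1.n, t.1.d, t.1.e⟩ :=
    fun i hi => stS_pow i (fun j hj => h1 j (by omega))
  have hTn : ∀ i ≤ m, ((pN.symm ^ i) t).1.n = t.1.n := by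
    intro i hi
    show cross ((pN.symm ^ i) t).1.d ((pN.symm ^ i) t).1.e = cross t.1.d t.1.e
    rw [hT i hi]
  have hTE : ∀ i ≤ m, ((pN.symm ^ i) t).stE.1 =
      ⟨t.1.c + vec t.1.e - (i : ℤ) • vec t.1.n, t.1.d, t.1.e⟩ := by
    intro i hi
    have e1 : shift ((pN.symm ^ i) t).1.c ((pN.symm ^ i) t).1.e =
        t.1.c + vec t.1.e - (i : ℤ) • vec t.1.n := by
      rw [hT i hi, shift_vec]
      show t.1.c - (i : ℤ) • vec t.1.n + vec t.1.e = _
      module
    have hd : ((pN.symm ^ i) t).1.d = t.1.d := by rw [hT i hi]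
    have he : ((pN.symm ^ i) t).1.e = t.1.e := by rw [hT i hi]
    have h3 := stE_flat (s := (pN.symm ^ i) t) (by rw [e1, hd]; exact h2 i hi)
    rw [h3, e1, hd, he]
  refine h.run hJ0 m ?_ hJ hnew ?_ hV hA
  · intro i hi
    apply st_eq
    have e0 : pN.symm ((pN.symm ^ i) t) = (pN.symm ^ (i + 1)) t := by
      rw [pow_succ', Equiv.Perm.mul_apply]
    rw [e0, hTE (i + 1) (by omega)]
    have hd : ((pN.symm ^ i) t).stE.1.d = t.1.d := by rw [hTE i hi.le]
    have he : ((pN.symm ^ i) t).stE.1.e = t.1.e := by rw [hTE i hi.le]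
    have hn : ((pN.symm ^ i) t).stE.1.n = t.1.n := by
      show cross ((pN.symm ^ i) t).stE.1.d ((pN.symm ^ i) t).stE.1.e = cross t.1.d t.1.e
      rw [hd, he]
    have e1 : shift ((pN.symm ^ i) t).stE.1.c (opp ((pN.symm ^ i) t).stE.1.n) =
        t.1.c + vec t.1.e - ((i + 1 : ℕ) : ℤ) • vec t.1.n := by
      rw [shift_vec, hn, vec_opp, hTE i hi.le]
      show t.1.c + vec t.1.e - (i : ℤ) • vec t.1.n + -vec t.1.n = _
      push_cast
      module
    have h3 := stS_flat (s := ((pN.symm ^ i) t).stE) (by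
      rw [e1, hd]; exact h2 (i + 1) (by omega))
    rw [h3, e1, hd, he]
  · intro i j hij hj hc
    have h3 := pt2_SC hc
    rw [pt2_rR, pt2_rR, hTn i (by omega), hTn j (by omega), hT i (by omega),
      hT j (by omega)] at h3
    simp only at h3
    have h4 : (2 * ((j : ℤ) - i)) • vec t.1.n = 0 := by
      have h5 : (2 : ℤ) • (t.1.c - (j : ℤ) • vec t.1.n) + vec t.1.d + vec t.1.e - vec t.1.n
        - ((2 : ℤ) • (t.1.c - (i : ℤ) • vec t.1.n) + vec t.1.d + vec t.1.e - vec t.1.n) = 0 := by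
        rw [h3]; simp
      have h6 : (2 : ℤ) • (t.1.c - (j : ℤ) • vec t.1.n) + vec t.1.d + vec t.1.e - vec t.1.n
        - ((2 : ℤ) • (t.1.c - (i : ℤ) • vec t.1.n) + vec t.1.d + vec t.1.e - vec t.1.n) =
        -((2 * ((j : ℤ) - i)) • vec t.1.n) := by module
      rw [h6] at h5
      exact neg_eq_zero.1 h5
    rcases smul_eq_zero.1 h4 with h5 | h5
    · omega
    · exact vec_ne_zero _ h5

end

end Pool.Agent.MP42K
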