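import Pool.Agent.MP42.K.QVal

/-!
# One strand per facet: the strands of the adapter facets
-/

set_option autoImplicit false
set_option linter.unusedSectionVars false

namespace Pool.Agent.MP42K

open Pool.Agent.Helper55.UNF Pool.Agent.Helper55.UNF.GridSolid Pool.Agent.MP42G
open Pool.Agent.MP42H Pool.Agent.MP42X Pool.Agent.MP42R

variable {P : GridSolid}

lemma CR.congr {c c' : ℕ → ℕ} {a a' b b' : ℕ → Ln} {v S N : ℕ → Prop} (h : CR c a b v S N)
    (hc : ∀ x ≤ 3, c' x = c x) (ha : ∀ x < 3, a' x = a x) (hb : ∀ x < 3, b' x = b x) :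
    CR c' a' b' v S N where
  zz := by
    intro x hx h1 h2 h3
    rw [ha x hx] at h1
    rw [hb x hx] at h2
    rw [hc x (by omega), hc (x + 1) (by omega)] at h3
    exact h.zz x hx h1 h2 h3
  sn := by
    intro x hx h1 h3
    rw [ha x hx] at h1
    rw [hc (x + 1) (by omega)] at h3
    exact h.sn x hx h1 h3
  ss := by
    intro x hx h1 h3
    rw [ha x hx] at h1
    rw [hc x (by omega)] at h3
    exact h.ss x hx h1 h3
  nn := by
    intro x hx h1 h3
    rw [hb x hx] at h1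
    rw [hc x (by omega)] at h3
    exact h.nn x hx h1 h3
  ns := by
    intro x hx h1 h3
    rw [hb x hx] at h1
    rw [hc (x + 1) (by omega)] at h3
    exact h.ns x hx h1 h3
  ab := by
    intro x hx h1 h2 h3
    rw [ha x hx] at h1 h2
    rw [hb x hx] at h2
    rw [hc x (by omega)] at h3
    exact h.ab x hx h1 h2 h3

namespace QX0

variable (C : QX0 P) {r s t : P.FSt}
variable {V : P.Facet → ℕ → ℕ → Prop} {S N : P.Facet → ℕ → Prop}

open Classical in
/-- value over the east side of the state -/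
noncomputable def ev (V : P.Facet → ℕ → ℕ → Prop) (s : P.FSt) : Prop :=
  if C.canT s.facet = s then V s.facet 3 0 else V s.facet 0 0

open Classical in
/-- value over the north side of the state -/
noncomputable def nv (S N : P.Facet → ℕ → Prop) (s : P.FSt) (x : ℕ) : Prop :=
  if C.canT s.facet = s then N s.facet x else S s.facet (2 - x)

lemma EV_pos (h : 0 < C.EV s) : C.canT s.facet = s ∨ C.canT s.facet = s.r2 := by
  unfold EV at h
  by_contra h1
  rw [if_neg (fun h2 => h1 (Or.inl h2)), if_neg (fun h2 => h1 (Or.inr h2))] at h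
  omega

lemma le1 {c : ℕ} (h : c ≤ 1) (h' : 0 < c) : c - 1 - 0 = 0 := by omega

theorem GEv (I : C.toRX0.Inv V S N) (h1 : QR.rwI C.toRows7 s.facet = 0)
    (h2 : QR.rwI C.toRows7 s.stE.facet = 0) (h : 0 < C.EV s) : C.ev V s ↔ C.ev V s.stE.r2 := by
  have h' := h
  rw [C.GE h1 h2] at h'
  have hs := C.EV_pos h
  have ht := C.EV_pos h'
  rw [FSt.facet_r2, FSt.r2_r2] at ht
  have ht2 : s.stE.r2.stE = s.r2 := FSt.stE_inv s
  unfold ev
  rw [FSt.facet_r2]
  unfold EV at h h'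
  rw [FSt.facet_r2, FSt.r2_r2] at h'
  rcases hs with hs | hs <;> rcases ht with ht | ht
  · rw [if_pos hs, if_pos ht]
    rw [if_pos hs] at h
    have h5 := I.gEr s.facet s.stE.facet h1 h2 (by
      show (C.canT s.facet).stE = (C.canT s.stE.facet).r2
      rw [hs, ht, FSt.r2_r2]) 0 h
    rwa [show C.toRX0.cn s.facet 3 - 1 - 0 = 0 from le1 (C.bd h1 3) h] at h5
  · rw [if_pos hs, if_neg (by rw [ht]; exact (r2_ne _).symm)]
    rw [if_pos hs] at h
    exact I.gE s.facet s.stE.facet h1 h2 (by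
      show (C.canT s.facet).stE = C.canT s.stE.facet
      rw [hs, ht]) 0 h
  · rw [if_neg (by rw [hs]; exact r2_ne _), if_pos ht]
    rw [if_pos ht] at h'
    exact (I.gE s.stE.facet s.facet h2 h1 (by
      show (C.canT s.stE.facet).stE = C.canT s.facet
      rw [hs, ht, ht2]) 0 h').symm
  · rw [if_neg (by rw [hs]; exact r2_ne _), if_neg (by rw [ht]; exact (r2_ne _).symm)]
    rw [if_neg (by rw [hs]; exact r2_ne _), if_pos hs] at h
    have h5 := I.gWr s.facet s.stE.facet h1 h2 (by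
      show (C.canT s.facet).r2.stE = C.canT s.stE.facet
      rw [hs, ht, FSt.r2_r2]) 0 h
    rwa [show C.toRX0.cn s.facet 0 - 1 - 0 = 0 from le1 (C.bd h1 0) h] at h5

theorem GNv (I : C.toRX0.Inv V S N) (h1 : QR.rwI C.toRows7 s.facet = 0)
    (h2 : QR.rwI C.toRows7 s.stN.facet = 0) {x : ℕ} (hx : x < 3) (h : C.NV s x ≠ Ln.z) :
    C.nv S N s x ↔ C.nv S N s.stN.r2 (2 - x) := by
  have hal : C.Al s := by
    by_contra h3
    exact h ((C.GN h1 h2 hx).2 h3)
  have h' := h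
  rw [(C.GN h1 h2 hx).1 hal] at h'
  have ht2 : s.stN.r2.stN = s.r2 := FSt.stN_inv s
  unfold nv
  rw [FSt.facet_r2]
  rcases hal with ⟨hs, ht⟩ | ⟨hs, ht⟩
  · rw [if_pos hs, if_neg (by rw [ht]; exact (r2_ne _).symm), show 2 - (2 - x) = x by omega]
    refine I.gN s.facet s.stN.facet h1 h2 ?_ x hx ?_
    · show (C.canT s.facet).stN = C.canT s.stN.facet
      rw [hs, ht]
    · show C.nT s.facet x ≠ Ln.z
      unfold NV wnR at h
      rwa [if_pos hs] at h
  · rw [if_neg (by rw [hs]; exact r2_ne _), if_pos ht]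
    refine (I.gN s.stN.facet s.facet h2 h1 ?_ (2 - x) (by omega) ?_).symm
    · show (C.canT s.stN.facet).stN = C.canT s.facet
      rw [hs, ht, ht2]
    · show C.nT s.stN.facet (2 - x) ≠ Ln.z
      unfold NV wnR at h'
      rwa [FSt.facet_r2, if_pos ht] at h'

/-! ## Junction facets -/

lemma J_ev (I : C.toRX0.Inv V S N) (h0 : C.rw s.facet = 0) (h : 0 < C.EV s) :
    C.ev V s ↔ C.phi V S s.facet := by
  obtain ⟨h1, -, -⟩ := C.phi_all I h0
  have hs := C.EV_pos h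
  unfold EV at h
  unfold ev
  rcases hs with hs | hs
  · rw [if_pos hs]
    rw [if_pos hs, C.cnT_J h0] at h
    exact h1 3 le_rfl h
  · rw [if_neg (by rw [hs]; exact r2_ne _)]
    rw [if_neg (by rw [hs]; exact r2_ne _), if_pos hs, C.cnT_J h0] at h
    exact h1 0 (by omega) h

lemma J_nv (I : C.toRX0.Inv V S N) (h0 : C.rw s.facet = 0) {x : ℕ} (hx : x < 3)
    (h : C.NV s x ≠ Ln.z) : C.nv S N s x ↔ C.phi V S s.facet := by
  obtain ⟨-, h2, h3⟩ := C.phi_all I h0
  unfold NV wnR at h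
  unfold nv
  by_cases hs : C.canT s.facet = s
  · rw [if_pos hs]
    rw [if_pos hs, C.nT_J h0] at h
    unfold nJ at h
    by_cases hc : x = C.col s.facet
    · rw [if_pos hc] at h
      rw [hc]
      exact h3 h
    · rw [if_neg hc] at h
      exact absurd rfl h
  · rw [if_neg hs]
    rw [if_neg hs] at h
    by_cases hs2 : C.canT s.facet = s.r2
    · rw [if_pos hs2, C.sT_J h0] at h
      unfold sJ at h
      have e : 3 - 1 - x = 2 - x := by omega
      rw [e] at h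
      by_cases hc : 2 - x = C.col s.facet
      · rw [if_pos hc] at h
        rw [hc]
        exact h2 h
      · rw [if_neg hc] at h
        exact absurd rfl h
    · rw [if_neg hs2] at h
      exact absurd rfl h

/-! ## Adapter facets -/

open Classical in
noncomputable def vA (V : P.Facet → ℕ → ℕ → Prop) (r : P.FSt) (l : ℕ) : Prop :=
  if C.canT r.facet = r.r2 then V r.facet (3 - l) 0 else V r.facet l 0
open Classical in
noncomputable def SA (S N : P.Facet → ℕ → Prop) (r : P.FSt) (x : ℕ) : Prop :=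
  if C.canT r.facet = r.r2 then N r.facet (2 - x) else S r.facet x
open Classical in
noncomputable def NA (S N : P.Facet → ℕ → Prop) (r : P.FSt) (x : ℕ) : Prop :=
  if C.canT r.facet = r.r2 then S r.facet (2 - x) else N r.facet x

lemma crA (I : C.toRX0.Inv V S N) (h : C.Rim r) (ht : ¬ C.tu r) :
    CR (C.cnA r) (C.sA r) (C.nA r) (C.vA V r) (C.SA S N r) (C.NA S N r) := by
  have h0 := QR.rwI_rim h
  have h1 := C.cr I h0
  rw [C.cnT_A h, C.sT_A h, C.nT_A h] at h1
  rcases C.ca_cases h with ⟨h2, -, h3⟩ | ⟨h2, -, h3⟩ | ⟨-, h2⟩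
  · have e1 : C.vA V r = fun l => V r.facet l 0 := by
      funext l; unfold vA; rw [if_neg (by rw [h2]; exact (r2_ne r).symm)]
    have e2 : C.SA S N r = S r.facet := by
      funext l; unfold SA; rw [if_neg (by rw [h2]; exact (r2_ne r).symm)]
    have e3 : C.NA S N r = N r.facet := by
      funext l; unfold NA; rw [if_neg (by rw [h2]; exact (r2_ne r).symm)]
    rw [e1, e2, e3]
    refine h1.congr (fun x _ => ?_) (fun x _ => ?_) (fun x _ => ?_)
    · unfold cnB; rw [if_neg ht, if_neg h3]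
    · unfold sB; rw [if_neg ht, if_neg h3]
    · unfold nB; rw [if_neg ht, if_neg h3]
  · have e1 : C.vA V r = fun l => V r.facet (3 - l) 0 := by
      funext l; unfold vA; rw [if_pos h2]
    have e2 : C.SA S N r = fun x => N r.facet (2 - x) := by
      funext l; unfold SA; rw [if_pos h2]
    have e3 : C.NA S N r = fun x => S r.facet (2 - x) := by
      funext l; unfold NA; rw [if_pos h2]
    rw [e1, e2, e3]
    have h4 := h1.flip (by
      intro x hx h5
      have b := C.bal_B r hx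
      rw [h5] at b
      omega)
    refine h4.congr (fun x hx => ?_) (fun x hx => ?_) (fun x hx => ?_)
    · show _ = C.cnB r (3 - x)
      unfold cnB
      rw [if_neg ht, if_pos h3, show 3 - (3 - x) = x by omega]
    · show _ = C.nB r (2 - x)
      unfold nB
      rw [if_neg ht, if_pos h3, show 2 - (2 - x) = x by omega]
    · show _ = C.sB r (2 - x)
      unfold sB
      rw [if_neg ht, if_pos h3, show 2 - (2 - x) = x by omega]
  · exact absurd h2 ht

lemma ev_r (h : C.Rim r) (ht : ¬ C.tu r) : C.ev V r ↔ C.vA V r 3 := by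
  unfold ev vA
  rcases C.ca_cases h with ⟨h2, -, -⟩ | ⟨h2, -, -⟩ | ⟨-, h2⟩
  · rw [if_pos h2, if_neg (by rw [h2]; exact (r2_ne r).symm)]
  · rw [if_neg (by rw [h2]; exact r2_ne r), if_pos h2]
  · exact absurd h2 ht

lemma ev_r2 : C.ev V r.r2 ↔ C.vA V r 0 := by
  unfold ev vA
  rw [FSt.facet_r2]

lemma nv_r (h : C.Rim r) (ht : ¬ C.tu r) (x : ℕ) : C.nv S N r x ↔ C.NA S N r x := by
  unfold nv NA
  rcases C.ca_cases h with ⟨h2, -, -⟩ | ⟨h2, -, -⟩ | ⟨-, h2⟩
  · rw [if_pos h2, if_neg (by rw [h2]; exact (r2_ne r).symm)]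
  · rw [if_neg (by rw [h2]; exact r2_ne r), if_pos h2]
  · exact absurd h2 ht

lemma nv_r2 (h : C.Rim r) (ht : ¬ C.tu r) {x : ℕ} (hx : x < 3) :
    C.nv S N r.r2 x ↔ C.SA S N r (2 - x) := by
  unfold nv SA
  rw [FSt.facet_r2]
  rcases C.ca_cases h with ⟨h2, -, -⟩ | ⟨h2, -, -⟩ | ⟨-, h2⟩
  · rw [if_neg (by rw [h2]; exact (r2_ne r).symm), if_neg (by rw [h2]; exact (r2_ne r).symm)]
  · rw [if_pos h2, if_pos h2, show 2 - (2 - x) = x by omega]
  · exact absurd h2 ht

/-- the lane over the rim -/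
lemma SA_phi (I : C.toRX0.Inv V S N) (h : C.Rim r) {x : ℕ} (hx : x < 3) (hn : C.sA r x ≠ Ln.z) :
    C.SA S N r x ↔ C.phi V S (Rows7.jf r) := by
  have ht : ¬ C.tu r := fun ht => hn (C.sA_tu h ht x)
  have e : C.NV r.r2 (2 - x) = C.sA r x := by rw [C.NV_r2 h, show 2 - (2 - x) = x by omega]
  have h1 := C.GNv (s := r.r2) I (by rw [FSt.facet_r2]; exact QR.rwI_rim h)
    (by rw [r2_stN, FSt.facet_r2]; exact QR.rwI_zero.2 (Or.inl (QR.rw_S h))) (x := 2 - x)
    (by omega) (by rw [e]; exact hn)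
  rw [r2_stN, FSt.r2_r2, C.nv_r2 h ht (by omega), show 2 - (2 - x) = x by omega] at h1
  rw [h1]
  exact C.J_nv I (QR.rw_S h) hx (by rw [C.NV_s h hx]; exact hn)

lemma sA_c0 (ht : C.tr r) (h1 : C.F1 r) : C.sA r (C.c0 r) = flet (C.ng r) := by
  unfold sA
  rw [if_pos ht, if_pos ⟨h1, rfl⟩]

lemma sA_zt (ht : C.tr r) {x : ℕ} (hx : x ≠ C.c0 r) : C.sA r x = Ln.z := by
  unfold sA
  rw [if_pos ht, if_neg (fun h => hx h.2)]

lemma cnA_pn (ht : C.tr r) (hn : C.ng r = false) (h1 : C.F1 r) {l : ℕ} (hl : C.c0 r < l) :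
    0 < C.cnA r l := by
  unfold cnA
  rw [if_pos ht, hn, if_neg (by decide), if_neg (by omega), if_pos ⟨h1, hl⟩]
  exact Nat.one_pos

lemma cnA_ps (ht : C.tr r) (hn : C.ng r = true) (h1 : C.F1 r) {l : ℕ} (hl : l ≤ C.c0 r) :
    0 < C.cnA r l := by
  have := C.c0_lt r
  unfold cnA
  rw [if_pos ht, if_pos hn, if_neg (by omega), if_pos ⟨h1, hl⟩]
  exact Nat.one_pos

/-- the strand of a foot with label `+` -/
lemma vA_n (I : C.toRX0.Inv V S N) (h : C.Rim r) (ht : C.tr r) (hn : C.ng r = false)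
    (h1 : C.F1 r) {l : ℕ} (hl : C.c0 r < l) (hl3 : l ≤ 3) :
    C.vA V r l ↔ C.phi V S (Rows7.jf r) := by
  have hA := C.crA I h (C.not_tu_F1 h ht h1)
  have hc := C.c0_lt r
  have h2 : C.sA r (C.c0 r) = Ln.n := by rw [C.sA_c0 ht h1, hn]; rfl
  have h3 := C.SA_phi I h hc (by rw [h2]; decide)
  obtain ⟨j, rfl⟩ : ∃ j, l = C.c0 r + 1 + j := ⟨l - (C.c0 r + 1), by omega⟩
  induction j with
  | zero => exact (hA.sn _ hc h2 (C.cnA_pn ht hn h1 (by omega))).symm.trans h3
  | succ j ih =>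
    refine Iff.trans ?_ (ih (by omega) (by omega))
    refine (hA.zz (C.c0 r + 1 + j) (by omega) (C.sA_zt ht (by omega)) ?_
      (Or.inl (C.cnA_pn ht hn h1 (by omega)))).symm
    unfold nA
    rw [if_pos ht, hn, if_neg (by decide), if_neg]
    omega

/-- the strand of a foot with label `-` -/
lemma vA_s (I : C.toRX0.Inv V S N) (h : C.Rim r) (ht : C.tr r) (hn : C.ng r = true)
    (h1 : C.F1 r) {l : ℕ} (hl : l ≤ C.c0 r) : C.vA V r l ↔ C.phi V S (Rows7.jf r) := by
  have hA := C.crA I h (C.not_tu_F1 h ht h1)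
  have hc := C.c0_lt r
  have h2 : C.sA r (C.c0 r) = Ln.s := by rw [C.sA_c0 ht h1, hn]; rfl
  have h3 := C.SA_phi I h hc (by rw [h2]; decide)
  obtain ⟨j, rfl⟩ : ∃ j, l = C.c0 r - j := ⟨C.c0 r - l, by omega⟩
  induction j with
  | zero => exact (hA.ss _ hc h2 (C.cnA_ps ht hn h1 le_rfl)).symm.trans h3
  | succ j ih =>
    by_cases hj : C.c0 r ≤ j
    · rw [show C.c0 r - (j + 1) = C.c0 r - j by omega]
      exact ih (by omega)
    · refine Iff.trans ?_ (ih (by omega))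
      have e : C.c0 r - j = C.c0 r - (j + 1) + 1 := by omega
      rw [e]
      refine hA.zz _ (by omega) (C.sA_zt ht (by omega)) ?_
        (Or.inl (C.cnA_ps ht hn h1 (by omega)))
      unfold nA
      rw [if_pos ht, if_pos hn, if_neg]
      omega

/-- the strand in the next facet -/
lemma vA_nE (I : C.toRX0.Inv V S N) (h : C.Rim r) (ht : C.tr r) (hn : C.ng r = false)
    (h1 : C.F1 r) : ¬ C.tu r.stE ∧ 0 < C.cnA r.stE 0 ∧
      (C.vA V r.stE 0 ↔ C.phi V S (Rows7.jf r)) := by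
  have hE := QR.rim_E h
  have htu : ¬ C.tu r.stE := C.not_tu_sh hE ((C.tr_E r h).2 ht) (by
    rw [C.ng_E r h, hn, if_neg (by decide), pE_s]; exact h1)
  have hc := C.cnA_pn ht hn h1 (l := 3) (C.c0_lt r)
  refine ⟨htu, by rw [← C.cnA_E h]; exact hc, ?_⟩
  have h2 := C.GEv (s := r) I (QR.rwI_rim h) (QR.rwI_rim hE) (by rw [C.EV_r h]; exact hc)
  rw [C.ev_r h (C.not_tu_F1 h ht h1), C.ev_r2] at h2
  rw [← h2]
  exact C.vA_n I h ht hn h1 (C.c0_lt r) le_rfl

lemma vA_sW (I : C.toRX0.Inv V S N) (h : C.Rim r) (ht : C.tr r) (hn : C.ng r = true)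
    (h1 : C.F1 r) : ¬ C.tu (pE.symm r) ∧ 0 < C.cnA (pE.symm r) 3 ∧
      (C.vA V (pE.symm r) 3 ↔ C.phi V S (Rows7.jf r)) := by
  have hW := QR.rim_W h
  have htu : ¬ C.tu (pE.symm r) := C.not_tu_sh hW ((C.tr_W h).2 ht) (by
    rw [C.ng_W h, if_pos hn, pE_symm_stE]; exact h1)
  have hc := C.cnA_ps ht hn h1 (l := 0) (Nat.zero_le _)
  have hc' : 0 < C.cnA (pE.symm r) 3 := by rw [C.cnA_E hW, pE_symm_stE]; exact hc
  refine ⟨htu, hc', ?_⟩
  have h2 := C.GEv (s := pE.symm r) I (QR.rwI_rim hW) (by rw [pE_symm_stE]; exact QR.rwI_rim h)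
    (by rw [C.EV_r hW]; exact hc')
  rw [pE_symm_stE, C.ev_r hW htu, C.ev_r2] at h2
  rw [h2]
  exact C.vA_s I h ht hn h1 (Nat.zero_le _)

/-- the lane over the north side of the next facet -/
lemma NA_n (I : C.toRX0.Inv V S N) (h : C.Rim r) (ht : C.tr r) (hn : C.ng r = false)
    (h1 : C.F1 r) : C.nv S N r.stE 0 ↔ C.phi V S (Rows7.jf r) := by
  obtain ⟨h2, h3, h4⟩ := C.vA_nE I h ht hn h1
  have hE := QR.rim_E h
  rw [C.nv_r hE h2, ← h4]
  refine (C.crA I hE h2).nn 0 (by omega) ?_ h3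
  unfold nA
  rw [if_pos ((C.tr_E r h).2 ht), C.ng_E r h, hn, if_neg (by decide), pE_s, if_pos ⟨h1, rfl⟩]

lemma NA_s (I : C.toRX0.Inv V S N) (h : C.Rim r) (ht : C.tr r) (hn : C.ng r = true)
    (h1 : C.F1 r) : C.nv S N (pE.symm r) 2 ↔ C.phi V S (Rows7.jf r) := by
  obtain ⟨h2, h3, h4⟩ := C.vA_sW I h ht hn h1
  have hW := QR.rim_W h
  rw [C.nv_r hW h2, ← h4]
  refine (C.crA I hW h2).ns 2 (by omega) ?_ h3
  unfold nA
  rw [if_pos ((C.tr_W h).2 ht), C.ng_W h, if_pos hn, pE_symm_stE, if_pos ⟨h1, rfl⟩]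

/-- a turned foot -/
lemma v_0 (I : C.toRX0.Inv V S N) (h : C.Rim r) (h1 : C.F0 r) {l : ℕ} (hl : l ≤ 3) :
    V r.facet l 0 ↔ C.phi V S (Rows7.jf r) := by
  have htu := C.tu_0 r h h1.1 h1.2
  have hcan : C.canT r.facet = r.rL := by
    rcases C.ca_cases h with ⟨-, h2, -⟩ | ⟨-, h2, -⟩ | ⟨h2, -⟩
    · exact absurd htu h2
    · exact absurd htu h2
    · exact h2
  have h0 : QR.rwI C.toRows7 (Rows7.jf r) = 0 := QR.rwI_zero.2 (Or.inl (QR.rw_S h))
  have hcr := C.cr I (QR.rwI_rim h)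
  rw [C.cnT_A h, C.sT_A h, C.nT_A h] at hcr
  induction l with
  | zero =>
    have e : (pN.symm r).rL.stE = r.rL := by rw [rL_stE', pN_symm_stN]
    have hE : 0 < C.EV (pN.symm r).rL := by rw [C.EV_sL h, if_pos h1]; exact Nat.one_pos
    have h2 := C.GEv (s := (pN.symm r).rL) I (by rw [FSt.facet_rL]; exact h0)
      (by rw [e, FSt.facet_rL]; exact QR.rwI_rim h) hE
    rw [e, FSt.rL_r2, C.J_ev I (by rw [FSt.facet_rL]; exact QR.rw_S h) hE, FSt.facet_rL] at h2
    have h3 : C.ev V r.rR = V r.facet 0 0 := by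
      unfold ev
      rw [FSt.facet_rR, if_neg (by rw [hcan]; exact rL_ne_rR r)]
    rw [h3] at h2
    exact h2.symm
  | succ l ih =>
    refine Iff.trans ?_ (ih (by omega))
    refine (hcr.zz l (by omega) ?_ ?_ (Or.inl ?_)).symm
    · unfold sB; rw [if_pos htu]
    · unfold nB; rw [if_pos htu]
    · unfold cnB; rw [if_pos htu, if_pos h1]; exact Nat.one_pos

lemma vo_0 (I : C.toRX0.Inv V S N) (h : C.Rim r) (h1 : C.F0 r) :
    C.toRX0.vo V r ↔ C.phi V S (Rows7.jf r) := by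
  have htu := C.tu_0 r h h1.1 h1.2
  unfold RX0.vo
  have hcan : C.toRX0.can r.facet = r.rL := by
    rcases C.ca_cases h with ⟨-, h2, -⟩ | ⟨-, h2, -⟩ | ⟨h2, -⟩
    · exact absurd htu h2
    · exact absurd htu h2
    · exact h2
  rw [if_pos hcan]
  exact C.v_0 I h h1 le_rfl

/-! ## Cut bands -/

lemma cut_n (I : C.toRX0.Inv V S N) (h : C.Rim r) (ht : ¬ C.tr r) (h1 : C.g1 r) :
    C.nv S N r 0 ↔ C.phi V S (Rows7.jf r) := by
  have htu : ¬ C.tu r := fun h2 => ht (C.tu_cov r h h2).1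
  have e1 : C.sA r 0 = Ln.n := by unfold sA; rw [if_neg ht, if_pos ⟨h1, rfl⟩]
  have e2 : C.nA r 0 = Ln.n := by unfold nA; rw [if_neg ht, if_pos ⟨h1, rfl⟩]
  rw [C.nv_r h htu, ← C.SA_phi I h (x := 0) (by omega) (by rw [e1]; decide)]
  exact ((C.crA I h htu).ab 0 (by omega) (by rw [e1]; decide) (by rw [e1, e2])
    (by unfold cnA; rw [if_neg ht])).symm

lemma cut_s (I : C.toRX0.Inv V S N) (h : C.Rim r) (ht : ¬ C.tr r) (h1 : C.g1 r.stE) :
    C.nv S N r 2 ↔ C.phi V S (Rows7.jf r) := by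
  have htu : ¬ C.tu r := fun h2 => ht (C.tu_cov r h h2).1
  have e1 : C.sA r 2 = Ln.s := by
    unfold sA; rw [if_neg ht, if_neg (by omega), if_pos ⟨h1, rfl⟩]
  have e2 : C.nA r 2 = Ln.s := by
    unfold nA; rw [if_neg ht, if_neg (by omega), if_pos ⟨h1, rfl⟩]
  rw [C.nv_r h htu, ← C.SA_phi I h (x := 2) (by omega) (by rw [e1]; decide)]
  exact ((C.crA I h htu).ab 2 (by omega) (by rw [e1]; decide) (by rw [e1, e2])
    (by unfold cnA; rw [if_neg ht])).symm

end QX0

end Pool.Agent.MP42K
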