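import Pool.Agent.MP42.K.QChain

/-!
# One strand per facet: connectivity
-/

set_option autoImplicit false
set_option linter.unusedSectionVars false

namespace Pool.Agent.MP42K

open Pool.Agent.Helper55.UNF Pool.Agent.Helper55.UNF.GridSolid Pool.Agent.MP42G
open Pool.Agent.MP42H Pool.Agent.MP42X Pool.Agent.MP42R

variable {P : GridSolid}

namespace QX0

variable (C : QX0 P) {r s t : P.FSt}
variable {V : P.Facet → ℕ → ℕ → Prop} {S N : P.Facet → ℕ → Prop}

/-- the rim state of the inner rows at the foot of a strand, `z`: the label is `0` -/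
noncomputable def ft (z : Bool) (r : P.FSt) : P.FSt := if z then r else dir (C.ng r) r

lemma rim_ft (z : Bool) (h : C.Rim r) : C.Rim (C.ft z r) := by
  unfold ft
  cases z
  · exact QR.rim_dir h _
  · exact h

lemma same_ft (z : Bool) (r : P.FSt) : pE.SameCycle r (C.ft z r) := by
  unfold ft
  cases z
  · exact QR.same_dpow (C.ng r) 1 r
  · exact Equiv.Perm.SameCycle.refl _ _

/-- the value of a foot -/
lemma vf_ft (I : C.toRX0.Inv V S N) (h : C.Rim r) (ht : C.tr r) {z : Bool}
    (hz : if z = true then C.F0 r else C.F1 r) :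
    C.toRX0.vf V S N z (C.ft z r).stN ↔ C.phi V S (Rows7.jf r) := by
  unfold RX0.vf
  rw [pN_s]
  cases z
  · rw [if_neg (by decide)] at hz
    rw [if_neg (by decide)]
    have e : C.toRX0.ng (C.ft false r).stN = C.ng r := by
      show C.ng (pN.symm (C.ft false r).stN) = C.ng r
      rw [pN_s]
      exact C.ng_same h (C.same_ft false r)
    rw [e]
    have e2 : C.ft false r = dir (C.ng r) r := rfl
    rw [e2]
    cases hn : C.ng r
    · exact C.NA_n I h ht hn hz
    · exact C.NA_s I h ht hn hz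
  · rw [if_pos rfl] at hz
    rw [if_pos rfl]
    exact C.vo_0 I h hz

lemma shf_ft {z : P.FSt → Bool} {g : P.FSt → Prop} (hz : ∀ r, C.Rim r → z r.stE = z r)
    (h : C.Rim r) (hg : g r) : shf z C.ng g (C.ft (z r) r) := by
  have hs := C.same_ft (z r) r
  rw [shf_dir, QR.const_same hz h hs, C.ng_same h hs]
  unfold ft
  cases z r
  · rw [if_neg (by decide), if_neg (by decide), Equiv.symm_apply_apply]
    exact hg
  · rw [if_pos rfl, if_pos rfl]
    exact hg

/-- **The values are invariant.** -/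
theorem inv_phi (I : C.toRX0.Inv V S N) (Cl : C.toRX0.Closed V S N) : C.Inv (C.phi V S) where
  gN := by
    intro f g hf hg h hn
    obtain ⟨h1, h2⟩ := C.gN f g hf hg h
    have hc : C.col f = C.col g := by unfold col; rw [h2 hn]
    obtain ⟨-, -, h3⟩ := C.phi_all I hf
    obtain ⟨-, h4, -⟩ := C.phi_all I hg
    rw [← h3 hn, ← h4 (by rw [← h1]; exact hn), ← hc]
    refine I.gN f g (QR.rwI_zero.2 (Or.inl hf)) (QR.rwI_zero.2 (Or.inl hg)) ?_ _ (C.col_lt f) ?_
    · show (C.canT f).stN = C.canT g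
      rw [C.canT_J hf, C.canT_J hg, h]
    · show C.nT f (C.col f) ≠ Ln.z
      rw [C.nT_J hf]
      unfold nJ
      rw [if_pos rfl]
      exact hn
  gE := by
    intro f g hf hg h he
    have hE : 0 < C.EV (C.can f) := by
      rw [C.EV_J (by rw [C.can_facet]; exact hf), C.can_facet, if_pos rfl, he]
      decide
    have ht : (C.can f).stE.facet = g := by
      rcases h with h | h
      · rw [h, C.can_facet]
      · rw [h, FSt.facet_r2, C.can_facet]
    have h1 := C.GEv (s := C.can f) I (by rw [C.can_facet]; exact QR.rwI_zero.2 (Or.inl hf))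
      (by rw [ht]; exact QR.rwI_zero.2 (Or.inl hg)) hE
    have hE' := hE
    rw [C.GE (by rw [C.can_facet]; exact QR.rwI_zero.2 (Or.inl hf))
      (by rw [ht]; exact QR.rwI_zero.2 (Or.inl hg))] at hE'
    rw [C.J_ev I (by rw [C.can_facet]; exact hf) hE, C.can_facet,
      C.J_ev I (by rw [FSt.facet_r2, ht]; exact hg) hE', FSt.facet_r2, ht] at h1
    exact h1
  gW := by
    intro f g hf hg h hw
    have hE : 0 < C.EV (C.can f).r2 := by
      rw [C.EV_J (by rw [FSt.facet_r2, C.can_facet]; exact hf), FSt.facet_r2, C.can_facet,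
        FSt.r2_r2, if_neg (r2_ne _).symm, if_pos rfl, hw]
      decide
    have ht : (C.can f).r2.stE.facet = g := by rw [h, C.can_facet]
    have h1 := C.GEv (s := (C.can f).r2) I
      (by rw [FSt.facet_r2, C.can_facet]; exact QR.rwI_zero.2 (Or.inl hf))
      (by rw [ht]; exact QR.rwI_zero.2 (Or.inl hg)) hE
    have hE' := hE
    rw [C.GE (by rw [FSt.facet_r2, C.can_facet]; exact QR.rwI_zero.2 (Or.inl hf))
      (by rw [ht]; exact QR.rwI_zero.2 (Or.inl hg))] at hE'
    rw [C.J_ev I (by rw [FSt.facet_r2, C.can_facet]; exact hf) hE, FSt.facet_r2, C.can_facet,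
      C.J_ev I (by rw [FSt.facet_r2, ht]; exact hg) hE', FSt.facet_r2, ht] at h1
    exact h1
  tree := by
    intro a b ha ht hs h1 h2
    have hb := QR.rim_same ha hs
    have htb := (C.tr_same ha hs).2 ht
    have hz : C.z2 b = C.z2 a := C.z2_same ha hs
    have ea : ∀ z, pN.symm (C.ft z a).stN = C.ft z a := fun z => pN_s _
    have h3 := Cl.tree (C.ft (C.z1 a) a).stN (C.ft (C.z2 b) b).stN
      (QR.rimI_of (C.rim_ft _ ha))
      (by
        show C.tr (pN.symm (C.ft (C.z1 a) a).stN)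
        rw [pN_s]
        exact (C.tr_same ha (C.same_ft _ a)).2 ht)
      ((QR.same_N (C.rim_ft _ ha)).2
        (((C.same_ft _ a).symm.trans hs).trans (C.same_ft _ b)))
      (by
        show C.fa7 (pN.symm (C.ft (C.z1 a) a).stN)
        rw [pN_s, C.fa7_tree ((C.tr_same ha (C.same_ft _ a)).2 ht)]
        exact C.shf_ft C.z1_E ha h1)
      (by
        show C.fb7 (pN.symm (C.ft (C.z2 b) b).stN)
        rw [pN_s]
        exact C.shf_ft C.z2_E hb h2)
    have e1 : C.toRX0.z1 (C.ft (C.z1 a) a).stN = C.z1 a := by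
      show C.z1 (pN.symm (C.ft (C.z1 a) a).stN) = C.z1 a
      rw [pN_s]
      exact C.z1_same ha (C.same_ft _ a)
    have e2 : C.toRX0.z2 (C.ft (C.z2 b) b).stN = C.z2 b := by
      show C.z2 (pN.symm (C.ft (C.z2 b) b).stN) = C.z2 b
      rw [pN_s]
      exact C.z2_same hb (C.same_ft _ b)
    rw [e1, e2, C.vf_ft I ha ht, C.vf_ft I hb htb] at h3
    · exact h3
    · split_ifs with h4
      · exact ⟨htb, Or.inr ⟨h2, h4⟩⟩
      · exact Or.inr ⟨h2, by cases h5 : C.z2 b; rfl; exact absurd h5 h4⟩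
    · split_ifs with h4
      · exact ⟨ht, Or.inl ⟨h1, h4⟩⟩
      · exact Or.inl ⟨h1, by cases h5 : C.z1 a; rfl; exact absurd h5 h4⟩
  cut := by
    intro r h ht h1
    have htE : ¬ C.tr r.stE := fun h2 => ht ((C.tr_E r h).1 h2)
    have hE := QR.rim_E h
    have e : r.stN.stE = r.stE.stN := QR.N_E h
    have h3 := Cl.cut r.stN (QR.rimI_of h)
      (by
        show ¬ C.tr (pN.symm r.stN)
        rw [pN_s]; exact ht)
      (by
        show C.fa7 (pN.symm r.stN.stE)
        rw [e, pN_s, C.fa7_cut htE]; exact h1)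
    rw [e, pN_s, pN_s] at h3
    have h4 : C.nv S N r.stE 0 ↔ C.nv S N r 2 := h3
    rw [C.cut_n I hE htE h1, C.cut_s I h ht h1] at h4
    exact h4

/-! ## Strands at the rims -/

lemma on_F1 (h : C.Rim r) (ht : C.tr r) (h1 : C.F1 r) : C.On (Rows7.jf r) := by
  have h2 := C.rn r h
  rw [if_pos ht, if_pos (show (C.g1 r ∧ C.z1 r = false) ∨ (C.g2 r ∧ C.z2 r = false) from h1)] at h2
  have h3 := flet_ne (C.ng r)
  rw [← h2] at h3
  unfold wnQ at h3
  unfold On Rows7.jf
  split_ifs at h3 with h4 h5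
  · exact Or.inr (Or.inr (Or.inr h3))
  · exact Or.inr (Or.inr (Or.inl h3))
  · exact absurd rfl h3

open Classical in
lemma on_F0 (h : C.Rim r) (h1 : C.F0 r) : C.On (Rows7.jf r) := by
  have h2 := C.ro r h
  rw [decide_eq_true (show C.tr r ∧ _ from h1)] at h2
  unfold woQ at h2
  unfold On Rows7.jf
  split_ifs at h2 with h4 h5
  · exact Or.inr (Or.inl h2)
  · exact Or.inl h2

lemma on_sA (h : C.Rim r) {x : ℕ} (h1 : C.sA r x ≠ Ln.z) : C.On (Rows7.jf r) := by
  rw [C.sA_eq h] at h1
  split_ifs at h1 with h2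
  · unfold wnQ at h1
    unfold On Rows7.jf
    split_ifs at h1 with h4 h5
    · exact Or.inr (Or.inr (Or.inr h1))
    · exact Or.inr (Or.inr (Or.inl h1))
    · exact absurd rfl h1
  · exact absurd rfl h1

section

variable {Q : P.Facet → Prop} (hQ : C.QJ Q)
  (hv : ∀ f, C.rw f = 0 → C.On f → (C.phi V S f ↔ Q f))
include hQ hv

lemma Q_E (h : C.Rim r) : Q (Rows7.jf r.stE) ↔ Q (Rows7.jf r) := by
  have h1 := hQ (pN.symm r) (QR.rw_S h) (by rw [QR.S_E h]; exact QR.rw_S (QR.rim_E h))
  rw [QR.S_E h] at h1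
  exact h1.symm

lemma Q_W (h : C.Rim r) : Q (Rows7.jf (pE.symm r)) ↔ Q (Rows7.jf r) := by
  have h1 := C.Q_E (V := V) (S := S) hQ hv (QR.rim_W h)
  rw [pE_symm_stE] at h1
  exact h1.symm

lemma vA_Q (I : C.toRX0.Inv V S N) (h : C.Rim r) {l : ℕ} (hl : l ≤ 3)
    (hc : 0 < C.cnA r l) : C.vA V r l ↔ Q (Rows7.jf r) := by
  have hc0 := hc
  unfold cnA at hc
  by_cases ht : C.tr r
  · rw [if_pos ht] at hc
    cases hn : C.ng r
    · rw [hn, if_neg (by decide)] at hc
      by_cases hl0 : l = 0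
      · rw [if_pos hl0] at hc
        by_cases h1 : C.F1 (pE.symm r)
        · have hW := QR.rim_W h
          have h2 := C.vA_nE I hW ((C.tr_W h).2 ht) (by rw [C.ng_W h, hn]) h1
          rw [pE_symm_stE] at h2
          rw [hl0, h2.2.2, hv (Rows7.jf (pE.symm r)) (QR.rw_S hW) (C.on_F1 hW ((C.tr_W h).2 ht) h1)]
          exact C.Q_W hQ hv h
        · rw [if_neg h1] at hc
          exact absurd hc (lt_irrefl 0)
      · rw [if_neg hl0] at hc
        by_cases h1 : C.F1 r ∧ C.c0 r < l
        · rw [C.vA_n I h ht hn h1.1 h1.2 hl]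
          exact hv _ (QR.rw_S h) (C.on_F1 h ht h1.1)
        · rw [if_neg h1] at hc
          exact absurd hc (lt_irrefl 0)
    · rw [if_pos hn] at hc
      by_cases hl0 : l = 3
      · rw [if_pos hl0] at hc
        by_cases h1 : C.F1 r.stE
        · have hE := QR.rim_E h
          have h2 := C.vA_sW I hE ((C.tr_E r h).2 ht) (by rw [C.ng_E r h, hn]) h1
          rw [pE_s] at h2
          rw [hl0, h2.2.2, hv (Rows7.jf r.stE) (QR.rw_S hE) (C.on_F1 hE ((C.tr_E r h).2 ht) h1)]
          exact C.Q_E hQ hv h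
        · rw [if_neg h1] at hc
          exact absurd hc (lt_irrefl 0)
      · rw [if_neg hl0] at hc
        by_cases h1 : C.F1 r ∧ l ≤ C.c0 r
        · rw [C.vA_s I h ht hn h1.1 h1.2]
          exact hv _ (QR.rw_S h) (C.on_F1 h ht h1.1)
        · rw [if_neg h1] at hc
          exact absurd hc (lt_irrefl 0)
  · rw [if_neg ht] at hc
    exact absurd hc (lt_irrefl 0)

lemma SA_Q (I : C.toRX0.Inv V S N) (h : C.Rim r) {x : ℕ} (hx : x < 3) (hn : C.sA r x ≠ Ln.z) :
    C.SA S N r x ↔ Q (Rows7.jf r) := by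
  rw [C.SA_phi I h hx hn]
  exact hv _ (QR.rw_S h) (C.on_sA h hn)

lemma NA_Q (I : C.toRX0.Inv V S N) (h : C.Rim r) (htu : ¬ C.tu r) {x : ℕ} (hx : x < 3)
    (hn : C.nA r x ≠ Ln.z) : C.NA S N r x ↔ Q (Rows7.jf r) := by
  have hA := C.crA I h htu
  by_cases ht : C.tr r
  · have hn' := hn
    unfold nA at hn
    rw [if_pos ht] at hn
    cases hng : C.ng r
    · rw [hng, if_neg (by decide)] at hn
      by_cases h1 : C.F1 (pE.symm r) ∧ x = 0
      · have hW := QR.rim_W h
        have h2 := C.vA_nE I hW ((C.tr_W h).2 ht) (by rw [C.ng_W h, hng]) h1.1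
        rw [pE_symm_stE] at h2
        rw [h1.2, ← C.vA_Q hQ hv I h (l := 0) (by omega) h2.2.1]
        refine hA.nn 0 (by omega) ?_ h2.2.1
        unfold nA
        rw [if_pos ht, hng, if_neg (by decide), if_pos ⟨h1.1, rfl⟩]
      · rw [if_neg h1] at hn
        exact absurd rfl hn
    · rw [if_pos hng] at hn
      by_cases h1 : C.F1 r.stE ∧ x = 2
      · have hE := QR.rim_E h
        have h2 := C.vA_sW I hE ((C.tr_E r h).2 ht) (by rw [C.ng_E r h, hng]) h1.1
        rw [pE_s] at h2
        rw [h1.2, ← C.vA_Q hQ hv I h (l := 3) le_rfl h2.2.1]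
        refine hA.ns 2 (by omega) ?_ h2.2.1
        unfold nA
        rw [if_pos ht, if_pos hng, if_pos ⟨h1.1, rfl⟩]
      · rw [if_neg h1] at hn
        exact absurd rfl hn
  · have e : C.sA r x = C.nA r x := by
      unfold sA nA
      rw [if_neg ht, if_neg ht]
    have hs : C.sA r x ≠ Ln.z := by rw [e]; exact hn
    rw [← C.SA_Q hQ hv I h hx hs]
    exact (hA.ab x hx hs e (by unfold cnA; rw [if_neg ht])).symm

end

/-- **Connectivity.** -/
theorem conn (hC : C.Conn) : C.toRX0.Conn := by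
  intro V S N I Cl
  obtain ⟨Q, hQ, hv⟩ := hC _ (C.inv_phi I Cl)
  refine ⟨fun f => Q (QR.dn C.toRows7 f), QR.QJ_ext hQ, ?_, ?_⟩
  · intro f x i hf hx hi
    have hf : QR.rwI C.toRows7 f = 0 := hf
    have hi : i < C.cnT f x := hi
    have hi0 : i = 0 := by
      have := C.bd hf x
      omega
    subst hi0
    have h1 : (C.canT f).facet = f := C.canT_facet f
    rcases QR.ex_or (s := C.canT f) (R := C.toRows7) (by rw [h1]; exact hf) with h2 | ⟨r, hr, h2⟩
    · rw [h1] at h2
      show V f x 0 ↔ Q (QR.dn C.toRows7 f)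
      rw [QR.dn_zero h2]
      rw [C.cnT_J h2] at hi
      rw [(C.phi_all I h2).1 x hx hi]
      apply hv f h2
      unfold cnJ at hi
      unfold On
      split_ifs at hi
      · left
        cases hw : C.w f
        · rw [hw] at hi; exact absurd hi (by decide)
        · rfl
      · right; left
        cases hw : C.e f
        · rw [hw] at hi; exact absurd hi (by decide)
        · rfl
    · rw [h1] at h2
      subst h2
      show V r.facet x 0 ↔ Q (QR.dn C.toRows7 r.facet)
      rw [QR.dn_rim hr]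
      rw [C.cnT_A hr] at hi
      unfold cnB at hi
      rcases C.ca_cases hr with ⟨h3, h4, h5⟩ | ⟨h3, h4, h5⟩ | ⟨h3, h4⟩
      · rw [if_neg h4, if_neg h5] at hi
        rw [← C.vA_Q hQ hv I hr hx hi]
        unfold vA
        rw [if_neg (by rw [h3]; exact (r2_ne r).symm)]
      · rw [if_neg h4, if_pos h5] at hi
        rw [← C.vA_Q hQ hv I hr (l := 3 - x) (by omega) hi]
        unfold vA
        rw [if_pos h3, show 3 - (3 - x) = x by omega]
      · rw [if_pos h4] at hi
        by_cases h5 : C.F0 r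
        · rw [C.v_0 I hr h5 hx]
          exact hv _ (QR.rw_S hr) (C.on_F0 hr h5)
        · rw [if_neg h5] at hi
          exact absurd hi (lt_irrefl 0)
  · intro f x hf hx hs
    have hf : QR.rwI C.toRows7 f = 0 := hf
    have hs : C.sT f x ≠ Ln.z := hs
    have h1 : (C.canT f).facet = f := C.canT_facet f
    rcases QR.ex_or (s := C.canT f) (R := C.toRows7) (by rw [h1]; exact hf) with h2 | ⟨r, hr, h2⟩
    · rw [h1] at h2
      show S f x ↔ Q (QR.dn C.toRows7 f)
      rw [QR.dn_zero h2]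
      rw [C.sT_J h2] at hs
      unfold sJ at hs
      split_ifs at hs with hc
      · rw [hc, (C.phi_all I h2).2.1 hs]
        apply hv f h2
        exact Or.inr (Or.inr (Or.inl hs))
      · exact absurd rfl hs
    · rw [h1] at h2
      subst h2
      show S r.facet x ↔ Q (QR.dn C.toRows7 r.facet)
      rw [QR.dn_rim hr]
      rw [C.sT_A hr] at hs
      unfold sB at hs
      rcases C.ca_cases hr with ⟨h3, h4, h5⟩ | ⟨h3, h4, h5⟩ | ⟨h3, h4⟩
      · rw [if_neg h4, if_neg h5] at hs
        rw [← C.SA_Q hQ hv I hr hx hs]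
        unfold SA
        rw [if_neg (by rw [h3]; exact (r2_ne r).symm)]
      · rw [if_neg h4, if_pos h5] at hs
        rw [← C.NA_Q hQ hv I hr h4 (x := 2 - x) (by omega) hs]
        unfold NA
        rw [if_pos h3, show 2 - (2 - x) = x by omega]
      · rw [if_pos h4] at hs
        exact absurd rfl hs

end QX0

end Pool.Agent.MP42K
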