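import Pool.Agent.MP42.K.QTab

/-!
# One strand per facet: the feet over the inner rows
-/

set_option autoImplicit false
set_option linter.unusedSectionVars false

namespace Pool.Agent.MP42K

open Pool.Agent.Helper55.UNF Pool.Agent.Helper55.UNF.GridSolid Pool.Agent.MP42G
open Pool.Agent.MP42H Pool.Agent.MP42X Pool.Agent.MP42R

variable {P : GridSolid}

lemma QR.srch_cg {X : Type*} {π : Equiv.Perm X} {p q : X → Prop} {s : X}
    (h : ∀ j : ℕ, p ((π ^ j) s) ↔ q ((π ^ j) s)) : srch π p s = srch π q s := by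
  unfold srch
  congr 1
  ext j
  exact h j

namespace QX0

variable (C : QX0 P) {r s : P.FSt}

open Classical in
/-- foot of strand 1 over the inner rows, `r` rim state of the seven rows -/
noncomputable def fa7 (r : P.FSt) : Prop := if C.tr r then shf C.z1 C.ng C.g1 r else C.g1 r

/-- foot of strand 2 over the inner rows -/
def fb7 (r : P.FSt) : Prop := shf C.z2 C.ng C.g2 r

lemma fa7_tree (h : C.tr r) : C.fa7 r ↔ shf C.z1 C.ng C.g1 r := by
  unfold fa7; rw [if_pos h]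

lemma fa7_cut (h : ¬ C.tr r) : C.fa7 r ↔ C.g1 r := by
  unfold fa7; rw [if_neg h]

lemma shf_dir {z ng : P.FSt → Bool} {g : P.FSt → Prop} :
    shf z ng g r ↔ g (if z r = true then r else (dir (ng r)).symm r) := by
  unfold shf
  by_cases h1 : z r = true
  · rw [if_pos h1, if_pos h1]
  · rw [if_neg h1, if_neg h1]
    cases ng r <;> rfl

/-- the shift as a power -/
def sn (z n : Bool) : ℤ := if z then 0 else if n then 1 else -1

lemma shf_pow {z ng : P.FSt → Bool} {g : P.FSt → Prop} :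
    shf z ng g r ↔ g ((pE ^ sn (z r) (ng r)) r) := by
  unfold shf sn
  cases z r <;> cases ng r <;> simp

lemma tr_same (h : C.Rim r) (hs : pE.SameCycle r s) : C.tr s ↔ C.tr r :=
  QR.const_same' C.tr_E h hs
lemma ng_same (h : C.Rim r) (hs : pE.SameCycle r s) : C.ng s = C.ng r :=
  QR.const_same C.ng_E h hs
lemma z1_same (h : C.Rim r) (hs : pE.SameCycle r s) : C.z1 s = C.z1 r :=
  QR.const_same C.z1_E h hs
lemma z2_same (h : C.Rim r) (hs : pE.SameCycle r s) : C.z2 s = C.z2 r :=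
  QR.const_same C.z2_E h hs

lemma fa_ex' (h : C.Rim r) (ha : C.ac r) :
    ∃! a, pE.SameCycle r.stN a ∧ C.fa7 (pN.symm a) := by
  by_cases ht : C.tr r
  · apply QR.ex_shift (Q := C.g1) h (sn (C.z1 r) (C.ng r)) _ (C.g1_ex r h ha)
    intro a ha
    rw [pN_s, C.fa7_tree ((C.tr_same h ha).2 ht), shf_pow, C.z1_same h ha, C.ng_same h ha]
  · apply QR.ex_shift (Q := C.g1) h 0 _ (C.g1_ex r h ha)
    intro a ha
    rw [pN_s, C.fa7_cut (fun h1 => ht ((C.tr_same h ha).1 h1))]
    rfl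

lemma fb_ex' (h : C.Rim r) (ht : C.tr r) :
    ∃! a, pE.SameCycle r.stN a ∧ C.fb7 (pN.symm a) := by
  apply QR.ex_shift (Q := C.g2) h (sn (C.z2 r) (C.ng r)) _ (C.g2_ex r h ht)
  intro a ha
  rw [pN_s]
  unfold fb7
  rw [shf_pow, C.z2_same h ha, C.ng_same h ha]

lemma arc' (h : C.Rim r) (ht : C.tr r) (h1 : C.fa7 r) {n : ℕ} (hn : n ≤ 2) :
    ¬ C.fb7 ((dir (C.ng r) ^ n) r) := by
  have hs := QR.same_dpow (C.ng r) n r
  rw [C.fa7_tree ht, shf_dir] at h1
  unfold fb7
  rw [shf_dir, C.ng_same h hs, C.z2_same h hs]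
  cases hz : C.z1 r
  · rw [hz, if_neg (by decide)] at h1
    set a := (dir (C.ng r)).symm r with ha
    have e : dir (C.ng r) a = r := Equiv.apply_symm_apply _ _
    have hra : C.Rim a := by
      rw [ha, QR.dir_symm]
      exact QR.rim_dir h _
    have hsa : pE.SameCycle a r := by
      rw [← e]
      exact QR.same_dpow (C.ng r) 1 a
    have h2 := C.arc a hra ((C.tr_same hra hsa).1 ht) h1
    rw [← C.ng_same hra hsa] at h2
    cases hz2 : C.z2 r
    · rw [if_neg (by decide)]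
      have h3 := h2 n (by omega)
      have e2 : (dir (C.ng r)).symm ((dir (C.ng r) ^ n) r) = (dir (C.ng r) ^ n) a := by
        rw [Equiv.symm_apply_eq, ← Equiv.Perm.mul_apply, ← pow_succ', pow_succ,
          Equiv.Perm.mul_apply, e]
      rw [e2]
      exact h3
    · rw [if_pos rfl]
      have h3 := h2 (n + 1) (by omega)
      rw [pow_succ, Equiv.Perm.mul_apply, e] at h3
      exact h3
  · rw [hz, if_pos rfl] at h1
    rw [C.z12 r h hz, if_pos rfl]
    exact C.arc r h ht h1 n (by omega)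

lemma srch_N {b : Bool} {q : P.FSt → Prop} (h : C.Rim r) :
    srch (dir b) (fun s => q (pN.symm s)) r.stN = srch (dir b) q r := by
  unfold srch
  congr 1
  ext j
  show q (pN.symm ((dir b ^ j) r.stN)) ↔ q ((dir b ^ j) r)
  rw [QR.dpow_N h, pN_s]

/-- lit facets -/
lemma Lit_N (h : C.Rim r) :
    MP42X.Lit (fun s => C.tr (pN.symm s)) (fun s => C.ng (pN.symm s)) (fun s => C.z1 (pN.symm s))
      (fun s => C.z2 (pN.symm s)) (fun s => C.fa7 (pN.symm s)) (fun s => C.fb7 (pN.symm s)) r.stN ↔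
    MP42X.Lit C.tr C.ng C.z1 C.z2 (shf C.z1 C.ng C.g1) (shf C.z2 C.ng C.g2) r := by
  unfold MP42X.Lit
  simp only [pN_s]
  constructor
  · intro h1 ht
    obtain ⟨h2, h3⟩ := h1 ht
    refine ⟨h2, fun h4 => ?_⟩
    obtain ⟨h5, h6⟩ := h3 h4
    rw [QR.dir_symm, C.srch_N h, C.srch_N h] at h5
    rw [C.srch_N h] at h6
    rw [QR.dir_symm]
    refine ⟨?_, h6⟩
    have e : srch (dir !C.ng r) C.fa7 r = srch (dir !C.ng r) (shf C.z1 C.ng C.g1) r :=
      QR.srch_cg fun j => C.fa7_tree ((C.tr_same h (QR.same_dpow _ j r)).2 ht)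
    rw [e] at h5
    exact h5
  · intro h1 ht
    obtain ⟨h2, h3⟩ := h1 ht
    refine ⟨h2, fun h4 => ?_⟩
    obtain ⟨h5, h6⟩ := h3 h4
    rw [QR.dir_symm, C.srch_N h, C.srch_N h, C.srch_N h]
    rw [QR.dir_symm] at h5
    have e : srch (dir !C.ng r) C.fa7 r = srch (dir !C.ng r) (shf C.z1 C.ng C.g1) r :=
      QR.srch_cg fun j => C.fa7_tree ((C.tr_same h (QR.same_dpow _ j r)).2 ht)
    rw [e]
    exact ⟨h5, h6⟩

end QX0

end Pool.Agent.MP42K
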