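import Pool.Agent.MP42.K.QGlue
import Pool.Agent.MP42.K.QFeet

/-!
# One strand per facet: every line reaches a strand or a lit facet
-/

set_option autoImplicit false
set_option linter.unusedSectionVars false

namespace Pool.Agent.MP42K

open Pool.Agent.Helper55.UNF Pool.Agent.Helper55.UNF.GridSolid Pool.Agent.MP42G
open Pool.Agent.MP42H Pool.Agent.MP42X Pool.Agent.MP42R

variable {P : GridSolid}

namespace QX0

variable (C : QX0 P) {r s t : P.FSt}

/-- lit rim facet of the inner rows -/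
def LR (t : P.FSt) : Prop := (QR.rowsI C.toRows7).Rim t ∧
  MP42X.Lit (fun s => C.tr (pN.symm s)) (fun s => C.ng (pN.symm s)) (fun s => C.z1 (pN.symm s))
      (fun s => C.z2 (pN.symm s)) (fun s => C.fa7 (pN.symm s)) (fun s => C.fb7 (pN.symm s)) t

lemma LR_N (h : C.Rim r) (hl : MP42X.Lit C.tr C.ng C.z1 C.z2 (shf C.z1 C.ng C.g1)
    (shf C.z2 C.ng C.g2) r) : C.LR r.stN :=
  ⟨QR.rimI_of h, (C.Lit_N h).2 hl⟩

lemma LR_ne (h : C.LR t) : QR.rwI C.toRows7 t.facet ≠ 0 := by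
  have h1 := QR.rimI_iff.1 h.1
  have h2 := QR.rwI_N h1
  rwa [pN_symm_stN] at h2

/-- the line `l` of the facet with the frame `s` is covered -/
def Cv (L : P.Facet → Prop) (s : P.FSt) (l : ℕ) : Prop := ∃ z : ℤ,
  (∀ y ∈ Set.uIcc 0 z, y ≠ z → ∃ g, QR.rwI C.toRows7 g = 0 ∧ ¬ L g ∧ (pN ^ y) s = C.canT g) ∧
  ((∃ g, QR.rwI C.toRows7 g = 0 ∧ (pN ^ z) s = C.canT g ∧ 0 < C.cnT g l) ∨
    (0 < z ∧ C.LR ((pN ^ z) s)) ∨ (z < 0 ∧ C.LR ((pN ^ z) s).r2))

variable {L : P.Facet → Prop}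

lemma zpow_up (e : s.stN = t) (y : ℤ) : (pN ^ y) t = (pN ^ (y + 1)) s := by
  rw [zpow_add, zpow_one, Equiv.Perm.mul_apply]
  show _ = (pN ^ y) s.stN
  rw [e]

lemma cv_step1 {l : ℕ} (e : s.stN = t) (ht : ∃ g, QR.rwI C.toRows7 g = 0 ∧ ¬ L g ∧ t = C.canT g)
    (ht0 : QR.rwI C.toRows7 t.facet = 0) (h : C.Cv L s l) : C.Cv L t l := by
  obtain ⟨z, h1, h2⟩ := h
  refine ⟨z - 1, ?_, ?_⟩
  · intro y hy hyz
    rw [Set.mem_uIcc] at hy
    by_cases hy0 : y = 0 ∧ z ≤ 0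
    · obtain ⟨g, hg, hgL, hg2⟩ := ht
      exact ⟨g, hg, hgL, by rw [hy0.1, zpow_zero, Equiv.Perm.one_apply, hg2]⟩
    · obtain ⟨g, hg, hgL, hg2⟩ := h1 (y + 1) (by rw [Set.mem_uIcc]; omega) (by omega)
      exact ⟨g, hg, hgL, by rw [zpow_up e, hg2]⟩
  · rw [zpow_up e, sub_add_cancel]
    rcases h2 with h2 | ⟨h2, h3⟩ | ⟨h2, h3⟩
    · exact Or.inl h2
    · refine Or.inr (Or.inl ⟨?_, h3⟩)
      by_contra h4
      have h5 : z = 1 := by omega
      rw [h5, zpow_one] at h3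
      have h6 := C.LR_ne h3
      apply h6
      show QR.rwI C.toRows7 s.stN.facet = 0
      rw [e]
      exact ht0
    · exact Or.inr (Or.inr ⟨by omega, h3⟩)

lemma zpow_dn (e : t.stN = s) (y : ℤ) : (pN ^ y) t = (pN ^ (y - 1)) s := by
  rw [zpow_up e, sub_add_cancel]

lemma cv_step2 {l : ℕ} (e : t.stN = s) (ht : ∃ g, QR.rwI C.toRows7 g = 0 ∧ ¬ L g ∧ t = C.canT g)
    (ht0 : QR.rwI C.toRows7 t.facet = 0) (h : C.Cv L s l) : C.Cv L t l := by
  obtain ⟨z, h1, h2⟩ := h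
  refine ⟨z + 1, ?_, ?_⟩
  · intro y hy hyz
    rw [Set.mem_uIcc] at hy
    by_cases hy0 : y = 0 ∧ 0 ≤ z
    · obtain ⟨g, hg, hgL, hg2⟩ := ht
      exact ⟨g, hg, hgL, by rw [hy0.1, zpow_zero, Equiv.Perm.one_apply, hg2]⟩
    · obtain ⟨g, hg, hgL, hg2⟩ := h1 (y - 1) (by rw [Set.mem_uIcc]; omega) (by omega)
      exact ⟨g, hg, hgL, by rw [zpow_dn e, hg2]⟩
  · rw [zpow_dn e, add_sub_cancel_right]
    rcases h2 with h2 | ⟨h2, h3⟩ | ⟨h2, h3⟩
    · exact Or.inl h2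
    · exact Or.inr (Or.inl ⟨by omega, h3⟩)
    · refine Or.inr (Or.inr ⟨?_, h3⟩)
      by_contra h4
      have h5 : z = -1 := by omega
      have h6 := zpow_dn e 0
      rw [zpow_zero, Equiv.Perm.one_apply, zero_sub, ← h5] at h6
      rw [← h6] at h3
      have h7 := C.LR_ne h3
      apply h7
      rw [FSt.facet_r2]
      exact ht0

/-- type of the line -/
def vln (l : ℕ) : VL := if l = 0 then VL.W else if l = 3 then VL.E else VL.M

lemma cnJ_pos {f : P.Facet} {l : ℕ} (hl : l ≤ 3)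
    (h : hit (C.w f) (C.e f) (C.c f) (vln l) = true) : 0 < C.cnJ f l := by
  unfold cnJ col
  unfold vln at h
  have h4 : l = 0 ∨ l = 1 ∨ l = 2 ∨ l = 3 := by omega
  rcases h4 with rfl | rfl | rfl | rfl <;>
    cases hw : C.w f <;> cases he : C.e f <;> cases hc : C.c f <;>
    simp_all [hit]

lemma cnA_pos (ht : C.tr r) (h1 : C.F1 r) {l : ℕ} (hl : l ≤ 3)
    (h : if C.ng r = true then hit true false (wcQ C.can C.c (pN.symm r)) (vln l) = true
      else hit false true (wcQ C.can C.c (pN.symm r)) (vln l) = true) : 0 < C.cnA r l := by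
  unfold cnA c0
  rw [if_pos ht]
  unfold vln at h
  have h4 : l = 0 ∨ l = 1 ∨ l = 2 ∨ l = 3 := by omega
  rcases h4 with rfl | rfl | rfl | rfl <;>
    cases hn : C.ng r <;> cases hc : wcQ C.can C.c (pN.symm r) <;>
    simp_all [hit]

lemma vln_rev {l : ℕ} (hl : l ≤ 3) : vln (3 - l) = (vln l).flip := by
  have h4 : l = 0 ∨ l = 1 ∨ l = 2 ∨ l = 3 := by omega
  rcases h4 with rfl | rfl | rfl | rfl <;> rfl

lemma al_up (h : C.Rim r) (hc : C.can (Rows7.jf r) = pN.symm r) :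
    C.canT r.facet = r ∧ ¬ C.tu r ∧ ¬ C.fl r := by
  rcases C.ca_cases h with h1 | ⟨-, -, h1⟩ | ⟨-, h1⟩
  · exact h1
  · have h1 : C.can (Rows7.jf r) = (pN.symm r).r2 := h1
    rw [hc] at h1
    exact absurd h1.symm (r2_ne _)
  · rcases C.tu_T r h h1 with h2 | h2
    · rw [hc] at h2; exact absurd h2.symm (rL_ne _)
    · rw [hc] at h2; exact absurd h2.symm (rR_ne _)

lemma al_dn (h : C.Rim r) (hc : C.can (Rows7.jf r) = (pN.symm r).r2) :
    C.canT r.facet = r.r2 ∧ ¬ C.tu r ∧ C.fl r := by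
  rcases C.ca_cases h with ⟨-, -, h1⟩ | h1 | ⟨-, h1⟩
  · exact absurd hc h1
  · exact h1
  · rcases C.tu_T r h h1 with h2 | h2
    · rw [hc] at h2; exact absurd h2.symm (rL_ne_r2 _)
    · rw [hc] at h2; exact absurd h2.symm (rR_ne_r2 _)

/-- a junction facet -/
lemma cv_J (hL0 : ∀ f, L f → C.rw f = 0) {f : P.Facet} (hc : C.CovF L f) {l : ℕ}
    (hl : l ≤ 3) : C.Cv L (C.can f) l := by
  obtain ⟨z, h1, h2⟩ := hc (vln l)
  have path : ∀ y ∈ Set.uIcc 0 z, y ≠ z →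
      ∃ g, QR.rwI C.toRows7 g = 0 ∧ ¬ L g ∧ (pN ^ y) (C.can f) = C.canT g := by
    intro y hy hyz
    obtain ⟨g, hg, hgL, hg2⟩ := h1 y hy hyz
    exact ⟨g, QR.rwI_zero.2 (Or.inl hg), hgL, by rw [C.canT_J hg, hg2]⟩
  have rimL : ∀ r, C.Rim r → ¬ L r.facet := fun r hr h => QR.ne0 hr (hL0 _ h)
  rcases h2 with ⟨g, hg, hg2, hg3⟩ | ⟨r, j', h3, hr, h4⟩
  · refine ⟨z, path, Or.inl ⟨g, QR.rwI_zero.2 (Or.inl hg), by rw [C.canT_J hg, hg2], ?_⟩⟩
    rw [C.cnT_J hg]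
    exact C.cnJ_pos hl hg3
  · have hrI := QR.rwI_rim hr
    rcases h3 with ⟨hz, h3, hj⟩ | ⟨hz, h3, hj⟩
    · -- north
      obtain ⟨g, hg, -, hg2⟩ := h1 (z - 1) (by rw [Set.mem_uIcc]; omega) (by omega)
      have e1 : (C.can g).stN = r := by
        rw [← hg2, ← h3]
        show pN ((pN ^ (z - 1)) (C.can f)) = _
        rw [← Equiv.Perm.mul_apply, ← zpow_one_add, add_sub_cancel]
      have e2 : C.can g = pN.symm r := (pN_symm_of e1).symm
      have e3 : g = Rows7.jf r := by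
        unfold Rows7.jf
        rw [← e2, C.can_facet]
      obtain ⟨h5, h6, h7⟩ := C.al_up hr (by rw [← e3, e2])
      rcases h4 with h4 | ⟨ht, hF, h4⟩
      · refine ⟨z + 1, ?_, Or.inr (Or.inl ⟨by omega, ?_⟩)⟩
        · intro y hy hyz
          rw [Set.mem_uIcc] at hy
          by_cases hyz' : y = z
          · exact ⟨r.facet, hrI, rimL r hr, by rw [hyz', h3, h5]⟩
          · exact path y (by rw [Set.mem_uIcc]; omega) hyz'
        · have e4 : (pN ^ (z + 1)) (C.can f) = r.stN := by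
            rw [add_comm, zpow_one_add, Equiv.Perm.mul_apply, h3]
            rfl
          rw [e4]
          exact C.LR_N hr h4
      · refine ⟨z, path, Or.inl ⟨r.facet, hrI, by rw [h3, h5], ?_⟩⟩
        rw [C.cnT_A hr]
        unfold cnB
        rw [if_neg h6, if_neg h7]
        rw [hj] at h4
        exact C.cnA_pos ht hF hl h4
    · -- south
      obtain ⟨g, hg, -, hg2⟩ := h1 (z + 1) (by rw [Set.mem_uIcc]; omega) (by omega)
      have e1 : C.can g = (pN.symm r).r2 := by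
        rw [← hg2, add_comm, zpow_one_add, Equiv.Perm.mul_apply, h3]
        exact r2_stN r
      have e3 : g = Rows7.jf r := by
        unfold Rows7.jf
        rw [← C.can_facet g, e1, FSt.facet_r2]
      obtain ⟨h5, h6, h7⟩ := C.al_dn hr (by rw [← e3, e1])
      rcases h4 with h4 | ⟨ht, hF, h4⟩
      · refine ⟨z - 1, ?_, Or.inr (Or.inr ⟨by omega, ?_⟩)⟩
        · intro y hy hyz
          rw [Set.mem_uIcc] at hy
          by_cases hyz' : y = z
          · exact ⟨r.facet, hrI, rimL r hr, by rw [hyz', h3, h5]⟩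
          · exact path y (by rw [Set.mem_uIcc]; omega) hyz'
        · have e4 : (pN ^ (z - 1)) (C.can f) = r.stN.r2 := by
            apply pN.injective
            rw [← Equiv.Perm.mul_apply, ← zpow_one_add, add_sub_cancel, h3]
            exact (FSt.stN_inv r).symm
          rw [e4, FSt.r2_r2]
          exact C.LR_N hr h4
      · refine ⟨z, path, Or.inl ⟨r.facet, hrI, by rw [h3, h5], ?_⟩⟩
        rw [C.cnT_A hr]
        unfold cnB
        rw [if_neg h6, if_pos h7]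
        rw [hj, ← vln_rev hl] at h4
        exact C.cnA_pos ht hF (by omega) h4

lemma zpow_W (r : P.FSt) (y : ℤ) : (pN ^ (-y)) r.rL = ((pE ^ y) r).rL := by
  have key : ∀ n : ℕ, ∀ r : P.FSt, (pN ^ n) r.rL = ((pE ^ (-(n : ℤ))) r).rL := by
    intro n
    induction n with
    | zero => intro r; rfl
    | succ n ih =>
      intro r
      rw [pow_succ, Equiv.Perm.mul_apply]
      show (pN ^ n) r.rL.stN = _
      rw [rL_stN, ih]
      congr 1
      rw [show (-((n + 1 : ℕ) : ℤ)) = -(n : ℤ) + (-1) by push_cast; ring, zpow_add,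
        Equiv.Perm.mul_apply, zpow_neg_one]
      rfl
  rcases le_total 0 y with hy | hy
  · obtain ⟨n, rfl⟩ := Int.eq_ofNat_of_zero_le hy
    have h1 := key n ((pE ^ (n : ℤ)) r)
    rw [← Equiv.Perm.mul_apply, ← zpow_add, neg_add_cancel, zpow_zero, Equiv.Perm.one_apply] at h1
    rw [← h1, ← zpow_natCast, ← Equiv.Perm.mul_apply, ← zpow_add, neg_add_cancel, zpow_zero,
      Equiv.Perm.one_apply]
  · obtain ⟨n, hn⟩ := Int.eq_ofNat_of_zero_le (a := -y) (by omega)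
    rw [hn, zpow_natCast, key, ← hn, neg_neg]

lemma rim_zpow (h : C.Rim r) (y : ℤ) : C.Rim ((pE ^ y) r) :=
  QR.rim_same h ⟨y, rfl⟩

/-- an adapter facet -/
lemma cv_A (hL0 : ∀ f, L f → C.rw f = 0) (hT : C.TuLit) (h : C.Rim r)
    (hc : C.CovF L (Rows7.jf r)) {l : ℕ} (hl : l ≤ 3) : C.Cv L (C.canT r.facet) l := by
  have h0 := QR.rwI_rim h
  have rimL : ∀ r, C.Rim r → ¬ L r.facet := fun r hr h => QR.ne0 hr (hL0 _ h)
  have e0 : ∀ b, C.can (Rows7.jf r) = b → C.Cv L b l := fun b hb => by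
    rw [← hb]
    exact C.cv_J hL0 hc hl
  rcases C.ca_cases h with ⟨h1, h2, h3⟩ | ⟨h1, h2, h3⟩ | ⟨h1, h2⟩
  · rw [h1]
    have h4 : (C.can (Rows7.jf r)).facet = (pN.symm r).facet := C.can_facet _
    have lit : C.can (Rows7.jf r) = (pN.symm r).rL ∨ C.can (Rows7.jf r) = (pN.symm r).rR →
        C.Cv L r l := by
      intro h5
      have h6 := hT r h h2 h5
      refine ⟨1, ?_, Or.inr (Or.inl ⟨by omega, ?_⟩)⟩
      · intro y hy hyz
        rw [Set.mem_uIcc] at hy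
        have hy0 : y = 0 := by omega
        exact ⟨r.facet, h0, rimL r h, by rw [hy0, zpow_zero, Equiv.Perm.one_apply, h1]⟩
      · rw [zpow_one]
        exact C.LR_N h h6
    rcases rot4 h4 with h5 | h5 | h5 | h5
    · apply C.cv_step1 (pN_symm_stN r) ⟨r.facet, h0, rimL r h, h1.symm⟩ h0
      exact e0 _ h5
    · exact absurd h5 h3
    · exact lit (Or.inr h5)
    · exact lit (Or.inl h5)
  · rw [h1]
    have h3' : C.can (Rows7.jf r) = (pN.symm r).r2 := h3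
    apply C.cv_step2 (r2_stN r) ⟨r.facet, h0, rimL r h, h1.symm⟩ (by rw [FSt.facet_r2]; exact h0)
    exact e0 _ h3'
  · rw [h1]
    obtain ⟨ht, z, h4, h5⟩ := C.tu_cov r h h2
    have key : ∀ y ∈ Set.uIcc 0 z, (pN ^ (-y)) r.rL = C.canT ((pE ^ y) r).facet := by
      intro y hy
      rw [zpow_W]
      rcases C.ca_cases (C.rim_zpow h y) with ⟨-, h6, -⟩ | ⟨-, h6, -⟩ | ⟨h6, -⟩
      · exact absurd (h4 y hy) h6
      · exact absurd (h4 y hy) h6
      · exact h6.symm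
    refine ⟨-z, ?_, Or.inl ⟨((pE ^ z) r).facet, QR.rwI_rim (C.rim_zpow h z),
      key z Set.right_mem_uIcc, ?_⟩⟩
    · intro y hy _
      refine ⟨((pE ^ (-y)) r).facet, QR.rwI_rim (C.rim_zpow h (-y)), rimL _ (C.rim_zpow h (-y)), ?_⟩
      have h6 := key (-y) (by rw [Set.mem_uIcc] at hy ⊢; omega)
      rw [neg_neg] at h6
      exact h6
    · have hz : C.Rim ((pE ^ z) r) := C.rim_zpow h z
      have hsz : pE.SameCycle r ((pE ^ z) r) := ⟨z, rfl⟩
      rw [C.cnT_A hz]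
      unfold cnB
      rw [if_pos (h4 z Set.right_mem_uIcc), if_pos]
      · exact Nat.one_pos
      · refine ⟨(C.tr_same h hsz).2 ht, ?_⟩
        rw [C.z1_same h hsz, C.z2_same h hsz]
        exact h5

/-- **Every line is covered.** -/
theorem cv (hL0 : ∀ f, L f → C.rw f = 0) (hLr : ∀ r, C.Rim r → ¬ L (Rows7.jf r)) (hT : C.TuLit)
    (hc : ∀ f, C.rw f = 0 → ¬ L f → C.CovF L f) {f : P.Facet}
    (hf : QR.rwI C.toRows7 f = 0) (hfL : ¬ L f) {l : ℕ} (hl : l ≤ 3) :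
    C.Cv L (C.canT f) l := by
  have h1 : (C.canT f).facet = f := C.canT_facet f
  rcases QR.ex_or (s := C.canT f) (R := C.toRows7) (by rw [h1]; exact hf) with h2 | ⟨r, hr, h2⟩
  · rw [h1] at h2
    rw [C.canT_J h2]
    exact C.cv_J hL0 (hc f h2 hfL) hl
  · rw [h1] at h2
    rw [h2]
    exact C.cv_A hL0 hT hr (hc _ (QR.rw_S hr) (hLr r hr)) hl

end QX0

end Pool.Agent.MP42K
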