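import Pool.Agent.MP42.R.RConn

/-!
# One strand per facet: definitions

`QX P`: a junction certificate in which every facet outside the core carries at most one strand,
given by its two ends: `w`, `e`: it crosses the west, east side; `ls`, `ln`: letter over the south
and north side; `c`: the letters are in the last column (`c = true`) or in the first column
(`c = false`) in the frame `can`.

The core bands have seven rows; the rows 1 and 7 (adapter rows) are filled by the theorem
`QX.toRX : RX P 3`, its core rows are the rows 2, .., 6.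

Adapter facet `r.facet` at the rim state `r` (north into the band), all columns in the frame `r`:
* feet with label `+` (letter `n`): from the letter over the rim to the east, next facet, north in
  column 0; label `-` (letter `s`): to the west, previous facet, north in the last column: the feet
  are shifted by one facet (`shf`);
* feet with label `0`: straight, the frame of the facet is turned (`tu`);
* cut bands: straight.

`g1`, `g2`: the facets of the feet of strand 1 and strand 2 (rim states of the seven rows) before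
the shift.
-/

set_option autoImplicit false
set_option linter.unusedSectionVars false

namespace Pool.Agent.MP42K

open Pool.Agent.Helper55.UNF Pool.Agent.Helper55.UNF.GridSolid Pool.Agent.MP42G
open Pool.Agent.MP42H Pool.Agent.MP42X Pool.Agent.MP42R

variable {P : GridSolid}

/-- Seven rows of wall facets in every core band; `rw = 0` on the other facets. -/
structure Rows7 (P : GridSolid) where
  rw : P.Facet → ℕ
  le7 : ∀ f, rw f ≤ 7
  V : ∀ s : P.FSt, rw s.facet ≠ 0 → IsV s ∨ IsV s.rL
  E : ∀ s : P.FSt, IsV s → rw s.stE.facet = rw s.facet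
  N : ∀ s : P.FSt, IsU s → rw s.facet ≠ 0 → IsU s.stN ∧
    rw s.stN.facet = if rw s.facet = 7 then 0 else rw s.facet + 1
  S : ∀ s : P.FSt, IsU s.stN → rw s.stN.facet ≠ 0 → IsU s ∧ rw s.facet + 1 = rw s.stN.facet
  comm : ∀ s : P.FSt, IsU s → (rw s.facet ≠ 0 ∨ rw s.stN.facet ≠ 0) → s.stE.stN = s.stN.stE

namespace Rows7

variable (R : Rows7 P)

/-- rim states: north points into the band -/
def Rim (r : P.FSt) : Prop :=
  (IsU r ∧ R.rw r.facet = 1) ∨ (IsU r.r2 ∧ R.rw r.facet = 7)

/-- the rim state on the other side of the band -/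
def far (r : P.FSt) : P.FSt := ((pN ^ 6) r).r2

/-- constant on the junctions -/
def QJ (Q : P.Facet → Prop) : Prop :=
  ∀ s : P.FSt, R.rw s.facet = 0 → R.rw s.stE.facet = 0 → (Q s.facet ↔ Q s.stE.facet)

/-- the facet of the junction at a rim state -/
def jf (r : P.FSt) : P.Facet := (pN.symm r).facet

/-- The bands with `tr` form a spanning tree of the junctions. -/
structure Tree (tr : P.FSt → Prop) : Prop where
  conn : ∀ Q : P.Facet → Prop, R.QJ Q →
    (∀ r, R.Rim r → tr r → (Q (jf r) ↔ Q (jf (far r)))) →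
    ∀ f g, R.rw f = 0 → R.rw g = 0 → (Q f ↔ Q g)
  sep : ∀ r₀, R.Rim r₀ → tr r₀ → ∃ S : P.Facet → Prop, R.QJ S ∧
    (∀ r, R.Rim r → tr r → ¬ pE.SameCycle r₀ r → ¬ pE.SameCycle (far r₀) r →
      (S (jf r) ↔ S (jf (far r)))) ∧ ¬ (S (jf r₀) ↔ S (jf (far r₀)))

end Rows7

/-- the configurations of one facet: west side, east side, letter in the north, letter in the
south; at most one strand -/
def ok1 : Bool → Bool → Ln → Ln → Bool
  | false, false, Ln.z, Ln.z => true
  | true, true, Ln.z, Ln.z => true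
  | false, false, Ln.n, Ln.n => true
  | false, false, Ln.s, Ln.s => true
  | true, false, Ln.n, Ln.z => true
  | true, false, Ln.z, Ln.s => true
  | false, true, Ln.s, Ln.z => true
  | false, true, Ln.z, Ln.n => true
  | _, _, _, _ => false

/-- the lines of a facet in the direction of the frame: west half of the first column (`W`), east
half of the last column (`E`), all the others (`M`) -/
inductive VL
  | W | M | E
  deriving DecidableEq

/-- turn the frame by two right angles -/
def VL.flip : VL → VL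
  | VL.W => VL.E
  | VL.M => VL.M
  | VL.E => VL.W

/-- the strand crosses the line -/
def hit (w e c : Bool) : VL → Bool
  | VL.W => w
  | VL.E => e
  | VL.M => (w && c) || (e && !c)

open Classical in
/-- letter over the north side of the state `s` -/
noncomputable def wnQ (can : P.Facet → P.FSt) (ls ln : P.Facet → Ln) (s : P.FSt) : Ln :=
  if can s.facet = s then ln s.facet
  else if can s.facet = s.r2 then ls s.facet else Ln.z

open Classical in
/-- strand over the north side of the state `s`, if the frame of its facet is turned by a right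
angle -/
noncomputable def woQ (can : P.Facet → P.FSt) (w e : P.Facet → Bool) (s : P.FSt) : Bool :=
  if can s.facet = s.rL then e s.facet
  else if can s.facet = s.rR then w s.facet else false

open Classical in
/-- the letters are in the last column in the frame `s` (`can` is `s` or `s.r2`) -/
noncomputable def wcQ (can : P.Facet → P.FSt) (c : P.Facet → Bool) (s : P.FSt) : Bool :=
  if can s.facet = s then c s.facet else !(c s.facet)

/-- The foot of a strand of a tree band after the shift in the adapter row: `g` foot before the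
shift, `z` the label is `0`, `ng` negative. -/
def shf (z ng : P.FSt → Bool) (g : P.FSt → Prop) (r : P.FSt) : Prop :=
  if z r = true then g r else if ng r = true then g r.stE else g (pE.symm r)

open Classical in
/-- A junction certificate with at most one strand in every facet, without coverage. -/
structure QX0 (P : GridSolid) extends Rows7 P where
  can : P.Facet → P.FSt
  can_facet : ∀ f, (can f).facet = f
  /-- the strand crosses the west side -/
  w : P.Facet → Bool
  /-- the strand crosses the east side -/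
  e : P.Facet → Bool
  /-- letter over the south side -/
  ls : P.Facet → Ln
  /-- letter over the north side -/
  ln : P.Facet → Ln
  /-- the letters are in the last column -/
  c : P.Facet → Bool
  ok : ∀ f, rw f = 0 → ok1 (w f) (e f) (ln f) (ls f) = true
  gN : ∀ f g, rw f = 0 → rw g = 0 → (can f).stN = can g → ln f = ls g ∧ (ln f ≠ Ln.z → c f = c g)
  gN' : ∀ f, rw f = 0 → rw (can f).stN.facet = 0 → (∀ g, (can f).stN ≠ can g) → ln f = Ln.z
  gS' : ∀ g, rw g = 0 → rw (can g).r2.stN.facet = 0 → (∀ f, (can f).stN ≠ can g) → ls g = Ln.z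
  gE : ∀ f g, rw f = 0 → rw g = 0 → (can f).stE = can g → e f = w g
  gEr : ∀ f g, rw f = 0 → rw g = 0 → (can f).stE = (can g).r2 → e f = e g
  gWr : ∀ f g, rw f = 0 → rw g = 0 → (can f).r2.stE = can g → w f = w g
  gE' : ∀ f, rw f = 0 → rw (can f).stE.facet = 0 →
    (∀ g, (can f).stE ≠ can g ∧ (can f).stE ≠ (can g).r2) → e f = false
  gW' : ∀ f, rw f = 0 → rw (can f).r2.stE.facet = 0 →
    (∀ g, (can f).r2.stE ≠ can g ∧ (can f).r2.stE ≠ (can g).r2) → w f = false
  /-- the tree bands -/
  tr : P.FSt → Prop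
  tr_E : ∀ r, toRows7.Rim r → (tr r.stE ↔ tr r)
  tr_far : ∀ r, toRows7.Rim r → (tr (Rows7.far r) ↔ tr r)
  /-- the rims that are met by the curve -/
  ac : P.FSt → Prop
  ac_E : ∀ r, toRows7.Rim r → (ac r.stE ↔ ac r)
  ac_tr : ∀ r, toRows7.Rim r → tr r → ac r
  ac_far : ∀ r, toRows7.Rim r → ac r ∨ ac (Rows7.far r)
  ng : P.FSt → Bool
  ng_E : ∀ r, toRows7.Rim r → ng r.stE = ng r
  ng_far : ∀ r, toRows7.Rim r → ng (Rows7.far r) = ng r
  z1 : P.FSt → Bool
  z1_E : ∀ r, toRows7.Rim r → z1 r.stE = z1 r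
  z1_far : ∀ r, toRows7.Rim r → z1 (Rows7.far r) = z1 r
  z2 : P.FSt → Bool
  z2_E : ∀ r, toRows7.Rim r → z2 r.stE = z2 r
  z2_far : ∀ r, toRows7.Rim r → z2 (Rows7.far r) = z2 r
  z12 : ∀ r, toRows7.Rim r → z1 r = true → z2 r = true
  /-- the facet of the foot of strand 1 (tree band); cut band: the curve leaves the rim `r` with
  the letter `n` in the first column, and the rim `pE.symm r` with `s` in the last column -/
  g1 : P.FSt → Prop
  g2 : P.FSt → Prop
  g1_ac : ∀ r, toRows7.Rim r → g1 r → ac r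
  g1_ex : ∀ r, toRows7.Rim r → ac r → ∃! a, pE.SameCycle r a ∧ g1 a
  g2_ex : ∀ r, toRows7.Rim r → tr r → ∃! b, pE.SameCycle r b ∧ g2 b
  arc : ∀ r, toRows7.Rim r → tr r → g1 r → ∀ n ≤ 3, ¬ g2 ((dir (ng r) ^ n) r)
  rn : ∀ r, toRows7.Rim r → wnQ can ls ln (pN.symm r) =
    if tr r then
      (if (g1 r ∧ z1 r = false) ∨ (g2 r ∧ z2 r = false) then flet (ng r) else Ln.z)
    else (if g1 r then Ln.n else if g1 r.stE then Ln.s else Ln.z)
  ro : ∀ r, toRows7.Rim r → woQ can w e (pN.symm r) =
    decide (tr r ∧ ((g1 r ∧ z1 r = true) ∨ (g2 r ∧ z2 r = true)))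
  /-- columns of the feet of cut bands -/
  rc : ∀ r, toRows7.Rim r → ¬ tr r → (g1 r → wcQ can c (pN.symm r) = false) ∧
    (g1 r.stE → wcQ can c (pN.symm r) = true)
  /-- the frame of the adapter facet is turned -/
  tu : P.FSt → Prop
  tu_T : ∀ r, toRows7.Rim r → tu r →
    can (Rows7.jf r) = (pN.symm r).rL ∨ can (Rows7.jf r) = (pN.symm r).rR
  tu_0 : ∀ r, toRows7.Rim r → tr r → (g1 r ∧ z1 r = true) ∨ (g2 r ∧ z2 r = true) → tu r
  tu_cov : ∀ r, toRows7.Rim r → tu r → tr r ∧ ∃ z : ℤ, (∀ y ∈ Set.uIcc 0 z, tu ((pE ^ y) r)) ∧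
    ((g1 ((pE ^ z) r) ∧ z1 r = true) ∨ (g2 ((pE ^ z) r) ∧ z2 r = true))
  /-- the facet of the shifted foot is straight -/
  tu_sh : ∀ r, toRows7.Rim r → tr r →
    (z1 r = false ∧ shf z1 ng g1 r) ∨ (z2 r = false ∧ shf z2 ng g2 r) → ¬ tu r

namespace QX0

variable (C : QX0 P)

/-- `φ f` is the value of the strand in the facet `f` -/
structure Inv (φ : P.Facet → Prop) : Prop where
  gN : ∀ f g, C.rw f = 0 → C.rw g = 0 → (C.can f).stN = C.can g → C.ln f ≠ Ln.z → (φ f ↔ φ g)
  gE : ∀ f g, C.rw f = 0 → C.rw g = 0 → ((C.can f).stE = C.can g ∨ (C.can f).stE = (C.can g).r2) →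
    C.e f = true → (φ f ↔ φ g)
  gW : ∀ f g, C.rw f = 0 → C.rw g = 0 → (C.can f).r2.stE = C.can g → C.w f = true → (φ f ↔ φ g)
  tree : ∀ a b, C.Rim a → C.tr a → pE.SameCycle a b → C.g1 a → C.g2 b →
    (φ (Rows7.jf a) ↔ φ (Rows7.jf b))
  cut : ∀ r, C.Rim r → ¬ C.tr r → C.g1 r.stE → (φ (Rows7.jf r.stE) ↔ φ (Rows7.jf r))

/-- the facet carries a strand -/
def On (f : P.Facet) : Prop := C.w f = true ∨ C.e f = true ∨ C.ls f ≠ Ln.z ∨ C.ln f ≠ Ln.z

/-- the closed-up junctions are closed curves -/
def Conn : Prop := ∀ φ, C.Inv φ → ∃ Q, C.QJ Q ∧ ∀ f, C.rw f = 0 → C.On f → (φ f ↔ Q f)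

end QX0

/-- A facet with a turned frame at a rim, where the adapter facet is straight, is lit. -/
def QX0.TuLit {P : GridSolid} (C : QX0 P) : Prop := ∀ r, C.Rim r → ¬ C.tu r →
  C.can (Rows7.jf r) = (pN.symm r).rL ∨ C.can (Rows7.jf r) = (pN.symm r).rR →
  Lit C.tr C.ng C.z1 C.z2 (shf C.z1 C.ng C.g1) (shf C.z2 C.ng C.g2) r

/-- Every line of `f` reaches a strand, or a lit rim facet, or a foot that is crossed by the line
in the adapter row; the facets with `L` are not used. -/
def QX0.CovF {P : GridSolid} (C : QX0 P) (L : P.Facet → Prop) (f : P.Facet) : Prop :=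
  ∀ j : VL, ∃ z : ℤ,
    (∀ y ∈ Set.uIcc 0 z, y ≠ z → ∃ g, C.rw g = 0 ∧ ¬ L g ∧ (pN ^ y) (C.can f) = C.can g) ∧
    ((∃ g, C.rw g = 0 ∧ (pN ^ z) (C.can f) = C.can g ∧ hit (C.w g) (C.e g) (C.c g) j = true) ∨
     (∃ r j', ((0 < z ∧ (pN ^ z) (C.can f) = r ∧ j' = j) ∨
        (z < 0 ∧ (pN ^ z) (C.can f) = r.r2 ∧ j' = j.flip)) ∧ C.Rim r ∧
      (Lit C.tr C.ng C.z1 C.z2 (shf C.z1 C.ng C.g1) (shf C.z2 C.ng C.g2) r ∨
       (C.tr r ∧ ((C.g1 r ∧ C.z1 r = false) ∨ (C.g2 r ∧ C.z2 r = false)) ∧
        (if C.ng r = true then hit true false (wcQ C.can C.c (pN.symm r)) j' = true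
         else hit false true (wcQ C.can C.c (pN.symm r)) j' = true)))))

/-- A junction certificate with at most one strand in every facet. -/
structure QX (P : GridSolid) extends QX0 P where
  tu_lit : ∀ r, toRows7.Rim r → ¬ tu r →
    can (Rows7.jf r) = (pN.symm r).rL ∨ can (Rows7.jf r) = (pN.symm r).rR →
    Lit tr ng z1 z2 (shf z1 ng g1) (shf z2 ng g2) r
  /-- Every line reaches a strand, or a lit rim facet, or a foot that is crossed by the line in the
  adapter row. -/
  cov : ∀ f, rw f = 0 → ∀ j : VL, ∃ z : ℤ,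
    (∀ y ∈ Set.uIcc 0 z, y ≠ z → ∃ g, rw g = 0 ∧ (pN ^ y) (can f) = can g) ∧
    ((∃ g, rw g = 0 ∧ (pN ^ z) (can f) = can g ∧ hit (w g) (e g) (c g) j = true) ∨
     (∃ r j', ((0 < z ∧ (pN ^ z) (can f) = r ∧ j' = j) ∨
        (z < 0 ∧ (pN ^ z) (can f) = r.r2 ∧ j' = j.flip)) ∧ toRows7.Rim r ∧
      (Lit tr ng z1 z2 (shf z1 ng g1) (shf z2 ng g2) r ∨
       (tr r ∧ ((g1 r ∧ z1 r = false) ∨ (g2 r ∧ z2 r = false)) ∧
        (if ng r = true then hit true false (wcQ can c (pN.symm r)) j' = true
         else hit false true (wcQ can c (pN.symm r)) j' = true)))))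

lemma QX.covF {P : GridSolid} (C : QX P) {f : P.Facet} (h : C.rw f = 0) :
    C.CovF (fun _ => False) f := by
  intro j
  obtain ⟨z, h1, h2⟩ := C.cov f h j
  refine ⟨z, fun y hy hyz => ?_, h2⟩
  obtain ⟨g, hg, hg2⟩ := h1 y hy hyz
  exact ⟨g, hg, fun h => h, hg2⟩

end Pool.Agent.MP42K
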