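import Pool.Agent.MP42.K.QTab

/-!
# One strand per facet: the table matches over the sides of the facets
-/

set_option autoImplicit false
set_option linter.unusedSectionVars false

namespace Pool.Agent.MP42K

open Pool.Agent.Helper55.UNF Pool.Agent.Helper55.UNF.GridSolid Pool.Agent.MP42G
open Pool.Agent.MP42H Pool.Agent.MP42X Pool.Agent.MP42R

variable {P : GridSolid}

namespace QX0

variable (C : QX0 P) {r s : P.FSt}

/-- the three frames of an adapter facet -/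
lemma ca_cases (h : C.Rim r) :
    (C.canT r.facet = r ∧ ¬ C.tu r ∧ ¬ C.fl r) ∨ (C.canT r.facet = r.r2 ∧ ¬ C.tu r ∧ C.fl r) ∨
      (C.canT r.facet = r.rL ∧ C.tu r) := by
  rw [C.canT_A h]
  unfold caA
  by_cases h1 : C.tu r
  · rw [if_pos h1]; exact Or.inr (Or.inr ⟨rfl, h1⟩)
  · rw [if_neg h1]
    by_cases h2 : C.fl r
    · rw [if_pos h2]; exact Or.inr (Or.inl ⟨rfl, h1, h2⟩)
    · rw [if_neg h2]; exact Or.inl ⟨rfl, h1, h2⟩

lemma not_fl_tu (h : C.Rim r) (ht : C.tu r) : ¬ C.fl r := by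
  intro h2
  have h2 : C.can (Rows7.jf r) = (pN.symm r).r2 := h2
  rcases C.tu_T r h ht with h1 | h1
  · rw [h1] at h2; exact rL_ne_r2 _ h2
  · rw [h1] at h2; exact rR_ne_r2 _ h2

open Classical in
/-- strands over the east side of the state -/
noncomputable def EV (s : P.FSt) : ℕ :=
  if C.canT s.facet = s then C.cnT s.facet 3
  else if C.canT s.facet = s.r2 then C.cnT s.facet 0 else 0

/-- letters over the north side of the state -/
noncomputable def NV (s : P.FSt) (x : ℕ) : Ln := wnR 3 C.canT C.sT C.nT s x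

/-! ## East sides -/

open Classical in
lemma EV_J (h : C.rw s.facet = 0) : C.EV s = if C.can s.facet = s then (C.e s.facet).toNat
    else if C.can s.facet = s.r2 then (C.w s.facet).toNat else 0 := by
  unfold EV
  rw [C.canT_J h, C.cnT_J h]
  unfold cnJ
  rw [if_pos (Nat.zero_le _), if_neg (show ¬ 3 ≤ C.col s.facet by
    unfold col; split_ifs <;> omega)]

lemma EV_r (h : C.Rim r) : C.EV r = C.cnA r 3 := by
  unfold EV
  rw [C.cnT_A h]
  unfold cnB
  rcases C.ca_cases h with ⟨h1, h2, h3⟩ | ⟨h1, h2, h3⟩ | ⟨h1, h2⟩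
  · rw [if_pos h1, if_neg h2, if_neg h3]
  · rw [if_neg (by rw [h1]; exact r2_ne r), if_pos h1, if_neg h2, if_pos h3]
  · rw [if_neg (by rw [h1]; exact rL_ne r), if_neg (by rw [h1]; exact rL_ne_r2 r), C.cnA_3 h h2]

lemma EV_r2 (h : C.Rim r) : C.EV r.r2 = C.cnA r 0 := by
  unfold EV
  rw [FSt.facet_r2, C.cnT_A h, FSt.r2_r2]
  unfold cnB
  rcases C.ca_cases h with ⟨h1, h2, h3⟩ | ⟨h1, h2, h3⟩ | ⟨h1, h2⟩
  · rw [if_neg (by rw [h1]; exact (r2_ne r).symm), if_pos h1, if_neg h2, if_neg h3]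
  · rw [if_pos h1, if_neg h2, if_pos h3]
  · rw [if_neg (by rw [h1]; exact rL_ne_r2 r), if_neg (by rw [h1]; exact rL_ne r), C.cnA_0 h h2]

open Classical in
lemma EV_rR (h : C.Rim r) : C.EV r.rR = if C.F0 r then 1 else 0 := by
  unfold EV
  rw [FSt.facet_rR, C.cnT_A h, FSt.rR_r2]
  unfold cnB
  rcases C.ca_cases h with ⟨h1, h2, h3⟩ | ⟨h1, h2, h3⟩ | ⟨h1, h2⟩
  · rw [if_neg (by rw [h1]; exact (rR_ne r).symm), if_neg (by rw [h1]; exact (rL_ne r).symm),
      if_neg (fun h4 => h2 (C.tu_0 r h h4.1 h4.2))]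
  · rw [if_neg (by rw [h1]; exact (rR_ne_r2 r).symm), if_neg (by rw [h1]; exact (rL_ne_r2 r).symm),
      if_neg (fun h4 => h2 (C.tu_0 r h h4.1 h4.2))]
  · rw [if_neg (by rw [h1]; exact rL_ne_rR r), if_pos h1, if_pos h2]

open Classical in
lemma EV_sL (h : C.Rim r) : C.EV (pN.symm r).rL = if C.F0 r then 1 else 0 := by
  have h0 := QR.rw_S h
  rw [C.EV_J (by rw [FSt.facet_rL]; exact h0), FSt.facet_rL, FSt.rL_r2]
  have h1 := C.ro r h
  unfold woQ at h1
  by_cases h2 : C.can (pN.symm r).facet = (pN.symm r).rL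
  · rw [if_pos h2] at h1 ⊢
    rw [h1]
    by_cases h3 : C.F0 r
    · rw [if_pos h3, decide_eq_true (show C.tr r ∧ _ from h3)]
      rfl
    · rw [if_neg h3, decide_eq_false (show ¬ (C.tr r ∧ _) from h3)]
      rfl
  · rw [if_neg h2] at h1 ⊢
    by_cases h4 : C.can (pN.symm r).facet = (pN.symm r).rR
    · rw [if_pos h4] at h1 ⊢
      rw [h1]
      by_cases h3 : C.F0 r
      · rw [if_pos h3, decide_eq_true (show C.tr r ∧ _ from h3)]
        rfl
      · rw [if_neg h3, decide_eq_false (show ¬ (C.tr r ∧ _) from h3)]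
        rfl
    · rw [if_neg h4] at h1 ⊢
      rw [if_neg]
      intro h3
      rw [decide_eq_true (show C.tr r ∧ _ from h3)] at h1
      exact absurd h1 (by decide)

lemma GE_J0 (h1 : C.rw s.facet = 0) (h2 : C.rw s.stE.facet = 0)
    (ha : C.can s.facet = s ∨ C.can s.facet = s.r2) : C.EV s = C.EV s.stE.r2 := by
  have ht2 : s.stE.r2.stE = s.r2 := FSt.stE_inv s
  rw [C.EV_J h1, C.EV_J (by rw [FSt.facet_r2]; exact h2), FSt.facet_r2, FSt.r2_r2]
  have hna : (∀ g, s.stE ≠ C.can g ∧ s.stE ≠ (C.can g).r2) ↔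
      ¬ (C.can s.stE.facet = s.stE ∨ C.can s.stE.facet = s.stE.r2) := by
    constructor
    · rintro h (h3 | h3)
      · exact (h s.stE.facet).1 h3.symm
      · exact (h s.stE.facet).2 (by rw [h3, FSt.r2_r2])
    · intro h g
      constructor
      · intro h3
        apply h
        left
        rw [h3, C.can_facet]
      · intro h3
        apply h
        right
        rw [h3, FSt.r2_r2, FSt.facet_r2, C.can_facet]
  rcases ha with ha | ha
  · rw [if_pos ha]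
    by_cases h3 : C.can s.stE.facet = s.stE.r2
    · rw [if_pos h3, C.gEr s.facet s.stE.facet h1 h2 (by rw [ha, h3, FSt.r2_r2])]
    · rw [if_neg h3]
      by_cases h4 : C.can s.stE.facet = s.stE
      · rw [if_pos h4, C.gE s.facet s.stE.facet h1 h2 (by rw [ha, h4])]
      · rw [if_neg h4, C.gE' s.facet h1 (by rw [ha]; exact h2) (by
          rw [ha]; exact hna.2 (by rintro (h | h); exacts [h4 h, h3 h]))]
        rfl
  · rw [if_neg (by rw [ha]; exact r2_ne s), if_pos ha]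
    have hs : (C.can s.facet).r2 = s := by rw [ha, FSt.r2_r2]
    by_cases h3 : C.can s.stE.facet = s.stE.r2
    · rw [if_pos h3, C.gE s.stE.facet s.facet h2 h1 (by rw [h3, ha, ht2])]
    · rw [if_neg h3]
      by_cases h4 : C.can s.stE.facet = s.stE
      · rw [if_pos h4, C.gWr s.facet s.stE.facet h1 h2 (by rw [hs, h4])]
      · rw [if_neg h4, C.gW' s.facet h1 (by rw [hs]; exact h2) (by
          rw [hs]; exact hna.2 (by rintro (h | h); exacts [h4 h, h3 h]))]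
        rfl

lemma GE_J (h1 : C.rw s.facet = 0) (h2 : C.rw s.stE.facet = 0) : C.EV s = C.EV s.stE.r2 := by
  by_cases ha : C.can s.facet = s ∨ C.can s.facet = s.r2
  · exact C.GE_J0 h1 h2 ha
  · by_cases hb : C.can s.stE.facet = s.stE ∨ C.can s.stE.facet = s.stE.r2
    · have ht2 : s.stE.r2.stE = s.r2 := FSt.stE_inv s
      have := C.GE_J0 (s := s.stE.r2) (by rw [FSt.facet_r2]; exact h2)
        (by rw [ht2, FSt.facet_r2]; exact h1) (by
          rw [FSt.facet_r2, FSt.r2_r2]; exact hb.symm)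
      rw [ht2, FSt.r2_r2] at this
      exact this.symm
    · rw [C.EV_J h1, C.EV_J (by rw [FSt.facet_r2]; exact h2), FSt.facet_r2, FSt.r2_r2,
        if_neg (fun h => ha (Or.inl h)), if_neg (fun h => ha (Or.inr h)),
        if_neg (fun h => hb (Or.inr h)), if_neg (fun h => hb (Or.inl h))]

lemma GE_A (h : C.Rim r) (hs : s.facet = r.facet) (h2 : QR.rwI C.toRows7 s.stE.facet = 0) :
    C.EV s = C.EV s.stE.r2 := by
  rcases QR.nb h hs h2 with ⟨rfl, -⟩ | ⟨rfl, -⟩ | ⟨rfl, -⟩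
  · rw [C.EV_r h, C.EV_r2 (QR.rim_E h), C.cnA_E h]
  · rw [C.EV_r2 h, r2_stE, FSt.r2_r2, C.EV_r (QR.rim_W h), C.cnA_E (QR.rim_W h), pE_symm_stE]
  · rw [C.EV_rR h, rR_stE, FSt.rR_r2, C.EV_sL h]

/-- **The east sides.** -/
theorem GE (h1 : QR.rwI C.toRows7 s.facet = 0) (h2 : QR.rwI C.toRows7 s.stE.facet = 0) :
    C.EV s = C.EV s.stE.r2 := by
  rcases QR.ex_or h1 with h3 | ⟨r, hr, h3⟩
  · rcases QR.ex_or h2 with h4 | ⟨r, hr, h4⟩
    · exact C.GE_J h3 h4
    · have ht2 : s.stE.r2.stE = s.r2 := FSt.stE_inv s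
      have := C.GE_A (s := s.stE.r2) hr (by rw [FSt.facet_r2]; exact h4)
        (by rw [ht2, FSt.facet_r2]; exact h1)
      rw [ht2, FSt.r2_r2] at this
      exact this.symm
  · exact C.GE_A hr h3 h2

/-! ## North sides -/

lemma rR_stN (s : P.FSt) : s.rR.stN = s.stE.rR := by
  show s.rR.rL.stE.rR = s.stE.rR
  rw [FSt.rR_rL]

lemma NV_J (h : C.rw s.facet = 0) {x : ℕ} (hx : x < 3) : C.NV s x =
    if x = (if wcQ C.can C.c s = true then 2 else 0) then wnQ C.can C.ls C.ln s else Ln.z := by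
  unfold NV wnR wnQ wcQ
  rw [C.canT_J h, C.sT_J h, C.nT_J h]
  unfold sJ nJ col
  by_cases h1 : C.can s.facet = s
  · rw [if_pos h1, if_pos h1, if_pos h1]
  · rw [if_neg h1, if_neg h1, if_neg h1]
    by_cases h2 : C.can s.facet = s.r2
    · rw [if_pos h2, if_pos h2]
      cases C.c s.facet
      · simp only [Bool.false_eq_true, if_false, Bool.not_false, if_true]
        by_cases h3 : x = 2
        · rw [if_pos h3, if_pos (by omega)]
        · rw [if_neg h3, if_neg (by omega)]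
      · simp only [Bool.false_eq_true, if_false, Bool.not_true, if_true]
        by_cases h3 : x = 0
        · rw [if_pos h3, if_pos (by omega)]
        · rw [if_neg h3, if_neg (by omega)]
    · rw [if_neg h2, if_neg h2]
      split_ifs <;> rfl

lemma NV_s (h : C.Rim r) {x : ℕ} (hx : x < 3) : C.NV (pN.symm r) x = C.sA r x := by
  rw [C.NV_J (QR.rw_S h) hx, C.sA_eq h]
  rfl

lemma NV_r2 (h : C.Rim r) (x : ℕ) : C.NV r.r2 x = C.sA r (2 - x) := by
  unfold NV wnR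
  rw [FSt.facet_r2, C.sT_A h, C.nT_A h, FSt.r2_r2]
  unfold sB nB
  rcases C.ca_cases h with ⟨h1, h2, h3⟩ | ⟨h1, h2, h3⟩ | ⟨h1, h2⟩
  · rw [if_neg (by rw [h1]; exact (r2_ne r).symm), if_pos h1, if_neg h2, if_neg h3]
  · rw [if_pos h1, if_neg h2, if_pos h3]
  · rw [if_neg (by rw [h1]; exact rL_ne_r2 r), if_neg (by rw [h1]; exact rL_ne r), C.sA_tu h h2]

lemma nA_tu (h : C.Rim r) (ht : C.tu r) (x : ℕ) : C.nA r x = Ln.z := by
  have h1 := (C.tu_cov r h ht).1
  unfold nA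
  rw [if_pos h1]
  by_cases hn : C.ng r = true
  · rw [if_pos hn, if_neg]
    rintro ⟨h2, -⟩
    exact C.not_tu_sh h h1 (by rw [if_pos hn]; exact h2) ht
  · rw [if_neg hn, if_neg]
    rintro ⟨h2, -⟩
    exact C.not_tu_sh h h1 (by rw [if_neg hn]; exact h2) ht

lemma NV_r (h : C.Rim r) {x : ℕ} (hx : x < 3) : C.NV r x = C.nA r x := by
  unfold NV wnR
  rw [C.sT_A h, C.nT_A h]
  unfold sB nB
  rcases C.ca_cases h with ⟨h1, h2, h3⟩ | ⟨h1, h2, h3⟩ | ⟨h1, h2⟩
  · rw [if_pos h1, if_neg h2, if_neg h3]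
  · rw [if_neg (by rw [h1]; exact r2_ne r), if_pos h1, if_neg h2, if_pos h3]
    congr 1
    omega
  · rw [if_neg (by rw [h1]; exact rL_ne r), if_neg (by rw [h1]; exact rL_ne_r2 r), C.nA_tu h h2]

lemma NV_rL (h : C.Rim r) (x : ℕ) : C.NV r.rL x = Ln.z := by
  unfold NV wnR
  rw [FSt.facet_rL, C.sT_A h, C.nT_A h, FSt.rL_r2]
  unfold nB
  rcases C.ca_cases h with ⟨h1, h2, h3⟩ | ⟨h1, h2, h3⟩ | ⟨h1, h2⟩
  · rw [if_neg (by rw [h1]; exact (rL_ne r).symm), if_neg (by rw [h1]; exact (rR_ne r).symm)]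
  · rw [if_neg (by rw [h1]; exact (rL_ne_r2 r).symm), if_neg (by rw [h1]; exact (rR_ne_r2 r).symm)]
  · rw [if_pos h1, if_pos h2]

lemma NV_rR (h : C.Rim r) (x : ℕ) : C.NV r.rR x = Ln.z := by
  unfold NV wnR
  rw [FSt.facet_rR, C.sT_A h, C.nT_A h, FSt.rR_r2]
  unfold sB
  rcases C.ca_cases h with ⟨h1, h2, h3⟩ | ⟨h1, h2, h3⟩ | ⟨h1, h2⟩
  · rw [if_neg (by rw [h1]; exact (rR_ne r).symm), if_neg (by rw [h1]; exact (rL_ne r).symm)]
  · rw [if_neg (by rw [h1]; exact (rR_ne_r2 r).symm), if_neg (by rw [h1]; exact (rL_ne_r2 r).symm)]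
  · rw [if_neg (by rw [h1]; exact rL_ne_rR r), if_pos h1, if_pos h2]

/-- the frames of two facets match over the north side of `s` -/
def Al (s : P.FSt) : Prop :=
  (C.canT s.facet = s ∧ C.canT s.stN.facet = s.stN) ∨
    (C.canT s.facet = s.r2 ∧ C.canT s.stN.facet = s.stN.r2)

lemma Al_sym (h : C.Al s) : C.Al s.stN.r2 := by
  unfold Al at h ⊢
  rw [FSt.stN_inv, FSt.facet_r2, FSt.facet_r2, FSt.r2_r2, FSt.r2_r2]
  exact h.elim (fun h => Or.inr h.symm) (fun h => Or.inl h.symm)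

lemma Al_iff : C.Al s.stN.r2 ↔ C.Al s := by
  constructor
  · intro h
    have := C.Al_sym h
    rwa [FSt.stN_inv, FSt.r2_r2] at this
  · exact C.Al_sym

lemma JnT_z (h : C.ln s.facet = Ln.z) (h0 : C.rw s.facet = 0) (x : ℕ) : C.nT s.facet x = Ln.z := by
  rw [C.nT_J h0]
  unfold nJ
  split_ifs
  · exact h
  · rfl

lemma JsT_z (h : C.ls s.facet = Ln.z) (h0 : C.rw s.facet = 0) (x : ℕ) : C.sT s.facet x = Ln.z := by
  rw [C.sT_J h0]
  unfold sJ
  split_ifs
  · exact h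
  · rfl

lemma GNz_J (h1 : C.rw s.facet = 0) (h2 : C.rw s.stN.facet = 0) (ha : ¬ C.Al s) (x : ℕ) :
    C.NV s x = Ln.z := by
  unfold Al at ha
  rw [C.canT_J h1, C.canT_J h2] at ha
  unfold NV wnR
  rw [C.canT_J h1]
  by_cases h3 : C.can s.facet = s
  · rw [if_pos h3]
    apply C.JnT_z _ h1
    apply C.gN' s.facet h1 (by rw [h3]; exact h2)
    intro g hg
    apply ha
    left
    refine ⟨h3, ?_⟩
    rw [h3] at hg
    rw [hg, C.can_facet]
  · rw [if_neg h3]
    by_cases h4 : C.can s.facet = s.r2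
    · rw [if_pos h4]
      have hs : (C.can s.facet).r2 = s := by rw [h4, FSt.r2_r2]
      apply C.JsT_z _ h1
      apply C.gS' s.facet h1 (by rw [hs]; exact h2)
      intro g hg
      apply ha
      right
      refine ⟨h4, ?_⟩
      have h5 : C.can g = s.stN.r2 := by
        apply pN.injective
        show (C.can g).stN = s.stN.r2.stN
        rw [hg, FSt.stN_inv, h4]
      have h6 : g = s.stN.facet := by rw [← C.can_facet g, h5, FSt.facet_r2]
      rw [← h6, h5]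
    · rw [if_neg h4]

lemma GN_J (h1 : C.rw s.facet = 0) (h2 : C.rw s.stN.facet = 0) (ha : C.Al s) {x : ℕ}
    (hx : x < 3) : C.NV s x = C.NV s.stN.r2 (2 - x) := by
  have key : ∀ s : P.FSt, C.rw s.facet = 0 → C.rw s.stN.facet = 0 → C.can s.facet = s →
      C.can s.stN.facet = s.stN → ∀ x, C.nT s.facet x = C.sT s.stN.facet x := by
    intro s h1 h2 h3 h4 x
    obtain ⟨h5, h6⟩ := C.gN s.facet s.stN.facet h1 h2 (by rw [h3, h4])
    rw [C.nT_J h1, C.sT_J h2]
    unfold nJ sJ col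
    by_cases h7 : C.ln s.facet = Ln.z
    · rw [← h5, h7]
      split_ifs <;> rfl
    · rw [h6 h7, h5]
  unfold Al at ha
  unfold NV wnR
  rw [FSt.facet_r2, FSt.r2_r2]
  rw [C.canT_J h1, C.canT_J h2] at ha ⊢
  rcases ha with ⟨h3, h4⟩ | ⟨h3, h4⟩
  · rw [if_pos h3, if_neg (by rw [h4]; exact (r2_ne _).symm), if_pos h4, key s h1 h2 h3 h4]
    congr 1
    omega
  · rw [if_neg (by rw [h3]; exact r2_ne _), if_pos h3, if_pos h4]
    have ht2 : s.stN.r2.stN = s.r2 := FSt.stN_inv s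
    have h5 := key s.stN.r2 (by rw [FSt.facet_r2]; exact h2)
      (by rw [ht2, FSt.facet_r2]; exact h1) (by rw [FSt.facet_r2]; exact h4)
      (by rw [ht2, FSt.facet_r2]; exact h3) (2 - x)
    rw [ht2, FSt.facet_r2, FSt.facet_r2] at h5
    rw [h5]

/-- neighbours in the north of an adapter facet outside the inner rows -/
lemma nbN (h : C.Rim r) (hs : s.facet = r.facet) (h0 : QR.rwI C.toRows7 s.stN.facet = 0) :
    (s = r.r2 ∧ s.stN = (pN.symm r).r2) ∨ (s = r.rL ∧ s.stN = (pE.symm r).rL) ∨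
      (s = r.rR ∧ s.stN = r.stE.rR) := by
  rcases rot4 hs with rfl | rfl | rfl | rfl
  · exact absurd h0 (QR.rwI_N h)
  · exact Or.inl ⟨rfl, r2_stN r⟩
  · exact Or.inr (Or.inr ⟨rfl, rR_stN r⟩)
  · exact Or.inr (Or.inl ⟨rfl, rL_stN r⟩)

lemma al_r2 (h : C.Rim r) (hn : wnQ C.can C.ls C.ln (pN.symm r) ≠ Ln.z) : C.Al r.r2 := by
  unfold Al
  rw [r2_stN, FSt.facet_r2, FSt.facet_r2, FSt.r2_r2, FSt.r2_r2, C.canT_J (QR.rw_S h)]
  have hn' := hn
  unfold wnQ at hn
  rcases C.ca_cases h with ⟨h1, h2, h3⟩ | ⟨h1, h2, h3⟩ | ⟨h1, h2⟩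
  · right
    refine ⟨h1, ?_⟩
    by_contra h4
    rw [if_neg h4, if_neg (show ¬ (C.can (pN.symm r).facet = (pN.symm r).r2) from h3)] at hn
    exact hn rfl
  · left
    exact ⟨h1, h3⟩
  · exact absurd (C.turned_z h h2) hn'

lemma GN_A (h : C.Rim r) (hs : s.facet = r.facet) (h2 : QR.rwI C.toRows7 s.stN.facet = 0)
    {x : ℕ} (hx : x < 3) :
    C.NV s x = C.NV s.stN.r2 (2 - x) ∧ (¬ C.Al s → C.NV s x = Ln.z) := by
  rcases C.nbN h hs h2 with ⟨rfl, e⟩ | ⟨rfl, e⟩ | ⟨rfl, e⟩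
  · constructor
    · rw [e, FSt.r2_r2, C.NV_r2 h x, C.NV_s h (by omega)]
    · intro ha
      rw [C.NV_r2 h x, C.sA_eq h]
      split_ifs with h3
      · by_contra h4
        exact ha (C.al_r2 h h4)
      · rfl
  · rw [e, C.NV_rL h, FSt.rL_r2, C.NV_rR (QR.rim_W h)]
    exact ⟨rfl, fun _ => rfl⟩
  · rw [e, C.NV_rR h, FSt.rR_r2, C.NV_rL (QR.rim_E h)]
    exact ⟨rfl, fun _ => rfl⟩

/-- **The north sides.** -/
theorem GN (h1 : QR.rwI C.toRows7 s.facet = 0) (h2 : QR.rwI C.toRows7 s.stN.facet = 0) {x : ℕ}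
    (hx : x < 3) :
    (C.Al s → C.NV s x = C.NV s.stN.r2 (2 - x)) ∧ (¬ C.Al s → C.NV s x = Ln.z) := by
  rcases QR.ex_or h1 with h3 | ⟨r, hr, h3⟩
  · rcases QR.ex_or h2 with h4 | ⟨r, hr, h4⟩
    · exact ⟨fun ha => C.GN_J h3 h4 ha hx, fun ha => C.GNz_J h3 h4 ha x⟩
    · have ht2 : s.stN.r2.stN = s.r2 := FSt.stN_inv s
      have h5 := C.GN_A (s := s.stN.r2) hr (by rw [FSt.facet_r2]; exact h4)
        (by rw [ht2, FSt.facet_r2]; exact h1) (x := 2 - x) (by omega)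
      rw [ht2, FSt.r2_r2, show 2 - (2 - x) = x by omega] at h5
      refine ⟨fun _ => h5.1.symm, fun ha => ?_⟩
      rw [← h5.1]
      exact h5.2 (fun h6 => ha (C.Al_iff.1 h6))
  · have := C.GN_A hr h3 h2 hx
    exact ⟨fun _ => this.1, this.2⟩

end QX0

end Pool.Agent.MP42K
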