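import Pool.Agent.MP42.K.QMain
import Pool.Agent.MP42.K.SupDefs
import Pool.Agent.MP42.R.RLng

/-!
# One strand per facet: leaning facets
-/

set_option autoImplicit false
set_option linter.unusedSectionVars false

namespace Pool.Agent.MP42K

open Pool.Agent.Helper55.UNF Pool.Agent.Helper55.UNF.GridSolid Pool.Agent.MP42G
open Pool.Agent.MP42H Pool.Agent.MP42X Pool.Agent.MP42R

variable {P : GridSolid}

/-- A junction certificate with at most one strand in every facet and with leaning facets. -/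
structure QXL (P : GridSolid) extends QX0 P where
  tu_lit : toQX0.TuLit
  /-- leaning facets -/
  L : P.Facet → Prop
  L_rw : ∀ f, L f → rw f = 0
  L_jf : ∀ r, toRows7.Rim r → ¬ L (Rows7.jf r)
  L_no : ∀ f, L f → w f = false ∧ e f = false ∧ ls f = Ln.z ∧ ln f = Ln.z
  /-- places of the leaning facets -/
  Pl : ℕ → P.FSt → Prop
  uniq : ∀ n g n' g', Pl n g → Pl n' g' → L ((pN ^ n) g).facet →
    ((pN ^ n) g).facet = ((pN ^ n') g').facet → n = n' ∧ g = g'
  /-- directions of the side columns -/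
  K : Bool → P.FSt → Prop
  nc : ∀ E s, K E s → ¬ K (!E) s.r2
  sup : ∀ f, L f → ∃ (g : P.FSt) (n : ℕ) (E : Bool), ((pN ^ n) g).facet = f ∧
    SupQ can w e (fun f => rw f = 0) L Pl K E n g
  /-- coverage of the regular facets -/
  cov : ∀ f, rw f = 0 → ¬ L f → toQX0.CovF L f
  /-- if there are leaning facets, then there is a letter -/
  lane : ∀ f, L f → ∃ g, rw g = 0 ∧ (ls g ≠ Ln.z ∨ ln g ≠ Ln.z)

namespace QXL

variable (C : QXL P) {r s t : P.FSt}

lemma canT_rw0 (h : C.rw s.facet = 0) : C.canT s.facet = C.can s.facet := C.canT_J h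

/-- the table of a straight facet -/
lemma cn_straight {f : P.Facet} (h : C.rw f = 0) (h1 : C.w f = true ∧ C.e f = true) (x : ℕ) :
    C.cnT f x = 1 := by
  rw [C.cnT_J h]
  unfold QX0.cnJ
  rw [h1.1, h1.2]
  split_ifs <;> rfl

lemma sn_straight {f : P.Facet} (h : C.rw f = 0) (h1 : C.w f = true ∧ C.e f = true) (x : ℕ) :
    C.sT f x = Ln.z ∧ C.nT f x = Ln.z := by
  have h2 := C.ok f h
  rw [h1.1, h1.2] at h2
  have h3 : C.ls f = Ln.z ∧ C.ln f = Ln.z := by
    revert h2
    cases C.ls f <;> cases C.ln f <;> simp [ok1]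
  rw [C.sT_J h, C.nT_J h]
  unfold QX0.sJ QX0.nJ
  rw [h3.1, h3.2]
  constructor <;> split_ifs <;> rfl

/-- a straight facet: one strand in the middle -/
lemma pr_straight (h : C.rw s.facet = 0) (h1 : C.w s.facet = true ∧ C.e s.facet = true) (x : ℕ)
    {y : ℕ} (hy : y < 3) :
    prS 3 C.canT (fun f => tpr 1 (C.cnT f)) s x y = decide (y = 1) := by
  unfold prS tpr
  split_ifs
  · show cpr 1 (C.cnT s.facet x) y = _
    rw [C.cn_straight h h1, cpr_one]
  · show cpr 1 (C.cnT s.facet (3 - x)) (3 - 1 - y) = _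
    rw [C.cn_straight h h1, cpr_one]
    congr 1
    apply propext
    constructor <;> intro h <;> omega

lemma la_straight (h : C.rw s.facet = 0) (h1 : C.w s.facet = true ∧ C.e s.facet = true)
    (x y : ℕ) : laS 3 C.canT (fun f => tla 1 (C.cnT f) (C.sT f) (C.nT f)) s x y = Ln.z := by
  have key : ∀ x y, tla 1 (C.cnT s.facet) (C.sT s.facet) (C.nT s.facet) x y = Ln.z := by
    intro x y
    obtain ⟨h2, h3⟩ := C.sn_straight h h1 x
    unfold tla
    rw [h2, h3]
    split_ifs <;> rfl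
  unfold laS
  split_ifs
  · exact key _ _
  · exact key _ _

lemma cnJ_0 (f : P.Facet) : C.cnJ f 0 = (C.w f).toNat := if_pos (Nat.zero_le _)

lemma cnJ_3 (f : P.Facet) : C.cnJ f 3 = (C.e f).toNat := by
  have h : ¬ 3 ≤ C.col f := by
    unfold QX0.col
    split_ifs <;> omega
  exact if_neg h

/-- no strand over the side -/
lemma pr_side (h : C.rw s.facet = 0) (ha : Act C.can s) {E : Bool}
    (h1 : sdQ C.can C.w C.e (!E) s = false) (y : ℕ) :
    prS 3 C.canT (fun f => tpr 1 (C.cnT f)) s (sln 3 E) y = false := by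
  unfold prS
  rw [C.canT_J h]
  show (if C.can s.facet = s then cpr 1 (C.cnT s.facet (sln 3 E)) y
    else cpr 1 (C.cnT s.facet (3 - sln 3 E)) (3 - 1 - y)) = false
  rw [C.cnT_J h]
  unfold sdQ at h1
  have z : ∀ b : Bool, b = false → ∀ y, cpr 1 b.toNat y = false := by
    rintro b rfl y
    exact cpr_zero _ _
  by_cases hc : C.can s.facet = s
  · rw [if_pos hc] at h1 ⊢
    cases E
    · have e : sln 3 false = 3 := rfl
      rw [e, C.cnJ_3]
      exact z _ h1 _
    · have e : sln 3 true = 0 := rfl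
      rw [e, C.cnJ_0]
      exact z _ h1 _
  · rw [if_neg hc] at h1 ⊢
    have hc2 : C.can s.facet = s.r2 := by
      rcases ha with ha | ha
      · exact absurd ha hc
      · exact ha
    rw [if_pos hc2] at h1
    cases E
    · have e : 3 - sln 3 false = 0 := rfl
      rw [e, C.cnJ_0]
      exact z _ h1 _
    · have e : 3 - sln 3 true = 3 := rfl
      rw [e, C.cnJ_3]
      exact z _ h1 _

/-- the supports -/
theorem supA {E : Bool} {n : ℕ} {g : P.FSt}
    (H : SupQ C.can C.w C.e (fun f => C.rw f = 0) C.L C.Pl C.K E n g) :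
    SupA 3 (fun s => QR.rwI C.toRows7 s.facet = 0 ∧ Act C.canT s)
      (prS 3 C.canT fun f => tpr 1 (C.cnT f))
      (laS 3 C.canT fun f => tla 1 (C.cnT f) (C.sT f) (C.nT f)) C.L
      (fun n g y => C.Pl n g ∧ y = 1) C.K E n g 1 := by
  have act : ∀ s : P.FSt, C.rw s.facet = 0 → Act C.can s →
      QR.rwI C.toRows7 s.facet = 0 ∧ Act C.canT s := by
    intro s h1 h2
    refine ⟨QR.rwI_zero.2 (Or.inl h1), ?_⟩
    unfold Act at h2 ⊢
    rw [C.canT_J h1]
    exact h2
  induction H with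
  | reg g h1 h2 h3 =>
    have e0 := h1 0 (Nat.zero_le _)
    have e1 : C.rw g.facet = 0 := e0.2.1
    refine SupA.reg g 1 (by norm_num) ?_ ?_ ?_ ?_ ?_
    · intro y hy
      obtain ⟨a1, a2, a3⟩ := h1 y hy
      exact ⟨act _ a2 a1, a3⟩
    · rw [C.pr_straight e1 h3 _ (by norm_num)]
      rfl
    · intro j hj hj'
      rw [C.pr_straight e1 h3 _ hj']
      exact decide_eq_false (by omega)
    · intro y hy hy' j _
      obtain ⟨a1, a2, a3⟩ := h1 y hy'
      exact C.pr_side a2 a1 (h2 y hy' hy).1 j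
    · intro y hy hy'
      exact (h2 y hy' hy).2
  | lean g h1 h2 h3 h4 h5 h6 _ ih =>
    refine SupA.lng g 1 (by norm_num) (act g h2 h1) ⟨h5, rfl⟩ h4 ?_ ?_ h6 ih
    · intro x _
      rw [C.pr_straight h2 h3 _ (by norm_num)]
      rfl
    · intro x _
      exact ⟨C.la_straight h2 h3 _ _, C.la_straight h2 h3 _ _⟩

/-- **The router certificate.** -/
noncomputable def toRXL : RXL P 3 where
  toRX0 := C.toQX0.toRX0
  L := C.L
  Pl := fun n g y => C.Pl n g ∧ y = 1
  K := C.K
  L_rw := fun f h => QR.rwI_zero.2 (Or.inl (C.L_rw f h))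
  L_cn := fun f h x _ => by
    show C.cnT f x = 0
    rw [C.cnT_J (C.L_rw f h)]
    obtain ⟨h1, h2, -, -⟩ := C.L_no f h
    unfold QX0.cnJ
    rw [h1, h2]
    split_ifs <;> rfl
  L_sn := fun f h x _ => by
    show C.sT f x = Ln.z ∧ C.nT f x = Ln.z
    rw [C.sT_J (C.L_rw f h), C.nT_J (C.L_rw f h)]
    obtain ⟨-, -, h1, h2⟩ := C.L_no f h
    unfold QX0.sJ QX0.nJ
    rw [h1, h2]
    constructor <;> split_ifs <;> rfl
  uniq := fun n g y n' g' y' h h' hL e => by
    obtain ⟨h1, h2⟩ := C.uniq n g n' g' h.1 h'.1 hL e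
    exact ⟨h1, h2, by rw [h.2, h'.2]⟩
  nc := C.nc
  sup := fun f hf => by
    obtain ⟨g, n, E, h1, h2⟩ := C.sup f hf
    exact ⟨g, 1, n, E, h1, C.supA h2⟩
  cov := fun f hf hL x hx w => by
    obtain ⟨z, h1, h2⟩ := C.toQX0.cv (L := C.L) C.L_rw C.L_jf C.tu_lit C.cov hf hL
      (l := if w then x else x + 1) (by split_ifs <;> omega)
    exact ⟨z, h1, h2⟩
  lane := fun f hf => by
    obtain ⟨g, h1, h2⟩ := C.lane f hf
    refine ⟨g, C.col g, QR.rwI_zero.2 (Or.inl h1), ?_, ?_⟩
    · unfold QX0.col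
      split_ifs <;> norm_num
    · show C.sT g (C.col g) ≠ Ln.z ∨ C.nT g (C.col g) ≠ Ln.z
      rw [C.sT_J h1, C.nT_J h1]
      unfold QX0.sJ QX0.nJ
      rw [if_pos rfl, if_pos rfl]
      exact h2

end QXL

end Pool.Agent.MP42K
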