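import Pool.Agent.MP42.K.QCov

/-!
# One strand per facet: the router certificate with three columns
-/

set_option autoImplicit false
set_option linter.unusedSectionVars false

namespace Pool.Agent.MP42K

open Pool.Agent.Helper55.UNF Pool.Agent.Helper55.UNF.GridSolid Pool.Agent.MP42G
open Pool.Agent.MP42H Pool.Agent.MP42X Pool.Agent.MP42R

variable {P : GridSolid}

namespace QX0

variable (C : QX0 P) {r s t : P.FSt}

/-! ## Balance -/

lemma bal_J {f : P.Facet} (h : ok1 (C.w f) (C.e f) (C.ln f) (C.ls f) = true) {x : ℕ}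
    (hx : x < 3) :
    (C.cnJ f (x + 1) : ℤ) = C.cnJ f x + vl (C.sJ f x) - vl (C.nJ f x) := by
  unfold cnJ sJ nJ col
  have h3 : x = 0 ∨ x = 1 ∨ x = 2 := by omega
  revert h
  rcases h3 with rfl | rfl | rfl <;>
    cases C.w f <;> cases C.e f <;> cases C.ln f <;> cases C.ls f <;> cases C.c f <;>
    simp [ok1, vl]

lemma bd_J (f : P.Facet) (x : ℕ) : C.cnJ f x ≤ 1 := by
  unfold cnJ
  cases C.w f <;> cases C.e f <;> split_ifs <;> simp

lemma bd_A (r : P.FSt) (x : ℕ) : C.cnA r x ≤ 1 := by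
  unfold cnA
  split_ifs <;> omega

lemma bd_B (r : P.FSt) (x : ℕ) : C.cnB r x ≤ 1 := by
  unfold cnB
  have h1 := C.bd_A r x
  have h2 := C.bd_A r (3 - x)
  split_ifs <;> omega

lemma bal_A (r : P.FSt) {x : ℕ} (hx : x < 3) :
    (C.cnA r (x + 1) : ℤ) = C.cnA r x + vl (C.sA r x) - vl (C.nA r x) := by
  unfold cnA sA nA c0
  have h3 : x = 0 ∨ x = 1 ∨ x = 2 := by omega
  by_cases ht : C.tr r
  · by_cases hF : C.F1 r <;> cases hn : C.ng r
    · by_cases hW : C.F1 (pE.symm r) <;> rcases h3 with rfl | rfl | rfl <;>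
        cases wcQ C.can C.c (pN.symm r) <;> simp [ht, hF, hW, vl, flet]
    · by_cases hE : C.F1 r.stE <;> rcases h3 with rfl | rfl | rfl <;>
        cases wcQ C.can C.c (pN.symm r) <;> simp [ht, hF, hE, vl, flet]
    · by_cases hW : C.F1 (pE.symm r) <;> rcases h3 with rfl | rfl | rfl <;>
        cases wcQ C.can C.c (pN.symm r) <;> simp [ht, hF, hW, vl]
    · by_cases hE : C.F1 r.stE <;> rcases h3 with rfl | rfl | rfl <;>
        cases wcQ C.can C.c (pN.symm r) <;> simp [ht, hF, hE, vl]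
  · simp only [if_neg ht]
    ring

lemma bal_B (r : P.FSt) {x : ℕ} (hx : x < 3) :
    (C.cnB r (x + 1) : ℤ) = C.cnB r x + vl (C.sB r x) - vl (C.nB r x) := by
  unfold cnB sB nB
  by_cases h1 : C.tu r
  · simp only [if_pos h1]
    simp [vl]
  · simp only [if_neg h1]
    by_cases h2 : C.fl r
    · simp only [if_pos h2]
      have h3 := C.bal_A r (x := 2 - x) (by omega)
      rw [show 2 - x + 1 = 3 - x by omega] at h3
      rw [show 3 - (x + 1) = 2 - x by omega]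
      omega
    · simp only [if_neg h2]
      exact C.bal_A r hx

lemma bal {f : P.Facet} (hf : QR.rwI C.toRows7 f = 0) {x : ℕ} (hx : x < 3) :
    (C.cnT f (x + 1) : ℤ) = C.cnT f x + vl (C.sT f x) - vl (C.nT f x) := by
  have h1 : (C.canT f).facet = f := C.canT_facet f
  rcases QR.ex_or (s := C.canT f) (R := C.toRows7) (by rw [h1]; exact hf) with h2 | ⟨r, hr, h2⟩
  · rw [h1] at h2
    rw [C.cnT_J h2, C.sT_J h2, C.nT_J h2]
    exact C.bal_J (C.ok f h2) hx
  · rw [h1] at h2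
    rw [h2, C.cnT_A hr, C.sT_A hr, C.nT_A hr]
    exact C.bal_B r hx

lemma bd {f : P.Facet} (hf : QR.rwI C.toRows7 f = 0) (x : ℕ) : C.cnT f x ≤ 1 := by
  have h1 : (C.canT f).facet = f := C.canT_facet f
  rcases QR.ex_or (s := C.canT f) (R := C.toRows7) (by rw [h1]; exact hf) with h2 | ⟨r, hr, h2⟩
  · rw [h1] at h2
    rw [C.cnT_J h2]
    exact C.bd_J f x
  · rw [h1] at h2
    rw [h2, C.cnT_A hr]
    exact C.bd_B r x

/-! ## Matching -/

lemma canT_self {f : P.Facet} : C.canT (C.canT f).facet = C.canT f := by rw [C.canT_facet]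

lemma EV_can (f : P.Facet) : C.EV (C.canT f) = C.cnT f 3 := by
  unfold EV
  rw [C.canT_self, if_pos rfl, C.canT_facet]

lemma EV_can2 (f : P.Facet) : C.EV (C.canT f).r2 = C.cnT f 0 := by
  unfold EV
  rw [FSt.facet_r2, C.canT_self, FSt.r2_r2, if_neg (r2_ne _).symm, if_pos rfl, C.canT_facet]

lemma NV_can (f : P.Facet) (x : ℕ) : C.NV (C.canT f) x = C.nT f x := by
  unfold NV wnR
  rw [C.canT_self, if_pos rfl, C.canT_facet]

lemma NV_can2 (f : P.Facet) (x : ℕ) : C.NV (C.canT f).r2 x = C.sT f (2 - x) := by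
  unfold NV wnR
  rw [FSt.facet_r2, C.canT_self, FSt.r2_r2, if_neg (r2_ne _).symm, if_pos rfl, C.canT_facet]

lemma EV_none (h : ∀ g, s ≠ C.canT g ∧ s ≠ (C.canT g).r2) : C.EV s.r2 = 0 := by
  unfold EV
  rw [FSt.facet_r2, FSt.r2_r2, if_neg, if_neg]
  · intro h1; exact (h _).1 h1.symm
  · intro h1; exact (h _).2 (by rw [h1, FSt.r2_r2])

lemma r2_inj (h : s.r2 = t.r2) : s = t := by
  rw [← FSt.r2_r2 s, h, FSt.r2_r2]

lemma x_gN (f g : P.Facet) (hf : QR.rwI C.toRows7 f = 0) (hg : QR.rwI C.toRows7 g = 0)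
    (h : (C.canT f).stN = C.canT g) {x : ℕ} (hx : x < 3) : C.nT f x = C.sT g x := by
  have h1 := (C.GN (s := C.canT f) (by rw [C.canT_facet]; exact hf)
    (by rw [h, C.canT_facet]; exact hg) hx).1 (Or.inl ⟨C.canT_self, by rw [h, C.canT_self]⟩)
  rw [C.NV_can, h, C.NV_can2, show 2 - (2 - x) = x by omega] at h1
  exact h1

lemma x_gN' (f : P.Facet) (hf : QR.rwI C.toRows7 f = 0)
    (h0 : QR.rwI C.toRows7 (C.canT f).stN.facet = 0) (h : ∀ g, (C.canT f).stN ≠ C.canT g)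
    {x : ℕ} (hx : x < 3) : C.nT f x = Ln.z := by
  have h1 := (C.GN (s := C.canT f) (by rw [C.canT_facet]; exact hf) h0 hx).2 (by
    rintro (⟨-, h2⟩ | ⟨h2, -⟩)
    · exact h _ h2.symm
    · rw [C.canT_self] at h2
      exact r2_ne _ h2.symm)
  rwa [C.NV_can] at h1

lemma x_gS' (g : P.Facet) (hg : QR.rwI C.toRows7 g = 0)
    (h0 : QR.rwI C.toRows7 (C.canT g).r2.stN.facet = 0) (h : ∀ f, (C.canT f).stN ≠ C.canT g)
    {x : ℕ} (hx : x < 3) : C.sT g x = Ln.z := by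
  have h1 := (C.GN (s := (C.canT g).r2) (by rw [FSt.facet_r2, C.canT_facet]; exact hg) h0
    (x := 2 - x) (by omega)).2 (by
    rintro (⟨h2, -⟩ | ⟨-, h2⟩)
    · rw [FSt.facet_r2, C.canT_self] at h2
      exact r2_ne _ h2.symm
    · apply h ((C.canT g).r2.stN).facet
      rw [h2, FSt.stN_inv, FSt.r2_r2])
  rwa [C.NV_can2, show 2 - (2 - x) = x by omega] at h1

lemma x_gE (f g : P.Facet) (hf : QR.rwI C.toRows7 f = 0) (hg : QR.rwI C.toRows7 g = 0)
    (h : (C.canT f).stE = C.canT g) : C.cnT f 3 = C.cnT g 0 := by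
  have h1 := C.GE (s := C.canT f) (by rw [C.canT_facet]; exact hf)
    (by rw [h, C.canT_facet]; exact hg)
  rwa [C.EV_can, h, C.EV_can2] at h1

lemma x_gEr (f g : P.Facet) (hf : QR.rwI C.toRows7 f = 0) (hg : QR.rwI C.toRows7 g = 0)
    (h : (C.canT f).stE = (C.canT g).r2) : C.cnT f 3 = C.cnT g 3 := by
  have h1 := C.GE (s := C.canT f) (by rw [C.canT_facet]; exact hf)
    (by rw [h, FSt.facet_r2, C.canT_facet]; exact hg)
  rwa [C.EV_can, h, FSt.r2_r2, C.EV_can] at h1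

lemma x_gWr (f g : P.Facet) (hf : QR.rwI C.toRows7 f = 0) (hg : QR.rwI C.toRows7 g = 0)
    (h : (C.canT f).r2.stE = C.canT g) : C.cnT f 0 = C.cnT g 0 := by
  have h1 := C.GE (s := (C.canT f).r2) (by rw [FSt.facet_r2, C.canT_facet]; exact hf)
    (by rw [h, C.canT_facet]; exact hg)
  rwa [C.EV_can2, h, C.EV_can2] at h1

lemma x_gE' (f : P.Facet) (hf : QR.rwI C.toRows7 f = 0)
    (h0 : QR.rwI C.toRows7 (C.canT f).stE.facet = 0)
    (h : ∀ g, (C.canT f).stE ≠ C.canT g ∧ (C.canT f).stE ≠ (C.canT g).r2) : C.cnT f 3 = 0 := by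
  have h1 := C.GE (s := C.canT f) (by rw [C.canT_facet]; exact hf) h0
  rwa [C.EV_can, C.EV_none h] at h1

lemma x_gW' (f : P.Facet) (hf : QR.rwI C.toRows7 f = 0)
    (h0 : QR.rwI C.toRows7 (C.canT f).r2.stE.facet = 0)
    (h : ∀ g, (C.canT f).r2.stE ≠ C.canT g ∧ (C.canT f).r2.stE ≠ (C.canT g).r2) :
    C.cnT f 0 = 0 := by
  have h1 := C.GE (s := (C.canT f).r2) (by rw [FSt.facet_r2, C.canT_facet]; exact hf) h0
  rwa [C.EV_can2, C.EV_none h] at h1

/-! ## Rims -/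

lemma sh_or (h : C.Rim r) (ht : C.tr r) :
    ((C.fa7 r ∧ C.z1 r = false) ∨ (C.fb7 r ∧ C.z2 r = false)) ↔
      if C.ng r = true then C.F1 r.stE else C.F1 (pE.symm r) := by
  rw [C.fa7_tree ht, ← C.sh_iff h]
  unfold fb7
  constructor
  · rintro (⟨h1, h2⟩ | ⟨h1, h2⟩)
    · exact Or.inl ⟨h2, h1⟩
    · exact Or.inr ⟨h2, h1⟩
  · rintro (⟨h1, h2⟩ | ⟨h1, h2⟩)
    · exact Or.inl ⟨h2, h1⟩
    · exact Or.inr ⟨h2, h1⟩

lemma z_or (ht : C.tr r) :
    ((C.fa7 r ∧ C.z1 r = true) ∨ (C.fb7 r ∧ C.z2 r = true)) ↔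
      ((C.g1 r ∧ C.z1 r = true) ∨ (C.g2 r ∧ C.z2 r = true)) := by
  rw [C.fa7_tree ht]
  unfold fb7 shf
  constructor
  · rintro (⟨h1, h2⟩ | ⟨h1, h2⟩)
    · rw [if_pos h2] at h1; exact Or.inl ⟨h1, h2⟩
    · rw [if_pos h2] at h1; exact Or.inr ⟨h1, h2⟩
  · rintro (⟨h1, h2⟩ | ⟨h1, h2⟩)
    · left; rw [if_pos h2]; exact ⟨h1, h2⟩
    · right; rw [if_pos h2]; exact ⟨h1, h2⟩

open Classical in
lemma rn' (h : C.Rim r) {x : ℕ} (hx : x < 3) : C.NV r x =
    if C.tr r then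
      (if ((C.fa7 r ∧ C.z1 r = false) ∨ (C.fb7 r ∧ C.z2 r = false)) ∧ x = fcol 3 (C.ng r)
        then flet (C.ng r) else Ln.z)
    else (if C.fa7 r ∧ x = 0 then Ln.n else if C.fa7 r.stE ∧ x + 1 = 3 then Ln.s else Ln.z) := by
  rw [C.NV_r h hx]
  unfold nA
  by_cases ht : C.tr r
  · rw [if_pos ht, if_pos ht]
    simp only [C.sh_or h ht]
    cases hn : C.ng r
    · simp only [Bool.false_eq_true, if_false, fcol, flet]
    · simp only [if_true, fcol, flet]
  · rw [if_neg ht, if_neg ht]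
    have ht' : ¬ C.tr r.stE := fun h1 => ht ((C.tr_E r h).1 h1)
    simp only [C.fa7_cut ht, C.fa7_cut ht']
    congr 2
    apply propext
    constructor
    · rintro ⟨h1, h2⟩; exact ⟨h1, by omega⟩
    · rintro ⟨h1, h2⟩; exact ⟨h1, by omega⟩

open Classical in
lemma ro' (h : C.Rim r) : woR 3 C.canT C.cnT r =
    if C.tr r ∧ ((C.fa7 r ∧ C.z1 r = true) ∨ (C.fb7 r ∧ C.z2 r = true)) then 1 else 0 := by
  have e : (C.tr r ∧ ((C.fa7 r ∧ C.z1 r = true) ∨ (C.fb7 r ∧ C.z2 r = true))) ↔ C.F0 r := by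
    constructor
    · rintro ⟨h1, h2⟩; exact ⟨h1, (C.z_or h1).1 h2⟩
    · rintro ⟨h1, h2⟩; exact ⟨h1, (C.z_or h1).2 h2⟩
  unfold woR
  rw [C.cnT_A h]
  unfold cnB
  rcases C.ca_cases h with ⟨h1, h2, h3⟩ | ⟨h1, h2, h3⟩ | ⟨h1, h2⟩
  · rw [if_neg (by rw [h1]; exact (rL_ne r).symm), if_neg (by rw [h1]; exact (rR_ne r).symm),
      if_neg]
    intro h4
    have h4 := e.1 h4
    exact h2 (C.tu_0 r h h4.1 h4.2)
  · rw [if_neg (by rw [h1]; exact (rL_ne_r2 r).symm), if_neg (by rw [h1]; exact (rR_ne_r2 r).symm),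
      if_neg]
    intro h4
    have h4 := e.1 h4
    exact h2 (C.tu_0 r h h4.1 h4.2)
  · rw [if_pos h1, if_pos h2]
    by_cases h4 : C.F0 r
    · rw [if_pos h4, if_pos (e.2 h4)]
    · rw [if_neg h4, if_neg (fun h5 => h4 (e.1 h5))]

lemma symm_far {r : P.FSt} : pN.symm (Rows.far r) = Rows7.far (pN.symm r) := by
  have h1 := QR.farI (pN.symm r)
  rw [pN_symm_stN] at h1
  rw [h1, pN_s]

/-- **The router certificate.** -/
noncomputable def toRX0 : RX0 P 3 where
  toRows := QR.rowsI C.toRows7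
  m := 1
  hm := le_rfl
  hk := rfl
  can := C.canT
  can_facet := C.canT_facet
  cn := C.cnT
  sL := C.sT
  nL := C.nT
  bal := fun f hf x hx => C.bal hf hx
  bd := fun f hf x _ => C.bd hf x
  gN := fun f g hf hg h x hx => C.x_gN f g hf hg h hx
  gN' := fun f hf h0 h x hx => C.x_gN' f hf h0 h hx
  gS' := fun g hg h0 h x hx => C.x_gS' g hg h0 h hx
  gE := fun f g hf hg h => C.x_gE f g hf hg h
  gEr := fun f g hf hg h => C.x_gEr f g hf hg h
  gWr := fun f g hf hg h => C.x_gWr f g hf hg h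
  gE' := fun f hf h0 h => C.x_gE' f hf h0 h
  gW' := fun f hf h0 h => C.x_gW' f hf h0 h
  tr := fun s => C.tr (pN.symm s)
  tr_E := fun r h => by
    have h := QR.rimI_iff.1 h
    rw [QR.symm_N_E h]
    exact C.tr_E _ h
  tr_far := fun r h => by
    have h := QR.rimI_iff.1 h
    rw [symm_far]
    exact C.tr_far _ h
  ac := fun s => C.ac (pN.symm s)
  ac_E := fun r h => by
    have h := QR.rimI_iff.1 h
    rw [QR.symm_N_E h]
    exact C.ac_E _ h
  ac_tr := fun r h => C.ac_tr _ (QR.rimI_iff.1 h)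
  ac_far := fun r h => by
    have h := QR.rimI_iff.1 h
    rw [symm_far]
    exact C.ac_far _ h
  ng := fun s => C.ng (pN.symm s)
  ng_E := fun r h => by
    have h := QR.rimI_iff.1 h
    rw [QR.symm_N_E h]
    exact C.ng_E _ h
  ng_far := fun r h => by
    have h := QR.rimI_iff.1 h
    rw [symm_far]
    exact C.ng_far _ h
  z1 := fun s => C.z1 (pN.symm s)
  z1_E := fun r h => by
    have h := QR.rimI_iff.1 h
    rw [QR.symm_N_E h]
    exact C.z1_E _ h
  z1_far := fun r h => by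
    have h := QR.rimI_iff.1 h
    rw [symm_far]
    exact C.z1_far _ h
  z2 := fun s => C.z2 (pN.symm s)
  z2_E := fun r h => by
    have h := QR.rimI_iff.1 h
    rw [QR.symm_N_E h]
    exact C.z2_E _ h
  z2_far := fun r h => by
    have h := QR.rimI_iff.1 h
    rw [symm_far]
    exact C.z2_far _ h
  z12 := fun r h => C.z12 _ (QR.rimI_iff.1 h)
  fa := fun s => C.fa7 (pN.symm s)
  fb := fun s => C.fb7 (pN.symm s)
  fa_ac := fun r h h1 => by
    have h := QR.rimI_iff.1 h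
    by_cases ht : C.tr (pN.symm r)
    · exact C.ac_tr _ h ht
    · exact C.g1_ac _ h ((C.fa7_cut ht).1 h1)
  fa_ex := fun r h h1 => by
    have h2 := C.fa_ex' (QR.rimI_iff.1 h) h1
    rwa [pN_symm_stN] at h2
  fb_ex := fun r h h1 => by
    have h2 := C.fb_ex' (QR.rimI_iff.1 h) h1
    rwa [pN_symm_stN] at h2
  arc := fun r h ht h1 n hn => by
    have h := QR.rimI_iff.1 h
    have h2 := C.arc' h ht h1 hn
    have h3 := QR.dpow_N h (C.ng (pN.symm r)) n
    rw [pN_symm_stN] at h3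
    rw [h3, pN_s]
    exact h2
  rn := fun r h x hx => by
    have h := QR.rimI_iff.1 h
    have h1 := C.rn' h hx
    rw [← QR.symm_N_E h] at h1
    convert h1 using 2
    rfl
  ro := fun r h => by
    have h := QR.rimI_iff.1 h
    have h1 := C.ro' h
    convert h1 using 2

end QX0

/-- **The router certificate.** -/
noncomputable def QX.toRX (C : QX P) : RX P 3 where
  toRX0 := C.toQX0.toRX0
  cov := fun f hf x hx w => by
    obtain ⟨z, h1, h2⟩ := C.toQX0.cv (L := fun _ => False) (fun _ h => h.elim) (fun _ _ h => h)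
      C.tu_lit (fun f hf _ => C.covF hf) hf (fun h => h) (l := if w then x else x + 1)
      (by split_ifs <;> omega)
    refine ⟨z, fun y hy hyz => ?_, h2⟩
    obtain ⟨g, g1, -, g2⟩ := h1 y hy hyz
    exact ⟨g, g1, g2⟩

end Pool.Agent.MP42K
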