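import Pool.Agent.MP42.K.QDefs
import Pool.Agent.MP42.H.Rows
import Pool.Agent.MP42.H.Basic
import Pool.Agent.MP42.G.Flags

/-!
# Seven rows: basic facts, and the five rows of the router certificate
-/

set_option autoImplicit false
set_option linter.unusedSectionVars false

namespace Pool.Agent.MP42K

open Pool.Agent.Helper55.UNF Pool.Agent.Helper55.UNF.GridSolid Pool.Agent.MP42G
open Pool.Agent.MP42H Pool.Agent.MP42X Pool.Agent.MP42R

variable {P : GridSolid}

namespace QR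

lemma u_uniq {s t : P.FSt} (h : s.facet = t.facet) (hs : IsU s) (ht : IsU t) : s = t := by
  rcases rot4 h with rfl | rfl | rfl | rfl
  · rfl
  · exact absurd hs (by intro h1; exact not_U_Ur ht h1)
  · exfalso
    have h1 : ¬ IsV t.rL := not_V_rL' (IsV_of_U ht)
    apply h1
    have h2 : IsV t.rR := IsV_of_U hs
    rw [← FSt.rL_r2, IsV_r2] at h2
    exact h2
  · exfalso
    exact not_V_rL' (IsV_of_U ht) (IsV_of_U hs)

variable {R : Rows7 P} {r s : P.FSt}

lemma V (h : R.Rim r) : IsV r := by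
  rcases h with h | h
  · exact IsV_of_U h.1
  · exact IsV_of_Ur h.1

lemma rwc (h : R.Rim r) : R.rw r.facet = 1 ∨ R.rw r.facet = 7 := by
  rcases h with h | h
  · exact Or.inl h.2
  · exact Or.inr h.2

lemma ne0 (h : R.Rim r) : R.rw r.facet ≠ 0 := by
  rcases rwc h with h | h <;> omega

lemma rim_E (h : R.Rim r) : R.Rim r.stE := by
  rcases h with ⟨h, h'⟩ | ⟨h, h'⟩
  · exact Or.inl ⟨(IsU_stE r).2 h, by rw [R.E r (IsV_of_U h), h']⟩
  · exact Or.inr ⟨(IsUr_stE r).2 h, by rw [R.E r (IsV_of_Ur h), h']⟩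

lemma rim_W (h : R.Rim r) : R.Rim (pE.symm r) := by
  have e := pE_symm_stE r
  have hV : IsV (pE.symm r) := by rw [← IsV_stE, e]; exact V h
  have hw : R.rw (pE.symm r).facet = R.rw r.facet := by rw [← R.E _ hV, e]
  rcases h with ⟨h, h'⟩ | ⟨h, h'⟩
  · refine Or.inl ⟨?_, by rw [hw, h']⟩
    rw [← IsU_stE, e]; exact h
  · refine Or.inr ⟨?_, by rw [hw, h']⟩
    rw [← IsUr_stE, e]; exact h

lemma rim_pow (h : R.Rim r) (n : ℕ) : R.Rim ((pE ^ n) r) := by
  induction n with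
  | zero => exact h
  | succ n ih =>
    rw [pow_succ', Equiv.Perm.mul_apply]
    exact rim_E ih

lemma rim_same (h : R.Rim r) (hs : pE.SameCycle r s) : R.Rim s := by
  obtain ⟨n, hn⟩ := hs.exists_nat_pow_eq
  rw [← hn]
  exact rim_pow h n

/-- the facet of the junction -/
lemma rw_S (h : R.Rim r) : R.rw (pN.symm r).facet = 0 := by
  rcases h with ⟨h, h'⟩ | ⟨h, h'⟩
  · have e := pN_symm_stN r
    have := R.S (pN.symm r) (by rw [e]; exact h) (by rw [e]; omega)
    rw [e] at this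
    omega
  · have := (R.N r.r2 h (by rw [FSt.facet_r2]; omega)).2
    rw [FSt.facet_r2, if_pos h'] at this
    rw [pN_symm_apply, FSt.facet_r2]
    exact this

/-- the facet in the second row -/
lemma rw_N (h : R.Rim r) :
    (IsU r ∧ IsU r.stN ∧ R.rw r.stN.facet = 2) ∨
      (IsU r.r2 ∧ IsU r.stN.r2 ∧ R.rw r.stN.facet = 6) := by
  rcases h with ⟨h, h'⟩ | ⟨h, h'⟩
  · left
    have := R.N r h (by omega)
    rw [h', if_neg (by norm_num)] at this
    exact ⟨h, this⟩
  · right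
    have e : r.stN.r2.stN = r.r2 := FSt.stN_inv r
    have := R.S r.stN.r2 (by rw [e]; exact h) (by rw [e, FSt.facet_r2]; omega)
    rw [e, FSt.facet_r2, FSt.facet_r2] at this
    exact ⟨h, this.1, by omega⟩

lemma rw_N0 (h : R.Rim r) : R.rw r.stN.facet = 2 ∨ R.rw r.stN.facet = 6 := by
  rcases rw_N h with h | h
  · exact Or.inl h.2.2
  · exact Or.inr h.2.2

/-- the squares commute for both vertical directions -/
lemma commD (h : IsU s.r2) (h0 : R.rw s.facet ≠ 0) : s.stE.stN = s.stN.stE := by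
  obtain ⟨w, hw⟩ : ∃ w : P.FSt, w.stE = s.r2 := ⟨pE.symm s.r2, pE_symm_stE _⟩
  have hU : IsU w := by rw [← IsU_stE, hw]; exact h
  have hr : R.rw w.facet ≠ 0 := by
    rw [← R.E w (IsV_of_U hU), hw, FSt.facet_r2]; exact h0
  obtain ⟨u, hu⟩ : ∃ u : P.FSt, u.stN = w := ⟨pN.symm w, pN_symm_stN _⟩
  have hUu : IsU u := (R.S u (by rw [hu]; exact hU) (by rw [hu]; exact hr)).1
  have hc := R.comm u hUu (Or.inr (by rw [hu]; exact hr))
  rw [hu, hw] at hc
  -- `u.stE` is the state south of `s.r2`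
  have h1 : s.stN.r2 = u.stE := by
    have h2 : s.stN.r2.stN = s.r2 := FSt.stN_inv s
    have h3 : pN s.stN.r2 = pN u.stE := by
      show s.stN.r2.stN = u.stE.stN
      rw [h2, hc]
    exact pN.injective h3
  have h4 : s.stN = u.stE.r2 := by rw [← h1, FSt.r2_r2]
  have h5 : s = w.stE.r2 := by rw [hw, FSt.r2_r2]
  have h6 : s.stE = w.r2 := by rw [h5, FSt.stE_inv]
  rw [h4, FSt.stE_inv, h6, ← hu, FSt.stN_inv]

lemma comm' (h : IsV s) (h0 : R.rw s.facet ≠ 0) : s.stE.stN = s.stN.stE := by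
  rcases U_or h with h1 | h1
  · exact R.comm s h1 (Or.inl h0)
  · exact commD h1 h0

lemma N_E (h : R.Rim r) : r.stN.stE = r.stE.stN := (comm' (V h) (ne0 h)).symm

lemma S_E (h : R.Rim r) : (pN.symm r).stE = pN.symm r.stE := by
  symm
  apply pN_symm_of
  rcases h with ⟨h, h'⟩ | ⟨h, h'⟩
  · have e := pN_symm_stN r
    have := R.S (pN.symm r) (by rw [e]; exact h) (by rw [e]; omega)
    have hc := R.comm _ this.1 (Or.inr (by rw [e]; omega))
    rw [e] at hc
    exact hc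
  · -- `s = r.r2`, `u.stE = s`
    obtain ⟨u, hu⟩ : ∃ u : P.FSt, u.stE = r.r2 := ⟨pE.symm r.r2, pE_symm_stE _⟩
    have hU : IsU u := by rw [← IsU_stE, hu]; exact h
    have hr : R.rw u.facet ≠ 0 := by
      rw [← R.E u (IsV_of_U hU), hu, FSt.facet_r2]; omega
    have hc := R.comm u hU (Or.inl hr)
    rw [hu] at hc
    rw [pN_symm_apply, hc, FSt.stE_inv, FSt.stN_inv]
    have h5 : r = u.stE.r2 := by rw [hu, FSt.r2_r2]
    rw [h5, FSt.stE_inv]

/-- rim states are determined by their facets -/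
lemma uniq (h : R.Rim r) (h' : R.Rim s) (e : r.facet = s.facet) : r = s := by
  rcases h with ⟨h1, h2⟩ | ⟨h1, h2⟩ <;> rcases h' with ⟨h3, h4⟩ | ⟨h3, h4⟩
  · exact u_uniq e h1 h3
  · rw [e, h4] at h2; omega
  · rw [e, h4] at h2; omega
  · have := u_uniq (s := r.r2) (t := s.r2) (by rw [FSt.facet_r2, FSt.facet_r2, e]) h1 h3
    rw [← FSt.r2_r2 r, this, FSt.r2_r2]

/-- every facet of the rows 1 and 7 is the facet of a rim state -/
lemma ex_rim {f : P.Facet} {t : P.FSt} (ht : t.facet = f) (h : R.rw f = 1 ∨ R.rw f = 7) :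
    ∃ r, R.Rim r ∧ r.facet = f := by
  obtain ⟨s, hs, hV⟩ : ∃ s : P.FSt, s.facet = f ∧ IsV s := by
    rcases R.V t (by rw [ht]; omega) with h1 | h1
    · exact ⟨t, ht, h1⟩
    · exact ⟨t.rL, ht, h1⟩
  rcases U_or hV with h1 | h1 <;> rcases h with h2 | h2
  · exact ⟨s, Or.inl ⟨h1, by rw [hs]; exact h2⟩, hs⟩
  · exact ⟨s.r2, Or.inr ⟨by rw [FSt.r2_r2]; exact h1, by rw [FSt.facet_r2, hs]; exact h2⟩, hs⟩
  · exact ⟨s.r2, Or.inl ⟨h1, by rw [FSt.facet_r2, hs]; exact h2⟩, hs⟩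
  · exact ⟨s, Or.inr ⟨h1, by rw [hs]; exact h2⟩, hs⟩

/-! ## The five inner rows -/

/-- number of the row -/
def rwI (R : Rows7 P) (f : P.Facet) : ℕ := if 2 ≤ R.rw f ∧ R.rw f ≤ 6 then R.rw f - 1 else 0

/-- the rows 2, .., 6 -/
def rowsI (R : Rows7 P) : Rows P where
  rw := rwI R
  le5 f := by unfold rwI; split_ifs <;> omega
  V s h := R.V s (by intro h1; apply h; unfold rwI; rw [h1]; rfl)
  E s h := by unfold rwI; rw [R.E s h]
  N s hU h := by
    have h1 : 2 ≤ R.rw s.facet ∧ R.rw s.facet ≤ 6 := by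
      by_contra h1
      exact h (if_neg h1)
    obtain ⟨h2, h3⟩ := R.N s hU (by omega)
    refine ⟨h2, ?_⟩
    rw [if_neg (by omega)] at h3
    unfold rwI
    rw [h3, if_pos h1]
    split_ifs <;> omega
  S s hU h := by
    have h1 : 2 ≤ R.rw s.stN.facet ∧ R.rw s.stN.facet ≤ 6 := by
      by_contra h1
      exact h (if_neg h1)
    obtain ⟨h2, h3⟩ := R.S s hU (by omega)
    refine ⟨h2, ?_⟩
    unfold rwI
    rw [if_pos h1]
    split_ifs <;> omega
  comm s hU h := R.comm s hU (by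
    rcases h with h | h
    · left; intro h1; apply h; unfold rwI; rw [h1]; rfl
    · right; intro h1; apply h; unfold rwI; rw [h1]; rfl)

lemma rwI_zero {f : P.Facet} : rwI R f = 0 ↔ R.rw f = 0 ∨ R.rw f = 1 ∨ R.rw f = 7 := by
  have := R.le7 f
  unfold rwI
  split_ifs <;> omega

lemma rwI_rim (h : R.Rim r) : rwI R r.facet = 0 := rwI_zero.2 (Or.inr (rwc h))

lemma rwI_N (h : R.Rim r) : rwI R r.stN.facet ≠ 0 := by
  intro h1
  rcases rw_N0 h with h2 | h2 <;> rcases rwI_zero.1 h1 with h3 | h3 | h3 <;> omega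

lemma rimI_of (h : R.Rim r) : (rowsI R).Rim r.stN := by
  rcases rw_N h with ⟨-, h1, h2⟩ | ⟨-, h1, h2⟩
  · left
    refine ⟨h1, ?_⟩
    show rwI R r.stN.facet = 1
    unfold rwI
    rw [h2]
    rfl
  · right
    refine ⟨h1, ?_⟩
    show rwI R r.stN.facet = 5
    unfold rwI
    rw [h2]
    rfl

lemma rimI_iff {r' : P.FSt} : (rowsI R).Rim r' ↔ R.Rim (pN.symm r') := by
  constructor
  · rintro (⟨h, h1⟩ | ⟨h, h1⟩)
    · have h1 : rwI R r'.facet = 1 := h1
      have h2 : R.rw r'.facet = 2 := by unfold rwI at h1; split_ifs at h1; omega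
      left
      have h3 := R.S (pN.symm r') (by rw [pN_symm_stN]; exact h) (by rw [pN_symm_stN]; omega)
      rw [pN_symm_stN] at h3
      exact ⟨h3.1, by omega⟩
    · have h1 : rwI R r'.facet = 5 := h1
      have h2 : R.rw r'.facet = 6 := by unfold rwI at h1; split_ifs at h1; omega
      right
      have h3 := R.N r'.r2 h (by rw [FSt.facet_r2]; omega)
      rw [FSt.facet_r2, h2, if_neg (by norm_num)] at h3
      rw [pN_symm_apply, FSt.r2_r2, FSt.facet_r2]
      exact h3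
  · intro h
    have := rimI_of h
    rwa [pN_symm_stN] at this

lemma farI (r : P.FSt) : Rows.far r.stN = (Rows7.far r).stN := by
  unfold Rows.far Rows7.far
  have h1 : (pN ^ 6) r = pN ((pN ^ 4) r.stN) := by
    rw [show (6 : ℕ) = 1 + 4 + 1 by rfl, pow_add, pow_add, pow_one, Equiv.Perm.mul_apply,
      Equiv.Perm.mul_apply]
    rfl
  rw [h1]
  exact (FSt.stN_inv ((pN ^ 4) r.stN)).symm

lemma pow7_E (h : R.Rim r) (n : ℕ) : ((pE ^ n) r).stN = (pE ^ n) r.stN := by
  induction n with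
  | zero => rfl
  | succ n ih =>
    rw [pow_succ', Equiv.Perm.mul_apply, Equiv.Perm.mul_apply, ← ih]
    exact (N_E (rim_pow h n)).symm

lemma same_N (h : R.Rim r) : pE.SameCycle r.stN s.stN ↔ pE.SameCycle r s := by
  constructor
  · intro hs
    obtain ⟨n, hn⟩ := hs.exists_nat_pow_eq
    rw [← pow7_E h] at hn
    have h1 : (pE ^ n) r = s := pN.injective hn
    rw [← h1]
    exact ⟨n, rfl⟩
  · intro hs
    obtain ⟨n, hn⟩ := hs.exists_nat_pow_eq
    rw [← hn, pow7_E h]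
    exact ⟨n, rfl⟩

lemma symm_N_E (h : R.Rim (pN.symm r)) : pN.symm r.stE = (pN.symm r).stE := by
  have h1 := N_E h
  rw [pN_symm_stN] at h1
  rw [h1]
  exact pN.symm_apply_apply _

lemma symm_N_W (h : R.Rim (pN.symm r)) : pN.symm (pE.symm r) = pE.symm (pN.symm r) := by
  have h1 := N_E (rim_W h)
  rw [pE_symm_stE, pN_symm_stN] at h1
  rw [pE_symm_of h1, pN_s]

/-! ## Far -/

lemma up {s : P.FSt} (h : IsU s) (h0 : R.rw s.facet ≠ 0) (j : ℕ) (hj : R.rw s.facet + j ≤ 7) :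
    IsU ((pN ^ j) s) ∧ R.rw ((pN ^ j) s).facet = R.rw s.facet + j := by
  induction j with
  | zero => exact ⟨h, rfl⟩
  | succ j ih =>
    obtain ⟨h1, h2⟩ := ih (by omega)
    rw [pow_succ', Equiv.Perm.mul_apply]
    have h3 := R.N _ h1 (by omega)
    refine ⟨h3.1, ?_⟩
    show R.rw ((pN ^ j) s).stN.facet = _
    rw [h3.2, if_neg (by omega)]
    omega

lemma down {s : P.FSt} (h : IsU s.r2) (j : ℕ) (hj : j < R.rw s.facet) :
    IsU ((pN ^ j) s).r2 ∧ R.rw ((pN ^ j) s).facet + j = R.rw s.facet := by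
  induction j with
  | zero => exact ⟨h, rfl⟩
  | succ j ih =>
    obtain ⟨h1, h2⟩ := ih (by omega)
    rw [pow_succ', Equiv.Perm.mul_apply]
    set t := (pN ^ j) s with ht
    have e : t.stN.r2.stN = t.r2 := FSt.stN_inv t
    have h3 := R.S t.stN.r2 (by rw [e]; exact h1) (by rw [e, FSt.facet_r2]; omega)
    rw [e] at h3
    refine ⟨h3.1, ?_⟩
    have h4 := h3.2
    rw [FSt.facet_r2, FSt.facet_r2] at h4
    show R.rw t.stN.facet + (j + 1) = _
    omega

lemma rim_far (h : R.Rim r) : R.Rim (Rows7.far r) := by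
  rcases h with ⟨h, h'⟩ | ⟨h, h'⟩
  · obtain ⟨h1, h2⟩ := up (R := R) (s := r) h (by omega) 6 (by omega)
    refine Or.inr ⟨?_, ?_⟩
    · unfold Rows7.far
      rw [FSt.r2_r2]
      exact h1
    · unfold Rows7.far
      rw [FSt.facet_r2, h2]
      omega
  · obtain ⟨h1, h2⟩ := down (R := R) (s := r) h 6 (by omega)
    refine Or.inl ⟨h1, ?_⟩
    unfold Rows7.far
    rw [FSt.facet_r2]
    omega

lemma far_far (s : P.FSt) : Rows7.far (Rows7.far s) = s := by
  unfold Rows7.far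
  rw [pNpow_r2, FSt.r2_r2]

/-! ## Predicates that are constant on the junctions -/

open Classical in
/-- the facet of the junction below an adapter facet -/
noncomputable def dn (R : Rows7 P) (f : P.Facet) : P.Facet :=
  if h : ∃ r, R.Rim r ∧ r.facet = f then (pN.symm (Classical.choose h)).facet else f

lemma dn_rim (h : R.Rim r) : dn R r.facet = Rows7.jf r := by
  have h1 : ∃ s, R.Rim s ∧ s.facet = r.facet := ⟨r, h, rfl⟩
  unfold dn
  rw [dif_pos h1]
  have h2 := Classical.choose_spec h1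
  rw [uniq h2.1 h h2.2]
  rfl

lemma dn_zero {f : P.Facet} (h : R.rw f = 0) : dn R f = f := by
  unfold dn
  rw [dif_neg]
  rintro ⟨s, h1, h2⟩
  exact ne0 h1 (by rw [h2]; exact h)

/-- neighbours of an adapter facet outside the inner rows -/
lemma nb (h : R.Rim r) (hs : s.facet = r.facet) (h0 : rwI R s.stE.facet = 0) :
    (s = r ∧ s.stE = r.stE) ∨ (s = r.r2 ∧ s.stE = (pE.symm r).r2) ∨
      (s = r.rR ∧ s.stE = (pN.symm r).rR) := by
  rcases rot4 hs with rfl | rfl | rfl | rfl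
  · exact Or.inl ⟨rfl, rfl⟩
  · exact Or.inr (Or.inl ⟨rfl, r2_stE r⟩)
  · exact Or.inr (Or.inr ⟨rfl, rR_stE r⟩)
  · exfalso
    rw [rL_stE', FSt.facet_rL] at h0
    exact rwI_N h h0

/-- a predicate on the junctions extended over the adapter rows -/
lemma QJ_ext {Q : P.Facet → Prop} (hQ : R.QJ Q) : (rowsI R).QJ fun f => Q (dn R f) := by
  intro s h1 h2
  have h1 : rwI R s.facet = 0 := h1
  have h2 : rwI R s.stE.facet = 0 := h2
  show Q (dn R s.facet) ↔ Q (dn R s.stE.facet)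
  have key : ∀ s : P.FSt, ∀ r, R.Rim r → s.facet = r.facet → rwI R s.stE.facet = 0 →
      (Q (dn R s.facet) ↔ Q (dn R s.stE.facet)) := by
    intro s r hr hs h0
    rcases nb hr hs h0 with ⟨-, e2⟩ | ⟨-, e2⟩ | ⟨-, e2⟩
    · rw [e2, hs, dn_rim hr, dn_rim (rim_E hr)]
      have h3 := hQ (pN.symm r) (rw_S hr) (by rw [S_E hr]; exact rw_S (rim_E hr))
      rw [S_E hr] at h3
      exact h3
    · rw [e2, hs, dn_rim hr, FSt.facet_r2, dn_rim (rim_W hr)]
      have h3 := hQ (pN.symm (pE.symm r)) (rw_S (rim_W hr))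
        (by rw [S_E (rim_W hr), pE_symm_stE]; exact rw_S hr)
      rw [S_E (rim_W hr), pE_symm_stE] at h3
      exact h3.symm
    · rw [e2, hs, dn_rim hr, FSt.facet_rR, dn_zero (rw_S hr)]
      exact Iff.rfl
  rcases rwI_zero.1 h1 with h3 | h3
  · rcases rwI_zero.1 h2 with h4 | h4
    · rw [dn_zero h3, dn_zero h4]
      exact hQ s h3 h4
    · obtain ⟨r, hr, hf⟩ := ex_rim (R := R) (t := s.stE) rfl h4
      have h5 := key s.stE.r2 r hr (by rw [FSt.facet_r2, hf])
        (by rw [FSt.stE_inv, FSt.facet_r2]; exact h1)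
      rw [FSt.stE_inv, FSt.facet_r2, FSt.facet_r2] at h5
      exact h5.symm
  · obtain ⟨r, hr, hf⟩ := ex_rim (R := R) (t := s) rfl h3
    exact key s r hr hf.symm h2

/-- restriction of a predicate to the junctions -/
lemma QJ_res {Q : P.Facet → Prop} (hQ : (rowsI R).QJ Q) : R.QJ Q := by
  intro s h1 h2
  exact hQ s (rwI_zero.2 (Or.inl h1)) (rwI_zero.2 (Or.inl h2))

lemma QJ_rim {Q : P.Facet → Prop} (hQ : (rowsI R).QJ Q) (h : R.Rim r) :
    Q r.facet ↔ Q (Rows7.jf r) := by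
  have h1 := hQ r.rR (show rwI R r.facet = 0 from rwI_rim h) (by
    rw [rR_stE, FSt.facet_rR]
    exact rwI_zero.2 (Or.inl (rw_S h)))
  rw [rR_stE] at h1
  exact h1

lemma QJ_dn {Q : P.Facet → Prop} (hQ : (rowsI R).QJ Q) {f : P.Facet} {t : P.FSt}
    (ht : t.facet = f) (h0 : rwI R f = 0) : Q f ↔ Q (dn R f) := by
  rcases rwI_zero.1 h0 with h | h
  · rw [dn_zero h]
  · obtain ⟨r, hr, rfl⟩ := ex_rim ht h
    rw [dn_rim hr]
    exact QJ_rim hQ hr

lemma dn_fac {f : P.Facet} {t : P.FSt} (ht : t.facet = f) (h0 : rwI R f = 0) :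
    R.rw (dn R f) = 0 := by
  rcases rwI_zero.1 h0 with h | h
  · rw [dn_zero h]; exact h
  · obtain ⟨r, hr, rfl⟩ := ex_rim ht h
    rw [dn_rim hr]
    exact rw_S hr

/-- **The tree.** -/
theorem tree {can : P.Facet → P.FSt} (hcan : ∀ f, (can f).facet = f) {tr : P.FSt → Prop}
    (T : R.Tree tr) :
    (rowsI R).Tree fun r => tr (pN.symm r) where
  conn := by
    intro Q hQ h1 f g hf hg
    have hQ' := QJ_res hQ
    have h2 := T.conn Q hQ' (by
      intro r hr ht
      rw [← QJ_rim hQ hr, ← QJ_rim hQ (rim_far hr)]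
      have h3 := h1 r.stN (rimI_of hr) (by rw [pN_s]; exact ht)
      unfold Rows.jf at h3
      rw [farI, pN_s, pN_s] at h3
      exact h3) (dn R f) (dn R g) (dn_fac (hcan f) hf) (dn_fac (hcan g) hg)
    rw [QJ_dn hQ (hcan f) hf, QJ_dn hQ (hcan g) hg]
    exact h2
  sep := by
    intro r₀ hr₀ ht₀
    have hr := rimI_iff.1 hr₀
    obtain ⟨S, h1, h2, h3⟩ := T.sep _ hr ht₀
    have e0 : Rows.far r₀ = (Rows7.far (pN.symm r₀)).stN := by
      rw [← farI, pN_symm_stN]
    have j1 : ∀ r, (rowsI R).Rim r → (S (dn R (Rows.jf r)) ↔ S (Rows7.jf (pN.symm r))) := by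
      intro r h
      have h' := rimI_iff.1 h
      show S (dn R (pN.symm r).facet) ↔ _
      rw [dn_rim h']
    have j2 : ∀ r, (rowsI R).Rim r →
        (S (dn R (Rows.jf (Rows.far r))) ↔ S (Rows7.jf (Rows7.far (pN.symm r)))) := by
      intro r h
      have h' := rimI_iff.1 h
      have e : Rows.far r = (Rows7.far (pN.symm r)).stN := by rw [← farI, pN_symm_stN]
      rw [e]
      show S (dn R (pN.symm (Rows7.far (pN.symm r)).stN).facet) ↔ _
      rw [pN_s, dn_rim (rim_far h')]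
    refine ⟨fun f => S (dn R f), QJ_ext h1, ?_, ?_⟩
    · intro r h ht hs1 hs2
      have h' := rimI_iff.1 h
      have h4 := h2 _ h' ht (by
        intro hs
        apply hs1
        have := (same_N (s := pN.symm r) hr).2 hs
        rwa [pN_symm_stN, pN_symm_stN] at this) (by
        intro hs
        apply hs2
        rw [e0]
        have := (same_N (s := pN.symm r) (rim_far hr)).2 hs
        rwa [pN_symm_stN] at this)
      exact (j1 r h).trans (h4.trans (j2 r h).symm)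
    · intro h4
      apply h3
      exact (j1 r₀ hr₀).symm.trans (h4.trans (j2 r₀ hr₀))

end QR

end Pool.Agent.MP42K
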