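import Pool.Agent.MP42.K.QRows

/-!
# One strand per facet: the table with three columns

The junction facets and the adapter facets (rows 1 and 7).
-/

set_option autoImplicit false
set_option linter.unusedSectionVars false

namespace Pool.Agent.MP42K

open Pool.Agent.Helper55.UNF Pool.Agent.Helper55.UNF.GridSolid Pool.Agent.MP42G
open Pool.Agent.MP42H Pool.Agent.MP42X Pool.Agent.MP42R

variable {P : GridSolid}

namespace QR

variable {R : Rows7 P} {r s : P.FSt}

open Classical in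
/-- a table: `A` on the adapter facets, `J` on the others -/
noncomputable def adp (R : Rows7 P) {α : Type*} (A : P.FSt → α) (J : P.Facet → α) (f : P.Facet) :
    α :=
  if h : ∃ r, R.Rim r ∧ r.facet = f then A (Classical.choose h) else J f

lemma adp_rim {α : Type*} {A : P.FSt → α} {J : P.Facet → α} (h : R.Rim r) :
    adp R A J r.facet = A r := by
  have h1 : ∃ s, R.Rim s ∧ s.facet = r.facet := ⟨r, h, rfl⟩
  unfold adp
  rw [dif_pos h1]
  have h2 := Classical.choose_spec h1
  rw [uniq h2.1 h h2.2]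

lemma adp_zero {α : Type*} {A : P.FSt → α} {J : P.Facet → α} {f : P.Facet} (h : R.rw f = 0) :
    adp R A J f = J f := by
  unfold adp
  rw [dif_neg]
  rintro ⟨s, h1, h2⟩
  exact ne0 h1 (by rw [h2]; exact h)

lemma ex_or (h0 : rwI R s.facet = 0) :
    R.rw s.facet = 0 ∨ ∃ r, R.Rim r ∧ s.facet = r.facet := by
  rcases rwI_zero.1 h0 with h | h
  · exact Or.inl h
  · obtain ⟨r, hr, h1⟩ := ex_rim (R := R) (t := s) rfl h
    exact Or.inr ⟨r, hr, h1.symm⟩

lemma rim_dir (h : R.Rim r) (b : Bool) : R.Rim (dir b r) := by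
  cases b
  · exact rim_E h
  · exact rim_W h

lemma dir_N (h : R.Rim r) (b : Bool) : dir b r.stN = (dir b r).stN := by
  cases b
  · exact N_E h
  · have h1 := N_E (rim_W h)
    rw [pE_symm_stE] at h1
    exact pE_symm_of h1

lemma rim_dpow (h : R.Rim r) (b : Bool) (n : ℕ) : R.Rim ((dir b ^ n) r) := by
  induction n with
  | zero => exact h
  | succ n ih =>
    rw [pow_succ', Equiv.Perm.mul_apply]
    exact rim_dir ih b

lemma dpow_N (h : R.Rim r) (b : Bool) (n : ℕ) : (dir b ^ n) r.stN = ((dir b ^ n) r).stN := by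
  induction n with
  | zero => rfl
  | succ n ih =>
    rw [pow_succ', Equiv.Perm.mul_apply, Equiv.Perm.mul_apply, ih]
    exact dir_N (rim_dpow h b n) b

lemma dir_symm (b : Bool) : (dir b : Equiv.Perm P.FSt).symm = dir (!b) := by
  cases b <;> rfl

lemma same_dpow (b : Bool) (n : ℕ) (r : P.FSt) : pE.SameCycle r ((dir b ^ n) r) := by
  cases b
  · exact ⟨n, rfl⟩
  · refine ⟨-(n : ℤ), ?_⟩
    rw [zpow_neg, zpow_natCast, ← inv_pow]
    rfl

/-- functions that are constant along the rims -/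
lemma const_same {β : Type*} {q : P.FSt → β} (hq : ∀ r, R.Rim r → q r.stE = q r) (h : R.Rim r)
    (hs : pE.SameCycle r s) : q s = q r := by
  obtain ⟨n, hn⟩ := hs.exists_nat_pow_eq
  rw [← hn]
  clear hn hs
  induction n with
  | zero => rfl
  | succ n ih =>
    rw [pow_succ', Equiv.Perm.mul_apply]
    exact (hq _ (rim_pow h n)).trans ih

lemma const_same' {q : P.FSt → Prop} (hq : ∀ r, R.Rim r → (q r.stE ↔ q r)) (h : R.Rim r)
    (hs : pE.SameCycle r s) : q s ↔ q r := by
  have := const_same (q := q) (fun r hr => propext (hq r hr)) h hs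
  rw [this]

/-- transport of the uniqueness of a foot -/
lemma ex_shift {Q Q' : P.FSt → Prop} (h : R.Rim r) (n : ℤ)
    (hQ : ∀ a, pE.SameCycle r a → (Q' a.stN ↔ Q ((pE ^ n) a)))
    (hex : ∃! a, pE.SameCycle r a ∧ Q a) : ∃! a, pE.SameCycle r.stN a ∧ Q' a := by
  obtain ⟨a, ⟨h1, h2⟩, h3⟩ := hex
  have e0 : (pE ^ n) ((pE ^ (-n)) a) = a := by
    rw [← Equiv.Perm.mul_apply, ← zpow_add, add_neg_cancel, zpow_zero, Equiv.Perm.one_apply]
  have h4 : pE.SameCycle r ((pE ^ (-n)) a) := h1.trans ⟨-n, rfl⟩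
  refine ⟨((pE ^ (-n)) a).stN, ⟨(same_N h).2 h4, (hQ _ h4).2 (by rw [e0]; exact h2)⟩, ?_⟩
  rintro b ⟨hb1, hb2⟩
  obtain ⟨c, rfl⟩ : ∃ c : P.FSt, c.stN = b := ⟨pN.symm b, pN_symm_stN b⟩
  have h5 := (same_N h).1 hb1
  have h6 := h3 ((pE ^ n) c) ⟨h5.trans ⟨n, rfl⟩, (hQ _ h5).1 hb2⟩
  have h7 : c = (pE ^ (-n)) a := by
    rw [← h6, ← Equiv.Perm.mul_apply, ← zpow_add, neg_add_cancel, zpow_zero,
      Equiv.Perm.one_apply]
  rw [h7]

end QR

namespace QX0

variable (C : QX0 P) {r s : P.FSt}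

/-- foot with label `+` or `-` before the shift -/
def F1 (r : P.FSt) : Prop := (C.g1 r ∧ C.z1 r = false) ∨ (C.g2 r ∧ C.z2 r = false)

/-- foot with label `0` -/
def F0 (r : P.FSt) : Prop := C.tr r ∧ ((C.g1 r ∧ C.z1 r = true) ∨ (C.g2 r ∧ C.z2 r = true))

/-- the frame of the junction facet is opposite -/
def fl (r : P.FSt) : Prop := C.can (Rows7.jf r) = (pN.symm r).r2

/-- column of the letter over the rim in the frame of the rim state -/
noncomputable def c0 (r : P.FSt) : ℕ := if wcQ C.can C.c (pN.symm r) = true then 2 else 0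

open Classical in
/-- the frame of the adapter facet -/
noncomputable def caA (r : P.FSt) : P.FSt := if C.tu r then r.rL else if C.fl r then r.r2 else r

open Classical in
/-- strands of a straight adapter facet in the frame `r` -/
noncomputable def cnA (r : P.FSt) (x : ℕ) : ℕ :=
  if C.tr r then
    if C.ng r = true then
      (if x = 3 then (if C.F1 r.stE then 1 else 0) else if C.F1 r ∧ x ≤ C.c0 r then 1 else 0)
    else (if x = 0 then (if C.F1 (pE.symm r) then 1 else 0)
      else if C.F1 r ∧ C.c0 r < x then 1 else 0)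
  else 0

open Classical in
/-- letters over the rim -/
noncomputable def sA (r : P.FSt) (x : ℕ) : Ln :=
  if C.tr r then (if C.F1 r ∧ x = C.c0 r then flet (C.ng r) else Ln.z)
  else (if C.g1 r ∧ x = 0 then Ln.n else if C.g1 r.stE ∧ x = 2 then Ln.s else Ln.z)

open Classical in
/-- letters over the north side of the adapter facet -/
noncomputable def nA (r : P.FSt) (x : ℕ) : Ln :=
  if C.tr r then
    if C.ng r = true then (if C.F1 r.stE ∧ x = 2 then Ln.s else Ln.z)
    else (if C.F1 (pE.symm r) ∧ x = 0 then Ln.n else Ln.z)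
  else (if C.g1 r ∧ x = 0 then Ln.n else if C.g1 r.stE ∧ x = 2 then Ln.s else Ln.z)

/-- column of the letters -/
def col (f : P.Facet) : ℕ := if C.c f = true then 2 else 0

def cnJ (f : P.Facet) (x : ℕ) : ℕ := if x ≤ C.col f then (C.w f).toNat else (C.e f).toNat
def sJ (f : P.Facet) (x : ℕ) : Ln := if x = C.col f then C.ls f else Ln.z
def nJ (f : P.Facet) (x : ℕ) : Ln := if x = C.col f then C.ln f else Ln.z

open Classical in
noncomputable def cnB (r : P.FSt) (x : ℕ) : ℕ :=
  if C.tu r then (if C.F0 r then 1 else 0) else if C.fl r then C.cnA r (3 - x) else C.cnA r x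
open Classical in
noncomputable def sB (r : P.FSt) (x : ℕ) : Ln :=
  if C.tu r then Ln.z else if C.fl r then C.nA r (2 - x) else C.sA r x
open Classical in
noncomputable def nB (r : P.FSt) (x : ℕ) : Ln :=
  if C.tu r then Ln.z else if C.fl r then C.sA r (2 - x) else C.nA r x

noncomputable def canT : P.Facet → P.FSt := QR.adp C.toRows7 C.caA C.can
noncomputable def cnT : P.Facet → ℕ → ℕ := QR.adp C.toRows7 C.cnB C.cnJ
noncomputable def sT : P.Facet → ℕ → Ln := QR.adp C.toRows7 C.sB C.sJ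
noncomputable def nT : P.Facet → ℕ → Ln := QR.adp C.toRows7 C.nB C.nJ

lemma canT_J {f : P.Facet} (h : C.rw f = 0) : C.canT f = C.can f := QR.adp_zero h
lemma cnT_J {f : P.Facet} (h : C.rw f = 0) : C.cnT f = C.cnJ f := QR.adp_zero h
lemma sT_J {f : P.Facet} (h : C.rw f = 0) : C.sT f = C.sJ f := QR.adp_zero h
lemma nT_J {f : P.Facet} (h : C.rw f = 0) : C.nT f = C.nJ f := QR.adp_zero h
lemma canT_A (h : C.Rim r) : C.canT r.facet = C.caA r := QR.adp_rim h
lemma cnT_A (h : C.Rim r) : C.cnT r.facet = C.cnB r := QR.adp_rim h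
lemma sT_A (h : C.Rim r) : C.sT r.facet = C.sB r := QR.adp_rim h
lemma nT_A (h : C.Rim r) : C.nT r.facet = C.nB r := QR.adp_rim h

lemma caA_facet (r : P.FSt) : (C.caA r).facet = r.facet := by
  unfold caA
  split_ifs
  · exact FSt.facet_rL r
  · exact FSt.facet_r2 r
  · rfl

lemma canT_facet (f : P.Facet) : (C.canT f).facet = f := by
  by_cases h : ∃ r, C.Rim r ∧ r.facet = f
  · obtain ⟨r, hr, rfl⟩ := h
    rw [C.canT_A hr, C.caA_facet]
  · unfold canT QR.adp
    rw [dif_neg h]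
    exact C.can_facet f

lemma ng_W (h : C.Rim r) : C.ng (pE.symm r) = C.ng r := by
  have := C.ng_E _ (QR.rim_W h)
  rw [pE_symm_stE] at this
  exact this.symm

lemma z1_W (h : C.Rim r) : C.z1 (pE.symm r) = C.z1 r := by
  have := C.z1_E _ (QR.rim_W h)
  rw [pE_symm_stE] at this
  exact this.symm

lemma z2_W (h : C.Rim r) : C.z2 (pE.symm r) = C.z2 r := by
  have := C.z2_E _ (QR.rim_W h)
  rw [pE_symm_stE] at this
  exact this.symm

lemma tr_W (h : C.Rim r) : C.tr (pE.symm r) ↔ C.tr r := by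
  have := C.tr_E _ (QR.rim_W h)
  rw [pE_symm_stE] at this
  exact this.symm

/-- the shifted feet -/
lemma sh_iff (h : C.Rim r) :
    ((C.z1 r = false ∧ shf C.z1 C.ng C.g1 r) ∨ (C.z2 r = false ∧ shf C.z2 C.ng C.g2 r)) ↔
      if C.ng r = true then C.F1 r.stE else C.F1 (pE.symm r) := by
  unfold shf F1
  rw [C.z1_E r h, C.z2_E r h, C.z1_W h, C.z2_W h]
  cases C.z1 r <;> cases C.z2 r <;> cases C.ng r <;> simp

lemma turned_z (h : C.Rim r) (ht : C.tu r) : wnQ C.can C.ls C.ln (pN.symm r) = Ln.z := by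
  unfold wnQ
  rcases C.tu_T r h ht with h1 | h1
  · have h1 : C.can (pN.symm r).facet = (pN.symm r).rL := h1
    rw [h1, if_neg (rL_ne _), if_neg (rL_ne_r2 _)]
  · have h1 : C.can (pN.symm r).facet = (pN.symm r).rR := h1
    rw [h1, if_neg (rR_ne _), if_neg (rR_ne_r2 _)]

lemma flet_ne (b : Bool) : flet b ≠ Ln.z := by cases b <;> decide

lemma not_tu_F1 (h : C.Rim r) (ht : C.tr r) (h1 : C.F1 r) : ¬ C.tu r := by
  intro h2
  have h3 := C.turned_z h h2
  rw [C.rn r h, if_pos ht, if_pos (show (C.g1 r ∧ C.z1 r = false) ∨ (C.g2 r ∧ C.z2 r = false)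
    from h1)] at h3
  exact flet_ne _ h3

lemma not_tu_sh (h : C.Rim r) (ht : C.tr r)
    (h1 : if C.ng r = true then C.F1 r.stE else C.F1 (pE.symm r)) : ¬ C.tu r :=
  C.tu_sh r h ht ((C.sh_iff h).2 h1)

lemma cnA_3 (h : C.Rim r) (ht : C.tu r) : C.cnA r 3 = 0 := by
  have h1 := (C.tu_cov r h ht).1
  unfold cnA
  rw [if_pos h1]
  by_cases hn : C.ng r = true
  · rw [if_pos hn, if_pos rfl, if_neg]
    intro h2
    exact C.not_tu_sh h h1 (by rw [if_pos hn]; exact h2) ht
  · rw [if_neg hn, if_neg (by decide), if_neg]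
    rintro ⟨h2, -⟩
    exact C.not_tu_F1 h h1 h2 ht

lemma cnA_0 (h : C.Rim r) (ht : C.tu r) : C.cnA r 0 = 0 := by
  have h1 := (C.tu_cov r h ht).1
  unfold cnA
  rw [if_pos h1]
  by_cases hn : C.ng r = true
  · rw [if_pos hn, if_neg (by decide), if_neg]
    rintro ⟨h2, -⟩
    exact C.not_tu_F1 h h1 h2 ht
  · rw [if_neg hn, if_pos rfl, if_neg]
    intro h2
    exact C.not_tu_sh h h1 (by rw [if_neg hn]; exact h2) ht

lemma c0_lt (r : P.FSt) : C.c0 r < 3 := by
  unfold c0
  split_ifs <;> omega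

lemma cnA_E (h : C.Rim r) : C.cnA r 3 = C.cnA r.stE 0 := by
  unfold cnA
  rw [C.ng_E r h, pE_s]
  have ht := C.tr_E r h
  by_cases h1 : C.tr r
  · rw [if_pos h1, if_pos (ht.2 h1)]
    by_cases hn : C.ng r = true
    · rw [if_pos hn, if_pos rfl, if_pos hn, if_neg (show ¬ (0 = 3) by omega)]
      by_cases h4 : C.F1 r.stE <;> simp [h4]
    · rw [if_neg hn, if_neg (show ¬ (3 = 0) by omega), if_neg hn, if_pos rfl]
      have h5 := C.c0_lt r
      by_cases h4 : C.F1 r
      · rw [if_pos h4, if_pos ⟨h4, h5⟩]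
      · rw [if_neg h4, if_neg (fun h6 => h4 h6.1)]
  · rw [if_neg h1, if_neg (fun h2 => h1 (ht.1 h2))]

lemma sA_eq (h : C.Rim r) (x : ℕ) :
    C.sA r x = if x = C.c0 r then wnQ C.can C.ls C.ln (pN.symm r) else Ln.z := by
  rw [C.rn r h]
  unfold sA
  by_cases h1 : C.tr r
  · rw [if_pos h1, if_pos h1]
    by_cases h2 : (C.g1 r ∧ C.z1 r = false) ∨ (C.g2 r ∧ C.z2 r = false)
    · rw [if_pos h2]
      have h2' : C.F1 r := h2
      by_cases h3 : x = C.c0 r <;> simp [h2', h3]
    · rw [if_neg h2]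
      have h2' : ¬ C.F1 r := h2
      by_cases h3 : x = C.c0 r <;> simp [h2']
  · rw [if_neg h1, if_neg h1]
    obtain ⟨h2, h3⟩ := C.rc r h h1
    by_cases h4 : C.g1 r
    · have h5 : C.c0 r = 0 := by unfold c0; rw [h2 h4]; rfl
      have h6 : ¬ C.g1 r.stE := by
        intro h6
        have := h2 h4
        rw [h3 h6] at this
        exact absurd this (by decide)
      rw [h5]
      simp [h4, h6]
    · by_cases h6 : C.g1 r.stE
      · have h5 : C.c0 r = 2 := by unfold c0; rw [h3 h6]; rfl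
        rw [h5]
        simp [h4, h6]
      · simp [h4, h6]

lemma sA_tu (h : C.Rim r) (ht : C.tu r) (x : ℕ) : C.sA r x = Ln.z := by
  rw [C.sA_eq h, C.turned_z h ht]
  split_ifs <;> rfl

end QX0

end Pool.Agent.MP42K
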