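import Pool.Agent.MP42.K.QRX
import Pool.Agent.MP42.R.Trace

/-!
# One strand per facet: the values of the strands
-/

set_option autoImplicit false
set_option linter.unusedSectionVars false

namespace Pool.Agent.MP42K

open Pool.Agent.Helper55.UNF Pool.Agent.Helper55.UNF.GridSolid Pool.Agent.MP42G
open Pool.Agent.MP42H Pool.Agent.MP42X Pool.Agent.MP42R

variable {P : GridSolid}

/-- relations between the values in a facet with at most one strand over every line -/
structure CR (c : ℕ → ℕ) (a b : ℕ → Ln) (v S N : ℕ → Prop) : Prop where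
  zz : ∀ x < 3, a x = Ln.z → b x = Ln.z → (0 < c x ∨ 0 < c (x + 1)) → (v x ↔ v (x + 1))
  sn : ∀ x < 3, a x = Ln.n → 0 < c (x + 1) → (S x ↔ v (x + 1))
  ss : ∀ x < 3, a x = Ln.s → 0 < c x → (S x ↔ v x)
  nn : ∀ x < 3, b x = Ln.n → 0 < c x → (N x ↔ v x)
  ns : ∀ x < 3, b x = Ln.s → 0 < c (x + 1) → (N x ↔ v (x + 1))
  ab : ∀ x < 3, a x ≠ Ln.z → a x = b x → c x = 0 → (S x ↔ N x)

/-- turn by two right angles -/
lemma CR.flip {c : ℕ → ℕ} {a b : ℕ → Ln} {v S N : ℕ → Prop} (h : CR c a b v S N)
    (hb : ∀ x < 3, a x = b x → c x = c (x + 1)) :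
    CR (fun x => c (3 - x)) (fun x => b (2 - x)) (fun x => a (2 - x)) (fun x => v (3 - x))
      (fun x => N (2 - x)) (fun x => S (2 - x)) where
  zz := by
    intro x hx h1 h2 h3
    have e1 : 3 - x = 2 - x + 1 := by omega
    have e2 : 3 - (x + 1) = 2 - x := by omega
    show v (3 - x) ↔ v (3 - (x + 1))
    have h3 : 0 < c (3 - x) ∨ 0 < c (3 - (x + 1)) := h3
    rw [e1, e2] at h3
    rw [e1, e2]
    exact (h.zz (2 - x) (by omega) h2 h1 h3.symm).symm
  sn := by
    intro x hx h1 h2
    have e2 : 3 - (x + 1) = 2 - x := by omega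
    show N (2 - x) ↔ v (3 - (x + 1))
    have h2 : 0 < c (3 - (x + 1)) := h2
    rw [e2] at h2
    rw [e2]
    exact h.nn (2 - x) (by omega) h1 h2
  ss := by
    intro x hx h1 h2
    have e1 : 3 - x = 2 - x + 1 := by omega
    show N (2 - x) ↔ v (3 - x)
    have h2 : 0 < c (3 - x) := h2
    rw [e1] at h2
    rw [e1]
    exact h.ns (2 - x) (by omega) h1 h2
  nn := by
    intro x hx h1 h2
    have e1 : 3 - x = 2 - x + 1 := by omega
    show S (2 - x) ↔ v (3 - x)
    have h2 : 0 < c (3 - x) := h2
    rw [e1] at h2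
    rw [e1]
    exact h.sn (2 - x) (by omega) h1 h2
  ns := by
    intro x hx h1 h2
    have e2 : 3 - (x + 1) = 2 - x := by omega
    show S (2 - x) ↔ v (3 - (x + 1))
    have h2 : 0 < c (3 - (x + 1)) := h2
    rw [e2] at h2
    rw [e2]
    exact h.ss (2 - x) (by omega) h1 h2
  ab := by
    intro x hx h1 h2 h3
    have e1 : 3 - x = 2 - x + 1 := by omega
    show N (2 - x) ↔ S (2 - x)
    have h1 : b (2 - x) ≠ Ln.z := h1
    have h2 : b (2 - x) = a (2 - x) := h2
    have h3 : c (3 - x) = 0 := h3
    rw [e1] at h3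
    exact (h.ab (2 - x) (by omega) (by rw [← h2]; exact h1) h2.symm
      (by rw [hb (2 - x) (by omega) h2.symm]; exact h3)).symm

lemma cr_of {R : RX0 P 3} {V : P.Facet → ℕ → ℕ → Prop} {S N : P.Facet → ℕ → Prop}
    (I : R.Inv V S N) {f : P.Facet} (hf : R.rw f = 0) (h1 : ∀ x, R.cn f x ≤ 1) :
    CR (R.cn f) (R.sL f) (R.nL f) (fun x => V f x 0) (S f) (N f) where
  zz := by
    intro x hx h2 h3 h4
    have b := R.bal f hf x hx
    rw [h2, h3] at b
    simp only [vl] at b
    exact I.c_zz hf hx h2 h3 (by omega)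
  sn := by
    intro x hx h2 h3
    have b := R.bal f hf x hx
    have := h1 (x + 1)
    rw [h2] at b
    cases h4 : R.nL f x
    · exact (I.c_nz hf hx h2 h4).1
    · rw [h4] at b
      simp only [vl] at b
      exact ((I.c_nn hf hx h2 h4).2.1 0 (by omega)).1
    · exact (I.c_ns hf hx h2 h4).1
  ss := by
    intro x hx h2 h3
    have b := R.bal f hf x hx
    have := h1 x
    rw [h2] at b
    cases h4 : R.nL f x
    · exact (I.c_sz hf hx h2 h4).1.symm
    · exact (I.c_sn hf hx h2 h4).1.symm
    · exact ((I.c_ss hf hx h2 h4).2.1 0 (by omega)).1.symm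
  nn := by
    intro x hx h2 h3
    have b := R.bal f hf x hx
    have := h1 x
    rw [h2] at b
    cases h4 : R.sL f x
    · rw [h4] at b
      simp only [vl] at b
      have h5 := (I.c_zn hf hx h4 h2).1
      rw [show R.cn f (x + 1) = 0 by omega] at h5
      exact h5.symm
    · exact ((I.c_nn hf hx h4 h2).2.1 0 (by omega)).2.symm
    · rw [h4] at b
      simp only [vl] at b
      omega
  ns := by
    intro x hx h2 h3
    have b := R.bal f hf x hx
    have := h1 (x + 1)
    rw [h2] at b
    cases h4 : R.sL f x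
    · rw [h4] at b
      simp only [vl] at b
      have h5 := (I.c_zs hf hx h4 h2).1
      rw [show R.cn f x = 0 by omega] at h5
      exact h5
    · rw [h4] at b
      simp only [vl] at b
      omega
    · rw [h4] at b
      simp only [vl] at b
      exact ((I.c_ss hf hx h4 h2).2.1 0 (by omega)).2
  ab := by
    intro x hx h2 h3 h4
    cases h5 : R.sL f x
    · exact absurd h5 h2
    · exact (I.c_nn hf hx h5 (by rw [← h3, h5])).1 h4
    · exact ((I.c_ss hf hx h5 (by rw [← h3, h5])).1 h4).symm

namespace QX0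

variable (C : QX0 P) {r s t : P.FSt}
variable {V : P.Facet → ℕ → ℕ → Prop} {S N : P.Facet → ℕ → Prop}

lemma cr (I : C.toRX0.Inv V S N) {f : P.Facet} (hf : QR.rwI C.toRows7 f = 0) :
    CR (C.cnT f) (C.sT f) (C.nT f) (fun x => V f x 0) (S f) (N f) :=
  cr_of I hf (fun x => C.bd hf x)

/-- the value of the strand of a junction facet -/
def phi (V : P.Facet → ℕ → ℕ → Prop) (S : P.Facet → ℕ → Prop) (f : P.Facet) : Prop :=
  if C.w f = true then V f 0 0 else if C.e f = true then V f 3 0 else S f (C.col f)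

lemma col_lt (f : P.Facet) : C.col f < 3 := by
  unfold col
  split_ifs <;> omega

lemma col_or (f : P.Facet) : C.col f = 0 ∨ C.col f = 2 := by
  unfold col
  split_ifs <;> simp

/-- values in a junction facet -/
lemma phi_all (I : C.toRX0.Inv V S N) {f : P.Facet} (hf : C.rw f = 0) :
    (∀ l ≤ 3, 0 < C.cnJ f l → (V f l 0 ↔ C.phi V S f)) ∧
    (C.ls f ≠ Ln.z → (S f (C.col f) ↔ C.phi V S f)) ∧
    (C.ln f ≠ Ln.z → (N f (C.col f) ↔ C.phi V S f)) := by
  have h := C.cr I (QR.rwI_zero.2 (Or.inl hf))
  rw [C.cnT_J hf, C.sT_J hf, C.nT_J hf] at h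
  have hok := C.ok f hf
  have hcol := C.col_or f
  have hlt := C.col_lt f
  have hzz : ∀ x < 3, x ≠ C.col f → (0 < C.cnJ f x ∨ 0 < C.cnJ f (x + 1)) →
      (V f x 0 ↔ V f (x + 1) 0) := by
    intro x hx hxc hc
    exact h.zz x hx (by unfold sJ; rw [if_neg hxc]) (by unfold nJ; rw [if_neg hxc]) hc
  have hW : ∀ l ≤ C.col f, C.cnJ f l = (C.w f).toNat := fun l hl => by
    unfold cnJ; rw [if_pos hl]
  have hE : ∀ l, C.col f < l → C.cnJ f l = (C.e f).toNat := fun l hl => by
    unfold cnJ; rw [if_neg (by omega)]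
  have hsc : C.sJ f (C.col f) = C.ls f := by unfold sJ; rw [if_pos rfl]
  have hnc : C.nJ f (C.col f) = C.ln f := by unfold nJ; rw [if_pos rfl]
  -- values on the west part
  have vW : C.w f = true → ∀ l ≤ C.col f, (V f l 0 ↔ V f 0 0) := by
    intro hw l hl
    induction l with
    | zero => exact Iff.rfl
    | succ l ih =>
      refine Iff.trans ?_ (ih (by omega))
      exact (hzz l (by omega) (by omega) (Or.inl (by rw [hW l (by omega), hw]; decide))).symm
  have vE : C.e f = true → ∀ l, C.col f < l → l ≤ 3 → (V f l 0 ↔ V f 3 0) := by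
    intro he l hl hl3
    obtain ⟨j, rfl⟩ : ∃ j, l = 3 - j := ⟨3 - l, by omega⟩
    induction j with
    | zero => exact Iff.rfl
    | succ j ih =>
      have h5 := ih (by omega) (by omega)
      by_cases hj : 3 ≤ j
      · omega
      · have e : 3 - j = 3 - (j + 1) + 1 := by omega
        rw [e] at h5
        refine Iff.trans ?_ h5
        exact hzz (3 - (j + 1)) (by omega) (by omega)
          (Or.inl (by rw [hE _ hl, he]; decide))
  unfold phi
  have sn := h.sn (C.col f) hlt
  have ss := h.ss (C.col f) hlt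
  have nn := h.nn (C.col f) hlt
  have ns := h.ns (C.col f) hlt
  have ab := h.ab (C.col f) hlt
  have zz := h.zz (C.col f) hlt
  rw [hsc] at sn ss ab zz
  rw [hnc] at nn ns ab zz
  rw [hW _ le_rfl] at ss nn ab zz
  rw [hE (C.col f + 1) (by omega)] at sn ns zz
  have cl : ∀ l, 0 < C.cnJ f l → (l ≤ C.col f ∧ C.w f = true) ∨ (C.col f < l ∧ C.e f = true) := by
    intro l hl
    by_cases h1 : l ≤ C.col f
    · rw [hW l h1] at hl
      left
      refine ⟨h1, ?_⟩
      cases hw : C.w f
      · rw [hw] at hl; exact absurd hl (by decide)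
      · rfl
    · rw [hE l (by omega)] at hl
      right
      refine ⟨by omega, ?_⟩
      cases he : C.e f
      · rw [he] at hl; exact absurd hl (by decide)
      · rfl
  have clW : ∀ l, 0 < C.cnJ f l → C.e f = false → l ≤ C.col f ∧ C.w f = true := by
    intro l hl he
    rcases cl l hl with h1 | ⟨-, h1⟩
    · exact h1
    · rw [he] at h1; exact absurd h1 (by decide)
  have clE : ∀ l, 0 < C.cnJ f l → C.w f = false → C.col f < l ∧ C.e f = true := by
    intro l hl hw
    rcases cl l hl with ⟨-, h1⟩ | h1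
    · rw [hw] at h1; exact absurd h1 (by decide)
    · exact h1
  have vE0 : C.e f = true → (V f (C.col f + 1) 0 ↔ V f 3 0) := fun he =>
    vE he _ (by omega) (by omega)
  have vW0 : C.w f = true → (V f (C.col f) 0 ↔ V f 0 0) := fun hw => vW hw _ le_rfl
  cases hw : C.w f
  · rw [if_neg (by decide)]
    cases he : C.e f
    · rw [if_neg (by decide)]
      have hv : ∀ l ≤ 3, 0 < C.cnJ f l → (V f l 0 ↔ S f (C.col f)) := fun l _ hl => by
        have h1 := (clW l hl he).2
        rw [hw] at h1
        exact absurd h1 (by decide)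
      refine ⟨hv, fun _ => Iff.rfl, fun h1 => ?_⟩
      have h2 : C.ls f = C.ln f := by
        rw [hw, he] at hok
        cases hn : C.ln f <;> cases hs : C.ls f <;> rw [hn, hs] at hok <;>
          first | rfl | exact absurd hok (by decide)
      exact (ab (by rw [h2]; exact h1) h2 (by rw [hw]; rfl)).symm
    · rw [if_pos rfl]
      refine ⟨fun l hl3 hl => vE he l (clE l hl hw).1 hl3, fun h1 => ?_, fun h1 => ?_⟩
      · have h2 : C.ls f = Ln.n := by
          rw [hw, he] at hok
          cases hn : C.ln f <;> cases hs : C.ls f <;> rw [hn, hs] at hok <;>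
            first | rfl | exact absurd hs h1 | exact absurd hok (by decide)
        exact (sn h2 (by rw [he]; decide)).trans (vE0 he)
      · have h2 : C.ln f = Ln.s := by
          rw [hw, he] at hok
          cases hn : C.ln f <;> cases hs : C.ls f <;> rw [hn, hs] at hok <;>
            first | rfl | exact absurd hn h1 | exact absurd hok (by decide)
        exact (ns h2 (by rw [he]; decide)).trans (vE0 he)
  · rw [if_pos rfl]
    cases he : C.e f
    · refine ⟨fun l hl3 hl => vW hw l (clW l hl he).1, fun h1 => ?_, fun h1 => ?_⟩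
      · have h2 : C.ls f = Ln.s := by
          rw [hw, he] at hok
          cases hn : C.ln f <;> cases hs : C.ls f <;> rw [hn, hs] at hok <;>
            first | rfl | exact absurd hs h1 | exact absurd hok (by decide)
        exact (ss h2 (by rw [hw]; decide)).trans (vW0 hw)
      · have h2 : C.ln f = Ln.n := by
          rw [hw, he] at hok
          cases hn : C.ln f <;> cases hs : C.ls f <;> rw [hn, hs] at hok <;>
            first | rfl | exact absurd hn h1 | exact absurd hok (by decide)
        exact (nn h2 (by rw [hw]; decide)).trans (vW0 hw)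
    · have h2 : C.ls f = Ln.z ∧ C.ln f = Ln.z := by
        rw [hw, he] at hok
        cases hn : C.ln f <;> cases hs : C.ls f <;> rw [hn, hs] at hok <;>
          first | exact ⟨rfl, rfl⟩ | exact absurd hok (by decide)
      refine ⟨fun l hl3 hl => ?_, fun h1 => absurd h2.1 h1, fun h1 => absurd h2.2 h1⟩
      by_cases h3 : l ≤ C.col f
      · exact vW hw l h3
      · refine (vE he l (by omega) hl3).trans ((vE0 he).symm.trans (Iff.trans ?_ (vW0 hw)))
        exact (zz h2.1 h2.2 (Or.inl (by rw [hw]; decide))).symm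

end QX0

end Pool.Agent.MP42K
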