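import Pool.Agent.MP42.K.Cont
import Pool.Agent.MP42.K.Rows

/-!
# `KC0`: the feet on the rims of the refinement by 7
-/

set_option autoImplicit false
set_option linter.unusedSectionVars false

namespace Pool.Agent.MP42K

open Pool.Agent.Helper55.UNF Pool.Agent.Helper55.UNF.GridSolid Pool.Agent.MP42G
open Pool.Agent.MP42H Pool.Agent.MP42X Pool.Agent.MP42R

variable {P : GridSolid}

/-- the column of a state of the refinement -/
noncomputable def tx (t : (P.refine 7 h7).FSt) : ℕ := px (cs t) t.facet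

@[simp] lemma tx_pt {i : ℕ} (s : P.FSt) (j : ℕ) (hi : i ≤ 6) : tx (pt s i j) = i := by
  unfold tx; rw [cs_pt]; exact px_pt s j hi

/-! ## Cycles -/

lemma pEpow_pt (r : P.FSt) (j : ℕ) : ∀ n i c : ℕ, i ≤ 6 → c ≤ 6 → ∀ M, M + i = c + 7 * n →
    (pE ^ M) (pt r i j) = pt ((pE ^ n) r) c j := by
  intro n i c hi hc M
  induction M generalizing n c with
  | zero =>
    intro h
    obtain rfl : n = 0 := by omega
    obtain rfl : i = c := by omega
    rfl
  | succ M ih =>
    intro h
    rw [pow_succ', Equiv.Perm.mul_apply]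
    by_cases hc0 : c = 0
    · subst hc0
      obtain ⟨n, rfl⟩ : ∃ n', n = n' + 1 := ⟨n - 1, by omega⟩
      rw [ih n 6 (by omega) (by omega), pE_pt6, pow_succ', Equiv.Perm.mul_apply]
    · obtain ⟨c, rfl⟩ : ∃ c', c = c' + 1 := ⟨c - 1, by omega⟩
      rw [ih n c (by omega) (by omega), pE_pt _ _ (by omega)]

lemma pEspow_pt (r : P.FSt) (j : ℕ) : ∀ n i c : ℕ, i ≤ 6 → c ≤ 6 → ∀ M, M + c = i + 7 * n →
    (pE.symm ^ M) (pt r i j) = pt ((pE.symm ^ n) r) c j := by
  intro n i c hi hc M
  induction M generalizing n c with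
  | zero =>
    intro h
    obtain rfl : n = 0 := by omega
    obtain rfl : i = c := by omega
    rfl
  | succ M ih =>
    intro h
    rw [pow_succ', Equiv.Perm.mul_apply]
    by_cases hc6 : c = 6
    · subst hc6
      obtain ⟨n, rfl⟩ : ∃ n', n = n' + 1 := ⟨n - 1, by omega⟩
      rw [ih n 0 (by omega) (by omega), pEs_pt0, pow_succ', Equiv.Perm.mul_apply]
    · rw [ih n (c + 1) (by omega) (by omega), pEs_pt _ _ (by omega)]

/-! ## Letters and strands over the rims -/

namespace KC0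

variable (C : KC0 P)

lemma wn_pt (u : P.FSt) {i j : ℕ} (hi : i ≤ 6) (hj : j ≤ 6)
    (h : C.can u.facet = u ∨ C.can u.facet = u.r2) :
    wnQ C.canF C.lsF C.lnF (pt u i j) = C.sN u i j := by
  unfold wnQ
  rcases h with h | h
  · rw [if_pos (canF_pt h hi hj), lnF_pt h hi hj]
  · have h1 : C.canF (pt u i j).facet = (pt u i j).r2 := canP_r2 h hi hj
    rw [if_neg (by rw [h1]; exact r2_ne _), if_pos h1]
    have h2 : C.can u.r2.facet = u.r2 := h
    have h3 := lsF_pt h2 (i := 6 - i) (j := 6 - j) (by omega) (by omega)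
    rw [← pt_r2, FSt.facet_r2] at h3
    rw [h3]
    show C.sN u.r2.r2 (6 - (6 - i)) (6 - (6 - j)) = _
    rw [FSt.r2_r2]
    congr 1 <;> omega

lemma wn_pt0 (u : P.FSt) {i j : ℕ} (hi : i ≤ 6) (hj : j ≤ 6)
    (h : C.can u.facet = u.rL ∨ C.can u.facet = u.rR) :
    wnQ C.canF C.lsF C.lnF (pt u i j) = Ln.z := by
  unfold wnQ
  rcases h with h | h
  · have h1 : C.canF (pt u i j).facet = (pt u i j).rL := canP_rL h hi hj
    rw [if_neg (by rw [h1]; exact rL_ne _), if_neg (by rw [h1]; exact rL_ne_r2 _)]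
  · have h1 : C.canF (pt u i j).facet = (pt u i j).rR := canP_rR h hi hj
    rw [if_neg (by rw [h1]; exact rR_ne _), if_neg (by rw [h1]; exact rR_ne_r2 _)]

lemma wo_pt (u : P.FSt) {i j : ℕ} (hi : i ≤ 6) (hj : j ≤ 6)
    (h : C.can u.facet = u.rL ∨ C.can u.facet = u.rR) :
    woQ C.canF C.wF C.eF (pt u i j) = C.sE u.rL j (6 - i) := by
  unfold woQ
  rcases h with h | h
  · have h1 : C.canF (pt u i j).facet = (pt u i j).rL := canP_rL h hi hj
    rw [if_pos h1]
    have h2 : C.can u.rL.facet = u.rL := h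
    have h3 := eF_pt h2 (i := j) (j := 6 - i) (by omega) (by omega)
    rw [← pt_rL, FSt.facet_rL] at h3
    exact h3
  · have h1 : C.canF (pt u i j).facet = (pt u i j).rR := canP_rR h hi hj
    rw [if_neg (by rw [h1]; exact fun e => rL_ne_rR _ e.symm), if_pos h1]
    have h2 : C.can u.rR.facet = u.rR := h
    have h3 := wF_pt h2 (i := 6 - j) (j := i) (by omega) (by omega)
    rw [← pt_rR, FSt.facet_rR] at h3
    rw [h3]
    show C.sE u.rR.r2 (6 - (6 - j)) (6 - i) = _
    rw [FSt.rR_r2]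
    congr 1; omega

lemma wo_pt0 (u : P.FSt) {i j : ℕ} (hi : i ≤ 6) (hj : j ≤ 6)
    (h : C.can u.facet = u ∨ C.can u.facet = u.r2) :
    woQ C.canF C.wF C.eF (pt u i j) = false := by
  unfold woQ
  rcases h with h | h
  · have h1 : C.canF (pt u i j).facet = pt u i j := canF_pt h hi hj
    rw [if_neg (by rw [h1]; exact fun e => rL_ne _ e.symm),
      if_neg (by rw [h1]; exact fun e => rR_ne _ e.symm)]
  · have h1 : C.canF (pt u i j).facet = (pt u i j).r2 := canP_r2 h hi hj
    rw [if_neg (by rw [h1]; exact fun e => rL_ne_r2 _ e.symm),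
      if_neg (by rw [h1]; exact fun e => rR_ne_r2 _ e.symm)]

lemma wc_pt (u : P.FSt) {i j : ℕ} (hi : i = 0 ∨ i = 6) (hj : j ≤ 6)
    (h : C.can u.facet = u ∨ C.can u.facet = u.r2) :
    wcQ C.canF C.cF (pt u i j) = decide (i = 6) := by
  have hi' : i ≤ 6 := by omega
  unfold wcQ
  rcases h with h | h
  · rw [if_pos (canF_pt h hi' hj), cF_pt h j hi']
  · have h1 : C.canF (pt u i j).facet = (pt u i j).r2 := canP_r2 h hi' hj
    rw [if_neg (by rw [h1]; exact r2_ne _)]
    have h2 : C.can u.r2.facet = u.r2 := h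
    have h3 := cF_pt h2 (i := 6 - i) (6 - j) (by omega)
    rw [← pt_r2, FSt.facet_r2] at h3
    rw [h3]
    rcases hi with rfl | rfl <;> decide

/-- straight or turned -/
lemma straight_or (u : P.FSt) : (C.can u.facet = u ∨ C.can u.facet = u.r2) ∨
    (C.can u.facet = u.rL ∨ C.can u.facet = u.rR) := by
  rcases rot4 (C.can_facet u.facet) with h | h | h | h
  · exact Or.inl (Or.inl h)
  · exact Or.inl (Or.inr h)
  · exact Or.inr (Or.inr h)
  · exact Or.inr (Or.inl h)

lemma not_both {u : P.FSt} (h : C.can u.facet = u ∨ C.can u.facet = u.r2)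
    (h' : C.can u.facet = u.rL ∨ C.can u.facet = u.rR) : False := by
  rcases h with h | h <;> rcases h' with h' | h' <;> rw [h] at h'
  · exact rL_ne _ h'.symm
  · exact rR_ne _ h'.symm
  · exact rL_ne_r2 _ h'.symm
  · exact rR_ne_r2 _ h'.symm

/-- letters over a rim edge -/
lemma sN_rim {r : P.FSt} (hr : C.Rim r) {i : ℕ} (hi : i ≤ 6) : C.sN (pN.symm r) i 6 =
    open Classical in
    if i = 6 ∧ En C.kv C.ke r then C.nu (pN.symm r).rL.stE.r2
    else if i = 0 ∧ St C.kv C.ke r then C.nu (pN.symm r).rL else Ln.z := by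
  classical
  unfold sN En St
  by_cases hk : C.kf (pN.symm r).facet
  · have := (C.kf_all (C.toCore1.jf_ncore hr) hk).2.1
    simp [hk, this]
  simp only [hk, if_false]
  by_cases i6 : i = 6
  · subst i6; simp
  · by_cases i0 : i = 0
    · subst i0; simp
    · simp [i6, i0]

/-- strands over a rim edge, turned frame -/
lemma sE_rim {r : P.FSt} (hr : C.Rim r) {i : ℕ} (hi : i ≤ 6) : C.sE (pN.symm r).rL 6 (6 - i) =
    open Classical in
    decide ((i = 6 ∧ En C.kv C.ke r) ∨ (i = 0 ∧ St C.kv C.ke r)) := by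
  classical
  unfold sE En St
  rw [FSt.facet_rL, FSt.rL_rR]
  by_cases hk : C.kf (pN.symm r).facet
  · have := (C.kf_all (C.toCore1.jf_ncore hr) hk).2.1
    simp [hk, this]
  simp only [hk, if_false, if_true]
  by_cases i6 : i = 6
  · subst i6; simp
  · by_cases i0 : i = 0
    · subst i0; simp
    · have e1 : ¬ 6 - i = 6 := by omega
      have e2 : ¬ 6 - i = 0 := by omega
      simp [i6, i0, e1, e2]

end KC0

end Pool.Agent.MP42K
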