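import Pool.Agent.MP42.K.SupDefs
import Pool.Agent.MP42.K.CovP

/-!
# Leaning facets in the refinement by 7
-/

set_option autoImplicit false
set_option linter.unusedSectionVars false

namespace Pool.Agent.MP42K

open Pool.Agent.Helper55.UNF Pool.Agent.Helper55.UNF.GridSolid Pool.Agent.MP42G
open Pool.Agent.MP42H Pool.Agent.MP42X Pool.Agent.MP42R

variable {P : GridSolid}

lemma pNb_pt (s : P.FSt) {i b : ℕ} (hi : i ≤ 6) (hb : b ≤ 6) (y : ℕ) :
    (pN ^ y) (pt s i b) = pt ((pN ^ ((y + b) / 7)) s) i ((y + b) % 7) := by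
  have h := pNz_pt s hi (j0 := b) (j1 := (y + b) % 7) hb (by omega) ((y + b) / 7 : ℕ)
  have e : (7 * (((y + b) / 7 : ℕ) : ℤ) + (((y + b) % 7 : ℕ) : ℤ) - ((b : ℕ) : ℤ)) = (y : ℤ) := by
    omega
  rw [e, zpow_natCast, zpow_natCast] at h
  exact h

lemma act_canP {can : P.Facet → P.FSt} {s : P.FSt} (h : Act can s) {i j : ℕ} (hi : i ≤ 6)
    (hj : j ≤ 6) : Act (canP can) (pt s i j) := by
  rcases h with h | h
  · exact Or.inl (canP_pt h hi hj)
  · exact Or.inr (canP_r2 h hi hj)

namespace KC0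

variable {C : KC0 P}

lemma sdQ_pt {s : P.FSt} (h : Act C.can s) {i j : ℕ} (hi : i ≤ 6) (hj : j ≤ 6) (E : Bool) :
    sdQ C.canF C.wF C.eF E (pt s i j) = if E then C.sE s i j else C.sW s i j := by
  classical
  unfold sdQ
  rcases h with h | h
  · rw [canF_pt h hi hj, if_pos rfl, eF_pt h hi hj, wF_pt h hi hj]
  · have h' : C.can s.r2.facet = s.r2 := h
    have e : (pt s i j).facet = (pt s.r2 (6 - i) (6 - j)).facet := by
      rw [← pt_r2, FSt.facet_r2]
    have e0 : C.canF (pt s i j).facet = (pt s i j).r2 := canP_r2 h hi hj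
    rw [e0, if_neg (r2_ne _), if_pos rfl, e, eF_pt h' (by omega) (by omega),
      wF_pt h' (by omega) (by omega)]
    have e1 : C.sW s.r2 (6 - i) (6 - j) = C.sE s i j := by
      unfold sW
      rw [FSt.r2_r2]
      congr 1 <;> omega
    rw [e1]
    cases E <;> rfl

/-! ## Strands over the sides of the parts in the outer columns -/

/-- the column of the parts that is the farthest from the direction `E` -/
def iE (E : Bool) : ℕ := if E then 0 else 6

lemma iE_le (E : Bool) : iE E ≤ 6 := by cases E <;> simp [iE]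

/-- the row of the curve -/
def jb (S : Bool) : ℕ := if S then 0 else 6

lemma jb_le (S : Bool) : jb S ≤ 6 := by cases S <;> simp [jb]

lemma sd_out {s : P.FSt} (h : Act C.can s) {j : ℕ} (hj : j ≤ 6) (E : Bool) :
    sdQ C.canF C.wF C.eF (!E) (pt s (iE E) j) = if E then C.sW s 0 j else C.sE s 6 j := by
  rw [sdQ_pt h (iE_le E) hj]
  cases E <;> rfl

lemma no_sd {E : Bool} {s : P.FSt} (h : C.kf s.facet ∨ ksd C.ke E s ∨
    (¬ kcN C.kv E s ∧ ¬ kcS C.kv E s)) {j : ℕ} (hj : j ≤ 6) :
    (if E then C.sW s 0 j else C.sE s 6 j) = false := by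
  classical
  cases E
  · have h' : C.kf s.facet ∨ C.ke s ∨ (¬ C.kv s ∧ ¬ C.kv s.rR) := h
    show C.sE s 6 j = false
    unfold sE
    rcases h' with h' | h' | ⟨h1, h2⟩
    · simp [h']
    · simp [h']
    · simp [h1, h2]
  · have h' : C.kf s.facet ∨ C.ke s.r2 ∨ (¬ C.kv s.rL ∧ ¬ C.kv s.r2) := h
    show C.sW s 0 j = false
    rw [C.sW_eq s (by omega) hj]
    rcases h' with h' | h' | ⟨h1, h2⟩
    · simp [h']
    · simp [h']
    · simp [h1, h2]

lemma no_sdN {E : Bool} {s : P.FSt} (h : ¬ kcN C.kv E s) {j : ℕ} (h0 : 0 < j) (hj : j ≤ 6) :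
    (if E then C.sW s 0 j else C.sE s 6 j) = false := by
  classical
  cases E
  · have h' : ¬ C.kv s := h
    show C.sE s 6 j = false
    unfold sE
    simp [h', show j ≠ 0 by omega]
  · have h' : ¬ C.kv s.rL := h
    show C.sW s 0 j = false
    rw [C.sW_eq s (by omega) hj]
    simp [h', show j ≠ 0 by omega]

lemma act_two {s : P.FSt} (h : Act C.can s) {i j : ℕ} (hi : i ≤ 6) (hj : j ≤ 6)
    (e1 : C.sE s i j = true) (e2 : C.sW s i j = true) :
    C.wF (pt s i j).facet = true ∧ C.eF (pt s i j).facet = true := by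
  rcases h with h | h
  · rw [wF_pt h hi hj, eF_pt h hi hj]
    exact ⟨e2, e1⟩
  · have h' : C.can s.r2.facet = s.r2 := h
    have e : (pt s i j).facet = (pt s.r2 (6 - i) (6 - j)).facet := by
      rw [← pt_r2, FSt.facet_r2]
    rw [e, wF_pt h' (by omega) (by omega), eF_pt h' (by omega) (by omega)]
    have e3 : C.sW s.r2 (6 - i) (6 - j) = C.sE s i j := by
      unfold sW
      rw [FSt.r2_r2]
      congr 1 <;> omega
    have e4 : C.sE s.r2 (6 - i) (6 - j) = C.sW s i j := rfl
    rw [e3, e4]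
    exact ⟨e1, e2⟩

/-- the curve runs straight along the south or north side -/
lemma str_pt {s : P.FSt} (h0 : ¬ C.core s.facet) (h : Act C.can s) {S : Bool} (hS : if S then C.ke s.rR else C.ke s.rL)
    (hk : ¬ C.kf s.facet) {i : ℕ} (hi : i ≤ 6) (he : i = 6 → ¬ C.ke s) (hw : i = 0 → ¬ C.ke s.r2) :
    C.wF (pt s i (jb S)).facet = true ∧ C.eF (pt s i (jb S)).facet = true := by
  classical
  refine act_two h hi (jb_le S) ?_ ?_
  · unfold sE
    cases S
    · have hS' : C.ke s.rL := hS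
      by_cases i6 : i = 6
      · simp [hk, i6, he i6, C.keN_NE h0 hS', jb]
      · simp [hk, i6, hS', jb]
    · have hS' : C.ke s.rR := hS
      by_cases i6 : i = 6
      · simp [hk, i6, he i6, C.keS_SE h0 hS', jb]
      · simp [hk, i6, hS', jb]
  · rw [C.sW_eq s hi (jb_le S)]
    cases S
    · have hS' : C.ke s.rL := hS
      by_cases i0 : i = 0
      · simp [hk, i0, hw i0, C.keN_NW h0 hS', jb]
      · simp [hk, i0, hS', jb]
    · have hS' : C.ke s.rR := hS
      by_cases i0 : i = 0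
      · simp [hk, i0, hw i0, C.keS_SW h0 hS', jb]
      · simp [hk, i0, hS', jb]

/-! ## The neighbours of the parts -/

lemma nbr_in_t (s : P.FSt) {i : ℕ} (j : ℕ) (hi : i < 6) : nbr true (pt s i j) = pt s (i + 1) j :=
  pt_stE s j hi

lemma nbr_out_t (s : P.FSt) (j : ℕ) : nbr true (pt s 6 j) = pt (nbr true s) 0 j := pt_stE6 s j

lemma nbr_in_f (s : P.FSt) {i : ℕ} {j : ℕ} (hi : i < 6) (hj : j ≤ 6) :
    nbr false (pt s (i + 1) j) = pt s i j := by
  show (pt s (i + 1) j).r2.stE.r2 = _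
  rw [pt_r2, pt_stE _ _ (by omega), pt_r2, FSt.r2_r2]
  exact pt_congr rfl (by omega) (by omega)

lemma nbr_out_f (s : P.FSt) {j : ℕ} (hj : j ≤ 6) : nbr false (pt s 0 j) = pt (nbr false s) 6 j := by
  show (pt s 0 j).r2.stE.r2 = pt s.r2.stE.r2 6 j
  rw [pt_r2, pt_stE6, pt_r2]
  exact pt_congr rfl (by omega) (by omega)

/-- the facets of the junctions, in the refinement -/
def JF (C : KC0 P) (F : (P.refine 7 h7).Facet) : Prop := ¬ C.core (cf F)

/-- the places of the parts -/
def PlF (Pl : Bool → ℕ → P.FSt → Prop) (m : ℕ) (G : (P.refine 7 h7).FSt) : Prop :=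
  ∃ (S : Bool) (n : ℕ) (g : P.FSt) (i j : ℕ), 0 < n ∧ Pl S n g ∧ i ≤ 6 ∧ j ≤ 6 ∧
    m = 7 * n + j - jb S ∧ G = pt g i (jb S)

/-- the parts whose outer column hangs on the southern neighbour -/
def KF (C : KC0 P) (K : Bool → P.FSt → Prop) (E : Bool) (G : (P.refine 7 h7).FSt) : Prop :=
  sdQ C.canF C.wF C.eF (!E) G = false ∧
    ∃ (s : P.FSt) (j : ℕ), j ≤ 6 ∧ K E s ∧ G = pt s (iE E) j

lemma KF_nc {K : Bool → P.FSt → Prop} (hK : ∀ E s, K E s → ¬ K (!E) s.r2) {E : Bool}
    {G : (P.refine 7 h7).FSt} (h : C.KF K E G) : ¬ C.KF K (!E) G.r2 := by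
  rintro ⟨-, t, j', hj', ht, e⟩
  obtain ⟨-, s, j, hj, hs, rfl⟩ := h
  rw [pt_r2] at e
  obtain ⟨e1, -, -⟩ := pt_inj e (by omega) (by omega) (iE_le _) hj'
  rw [← e1] at ht
  exact hK E s hs ht

lemma fin_pt {S : Bool} {n j : ℕ} (hn : 0 < n) (hj : j ≤ 6) (g : P.FSt) {i : ℕ} (hi : i ≤ 6) :
    (pN ^ (7 * n + j - jb S)) (pt g i (jb S)) = pt ((pN ^ n) g) i j := by
  have hb := jb_le S
  rw [pNb_pt g hi hb]
  have e1 : (7 * n + j - jb S + jb S) / 7 = n := by omega
  have e2 : (7 * n + j - jb S + jb S) % 7 = j := by omega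
  rw [e1, e2]

lemma PlF_uniq {Pl : Bool → ℕ → P.FSt → Prop} {L : P.Facet → Prop}
    (hP : ∀ S n g S' n' g', Pl S n g → Pl S' n' g' → ((pN ^ n) g).facet = ((pN ^ n') g').facet →
      L ((pN ^ n) g).facet → S = S' ∧ n = n' ∧ g = g')
    {m m' : ℕ} {G G' : (P.refine 7 h7).FSt} (h : PlF Pl m G) (h' : PlF Pl m' G')
    (e : ((pN ^ m) G).facet = ((pN ^ m') G').facet) (hL : L (cf ((pN ^ m) G).facet)) :
    m = m' ∧ G = G' := by
  obtain ⟨S, n, g, i, j, hn, h1, hi, hj, rfl, rfl⟩ := h
  obtain ⟨S', n', g', i', j', hn', h1', hi', hj', rfl, rfl⟩ := h'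
  rw [fin_pt hn hj g hi, fin_pt hn' hj' g' hi'] at e
  rw [fin_pt hn hj g hi, cf_pt] at hL
  have e1 : ((pN ^ n) g).facet = ((pN ^ n') g').facet := by
    rw [← cf_pt ((pN ^ n) g) i j, ← cf_pt ((pN ^ n') g') i' j', e]
  obtain ⟨rfl, rfl, rfl⟩ := hP S n g S' n' g' h1 h1' e1 hL
  obtain ⟨rfl, rfl⟩ := pt_injF e hi hj hi' hj'
  exact ⟨rfl, rfl⟩

/-- **The support of the parts of a leaning facet.** -/
theorem sup_pt {L : P.Facet → Prop} {Pl : Bool → ℕ → P.FSt → Prop} {K : Bool → P.FSt → Prop}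
    {S E : Bool} {n : ℕ} (hn : 0 < n) {g : P.FSt}
    (h : SupK (Act C.can) C.kv C.ke C.kf (fun f => ¬ C.core f) L Pl K S E n g) {j : ℕ} (hj : j ≤ 6) :
    SupQ C.canF C.wF C.eF C.JF (fun F => L (cf F)) (PlF Pl) (C.KF K) E (7 * n + j - jb S)
      (pt g (iE E) (jb S)) ∧
    (L ((pN ^ n) g).facet → ∀ i ≤ 6, SupQ C.canF C.wF C.eF C.JF (fun F => L (cf F))
      (PlF Pl) (C.KF K) E (7 * n + j - jb S) (pt g i (jb S))) := by
  have hb := jb_le S
  induction h with
  | reg g h1 h2 h3 h4 h5 h6 =>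
    refine ⟨?_, fun h => absurd h (h1 n le_rfl).2.2⟩
    refine SupQ.reg _ ?_ ?_ ?_
    · intro y hy
      obtain ⟨a, b, c⟩ := h1 ((y + jb S) / 7) (by omega)
      rw [pNb_pt g (iE_le E) hb]
      refine ⟨act_canP a (iE_le E) (by omega), ?_, ?_⟩
      · show ¬ C.core (cf _)
        rw [cf_pt]; exact b
      · show ¬ L (cf _)
        rw [cf_pt]; exact c
    · intro y hy hy0
      rw [pNb_pt g (iE_le E) hb]
      obtain ⟨a, b, c⟩ := h1 ((y + jb S) / 7) (by omega)
      have hs : sdQ C.canF C.wF C.eF (!E) (pt ((pN ^ ((y + jb S) / 7)) g) (iE E)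
          ((y + jb S) % 7)) = false := by
        rw [sd_out a (by omega)]
        rcases Nat.eq_zero_or_pos ((y + jb S) / 7) with hq | hq
        · rw [hq, pow_zero, Equiv.Perm.coe_one, id_eq]
          cases S
          · have e : jb false = 6 := rfl
            omega
          · exact no_sdN h3.2 (by omega) (by omega)
        · exact no_sd (h2 _ (by omega) hq) (by omega)
      refine ⟨hs, hs, _, _, by omega, h6 _ (by omega) ?_, rfl⟩
      intro e
      subst e
      have e : jb false = 6 := rfl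
      omega
    · obtain ⟨a, a0, -⟩ := h1 0 (Nat.zero_le _)
      rw [pow_zero, Equiv.Perm.coe_one, id_eq] at a a0
      refine str_pt a0 a ?_ h4 (iE_le E) ?_ ?_
      · cases S
        · exact h3
        · exact h3.1
      · intro e
        cases E
        · exact h5
        · exact absurd e (by decide)
      · intro e
        cases E
        · exact absurd e (by decide)
        · exact h5
  | lean g h1 h2 h3 h4 h5 h6 h7 ih =>
    obtain ⟨k1, k2, k3, k4⟩ := h3
    have key : ∀ i ≤ 6, SupQ C.canF C.wF C.eF C.JF (fun F => L (cf F)) (PlF Pl) (C.KF K) E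
        (7 * n + j - jb S) (nbr E (pt g i (jb S))) → SupQ C.canF C.wF C.eF C.JF
        (fun F => L (cf F)) (PlF Pl) (C.KF K) E (7 * n + j - jb S) (pt g i (jb S)) := by
      intro i hi hs
      refine SupQ.lean _ (act_canP h1 hi hb) ?_ (str_pt h2 h1 k1 k4 hi (fun _ => k2) (fun _ => k3))
        ?_ ?_ ?_ hs
      · show ¬ C.core (cf _)
        rw [cf_pt]; exact h2
      · show L (cf _)
        rw [fin_pt hn hj g hi, cf_pt]; exact h4
      · exact ⟨S, n, g, i, j, hn, h5, hi, hj, rfl, rfl⟩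
      · intro y hy
        rw [pNb_pt g hi hb]
        have h8 := h6 ((y + jb S) / 7) (by omega)
        cases E
        · rcases Nat.eq_zero_or_pos i with rfl | h0
          · rw [nbr_out_f _ (by omega), nbr_out_f _ hb, pNb_pt _ (by omega) hb, h8]
          · obtain ⟨q, rfl⟩ : ∃ q, i = q + 1 := ⟨i - 1, by omega⟩
            rw [nbr_in_f _ (by omega) (by omega), nbr_in_f _ (by omega) hb,
              pNb_pt _ (by omega) hb]
        · by_cases h9 : i < 6
          · rw [nbr_in_t _ _ h9, nbr_in_t _ _ h9, pNb_pt _ (by omega) hb]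
          · obtain rfl : i = 6 := by omega
            rw [nbr_out_t, nbr_out_t, pNb_pt _ (by omega) hb, h8]
    have all : ∀ i ≤ 6, SupQ C.canF C.wF C.eF C.JF (fun F => L (cf F)) (PlF Pl) (C.KF K) E
        (7 * n + j - jb S) (pt g i (jb S)) := by
      cases E
      · intro i
        induction i with
        | zero =>
          intro _
          refine key 0 (by omega) ?_
          rw [nbr_out_f _ hb]
          exact ih.1
        | succ i ihi =>
          intro hi
          refine key (i + 1) hi ?_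
          rw [nbr_in_f _ (by omega) hb]
          exact ihi (by omega)
      · have : ∀ t i, i + t = 6 → SupQ C.canF C.wF C.eF C.JF
            (fun F => L (cf F)) (PlF Pl) (C.KF K) true (7 * n + j - jb S) (pt g i (jb S)) := by
          intro t
          induction t with
          | zero =>
            intro i hi
            obtain rfl : i = 6 := by omega
            refine key 6 le_rfl ?_
            rw [nbr_out_t]
            exact ih.1
          | succ t iht =>
            intro i hi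
            refine key i (by omega) ?_
            rw [nbr_in_t _ _ (by omega)]
            exact iht (i + 1) (by omega)
        intro i hi
        exact this (6 - i) i (by omega)
    exact ⟨all _ (iE_le E), fun _ => all⟩

end KC0

end Pool.Agent.MP42K
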