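import Pool.Agent.MP42.K.Port4

/-!
# Surgery of the curve (owner helper18)

The curve of `N'` arises from the curve of `N`: the darts `O` are replaced by the darts `C`.

* `Loc`: the rules of `GS` at one dart; `GS.loc`, `GS.of_loc`;
* `GS.surg`: the rules after a surgery;
* `Nb.one_surg`: one curve stays one curve;
* `Nb.addF`: add closed facets.
-/

set_option autoImplicit false
set_option linter.unusedSectionVars false

namespace Pool.Agent.MP42K

open Pool.Agent.Helper55.UNF Pool.Agent.Helper55.UNF.GridSolid Pool.Agent.MP42G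
open Pool.Agent.MP42H Pool.Agent.MP42X Pool.Agent.MP42R
open Core1 (jf)
open Nb (SC SC_rot_right SC_rot_left SC_rev rev_rot rot)

variable {P : GridSolid}

open Classical in
/-- the change of the heading after the dart `s` -/
noncomputable def Nb.dl (N : Nb P) (s : P.FSt) : ℤ :=
  (if N.ke s then -1 else 0) + (if N.ke (N.nx s) then 0 else 1)

/-- the rules of `GS` at the dart `s` -/
structure Loc (J : P.Facet → Prop) (N : Nb P) (V : P.FSt → Prop) (Hi Ho : P.FSt → ℤ)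
    (Op : P.FSt → Prop) (s : P.FSt) : Prop where
  nxt : J (N.nx s).facet → Hi (N.nx s) = Ho s + N.dl s
  io : J s.facet → ¬ Op s → Hi s = Ho s ∧ -1 ≤ Ho s ∧ Ho s ≤ 1
  ke : J s.facet → N.ke s → (V s ↔ Ho s ≠ 0)
  x : J s.facet → ¬ N.ke s → ¬ Op s → (V s ↔ Ho s = 0)
  x' : ¬ N.ke s → J s.stE.facet → ¬ Op s → -1 ≤ Ho s ∧ Ho s ≤ 1 ∧ (V s.stE.rL ↔ Ho s ≠ 0)
  op : Op s → Port J N V s (Hi s - 1) (Ho s + 1)

section

variable {J : P.Facet → Prop} {N N' : Nb P} {V V' : P.FSt → Prop} {Hi Ho Hi' Ho' : P.FSt → ℤ}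
  {Op Op' : P.FSt → Prop}

lemma ke_pre (N : Nb P) (t : P.FSt) : N.ke (pre t) ↔ N.ke t.rL := N.ke_rev t.rL

lemma kv_pre (N : Nb P) (t : P.FSt) : N.kv (pre t) ↔ N.kv t := by
  have h := N.kv_rot (pre t)
  rw [pre_rot] at h
  exact h.symm

theorem GS.loc (h : GS J N V Hi Ho Op) {s : P.FSt} (hs : N.Dt s) : Loc J N V Hi Ho Op s := by
  classical
  constructor
  · intro hJ
    by_cases hk : N.ke s
    · rw [Nb.nx_ke hk] at hJ ⊢
      unfold Nb.dl
      rw [if_pos hk, Nb.nx_ke hk]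
      by_cases hk' : N.ke s.rR
      · rw [if_pos hk', h.r1 s hJ hs.2 hk hk']; ring
      · rw [if_neg hk', h.r2 s hJ hs.2 hk hk']; ring
    · rw [Nb.nx_nke hk] at hJ ⊢
      unfold Nb.dl
      rw [if_neg hk, Nb.nx_nke hk]
      have hkv : N.kv s.stE.rL := (N.kv_rot s).2 hs.1
      have hkL : ¬ N.ke s.stE.rL.rL := by
        rw [FSt.rL_rL]; exact fun hc => hk ((N.ke_rev s).1 hc)
      by_cases hk' : N.ke s.stE.rL
      · rw [if_pos hk', h.r3 _ hJ hkv hkL hk', pre_of_rot]; ring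
      · rw [if_neg hk', h.r4 _ hJ hkv hkL hk', pre_of_rot]; ring
  · intro hJ ho
    exact ⟨h.io s hJ hs.2 hs.1 ho, h.hb s hJ hs.2 hs.1 ho⟩
  · intro hJ hk
    exact h.vr s hJ hs.2 hk
  · intro hJ hk ho
    exact h.vx s hJ hs.1 hk ho
  · intro hk hJ ho
    have hkv : N.kv s.stE.rL := (N.kv_rot s).2 hs.1
    have hkL : ¬ N.ke s.stE.rL.rL := by
      rw [FSt.rL_rL]; exact fun hc => hk ((N.ke_rev s).1 hc)
    have h1 := h.hb' s.stE.rL hJ hkv hkL (by rw [pre_of_rot]; exact ho)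
    have h2 := h.vx' s.stE.rL hJ hkv hkL (by rw [pre_of_rot]; exact ho)
    rw [pre_of_rot] at h1 h2
    exact ⟨h1.1, h1.2, h2⟩
  · exact h.op s

theorem GS.of_loc (hV : ∀ s : P.FSt, J s.facet → (V s.rR ↔ ¬ V s))
    (hO : ∀ t, Op t → N.Dt t) (h : ∀ s, N.Dt s → Loc J N V Hi Ho Op s) :
    GS J N V Hi Ho Op := by
  classical
  have pt : ∀ t, N.kv t → ¬ N.ke t.rL → N.Dt (pre t) ∧ ¬ N.ke (pre t) := by
    intro t ht hk
    have h1 : ¬ N.ke (pre t) := fun hc => hk ((ke_pre N t).1 hc)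
    exact ⟨⟨(kv_pre N t).2 ht, Nb.nkf_of_nke h1⟩, h1⟩
  constructor
  · exact hV
  · intro s hJ hf hk hk'
    have h1 := (h s ⟨N.ke_kv s hk, hf⟩).nxt
    unfold Nb.dl at h1
    rw [Nb.nx_ke hk, if_pos hk, if_pos hk'] at h1
    rw [h1 hJ]; ring
  · intro s hJ hf hk hk'
    have h1 := (h s ⟨N.ke_kv s hk, hf⟩).nxt
    unfold Nb.dl at h1
    rw [Nb.nx_ke hk, if_pos hk, if_neg hk'] at h1
    rw [h1 hJ]; ring
  · intro t hJ hk hkL hk'
    obtain ⟨h0, hp⟩ := pt t hk hkL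
    have h1 := (h _ h0).nxt
    unfold Nb.dl at h1
    rw [Nb.nx_nke hp, pre_rot, if_neg hp, if_pos hk'] at h1
    rw [h1 hJ]; ring
  · intro t hJ hk hkL hk'
    obtain ⟨h0, hp⟩ := pt t hk hkL
    have h1 := (h _ h0).nxt
    unfold Nb.dl at h1
    rw [Nb.nx_nke hp, pre_rot, if_neg hp, if_neg hk'] at h1
    rw [h1 hJ]; ring
  · intro s hJ hf hk ho
    exact ((h s ⟨hk, hf⟩).io hJ ho).1
  · intro s hJ hf hk ho
    exact ((h s ⟨hk, hf⟩).io hJ ho).2
  · intro t hJ hk hkL ho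
    obtain ⟨h0, hp⟩ := pt t hk hkL
    have h1 := (h _ h0).x' hp (by
      have h2 : (pre t).stE.rL.facet = t.facet := by rw [pre_rot]
      exact h2.symm ▸ hJ) ho
    exact ⟨h1.1, h1.2.1⟩
  · intro s hJ hf hk
    exact (h s ⟨N.ke_kv s hk, hf⟩).ke hJ hk
  · intro s hJ hk he ho
    exact (h s ⟨hk, Nb.nkf_of_nke he⟩).x hJ he ho
  · intro t hJ hk hkL ho
    obtain ⟨h0, hp⟩ := pt t hk hkL
    have h1 := (h _ h0).x' hp (by
      have h2 : (pre t).stE.rL.facet = t.facet := by rw [pre_rot]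
      exact h2.symm ▸ hJ) ho
    rw [pre_rot] at h1
    exact h1.2.2
  · intro t ht
    exact (h t (hO t ht)).op ht

/-- The combinatorics of a surgery: `O` old darts, `C` new darts. -/
structure Sg (N N' : Nb P) (O C : P.FSt → Prop) : Prop where
  D : ∀ s, N'.Dt s ↔ (N.Dt s ∧ ¬ O s) ∨ C s
  CO : ∀ s, C s → N.Dt s → O s
  ke : ∀ s, N.Dt s → ¬ O s → (N'.ke s ↔ N.ke s)

namespace Sg

variable {O C : P.FSt → Prop} (S : Sg N N' O C)

include S

lemma nx {s : P.FSt} (h : N.Dt s) (h' : ¬ O s) : N'.nx s = N.nx s := by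
  have h1 := S.ke s h h'
  by_cases hk : N.ke s
  · rw [Nb.nx_ke hk, Nb.nx_ke (h1.2 hk)]
  · rw [Nb.nx_nke hk, Nb.nx_nke (fun hc => hk (h1.1 hc))]

lemma Dt {s : P.FSt} (h : N.Dt s) (h' : ¬ O s) : N'.Dt s := (S.D s).2 (Or.inl ⟨h, h'⟩)

lemma Dt' {s : P.FSt} (h : C s) : N'.Dt s := (S.D s).2 (Or.inr h)

/-- entering the old segment is entering the new segment -/
lemma enter {s : P.FSt} (h : N.Dt s) (h' : ¬ O s) (h2 : O (N.nx s)) : C (N.nx s) := by
  have h3 := (S.Dt h h').nx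
  rw [S.nx h h'] at h3
  rcases (S.D _).1 h3 with h4 | h4
  · exact absurd h2 h4.2
  · exact h4

end Sg

/-- **The rules after a surgery.** -/
theorem GS.surg (h : GS J N V Hi Ho Op) {O C : P.FSt → Prop} (S : Sg N N' O C)
    (hV : ∀ s : P.FSt, J s.facet → (V' s.rR ↔ ¬ V' s))
    (hv : ∀ s, N.Dt s → ¬ O s → Hi' s = Hi s ∧ Ho' s = Ho s ∧ (Op' s ↔ Op s) ∧
      (J s.facet → (V' s ↔ V s)) ∧ (¬ N.ke s → J s.stE.facet → (V' s.stE.rL ↔ V s.stE.rL)))
    (hin : ∀ s, N.Dt s → ¬ O s → O (N.nx s) → J (N.nx s).facet →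
      Hi' (N.nx s) = Ho s + N'.dl s)
    (hC : ∀ s, C s → Loc J N' V' Hi' Ho' Op' s)
    (hO : ∀ t, Op' t → N'.Dt t) : GS J N' V' Hi' Ho' Op' := by
  classical
  refine GS.of_loc hV hO ?_
  intro s hs
  rcases (S.D s).1 hs with ⟨h1, h2⟩ | h1
  swap
  · exact hC s h1
  · have hL := h.loc h1
    obtain ⟨v1, v2, v3, v4, v5⟩ := hv s h1 h2
    have hk := S.ke s h1 h2
    have hn := S.nx h1 h2
    constructor
    · intro hJ
      rw [hn] at hJ ⊢
      rw [v2]
      by_cases hO1 : O (N.nx s)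
      · exact hin s h1 h2 hO1 hJ
      · rw [(hv _ h1.nx hO1).1, hL.nxt hJ]
        have hk2 := S.ke _ h1.nx hO1
        unfold Nb.dl
        rw [hn]
        simp only [hk, hk2]
    · intro hJ ho
      rw [v1, v2]
      exact hL.io hJ (fun hc => ho (v3.2 hc))
    · intro hJ hk'
      rw [v2, v4 hJ]
      exact hL.ke hJ (hk.1 hk')
    · intro hJ hk' ho
      rw [v2, v4 hJ]
      exact hL.x hJ (fun hc => hk' (hk.2 hc)) (fun hc => ho (v3.2 hc))
    · intro hk' hJ ho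
      have hk'' : ¬ N.ke s := fun hc => hk' (hk.2 hc)
      rw [v2, v5 hk'' hJ]
      exact hL.x' hk'' hJ (fun hc => ho (v3.2 hc))
    · intro ho
      obtain ⟨q1, q2, q3, q4, q5, q6, q7, q8, q9, q10⟩ := hL.op (v3.1 ho)
      rw [v1, v2]
      refine ⟨hs.1, fun hc => q2 (hk.1 hc), q3, q4, q5, q6, q7, q8, ?_, ?_⟩
      · rw [v4 q3]; exact q9
      · have e1 := V_rL hV (s := s.stE) q4
        have e2 := V_rL h.V_rR (s := s.stE) q4
        have e3 := v5 q2 q4
        rw [← q10]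
        rw [e1, e2] at e3
        exact not_iff_not.1 e3

/-- **One curve stays one curve.** -/
theorem Nb.one_surg (h : ∀ s t, N.Dt s → N.Dt t → N.E s t) {O C : P.FSt → Prop}
    (S : Sg N N' O C) {c₀ : P.FSt} (hc0 : C c₀) (hd0 : N.Dt c₀)
    (hCc : ∀ cv, N'.Inv cv → ∀ s, C s → (cv c₀ ↔ cv s))
    (hout : ∀ s, N.Dt s → O s → ¬ O (N.nx s) → ∃ c, C c ∧ N'.nx c = N.nx s) :
    ∀ s t, N'.Dt s → N'.Dt t → N'.E s t := by
  classical
  have key : ∀ cv, N'.Inv cv → ∀ s, N'.Dt s → (cv c₀ ↔ cv s) := by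
    intro cv hc s hs
    rcases (S.D s).1 hs with ⟨h1, h2⟩ | h1
    swap
    · exact hCc cv hc s h1
    · set cw : P.FSt → Prop := fun s => if O s then cv c₀ else cv s with hcw
      have hnx : ∀ s, N.Dt s → (cw s ↔ cw (N.nx s)) := by
        intro s hs
        by_cases hO1 : O s
        · by_cases hO2 : O (N.nx s)
          · simp only [hcw, if_pos hO1, if_pos hO2]
          · simp only [hcw, if_pos hO1, if_neg hO2]
            obtain ⟨c, hc1, hc2⟩ := hout s hs hO1 hO2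
            rw [hCc cv hc c hc1, ← hc2]
            exact hc.nx (S.Dt' hc1)
        · by_cases hO2 : O (N.nx s)
          · simp only [hcw, if_neg hO1, if_pos hO2]
            rw [hCc cv hc _ (S.enter hs hO1 hO2), ← S.nx hs hO1]
            exact hc.nx (S.Dt hs hO1)
          · simp only [hcw, if_neg hO1, if_neg hO2]
            rw [← S.nx hs hO1]
            exact hc.nx (S.Dt hs hO1)
      have hI : N.Inv cw := by
        constructor
        · intro s hk he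
          have h3 := hnx s ⟨hk, Nb.nkf_of_nke he⟩
          rwa [Nb.nx_nke he] at h3
        · intro s hf he
          have h3 := hnx s ⟨N.ke_kv s he, hf⟩
          rwa [Nb.nx_ke he] at h3
      have h3 := h c₀ s hd0 h1 cw hI
      have h4 : O c₀ := S.CO _ hc0 hd0
      simp only [hcw, if_pos h4, if_neg h2] at h3
      exact h3
  intro s t hs ht cv hc
  exact (key cv hc s hs).symm.trans (key cv hc t ht)

end

/-! ## Adding closed facets -/

/-- add the closed facets `G` -/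
def Nb.addF (N : Nb P) (G : P.Facet → Prop) : Nb P where
  kv s := N.kv s ∨ ∃ t, SC t s ∧ G t.facet
  ke s := N.ke s ∨ G s.facet ∨ G s.stE.facet
  kf f := N.kf f ∨ G f
  kv_rot s := by
    rw [N.kv_rot]
    simp only [SC_rot_right]
  ke_rev s := by
    rw [N.ke_rev, FSt.stE_inv, FSt.facet_r2, FSt.facet_r2]
    tauto
  ke_kv s := by
    rintro (h | h | h)
    · exact Or.inl (N.ke_kv s h)
    · exact Or.inr ⟨s, SC.refl s, h⟩
    · exact Or.inr ⟨s.stE.rL, (SC_rot_left s s).2 (SC.refl s), h⟩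
  kf_ke s := by
    rintro (h | h)
    · exact Or.inl (N.kf_ke s h)
    · exact Or.inr (Or.inl h)

end Pool.Agent.MP42K
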