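import Pool.Agent.MP42.K.LeF
import Pool.Agent.MP42.K.QLng

/-!
# `KC0 P → QXL (P.refine 7)`
-/

set_option autoImplicit false
set_option linter.unusedSectionVars false

namespace Pool.Agent.MP42K

open Pool.Agent.Helper55.UNF Pool.Agent.Helper55.UNF.GridSolid Pool.Agent.MP42G
open Pool.Agent.MP42H Pool.Agent.MP42X Pool.Agent.MP42R

variable {P : GridSolid}

lemma pEz_pt (r : P.FSt) {i c : ℕ} (j : ℕ) (hi : i ≤ 6) (hc : c ≤ 6) (q : ℤ) :
    (pE ^ (7 * q + c - i : ℤ)) (pt r i j) = pt ((pE ^ q) r) c j := by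
  by_cases h : 0 ≤ 7 * q + c - i
  · obtain ⟨n, rfl⟩ : ∃ n : ℕ, q = n := ⟨q.toNat, by omega⟩
    obtain ⟨M, hM⟩ : ∃ M : ℕ, (7 * (n : ℤ) + c - i) = M := ⟨(7 * (n : ℤ) + c - i).toNat, by omega⟩
    rw [hM, zpow_natCast, zpow_natCast]
    exact pEpow_pt r j n i c hi hc M (by omega)
  · obtain ⟨n, rfl⟩ : ∃ n : ℕ, q = -(n : ℤ) := ⟨(-q).toNat, by omega⟩
    obtain ⟨M, hM⟩ : ∃ M : ℕ, (7 * (-(n : ℤ)) + c - i) = -(M : ℤ) :=
      ⟨(-(7 * (-(n : ℤ)) + c - i)).toNat, by omega⟩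
    rw [hM, zpow_neg, zpow_neg, zpow_natCast, zpow_natCast, ← inv_pow, ← inv_pow]
    exact pEspow_pt r j n i c hi hc M (by omega)

lemma pEy_pt (r : P.FSt) {i : ℕ} (j : ℕ) (hi : i ≤ 6) (y : ℤ) :
    ∃ (q : ℤ) (c : ℕ), c ≤ 6 ∧ y + i = 7 * q + c ∧ (pE ^ y) (pt r i j) = pt ((pE ^ q) r) c j := by
  refine ⟨(y + i) / 7, ((y + i) % 7).toNat, by omega, by omega, ?_⟩
  have h := pEz_pt r j hi (c := ((y + i) % 7).toNat) (by omega) ((y + i) / 7)
  rw [← h]
  congr 2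
  omega

namespace KC0

variable {C : KC0 P}

lemma cycz (r : P.FSt) (y : ℤ) : pE.SameCycle r ((pE ^ y) r) := ⟨y, rfl⟩

lemma TU.turned {r : P.FSt} (h : C.TU r) : Turned C.can r := by
  obtain ⟨-, z, h1, -⟩ := h
  have := (h1 0 Set.left_mem_uIcc).1
  simpa using this

lemma TU.not_land {r : P.FSt} (h : C.TU r) : ¬ Land C.kv C.ke C.lin C.lout r := by
  obtain ⟨-, z, h1, -⟩ := h
  have := (h1 0 Set.left_mem_uIcc).2
  simpa using this

lemma TU_0 {r : P.FSt} (hr : C.Rim r) (ht : C.tr r)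
    (h : (St C.kv C.ke r ∧ C.lin r = Ln.z) ∨ (En C.kv C.ke r ∧ C.lout r = Ln.z)) : C.TU r := by
  refine ⟨ht, 0, ?_, by simpa using h⟩
  intro y hy
  have hy0 : y = 0 := by
    rw [Set.mem_uIcc] at hy
    omega
  subst hy0
  simp only [zpow_zero, Equiv.Perm.coe_one, id_eq]
  have e1 : (pE.symm r).stE = r := pE_symm_stE r
  refine ⟨?_, ?_⟩
  · rcases h with ⟨h1, h2⟩ | ⟨h1, h2⟩
    · exact st_turned hr h1 h2
    · exact en_turned hr h1 h2
  · rintro (⟨h1, h2⟩ | ⟨h1, h2⟩)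
    · rcases h with ⟨h3, h4⟩ | ⟨h3, h4⟩
      · have hW : C.Rim (pE.symm r) := Core1.Rim.W _ hr
        have hcy : pE.SameCycle r (pE.symm r) := ⟨-1, by simp⟩
        have h5 := C.arc (pE.symm r) hW ((tr_cyc hr hcy).2 ht) (Or.inl ⟨by
          rw [lin_cyc hr hcy]; exact h4, by rw [lout_cyc hr hcy]; exact h2⟩) h1
        rw [e1] at h5
        exact h3.2 h5
      · rw [h2] at h4; exact absurd h4 (by decide)
    · rcases h with ⟨h3, h4⟩ | ⟨h3, h4⟩
      · rw [h2] at h4; exact absurd h4 (by decide)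
      · have h5 := C.arc r hr ht (Or.inr ⟨h2, h4⟩) h3
        exact h1.2 h5

lemma TU.run {r : P.FSt} (hr : C.Rim r) (h : C.TU r) :
    ∃ z : ℤ, (∀ y ∈ Set.uIcc 0 z, C.TU ((pE ^ y) r)) ∧
      ((St C.kv C.ke ((pE ^ z) r) ∧ C.lin r = Ln.z) ∨
        (En C.kv C.ke ((pE ^ z) r) ∧ C.lout r = Ln.z)) := by
  obtain ⟨ht, z, h1, h2⟩ := h
  refine ⟨z, fun y hy => ⟨(tr_cyc hr (cycz r y)).2 ht, z - y, fun y' hy' => ?_, ?_⟩, h2⟩
  · have e : (pE ^ y') ((pE ^ y) r) = (pE ^ (y' + y)) r := by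
      rw [zpow_add, Equiv.Perm.mul_apply]
    rw [e]
    apply h1
    rw [Set.mem_uIcc] at hy hy' ⊢
    omega
  · have e : (pE ^ (z - y)) ((pE ^ y) r) = (pE ^ z) r := by
      rw [← Equiv.Perm.mul_apply, ← zpow_add, sub_add_cancel]
    rw [e, lin_cyc hr (cycz r y), lout_cyc hr (cycz r y)]
    exact h2

/-- the fields of `QX` about the turned facets -/
lemma tu_covF {r : P.FSt} (hr : C.Rim r) {i : ℕ} (hi : i ≤ 6) (h : C.tuF (pt r i 0)) :
    C.trF (pt r i 0) ∧ ∃ z : ℤ, (∀ y ∈ Set.uIcc 0 z, C.tuF ((pE ^ y) (pt r i 0))) ∧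
    ((C.g1F ((pE ^ z) (pt r i 0)) ∧ C.z1F (pt r i 0) = true) ∨
      (C.g2F ((pE ^ z) (pt r i 0)) ∧ C.z2F (pt r i 0) = true)) := by
  unfold tuF at h
  rw [cs_pt] at h
  have ht := h.1
  obtain ⟨z, h1, h2⟩ := TU.run hr h
  refine ⟨by unfold trF; rw [cs_pt]; exact ht, ?_⟩
  -- the foot
  obtain ⟨c, hc, h3⟩ : ∃ c ≤ 6, (c = 0 ∧ St C.kv C.ke ((pE ^ z) r) ∧
      C.lin ((pE ^ z) r) = Ln.z) ∨ (c = 6 ∧ En C.kv C.ke ((pE ^ z) r) ∧
      C.lout ((pE ^ z) r) = Ln.z) := by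
    rw [lin_cyc hr (cycz r z), lout_cyc hr (cycz r z)]
    rcases h2 with h2 | h2
    · exact ⟨0, by omega, Or.inl ⟨rfl, h2⟩⟩
    · exact ⟨6, le_rfl, Or.inr ⟨rfl, h2⟩⟩
  have hrz : C.Rim ((pE ^ z) r) := Core1.Rim.same _ hr (cycz r z)
  have h4 := (zz_iff hrz ((tr_cyc hr (cycz r z)).2 ht) hc 0).2 h3
  have e1 : C.z1F (pt ((pE ^ z) r) c 0) = C.z1F (pt r i 0) := by
    unfold z1F; rw [cs_pt, cs_pt, lin_cyc hr (cycz r z), lout_cyc hr (cycz r z)]
  have e2 : C.z2F (pt ((pE ^ z) r) c 0) = C.z2F (pt r i 0) := by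
    unfold z2F; rw [cs_pt, cs_pt, lin_cyc hr (cycz r z), lout_cyc hr (cycz r z)]
  refine ⟨7 * z + c - i, ?_, ?_⟩
  · intro y hy
    obtain ⟨q, c', hc', e, hq⟩ := pEy_pt r 0 hi y
    rw [hq]
    unfold tuF
    rw [cs_pt]
    apply h1
    rw [Set.mem_uIcc] at hy ⊢
    omega
  · rw [pEz_pt r 0 hi hc z, ← e1, ← e2]
    exact h4

lemma tu_shF {r : P.FSt} (hr : C.Rim r) (ht : C.tr r) {i : ℕ} (hi : i ≤ 6)
    (h : (C.z1F (pt r i 0) = false ∧ shf C.z1F C.ngF C.g1F (pt r i 0)) ∨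
      (C.z2F (pt r i 0) = false ∧ shf C.z2F C.ngF C.g2F (pt r i 0))) : ¬ C.tuF (pt r i 0) := by
  unfold tuF
  rw [cs_pt]
  intro hT
  by_cases hn : C.ngF (pt r i 0) = true
  · -- to the west
    have h1 : (C.z1F (pt r i 0) = false ∧ C.g1F (pt r i 0).stE) ∨
        (C.z2F (pt r i 0) = false ∧ C.g2F (pt r i 0).stE) := by
      rcases h with ⟨h1, h2⟩ | ⟨h1, h2⟩
      · unfold shf at h2
        rw [if_neg (by rw [h1]; decide), if_pos hn] at h2
        exact Or.inl ⟨h1, h2⟩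
      · unfold shf at h2
        rw [if_neg (by rw [h1]; decide), if_pos hn] at h2
        exact Or.inr ⟨h1, h2⟩
    rw [← z1F_E hr hi 0, ← z2F_E hr hi 0] at h1
    by_cases h6 : i < 6
    · rw [pt_stE r 0 h6] at h1
      have h2 := (nz_iff hr ht (i := i + 1) (by omega) 0).1 (by tauto)
      rcases h2 with ⟨h3, -⟩ | ⟨h3, h4, h5⟩
      · omega
      · exact C.not_both (en_straight hr h4 h5).1 hT.turned
    · obtain rfl : i = 6 := by omega
      rw [pt_stE6] at h1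
      have hrE : C.Rim r.stE := Core1.Rim.E _ hr
      have h2 := (nz_iff hrE ((C.tr_E r hr).2 ht) (i := 0) (by omega) 0).1 (by tauto)
      rcases h2 with ⟨-, h4, h5⟩ | ⟨h3, -⟩
      · apply hT.not_land
        refine Or.inr ⟨h4, ?_⟩
        rw [C.lin_E r hr] at h5
        have h6 := flet_lin hr ht h5
        unfold ngF at hn
        rw [cs_pt] at hn
        rw [hn] at h6
        exact h6.symm
      · omega
  · -- to the east
    have hn' : C.ngF (pt r i 0) = false := by simpa using hn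
    have h1 : (C.z1F (pt r i 0) = false ∧ C.g1F (pE.symm (pt r i 0))) ∨
        (C.z2F (pt r i 0) = false ∧ C.g2F (pE.symm (pt r i 0))) := by
      rcases h with ⟨h1, h2⟩ | ⟨h1, h2⟩
      · unfold shf at h2
        rw [if_neg (by rw [h1]; decide), if_neg hn] at h2
        exact Or.inl ⟨h1, h2⟩
      · unfold shf at h2
        rw [if_neg (by rw [h1]; decide), if_neg hn] at h2
        exact Or.inr ⟨h1, h2⟩
    by_cases h6 : i = 0
    · subst h6
      rw [pEs_pt0] at h1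
      have hrW : C.Rim (pE.symm r) := Core1.Rim.W _ hr
      have hcy : pE.SameCycle r (pE.symm r) := ⟨-1, by simp⟩
      have e1 : C.z1F (pt r 0 0) = C.z1F (pt (pE.symm r) 6 0) := by
        unfold z1F; rw [cs_pt, cs_pt, lin_cyc hr hcy, lout_cyc hr hcy]
      have e2 : C.z2F (pt r 0 0) = C.z2F (pt (pE.symm r) 6 0) := by
        unfold z2F; rw [cs_pt, cs_pt, lin_cyc hr hcy, lout_cyc hr hcy]
      rw [e1, e2] at h1
      have h2 := (nz_iff hrW ((tr_cyc hr hcy).2 ht) (i := 6) (by omega) 0).1 (by tauto)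
      rcases h2 with ⟨h3, -⟩ | ⟨-, h4, h5⟩
      · omega
      · apply hT.not_land
        refine Or.inl ⟨h4, ?_⟩
        rw [lout_cyc hr hcy] at h5
        have h6 := flet_lout hr ht h5
        unfold ngF at hn'
        rw [cs_pt] at hn'
        rw [hn'] at h6
        exact h6.symm
    · obtain ⟨i, rfl⟩ : ∃ i', i = i' + 1 := ⟨i - 1, by omega⟩
      rw [pEs_pt _ _ (by omega)] at h1
      have e1 : C.z1F (pt r (i + 1) 0) = C.z1F (pt r i 0) := by
        unfold z1F; rw [cs_pt, cs_pt]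
      have e2 : C.z2F (pt r (i + 1) 0) = C.z2F (pt r i 0) := by
        unfold z2F; rw [cs_pt, cs_pt]
      rw [e1, e2] at h1
      have h2 := (nz_iff hr ht (i := i) (by omega) 0).1 (by tauto)
      rcases h2 with ⟨h3, h4, h5⟩ | ⟨h3, -⟩
      · exact C.not_both (st_straight hr h4 h5).1 hT.turned
      · omega

/-- the distance of the feet -/
lemma arcF {r : P.FSt} (hr : C.Rim r) (ht : C.tr r) {i : ℕ} (hi : i ≤ 6)
    (h : C.g1F (pt r i 0)) : ∀ n ≤ 3, ¬ C.g2F ((dir (C.ngF (pt r i 0)) ^ n) (pt r i 0)) := by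
  intro n hn
  unfold g1F at h
  rw [cs_pt, sF_pt hi, nF_pt hi] at h
  unfold ngF dir
  rw [cs_pt]
  have ha := C.adm r hr ht
  have hcW : pE.SameCycle r (pE.symm r) := ⟨-1, by simp⟩
  have hcE : pE.SameCycle r r.stE := ⟨1, rfl⟩
  by_cases hs : s1 (C.lin r) (C.lout r) = true
  · rw [if_pos hs] at h
    obtain ⟨rfl, h⟩ := h
    by_cases hg : ngL (C.lin r) (C.lout r) = true
    · rw [if_pos hg]
      have hl : C.lin r = Ln.s ∧ C.lout r = Ln.z := by
        generalize C.lin r = a at *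
        generalize C.lout r = b at *
        cases a <;> cases b <;> simp_all [s1, ngL]
      by_cases hn0 : n = 0
      · subst hn0
        unfold g2F
        rw [pow_zero, Equiv.Perm.coe_one, id_eq, cs_pt, if_pos hs, nF_pt (by omega)]
        omega
      · rw [pEspow_pt r 0 1 0 (7 - n) (by omega) (by omega) n (by omega), pow_one]
        unfold g2F
        rw [cs_pt, lin_cyc hr hcW, lout_cyc hr hcW, if_pos hs, nF_pt (by omega)]
        rintro ⟨-, h2⟩
        have h3 := C.arc (pE.symm r) (Core1.Rim.W _ hr) ((tr_cyc hr hcW).2 ht)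
          (Or.inr ⟨by rw [lin_cyc hr hcW]; exact hl.1, by rw [lout_cyc hr hcW]; exact hl.2⟩) h2
        rw [pE_symm_stE] at h3
        exact h.2 h3
    · rw [if_neg hg]
      rw [pEpow_pt r 0 0 0 n (by omega) (by omega) n (by omega), pow_zero,
        Equiv.Perm.coe_one, id_eq]
      unfold g2F
      rw [cs_pt, if_pos hs, nF_pt (by omega)]
      omega
  · rw [if_neg hs] at h
    obtain ⟨rfl, h⟩ := h
    by_cases hg : ngL (C.lin r) (C.lout r) = true
    · rw [if_pos hg]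
      rw [pEspow_pt r 0 0 6 (6 - n) (by omega) (by omega) n (by omega), pow_zero,
        Equiv.Perm.coe_one, id_eq]
      unfold g2F
      rw [cs_pt, if_neg hs, sF_pt (by omega)]
      omega
    · rw [if_neg hg]
      have hl : C.lin r = Ln.z ∧ C.lout r = Ln.n := by
        generalize C.lin r = a at *
        generalize C.lout r = b at *
        cases a <;> cases b <;> simp_all [s1, ngL]
      by_cases hn0 : n = 0
      · subst hn0
        unfold g2F
        rw [pow_zero, Equiv.Perm.coe_one, id_eq, cs_pt, if_neg hs, sF_pt (by omega)]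
        omega
      · rw [pEpow_pt r 0 1 6 (n - 1) (by omega) (by omega) n (by omega), pow_one]
        have e : pE r = r.stE := rfl
        unfold g2F
        rw [cs_pt, e, lin_cyc hr hcE, lout_cyc hr hcE, if_neg hs, sF_pt (by omega)]
        rintro ⟨-, h2⟩
        exact h2.2 (C.arc r hr ht (Or.inl hl) h)

/-- the letters over a rim -/
lemma rnF {r : P.FSt} (hr : C.Rim r) {i : ℕ} (hi : i ≤ 6) :
    wnQ C.canF C.lsF C.lnF (pN.symm (pt r i 0)) =
    open Classical in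
    if C.trF (pt r i 0) then
      (if (C.g1F (pt r i 0) ∧ C.z1F (pt r i 0) = false) ∨
        (C.g2F (pt r i 0) ∧ C.z2F (pt r i 0) = false) then flet (C.ngF (pt r i 0)) else Ln.z)
    else (if C.g1F (pt r i 0) then Ln.n else if C.g1F (pt r i 0).stE then Ln.s else Ln.z) := by
  classical
  rw [pNs_pt0, wn_rim hr hi]
  unfold trF
  rw [cs_pt]
  by_cases ht : C.tr r
  · rw [if_pos ht]
    have h1 := nz_iff hr ht hi 0
    by_cases h2 : (i = 0 ∧ St C.kv C.ke r ∧ C.lin r ≠ Ln.z) ∨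
        (i = 6 ∧ En C.kv C.ke r ∧ C.lout r ≠ Ln.z)
    · rw [if_pos (h1.2 h2)]
      unfold ngF
      rw [cs_pt]
      rcases h2 with ⟨h3, h4, h5⟩ | ⟨h3, h4, h5⟩
      · rw [if_neg (by rintro ⟨h, -⟩; omega), if_pos ⟨h3, h4⟩, flet_lin hr ht h5]
      · rw [if_pos ⟨h3, h4⟩, flet_lout hr ht h5]
    · rw [if_neg (fun h => h2 (h1.1 h))]
      split_ifs with h3 h4
      · by_contra h5
        exact h2 (Or.inr ⟨h3.1, h3.2, h5⟩)
      · by_contra h5
        exact h2 (Or.inl ⟨h4.1, h4.2, h5⟩)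
      · rfl
  · rw [if_neg ht]
    obtain ⟨l1, l2⟩ := C.cut_lab r hr ht
    have hcE : pE.SameCycle r r.stE := ⟨1, rfl⟩
    have hs : s1 (C.lin r) (C.lout r) = true := by rw [l1]; rfl
    have g1 : C.g1F (pt r i 0) ↔ i = 0 ∧ St C.kv C.ke r := by
      unfold g1F; rw [cs_pt, if_pos hs, sF_pt hi]
    have g2 : C.g1F (pt r i 0).stE ↔ i = 6 ∧ En C.kv C.ke r := by
      rw [cut_iff hr ht]
      unfold g1F
      by_cases h6 : i < 6
      · rw [pt_stE r 0 h6, cs_pt, if_pos hs, sF_pt (by omega)]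
        constructor
        · rintro ⟨h, -⟩; omega
        · rintro ⟨h, -⟩; omega
      · obtain rfl : i = 6 := by omega
        rw [pt_stE6, cs_pt, lin_cyc hr hcE, lout_cyc hr hcE, if_pos hs, sF_pt (by omega)]
        exact ⟨fun h => ⟨rfl, h.2⟩, fun h => ⟨rfl, h.2⟩⟩
    rw [l1, l2]
    by_cases h1 : i = 0 ∧ St C.kv C.ke r
    · rw [if_neg (by rintro ⟨h, -⟩; omega), if_pos h1, if_pos (g1.2 h1)]
    · rw [if_neg (c := C.g1F (pt r i 0)) (fun h => h1 (g1.1 h))]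
      by_cases h2 : i = 6 ∧ En C.kv C.ke r
      · rw [if_pos h2, if_pos (g2.2 h2)]
      · rw [if_neg h2, if_neg h1, if_neg (fun h => h2 (g2.1 h))]

/-- the strands over a rim -/
lemma roF {r : P.FSt} (hr : C.Rim r) {i : ℕ} (hi : i ≤ 6) :
    woQ C.canF C.wF C.eF (pN.symm (pt r i 0)) =
    open Classical in
    decide (C.trF (pt r i 0) ∧ ((C.g1F (pt r i 0) ∧ C.z1F (pt r i 0) = true) ∨
        (C.g2F (pt r i 0) ∧ C.z2F (pt r i 0) = true))) := by
  classical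
  rw [pNs_pt0, wo_rim hr hi, decide_eq_decide]
  unfold trF
  rw [cs_pt]
  by_cases ht : C.tr r
  · rw [zz_iff hr ht hi 0]
    tauto
  · obtain ⟨l1, l2⟩ := C.cut_lab r hr ht
    rw [l1, l2]
    constructor
    · rintro (⟨-, -, h⟩ | ⟨-, -, h⟩) <;> exact absurd h (by decide)
    · rintro ⟨h, -⟩; exact absurd h ht

/-- the columns of the feet of cut bands -/
lemma rcF {r : P.FSt} (hr : C.Rim r) {i : ℕ} (hi : i ≤ 6) (ht : ¬ C.tr r) :
    (C.g1F (pt r i 0) → wcQ C.canF C.cF (pN.symm (pt r i 0)) = false) ∧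
    (C.g1F (pt r i 0).stE → wcQ C.canF C.cF (pN.symm (pt r i 0)) = true) := by
  obtain ⟨l1, l2⟩ := C.cut_lab r hr ht
  have hcE : pE.SameCycle r r.stE := ⟨1, rfl⟩
  have hs : s1 (C.lin r) (C.lout r) = true := by rw [l1]; rfl
  rw [pNs_pt0]
  constructor
  · intro h
    unfold g1F at h
    rw [cs_pt, if_pos hs, sF_pt hi] at h
    obtain ⟨rfl, h⟩ := h
    rw [C.wc_pt _ (Or.inl rfl) (by omega) (st_straight hr h (by rw [l1]; decide)).1]
    rfl
  · intro h
    unfold g1F at h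
    by_cases h6 : i < 6
    · rw [pt_stE r 0 h6, cs_pt, if_pos hs, sF_pt (by omega)] at h
      omega
    · obtain rfl : i = 6 := by omega
      rw [pt_stE6, cs_pt, lin_cyc hr hcE, lout_cyc hr hcE, if_pos hs, sF_pt (by omega)] at h
      have h2 := (cut_iff hr ht).2 h.2
      rw [C.wc_pt _ (Or.inr rfl) (by omega) (en_straight hr h2 (by rw [l2]; decide)).1]
      rfl

open Classical in
/-- **The certificate on the refinement by 7**, without coverage. -/
noncomputable def toQX0 (C : KC0 P) : QX0 (P.refine 7 h7) where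
  toRows7 := C.toCore1.toRows7
  can := C.canF
  can_facet := C.canF_facet
  w := C.wF
  e := C.eF
  ls := C.lsF
  ln := C.lnF
  c := C.cF
  ok := fun f h => C.okF (C.toCore1.toRows7_rw.1 h)
  gN := fun f g h0 h1 h => C.gNF (C.toCore1.toRows7_rw.1 h0) (C.toCore1.toRows7_rw.1 h1) h
  gN' := fun f h0 h1 h => C.gNF' (C.toCore1.toRows7_rw.1 h0) (C.toCore1.toRows7_rw.1 h1) h
  gS' := fun g h0 h1 h => C.gSF' (C.toCore1.toRows7_rw.1 h0) (C.toCore1.toRows7_rw.1 h1) h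
  gE := fun f g h0 h1 h => C.gEF (C.toCore1.toRows7_rw.1 h0) (C.toCore1.toRows7_rw.1 h1) h
  gEr := fun f g h0 h1 h => C.gErF (C.toCore1.toRows7_rw.1 h0) (C.toCore1.toRows7_rw.1 h1) h
  gWr := fun f g h0 h1 h => C.gWrF (C.toCore1.toRows7_rw.1 h0) (C.toCore1.toRows7_rw.1 h1) h
  gE' := fun f h0 h1 h => C.gEF' (C.toCore1.toRows7_rw.1 h0) (C.toCore1.toRows7_rw.1 h1) h
  gW' := fun f h0 h1 h => C.gWF' (C.toCore1.toRows7_rw.1 h0) (C.toCore1.toRows7_rw.1 h1) h
  tr := C.trF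
  tr_E := fun t ht => by
    obtain ⟨r, i, hi, hr, rfl⟩ := C.toCore1.exists_rim_pt ht
    exact trF_E hr hi 0
  tr_far := fun t ht => by
    obtain ⟨r, i, hi, hr, rfl⟩ := C.toCore1.exists_rim_pt ht
    rw [far_pt r hi]; unfold trF; rw [cs_pt, cs_pt]; exact C.tr_far r hr
  ac := C.acF
  ac_E := fun t ht => by
    obtain ⟨r, i, hi, hr, rfl⟩ := C.toCore1.exists_rim_pt ht
    exact acF_E hr hi 0
  ac_tr := fun t ht h => by
    obtain ⟨r, i, hi, hr, rfl⟩ := C.toCore1.exists_rim_pt ht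
    unfold trF at h; unfold acF; rw [cs_pt] at h ⊢; exact C.ac_tr r hr h
  ac_far := fun t ht => by
    obtain ⟨r, i, hi, hr, rfl⟩ := C.toCore1.exists_rim_pt ht
    rw [far_pt r hi]; unfold acF; rw [cs_pt, cs_pt]; exact C.ac_far r hr
  ng := C.ngF
  ng_E := fun t ht => by
    obtain ⟨r, i, hi, hr, rfl⟩ := C.toCore1.exists_rim_pt ht
    exact ngF_E hr hi 0
  ng_far := fun t ht => by
    obtain ⟨r, i, hi, hr, rfl⟩ := C.toCore1.exists_rim_pt ht
    rw [far_pt r hi]; unfold ngF; rw [cs_pt, cs_pt]; exact ngL_far hr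
  z1 := C.z1F
  z1_E := fun t ht => by
    obtain ⟨r, i, hi, hr, rfl⟩ := C.toCore1.exists_rim_pt ht
    exact z1F_E hr hi 0
  z1_far := fun t ht => by
    obtain ⟨r, i, hi, hr, rfl⟩ := C.toCore1.exists_rim_pt ht
    rw [far_pt r hi]; unfold z1F; rw [cs_pt, cs_pt]; exact z1L_far hr
  z2 := C.z2F
  z2_E := fun t ht => by
    obtain ⟨r, i, hi, hr, rfl⟩ := C.toCore1.exists_rim_pt ht
    exact z2F_E hr hi 0
  z2_far := fun t ht => by
    obtain ⟨r, i, hi, hr, rfl⟩ := C.toCore1.exists_rim_pt ht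
    rw [far_pt r hi]; unfold z2F; rw [cs_pt, cs_pt]; exact z2L_far hr
  z12 := fun t _ h => z12F t h
  g1 := C.g1F
  g2 := C.g2F
  g1_ac := fun t ht h => by
    obtain ⟨r, i, hi, hr, rfl⟩ := C.toCore1.exists_rim_pt ht
    unfold acF; rw [cs_pt]; exact g1_acF hr h
  g1_ex := fun t ht h => by
    obtain ⟨r, i, hi, hr, rfl⟩ := C.toCore1.exists_rim_pt ht
    unfold acF at h; rw [cs_pt] at h; exact ex_g1 hr h i
  g2_ex := fun t ht h => by
    obtain ⟨r, i, hi, hr, rfl⟩ := C.toCore1.exists_rim_pt ht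
    unfold trF at h; rw [cs_pt] at h; exact ex_g2 hr (C.ac_tr r hr h) i
  arc := fun t ht h h1 => by
    obtain ⟨r, i, hi, hr, rfl⟩ := C.toCore1.exists_rim_pt ht
    unfold trF at h; rw [cs_pt] at h; exact arcF hr h hi h1
  rn := fun t ht => by
    obtain ⟨r, i, hi, hr, rfl⟩ := C.toCore1.exists_rim_pt ht
    exact rnF hr hi
  ro := fun t ht => by
    obtain ⟨r, i, hi, hr, rfl⟩ := C.toCore1.exists_rim_pt ht
    exact roF hr hi
  rc := fun t ht h => by
    obtain ⟨r, i, hi, hr, rfl⟩ := C.toCore1.exists_rim_pt ht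
    unfold trF at h; rw [cs_pt] at h; exact rcF hr hi h
  tu := C.tuF
  tu_T := fun t ht h => by
    obtain ⟨r, i, hi, hr, rfl⟩ := C.toCore1.exists_rim_pt ht
    unfold tuF at h; rw [cs_pt] at h
    unfold Rows7.jf canF
    rw [pNs_pt0]
    rcases h.turned with h1 | h1
    · exact Or.inl (canP_rL h1 hi (by omega))
    · exact Or.inr (canP_rR h1 hi (by omega))
  tu_0 := fun t ht h h1 => by
    obtain ⟨r, i, hi, hr, rfl⟩ := C.toCore1.exists_rim_pt ht
    unfold trF at h; rw [cs_pt] at h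
    unfold tuF; rw [cs_pt]
    apply TU_0 hr h
    rcases (zz_iff hr h hi 0).1 h1 with ⟨-, h2⟩ | ⟨-, h2⟩
    · exact Or.inl h2
    · exact Or.inr h2
  tu_cov := fun t ht h => by
    obtain ⟨r, i, hi, hr, rfl⟩ := C.toCore1.exists_rim_pt ht
    exact tu_covF hr hi h
  tu_sh := fun t ht h h1 => by
    obtain ⟨r, i, hi, hr, rfl⟩ := C.toCore1.exists_rim_pt ht
    unfold trF at h; rw [cs_pt] at h
    exact tu_shF hr h hi h1

lemma tuLitF : C.toQX0.TuLit := by
  intro t ht h h1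
  obtain ⟨r, i, hi, hr, rfl⟩ := C.toCore1.exists_rim_pt ht
  change ¬ C.tuF (pt r i 0) at h
  change C.canF (Rows7.jf (pt r i 0)) = (pN.symm (pt r i 0)).rL ∨
    C.canF (Rows7.jf (pt r i 0)) = (pN.symm (pt r i 0)).rR at h1
  unfold tuF at h; rw [cs_pt] at h
  have hT : Turned C.can r := by
    rcases C.straight_or (pN.symm r) with h2 | h2
    · exfalso
      unfold Rows7.jf canF at h1
      rw [pNs_pt0] at h1
      rcases h2 with h2 | h2
      · rw [canP_pt h2 hi (by omega)] at h1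
        rcases h1 with h1 | h1
        · exact rL_ne _ h1.symm
        · exact rR_ne _ h1.symm
      · rw [canP_r2 h2 hi (by omega)] at h1
        rcases h1 with h1 | h1
        · exact rL_ne_r2 _ h1.symm
        · exact rR_ne_r2 _ h1.symm
    · exact h2
  rcases C.tur r hr hT with h2 | h2
  · exact lit_all hr hi h2
  · exact absurd h2 h

lemma JF_eq : (fun F : (P.refine 7 h7).Facet => C.toQX0.rw F = 0) = C.JF := by
  funext F
  exact propext C.toCore1.toRows7_rw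

/-- **The certificate on the refinement by 7.** -/
noncomputable def toQXL (C : KC0 P) : QXL (P.refine 7 h7) where
  toQX0 := C.toQX0
  tu_lit := tuLitF
  L := C.LeF
  L_rw := fun F h => C.toCore1.toRows7_rw.2 (LeF_core h)
  L_jf := fun t ht => LeF_rim ht
  L_no := fun F h => LeF_no h
  Pl := PlF C.Pl
  uniq := fun n g n' g' h h' hL e => PlF_uniq (L := C.Le) C.Pl_uniq h h' e hL
  K := C.KF C.Hg
  nc := fun E s h => KF_nc C.Hg_nc h
  sup := fun F h => by
    obtain ⟨g, E, n, -, h1, h2⟩ := leanF h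
    refine ⟨g, n, E, h1, ?_⟩
    rw [JF_eq]
    exact h2
  cov := fun F h0 hL j => by
    obtain ⟨z, h1, h2⟩ := covF F (C.toCore1.toRows7_rw.1 h0) hL j
    refine ⟨z, fun y hy hyz => ?_, ?_⟩
    · obtain ⟨G, hG, hG2, e⟩ := h1 y hy hyz
      exact ⟨G, C.toCore1.toRows7_rw.2 hG, hG2, e⟩
    · rcases h2 with ⟨G, hG, e, h3⟩ | h2
      · exact Or.inl ⟨G, C.toCore1.toRows7_rw.2 hG, e, h3⟩
      · exact Or.inr h2
  lane := fun F h => by
    obtain ⟨s, h1, h2, h3, h4⟩ := C.Le_cut _ h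
    obtain ⟨G, hG, h5⟩ := exists_letter h1 h2 h3 h4
    exact ⟨G, C.toCore1.toRows7_rw.2 hG, h5.symm⟩

end KC0

end Pool.Agent.MP42K
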