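import Pool.Agent.MP42.K.G0

/-!
# The rules without lines, and the existence of lines (helper73)

* `KV J N H V`: the rules of the lines;
* `KG0.exists_V`: if every facet of `J` outside `N` meets `N` in a connected piece, then there are
  lines `V` such that all rules hold, with given lines at the facets without vertices of `N`.
-/

set_option autoImplicit false
set_option linter.unusedSectionVars false

namespace Pool.Agent.MP42K

open Pool.Agent.Helper55.UNF Pool.Agent.Helper55.UNF.GridSolid Pool.Agent.MP42G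
open Pool.Agent.MP42H Pool.Agent.MP42X Pool.Agent.MP42R
open Core1 (jf)

variable {P : GridSolid}

/-- The local rules of the lines. -/
structure KV (J : P.Facet → Prop) (N : Nb P) (H : P.FSt → ℤ) (V : P.FSt → Prop) : Prop where
  V_rR : ∀ s : P.FSt, J s.facet → (V s.rR ↔ ¬ V s)
  vr : ∀ s : P.FSt, J s.facet → ¬ N.kf s.facet → N.ke s → (V s ↔ H s ≠ 0)
  vx : ∀ s : P.FSt, J s.facet → N.kv s → ¬ N.ke s → (V s ↔ H s = 0)
  vx' : ∀ t : P.FSt, J t.facet → N.kv t → ¬ N.ke t.rL → (V t ↔ H (pre t) ≠ 0)

/-- Every facet of `J` outside `N` meets `N` in a connected piece. -/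
structure Nb.Thin (N : Nb P) (J : P.Facet → Prop) : Prop where
  adj : ∀ s : P.FSt, J s.facet → ¬ N.kf s.facet → N.kv s → N.kv s.rR → N.ke s
  opp : ∀ s : P.FSt, J s.facet → ¬ N.kf s.facet → N.kv s → N.kv s.r2 → N.kv s.rR ∨ N.kv s.rL

/-- no corner of the facet is in `N`, or the facet is in `N` -/
def Nb.Away (N : Nb P) (s : P.FSt) : Prop :=
  N.kf s.facet ∨ (¬ N.kv s ∧ ¬ N.kv s.rR ∧ ¬ N.kv s.r2 ∧ ¬ N.kv s.rL)

namespace KG0

variable {J : P.Facet → Prop} {N : Nb P} {H : P.FSt → ℤ}

/-- the lines at a corner in `N` -/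
def need (N : Nb P) (H : P.FSt → ℤ) (u : P.FSt) : Prop := (N.ke u ∧ H u ≠ 0) ∨ (¬ N.ke u ∧ H u = 0)

lemma need_step (h : KG0 J N H) (hT : N.Thin J) {u : P.FSt} (hJ : J u.facet)
    (hf : ¬ N.kf u.facet) (hu : N.kv u) (hu' : N.kv u.rR) : need N H u.rR ↔ ¬ need N H u := by
  have hk := hT.adj u hJ hf hu hu'
  have b1 := h.hb u hJ hf hu
  have b2 := h.hb u.rR hJ hf hu'
  unfold need
  by_cases hk' : N.ke u.rR
  · have e := h.r1 u hJ hf hk hk'
    simp only [hk, hk', true_and, not_true_eq_false, false_and, or_false, ne_eq, not_not]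
    omega
  · have e := h.r2 u hJ hf hk hk'
    simp only [hk, hk', true_and, not_true_eq_false, false_and, or_false, ne_eq, not_not,
      false_or, not_false_eq_true]
    omega

open Classical in
/-- the lines -/
noncomputable def VV (N : Nb P) (H : P.FSt → ℤ) (V0 : P.FSt → Prop) (s : P.FSt) : Prop :=
  if N.kf s.facet then V0 s
  else if N.kv s then need N H s
  else if N.kv s.rR then ¬ need N H s.rR
  else if N.kv s.r2 then need N H s.r2
  else if N.kv s.rL then ¬ need N H s.rL
  else V0 s

lemma VV_away {V0 : P.FSt → Prop} {s : P.FSt} (h : N.Away s) : VV N H V0 s ↔ V0 s := by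
  unfold VV
  rcases h with h | ⟨h1, h2, h3, h4⟩
  · rw [if_pos h]
  · split_ifs <;> simp_all

lemma VV_kv {V0 : P.FSt → Prop} {s : P.FSt} (hf : ¬ N.kf s.facet) (h : N.kv s) :
    VV N H V0 s ↔ need N H s := by
  unfold VV; rw [if_neg hf, if_pos h]

/-- **Lines exist.** -/
theorem exists_V (h : KG0 J N H) (hT : N.Thin J) {V0 : P.FSt → Prop}
    (h0 : ∀ s : P.FSt, J s.facet → (V0 s.rR ↔ ¬ V0 s)) : KV J N H (VV N H V0) := by
  constructor
  · intro s hJ
    by_cases hf : N.kf s.facet
    · have e1 : VV N H V0 s ↔ V0 s := VV_away (Or.inl hf)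
      have e2 : VV N H V0 s.rR ↔ V0 s.rR := VV_away (Or.inl hf)
      rw [e1, e2]; exact h0 s hJ
    · have j0 : J s.facet := hJ
      have s01 := fun a b => h.need_step hT (u := s) hJ hf a b
      have s12 := fun a b => h.need_step hT (u := s.rR) hJ hf a b
      have s23 := fun a b => h.need_step hT (u := s.r2) hJ hf a b
      have s30 := fun a b => h.need_step hT (u := s.rL) hJ hf a b
      rw [FSt.rR_rR] at s12
      rw [FSt.r2_rR] at s23
      rw [FSt.rL_rR] at s30
      have o02 := hT.opp s hJ hf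
      have o13 := hT.opp s.rR hJ hf
      rw [FSt.rR_r2, FSt.rR_rR, FSt.rR_rL] at o13
      unfold VV
      rw [FSt.facet_rR, FSt.rR_rR, FSt.rR_r2, FSt.rR_rL, if_neg hf, if_neg hf]
      have hv := h0 s hJ
      generalize need N H s = n0 at *
      generalize need N H s.rR = n1 at *
      generalize need N H s.r2 = n2 at *
      generalize need N H s.rL = n3 at *
      generalize V0 s = v at *
      generalize V0 s.rR = v' at *
      generalize N.kv s = c0 at *
      generalize N.kv s.rR = c1 at *
      generalize N.kv s.r2 = c2 at *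
      generalize N.kv s.rL = c3 at *
      by_cases c0 <;> by_cases c1 <;> by_cases c2 <;> by_cases c3 <;> simp_all
  · intro s hJ hf hk
    rw [VV_kv hf (N.ke_kv s hk)]
    unfold need
    tauto
  · intro s hJ hv hk
    rw [VV_kv (Nb.nkf_of_nke hk) hv]
    unfold need
    tauto
  · intro t hJ hv hk
    have hf : ¬ N.kf t.facet := by
      have := Nb.nkf_of_nke (s := t.rL) hk
      exact this
    rw [VV_kv hf hv]
    unfold need
    have b2 := h.hb t hJ hf hv
    have b1 := h.hb' t hJ hv hk
    by_cases hk' : N.ke t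
    · have e := h.r3 t hJ hv hk hk'
      rw [e]
      tauto
    · have e := h.r4 t hJ hv hk hk'
      simp only [hk', false_and, false_or, not_false_eq_true, true_and, ne_eq]
      omega

end KG0

end Pool.Agent.MP42K
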